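import Mathlib

section

/-! Definitions for the proof that Sylow 13-subgroups of finite solvable uniformly
semi-rational groups have exponent 13 and class at most two. -/

namespace Pool.Agent.N9181

open scoped commutatorElement

instance fact13 : Fact (Nat.Prime 13) := ⟨by norm_num⟩

abbrev K : Type := ZMod 13

abbrev RM (M : ℕ) : Type := ZMod (13 ^ (M + 1))

def red (M : ℕ) : RM M →+* K := ZMod.castHom (dvd_pow_self 13 (Nat.succ_ne_zero M)) K

section Lin

variable {V : Type} [AddCommGroup V] [Module K V]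

/-- dimension of an eigenspace -/
noncomputable def ed (a : Module.End K V) (c : K) : ℕ := Module.finrank K (a.eigenspace c)

/-- dimension of the part of an eigenspace inside `W` -/
noncomputable def edOn (W : Submodule K V) (a : Module.End K V) (c : K) : ℕ :=
  Module.finrank K (W ⊓ a.eigenspace c : Submodule K V)

/-- `x` is the trace of a lift of `a` modulo `13 ^ (M + 1)` whose order is prime to `13` -/
def IsBt (a : Module.End K V) (M : ℕ) (x : RM M) : Prop :=
  ∃ (n : ℕ) (b : Module.Basis (Fin n) K V) (A : Matrix (Fin n) (Fin n) (RM M)) (N : ℕ),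
    ¬ 13 ∣ N ∧ A ^ N = 1 ∧ A.map (red M) = LinearMap.toMatrix b b a ∧ A.trace = x

/-- the Brauer trace modulo `13 ^ (M + 1)` -/
noncomputable def bt (a : Module.End K V) (M : ℕ) : RM M := Classical.epsilon (IsBt a M)

variable {H : Type} [Group H]

def RealOp (ρ : Representation K H V) (h : H) : Prop := ∀ M, bt (ρ h) M = bt (ρ h⁻¹) M

def HReal (ρ : Representation K H V) : Prop := ∀ h v, v ≠ 0 → ρ h v = v → RealOp ρ h

def HU (ρ : Representation K H V) (N m : ℕ) : Prop :=
  ∀ (h : H) (j : ℕ), j.Coprime N → ∀ M,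
    bt (ρ (h ^ j)) M + bt (ρ (h ^ (j * m))) M = bt (ρ h) M + bt (ρ (h ^ m)) M

def HBal (ρ : Representation K H V) : Prop :=
  ∀ h v, v ≠ 0 → ρ h v = v → ed (ρ h) 3 = ed (ρ h) 9

def HEP (ρ : Representation K H V) (c : K) : Prop := ∀ v, ∃ h, ρ h v = c • v

def Cop (ρ : Representation K H V) : Prop := ∀ h, ∃ N, ¬ 13 ∣ N ∧ (ρ h) ^ N = 1

def Irr (ρ : Representation K H V) : Prop :=
  (∃ v : V, v ≠ 0) ∧ ∀ W : Submodule K V, (∀ h, ∀ v ∈ W, ρ h v ∈ W) → W = ⊥ ∨ W = ⊤

def Scal (ρ : Representation K H V) : Prop := ∃ z, ∀ v, ρ z v = (3 : K) • v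

def Reg (ρ : Representation K H V) (v : V) : Prop :=
  v ≠ 0 ∧ ∀ (h : H) (a : ℕ), (ρ h) ^ (3 ^ a) = 1 → ρ h v = v → ρ h = 1

def HFP (ρ : Representation K H V) : Prop :=
  ∀ (h : H) (a : ℕ) (v : V), h ^ (3 ^ a) = 1 → v ≠ 0 → ρ h v = v → ρ h = 1

def HFree (ρ : Representation K H V) : Prop := ∀ h v, v ≠ 0 → ρ h v = v → ρ h = 1

def FreeOn (ρ : Representation K H V) (A : Subgroup H) : Prop :=
  ∀ a ∈ A, ∀ v, v ≠ 0 → ρ a v = v → a = 1

def IsFix (ρ : Representation K H V) (J : Subgroup H) (W : Submodule K V) : Prop :=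
  ∀ v, v ∈ W ↔ ∀ y ∈ J, ρ y v = v

/-- a system of blocks permuted by `H` -/
structure BD (ρ : Representation K H V) (I : Type) [MulAction H I]
    (W : I → Submodule K V) : Prop where
  map : ∀ (h : H) (i : I), ∀ w ∈ W i, ρ h w ∈ W (h • i)
  ind : iSupIndep W
  top : iSup W = ⊤
  ne : ∀ i, W i ≠ ⊥

def BScal (ρ : Representation K H V) {I : Type} [MulAction H I] (W : I → Submodule K V) : Prop :=
  ∀ i, ∃ z : H, z • i = i ∧ ∀ w ∈ W i, ρ z w = (3 : K) • w

def BReg (ρ : Representation K H V) {I : Type} [MulAction H I] (W : I → Submodule K V)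
    (r : I → V) : Prop :=
  ∀ i, r i ∈ W i ∧ r i ≠ 0 ∧ ∀ (h : H) (a : ℕ), h • i = i →
    (∀ w ∈ W i, ((ρ h) ^ (3 ^ a)) w = w) → ρ h (r i) = r i → ∀ w ∈ W i, ρ h w = w

def BBal (ρ : Representation K H V) {I : Type} [MulAction H I] (W : I → Submodule K V) : Prop :=
  ∀ (i : I) (h : H), h • i = i → (∃ w ∈ W i, w ≠ 0 ∧ ρ h w = w) →
    edOn (W i) (ρ h) 3 = edOn (W i) (ρ h) 9

/-- `V` is an elementary abelian normal subgroup of `H` with the conjugation action -/
structure Emb (ρ : Representation K H V) (ι : V → H) : Prop where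
  inj : Function.Injective ι
  add : ∀ v w, ι (v + w) = ι v * ι w
  act : ∀ g v, ι (ρ g v) = g * ι v * g⁻¹

end Lin

section Grp

def NM (H : Type) (N m : ℕ) : Prop := Nat.card H ∣ N ∧ 0 < N ∧ m.Coprime N

/-- internal form of uniform semi-rationality -/
def PP (G : Type) [Group G] (N m : ℕ) : Prop :=
  NM G N m ∧ ∀ (x : G) (j : ℕ), j.Coprime N → IsConj x (x ^ j) ∨ IsConj (x ^ m) (x ^ j)

variable {H : Type} [Group H]

/-- `A` cyclic, central in `F`, with nondegenerate commutator pairing on `F / A` -/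
structure PD (A F : Subgroup H) : Prop where
  cyc : IsCyclic A
  le : A ≤ F
  cen : ∀ a ∈ A, ∀ x ∈ F, a * x = x * a
  comm : ∀ x ∈ F, ∀ y ∈ F, ⁅x, y⁆ ∈ A
  nd : ∀ x ∈ F, (∀ y ∈ F, x * y = y * x) → x ∈ A

structure SD (A F : Subgroup H) : Prop extends PD A F where
  nA : A.Normal
  nF : F.Normal
  ff : ∀ c ∈ Subgroup.centralizer (A : Set H), (∀ y ∈ F, ⁅c, y⁆ ∈ A) → c ∈ F

/-- isometries of a pairing -/
def Iso {U Z : Type} [CommGroup U] [CommGroup Z] (B : U →* U →* Z) : Subgroup (MulAut U) where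
  carrier := {s | ∀ x y, B (s x) (s y) = B x y}
  one_mem' := fun _ _ => rfl
  mul_mem' := fun {s t} hs ht x y => by
    show B (s (t x)) (s (t y)) = B x y
    rw [hs, ht]
  inv_mem' := fun {s} hs x y => by
    have := hs (s⁻¹ x) (s⁻¹ y)
    simpa using this.symm

def perp {U Z : Type} [CommGroup U] [CommGroup Z] (B : U →* U →* Z) (S : Subgroup U) :
    Subgroup U where
  carrier := {y | ∀ x ∈ S, B x y = 1}
  one_mem' := fun x _ => map_one _
  mul_mem' := fun {a b} ha hb x hx => by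
    rw [map_mul, ha x hx, hb x hx, one_mul]
  inv_mem' := fun {a} ha x hx => by
    rw [map_inv, ha x hx, inv_one]

/-- nondegenerate alternating pairing -/
def Symp {U Z : Type} [CommGroup U] [CommGroup Z] (B : U →* U →* Z) : Prop :=
  (∀ x, B x x = 1) ∧ ∀ x, (∀ y, B x y = 1) → x = 1

def chF (p : ℕ) : ℕ → ℕ → ℕ
  | 0, _ => 1
  | f + 1, u => if u ≤ 1 then 1 else u * chF p f (u / p)

/-- the chain bound `u * (u / p) * (u / p ^ 2) * ⋯` -/
def ch (p u : ℕ) : ℕ := chF p u u

/-- bounds for the order of an isometry group of a pairing on a group of order `e ^ 2` -/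
def IB (e I : ℕ) : Prop :=
  I ≤ ch 2 (e ^ 2) ∧
    I ≤ ch 3 ((3 ^ e.factorization 3) ^ 2) * ch 2 ((e / 3 ^ e.factorization 3) ^ 2)

/-- the data carried through the induction on the order, relative to a normal subgroup `B` -/
structure GD (B R Q : Subgroup H) (z : H) : Prop where
  nR : R.Normal
  nQ : Q.Normal
  le1 : B ≤ R
  le2 : R ≤ Q
  cop : ¬ 13 ∣ B.relIndex R
  pw : ∀ k ∈ Q, ∃ a : ℕ, k ^ (13 ^ a) ∈ R
  idx : ¬ 13 ∣ Q.index
  zn : z ∉ Q
  z3 : z ^ 3 ∈ Q
  zc : ∀ g : H, ⁅g, z⁆ ∈ Q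

def Good (G : Type) [Group G] : Prop := ∃ (R Q : Subgroup G) (z : G), GD ⊥ R Q z

end Grp

end Pool.Agent.N9181

end

section

namespace Pool.Agent.N9181

open scoped commutatorElement

theorem exists_j (r N j0 : ℕ) (hr : r ∣ N) (hN : 0 < N) (hj : j0.Coprime r) :
    ∃ j : ℕ, j.Coprime N ∧ j ≡ j0 [MOD r] := by
  have : NeZero N := ⟨hN.ne'⟩
  obtain ⟨u, hu⟩ := ZMod.unitsMap_surjective hr (ZMod.unitOfCoprime j0 hj)
  refine ⟨(u : ZMod N).val, ZMod.val_coe_unit_coprime u, ?_⟩
  rw [← ZMod.natCast_eq_natCast_iff]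
  have := congrArg (fun x : (ZMod r)ˣ => (x : ZMod r)) hu
  simp only [ZMod.unitsMap_val, ZMod.coe_unitOfCoprime] at this
  rw [← this, ZMod.natCast_val]

theorem xbasic_exp (p n : ℕ) (hp : p.Prime) (hn : n ≠ 0) :
    ∃ e a n' : ℕ, n = p ^ a * n' ∧ ¬ p ∣ n' ∧ e ≡ 1 [MOD p ^ a] ∧ n' ∣ e ∧
      ∃ e' : ℕ, e' ≡ 1 [MOD n'] ∧ p ^ a ∣ e' := by
  obtain ⟨a, n', hn', h⟩ := Nat.exists_eq_pow_mul_and_not_dvd hn p hp.ne_one
  have hc : (p ^ a).Coprime n' := Nat.Coprime.pow_left a ((Nat.Prime.coprime_iff_not_dvd hp).2 hn')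
  obtain ⟨e, he1, he2⟩ := Nat.chineseRemainder hc 1 0
  obtain ⟨e', he1', he2'⟩ := Nat.chineseRemainder hc 0 1
  exact ⟨e, a, n', h, hn', he1, (Nat.modEq_zero_iff_dvd).1 he2, e', he2',
    (Nat.modEq_zero_iff_dvd).1 he1'⟩

theorem xbasic_pow {T : Type} [Monoid T] (x : T) (d e : ℕ) (hd : x ^ d = 1) (he : e ≡ 1 [MOD d]) :
    x ^ e = x := by
  rw [pow_eq_pow_of_modEq he hd, pow_one]

theorem p_part {G : Type} [Group G] [Finite G] (p : ℕ) (hp : p.Prime) (g : G) :
    ∃ e a : ℕ, (g ^ e) ^ (p ^ a) = 1 ∧ (∀ b : ℕ, p ^ b ∣ Nat.card G → e ≡ 1 [MOD p ^ b]) ∧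
      ∀ (T : Type) [Monoid T] (f : G →* T) (b : ℕ), (f g) ^ (p ^ b) = 1 → f (g ^ e) = f g := by
  obtain ⟨e, a, n', h, hn', he, hd, -⟩ := xbasic_exp p (Nat.card G) hp Nat.card_pos.ne'
  have key : ∀ b : ℕ, p ^ b ∣ Nat.card G → e ≡ 1 [MOD p ^ b] := by
    intro b hb
    rw [h] at hb
    exact he.of_dvd (Nat.Coprime.dvd_of_dvd_mul_right
      (Nat.Coprime.pow_left b ((Nat.Prime.coprime_iff_not_dvd hp).2 hn')) hb)
  refine ⟨e, a, ?_, key, ?_⟩
  · obtain ⟨k, rfl⟩ := hd
    rw [← pow_mul, show n' * k * p ^ a = (p ^ a * n') * k by ring, ← h, pow_mul, pow_card_eq_one',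
      one_pow]
  · intro T _ f b hb
    have h1 : (f g) ^ (Nat.card G) = 1 := by rw [← map_pow, pow_card_eq_one', map_one]
    have h2 := pow_gcd_eq_one.2 ⟨hb, h1⟩
    obtain ⟨c, -, hc⟩ := (Nat.dvd_prime_pow hp).1 (Nat.gcd_dvd_left (p ^ b) (Nat.card G))
    rw [map_pow]
    refine xbasic_pow _ _ _ h2 ?_
    have := Nat.gcd_dvd_right (p ^ b) (Nat.card G)
    rw [hc] at this ⊢
    exact key c this

theorem q_part {G : Type} [Group G] [Finite G] (p : ℕ) (hp : p.Prime) (g : G) :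
    ∃ e : ℕ, ¬ p ∣ orderOf (g ^ e) ∧ (∀ d : ℕ, d ∣ Nat.card G → ¬ p ∣ d → e ≡ 1 [MOD d]) ∧
      (∀ (T : Type) [Monoid T] (f : G →* T) (d : ℕ), ¬ p ∣ d → (f g) ^ d = 1 → f (g ^ e) = f g) ∧
      ∃ u : G, (∃ a : ℕ, u ^ (p ^ a) = 1) ∧ g = g ^ e * u ∧ ∃ k : ℕ, u = g ^ k := by
  obtain ⟨e0, a, n', h, hn', he0, hd0, e, he, hd⟩ :=
    xbasic_exp p (Nat.card G) hp Nat.card_pos.ne'
  have key : ∀ d : ℕ, d ∣ Nat.card G → ¬ p ∣ d → e ≡ 1 [MOD d] := by
    intro d hd hpd
    rw [h] at hd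
    exact he.of_dvd (Nat.Coprime.dvd_of_dvd_mul_left
      (Nat.Coprime.pow_right a ((Nat.Prime.coprime_iff_not_dvd hp).2 hpd).symm) hd)
  refine ⟨e, ?_, key, ?_, g ^ e0, ⟨a, ?_⟩, ?_, e0, rfl⟩
  · intro hh
    apply hn'
    refine hh.trans (orderOf_dvd_of_pow_eq_one ?_)
    obtain ⟨k, rfl⟩ := hd
    rw [← pow_mul, show p ^ a * k * n' = (p ^ a * n') * k by ring, ← h, pow_mul, pow_card_eq_one',
      one_pow]
  · intro T _ f d hpd hb
    have h1 : (f g) ^ (Nat.card G) = 1 := by rw [← map_pow, pow_card_eq_one', map_one]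
    have h2 := pow_gcd_eq_one.2 ⟨hb, h1⟩
    rw [map_pow]
    exact xbasic_pow _ _ _ h2 (key _ (Nat.gcd_dvd_right _ _)
      fun hh => hpd (hh.trans (Nat.gcd_dvd_left _ _)))
  · obtain ⟨k, rfl⟩ := hd0
    rw [← pow_mul, show n' * k * p ^ a = (p ^ a * n') * k by ring, ← h, pow_mul, pow_card_eq_one',
      one_pow]
  · rw [← pow_add]
    refine (xbasic_pow g (Nat.card G) _ pow_card_eq_one' ?_).symm
    rw [h]
    refine (Nat.modEq_and_modEq_iff_modEq_mul
      (Nat.Coprime.pow_left a ((Nat.Prime.coprime_iff_not_dvd hp).2 hn'))).1 ⟨?_, ?_⟩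
    · simpa using ((Nat.modEq_zero_iff_dvd).2 hd).add he0
    · simpa using he.add ((Nat.modEq_zero_iff_dvd).2 hd0)

theorem exists_faithful {V : Type} [AddCommGroup V] [Module K V] [Module.Finite K V]
    {H : Type} [Group H] [Finite H] (ρ : Representation K H V) :
    ∃ (H' : Type) (_ : Group H') (_ : Finite H') (π : H →* H') (ρ' : Representation K H' V),
      Function.Surjective π ∧ Function.Injective ρ' ∧ (∀ h, ρ' (π h) = ρ h) ∧
      Nat.card H' ∣ Nat.card H ∧
      ((∀ (h : H) (a : ℕ), h ^ (13 ^ a) = 1 → ρ h = 1) → ¬ 13 ∣ Nat.card H') := by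
  have hinj : Function.Injective (QuotientGroup.lift (MonoidHom.ker ρ) ρ le_rfl) := by
    rw [injective_iff_map_eq_one]
    intro x hx
    obtain ⟨g, rfl⟩ := QuotientGroup.mk_surjective x
    exact (QuotientGroup.eq_one_iff _).2 hx
  refine ⟨H ⧸ MonoidHom.ker ρ, inferInstance, inferInstance, QuotientGroup.mk' _,
    QuotientGroup.lift (MonoidHom.ker ρ) ρ le_rfl, QuotientGroup.mk'_surjective _, hinj,
    fun h => rfl, Subgroup.card_quotient_dvd_card _, ?_⟩
  intro h13 hd
  obtain ⟨x, hx⟩ := exists_prime_orderOf_dvd_card' 13 hd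
  obtain ⟨g, rfl⟩ := QuotientGroup.mk'_surjective _ x
  obtain ⟨e, a, h1, -, h3⟩ := p_part 13 (by norm_num) g
  have h4 := h3 _ (QuotientGroup.mk' (MonoidHom.ker ρ)) 1
    (by rw [pow_one]; exact orderOf_dvd_iff_pow_eq_one.1 hx.dvd)
  have h5 : QuotientGroup.mk' (MonoidHom.ker ρ) (g ^ e) = 1 :=
    (QuotientGroup.eq_one_iff _).2 (h13 _ a h1)
  rw [← h4, h5, orderOf_one] at hx
  omega

theorem exists_res {V : Type} [AddCommGroup V] [Module K V] [Module.Finite K V]
    {H : Type} [Group H] (ρ : Representation K H V) (H1 : Subgroup H) (W : Submodule K V)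
    (hW : ∀ h ∈ H1, ∀ w ∈ W, ρ h w ∈ W) :
    ∃ σ : Representation K H1 W, ∀ (h : H1) (w : W), (σ h w : V) = ρ h w :=
  ⟨Representation.subrepresentation (ρ.comp H1.subtype) W (fun g w hw => hW g g.2 w hw),
    fun _ _ => rfl⟩

theorem ed_res {V : Type} [AddCommGroup V] [Module K V] [Module.Finite K V]
    (W : Submodule K V) (a : Module.End K V) (s : Module.End K W)
    (hs : ∀ w : W, (s w : V) = a w) (c : K) : ed s c = edOn W a c := by
  unfold ed edOn
  rw [← Submodule.finrank_map_subtype_eq]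
  suffices h : Submodule.map W.subtype (s.eigenspace c) = W ⊓ a.eigenspace c by rw [h]
  ext v
  simp only [Submodule.mem_map, Module.End.mem_eigenspace_iff, Submodule.mem_inf,
    Submodule.subtype_apply]
  constructor
  · rintro ⟨w, hw, rfl⟩
    exact ⟨w.2, by rw [← hs, hw]; rfl⟩
  · rintro ⟨h1, h2⟩
    exact ⟨⟨v, h1⟩, Subtype.ext (by rw [hs]; exact h2), rfl⟩

theorem edOn_top {V : Type} [AddCommGroup V] [Module K V] [Module.Finite K V]
    (a : Module.End K V) (c : K) : edOn ⊤ a c = ed a c := by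
  unfold edOn ed
  rw [top_inf_eq]

theorem xbasic_sum {V : Type} [AddCommGroup V] [Module K V] [Module.Finite K V]
    (W : Submodule K V) (a : Module.End K V) :
    Module.finrank K ((W ⊓ a.eigenspace 1) ⊔ (W ⊓ a.eigenspace 3) ⊔ (W ⊓ a.eigenspace 9) :
      Submodule K V) = edOn W a 1 + edOn W a 3 + edOn W a 9 := by
  have h1 : (W ⊓ a.eigenspace 1) ⊓ (W ⊓ a.eigenspace 3) = ⊥ := by
    rw [eq_bot_iff]
    rintro v ⟨⟨-, h1⟩, -, h3⟩
    have h1 := Module.End.mem_eigenspace_iff.1 h1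
    have h3 := Module.End.mem_eigenspace_iff.1 h3
    have : ((1 : K) - 3) • v = 0 := by rw [sub_smul, ← h1, ← h3, sub_self]
    exact (smul_eq_zero.1 this).resolve_left (by decide)
  have h2 : ((W ⊓ a.eigenspace 1) ⊔ (W ⊓ a.eigenspace 3)) ⊓ (W ⊓ a.eigenspace 9) = ⊥ := by
    rw [eq_bot_iff]
    rintro v ⟨hv, -, h9⟩
    obtain ⟨x, ⟨-, h1⟩, y, ⟨-, h3⟩, rfl⟩ := Submodule.mem_sup.1 hv
    have h1 := Module.End.mem_eigenspace_iff.1 h1
    have h3 := Module.End.mem_eigenspace_iff.1 h3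
    have h9 := Module.End.mem_eigenspace_iff.1 h9
    have e1 : (1 : K) • x + (3 : K) • y = (9 : K) • (x + y) := by rw [← h1, ← h3, ← map_add, h9]
    have e2 : (1 : K) • x + (9 : K) • y = (81 : K) • (x + y) := by
      have := congrArg a e1
      rw [map_add, map_smul, map_smul, map_smul, h1, h3, h9, smul_smul, smul_smul,
        smul_smul] at this
      norm_num at this ⊢
      exact this
    have e3 : (48 : K) • (x + y) = 0 := by
      linear_combination (norm := module) (4 : K) • e1 - (1 : K) • e2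
    exact (smul_eq_zero.1 e3).resolve_left (by decide)
  have a1 := Submodule.finrank_sup_add_finrank_inf_eq (W ⊓ a.eigenspace 1) (W ⊓ a.eigenspace 3)
  have a2 := Submodule.finrank_sup_add_finrank_inf_eq
    ((W ⊓ a.eigenspace 1) ⊔ (W ⊓ a.eigenspace 3)) (W ⊓ a.eigenspace 9)
  rw [h1, finrank_bot] at a1
  rw [h2, finrank_bot] at a2
  unfold edOn
  omega

theorem edOn_le {V : Type} [AddCommGroup V] [Module K V] [Module.Finite K V]
    (W : Submodule K V) (a : Module.End K V) :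
    edOn W a 1 + edOn W a 3 + edOn W a 9 ≤ Module.finrank K W := by
  rw [← xbasic_sum]
  exact Submodule.finrank_mono (sup_le (sup_le inf_le_left inf_le_left) inf_le_left)

theorem split3 {V : Type} [AddCommGroup V] [Module K V] [Module.Finite K V]
    (W : Submodule K V) (a : Module.End K V) (hW : ∀ w ∈ W, a w ∈ W)
    (h3 : ∀ w ∈ W, (a ^ 3) w = w) :
    Module.finrank K W = edOn W a 1 + edOn W a 3 + edOn W a 9 := by
  refine le_antisymm ?_ (edOn_le W a)
  rw [← xbasic_sum]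
  refine Submodule.finrank_mono fun w hw => ?_
  have h3' : a (a (a w)) = w := h3 w hw
  have key : ∀ c : K, c ^ 3 = 1 →
      w + (c ^ 2) • a w + c • a (a w) ∈ W ⊓ a.eigenspace c := by
    intro c hc
    refine ⟨W.add_mem (W.add_mem hw (W.smul_mem _ (hW _ hw))) (W.smul_mem _ (hW _ (hW _ hw))),
      Module.End.mem_eigenspace_iff.2 ?_⟩
    rw [map_add, map_add, map_smul, map_smul, h3', smul_add, smul_add, smul_smul, smul_smul,
      show c * c ^ 2 = 1 by rw [← hc]; ring, one_smul, ← pow_two]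
    abel
  have e : w = (9 : K) • ((w + ((1 : K) ^ 2) • a w + (1 : K) • a (a w)) +
      (w + ((3 : K) ^ 2) • a w + (3 : K) • a (a w)) +
      (w + ((9 : K) ^ 2) • a w + (9 : K) • a (a w))) := by
    have z : (13 : K) = 0 := by decide
    linear_combination (norm := module)
      (-z) • ((2 : K) • w + (63 : K) • a w + (9 : K) • a (a w))
  rw [e]
  exact Submodule.smul_mem _ _ (Submodule.add_mem_sup (Submodule.add_mem_sup (key 1 (by decide))
    (key 3 (by decide))) (key 9 (by decide)))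

theorem edOn_pos {V : Type} [AddCommGroup V] [Module K V] [Module.Finite K V]
    (W : Submodule K V) (a : Module.End K V) (c : K) :
    0 < edOn W a c ↔ ∃ w ∈ W, w ≠ 0 ∧ a w = c • w := by
  unfold edOn
  rw [pos_iff_ne_zero, Ne, Submodule.finrank_eq_zero, ← Ne, Submodule.ne_bot_iff]
  constructor
  · rintro ⟨w, ⟨h1, h2⟩, h3⟩
    exact ⟨w, h1, h3, Module.End.mem_eigenspace_iff.1 h2⟩
  · rintro ⟨w, h1, h3, h2⟩
    exact ⟨w, ⟨h1, Module.End.mem_eigenspace_iff.2 h2⟩, h3⟩

theorem card_sub {V : Type} [AddCommGroup V] [Module K V] [Module.Finite K V]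
    (W : Submodule K V) : Finite V ∧ Nat.card W = 13 ^ Module.finrank K W := by
  refine ⟨Module.finite_of_finite K, ?_⟩
  rw [Module.natCard_eq_pow_finrank (K := K), Nat.card_zmod]

theorem ep3 {V : Type} [AddCommGroup V] [Module K V] [Module.Finite K V]
    {H : Type} [Group H] [Finite H] (ρ : Representation K H V) (hE : HEP ρ 3) (v : V) :
    ∃ (t : H) (a : ℕ), t ^ (3 ^ a) = 1 ∧ ρ t v = (3 : K) • v := by
  by_cases hv : v = 0
  · exact ⟨1, 0, by simp, by simp [hv]⟩
  obtain ⟨h, hh⟩ := hE v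
  have hk : ∀ k : ℕ, ρ (h ^ k) v = (3 : K) ^ k • v := by
    intro k
    induction k with
    | zero => simp
    | succ k ih => rw [pow_succ', map_mul, Module.End.mul_apply, ih, map_smul, hh, smul_smul, pow_succ]
  have h3 : 3 ^ 1 ∣ Nat.card H := by
    have := hk (Nat.card H)
    rw [pow_card_eq_one', map_one, Module.End.one_apply] at this
    have h1 : ((3 : K) ^ Nat.card H - 1) • v = 0 := by rw [sub_smul, ← this, one_smul, sub_self]
    have h2 := sub_eq_zero.1 ((smul_eq_zero.1 h1).resolve_right hv)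
    have h4 : orderOf (3 : K) = 3 := orderOf_eq_prime (by decide) (by decide)
    rw [pow_one, ← h4]
    exact orderOf_dvd_of_pow_eq_one h2
  obtain ⟨e, a, h1, h2, -⟩ := p_part 3 (by norm_num) h
  refine ⟨h ^ e, a, h1, ?_⟩
  rw [hk, xbasic_pow (3 : K) 3 e (by decide) (by simpa using h2 1 h3)]

theorem fix_of_pgroup {V : Type} [AddCommGroup V] [Module K V] [Module.Finite K V]
    {H : Type} [Group H] [Finite H] (ρ : Representation K H V) (S : Subgroup H)
    (hS : IsPGroup 13 S) (hV : ∃ v : V, v ≠ 0) :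
    ∃ v : V, v ≠ 0 ∧ ∀ s ∈ S, ρ s v = v := by
  have hfin : Finite V := Module.finite_of_finite K
  let _ : MulAction S V :=
    { smul := fun s v => ρ s v
      one_smul := fun v => by show ρ ((1 : S) : H) v = v; simp
      mul_smul := fun s t v => by show ρ ((s * t : S) : H) v = ρ s (ρ t v); simp }
  have hd : 13 ∣ Nat.card V := by
    rw [Module.natCard_eq_pow_finrank (K := K), Nat.card_zmod]
    obtain ⟨v, hv⟩ := hV
    have : Nontrivial V := ⟨v, 0, hv⟩
    exact dvd_pow_self 13 Module.finrank_pos.ne'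
  obtain ⟨b, hb, hne⟩ := hS.exists_fixed_point_of_prime_dvd_card_of_fixed_point V hd
    (a := 0) (fun s => show ρ s 0 = 0 from map_zero _)
  exact ⟨b, hne.symm, fun s hs => hb ⟨s, hs⟩⟩

theorem freeOn_of_irr {V : Type} [AddCommGroup V] [Module K V] [Module.Finite K V]
    {H : Type} [Group H] [Finite H] (ρ : Representation K H V) (hinj : Function.Injective ρ)
    (hirr : Irr ρ) (A : Subgroup H)
    (hA : A.Normal) (hc : IsCyclic A) : FreeOn ρ A := by
  intro a ha v hv hav
  obtain ⟨g, hg⟩ := IsCyclic.exists_monoid_generator (α := A)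
  have key : ∀ h : H, ∃ k : ℕ, h * a * h⁻¹ = a ^ k := by
    intro h
    obtain ⟨i, hi⟩ := hg ⟨a, ha⟩
    obtain ⟨k, hk⟩ := hg ⟨h * g * h⁻¹, hA.conj_mem _ g.2 h⟩
    have hi : (g : H) ^ i = a := congrArg Subtype.val hi
    have hk : (g : H) ^ k = h * g * h⁻¹ := congrArg Subtype.val hk
    exact ⟨k, by rw [← hi, ← conj_pow, ← hk, ← pow_mul, ← pow_mul, mul_comm]⟩
  rcases hirr.2 (LinearMap.ker (ρ a - 1)) (fun h w hw => by
    obtain ⟨k, hk⟩ := key h⁻¹
    have hw : ρ a w = w := sub_eq_zero.1 hw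
    have h1 : ρ (a ^ k) w = w := by
      rw [map_pow, Module.End.pow_apply]; exact Function.iterate_fixed hw k
    refine sub_eq_zero.2 ?_
    show ρ a (ρ h w) = ρ h w
    rw [← Module.End.mul_apply, ← map_mul, show a * h = h * a ^ k by rw [← hk]; group, map_mul,
      Module.End.mul_apply, h1]) with h | h
  · have hm : v ∈ LinearMap.ker (ρ a - 1) := sub_eq_zero.2 hav
    rw [h] at hm
    exact absurd hm hv
  · exact hinj (by rw [map_one]; exact sub_eq_zero.1 (LinearMap.ker_eq_top.1 h))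

theorem cop_of_card {V : Type} [AddCommGroup V] [Module K V] [Module.Finite K V]
    {H : Type} [Group H] [Finite H] (ρ : Representation K H V) (h13 : ¬ 13 ∣ Nat.card H) :
    Cop ρ := fun h => ⟨Nat.card H, h13, by rw [← map_pow, pow_card_eq_one', map_one]⟩

theorem xbasic_chF (p : ℕ) (hp : 2 ≤ p) : ∀ f g u : ℕ, u ≤ f → u ≤ g → chF p f u = chF p g u
  | 0, 0, _, _, _ => rfl
  | 0, g + 1, u, h, _ => by simp [chF, show u ≤ 1 by omega]
  | f + 1, 0, u, _, h => by simp [chF, show u ≤ 1 by omega]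
  | f + 1, g + 1, u, h1, h2 => by
    simp only [chF]
    split_ifs with h
    · rfl
    · have : u / p < u := Nat.div_lt_self (by omega) (by omega)
      rw [xbasic_chF p hp f g (u / p) (by omega) (by omega)]

theorem ch_eq (p : ℕ) (hp : 2 ≤ p) (u : ℕ) :
    ch p u = if u ≤ 1 then 1 else u * ch p (u / p) := by
  unfold ch
  cases u with
  | zero => rfl
  | succ u =>
    simp only [chF]
    split_ifs with h
    · rfl
    · have : (u + 1) / p < u + 1 := Nat.div_lt_self (by omega) (by omega)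
      rw [xbasic_chF p hp u _ ((u + 1) / p) (by omega) le_rfl]

theorem ch_mono (p : ℕ) (hp : 2 ≤ p) (u v : ℕ) (h : u ≤ v) : ch p u ≤ ch p v := by
  induction v using Nat.strong_induction_on generalizing u with
  | _ v ih =>
    rw [ch_eq p hp u, ch_eq p hp v]
    by_cases hv : v ≤ 1
    · rw [if_pos hv, if_pos (h.trans hv)]
    have hlt : v / p < v := Nat.div_lt_self (by omega) (by omega)
    rw [if_neg hv]
    split_ifs with hu
    · have := ih _ hlt 0 (Nat.zero_le _)
      rw [ch_eq p hp 0, if_pos (by omega)] at this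
      exact Nat.one_le_iff_ne_zero.2 (Nat.mul_ne_zero (by omega) (by omega))
    · exact Nat.mul_le_mul h (ih _ hlt _ (Nat.div_le_div_right h))

theorem exists_compl {L : Type} [Field L] {M : Type} [AddCommGroup M] [Module L M]
    {H : Type} [Group H] [Finite H] (hc : (Nat.card H : L) ≠ 0) (ρ : Representation L H M)
    (W : Submodule L M) (hW : ∀ h, ∀ w ∈ W, ρ h w ∈ W) :
    ∃ W' : Submodule L M, (∀ h, ∀ w ∈ W', ρ h w ∈ W') ∧ IsCompl W W' := by
  have := Fintype.ofFinite H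
  obtain ⟨p, hp⟩ := LinearMap.exists_leftInverse_of_injective W.subtype W.ker_subtype
  let q : M →ₗ[L] M :=
    (Nat.card H : L)⁻¹ • ∑ h : H, (ρ h) ∘ₗ W.subtype ∘ₗ p ∘ₗ (ρ h⁻¹)
  have hq : ∀ v, q v = (Nat.card H : L)⁻¹ • ∑ h : H, ρ h (p (ρ h⁻¹ v)) := fun v => by
    simp [q, LinearMap.sum_apply]
  have h1 : ∀ v, q v ∈ W := fun v => by
    rw [hq]
    exact W.smul_mem _ (W.sum_mem fun h _ => hW _ _ (p _).2)
  have h2 : ∀ w ∈ W, q w = w := fun w hw => by
    have : ∀ h : H, ρ h (p (ρ h⁻¹ w)) = w := fun h => by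
      have := LinearMap.congr_fun hp ⟨ρ h⁻¹ w, hW _ _ hw⟩
      simp only [LinearMap.comp_apply, Submodule.subtype_apply, LinearMap.id_apply] at this
      rw [this, ← Module.End.mul_apply, ← map_mul, mul_inv_cancel, map_one, Module.End.one_apply]
    rw [hq, Finset.sum_congr rfl fun h _ => this h, Finset.sum_const, Finset.card_univ,
      ← Nat.card_eq_fintype_card, ← Nat.cast_smul_eq_nsmul L, smul_smul, inv_mul_cancel₀ hc,
      one_smul]
  have h3 : ∀ g v, q (ρ g v) = ρ g (q v) := fun g v => by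
    rw [hq, hq, map_smul, map_sum]
    congr 1
    refine (Fintype.sum_equiv (Equiv.mulLeft g) _ _ fun h => ?_).symm
    simp only [Equiv.coe_mulLeft, map_mul, Module.End.mul_apply, mul_inv_rev]
    rw [← Module.End.mul_apply (ρ g⁻¹), ← map_mul, inv_mul_cancel, map_one, Module.End.one_apply]
  refine ⟨LinearMap.ker (q.codRestrict W h1), fun h w hw => ?_,
    LinearMap.isCompl_of_proj fun w => Subtype.ext (h2 w w.2)⟩
  rw [LinearMap.ker_codRestrict, LinearMap.mem_ker] at hw ⊢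
  rw [h3, hw, map_zero]

end Pool.Agent.N9181

end

section

namespace Pool.Agent.N9181

open scoped commutatorElement
open TensorProduct

theorem xbasech_ker {V : Type} [AddCommGroup V] [Module K V] [Module.Finite K V]
    (L : Type) [Field L] [Algebra K L] (f : Module.End K V) :
    Module.finrank L (LinearMap.ker (f.baseChange L)) = Module.finrank K (LinearMap.ker f) := by
  have hex : Function.Exact (LinearMap.ker f).subtype f := LinearMap.exact_subtype_ker_map f
  have hex2 : Function.Exact (((LinearMap.ker f).subtype).baseChange L) (f.baseChange L) := by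
    have := Module.Flat.lTensor_exact L hex
    simpa [LinearMap.baseChange_eq_ltensor] using this
  have hinj : Function.Injective (((LinearMap.ker f).subtype).baseChange L) := by
    have := Module.Flat.lTensor_preserves_injective_linearMap (M := L) (LinearMap.ker f).subtype
      (Submodule.injective_subtype _)
    rw [LinearMap.baseChange_eq_ltensor]
    exact this
  rw [hex2.linearMap_ker_eq, LinearMap.finrank_range_of_inj hinj, Module.finrank_baseChange]

theorem xbasech_aeval {V : Type} [AddCommGroup V] [Module K V]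
    (L : Type) [Field L] [Algebra K L] (f : Module.End K V) (g : Polynomial K) :
    Polynomial.aeval (f.baseChange L : Module.End L (L ⊗[K] V)) (g.map (algebraMap K L)) =
      (Polynomial.aeval f g : Module.End K V).baseChange L := by
  rw [Polynomial.aeval_map_algebraMap]
  exact Polynomial.aeval_algHom_apply (Module.End.baseChangeHom K L V) f g

theorem exists_bc {V : Type} [AddCommGroup V] [Module K V] [Module.Finite K V]
    {H : Type} [Group H] (ρ : Representation K H V) (L : Type) [Field L] [Algebra K L] :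
    ∃ (M : Type) (_ : AddCommGroup M) (_ : Module L M) (_ : Module.Finite L M)
      (τ : Representation L H M), Module.finrank L M = Module.finrank K V ∧
      (∀ (h : H) (g : Polynomial K),
        Module.finrank L (LinearMap.ker (Polynomial.aeval (τ h) (g.map (algebraMap K L)))) =
          Module.finrank K (LinearMap.ker (Polynomial.aeval (ρ h) g))) ∧
      (∀ (h : H) (c : K), Module.finrank L (Module.End.eigenspace (τ h) (algebraMap K L c)) =
        ed (ρ h) c) ∧
      ∀ h : H, LinearMap.charpoly (τ h) = (LinearMap.charpoly (ρ h)).map (algebraMap K L) := by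
  let τ : Representation L H (L ⊗[K] V) :=
    { toFun := fun h => (ρ h).baseChange L
      map_one' := by rw [map_one]; exact LinearMap.baseChange_one K V
      map_mul' := fun a b => by rw [map_mul]; exact LinearMap.baseChange_mul _ _ }
  have hτ : ∀ h, τ h = (ρ h).baseChange L := fun _ => rfl
  have hk : ∀ (h : H) (g : Polynomial K),
      Module.finrank L (LinearMap.ker (Polynomial.aeval (τ h) (g.map (algebraMap K L)))) =
        Module.finrank K (LinearMap.ker (Polynomial.aeval (ρ h) g)) := by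
    intro h g
    rw [hτ, xbasech_aeval, xbasech_ker]
  refine ⟨L ⊗[K] V, inferInstance, inferInstance, inferInstance, τ,
    Module.finrank_baseChange, hk, ?_, ?_⟩
  · intro h c
    have h1 := hk h (Polynomial.X - Polynomial.C c)
    rw [Polynomial.map_sub, Polynomial.map_X, Polynomial.map_C, map_sub, map_sub,
      Polynomial.aeval_X, Polynomial.aeval_X, Polynomial.aeval_C, Polynomial.aeval_C] at h1
    rw [Algebra.algebraMap_eq_smul_one (A := Module.End L (L ⊗[K] V)),
      Algebra.algebraMap_eq_smul_one (A := Module.End K V)] at h1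
    rw [ed, Module.End.eigenspace_def, Module.End.eigenspace_def]
    exact h1
  · intro h
    rw [hτ]
    exact LinearMap.charpoly_baseChange _ _

end Pool.Agent.N9181

end

section

namespace Pool.Agent.N9181

open scoped commutatorElement

theorem xbtbasic_unit (M : ℕ) (x : RM M) (hx : red M x ≠ 0) : IsUnit x := by
  have : NeZero (13 ^ (M + 1)) := ⟨by positivity⟩
  obtain ⟨k, rfl⟩ := ZMod.natCast_zmod_surjective x
  rw [ZMod.isUnit_iff_coprime]
  apply Nat.Coprime.pow_right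
  rw [Nat.coprime_comm, Nat.Prime.coprime_iff_not_dvd fact13.out]
  intro h
  apply hx
  rw [map_natCast]
  exact (ZMod.natCast_eq_zero_iff k 13).2 h

theorem xbtbasic_surj (M : ℕ) : Function.Surjective (red M) :=
  ZMod.ringHom_surjective _

theorem xbtbasic_lift {n : ℕ} (M : ℕ) (P : Matrix (Fin n) (Fin n) K) :
    ∃ Q : Matrix (Fin n) (Fin n) (RM M), Q.map (red M) = P := by
  refine ⟨fun i j => (xbtbasic_surj M (P i j)).choose, ?_⟩
  ext i j
  exact (xbtbasic_surj M (P i j)).choose_spec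

theorem xbtbasic_ker (M : ℕ) (x : RM M) (hx : red M x = 0) : ∃ y : RM M, x = 13 * y := by
  have : NeZero (13 ^ (M + 1)) := ⟨by positivity⟩
  obtain ⟨k, rfl⟩ := ZMod.natCast_zmod_surjective x
  rw [map_natCast] at hx
  obtain ⟨c, rfl⟩ := (ZMod.natCast_eq_zero_iff k 13).1 hx
  exact ⟨c, by push_cast; ring⟩

theorem xbtbasic_step {R S : Type} [CommRing R] [Ring S] [Algebra R S] (c : R) (B : S) (m : ℕ) :
    ∃ C : S, (1 + c • B) ^ m = 1 + ((m : R) * c) • B + (c * c) • C := by
  induction m with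
  | zero => exact ⟨0, by simp⟩
  | succ m ih =>
    obtain ⟨C, hC⟩ := ih
    refine ⟨C + (m : R) • (B * B) + c • (C * B), ?_⟩
    rw [pow_succ, hC]
    simp only [add_mul, mul_add, one_mul, mul_one, smul_mul_assoc, mul_smul_comm, smul_add,
      smul_smul, Nat.cast_succ, add_smul]
    have e1 : c * (↑m * c) = c * c * ↑m := by ring
    have e2 : c * (c * c) = c * c * c := by ring
    rw [e1, e2]
    abel

theorem xbtbasic_pow {n : ℕ} (M : ℕ) (A : Matrix (Fin n) (Fin n) (RM M))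
    (hA : A.map (red M) = 1) : A ^ (13 ^ M) = 1 := by
  have h1 : ∀ i j, ∃ y : RM M, (A - 1) i j = 13 * y := by
    intro i j
    apply xbtbasic_ker
    have := congrFun (congrFun hA i) j
    rw [Matrix.map_apply] at this
    rw [Matrix.sub_apply, map_sub, this]
    by_cases hij : i = j
    · subst hij; simp
    · simp [Matrix.one_apply_ne hij]
  choose B hB using h1
  have h0 : A = 1 + (13 : RM M) • Matrix.of B := by
    ext i j
    have := hB i j
    rw [Matrix.sub_apply] at this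
    simp only [Matrix.add_apply, Matrix.smul_apply, Matrix.of_apply, smul_eq_mul]
    linear_combination this
  have key : ∀ k : ℕ, ∃ C : Matrix (Fin n) (Fin n) (RM M),
      A ^ (13 ^ k) = 1 + ((13 : RM M) ^ (k + 1)) • C := by
    intro k
    induction k with
    | zero => exact ⟨Matrix.of B, by simpa using h0⟩
    | succ k ih =>
      obtain ⟨C, hC⟩ := ih
      obtain ⟨D, hD⟩ := xbtbasic_step ((13 : RM M) ^ (k + 1)) C 13
      refine ⟨C + ((13 : RM M) ^ k) • D, ?_⟩
      rw [pow_succ 13 k, pow_mul, hC, hD, smul_add, smul_smul, add_assoc]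
      congr 2
      · congr 1
        push_cast
        ring
      · congr 1
        ring
  obtain ⟨C, hC⟩ := key M
  have hz : ((13 : RM M) ^ (M + 1)) = 0 := by
    have := ZMod.natCast_self (13 ^ (M + 1))
    exact_mod_cast this
  rw [hC, hz, zero_smul, add_zero]

theorem xbtbasic_trace {n : ℕ} (M : ℕ) (A A' : Matrix (Fin n) (Fin n) (RM M)) (L : ℕ)
    (hL : ¬ 13 ∣ L) (hA : A ^ L = 1) (hA' : A' ^ L = 1) (P : Matrix (Fin n) (Fin n) K)
    (hP : P.det ≠ 0) (hc : A.map (red M) * P = P * A'.map (red M)) : A.trace = A'.trace := by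
  obtain ⟨P0, hP0⟩ := xbtbasic_lift M P
  set Q : Matrix (Fin n) (Fin n) (RM M) := ∑ k ∈ Finset.range L, A ^ k * P0 * A' ^ (L - k)
    with hQ
  have h1 : A * Q = Q * A' := by
    have e1 : A * Q = ∑ k ∈ Finset.range L, A ^ (k + 1) * P0 * A' ^ (L + 1 - (k + 1)) := by
      rw [hQ, Finset.mul_sum]
      refine Finset.sum_congr rfl fun k _ => ?_
      rw [Nat.add_sub_add_right, pow_succ' A]
      simp only [mul_assoc]
    have e2 : Q * A' = ∑ k ∈ Finset.range L, A ^ k * P0 * A' ^ (L + 1 - k) := by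
      rw [hQ, Finset.sum_mul]
      refine Finset.sum_congr rfl fun k hk => ?_
      have : L + 1 - k = L - k + 1 := by
        have := Finset.mem_range.1 hk
        omega
      rw [this, pow_succ A', mul_assoc _ (A' ^ (L - k))]
    have e3 := Finset.sum_range_succ (fun k => A ^ k * P0 * A' ^ (L + 1 - k)) L
    have e4 := Finset.sum_range_succ' (fun k => A ^ k * P0 * A' ^ (L + 1 - k)) L
    rw [e1, e2]
    have e5 : A ^ L * P0 * A' ^ (L + 1 - L) = A ^ 0 * P0 * A' ^ (L + 1 - 0) := by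
      rw [hA, pow_zero, Nat.sub_zero, pow_succ A', hA', Nat.add_sub_cancel_left, pow_one,
        one_mul A']
    rw [e3, e5] at e4
    exact (add_right_cancel e4).symm
  have hm : ∀ k, (A.map (red M)) ^ k * P = P * (A'.map (red M)) ^ k := by
    intro k
    induction k with
    | zero => simp
    | succ k ih => rw [pow_succ', mul_assoc, ih, ← mul_assoc, hc, mul_assoc, ← pow_succ']
  have hT : (A'.map (red M)) ^ L = 1 := by
    have := congrArg (red M).mapMatrix hA'
    rw [map_pow, map_one] at this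
    exact this
  have h2 : (red M).mapMatrix Q = (L : K) • P := by
    rw [hQ, map_sum]
    have : ∀ k ∈ Finset.range L, (red M).mapMatrix (A ^ k * P0 * A' ^ (L - k)) = P := by
      intro k hk
      rw [map_mul, map_mul, map_pow, map_pow]
      simp only [RingHom.mapMatrix_apply]
      rw [hP0, hm, mul_assoc, ← pow_add, Nat.add_sub_cancel' (Finset.mem_range.1 hk).le, hT,
        mul_one]
    rw [Finset.sum_congr rfl this, Finset.sum_const, Finset.card_range, Nat.cast_smul_eq_nsmul]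
  have h3 : IsUnit Q.det := by
    apply xbtbasic_unit
    rw [RingHom.map_det, h2, Matrix.det_smul]
    refine mul_ne_zero (pow_ne_zero _ ?_) hP
    exact fun h => hL ((ZMod.natCast_eq_zero_iff L 13).1 h)
  have h4 : A = Q * A' * Q⁻¹ := by
    rw [← h1, mul_assoc, Matrix.mul_nonsing_inv _ h3, mul_one]
  rw [h4, Matrix.trace_mul_comm, ← mul_assoc, Matrix.nonsing_inv_mul _ h3, one_mul]

theorem isBt_unique {V : Type} [AddCommGroup V] [Module K V] [Module.Finite K V]
    (a : Module.End K V) (M : ℕ) (x y : RM M) (hx : IsBt a M x) (hy : IsBt a M y) : x = y := by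
  obtain ⟨n, b, A, N, hN, hA, hm, rfl⟩ := hx
  obtain ⟨n', b', A', N', hN', hA', hm', rfl⟩ := hy
  have hn : n = n' := by
    have h1 := Module.finrank_eq_card_basis b
    have h2 := Module.finrank_eq_card_basis b'
    rw [Fintype.card_fin] at h1 h2
    omega
  subst hn
  refine xbtbasic_trace M A A' (N * N') ?_ ?_ ?_ (LinearMap.toMatrix b' b LinearMap.id) ?_ ?_
  · intro h
    rcases (Nat.Prime.dvd_mul fact13.out).1 h with h | h
    · exact hN h
    · exact hN' h
  · rw [pow_mul, hA, one_pow]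
  · rw [mul_comm, pow_mul, hA', one_pow]
  · have : LinearMap.toMatrix b' b LinearMap.id * LinearMap.toMatrix b b' LinearMap.id
        = (1 : Matrix (Fin n) (Fin n) K) := by
      rw [← LinearMap.toMatrix_comp, LinearMap.id_comp, LinearMap.toMatrix_id]
    exact (Matrix.isUnit_det_of_right_inverse this).ne_zero
  · rw [hm, hm', ← LinearMap.toMatrix_comp, ← LinearMap.toMatrix_comp, LinearMap.id_comp,
      LinearMap.comp_id]

theorem isBt_bt {V : Type} [AddCommGroup V] [Module K V] [Module.Finite K V]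
    (a : Module.End K V) (N : ℕ) (hN : ¬ 13 ∣ N) (ha : a ^ N = 1) (M : ℕ) :
    IsBt a M (bt a M) := by
  apply Classical.epsilon_spec
  let b := Module.finBasis K V
  obtain ⟨A0, hA0⟩ := xbtbasic_lift M (LinearMap.toMatrix b b a)
  have hT : (LinearMap.toMatrix b b a) ^ N = 1 := by
    rw [LinearMap.toMatrix_pow, ha, LinearMap.toMatrix_one]
  have hmap : ∀ k : ℕ, (A0 ^ k).map (red M) = (LinearMap.toMatrix b b a) ^ k := by
    intro k
    have := map_pow (red M).mapMatrix A0 k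
    simp only [RingHom.mapMatrix_apply] at this
    rw [this, hA0]
  have hu : (A0 ^ N) ^ (13 ^ M) = 1 := xbtbasic_pow M _ (by rw [hmap, hT])
  have hco : Nat.Coprime N (13 ^ M) := by
    apply Nat.Coprime.pow_right
    rw [Nat.coprime_comm, Nat.Prime.coprime_iff_not_dvd fact13.out]
    exact hN
  obtain ⟨e, he1, he2⟩ := Nat.chineseRemainder hco 1 0
  obtain ⟨c, hc⟩ := (Nat.modEq_zero_iff_dvd).1 he2
  refine ⟨(A0 ^ e).trace, _, b, A0 ^ e, N, hN, ?_, ?_, rfl⟩
  · have : e * N = N * 13 ^ M * c := by rw [hc]; ring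
    rw [← pow_mul, this, pow_mul, pow_mul, hu, one_pow]
  · rw [hmap]
    have := pow_eq_pow_of_modEq he1 hT
    rwa [pow_one] at this

theorem xbtbasic_conj {V : Type} [AddCommGroup V] [Module K V]
    {V' : Type} [AddCommGroup V'] [Module K V'] (e : V ≃ₗ[K] V') (a : Module.End K V)
    (a' : Module.End K V') (h : ∀ v, e (a v) = a' (e v)) (M : ℕ) (x : RM M) (hx : IsBt a M x) :
    IsBt a' M x := by
  obtain ⟨n, b, A, N, hN, hA, hm, ht⟩ := hx
  refine ⟨n, b.map e, A, N, hN, hA, ?_, ht⟩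
  rw [hm]
  ext i j
  rw [LinearMap.toMatrix_apply, LinearMap.toMatrix_apply, Module.Basis.map_apply, ← h]
  simp

theorem bt_conj {V : Type} [AddCommGroup V] [Module K V] [Module.Finite K V]
    {V' : Type} [AddCommGroup V'] [Module K V'] (e : V ≃ₗ[K] V') (a : Module.End K V)
    (a' : Module.End K V') (h : ∀ v, e (a v) = a' (e v)) (M : ℕ) : bt a M = bt a' M := by
  have : IsBt a M = IsBt a' M := by
    funext x
    apply propext
    refine ⟨xbtbasic_conj e a a' h M x, xbtbasic_conj e.symm a' a ?_ M x⟩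
    intro v
    apply e.injective
    rw [h, e.apply_symm_apply, e.apply_symm_apply]
  unfold bt
  rw [this]

theorem bt_isConj {V : Type} [AddCommGroup V] [Module K V] [Module.Finite K V]
    {H : Type} [Group H] (ρ : Representation K H V) (g h : H) (hc : IsConj g h) (M : ℕ) :
    bt (ρ g) M = bt (ρ h) M := by
  obtain ⟨c, hc⟩ := isConj_iff.1 hc
  let e : V ≃ₗ[K] V := LinearEquiv.ofLinear (ρ c) (ρ c⁻¹)
    (by rw [← Module.End.mul_eq_comp, ← map_mul, mul_inv_cancel, map_one]; rfl)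
    (by rw [← Module.End.mul_eq_comp, ← map_mul, inv_mul_cancel, map_one]; rfl)
  refine bt_conj e _ _ ?_ M
  intro v
  show ρ c (ρ g v) = ρ h (ρ c v)
  rw [← Module.End.mul_apply, ← Module.End.mul_apply, ← map_mul, ← map_mul, ← hc]
  simp

theorem red_unit (M : ℕ) (x : RM M) (hx : red M x ≠ 0) : IsUnit x :=
  xbtbasic_unit M x hx

theorem red_surj (M : ℕ) : Function.Surjective (red M) :=
  xbtbasic_surj M

theorem pow_of_red {n : ℕ} (M : ℕ) (A : Matrix (Fin n) (Fin n) (RM M))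
    (hA : A.map (red M) = 1) : A ^ (13 ^ M) = 1 :=
  xbtbasic_pow M A hA

theorem eq_of_cast (x y : ℕ) (h : ∀ M, (x : RM M) = (y : RM M)) : x = y := by
  have h1 := (ZMod.natCast_eq_natCast_iff x y _).1 (h (x + y))
  have hlt : x + y < 13 ^ (x + y + 1) :=
    lt_trans (Nat.lt_succ_self _) (Nat.lt_pow_self (by norm_num))
  exact Nat.ModEq.eq_of_lt_of_lt h1 (by omega) (by omega)

end Pool.Agent.N9181

end

section

namespace Pool.Agent.N9181

open scoped commutatorElement

theorem xbtidem_lift {m n : ℕ} (M : ℕ) (B : Matrix (Fin m) (Fin n) K) :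
    ∃ B0 : Matrix (Fin m) (Fin n) (RM M), B0.map (red M) = B := by
  refine ⟨fun i j => (red_surj M (B i j)).choose, ?_⟩
  ext i j
  exact (red_surj M (B i j)).choose_spec

theorem xbtidem_zero {n : ℕ} (M : ℕ) (D : Matrix (Fin n) (Fin n) (RM M)) (hD : D * D = D)
    (h0 : D.map (red M) = 0) : D = 0 := by
  have h1 : (1 - D).map (red M) = 1 := by
    have : (red M).mapMatrix (1 - D) = 1 - (red M).mapMatrix D := by
      rw [map_sub, map_one]
    rw [RingHom.mapMatrix_apply, RingHom.mapMatrix_apply, h0, sub_zero] at this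
    exact this
  have h2 := pow_of_red M (1 - D) h1
  have h3 : IsIdempotentElem (1 - D) := IsIdempotentElem.one_sub hD
  have h4 : 13 ^ M ≠ 0 := pow_ne_zero _ (by norm_num)
  rw [h3.pow_eq h4] at h2
  exact sub_eq_self.mp h2

theorem xbtidem_split {V : Type} [AddCommGroup V] [Module K V] [Module.Finite K V]
    {n : ℕ} (b : Module.Basis (Fin n) K V) (e : Module.End K V) (M : ℕ)
    (E : Matrix (Fin n) (Fin n) (RM M)) (hE : E * E = E)
    (he : E.map (red M) = LinearMap.toMatrix b b e) (W : Submodule K V)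
    (hW : ∀ v, v ∈ W ↔ e v = v) {d : ℕ} (c : Module.Basis (Fin d) K W) :
    ∃ (I : Matrix (Fin n) (Fin d) (RM M)) (P : Matrix (Fin d) (Fin n) (RM M))
      (q : V →ₗ[K] W), (∀ v, (q v : V) = e v) ∧ P * I = 1 ∧ I * P = E ∧
      I.map (red M) = LinearMap.toMatrix c b W.subtype ∧
      P.map (red M) = LinearMap.toMatrix b c q := by
  have hee : e * e = e := by
    apply (LinearMap.toMatrix b b).injective
    rw [LinearMap.toMatrix_mul, ← he, ← Matrix.map_mul, hE]
  have hmem : ∀ v, e v ∈ W := fun v => by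
    rw [hW]
    exact congrArg (fun f : Module.End K V => f v) hee
  let q : V →ₗ[K] W := LinearMap.codRestrict W e hmem
  have hq : ∀ v, (q v : V) = e v := fun v => rfl
  have hqi : q ∘ₗ W.subtype = LinearMap.id := by
    ext w
    exact (hW _).mp w.2
  have hiq : W.subtype ∘ₗ q = e := by
    ext v
    rfl
  have hei : e ∘ₗ W.subtype = W.subtype := by
    ext w
    exact (hW _).mp w.2
  have hqe : q ∘ₗ e = q := by
    ext v
    exact congrArg (fun f : Module.End K V => f v) hee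
  obtain ⟨i0, hi0⟩ := xbtidem_lift M (LinearMap.toMatrix c b W.subtype)
  obtain ⟨p0, hp0⟩ := xbtidem_lift M (LinearMap.toMatrix b c q)
  have hi1 : (E * i0).map (red M) = LinearMap.toMatrix c b W.subtype := by
    rw [Matrix.map_mul, he, hi0, ← LinearMap.toMatrix_comp, hei]
  have hp1 : (p0 * E).map (red M) = LinearMap.toMatrix b c q := by
    rw [Matrix.map_mul, he, hp0, ← LinearMap.toMatrix_comp, hqe]
  have hS : (p0 * E * (E * i0)).map (red M) = 1 := by
    rw [Matrix.map_mul, hi1, hp1, ← LinearMap.toMatrix_comp, hqi, LinearMap.toMatrix_id]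
  have hpow := pow_of_red M _ hS
  obtain ⟨k, hk⟩ : ∃ k, 13 ^ M = k + 1 :=
    Nat.exists_eq_succ_of_ne_zero (pow_ne_zero _ (by norm_num))
  rw [hk, pow_succ] at hpow
  set T := (p0 * E * (E * i0)) ^ k with hT
  have hTm : T.map (red M) = 1 := by
    have : (red M).mapMatrix T = ((red M).mapMatrix (p0 * E * (E * i0))) ^ k := by
      rw [hT, map_pow]
    rw [RingHom.mapMatrix_apply, RingHom.mapMatrix_apply, hS, one_pow] at this
    exact this
  have hPI : T * (p0 * E) * (E * i0) = 1 := by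
    rw [Matrix.mul_assoc]
    exact hpow
  have hP : (T * (p0 * E)).map (red M) = LinearMap.toMatrix b c q := by
    rw [Matrix.map_mul, hTm, hp1, Matrix.one_mul]
  have hEI : E * (E * i0) = E * i0 := by
    rw [← Matrix.mul_assoc, hE]
  have hPE : T * (p0 * E) * E = T * (p0 * E) := by
    rw [Matrix.mul_assoc, Matrix.mul_assoc, hE]
  refine ⟨E * i0, T * (p0 * E), q, hq, hPI, ?_, hi1, hP⟩
  generalize E * i0 = I at hPI hEI hi1
  generalize T * (p0 * E) = P at hPI hPE hP
  have h1 : E * (I * P) = I * P := by rw [← Matrix.mul_assoc, hEI]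
  have h2 : I * P * E = I * P := by rw [Matrix.mul_assoc, hPE]
  have h3 : I * P * (I * P) = I * P := by
    rw [Matrix.mul_assoc, ← Matrix.mul_assoc P, hPI, Matrix.one_mul]
  have hD : (E - I * P) * (E - I * P) = E - I * P := by
    rw [mul_sub, sub_mul, sub_mul, hE, h1, h2, h3]
    abel
  have h0 : (E - I * P).map (red M) = 0 := by
    have : (red M).mapMatrix (E - I * P) = (red M).mapMatrix E - (red M).mapMatrix (I * P) :=
      map_sub _ _ _
    rw [RingHom.mapMatrix_apply, RingHom.mapMatrix_apply, RingHom.mapMatrix_apply] at this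
    rw [this, Matrix.map_mul, hi1, hP, he, ← LinearMap.toMatrix_comp, hiq, sub_self]
  exact (sub_eq_zero.mp (xbtidem_zero M _ hD h0)).symm

theorem trace_mul_idem {V : Type} [AddCommGroup V] [Module K V] [Module.Finite K V]
    {n : ℕ} (b : Module.Basis (Fin n) K V) (a e : Module.End K V) (M : ℕ)
    (A E : Matrix (Fin n) (Fin n) (RM M)) (N : ℕ) (hN : ¬ 13 ∣ N) (hA : A ^ N = 1)
    (hE : E * E = E) (hAE : A * E = E * A) (ha : A.map (red M) = LinearMap.toMatrix b b a)
    (he : E.map (red M) = LinearMap.toMatrix b b e) (W : Submodule K V)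
    (hW : ∀ v, v ∈ W ↔ e v = v) (h : ∀ v ∈ W, a v ∈ W) :
    (A * E).trace = bt (a.restrict h) M := by
  let c := Module.finBasis K W
  obtain ⟨I, P, q, hq, hPI, hIP, hI, hP⟩ := xbtidem_split b e M E hE he W hW c
  have hAI : I * (P * A * I) = A * I := by
    rw [← Matrix.mul_assoc, ← Matrix.mul_assoc, hIP, ← hAE, ← hIP, Matrix.mul_assoc,
      Matrix.mul_assoc, hPI, Matrix.mul_one]
  have hpow : ∀ k : ℕ, (P * A * I) ^ k = P * A ^ k * I := by
    intro k
    induction k with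
    | zero => rw [pow_zero, pow_zero, Matrix.mul_one, hPI]
    | succ k ih =>
      rw [pow_succ (P * A * I), ih, Matrix.mul_assoc, hAI, pow_succ A]
      simp only [Matrix.mul_assoc]
  have hres : q ∘ₗ a ∘ₗ W.subtype = a.restrict h := by
    ext w
    rw [LinearMap.comp_apply, LinearMap.comp_apply, hq]
    exact (hW _).mp (h _ w.2)
  have hx : IsBt (a.restrict h) M (A * E).trace := by
    refine ⟨_, c, P * A * I, N, hN, ?_, ?_, ?_⟩
    · rw [hpow, hA, Matrix.mul_one, hPI]
    · rw [Matrix.map_mul, Matrix.map_mul, hP, ha, hI, Matrix.mul_assoc,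
        ← LinearMap.toMatrix_comp, ← LinearMap.toMatrix_comp, hres]
    · rw [Matrix.mul_assoc, Matrix.trace_mul_comm, ← hIP, Matrix.mul_assoc]
  exact isBt_unique _ M _ _ hx (Classical.epsilon_spec ⟨_, hx⟩)

theorem trace_idem {V : Type} [AddCommGroup V] [Module K V] [Module.Finite K V]
    {n : ℕ} (b : Module.Basis (Fin n) K V) (e : Module.End K V) (M : ℕ)
    (E : Matrix (Fin n) (Fin n) (RM M)) (hE : E * E = E)
    (he : E.map (red M) = LinearMap.toMatrix b b e) (W : Submodule K V)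
    (hW : ∀ v, v ∈ W ↔ e v = v) : E.trace = (Module.finrank K W : RM M) := by
  obtain ⟨I, P, q, -, hPI, hIP, -, -⟩ :=
    xbtidem_split b e M E hE he W hW (Module.finBasis K W)
  rw [← hIP, Matrix.trace_mul_comm, hPI, Matrix.trace_one, Fintype.card_fin]

end Pool.Agent.N9181

end

section

namespace Pool.Agent.N9181

open scoped commutatorElement

open Polynomial in
theorem xbteig_e0 (g P : K[X]) (hP : P.Separable) :
    ∃ e s t : K[X], P ∣ e * e - e ∧ P ∣ g * e ∧ 1 - e = s * g + t * P := by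
  classical
  obtain ⟨d', hd'⟩ := EuclideanDomain.gcd_dvd_right g P
  obtain ⟨g', hg'⟩ := EuclideanDomain.gcd_dvd_left g P
  have hab := EuclideanDomain.gcd_eq_gcd_ab g P
  generalize EuclideanDomain.gcd g P = d at hd' hg' hab
  have hc : IsCoprime d d' := Polynomial.Separable.isCoprime (hd' ▸ hP)
  obtain ⟨u, w, huw⟩ := hc
  refine ⟨w * d', u * EuclideanDomain.gcdA g P, u * EuclideanDomain.gcdB g P, ⟨-(u * w), ?_⟩,
    ⟨g' * w, ?_⟩, ?_⟩
  · linear_combination (w * d') * huw + (u * w) * hd'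
  · linear_combination (w * d') * hg' - (g' * w) * hd'
  · linear_combination u * hab - huw

theorem xbteig_nil (M : ℕ) (x : RM M) (hx : red M x = 0) : IsNilpotent x := by
  obtain ⟨y, rfl⟩ := ZMod.natCast_zmod_surjective x
  rw [map_natCast, ZMod.natCast_eq_zero_iff] at hx
  refine ⟨M + 1, ?_⟩
  rw [← Nat.cast_pow, ZMod.natCast_eq_zero_iff]
  exact pow_dvd_pow_of_dvd hx _

open Polynomial in
theorem xbteig_liftidem (N : ℕ) (hN : 0 < N) (M : ℕ) (e0 : K[X])
    (h0 : (X ^ N - 1 : K[X]) ∣ e0 * e0 - e0) :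
    ∃ e : (RM M)[X], (X ^ N - 1 : (RM M)[X]) ∣ e * e - e ∧
      (X ^ N - 1 : K[X]) ∣ e.map (red M) - e0 ∧ e.natDegree < N := by
  have hm : (X ^ N - 1 : (RM M)[X]).map (red M) = X ^ N - 1 := by simp
  let f := AdjoinRoot.map (red M) (X ^ N - 1) (X ^ N - 1) (hm ▸ dvd_rfl)
  have hf : ∀ p : (RM M)[X], f (AdjoinRoot.mk _ p) = AdjoinRoot.mk _ (p.map (red M)) := by
    intro p
    have : f.comp (AdjoinRoot.mk _) = (AdjoinRoot.mk _).comp (mapRingHom (red M)) := by
      refine Polynomial.ringHom_ext (fun r => ?_) ?_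
      · simp [f]
      · simp [f]
    exact DFunLike.congr_fun this p
  have hs : Function.Surjective (Polynomial.map (red M)) := map_surjective _ (red_surj M)
  have hk : ∀ x ∈ RingHom.ker f, IsNilpotent x := by
    intro x hx
    obtain ⟨p, rfl⟩ := AdjoinRoot.mk_surjective x
    rw [RingHom.mem_ker, hf, AdjoinRoot.mk_eq_zero] at hx
    obtain ⟨q, hq⟩ := hx
    obtain ⟨q, rfl⟩ := hs q
    have h1 : AdjoinRoot.mk (X ^ N - 1 : (RM M)[X]) p
        = AdjoinRoot.mk _ (p - (X ^ N - 1) * q) := by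
      rw [AdjoinRoot.mk_eq_mk]
      exact ⟨q, by ring⟩
    rw [h1]
    refine IsNilpotent.map ?_ _
    rw [Polynomial.isNilpotent_iff]
    intro i
    apply xbteig_nil
    rw [← coeff_map, Polynomial.map_sub, Polynomial.map_mul, hm, hq, sub_self, coeff_zero]
  obtain ⟨e1, rfl⟩ := hs e0
  obtain ⟨e', he', hfe⟩ := exists_isIdempotentElem_eq_of_ker_isNilpotent f hk
    (AdjoinRoot.mk _ (e1.map (red M))) ⟨_, hf e1⟩
    (by rw [IsIdempotentElem, ← map_mul, AdjoinRoot.mk_eq_mk]; exact h0)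
  obtain ⟨e2, rfl⟩ := AdjoinRoot.mk_surjective e'
  have : Nontrivial (RM M) := (red M).domain_nontrivial
  have hmon : (X ^ N - 1 : (RM M)[X]).Monic := by
    simpa using monic_X_pow_sub_C (1 : RM M) hN.ne'
  have hdeg : (X ^ N - 1 : (RM M)[X]).natDegree = N := by
    simpa using natDegree_X_pow_sub_C (n := N) (r := (1 : RM M))
  have h2 : AdjoinRoot.mk (X ^ N - 1 : (RM M)[X]) (e2 %ₘ (X ^ N - 1)) = AdjoinRoot.mk _ e2 := by
    rw [AdjoinRoot.mk_eq_mk]
    exact ⟨-(e2 /ₘ (X ^ N - 1)), by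
      linear_combination modByMonic_add_div e2 (X ^ N - 1 : (RM M)[X])⟩
  refine ⟨e2 %ₘ (X ^ N - 1), ?_, ?_, ?_⟩
  · rw [← AdjoinRoot.mk_eq_mk, map_mul, h2]
    exact he'
  · rw [← AdjoinRoot.mk_eq_mk, ← hf, h2, hfe]
  · have hne : (X ^ N - 1 : (RM M)[X]) ≠ 1 := by
      intro h
      rw [h, natDegree_one] at hdeg
      omega
    have := natDegree_modByMonic_lt e2 hmon hne
    rwa [hdeg] at this

theorem xbteig_lift {V : Type} [AddCommGroup V] [Module K V] [Module.Finite K V]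
    (a : Module.End K V) (N : ℕ) (hN : ¬ 13 ∣ N) (ha : a ^ N = 1) (M : ℕ) :
    ∃ (n : ℕ) (b : Module.Basis (Fin n) K V) (A : Matrix (Fin n) (Fin n) (RM M)),
      A ^ N = 1 ∧ (∀ k, (A ^ k).map (red M) = LinearMap.toMatrix b b (a ^ k)) ∧
        ∀ k, bt (a ^ k) M = (A ^ k).trace := by
  obtain ⟨n, b, A, N', hN', hA, hAa, -⟩ := isBt_bt a N hN ha M
  have hk : ∀ k, (A ^ k).map (red M) = LinearMap.toMatrix b b (a ^ k) := by
    intro k
    rw [← LinearMap.toMatrix_pow, ← hAa]
    exact map_pow (red M).mapMatrix A k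
  have h1 : (A ^ N) ^ (13 ^ M) = 1 := pow_of_red M _ (by rw [hk, ha, LinearMap.toMatrix_one])
  have h2 : (A ^ N) ^ N' = 1 := by rw [← pow_mul, mul_comm, pow_mul, hA, one_pow]
  have hc : Nat.Coprime (13 ^ M) N' :=
    Nat.Coprime.pow_left _ ((Nat.Prime.coprime_iff_not_dvd fact13.out).2 hN')
  have h3 : A ^ N = 1 := by
    have := pow_gcd_eq_one.2 ⟨h1, h2⟩
    rwa [hc, pow_one] at this
  refine ⟨n, b, A, h3, hk, fun k => ?_⟩
  refine isBt_unique (a ^ k) M _ _ (isBt_bt (a ^ k) N hN ?_ M) ⟨n, b, A ^ k, N, hN, ?_, hk k, rfl⟩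
  · rw [← pow_mul, mul_comm, pow_mul, ha, one_pow]
  · rw [← pow_mul, mul_comm, pow_mul, h3, one_pow]

theorem xbteig_core {V : Type} [AddCommGroup V] [Module K V] [Module.Finite K V]
    (a : Module.End K V) (N : ℕ) (hN : ¬ 13 ∣ N) (ha : a ^ N = 1) (M : ℕ) (c : ℕ → RM M)
    (W : Submodule K V)
    (hi : ∀ (n : ℕ) (A : Matrix (Fin n) (Fin n) (RM M)), A ^ N = 1 →
      (∑ k ∈ Finset.range N, c k • A ^ k) * (∑ k ∈ Finset.range N, c k • A ^ k) =
        ∑ k ∈ Finset.range N, c k • A ^ k)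
    (hW : ∀ v, v ∈ W ↔ (∑ k ∈ Finset.range N, red M (c k) • a ^ k) v = v) :
    (Module.finrank K W : RM M) = ∑ k ∈ Finset.range N, c k * bt (a ^ k) M := by
  obtain ⟨n, b, A, hA, hk, hb⟩ := xbteig_lift a N hN ha M
  rw [← trace_idem b _ M _ (hi n A hA) ?_ W hW, Matrix.trace_sum]
  · refine Finset.sum_congr rfl fun k _ => ?_
    rw [Matrix.trace_smul, hb, smul_eq_mul]
  · rw [map_sum]
    refine (map_sum (red M).mapMatrix _ _).trans (Finset.sum_congr rfl fun k _ => ?_)
    rw [(LinearMap.toMatrix b b).map_smul, ← hk]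
    ext i j
    simp

theorem xbteig_geom {R B : Type} [CommRing R] [Ring B] [Algebra R B] (x : B) (c : R) (N : ℕ)
    (hx : x ^ N = 1) (hc : c ^ N = 1) :
    x * ∑ k ∈ Finset.range N, c ^ (N - k) • x ^ k
      = c • ∑ k ∈ Finset.range N, c ^ (N - k) • x ^ k := by
  have h1 := Finset.sum_range_succ (fun k => c ^ (N + 1 - k) • x ^ k) N
  have h2 := Finset.sum_range_succ' (fun k => c ^ (N + 1 - k) • x ^ k) N
  rw [h1] at h2
  simp only [Nat.add_sub_cancel_left, pow_one, hx, Nat.sub_zero, pow_zero, pow_succ c N, hc,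
    one_mul, add_left_inj, Nat.add_sub_add_right] at h2
  rw [Finset.mul_sum, Finset.smul_sum]
  calc _ = ∑ k ∈ Finset.range N, c ^ (N - k) • x ^ (k + 1) :=
        Finset.sum_congr rfl fun k _ => by rw [mul_smul_comm, ← pow_succ']
    _ = _ := h2.symm
    _ = _ := Finset.sum_congr rfl fun k hk => by
        have := Finset.mem_range.1 hk
        rw [smul_smul, ← pow_succ', show N + 1 - k = N - k + 1 by omega]

theorem xbteig_pow {R B : Type} [CommRing R] [Ring B] [Algebra R B] (x S : B) (c : R)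
    (h : x * S = c • S) (k : ℕ) : x ^ k * S = c ^ k • S := by
  induction k with
  | zero => simp
  | succ k ih => rw [pow_succ, mul_assoc, h, mul_smul_comm, ih, smul_smul, pow_succ']

theorem xbteig_ed {V : Type} [AddCommGroup V] [Module K V] (a : Module.End K V) (c : K) :
    ed a c = Module.finrank K
      (LinearMap.ker (Polynomial.aeval a (Polynomial.X - Polynomial.C c))) := by
  have : Polynomial.aeval a (Polynomial.X - Polynomial.C c) = a - c • 1 := by
    rw [map_sub, Polynomial.aeval_X, Polynomial.aeval_C, Algebra.algebraMap_eq_smul_one]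
  rw [this, ed, Module.End.eigenspace_def]

theorem bt_eig {V : Type} [AddCommGroup V] [Module K V] [Module.Finite K V]
    (a : Module.End K V) (N : ℕ) (hN : ¬ 13 ∣ N) (ha : a ^ N = 1) (M : ℕ) (c : RM M)
    (hc : c ^ N = 1) :
    ∑ k ∈ Finset.range N, c ^ (N - k) * bt (a ^ k) M = (N : RM M) * (ed a (red M c) : RM M) := by
  have hu : IsUnit (N : RM M) := red_unit M _ (by
    rw [map_natCast, Ne, ZMod.natCast_eq_zero_iff]; exact hN)
  obtain ⟨u, hu⟩ := hu.exists_left_inv
  have hc' : red M c ^ N = 1 := by rw [← map_pow, hc, map_one]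
  have hu' : red M u * (N : K) = 1 := by
    rw [← map_natCast (red M), ← map_mul, hu, map_one]
  have h := xbteig_core a N hN ha M (fun k => u * c ^ (N - k)) (a.eigenspace (red M c)) ?_ ?_
  · rw [ed, h, Finset.mul_sum]
    refine Finset.sum_congr rfl fun k _ => ?_
    rw [← mul_assoc, ← mul_assoc, mul_comm _ u, hu, one_mul]
  · intro n A hA
    have h1 := xbteig_geom A c N hA hc
    simp only [mul_smul, ← Finset.smul_sum]
    generalize hS : ∑ k ∈ Finset.range N, c ^ (N - k) • A ^ k = S at h1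
    have h2 : S * S = (N : RM M) • S := by
      nth_rewrite 1 [← hS]
      rw [Finset.sum_mul, Finset.sum_congr rfl (g := fun _ => S), Finset.sum_const,
        Finset.card_range, Nat.cast_smul_eq_nsmul]
      intro k hk
      rw [smul_mul_assoc, xbteig_pow A S c h1, smul_smul, ← pow_add,
        Nat.sub_add_cancel (Finset.mem_range.1 hk).le, hc, one_smul]
    rw [smul_mul_smul_comm, h2, smul_smul, mul_assoc, hu, mul_one]
  · intro v
    have h1 := xbteig_geom a (red M c) N ha hc'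
    simp only [map_mul, map_pow, mul_smul, ← Finset.smul_sum]
    rw [Module.End.mem_eigenspace_iff]
    constructor
    · intro hv
      have hk : ∀ k, (a ^ k) v = red M c ^ k • v := by
        intro k
        induction k with
        | zero => simp
        | succ k ih =>
          rw [pow_succ', Module.End.mul_apply, ih, map_smul, hv, smul_smul, ← pow_succ]
      rw [LinearMap.smul_apply, LinearMap.sum_apply, Finset.sum_congr rfl (g := fun _ => v),
        Finset.sum_const, Finset.card_range, ← Nat.cast_smul_eq_nsmul K, smul_smul, hu', one_smul]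
      intro k hk'
      rw [LinearMap.smul_apply, hk, smul_smul, ← pow_add,
        Nat.sub_add_cancel (Finset.mem_range.1 hk').le, hc', one_smul]
    · intro hv
      generalize ∑ k ∈ Finset.range N, red M c ^ (N - k) • a ^ k = S at h1 hv
      have h2 : a (S v) = red M c • S v := LinearMap.congr_fun h1 v
      rw [LinearMap.smul_apply] at hv
      rw [← hv, map_smul, h2, smul_comm]

theorem bt_ker (g : Polynomial K) (N : ℕ) (hN : ¬ 13 ∣ N) (M : ℕ) :
    ∃ c : ℕ → RM M, ∀ (V : Type) [AddCommGroup V] [Module K V] [Module.Finite K V]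
      (a : Module.End K V), a ^ N = 1 →
      (Module.finrank K (LinearMap.ker (Polynomial.aeval a g)) : RM M) =
        ∑ k ∈ Finset.range N, c k * bt (a ^ k) M := by
  have hN0 : 0 < N := Nat.pos_of_ne_zero (by rintro rfl; exact hN (dvd_zero _))
  have hsep : (Polynomial.X ^ N - 1 : Polynomial K).Separable :=
    Polynomial.X_pow_sub_one_separable_iff.2 (by rw [Ne, ZMod.natCast_eq_zero_iff]; exact hN)
  obtain ⟨e0, s, t, h0, ⟨q1, h1⟩, h2⟩ := xbteig_e0 g _ hsep
  obtain ⟨e, ⟨q2, he⟩, ⟨q3, hee⟩, hd⟩ := xbteig_liftidem N hN0 M e0 h0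
  refine ⟨e.coeff, fun V _ _ _ a ha => xbteig_core a N hN ha M _ _ ?_ ?_⟩
  · intro n A hA
    rw [← Polynomial.aeval_eq_sum_range' hd, ← map_mul, ← sub_eq_zero, ← map_sub, he, map_mul,
      map_sub, map_pow, Polynomial.aeval_X, hA, map_one, sub_self, zero_mul]
  · intro v
    have hP : Polynomial.aeval a (Polynomial.X ^ N - 1 : Polynomial K) = 0 := by
      rw [map_sub, map_pow, Polynomial.aeval_X, ha, map_one, sub_self]
    have h3 : ∑ k ∈ Finset.range N, red M (e.coeff k) • a ^ k = Polynomial.aeval a e0 := by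
      have h4 := Polynomial.aeval_eq_sum_range'
        (lt_of_le_of_lt (Polynomial.natDegree_map_le (f := red M)) hd) a
      simp only [Polynomial.coeff_map] at h4
      rw [← h4, ← sub_eq_zero, ← map_sub, hee, map_mul, hP, zero_mul]
    rw [h3, LinearMap.mem_ker]
    constructor
    · intro hv
      have h4 := LinearMap.congr_fun (congrArg (Polynomial.aeval a) h2) v
      rw [map_sub, map_one, map_add, map_mul, map_mul, hP, mul_zero, add_zero,
        Module.End.mul_apply, hv, map_zero, LinearMap.sub_apply, Module.End.one_apply,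
        sub_eq_zero] at h4
      exact h4.symm
    · intro hv
      have h4 := LinearMap.congr_fun (congrArg (Polynomial.aeval a) h1) v
      rwa [map_mul, map_mul, hP, zero_mul, Module.End.mul_apply, hv, LinearMap.zero_apply] at h4

theorem ker_of_U {V : Type} [AddCommGroup V] [Module K V] [Module.Finite K V]
    {H : Type} [Group H] [Finite H] (h13 : ¬ 13 ∣ Nat.card H) (ρ : Representation K H V) (N m : ℕ) (hU : HU ρ N m) (h : H) (j : ℕ)
    (hj : j.Coprime N) (g : Polynomial K) :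
    Module.finrank K (LinearMap.ker (Polynomial.aeval (ρ (h ^ j)) g)) +
      Module.finrank K (LinearMap.ker (Polynomial.aeval (ρ (h ^ (j * m))) g)) =
    Module.finrank K (LinearMap.ker (Polynomial.aeval (ρ h) g)) +
      Module.finrank K (LinearMap.ker (Polynomial.aeval (ρ (h ^ m)) g)) := by
  refine eq_of_cast _ _ fun M => ?_
  obtain ⟨c, hc⟩ := bt_ker g (Nat.card H) h13 M
  have h1 : ∀ x : H, (ρ x) ^ Nat.card H = 1 := fun x => by
    rw [← map_pow, pow_card_eq_one', map_one]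
  rw [Nat.cast_add, Nat.cast_add, hc V _ (h1 _), hc V _ (h1 _), hc V _ (h1 _), hc V _ (h1 _),
    ← Finset.sum_add_distrib, ← Finset.sum_add_distrib]
  refine Finset.sum_congr rfl fun k _ => ?_
  rw [← mul_add, ← mul_add, ← map_pow, ← map_pow, ← map_pow, ← map_pow, pow_right_comm h j k,
    pow_right_comm h (j * m) k, pow_right_comm h m k, hU (h ^ k) j hj M]

theorem ed_of_U {V : Type} [AddCommGroup V] [Module K V] [Module.Finite K V]
    {H : Type} [Group H] [Finite H] (h13 : ¬ 13 ∣ Nat.card H) (ρ : Representation K H V) (N m : ℕ) (hU : HU ρ N m) (h : H) (j : ℕ)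
    (hj : j.Coprime N) (c : K) :
    ed (ρ (h ^ j)) c + ed (ρ (h ^ (j * m))) c = ed (ρ h) c + ed (ρ (h ^ m)) c := by
  simp only [xbteig_ed]
  exact ker_of_U h13 ρ N m hU h j hj _

theorem bal_of_realOp {V : Type} [AddCommGroup V] [Module K V] [Module.Finite K V]
    {H : Type} [Group H] (ρ : Representation K H V) (hc : Cop ρ) (h : H) (hr : ∀ k : ℕ, RealOp ρ (h ^ k)) :
    ed (ρ h) 3 = ed (ρ h) 9 := by
  obtain ⟨N, hN, h1⟩ := hc h
  have h2 : (ρ h⁻¹) ^ N = 1 := by
    rw [← map_pow] at h1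
    rw [← map_pow, inv_pow, ← mul_one (ρ _)]
    nth_rewrite 1 [← h1]
    rw [← map_mul, inv_mul_cancel, map_one]
  have h3 : ed (ρ h) 3 = ed (ρ h⁻¹) 3 := by
    simp only [xbteig_ed]
    refine eq_of_cast _ _ fun M => ?_
    obtain ⟨c, hc⟩ := bt_ker (Polynomial.X - Polynomial.C 3) N hN M
    rw [hc V _ h1, hc V _ h2]
    refine Finset.sum_congr rfl fun k _ => ?_
    rw [← map_pow, ← map_pow, inv_pow, hr k M]
  have h39 : (3 : K) * 9 = 1 := by decide
  have h93 : (9 : K) * 3 = 1 := by decide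
  have h4 : Module.End.eigenspace (ρ h⁻¹) 3 = Module.End.eigenspace (ρ h) 9 := by
    ext v
    rw [Module.End.mem_eigenspace_iff, Module.End.mem_eigenspace_iff]
    constructor
    · intro hv
      have h5 := congrArg (ρ h) hv
      rw [← Module.End.mul_apply, ← map_mul, mul_inv_cancel, map_one, Module.End.one_apply,
        map_smul] at h5
      nth_rewrite 2 [h5]
      rw [smul_smul, h93, one_smul]
    · intro hv
      have h5 := congrArg (ρ h⁻¹) hv
      rw [← Module.End.mul_apply, ← map_mul, inv_mul_cancel, map_one, Module.End.one_apply,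
        map_smul] at h5
      nth_rewrite 2 [h5]
      rw [smul_smul, h39, one_smul]
  rw [h3, ed, ed, h4]

theorem hbal_of_hreal {V : Type} [AddCommGroup V] [Module K V] [Module.Finite K V]
    {H : Type} [Group H] (ρ : Representation K H V) (hc : Cop ρ) (hr : HReal ρ) : HBal ρ := by
  intro h v hv h1
  refine bal_of_realOp ρ hc h fun k => hr _ v hv ?_
  induction k with
  | zero => rw [pow_zero, map_one, Module.End.one_apply]
  | succ k ih => rw [pow_succ, map_mul, Module.End.mul_apply, h1, ih]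

end Pool.Agent.N9181

end

section

namespace Pool.Agent.N9181

open scoped commutatorElement

theorem xscal3_roots {H : Type} [Group H] [Finite H] (A : Subgroup H) (hc : IsCyclic A)
    (a : H) (ha : a ∈ A) (ha1 : a ≠ 1) (ha3 : a ^ 3 = 1) (x : H) (hx : x ∈ A) (hx1 : x ≠ 1)
    (hx3 : x ^ 3 = 1) : x = a ∨ x = a ^ 2 := by
  classical
  haveI : Fintype A := Fintype.ofFinite A
  by_contra hne
  push Not at hne
  obtain ⟨h1, h2⟩ := hne
  have hle := IsCyclic.card_pow_eq_one_le (α := A) (n := 3) (by norm_num)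
  have ha2 : a ^ 2 ≠ 1 := by
    intro h
    apply ha1
    have : a ^ 3 = a ^ 2 * a := pow_succ a 2
    rw [ha3, h, one_mul] at this
    exact this.symm
  have haa : a ≠ a ^ 2 := by
    intro h
    apply ha1
    have : a * 1 = a * a := by rw [mul_one, ← pow_two]; exact h
    exact (mul_left_cancel this).symm
  let s : Finset A := {1, ⟨a, ha⟩, ⟨a ^ 2, A.pow_mem ha 2⟩, ⟨x, hx⟩}
  have hs : s.card = 4 := by
    rw [Finset.card_eq_four]
    refine ⟨1, ⟨a, ha⟩, ⟨a ^ 2, A.pow_mem ha 2⟩, ⟨x, hx⟩, ?_, ?_, ?_, ?_, ?_, ?_, rfl⟩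
    · intro h; exact ha1 (congrArg Subtype.val h).symm
    · intro h; exact ha2 (congrArg Subtype.val h).symm
    · intro h; exact hx1 (congrArg Subtype.val h).symm
    · intro h; exact haa (congrArg Subtype.val h)
    · intro h; exact h1 (congrArg Subtype.val h).symm
    · intro h; exact h2 (congrArg Subtype.val h).symm
  have hsub : s ⊆ Finset.univ.filter (fun y : A => y ^ 3 = 1) := by
    intro y hy
    simp only [s, Finset.mem_insert, Finset.mem_singleton] at hy
    rw [Finset.mem_filter]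
    refine ⟨Finset.mem_univ _, ?_⟩
    rcases hy with rfl | rfl | rfl | rfl
    · exact one_pow 3
    · exact Subtype.ext ha3
    · apply Subtype.ext
      show (a ^ 2) ^ 3 = 1
      rw [← pow_mul, mul_comm, pow_mul, ha3, one_pow]
    · exact Subtype.ext hx3
  have := Finset.card_le_card hsub
  omega

theorem xscal3_conj {H : Type} [Group H] [Finite H] (A : Subgroup H) (hA : A.Normal)
    (hc : IsCyclic A) (a : H) (ha : a ∈ A) (ha1 : a ≠ 1) (ha3 : a ^ 3 = 1) (h : H) :
    h * a * h⁻¹ = a ∨ h * a * h⁻¹ = a ^ 2 := by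
  apply xscal3_roots A hc a ha ha1 ha3 _ (hA.conj_mem a ha h)
  · intro e
    apply ha1
    have : a = h⁻¹ * (h * a * h⁻¹) * h := by group
    rw [this, e]; group
  · rw [conj_pow, ha3]; group

theorem xscal3_le {V : Type} [AddCommGroup V] [Module K V] [Module.Finite K V]
    {H : Type} [Group H] (ρ : Representation K H V) (a h : H) (ha3 : a ^ 3 = 1)
    (hh : h * a * h⁻¹ = a ^ 2) (c d : K) (hcd : c * c = d) : ed (ρ a) c ≤ ed (ρ a) d := by
  have hmap : ∀ v ∈ Module.End.eigenspace (ρ a) c, ρ h v ∈ Module.End.eigenspace (ρ a) d := by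
    intro v hv
    rw [Module.End.mem_eigenspace_iff] at hv ⊢
    have e1 : a * h = h * (a * a) := by
      have e2 : h * (a * a) * h⁻¹ = (h * a * h⁻¹) * (h * a * h⁻¹) := by group
      have e3 : a ^ 2 * a ^ 2 = a ^ 3 * a := by group
      rw [hh, e3, ha3, one_mul] at e2
      have e4 : h * (a * a) * h⁻¹ * h = h * (a * a) := by group
      rw [← e4, e2]
    have : ρ a (ρ h v) = ρ (a * h) v := by rw [map_mul]; rfl
    rw [this, e1, map_mul, map_mul]
    show ρ h (ρ a (ρ a v)) = _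
    rw [hv, map_smul, hv, smul_smul, map_smul, hcd]
  have hinj : Function.Injective ((ρ h).restrict hmap) := by
    intro x y hxy
    apply Subtype.ext
    have e : ρ h x = ρ h y := congrArg Subtype.val hxy
    have k : ∀ v : V, ρ h⁻¹ (ρ h v) = v := by
      intro v
      have : ρ h⁻¹ (ρ h v) = ρ (h⁻¹ * h) v := by rw [map_mul]; rfl
      rw [this, inv_mul_cancel, map_one]; rfl
    rw [← k x, ← k y, e]
  exact LinearMap.finrank_le_finrank_of_injective hinj

theorem scal_of_three {V : Type} [AddCommGroup V] [Module K V] [Module.Finite K V]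
    {H : Type} [Group H] [Finite H] (ρ : Representation K H V) (hinj : Function.Injective ρ) (hirr : Irr ρ) (A : Subgroup H) (hA : A.Normal)
    (hc : IsCyclic A) (a : H) (ha : a ∈ A) (ha1 : a ≠ 1) (ha3 : a ^ 3 = 1) :
    Scal ρ ∨ (ed (ρ a) 3 = ed (ρ a) 9 ∧ 0 < ed (ρ a) 3 ∧
      Module.finrank K V = 2 * ed (ρ a) 3 ∧ ed (ρ a) 1 = 0 ∧
      ∀ (t : H) (b : ℕ), t ^ (3 ^ b) = 1 → t * a = a * t) := by
  have hfree := freeOn_of_irr ρ hinj hirr A hA hc
  have h1 : ed (ρ a) 1 = 0 := by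
    by_contra hne
    have hpos : 0 < edOn ⊤ (ρ a) 1 := by rw [edOn_top]; exact Nat.pos_of_ne_zero hne
    obtain ⟨w, -, hw0, hw⟩ := (edOn_pos _ _ _).1 hpos
    rw [one_smul] at hw
    exact ha1 (hfree a ha w hw0 hw)
  have hsp : Module.finrank K V = ed (ρ a) 3 + ed (ρ a) 9 := by
    have := split3 (⊤ : Submodule K V) (ρ a) (fun _ _ => Submodule.mem_top) (fun w _ => by
      rw [← map_pow, ha3, map_one]; rfl)
    rw [edOn_top, edOn_top, edOn_top, h1, finrank_top] at this
    omega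
  by_cases hall : ∀ h : H, h * a * h⁻¹ = a
  · left
    have hinv : ∀ h, ∀ v ∈ Module.End.eigenspace (ρ a) 3,
        ρ h v ∈ Module.End.eigenspace (ρ a) 3 := by
      intro h v hv
      rw [Module.End.mem_eigenspace_iff] at hv ⊢
      have e1 : a * h = h * a := by
        have := hall h
        nth_rewrite 1 [← this]
        group
      have : ρ a (ρ h v) = ρ (a * h) v := by rw [map_mul]; rfl
      rw [this, e1, map_mul]
      show ρ h (ρ a v) = _
      rw [hv, map_smul]
    rcases hirr.2 _ hinv with hb | ht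
    · have e0 : ed (ρ a) 3 = 0 := by
        unfold ed
        rw [hb, finrank_bot]
      have e9 : Module.End.eigenspace (ρ a) 9 = ⊤ := by
        apply Submodule.eq_top_of_finrank_eq
        rw [hsp, e0, zero_add]; rfl
      refine ⟨a * a, fun v => ?_⟩
      have k : ∀ v : V, ρ a v = (9 : K) • v := fun v =>
        Module.End.mem_eigenspace_iff.1 (by rw [e9]; exact Submodule.mem_top)
      rw [map_mul]
      show ρ a (ρ a v) = _
      rw [k, k, smul_smul]
      congr 1
    · refine ⟨a, fun v => ?_⟩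
      exact Module.End.mem_eigenspace_iff.1 (by rw [ht]; exact Submodule.mem_top)
  · right
    push Not at hall
    obtain ⟨h, hh⟩ := hall
    have hh2 : h * a * h⁻¹ = a ^ 2 := (xscal3_conj A hA hc a ha ha1 ha3 h).resolve_left hh
    have l1 := xscal3_le ρ a h ha3 hh2 3 9 (by decide)
    have l2 := xscal3_le ρ a h ha3 hh2 9 3 (by decide)
    have hpos : 0 < Module.finrank K V := by
      obtain ⟨v, hv⟩ := hirr.1
      haveI : Nontrivial V := ⟨⟨v, 0, hv⟩⟩
      exact Module.finrank_pos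
    refine ⟨by omega, by omega, by omega, h1, fun t b ht => ?_⟩
    have hc2 : Commute (t * t) a := by
      have e : t * t * a * (t * t)⁻¹ = a := by
        have e1 : t * t * a * (t * t)⁻¹ = t * (t * a * t⁻¹) * t⁻¹ := by group
        rcases xscal3_conj A hA hc a ha ha1 ha3 t with e2 | e2
        · rw [e1, e2, e2]
        · have e3 : t * a ^ 2 * t⁻¹ = (t * a * t⁻¹) * (t * a * t⁻¹) := by
            rw [pow_two]; group
          have e4 : a ^ 2 * a ^ 2 = a ^ 3 * a := by group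
          rw [e1, e2, e3, e2, e4, ha3, one_mul]
      show t * t * a = a * (t * t)
      nth_rewrite 2 [← e]
      group
    obtain ⟨k, hk⟩ : Odd (3 ^ b) := Odd.pow (by decide)
    have e5 : t = ((t * t) ^ k)⁻¹ := by
      rw [eq_inv_iff_mul_eq_one, ← pow_two, ← pow_mul, ← pow_succ', ← hk, ht]
    have hc3 : Commute (((t * t) ^ k)⁻¹) a := (hc2.pow_left k).inv_left
    rw [← e5] at hc3
    exact hc3

end Pool.Agent.N9181

end

section

namespace Pool.Agent.N9181

open scoped commutatorElement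

theorem xpair_emb (Z : Type) [CommGroup Z] [Finite Z] [IsCyclic Z] :
    ∃ ι : Z →* ℂˣ, Function.Injective ι := by
  haveI : NeZero (Nat.card Z) := ⟨Nat.card_pos.ne'⟩
  have h := HasEnoughRootsOfUnity.natCard_rootsOfUnity ℂ (Nat.card Z)
  let e : Z ≃* rootsOfUnity (Nat.card Z) ℂ := mulEquivOfCyclicCardEq h.symm
  exact ⟨(rootsOfUnity (Nat.card Z) ℂ).subtype.comp e.toMonoidHom,
    (Subgroup.subtype_injective _).comp e.injective⟩

theorem xpair_fin (S Z : Type) [CommGroup S] [Finite S] [CommGroup Z] [Finite Z] :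
    Finite (S →* Z) :=
  Finite.of_injective (fun f : S →* Z => (f : S → Z)) DFunLike.coe_injective

theorem xpair_card (S Z : Type) [CommGroup S] [Finite S] [CommGroup Z] [Finite Z] [IsCyclic Z] :
    Nat.card (S →* Z) ≤ Nat.card S := by
  obtain ⟨ι, hι⟩ := xpair_emb Z
  have h := CommGroup.card_monoidHom_of_hasEnoughRootsOfUnity S ℂ
  haveI : Finite (S →* ℂˣ) := Nat.finite_of_card_ne_zero (by rw [h]; exact Nat.card_pos.ne')
  rw [← h]
  refine Nat.card_le_card_of_injective (fun f : S →* Z => ι.comp f) fun f g hfg => ?_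
  ext x
  exact hι (DFunLike.congr_fun hfg x)

theorem xpair_inj {U Z : Type} [CommGroup U] [CommGroup Z] (B : U →* U →* Z) (hB : Symp B) :
    Function.Injective B :=
  (injective_iff_map_eq_one B).2 fun x hx => hB.2 x fun y => by rw [hx]; rfl

theorem xpair_skew {U Z : Type} [CommGroup U] [CommGroup Z] (B : U →* U →* Z) (hB : Symp B)
    (x y : U) : B y x = (B x y)⁻¹ := by
  have h := hB.1 (x * y)
  rw [map_mul, map_mul, MonoidHom.mul_apply, MonoidHom.mul_apply, hB.1 x, hB.1 y, one_mul,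
    mul_one] at h
  exact eq_inv_of_mul_eq_one_left h

theorem symp_hom {U Z : Type} [CommGroup U] [Finite U] [CommGroup Z] [Finite Z] [IsCyclic Z]
    (B : U →* U →* Z) (hB : Symp B) (f : U →* Z) :
    ∃ x, ∀ y, f y = B x y := by
  haveI := xpair_fin U Z
  obtain ⟨x, hx⟩ := ((xpair_inj B hB).bijective_of_nat_card_le (xpair_card U Z)).2 f
  exact ⟨x, fun y => by rw [hx]⟩

theorem card_perp {U Z : Type} [CommGroup U] [Finite U] [CommGroup Z] [Finite Z] [IsCyclic Z]
    (B : U →* U →* Z) (hB : Symp B) (S : Subgroup U) :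
    Nat.card S * Nat.card (perp B S) = Nat.card U := by
  haveI := xpair_fin S Z
  haveI := xpair_fin (U ⧸ perp B S) Z
  let r : U →* S →* Z := (B.comp S.subtype).flip
  have hr : r.ker = perp B S := by
    ext y
    rw [MonoidHom.mem_ker]
    constructor
    · intro h x hx
      exact DFunLike.congr_fun h ⟨x, hx⟩
    · intro h
      ext x
      exact h x x.2
  have h1 : Nat.card (U ⧸ perp B S) ≤ Nat.card S := by
    rw [← hr]
    exact (Nat.card_le_card_of_injective _ (QuotientGroup.kerLift_injective r)).trans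
      (xpair_card S Z)
  have h2 : Nat.card S ≤ Nat.card (U ⧸ perp B S) := by
    refine (Nat.card_le_card_of_injective (fun x : S => QuotientGroup.lift (perp B S) (B x)
      fun y hy => hy x x.2) fun x x' h => ?_).trans (xpair_card _ Z)
    refine Subtype.ext (xpair_inj B hB ?_)
    ext y
    exact DFunLike.congr_fun h (y : U ⧸ perp B S)
  rw [le_antisymm h2 h1, ← Subgroup.card_eq_card_quotient_mul_card_subgroup]

theorem exists_lagr {U Z : Type} [CommGroup U] [Finite U] [CommGroup Z] [Finite Z] [IsCyclic Z]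
    (B : U →* U →* Z) (hB : Symp B) :
    ∃ S : Subgroup U, perp B S = S := by
  have h0 : (⊥ : Subgroup U) ≤ perp B ⊥ := bot_le
  obtain ⟨S, -, hS⟩ := Finite.exists_le_maximal (p := fun S : Subgroup U => S ≤ perp B S) h0
  refine ⟨S, le_antisymm (fun y hy => ?_) hS.1⟩
  have h1 : S ⊔ Subgroup.zpowers y ≤ perp B (S ⊔ Subgroup.zpowers y) := by
    intro a ha b hb
    obtain ⟨s, hs, _, ⟨k, rfl⟩, rfl⟩ := Subgroup.mem_sup.1 ha
    obtain ⟨t, ht, _, ⟨l, rfl⟩, rfl⟩ := Subgroup.mem_sup.1 hb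
    have e1 : B t s = 1 := hS.1 hs t ht
    have e2 : B t y = 1 := hy t ht
    have e3 : B y s = 1 := by rw [xpair_skew B hB, hy s hs, inv_one]
    simp only [map_mul, map_zpow, MonoidHom.mul_apply, MonoidHom.zpow_apply, e1, e2, e3, hB.1 y,
      one_zpow, one_mul]
  exact hS.2 h1 le_sup_left (Subgroup.mem_sup_right (Subgroup.mem_zpowers y))

theorem prime_dvd_symp {U Z : Type} [CommGroup U] [Finite U] [CommGroup Z] [Finite Z] [IsCyclic Z]
    (B : U →* U →* Z) (hB : Symp B) (p : ℕ) (hp : p.Prime)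
    (h : p ∣ Nat.card U) : p ∣ Nat.card Z := by
  haveI : Fact p.Prime := ⟨hp⟩
  obtain ⟨x, hx⟩ := exists_prime_orderOf_dvd_card' p h
  have h1 : x ≠ 1 := by
    rintro rfl
    rw [orderOf_one] at hx
    exact hp.one_lt.ne hx
  have h2 : ∃ y, B x y ≠ 1 := by
    by_contra hc
    push Not at hc
    exact h1 (hB.2 x hc)
  obtain ⟨y, hy⟩ := h2
  have h3 : B x y ^ p = 1 := by
    rw [← MonoidHom.pow_apply, ← map_pow, ← hx, pow_orderOf_eq_one, map_one]
    rfl
  rw [← orderOf_eq_prime h3 hy]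
  exact orderOf_dvd_natCard _

theorem symp_skew {U Z : Type} [CommGroup U] [Finite U] [CommGroup Z] [Finite Z] [IsCyclic Z]
    (B : U →* U →* Z) (hB : Symp B) (x y : U) :
    B y x = (B x y)⁻¹ := by
  exact xpair_skew B hB x y

end Pool.Agent.N9181

end

section

namespace Pool.Agent.N9181

open scoped commutatorElement

theorem xsdpair_lift {F U T : Type} [Group F] [Group U] [Group T] (π : F →* U)
    (hπ : Function.Surjective π) (f : F →* T) (h : ∀ x, π x = 1 → f x = 1) :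
    ∃ g : U →* T, ∀ x, g (π x) = f x :=
  ⟨π.liftOfRightInverse _ (Function.rightInverse_surjInv hπ) ⟨f, h⟩,
    π.liftOfRightInverse_comp_apply _ _ ⟨f, h⟩⟩

theorem xsdpair_lift2 {F U Z : Type} [Group F] [Group U] [CommGroup Z] (π : F →* U)
    (hπ : Function.Surjective π) (β : F →* F →* Z)
    (h : ∀ x, π x = 1 → ∀ y, β x y = 1 ∧ β y x = 1) :
    ∃ B : U →* U →* Z, ∀ x y, B (π x) (π y) = β x y := by
  obtain ⟨g, hg⟩ := xsdpair_lift π hπ β fun x hx => MonoidHom.ext fun y => (h x hx y).1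
  obtain ⟨g', hg'⟩ := xsdpair_lift π hπ g.flip fun x hx => MonoidHom.ext fun u => by
    obtain ⟨y, rfl⟩ := hπ u
    rw [MonoidHom.flip_apply, hg]
    exact (h x hx y).2
  exact ⟨g'.flip, fun x y => by rw [MonoidHom.flip_apply, hg', MonoidHom.flip_apply, hg]⟩

theorem pd_pair {H : Type} [Group H] [Finite H] (A F : Subgroup H) (hP : PD A F) :
    ∃ (U Z : Type) (_ : CommGroup U) (_ : Finite U) (_ : CommGroup Z) (_ : Finite Z)
      (_ : IsCyclic Z) (π : F →* U) (ζ : Z →* H) (B : U →* U →* Z),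
      Function.Surjective π ∧ (∀ x : F, π x = 1 ↔ (x : H) ∈ A) ∧ Function.Injective ζ ∧
      (∀ a, a ∈ A ↔ ∃ z, ζ z = a) ∧ Symp B ∧
      (∀ x y : F, ζ (B (π x) (π y)) = ⁅(x : H), (y : H)⁆) ∧
      Nat.card U = A.relIndex F ∧ Nat.card Z = Nat.card A := by
  have : (A.subgroupOf F).Normal := ⟨fun a ha g => by
    have h : g * a * g⁻¹ = a := by
      rw [mul_inv_eq_iff_eq_mul]
      exact Subtype.ext (hP.cen a ha g g.2).symm
    rwa [h]⟩
  have hπ := QuotientGroup.mk'_surjective (A.subgroupOf F)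
  have hk : ∀ x : F, QuotientGroup.mk' (A.subgroupOf F) x = 1 ↔ (x : H) ∈ A := fun x =>
    QuotientGroup.eq_one_iff x
  let iU : CommGroup (F ⧸ A.subgroupOf F) :=
    { (inferInstance : Group (F ⧸ A.subgroupOf F)) with
      mul_comm := fun u v => by
        obtain ⟨x, rfl⟩ := hπ u
        obtain ⟨y, rfl⟩ := hπ v
        rw [← commutatorElement_eq_one_iff_mul_comm, ← map_commutatorElement, hk]
        exact hP.comm x x.2 y y.2 }
  let iZ : CommGroup A :=
    { (inferInstance : Group A) with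
      mul_comm := fun a b => Subtype.ext (hP.cen a a.2 b (hP.le b.2)) }
  have hc : ∀ x y w : F, (w : H) * ⁅(x : H), (y : H)⁆ * (w : H)⁻¹ = ⁅(x : H), (y : H)⁆ :=
    fun x y w => by rw [← hP.cen _ (hP.comm x x.2 y y.2) w w.2, mul_inv_cancel_right]
  let β : F →* F →* A := MonoidHom.mk' (fun x => MonoidHom.mk'
    (fun y => ⟨⁅(x : H), (y : H)⁆, hP.comm x x.2 y y.2⟩) fun y w => Subtype.ext (by
      change ⁅(x : H), (y : H) * w⁆ = ⁅(x : H), (y : H)⁆ * ⁅(x : H), (w : H)⁆
      rw [← hc x w y]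
      group)) fun x y => MonoidHom.ext fun w => (Subtype.ext (by
      change ⁅(x : H) * y, (w : H)⁆ = ⁅(y : H), (w : H)⁆ * ⁅(x : H), (w : H)⁆
      rw [← hc y w x]
      group)).trans (mul_comm _ _)
  obtain ⟨B, hB⟩ := xsdpair_lift2 _ hπ β fun x hx y =>
    ⟨Subtype.ext (commutatorElement_eq_one_iff_mul_comm.2 (hP.cen x ((hk x).1 hx) y y.2)),
      Subtype.ext (commutatorElement_eq_one_iff_mul_comm.2 (hP.cen x ((hk x).1 hx) y y.2).symm)⟩
  refine ⟨_, _, iU, inferInstance, iZ, inferInstance, hP.cyc, _, A.subtype, B, hπ, hk,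
    Subtype.val_injective, fun a => ⟨fun h => ⟨⟨a, h⟩, rfl⟩, fun ⟨z, h⟩ => h ▸ z.2⟩,
    ⟨fun u => ?_, fun u h => ?_⟩, fun x y => congrArg Subtype.val (hB x y), rfl, rfl⟩
  · obtain ⟨x, rfl⟩ := hπ u
    exact (hB x x).trans (Subtype.ext (commutatorElement_self _))
  · obtain ⟨x, rfl⟩ := hπ u
    exact (hk x).2 (hP.nd x x.2 fun y hy => commutatorElement_eq_one_iff_mul_comm.1
      (congrArg Subtype.val ((hB x ⟨y, hy⟩).symm.trans (h _))))

theorem sd_pair {H : Type} [Group H] [Finite H] (A F : Subgroup H) (hS : SD A F) :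
    ∃ (U Z : Type) (_ : CommGroup U) (_ : Finite U) (_ : CommGroup Z) (_ : Finite Z)
      (_ : IsCyclic Z) (π : F →* U) (ζ : Z →* H) (B : U →* U →* Z)
      (κ : Subgroup.centralizer (A : Set H) →* Iso B),
      Function.Surjective π ∧ (∀ x : F, π x = 1 ↔ (x : H) ∈ A) ∧ Function.Injective ζ ∧
      (∀ a, a ∈ A ↔ ∃ z, ζ z = a) ∧ Symp B ∧
      (∀ x y : F, ζ (B (π x) (π y)) = ⁅(x : H), (y : H)⁆) ∧
      Nat.card U = A.relIndex F ∧ Nat.card Z = Nat.card A ∧
      (∀ (c : Subgroup.centralizer (A : Set H)) (x y : F), (y : H) = c * x * (c : H)⁻¹ →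
        (κ c : MulAut U) (π x) = π y) ∧ ∀ c, κ c = 1 ↔ (c : H) ∈ F := by
  obtain ⟨U, Z, _, _, _, _, _, π, ζ, B, h1, h2, h3, h4, h5, h6, h7, h8⟩ := pd_pair A F hS.toPD
  have := hS.nF
  choose g hg using fun c : H => xsdpair_lift π h1
    (π.comp (MulAut.conjNormal c : MulAut F).toMonoidHom)
    fun x hx => (h2 (MulAut.conjNormal c x)).2 (hS.nA.conj_mem _ ((h2 x).1 hx) c)
  replace hg : ∀ c x, g c (π x) = π (MulAut.conjNormal c x) := hg
  have hm : ∀ c d u, g (c * d) u = g c (g d u) := fun c d u => by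
    obtain ⟨x, rfl⟩ := h1 u
    rw [hg, hg, hg, map_mul, MulAut.mul_apply]
  have h0 : ∀ u, g 1 u = u := fun u => by
    obtain ⟨x, rfl⟩ := h1 u
    rw [hg, map_one, MulAut.one_apply]
  let κ : H →* MulAut U := MonoidHom.mk' (fun c => MonoidHom.toMulEquiv (g c) (g c⁻¹)
    (MonoidHom.ext fun u => (hm _ _ u).symm.trans (by rw [inv_mul_cancel, h0]; rfl))
    (MonoidHom.ext fun u => (hm _ _ u).symm.trans (by rw [mul_inv_cancel, h0]; rfl)))
    fun c d => MulEquiv.ext (hm c d)
  refine ⟨U, Z, _, ‹_›, _, ‹_›, ‹_›, π, ζ, B, (κ.comp (Subgroup.subtype _)).codRestrict _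
    fun c u v => ?_, h1, h2, h3, h4, h5, h6, h7, h8,
    fun c x y e => (hg c x).trans (congrArg π (Subtype.ext e.symm)), fun c => ?_⟩
  · obtain ⟨x, rfl⟩ := h1 u
    obtain ⟨y, rfl⟩ := h1 v
    refine h3 ?_
    change ζ (B (g c (π x)) (g c (π y))) = _
    rw [hg, hg, h6, h6, MulAut.conjNormal_apply, MulAut.conjNormal_apply,
      ← conjugate_commutatorElement, ← c.2 _ (hS.comm x x.2 y y.2), mul_inv_cancel_right]
  · have key : ∀ x : F, g c (π x) = π x ↔ ⁅(c : H), (x : H)⁆ ∈ A := fun x => by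
      rw [hg, ← mul_inv_eq_one, ← map_inv, ← map_mul, h2]
      rfl
    refine ⟨fun e => hS.ff c c.2 fun y hy => (key ⟨y, hy⟩).1
      (DFunLike.congr_fun (congrArg Subtype.val e) _), fun e => Subtype.ext (MulEquiv.ext
        (h1.forall.2 fun x => (key x).2 (hS.comm c e x x.2)))⟩

theorem pd_sq {H : Type} [Group H] [Finite H] (A F : Subgroup H) (hP : PD A F) :
    ∃ e : ℕ, 0 < e ∧ A.relIndex F = e ^ 2 ∧ ∀ p : ℕ, p.Prime → p ∣ e → p ∣ Nat.card A := by
  obtain ⟨U, Z, _, _, _, _, _, π, ζ, B, -, -, -, -, h5, -, h7, h8⟩ := pd_pair A F hP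
  obtain ⟨S, hS⟩ := exists_lagr B h5
  have h := card_perp B h5 S
  rw [hS] at h
  exact ⟨Nat.card S, Nat.card_pos, by rw [← h7, ← h, sq], fun p hp e =>
    h8 ▸ prime_dvd_symp B h5 p hp (h ▸ e.mul_right _)⟩

end Pool.Agent.N9181

end

section

namespace Pool.Agent.N9181

open scoped commutatorElement

section

variable {L : Type} [Field L] {M : Type} [AddCommGroup M] [Module L M]

theorem xdimk_eig [IsAlgClosed L] [Module.Finite L M] {ι : Type} (a : ι → Module.End L M)
    (hc : ∀ i j, Commute (a i) (a j)) (W : Submodule L M) : W ≠ ⊥ → (∀ i, ∀ w ∈ W, a i w ∈ W) →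
    ∃ v ∈ W, v ≠ 0 ∧ ∀ i, ∃ c : L, a i v = c • v := by
  induction W using WellFoundedLT.induction with
  | ind W ih =>
    intro h0 hW
    by_cases h : ∀ i, ∃ c : L, ∀ w ∈ W, a i w = c • w
    · obtain ⟨v, hv, h1⟩ := (Submodule.ne_bot_iff W).1 h0
      exact ⟨v, hv, h1, fun i => (h i).imp fun c hc => hc v hv⟩
    · push Not at h
      obtain ⟨i, hi⟩ := h
      have : Nontrivial W := Submodule.nontrivial_iff_ne_bot.2 h0
      obtain ⟨c, h1⟩ := Module.End.exists_eigenvalue ((a i).restrict (hW i))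
      obtain ⟨w, h2, h3⟩ := h1.exists_hasEigenvector
      obtain ⟨u, h4, h5⟩ := hi c
      obtain ⟨v, h6, h7⟩ := ih (W ⊓ (a i).eigenspace c)
        (lt_of_le_of_ne inf_le_left fun e => h5 (Module.End.mem_eigenspace_iff.1 (e.ge h4).2))
        ((Submodule.ne_bot_iff _).2 ⟨w, ⟨w.2, Module.End.mem_eigenspace_iff.2
          (congrArg Subtype.val (Module.End.mem_eigenspace_iff.1 h2))⟩,
            fun e => h3 (Subtype.ext e)⟩)
        fun j x hx => ⟨hW j x hx.1, Module.End.mapsTo_genEigenspace_of_comm (hc i j) c 1 hx.2⟩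
      exact ⟨v, h6.1, h7⟩

theorem xdimk_li {ι κ : Type} (a : ι → Module.End L M) (hc : ∀ i j, Commute (a i) (a j))
    (y : κ → M) (χ : κ → ι → L) (hχ : Function.Injective χ) (h : ∀ k i, a i (y k) = χ k i • y k)
    (h0 : ∀ k, y k ≠ 0) : LinearIndependent L y :=
  ((Module.End.independent_iInf_maxGenEigenspace_of_forall_mapsTo a fun i j φ =>
    Module.End.mapsTo_maxGenEigenspace_of_comm (hc j i) φ).comp hχ).linearIndependent _
    (fun k => (Submodule.mem_iInf _).2 fun i => Module.End.eigenspace_le_maxGenEigenspace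
      (Module.End.mem_eigenspace_iff.2 (h k i))) h0

variable {G : Type} [Group G] [Finite G] (σ : Representation L G M) (T : Subgroup G) [hT : T.Normal]
  (hc : ∀ s t : T, Commute (σ s) (σ t))

include hT hc

theorem xdimk_span {v : M} (h0 : v ≠ 0) (hv : ∀ t : T, ∃ c : L, σ t v = c • v)
    (hs : ∀ f g : G, (∀ t ∈ T, σ (f⁻¹ * t * f) v = σ (g⁻¹ * t * g) v) → f⁻¹ * g ∈ T) :
    Module.finrank L (Submodule.span L (Set.range fun f => σ f v)) = T.index := by
  choose χ hχ using hv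
  have hm : ∀ f g x, σ (f * g) x = σ f (σ g x) := fun f g x => by rw [map_mul]; rfl
  have h1 : LinearIndependent L fun q : G ⧸ T => σ q.out v := by
    refine xdimk_li (fun t : T => σ t) hc _
      (fun q t => χ ⟨q.out⁻¹ * t * q.out, hT.conj_mem' _ t.2 _⟩) (fun q q' e => ?_)
      (fun q t => ?_) fun q e => h0 ?_
    · rw [← q.out_eq', ← q'.out_eq']
      refine QuotientGroup.eq.2 (hs _ _ fun t ht => ?_)
      exact (hχ ⟨_, hT.conj_mem' _ ht _⟩).trans ((congrArg (· • v) (congrFun e ⟨t, ht⟩)).trans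
        (hχ ⟨_, hT.conj_mem' _ ht _⟩).symm)
    · rw [← map_smul, ← hχ, ← hm, ← hm, ← mul_assoc, mul_inv_cancel_left]
    · have h2 := congrArg (σ q.out⁻¹) e
      rwa [← hm, inv_mul_cancel, map_one, map_zero] at h2
  have h2 : Submodule.span L (Set.range fun f => σ f v) =
      Submodule.span L (Set.range fun q : G ⧸ T => σ q.out v) := by
    refine le_antisymm (Submodule.span_le.2 ?_) (Submodule.span_mono ?_)
    · rintro _ ⟨f, rfl⟩
      obtain ⟨t, ht⟩ := QuotientGroup.mk_out_eq_mul T f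
      have h3 : σ f v = χ t⁻¹ • σ (f : G ⧸ T).out v := by
        rw [← map_smul, ← hχ, ← hm, ht, Subgroup.coe_inv, mul_inv_cancel_right]
      change σ f v ∈ _
      rw [h3]
      exact Submodule.smul_mem _ _ (Submodule.subset_span ⟨_, rfl⟩)
    · rintro _ ⟨q, rfl⟩
      exact ⟨_, rfl⟩
  have := Fintype.ofFinite (G ⧸ T)
  rw [h2, finrank_span_eq_card h1, Subgroup.index, Nat.card_eq_fintype_card]

theorem xdimk_main [IsAlgClosed L] [Module.Finite L M] (hG : (Nat.card G : L) ≠ 0)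
    (hs : ∀ v : M, v ≠ 0 → ∀ f g : G, (∀ t ∈ T, σ (f⁻¹ * t * f) v = σ (g⁻¹ * t * g) v) →
      f⁻¹ * g ∈ T) (W : Submodule L M) : (∀ f, ∀ w ∈ W, σ f w ∈ W) →
    T.index ∣ Module.finrank L W := by
  induction W using WellFoundedLT.induction with
  | ind W ih =>
    intro hW
    rcases eq_or_ne W ⊥ with rfl | h0
    · simp
    obtain ⟨v, h1, h2, h3⟩ := xdimk_eig (fun t : T => σ t) hc W h0 fun t => hW t
    have h4 := xdimk_span σ T hc h2 h3 (hs v h2)
    have h5 : Submodule.span L (Set.range fun f => σ f v) ≤ W := Submodule.span_le.2 (by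
      rintro _ ⟨f, rfl⟩
      exact hW f v h1)
    have h6 : v ∈ Submodule.span L (Set.range fun f => σ f v) :=
      Submodule.subset_span ⟨1, by simp⟩
    obtain ⟨Y, h7, h8⟩ := exists_compl hG σ (Submodule.span L (Set.range fun f => σ f v))
      fun g w hw => (Submodule.span_le (p := Submodule.comap (σ g)
          (Submodule.span L (Set.range fun f => σ f v)))).2 (by
        rintro _ ⟨f, rfl⟩
        exact Submodule.subset_span ⟨g * f, by simp⟩) hw
    generalize Submodule.span L (Set.range fun f => σ f v) = X at h4 h5 h6 h8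
    have h9 := Submodule.finrank_sup_add_finrank_inf_eq X (Y ⊓ W)
    rw [← sup_inf_assoc_of_le _ h5, h8.sup_eq_top, top_inf_eq, ← inf_assoc, h8.inf_eq_bot,
      bot_inf_eq, finrank_bot, add_zero, h4] at h9
    rw [h9]
    refine dvd_add dvd_rfl (ih _ (lt_of_le_of_ne inf_le_right fun e => h2 ?_)
      fun f w hw => ⟨h7 f w hw.1, hW f w hw.2⟩)
    exact (Submodule.disjoint_def.1 h8.disjoint) v h6 (e.ge h1).1

end

theorem dimK {L : Type} [Field L] [IsAlgClosed L] [CharP L 13] {M : Type} [AddCommGroup M] [Module L M]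
    [Module.Finite L M] {H : Type} [Group H] [Finite H] (h13 : ¬ 13 ∣ Nat.card H)
    (ρ : Representation L H M) (A F : Subgroup H) (hP : PD A F)
    (hA : ∀ a ∈ A, ∀ v, v ≠ 0 → ρ a v = v → a = 1) (W : Submodule L M)
    (hW : ∀ f ∈ F, ∀ w ∈ W, ρ f w ∈ W) (e : ℕ) (he : A.relIndex F = e ^ 2) :
    e ∣ Module.finrank L W := by
  obtain ⟨U, Z, _, _, _, _, _, π, ζ, B, h1, h2, h3, -, h5, h6, h7, -⟩ := pd_pair A F hP
  obtain ⟨S, hS⟩ := exists_lagr B h5
  have hi : (S.comap π).index = e := by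
    have h8 := card_perp B h5 S
    have h9 := S.card_mul_index
    rw [hS, h7, he, sq] at h8
    rw [h7, he, sq, Nat.mul_self_inj.1 h8] at h9
    rw [Subgroup.index_comap_of_surjective _ h1]
    exact Nat.eq_of_mul_eq_mul_left (Nat.mul_self_inj.1 h8 ▸ Nat.card_pos) h9
  rw [← hi]
  refine xdimk_main (ρ.comp F.subtype) (S.comap π) (fun s t => ?_) ?_ (fun v hv f g h => ?_) W
    fun f => hW f f.2
  · have h8 := h6 s t
    rw [(hS.ge t.2 : π t ∈ perp B S) _ s.2, map_one, eq_comm, commutatorElement_eq_one_iff_commute]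
      at h8
    exact h8.map ρ
  · rw [Ne, CharP.cast_eq_zero_iff L 13]
    exact fun h => h13 (h.trans F.card_subgroup_dvd_card)
  · have h8 : π (g * f⁻¹) ∈ perp B S := by
      intro x hx
      obtain ⟨t, rfl⟩ := h1 x
      have h9 : (((g⁻¹ * t * g)⁻¹ * (f⁻¹ * t * f) : F) : H) = 1 := by
        refine hA _ ((h2 _).1 (by simp)) v hv ?_
        change (ρ.comp F.subtype) ((g⁻¹ * t * g)⁻¹ * (f⁻¹ * t * f)) v = v
        rw [map_mul, Module.End.mul_apply, h t hx, ← Module.End.mul_apply, ← map_mul,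
          inv_mul_cancel, map_one, Module.End.one_apply]
      have h10 : g⁻¹ * t * g = f⁻¹ * t * f := inv_mul_eq_one.1 (Subtype.ext h9)
      have h11 : t * (g * f⁻¹) = g * f⁻¹ * t := by
        calc t * (g * f⁻¹) = g * (g⁻¹ * t * g) * f⁻¹ := by group
          _ = g * f⁻¹ * t := by rw [h10]; group
      refine h3 ?_
      rw [h6, map_one, commutatorElement_eq_one_iff_mul_comm]
      exact congrArg Subtype.val h11
    rw [hS, map_mul, mul_comm, ← map_mul] at h8
    exact h8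

end Pool.Agent.N9181

end

section

namespace Pool.Agent.N9181

open scoped commutatorElement

theorem xnuma_odd (m : ℕ) : Odd m →
    m ≤ Nat.totient m ^ 2 ∧ (m ≠ 1 → m ≠ 3 → 2 * m ≤ Nat.totient m ^ 2) := by
  induction m using Nat.recOnPosPrimePosCoprime with
  | prime_pow p n hp hn =>
    intro hodd
    obtain ⟨k, rfl⟩ : ∃ k, n = k + 1 := ⟨n - 1, by omega⟩
    have hp2 : p ≠ 2 := by
      rintro rfl
      have h1 : Even (2 ^ (k + 1)) := by
        rw [pow_succ]
        exact Even.mul_left even_two _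
      exact (Nat.not_even_iff_odd.mpr hodd) h1
    have h2 := hp.two_le
    rw [Nat.totient_prime_pow_succ hp]
    have hX : 1 ≤ p ^ k := Nat.one_le_pow _ _ (by omega)
    obtain ⟨q, rfl⟩ : ∃ q, p = q + 1 := ⟨p - 1, by omega⟩
    rw [Nat.add_sub_cancel, pow_succ]
    have hq4 : q + 1 ≠ 4 := by
      intro h
      rw [h] at hp
      exact absurd hp (by decide)
    by_cases hq : q = 2
    · subst hq
      rcases Nat.eq_zero_or_pos k with rfl | hk
      · simp
      · have h3 : 3 ≤ (2 + 1) ^ k := by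
          calc 3 = (2 + 1) ^ 1 := by norm_num
            _ ≤ (2 + 1) ^ k := Nat.pow_le_pow_right (by norm_num) hk
        generalize (2 + 1) ^ k = X at *
        constructor
        · nlinarith
        · intro _ _
          nlinarith
    · have hq4' : 4 ≤ q := by omega
      generalize (q + 1) ^ k = X at *
      have h5 : 2 * (q + 1) ≤ q * q := by nlinarith
      have h6 : X ≤ X * X := Nat.le_mul_self X
      have h7 : 2 * (X * (q + 1)) ≤ (X * q) ^ 2 := by
        calc 2 * (X * (q + 1)) = X * (2 * (q + 1)) := by ring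
          _ ≤ (X * X) * (q * q) := Nat.mul_le_mul h6 h5
          _ = (X * q) ^ 2 := by ring
      exact ⟨by omega, fun _ _ => h7⟩
  | zero =>
    intro h
    exact absurd h (by decide)
  | one =>
    intro _
    simp
  | coprime a b ha hb hab iha ihb =>
    intro hodd
    obtain ⟨h1, h2⟩ := Nat.odd_mul.mp hodd
    obtain ⟨a1, a2⟩ := iha h1
    obtain ⟨b1, b2⟩ := ihb h2
    rw [Nat.totient_mul hab, mul_pow]
    have key : 2 * (a * b) ≤ Nat.totient a ^ 2 * Nat.totient b ^ 2 := by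
      by_cases h3 : a = 3
      · have hb3 : b ≠ 3 := by
          rintro rfl
          rw [h3] at hab
          exact absurd hab (by decide)
        calc 2 * (a * b) = a * (2 * b) := by ring
          _ ≤ _ := Nat.mul_le_mul a1 (b2 (by omega) hb3)
      · calc 2 * (a * b) = (2 * a) * b := by ring
          _ ≤ _ := Nat.mul_le_mul (a2 (by omega) h3) b1
    exact ⟨by omega, fun _ _ => key⟩

theorem le_totient_sq (r : ℕ) (h2 : r ≠ 2) (h6 : r ≠ 6) : r ≤ Nat.totient r ^ 2 := by
  rcases Nat.eq_zero_or_pos r with rfl | hr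
  · simp
  obtain ⟨k, m, hm, rfl⟩ := Nat.exists_eq_two_pow_mul_odd hr.ne'
  obtain ⟨a1, a2⟩ := xnuma_odd m hm
  have hc : Nat.Coprime (2 ^ k) m :=
    Nat.Coprime.pow_left k ((Nat.coprime_two_left).mpr hm)
  rw [Nat.totient_mul hc, mul_pow]
  rcases k with _ | k
  · simpa using a1
  rw [Nat.totient_prime_pow_succ Nat.prime_two]
  rcases k with _ | k
  · have h1 : m ≠ 1 := by
      rintro rfl
      exact h2 (by norm_num)
    have h3 : m ≠ 3 := by
      rintro rfl
      exact h6 (by norm_num)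
    simpa using a2 h1 h3
  · refine Nat.mul_le_mul ?_ a1
    have hX : 1 ≤ 2 ^ k := Nat.one_le_two_pow
    rw [pow_succ, pow_succ, pow_succ]
    generalize 2 ^ k = X at *
    nlinarith

theorem ch_le (u l : ℕ) (h : u ≤ 2 ^ l) : ch 2 u ≤ 2 ^ (l * (l + 1) / 2) := by
  induction l generalizing u with
  | zero =>
    rw [ch_eq 2 le_rfl, if_pos (by simpa using h)]
    exact Nat.one_le_two_pow
  | succ l ih =>
    rw [ch_eq 2 le_rfl]
    split_ifs with hu
    · exact Nat.one_le_two_pow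
    · have h1 : u / 2 ≤ 2 ^ l := by
        rw [pow_succ] at h
        omega
      have h2 : (l + 1) * (l + 1 + 1) / 2 = (l + 1) + l * (l + 1) / 2 := by
        have : (l + 1) * (l + 1 + 1) = l * (l + 1) + 2 * (l + 1) := by ring
        rw [this]
        omega
      rw [h2, pow_add]
      exact Nat.mul_le_mul h (ih _ h1)

theorem xnuma_four (m : ℕ) (hm : 3 ≤ m) : 32 * m ^ 4 ≤ 3 * 13 ^ m := by
  induction m, hm using Nat.le_induction with
  | base => norm_num
  | succ m hm ih =>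
    have h1 : m + 1 ≤ 2 * m := by omega
    have h2 : 3 * (m + 1) ≤ 4 * m := by omega
    have h3 : (3 * (m + 1)) ^ 4 ≤ (4 * m) ^ 4 := Nat.pow_le_pow_left h2 4
    rw [mul_pow, mul_pow] at h3
    rw [pow_succ 13]
    generalize (m + 1) ^ 4 = A at *
    generalize m ^ 4 = B at *
    generalize 13 ^ m = C at *
    omega

theorem num5 (n u N : ℕ) (hn : 0 < n) (hu : u ≤ n ^ 2) (hN : 3 * N ≤ 2 * (u * (u - 1))) :
    N * (13 ^ (n / 2) - 1) < 13 ^ n - 1 := by
  have h0 : u * (u - 1) ≤ n ^ 2 * (n ^ 2 - 1) := Nat.mul_le_mul hu (by omega)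
  by_cases h5 : n ≤ 4
  · interval_cases n <;> norm_num at h0 ⊢ <;> omega
  · have hm : 3 ≤ n - n / 2 := by omega
    have h1 := xnuma_four _ hm
    have h2 : n ≤ 2 * (n - n / 2) := by omega
    have h3 : n ^ 4 ≤ (2 * (n - n / 2)) ^ 4 := Nat.pow_le_pow_left h2 4
    have h4 : n ^ 2 * (n ^ 2 - 1) ≤ n ^ 4 := by
      calc n ^ 2 * (n ^ 2 - 1) ≤ n ^ 2 * n ^ 2 := Nat.mul_le_mul_left _ (by omega)
        _ = n ^ 4 := by ring
    rw [mul_pow] at h3
    have h6 : N ≤ 13 ^ (n - n / 2) := by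
      generalize (n - n / 2) ^ 4 = A at *
      generalize 13 ^ (n - n / 2) = C at *
      omega
    have h7 : 13 ^ n = 13 ^ (n - n / 2) * 13 ^ (n / 2) := by
      rw [← pow_add]
      congr 1
      omega
    have h8 : 13 ^ 1 ≤ 13 ^ (n - n / 2) := Nat.pow_le_pow_right (by norm_num) (by omega)
    have h9 : 1 ≤ 13 ^ (n / 2) := Nat.one_le_pow _ _ (by norm_num)
    rw [h7]
    generalize 13 ^ (n - n / 2) = B at *
    generalize 13 ^ (n / 2) = A at *
    obtain ⟨A, rfl⟩ : ∃ A', A = A' + 1 := ⟨A - 1, by omega⟩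
    rw [Nat.add_sub_cancel]
    have h10 : N * A ≤ B * A := Nat.mul_le_mul_right _ h6
    have h11 : B * (A + 1) = B * A + B := by ring
    omega

theorem num6 (k r : ℕ) (hk : 2 ≤ k) (h6 : 6 ∣ r) :
    (Nat.totient r ≤ 4 * k → r * Nat.totient r ≤ 3 * 13 ^ k) ∧
      (¬ 4 ∣ r → Nat.totient r ≤ 2 * k → 32 * (r * Nat.totient r) ≤ 3 * 13 ^ k) := by
  have hk2 : 13 ^ 2 ≤ 13 ^ k := Nat.pow_le_pow_right (by norm_num) hk
  by_cases hr : r = 6
  · subst hr
    have h1 : Nat.totient 6 = 2 := by decide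
    rw [h1]
    constructor
    · intro _
      omega
    · intro _ _
      omega
  have h1 := le_totient_sq r (by omega) hr
  generalize Nat.totient r = f at *
  constructor
  · intro h
    by_cases h2 : k = 2
    · subst h2
      have h3 : f ^ 2 ≤ 8 ^ 2 := Nat.pow_le_pow_left h 2
      have h4 : r ≤ 60 := by omega
      have h5 : r * f ≤ 60 * 8 := Nat.mul_le_mul h4 h
      omega
    · have h3 := xnuma_four k (by omega)
      have h4 : f ^ 2 ≤ (4 * k) ^ 2 := Nat.pow_le_pow_left h 2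
      have h5 : r * f ≤ (4 * k) ^ 2 * (4 * k) := Nat.mul_le_mul (h1.trans h4) h
      have h7 : k ^ 3 * 2 ≤ k ^ 3 * k := Nat.mul_le_mul_left _ hk
      have h8 : (4 * k) ^ 2 * (4 * k) = 32 * (k ^ 3 * 2) := by ring
      have h9 : k ^ 4 = k ^ 3 * k := by ring
      omega
  · intro h4 h
    have h5 : f ^ 2 ≤ (2 * k) ^ 2 := Nat.pow_le_pow_left h 2
    by_cases h2 : k = 2
    · subst h2
      omega
    by_cases h3 : k = 3
    · subst h3
      have h7 : r ≤ 30 := by omega
      have h8 : r * f ≤ 30 * 6 := Nat.mul_le_mul h7 h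
      omega
    have h7 : r * f ≤ (2 * k) ^ 2 * (2 * k) := Nat.mul_le_mul (h1.trans h5) h
    obtain ⟨j, rfl⟩ : ∃ j, k = j + 1 := ⟨k - 1, by omega⟩
    have h8 := xnuma_four j (by omega)
    have h9 : 3 * (j + 1) ≤ 4 * j := by omega
    have h10 : (3 * (j + 1)) ^ 3 ≤ (4 * j) ^ 3 := Nat.pow_le_pow_left h9 3
    have h11 : j ^ 3 * 3 ≤ j ^ 3 * j := Nat.mul_le_mul_left _ (by omega)
    have h12 : j ^ 4 = j ^ 3 * j := by ring
    have h13 : (2 * (j + 1)) ^ 2 * (2 * (j + 1)) = 8 * (j + 1) ^ 3 := by ring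
    rw [mul_pow, mul_pow] at h10
    rw [pow_succ 13]
    rw [h13] at h7
    rw [h12] at h8
    generalize (j + 1) ^ 3 = A at *
    generalize j ^ 3 * j = D at *
    generalize j ^ 3 = B at *
    generalize 13 ^ j = C at *
    omega

theorem num7 (r : ℕ) (h3 : ¬ 3 ∣ r) (hr : Nat.totient (3 * r) ≤ 4) : r = 1 ∨ r = 2 ∨ r = 4 := by
  by_cases h2 : r = 2
  · exact Or.inr (Or.inl h2)
  have h1 := le_totient_sq (3 * r) (by omega) (by omega)
  have h4 : Nat.totient (3 * r) ^ 2 ≤ 4 ^ 2 := Nat.pow_le_pow_left hr 2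
  have h5 : r ≠ 5 := by
    rintro rfl
    exact absurd hr (by decide)
  omega

theorem num8 (r : ℕ) (hr : 0 < r) (h3 : 3 ∣ r) (h6 : Nat.totient r < 6) :
    ¬ 9 ∣ r ∧ ¬ 3 ∣ Nat.totient r := by
  have hp : 0 < Nat.totient r := Nat.totient_pos.mpr hr
  have h2 : Nat.totient 3 ∣ Nat.totient r := Nat.totient_dvd_of_dvd h3
  have e3 : Nat.totient 3 = 2 := by decide
  rw [e3] at h2
  constructor
  · intro h9
    have h1 : Nat.totient 9 ∣ Nat.totient r := Nat.totient_dvd_of_dvd h9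
    have e9 : Nat.totient 9 = 6 := by decide
    rw [e9] at h1
    omega
  · omega

end Pool.Agent.N9181

end

section

namespace Pool.Agent.N9181

open scoped commutatorElement

theorem xcomp_fib {V : Type} [AddCommGroup V] [Module K V] {I : Type} [DecidableEq I]
    (W : I → Submodule K V) (hW : iSupIndep W) {J : Type} (T : Finset J) (φ : J → I) (x : J → V)
    (hx : ∀ j ∈ T, x j ∈ W (φ j)) (h0 : ∑ j ∈ T, x j = 0) (i : I) :
    ∑ j ∈ T.filter (fun j => φ j = i), x j = 0 := by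
  by_cases hi : i ∈ T.image φ
  · have h := (iSupIndep_iff_finsetSum_eq_zero_imp_eq_zero W).1 hW (T.image φ)
      (fun k => ∑ j ∈ T.filter (fun j => φ j = k), x j) ?_ ?_ i hi
    · exact h
    · intro k _
      refine Submodule.sum_mem _ fun j hj => ?_
      obtain ⟨h1, h2⟩ := Finset.mem_filter.1 hj
      rw [← h2]; exact hx j h1
    · rw [Finset.sum_fiberwise_of_maps_to (fun j hj => Finset.mem_image_of_mem φ hj)]
      exact h0
  · refine Finset.sum_eq_zero fun j hj => ?_
    obtain ⟨h1, h2⟩ := Finset.mem_filter.1 hj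
    exact absurd (h2 ▸ Finset.mem_image_of_mem φ h1) hi

theorem xcomp_inv {V : Type} [AddCommGroup V] [Module K V]
    {H : Type} [Group H] (ρ : Representation K H V) (h : H) (v : V) : ρ h⁻¹ (ρ h v) = v := by
  rw [← Module.End.mul_apply, ← map_mul, inv_mul_cancel, map_one, Module.End.one_apply]

theorem xcomp_ne {V : Type} [AddCommGroup V] [Module K V]
    {H : Type} [Group H] (ρ : Representation K H V) (h : H) (v : V) (hv : v ≠ 0) :
    ρ h v ≠ 0 := by
  intro h0
  apply hv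
  rw [← xcomp_inv ρ h v, h0, map_zero]

theorem xcomp_93 : (9 : K) * 3 = 1 := by decide

theorem xcomp_9pow (n : ℕ) : (9 : K) ^ (3 ^ (n + 1)) = 1 := by
  rw [pow_succ, mul_comm, pow_mul]
  have : (9 : K) ^ 3 = 1 := by decide
  rw [this, one_pow]

theorem xcomp_zinv {V : Type} [AddCommGroup V] [Module K V]
    {H : Type} [Group H] (ρ : Representation K H V) (U : Submodule K V) (z : H)
    (hz : ∀ w ∈ U, ρ z w = (3 : K) • w) (s : ℕ) :
    ∀ w ∈ U, ρ (z⁻¹ ^ s) w = (9 : K) ^ s • w := by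
  have h1 : ∀ w ∈ U, ρ z⁻¹ w = (9 : K) • w := by
    intro w hw
    have h2 := xcomp_inv ρ z ((9 : K) • w)
    rw [hz _ (U.smul_mem _ hw), smul_smul, mul_comm, xcomp_93, one_smul] at h2
    exact h2
  induction s with
  | zero => intro w _; simp
  | succ s ih =>
    intro w hw
    rw [pow_succ, map_mul, Module.End.mul_apply, h1 w hw, map_smul, ih w hw, smul_smul,
      pow_succ, mul_comm]

theorem xcomp_pow {V : Type} [AddCommGroup V] [Module K V]
    (U : Submodule K V) (f g : Module.End K V) (c : K) (hg : ∀ w ∈ U, g w ∈ U)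
    (h : ∀ w ∈ U, f w = c • g w) (n : ℕ) : ∀ w ∈ U, (f ^ n) w = c ^ n • (g ^ n) w := by
  induction n with
  | zero => intro w _; simp
  | succ n ih =>
    intro w hw
    rw [pow_succ, Module.End.mul_apply, h w hw, map_smul, ih _ (hg w hw), smul_smul, pow_succ g,
      Module.End.mul_apply, pow_succ c, mul_comm]

theorem xcomp_twist {V : Type} [AddCommGroup V] [Module K V]
    {H : Type} [Group H] (ρ : Representation K H V) (U : Submodule K V) (t z : H) (a s : ℕ)
    (ht : t ^ (3 ^ a) = 1) (hU : ∀ w ∈ U, ρ t w ∈ U)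
    (hz : ∀ w ∈ U, ρ z w = (3 : K) • w) :
    (∀ w ∈ U, ρ (t * z⁻¹ ^ s) w = (9 : K) ^ s • ρ t w) ∧
      ∀ w ∈ U, (ρ (t * z⁻¹ ^ s) ^ (3 ^ (a + 1))) w = w := by
  have h1 : ∀ w ∈ U, ρ (t * z⁻¹ ^ s) w = (9 : K) ^ s • ρ t w := by
    intro w hw
    rw [map_mul, Module.End.mul_apply, xcomp_zinv ρ U z hz s w hw, map_smul]
  refine ⟨h1, fun w hw => ?_⟩
  rw [xcomp_pow U _ (ρ t) _ hU h1 _ w hw, ← pow_mul, mul_comm s, pow_mul, xcomp_9pow, one_pow,
    one_smul, ← map_pow, pow_succ, pow_mul, ht, one_pow, map_one, Module.End.one_apply]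

theorem xcomp_back {V : Type} [AddCommGroup V] [Module K V] (s : ℕ) (x w : V)
    (h : (9 : K) ^ s • x = w) : x = (3 : K) ^ s • w := by
  rw [← h, smul_smul, ← mul_pow, mul_comm, xcomp_93, one_pow, one_smul]

theorem comp_eq {V : Type} [AddCommGroup V] [Module K V] [Module.Finite K V]
    {H : Type} [Group H] (ρ : Representation K H V) {I : Type} [MulAction H I]
    (W : I → Submodule K V) (hB : BD ρ I W) (S : Finset I) (r : I → V)
    (hr : ∀ i ∈ S, r i ∈ W i ∧ r i ≠ 0) (t : H) (ν : K)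
    (h : ρ t (∑ i ∈ S, r i) = ν • ∑ i ∈ S, r i) :
    ∀ i ∈ S, t • i ∈ S ∧ ρ t (r i) = ν • r (t • i) := by
  classical
  intro i hi
  have key := xcomp_fib W hB.ind (S.disjSum S) (Sum.elim (fun j => t • j) id)
    (Sum.elim (fun j => ρ t (r j)) (fun j => -(ν • r j))) ?_ ?_ (t • i)
  · rw [Finset.sum_filter, Finset.sum_disjSum] at key
    simp only [Sum.elim_inl, Sum.elim_inr, id, smul_left_cancel_iff] at key
    rw [Finset.sum_ite_eq' S i, Finset.sum_ite_eq' S (t • i), if_pos hi] at key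
    by_cases hm : t • i ∈ S
    · rw [if_pos hm] at key
      exact ⟨hm, add_neg_eq_zero.1 key⟩
    · rw [if_neg hm, add_zero] at key
      exact absurd key (xcomp_ne ρ t _ (hr i hi).2)
  · rintro (j | j) hj
    · exact hB.map t j _ (hr j (by simpa using hj)).1
    · exact Submodule.neg_mem _ (Submodule.smul_mem _ _ (hr j (by simpa using hj)).1)
  · rw [Finset.sum_disjSum]
    simp only [Sum.elim_inl, Sum.elim_inr]
    rw [← map_sum, Finset.sum_neg_distrib, ← Finset.smul_sum, h, add_neg_cancel]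

theorem sum_not_mem {V : Type} [AddCommGroup V] [Module K V] [Module.Finite K V]
    {H : Type} [Group H] (ρ : Representation K H V) {I : Type} [MulAction H I]
    (W : I → Submodule K V) (hB : BD ρ I W) (S : Finset I) (r : I → V)
    (hr : ∀ i ∈ S, r i ∈ W i ∧ r i ≠ 0) (p : I → Prop) (i : I) (hi : i ∈ S) (hp : ¬ p i) :
    (∑ i ∈ S, r i) ∉ (⨆ (j : I) (_ : p j), W j) := by
  classical
  intro hm
  have h1 : (⨆ (j : I) (_ : p j), W j) ≤ ⨆ (j : I) (_ : j ≠ i), W j := by
    refine iSup₂_le fun j hj => ?_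
    exact le_iSup₂_of_le j (fun e => hp (e ▸ hj)) le_rfl
  have h2 : (∑ j ∈ S.erase i, r j) ∈ ⨆ (j : I) (_ : j ≠ i), W j := by
    refine Submodule.sum_mem _ fun j hj => ?_
    obtain ⟨hj1, hj2⟩ := Finset.mem_erase.1 hj
    exact (le_iSup₂_of_le (f := fun (j : I) (_ : j ≠ i) => W j) j hj1 le_rfl) (hr j hj2).1
  have h3 : r i ∈ ⨆ (j : I) (_ : j ≠ i), W j := by
    have h4 := Submodule.sub_mem _ (h1 hm) h2
    rwa [← Finset.add_sum_erase S r hi, add_sub_cancel_right] at h4
  exact (hr i hi).2 ((Submodule.disjoint_def.1 (hB.ind i)) _ (hr i hi).1 h3)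

theorem dim_eq {V : Type} [AddCommGroup V] [Module K V] [Module.Finite K V]
    {H : Type} [Group H] (ρ : Representation K H V) {I : Type} [MulAction H I]
    (W : I → Submodule K V) (hB : BD ρ I W) (h t : H) (i : I) (c : K) :
    Module.finrank K (W (h • i)) = Module.finrank K (W i) ∧
      edOn (W (h • i)) (ρ (h * t * h⁻¹)) c = edOn (W i) (ρ t) c := by
  have hinj : Function.Injective (ρ h) := fun x y e => by
    rw [← xcomp_inv ρ h x, e, xcomp_inv]
  have hinv : ∀ v, ρ h (ρ h⁻¹ v) = v := fun v => by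
    have := xcomp_inv ρ h⁻¹ v
    rwa [inv_inv] at this
  have hback : ∀ v ∈ W (h • i), ρ h⁻¹ v ∈ W i := fun v hv => by
    have := hB.map h⁻¹ _ v hv
    rwa [inv_smul_smul] at this
  have h1 : W (h • i) = (W i).map (ρ h) := by
    apply le_antisymm
    · intro v hv
      exact ⟨ρ h⁻¹ v, hback v hv, hinv v⟩
    · rintro _ ⟨w, hw, rfl⟩
      exact hB.map h i w hw
  have h2 : (W (h • i) ⊓ Module.End.eigenspace (ρ (h * t * h⁻¹)) c : Submodule K V) =
      (W i ⊓ Module.End.eigenspace (ρ t) c : Submodule K V).map (ρ h) := by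
    apply le_antisymm
    · rintro v ⟨hv, he⟩
      refine ⟨ρ h⁻¹ v, ⟨hback v hv, ?_⟩, hinv v⟩
      have he' := Module.End.mem_eigenspace_iff.1 he
      refine Module.End.mem_eigenspace_iff.2 (hinj ?_)
      rw [map_smul, hinv, ← he', map_mul, map_mul, Module.End.mul_apply, Module.End.mul_apply]
    · rintro _ ⟨w, ⟨hw, he⟩, rfl⟩
      refine ⟨hB.map h i w hw, Module.End.mem_eigenspace_iff.2 ?_⟩
      have he' := Module.End.mem_eigenspace_iff.1 he
      rw [map_mul, map_mul, Module.End.mul_apply, Module.End.mul_apply, xcomp_inv, he', map_smul]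
  refine ⟨?_, ?_⟩
  · rw [h1]
    exact (LinearEquiv.finrank_eq (Submodule.equivMapOfInjective _ hinj _)).symm
  · unfold edOn
    rw [h2]
    exact (LinearEquiv.finrank_eq (Submodule.equivMapOfInjective _ hinj _)).symm

theorem card_fix {H : Type} [Group H] {I : Type} [Fintype I] [DecidableEq I]
    [MulAction H I] (t : H) (a : ℕ) (ht : t ^ (3 ^ a) = 1) :
    (Finset.univ.filter (fun i : I => t • i = i)).card ≡ Fintype.card I [MOD 3] := by
  have : Fact (Nat.Prime 3) := ⟨by norm_num⟩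
  have hf : (MulAction.toEndHom (M := H) (α := I) t) ^ (3 ^ a) = 1 := by
    rw [← map_pow, ht, map_one]
  have h := Equiv.Perm.card_fixedPoints_modEq hf
  refine Nat.ModEq.symm (h.trans ?_)
  rw [Fintype.card_of_subtype (Finset.univ.filter (fun i : I => t • i = i))]
  intro x
  simp only [Finset.mem_filter, Finset.mem_univ, true_and]
  rfl

theorem ext_blocks {V : Type} [AddCommGroup V] [Module K V] [Module.Finite K V]
    {H : Type} [Group H] (ρ : Representation K H V) {I : Type} [MulAction H I]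
    (W : I → Submodule K V) (hB : BD ρ I W) (f g : Module.End K V)
    (h : ∀ i, ∀ w ∈ W i, f w = g w) : f = g := by
  have h1 : (⊤ : Submodule K V) ≤ LinearMap.eqLocus f g := by
    rw [← hB.top]
    exact iSup_le fun i w hw => h i w hw
  ext v
  exact h1 Submodule.mem_top

theorem rank_lt {V : Type} [AddCommGroup V] [Module K V] [Module.Finite K V]
    {H : Type} [Group H] (ρ : Representation K H V) {I : Type} [Fintype I] [MulAction H I]
    (W : I → Submodule K V) (hB : BD ρ I W) (hI : 1 < Fintype.card I) (i : I) :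
    Module.finrank K (W i) < Module.finrank K V := by
  refine Submodule.finrank_lt fun h => ?_
  obtain ⟨j, hj⟩ := Fintype.exists_ne_of_one_lt_card hI i
  have h1 : Disjoint (W i) (W j) := hB.ind.pairwiseDisjoint (Ne.symm hj)
  rw [h, top_disjoint] at h1
  exact hB.ne j h1

theorem block_scal {V : Type} [AddCommGroup V] [Module K V] [Module.Finite K V]
    {H : Type} [Group H] (ρ : Representation K H V) {I : Type} [MulAction H I]
    (W : I → Submodule K V) (hB : BD ρ I W) (hS : BScal ρ W) (r : I → V) (hr : BReg ρ W r)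
    (t : H) (a : ℕ) (ht : t ^ (3 ^ a) = 1) (i : I) (hi : t • i = i) (s : ℕ)
    (h : ρ t (r i) = (3 : K) ^ s • r i) : ∀ w ∈ W i, ρ t w = (3 : K) ^ s • w := by
  obtain ⟨z, hz1, hz2⟩ := hS i
  have hU : ∀ w ∈ W i, ρ t w ∈ W i := fun w hw => by
    have := hB.map t i w hw
    rwa [hi] at this
  obtain ⟨h1, h2⟩ := xcomp_twist ρ (W i) t z a s ht hU hz2
  have hfix : (t * z⁻¹ ^ s) • i = i := by
    have : z⁻¹ ^ s ∈ MulAction.stabilizer H i :=
      Subgroup.pow_mem _ (Subgroup.inv_mem _ (show z ∈ MulAction.stabilizer H i from hz1)) _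
    rw [mul_smul, MulAction.mem_stabilizer_iff.1 this, hi]
  have h3 := (hr i).2.2 _ (a + 1) hfix h2 (by
    rw [h1 _ (hr i).1, h, smul_smul, ← mul_pow, xcomp_93, one_pow, one_smul])
  intro w hw
  exact xcomp_back s _ _ ((h1 w hw).symm.trans (h3 w hw))

theorem step0 {V : Type} [AddCommGroup V] [Module K V] [Module.Finite K V]
    {H : Type} [Group H] [Finite H] (ρ : Representation K H V) {I : Type} [Fintype I] [MulAction H I]
    (W : I → Submodule K V) (hB : BD ρ I W) (hF : HFP ρ) (hE : HEP ρ 3) (hS : BScal ρ W) :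
    Scal ρ := by
  classical
  have hex : ∀ i, ∃ x, x ∈ W i ∧ x ≠ 0 := fun i => (Submodule.ne_bot_iff _).1 (hB.ne i)
  choose r hr using hex
  obtain ⟨t, a, ht, hv⟩ := ep3 ρ hE (∑ i, r i)
  have hc := comp_eq ρ W hB Finset.univ r (fun i _ => hr i) t 3 hv
  have hk : ∀ (i : I) (k : ℕ), ρ (t ^ k) (r i) = (3 : K) ^ k • r (t ^ k • i) := by
    intro i k
    induction k with
    | zero => simp
    | succ k ih =>
      have e1 : t ^ (k + 1) • i = t • (t ^ k • i) := by rw [pow_succ', mul_smul]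
      rw [e1, pow_succ' t, map_mul, Module.End.mul_apply, ih, map_smul,
        (hc (t ^ k • i) (Finset.mem_univ _)).2, smul_smul (M := K), ← pow_succ]
  have hfix : ∀ i : I, t • i = i := by
    intro i
    by_contra hne
    have hdvd : MulAction.period t i ∣ 3 ^ a :=
      MulAction.pow_smul_eq_iff_period_dvd.1 (by rw [ht, one_smul])
    have hpos : 0 < MulAction.period t i := Nat.pos_of_dvd_of_pos hdvd (by positivity)
    have h3 : 3 ∣ MulAction.period t i := by
      obtain ⟨b, _, hb⟩ := (Nat.dvd_prime_pow (by norm_num : Nat.Prime 3)).1 hdvd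
      rcases b with _ | b
      · exact absurd (MulAction.period_eq_one_iff.1 (by simpa using hb)) hne
      · rw [hb]; exact dvd_pow_self 3 (Nat.succ_ne_zero b)
    have hn : ρ (t ^ MulAction.period t i) (r i) = r i := by
      rw [hk, MulAction.pow_period_smul]
      obtain ⟨c, hc'⟩ := h3
      have : (3 : K) ^ 3 = 1 := by decide
      rw [hc', pow_mul, this, one_pow, one_smul]
    have hu : ρ t (∑ k ∈ Finset.range (MulAction.period t i), ρ (t ^ k) (r i)) =
        ∑ k ∈ Finset.range (MulAction.period t i), ρ (t ^ k) (r i) := by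
      have e1 := Finset.sum_range_succ (fun k => ρ (t ^ k) (r i)) (MulAction.period t i)
      have e2 := Finset.sum_range_succ' (fun k => ρ (t ^ k) (r i)) (MulAction.period t i)
      rw [e1, hn, pow_zero, map_one, Module.End.one_apply] at e2
      rw [map_sum, add_right_cancel e2]
      refine Finset.sum_congr rfl fun k _ => ?_
      rw [pow_succ', map_mul, Module.End.mul_apply]
    have hu0 : (∑ k ∈ Finset.range (MulAction.period t i), ρ (t ^ k) (r i)) ≠ 0 := by
      intro h0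
      have key := xcomp_fib W hB.ind _ (fun k => t ^ k • i) (fun k => ρ (t ^ k) (r i))
        (fun k _ => hB.map _ _ _ (hr i).1) h0 i
      have hf : (Finset.range (MulAction.period t i)).filter (fun k => t ^ k • i = i) = {0} := by
        ext k
        simp only [Finset.mem_filter, Finset.mem_range, Finset.mem_singleton]
        constructor
        · rintro ⟨k1, k2⟩
          exact Nat.eq_zero_of_dvd_of_lt (MulAction.pow_smul_eq_iff_period_dvd.1 k2) k1
        · rintro rfl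
          exact ⟨hpos, by simp⟩
      rw [hf, Finset.sum_singleton, pow_zero, map_one, Module.End.one_apply] at key
      exact (hr i).2 key
    have h1 : ρ t = 1 := hF t a _ ht hu0 hu
    have h2 := (hc i (Finset.mem_univ _)).2
    rw [h1, Module.End.one_apply] at h2
    have h4 : r i ∈ W (t • i) := by
      rw [h2]; exact Submodule.smul_mem _ _ (hr _).1
    have h5 : Disjoint (W i) (W (t • i)) := hB.ind.pairwiseDisjoint (Ne.symm hne)
    exact (hr i).2 (Submodule.disjoint_def.1 h5 _ (hr i).1 h4)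
  refine ⟨t, fun v => ?_⟩
  have hall : ∀ i, ∀ w ∈ W i, ρ t w = ((3 : K) • (1 : Module.End K V)) w := by
    intro i w hw
    obtain ⟨z, hz1, hz2⟩ := hS i
    have hst : ∀ h ∈ MulAction.stabilizer H i, ∀ w ∈ W i, ρ h w ∈ W i := fun h hh w hw => by
      have := hB.map h i w hw
      rwa [MulAction.mem_stabilizer_iff.1 hh] at this
    obtain ⟨σ, hσ⟩ := exists_res ρ (MulAction.stabilizer H i) (W i) hst
    obtain ⟨h1, h2⟩ := xcomp_twist ρ (W i) t z a 1 ht (hst t (hfix i)) hz2
    have hm : t * z⁻¹ ^ 1 ∈ MulAction.stabilizer H i :=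
      Subgroup.mul_mem _ (hfix i)
        (Subgroup.pow_mem _ (Subgroup.inv_mem _ (show z ∈ MulAction.stabilizer H i from hz1)) _)
    obtain ⟨e, a', he1, -, he2⟩ := p_part 3 (by norm_num) (⟨_, hm⟩ : MulAction.stabilizer H i)
    have hs1 : (σ ⟨_, hm⟩) ^ (3 ^ (a + 1)) = 1 := by
      ext x
      rw [← map_pow, hσ, Module.End.one_apply]
      have := h2 x x.2
      rw [← map_pow] at this
      exact this
    have hs2 := he2 _ σ (a + 1) hs1
    have hr1 : ρ (t * z⁻¹ ^ 1) (r i) = r i := by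
      rw [h1 _ (hr i).1, (hc i (Finset.mem_univ _)).2, hfix, smul_smul, pow_one, xcomp_93,
        one_smul]
    have hr2 : ∀ n : ℕ, ρ ((t * z⁻¹ ^ 1) ^ n) (r i) = r i := by
      intro n
      induction n with
      | zero => simp
      | succ n ih => rw [pow_succ, map_mul, Module.End.mul_apply, hr1, ih]
    have hg : ρ ((t * z⁻¹ ^ 1) ^ e) = 1 :=
      hF _ a' (r i) (by simpa using congrArg Subtype.val he1) (hr i).2 (hr2 e)
    have h6 : ρ (t * z⁻¹ ^ 1) w = w := by
      have e1 := hσ ⟨_, hm⟩ ⟨w, hw⟩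
      have e2 := hσ (⟨_, hm⟩ ^ e) ⟨w, hw⟩
      rw [hs2, e1] at e2
      rw [Subgroup.coe_pow, hg] at e2
      exact e2
    have h7 := xcomp_back 1 _ _ ((h1 w hw).symm.trans h6)
    simpa using h7
  have := ext_blocks ρ W hB _ _ hall
  rw [this]
  simp

end Pool.Agent.N9181

end

section

namespace Pool.Agent.N9181

open scoped commutatorElement

theorem exists_min {G : Type} [Group G] [Finite G] [Group.IsSolvable G] (D : Subgroup G) (hD : D.Normal)
    (hne : D ≠ ⊥) :
    ∃ (B : Subgroup G) (p : ℕ), B.Normal ∧ B ≤ D ∧ B ≠ ⊥ ∧ p.Prime ∧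
      (∀ a ∈ B, ∀ b ∈ B, a * b = b * a) ∧ (∀ a ∈ B, a ^ p = 1) ∧
      ∀ B' : Subgroup G, B'.Normal → B' ≤ B → B' = ⊥ ∨ B' = B := by
  obtain ⟨B, hB⟩ := exists_minimal_of_wellFoundedLT
    (fun B : Subgroup G => B.Normal ∧ B ≤ D ∧ B ≠ ⊥) ⟨D, hD, le_rfl, hne⟩
  obtain ⟨hn, hle, h0⟩ := hB.prop
  have hmin : ∀ B' : Subgroup G, B'.Normal → B' ≤ B → B' = ⊥ ∨ B' = B := fun B' h1 h2 =>
    or_iff_not_imp_left.2 fun h3 => le_antisymm h2 (hB.le_of_le ⟨h1, h2.trans hle, h3⟩ h2)
  have hlt := Group.IsSolvable.commutator_lt_of_ne_bot h0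
  have hc : ∀ a ∈ B, ∀ b ∈ B, a * b = b * a := fun a ha b hb =>
    Subgroup.commutator_eq_bot_iff_le_centralizer.1
      ((hmin _ inferInstance hlt.le).resolve_right hlt.ne) hb a ha
  obtain ⟨p, hp, hd⟩ := Nat.exists_prime_and_dvd (mt Subgroup.card_eq_one.1 h0)
  have := Fact.mk hp
  obtain ⟨x, hx⟩ := exists_prime_orderOf_dvd_card' p hd
  let B' : Subgroup G :=
    { carrier := {a | a ∈ B ∧ a ^ p = 1}
      one_mem' := ⟨B.one_mem, one_pow _⟩
      mul_mem' := fun {a b} ha hb => ⟨B.mul_mem ha.1 hb.1, by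
        rw [Commute.mul_pow (hc a ha.1 b hb.1), ha.2, hb.2, one_mul]⟩
      inv_mem' := fun {a} ha => ⟨B.inv_mem ha.1, by rw [inv_pow, ha.2, inv_one]⟩ }
  have h1 : B'.Normal := ⟨fun a ha g => ⟨hn.conj_mem a ha.1 g, by
    rw [conj_pow, ha.2, mul_one, mul_inv_cancel]⟩⟩
  have h2 : B' ≠ ⊥ := fun e => by
    have h3 : (x : G) ∈ B' := ⟨x.2, by rw [← hx, ← Subgroup.coe_pow, pow_orderOf_eq_one]; rfl⟩
    rw [e, Subgroup.mem_bot, OneMemClass.coe_eq_one] at h3
    rw [h3, orderOf_one] at hx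
    exact hp.one_lt.ne hx
  have h3 : B' = B := (hmin B' h1 fun _ ha => ha.1).resolve_left h2
  exact ⟨B, p, hn, hle, h0, hp, hc, fun a ha => (h3.ge ha).2, hmin⟩

theorem xstruct_comm {H : Type} [Group H] (A : Subgroup H) [A.Normal] (x y : H) :
    ⁅x, y⁆ ∈ A ↔ Commute (QuotientGroup.mk' A x) (QuotientGroup.mk' A y) := by
  rw [← commutatorElement_eq_one_iff_commute, ← map_commutatorElement, ← MonoidHom.mem_ker,
    QuotientGroup.ker_mk']

/-- the centraliser of the maximal subgroup `F` lies in `A` -/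
theorem xstruct_cent {H : Type} [Group H] [Finite H] [Group.IsSolvable H] {A F : Subgroup H}
    [A.Normal] [hn : F.Normal] (hP : PD A F)
    (hm : ∀ F' : Subgroup H, F'.Normal → F ≤ F' → F' ≤ Subgroup.centralizer (A : Set H) →
      (∀ x ∈ F', ∀ y ∈ F', ⁅x, y⁆ ∈ A) → F' ≤ F) :
    Subgroup.centralizer (F : Set H) ≤ A := by
  by_contra hne
  have hs := QuotientGroup.mk'_surjective A
  obtain ⟨B, -, hB, hle, h0, -, hc, -, -⟩ := exists_min
    ((Subgroup.centralizer (F : Set H)).map (QuotientGroup.mk' A))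
    (Subgroup.Normal.map inferInstance _ hs) fun e =>
      hne (by rwa [Subgroup.map_eq_bot_iff, QuotientGroup.ker_mk'] at e)
  have hA : A ≤ Subgroup.centralizer (F : Set H) := fun a ha x hx => (hP.cen a ha x hx).symm
  have hM : B.comap (QuotientGroup.mk' A) ≤ Subgroup.centralizer (F : Set H) := by
    refine (Subgroup.comap_mono hle).trans ?_
    rw [Subgroup.comap_map_eq, QuotientGroup.ker_mk']
    exact sup_le le_rfl hA
  have h1 : F ⊔ B.comap (QuotientGroup.mk' A) ≤ F := by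
    refine hm _ inferInstance le_sup_left
      (sup_le (fun x hx a ha => hP.cen a ha x hx) fun x hx a ha => hM hx a (hP.le ha))
      fun x hx y hy => ?_
    obtain ⟨f, hf, m, hm, rfl⟩ := Subgroup.mem_sup_of_normal_left.1 hx
    obtain ⟨f', hf', m', hm', rfl⟩ := Subgroup.mem_sup_of_normal_left.1 hy
    rw [xstruct_comm, map_mul, map_mul]
    have e : ∀ f ∈ F, ∀ m ∈ B.comap (QuotientGroup.mk' A),
        Commute (QuotientGroup.mk' A f) (QuotientGroup.mk' A m) := fun f hf m hm =>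
      Commute.map (hM hm f hf) _
    exact (((xstruct_comm A _ _).1 (hP.comm f hf f' hf')).mul_right (e f hf m' hm')).mul_left
      ((e f' hf' m hm).symm.mul_right (hc _ hm _ hm'))
  refine h0 (eq_bot_iff.2 fun b hb => ?_)
  obtain ⟨m, rfl⟩ := hs b
  exact (QuotientGroup.eq_one_iff m).2
    (hP.nd m (h1 (Subgroup.mem_sup_right hb)) fun y hy => (hM hb y hy).symm)

theorem xstruct_ff {H : Type} [Group H] [Finite H] {A F : Subgroup H} (hP : PD A F)
    {c : H} (hc : c ∈ Subgroup.centralizer (A : Set H)) (h : ∀ y ∈ F, ⁅c, y⁆ ∈ A) :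
    ∃ x ∈ F, x⁻¹ * c ∈ Subgroup.centralizer (F : Set H) := by
  obtain ⟨U, Z, _, _, _, _, _, π, ζ, B, hπ, hk, hζ, hr, hB, hcm, -, -⟩ := pd_pair A F hP
  choose g hg using fun y : F => (hr _).1 (h y y.2)
  let φ : F →* Z := MonoidHom.mk' g fun y y' => hζ (by
    rw [map_mul, hg, hg, hg]
    have e := hP.cen _ (h y' y'.2) y y.2
    calc ⁅c, ((y * y' : F) : H)⁆ = ⁅c, (y : H)⁆ * (y * ⁅c, (y' : H)⁆) * (y : H)⁻¹ := by
          simp only [Subgroup.coe_mul, commutatorElement_def]
          group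
      _ = _ := by rw [← e]; group)
  have hker : π.ker ≤ φ.ker := fun y hy => hζ (by
    rw [map_one]
    exact (hg y).trans (commutatorElement_eq_one_iff_mul_comm.2 (hc y ((hk y).1 hy)).symm))
  obtain ⟨u, hu⟩ := symp_hom B hB (π.liftOfSurjective hπ ⟨φ, hker⟩)
  obtain ⟨x, rfl⟩ := hπ u
  refine ⟨x, x.2, fun y hy => ?_⟩
  have e : ⁅c, y⁆ = ⁅(x : H), y⁆ := by
    rw [← hcm x ⟨y, hy⟩, ← hu, MonoidHom.liftOfRightInverse_comp_apply]
    exact (hg ⟨y, hy⟩).symm
  simp only [commutatorElement_def, mul_left_inj] at e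
  calc y * ((x : H)⁻¹ * c) = (x : H)⁻¹ * (x * y * (x : H)⁻¹) * c := by group
    _ = _ := by rw [← e]; group

theorem exists_sd {H : Type} [Group H] [Finite H] [Group.IsSolvable H]
    (h : ∀ B : Subgroup H, B.Normal → (∀ a ∈ B, ∀ b ∈ B, a * b = b * a) → IsCyclic B) :
    ∃ A F : Subgroup H, SD A F := by
  obtain ⟨A, hA⟩ := exists_maximal_of_wellFoundedGT
    (fun A : Subgroup H => A.Normal ∧ ∀ a ∈ A, ∀ b ∈ A, a * b = b * a)
    ⟨⊥, inferInstance, fun a ha b _ => by rw [Subgroup.mem_bot.1 ha, one_mul, mul_one]⟩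
  obtain ⟨hn, hc⟩ := hA.prop
  obtain ⟨F, hF⟩ := exists_maximal_of_wellFoundedGT
    (fun F : Subgroup H => F.Normal ∧ A ≤ F ∧ F ≤ Subgroup.centralizer (A : Set H) ∧
      ∀ x ∈ F, ∀ y ∈ F, ⁅x, y⁆ ∈ A)
    ⟨A, hn, le_rfl, fun x hx a ha => hc a ha x hx, fun x hx y hy =>
      A.mul_mem (A.mul_mem (A.mul_mem hx hy) (A.inv_mem hx)) (A.inv_mem hy)⟩
  obtain ⟨hFn, hle, hcen, hcm⟩ := hF.prop
  have hP : PD A F := ⟨h A hn hc, hle, fun a ha x hx => hcen hx a ha, hcm, fun x hx hx' =>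
    hA.le_of_ge (y := F ⊓ Subgroup.centralizer (F : Set H))
      ⟨inferInstance, fun a ha b hb => hb.2 a ha.1⟩
      (fun a ha => ⟨hle ha, fun y hy => (hcen hy a ha).symm⟩) ⟨hx, fun y hy => (hx' y hy).symm⟩⟩
  have hC := xstruct_cent hP fun F' h1 h2 h3 h4 => hF.le_of_ge ⟨h1, hle.trans h2, h3, h4⟩ h2
  refine ⟨A, F, hP, hn, hFn, fun c hc hy => ?_⟩
  obtain ⟨x, hx, hx'⟩ := xstruct_ff hP hc hy
  simpa using F.mul_mem hx (hle (hC hx'))

end Pool.Agent.N9181

end

section

namespace Pool.Agent.N9181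

open scoped commutatorElement

theorem xisoa_ind {U Z : Type} [CommGroup U] [Finite U] [CommGroup Z] [Finite Z] [IsCyclic Z]
    (B : U →* U →* Z) (hB : Symp B) (p : ℕ) (hp : 2 ≤ p)
    (hq : ∀ q : ℕ, q.Prime → q ∣ Nat.card U → p ≤ q) (n : ℕ) : ∀ S : Subgroup U, S.index = n →
    ∀ G ≤ Iso B, (∀ s ∈ G, ∀ y ∈ S, s y = y) → Nat.card G ≤ ch p n := by
  induction n using Nat.strong_induction_on with
  | _ n ih =>
  rintro S rfl G hG hS
  by_cases ht : S = ⊤
  · have : G = ⊥ := (Subgroup.eq_bot_iff_forall G).2 fun s hs =>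
      MulEquiv.ext fun y => hS s hs y (ht ▸ Subgroup.mem_top y)
    rw [this, ht, ch_eq p hp]
    simp
  obtain ⟨x, hx⟩ : ∃ x, x ∉ S := not_forall.1 fun h => ht ((Subgroup.eq_top_iff' S).2 h)
  have h1 := Subgroup.relIndex_mul_index (le_sup_left : S ≤ S ⊔ Subgroup.zpowers x)
  have h2 : S.relIndex (S ⊔ Subgroup.zpowers x) ≠ 1 := fun h =>
    hx (Subgroup.relIndex_eq_one.1 h (Subgroup.mem_sup_right (Subgroup.mem_zpowers x)))
  have h3 : S.index ≠ 0 := Subgroup.index_ne_zero_of_finite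
  have h4 : (S ⊔ Subgroup.zpowers x).index ≠ 0 := Subgroup.index_ne_zero_of_finite
  have h5 := (hq _ (Nat.minFac_prime h2) ((Nat.minFac_dvd _).trans
    ((Dvd.intro _ h1).trans S.index_dvd_card))).trans
    (Nat.minFac_le (Nat.pos_of_ne_zero (left_ne_zero_of_mul (h1 ▸ h3))))
  have h6 : (S ⊔ Subgroup.zpowers x).index * p ≤ S.index := by
    rw [← h1, mul_comm]
    exact Nat.mul_le_mul_right _ h5
  have h7 : (S ⊔ Subgroup.zpowers x).index * 2 ≤ S.index := (Nat.mul_le_mul_left _ hp).trans h6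
  have h8 := ih _ (by omega) (S ⊔ Subgroup.zpowers x) rfl ((MulAction.stabilizer G x).map G.subtype)
    ((Subgroup.map_subtype_le _).trans hG) (by
      rintro _ ⟨s, hs, rfl⟩
      exact (sup_le (fun y hy => hS s s.2 y hy) (Subgroup.zpowers_le_of_mem hs) :
        S ⊔ Subgroup.zpowers x ≤ MonoidHom.eqLocus s.1.toMonoidHom (MonoidHom.id U)))
  rw [Subgroup.card_map_of_injective G.subtype_injective] at h8
  have h9 : Nat.card (perp B S) = S.index :=
    Nat.eq_of_mul_eq_mul_left Nat.card_pos ((card_perp B hB S).trans S.card_mul_index.symm)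
  have h10 : (MulAction.stabilizer G x).index ≤ S.index := by
    rw [MulAction.index_stabilizer, ← h9]
    refine Set.ncard_le_ncard_of_injOn (t := (perp B S : Set U)) (fun y => x⁻¹ * y) ?_
      (fun a _ b _ h => mul_left_cancel h) (Set.toFinite _)
    rintro _ ⟨s, rfl⟩ y hy
    have := hG s.2 y x
    rw [hS s s.2 y hy] at this
    rw [map_mul, map_inv, inv_mul_eq_one]
    exact this.symm
  rw [ch_eq p hp, if_neg (by omega), ← (MulAction.stabilizer G x).index_mul_card]
  exact Nat.mul_le_mul h10 (h8.trans (ch_mono p hp _ _ ((Nat.le_div_iff_mul_le (by omega)).2 h6)))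

theorem iso_chain {U Z : Type} [CommGroup U] [Finite U] [CommGroup Z] [Finite Z] [IsCyclic Z]
    (B : U →* U →* Z) (hB : Symp B) (p : ℕ) (hp : 2 ≤ p)
    (hq : ∀ q : ℕ, q.Prime → q ∣ Nat.card U → p ≤ q) :
    Nat.card (Iso B) ≤ ch p (Nat.card U) := by
  exact xisoa_ind B hB p hp hq _ ⊥ Subgroup.index_bot _ le_rfl fun s _ y hy => by
    rw [Subgroup.mem_bot.1 hy, map_one]

end Pool.Agent.N9181

end

section

namespace Pool.Agent.N9181

open scoped commutatorElement

section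

variable {U Z : Type} [CommGroup U] [CommGroup Z]

/-- the elements killed by `m` -/
abbrev xisobK (U : Type) [CommGroup U] (m : ℕ) : Subgroup U := (powMonoidHom m : U →* U).ker

theorem xisob_mem {m : ℕ} {x : U} : x ∈ xisobK U m ↔ x ^ m = 1 := Iff.rfl

theorem xisob_one {G : Type} [Group G] {m n : ℕ} (h : m.Coprime n) {x : G} (h1 : x ^ m = 1)
    (h2 : x ^ n = 1) : x = 1 := by
  rw [← orderOf_eq_one_iff, ← Nat.dvd_one, ← h]
  exact Nat.dvd_gcd (orderOf_dvd_of_pow_eq_one h1) (orderOf_dvd_of_pow_eq_one h2)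

theorem xisob_prime [Finite U] {m q : ℕ} (hq : q.Prime) (h : q ∣ Nat.card (xisobK U m)) :
    q ∣ m := by
  have := Fact.mk hq
  obtain ⟨x, hx⟩ := exists_prime_orderOf_dvd_card' q h
  rw [← hx, orderOf_dvd_iff_pow_eq_one]
  exact Subtype.ext x.2

theorem xisob_split [Finite U] {m n : ℕ} (h : m.Coprime n) (hc : Nat.card U = m * n) :
    Nat.card (xisobK U m) = m ∧ Nat.card (xisobK U n) = n ∧
      ∀ x : U, ∃ y ∈ xisobK U m, ∃ z ∈ xisobK U n, y * z = x := by
  have h0 : ∀ x : U, x ^ (m * n) = 1 := fun x => hc ▸ pow_card_eq_one'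
  let f : U → xisobK U m × xisobK U n := fun x =>
    (⟨x ^ n, xisob_mem.mpr (by rw [← pow_mul, mul_comm, h0])⟩,
      ⟨x ^ m, xisob_mem.mpr (by rw [← pow_mul, h0])⟩)
  let g : xisobK U m × xisobK U n → U := fun x => x.1 * x.2
  have hf : Function.Injective f := fun x y e => by
    have e1 : x ^ n = y ^ n := congrArg (fun t => (t.1 : U)) e
    have e2 : x ^ m = y ^ m := congrArg (fun t => (t.2 : U)) e
    rw [← div_eq_one]
    exact xisob_one h (by rw [div_pow, e2, div_self']) (by rw [div_pow, e1, div_self'])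
  have hg : Function.Injective g := fun x y e => by
    have e0 : (x.1 : U) * x.2 = y.1 * y.2 := e
    have e1 : (x.1 : U) / y.1 = y.2 / x.2 := by rw [div_eq_div_iff_mul_eq_mul, e0, mul_comm]
    have e2 : (x.1 : U) / y.1 = 1 := xisob_one h (div_mem x.1.2 y.1.2)
      (e1 ▸ div_mem y.2.2 x.2.2 : (x.1 : U) / y.1 ∈ xisobK U n)
    exact Prod.ext (Subtype.ext (div_eq_one.mp e2)) (Subtype.ext (div_eq_one.mp (e1 ▸ e2)).symm)
  have hp : Nat.card (xisobK U m × xisobK U n) = Nat.card U :=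
    le_antisymm (Nat.card_le_card_of_injective g hg) (Nat.card_le_card_of_injective f hf)
  have hs : Function.Surjective g := (hg.bijective_of_nat_card_le hp.ge).2
  rw [Nat.card_prod, hc] at hp
  have c1 : (Nat.card (xisobK U m)).Coprime n := Nat.coprime_of_dvd fun q hq a b =>
    hq.one_lt.ne' (Nat.eq_one_of_dvd_coprimes h (xisob_prime hq a) b)
  have c2 : (Nat.card (xisobK U n)).Coprime m := Nat.coprime_of_dvd fun q hq a b =>
    hq.one_lt.ne' (Nat.eq_one_of_dvd_coprimes h b (xisob_prime hq a))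
  have d1 : Nat.card (xisobK U m) ∣ m := c1.dvd_of_dvd_mul_right ⟨_, hp.symm⟩
  have d2 : m ∣ Nat.card (xisobK U m) := c2.symm.dvd_of_dvd_mul_right ⟨_, hp⟩
  have e1 := Nat.dvd_antisymm d1 d2
  have hm : 0 < m := e1 ▸ Nat.card_pos
  refine ⟨e1, Nat.eq_of_mul_eq_mul_left hm (by rw [← hp, e1]), fun x => ?_⟩
  obtain ⟨y, hy⟩ := hs x
  exact ⟨y.1, y.1.2, y.2, y.2.2, hy⟩

/-- the restricted pairing -/
def xisobB (B : U →* U →* Z) (m : ℕ) : xisobK U m →* xisobK U m →* Z :=
  (B.comp (xisobK U m).subtype).compl₂ (xisobK U m).subtype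

theorem xisob_symp (B : U →* U →* Z) (hB : Symp B) {m n : ℕ} (h : m.Coprime n)
    (hd : ∀ x : U, ∃ y ∈ xisobK U m, ∃ z ∈ xisobK U n, y * z = x) : Symp (xisobB B m) := by
  refine ⟨fun x => hB.1 x, fun x hx => Subtype.ext (hB.2 x fun w => ?_)⟩
  obtain ⟨y, hy, z, hz, rfl⟩ := hd w
  have h1 : B x y = 1 := hx ⟨y, hy⟩
  have h2 : B x z = 1 := xisob_one h
    (by rw [← MonoidHom.pow_apply, ← map_pow, xisob_mem.mp x.2, map_one, MonoidHom.one_apply])
    (by rw [← map_pow, xisob_mem.mp hz, map_one])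
  rw [map_mul, h1, h2, one_mul]

theorem xisob_map {m : ℕ} (s : MulAut U) (x : xisobK U m) : s x ∈ xisobK U m :=
  xisob_mem.mpr (by rw [← map_pow, xisob_mem.mp x.2, map_one])

/-- the restricted isometry -/
def xisobR (B : U →* U →* Z) (m : ℕ) (s : Iso B) : Iso (xisobB B m) :=
  ⟨{ toFun := fun x => ⟨s.1 x, xisob_map _ x⟩
     invFun := fun x => ⟨s.1⁻¹ x, xisob_map _ x⟩
     left_inv := fun x => Subtype.ext (s.1.symm_apply_apply x)
     right_inv := fun x => Subtype.ext (s.1.apply_symm_apply x)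
     map_mul' := fun x y => Subtype.ext (map_mul s.1 (x : U) y) }, fun x y => s.2 x y⟩

theorem xisob_le [Finite U] (B : U →* U →* Z) {m n : ℕ}
    (hd : ∀ x : U, ∃ y ∈ xisobK U m, ∃ z ∈ xisobK U n, y * z = x) :
    Nat.card (Iso B) ≤ Nat.card (Iso (xisobB B m)) * Nat.card (Iso (xisobB B n)) := by
  rw [← Nat.card_prod]
  refine Nat.card_le_card_of_injective (fun s => (xisobR B m s, xisobR B n s)) fun s t e => ?_
  refine Subtype.ext (MulEquiv.ext fun x => ?_)
  obtain ⟨y, hy, z, hz, rfl⟩ := hd x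
  have e1 : s.1 y = t.1 y := congrArg (fun r => (r.1.1 ⟨y, hy⟩ : U)) e
  have e2 : s.1 z = t.1 z := congrArg (fun r => (r.2.1 ⟨z, hz⟩ : U)) e
  rw [map_mul, map_mul, e1, e2]

theorem xisob_half [Finite U] (B : U →* U →* Z) (h3 : 3 ∣ Nat.card U) :
    2 * Nat.card {s : Iso B // s ^ 3 = 1} ≤ Nat.card (Iso B) := by
  let ν : Iso B := ⟨MulEquiv.inv U, fun x y => by
    show B x⁻¹ y⁻¹ = B x y
    rw [map_inv, map_inv, MonoidHom.inv_apply, inv_inv]⟩
  have hc : ∀ s : Iso B, Commute s ν := fun s =>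
    Subtype.ext (MulEquiv.ext fun x => map_inv s.1 x)
  have h2 : ν * ν = 1 := Subtype.ext (MulEquiv.ext fun x => inv_inv x)
  have h1 : ν ≠ 1 := fun e => by
    have := Fact.mk Nat.prime_three
    obtain ⟨x, hx⟩ := exists_prime_orderOf_dvd_card' 3 h3
    have e1 : x⁻¹ = x := congrArg (fun r : Iso B => r.1 x) e
    have e2 : orderOf x ∣ 2 := orderOf_dvd_of_pow_eq_one (by
      rw [sq]; nth_rewrite 1 [← e1]; exact inv_mul_cancel x)
    rw [hx] at e2
    omega
  have h4 : ∀ s t : {s : Iso B // s ^ 3 = 1}, s.1 ≠ t.1 * ν := fun s t e => by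
    have e1 := s.2
    rw [e, (hc _).mul_pow, t.2, one_mul, pow_succ, sq, h2, one_mul] at e1
    exact h1 e1
  rw [two_mul, ← Nat.card_sum]
  refine Nat.card_le_card_of_injective (Sum.elim (fun s => s.1) fun s => s.1 * ν) ?_
  rintro (s | s) (t | t) e
  · exact congrArg _ (Subtype.ext e)
  · exact absurd e (h4 s t)
  · exact absurd e.symm (h4 t s)
  · exact congrArg _ (Subtype.ext (mul_right_cancel e))

end

theorem iso_bound {U Z : Type} [CommGroup U] [Finite U] [CommGroup Z] [Finite Z] [IsCyclic Z]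
    (B : U →* U →* Z) (hB : Symp B) (e : ℕ) (he : Nat.card U = e ^ 2) :
    IB e (Nat.card (Iso B)) ∧
      (3 ∣ e → 2 * Nat.card {s : Iso B // s ^ 3 = 1} ≤ Nat.card (Iso B)) := by
  refine ⟨⟨he ▸ iso_chain B hB 2 le_rfl fun q hq _ => hq.two_le, ?_⟩,
    fun h => xisob_half B (he ▸ h.trans (dvd_pow_self e two_ne_zero))⟩
  have h0 : e ≠ 0 := by
    rintro rfl
    exact Nat.card_pos.ne' he
  have hc : ((3 ^ e.factorization 3) ^ 2).Coprime ((e / 3 ^ e.factorization 3) ^ 2) :=
    ((Nat.coprime_ordCompl Nat.prime_three h0).pow_left _).pow 2 2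
  obtain ⟨h1, h2, h3⟩ := xisob_split (U := U) hc
    (by rw [he, ← mul_pow, Nat.ordProj_mul_ordCompl_eq_self])
  have h4 : ∀ x : U, ∃ y ∈ xisobK U ((e / 3 ^ e.factorization 3) ^ 2),
      ∃ z ∈ xisobK U ((3 ^ e.factorization 3) ^ 2), y * z = x := fun x => by
    obtain ⟨y, hy, z, hz, h⟩ := h3 x
    exact ⟨z, hz, y, hy, by rw [mul_comm, h]⟩
  refine (xisob_le B h3).trans (Nat.mul_le_mul ?_ ?_)
  · refine (iso_chain _ (xisob_symp B hB hc h3) 3 (by norm_num) fun q hq hd => ?_).trans_eq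
      (by rw [h1])
    rw [h1] at hd
    exact ((Nat.prime_dvd_prime_iff_eq hq Nat.prime_three).mp
      (hq.dvd_of_dvd_pow (hq.dvd_of_dvd_pow hd))).ge
  · exact (iso_chain _ (xisob_symp B hB hc.symm h4) 2 le_rfl fun q hq _ => hq.two_le).trans_eq
      (by rw [h2])

end Pool.Agent.N9181

end

section

namespace Pool.Agent.N9181

open scoped commutatorElement

theorem xcount_three {H : Type} [Group H] [Finite H] (A : Subgroup H) (hA : IsCyclic A) (c : H)
    (s : Finset H) (hs : ∀ d ∈ s, c⁻¹ * d ∈ A ∧ (c⁻¹ * d) ^ 3 = 1) : s.card ≤ 3 := by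
  classical
  have := Fintype.ofFinite A
  refine le_trans ?_ (IsCyclic.card_pow_eq_one_le (α := A) (n := 3) (by norm_num))
  refine Finset.card_le_card_of_injOn
    (fun d => if h : c⁻¹ * d ∈ A then (⟨c⁻¹ * d, h⟩ : A) else 1) (fun d hd => ?_) ?_
  · have h := hs d hd
    simp only [Finset.coe_filter, Finset.mem_univ, true_and, Set.mem_ofPred_eq, dif_pos h.1]
    exact Subtype.ext h.2
  · intro d hd d' hd' h
    simp only [dif_pos (hs d hd).1, dif_pos (hs d' hd').1, Subtype.mk.injEq] at h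
    exact mul_left_cancel h

theorem xcount_fib {H T U : Type} [Group H] [Finite H] [Group T] [Finite T] [Group U] [Finite U]
    (A F C : Subgroup H) (hA : IsCyclic A) (π : F →* U) (hπ : ∀ x : F, π x = 1 ↔ (x : H) ∈ A)
    (κ : C →* T) (hκ : ∀ c, κ c = 1 ↔ (c : H) ∈ F) (P : H → Prop) (Q : T → Prop)
    (hPQ : ∀ c : C, P c → Q (κ c))
    (h3 : ∀ c ∈ C, P c → ∀ x ∈ A, P (c * x) → x ^ 3 = 1) :
    Nat.card {c : H // c ∈ C ∧ P c} ≤ 3 * Nat.card U * Nat.card {s : T // Q s} := by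
  classical
  have := Fintype.ofFinite H
  have := Fintype.ofFinite T
  have := Fintype.ofFinite U
  rw [Nat.card_eq_fintype_card, Nat.card_eq_fintype_card, Nat.card_eq_fintype_card,
    Fintype.card_subtype, Fintype.card_subtype]
  refine Finset.card_le_mul_card_image_of_maps_to
    (f := fun c => if h : c ∈ C then κ ⟨c, h⟩ else 1) (fun c hc => ?_) _ fun s _ => ?_
  · obtain ⟨h1, h2⟩ := (Finset.mem_filter.1 hc).2
    simp only [dif_pos h1, Finset.mem_filter, Finset.mem_univ, true_and]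
    exact hPQ ⟨c, h1⟩ h2
  set S := Finset.filter (fun a => (if h : a ∈ C then κ ⟨a, h⟩ else 1) = s)
    (Finset.univ.filter fun c : H => c ∈ C ∧ P c) with hS
  have hm : ∀ c ∈ S, ∃ h : c ∈ C, P c ∧ κ ⟨c, h⟩ = s := fun c hc => by
    obtain ⟨h0, h3⟩ := Finset.mem_filter.1 hc
    obtain ⟨h1, h2⟩ := (Finset.mem_filter.1 h0).2
    exact ⟨h1, h2, by rwa [dif_pos h1] at h3⟩
  rcases S.eq_empty_or_nonempty with h | ⟨c, hc⟩
  · simp [h]
  have hF : ∀ d ∈ S, c⁻¹ * d ∈ F := fun d hd => by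
    obtain ⟨h1, -, h2⟩ := hm c hc
    obtain ⟨h3, -, h4⟩ := hm d hd
    exact (hκ ((⟨c, h1⟩ : C)⁻¹ * ⟨d, h3⟩)).1 (by rw [map_mul, map_inv, h2, h4, inv_mul_cancel])
  refine Finset.card_le_mul_card_image_of_maps_to (t := Finset.univ)
    (f := fun d => if h : c⁻¹ * d ∈ F then π ⟨c⁻¹ * d, h⟩ else 1)
    (fun _ _ => Finset.mem_univ _) _ fun u _ => ?_
  rcases (S.filter fun d => (if h : c⁻¹ * d ∈ F then π ⟨c⁻¹ * d, h⟩ else 1) = u).eq_empty_or_nonempty
    with h | ⟨d, hd⟩
  · simp [h]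
  refine xcount_three A hA d _ fun d' hd' => ?_
  obtain ⟨h1, h2⟩ := Finset.mem_filter.1 hd
  obtain ⟨h4, h5⟩ := Finset.mem_filter.1 hd'
  rw [dif_pos (hF d h1)] at h2
  rw [dif_pos (hF d' h4)] at h5
  have hA' : d⁻¹ * d' ∈ A := by
    have := (hπ ((⟨c⁻¹ * d, hF d h1⟩ : F)⁻¹ * ⟨c⁻¹ * d', hF d' h4⟩)).1
      (by rw [map_mul, map_inv, h2, h5, inv_mul_cancel])
    simpa [mul_assoc] using this
  obtain ⟨h6, h7, -⟩ := hm d h1
  obtain ⟨-, h8, -⟩ := hm d' h4
  exact ⟨hA', h3 d h6 h7 _ hA' (by simpa using h8)⟩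

theorem xcount_idx {H : Type} [Group H] [Finite H] (A : Subgroup H) [A.Normal]
    (hA : IsCyclic A) :
    (Subgroup.centralizer (A : Set H)).index ∣ Nat.totient (Nat.card A) := by
  have h : (MulAut.conjNormal : H →* MulAut A).ker = Subgroup.centralizer (A : Set H) := by
    ext c
    rw [MonoidHom.mem_ker, Subgroup.mem_centralizer_iff]
    constructor
    · intro h a ha
      have := congrArg (fun s : MulAut A => (s ⟨a, ha⟩ : H)) h
      simp only [MulAut.conjNormal_apply, MulAut.one_apply] at this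
      exact (mul_inv_eq_iff_eq_mul.1 this).symm
    · intro h
      ext a
      simp only [MulAut.conjNormal_apply, MulAut.one_apply]
      rw [← h a a.2, mul_inv_cancel_right]
  rw [← h, Subgroup.index_ker, ← IsCyclic.card_mulAut]
  exact Subgroup.card_subgroup_dvd_card _

theorem xcount_cube {H : Type} [Group H] [Finite H] (A : Subgroup H) (h9 : ¬ 9 ∣ Nat.card A)
    (x : H) (hx : x ∈ A) (a : ℕ) (h : x ^ (3 ^ a) = 1) : x ^ 3 = 1 := by
  obtain ⟨b, -, hb⟩ := (Nat.dvd_prime_pow Nat.prime_three).1 (orderOf_dvd_of_pow_eq_one h)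
  have h1 : orderOf x ∣ Nat.card A := Subgroup.orderOf_dvd_natCard A hx
  apply orderOf_dvd_iff_pow_eq_one.1
  rw [hb] at h1 ⊢
  by_cases h2 : 2 ≤ b
  · exact absurd ((pow_dvd_pow 3 h2).trans h1) h9
  · exact (pow_dvd_pow 3 (by omega : b ≤ 1)).trans (by norm_num)

theorem sd_count {H : Type} [Group H] [Finite H] (A F : Subgroup H) (hS : SD A F) :
    ∃ e I M : ℕ, 0 < e ∧ A.relIndex F = e ^ 2 ∧ IB e I ∧ M ≤ I ∧ (3 ∣ e → 2 * M ≤ I) ∧
      Nat.card {c : H // c ∈ Subgroup.centralizer (A : Set H) ∧ c ^ 3 = 1} ≤ 3 * e ^ 2 * M ∧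
      (¬ 9 ∣ Nat.card A →
        Nat.card {c : H // c ∈ Subgroup.centralizer (A : Set H) ∧ ∃ a : ℕ, c ^ (3 ^ a) = 1}
          ≤ 3 * e ^ 2 * I) ∧
      (Subgroup.centralizer (A : Set H)).index ∣ Nat.totient (Nat.card A) ∧
      (∀ p : ℕ, p.Prime → p ∣ e → p ∣ Nat.card A) ∧
      Nat.card H ≤ Nat.card A * Nat.totient (Nat.card A) * e ^ 2 * I := by
  obtain ⟨U, Z, _, _, _, _, _, π, ζ, B, κ, -, hπ, -, -, hB, -, hU, -, -, hκ⟩ := sd_pair A F hS
  obtain ⟨e, he, hr, hp⟩ := pd_sq A F hS.toPD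
  have := hS.nA
  have : Finite (MulAut U) := inferInstance
  rw [hr] at hU
  obtain ⟨hI, hM⟩ := iso_bound B hB e hU
  have hcm : ∀ c ∈ Subgroup.centralizer (A : Set H), ∀ x ∈ A, Commute c x := fun c hc x hx =>
    (Subgroup.mem_centralizer_iff.1 hc x hx).symm
  have hi := xcount_idx A hS.cyc
  refine ⟨e, Nat.card (Iso B), Nat.card {s : Iso B // s ^ 3 = 1}, he, hr, hI,
    Finite.card_subtype_le _, hM, ?_, fun h9 => ?_, hi, hp, ?_⟩
  · rw [← hU]
    refine xcount_fib A F _ hS.cyc π hπ κ hκ (fun c => c ^ 3 = 1) (fun s => s ^ 3 = 1)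
      (fun c hc => ?_) fun c hc h1 x hx h2 => ?_
    · rw [← map_pow, show c ^ 3 = 1 from Subtype.ext hc, map_one]
    · rwa [(hcm c hc x hx).mul_pow, h1, one_mul] at h2
  · rw [← hU]
    refine (xcount_fib A F _ hS.cyc π hπ κ hκ (fun c => ∃ a : ℕ, c ^ (3 ^ a) = 1) (fun _ => True)
      (fun _ _ => trivial) ?_).trans (Nat.mul_le_mul_left _ (Finite.card_subtype_le _))
    rintro c hc ⟨a, ha⟩ x hx ⟨b, hb⟩
    refine xcount_cube A h9 x hx (a + b) ?_
    have h1 : (c * x) ^ 3 ^ (a + b) = 1 := by rw [pow_add, mul_comm (3 ^ a), pow_mul, hb, one_pow]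
    rwa [(hcm c hc x hx).mul_pow, pow_add, pow_mul c, ha, one_pow, one_mul, ← pow_add] at h1
  · have h1 : Nat.card κ.ker ≤ Nat.card F :=
      Nat.card_le_card_of_injective (fun c => ⟨c.1.1, (hκ c.1).1 c.2⟩) fun c d h =>
        Subtype.ext (Subtype.ext (congrArg (fun x : F => (x : H)) h))
    have h2 : Nat.card F = Nat.card A * e ^ 2 := by
      rw [← hr, ← Subgroup.card_mul_index (A.subgroupOf F),
        Nat.card_congr (Subgroup.subgroupOfEquivOfLe hS.le).toEquiv]
      rfl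
    have h3 : κ.ker.index ≤ Nat.card (Iso B) := by
      rw [Subgroup.index_ker]; exact Finite.card_subtype_le _
    have h4 := Nat.le_of_dvd (Nat.totient_pos.2 Nat.card_pos) hi
    rw [← Subgroup.card_mul_index (Subgroup.centralizer (A : Set H)),
      ← Subgroup.card_mul_index κ.ker]
    calc _ ≤ Nat.card A * e ^ 2 * Nat.card (Iso B) * Nat.totient (Nat.card A) := by
          rw [← h2]; gcongr
      _ = _ := by ring

end Pool.Agent.N9181

end

section

namespace Pool.Agent.N9181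

open scoped commutatorElement

theorem xnumb_exp (k : ℕ) (hk : 6 ≤ k) : (k + 1) * (2 * k + 5) + 8 ≤ 2 * 2 ^ k := by
  induction k, hk using Nat.le_induction with
  | base => norm_num
  | succ k hk ih =>
    rw [pow_succ]
    nlinarith

theorem xnumb_big (e : ℕ) (he : 64 ≤ e) : 256 * (e ^ 2 * ch 2 (e ^ 2)) ≤ 4 ^ e := by
  obtain ⟨k, h1, h2⟩ : ∃ k, 2 ^ k ≤ e ∧ e < 2 ^ (k + 1) :=
    ⟨Nat.log 2 e, Nat.pow_log_le_self 2 (by omega), Nat.lt_pow_succ_log_self (by norm_num) e⟩
  have hk : 6 ≤ k := by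
    have h : 2 ^ 6 < 2 ^ (k + 1) := lt_of_le_of_lt he h2
    have := (Nat.pow_lt_pow_iff_right (by norm_num)).1 h
    omega
  have h3 : e ^ 2 ≤ 2 ^ (2 * (k + 1)) := by
    rw [mul_comm, pow_mul]
    exact Nat.pow_le_pow_left h2.le 2
  have h4 := ch_le _ _ h3
  rw [mul_assoc, Nat.mul_div_cancel_left _ two_pos] at h4
  have h5 := xnumb_exp k hk
  calc 256 * (e ^ 2 * ch 2 (e ^ 2))
      ≤ 2 ^ 8 * (2 ^ (2 * (k + 1)) * 2 ^ ((k + 1) * (2 * (k + 1) + 1))) := by gcongr; norm_num
    _ = 2 ^ ((k + 1) * (2 * k + 5) + 8) := by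
      rw [← pow_add, ← pow_add]
      congr 1
      ring
    _ ≤ 2 ^ (2 * e) := Nat.pow_le_pow_right two_pos (by omega)
    _ = 4 ^ e := by rw [pow_mul]; norm_num

theorem xnumb_a (e : ℕ) (he : 0 < e) : 216 * (e ^ 2 * ch 2 (e ^ 2)) < 2 * 169 ^ e := by
  rcases lt_or_ge e 64 with h | h
  · revert he
    revert e
    decide +kernel
  · have h1 := xnumb_big e h
    have h2 : 4 ^ e ≤ 169 ^ e := Nat.pow_le_pow_left (by norm_num) e
    have h3 : 0 < 169 ^ e := by positivity
    omega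

theorem xnumb_b (a : ℕ) (ha : 7 ≤ a) : 3 * ((3 * a) ^ 2 * ch 2 ((3 * a) ^ 2)) < 4 * 169 ^ a := by
  rcases lt_or_ge a 22 with h | h
  · revert ha
    revert a
    decide +kernel
  · have h1 := xnumb_big (3 * a) (by omega)
    have h2 : 4 ^ (3 * a) ≤ 169 ^ a := by
      rw [pow_mul]
      exact Nat.pow_le_pow_left (by norm_num) a
    have h3 : 0 < 169 ^ a := by positivity
    omega

theorem xnumb_p (e : ℕ) (he : 0 < e) : 3 * 4 ^ e ≤ 13 ^ e := by
  induction e, he using Nat.le_induction with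
  | base => norm_num
  | succ k hk ih =>
    rw [pow_succ, pow_succ]
    omega

theorem xnumb_c (e : ℕ) (he : 0 < e) (h3 : 3 ∣ e) (h6 : e ≠ 6) :
    3 * (e ^ 2 * ch 2 (e ^ 2)) + 2 ≤ 13 ^ e := by
  rcases lt_or_ge e 64 with h | h
  · revert he h3 h6
    revert e
    decide +kernel
  · have h1 := xnumb_big e h
    have h2 := xnumb_p e he
    have h4 : 0 < 4 ^ e := by positivity
    omega

theorem xnumb_d (e : ℕ) (he : 0 < e) (h3 : 3 ∣ e) :
    192 * ((3 * e + 1) / 2) ^ 3 * (e ^ 2 * ch 2 (e ^ 2)) ≤ 2 * 13 ^ ((3 * e + 1) / 2) * e ^ 3 := by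
  rcases lt_or_ge e 64 with h | h
  · revert he h3
    revert e
    decide +kernel
  · have h1 := xnumb_big e h
    have h2 := xnumb_p e he
    have h4 : 13 ^ e ≤ 13 ^ ((3 * e + 1) / 2) := Nat.pow_le_pow_right (by norm_num) (by omega)
    have h5 : ((3 * e + 1) / 2) ^ 3 ≤ (2 * e) ^ 3 := Nat.pow_le_pow_left (by omega) 3
    calc 192 * ((3 * e + 1) / 2) ^ 3 * (e ^ 2 * ch 2 (e ^ 2))
        ≤ 192 * (2 * e) ^ 3 * (e ^ 2 * ch 2 (e ^ 2)) := by gcongr
      _ = 6 * (256 * (e ^ 2 * ch 2 (e ^ 2))) * e ^ 3 := by ring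
      _ ≤ 2 * 13 ^ ((3 * e + 1) / 2) * e ^ 3 := Nat.mul_le_mul_right _ (by omega)

theorem xnumb_cube (b a d : ℕ) (hb : 8 ≤ b) (ha : 0 < a) (h : a ≤ d) :
    d ^ 3 * b ^ a ≤ a ^ 3 * b ^ d := by
  induction d, h using Nat.le_induction with
  | base => exact le_rfl
  | succ k hk ih =>
    have h1 : (k + 1) ^ 3 ≤ (2 * k) ^ 3 := Nat.pow_le_pow_left (by omega) 3
    calc (k + 1) ^ 3 * b ^ a ≤ (2 * k) ^ 3 * b ^ a := by gcongr
      _ = 8 * (k ^ 3 * b ^ a) := by ring
      _ ≤ b * (a ^ 3 * b ^ k) := Nat.mul_le_mul hb ih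
      _ = a ^ 3 * b ^ (k + 1) := by ring

theorem xnumb_red (X s : ℕ) (hs : 0 < s) (h : X < 2 * (169 ^ s + 13 ^ s + 1)) :
    X * (13 ^ (3 * s / 3) - 1) < 2 * (13 ^ (3 * s) - 1) := by
  have h1 : 1 < 13 ^ s := Nat.one_lt_pow hs.ne' (by norm_num)
  have h2 : 169 ^ s = (13 ^ s) ^ 2 := by
    rw [← pow_mul, mul_comm, pow_mul]
    norm_num
  rw [Nat.mul_div_cancel_left _ (by norm_num), mul_comm 3 s, pow_mul]
  rw [h2] at h
  obtain ⟨y, hy⟩ := Nat.exists_eq_add_of_le h1.le
  rw [hy] at h h1 ⊢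
  have h3 : (1 + y) ^ 3 - 1 = ((1 + y) ^ 2 + (1 + y) + 1) * y :=
    Nat.sub_eq_of_eq_add (by ring)
  rw [h3, Nat.add_sub_cancel_left, ← mul_assoc]
  exact Nat.mul_lt_mul_of_pos_right h (by omega)

theorem xnumb_small (a I : ℕ) (ha : 0 < a) (h7 : a < 7) (hI : IB (3 * a) I) :
    3 * (3 * a) ^ 2 * I < 4 * (169 ^ a + 13 ^ a + 1) := by
  have h := hI.2
  rw [← Nat.primeFactorsList_count_eq] at h
  refine lt_of_le_of_lt (Nat.mul_le_mul_left _ h) ?_
  clear h hI
  interval_cases a <;> simp only [Nat.reduceMul, Nat.primeFactorsList_ofNat] <;> decide +kernel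

theorem xnumb_r (r : ℕ) (hr : 6 ≤ Nat.totient r) : r * Nat.totient r ≤ Nat.totient r ^ 3 := by
  have h := le_totient_sq r (by rintro rfl; revert hr; decide) (by rintro rfl; revert hr; decide)
  rw [pow_succ]
  exact Nat.mul_le_mul_right _ h

theorem num1 (n e I M : ℕ) (hn : 0 < n) (h3 : 3 ∣ n) (he : e ∣ n) (hI : IB e I) (hM : M ≤ I)
    (hM3 : 3 ∣ e → 2 * M ≤ I) : 3 * e ^ 2 * M * (13 ^ (n / 3) - 1) < 2 * (13 ^ n - 1) := by
  obtain ⟨s, rfl⟩ := h3
  have hs : 0 < s := by omega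
  have he0 : 0 < e := Nat.pos_of_dvd_of_pos he hn
  refine xnumb_red _ s hs ?_
  by_cases h : 3 ∣ e
  · obtain ⟨a, rfl⟩ := h
    have h1 : a ≤ s := by
      have := Nat.le_of_dvd hn he
      omega
    have h2 : 169 ^ a ≤ 169 ^ s := Nat.pow_le_pow_right (by norm_num) h1
    have h4 : 13 ^ a ≤ 13 ^ s := Nat.pow_le_pow_right (by norm_num) h1
    have h5 := Nat.mul_le_mul_left (3 * (3 * a) ^ 2) (hM3 (dvd_mul_right 3 a))
    have h6 : 3 * (3 * a) ^ 2 * I < 4 * (169 ^ a + 13 ^ a + 1) := by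
      rcases lt_or_ge a 7 with h7 | h7
      · exact xnumb_small a I (by omega) h7 hI
      · have h8 := xnumb_b a h7
        have h9 := Nat.mul_le_mul_left (3 * (3 * a) ^ 2) hI.1
        rw [← mul_assoc] at h8
        have h10 : 0 < 13 ^ a := by positivity
        omega
    rw [mul_left_comm] at h5
    omega
  · have h1 : e ≤ s := Nat.le_of_dvd hs (Nat.Coprime.dvd_of_dvd_mul_left
      ((Nat.Prime.coprime_iff_not_dvd Nat.prime_three).2 h).symm he)
    have h2 : 169 ^ e ≤ 169 ^ s := Nat.pow_le_pow_right (by norm_num) h1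
    have h4 := xnumb_a e he0
    have h5 := Nat.mul_le_mul_left (e ^ 2) (hM.trans hI.1)
    have h10 : 0 < 13 ^ s := by positivity
    rw [mul_assoc]
    omega

theorem num2 (n e I r : ℕ) (h3 : 3 ∣ n) (hr : 6 ≤ Nat.totient r) (he : 0 < e)
    (hn : Nat.totient r * e ≤ 2 * n) (hI : IB e I) :
    r * Nat.totient r * e ^ 2 * I * (13 ^ (n / 3) - 1) < 2 * (13 ^ n - 1) := by
  obtain ⟨s, rfl⟩ := h3
  have h0 := xnumb_r r hr
  generalize Nat.totient r = f at *
  have h1 : e ≤ s := by nlinarith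
  refine xnumb_red _ s (by omega) ?_
  have h2 := xnumb_cube 169 e s (by norm_num) he h1
  have h4 : (f * e) ^ 3 ≤ (6 * s) ^ 3 := Nat.pow_le_pow_left (by omega) 3
  have h5 : f ^ 3 * 169 ^ e ≤ 216 * 169 ^ s := by
    refine Nat.le_of_mul_le_mul_left (?_ : e ^ 3 * _ ≤ e ^ 3 * _) (by positivity)
    calc e ^ 3 * (f ^ 3 * 169 ^ e) = (f * e) ^ 3 * 169 ^ e := by ring
      _ ≤ (6 * s) ^ 3 * 169 ^ e := by gcongr
      _ = 216 * (s ^ 3 * 169 ^ e) := by ring
      _ ≤ 216 * (e ^ 3 * 169 ^ s) := by gcongr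
      _ = _ := by ring
  have h6 : f ^ 3 * (e ^ 2 * ch 2 (e ^ 2)) < 2 * 169 ^ s := by
    refine Nat.lt_of_mul_lt_mul_left (a := 169 ^ e) ?_
    calc 169 ^ e * (f ^ 3 * (e ^ 2 * ch 2 (e ^ 2)))
        = f ^ 3 * 169 ^ e * (e ^ 2 * ch 2 (e ^ 2)) := by ring
      _ ≤ 216 * 169 ^ s * (e ^ 2 * ch 2 (e ^ 2)) := by gcongr
      _ = 169 ^ s * (216 * (e ^ 2 * ch 2 (e ^ 2))) := by ring
      _ < 169 ^ s * (2 * 169 ^ e) := Nat.mul_lt_mul_of_pos_left (xnumb_a e he) (by positivity)
      _ = _ := by ring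
  have h7 := Nat.mul_le_mul h0 (Nat.mul_le_mul_left (e ^ 2) hI.1)
  have h10 : 0 < 13 ^ s := by positivity
  rw [mul_assoc (r * f)]
  omega

theorem num3 (d e I : ℕ) (h3 : 3 ∣ e) (he : 0 < e) (hd : e ≤ d) (hI : IB e I) :
    3 * e ^ 2 * I + 2 ≤ 13 ^ d := by
  refine le_trans ?_ (Nat.pow_le_pow_right (by norm_num) hd)
  by_cases h6 : e = 6
  · subst h6
    have := xnumb_small 2 I (by norm_num) (by norm_num) hI
    omega
  · have h1 := xnumb_c e he h3 h6
    have h2 := Nat.mul_le_mul_left (e ^ 2) hI.1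
    rw [mul_assoc]
    omega

theorem num4 (d e I r : ℕ) (h3 : 3 ∣ e) (he : 0 < e) (hr : 6 ≤ Nat.totient r)
    (hd : Nat.totient r * e ≤ 4 * d) (hI : IB e I) :
    r * Nat.totient r * e ^ 2 * I + 2 ≤ 13 ^ d := by
  have h0 := xnumb_r r hr
  generalize Nat.totient r = f at *
  have h1 : 6 * e ≤ 4 * d := (Nat.mul_le_mul_right e hr).trans hd
  have h2 := xnumb_cube 13 ((3 * e + 1) / 2) d (by norm_num) (by omega) (by omega)
  have h4 : (f * e) ^ 3 ≤ (4 * d) ^ 3 := Nat.pow_le_pow_left hd 3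
  have h5 := xnumb_d e he h3
  generalize (3 * e + 1) / 2 = c at h2 h5
  have h6 : 3 * (f ^ 3 * (e ^ 2 * ch 2 (e ^ 2))) ≤ 2 * 13 ^ d := by
    refine Nat.le_of_mul_le_mul_left (?_ : 13 ^ c * e ^ 3 * _ ≤ 13 ^ c * e ^ 3 * _) (by positivity)
    calc 13 ^ c * e ^ 3 * (3 * (f ^ 3 * (e ^ 2 * ch 2 (e ^ 2))))
        = 3 * (f * e) ^ 3 * 13 ^ c * (e ^ 2 * ch 2 (e ^ 2)) := by ring
      _ ≤ 3 * (4 * d) ^ 3 * 13 ^ c * (e ^ 2 * ch 2 (e ^ 2)) := by gcongr
      _ = 192 * (d ^ 3 * 13 ^ c) * (e ^ 2 * ch 2 (e ^ 2)) := by ring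
      _ ≤ 192 * (c ^ 3 * 13 ^ d) * (e ^ 2 * ch 2 (e ^ 2)) := by gcongr
      _ = 13 ^ d * (192 * c ^ 3 * (e ^ 2 * ch 2 (e ^ 2))) := by ring
      _ ≤ 13 ^ d * (2 * 13 ^ c * e ^ 3) := by gcongr
      _ = _ := by ring
  have h7 := Nat.mul_le_mul h0 (Nat.mul_le_mul_left (e ^ 2) hI.1)
  have h8 : 13 ^ 1 ≤ 13 ^ d := Nat.pow_le_pow_right (by norm_num) (by omega)
  rw [mul_assoc (r * f)]
  omega

end Pool.Agent.N9181

end
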