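import Pool.Agent.Mg.F9181f8.G01f10b
import Pool.Agent.MP_9181f8_al.Defs

section

/-! Definitions for the class of quadratic rational groups: a valuation ring of the complex
numbers over 13, complex Brauer traces, and the abstract list of properties used by the
induction on the order of the group. -/

namespace Pool.Agent.N9181

open scoped commutatorElement

theorem exists_Oo : ∃ O : ValuationSubring ℂ, (13 : ℂ) ∈ O.nonunits := by
  have hne : Ideal.span {(13 : (⊥ : Subring ℂ))} ≠ ⊤ := by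
    rw [Ne, Ideal.span_singleton_eq_top]
    intro h
    obtain ⟨x, hx⟩ := h.exists_right_inv
    obtain ⟨n, hn⟩ := Subring.mem_bot.1 x.2
    have h1 : (13 : ℂ) * n = 1 := by
      rw [hn]; exact congrArg Subtype.val hx
    have h2 : (13 : ℤ) * n = 1 := by exact_mod_cast h1
    omega
  obtain ⟨O, -, hO⟩ := Ideal.image_subset_nonunits_valuationSubring _ hne
  exact ⟨O, hO ⟨13, Ideal.subset_span rfl, rfl⟩⟩

/-- a valuation ring of the complex numbers in which `13` is not a unit -/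
noncomputable def Oo : ValuationSubring ℂ := Classical.choose exists_Oo

/-- its residue field -/
abbrev Kp : Type := IsLocalRing.ResidueField Oo

noncomputable abbrev res : Oo →+* Kp := IsLocalRing.residue Oo

theorem res_13 : res 13 = 0 := by
  rw [IsLocalRing.residue_eq_zero_iff]
  have h : (13 : ℂ) ∈ Oo.nonunits := Classical.choose_spec exists_Oo
  obtain ⟨h1, h2⟩ := ValuationSubring.mem_nonunits_iff_exists_mem_maximalIdeal.1 h
  exact h2

instance charP_Kp : CharP Kp 13 :=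
  (CharP.charP_iff_prime_eq_zero (by norm_num)).2 ((map_natCast res 13).symm.trans res_13)

theorem mem_Oo_of_root (p : Polynomial Oo) (hp : p.Monic) (z : ℂ)
    (hz : Polynomial.aeval z p = 0) : z ∈ Oo := by
  obtain ⟨y, hy⟩ := IsIntegrallyClosed.algebraMap_eq_of_integral (R := Oo) (K := ℂ)
    (x := z) ⟨p, hp, hz⟩
  exact hy ▸ y.2

instance algClosed_Kp : IsAlgClosed Kp := by
  refine IsAlgClosed.of_exists_root _ fun p hp hirr => ?_
  obtain ⟨q, hq1, hq2, hq3⟩ := Polynomial.lifts_and_degree_eq_and_monic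
    (Polynomial.mem_lifts_of_surjective (f := res) IsLocalRing.residue_surjective p) hp
  obtain ⟨z, hz⟩ := IsAlgClosed.exists_aeval_eq_zero ℂ q
    (by rw [hq2]; exact (Polynomial.degree_pos_of_irreducible hirr).ne')
  refine ⟨res ⟨z, mem_Oo_of_root q hq3 z hz⟩, ?_⟩
  have h0 : Polynomial.eval (⟨z, mem_Oo_of_root q hq3 z hz⟩ : Oo) q = 0 := by
    apply Subtype.ext
    rw [← Polynomial.coe_aeval_eq_eval]
    exact (Polynomial.aeval_algebraMap_apply ℂ (⟨z, mem_Oo_of_root q hq3 z hz⟩ : Oo) q).symm.trans hz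
  rw [← hq1, Polynomial.eval_map, Polynomial.eval₂_at_apply, h0, map_zero]

noncomputable instance algebra_Kp : Algebra K Kp := ZMod.algebra Kp 13

section Lin

variable {L : Type} [Field L] {M : Type} [AddCommGroup M] [Module L M] {H : Type} [Group H]

def IrrF (τ : Representation L H M) : Prop :=
  (∃ v : M, v ≠ 0) ∧ ∀ W : Submodule L M, (∀ h, ∀ v ∈ W, τ h v ∈ W) → W = ⊥ ∨ W = ⊤

noncomputable def edF (a : Module.End L M) (c : L) : ℕ := Module.finrank L (a.eigenspace c)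

/-- the character takes the same value at `g ^ j` and at `g` -/
def SS (τ : Representation L H M) (j : ℕ) : Prop := ∀ g, τ.character (g ^ j) = τ.character g

end Lin

/-- `x` is the trace of a lift of `a` to the valuation ring whose order is prime to `13` -/
def IsCt {M : Type} [AddCommGroup M] [Module Kp M] (a : Module.End Kp M) (x : ℂ) : Prop :=
  ∃ (n : ℕ) (b : Module.Basis (Fin n) Kp M) (A : Matrix (Fin n) (Fin n) Oo) (N : ℕ),
    ¬ 13 ∣ N ∧ A ^ N = 1 ∧ A.map res = LinearMap.toMatrix b b a ∧ ((A.trace : Oo) : ℂ) = x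

/-- evaluation of the group ring over the valuation ring in an algebra -/
noncomputable def gev {F : Type} [CommRing F] (f : Oo →+* F) {S : Type} [Ring S] [Algebra F S]
    {R : Type} [Group R] (τ : R →* S) : MonoidAlgebra Oo R →+* S :=
  MonoidAlgebra.liftNCRingHom ((algebraMap F S).comp f) τ
    (fun x y => Algebra.commute_algebraMap_left (f x) (τ y))

/-- evaluation through the restriction to a subgroup -/
noncomputable def gv {F : Type} [CommRing F] (f : Oo →+* F) {S : Type} [Ring S] [Algebra F S]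
    {G : Type} [Group G] (σ : G →* S) (R : Subgroup G) : MonoidAlgebra Oo R →+* S :=
  gev f (σ.comp R.subtype)

/-- conjugation on the group ring of a normal subgroup -/
noncomputable def cj {G : Type} [Group G] (R : Subgroup G) [R.Normal] (g : G) :
    MonoidAlgebra Oo R →+* MonoidAlgebra Oo R :=
  MonoidAlgebra.mapDomainRingHom Oo (MulAut.conjNormal g : MulAut R).toMonoidHom

/-- block idempotents of the group ring of `R` and the canonical extensions to `Q` -/
structure CD {G : Type} [Group G] (R Q : Subgroup G) [R.Normal] (I : Type) [Fintype I]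
    [MulAction G I] (e : I → MonoidAlgebra Oo R) (a : I → G → MonoidAlgebra Oo R) : Prop where
  sum : ∑ i, e i = 1
  idem : ∀ i, e i * e i = e i
  orth : ∀ i j, i ≠ j → e i * e j = 0
  act : ∀ (g : G) i, cj R g (e i) = e (g • i)
  triv : ∀ r ∈ R, ∀ i : I, r • i = i
  rst : ∀ i (r : R), a i r = MonoidAlgebra.of Oo R r * e i
  mul : ∀ i, ∀ q ∈ Q, ∀ q' ∈ Q, q • i = i → q' • i = i → a i (q * q') = a i q * a i q'
  equi : ∀ i (g : G), ∀ q ∈ Q, q • i = i → cj R g (a i q) = a (g • i) (g * q * g⁻¹)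

section Alg

variable {A : Type} [Ring A] [Algebra ℂ A]

/-- primitive central idempotents -/
def PC (e : A) : Prop :=
  e ≠ 0 ∧ e * e = e ∧ (∀ x, e * x = x * e) ∧
    ∀ z : A, (∀ x, z * x = x * z) → ∃ c : ℂ, z * e = c • e

/-- automorphisms fixing `e` are inner on the block of `e` -/
def SN (e : A) : Prop :=
  ∀ φ : A ≃ₐ[ℂ] A, φ e = e → ∃ a b : A, a * e = a ∧ a * b = e ∧ b * a = e ∧ ∀ x, a * x = φ x * a

/-- dimension of the block of `e` -/
noncomputable def bd (e : A) : ℕ := Module.finrank ℂ (LinearMap.range (LinearMap.mulLeft ℂ e))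

/-- determinant of the left multiplication on the block of `e` -/
noncomputable def dl (e a : A) : ℂ := LinearMap.det (LinearMap.mulLeft ℂ (a + (1 - e)))

variable {G : Type} [Group G] {R : Subgroup G} [R.Normal]

structure AD (ι : R →* A) (φ : G →* (A ≃ₐ[ℂ] A)) : Prop where
  act : ∀ (g : G) (r : R), φ g (ι r) = ι (MulAut.conjNormal g r)
  inn : ∀ (r : R) (x : A), φ r x * ι r = ι r * x

/-- `a` is the canonical element of the block of `e` inducing the action of `q` -/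
structure Can (ι : R →* A) (φ : G →* (A ≃ₐ[ℂ] A)) (s : ℕ) (e : A) (q : G) (a : A) : Prop where
  sup : a * e = a
  inv : ∃ b, a * b = e ∧ b * a = e
  cnj : ∀ x, a * x = φ q x * a
  det : dl e a ^ Nat.card R = 1
  pw : ∀ r : R, (r : G) = q ^ (13 ^ s) → a ^ (13 ^ s) * e = ι r * e

end Alg

/-- `R ≤ Q` normal with `Q / R` a `13`-group -/
structure RQ {G : Type} [Group G] (R Q : Subgroup G) : Prop where
  nR : R.Normal
  nQ : Q.Normal
  le : R ≤ Q
  pw : ∀ k ∈ Q, ∃ a : ℕ, k ^ (13 ^ a) ∈ R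

/-- `L` is a Hall subgroup of `T` relative to `R` -/
structure HT {G : Type} [Group G] (R Q T L : Subgroup G) : Prop where
  le1 : R ≤ L
  le2 : L ≤ T
  cop : ¬ 13 ∣ R.relIndex L
  dec : ∀ t ∈ T, ∃ q ∈ Q, q ∈ T ∧ ∃ l ∈ L, t = q * l
  cnj : ∀ H : Subgroup G, H ≤ T → ¬ 13 ∣ R.relIndex H →
    ∃ x ∈ Q, x ∈ T ∧ ∀ h ∈ H, x * h * x⁻¹ ∈ L

/-- internal form of quadratic rationality -/
def QP (G : Type) [Group G] (N : ℕ) : Prop :=
  Nat.card G ∣ N ∧ 0 < N ∧ ∀ (M : Type) [AddCommGroup M] [Module ℂ M] [Module.Finite ℂ M]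
    (τ : Representation ℂ G M), IrrF τ → ∀ j j' : ℕ, j.Coprime N → j'.Coprime N →
      SS τ j ∨ SS τ j' ∨ SS τ (j * j')

def HU' {V : Type} [AddCommGroup V] [Module K V] {H : Type} [Group H]
    (ρ : Representation K H V) (N m : ℕ) : Prop :=
  ∀ h : H, ¬ 13 ∣ orderOf h → ∀ j : ℕ, j.Coprime N → ∀ M,
    bt (ρ (h ^ j)) M + bt (ρ (h ^ (j * m))) M = bt (ρ h) M + bt (ρ (h ^ m)) M

/-- a multiple of the projection on the part where `ι v` acts through the character `f` -/
noncomputable def pj {V : Type} [AddCommGroup V] [Module K V] {G : Type} [Group G] {M : Type}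
    [AddCommGroup M] [Module ℂ M] (τ : Representation ℂ G M) (ι : V → G)
    (f : Module.Dual K V) : Module.End ℂ M :=
  ∑ᶠ v : V, (ZMod.stdAddChar (-(f v)) : ℂ) • τ (ι v)

def Nonrat {G : Type} [Group G] (N : ℕ) (c : G) : Prop :=
  ∃ j : ℕ, j.Coprime N ∧ ¬ IsConj c (c ^ j)

def T13 {V : Type} [AddCommGroup V] [Module K V] {G : Type} [Group G]
    (ρ : Representation K G V) : Prop :=
  ∀ (g : G) (a : ℕ), g ^ (13 ^ a) = 1 → ρ g = 1

/-- the properties of a group used by the induction -/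
structure AP0 (G : Type) [Group G] (N : ℕ) : Prop where
  dvd : Nat.card G ∣ N
  pos : 0 < N
  sq : ∀ (x : G) (j : ℕ), j.Coprime N → IsConj x (x ^ (j * j))
  rm1 : ∀ (V : Type) [AddCommGroup V] [Module K V] [Module.Finite K V]
    (ρ : Representation K G V) (ι : V → G), Emb ρ ι → Irr ρ → T13 ρ →
    ∀ c : G, ¬ 13 ∣ orderOf c → Nonrat N c → ∀ v, ρ c v = v → v = 0
  rm2 : ∀ (V : Type) [AddCommGroup V] [Module K V] [Module.Finite K V]
    (ρ : Representation K G V) (ι : V → G), Emb ρ ι → Irr ρ →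
    ∀ (B R Q : Subgroup G) (z : G), (∀ g, g ∈ B ↔ ∃ v, ι v = g) → GD B R Q z →
    ∀ (t : G) (a : ℕ), t ^ (3 ^ a) = 1 → (∀ x ∈ Q, ⁅x, t⁆ ∈ R → x ∈ R) → Nonrat N t →
    ∀ v, ρ t v = v → v = 0
  cm : ∀ (V : Type) [AddCommGroup V] [Module K V] [Module.Finite K V]
    (ρ : Representation K G V) (ι : V → G), Emb ρ ι → Irr ρ → T13 ρ →
    Scal ρ ∧ ∃ v, Reg ρ v

/-- the properties hold for all quotients -/
def AP (G : Type) [Group G] (N : ℕ) : Prop :=
  ∀ (G' : Type) [Group G'] [Finite G'] (f : G →* G'), Function.Surjective f → AP0 G' N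

end Pool.Agent.N9181

end

section

namespace Pool.Agent.N9181

open scoped commutatorElement

theorem ap_self {G : Type} [Group G] [Finite G] (N : ℕ) (h : AP G N) : AP0 G N :=
  h G (MonoidHom.id G) Function.surjective_id

theorem ap_surj {G : Type} [Group G] {G' : Type} [Group G'] (f : G →* G')
    (hf : Function.Surjective f) (N : ℕ) (h : AP G N) : AP G' N :=
  fun G'' _ _ g hg => h G'' (g.comp f) (hg.comp hf)

theorem gev_single {F : Type} [CommRing F] (f : Oo →+* F) {S : Type} [Ring S] [Algebra F S]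
    {R : Type} [Group R] (τ : R →* S) (r : R) (c : Oo) :
    gev f τ (MonoidAlgebra.single r c) = f c • τ r := by
  rw [gev, MonoidAlgebra.liftNCRingHom_single, Algebra.smul_def]
  rfl

theorem gev_of {F : Type} [CommRing F] (f : Oo →+* F) {S : Type} [Ring S] [Algebra F S]
    {R : Type} [Group R] (τ : R →* S) (r : R) : gev f τ (MonoidAlgebra.of Oo R r) = τ r := by
  rw [MonoidAlgebra.of_apply, gev_single, map_one, one_smul]

theorem cj_single {G : Type} [Group G] (R : Subgroup G) [R.Normal] (g : G) (r : R) (c : Oo) :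
    cj R g (MonoidAlgebra.single r c) = MonoidAlgebra.single (MulAut.conjNormal g r) c := by
  simp [cj]

theorem gev_ind {R : Type} [Group R] (p : MonoidAlgebra Oo R → Prop) (h0 : p 0)
    (hadd : ∀ x y, p x → p y → p (x + y)) (hs : ∀ r c, p (MonoidAlgebra.single r c))
    (x : MonoidAlgebra Oo R) : p x := by
  induction x using MonoidAlgebra.induction_linear with
  | zero => exact h0
  | add x y hx hy => exact hadd x y hx hy
  | single r c => exact hs r c

/-- conjugation formula -/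
theorem gev_cj {F : Type} [CommRing F] (f : Oo →+* F) {S : Type} [Ring S] [Algebra F S]
    {G : Type} [Group G] (R : Subgroup G) [R.Normal] (τ τ' : R →* S) (g : G) (s : S)
    (h : ∀ r : R, s * τ r = τ' (MulAut.conjNormal g r) * s) (x : MonoidAlgebra Oo R) :
    s * gev f τ x = gev f τ' (cj R g x) * s := by
  refine gev_ind (fun x => s * gev f τ x = gev f τ' (cj R g x) * s) (by simp) ?_ ?_ x
  · intro x y hx hy
    simp only [map_add, mul_add, add_mul, hx, hy]
  · intro r c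
    simp only [cj_single, gev_single, mul_smul_comm, smul_mul_assoc, h]

theorem gv_cj {F : Type} [CommRing F] (f : Oo →+* F) {S : Type} [Ring S] [Algebra F S]
    {G : Type} [Group G] (σ : G →* S) (R : Subgroup G) [R.Normal] (g : G)
    (x : MonoidAlgebra Oo R) : σ g * gv f σ R x = gv f σ R (cj R g x) * σ g := by
  refine gev_cj f R _ _ g (σ g) (fun r => ?_) x
  simp only [MonoidHom.comp_apply, Subgroup.coe_subtype, ← map_mul, MulAut.conjNormal_apply]
  congr 1
  group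

/-- change of the target algebra -/
theorem gev_map {F F' : Type} [CommRing F] [CommRing F'] (f : Oo →+* F) (f' : Oo →+* F')
    {S S' : Type} [Ring S] [Algebra F S] [Ring S'] [Algebra F' S'] {R : Type} [Group R]
    (τ : R →* S) (τ' : R →* S') (ψ : S →+* S')
    (h1 : ∀ c, ψ (algebraMap F S (f c)) = algebraMap F' S' (f' c)) (h2 : ∀ r, ψ (τ r) = τ' r)
    (x : MonoidAlgebra Oo R) : ψ (gev f τ x) = gev f' τ' x := by
  refine gev_ind (fun x => ψ (gev f τ x) = gev f' τ' x) (by simp) ?_ ?_ x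
  · intro x y hx hy
    simp only [map_add, hx, hy]
  · intro r c
    simp only [gev_single, Algebra.smul_def, map_mul, h1, h2]

/-- intertwiners -/
theorem gev_int {F : Type} [Field F] (f : Oo →+* F) {U M : Type} [AddCommGroup U] [Module F U]
    [AddCommGroup M] [Module F M] {R : Type} [Group R] (τ : R →* Module.End F U)
    (τ' : R →* Module.End F M) (j : U →ₗ[F] M) (h : ∀ r u, j (τ r u) = τ' r (j u))
    (x : MonoidAlgebra Oo R) (u : U) : j (gev f τ x u) = gev f τ' x (j u) := by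
  refine gev_ind (fun x => j (gev f τ x u) = gev f τ' x (j u)) (by simp) ?_ ?_ x
  · intro x y hx hy
    simp only [map_add, LinearMap.add_apply, hx, hy]
  · intro r c
    simp only [gev_single, LinearMap.smul_apply, map_smul, h]

theorem gev_mem {F : Type} [Field F] (f : Oo →+* F) {M : Type} [AddCommGroup M] [Module F M]
    {R : Type} [Group R] (τ : R →* Module.End F M) (W : Submodule F M)
    (h : ∀ r, ∀ w ∈ W, τ r w ∈ W) (x : MonoidAlgebra Oo R) : ∀ w ∈ W, gev f τ x w ∈ W := by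
  intro w hw
  refine gev_ind (fun x => gev f τ x w ∈ W) (by simp) ?_ ?_ x
  · intro x y hx hy
    simp only [map_add, LinearMap.add_apply]
    exact W.add_mem hx hy
  · intro r c
    simp only [gev_single, LinearMap.smul_apply]
    exact W.smul_mem _ (h r w hw)

theorem gev_comm {F : Type} [CommRing F] (f : Oo →+* F) {S : Type} [Ring S] [Algebra F S]
    {R : Type} [Group R] (τ : R →* S) (s : S) (h : ∀ r, s * τ r = τ r * s)
    (x : MonoidAlgebra Oo R) : s * gev f τ x = gev f τ x * s := by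
  refine gev_ind (fun x => s * gev f τ x = gev f τ x * s) (by simp) ?_ ?_ x
  · intro x y hx hy
    simp only [map_add, mul_add, add_mul, hx, hy]
  · intro r c
    simp only [gev_single, mul_smul_comm, smul_mul_assoc, h]

/-- a trace is the sum of the traces on the fixed blocks -/
theorem tr_blocks {S C : Type} [Ring S] [AddCommGroup C] (t : S →+ C)
    (ht : ∀ x y, t (x * y) = t (y * x)) {I : Type} [Fintype I] [DecidableEq I] (E : I → S)
    (hs : ∑ i, E i = 1) (hi : ∀ i, E i * E i = E i) (ho : ∀ i j, i ≠ j → E i * E j = 0)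
    (x : S) (π : I → I) (hx : ∀ i, x * E i = E (π i) * x) :
    t x = ∑ i ∈ Finset.univ.filter (fun i => π i = i), t (x * E i) := by
  have h1 : t x = ∑ i, t (x * E i) := by rw [← map_sum, ← Finset.mul_sum, hs, mul_one]
  rw [h1, Finset.sum_filter]
  refine Finset.sum_congr rfl fun i _ => ?_
  split_ifs with h
  · rfl
  · rw [← hi i, ← mul_assoc, hx, mul_assoc, ht, mul_assoc, ho i (π i) (Ne.symm h), mul_zero,
      map_zero]

theorem exists_resF {F : Type} [Field F] {M : Type} [AddCommGroup M] [Module F M]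
    {H : Type} [Group H] (σ : Representation F H M) (H1 : Subgroup H) (W : Submodule F M)
    (hW : ∀ h ∈ H1, ∀ w ∈ W, σ h w ∈ W) :
    ∃ s : Representation F H1 W, ∀ (h : H1) (w : W), (s h w : M) = σ h w :=
  ⟨Representation.subrepresentation (σ.comp H1.subtype) W (fun g w hw => hW g g.2 w hw),
    fun _ _ => rfl⟩

theorem unit_of_res (x : Oo) (h : res x ≠ 0) : IsUnit x := by
  by_contra hx
  exact h ((IsLocalRing.residue_eq_zero_iff x).2 ((IsLocalRing.mem_maximalIdeal x).2 hx))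

theorem unit_nat (n : ℕ) (h : ¬ 13 ∣ n) : IsUnit (n : Oo) := by
  refine unit_of_res _ ?_
  rw [map_natCast, Ne, CharP.cast_eq_zero_iff Kp 13]
  exact h

end Pool.Agent.N9181

end

section

namespace Pool.Agent.N9181

open scoped commutatorElement

theorem xqblk_inv {F : Type} [Field F] {M : Type} [AddCommGroup M] [Module F M] {G : Type}
    [Group G] (σ : Representation F G M) (hσ : IrrF σ) (E : Module.End F M) (W : Submodule F M)
    (v : M) (hv : v ≠ 0) (h : ∀ g, E (σ g v) ∈ W) (m : M) : E m ∈ W := by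
  let X : Submodule F M := ⨅ g : G, W.comap (E * σ g)
  have hX : ∀ x, x ∈ X ↔ ∀ g, E (σ g x) ∈ W := fun x => by
    simp only [X, Submodule.mem_iInf, Submodule.mem_comap, Module.End.mul_apply]
  rcases hσ.2 X (fun k x hx => (hX _).2 fun g => by
    rw [← Module.End.mul_apply (σ g), ← map_mul]
    exact (hX x).1 hx _) with h0 | h0
  · have := (hX v).2 h
    rw [h0] at this
    exact absurd this hv
  · simpa using (hX m).1 (h0 ▸ Submodule.mem_top) 1

theorem blk_act {F : Type} [CommRing F] (f : Oo →+* F) {S : Type} [Ring S] [Algebra F S]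
    {G : Type} [Group G] [Finite G] (R Q : Subgroup G) [R.Normal] {I : Type} [Fintype I] [MulAction G I]
    (e : I → MonoidAlgebra Oo R) (a : I → G → MonoidAlgebra Oo R) (hC : CD R Q I e a) (σ : G →* S) (g : G) (i : I) :
    σ g * gv f σ R (e i) = gv f σ R (e (g • i)) * σ g := by
  rw [gv_cj, hC.act]

theorem blk_ex {F : Type} [Field F] (f : Oo →+* F) {M : Type} [AddCommGroup M] [Module F M]
    {G : Type} [Group G] [Finite G] (R Q : Subgroup G) [R.Normal] {I : Type} [Fintype I] [MulAction G I]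
    (e : I → MonoidAlgebra Oo R) (a : I → G → MonoidAlgebra Oo R) (hC : CD R Q I e a) (σ : Representation F G M) (hσ : IrrF σ) : ∃ i, gv f σ R (e i) ≠ 0 := by
  by_contra h
  push Not at h
  obtain ⟨v, hv⟩ := hσ.1
  have h1 : gv f σ R (∑ i, e i) = 0 := by
    rw [map_sum]
    exact Finset.sum_eq_zero fun i _ => h i
  rw [hC.sum, map_one] at h1
  exact hv (LinearMap.congr_fun h1 v)

theorem blk_orbit {F : Type} [Field F] (f : Oo →+* F) {M : Type} [AddCommGroup M]
    [Module F M] {G : Type} [Group G] [Finite G] (R Q : Subgroup G) [R.Normal] {I : Type} [Fintype I] [MulAction G I]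
    (e : I → MonoidAlgebra Oo R) (a : I → G → MonoidAlgebra Oo R) (hC : CD R Q I e a) (σ : Representation F G M) (hσ : IrrF σ) (i j : I)
    (hi : gv f σ R (e i) ≠ 0) (hj : gv f σ R (e j) ≠ 0) : ∃ g : G, g • i = j := by
  by_contra h
  push Not at h
  obtain ⟨v, hv⟩ : ∃ v, gv f σ R (e i) v ≠ 0 := by
    by_contra h'
    push Not at h'
    exact hi (LinearMap.ext h')
  refine hj (LinearMap.ext fun m => ?_)
  refine xqblk_inv σ hσ (gv f σ R (e j)) ⊥ _ hv (fun g => ?_) m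
  rw [← Module.End.mul_apply (σ g), blk_act f R Q e a hC, ← Module.End.mul_apply, ← mul_assoc,
    ← map_mul, hC.orth j _ (h g).symm, map_zero, zero_mul]
  exact Submodule.zero_mem _

theorem blk_irr {F : Type} [Field F] (f : Oo →+* F) {M : Type} [AddCommGroup M]
    [Module F M] {G : Type} [Group G] [Finite G] (R Q : Subgroup G) [R.Normal] {I : Type} [Fintype I] [MulAction G I]
    (e : I → MonoidAlgebra Oo R) (a : I → G → MonoidAlgebra Oo R) (hC : CD R Q I e a) (σ : Representation F G M) (hσ : IrrF σ) (i : I)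
    (W : Submodule F M) (hle : W ≤ LinearMap.range (gv f σ R (e i)))
    (hW : ∀ g : G, g • i = i → ∀ w ∈ W, σ g w ∈ W) :
    W = ⊥ ∨ W = LinearMap.range (gv f σ R (e i)) := by
  by_cases h0 : W = ⊥
  · exact Or.inl h0
  refine Or.inr (le_antisymm hle ?_)
  obtain ⟨w, hw, hw0⟩ := (Submodule.ne_bot_iff W).1 h0
  rintro _ ⟨m, rfl⟩
  refine xqblk_inv σ hσ (gv f σ R (e i)) W w hw0 (fun g => ?_) m
  by_cases hg : g • i = i
  · obtain ⟨x, hx⟩ := hle (hW g hg w hw)
    rw [← hx, ← Module.End.mul_apply, ← map_mul, hC.idem, hx]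
    exact hW g hg w hw
  · obtain ⟨x, rfl⟩ := hle hw
    rw [← Module.End.mul_apply (σ g), blk_act f R Q e a hC, ← Module.End.mul_apply, ← mul_assoc,
      ← map_mul, hC.orth i _ (Ne.symm hg), map_zero, zero_mul]
    exact Submodule.zero_mem _

end Pool.Agent.N9181

end

section

namespace Pool.Agent.N9181

open scoped commutatorElement

theorem fixF {L : Type} [Field L] [CharP L 13] {M : Type} [AddCommGroup M] [Module L M]
    {S : Type} [Group S] [Finite S] (β : S →* Module.End L M)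
    (h : ∀ s, ∃ a : ℕ, (β s) ^ (13 ^ a) = 1) (hM : ∃ v : M, v ≠ 0) :
    ∃ v : M, v ≠ 0 ∧ ∀ s, β s v = v := by
  obtain ⟨v, hv⟩ := hM
  have hP : IsPGroup 13 β.toHomUnits.range := by
    rintro ⟨_, s, rfl⟩
    obtain ⟨a, ha⟩ := h s
    exact ⟨a, Subtype.ext (Units.ext ha)⟩
  have h13 (x : M) : 13 • x = 0 := by
    rw [← Nat.cast_smul_eq_nsmul L, CharP.cast_eq_zero, zero_smul]
  let X : AddSubgroup M := AddSubgroup.closure (Set.range fun s => β s v)
  have hX : Finite X := AddCommGroup.finite_of_fg_torsion X fun x =>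
    isOfFinAddOrder_iff_nsmul_eq_zero.2 ⟨13, by norm_num, Subtype.ext (h13 x)⟩
  have hst (s : S) : X ≤ X.comap (β s).toAddMonoidHom := by
    refine (AddSubgroup.closure_le _).2 ?_
    rintro _ ⟨t, rfl⟩
    exact AddSubgroup.subset_closure ⟨s * t, by simp⟩
  have hst' (p : β.toHomUnits.range) (x : X) : p.1.1 x.1 ∈ X := by
    obtain ⟨_, s, rfl⟩ := p
    exact hst s x.2
  let _ : MulAction β.toHomUnits.range X :=
    { smul := fun p x => ⟨p.1.1 x.1, hst' p x⟩
      one_smul := fun _ => rfl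
      mul_smul := fun _ _ _ => rfl }
  have hvX : v ∈ X := AddSubgroup.subset_closure ⟨1, by simp⟩
  have hd : 13 ∣ Nat.card X := by
    have h1 : addOrderOf (⟨v, hvX⟩ : X) = 13 :=
      addOrderOf_eq_prime (Subtype.ext (h13 v)) fun e => hv (congrArg Subtype.val e)
    rw [← h1]
    exact addOrderOf_dvd_natCard _
  obtain ⟨b, hb, hne⟩ := hP.exists_fixed_point_of_prime_dvd_card_of_fixed_point X hd
    (a := 0) (fun p => Subtype.ext (map_zero p.1.1))
  exact ⟨b, fun e => hne (Subtype.ext e.symm),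
    fun s => congrArg Subtype.val (hb ⟨β.toHomUnits s, s, rfl⟩)⟩

theorem xqblkq_be {F : Type} [CommRing F] (f : Oo →+* F) {S : Type} [Ring S] [Algebra F S]
    {G : Type} [Group G] [Finite G] (R Q : Subgroup G) [R.Normal] {I : Type} [Fintype I]
    [MulAction G I] (e : I → MonoidAlgebra Oo R) (a : I → G → MonoidAlgebra Oo R)
    (hC : CD R Q I e a) (hQ : RQ R Q) (σ : G →* S) (i : I) (be : G → S)
    (hbe : ∀ x, be x = σ x * gv f σ R (a i x⁻¹)) :
    (∀ x ∈ Q ⊓ MulAction.stabilizer G i, ∀ y ∈ Q ⊓ MulAction.stabilizer G i,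
      be (x * y) = be x * be y) ∧ (∀ r ∈ R, be r = gv f σ R (e i)) ∧
    ∀ t : G, t • i = i → ∀ y ∈ Q ⊓ MulAction.stabilizer G i,
      σ t * be y = be (t * y * t⁻¹) * σ t := by
  set T := Q ⊓ MulAction.stabilizer G i with hT
  have hr (r : G) (h : r ∈ R) : gv f σ R (a i r) = σ r * gv f σ R (e i) := by
    rw [hC.rst i ⟨r, h⟩, map_mul, gv, gev_of]
    rfl
  have hm (x : G) (hx : x ∈ T) (y : G) (hy : y ∈ T) :
      gv f σ R (a i (x * y)) = gv f σ R (a i x) * gv f σ R (a i y) := by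
    rw [hC.mul i x hx.1 y hy.1 hx.2 hy.2, map_mul]
  have hRT (r : G) (h : r ∈ R) : r ∈ T := ⟨hQ.le h, hC.triv r h i⟩
  have h1 : gv f σ R (a i 1) = gv f σ R (e i) := by rw [hr 1 R.one_mem, map_one, one_mul]
  have hc (y : G) (hy : y ∈ T) (r : G) (h : r ∈ R) :
      gv f σ R (a i y) * σ r = σ (y * r * y⁻¹) * gv f σ R (a i y) := by
    have h2 := hm y hy 1 T.one_mem
    have h3 := hm 1 T.one_mem y hy
    have h4 := blk_act f R Q e a hC σ r i
    have h5 : y * r * y⁻¹ ∈ R := hQ.nR.conj_mem r h y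
    rw [mul_one, h1] at h2
    rw [one_mul, h1] at h3
    rw [hC.triv r h i] at h4
    calc gv f σ R (a i y) * σ r = gv f σ R (a i y) * gv f σ R (a i r) := by
          rw [hr r h, h4, ← mul_assoc, ← h2]
      _ = gv f σ R (a i (y * r * y⁻¹)) * gv f σ R (a i y) := by
          rw [← hm y hy r (hRT r h), ← hm _ (hRT _ h5) y hy, inv_mul_cancel_right]
      _ = σ (y * r * y⁻¹) * gv f σ R (a i y) := by rw [hr _ h5, mul_assoc, ← h3]
  have hcomm (x : G) (hx : x ∈ T) (z : MonoidAlgebra Oo R) :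
      be x * gv f σ R z = gv f σ R z * be x := by
    refine gev_comm f _ _ (fun r => ?_) z
    show be x * σ r = σ r * be x
    rw [hbe, mul_assoc, hc _ (T.inv_mem hx) r r.2, ← mul_assoc, ← mul_assoc, ← map_mul,
      ← map_mul]
    congr 2
    group
  refine ⟨fun x hx y hy => ?_, fun r h => ?_, fun t ht y hy => ?_⟩
  · rw [hbe x, mul_assoc, ← hcomm y hy, hbe y, hbe, mul_inv_rev,
      hm _ (T.inv_mem hy) _ (T.inv_mem hx), map_mul, mul_assoc, mul_assoc]
  · rw [hbe, hr _ (R.inv_mem h), ← mul_assoc, ← map_mul, mul_inv_cancel, map_one, one_mul]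
  · have h2 := gv_cj f σ R t (a i y⁻¹)
    rw [hC.equi i t _ (T.inv_mem hy).1 (T.inv_mem hy).2, ht] at h2
    rw [hbe, hbe, conj_inv, mul_assoc, ← h2, ← mul_assoc, ← mul_assoc, ← map_mul, ← map_mul,
      inv_mul_cancel_right]

theorem blk_q {M : Type} [AddCommGroup M] [Module Kp M] [Module.Finite Kp M] {G : Type} [Group G] [Finite G] (R Q : Subgroup G) [R.Normal] {I : Type} [Fintype I] [MulAction G I]
    (e : I → MonoidAlgebra Oo R) (a : I → G → MonoidAlgebra Oo R) (hC : CD R Q I e a) (hQ : RQ R Q)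
    (σ : Representation Kp G M) (hσ : IrrF σ) (i : I) (q : G) (hq : q ∈ Q) (hi : q • i = i) :
    ∀ w ∈ LinearMap.range (gv res σ R (e i)), σ q w = gv res σ R (a i q) w := by
  intro w hw
  by_cases hw0 : w = 0
  · rw [hw0, map_zero, map_zero]
  obtain ⟨be, hbe⟩ : ∃ be : G → Module.End Kp M, ∀ x, be x = σ x * gv res σ R (a i x⁻¹) :=
    ⟨_, fun _ => rfl⟩
  obtain ⟨h1, h2, h3⟩ := xqblkq_be res R Q e a hC hQ σ i be hbe
  set T := Q ⊓ MulAction.stabilizer G i with hT
  set W := LinearMap.range (gv res σ R (e i)) with hW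
  have hE (u : M) (hu : u ∈ W) : gv res σ R (e i) u = u := by
    obtain ⟨z, rfl⟩ := hu
    rw [← Module.End.mul_apply, ← map_mul, hC.idem]
  have hin (x : T) (u : M) (_ : u ∈ W) : be x u ∈ W :=
    ⟨be x u, by rw [← h2 1 R.one_mem, ← Module.End.mul_apply, ← h1 1 T.one_mem x x.2, one_mul]⟩
  let β : T →* Module.End Kp W :=
    { toFun := fun x => (be x).restrict (hin x)
      map_one' := LinearMap.ext fun u => Subtype.ext (by
        show be 1 u = u
        rw [h2 1 R.one_mem, hE u u.2])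
      map_mul' := fun x y => LinearMap.ext fun u => Subtype.ext (by
        show be (x * y) u = be x (be y u)
        rw [h1 x x.2 y y.2, Module.End.mul_apply]) }
  obtain ⟨v, hv, hfix⟩ := fixF β (fun s => by
    obtain ⟨n, hn⟩ := hQ.pw s s.2.1
    refine ⟨n, LinearMap.ext fun u => Subtype.ext ?_⟩
    rw [← map_pow]
    show be (s ^ 13 ^ n) u = u
    rw [h2 _ hn, hE u u.2]) ⟨⟨w, hw⟩, fun h => hw0 (congrArg Subtype.val h)⟩
  let U : Submodule Kp M := W ⊓ ⨅ x : T, LinearMap.ker (be x - 1)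
  have hU (u : M) : u ∈ U ↔ u ∈ W ∧ ∀ x ∈ T, be x u = u := by
    simp only [U, Submodule.mem_inf, Submodule.mem_iInf, LinearMap.mem_ker, LinearMap.sub_apply,
      Module.End.one_apply, sub_eq_zero, Subtype.forall]
  rcases blk_irr res R Q e a hC σ hσ i U inf_le_left (fun g hg u hu => by
    obtain ⟨⟨z, hz⟩, hu2⟩ := (hU u).1 hu
    refine (hU _).2 ⟨⟨σ g z, ?_⟩, fun x hx => ?_⟩
    · have h4 := blk_act res R Q e a hC σ g i
      rw [hg] at h4
      rw [← Module.End.mul_apply, ← h4, Module.End.mul_apply, hz]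
    · have h4 : g⁻¹ * x * g ∈ T := ⟨hQ.nQ.conj_mem' x hx.1 g, by
        show (g⁻¹ * x * g) • i = i
        rw [mul_smul, mul_smul, hg, show x • i = i from hx.2, inv_smul_eq_iff, hg]⟩
      have h5 := h3 g hg _ h4
      rw [show g * (g⁻¹ * x * g) * g⁻¹ = x by group] at h5
      rw [← Module.End.mul_apply, ← h5, Module.End.mul_apply, hu2 _ h4]) with h | h
  · have hm : (v : M) ∈ U := (hU v).2 ⟨v.2, fun x hx => congrArg Subtype.val (hfix ⟨x, hx⟩)⟩
    rw [h] at hm
    exact absurd (Subtype.ext ((Submodule.mem_bot Kp).1 hm)) hv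
  · have h4 := ((hU w).1 (h ▸ hw)).2 q⁻¹ (T.inv_mem ⟨hq, hi⟩)
    rw [hbe, inv_inv, Module.End.mul_apply] at h4
    conv_lhs => rw [← h4]
    rw [← Module.End.mul_apply, ← map_mul, mul_inv_cancel, map_one, Module.End.one_apply]

end Pool.Agent.N9181

end

section

namespace Pool.Agent.N9181

open scoped commutatorElement

theorem det_unit {n : Type} [Fintype n] [DecidableEq n] (S : Matrix n n Oo) (h : S.map res = 1) : IsUnit S.det := by
  refine unit_of_res _ ?_
  rw [RingHom.map_det, RingHom.mapMatrix_apply, h, Matrix.det_one]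
  exact one_ne_zero

theorem idem_zero {n : Type} [Fintype n] [DecidableEq n] (E : Matrix n n Oo) (hE : E * E = E) (h : E.map res = 0) : E = 0 := by
  have h1 : (1 - E).map res = 1 := by
    have := map_sub res.mapMatrix (1 : Matrix n n Oo) E
    rw [map_one, RingHom.mapMatrix_apply, RingHom.mapMatrix_apply, h, sub_zero] at this
    exact this
  have h2 : IsUnit (1 - E) := (Matrix.isUnit_iff_isUnit_det _).2 (det_unit _ h1)
  exact h2.mul_left_eq_zero.1 (by rw [mul_sub, mul_one, hE, sub_self])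

theorem xqoidem_lift {m n : Type} (B : Matrix m n Kp) : ∃ B0 : Matrix m n Oo, B0.map res = B := by
  choose F hF using fun i j => IsLocalRing.residue_surjective (R := Oo) (B i j)
  exact ⟨Matrix.of F, Matrix.ext hF⟩

theorem ofact {n : Type} [Fintype n] [DecidableEq n] {d : Type} [Fintype d] [DecidableEq d] (E : Matrix n n Oo)
    (hE : E * E = E) (i0 : Matrix n d Kp) (p0 : Matrix d n Kp) (h1 : p0 * i0 = 1)
    (h2 : i0 * p0 = E.map res) :
    ∃ (i : Matrix n d Oo) (p : Matrix d n Oo), p * i = 1 ∧ i * p = E ∧ i.map res = i0 ∧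
      p.map res = p0 := by
  obtain ⟨i', hi'⟩ := xqoidem_lift i0
  obtain ⟨p', hp'⟩ := xqoidem_lift p0
  have hi1 : (E * i').map res = i0 := by
    rw [Matrix.map_mul, hi', ← h2, Matrix.mul_assoc, h1, Matrix.mul_one]
  have hp1 : (p' * E).map res = p0 := by
    rw [Matrix.map_mul, hp', ← h2, ← Matrix.mul_assoc, h1, Matrix.one_mul]
  have hS : (p' * E * (E * i')).map res = 1 := by
    rw [Matrix.map_mul, hi1, hp1, h1]
  have hT := Matrix.nonsing_inv_mul _ (det_unit _ hS)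
  generalize (p' * E * (E * i'))⁻¹ = T at hT
  have hTm : T.map res = 1 := by
    have := congrArg (fun A => Matrix.map A res) hT
    simp only [Matrix.map_mul (L := T), hS, Matrix.mul_one] at this
    rw [this]
    exact Matrix.map_one _ (map_zero _) (map_one _)
  have hPI : T * (p' * E) * (E * i') = 1 := by
    rw [Matrix.mul_assoc]
    exact hT
  have hP : (T * (p' * E)).map res = p0 := by
    rw [Matrix.map_mul, hTm, hp1, Matrix.one_mul]
  have hEI : E * (E * i') = E * i' := by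
    rw [← Matrix.mul_assoc, hE]
  have hPE : T * (p' * E) * E = T * (p' * E) := by
    rw [Matrix.mul_assoc, Matrix.mul_assoc, hE]
  refine ⟨E * i', T * (p' * E), hPI, ?_, hi1, hP⟩
  generalize E * i' = I at hPI hEI hi1
  generalize T * (p' * E) = P at hPI hPE hP
  have e1 : E * (I * P) = I * P := by rw [← Matrix.mul_assoc, hEI]
  have e2 : I * P * E = I * P := by rw [Matrix.mul_assoc, hPE]
  have e3 : I * P * (I * P) = I * P := by
    rw [Matrix.mul_assoc, ← Matrix.mul_assoc P, hPI, Matrix.one_mul]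
  have hD : (E - I * P) * (E - I * P) = E - I * P := by
    rw [mul_sub, sub_mul, sub_mul, hE, e1, e2, e3]
    abel
  have h0 : (E - I * P).map res = 0 := by
    have : res.mapMatrix (E - I * P) = res.mapMatrix E - res.mapMatrix (I * P) := map_sub _ _ _
    rw [RingHom.mapMatrix_apply, RingHom.mapMatrix_apply, RingHom.mapMatrix_apply] at this
    rw [this, Matrix.map_mul, hi1, hP, h2, sub_self]
  exact (sub_eq_zero.mp (idem_zero _ hD h0)).symm

open Polynomial in
theorem xqoidem_split (p : Oo[X]) (hp : p.Monic) :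
    ∃ s : Multiset Oo, p = (s.map fun c => X - C c).prod := by
  have h1 : (p.map (algebraMap Oo ℂ)).Monic := hp.map _
  have h2 := (IsAlgClosed.splits (p.map (algebraMap Oo ℂ))).eq_prod_roots_of_monic h1
  have h3 : ∀ z ∈ (p.map (algebraMap Oo ℂ)).roots, z ∈ Oo := fun z hz =>
    mem_Oo_of_root p hp z (by rw [← eval_map_algebraMap]; exact isRoot_of_mem_roots hz)
  generalize (p.map (algebraMap Oo ℂ)).roots = t at h2 h3
  lift t to Multiset Oo using h3 with s
  refine ⟨s, Polynomial.map_injective (algebraMap Oo ℂ) Subtype.val_injective ?_⟩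
  rw [h2, Polynomial.map_multiset_prod, Multiset.map_map, Multiset.map_map]
  congr 2
  funext c
  simp

open Polynomial in
theorem xqoidem_cop (s t : Multiset Oo) (hs : ∀ a ∈ s, res a = 0) (ht : ∀ b ∈ t, res b ≠ 0) :
    IsCoprime (s.map fun c => X - C c).prod (t.map fun c => X - C c).prod := by
  refine Multiset.prod_induction (fun f => IsCoprime f _) _ (fun a b => IsCoprime.mul_left)
    isCoprime_one_left fun f hf => ?_
  obtain ⟨a, ha, rfl⟩ := Multiset.mem_map.1 hf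
  refine Multiset.prod_induction (fun g => IsCoprime _ g) _ (fun a b => IsCoprime.mul_right)
    isCoprime_one_right fun g hg => ?_
  obtain ⟨b, hb, rfl⟩ := Multiset.mem_map.1 hg
  refine isCoprime_X_sub_C_of_isUnit_sub (unit_of_res _ ?_)
  rw [map_sub, hs a ha, zero_sub, neg_ne_zero]
  exact ht b hb

open Polynomial in
theorem xqoidem_poly (p : Oo[X]) (hp : p.Monic) :
    ∃ w q : Oo[X], (X + X * (X - 1) * w) * (1 - (X + X * (X - 1) * w)) = q * p := by
  classical
  obtain ⟨s, rfl⟩ := xqoidem_split p hp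
  obtain ⟨u, v, huv⟩ := xqoidem_cop (0 ::ₘ s.filter fun c => res c = 0)
    (1 ::ₘ s.filter fun c => ¬ res c = 0)
    (fun a ha => by
      rcases Multiset.mem_cons.1 ha with rfl | ha
      · exact map_zero _
      · exact (Multiset.mem_filter.1 ha).2)
    (fun a ha => by
      rcases Multiset.mem_cons.1 ha with rfl | ha
      · rw [map_one]
        exact one_ne_zero
      · exact (Multiset.mem_filter.1 ha).2)
  have h1 : (s.map fun c => X - C c).prod =
      ((s.filter fun c => res c = 0).map fun c => X - C c).prod *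
        ((s.filter fun c => ¬ res c = 0).map fun c => X - C c).prod := by
    rw [← Multiset.prod_add, ← Multiset.map_add, Multiset.filter_add_not]
  rw [h1]
  simp only [Multiset.map_cons, Multiset.prod_cons, map_zero, sub_zero, map_one] at huv
  generalize ((s.filter fun c => res c = 0).map fun c => X - C c).prod = A at huv
  generalize ((s.filter fun c => ¬ res c = 0).map fun c => X - C c).prod = B at huv
  have e : X + X * (X - 1) * (-(u * A) - v * B) = u * (X * A) := by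
    linear_combination (-X) * huv
  refine ⟨-(u * A) - v * B, u * v * X * (X - 1), ?_⟩
  rw [e]
  linear_combination (-(u * (X * A))) * huv

theorem oidem {n : Type} [Fintype n] [DecidableEq n] (x : Matrix n n Oo) (h : x.map res * x.map res = x.map res) :
    ∃ E : Matrix n n Oo, E * E = E ∧ E.map res = x.map res ∧
      ∀ y : Matrix n n Oo, y * x = x * y → y * E = E * y := by
  obtain ⟨w, q, hw⟩ := xqoidem_poly x.charpoly x.charpoly_monic
  have h1 := congrArg (Polynomial.aeval x) hw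
  rw [map_mul, map_mul (Polynomial.aeval x) q, Matrix.aeval_self_charpoly, mul_zero, map_sub,
    map_one, mul_sub, mul_one, sub_eq_zero] at h1
  refine ⟨_, h1.symm, ?_, fun y hy => ?_⟩
  · have h2 : res.mapMatrix x * (res.mapMatrix x - 1) = 0 := by
      rw [mul_sub, mul_one, RingHom.mapMatrix_apply, h, sub_self]
    rw [← RingHom.mapMatrix_apply, ← RingHom.mapMatrix_apply]
    simp only [map_add, map_mul, map_sub, map_one, Polynomial.aeval_X]
    rw [h2, zero_mul, add_zero]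
  · exact (Algebra.commute_of_mem_adjoin_singleton_of_commute
      (Polynomial.aeval_mem_adjoin_singleton Oo x) hy).eq

end Pool.Agent.N9181

end

section

namespace Pool.Agent.N9181

open scoped commutatorElement

section

variable {L : Type} [Group L] [Fintype L] [DecidableEq L] {d : Type} [Fintype d] [DecidableEq d]

/-- the regular representation with multiplicity -/
def xqoliftP (d : Type) [DecidableEq d] (R : Type) [CommRing R] (h : L) : Matrix (L × d) (L × d) R :=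
  Matrix.of fun a b => if a = (h * b.1, b.2) then 1 else 0

theorem xqolift_mulP {R : Type} [CommRing R] {m : Type} (X : Matrix m (L × d) R) (h : L) (a : m)
    (b : L × d) : (X * xqoliftP d R h : Matrix m (L × d) R) a b = X a (h * b.1, b.2) := by
  simp [Matrix.mul_apply, xqoliftP]

theorem xqolift_Pmul {R : Type} [CommRing R] {m : Type} (X : Matrix (L × d) m R) (h : L)
    (a : L × d) (b : m) : (xqoliftP d R h * X : Matrix (L × d) m R) a b = X (h⁻¹ * a.1, a.2) b := by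
  rw [Matrix.mul_apply, Finset.sum_eq_single (h⁻¹ * a.1, a.2)]
  · simp [xqoliftP]
  · intro c _ hc
    rw [xqoliftP, Matrix.of_apply, if_neg, zero_mul]
    rintro rfl
    exact hc (by simp)
  · simp

omit [Fintype L] [Fintype d] in
theorem xqolift_one {R : Type} [CommRing R] :
    (xqoliftP d R (1 : L) : Matrix (L × d) (L × d) R) = 1 := by
  ext a b
  simp [xqoliftP, Matrix.one_apply]

theorem xqolift_mul {R : Type} [CommRing R] (g h : L) :
    (xqoliftP d R (g * h) : Matrix (L × d) (L × d) R) = xqoliftP d R g * xqoliftP d R h := by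
  ext a b
  rw [xqolift_mulP]
  simp [xqoliftP, mul_assoc]

omit [Fintype L] [Fintype d] in
theorem xqolift_map (h : L) :
    (xqoliftP d Oo h : Matrix (L × d) (L × d) Oo).map res = xqoliftP d Kp h := by
  ext a b
  simp only [xqoliftP, Matrix.map_apply, Matrix.of_apply]
  split_ifs <;> simp

theorem xqolift_aux (h13 : ¬ 13 ∣ Nat.card L) (s : L →* Matrix d d Kp) :
    ∃ A : L →* Matrix d d Oo, ∀ l, (A l).map res = s l := by
  obtain ⟨u, hu⟩ := (unit_nat _ h13).exists_left_inv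
  have hu' : res u * (Fintype.card L : Kp) = 1 := by
    have := congrArg res hu
    rwa [map_mul, map_natCast, map_one, Nat.card_eq_fintype_card] at this
  choose t ht using fun l k k' => IsLocalRing.residue_surjective (R := Oo) (s l k k')
  let x : Matrix (L × d) (L × d) Oo := Matrix.of fun a b => u * t (a.1⁻¹ * b.1) a.2 b.2
  let i0 : Matrix (L × d) d Kp := Matrix.of fun a k => res u * s a.1⁻¹ a.2 k
  let p0 : Matrix d (L × d) Kp := Matrix.of fun k b => s b.1 k b.2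
  have h3 : ∀ h : L, p0 * xqoliftP d Kp h * i0 = s h := by
    intro h
    ext k k'
    rw [Matrix.mul_apply, Fintype.sum_prod_type]
    have : ∀ g : L, ∑ j : d, (p0 * xqoliftP d Kp h : Matrix d (L × d) Kp) k (g, j) * i0 (g, j) k'
        = res u * s h k k' := by
      intro g
      have e : s h = s (h * g) * s g⁻¹ := by rw [← map_mul, mul_inv_cancel_right]
      rw [e, Matrix.mul_apply, Finset.mul_sum]
      refine Finset.sum_congr rfl fun j _ => ?_
      rw [xqolift_mulP]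
      simp only [p0, i0, Matrix.of_apply]
      ring
    rw [Finset.sum_congr rfl fun g _ => this g, Finset.sum_const, Finset.card_univ, nsmul_eq_mul,
      ← mul_assoc, mul_comm (Fintype.card L : Kp), hu', one_mul]
  have h1 : p0 * i0 = 1 := by
    have := h3 1
    rwa [xqolift_one, Matrix.mul_one, map_one] at this
  have h2 : i0 * p0 = x.map res := by
    ext a b
    simp only [Matrix.mul_apply, Matrix.map_apply, x, i0, p0, Matrix.of_apply, map_mul, ht,
      Finset.mul_sum, mul_assoc]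
  obtain ⟨E, hE, hE1, hE2⟩ := oidem x (by
    rw [← h2, Matrix.mul_assoc, ← Matrix.mul_assoc p0, h1, Matrix.one_mul])
  obtain ⟨i, p, e1, e2, e3, e4⟩ := ofact E hE i0 p0 h1 (h2.trans hE1.symm)
  have hc : ∀ h : L, xqoliftP d Oo h * E = E * xqoliftP d Oo h := by
    intro h
    refine hE2 _ ?_
    ext a b
    rw [xqolift_mulP, xqolift_Pmul]
    simp [x, mul_assoc]
  have hp : p * E = p := by rw [← e2, ← Matrix.mul_assoc, e1, Matrix.one_mul]
  refine ⟨⟨⟨fun h => p * xqoliftP d Oo h * i, ?_⟩, ?_⟩, ?_⟩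
  · rw [xqolift_one, Matrix.mul_one, e1]
  · intro g h
    calc p * xqoliftP d Oo (g * h) * i = p * E * xqoliftP d Oo g * xqoliftP d Oo h * i := by
          rw [hp, xqolift_mul, ← Matrix.mul_assoc]
      _ = p * (xqoliftP d Oo g * E) * xqoliftP d Oo h * i := by
          rw [hc, ← Matrix.mul_assoc]
      _ = _ := by
          rw [← e2]
          simp only [Matrix.mul_assoc]
  · intro h
    change (p * xqoliftP d Oo h * i).map res = s h
    rw [Matrix.map_mul, Matrix.map_mul, e3, e4, xqolift_map, h3]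

end

theorem olift {M : Type} [AddCommGroup M] [Module Kp M] [Module.Finite Kp M] {L : Type} [Group L] [Finite L] (h13 : ¬ 13 ∣ Nat.card L)
    (σ : Representation Kp L M) {n : ℕ} (b : Module.Basis (Fin n) Kp M) :
    ∃ A : L →* Matrix (Fin n) (Fin n) Oo, ∀ l, (A l).map res = LinearMap.toMatrix b b (σ l) := by
  classical
  have := Fintype.ofFinite L
  exact xqolift_aux h13 ((LinearMap.toMatrixAlgEquiv b).toAlgHom.toMonoidHom.comp σ)

theorem xqolift_scale {n : ℕ} (w : Fin n → ℂ) (hw : w ≠ 0) :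
    ∃ (c : ℂ) (w' : Fin n → Oo) (k : Fin n), (fun j => (w' j : ℂ)) = c • w ∧ w' k = 1 := by
  obtain ⟨k1, hk1⟩ := Function.ne_iff.1 hw
  obtain ⟨k, -, hk⟩ := Finset.exists_max_image Finset.univ (fun j => Oo.valuation (w j))
    ⟨k1, Finset.mem_univ _⟩
  have h0 : w k ≠ 0 := by
    intro h
    have := hk k1 (Finset.mem_univ _)
    rw [h, map_zero, le_zero_iff, map_eq_zero] at this
    exact hk1 this
  have hm : ∀ j, (w k)⁻¹ * w j ∈ Oo := by
    intro j
    rw [← Oo.valuation_le_one_iff, map_mul, map_inv₀]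
    have h1 : 0 < Oo.valuation (w k) := zero_lt_iff.2 (by rwa [Ne, map_eq_zero])
    rw [inv_mul_le_iff₀ h1, mul_one]
    exact hk j (Finset.mem_univ _)
  exact ⟨(w k)⁻¹, fun j => ⟨_, hm j⟩, k, rfl, Subtype.ext (inv_mul_cancel₀ h0)⟩

theorem oirr {M : Type} [AddCommGroup M] [Module Kp M] [Module.Finite Kp M] {L : Type} [Group L] (σ : Representation Kp L M) (hσ : IrrF σ)
    {n : ℕ} (b : Module.Basis (Fin n) Kp M) (A : L →* Matrix (Fin n) (Fin n) Oo)
    (hA : ∀ l, (A l).map res = LinearMap.toMatrix b b (σ l)) (W : Submodule ℂ (Fin n → ℂ))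
    (hW : ∀ l, ∀ w ∈ W, ((A l).map Oo.subtype).mulVec w ∈ W) : W = ⊥ ∨ W = ⊤ := by
  classical
  let W0 : Submodule Kp M :=
    { carrier := {v | ∃ w : Fin n → Oo, (fun j => (w j : ℂ)) ∈ W ∧ ∀ k, b.repr v k = res (w k)}
      zero_mem' := ⟨0, W.zero_mem, fun k => by simp⟩
      add_mem' := by
        rintro v v' ⟨w, h1, h2⟩ ⟨w', h1', h2'⟩
        exact ⟨w + w', W.add_mem h1 h1', fun k => by simp [h2, h2']⟩
      smul_mem' := by
        rintro c v ⟨w, h1, h2⟩
        obtain ⟨c', rfl⟩ := IsLocalRing.residue_surjective (R := Oo) c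
        exact ⟨c' • w, W.smul_mem (c' : ℂ) h1, fun k => by simp [h2]⟩ }
  have hinv : ∀ l, ∀ v ∈ W0, σ l v ∈ W0 := by
    rintro l v ⟨w, h1, h2⟩
    refine ⟨(A l).mulVec w, ?_, fun k => ?_⟩
    · have e : (fun j => (((A l).mulVec w j : Oo) : ℂ))
          = ((A l).map Oo.subtype).mulVec fun j => (w j : ℂ) :=
        funext fun j => RingHom.map_mulVec Oo.subtype (A l) w j
      rw [e]
      exact hW l _ h1
    · rw [RingHom.map_mulVec, hA, ← LinearMap.toMatrix_mulVec_repr b b (σ l) v]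
      congr 2
      exact funext h2
  by_cases hb : W = ⊥
  · exact Or.inl hb
  right
  obtain ⟨w, hw, hw0⟩ := (Submodule.ne_bot_iff W).1 hb
  obtain ⟨c, w', k, e1, e2⟩ := xqolift_scale w hw0
  have hm : b.equivFun.symm (fun j => res (w' j)) ∈ W0 := by
    refine ⟨w', e1 ▸ W.smul_mem c hw, fun j => ?_⟩
    rw [← Module.Basis.equivFun_apply, LinearEquiv.apply_symm_apply]
  rcases hσ.2 W0 hinv with h0 | h0
  · exfalso
    rw [h0, Submodule.mem_bot, LinearEquiv.map_eq_zero_iff] at hm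
    have := congrFun hm k
    rw [e2, map_one] at this
    exact one_ne_zero this
  have hk : ∀ k, b k ∈ W0 := fun k => h0 ▸ Submodule.mem_top
  choose z hz1 hz2 using hk
  let S : Matrix (Fin n) (Fin n) Oo := Matrix.of fun j k => z k j
  have hS : S.map res = 1 := by
    ext j k
    change res (z k j) = _
    rw [← hz2, b.repr_self, Finsupp.single_apply, Matrix.one_apply]
    simp [eq_comm]
  have hd : IsUnit (S.map Oo.subtype).det := by
    have := (det_unit S hS).map Oo.subtype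
    rwa [RingHom.map_det] at this
  rw [eq_top_iff]
  intro y _
  have e : y = ∑ k, ((S.map Oo.subtype)⁻¹.mulVec y k) • fun j => (z k j : ℂ) := by
    conv_lhs => rw [← Matrix.one_mulVec y, ← Matrix.mul_nonsing_inv _ hd, ← Matrix.mulVec_mulVec]
    ext j
    rw [Finset.sum_apply, Matrix.mulVec, dotProduct]
    refine Finset.sum_congr rfl fun k _ => ?_
    simp [S, mul_comm]
  rw [e]
  exact W.sum_mem fun k _ => W.smul_mem _ (hz1 k)

end Pool.Agent.N9181

end

section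

namespace Pool.Agent.N9181

open scoped commutatorElement

theorem xqhalla_coc {A H : Type} [CommGroup A] [Group H] [Finite H] (φ : H → A →* A) (c : H → A)
    (hc : ∀ h h', c (h * h') = φ h (c h') * c h) (hn : (Nat.card A).Coprime (Nat.card H)) :
    ∃ w, ∀ h, φ h w * c h = w := by
  have := Fintype.ofFinite H
  obtain ⟨w, hw⟩ := (powCoprime hn).surjective (∏ h, c h)
  have hw' : w ^ Nat.card H = ∏ h, c h := hw
  refine ⟨w, fun h => (powCoprime hn).injective ?_⟩
  change (φ h w * c h) ^ Nat.card H = w ^ Nat.card H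
  rw [mul_pow, ← map_pow, hw', map_prod, Nat.card_eq_fintype_card, ← Finset.card_univ,
    ← Finset.prod_const, ← Finset.prod_mul_distrib, ← Equiv.prod_comp (Equiv.mulLeft h) c]
  exact Finset.prod_congr rfl fun h' _ => (hc h h').symm

theorem xqhalla_ab {G : Type} [Group G] [Finite G] (Z L H : Subgroup G) [hZ : Z.Normal]
    (hp : IsPGroup 13 Z) (hc : ∀ a ∈ Z, ∀ b ∈ Z, a * b = b * a) (hi : ∀ x ∈ L, x ∈ Z → x = 1)
    (hd : ∀ h ∈ H, ∃ z ∈ Z, z⁻¹ * h ∈ L) (hH : ¬ 13 ∣ Nat.card H) :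
    ∃ x ∈ Z, ∀ h ∈ H, x * h * x⁻¹ ∈ L := by
  choose c c1 c2 using fun h : H => hd h h.2
  have hu : ∀ (g : G), ∀ z ∈ Z, ∀ z' ∈ Z, z⁻¹ * g ∈ L → z'⁻¹ * g ∈ L → z = z' := by
    intro g z hz z' hz' h1 h2
    have h3 := L.mul_mem h1 (L.inv_mem h2)
    rw [mul_inv_rev, inv_inv, mul_assoc, mul_inv_cancel_left] at h3
    exact inv_mul_eq_one.1 (hi _ h3 (Z.mul_mem (Z.inv_mem hz) hz'))
  obtain ⟨k, hk⟩ := IsPGroup.iff_card.1 hp
  let _ : CommGroup Z := { (inferInstance : Group Z) with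
    mul_comm := fun a b => Subtype.ext (hc a a.2 b b.2) }
  obtain ⟨w, hw⟩ := xqhalla_coc (A := Z) (H := H)
    (fun h => (MulAut.conjNormal (h : G) : MulAut Z).toMonoidHom) (fun h => ⟨c h, c1 h⟩)
    (fun h h' => Subtype.ext (hu _ _ (c1 _) _ (Subtype.prop _) (c2 _) (by
      have h1 := L.mul_mem (c2 h) (c2 h')
      change ((h : G) * c h' * (h : G)⁻¹ * c h)⁻¹ * (h * h') ∈ L
      convert h1 using 1
      group)))
    (by rw [hk]; exact ((Nat.Prime.coprime_iff_not_dvd fact13.out).2 hH).pow_left k)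
  refine ⟨w⁻¹, Z.inv_mem w.2, fun h hh => ?_⟩
  have h1 : h * w * h⁻¹ * c ⟨h, hh⟩ = w := congrArg Subtype.val (hw ⟨h, hh⟩)
  have h2 : (c ⟨h, hh⟩)⁻¹ * h ∈ L := c2 ⟨h, hh⟩
  rw [hc _ (hZ.conj_mem _ w.2 h) _ (c1 _)] at h1
  have h3 : c ⟨h, hh⟩ = w * (h * w * h⁻¹)⁻¹ := eq_mul_inv_of_mul_eq h1
  rw [h3, mul_inv_rev, inv_inv, hc _ (hZ.conj_mem _ w.2 h) _ (Z.inv_mem w.2)] at h2
  convert h2 using 1
  group

theorem xqhalla_ind (n : ℕ) : ∀ (G : Type) [Group G] [Finite G] (Q L H : Subgroup G),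
    Nat.card G = n → Q.Normal → IsPGroup 13 Q → (∀ x ∈ L, x ∈ Q → x = 1) →
    (∀ g : G, ∃ q ∈ Q, ∃ l ∈ L, g = q * l) → ¬ 13 ∣ Nat.card H →
    ∃ x ∈ Q, ∀ h ∈ H, x * h * x⁻¹ ∈ L := by
  induction n using Nat.strong_induction_on with
  | _ n ih =>
  intro G _ _ Q L H hn hQ hp hi hd hH
  rcases subsingleton_or_nontrivial Q with hs | hs
  · refine ⟨1, Q.one_mem, fun h _ => ?_⟩
    obtain ⟨q, hq, l, hl, e⟩ := hd h
    have h1 : q = 1 := congrArg Subtype.val (Subsingleton.elim (⟨q, hq⟩ : Q) 1)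
    rwa [e, h1, one_mul, one_mul, inv_one, mul_one]
  let Z : Subgroup G := (Subgroup.center Q).map Q.subtype
  have hZQ : Z ≤ Q := Subgroup.map_subtype_le _
  have hZ : 1 < Nat.card Z := by
    have := hp.center_nontrivial
    rw [Subgroup.card_map_of_injective Q.subtype_injective]
    exact Finite.one_lt_card
  let π := QuotientGroup.mk' Z
  have hπ : Function.Surjective π := QuotientGroup.mk'_surjective Z
  obtain ⟨_, ⟨x, hx, rfl⟩, h1⟩ := ih (Nat.card (G ⧸ Z)) (by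
      rw [← hn, Subgroup.card_eq_card_quotient_mul_card_subgroup Z]
      exact lt_mul_of_one_lt_right Nat.card_pos hZ) (G ⧸ Z) (Q.map π) (L.map π) (H.map π) rfl
    (hQ.map π hπ) (hp.map π) (by
      rintro _ ⟨l, hl, rfl⟩ ⟨q, hq, e⟩
      have h1 : q⁻¹ * l ∈ Z := QuotientGroup.eq.1 e
      have h2 := Q.mul_mem hq (hZQ h1)
      rw [mul_inv_cancel_left] at h2
      rw [hi l hl h2, map_one])
    (fun g => by
      obtain ⟨g, rfl⟩ := hπ g
      obtain ⟨q, hq, l, hl, e⟩ := hd g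
      exact ⟨π q, ⟨q, hq, rfl⟩, π l, ⟨l, hl, rfl⟩, by rw [e, map_mul]⟩)
    fun h => hH (h.trans (Subgroup.card_map_dvd H π))
  obtain ⟨y, hy, h2⟩ := xqhalla_ab Z L (H.map (MulAut.conj x).toMonoidHom) (hp.to_le hZQ)
    (by
      rintro _ ⟨a, ha, rfl⟩ _ ⟨b, -, rfl⟩
      exact congrArg Subtype.val (Subgroup.mem_center_iff.1 ha b).symm)
    (fun z hz hz' => hi z hz (hZQ hz'))
    (by
      rintro _ ⟨h, hh, rfl⟩
      obtain ⟨l, hl, e⟩ := h1 (π h) ⟨h, hh, rfl⟩
      rw [← map_mul, ← map_inv, ← map_mul] at e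
      refine ⟨x * h * x⁻¹ * l⁻¹, ?_, ?_⟩
      · rw [← QuotientGroup.eq_one_iff]
        change π _ = 1
        rw [map_mul, ← e, map_inv, mul_inv_cancel]
      · change (x * h * x⁻¹ * l⁻¹)⁻¹ * (x * h * x⁻¹) ∈ L
        rwa [mul_inv_rev, inv_inv, inv_mul_cancel_right])
    fun h => hH (h.trans (Subgroup.card_map_dvd H _))
  refine ⟨y * x, Q.mul_mem (hZQ hy) hx, fun h hh => ?_⟩
  have h3 : y * (x * h * x⁻¹) * y⁻¹ ∈ L := h2 _ ⟨h, hh, rfl⟩
  convert h3 using 1
  group

theorem rel_int {G : Type} [Group G] [Finite G] (R Q L : Subgroup G) (h : RQ R Q) (hle : R ≤ L)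
    (hc : ¬ 13 ∣ R.relIndex L) : ∀ x ∈ L, x ∈ Q → x ∈ R := by
  intro x hx hq
  obtain ⟨a, ha⟩ := h.pw x hq
  have := h.nR
  have h1 : (⟨x, hx⟩ : L) ^ (13 ^ a) ∈ R.subgroupOf L := ha
  have h2 : (⟨x, hx⟩ : L) ^ R.relIndex L ∈ R.subgroupOf L := (R.subgroupOf L).pow_index_mem _
  rw [← QuotientGroup.eq_one_iff, QuotientGroup.mk_pow] at h1 h2
  have h3 : (13 ^ a).Coprime (R.relIndex L) :=
    ((Nat.Prime.coprime_iff_not_dvd fact13.out).2 hc).pow_left a
  exact (QuotientGroup.eq_one_iff (N := R.subgroupOf L) (⟨x, hx⟩ : L)).1 (orderOf_eq_one_iff.1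
    (Nat.eq_one_of_dvd_coprimes h3 (orderOf_dvd_of_pow_eq_one h1) (orderOf_dvd_of_pow_eq_one h2)))

theorem compl_conj {G : Type} [Group G] [Finite G] (Q L H : Subgroup G) (hQ : Q.Normal) (hp : IsPGroup 13 Q)
    (hi : ∀ x ∈ L, x ∈ Q → x = 1) (hd : ∀ g : G, ∃ q ∈ Q, ∃ l ∈ L, g = q * l)
    (hH : ¬ 13 ∣ Nat.card H) : ∃ x ∈ Q, ∀ h ∈ H, x * h * x⁻¹ ∈ L := by
  exact xqhalla_ind _ G Q L H rfl hQ hp hi hd hH

end Pool.Agent.N9181

end

section

namespace Pool.Agent.N9181

open scoped commutatorElement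

theorem xqoct_trace {n : ℕ} (A A' : Matrix (Fin n) (Fin n) Oo) (L : ℕ)
    (hL : ¬ 13 ∣ L) (hA : A ^ L = 1) (hA' : A' ^ L = 1) (P : Matrix (Fin n) (Fin n) Kp)
    (hP : P.det ≠ 0) (hc : A.map res * P = P * A'.map res) : A.trace = A'.trace := by
  choose f hf using (IsLocalRing.residue_surjective : Function.Surjective res)
  have hP0 : (P.map f).map res = P := by ext i j; exact hf _
  generalize P.map f = P0 at hP0
  set Q : Matrix (Fin n) (Fin n) Oo := ∑ k ∈ Finset.range L, A ^ k * P0 * A' ^ (L - k) with hQ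
  have h1 : A * Q = Q * A' := by
    have e1 : A * Q = ∑ k ∈ Finset.range L, A ^ (k + 1) * P0 * A' ^ (L + 1 - (k + 1)) := by
      rw [hQ, Finset.mul_sum]
      refine Finset.sum_congr rfl fun k _ => ?_
      rw [Nat.add_sub_add_right, pow_succ' A]
      simp only [mul_assoc]
    have e2 : Q * A' = ∑ k ∈ Finset.range L, A ^ k * P0 * A' ^ (L + 1 - k) := by
      rw [hQ, Finset.sum_mul]
      refine Finset.sum_congr rfl fun k hk => ?_
      have : L + 1 - k = L - k + 1 := by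
        have := Finset.mem_range.1 hk
        omega
      rw [this, pow_succ A', mul_assoc _ (A' ^ (L - k))]
    have e3 := Finset.sum_range_succ (fun k => A ^ k * P0 * A' ^ (L + 1 - k)) L
    have e4 := Finset.sum_range_succ' (fun k => A ^ k * P0 * A' ^ (L + 1 - k)) L
    rw [e1, e2]
    have e5 : A ^ L * P0 * A' ^ (L + 1 - L) = A ^ 0 * P0 * A' ^ (L + 1 - 0) := by
      rw [hA, pow_zero, Nat.sub_zero, pow_succ A', hA', Nat.add_sub_cancel_left, pow_one,
        one_mul A']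
    rw [e3, e5] at e4
    exact (add_right_cancel e4).symm
  have hm : ∀ k, (A.map res) ^ k * P = P * (A'.map res) ^ k := by
    intro k
    induction k with
    | zero => simp
    | succ k ih => rw [pow_succ', mul_assoc, ih, ← mul_assoc, hc, mul_assoc, ← pow_succ']
  have hT : (A'.map res) ^ L = 1 := by
    have := congrArg res.mapMatrix hA'
    rw [map_pow, map_one] at this
    exact this
  have h2 : res.mapMatrix Q = (L : Kp) • P := by
    rw [hQ, map_sum]
    have : ∀ k ∈ Finset.range L, res.mapMatrix (A ^ k * P0 * A' ^ (L - k)) = P := by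
      intro k hk
      rw [map_mul, map_mul, map_pow, map_pow]
      simp only [RingHom.mapMatrix_apply]
      rw [hP0, hm, mul_assoc, ← pow_add, Nat.add_sub_cancel' (Finset.mem_range.1 hk).le, hT,
        mul_one]
    rw [Finset.sum_congr rfl this, Finset.sum_const, Finset.card_range, Nat.cast_smul_eq_nsmul]
  have h3 : IsUnit Q.det := by
    apply unit_of_res
    rw [RingHom.map_det, h2, Matrix.det_smul]
    refine mul_ne_zero (pow_ne_zero _ ?_) hP
    exact fun h => hL ((CharP.cast_eq_zero_iff Kp 13 L).1 h)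
  have h4 : A = Q * A' * Q⁻¹ := by
    rw [← h1, mul_assoc, Matrix.mul_nonsing_inv _ h3, mul_one]
  rw [h4, Matrix.trace_mul_comm, ← mul_assoc, Matrix.nonsing_inv_mul _ h3, one_mul]

theorem xqoct_split {M : Type} [AddCommGroup M] [Module Kp M] {n : ℕ}
    (b : Module.Basis (Fin n) Kp M) (e : Module.End Kp M) (E : Matrix (Fin n) (Fin n) Oo)
    (hE : E * E = E) (he : E.map res = LinearMap.toMatrix b b e) {d : ℕ}
    (c : Module.Basis (Fin d) Kp (LinearMap.range e)) :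
    (∀ w : LinearMap.range e, e w = w) ∧
    ∃ (I : Matrix (Fin n) (Fin d) Oo) (P : Matrix (Fin d) (Fin n) Oo), P * I = 1 ∧ I * P = E ∧
      I.map res = LinearMap.toMatrix c b (LinearMap.range e).subtype ∧
      P.map res = LinearMap.toMatrix b c e.rangeRestrict := by
  have hee : e * e = e := by
    apply (LinearMap.toMatrix b b).injective
    rw [LinearMap.toMatrix_mul, ← he, ← Matrix.map_mul, hE]
  have hw : ∀ w : LinearMap.range e, e w = w := by
    rintro ⟨_, v, rfl⟩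
    exact congrArg (fun f : Module.End Kp M => f v) hee
  refine ⟨hw, ofact E hE _ _ ?_ ?_⟩
  · rw [← LinearMap.toMatrix_comp, ← LinearMap.toMatrix_id c]
    congr 1
    ext w
    exact hw w
  · rw [← LinearMap.toMatrix_comp, he]
    rfl

theorem isCt_unique {M : Type} [AddCommGroup M] [Module Kp M] [Module.Finite Kp M] (a : Module.End Kp M) (x y : ℂ) (hx : IsCt a x) (hy : IsCt a y) :
    x = y := by
  obtain ⟨n, b, A, N, hN, hA, hm, rfl⟩ := hx
  obtain ⟨n', b', A', N', hN', hA', hm', rfl⟩ := hy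
  have hn : n = n' := by
    have h1 := Module.finrank_eq_card_basis b
    have h2 := Module.finrank_eq_card_basis b'
    rw [Fintype.card_fin] at h1 h2
    omega
  subst hn
  congr 1
  refine xqoct_trace A A' (N * N') ?_ ?_ ?_ (LinearMap.toMatrix b' b LinearMap.id) ?_ ?_
  · intro h
    rcases (Nat.Prime.dvd_mul fact13.out).1 h with h | h
    · exact hN h
    · exact hN' h
  · rw [pow_mul, hA, one_pow]
  · rw [mul_comm, pow_mul, hA', one_pow]
  · have : LinearMap.toMatrix b' b LinearMap.id * LinearMap.toMatrix b b' LinearMap.id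
        = (1 : Matrix (Fin n) (Fin n) Kp) := by
      rw [← LinearMap.toMatrix_comp, LinearMap.id_comp, LinearMap.toMatrix_id]
    exact (Matrix.isUnit_det_of_right_inverse this).ne_zero
  · rw [hm, hm', ← LinearMap.toMatrix_comp, ← LinearMap.toMatrix_comp, LinearMap.id_comp,
      LinearMap.comp_id]

theorem isCt_conj {M : Type} [AddCommGroup M] [Module Kp M] [Module.Finite Kp M] {M' : Type} [AddCommGroup M'] [Module Kp M'] (e : M ≃ₗ[Kp] M')
    (a : Module.End Kp M) (a' : Module.End Kp M') (h : ∀ v, e (a v) = a' (e v)) (x : ℂ)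
    (hx : IsCt a x) : IsCt a' x := by
  obtain ⟨n, b, A, N, hN, hA, hm, ht⟩ := hx
  refine ⟨n, b.map e, A, N, hN, hA, ?_, ht⟩
  rw [hm]
  ext i j
  rw [LinearMap.toMatrix_apply, LinearMap.toMatrix_apply, Module.Basis.map_apply, ← h]
  simp

theorem oct_idem {M : Type} [AddCommGroup M] [Module Kp M] [Module.Finite Kp M] {n : ℕ} (b : Module.Basis (Fin n) Kp M) (a e : Module.End Kp M)
    (A E : Matrix (Fin n) (Fin n) Oo) (N : ℕ) (hN : ¬ 13 ∣ N) (hA : A ^ N = 1)
    (hE : E * E = E) (hAE : A * E = E * A) (ha : A.map res = LinearMap.toMatrix b b a)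
    (he : E.map res = LinearMap.toMatrix b b e) (s : Module.End Kp (LinearMap.range e))
    (hs : ∀ w, (s w : M) = a w) : IsCt s (((A * E).trace : Oo) : ℂ) := by
  let c := Module.finBasis Kp (LinearMap.range e)
  obtain ⟨hw, I, P, hPI, hIP, hI, hP⟩ := xqoct_split b e E hE he c
  have hAI : I * (P * A * I) = A * I := by
    rw [← Matrix.mul_assoc, ← Matrix.mul_assoc, hIP, ← hAE, ← hIP, Matrix.mul_assoc,
      Matrix.mul_assoc, hPI, Matrix.mul_one]
  have hpow : ∀ k : ℕ, (P * A * I) ^ k = P * A ^ k * I := by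
    intro k
    induction k with
    | zero => rw [pow_zero, pow_zero, Matrix.mul_one, hPI]
    | succ k ih =>
      rw [pow_succ (P * A * I), ih, Matrix.mul_assoc, hAI, pow_succ A]
      simp only [Matrix.mul_assoc]
  have hres : e.rangeRestrict ∘ₗ a ∘ₗ (LinearMap.range e).subtype = s := by
    ext w
    show e (a w) = s w
    rw [← hs, hw]
  refine ⟨_, c, P * A * I, N, hN, ?_, ?_, ?_⟩
  · rw [hpow, hA, Matrix.mul_one, hPI]
  · rw [Matrix.map_mul, Matrix.map_mul, hP, ha, hI, Matrix.mul_assoc,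
      ← LinearMap.toMatrix_comp, ← LinearMap.toMatrix_comp, hres]
  · rw [Matrix.mul_assoc, Matrix.trace_mul_comm, ← hIP, Matrix.mul_assoc]

theorem oct_rank {M : Type} [AddCommGroup M] [Module Kp M] [Module.Finite Kp M] {n : ℕ} (b : Module.Basis (Fin n) Kp M) (e : Module.End Kp M)
    (E : Matrix (Fin n) (Fin n) Oo) (hE : E * E = E)
    (he : E.map res = LinearMap.toMatrix b b e) :
    ((E.trace : Oo) : ℂ) = (Module.finrank Kp (LinearMap.range e) : ℂ) := by
  obtain ⟨-, I, P, hPI, hIP, -, -⟩ :=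
    xqoct_split b e E hE he (Module.finBasis Kp (LinearMap.range e))
  rw [← hIP, Matrix.trace_mul_comm, hPI, Matrix.trace_one, Fintype.card_fin]
  exact map_natCast Oo.subtype _

end Pool.Agent.N9181

end

section

namespace Pool.Agent.N9181

open scoped commutatorElement

theorem xqcana_det {A : Type} [Ring A] [Algebra ℂ A] [Module.Finite ℂ A] (e : A) (he : e * e = e)
    (c : ℂ) : dl e (c • e) = c ^ bd e := by
  have hW : ∀ x ∈ LinearMap.range (LinearMap.mulLeft ℂ e),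
      LinearMap.mulLeft ℂ (c • e + (1 - e)) x = c • x := by
    rintro _ ⟨y, rfl⟩
    simp only [LinearMap.mulLeft_apply, add_mul, sub_mul, smul_mul_assoc, ← mul_assoc, he, one_mul,
      sub_self, add_zero]
  have hle : LinearMap.range (LinearMap.mulLeft ℂ e) ≤ (LinearMap.range
      (LinearMap.mulLeft ℂ e)).comap (LinearMap.mulLeft ℂ (c • e + (1 - e))) := fun x hx => by
    rw [Submodule.mem_comap, hW x hx]
    exact Submodule.smul_mem _ _ hx
  rw [dl, LinearMap.det_eq_det_mul_det _ _ hle]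
  have h1 : (LinearMap.mulLeft ℂ (c • e + (1 - e))).restrict
      (p := LinearMap.range (LinearMap.mulLeft ℂ e)) (q := LinearMap.range (LinearMap.mulLeft ℂ e))
      hle = c • LinearMap.id := by
    ext x
    exact hW x x.2
  have h2 : Submodule.mapQ _ _ (LinearMap.mulLeft ℂ (c • e + (1 - e))) hle = LinearMap.id := by
    ext x
    refine (Submodule.Quotient.eq _).2 ⟨c • x - x, ?_⟩
    simp only [LinearMap.mulLeft_apply, add_mul, sub_mul, mul_sub, smul_mul_assoc, mul_smul_comm,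
      one_mul]
    abel
  rw [h1, h2, LinearMap.det_smul, LinearMap.det_id, LinearMap.det_id, mul_one, mul_one, bd]

theorem xqcana_cop {m n : ℕ} (hm : ¬ 13 ∣ m) (hn : ¬ 13 ∣ n) (s : ℕ) :
    (m * n).Coprime (13 ^ s) :=
  ((Nat.Prime.coprime_iff_not_dvd fact13.out).2 fun h =>
    ((Nat.Prime.dvd_mul fact13.out).1 h).elim hm hn).symm.pow_right s

theorem dl_mul {A : Type} [Ring A] [Algebra ℂ A] [Module.Finite ℂ A] (e a a' : A) (he : PC e) (ha : a * e = a) (ha' : a' * e = a') :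
    dl e (a * a') = dl e a * dl e a' := by
  have h : a * a' + (1 - e) = (a + (1 - e)) * (a' + (1 - e)) := by
    simp only [add_mul, mul_add, mul_sub, sub_mul, mul_one, one_mul, ha, he.2.1, he.2.2.1 a', ha']
    abel
  rw [dl, dl, dl, h, LinearMap.mulLeft_mul, LinearMap.det_comp]

theorem dl_smul {A : Type} [Ring A] [Algebra ℂ A] [Module.Finite ℂ A] (e a : A) (he : PC e) (ha : a * e = a) (c : ℂ) :
    dl e (c • a) = c ^ bd e * dl e a ∧ dl e e = 1 := by
  have h1 := xqcana_det e he.2.1 1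
  rw [one_smul, one_pow] at h1
  refine ⟨?_, h1⟩
  rw [← xqcana_det e he.2.1 c, ← dl_mul e _ a he (by rw [smul_mul_assoc, he.2.1]) ha,
    smul_mul_assoc, he.2.2.1, ha]

theorem can_scal {A : Type} [Ring A] [Algebra ℂ A] (e a a' b' : A) (he : PC e) (ψ : A → A) (ha : a * e = a)
    (hb : a' * b' = e) (hb' : b' * a' = e) (h : ∀ x, a * x = ψ x * a)
    (h' : ∀ x, a' * x = ψ x * a') (ha' : a' * e = a') : ∃ c : ℂ, a = c • a' := by
  have hea : e * a = a := by rw [he.2.2.1, ha]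
  obtain ⟨c, hc⟩ := he.2.2.2 (b' * a) fun x => by
    calc b' * a * x = b' * (ψ x * a') * b' * a := by
          rw [mul_assoc, h, ← hea, ← hb]; simp only [mul_assoc]; rw [← mul_assoc a', hb, hea,
            ← mul_assoc a', hb, hea]
      _ = x * (b' * (e * a)) := by
          rw [← h', ← mul_assoc b', hb', he.2.2.1 x, mul_assoc x, he.2.2.1 b']
          simp only [mul_assoc]
      _ = x * (b' * a) := by rw [hea]
  refine ⟨c, ?_⟩
  rw [mul_assoc, ha] at hc
  rw [← hea, ← hb, mul_assoc, hc, mul_smul_comm, ha']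

theorem can_unique {A : Type} [Ring A] [Algebra ℂ A] [Module.Finite ℂ A]
    {G : Type} [Group G] [Finite G] {R : Subgroup G} [R.Normal]
    (ι : R →* A) (φ : G →* (A ≃ₐ[ℂ] A)) (hA : AD ι φ) (h13 : ¬ 13 ∣ Nat.card R) (s : ℕ) (e : A) (he : PC e) (hD : ¬ 13 ∣ bd e) (q : G)
    (hq : q ^ (13 ^ s) ∈ R) (a a' : A) (ha : Can ι φ s e q a) (ha' : Can ι φ s e q a') :
    a = a' := by
  obtain ⟨b', hb, hb'⟩ := ha'.inv
  obtain ⟨c, hc⟩ := can_scal e a a' b' he (φ q) ha.sup hb hb' ha.cnj ha'.cnj ha'.sup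
  have h1 := ha.det
  rw [hc, (dl_smul e a' he ha'.sup c).1, mul_pow, ha'.det, mul_one, ← pow_mul] at h1
  have h2 := ha.pw ⟨_, hq⟩ rfl
  rw [hc, smul_pow, smul_mul_assoc, ha'.pw ⟨_, hq⟩ rfl] at h2
  have h3 : c ^ 13 ^ s = 1 := by
    have h4 := congrArg (ι (⟨_, hq⟩ : R)⁻¹ * ·) h2
    simp only [mul_smul_comm, ← mul_assoc, ← map_mul, inv_mul_cancel, map_one, one_mul] at h4
    exact smul_left_injective ℂ he.1 (h4.trans (one_smul ℂ e).symm)
  rw [hc, (pow_eq_one_iff_of_coprime (xqcana_cop hD h13 s)).1 ⟨h1, h3⟩, one_smul]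

theorem can_exists {A : Type} [Ring A] [Algebra ℂ A] [Module.Finite ℂ A]
    {G : Type} [Group G] [Finite G] {R : Subgroup G} [R.Normal]
    (ι : R →* A) (φ : G →* (A ≃ₐ[ℂ] A)) (hA : AD ι φ) (h13 : ¬ 13 ∣ Nat.card R) (s : ℕ) (e : A) (he : PC e) (hD : ¬ 13 ∣ bd e) (hS : SN e)
    (q : G) (hq : q ^ (13 ^ s) ∈ R) (hqe : φ q e = e) : ∃ a, Can ι φ s e q a := by
  obtain ⟨a, b, h1, h2, h3, h4⟩ := hS (φ q) hqe
  have hN : 0 < 13 ^ s := by positivity
  have hc : ∀ x y, x * e * (y * e) = x * y * e := fun x y => by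
    rw [mul_assoc, ← mul_assoc e, he.2.2.1 y, mul_assoc y, he.2.1, mul_assoc]
  have hee : ∀ x, x * e * e = x * e := fun x => by rw [mul_assoc, he.2.1]
  have p1 : ∀ (k : ℕ) x, a ^ k * x = φ (q ^ k) x * a ^ k := fun k x => by
    induction k with
    | zero => simp
    | succ k ih =>
      rw [pow_succ', pow_succ', mul_assoc, ih, ← mul_assoc, h4, map_mul, mul_assoc]
      rfl
  have p2 : ∀ k : ℕ, a ^ k * e * b ^ k = e := fun k => by
    induction k with
    | zero => simp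
    | succ k ih => rw [pow_succ, pow_succ', mul_assoc (a ^ k), h1, ← mul_assoc, mul_assoc (a ^ k),
        h2, ih]
  have p3 : ∀ x, x * e = x → ∀ k : ℕ, dl e (x ^ k * e) = dl e x ^ k := fun x hx k => by
    induction k with
    | zero => rw [pow_zero, pow_zero, one_mul, (dl_smul e x he hx 1).2]
    | succ k ih => rw [pow_succ, pow_succ, ← ih, ← dl_mul e _ x he (hee _) hx, mul_assoc,
        mul_assoc, he.2.2.1]
  have p4 : ∀ (x : A) (k : ℕ), (x * e) ^ k * e = x ^ k * e := fun x k => by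
    induction k with
    | zero => simp
    | succ k ih => rw [pow_succ', pow_succ', mul_assoc, ih, hc]
  obtain ⟨r, hr⟩ : ∃ r : R, (r : G) = q ^ 13 ^ s := ⟨⟨_, hq⟩, rfl⟩
  obtain ⟨c, hc'⟩ := can_scal e (a ^ 13 ^ s * e) (ι r * e) (ι r⁻¹ * e) he (φ r) (hee _)
    (by rw [hc, ← map_mul, mul_inv_cancel, map_one, one_mul])
    (by rw [hc, ← map_mul, inv_mul_cancel, map_one, one_mul])
    (fun x => by rw [mul_assoc, he.2.2.1, ← mul_assoc, p1, hr, mul_assoc])
    (fun x => by rw [mul_assoc, he.2.2.1, ← mul_assoc, ← hA.inn, mul_assoc]) (hee _)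
  have hc0 : c ≠ 0 := fun h => he.1 (by rw [← p2 (13 ^ s), hc', h, zero_smul, zero_mul])
  obtain ⟨u, hu⟩ := IsAlgClosed.exists_pow_nat_eq c⁻¹ hN
  have hu0 : u ≠ 0 := fun h => inv_ne_zero hc0 (by rw [← hu, h, zero_pow hN.ne'])
  have q1 : u • a * e = u • a := by rw [smul_mul_assoc, h1]
  have q2 : (u • a) ^ 13 ^ s * e = ι r * e := by
    rw [smul_pow, smul_mul_assoc, hc', hu, smul_smul, inv_mul_cancel₀ hc0, one_smul]
  have q3 : (dl e (u • a) ^ Nat.card R) ^ 13 ^ s = 1 := by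
    rw [pow_right_comm, ← p3 _ q1, q2, ← p3 _ (hee _), p4, ← map_pow, pow_card_eq_one', map_one,
      one_mul, (dl_smul e a he h1 1).2]
  have q4 : (dl e (u • a) ^ Nat.card R)⁻¹ ^ 13 ^ s = 1 := by rw [inv_pow, q3, inv_one]
  obtain ⟨k, hk⟩ := exists_pow_eq_self_of_coprime
    ((xqcana_cop hD h13 s).of_dvd_right (orderOf_dvd_of_pow_eq_one q4))
  have q5 : ((dl e (u • a) ^ Nat.card R)⁻¹ ^ k) ^ 13 ^ s = 1 := by rw [pow_right_comm, q4, one_pow]
  rw [pow_right_comm] at hk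
  generalize (dl e (u • a) ^ Nat.card R)⁻¹ ^ k = w at q5 hk
  have hw0 : w ≠ 0 := fun h => by simp [h] at q5
  refine ⟨w • u • a, by rw [smul_mul_assoc, q1], ⟨(w * u)⁻¹ • b, ?_, ?_⟩, fun x => ?_, ?_,
    fun r' hr' => ?_⟩
  · rw [smul_smul, smul_mul_smul_comm, h2, mul_inv_cancel₀ (mul_ne_zero hw0 hu0), one_smul]
  · rw [smul_smul, smul_mul_smul_comm, h3, inv_mul_cancel₀ (mul_ne_zero hw0 hu0), one_smul]
  · simp only [smul_mul_assoc, mul_smul_comm, h4]
  · rw [(dl_smul e _ he q1 w).1, mul_pow, ← pow_mul, hk, inv_mul_cancel₀]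
    intro h
    simp [h] at q3
  · rw [smul_pow, smul_mul_assoc, q2, q5, one_smul, Subtype.ext (hr'.trans hr.symm)]

end Pool.Agent.N9181

end

section

namespace Pool.Agent.N9181

open scoped commutatorElement

theorem xqcanb_mul {A : Type} [Ring A] [Algebra ℂ A] {e : A} (he : PC e) (x y : A) :
    x * e * (y * e) = x * y * e := by
  rw [mul_assoc x, ← mul_assoc e, he.2.2.1 y, mul_assoc y, he.2.1, mul_assoc]

theorem xqcanb_pow {A : Type} [Ring A] [Algebra ℂ A] {e : A} (he : PC e) (x : A) (m : ℕ) :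
    (x * e) ^ m * e = x ^ m * e := by
  induction m with
  | zero => rw [pow_zero, pow_zero]
  | succ m ih => rw [pow_succ', mul_assoc, ih, xqcanb_mul he, pow_succ']

theorem xqcanb_dl {A : Type} [Ring A] [Algebra ℂ A] [Module.Finite ℂ A] {e : A} (he : PC e)
    (x : A) (m : ℕ) : dl e (x ^ m * e) = dl e (x * e) ^ m := by
  have h : ∀ y : A, y * e * e = y * e := fun y => by rw [mul_assoc, he.2.1]
  induction m with
  | zero => rw [pow_zero, pow_zero, one_mul, (dl_smul e e he he.2.1 1).2]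
  | succ m ih => rw [pow_succ, ← xqcanb_mul he, dl_mul e _ _ he (h _) (h _), ih, pow_succ]

theorem xqcanb_conj {A : Type} [Ring A] [Algebra ℂ A] (ψ : A ≃ₐ[ℂ] A) (e a : A) :
    dl (ψ e) (ψ a) = dl e a := by
  rw [dl, dl, ← LinearMap.det_conj (LinearMap.mulLeft ℂ (a + (1 - e))) ψ.toLinearEquiv]
  congr 1
  ext x
  simp

theorem can_res {A : Type} [Ring A] [Algebra ℂ A] [Module.Finite ℂ A]
    {G : Type} [Group G] [Finite G] {R : Subgroup G} [R.Normal]
    (ι : R →* A) (φ : G →* (A ≃ₐ[ℂ] A)) (hA : AD ι φ) (s : ℕ) (e : A) (he : PC e) (r : R) : Can ι φ s e (r : G) (ι r * e) := by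
  refine ⟨by rw [mul_assoc, he.2.1], ⟨ι r⁻¹ * e, ?_, ?_⟩, fun x => ?_, ?_, fun r' h => ?_⟩
  · rw [xqcanb_mul he, ← map_mul, mul_inv_cancel, map_one, one_mul]
  · rw [xqcanb_mul he, ← map_mul, inv_mul_cancel, map_one, one_mul]
  · rw [mul_assoc, he.2.2.1 x, ← mul_assoc, ← hA.inn, mul_assoc]
  · rw [← xqcanb_dl he, ← map_pow, pow_card_eq_one', map_one, one_mul, (dl_smul e e he he.2.1 1).2]
  · rw [xqcanb_pow he, ← map_pow, show r' = r ^ 13 ^ s from Subtype.ext h]

theorem can_equi {A : Type} [Ring A] [Algebra ℂ A] [Module.Finite ℂ A]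
    {G : Type} [Group G] [Finite G] {R : Subgroup G} [R.Normal]
    (ι : R →* A) (φ : G →* (A ≃ₐ[ℂ] A)) (hA : AD ι φ) (s : ℕ) (e : A) (q g : G) (a : A) (ha : Can ι φ s e q a) :
    Can ι φ s (φ g e) (g * q * g⁻¹) (φ g a) := by
  obtain ⟨b, hb, hb'⟩ := ha.inv
  refine ⟨by rw [← map_mul, ha.sup], ⟨φ g b, by rw [← map_mul, hb], by rw [← map_mul, hb']⟩,
    fun x => ?_, by rw [xqcanb_conj, ha.det], fun r h => ?_⟩
  · obtain ⟨y, rfl⟩ := (φ g).surjective x
    rw [← map_mul, ha.cnj, ← AlgEquiv.mul_apply (φ _) (φ g), ← map_mul φ, inv_mul_cancel_right,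
      map_mul φ, AlgEquiv.mul_apply, map_mul]
  · have h1 := ha.pw (MulAut.conjNormal g⁻¹ r) (by
      rw [MulAut.conjNormal_apply, h, conj_pow]
      group)
    rw [← map_pow, ← map_mul, h1, map_mul, hA.act, map_inv, MulAut.apply_inv_self]

theorem can_rmul {A : Type} [Ring A] [Algebra ℂ A] [Module.Finite ℂ A]
    {G : Type} [Group G] [Finite G] {R : Subgroup G} [R.Normal]
    (ι : R →* A) (φ : G →* (A ≃ₐ[ℂ] A)) (hA : AD ι φ) (s : ℕ) (e : A) (he : PC e) (q : G) (a : A) (ha : Can ι φ s e q a) (r : R) :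
    Can ι φ s e ((r : G) * q) (ι r * a) := by
  obtain ⟨b, hb, hb'⟩ := ha.inv
  have h0 : ι r * a = ι r * e * a := by rw [mul_assoc, he.2.2.1 a, ha.sup]
  have key : ∀ k : ℕ, ∃ p : R, ((r : G) * q) ^ k = p * q ^ k ∧ (ι r * a) ^ k = ι p * a ^ k := by
    intro k
    induction k with
    | zero => exact ⟨1, by simp, by simp⟩
    | succ k ih =>
      obtain ⟨p, h1, h2⟩ := ih
      refine ⟨r * MulAut.conjNormal q p, ?_, ?_⟩
      · rw [pow_succ', h1, Subgroup.coe_mul, MulAut.conjNormal_apply, pow_succ']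
        group
      · rw [pow_succ', h2, map_mul, ← hA.act, pow_succ', mul_assoc, mul_assoc, ← mul_assoc a,
          ha.cnj, mul_assoc]
  refine ⟨by rw [mul_assoc, ha.sup], ⟨b * ι r⁻¹, ?_, ?_⟩, fun x => ?_, ?_, fun r' h => ?_⟩
  · rw [mul_assoc, ← mul_assoc a, hb, he.2.2.1, ← mul_assoc, ← map_mul, mul_inv_cancel, map_one,
      one_mul]
  · rw [mul_assoc, ← mul_assoc (ι r⁻¹), ← map_mul, inv_mul_cancel, map_one, one_mul, hb']
  · rw [mul_assoc, ha.cnj, ← mul_assoc, ← hA.inn, map_mul, AlgEquiv.mul_apply, mul_assoc]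
  · rw [h0, dl_mul e _ _ he (can_res ι φ hA s e he r).sup ha.sup, mul_pow, ha.det,
      (can_res ι φ hA s e he r).det, one_mul]
  · obtain ⟨p, h1, h2⟩ := key (13 ^ s)
    rw [h2, mul_assoc, ha.pw (p⁻¹ * r') (by
      rw [Subgroup.coe_mul, h, h1, Subgroup.coe_inv, inv_mul_cancel_left]), ← mul_assoc, ← map_mul,
      mul_inv_cancel_left]

end Pool.Agent.N9181

end

section

namespace Pool.Agent.N9181

open scoped commutatorElement

theorem xqcanm_abs {H : Type} [Group H] [(Subgroup.center H).FiniteIndex] (s m : ℕ)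
    (hm : ¬ 13 ∣ m) (h : ∀ g : H, g ^ (13 ^ s) ∈ Subgroup.center H ∧ (g ^ (13 ^ s)) ^ m = 1)
    (x y : H) (hx : x ^ (13 ^ s) = 1) (hy : y ^ (13 ^ s) = 1) : (x * y) ^ (13 ^ s) = 1 := by
  have hp : IsPGroup 13 (H ⧸ Subgroup.center H) := fun g => by
    obtain ⟨g, rfl⟩ := QuotientGroup.mk_surjective g
    exact ⟨s, by rw [← QuotientGroup.mk_pow]; exact (QuotientGroup.eq_one_iff _).2 (h g).1⟩
  obtain ⟨b, hb⟩ := hp.exists_card_eq
  have ht : ∀ g : H, (MonoidHom.transferCenterPow H g : H) = g ^ (13 ^ b) := fun g => by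
    rw [MonoidHom.transferCenterPow_apply, Subgroup.index, hb]
  have h1 : MonoidHom.transferCenterPow H (x * y) ^ (13 ^ s) = 1 := by
    rw [map_mul, Commute.mul_pow (Subtype.ext (Subgroup.mem_center_iff.1
      (MonoidHom.transferCenterPow H y).2 _)), ← map_pow, ← map_pow, hx, hy, map_one, mul_one]
  have h2 : ((x * y) ^ (13 ^ s)) ^ (13 ^ b) = 1 := by
    rw [← pow_mul, mul_comm, pow_mul, ← ht]
    exact congrArg Subtype.val h1
  have h3 := pow_gcd_eq_one.2 ⟨h2, (h (x * y)).2⟩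
  rwa [Nat.Coprime.pow_left b ((Nat.Prime.coprime_iff_not_dvd (by norm_num)).2 hm), pow_one] at h3

theorem xqcanm_abs2 {Γ G : Type} [Group Γ] [Group G] [Finite G] (π : Γ →* G) (N : Subgroup Γ)
    [N.Normal] (s m : ℕ) (hm : ¬ 13 ∣ m)
    (hk : ∀ z, π z = 1 → z ∈ Subgroup.center Γ ∧ z ^ m = 1)
    (hN : ∀ g, ∃ r ∈ N, π r = π g ^ (13 ^ s)) (x y : Γ) (hx : x ^ (13 ^ s) ∈ N)
    (hy : y ^ (13 ^ s) ∈ N) : (x * y) ^ (13 ^ s) ∈ N := by
  have hc : ∀ z, π z = 1 → (z : Γ ⧸ N) ∈ Subgroup.center (Γ ⧸ N) := fun z hz =>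
    Subgroup.mem_center_iff.2 fun g => by
      obtain ⟨g, rfl⟩ := QuotientGroup.mk_surjective g
      rw [← QuotientGroup.mk_mul, ← QuotientGroup.mk_mul, Subgroup.mem_center_iff.1 (hk z hz).1]
  have h1 : (π.ker.map (QuotientGroup.mk' N)).FiniteIndex :=
    ⟨fun h => Subgroup.FiniteIndex.index_ne_zero (H := π.ker) (Nat.eq_zero_of_zero_dvd
      (h ▸ Subgroup.index_map_dvd π.ker (QuotientGroup.mk'_surjective N)))⟩
  have h2 : (Subgroup.center (Γ ⧸ N)).FiniteIndex :=
    Subgroup.finiteIndex_of_le (H := π.ker.map (QuotientGroup.mk' N)) (by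
      rintro _ ⟨z, hz, rfl⟩
      exact hc z hz)
  rw [← QuotientGroup.eq_one_iff, QuotientGroup.mk_pow] at hx hy ⊢
  refine xqcanm_abs s m hm (fun g => ?_) _ _ hx hy
  obtain ⟨g, rfl⟩ := QuotientGroup.mk_surjective g
  obtain ⟨r, hr, e⟩ := hN g
  have hz : π (r⁻¹ * g ^ (13 ^ s)) = 1 := by rw [map_mul, map_inv, map_pow, e, inv_mul_cancel]
  have e2 : (g : Γ ⧸ N) ^ (13 ^ s) = (r⁻¹ * g ^ (13 ^ s) : Γ) := by
    rw [QuotientGroup.mk_mul, (QuotientGroup.eq_one_iff _).2 (N.inv_mem hr), one_mul,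
      QuotientGroup.mk_pow]
  rw [e2]
  exact ⟨hc _ hz, by rw [← QuotientGroup.mk_pow, (hk _ hz).2, QuotientGroup.mk_one]⟩

section

variable {A : Type} [Ring A] [Algebra ℂ A] {e : A}

theorem xqcanm_me (he : PC e) (u v : A) : u * v * e = u * e * (v * e) := by
  rw [mul_assoc u e, he.2.2.1, mul_assoc v, he.2.1, mul_assoc]

theorem xqcanm_pow (he : PC e) (u : A) (k : ℕ) : u ^ k * e = (u * e) ^ k * e := by
  induction k with
  | zero => rw [pow_zero, pow_zero]
  | succ k ih =>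
    rw [pow_succ, pow_succ, xqcanm_me he, ih, xqcanm_me he _ (u * e), mul_assoc u, he.2.1]

theorem xqcanm_unit (he : PC e) {a b : A} (h1 : a * e = a) (h2 : a * b = e) (h3 : b * a = e) :
    ∃ u : Aˣ, (u : A) * (1 - e) = 1 - e ∧ (u : A) * e = a := by
  have c := he.2.2.1
  have i := he.2.1
  have k : ∀ x y : A, x * e = x → y * e = y → x * y = e → (x + (1 - e)) * (y + (1 - e)) = 1 := by
    intro x y hx hy hxy
    simp only [mul_add, add_mul, mul_sub, sub_mul, mul_one, one_mul, hx, hxy, c y, hy, i]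
    abel
  have hb : b * e * e = b * e := by rw [mul_assoc, i]
  refine ⟨⟨a + (1 - e), b * e + (1 - e), k _ _ h1 hb (by rw [← mul_assoc, h2, i]),
    k _ _ hb h1 (by rw [mul_assoc, c, h1, h3])⟩, ?_, ?_⟩
  · simp only [add_mul, mul_sub, sub_mul, mul_one, one_mul, h1, i]
    abel
  · simp only [add_mul, sub_mul, one_mul, h1, i]
    abel

variable [Module.Finite ℂ A] {G : Type} [Group G]

/-- the elements of the block inducing the action of an element of `Q` -/
def xqcanmG (φ : G →* (A ≃ₐ[ℂ] A)) (Q : Subgroup G) (n : ℕ) (he : PC e) : Subgroup (G × Aˣ) where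
  carrier := {x | x.1 ∈ Q ∧ (x.2 : A) * (1 - e) = 1 - e ∧
    (∀ y, (x.2 : A) * e * y = φ x.1 y * (x.2 * e)) ∧ dl e (x.2 * e) ^ n = 1}
  one_mem' := ⟨Q.one_mem, by simp, fun y => by simp [he.2.2.1 y],
    by simp [(dl_smul e e he he.2.1 1).2]⟩
  mul_mem' := fun {x y} ⟨x1, x2, x3, x4⟩ ⟨y1, y2, y3, y4⟩ => by
    refine ⟨Q.mul_mem x1 y1, ?_, fun z => ?_, ?_⟩ <;>
      simp only [Prod.fst_mul, Prod.snd_mul, Units.val_mul]
    · rw [mul_assoc, y2, x2]
    · rw [xqcanm_me he, mul_assoc, y3, ← mul_assoc, x3, map_mul, AlgEquiv.mul_apply, mul_assoc]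
    · rw [xqcanm_me he, dl_mul e _ _ he (by rw [mul_assoc, he.2.1]) (by rw [mul_assoc, he.2.1]),
        mul_pow, x4, y4, one_mul]
  inv_mem' := fun {x} ⟨x1, x2, x3, x4⟩ => by
    refine ⟨Q.inv_mem x1, ?_, fun z => ?_, ?_⟩ <;> simp only [Prod.fst_inv, Prod.snd_inv]
    · rw [Units.inv_mul_eq_iff_eq_mul, x2]
    · have h := x3 (φ x.1⁻¹ z)
      rw [← AlgEquiv.mul_apply, ← map_mul, mul_inv_cancel, map_one, AlgEquiv.one_apply] at h
      rw [mul_assoc, Units.inv_mul_eq_iff_eq_mul, ← he.2.2.1, ← mul_assoc (φ _ z), ← he.2.2.1,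
        ← mul_assoc, ← mul_assoc, h, ← he.2.2.1 x.2, mul_assoc, mul_assoc, Units.mul_inv, mul_one,
        he.2.2.1]
    · have h := dl_mul e (x.2 * e) ((x.2⁻¹ : Aˣ) * e) he (by rw [mul_assoc, he.2.1])
        (by rw [mul_assoc, he.2.1])
      rw [← xqcanm_me he, Units.mul_inv, one_mul, (dl_smul e e he he.2.1 1).2] at h
      have h2 := congrArg (· ^ n) h
      simp only [mul_pow, x4, one_pow, one_mul] at h2
      exact h2.symm

/-- the image of `R` -/
def xqcanmN {R : Subgroup G} (ι : R →* A) (he : PC e) (Γ : Subgroup (G × Aˣ)) : Subgroup Γ where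
  carrier := {x | ∃ r : R, (r : G) = x.1.1 ∧ (x.1.2 : A) * e = ι r * e}
  one_mem' := ⟨1, rfl, by simp⟩
  mul_mem' := fun {x y} ⟨r, x1, x2⟩ ⟨t, y1, y2⟩ => ⟨r * t, by simp [x1, y1], by
    simp only [Subgroup.coe_mul, Prod.snd_mul, Units.val_mul]
    rw [xqcanm_me he, x2, y2, map_mul, ← xqcanm_me he]⟩
  inv_mem' := fun {x} ⟨r, x1, x2⟩ => ⟨r⁻¹, by simp [x1], by
    simp only [Subgroup.coe_inv, Prod.snd_inv]
    rw [Units.inv_mul_eq_iff_eq_mul, ← mul_assoc, xqcanm_me he, x2, ← xqcanm_me he, ← map_mul,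
      mul_inv_cancel, map_one, one_mul]⟩

end

theorem can_mul {A : Type} [Ring A] [Algebra ℂ A] [Module.Finite ℂ A]
    {G : Type} [Group G] [Finite G] {R : Subgroup G} [R.Normal]
    (ι : R →* A) (φ : G →* (A ≃ₐ[ℂ] A)) (hA : AD ι φ) (Q : Subgroup G) (hQ : RQ R Q) (h13 : ¬ 13 ∣ Nat.card R) (s : ℕ)
    (hs : ∀ q ∈ Q, q ^ (13 ^ s) ∈ R) (e : A) (he : PC e) (hD : ¬ 13 ∣ bd e) (hS : SN e)
    (q q' : G) (hq : q ∈ Q) (hq' : q' ∈ Q) (hqe : φ q e = e) (hqe' : φ q' e = e) (a a' : A)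
    (ha : Can ι φ s e q a) (ha' : Can ι φ s e q' a') : Can ι φ s e (q * q') (a * a') := by
  have lift : ∀ g ∈ Q, ∀ x, Can ι φ s e g x →
      ∃ γ : xqcanmG φ Q (Nat.card R) he, γ.1.1 = g ∧ (γ.1.2 : A) * e = x := by
    intro g hg x hx
    obtain ⟨b, h1, h2⟩ := hx.inv
    obtain ⟨u, u1, u2⟩ := xqcanm_unit he hx.sup h1 h2
    exact ⟨⟨(g, u), hg, u1, fun y => by rw [u2]; exact hx.cnj y, by rw [u2]; exact hx.det⟩, rfl, u2⟩
  have hn : (xqcanmN ι he (xqcanmG φ Q (Nat.card R) he)).Normal := ⟨by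
    rintro x ⟨r, x1, x2⟩ g
    refine ⟨MulAut.conjNormal g.1.1 r, by simp [x1], ?_⟩
    simp only [Subgroup.coe_mul, Subgroup.coe_inv, Prod.snd_mul, Prod.snd_inv, Units.val_mul]
    rw [xqcanm_me he, xqcanm_me he g.1.2, x2, ← mul_assoc _ (ι r), g.2.2.2.1, hA.act, mul_assoc,
      mul_assoc, mul_assoc, ← mul_assoc e, he.2.1, he.2.2.1, mul_assoc, he.2.1,
      Units.mul_inv_cancel_left]⟩
  obtain ⟨x, x1, x2⟩ := lift q hq a ha
  obtain ⟨y, y1, y2⟩ := lift q' hq' a' ha'
  have key := xqcanm_abs2 ((MonoidHom.fst G Aˣ).comp (xqcanmG φ Q (Nat.card R) he).subtype)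
    (xqcanmN ι he _) s (bd e * Nat.card R)
    (fun h => ((by norm_num : Nat.Prime 13).dvd_mul.1 h).elim hD h13) (fun z hz => ?_)
    (fun g => ?_) x y
    ⟨⟨_, hs q hq⟩, by simp [x1], by
      simp only [Subgroup.coe_pow, Prod.pow_snd, Units.val_pow_eq_pow_val]
      rw [xqcanm_pow he, x2, ha.pw ⟨_, hs q hq⟩ rfl]⟩
    ⟨⟨_, hs q' hq'⟩, by simp [y1], by
      simp only [Subgroup.coe_pow, Prod.pow_snd, Units.val_pow_eq_pow_val]
      rw [xqcanm_pow he, y2, ha'.pw ⟨_, hs q' hq'⟩ rfl]⟩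
  · obtain ⟨r, r1, r2⟩ := key
    obtain ⟨-, -, p3, p4⟩ := (x * y).2
    simp only [Subgroup.coe_pow, Subgroup.coe_mul, Prod.pow_snd, Prod.pow_fst, Prod.fst_mul,
      Prod.snd_mul, Units.val_pow_eq_pow_val, Units.val_mul, x1, y1] at r1 r2 p3 p4
    rw [xqcanm_pow he] at r2
    rw [xqcanm_me he, x2, y2] at r2 p3 p4
    obtain ⟨b, b1, b2⟩ := ha.inv
    obtain ⟨b', b1', b2'⟩ := ha'.inv
    refine ⟨by rw [mul_assoc, ha'.sup], ⟨b' * b, ?_, ?_⟩, p3, p4, fun t ht => ?_⟩
    · rw [mul_assoc, ← mul_assoc a', b1', ← mul_assoc, ha.sup, b1]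
    · rw [mul_assoc, ← mul_assoc b, b2, he.2.2.1, ha'.sup, b2']
    · rw [r2, show t = r from Subtype.ext (ht.trans r1.symm)]
  · obtain ⟨-, z2, z3, z4⟩ := z.2
    have hz : z.1.1 = 1 := hz
    obtain ⟨c, hc⟩ := can_scal e (z.1.2 * e) e e he (φ z.1.1) (by rw [mul_assoc, he.2.1]) he.2.1
      he.2.1 z3 (fun y => by rw [hz, map_one, AlgEquiv.one_apply, he.2.2.1]) he.2.1
    rw [hc, (dl_smul e e he he.2.1 c).1, (dl_smul e e he he.2.1 c).2, mul_one, ← pow_mul] at z4
    have hu : ∀ u : A, u * (1 - e) = 1 - e → u = u * e + (1 - e) := fun u h => by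
      rw [← h, ← mul_add, add_sub_cancel, mul_one]
    refine ⟨Subgroup.mem_center_iff.2 fun g => Subtype.ext (Prod.ext (by simp [hz])
      (Units.ext ?_)), Subtype.ext (Prod.ext (by simp [hz]) (Units.ext ?_))⟩
    · simp only [Subgroup.coe_mul, Prod.snd_mul, Units.val_mul]
      rw [hu _ z2, hc]
      simp only [mul_add, add_mul, mul_sub, sub_mul, mul_one, one_mul, mul_smul_comm,
        smul_mul_assoc, he.2.2.1]
    · have h := hu _ (z ^ (bd e * Nat.card R)).2.2.1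
      simp only [Subgroup.coe_pow, Prod.pow_snd, Units.val_pow_eq_pow_val] at h ⊢
      have h1 := xqcanm_pow he 1 (bd e * Nat.card R)
      rw [one_mul, one_pow, one_mul] at h1
      rw [h, xqcanm_pow he, hc, smul_pow, z4, one_smul, ← h1]
      simp
  · obtain ⟨γ, h1, h2⟩ := lift _ (hQ.le (hs g.1.1 g.2.1)) _
      (can_res ι φ hA s e he ⟨_, hs g.1.1 g.2.1⟩)
    exact ⟨γ, ⟨⟨_, hs g.1.1 g.2.1⟩, h1.symm, h2⟩, h1⟩

end Pool.Agent.N9181

end

section

namespace Pool.Agent.N9181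

open scoped commutatorElement

theorem xqwed_c {A : Type} [Ring A] [Algebra ℂ A] {e : A} (h0 : e ≠ 0) (h : e * e = e) {c : ℂ}
    (hc : c • e * c • e = c • e) : c = 0 ∨ c = 1 := by
  rw [smul_mul_smul_comm, h, ← sub_eq_zero, ← sub_smul, smul_eq_zero, sub_eq_zero] at hc
  rcases eq_or_ne c 0 with h1 | h1
  · exact Or.inl h1
  · exact Or.inr (mul_left_cancel₀ h1 ((hc.resolve_right h0).trans (mul_one c).symm))

theorem pc_orth {A : Type} [Ring A] [Algebra ℂ A] (e e' : A) (he : PC e) (he' : PC e') (h : e ≠ e') : e * e' = 0 := by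
  obtain ⟨c, hc⟩ := he.2.2.2 e' he'.2.2.1
  obtain ⟨c', hc'⟩ := he'.2.2.2 e he.2.2.1
  have h1 : e * e' * (e * e') = e * e' := by
    rw [mul_assoc, ← mul_assoc e', he'.2.2.1 e, mul_assoc, he'.2.1, ← mul_assoc, he.2.1]
  have h2 : e * e' = c • e := (he.2.2.1 e').trans hc
  rcases xqwed_c he.1 he.2.1 (h2 ▸ h1) with h3 | h3
  · rw [h2, h3, zero_smul]
  rcases xqwed_c he'.1 he'.2.1 (hc' ▸ h1) with h4 | h4
  · rw [hc', h4, zero_smul]
  rw [h3, one_smul] at h2
  rw [h4, one_smul] at hc'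
  exact absurd (h2.symm.trans hc') h

theorem xqwed_pc {A B : Type} [Ring A] [Algebra ℂ A] [Ring B] [Algebra ℂ B] (φ : A ≃ₐ[ℂ] B)
    {e : A} (he : PC e) : PC (φ e) := by
  refine ⟨(map_ne_zero_iff φ φ.injective).2 he.1, by rw [← map_mul, he.2.1], fun x => ?_,
    fun z hz => ?_⟩
  · obtain ⟨x, rfl⟩ := φ.surjective x
    rw [← map_mul, ← map_mul, he.2.2.1]
  · obtain ⟨z, rfl⟩ := φ.surjective z
    obtain ⟨c, hc⟩ := he.2.2.2 z fun x => φ.injective (by rw [map_mul, map_mul, hz])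
    exact ⟨c, by rw [← map_mul, hc, map_smul]⟩

theorem pc_map {A : Type} [Ring A] [Algebra ℂ A] (φ : A ≃ₐ[ℂ] A) (e : A) (he : PC e) : PC (φ e) :=
  xqwed_pc φ he

theorem xqwed_sn {A B : Type} [Ring A] [Algebra ℂ A] [Ring B] [Algebra ℂ B] (φ : A ≃ₐ[ℂ] B)
    {e : A} (he : SN e) : SN (φ e) := by
  intro ψ hψ
  obtain ⟨a, b, h1, h2, h3, h4⟩ := he (φ.trans (ψ.trans φ.symm)) (by simp [hψ])
  refine ⟨φ a, φ b, by rw [← map_mul, h1], by rw [← map_mul, h2], by rw [← map_mul, h3],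
    fun x => ?_⟩
  obtain ⟨x, rfl⟩ := φ.surjective x
  rw [← map_mul, h4, map_mul]
  simp

theorem xqwed_inn {d : ℕ} (ψ : Matrix (Fin d) (Fin d) ℂ ≃ₐ[ℂ] Matrix (Fin d) (Fin d) ℂ) :
    ∃ a b : Matrix (Fin d) (Fin d) ℂ, a * b = 1 ∧ b * a = 1 ∧ ∀ x, a * x = ψ x * a := by
  let t : Matrix (Fin d) (Fin d) ℂ ≃ₐ[ℂ] Module.End ℂ (Fin d → ℂ) := Matrix.toLinAlgEquiv'
  obtain ⟨T, hT⟩ := (t.symm.trans (ψ.trans t)).eq_linearEquivConjAlgEquiv
  refine ⟨t.symm T.toLinearMap, t.symm T.symm.toLinearMap, t.injective ?_, t.injective ?_,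
    fun x => t.injective ?_⟩
  · rw [map_mul, map_one, t.apply_symm_apply, t.apply_symm_apply]
    exact LinearMap.ext fun v => T.apply_symm_apply v
  · rw [map_mul, map_one, t.apply_symm_apply, t.apply_symm_apply]
    exact LinearMap.ext fun v => T.symm_apply_apply v
  · have h1 : t (ψ x) = T.conjAlgEquiv ℂ (t x) := by
      rw [← hT, AlgEquiv.trans_apply, AlgEquiv.trans_apply, t.symm_apply_apply]
    rw [map_mul, map_mul, t.apply_symm_apply, h1, LinearEquiv.conjAlgEquiv_apply]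
    exact LinearMap.ext fun v => by simp

section
variable {I : Type} [Fintype I] [DecidableEq I] {B : I → Type} [∀ i, Ring (B i)]
  [∀ i, Algebra ℂ (B i)]

omit [Fintype I] [∀ i, Algebra ℂ (B i)] in
theorem xqwed_l (i : I) (a : B i) (x : ∀ i, B i) :
    Pi.single (M := B) i a * x = Pi.single i (a * x i) := (Pi.single_mul_left a).symm

omit [Fintype I] [∀ i, Algebra ℂ (B i)] in
theorem xqwed_r (i : I) (a : B i) (x : ∀ i, B i) :
    x * Pi.single (M := B) i a = Pi.single i (x i * a) := (Pi.single_mul_right a).symm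

omit [Fintype I] in
theorem xqwed_u (i : I) [Nontrivial (B i)]
    (hc : ∀ z : B i, (∀ x, z * x = x * z) → ∃ c : ℂ, z = c • 1) :
    PC (Pi.single (M := B) i 1) := by
  refine ⟨fun h => ?_, by rw [xqwed_l, Pi.single_eq_same, mul_one], fun x => ?_, fun z hz => ?_⟩
  · have := congrFun h i
    rw [Pi.single_eq_same] at this
    exact one_ne_zero this
  · rw [xqwed_l, xqwed_r, one_mul, mul_one]
  · obtain ⟨c, h⟩ := hc (z i) fun x => by
      have := congrFun (hz (Pi.single i x)) i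
      rwa [Pi.mul_apply, Pi.mul_apply, Pi.single_eq_same] at this
    exact ⟨c, by rw [xqwed_r, mul_one, h, Pi.single_smul]⟩

/-- the restriction of an automorphism to a factor -/
def xqwedRes (i : I) (φ : (∀ i, B i) ≃ₐ[ℂ] ∀ i, B i)
    (h : φ (Pi.single i 1) = Pi.single i 1) : B i →ₐ[ℂ] B i :=
  AlgHom.ofLinearMap ((LinearMap.proj i).comp (φ.toLinearMap.comp (LinearMap.single ℂ B i)))
    (by
      change φ (Pi.single i 1) i = 1
      rw [h, Pi.single_eq_same])
    fun x y => by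
      change φ (Pi.single i (x * y)) i = φ (Pi.single i x) i * φ (Pi.single i y) i
      rw [Pi.single_mul, map_mul, Pi.mul_apply]

omit [Fintype I] in
theorem xqwed_res (i : I) (φ : (∀ i, B i) ≃ₐ[ℂ] ∀ i, B i)
    (h : φ (Pi.single i 1) = Pi.single i 1) (x : ∀ i, B i) :
    φ (Pi.single i (x i)) = Pi.single i (φ x i) ∧ xqwedRes i φ h (x i) = φ x i := by
  have h1 : φ (Pi.single i (x i)) = Pi.single i (φ x i) := by
    rw [← one_mul (x i), ← xqwed_l, map_mul, h, xqwed_l, one_mul]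
  refine ⟨h1, ?_⟩
  change φ (Pi.single i (x i)) i = _
  rw [h1, Pi.single_eq_same]

omit [Fintype I] in
theorem xqwed_inv (i : I) (φ : (∀ i, B i) ≃ₐ[ℂ] ∀ i, B i)
    (h : φ (Pi.single i 1) = Pi.single i 1) (h' : φ.symm (Pi.single i 1) = Pi.single i 1)
    (x : B i) : xqwedRes i φ.symm h' (xqwedRes i φ h x) = x := by
  change xqwedRes i φ.symm h' (φ (Pi.single i x) i) = x
  rw [(xqwed_res i φ.symm h' _).2, φ.symm_apply_apply, Pi.single_eq_same]

omit [Fintype I] in
theorem xqwed_snu (i : I) (hi : ∀ ψ : B i ≃ₐ[ℂ] B i,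
    ∃ a b : B i, a * b = 1 ∧ b * a = 1 ∧ ∀ x, a * x = ψ x * a) : SN (Pi.single (M := B) i 1) := by
  intro φ h
  have h' : φ.symm (Pi.single i 1) = Pi.single i 1 := φ.symm_apply_eq.2 h.symm
  obtain ⟨a, b, h1, h2, h3⟩ := hi (AlgEquiv.ofAlgHom (xqwedRes i φ h) (xqwedRes i φ.symm h')
    (AlgHom.ext (xqwed_inv i φ.symm h' h)) (AlgHom.ext (xqwed_inv i φ h h')))
  refine ⟨Pi.single i a, Pi.single i b, by rw [← Pi.single_mul, mul_one],
    by rw [← Pi.single_mul, h1], by rw [← Pi.single_mul, h2], fun x => ?_⟩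
  rw [xqwed_l, xqwed_r, h3, ← (xqwed_res i φ h x).2]
  rfl

end

theorem xqwed_main {A : Type} [Ring A] [Algebra ℂ A] [Module.Finite ℂ A] [IsSemisimpleRing A] :
    ∃ (n : ℕ) (u : Fin n → A), Function.Injective u ∧ (∀ i, PC (u i) ∧ SN (u i)) ∧
      ∑ i, u i = 1 ∧ ∀ e, PC e → ∃ i, u i = e := by
  obtain ⟨n, d, hd, ⟨φ⟩⟩ := IsSemisimpleRing.exists_algEquiv_pi_matrix_of_isAlgClosed ℂ A
  have h1 : ∀ i, PC (φ.symm (Pi.single i 1)) := fun i => xqwed_pc _ (xqwed_u i fun z hz => by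
    obtain ⟨c, hc⟩ := Matrix.mem_range_scalar_iff_commute_single'.2 fun i j => (hz _).symm
    exact ⟨c, by rw [← hc, Matrix.scalar_apply, Matrix.smul_one_eq_diagonal]⟩)
  have h2 : ∑ i, φ.symm (Pi.single i 1) = 1 := by
    rw [← map_sum, ← map_one φ.symm]
    exact congrArg _ (Finset.univ_sum_single (1 : ∀ i, Matrix (Fin (d i)) (Fin (d i)) ℂ))
  refine ⟨n, fun i => φ.symm (Pi.single i 1), fun i j h => ?_,
    fun i => ⟨h1 i, xqwed_sn _ (xqwed_snu i xqwed_inn)⟩, h2, fun e he => ?_⟩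
  · by_contra hij
    have := congrFun (φ.symm.injective h) i
    rw [Pi.single_eq_same, Pi.single_eq_of_ne hij] at this
    exact one_ne_zero this
  · by_contra hc
    refine he.1 ?_
    rw [← one_mul e, ← h2, Finset.sum_mul]
    exact Finset.sum_eq_zero fun i _ => pc_orth _ _ (h1 i) he fun h => hc ⟨i, h⟩

theorem pc_sum {A : Type} [Ring A] [Algebra ℂ A] [Module.Finite ℂ A] [IsSemisimpleRing A] :
    ∃ s : Finset A, (∀ e, e ∈ s ↔ PC e) ∧ ∑ e ∈ s, e = 1 := by
  obtain ⟨n, u, h1, h2, h3, h4⟩ := xqwed_main (A := A)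
  refine ⟨Finset.univ.map ⟨u, h1⟩, fun e => ⟨fun h => ?_, fun h => ?_⟩, ?_⟩
  · obtain ⟨i, -, rfl⟩ := Finset.mem_map.1 h
    exact (h2 i).1
  · obtain ⟨i, rfl⟩ := h4 e h
    exact Finset.mem_map.2 ⟨i, Finset.mem_univ _, rfl⟩
  · rw [Finset.sum_map]
    exact h3

theorem pc_sn {A : Type} [Ring A] [Algebra ℂ A] [Module.Finite ℂ A] [IsSemisimpleRing A] (e : A) (he : PC e) : SN e := by
  obtain ⟨n, u, -, h2, -, h4⟩ := xqwed_main (A := A)
  obtain ⟨i, rfl⟩ := h4 e he
  exact (h2 i).2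

end Pool.Agent.N9181

end

section

namespace Pool.Agent.N9181

open scoped commutatorElement

theorem canC {A : Type} [Ring A] [Algebra ℂ A] [Module.Finite ℂ A]
    {G : Type} [Group G] [Finite G] {R : Subgroup G} [R.Normal]
    (ι : R →* A) (φ : G →* (A ≃ₐ[ℂ] A)) (hA : AD ι φ) (Q : Subgroup G) (hQ : RQ R Q) (h13 : ¬ 13 ∣ Nat.card R)
    (hS : ∀ e : A, PC e → SN e) (hD : ∀ e : A, PC e → ¬ 13 ∣ bd e) :
    ∃ a : A → G → A, ∀ e, PC e → (∀ r : R, a e r = ι r * e) ∧
      (∀ q ∈ Q, ∀ q' ∈ Q, φ q e = e → φ q' e = e → a e (q * q') = a e q * a e q') ∧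
      ∀ g : G, ∀ q ∈ Q, φ q e = e → φ g (a e q) = a (φ g e) (g * q * g⁻¹) := by
  obtain ⟨s, hs⟩ : ∃ s : ℕ, ∀ q ∈ Q, q ^ (13 ^ s) ∈ R := by
    choose! f hf using hQ.pw
    obtain ⟨s, hs⟩ := (Set.finite_range f).bddAbove
    refine ⟨s, fun q hq => ?_⟩
    obtain ⟨c, rfl⟩ := Nat.exists_eq_add_of_le (hs ⟨q, rfl⟩)
    rw [pow_add, pow_mul]
    exact R.pow_mem (hf q hq) _
  have hne : Nonempty A := ⟨0⟩
  have hu : ∀ e, PC e → ∀ q ∈ Q, ∀ a, Can ι φ s e q a →
      Classical.epsilon (Can ι φ s e q) = a := fun e he q hq a ha =>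
    can_unique ι φ hA h13 s e he (hD e he) q (hs q hq) _ _ (Classical.epsilon_spec ⟨a, ha⟩) ha
  have hx : ∀ e, PC e → ∀ q ∈ Q, φ q e = e → Can ι φ s e q (Classical.epsilon (Can ι φ s e q)) :=
    fun e he q hq hqe => Classical.epsilon_spec
      (can_exists ι φ hA h13 s e he (hD e he) (hS e he) q (hs q hq) hqe)
  refine ⟨fun e q => Classical.epsilon (Can ι φ s e q), fun e he =>
    ⟨fun r => hu e he r (hQ.le r.2) _ (can_res ι φ hA s e he r), fun q hq q' hq' h h' => ?_,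
      fun g q hq h => ?_⟩⟩
  · exact hu e he _ (Q.mul_mem hq hq') _ (can_mul ι φ hA Q hQ h13 s hs e he (hD e he) (hS e he)
      q q' hq hq' h h' _ _ (hx e he q hq h) (hx e he q' hq' h'))
  · exact (hu _ (pc_map (φ g) e he) _ (hQ.nQ.conj_mem q hq g) _
      (can_equi ι φ hA s e q g _ (hx e he q hq h))).symm

end Pool.Agent.N9181

end

section

namespace Pool.Agent.N9181

open scoped commutatorElement

theorem xqgint_tr {R : Type} [Group R] [Finite R] (y : MonoidAlgebra ℂ R) :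
    LinearMap.trace ℂ _ (LinearMap.mulLeft ℂ y) = (Nat.card R : ℂ) * y.coeff 1 := by
  classical
  have := Fintype.ofFinite R
  rw [LinearMap.trace_eq_matrix_trace ℂ (MonoidAlgebra.basis R ℂ), Matrix.trace]
  have h : ∀ g, Matrix.diag (LinearMap.toMatrix (MonoidAlgebra.basis R ℂ)
      (MonoidAlgebra.basis R ℂ) (LinearMap.mulLeft ℂ y)) g = y.coeff 1 := fun g => by
    rw [Matrix.diag_apply, LinearMap.toMatrix_apply, MonoidAlgebra.basis_apply]
    change (y * MonoidAlgebra.single g 1).coeff g = _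
    rw [MonoidAlgebra.coeff_mul_single_apply, mul_inv_cancel, mul_one]
  rw [Finset.sum_congr rfl fun g _ => h g, Finset.sum_const, Finset.card_univ, nsmul_eq_mul,
    Nat.card_eq_fintype_card]

theorem gcoef {R : Type} [Group R] [Finite R] (y : MonoidAlgebra ℂ R) (r : R) :
    LinearMap.trace ℂ _ (LinearMap.mulLeft ℂ (y * MonoidAlgebra.of ℂ R r⁻¹)) =
      (Nat.card R : ℂ) * y.coeff r := by
  rw [xqgint_tr, MonoidAlgebra.of_apply, MonoidAlgebra.coeff_mul_single_apply, inv_inv, one_mul,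
    mul_one]

theorem trace_mem {M : Type} [AddCommGroup M] [Module ℂ M] [Module.Finite ℂ M] (T : Module.End ℂ M) (N : ℕ) (hN : 0 < N) (h : T ^ (N + 1) = T) :
    LinearMap.trace ℂ M T ∈ Oo := by
  rw [Module.End.trace_eq_sum_roots_charpoly_of_splits (IsAlgClosed.splits _)]
  refine multiset_sum_mem _ fun z hz => ?_
  obtain ⟨v, hv⟩ := ((Module.End.hasEigenvalue_iff_isRoot_charpoly T z).2
    (Polynomial.isRoot_of_mem_roots hz)).exists_hasEigenvector
  have h1 := hv.pow_apply (N + 1)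
  rw [h, hv.apply_eq_smul] at h1
  have h2 : z = z ^ (N + 1) := smul_left_injective ℂ hv.2 h1
  refine mem_Oo_of_root (Polynomial.X ^ (N + 1) - Polynomial.X) (Polynomial.monic_X_pow_sub ?_) z ?_
  · rw [Polynomial.degree_X]
    exact_mod_cast Nat.succ_lt_succ hN
  · rw [map_sub, map_pow, Polynomial.aeval_X, ← h2, sub_self]

theorem xqgint_coeff {R : Type} [Group R] (x : MonoidAlgebra Oo R) (r : R) :
    (gev Oo.subtype (MonoidAlgebra.of ℂ R) x).coeff r = (x.coeff r : Oo) := by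
  classical
  refine gev_ind (fun x => (gev Oo.subtype (MonoidAlgebra.of ℂ R) x).coeff r = (x.coeff r : Oo))
    (by simp) ?_ ?_ x
  · intro x y hx hy
    simp only [map_add, MonoidAlgebra.coeff_add, Finsupp.add_apply, hx, hy]
    rfl
  · intro g c
    rw [gev_single, MonoidAlgebra.of_apply, MonoidAlgebra.coeff_smul_apply,
      MonoidAlgebra.coeff_single, MonoidAlgebra.coeff_single, Finsupp.single_apply,
      Finsupp.single_apply]
    split_ifs <;> simp

theorem gev_inj {R : Type} [Group R] :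
    Function.Injective (gev Oo.subtype (MonoidAlgebra.of ℂ R)) := by
  intro x y h
  refine MonoidAlgebra.ext (Finsupp.ext fun r => Subtype.ext ?_)
  rw [← xqgint_coeff, ← xqgint_coeff, h]

theorem gint {R : Type} [Group R] [Finite R] (h13 : ¬ 13 ∣ Nat.card R)
    (y : MonoidAlgebra ℂ R)
    (h : ∀ r : R, ∃ N : ℕ, 0 < N ∧
      (y * MonoidAlgebra.of ℂ R r) ^ (N + 1) = y * MonoidAlgebra.of ℂ R r) :
    ∃ x : MonoidAlgebra Oo R, gev Oo.subtype (MonoidAlgebra.of ℂ R) x = y := by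
  have hm : ∀ r, y.coeff r ∈ Oo := fun r => by
    obtain ⟨N, hN, h1⟩ := h r⁻¹
    have h2 := trace_mem (LinearMap.mulLeft ℂ (y * MonoidAlgebra.of ℂ R r⁻¹)) N hN
      (by rw [LinearMap.pow_mulLeft, h1])
    rw [gcoef] at h2
    obtain ⟨u, hu⟩ := (unit_nat _ h13).exists_left_inv
    have h3 : (u : ℂ) * (Nat.card R : ℂ) = 1 := congrArg Subtype.val hu
    have h4 := mul_mem u.2 h2
    rwa [← mul_assoc, h3, one_mul] at h4
  exact ⟨.ofCoeff (Finsupp.equivFunOnFinite.symm fun r => ⟨y.coeff r, hm r⟩),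
    MonoidAlgebra.ext (Finsupp.ext fun r => by rw [xqgint_coeff]; rfl)⟩

theorem xqgint_bd {R : Type} [Group R] [Finite R] (e : MonoidAlgebra ℂ R) (he : e * e = e) :
    (bd e : ℂ) = (Nat.card R : ℂ) * e.coeff 1 := by
  rw [← xqgint_tr, bd]
  refine (LinearMap.IsProj.trace ⟨fun x => LinearMap.mem_range_self _ x, ?_⟩).symm
  rintro _ ⟨x, rfl⟩
  change e * (e * x) = e * x
  rw [← mul_assoc, he]

theorem xqgint_w {R : Type} [Group R] [Finite R] (e : MonoidAlgebra ℂ R) (he : PC e) (r : R) :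
    ∃ w ∈ Oo, w * e.coeff 1 = (Nat.card R : ℂ) * e.coeff r⁻¹ := by
  have := Fintype.ofFinite R
  obtain ⟨h0, -, hc, hz⟩ := he
  obtain ⟨w, hw⟩ := hz (∑ x : R, MonoidAlgebra.of ℂ R (x * r * x⁻¹)) fun y => by
    induction y using MonoidAlgebra.induction_linear with
    | zero => simp
    | add a b ha hb => rw [mul_add, add_mul, ha, hb]
    | single g c =>
      rw [Finset.sum_mul, Finset.mul_sum]
      refine (Fintype.sum_equiv (Equiv.mulLeft g) _ _ fun x => ?_).symm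
      simp [MonoidAlgebra.single_mul_single, mul_assoc]
  refine ⟨w, ?_, ?_⟩
  · have h1 : IsIntegral ℤ w := by
      refine isIntegral_of_smul_mem_submodule
        (Submodule.span ℤ (Set.range fun g : R => MonoidAlgebra.of ℂ R g * e)) ?_
        (Submodule.fg_span (Set.finite_range _)) w fun n hn => ?_
      · refine (Submodule.ne_bot_iff _).2 ⟨e, Submodule.subset_span ⟨1, ?_⟩, h0⟩
        simp only [map_one, one_mul]
      · induction hn using Submodule.span_induction with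
        | zero => simp
        | add a b _ _ ha hb =>
          rw [smul_add]
          exact add_mem ha hb
        | smul c a _ ha =>
          rw [smul_comm]
          exact Submodule.smul_mem _ _ ha
        | mem a ha =>
          obtain ⟨g, rfl⟩ := ha
          rw [← mul_smul_comm, ← hw, Finset.sum_mul, Finset.mul_sum]
          refine sum_mem fun x _ => Submodule.subset_span ⟨g * (x * r * x⁻¹), ?_⟩
          simp only [map_mul, mul_assoc]
    obtain ⟨p, hp, hp'⟩ := h1.tower_top (A := Oo)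
    exact mem_Oo_of_root p hp w hp'
  · have h1 := congrArg (fun y : MonoidAlgebra ℂ R => y.coeff 1) hw
    have h2 : ∀ x : R, (MonoidAlgebra.of ℂ R (x * r * x⁻¹) * e).coeff 1 = e.coeff r⁻¹ := fun x => by
      have h3 := congrArg (fun y : MonoidAlgebra ℂ R => y.coeff (x * r⁻¹))
        (hc (MonoidAlgebra.single x 1))
      simp only [MonoidAlgebra.coeff_mul_single_apply, MonoidAlgebra.coeff_single_mul_apply,
        mul_one, one_mul, inv_mul_cancel_left] at h3
      rw [MonoidAlgebra.of_apply, MonoidAlgebra.coeff_single_mul_apply, ← h3, one_mul, mul_one,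
        conj_inv]
    simp only [Finset.sum_mul, MonoidAlgebra.coeff_sum, Finsupp.finsetSum_apply, h2,
      MonoidAlgebra.coeff_smul_apply, smul_eq_mul, Finset.sum_const, Finset.card_univ,
      nsmul_eq_mul] at h1
    rw [← h1, Nat.card_eq_fintype_card]

theorem pc_dim {R : Type} [Group R] [Finite R] (h13 : ¬ 13 ∣ Nat.card R)
    (e : MonoidAlgebra ℂ R) (he : PC e) : ¬ 13 ∣ bd e := by
  have := Fintype.ofFinite R
  choose w hw hw' using xqgint_w e he
  have hD := xqgint_bd e he.2.1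
  have hD0 : (bd e : ℂ) ≠ 0 := by
    rw [Nat.cast_ne_zero, bd, Ne, Submodule.finrank_eq_zero]
    exact (Submodule.ne_bot_iff _).2 ⟨e, ⟨1, mul_one e⟩, he.1⟩
  have h1 : e.coeff 1 = ∑ r, e.coeff r * e.coeff r⁻¹ := by
    conv_lhs => rw [← he.2.1]
    rw [MonoidAlgebra.coeff_mul_apply_left, Finsupp.sum_fintype _ _ (by simp)]
    simp only [mul_one]
  have h2 : (Nat.card R : ℂ) ^ 2 * e.coeff 1 = e.coeff 1 ^ 2 * ∑ r, w r⁻¹ * w r := by
    conv_lhs => rw [h1]
    rw [Finset.mul_sum, Finset.mul_sum]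
    refine Finset.sum_congr rfl fun r _ => ?_
    have h3 := hw' r
    have h4 := hw' r⁻¹
    rw [inv_inv] at h4
    linear_combination (-(Nat.card R : ℂ) * e.coeff r) * h3 - w r * e.coeff 1 * h4
  have h5 : (Nat.card R : ℂ) ^ 3 = bd e * ∑ r, w r⁻¹ * w r := by
    apply mul_left_cancel₀ hD0
    rw [hD]
    linear_combination (Nat.card R : ℂ) ^ 2 * h2
  rintro ⟨k, hk⟩
  have h6 : ((Nat.card R ^ 3 : ℕ) : Oo) = ((13 * k : ℕ) : Oo) *
      ⟨∑ r, w r⁻¹ * w r, sum_mem fun r _ => mul_mem (hw _) (hw _)⟩ := by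
    apply Subtype.ext
    rw [← hk]
    change (((Nat.card R ^ 3 : ℕ) : ℂ)) = (bd e : ℂ) * ∑ r, w r⁻¹ * w r
    rw [← h5, Nat.cast_pow]
  have h7 := congrArg res h6
  rw [map_mul, map_natCast, map_natCast, (CharP.cast_eq_zero_iff Kp 13 (13 * k)).2 ⟨k, rfl⟩,
    zero_mul, CharP.cast_eq_zero_iff Kp 13] at h7
  exact h13 (Nat.Prime.dvd_of_dvd_pow (by norm_num) h7)

end Pool.Agent.N9181

end

section

namespace Pool.Agent.N9181

open scoped commutatorElement

theorem canO {G : Type} [Group G] [Finite G] (R Q : Subgroup G) [R.Normal] (hQ : RQ R Q) (h13 : ¬ 13 ∣ Nat.card R) :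
    ∃ (I : Type) (_ : Fintype I) (_ : MulAction G I) (e : I → MonoidAlgebra Oo R)
      (a : I → G → MonoidAlgebra Oo R), CD R Q I e a := by
  classical
  have : NeZero (Nat.card R : ℂ) := ⟨Nat.cast_ne_zero.2 Nat.card_pos.ne'⟩
  let ι := MonoidAlgebra.of ℂ R
  let φ : G →* (MonoidAlgebra ℂ R ≃ₐ[ℂ] MonoidAlgebra ℂ R) :=
    (MonoidAlgebra.domCongrAut (R := ℂ) (A := ℂ)).comp MulAut.conjNormal
  have hφ : ∀ (g : G) (r : R), φ g (ι r) = ι (MulAut.conjNormal g r) := fun g r => by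
    simp [φ, ι, MonoidAlgebra.domCongrAut]
  have hA : AD ι φ := ⟨hφ, fun r x => by
    induction x using MonoidAlgebra.induction_linear with
    | zero => simp
    | add x y hx hy => rw [map_add, add_mul, mul_add, hx, hy]
    | single r' c =>
      have e : MonoidAlgebra.single r' c = c • ι r' := by simp [ι]
      rw [e, map_smul, hφ, smul_mul_assoc, mul_smul_comm, ← map_mul, ← map_mul]
      congr 2
      exact Subtype.ext (by simp)⟩
  obtain ⟨a, ha⟩ := canC ι φ hA Q hQ h13 pc_sn (pc_dim h13)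
  obtain ⟨s, hs, hsum⟩ := pc_sum (A := MonoidAlgebra ℂ R)
  let J := gev Oo.subtype ι
  have hJ : Function.Injective J := gev_inj
  have hJc : ∀ g x, J (cj R g x) = φ g (J x) := fun g =>
    gev_ind _ (by simp) (fun x y hx hy => by simp only [map_add, hx, hy]) fun r c => by
      rw [cj_single, gev_single, gev_single, map_smul, hφ]
  have hR : ∀ e, PC e → ∀ r ∈ R, φ r e = e := fun e he r hr => by
    have h := hA.inn ⟨r, hr⟩ e
    rw [← he.2.2.1] at h
    exact ((Group.isUnit (⟨r, hr⟩ : R)).map ι).mul_right_cancel h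
  have h1 : ∀ e, PC e → a e 1 = e := fun e he => by
    simpa using (ha e he).1 1
  have hex : ∀ e, PC e → ∀ q ∈ Q, φ q e = e → ∃ x, J x = a e q := fun e he q hq hqe => by
    refine gint h13 _ fun r => ⟨Nat.card G, Nat.card_pos, ?_⟩
    have h2 : a e q * ι r = a e (q * r) := by
      rw [(ha e he).2.1 q hq r (hQ.le r.2) hqe (hR e he r r.2), (ha e he).1, ← he.2.2.1,
        ← mul_assoc]
      congr 1
      rw [← mul_one q, (ha e he).2.1 q hq 1 Q.one_mem hqe (hR e he 1 R.one_mem), h1 e he,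
        mul_assoc, he.2.1]
    have h3 : q * r ∈ Q := Q.mul_mem hq (hQ.le r.2)
    have h4 : ∀ n : ℕ, φ ((q * r) ^ n) e = e := fun n => by
      induction n with
      | zero => exact hR e he _ (by rw [pow_zero]; exact R.one_mem)
      | succ n ih =>
        rw [pow_succ, map_mul, map_mul, AlgEquiv.mul_apply, AlgEquiv.mul_apply, hR e he r r.2, hqe,
          ih]
    have h5 : ∀ n : ℕ, a e (q * r) ^ (n + 1) = a e ((q * r) ^ (n + 1)) := fun n => by
      induction n with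
      | zero => rw [zero_add, pow_one, pow_one]
      | succ n ih =>
        rw [pow_succ, ih, pow_succ (q * r) (n + 1),
          (ha e he).2.1 _ (Q.pow_mem h3 _) _ h3 (h4 _) (by simpa using h4 1)]
    rw [h2, h5, pow_succ, pow_card_eq_one', one_mul]
  let act : MulAction G s :=
    { smul := fun g i => ⟨φ g i, (hs _).2 (pc_map _ _ ((hs _).1 i.2))⟩
      one_smul := fun i => Subtype.ext (show φ 1 i = i by rw [map_one]; rfl)
      mul_smul := fun g h i => Subtype.ext (show φ (g * h) i = φ g (φ h i) by rw [map_mul]; rfl) }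
  have hact : ∀ (g : G) (i : s), ((g • i : s) : MonoidAlgebra ℂ R) = φ g i := fun _ _ => rfl
  let b : s → G → MonoidAlgebra Oo R := fun i q => Function.invFun J (a i q)
  have hp : ∀ i : s, PC (i : MonoidAlgebra ℂ R) := fun i => (hs _).1 i.2
  have hb : ∀ (i : s), ∀ q ∈ Q, q • i = i → J (b i q) = a i q := fun i q hq h =>
    Function.invFun_eq (hex i (hp i) q hq (congrArg Subtype.val h))
  have he : ∀ i : s, J (b i 1) = i := fun i =>
    (hb i 1 Q.one_mem (one_smul _ _)).trans (h1 _ (hp i))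
  have ht : ∀ r ∈ R, ∀ i : s, r • i = i := fun r hr i => Subtype.ext (hR _ (hp i) r hr)
  refine ⟨s, inferInstance, act, fun i => b i 1, b, hJ ?_, fun i => hJ ?_, fun i j h => hJ ?_,
    fun g i => hJ ?_, ht, fun i r => hJ ?_, fun i q hq q' hq' h h' => hJ ?_,
    fun i g q hq h => hJ ?_⟩
  · simp only [map_sum, he, map_one]
    rw [← hsum, Finset.sum_coe_sort s fun e => e]
  · rw [map_mul, he, (hp i).2.1]
  · rw [map_mul, he, he, map_zero, pc_orth _ _ (hp i) (hp j) fun e => h (Subtype.ext e)]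
  · rw [hJc, he, he, hact]
  · rw [hb i r (hQ.le r.2) (ht r r.2 i), map_mul, he, gev_of, (ha _ (hp i)).1]
  · rw [map_mul, hb i q hq h, hb i q' hq' h', hb i _ (Q.mul_mem hq hq') (by rw [mul_smul, h', h]),
      (ha _ (hp i)).2.1 q hq q' hq' (congrArg Subtype.val h) (congrArg Subtype.val h')]
  · rw [hJc, hb i q hq h, hb _ _ (hQ.nQ.conj_mem q hq g)
      (by rw [mul_smul, mul_smul, inv_smul_smul, h]), hact,
      (ha _ (hp i)).2.2 g q hq (congrArg Subtype.val h)]

end Pool.Agent.N9181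

end

section

namespace Pool.Agent.N9181

open scoped commutatorElement

section xqkered

open Polynomial UniqueFactorizationMonoid

theorem xqkered_tor {F : Type} [Field F] {M M' : Type} [AddCommGroup M] [Module F M]
    [Module F[X] M] [IsScalarTower F F[X] M] [Module.Finite F M] [AddCommGroup M'] [Module F M']
    [Module F[X] M'] [IsScalarTower F F[X] M'] [Module.Finite F M'] (g : F[X])
    (hg : Irreducible g) (h : Module.finrank F (Submodule.torsionBy F[X] M g) =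
      Module.finrank F (Submodule.torsionBy F[X] M' g)) :
    Nonempty (Submodule.torsionBy F[X] M g ≃ₗ[F[X]] Submodule.torsionBy F[X] M' g) := by
  have : Ideal.IsMaximal (F[X] ∙ g) := PrincipalIdealRing.isMaximal_of_irreducible hg
  let : Field (F[X] ⧸ (F[X] ∙ g : Ideal F[X])) := Ideal.Quotient.field _
  have : Module.Finite F (F[X] ⧸ (F[X] ∙ g : Ideal F[X])) :=
    (AdjoinRoot.powerBasis hg.ne_zero).finite
  have : Module.Finite F (Submodule.torsionBy F[X] M g) :=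
    Module.Finite.of_injective ((Submodule.torsionBy F[X] M g).subtype.restrictScalars F)
      Subtype.val_injective
  have : Module.Finite F (Submodule.torsionBy F[X] M' g) :=
    Module.Finite.of_injective ((Submodule.torsionBy F[X] M' g).subtype.restrictScalars F)
      Subtype.val_injective
  have := Module.Finite.of_restrictScalars_finite F (F[X] ⧸ (F[X] ∙ g : Ideal F[X]))
    (Submodule.torsionBy F[X] M g)
  have := Module.Finite.of_restrictScalars_finite F (F[X] ⧸ (F[X] ∙ g : Ideal F[X]))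
    (Submodule.torsionBy F[X] M' g)
  rw [← Module.finrank_mul_finrank F (F[X] ⧸ (F[X] ∙ g : Ideal F[X])),
    ← Module.finrank_mul_finrank F (F[X] ⧸ (F[X] ∙ g : Ideal F[X]))
      (Submodule.torsionBy F[X] M' g)] at h
  exact ⟨(LinearEquiv.ofFinrankEq (R := F[X] ⧸ (F[X] ∙ g : Ideal F[X])) _ _
    (Nat.eq_of_mul_eq_mul_left Module.finrank_pos h)).restrictScalars F[X]⟩

theorem xqkered_int {F : Type} [Field F] [DecidableEq F] {V : Type} [AddCommGroup V] [Module F V]
    (a : Module.End F V) (f : F[X]) (hf : Squarefree f) (ha : aeval a f = 0) :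
    DirectSum.IsInternal fun g : primeFactors f =>
      Submodule.torsionBy F[X] (Module.AEval' a) (g : F[X]) := by
  refine Submodule.torsionBy_isInternal (q := fun g : F[X] => g)
    (fun x hx y hy hxy => (pairwise_primeFactors_isRelPrime hx hy hxy).isCoprime) fun x => ?_
  obtain ⟨u, hu⟩ := hf.isRadical.dvd_radical hf.ne_zero
  change aeval a (radical f) • (Module.AEval'.of a).symm x = 0
  rw [hu, map_mul, ha, zero_mul, zero_smul]

theorem xqkered_conj {F : Type} [Field F] {V V' : Type} [AddCommGroup V] [Module F V]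
    [Module.Finite F V] [AddCommGroup V'] [Module F V'] [Module.Finite F V']
    (a : Module.End F V) (a' : Module.End F V') (f : F[X]) (hf : Squarefree f)
    (ha : aeval a f = 0) (ha' : aeval a' f = 0)
    (h : ∀ g : F[X], Irreducible g → g.Monic →
      Module.finrank F (LinearMap.ker (aeval a g)) =
        Module.finrank F (LinearMap.ker (aeval a' g))) :
    ∃ e : V ≃ₗ[F] V', ∀ v, e (a v) = a' (e v) := by
  classical
  have hφ := fun g : primeFactors f => xqkered_tor (M := Module.AEval' a) (M' := Module.AEval' a')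
    (g : F[X]) (irreducible_of_normalized_factor _ (mem_primeFactors.1 g.2))
    (h g (irreducible_of_normalized_factor _ (mem_primeFactors.1 g.2))
      ((Polynomial.mem_normalizedFactors_iff hf.ne_zero).1 (mem_primeFactors.1 g.2)).2.1)
  let e : Module.AEval' a ≃ₗ[F[X]] Module.AEval' a' :=
    (LinearEquiv.ofBijective (DirectSum.coeLinearMap _) (xqkered_int a f hf ha)).symm ≪≫ₗ
      DirectSum.congrLinearEquiv (fun g => (hφ g).some) ≪≫ₗ
        LinearEquiv.ofBijective (DirectSum.coeLinearMap _) (xqkered_int a' f hf ha')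
  refine ⟨Module.AEval'.of a ≪≫ₗ e.restrictScalars F ≪≫ₗ (Module.AEval'.of a').symm, fun v => ?_⟩
  simp only [LinearEquiv.trans_apply, LinearEquiv.restrictScalars_apply]
  rw [← Module.AEval'.X_smul_of, map_smul, Module.AEval'.of_symm_X_smul]

theorem xqkered_sq {F : Type} [Field F] [CharP F 13] {N : ℕ} (hN : ¬ 13 ∣ N) :
    Squarefree (X ^ N - 1 : F[X]) :=
  (X_pow_sub_one_separable_iff.2 fun h => hN ((CharP.cast_eq_zero_iff F 13 N).1 h)).squarefree

end xqkered

theorem ker_ed {L : Type} [Field L] [IsAlgClosed L] [CharP L 13] {M : Type}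
    [AddCommGroup M] [Module L M] [Module.Finite L M] (a a' : Module.End L M) (N : ℕ)
    (hN : ¬ 13 ∣ N) (ha : a ^ N = 1) (ha' : a' ^ N = 1) (h : ∀ c, edF a c = edF a' c)
    (g : Polynomial L) :
    Module.finrank L (LinearMap.ker (Polynomial.aeval a g)) =
      Module.finrank L (LinearMap.ker (Polynomial.aeval a' g)) := by
  obtain ⟨e, he⟩ := xqkered_conj a a' _ (xqkered_sq hN) (by simp [ha]) (by simp [ha'])
    fun p hp hm => by
      have h1 := hm.eq_X_add_C (Polynomial.natDegree_eq_of_degree_eq_some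
        (IsAlgClosed.degree_eq_one_of_irreducible L hp))
      have h2 : ∀ b : Module.End L M,
          LinearMap.ker (Polynomial.aeval b p) = b.eigenspace (-p.coeff 0) := fun b => by
        ext v
        rw [Module.End.mem_eigenspace_iff, LinearMap.mem_ker, h1]
        simp [add_eq_zero_iff_eq_neg]
      rw [h2, h2]
      exact h _
  have h1 : ∀ v, e (Polynomial.aeval a g v) = Polynomial.aeval a' g (e v) := by
    induction g using Polynomial.induction_on with
    | C c => simp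
    | add p q hp hq => simp [hp, hq]
    | monomial n c ih =>
      intro v
      rw [pow_succ, ← mul_assoc, map_mul, map_mul (Polynomial.aeval a'), Polynomial.aeval_X,
        Polynomial.aeval_X, Module.End.mul_apply, Module.End.mul_apply, ih, he]
  have h2 : Submodule.map (e : M →ₗ[L] M) (LinearMap.ker (Polynomial.aeval a g)) =
      LinearMap.ker (Polynomial.aeval a' g) := by
    ext v
    obtain ⟨v, rfl⟩ := e.surjective v
    simp [← h1]
  rw [← h2, e.finrank_map_eq]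

theorem conj_of_ker {V : Type} [AddCommGroup V] [Module K V] [Module.Finite K V] {V' : Type} [AddCommGroup V'] [Module K V'] [Module.Finite K V']
    (a : Module.End K V) (a' : Module.End K V') (N : ℕ) (hN : ¬ 13 ∣ N) (ha : a ^ N = 1)
    (ha' : a' ^ N = 1)
    (h : ∀ g : Polynomial K, Module.finrank K (LinearMap.ker (Polynomial.aeval a g)) =
      Module.finrank K (LinearMap.ker (Polynomial.aeval a' g))) :
    ∃ e : V ≃ₗ[K] V', ∀ v, e (a v) = a' (e v) := by
  exact xqkered_conj a a' _ (xqkered_sq hN) (by simp [ha]) (by simp [ha']) fun g _ _ => h g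

end Pool.Agent.N9181

end

section

namespace Pool.Agent.N9181

open scoped commutatorElement

open Polynomial in
theorem root_lift (N : ℕ) (hN : ¬ 13 ∣ N) (c : Kp) (hc : c ^ N = 1) :
    ∃ ζ : Oo, ζ ^ N = 1 ∧ res ζ = c := by
  have hN0 : 0 < N := Nat.pos_of_ne_zero (by rintro rfl; exact hN (dvd_zero _))
  have hz := Complex.isPrimitiveRoot_exp N hN0.ne'
  generalize Complex.exp (2 * Real.pi * Complex.I / N) = z at hz
  have hm : (X ^ N - C 1 : Oo[X]).Monic := monic_X_pow_sub_C 1 hN0.ne'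
  have h0 : z ∈ Oo := mem_Oo_of_root _ hm z (by simp [hz.pow_eq_one])
  have hw : IsPrimitiveRoot (⟨z, h0⟩ : Oo) N :=
    IsPrimitiveRoot.of_map_of_injective (f := Oo.subtype) hz Subtype.val_injective
  generalize (⟨z, h0⟩ : Oo) = w at hw
  have h1 := congrArg (eval₂ res c) (X_pow_sub_C_eq_prod hw hN0 (one_pow N))
  rw [eval₂_sub, eval₂_X_pow, eval₂_C, map_one, hc, sub_self, eval₂_finsetProd] at h1
  obtain ⟨i, -, hi⟩ := Finset.prod_eq_zero_iff.1 h1.symm
  rw [eval₂_sub, eval₂_X, eval₂_C, mul_one, sub_eq_zero] at hi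
  exact ⟨w ^ i, by rw [← pow_mul, mul_comm, pow_mul, hw.pow_eq_one, one_pow], hi.symm⟩

theorem xqochar_core {M : Type} [AddCommGroup M] [Module Kp M] [Module.Finite Kp M]
    (a : Module.End Kp M) (N : ℕ) (hN : ¬ 13 ∣ N) (ha : a ^ N = 1) (x : ℕ → ℂ)
    (hx : ∀ k, IsCt (a ^ k) (x k)) {n : ℕ} (b : Module.Basis (Fin n) Kp M)
    (A : Matrix (Fin n) (Fin n) Oo) (hA : A ^ N = 1) (hAa : A.map res = LinearMap.toMatrix b b a)
    (u c : Oo) (hu : u * N = 1) (hc : c ^ N = 1) :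
    (edF a (res c) : ℂ) = ∑ k ∈ Finset.range N, ((u * c ^ (N - k) : Oo) : ℂ) * x k := by
  have hk : ∀ k, (A ^ k).map res = LinearMap.toMatrix b b (a ^ k) := by
    intro k
    rw [← LinearMap.toMatrix_pow, ← hAa]
    exact map_pow res.mapMatrix A k
  have ht : ∀ k, x k = (((A ^ k).trace : Oo) : ℂ) := fun k =>
    isCt_unique (a ^ k) _ _ (hx k) ⟨n, b, A ^ k, N, hN, by
      rw [← pow_mul, mul_comm, pow_mul, hA, one_pow], hk k, rfl⟩
  have hc' : res c ^ N = 1 := by rw [← map_pow, hc, map_one]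
  have hu' : res u * (N : Kp) = 1 := by rw [← map_natCast res, ← map_mul, hu, map_one]
  have h := oct_rank b (∑ k ∈ Finset.range N, res (u * c ^ (N - k)) • a ^ k)
    (∑ k ∈ Finset.range N, (u * c ^ (N - k)) • A ^ k) ?_ ?_
  · have hr : LinearMap.range (∑ k ∈ Finset.range N, res (u * c ^ (N - k)) • a ^ k) =
        a.eigenspace (res c) := by
      have h1 := xbteig_geom a (res c) N ha hc'
      simp only [map_mul, map_pow, mul_smul, ← Finset.smul_sum]
      ext v
      rw [Module.End.mem_eigenspace_iff, LinearMap.mem_range]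
      constructor
      · rintro ⟨w, rfl⟩
        generalize ∑ k ∈ Finset.range N, res c ^ (N - k) • a ^ k = S at h1
        have h2 : a (S w) = res c • S w := LinearMap.congr_fun h1 w
        rw [LinearMap.smul_apply, map_smul, h2, smul_comm]
      · intro hv
        have hk : ∀ k, (a ^ k) v = res c ^ k • v := by
          intro k
          induction k with
          | zero => simp
          | succ k ih =>
            rw [pow_succ', Module.End.mul_apply, ih, map_smul, hv, smul_smul, ← pow_succ]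
        refine ⟨v, ?_⟩
        rw [LinearMap.smul_apply, LinearMap.sum_apply, Finset.sum_congr rfl (g := fun _ => v),
          Finset.sum_const, Finset.card_range, ← Nat.cast_smul_eq_nsmul Kp, smul_smul, hu',
          one_smul]
        intro k hk'
        rw [LinearMap.smul_apply, hk, smul_smul, ← pow_add,
          Nat.sub_add_cancel (Finset.mem_range.1 hk').le, hc', one_smul]
    rw [edF, ← hr, ← h, Matrix.trace_sum]
    refine (map_sum Oo.subtype _ _).trans (Finset.sum_congr rfl fun k _ => ?_)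
    rw [Matrix.trace_smul, smul_eq_mul, ht]
    rfl
  · have h1 := xbteig_geom A c N hA hc
    simp only [mul_smul, ← Finset.smul_sum]
    generalize hS : ∑ k ∈ Finset.range N, c ^ (N - k) • A ^ k = S at h1
    have h2 : S * S = (N : Oo) • S := by
      nth_rewrite 1 [← hS]
      rw [Finset.sum_mul, Finset.sum_congr rfl (g := fun _ => S), Finset.sum_const,
        Finset.card_range, Nat.cast_smul_eq_nsmul]
      intro k hk
      rw [smul_mul_assoc, xbteig_pow A S c h1, smul_smul, ← pow_add,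
        Nat.sub_add_cancel (Finset.mem_range.1 hk).le, hc, one_smul]
    rw [smul_mul_smul_comm, h2, smul_smul, mul_assoc, hu, mul_one]
  · rw [map_sum]
    refine (map_sum res.mapMatrix _ _).trans (Finset.sum_congr rfl fun k _ => ?_)
    rw [(LinearMap.toMatrix b b).map_smul, ← hk]
    ext i j
    simp

theorem xqochar_zero {M : Type} [AddCommGroup M] [Module Kp M] (a : Module.End Kp M) (N : ℕ)
    (ha : a ^ N = 1) (c : Kp) (hc : c ^ N ≠ 1) : edF a c = 0 := by
  have : a.eigenspace c = ⊥ := by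
    by_contra h
    have h1 : (a ^ N).HasEigenvalue (c ^ N) := Module.End.HasEigenvalue.pow h N
    obtain ⟨v, hv⟩ := h1.exists_hasEigenvector
    have h2 := hv.apply_eq_smul
    rw [ha, Module.End.one_apply] at h2
    refine hc (smul_left_injective Kp hv.2 ?_)
    simpa using h2.symm
  rw [edF, this, finrank_bot]

theorem ochar {M : Type} [AddCommGroup M] [Module Kp M] [Module.Finite Kp M] (a a' : Module.End Kp M) (N : ℕ) (hN : ¬ 13 ∣ N) (ha : a ^ N = 1)
    (ha' : a' ^ N = 1) (x : ℕ → ℂ) (hx : ∀ k, IsCt (a ^ k) (x k))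
    (hx' : ∀ k, IsCt (a' ^ k) (x k)) (c : Kp) : edF a c = edF a' c := by
  by_cases hc : c ^ N = 1
  swap
  · rw [xqochar_zero a N ha c hc, xqochar_zero a' N ha' c hc]
  obtain ⟨z, hz, rfl⟩ := root_lift N hN c hc
  obtain ⟨n, b, A, N1, h1, hA, hAa, -⟩ := hx 1
  obtain ⟨n', b', A', N2, h2, hA', hAa', -⟩ := hx' 1
  rw [pow_one] at hAa hAa'
  have hp : Nat.Prime 13 := by norm_num
  have h3 : ¬ 13 ∣ N * (N1 * N2) := fun h =>
    (hp.dvd_mul.1 h).elim hN fun h => (hp.dvd_mul.1 h).elim h1 h2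
  obtain ⟨u, hu⟩ := (unit_nat _ h3).exists_left_inv
  have hz' : z ^ (N * (N1 * N2)) = 1 := by rw [pow_mul, hz, one_pow]
  have e1 := xqochar_core a _ h3 (by rw [pow_mul, ha, one_pow]) x hx b A
    (by rw [mul_left_comm, pow_mul, hA, one_pow]) hAa u z hu hz'
  have e2 := xqochar_core a' _ h3 (by rw [pow_mul, ha', one_pow]) x hx' b' A'
    (by rw [← mul_assoc, mul_comm, pow_mul, hA', one_pow]) hAa' u z hu hz'
  exact_mod_cast e1.trans e2.symm

end Pool.Agent.N9181

end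

section

namespace Pool.Agent.N9181

open scoped commutatorElement

theorem char_gal {M : Type} [AddCommGroup M] [Module ℂ M] [Module.Finite ℂ M] (a : Module.End ℂ M) (N : ℕ) (hN : 0 < N) (ha : a ^ N = 1)
    (ζ : ℂ) (hζ : IsPrimitiveRoot ζ N) :
    ∃ m : ℕ → ℕ, ∀ j : ℕ,
      LinearMap.trace ℂ M (a ^ j) = ∑ k ∈ Finset.range N, (m k : ℂ) * (ζ ^ j) ^ k := by
  have hz : ζ ≠ 0 := hζ.ne_zero hN.ne'
  have hN' : (N : ℂ) ≠ 0 := by exact_mod_cast hN.ne'
  let E : ℕ → Module.End ℂ M := fun k => (N : ℂ)⁻¹ • ∑ i ∈ Finset.range N, (ζ⁻¹ ^ k • a) ^ i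
  have h1 : ∀ k, (ζ⁻¹ ^ k • a) * E k = E k := fun k => by
    have h := mul_geom_sum (ζ⁻¹ ^ k • a) N
    rw [smul_pow, ha, ← pow_mul, mul_comm k N, pow_mul, hζ.inv.pow_eq_one, one_pow, one_smul,
      sub_self, sub_mul, one_mul, sub_eq_zero] at h
    simp only [E]
    rw [mul_smul_comm, h]
  have h2 : ∀ k i, (ζ⁻¹ ^ k • a) ^ i * E k = E k := fun k i => by
    induction i with
    | zero => rw [pow_zero, one_mul]
    | succ i ih => rw [pow_succ, mul_assoc, h1, ih]
  have h3 : ∀ k, IsIdempotentElem (E k) := fun k => by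
    change ((N : ℂ)⁻¹ • ∑ i ∈ Finset.range N, (ζ⁻¹ ^ k • a) ^ i) * E k = E k
    rw [smul_mul_assoc, Finset.sum_mul, Finset.sum_congr rfl fun i _ => h2 k i, Finset.sum_const,
      Finset.card_range, ← Nat.cast_smul_eq_nsmul ℂ, smul_smul, inv_mul_cancel₀ hN', one_smul]
  have h4 : ∀ k j, a ^ j * E k = (ζ ^ j) ^ k • E k := fun k j => by
    conv_rhs => rw [← h2 k j]
    rw [smul_pow, smul_mul_assoc, smul_smul, ← pow_mul, ← pow_mul, mul_comm k j, ← mul_pow,
      mul_inv_cancel₀ hz, one_pow, one_smul]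
  have h5 : ∑ k ∈ Finset.range N, E k = 1 := by
    simp only [E]
    rw [← Finset.smul_sum, Finset.sum_comm, Finset.sum_eq_single 0]
    · simp only [pow_zero, Finset.sum_const, Finset.card_range]
      rw [← Nat.cast_smul_eq_nsmul ℂ, smul_smul, inv_mul_cancel₀ hN', one_smul]
    · intro i hi hi0
      have hne : ζ⁻¹ ^ i - 1 ≠ 0 :=
        sub_ne_zero.2 (hζ.inv.pow_ne_one_of_pos_of_lt hi0 (Finset.mem_range.1 hi))
      have h := mul_geom_sum (ζ⁻¹ ^ i) N
      rw [← pow_mul, mul_comm i N, pow_mul, hζ.inv.pow_eq_one, one_pow, sub_self] at h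
      simp only [smul_pow]
      rw [← Finset.sum_smul, Finset.sum_congr rfl fun k _ => pow_right_comm ζ⁻¹ k i,
        (mul_eq_zero.1 h).resolve_left hne, zero_smul]
    · intro h
      exact (h (Finset.mem_range.2 hN)).elim
  refine ⟨fun k => Module.finrank ℂ (LinearMap.range (E k)), fun j => ?_⟩
  rw [← mul_one (a ^ j), ← h5, Finset.mul_sum, map_sum]
  refine Finset.sum_congr rfl fun k _ => ?_
  rw [h4, map_smul, (LinearMap.IsIdempotentElem.isProj_range _ (h3 k)).trace, smul_eq_mul,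
    mul_comm]

theorem xqcqp_irr {G : Type} [Group G] {V : Type} [AddCommGroup V] [Module ℂ V]
    (ρ : Representation ℂ G V) (hρ : IrrF ρ) : ρ.IsIrreducible := by
  obtain ⟨⟨v, hv⟩, h⟩ := hρ
  have : Nontrivial (Subrepresentation ρ) := ⟨⊥, ⊤, fun h1 => hv (by
    have h2 : (⊥ : Submodule ℂ V) = ⊤ := congrArg Subrepresentation.toSubmodule h1
    have : v ∈ (⊥ : Submodule ℂ V) := h2 ▸ Submodule.mem_top
    simpa using this)⟩
  refine ⟨fun S => ?_⟩
  rcases h S.toSubmodule (fun g v hv => S.apply_mem_toSubmodule g hv) with h1 | h1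
  · exact Or.inl (Subrepresentation.toSubmodule_injective h1)
  · exact Or.inr (Subrepresentation.toSubmodule_injective h1)

theorem xqcqp_quad {s : ℂ} {d : ℤ} (hs : s ^ 2 = d) {z : ℂ}
    (hz : z ∈ IntermediateField.adjoin ℚ {s}) : ∃ x y : ℚ, z = x + y * s := by
  have hi : IsIntegral ℚ s := by
    refine IsIntegral.of_pow two_pos ?_
    rw [hs, ← map_intCast (algebraMap ℚ ℂ)]
    exact isIntegral_algebraMap
  have hz' : z ∈ Algebra.adjoin ℚ {s} := by
    rw [← IntermediateField.adjoin_simple_toSubalgebra_of_isAlgebraic hi.isAlgebraic]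
    exact hz
  clear hz
  induction hz' using Algebra.adjoin_induction with
  | mem x hx => exact ⟨0, 1, by simpa using hx⟩
  | algebraMap r => exact ⟨r, 0, by simp⟩
  | add x y _ _ hx hy =>
    obtain ⟨a, b, rfl⟩ := hx
    obtain ⟨a', b', rfl⟩ := hy
    exact ⟨a + a', b + b', by push_cast; ring⟩
  | mul x y _ _ hx hy =>
    obtain ⟨a, b, rfl⟩ := hx
    obtain ⟨a', b', rfl⟩ := hy
    exact ⟨a * a' + b * b' * d, a * b' + b * a', by
      push_cast
      linear_combination (b * b' : ℂ) * hs⟩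

theorem xqcqp_hom {N : ℕ} (hN : 0 < N) {ζ : ℂ} (hζ : IsPrimitiveRoot ζ N) {j : ℕ}
    (hj : j.Coprime N) : ∃ φ : IntermediateField.adjoin ℚ {ζ} →ₐ[ℚ] ℂ,
      φ (IntermediateField.AdjoinSimple.gen ℚ ζ) = ζ ^ j := by
  have hi : IsIntegral ℚ ζ := (hζ.isIntegral hN).tower_top
  have h : Polynomial.aeval (ζ ^ j) (minpoly ℚ ζ) = 0 := by
    rw [← Polynomial.cyclotomic_eq_minpoly_rat hζ hN,
      Polynomial.cyclotomic_eq_minpoly_rat (hζ.pow_of_coprime j hj) hN]
    exact minpoly.aeval _ _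
  exact ⟨_, IntermediateField.algHomAdjoinIntegralEquiv_symm_apply_gen ℚ hi
    ⟨ζ ^ j, Polynomial.mem_aroots.2 ⟨minpoly.ne_zero hi, h⟩⟩⟩

theorem qp_of_qr {G : Type} [Group G] [Finite G] (h : Pool.Agent.MP_9181f8_al.IsQR G) : QP G (Nat.card G) := by
  have hN : 0 < Nat.card G := Nat.card_pos
  refine ⟨dvd_rfl, hN, fun M _ _ _ τ hτ => ?_⟩
  have hζ := Complex.isPrimitiveRoot_exp _ hN.ne'
  generalize Complex.exp (2 * Real.pi * Complex.I / Nat.card G) = ζ at hζ
  have hg : ∀ g : G, ∃ m : ℕ → ℕ, ∀ j : ℕ, τ.character (g ^ j) =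
      ∑ k ∈ Finset.range (Nat.card G), (m k : ℂ) * (ζ ^ j) ^ k := fun g => by
    obtain ⟨m, hm⟩ := char_gal (τ g) _ hN (by rw [← map_pow, pow_card_eq_one', map_one]) ζ hζ
    exact ⟨m, fun j => by rw [← hm, ← map_pow]; rfl⟩
  choose m hm using hg
  let F := IntermediateField.adjoin ℚ {ζ}
  let w : G → F := fun g =>
    ∑ k ∈ Finset.range (Nat.card G), (m g k : F) * IntermediateField.AdjoinSimple.gen ℚ ζ ^ k
  have hw : ∀ g, (w g : ℂ) = τ.character g := fun g => by
    have h1 := hm g 1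
    rw [pow_one, pow_one] at h1
    rw [h1]
    simp [w]
  have hle : IntermediateField.adjoin ℚ (Set.range τ.character) ≤ F :=
    IntermediateField.adjoin_le_iff.2 fun _ ⟨g, hg⟩ => hg ▸ hw g ▸ (w g).2
  obtain ⟨d, s, hs, hsF, hxy⟩ : ∃ (d : ℤ) (s : ℂ), s ^ 2 = d ∧ s ∈ F ∧
      ∀ g, ∃ x y : ℚ, τ.character g = x + y * s := by
    rcases h M τ (xqcqp_irr τ hτ) with h1 | ⟨d, -, s, hs, h1⟩
    · refine ⟨0, 0, by simp, F.zero_mem, fun g => ?_⟩
      have h2 : τ.character g ∈ (⊥ : IntermediateField ℚ ℂ) :=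
        h1 ▸ IntermediateField.subset_adjoin _ _ ⟨g, rfl⟩
      obtain ⟨x, hx⟩ := IntermediateField.mem_bot.1 h2
      exact ⟨x, 0, by simp [← hx]⟩
    · exact ⟨d, s, hs, hle (h1 ▸ IntermediateField.mem_adjoin_simple_self ℚ s), fun g =>
        xqcqp_quad hs (h1 ▸ IntermediateField.subset_adjoin _ _ ⟨g, rfl⟩)⟩
  have key : ∀ j : ℕ, j.Coprime (Nat.card G) → ∃ t : ℂ, (t = s ∨ t = -s) ∧
      ∀ (g : G) (x y : ℚ), τ.character g = x + y * s → τ.character (g ^ j) = x + y * t := by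
    intro j hj
    obtain ⟨φ, hφ⟩ := xqcqp_hom hN hζ hj
    refine ⟨φ ⟨s, hsF⟩, sq_eq_sq_iff_eq_or_eq_neg.1 ?_, fun g x y hxy => ?_⟩
    · rw [← map_pow, hs, ← map_intCast φ]
      exact congrArg φ (Subtype.ext (by simpa using hs))
    · have h1 : w g = (x : F) + (y : F) * ⟨s, hsF⟩ := Subtype.ext (by
        rw [hw, hxy]
        simp)
      have h2 : φ (w g) = τ.character (g ^ j) := by
        rw [hm]
        simp only [w, map_sum, map_mul, map_natCast, map_pow, hφ]
      rw [← h2, h1, map_add, map_mul, map_ratCast, map_ratCast]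
  intro j j' hj hj'
  obtain ⟨t, ht | ht, h1⟩ := key j hj
  · refine Or.inl fun g => ?_
    obtain ⟨x, y, e⟩ := hxy g
    rw [h1 g x y e, e, ht]
  obtain ⟨t', ht' | ht', h2⟩ := key j' hj'
  · refine Or.inr (Or.inl fun g => ?_)
    obtain ⟨x, y, e⟩ := hxy g
    rw [h2 g x y e, e, ht']
  refine Or.inr (Or.inr fun g => ?_)
  obtain ⟨x, y, e⟩ := hxy g
  rw [pow_mul, h2 (g ^ j) x (-y) (by rw [h1 g x y e, ht]; push_cast; ring), e, ht']
  push_cast
  ring

theorem qp_surj {G : Type} [Group G] [Finite G] {G' : Type} [Group G'] (f : G →* G')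
    (hf : Function.Surjective f) (N : ℕ) (hP : QP G N) : QP G' N := by
  obtain ⟨h1, h2, h3⟩ := hP
  refine ⟨(Subgroup.card_dvd_of_surjective f hf).trans h1, h2, fun M _ _ _ τ hτ j j' hj hj' => ?_⟩
  have key : ∀ i, SS (τ.comp f : Representation ℂ G M) i → SS τ i := fun i h g => by
    obtain ⟨g, rfl⟩ := hf g
    rw [← map_pow]
    exact h g
  refine (h3 M (τ.comp f) ⟨hτ.1, fun W hW => hτ.2 W fun g v hv => ?_⟩ j j' hj hj').imp (key _)
    (Or.imp (key _) (key _))
  obtain ⟨g, rfl⟩ := hf g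
  exact hW g v hv

end Pool.Agent.N9181

end

section

namespace Pool.Agent.N9181

open scoped commutatorElement

theorem xpbasic_order {G : Type} [Group G] {a b : G} (h : IsConj a b) : orderOf a = orderOf b := by
  obtain ⟨c, hc⟩ := h
  exact SemiconjBy.orderOf_eq (c : G) hc

theorem xpbasic_mm {G : Type} [Group G] [Finite G] (N m : ℕ) (hP : PP G N m) (x : G) :
    IsConj x (x ^ (m * m)) := by
  obtain ⟨⟨hc, -, hm⟩, h⟩ := hP
  rcases h x (m * m) (Nat.Coprime.mul_left hm hm) with a | a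
  · exact a
  · obtain ⟨k, hk⟩ := exists_pow_eq_self_of_coprime (x := x)
      (hm.coprime_dvd_right ((orderOf_dvd_natCard x).trans hc))
    have b := a.pow k
    have e : (x ^ (m * m)) ^ k = x ^ m := by
      rw [pow_mul, ← pow_mul _ m k, mul_comm m k, pow_mul _ k m, hk]
    rw [hk, e] at b
    exact b.trans a

theorem pp_of_usr {G : Type} [Group G] [Finite G] (h : Pool.Agent.MP_9181f8_al.IsUSR G) :
    ∃ m : ℕ, PP G (Nat.card G) m := by
  obtain ⟨m, hm⟩ := h
  have hN : 0 < Nat.card G := Nat.card_pos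
  obtain ⟨m0, hm0⟩ : ∃ m0 : ℕ, ∀ x : G, x ^ m = x ^ m0 := by
    refine ⟨(m % Nat.card G).toNat, fun x => ?_⟩
    rw [← zpow_natCast, Int.toNat_of_nonneg (Int.emod_nonneg _ (by exact_mod_cast hN.ne')),
      zpow_mod_natCard]
  let s := (Nat.card G).divisors.filter fun d => m0.Coprime d
  have hr : s.lcm id ∣ Nat.card G :=
    Finset.lcm_dvd fun d hd => Nat.dvd_of_mem_divisors (Finset.mem_filter.1 hd).1
  have hc : m0.Coprime (s.lcm id) :=
    (Nat.Coprime.prod_right fun d hd => (Finset.mem_filter.1 hd).2).coprime_dvd_right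
      (Finset.lcm_dvd_prod s id)
  obtain ⟨k, hk, hkm⟩ := exists_j _ _ m0 hr hN hc
  refine ⟨k, ⟨dvd_rfl, hN, hk⟩, fun x j hj => ?_⟩
  have hjx : j.Coprime (orderOf x) := hj.coprime_dvd_right (orderOf_dvd_natCard x)
  rcases hm x j (by simpa using hjx) with a | a
  · left
    rw [zpow_natCast] at a
    exact a.symm
  · right
    rw [zpow_natCast, hm0] at a
    have b := xpbasic_order a
    rw [hjx.symm.orderOf_pow, orderOf_pow, eq_comm, Nat.div_eq_self] at b
    have hx : m0.Coprime (orderOf x) := Nat.Coprime.symm (b.resolve_left (orderOf_pos x).ne')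
    have hd : orderOf x ∣ s.lcm id := Finset.dvd_lcm (f := id) (Finset.mem_filter.2
      ⟨Nat.mem_divisors.2 ⟨orderOf_dvd_natCard x, hN.ne'⟩, hx⟩)
    rw [pow_eq_pow_iff_modEq.2 (hkm.of_dvd hd)]
    exact a.symm

theorem pp_surj {G : Type} [Group G] [Finite G] {G' : Type} [Group G'] (f : G →* G')
    (hf : Function.Surjective f) (N m : ℕ) (hP : PP G N m) : PP G' N m := by
  obtain ⟨⟨hc, hN, hm⟩, h⟩ := hP
  refine ⟨⟨(Subgroup.card_dvd_of_surjective f hf).trans hc, hN, hm⟩, fun y j hj => ?_⟩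
  obtain ⟨x, rfl⟩ := hf y
  rw [← map_pow, ← map_pow]
  exact (h x j hj).imp f.map_isConj f.map_isConj

theorem pp_sq {G : Type} [Group G] [Finite G] (N m : ℕ) (hP : PP G N m) (x : G) (j : ℕ) (hj : j.Coprime N) :
    IsConj x (x ^ (j * j)) := by
  rcases hP.2 x j hj with a | a
  · have b := a.pow j
    rw [← pow_mul] at b
    exact a.trans b
  · have b := a.pow j
    have c := a.pow m
    rw [← pow_mul, ← pow_mul] at b c
    rw [mul_comm j m] at c
    exact (xpbasic_mm N m hP x).trans (c.trans b)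

theorem pp_U {V : Type} [AddCommGroup V] [Module K V] [Module.Finite K V]
    {G : Type} [Group G] [Finite G] (ρ : Representation K G V) (N m : ℕ) (hP : PP G N m) : HU ρ N m := by
  intro h j hj M
  rcases hP.2 h j hj with a | a
  · have b := a.pow m
    rw [← pow_mul] at b
    rw [← bt_isConj ρ _ _ a, ← bt_isConj ρ _ _ b]
  · have b := a.pow m
    rw [← pow_mul, ← pow_mul] at b
    rw [← bt_isConj ρ _ _ a, ← bt_isConj ρ _ _ ((xpbasic_mm N m hP h).trans b), add_comm]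

theorem pp_rat {G : Type} [Group G] [Finite G] (N m : ℕ) (hP : PP G N m) (x : G) (h : IsConj x (x ^ m)) (j : ℕ)
    (hj : j.Coprime N) : IsConj x (x ^ j) :=
  (hP.2 x j hj).elim id h.trans

end Pool.Agent.N9181

end

section

namespace Pool.Agent.N9181

open scoped commutatorElement

/-- the additive copy of a subgroup -/
structure XembbV {G : Type} [Group G] (B : Subgroup G)
    (hc : ∀ a ∈ B, ∀ b ∈ B, a * b = b * a) : Type where
  val : G
  mem : val ∈ B

theorem xembb_ext {G : Type} [Group G] {B : Subgroup G}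
    {hc : ∀ a ∈ B, ∀ b ∈ B, a * b = b * a} {x y : XembbV B hc} (h : x.val = y.val) : x = y := by
  cases x
  cases y
  cases h
  rfl

instance xembbGrp {G : Type} [Group G] (B : Subgroup G)
    (hc : ∀ a ∈ B, ∀ b ∈ B, a * b = b * a) : AddCommGroup (XembbV B hc) where
  add x y := ⟨x.val * y.val, B.mul_mem x.mem y.mem⟩
  zero := ⟨1, B.one_mem⟩
  neg x := ⟨x.val⁻¹, B.inv_mem x.mem⟩
  add_assoc x y z := xembb_ext (mul_assoc x.val y.val z.val)
  zero_add x := xembb_ext (one_mul x.val)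
  add_zero x := xembb_ext (mul_one x.val)
  add_comm x y := xembb_ext (hc _ x.mem _ y.mem)
  neg_add_cancel x := xembb_ext (inv_mul_cancel x.val)
  nsmul n x := ⟨x.val ^ n, B.pow_mem x.mem n⟩
  nsmul_zero x := xembb_ext (pow_zero x.val)
  nsmul_succ n x := xembb_ext (pow_succ x.val n)
  zsmul n x := ⟨x.val ^ n, B.zpow_mem x.mem n⟩
  zsmul_zero' x := xembb_ext (zpow_zero x.val)
  zsmul_succ' n x := xembb_ext (by
    show x.val ^ ((n.succ : ℕ) : ℤ) = x.val ^ (n : ℤ) * x.val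
    rw [zpow_natCast, zpow_natCast, pow_succ])
  zsmul_neg' n x := xembb_ext (by
    show x.val ^ (Int.negSucc n) = (x.val ^ ((n.succ : ℕ) : ℤ))⁻¹
    rw [zpow_negSucc, zpow_natCast])

/-- conjugation as an additive map -/
def xembbConj {G : Type} [Group G] (B : Subgroup G) (hB : B.Normal)
    (hc : ∀ a ∈ B, ∀ b ∈ B, a * b = b * a) (g : G) : XembbV B hc →+ XembbV B hc where
  toFun x := ⟨g * x.val * g⁻¹, hB.conj_mem _ x.mem g⟩
  map_zero' := xembb_ext (by
    show g * 1 * g⁻¹ = 1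
    group)
  map_add' x y := xembb_ext (by
    show g * (x.val * y.val) * g⁻¹ = (g * x.val * g⁻¹) * (g * y.val * g⁻¹)
    group)

theorem exists_emb {G : Type} [Group G] [Finite G] (B : Subgroup G) (hB : B.Normal)
    (hc : ∀ a ∈ B, ∀ b ∈ B, a * b = b * a) (hp : ∀ a ∈ B, a ^ 13 = 1) :
    ∃ (V : Type) (_ : AddCommGroup V) (_ : Module K V) (_ : Module.Finite K V)
      (ρ : Representation K G V) (ι : V → G), Emb ρ ι ∧ ∀ g, g ∈ B ↔ ∃ v, ι v = g := by
  have h13 : ∀ x : XembbV B hc, 13 • x = 0 := fun x => xembb_ext (hp x.val x.mem)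
  letI : Module K (XembbV B hc) := AddCommGroup.zmodModule h13
  have hinj : Function.Injective (fun x : XembbV B hc => x.val) := fun x y h => xembb_ext h
  haveI : Finite (XembbV B hc) := Finite.of_injective _ hinj
  haveI : Module.Finite K (XembbV B hc) := Module.Finite.of_finite
  let ρ : Representation K G (XembbV B hc) :=
    { toFun := fun g => (xembbConj B hB hc g).toZModLinearMap 13
      map_one' := by
        refine LinearMap.ext fun x => xembb_ext ?_
        show 1 * x.val * 1⁻¹ = x.val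
        group
      map_mul' := fun g h => by
        refine LinearMap.ext fun x => xembb_ext ?_
        show g * h * x.val * (g * h)⁻¹ = g * (h * x.val * h⁻¹) * g⁻¹
        group }
  refine ⟨XembbV B hc, inferInstance, inferInstance, inferInstance, ρ, fun x => x.val,
    ⟨hinj, fun _ _ => rfl, fun _ _ => rfl⟩, fun g => ⟨fun hg => ⟨⟨g, hg⟩, rfl⟩, ?_⟩⟩
  rintro ⟨v, rfl⟩
  exact v.mem

theorem xembb_zero {V : Type} [AddCommGroup V] [Module K V]
    {G : Type} [Group G] (ρ : Representation K G V) (ι : V → G) (hι : Emb ρ ι) : ι 0 = 1 := by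
  have h := hι.add 0 0
  rw [add_zero] at h
  exact mul_left_cancel (a := ι 0) (by rw [← h, mul_one])

theorem xembb_neg {V : Type} [AddCommGroup V] [Module K V]
    {G : Type} [Group G] (ρ : Representation K G V) (ι : V → G) (hι : Emb ρ ι) (v : V) :
    ι (-v) = (ι v)⁻¹ := by
  have h := hι.add (-v) v
  rw [neg_add_cancel, xembb_zero ρ ι hι] at h
  exact eq_inv_of_mul_eq_one_left h.symm

theorem emb_irr {V : Type} [AddCommGroup V] [Module K V] [Module.Finite K V]
    {G : Type} [Group G] [Finite G] (ρ : Representation K G V) (ι : V → G) (hι : Emb ρ ι) (B : Subgroup G) (hB : ∀ g, g ∈ B ↔ ∃ v, ι v = g) (hne : B ≠ ⊥)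
    (hmin : ∀ B' : Subgroup G, B'.Normal → B' ≤ B → B' = ⊥ ∨ B' = B) : Irr ρ := by
  have h0 := xembb_zero ρ ι hι
  refine ⟨?_, fun W hW => ?_⟩
  · by_contra hcon
    apply hne
    rw [eq_bot_iff]
    intro g hg
    obtain ⟨v, rfl⟩ := (hB g).1 hg
    have hv : v = 0 := by
      by_contra hv
      exact hcon ⟨v, hv⟩
    rw [hv, h0]
    exact Subgroup.one_mem _
  · let B' : Subgroup G :=
      { carrier := {g | ∃ w ∈ W, ι w = g}
        one_mem' := ⟨0, W.zero_mem, h0⟩
        mul_mem' := by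
          rintro a b ⟨v, hv, rfl⟩ ⟨w, hw, rfl⟩
          exact ⟨v + w, W.add_mem hv hw, hι.add v w⟩
        inv_mem' := by
          rintro a ⟨v, hv, rfl⟩
          exact ⟨-v, W.neg_mem hv, xembb_neg ρ ι hι v⟩ }
    have hn : B'.Normal := ⟨by
      rintro a ⟨v, hv, rfl⟩ g
      exact ⟨ρ g v, hW g v hv, hι.act g v⟩⟩
    have hle : B' ≤ B := by
      rintro a ⟨v, _, rfl⟩
      exact (hB _).2 ⟨v, rfl⟩
    rcases hmin B' hn hle with h | h
    · left
      rw [eq_bot_iff]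
      intro w hw
      have hm : ι w ∈ B' := ⟨w, hw, rfl⟩
      rw [h, Subgroup.mem_bot, ← h0] at hm
      rw [hι.inj hm]
      exact Submodule.zero_mem _
    · right
      rw [eq_top_iff]
      intro v _
      have hm : ι v ∈ B' := by
        rw [h]
        exact (hB _).2 ⟨v, rfl⟩
      obtain ⟨w, hw, hwv⟩ := hm
      rw [← hι.inj hwv]
      exact hw

theorem emb_basic {V : Type} [AddCommGroup V] [Module K V] [Module.Finite K V]
    {G : Type} [Group G] (ρ : Representation K G V) (ι : V → G) (hι : Emb ρ ι) :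
    ι 0 = 1 ∧ (∀ (v : V) (j : ℕ), ι ((j : K) • v) = ι v ^ j) ∧ (∀ v, ι v ^ 13 = 1) ∧
      ∀ v, ρ (ι v) = 1 := by
  have h0 := xembb_zero ρ ι hι
  have h1 : ∀ (v : V) (j : ℕ), ι ((j : K) • v) = ι v ^ j := by
    intro v j
    induction j with
    | zero => rw [Nat.cast_zero, zero_smul, h0, pow_zero]
    | succ j ih => rw [Nat.cast_succ, add_smul, one_smul, hι.add, ih, pow_succ]
  refine ⟨h0, h1, fun v => ?_, fun v => ?_⟩
  · have h13 : ((13 : ℕ) : K) = 0 := by decide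
    rw [← h1 v 13, h13, zero_smul, h0]
  · refine LinearMap.ext fun w => hι.inj ?_
    rw [hι.act, ← hι.add, add_comm, hι.add, mul_inv_cancel_right]
    rfl

theorem pp_ep {V : Type} [AddCommGroup V] [Module K V] [Module.Finite K V]
    {G : Type} [Group G] [Finite G] (ρ : Representation K G V) (ι : V → G) (hι : Emb ρ ι) (N m : ℕ) (hP : PP G N m) : HEP ρ 3 := by
  intro v
  obtain ⟨h0, h1, h2, _⟩ := emb_basic ρ ι hι
  by_cases hv : v = 0
  · exact ⟨1, by rw [hv, map_zero, smul_zero]⟩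
  have hne : ι v ≠ 1 := fun h => hv (hι.inj (h.trans h0.symm))
  have hord : orderOf (ι v) = 13 := orderOf_eq_prime (h2 v) hne
  have hdiv : 13 ∣ N := by
    have h := orderOf_dvd_natCard (ι v)
    rw [hord] at h
    exact h.trans hP.1.1
  obtain ⟨j, hj, hj4⟩ := exists_j 13 N 4 hdiv hP.1.2.1 (by norm_num)
  have hconj := pp_sq N m hP (ι v) j hj
  obtain ⟨c, hc⟩ := isConj_iff.1 hconj
  refine ⟨c, hι.inj ?_⟩
  have hj' : (j : K) = ((4 : ℕ) : K) := (ZMod.natCast_eq_natCast_iff j 4 13).2 hj4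
  have h3 : ((j * j : ℕ) : K) = 3 := by
    rw [Nat.cast_mul, hj']
    decide
  rw [hι.act, hc, ← h1, h3]

end Pool.Agent.N9181

end

section

namespace Pool.Agent.N9181

open scoped commutatorElement

section ring

open Polynomial

variable {L S : Type} [Field L] [Ring S] [Algebra L S]

theorem xps_sq {x : S} {P Q : L[X]} (hP : P.Separable) (h : aeval x P = 0)
    (hQ : IsNilpotent (aeval x Q)) : aeval x Q = 0 := by
  obtain ⟨k, hk⟩ := hQ
  have h1 := (hP.squarefree.squarefree_of_dvd (minpoly.dvd L x h)).isRadical k Q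
    (minpoly.dvd L x (by rw [map_pow, hk]))
  exact aeval_eq_zero_of_dvd_aeval_eq_zero h1 (minpoly.aeval L x)

theorem xps_pw {a : S} (h : a ^ 2 = 0) (n : ℕ) : (1 + a) ^ n = 1 + n • a := by
  induction n with
  | zero => simp
  | succ n ih =>
    rw [pow_succ, ih, succ_nsmul, mul_add, mul_one, add_mul, one_mul, smul_mul_assoc, ← sq, h,
      smul_zero, add_zero, add_assoc]

theorem xps_inv {a b : S} (ha : a ^ 2 = 0) (hb : b ^ 2 = 0) :
    ((1 + a) * (1 + b)) ^ 2 - (1 + a) * (1 + b) * (2 + (a * b + b * a)) + 1 = 0 := by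
  have h1 : (1 + a) * (1 + b) * ((1 - b) * (1 - a)) = 1 := by
    have h2 : (1 + a) * (1 + b) * ((1 - b) * (1 - a)) =
      1 - a ^ 2 - (1 + a) * b ^ 2 * (1 - a) := by noncomm_ring
    rw [h2, ha, hb, mul_zero, zero_mul, sub_zero, sub_zero]
  have h2 : 2 + (a * b + b * a) = (1 + a) * (1 + b) + (1 - b) * (1 - a) := by
    rw [← one_add_one_eq_two]
    noncomm_ring
  rw [h2, mul_add ((1 + a) * (1 + b)), h1, sq]
  abel

theorem xps_quad [CharP L 13] {a b : S} {μ : L} (ha : a ^ 2 = 0) (hb : b ^ 2 = 0)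
    (hc : a * b + b * a = algebraMap L S μ) (h0 : μ ≠ 0) (h4 : μ + 4 ≠ 0) {N : ℕ} (hN : N ≠ 0)
    (h1 : ((1 + a) * (1 + b)) ^ N = 1) : ∃ n, ¬ 13 ∣ n ∧ ((1 + a) * (1 + b)) ^ n = 1 := by
  obtain ⟨e, n, hn, rfl⟩ := Nat.exists_eq_pow_mul_and_not_dvd hN 13 (by norm_num)
  refine ⟨n, hn, sub_eq_zero.1 ?_⟩
  have h2 := xps_inv ha hb
  rw [hc] at h2
  generalize (1 + a) * (1 + b) = x at h1 h2 ⊢
  have hP : (X ^ 2 - X * C (2 + μ) + 1 : L[X]).Separable := by
    refine ⟨C (μ * (μ + 4))⁻¹ * (-4), C (μ * (μ + 4))⁻¹ * (2 * X - C (2 + μ)), ?_⟩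
    have h3 : C (μ * (μ + 4))⁻¹ * C (μ * (μ + 4)) = (1 : L[X]) := by
      rw [← C_mul, inv_mul_cancel₀ (mul_ne_zero h0 h4), C_1]
    simp only [derivative_sub, derivative_mul, derivative_X_pow, derivative_X, derivative_ofNat,
      derivative_C, derivative_one, map_add, map_mul, map_ofNat, Nat.cast_ofNat] at h3 ⊢
    linear_combination h3
  have h3 := xps_sq (x := x) (Q := X ^ n - 1) hP (by simpa [map_ofNat] using h2) ⟨13 ^ e, by
    rw [← map_pow, sub_pow_char_pow, ← pow_mul, mul_comm n, one_pow, map_sub, map_pow, aeval_X,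
      h1, map_one, sub_self]⟩
  simpa using h3

theorem xps_grp {G : Type} [Group G] (f : G →* S) {u g : G} {k m : ℕ} (hk : ¬ 13 ∣ k)
    (hm : ¬ 13 ∣ m) (h : ((u ^ k)⁻¹ * g) ^ m = 1) (hg : f g = 1) (hu : f u ^ 13 = 1) :
    f u = 1 := by
  have h1 := congrArg f h
  rw [map_pow, map_mul, hg, mul_one, ← map_pow, inv_pow, ← pow_mul, map_one] at h1
  have h2 : f u ^ (k * m) = 1 := by
    have h3 := map_mul f (u ^ (k * m)) (u ^ (k * m))⁻¹
    rw [h1, mul_inv_cancel, map_one, mul_one, map_pow] at h3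
    exact h3.symm
  have h3 := pow_gcd_eq_one.2 ⟨hu, h2⟩
  rwa [(fact13.out.coprime_iff_not_dvd.2 (fact13.out.not_dvd_mul hk hm)).gcd_eq_one,
    pow_one] at h3

theorem xps_core [CharP L 13] {G : Type} [Group G] [Finite G] (f : G →* S) {u u' : G} {m : ℕ}
    (hm : ¬ 13 ∣ m) (hR : ∀ i n : ℕ, ((u ^ ((i + 1) * n))⁻¹ * (u ^ i * u') ^ n) ^ m = 1)
    {a b : S} (hu : f u = 1 + a) (hu' : f u' = 1 + b) (ha : a ^ 2 = 0) (hb : b ^ 2 = 0) {μ : L}
    (hc : a * b + b * a = algebraMap L S μ) (h0 : μ ≠ 0) : a = 0 := by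
  have h13 : f u ^ 13 = 1 := by
    rw [hu, xps_pw ha, ← Nat.cast_smul_eq_nsmul L, CharP.cast_eq_zero, zero_smul, add_zero]
  have key : ∀ i : ℕ, ¬ 13 ∣ i + 1 → i • μ ≠ 0 → i • μ + 4 ≠ 0 → a = 0 := by
    intro i h1 h2 h3
    have e : f (u ^ i * u') = (1 + i • a) * (1 + b) := by rw [map_mul, map_pow, hu, hu', xps_pw ha]
    obtain ⟨n, hn, h4⟩ := xps_quad (a := i • a) (by rw [_root_.smul_pow, ha, smul_zero]) hb
      (by rw [smul_mul_assoc, mul_smul_comm, ← smul_add, hc, map_nsmul]) h2 h3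
      (Nat.card_pos (α := G)).ne' (by rw [← e, ← map_pow, pow_card_eq_one', map_one])
    have h5 := xps_grp f (fact13.out.not_dvd_mul h1 hn) hm (hR i n) (by rw [map_pow, e, h4]) h13
    rwa [hu, add_eq_left] at h5
  have h2 : (2 : L) ≠ 0 := fun h => by
    have := (CharP.cast_eq_zero_iff L 13 2).1 h
    omega
  by_cases h4 : μ + 4 = 0
  · refine key 2 (by norm_num) (by simpa using ⟨h2, h0⟩) fun h => mul_ne_zero h2 h2 ?_
    rw [nsmul_eq_mul, Nat.cast_ofNat] at h
    linear_combination 2 * h4 - h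
  · exact key 1 (by norm_num) (by rwa [one_nsmul]) (by rwa [one_nsmul])

end ring

theorem xps_nil {L M : Type} [Field L] [IsAlgClosed L] [AddCommGroup M] [Module L M]
    [Module.Finite L M] {c : Module.End L M} (h : ∀ μ, c.HasEigenvalue μ → μ = 0) :
    IsNilpotent c := by
  have h1 := (IsAlgClosed.splits (minpoly L c)).eq_prod_roots_of_monic
    (minpoly.monic (Algebra.IsIntegral.isIntegral c))
  rw [Multiset.eq_replicate_card.2 fun μ hμ =>
    h μ (Module.End.hasEigenvalue_of_isRoot (Polynomial.isRoot_of_mem_roots hμ))] at h1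
  have h2 := minpoly.aeval L c
  rw [h1] at h2
  exact ⟨_, by simpa using h2⟩

theorem xps_main {L M : Type} [Field L] [IsAlgClosed L] [CharP L 13] [AddCommGroup M] [Module L M]
    [Module.Finite L M] {H : Type} [Group H] [Finite H] (τ : H →* Module.End L M)
    (hinj : Function.Injective τ) (R : Subgroup H) (hR : R.Normal) (hc : ¬ 13 ∣ Nat.card R) (u : H)
    (hu : (τ u - 1) ^ 2 = 0) : ∀ r ∈ R, u * r = r * u := by
  intro r hr
  have hcard : ∀ x ∈ R, x ^ Nat.card R = 1 := fun x hx =>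
    congrArg Subtype.val (pow_card_eq_one' (x := (⟨x, hx⟩ : R)))
  obtain ⟨a, ha⟩ : ∃ a, τ u = 1 + a := ⟨τ u - 1, by abel⟩
  rw [ha, add_sub_cancel_left] at hu
  obtain ⟨u', hu'⟩ : ∃ u', u' = r * u * r⁻¹ := ⟨_, rfl⟩
  have e1 : τ r * τ r⁻¹ = 1 := by rw [← map_mul, mul_inv_cancel, map_one]
  have e2 : τ r⁻¹ * τ r = 1 := by rw [← map_mul, inv_mul_cancel, map_one]
  obtain ⟨b, hb, hb2⟩ : ∃ b, τ u' = 1 + b ∧ b ^ 2 = 0 := by
    refine ⟨τ r * a * τ r⁻¹, by rw [hu', map_mul, map_mul, ha, mul_add, add_mul, mul_one, e1], ?_⟩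
    have : (τ r * a * τ r⁻¹) ^ 2 = τ r * (a * (τ r⁻¹ * τ r) * a) * τ r⁻¹ := by noncomm_ring
    rw [this, e2, mul_one, ← sq, hu, mul_zero, zero_mul]
  have hq : (QuotientGroup.mk' R) u' = QuotientGroup.mk' R u := by
    have : QuotientGroup.mk' R r = 1 := (QuotientGroup.eq_one_iff r).2 hr
    rw [hu', map_mul, map_mul, map_inv, this, one_mul, inv_one, mul_one]
  have ca : ∀ a b : Module.End L M, a ^ 2 = 0 → Commute (a * b + b * a) a := fun a b h => by
    have : (a * b + b * a) * a - a * (a * b + b * a) = b * a ^ 2 - a ^ 2 * b := by noncomm_ring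
    rw [h, mul_zero, zero_mul, sub_zero] at this
    exact sub_eq_zero.1 this
  have c1 := ca a b hu
  have c2 := ca b a hb2
  rw [add_comm] at c2
  have hn : IsNilpotent (a * b + b * a) := by
    refine xps_nil fun μ hμ => by_contra fun h0 => ?_
    generalize hcc : a * b + b * a = c at c1 c2 hμ
    let N : Subgroup H :=
      { carrier := {h | Commute c (τ h)}
        one_mem' := by simp
        mul_mem' := fun {x y} hx hy => by simpa using Commute.mul_right hx hy
        inv_mem' := fun {x} hx => Commute.units_inv_right (u := τ.toHomUnits x) hx }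
    obtain ⟨ψ, hψ⟩ : ∃ ψ : ∀ e, Commute c e → Module.End L (c.eigenspace μ),
        ∀ e he v, (ψ e he v : M) = e v :=
      ⟨fun e he => e.restrict (Module.End.mapsTo_genEigenspace_of_comm he μ 1), fun _ _ _ => rfl⟩
    let f : N →* Module.End L (c.eigenspace μ) :=
      { toFun := fun h => ψ _ h.2
        map_one' := by ext v; simp [hψ]
        map_mul' := fun x y => by ext v; simp [hψ] }
    have m1 : u ∈ N := show Commute c (τ u) from ha ▸ (Commute.one_right c).add_right c1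
    have m2 : u' ∈ N := show Commute c (τ u') from hb ▸ (Commute.one_right c).add_right c2
    have h1 : ψ a c1 * ψ b c2 + ψ b c2 * ψ a c1 = algebraMap L _ μ := by
      ext v
      simpa [hψ] using (LinearMap.congr_fun hcc v).trans (Module.End.mem_eigenspace_iff.1 v.2)
    have h2 := xps_core f (u := ⟨u, m1⟩) (u' := ⟨u', m2⟩) hc (fun i n => Subtype.ext (hcard _ ?_))
      (a := ψ a c1) (b := ψ b c2) (by ext v; simp [f, hψ, ha]) (by ext v; simp [f, hψ, hb])
      (by ext v; simpa [hψ, sq] using LinearMap.congr_fun hu v)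
      (by ext v; simpa [hψ, sq] using LinearMap.congr_fun hb2 v) h1 h0
    · obtain ⟨v, hv, hv0⟩ := hμ.exists_hasEigenvector
      rw [h2, mul_zero, zero_mul, add_zero] at h1
      have h3 : (0 : M) = μ • v := congrArg Subtype.val (LinearMap.congr_fun h1 ⟨v, hv⟩)
      exact smul_ne_zero h0 hv0 h3.symm
    · refine QuotientGroup.eq.1 (?_ : QuotientGroup.mk' R (u ^ ((i + 1) * n)) =
        QuotientGroup.mk' R ((u ^ i * u') ^ n))
      rw [map_pow, map_pow, map_mul, map_pow, hq, pow_mul, pow_succ]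
  have e3 : τ u'⁻¹ = 1 + -b := by
    have : (1 + b) * (1 + -b) = 1 - b ^ 2 := by noncomm_ring
    rw [hb2, sub_zero, ← hb] at this
    have h3 := congrArg (τ u'⁻¹ * ·) this
    simp only [← mul_assoc, ← map_mul, inv_mul_cancel, map_one, one_mul, mul_one] at h3
    exact h3.symm
  have e4 : τ (u * u'⁻¹) = (1 + a) * (1 + -b) := by rw [map_mul, ha, e3]
  have e5 := xps_inv hu (show (-b) ^ 2 = 0 by rw [neg_sq, hb2])
  have c3 : Commute (τ (u * u'⁻¹)) (a * b + b * a) := e4 ▸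
    (((Commute.one_right _).add_right c1).mul_right
      ((Commute.one_right _).add_right c2.neg_right)).symm
  rw [← e4] at e5
  have e6 : (τ (u * u'⁻¹) - 1) ^ 2 = -(τ (u * u'⁻¹) * (a * b + b * a)) := by
    rw [← sub_eq_zero, ← e5]
    noncomm_ring
  have h1 : u * u'⁻¹ ∈ R := by
    refine (QuotientGroup.eq_one_iff _).1 (?_ : QuotientGroup.mk' R _ = 1)
    rw [map_mul, map_inv, hq, mul_inv_cancel]
  have h2 := xps_sq (L := L) (x := τ (u * u'⁻¹)) (Q := Polynomial.X - 1)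
    (Polynomial.X_pow_sub_one_separable_iff.2 fun h => hc ((CharP.cast_eq_zero_iff L 13 _).1 h))
    (by rw [map_sub, map_pow, Polynomial.aeval_X, ← map_pow, hcard _ h1, map_one, map_one, sub_self])
    (by
      rw [map_sub, Polynomial.aeval_X, map_one]
      exact IsNilpotent.of_pow (m := 2) (e6 ▸ (c3.isNilpotent_mul_left hn).neg))
  rw [map_sub, Polynomial.aeval_X, map_one, sub_eq_zero, ← map_one τ] at h2
  have h3 := mul_inv_eq_one.1 (hinj h2)
  rw [hu'] at h3
  exact eq_mul_inv_iff_mul_eq.1 h3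

theorem pstab {V : Type} [AddCommGroup V] [Module K V] [Module.Finite K V]
    {H : Type} [Group H] [Finite H] (ρ : Representation K H V) (hinj : Function.Injective ρ) (R : Subgroup H) (hR : R.Normal)
    (hc : ¬ 13 ∣ Nat.card R) (u : H) (hu : (ρ u - 1) ^ 2 = 0) : ∀ r ∈ R, u * r = r * u := by
  let B := Module.Free.chooseBasis K V
  let L := AlgebraicClosure K
  let Φ : Module.End K V →+* Module.End L (Module.Free.ChooseBasisIndex K V → L) :=
    (Matrix.toLinAlgEquiv'.toRingEquiv.toRingHom.comp (algebraMap K L).mapMatrix).comp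
      (LinearMap.toMatrixAlgEquiv B).toRingEquiv.toRingHom
  have hΦ : Function.Injective Φ := (Matrix.toLinAlgEquiv'.injective.comp
    (Matrix.map_injective (algebraMap K L).injective)).comp (LinearMap.toMatrixAlgEquiv B).injective
  refine xps_main (Φ.toMonoidHom.comp ρ) (hΦ.comp hinj) R hR hc u ?_
  have h := congrArg Φ hu
  rwa [map_pow, map_sub, map_one, map_zero] at h

end Pool.Agent.N9181

end

section

namespace Pool.Agent.N9181

open scoped commutatorElement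

theorem xmoda_one {M : Type} [Monoid M] (x : M) (a n : ℕ) (hn : ¬ 13 ∣ n)
    (h1 : x ^ (13 ^ a) = 1) (h2 : x ^ n = 1) : x = 1 := by
  have hc : (13 ^ a).Coprime n :=
    Nat.Coprime.pow_left a ((Nat.Prime.coprime_iff_not_dvd (by norm_num)).mpr hn)
  have h : x ^ (13 ^ a).gcd n = 1 := pow_gcd_eq_one.mpr ⟨h1, h2⟩
  rwa [hc.gcd_eq_one, pow_one] at h

theorem xmoda_pel {D : Type} [Group D] [Finite D]
    (h : ∀ d : D, ∃ k : ℕ, d ^ (13 ^ k) ∈ Subgroup.center D) (x y : D)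
    (hx : ∃ a : ℕ, x ^ (13 ^ a) = 1) (hy : ∃ a : ℕ, y ^ (13 ^ a) = 1) :
    ∃ a : ℕ, (x * y) ^ (13 ^ a) = 1 := by
  have hp : IsPGroup 13 (D ⧸ Subgroup.center D) := by
    intro q
    obtain ⟨d, rfl⟩ := QuotientGroup.mk_surjective q
    obtain ⟨k, hk⟩ := h d
    exact ⟨k, by rw [← QuotientGroup.mk_pow, QuotientGroup.eq_one_iff]; exact hk⟩
  obtain ⟨k, hk⟩ := IsPGroup.iff_card.mp hp
  have hi : (Subgroup.center D).index = 13 ^ k := hk
  obtain ⟨a, ha⟩ := hx
  obtain ⟨b, hb⟩ := hy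
  set f := MonoidHom.transferCenterPow D with hf
  have h1 : (f x) ^ (13 ^ (a + b)) = 1 := by
    rw [← map_pow, pow_add, pow_mul, ha, one_pow, map_one]
  have h2 : (f y) ^ (13 ^ (a + b)) = 1 := by
    rw [← map_pow, add_comm, pow_add, pow_mul, hb, one_pow, map_one]
  have hcomm : Commute (f x) (f y) :=
    Subtype.ext (Subgroup.mem_center_iff.mp (f y).2 (f x))
  have h3 : (f (x * y)) ^ (13 ^ (a + b)) = 1 := by
    rw [map_mul, hcomm.mul_pow, h1, h2, one_mul]
  refine ⟨k + (a + b), ?_⟩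
  have h4 := congrArg Subtype.val h3
  rw [Subgroup.coe_pow, hf, MonoidHom.transferCenterPow_apply, hi, ← pow_mul, ← pow_add] at h4
  exact h4

theorem xmoda_fix {V : Type} [AddCommGroup V] [Module K V] {H : Type} [Group H]
    (ρ : Representation K H V) (hirr : Irr ρ) (N : Subgroup H) (hN : N.Normal) (v : V)
    (hv : v ≠ 0) (hfix : ∀ s ∈ N, ρ s v = v) : ∀ s ∈ N, ρ s = 1 := by
  let W : Submodule K V :=
    { carrier := {w | ∀ s ∈ N, ρ s w = w}
      add_mem' := fun {x y} hx hy s hs => by rw [map_add, hx s hs, hy s hs]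
      zero_mem' := fun s _ => map_zero _
      smul_mem' := fun c x hx s hs => by rw [map_smul, hx s hs] }
  have hW : ∀ h, ∀ w ∈ W, ρ h w ∈ W := by
    intro h w hw s hs
    have h1 := hw _ (hN.conj_mem' s hs h)
    calc ρ s (ρ h w) = ρ h (ρ (h⁻¹ * s * h) w) := by
          rw [← Module.End.mul_apply, ← Module.End.mul_apply, ← map_mul, ← map_mul]
          congr 2
          group
      _ = ρ h w := by rw [h1]
  rcases hirr.2 W hW with h | h
  · have : v ∈ W := hfix
    rw [h] at this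
    exact absurd ((Submodule.mem_bot K).mp this) hv
  · intro s hs
    ext w
    have : w ∈ W := by rw [h]; exact Submodule.mem_top
    exact this s hs

theorem xmoda_claim {V : Type} [AddCommGroup V] [Module K V] [Module.Finite K V]
    {H : Type} [Group H] [Finite H] (ρ : Representation K H V) (hirr : Irr ρ)
    (R Q : Subgroup H) (hR : R.Normal) (hQ : Q.Normal)
    (hpw : ∀ k ∈ Q, ∃ a : ℕ, k ^ (13 ^ a) ∈ R) (u : H) (huQ : u ∈ Q) (a : ℕ)
    (hu : u ^ (13 ^ a) = 1) (hcomm : ∀ r ∈ R, u * r = r * u) : ρ u = 1 := by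
  set D : Subgroup H := Q ⊓ Subgroup.centralizer (R : Set H) with hD
  have hDn : D.Normal := inferInstance
  have hcen : ∀ d : D, ∃ k : ℕ, d ^ (13 ^ k) ∈ Subgroup.center D := by
    intro d
    obtain ⟨k, hk⟩ := hpw d d.2.1
    refine ⟨k, Subgroup.mem_center_iff.mpr fun e => Subtype.ext ?_⟩
    have := (Subgroup.mem_centralizer_iff.mp e.2.2) _ hk
    simpa using this.symm
  let O : Subgroup H :=
    { carrier := {d | d ∈ D ∧ ∃ b : ℕ, d ^ (13 ^ b) = 1}
      one_mem' := ⟨D.one_mem, 0, one_pow _⟩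
      mul_mem' := fun {x y} hx hy => by
        refine ⟨D.mul_mem hx.1 hy.1, ?_⟩
        obtain ⟨b, hb⟩ := xmoda_pel hcen ⟨x, hx.1⟩ ⟨y, hy.1⟩
          (hx.2.imp fun b hb => Subtype.ext hb) (hy.2.imp fun b hb => Subtype.ext hb)
        exact ⟨b, congrArg Subtype.val hb⟩
      inv_mem' := fun {x} hx => ⟨D.inv_mem hx.1, hx.2.imp fun b hb => by
        rw [inv_pow, hb, inv_one]⟩ }
  have hOn : O.Normal := ⟨fun x hx g => ⟨hDn.conj_mem x hx.1 g, hx.2.imp fun b hb => by
    rw [conj_pow, hb, mul_one, mul_inv_cancel]⟩⟩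
  have hOp : IsPGroup 13 O := fun x => x.2.2.imp fun b hb => Subtype.ext hb
  obtain ⟨v, hv, hfix⟩ := fix_of_pgroup ρ O hOp hirr.1
  refine xmoda_fix ρ hirr O hOn v hv hfix u ⟨⟨huQ, ?_⟩, a, hu⟩
  exact Subgroup.mem_centralizer_iff.mpr fun r hr => (hcomm r hr).symm

theorem quad_ne {V : Type} [AddCommGroup V] [Module K V] [Module.Finite K V]
    {G : Type} [Group G] [Finite G] (ρ : Representation K G V) (ι : V → G) (hι : Emb ρ ι) (hirr : Irr ρ) (B R Q : Subgroup G) (hB : ∀ g, g ∈ B ↔ ∃ v, ι v = g)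
    (z : G) (hD : GD B R Q z) (u : G) (huQ : u ∈ Q) (a : ℕ) (hu : u ^ (13 ^ a) = 1)
    (hne : ρ u ≠ 1) : (ρ u - 1) ^ 2 ≠ 0 ∧ ∀ v, (∀ r ∈ R, ρ r v = v) → v = 0 := by
  obtain ⟨H', _, _, π, ρ', hsurj, hinj, hρ, -, -⟩ := exists_faithful ρ
  have hirr' : Irr ρ' := ⟨hirr.1, fun W hW => hirr.2 W fun h v hv => by
    rw [← hρ]; exact hW _ v hv⟩
  have hRn : (R.map π).Normal := hD.nR.map π hsurj
  have hQn : (Q.map π).Normal := hD.nQ.map π hsurj
  have hker : ∀ g, ρ g = 1 → π g = 1 := fun g hg => hinj (by rw [hρ, hg, map_one])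
  have hBk : B ≤ π.ker := by
    intro g hg
    obtain ⟨v, rfl⟩ := (hB g).mp hg
    exact hker _ ((emb_basic ρ ι hι).2.2.2 v)
  have hcard : ¬ 13 ∣ Nat.card (R.map π) := by
    rw [← Subgroup.relIndex_ker]
    exact fun h => hD.cop (h.trans (Subgroup.relIndex_dvd_of_le_left R hBk))
  have hclaim : ¬ ∀ r ∈ R.map π, π u * r = r * π u := by
    intro hcomm
    apply hne
    rw [← hρ]
    refine xmoda_claim ρ' hirr' (R.map π) (Q.map π) hRn hQn ?_ (π u) ⟨u, huQ, rfl⟩ a
      (by rw [← map_pow, hu, map_one]) hcomm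
    rintro _ ⟨k, hk, rfl⟩
    obtain ⟨b, hb⟩ := hD.pw k hk
    exact ⟨b, k ^ (13 ^ b), hb, map_pow π k _⟩
  refine ⟨fun h => hclaim (pstab ρ' hinj _ hRn hcard (π u) (by rw [hρ]; exact h)), ?_⟩
  intro v hv
  by_contra hv0
  apply hclaim
  rintro _ ⟨r, hr, rfl⟩
  rw [hker r (xmoda_fix ρ hirr R hD.nR v hv0 hv r hr), mul_one, one_mul]

theorem exists_top {V : Type} [AddCommGroup V] [Module K V] [Module.Finite K V]
    {G : Type} [Group G] [Finite G] (ρ : Representation K G V) (ι : V → G) (hι : Emb ρ ι) (B R Q : Subgroup G) (hB : ∀ g, g ∈ B ↔ ∃ v, ι v = g)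
    (z : G) (hD : GD B R Q z) (u : G) (a : ℕ) (hu : u ^ (13 ^ a) = 1) (hne : ρ u ≠ 1) :
    u ∈ Q ∧ ∃ M : Subgroup G, M.Normal ∧ R ≤ M ∧ M ≤ Q ∧ M ≠ Q ∧ (∀ q ∈ Q, ρ q = 1 → q ∈ M) ∧
      ∀ M' : Subgroup G, M'.Normal → M ≤ M' → M' ≤ Q → M' = M ∨ M' = Q := by
  have hQn := hD.nQ
  have hRn := hD.nR
  have huQ : u ∈ Q := by
    rw [← QuotientGroup.eq_one_iff]
    refine xmoda_one _ a Q.index hD.idx ?_ ?_
    · rw [← QuotientGroup.mk_pow, hu, QuotientGroup.mk_one]
    · rw [← QuotientGroup.mk_pow, QuotientGroup.eq_one_iff]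
      exact Q.pow_index_mem u
  refine ⟨huQ, ?_⟩
  let f : G →* Module.End K V := ρ
  have hBk : B ≤ f.ker := by
    intro g hg
    obtain ⟨v, rfl⟩ := (hB g).mp hg
    exact (emb_basic ρ ι hι).2.2.2 v
  have hcop : ¬ 13 ∣ f.ker.relIndex R :=
    fun h => hD.cop (h.trans (Subgroup.relIndex_dvd_of_le_left R hBk))
  set M0 : Subgroup G := (Q ⊓ f.ker) ⊔ R with hM0
  have hM0n : M0.Normal := inferInstance
  have hM0Q : M0 ≤ Q := sup_le inf_le_left hD.le2
  have huM : u ∉ M0 := by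
    intro h
    obtain ⟨k, hk, r, hr, rfl⟩ := Subgroup.mem_sup_of_normal_right.mp h
    have hk1 : f k = 1 := hk.2
    apply hne
    have e : ρ (k * r) = f r := by
      show f (k * r) = f r
      rw [map_mul, hk1, one_mul]
    refine xmoda_one _ a _ hcop (by rw [← map_pow, hu, map_one]) ?_
    rw [e, ← map_pow]
    exact f.ker.pow_relIndex_mem hr
  obtain ⟨M, hle, hM, hmax⟩ :=
    (Set.toFinite {M : Subgroup G | M.Normal ∧ M ≤ Q ∧ M ≠ Q}).exists_le_maximal
      (a := M0) ⟨hM0n, hM0Q, fun h => huM (h ▸ huQ)⟩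
  refine ⟨M, hM.1, le_sup_right.trans hle, hM.2.1, hM.2.2, ?_, ?_⟩
  · intro q hq h1
    exact hle (Subgroup.mem_sup_left ⟨hq, h1⟩)
  · intro M' hn h1 h2
    by_cases h : M' = Q
    · exact Or.inr h
    · exact Or.inl (le_antisymm (hmax ⟨hn, h2, h⟩ h1) h1)

end Pool.Agent.N9181

end

section

namespace Pool.Agent.N9181

open scoped commutatorElement

section
variable {V : Type} [AddCommGroup V] [Module K V]

theorem xmodb_geom (A : Module.End K V) (j : ℕ) :
    A ^ j - 1 = (A - 1) * ∑ i ∈ Finset.range j, A ^ i := (mul_geom_sum A j).symm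

theorem xmodb_comm (A : Module.End K V) (j : ℕ) :
    Commute (A - 1) (∑ i ∈ Finset.range j, A ^ i) := by
  show _ = _
  rw [mul_geom_sum, geom_sum_mul]

theorem xmodb_sum (A : Module.End K V) (j : ℕ) (v : V) :
    ∃ y, (∑ i ∈ Finset.range j, A ^ i) v = (j : K) • v + (A - 1) y := by
  induction j with
  | zero => exact ⟨0, by simp⟩
  | succ j ih =>
    obtain ⟨y, hy⟩ := ih
    refine ⟨y + (∑ i ∈ Finset.range j, A ^ i) v, ?_⟩
    have h1 : (A - 1) ((∑ i ∈ Finset.range j, A ^ i) v) = (A ^ j) v - v := by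
      rw [← Module.End.mul_apply, ← xmodb_geom]; simp
    rw [Finset.sum_range_succ, LinearMap.add_apply, map_add, h1, Nat.cast_succ, add_smul, one_smul]
    rw [hy]
    abel

theorem xmodb_conj (A B : Module.End K V) (j : ℕ) (h : B * A = A ^ j * B) (k : ℕ) :
    B * (A - 1) ^ k = (A - 1) ^ k * (∑ i ∈ Finset.range j, A ^ i) ^ k * B := by
  have h1 : B * (A - 1) = (A - 1) * (∑ i ∈ Finset.range j, A ^ i) * B := by
    rw [← xmodb_geom, mul_sub, sub_mul, h, mul_one, one_mul]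
  rw [← (xmodb_comm A j).mul_pow]
  induction k with
  | zero => simp
  | succ k ih => rw [pow_succ, ← mul_assoc, ih, mul_assoc, h1, ← mul_assoc, ← pow_succ]

theorem xmodb_ex (n : Module.End K V) (c : ℕ) (hc : n ^ c = 0) (hne : n ^ 2 ≠ 0) :
    ∃ v, ∀ y, (n ^ 2) v ≠ (n ^ 3) y := by
  by_contra hcon
  push Not at hcon
  have H : ∀ (k : ℕ) (v : V), ∃ y, (n ^ 2) v = (n ^ (k + 2)) y := by
    intro k
    induction k with
    | zero => exact fun v => ⟨v, rfl⟩
    | succ k ih =>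
      intro v
      obtain ⟨y, hy⟩ := ih v
      obtain ⟨z, hz⟩ := hcon y
      refine ⟨z, ?_⟩
      rw [hy, pow_add, Module.End.mul_apply, hz, ← Module.End.mul_apply, ← pow_add]
  apply hne
  ext v
  obtain ⟨y, hy⟩ := H c v
  rw [hy, pow_add, hc, zero_mul]
  rfl

theorem xmodb_fix [Module.Finite K V] (A B : Module.End K V) (j : ℕ) (hj : (j : K) = 3)
    (h : B * A = A ^ j * B) (v : V) 
    (hv : ∀ y, ((A - 1) ^ 2 : Module.End K V) v ≠ ((A - 1) ^ 3 : Module.End K V) y)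
    (y0 : V) (hB : B v = (j : K) • v + (A - 1) y0) : ∃ w, w ≠ 0 ∧ B w = w := by
  by_contra hcon
  push Not at hcon
  set n := A - 1 with hn
  set S := ∑ i ∈ Finset.range j, A ^ i with hS
  have hcm : Commute n S := xmodb_comm A j
  have hinj : Function.Injective (B - 1 : Module.End K V) := by
    rw [injective_iff_map_eq_zero]
    intro w hw
    by_contra hw0
    apply hcon w hw0
    simpa [sub_eq_zero] using hw
  have hmap : ∀ w ∈ LinearMap.range (n ^ 3), (B - 1) w ∈ LinearMap.range (n ^ 3) := by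
    rintro _ ⟨y, rfl⟩
    refine ⟨(S ^ 3) (B y) - y, ?_⟩
    have := congrArg (fun f : Module.End K V => f y) (xmodb_conj A B j h 3)
    simp only [Module.End.mul_apply] at this
    rw [map_sub, LinearMap.sub_apply, this]
    rfl
  have hsurj : Function.Surjective ((B - 1).restrict hmap) := by
    apply LinearMap.injective_iff_surjective.mp
    intro w1 w2 hw
    apply Subtype.ext
    apply hinj
    exact congrArg Subtype.val hw
  have hkey : (B - 1) ((n ^ 2) v) ∈ LinearMap.range (n ^ 3) := by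
    obtain ⟨y1, hy1⟩ := xmodb_sum A j v
    obtain ⟨y2, hy2⟩ := xmodb_sum A j (S v)
    have e1 := congrArg (fun f : Module.End K V => f v) (xmodb_conj A B j h 2)
    simp only [Module.End.mul_apply] at e1
    rw [← hn, ← hS] at e1 hy1 hy2
    have e2 : (S ^ 2) v = ((j : K) * j) • v + n ((j : K) • y1 + y2) := by
      rw [pow_two, Module.End.mul_apply, hy2, hy1, map_add, map_smul, smul_add, mul_smul]
      abel
    have e3 : (S ^ 2) (n y0) = n ((S ^ 2) y0) := by
      rw [← Module.End.mul_apply, ← Module.End.mul_apply, (hcm.pow_right 2).eq]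
    have e4 : ∀ y, (n ^ 2) (n y) = (n ^ 3) y := fun y => by
      rw [← Module.End.mul_apply, ← pow_succ]
    have e5 : (j : K) * ((j : K) * j) = 1 := by rw [hj]; decide
    refine ⟨(j : K) • ((j : K) • y1 + y2) + (S ^ 2) y0, ?_⟩
    rw [LinearMap.sub_apply, e1, hB, map_add (S ^ 2), map_smul, e2, e3, smul_add (j : K) _ (n _),
      ← mul_smul, e5, one_smul, map_add (n ^ 2), map_add (n ^ 2), map_smul, e4, e4,
      map_add (n ^ 3), map_smul, Module.End.one_apply]
    abel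
  obtain ⟨⟨_, y, rfl⟩, hy⟩ := hsurj ⟨_, hkey⟩
  exact hv y (hinj (congrArg Subtype.val hy)).symm

theorem xmodb_powB (A B : Module.End K V) (j : ℕ) (h : B * A = A ^ j * B) (v y0 : V)
    (hB : B v = (j : K) • v + (A - 1) y0) (e : ℕ) :
    ∃ y, (B ^ e) v = ((j ^ e : ℕ) : K) • v + (A - 1) y := by
  induction e with
  | zero => exact ⟨0, by simp⟩
  | succ e ih =>
    obtain ⟨y, hy⟩ := ih
    have e1 := congrArg (fun f : Module.End K V => f y) (xmodb_conj A B j h 1)
    simp only [Module.End.mul_apply, pow_one] at e1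
    refine ⟨((j ^ e : ℕ) : K) • y0 + (∑ i ∈ Finset.range j, A ^ i) (B y), ?_⟩
    rw [pow_succ', Module.End.mul_apply, hy, map_add, map_smul, hB, e1, map_add, map_smul,
      smul_add, ← mul_smul, pow_succ, Nat.cast_mul]
    abel

end

theorem xmodb_powG {G : Type} [Group G] (h u : G) (j : ℕ) (hh : h * u * h⁻¹ = u ^ j) (e : ℕ) :
    h ^ e * u * (h ^ e)⁻¹ = u ^ (j ^ e) := by
  induction e with
  | zero => simp
  | succ e ih =>
    have : h ^ (e + 1) * u * (h ^ (e + 1))⁻¹ = h * (h ^ e * u * (h ^ e)⁻¹) * h⁻¹ := by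
      rw [pow_succ']; group
    rw [this, ih, ← conj_pow, hh, ← pow_mul, pow_succ']

theorem xmodb_xpow {V : Type} [AddCommGroup V] [Module K V] [Module.Finite K V]
    {G : Type} [Group G] (ρ : Representation K G V) (ι : V → G) (hι : Emb ρ ι) (u : G) (v : V)
    (j : ℕ) : (ι v * u) ^ j = ι ((∑ i ∈ Finset.range j, (ρ u) ^ i) v) * u ^ j := by
  induction j with
  | zero => simp [(emb_basic ρ ι hι).1]
  | succ j ih =>
    rw [pow_succ, ih, Finset.sum_range_succ, LinearMap.add_apply, hι.add, ← map_pow, hι.act]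
    group

theorem jordan {V : Type} [AddCommGroup V] [Module K V] [Module.Finite K V]
    {G : Type} [Group G] [Finite G] (ρ : Representation K G V) (ι : V → G) (hι : Emb ρ ι) (N m : ℕ) (hP : PP G N m) (Y : Subgroup G)
    (hY1 : ∀ v, ι v ∈ Y → v = 0) (hY2 : ∀ g : G, ∃ v, ∃ h ∈ Y, g = ι v * h) (u : G)
    (huY : u ∈ Y) (a : ℕ) (hu : u ^ (13 ^ a) = 1) (hne : (ρ u - 1) ^ 2 ≠ 0) :
    ∃ (t : G) (b j : ℕ), t ^ (3 ^ b) = 1 ∧ j ≡ 3 [MOD 13] ∧ t * u * t⁻¹ = u ^ j ∧
      ∃ v, v ≠ 0 ∧ ρ t v = v := by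
  have h0 : ι 0 = 1 := (emb_basic ρ ι hι).1
  have hneg : ∀ v, ι (-v) = (ι v)⁻¹ := fun v => by
    rw [eq_inv_iff_mul_eq_one, ← hι.add, neg_add_cancel, h0]
  have : Nontrivial (Module.End K V) := ⟨⟨_, _, hne⟩⟩
  have : CharP (Module.End K V) 13 :=
    charP_of_injective_algebraMap (algebraMap K (Module.End K V)).injective 13
  have hnil : (ρ u - 1) ^ (13 ^ a) = 0 := by
    rw [sub_pow_char_pow_of_commute 13 a (Commute.one_right _), ← map_pow, hu, map_one, one_pow,
      sub_self]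
  have hu1 : u ≠ 1 := by
    rintro rfl
    apply hne
    simp
  have h13 : 13 ∣ N := by
    have h1 : orderOf u ∣ 13 ^ a := orderOf_dvd_of_pow_eq_one hu
    obtain ⟨c, -, hc⟩ := (Nat.dvd_prime_pow fact13.out).mp h1
    have hc0 : c ≠ 0 := by
      rintro rfl
      exact hu1 (orderOf_eq_one_iff.mp (by simpa using hc))
    exact ((hc ▸ dvd_pow_self 13 hc0 : 13 ∣ orderOf u).trans (orderOf_dvd_natCard u)).trans hP.1.1
  obtain ⟨v, hv⟩ := xmodb_ex (ρ u - 1) _ hnil hne
  obtain ⟨j0, hj0, hj4⟩ := exists_j 13 N 4 h13 hP.1.2.1 (by norm_num)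
  have hj3 : j0 * j0 ≡ 3 [MOD 13] := (hj4.mul hj4).trans (by decide)
  obtain ⟨g, hg⟩ := isConj_iff.mp (pp_sq N m hP (ι v * u) j0 hj0)
  generalize j0 * j0 = j at hj3 hg
  obtain ⟨v1, h, hhY, rfl⟩ := hY2 g
  rw [xmodb_xpow ρ ι hι] at hg
  have hu' : h * u * h⁻¹ ∈ Y := Y.mul_mem (Y.mul_mem hhY huY) (Y.inv_mem hhY)
  have e1 : ι (-((∑ i ∈ Finset.range j, (ρ u) ^ i) v) + (v1 + ρ h v + -(ρ (h * u * h⁻¹) v1)))
      = u ^ j * (h * u * h⁻¹)⁻¹ := by
    rw [hι.add, hι.add, hι.add, hneg, hneg, hι.act, hι.act, inv_mul_eq_iff_eq_mul,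
      ← mul_assoc (ι ((∑ i ∈ Finset.range j, (ρ u) ^ i) v)), ← hg]
    group
  have e2 := hY1 _ (e1 ▸ Y.mul_mem (Y.pow_mem huY j) (Y.inv_mem hu'))
  rw [e2, h0, eq_comm, mul_inv_eq_one] at e1
  have hc : ∀ (t : G) (i : ℕ), t * u * t⁻¹ = u ^ i → ρ t * ρ u = ρ u ^ i * ρ t := by
    intro t i ht
    rw [← map_pow, ← ht, ← map_mul, ← map_mul, inv_mul_cancel_right]
  obtain ⟨y1, hy1⟩ := xmodb_sum (ρ u) j v
  have hB : ρ h v = (j : K) • v + (ρ u - 1) (y1 + (∑ i ∈ Finset.range j, (ρ u) ^ i) v1) := by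
    have e3 : (ρ u - 1) ((∑ i ∈ Finset.range j, (ρ u) ^ i) v1) = (ρ u ^ j) v1 - v1 := by
      rw [← Module.End.mul_apply, ← xmodb_geom]; simp
    rw [← e1, map_pow, hy1] at e2
    rw [map_add, e3, ← sub_eq_zero, ← e2]
    abel
  obtain ⟨b, r, hr, hbr⟩ := Nat.exists_eq_pow_mul_and_not_dvd (orderOf_pos h).ne' 3 (by norm_num)
  obtain ⟨q, hq⟩ : ∃ q, r * r = 3 * q + 1 := by
    refine ⟨r * r / 3, ?_⟩
    have : r % 3 = 1 ∨ r % 3 = 2 := by omega
    have h2 : r * r % 3 = 1 := by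
      rcases this with h | h <;> simp [Nat.mul_mod, h]
    omega
  have hje : j ^ (r * r) ≡ 3 [MOD 13] := by
    refine (hj3.pow _).trans ?_
    rw [hq, pow_succ, pow_mul]
    have : (3 ^ 3) ^ q ≡ 1 ^ q [MOD 13] := Nat.ModEq.pow q (by decide)
    simpa using this.mul_right 3
  have ht := xmodb_powG h u j e1.symm (r * r)
  refine ⟨h ^ (r * r), b, j ^ (r * r), ?_, hje, ht, ?_⟩
  · rw [← pow_mul, ← orderOf_dvd_iff_pow_eq_one, hbr]
    exact ⟨r, by ring⟩
  · obtain ⟨y, hy⟩ := xmodb_powB (ρ u) (ρ h) j (hc h j e1.symm) v _ hB (r * r)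
    rw [← map_pow] at hy
    refine xmodb_fix (ρ u) (ρ (h ^ (r * r))) (j ^ (r * r)) ?_ (hc _ _ ht) v hv y hy
    have := (ZMod.natCast_eq_natCast_iff _ _ _).mpr hje
    simpa using this

end Pool.Agent.N9181

end

section

namespace Pool.Agent.N9181

open scoped commutatorElement

theorem xsplit_avg {G : Type} [Group G] [Finite G] (B R : Subgroup G) :
    ∃ (I : Type) (_ : Fintype I) (o : I → G), Fintype.card I = B.relIndex R ∧ (∀ i, o i ∈ R) ∧
      ∀ r ∈ R, ∃ σ : Equiv.Perm I, ∀ i, ∃ b ∈ B, o (σ i) = r * o i * b := by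
  classical
  refine ⟨R ⧸ B.subgroupOf R, Fintype.ofFinite _, fun q => (q.out : R), ?_, fun q => q.out.2, ?_⟩
  · rw [← @Nat.card_eq_fintype_card _ (Fintype.ofFinite _)]
    rfl
  · intro r hr
    refine ⟨MulAction.toPerm (⟨r, hr⟩ : R), fun q => ?_⟩
    have h1 : ((⟨r, hr⟩ : R) • q) = (((⟨r, hr⟩ : R) * q.out : R) : R ⧸ B.subgroupOf R) := by
      conv_lhs => rw [← QuotientGroup.out_eq' q]
      rfl
    obtain ⟨b, hb⟩ := QuotientGroup.mk_out_eq_mul (B.subgroupOf R) ((⟨r, hr⟩ : R) * q.out)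
    refine ⟨(b : R), b.2, ?_⟩
    simp only [MulAction.toPerm_apply]
    rw [h1, hb]
    rfl

theorem xsplit_t {V : Type} [AddCommGroup V] [Module K V]
    {G : Type} [Group G] (ρ : Representation K G V) (ι : V → G) (hι : Emb ρ ι) (B : Subgroup G)
    (hB : ∀ g, g ∈ B ↔ ∃ v, ι v = g) : ∃ t : G → V, ∀ v g, t (ι v * g) = v + t g := by
  classical
  have key : ∀ g : G, ∃ v, ι v =
      g * (Quotient.out (Quotient.mk (QuotientGroup.rightRel B) g))⁻¹ := by
    intro g
    apply (hB _).1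
    have := Quotient.mk_out (s := QuotientGroup.rightRel B) g
    exact QuotientGroup.rightRel_apply.1 this
  choose t ht using key
  refine ⟨t, fun v g => hι.inj ?_⟩
  have h1 : Quotient.mk (QuotientGroup.rightRel B) (ι v * g) =
      Quotient.mk (QuotientGroup.rightRel B) g := by
    symm
    apply Quotient.sound
    apply QuotientGroup.rightRel_apply.2
    rw [mul_inv_cancel_right]
    exact (hB _).2 ⟨v, rfl⟩
  rw [hι.add, ht, ht, h1, mul_assoc]

theorem split {V : Type} [AddCommGroup V] [Module K V] [Module.Finite K V]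
    {G : Type} [Group G] [Finite G] (ρ : Representation K G V) (ι : V → G) (hι : Emb ρ ι) (B R : Subgroup G) (hB : ∀ g, g ∈ B ↔ ∃ v, ι v = g) (hR : R.Normal)
    (hle : B ≤ R) (hc : ¬ 13 ∣ B.relIndex R) (hf : ∀ v, (∀ r ∈ R, ρ r v = v) → v = 0) :
    ∃ Y : Subgroup G, (∀ v, ι v ∈ Y → v = 0) ∧ ∀ g : G, ∃ v, ∃ h ∈ Y, g = ι v * h := by
  classical
  obtain ⟨I, _, o, hcard, hoR, hσ⟩ := xsplit_avg B R
  obtain ⟨t, ht⟩ := xsplit_t ρ ι hι B hB
  obtain ⟨h0, -, -, htriv⟩ := emb_basic ρ ι hι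
  have hn : ((Fintype.card I : ℕ) : K) ≠ 0 := by
    rw [hcard]
    intro h
    exact hc ((ZMod.natCast_eq_zero_iff _ _).1 h)
  set n : K := ((Fintype.card I : ℕ) : K) with hndef
  have hmul : ∀ (a b : G) (v : V), ρ (a * b) v = ρ a (ρ b v) := by
    intro a b v
    rw [map_mul]
    rfl
  have hsw : ∀ (g : G) (v : V), g * ι v = ι (ρ g v) * g := by
    intro g v
    rw [hι.act, inv_mul_cancel_right]
  have htr : ∀ (g : G) (v : V), t (g * ι v) = ρ g v + t g := by
    intro g v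
    rw [hsw, ht]
  have hfix : ∀ v w, ρ (ι v) w = w := by
    intro v w
    rw [htriv]
    rfl
  have hsum : ∀ (F : G → V), (∀ s ∈ R, ∀ v, F (s * ι v) = F s) → ∀ r ∈ R,
      ∑ i, F (r * o i) = ∑ i, F (o i) := by
    intro F hF r hr
    obtain ⟨σ, hσ'⟩ := hσ r hr
    rw [← Equiv.sum_comp σ (fun i => F (o i))]
    refine Finset.sum_congr rfl fun i _ => ?_
    obtain ⟨b, hb, e⟩ := hσ' i
    obtain ⟨v, rfl⟩ := (hB b).1 hb
    rw [e, hF _ (R.mul_mem hr (hoR i))]
  have hconst : ∀ v : V, n⁻¹ • ∑ _i : I, v = v := by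
    intro v
    rw [Finset.sum_const, Finset.card_univ, ← Nat.cast_smul_eq_nsmul K, smul_smul,
      inv_mul_cancel₀ hn, one_smul]
  obtain ⟨φ, hφm, hφι⟩ : ∃ φ : G → V, (∀ r, ∀ s ∈ R, φ (r * s) = φ r + ρ r (φ s)) ∧
      ∀ v, φ (ι v) = v := by
    refine ⟨fun r => n⁻¹ • ∑ i, (t (r * o i) - ρ r (t (o i))), ?_, ?_⟩
    · intro r s hs
      have h1 := hsum (fun x => t (r * x) - ρ r (t x)) (by
        intro x _ v
        rw [← mul_assoc, htr, htr, hmul, map_add]
        abel) s hs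
      simp only []
      rw [← h1, map_smul, map_sum, ← smul_add, ← Finset.sum_add_distrib]
      congr 1
      refine Finset.sum_congr rfl fun i _ => ?_
      rw [map_sub, hmul, mul_assoc]
      abel
    · intro v
      simp only []
      conv_rhs => rw [← hconst v]
      congr 1
      refine Finset.sum_congr rfl fun i _ => ?_
      rw [ht, hfix]
      abel
  have hιR : ∀ v, ι v ∈ R := fun v => hle ((hB _).2 ⟨v, rfl⟩)
  have hneg : ∀ v, (ι v)⁻¹ = ι (-v) := by
    intro v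
    rw [inv_eq_iff_mul_eq_one, ← hι.add, add_neg_cancel, h0]
  have hconj : ∀ (u : V), ∀ r ∈ R, φ (ι u * r * (ι u)⁻¹) = φ r + (u - ρ r u) := by
    intro u r hr
    rw [hneg, hφm _ _ (hιR _), hφm _ _ hr, hφι, hφι, hmul, hfix, hfix, map_neg]
    abel
  let Y : Subgroup G :=
    { carrier := {g | ∀ r ∈ R, φ (g * r * g⁻¹) = ρ g (φ r)}
      one_mem' := by
        intro r _
        simp
      mul_mem' := by
        intro a b ha hb r hr
        have h1 := ha _ (hR.conj_mem r hr b)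
        rw [hb r hr] at h1
        rw [hmul, ← h1]
        congr 1
        group
      inv_mem' := by
        intro a ha r hr
        have h1 := ha _ (hR.conj_mem r hr a⁻¹)
        have h2 : a * (a⁻¹ * r * a⁻¹⁻¹) * a⁻¹ = r := by group
        rw [h2] at h1
        rw [h1, ← hmul, inv_mul_cancel, map_one]
        rfl }
  refine ⟨Y, ?_, ?_⟩
  · intro v hv
    apply hf
    intro r hr
    have h1 : φ (ι v * r * (ι v)⁻¹) = ρ (ι v) (φ r) := hv r hr
    rw [hconj v r hr, hfix] at h1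
    have h2 : v - ρ r v = 0 := by simpa using h1
    exact (sub_eq_zero.1 h2).symm
  · intro g
    let c : G → V := fun r => ρ g (φ (g⁻¹ * r * g)) - φ r
    have hcm : ∀ r, ∀ s ∈ R, c (r * s) = c r + ρ r (c s) := by
      intro r s hs
      have e : g⁻¹ * (r * s) * g = (g⁻¹ * r * g) * (g⁻¹ * s * g⁻¹⁻¹) := by group
      have e2 : g * (g⁻¹ * r * g) = r * g := by group
      simp only [c]
      rw [e, hφm _ _ (hR.conj_mem s hs g⁻¹), hφm _ _ hs, map_add, map_sub, ← hmul, ← hmul, e2,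
        inv_inv]
      abel
    have hc0 : ∀ v, c (ι v) = 0 := by
      intro v
      have e : g⁻¹ * ι v * g = ι (ρ g⁻¹ v) := by rw [hι.act, inv_inv]
      simp only [c]
      rw [e, hφι, hφι, ← hmul, mul_inv_cancel, map_one]
      simp
    have hu : ∀ r ∈ R, c r = (n⁻¹ • ∑ i, c (o i)) - ρ r (n⁻¹ • ∑ i, c (o i)) := by
      intro r hr
      have h1 := hsum c (by
        intro s _ v
        rw [hcm _ _ (hιR v), hc0, map_zero, add_zero]) r hr
      conv_rhs => rw [map_smul, map_sum, ← smul_sub]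
      conv_rhs => enter [2, 1]; rw [← h1]
      rw [← Finset.sum_sub_distrib]
      conv_lhs => rw [← hconst (c r)]
      congr 1
      refine Finset.sum_congr rfl fun i _ => ?_
      rw [hcm _ _ (hoR i)]
      abel
    set u := n⁻¹ • ∑ i, c (o i) with hudef
    refine ⟨-u, ι u * g, ?_, ?_⟩
    · intro r hr
      have hr' := hR.conj_mem r hr g
      have h1 := hu _ hr'
      have e : ι u * g * r * (ι u * g)⁻¹ = ι u * (g * r * g⁻¹) * (ι u)⁻¹ := by group
      have e2 : g⁻¹ * (g * r * g⁻¹) * g = r := by group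
      rw [e, hconj u _ hr', ← h1, hmul, hfix]
      simp only [c]
      rw [e2]
      abel
    · rw [← hneg, inv_mul_cancel_left]

open scoped IsMulCommutative in
theorem centralHall {G : Type} [Group G] [Finite G] (B D : Subgroup G) (hD : D.Normal) (hle : B ≤ D)
    (hp : IsPGroup 13 B) (hcen : ∀ b ∈ B, ∀ d ∈ D, b * d = d * b) (hc : ¬ 13 ∣ B.relIndex D) :
    ∃ R : Subgroup G, R.Normal ∧ R ≤ D ∧ ¬ 13 ∣ Nat.card R ∧
      ∀ d ∈ D, ∃ a : ℕ, d ^ (13 ^ a) ∈ R := by
  classical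
  have hz : B.subgroupOf D ≤ Subgroup.center D := by
    intro x hx
    rw [Subgroup.mem_center_iff]
    intro y
    exact Subtype.ext (hcen x hx y y.2).symm
  have hkey : ∀ (g : D) (k : ℕ) (g₀ : D), g₀⁻¹ * g ^ k * g₀ ∈ B.subgroupOf D →
      g₀⁻¹ * g ^ k * g₀ = g ^ k := by
    intro g k g₀ hk
    have h1 := Subgroup.mem_center_iff.1 (hz hk) g₀
    have h2 : g₀ * (g₀⁻¹ * g ^ k * g₀) = g ^ k * g₀ := by group
    rw [h2] at h1
    exact (mul_right_cancel h1).symm
  have htr : ∀ g : D, ((MonoidHom.transfer (Subgroup.inclusion hz) g : Subgroup.center D) : D) =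
      g ^ B.relIndex D := by
    intro g
    rw [MonoidHom.transfer_eq_pow _ g (hkey g)]
    rfl
  have hmul : ∀ a ∈ D, ∀ b ∈ D, (a * b) ^ B.relIndex D = a ^ B.relIndex D * b ^ B.relIndex D := by
    intro a ha b hb
    have h1 := htr ((⟨a, ha⟩ : D) * ⟨b, hb⟩)
    rw [map_mul, Subgroup.coe_mul, htr, htr] at h1
    exact (congrArg Subtype.val h1).symm
  have hmem : ∀ a ∈ D, a ^ B.relIndex D ∈ B := by
    intro a ha
    exact MonoidHom.transfer_eq_pow_aux (⟨a, ha⟩ : D) (hkey _)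
  let R : Subgroup G :=
    { carrier := {d | d ∈ D ∧ d ^ B.relIndex D = 1}
      one_mem' := ⟨D.one_mem, one_pow _⟩
      mul_mem' := by
        intro a b ha hb
        exact ⟨D.mul_mem ha.1 hb.1, by rw [hmul a ha.1 b hb.1, ha.2, hb.2, one_mul]⟩
      inv_mem' := by
        intro a ha
        exact ⟨D.inv_mem ha.1, by rw [inv_pow, ha.2, inv_one]⟩ }
  refine ⟨R, ⟨?_⟩, fun d hd => hd.1, ?_, ?_⟩
  · intro d hd g
    exact ⟨hD.conj_mem d hd.1 g, by rw [conj_pow, hd.2, mul_one, mul_inv_cancel]⟩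
  · intro h
    obtain ⟨x, hx⟩ := exists_prime_orderOf_dvd_card' 13 h
    apply hc
    rw [← hx]
    apply orderOf_dvd_of_pow_eq_one
    exact Subtype.ext x.2.2
  · intro d hd
    obtain ⟨a, ha⟩ := hp ⟨_, hmem d hd⟩
    refine ⟨a, D.pow_mem hd _, ?_⟩
    rw [← pow_mul, mul_comm, pow_mul]
    exact congrArg Subtype.val ha

end Pool.Agent.N9181

end

section

namespace Pool.Agent.N9181

open scoped commutatorElement

theorem xcyc_proj {V : Type} [AddCommGroup V] [Module K V] {I : Type} [Fintype I] [DecidableEq I]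
    (W : I → Submodule K V) (h1 : iSupIndep W) (h2 : iSup W = ⊤) :
    ∃ P : I → V →ₗ[K] V, (∀ i v, P i v ∈ W i) ∧ (∀ v, ∑ i, P i v = v) ∧
      ∀ i j, ∀ w ∈ W i, P j w = if j = i then w else 0 := by
  have hI : DirectSum.IsInternal W :=
    (DirectSum.isInternal_submodule_iff_iSupIndep_and_iSup_eq_top W).2 ⟨h1, h2⟩
  let e := LinearEquiv.ofBijective (DirectSum.coeLinearMap W) hI
  refine ⟨fun i => (W i).subtype ∘ₗ DirectSum.component K I (fun i => W i) i ∘ₗ e.symm.toLinearMap,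
    fun i v => Submodule.coe_mem _, fun v => ?_, fun i j w hw => ?_⟩
  · obtain ⟨x, rfl⟩ := e.surjective v
    simp only [LinearMap.coe_comp, Function.comp_apply, LinearEquiv.coe_coe,
      LinearEquiv.symm_apply_apply, Submodule.coe_subtype]
    conv_rhs => rw [← DirectSum.sum_univ_of x, map_sum]
    refine Finset.sum_congr rfl fun i _ => ?_
    exact (DirectSum.coeLinearMap_of W i _).symm
  · simp only [LinearMap.coe_comp, Function.comp_apply, LinearEquiv.coe_coe,
      Submodule.coe_subtype]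
    split_ifs with h
    · subst h
      exact congrArg Subtype.val (hI.ofBijective_coeLinearMap_of_mem hw)
    · exact congrArg Subtype.val (hI.ofBijective_coeLinearMap_of_mem_ne (Ne.symm h) hw)

theorem xcyc_tau {H : Type} [Group H] [Finite H] {I : Type} [MulAction H I] (t : H) (a : ℕ)
    (ht : t ^ (3 ^ a) = 1) :
    ∃ k : I → ℕ, ∀ i, t • i ≠ i → k (t • i) ≡ k i + 1 [MOD 3] := by
  let q : I → MulAction.orbitRel.Quotient (Subgroup.zpowers t) I := Quotient.mk _
  have hk : ∀ i, ∃ k : ℕ, t ^ k • (q i).out = i := by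
    intro i
    have h : (MulAction.orbitRel (Subgroup.zpowers t) I) i (q i).out :=
      (MulAction.orbitRel (Subgroup.zpowers t) I).symm (Quotient.mk_out i)
    obtain ⟨⟨g, hg⟩, hg'⟩ := MulAction.orbitRel_apply.1 h
    obtain ⟨k, rfl⟩ := (Submonoid.mem_powers_iff _ _).1 (mem_powers_iff_mem_zpowers.2 hg)
    exact ⟨k, hg'⟩
  choose k hk using hk
  refine ⟨k, fun i hi => ?_⟩
  have hq : q (t • i) = q i :=
    Quotient.sound (MulAction.orbitRel_apply.2 ⟨⟨t, Subgroup.mem_zpowers t⟩, rfl⟩)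
  have h1 := hk (t • i)
  have h2 := hk i
  rw [hq] at h1
  generalize (q i).out = r at h1 h2
  have h3 : t ^ (k i + 1) • r = t ^ k (t • i) • r := by rw [h1, pow_succ', mul_smul, h2]
  have hd : MulAction.period t r ∣ 3 ^ a :=
    MulAction.pow_smul_eq_iff_period_dvd.1 (by rw [ht, one_smul])
  obtain ⟨s, _, hs⟩ := (Nat.dvd_prime_pow Nat.prime_three).1 hd
  have h4 : 3 ∣ MulAction.period t r := by
    rcases Nat.eq_zero_or_pos s with h0 | h0
    · exfalso
      have hr : t • r = r := by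
        have := (MulAction.pow_smul_eq_iff_period_dvd (n := 1) (m := t) (a := r)).2
          (by rw [hs, h0]; simp)
        rwa [pow_one] at this
      apply hi
      rw [← h2, ← mul_smul, ← pow_succ', pow_succ, mul_smul, hr]
    · rw [hs]; exact dvd_pow_self 3 h0.ne'
  have h5 : (MulAction.period t r : ℤ) ∣ ((k i + 1 : ℕ) : ℤ) - (k (t • i) : ℤ) := by
    refine MulAction.zpow_smul_eq_iff_period_dvd.1 ?_
    rw [sub_eq_neg_add, zpow_add, mul_smul, zpow_natCast, h3, zpow_neg, zpow_natCast,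
      inv_smul_smul]
  exact (Nat.modEq_iff_dvd).2 ((Int.natCast_dvd_natCast.2 h4).trans h5)

theorem cyc {V : Type} [AddCommGroup V] [Module K V] [Module.Finite K V]
    {H : Type} [Group H] [Finite H] (ρ : Representation K H V) {I : Type} [Fintype I] [DecidableEq I] [MulAction H I]
    (W : I → Submodule K V) (hB : BD ρ I W) (t : H) (a : ℕ) (ht : t ^ (3 ^ a) = 1) :
    ∃ c : ℕ, (∀ ν : K, ν ^ 3 = 1 → ed (ρ t) ν =
        c + ∑ i ∈ Finset.univ.filter (fun i : I => t • i = i), edOn (W i) (ρ t) ν) ∧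
      ∀ (ν : K) (v : V), ν ^ 3 = 1 → ρ t v = ν • v → v ∉ (⨆ (i : I) (_ : t • i = i), W i) →
        0 < c := by
  obtain ⟨P, hP1, hP2, hP3⟩ := xcyc_proj W hB.ind hB.top
  obtain ⟨k, hk⟩ := xcyc_tau (I := I) t a ht
  have hc : ∀ i v, P (t • i) (ρ t v) = ρ t (P i v) := by
    intro i v
    conv_lhs => rw [← hP2 v, map_sum, map_sum]
    rw [Finset.sum_eq_single i]
    · rw [hP3 _ _ _ (hB.map t i _ (hP1 i v)), if_pos rfl]
    · intro j _ hj
      rw [hP3 _ _ _ (hB.map t j _ (hP1 j v)), if_neg]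
      exact fun h => hj (MulAction.injective t h).symm
    · exact fun h => absurd (Finset.mem_univ i) h
  let Wm : Submodule K V := ⨅ (i : I) (_ : t • i = i), LinearMap.ker (P i)
  have hWm : ∀ v, v ∈ Wm ↔ ∀ i, t • i = i → P i v = 0 := by
    intro v
    simp only [Wm, Submodule.mem_iInf, LinearMap.mem_ker]
  have hfix : ∀ (ν : K) (v : V), ρ t v = ν • v → ∀ i, t • i = i → ρ t (P i v) = ν • P i v := by
    intro ν v hv i hi
    rw [← hc, hi, hv, map_smul]
  have hle : ∀ ν κ : K, κ ^ 3 = 1 → edOn Wm (ρ t) ν ≤ edOn Wm (ρ t) (ν * κ) := by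
    intro ν κ hκ
    have hκ0 : κ ≠ 0 := by
      rintro rfl
      simp at hκ
    let D : V →ₗ[K] V := ∑ i, (κ ^ (2 * k i)) • P i
    have hD : ∀ v, D v = ∑ i, (κ ^ (2 * k i)) • P i v := by
      intro v
      simp only [D, LinearMap.sum_apply, LinearMap.smul_apply]
    have hPD : ∀ j v, P j (D v) = (κ ^ (2 * k j)) • P j v := by
      intro j v
      rw [hD, map_sum, Finset.sum_eq_single j]
      · rw [map_smul, hP3 _ _ _ (hP1 j v), if_pos rfl]
      · intro i _ hi
        rw [map_smul, hP3 _ _ _ (hP1 i v), if_neg (Ne.symm hi), smul_zero]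
      · exact fun h => absurd (Finset.mem_univ j) h
    have hinj : Function.Injective D := by
      refine (injective_iff_map_eq_zero D).2 fun v hv => ?_
      rw [← hP2 v]
      refine Finset.sum_eq_zero fun j _ => ?_
      have := hPD j v
      rw [hv, map_zero] at this
      exact (smul_eq_zero.1 this.symm).resolve_left (pow_ne_zero _ hκ0)
    have hmap : (Wm ⊓ Module.End.eigenspace (ρ t) ν).map D ≤ Wm ⊓ Module.End.eigenspace (ρ t) (ν * κ) := by
      rintro _ ⟨v, ⟨hv1, hv2⟩, rfl⟩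
      have hv1 := (hWm v).1 hv1
      have hv2 : ρ t v = ν • v := Module.End.mem_eigenspace_iff.1 hv2
      refine ⟨(hWm _).2 fun i hi => by rw [hPD, hv1 i hi, smul_zero],
        Module.End.mem_eigenspace_iff.2 ?_⟩
      rw [hD, map_sum, Finset.smul_sum,
        ← Equiv.sum_comp (MulAction.toPerm t) (fun i => (ν * κ) • (κ ^ (2 * k i)) • P i v)]
      refine Finset.sum_congr rfl fun i _ => ?_
      rw [MulAction.toPerm_apply, map_smul, ← hc, hv2, map_smul]
      by_cases hi : t • i = i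
      · rw [hi, hv1 i hi]; simp
      · rw [smul_smul, smul_smul]
        congr 1
        have h1 : κ ^ (2 * k (t • i) + 1) = κ ^ (2 * k i) := by
          have := hk i hi
          rw [pow_eq_pow_mod _ hκ, pow_eq_pow_mod (2 * k i) hκ]
          congr 1
          unfold Nat.ModEq at this
          omega
        rw [← h1]; ring
    calc edOn Wm (ρ t) ν = Module.finrank K ((Wm ⊓ Module.End.eigenspace (ρ t) ν).map D) :=
          (Submodule.equivMapOfInjective D hinj _).finrank_eq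
      _ ≤ _ := Submodule.finrank_mono hmap
  have heq : ∀ ν : K, ν ^ 3 = 1 → edOn Wm (ρ t) ν = edOn Wm (ρ t) 1 := by
    intro ν hν
    refine le_antisymm ?_ ?_
    · have := hle ν (ν ^ 2) (by rw [← pow_mul, mul_comm, pow_mul, hν, one_pow])
      rwa [← pow_succ', hν] at this
    · have := hle 1 ν hν
      rwa [one_mul] at this
  refine ⟨edOn Wm (ρ t) 1, fun ν hν => ?_, fun ν v hν hv hn => ?_⟩
  · rw [← heq ν hν]
    let E := Module.End.eigenspace (ρ t) ν
    let Φ : E →ₗ[K] ((i : {i : I // t • i = i}) → (W i.1 ⊓ E : Submodule K V)) :=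
      LinearMap.pi fun i => LinearMap.codRestrict _ (P i.1 ∘ₗ E.subtype) fun v =>
        ⟨hP1 _ _, Module.End.mem_eigenspace_iff.2
          (hfix ν v (Module.End.mem_eigenspace_iff.1 v.2) i.1 i.2)⟩
    have hΦ : ∀ (v : E) (i : {i : I // t • i = i}), (Φ v i : V) = P i.1 v := fun _ _ => rfl
    have hs : LinearMap.range Φ = ⊤ := by
      refine LinearMap.range_eq_top.2 fun w => ?_
      refine ⟨⟨∑ i, (w i : V), E.sum_mem fun i _ => (w i).2.2⟩, funext fun j => Subtype.ext ?_⟩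
      rw [hΦ]
      change P j.1 (∑ i, (w i : V)) = _
      rw [map_sum, Finset.sum_eq_single j]
      · rw [hP3 _ _ _ (w j).2.1, if_pos rfl]
      · intro i _ hi
        rw [hP3 _ _ _ (w i).2.1, if_neg fun h => hi (Subtype.ext h).symm]
      · exact fun h => absurd (Finset.mem_univ j) h
    have hker : LinearMap.ker Φ = Wm.comap E.subtype := by
      ext v
      rw [LinearMap.mem_ker, Submodule.mem_comap, hWm]
      constructor
      · intro h i hi
        have := hΦ v ⟨i, hi⟩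
        rw [h] at this
        exact this.symm
      · intro h
        exact funext fun i => Subtype.ext ((hΦ v i).trans (h i.1 i.2))
    have h1 := LinearMap.finrank_range_add_finrank_ker Φ
    rw [hs, finrank_top, Module.finrank_pi_fintype, hker,
      ← Submodule.finrank_map_subtype_eq E, Submodule.map_comap_subtype, inf_comm] at h1
    rw [Finset.sum_subtype (p := fun i : I => t • i = i) _ (by simp), add_comm]
    exact h1.symm
  · rw [← heq ν hν, edOn_pos]
    refine ⟨v - ∑ i ∈ Finset.univ.filter (fun i : I => t • i = i), P i v,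
      (hWm _).2 fun j hj => ?_, fun h => hn ?_, ?_⟩
    · rw [map_sub, map_sum, Finset.sum_eq_single j]
      · rw [hP3 _ _ _ (hP1 j v), if_pos rfl, sub_self]
      · intro i _ hi
        rw [hP3 _ _ _ (hP1 i v), if_neg (Ne.symm hi)]
      · exact fun h => absurd (by simpa using hj) h
    · rw [sub_eq_zero.1 h]
      refine Submodule.sum_mem _ fun i hi => ?_
      exact Submodule.mem_iSup_of_mem i
        (Submodule.mem_iSup_of_mem (Finset.mem_filter.1 hi).2 (hP1 i v))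
    · rw [map_sub, map_sum, smul_sub, Finset.smul_sum, hv]
      congr 1
      exact Finset.sum_congr rfl fun i hi => hfix ν v hv i (Finset.mem_filter.1 hi).2

end Pool.Agent.N9181

end

section

namespace Pool.Agent.N9181

open scoped commutatorElement

section Aux

variable {V : Type} [AddCommGroup V] [Module K V]

theorem xstepa_congr (W : Submodule K V) (a b : Module.End K V) (μ ν : K)
    (h : ∀ w ∈ W, a w = μ • w ↔ b w = ν • w) : edOn W a μ = edOn W b ν := by
  have : (W ⊓ a.eigenspace μ : Submodule K V) = W ⊓ b.eigenspace ν := by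
    ext w
    simp only [Submodule.mem_inf, Module.End.mem_eigenspace_iff]
    exact and_congr_right (h w)
  unfold edOn
  rw [this]

theorem xstepa_mul (W : Submodule K V) (a b : Module.End K V) (c ν : K) (hc : c ≠ 0)
    (h : ∀ w ∈ W, a w = c • b w) : edOn W a (c * ν) = edOn W b ν :=
  xstepa_congr W a b _ _ fun w hw => by
    rw [h w hw, mul_smul]
    exact (smul_right_injective V hc).eq_iff

theorem xstepa_full (W : Submodule K V) (a : Module.End K V) (c : K)
    (h : ∀ w ∈ W, a w = c • w) : edOn W a c = Module.finrank K W := by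
  have : (W ⊓ a.eigenspace c : Submodule K V) = W :=
    inf_eq_left.2 fun w hw => Module.End.mem_eigenspace_iff.2 (h w hw)
  unfold edOn
  rw [this]

theorem xstepa_pow (W : Submodule K V) (a : Module.End K V) (c : K)
    (h : ∀ w ∈ W, a w = c • w) (n : ℕ) : ∀ w ∈ W, (a ^ n) w = c ^ n • w := by
  intro w hw
  induction n with
  | zero => simp
  | succ n ih => rw [pow_succ', Module.End.mul_apply, ih, map_smul, h w hw, smul_smul, pow_succ]

variable [Module.Finite K V]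

theorem xstepa_zero (W : Submodule K V) (a : Module.End K V) (c ν : K)
    (h : ∀ w ∈ W, a w = c • w) (hne : c ≠ ν) : edOn W a ν = 0 := by
  by_contra h0
  obtain ⟨w, hw, hw0, e⟩ := (edOn_pos W a ν).1 (Nat.pos_of_ne_zero h0)
  rw [h w hw] at e
  exact hne (smul_left_injective K hw0 e)

theorem xstepa_of_full (W : Submodule K V) (a : Module.End K V) (c : K)
    (h : Module.finrank K W ≤ edOn W a c) : ∀ w ∈ W, a w = c • w := by
  have := Submodule.eq_of_le_of_finrank_le (inf_le_left : W ⊓ a.eigenspace c ≤ W) h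
  intro w hw
  rw [← this] at hw
  exact Module.End.mem_eigenspace_iff.1 hw.2

theorem xstepa_sum {I : Type} (F : Finset I) (f g : I → ℕ) (i1 i2 i3 : I) (h1 : i1 ∈ F)
    (h2 : i2 ∈ F) (h3 : i3 ∈ F) (h12 : i1 ≠ i2) (h13 : i1 ≠ i3) (h23 : i2 ≠ i3)
    (hg : ∀ i ∈ F, i ≠ i1 → i ≠ i2 → g i = 0) (h : ∑ i ∈ F, f i = ∑ i ∈ F, g i) :
    f i1 + f i2 + f i3 ≤ g i1 + g i2 := by
  classical
  rw [← Finset.sum_eq_add_of_mem i1 i2 h1 h2 h12 fun c hc hh => hg c hc hh.1 hh.2, ← h]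
  have hs : ({i1, i2, i3} : Finset I) ⊆ F := by
    intro x hx
    simp only [Finset.mem_insert, Finset.mem_singleton] at hx
    rcases hx with rfl | rfl | rfl <;> assumption
  have := Finset.sum_le_sum_of_subset (f := f) hs
  rw [Finset.sum_insert (by simp [h12, h13]), Finset.sum_insert (by simp [h23]),
    Finset.sum_singleton] at this
  omega

variable {H : Type} [Group H] [Finite H] (ρ : Representation K H V) {I : Type} [Fintype I]
  [MulAction H I] (W : I → Submodule K V)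

theorem xstepa_bal0 [DecidableEq I] (hB : BD ρ I W) (hbal : HBal ρ) (t : H) (a : ℕ)
    (ht : t ^ (3 ^ a) = 1) (hv : ∃ v, v ≠ 0 ∧ ρ t v = v) :
    ∑ i ∈ Finset.univ.filter (fun i : I => t • i = i), edOn (W i) (ρ t) 3 =
      ∑ i ∈ Finset.univ.filter (fun i : I => t • i = i), edOn (W i) (ρ t) 9 := by
  obtain ⟨c, hc, -⟩ := cyc ρ W hB t a ht
  obtain ⟨v, hv0, hv⟩ := hv
  have := hbal t v hv0 hv
  rw [hc 3 (by decide), hc 9 (by decide)] at this
  omega

theorem xstepa_mov (hB : BD ρ I W) (t : H) (a : ℕ) (ht : t ^ (3 ^ a) = 1) (v : V)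
    (h : ρ t v = (3 : K) • v) (hv : v ∉ (⨆ (i : I) (_ : t • i = i), W i)) :
    ∃ v, v ≠ 0 ∧ ρ t v = v := by
  classical
  obtain ⟨c, hc, hc2⟩ := cyc ρ W hB t a ht
  have h0 := hc2 3 v (by decide) h hv
  have h1 : 0 < edOn ⊤ (ρ t) 1 := by
    rw [edOn_top, hc 1 (by decide)]
    omega
  obtain ⟨w, -, hw0, hw⟩ := (edOn_pos _ _ _).1 h1
  exact ⟨w, hw0, by rw [hw, one_smul]⟩

theorem xstepa_bal (hB : BD ρ I W) (hbal : HBal ρ) (g : H) (b : ℕ)
    (hg : (ρ g) ^ (3 ^ b) = 1) (hf : ∀ i : I, g • i = i) (hv : ∃ v, v ≠ 0 ∧ ρ g v = v) :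
    ∑ i, edOn (W i) (ρ g) 3 = ∑ i, edOn (W i) (ρ g) 9 := by
  classical
  obtain ⟨e, a, h1, -, h2⟩ := p_part 3 Nat.prime_three g
  have h3 : ρ (g ^ e) = ρ g := h2 _ ρ b hg
  have h4 : ∀ i : I, (g ^ e) • i = i := fun i =>
    (MulAction.stabilizer H i).pow_mem (show g ∈ MulAction.stabilizer H i from hf i) e
  have := xstepa_bal0 ρ W hB hbal (g ^ e) a h1 (by rw [h3]; exact hv)
  rwa [Finset.filter_true_of_mem fun i _ => h4 i, h3] at this

theorem xstepa_pair (hB : BD ρ I W) (hbal : HBal ρ) (t x h : H) (a : ℕ) (i1 : I) (s : K)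
    (hs : s ≠ 0) (h12 : i1 ≠ h • i1) (ht : t ^ (3 ^ a) = 1) (hx : x ^ (3 ^ a) = 1)
    (ft : ∀ i : I, t • i = i) (fx : ∀ i : I, x • i = i)
    (st : ∀ i, i ≠ i1 → ∀ w ∈ W i, ρ t w = (3 : K) • w)
    (sx : ∀ i, i ≠ i1 → ∀ w ∈ W i, ρ x w = s • w) (hv : 0 < edOn (W i1) (ρ x) 9) :
    ∃ E : I → K → ℕ, ∑ i, E i 3 = ∑ i, E i 9 ∧ (∀ ν, E i1 (3 * ν) = edOn (W i1) (ρ x) ν) ∧
      (∀ ν, E (h • i1) (s * ν) = edOn (W i1) (ρ t) ν) ∧
      ∀ i, i ≠ i1 → i ≠ h • i1 →
        E i (3 * s) = Module.finrank K (W i) ∧ ∀ ν, 3 * s ≠ ν → E i ν = 0 := by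
  have f2 : ∀ i : I, (h * t * h⁻¹) • i = i := fun i => by
    rw [mul_smul, mul_smul, ft, smul_inv_smul]
  have s2 : ∀ i, i ≠ h • i1 → ∀ w ∈ W i, ρ (h * t * h⁻¹) w = (3 : K) • w := by
    intro i hi w hw
    have h1 : h⁻¹ • i ≠ i1 := fun e => hi (by rw [← e, smul_inv_smul])
    rw [map_mul, map_mul, Module.End.mul_apply, Module.End.mul_apply,
      st _ h1 _ (hB.map h⁻¹ i w hw), map_smul, ← Module.End.mul_apply, ← map_mul,
      mul_inv_cancel, map_one, Module.End.one_apply]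
  have o2 : (h * t * h⁻¹) ^ (3 ^ a) = 1 := by rw [conj_pow, ht, mul_one, mul_inv_cancel]
  have d2 := fun c => (dim_eq ρ W hB h t i1 c).2
  generalize h * t * h⁻¹ = u at f2 s2 o2 d2
  generalize h • i1 = i2 at h12 s2 d2
  have mx : ∀ i, ∀ w ∈ W i, ρ x w ∈ W i := fun i w hw => by
    have := hB.map x i w hw
    rwa [fx] at this
  have mu : ∀ i, ∀ w ∈ W i, ρ u w ∈ W i := fun i w hw => by
    have := hB.map u i w hw
    rwa [f2] at this
  have hc : Commute (ρ u) (ρ x) := by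
    refine ext_blocks ρ W hB _ _ fun i w hw => ?_
    rw [Module.End.mul_apply, Module.End.mul_apply]
    by_cases hi : i = i1
    · have hi2 : i ≠ i2 := hi ▸ h12
      rw [s2 i hi2 _ (mx i w hw), s2 i hi2 w hw, map_smul]
    · rw [sx i hi _ (mu i w hw), sx i hi w hw, map_smul]
  have ho : (ρ (u * x)) ^ (3 ^ a) = 1 := by
    rw [map_mul, hc.mul_pow, ← map_pow, ← map_pow, o2, hx, map_one, mul_one]
  have e1 : ∀ w ∈ W i1, ρ (u * x) w = (3 : K) • ρ x w := fun w hw => by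
    rw [map_mul, Module.End.mul_apply, s2 i1 h12 _ (mx i1 w hw)]
  have e2 : ∀ w ∈ W i2, ρ (u * x) w = s • ρ u w := fun w hw => by
    rw [map_mul, Module.End.mul_apply, sx i2 h12.symm w hw, map_smul]
  have e3 : ∀ i, i ≠ i1 → i ≠ i2 → ∀ w ∈ W i, ρ (u * x) w = (3 * s) • w := fun i a1 a2 w hw => by
    rw [map_mul, Module.End.mul_apply, sx i a1 w hw, map_smul, s2 i a2 w hw, smul_smul, mul_comm]
  refine ⟨fun i ν => edOn (W i) (ρ (u * x)) ν, ?_, fun ν => ?_, fun ν => ?_, fun i a1 a2 => ?_⟩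
  · refine xstepa_bal ρ W hB hbal _ a ho (fun i => by rw [mul_smul, fx, f2]) ?_
    obtain ⟨w, hw, hw0, e⟩ := (edOn_pos _ _ _).1 hv
    refine ⟨w, hw0, ?_⟩
    rw [e1 w hw, e, smul_smul, show (3 * 9 : K) = 1 by decide, one_smul]
  · exact xstepa_mul _ _ _ _ _ (by decide) e1
  · exact (xstepa_mul _ _ _ _ _ hs e2).trans (d2 ν)
  · exact ⟨xstepa_full _ _ _ (e3 i a1 a2), fun ν hν => xstepa_zero _ _ _ _ (e3 i a1 a2) hν⟩

omit [Finite H] [Fintype I] in
theorem xstepa_dim [MulAction.IsPretransitive H I] (hB : BD ρ I W) (i j : I) :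
    Module.finrank K (W i) = Module.finrank K (W j) ∧ 0 < Module.finrank K (W i) := by
  obtain ⟨h, rfl⟩ := MulAction.exists_smul_eq H j i
  refine ⟨(dim_eq ρ W hB h 1 j 0).1, Nat.pos_of_ne_zero fun e => hB.ne (h • j) ?_⟩
  exact Submodule.finrank_eq_zero.1 e

theorem xstepa_cube [MulAction.IsPretransitive H I] (hB : BD ρ I W) (hbal : HBal ρ)
    (hS : BScal ρ W) (hbb : BBal ρ W) (t : H) (a : ℕ) (i1 i2 i3 : I) (h12 : i1 ≠ i2)
    (h13 : i1 ≠ i3) (h23 : i2 ≠ i3) (ht : t ^ (3 ^ a) = 1) (ft : ∀ i : I, t • i = i)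
    (st : ∀ i, i ≠ i1 → ∀ w ∈ W i, ρ t w = (3 : K) • w) : (ρ t) ^ 3 = 1 := by
  by_contra hne
  obtain ⟨k, k1, k2⟩ : ∃ k, ρ (t ^ (3 ^ (k + 1))) ≠ 1 ∧ ρ (t ^ (3 ^ (k + 1 + 1))) = 1 := by
    by_contra hn
    have h1 : ∀ k, ρ (t ^ (3 ^ (k + 1))) ≠ 1 := by
      intro k
      induction k with
      | zero => rw [map_pow]; exact hne
      | succ k ih => exact fun e => hn ⟨k, ih, e⟩
    refine h1 a ?_
    rw [pow_succ, pow_mul, ht, one_pow, map_one]
  have oy : (t ^ (3 ^ (k + 1))) ^ (3 ^ a) = 1 := by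
    rw [← pow_mul, mul_comm, pow_mul, ht, one_pow]
  have fy : ∀ i : I, (t ^ (3 ^ (k + 1))) • i = i := fun i =>
    (MulAction.stabilizer H i).pow_mem (show t ∈ MulAction.stabilizer H i from ft i) _
  have sy : ∀ i, i ≠ i1 → ∀ w ∈ W i, ρ (t ^ (3 ^ (k + 1))) w = (1 : K) • w := by
    intro i hi w hw
    rw [map_pow, xstepa_pow _ _ _ (st i hi) _ w hw, pow_succ', pow_mul,
      show (3 : K) ^ 3 = 1 by decide, one_pow]
  rw [pow_succ _ (k + 1), pow_mul, map_pow] at k2
  generalize t ^ (3 ^ (k + 1)) = y at k1 k2 oy fy sy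
  have my : ∀ w ∈ W i1, ρ y w ∈ W i1 := fun w hw => by
    have := hB.map y i1 w hw
    rwa [fy] at this
  have b1 : ∑ i, edOn (W i) (ρ y) 3 = ∑ i, edOn (W i) (ρ y) 9 := by
    refine xstepa_bal ρ W hB hbal y a (by rw [← map_pow, oy, map_one]) fy ?_
    obtain ⟨w, hw, hw0⟩ := Submodule.exists_mem_ne_zero_of_ne_bot (hB.ne i2)
    exact ⟨w, hw0, by rw [sy i2 h12.symm w hw, one_smul]⟩
  rw [Finset.sum_eq_single i1 (fun i _ hi => xstepa_zero _ _ _ _ (sy i hi) (by decide))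
      (fun h => (h (Finset.mem_univ _)).elim),
    Finset.sum_eq_single i1 (fun i _ hi => xstepa_zero _ _ _ _ (sy i hi) (by decide))
      (fun h => (h (Finset.mem_univ _)).elim)] at b1
  have b2 := split3 (W i1) (ρ y) my fun w _ => by rw [k2, Module.End.one_apply]
  have b3 : 0 < edOn (W i1) (ρ y) 3 := by
    refine Nat.pos_of_ne_zero fun e => k1 (ext_blocks ρ W hB _ _ fun i w hw => ?_)
    rw [Module.End.one_apply]
    by_cases hi : i = i1
    · subst hi
      rw [xstepa_of_full (W i) (ρ y) 1 (by omega) w hw, one_smul]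
    · rw [sy i hi w hw, one_smul]
  obtain ⟨z, z1, z2⟩ := hS i1
  have e1 : ∀ w ∈ W i1, ρ (y * z * z) w = (9 : K) • ρ y w := fun w hw => by
    rw [map_mul, map_mul, Module.End.mul_apply, Module.End.mul_apply, z2 w hw, map_smul,
      z2 w hw, smul_smul, map_smul, show (3 * 3 : K) = 9 by decide]
  have b4 := hbb i1 (y * z * z) (by rw [mul_smul, mul_smul, z1, z1, fy]) (by
    obtain ⟨w, hw, hw0, e⟩ := (edOn_pos _ _ _).1 b3
    refine ⟨w, hw, hw0, ?_⟩
    rw [e1 w hw, e, smul_smul, show (9 * 3 : K) = 1 by decide, one_smul])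
  have b5 := xstepa_mul _ _ _ _ 9 (by decide) e1
  have b6 := xstepa_mul _ _ _ _ 1 (by decide) e1
  rw [show (9 * 9 : K) = 3 by decide] at b5
  rw [mul_one] at b6
  obtain ⟨h, rfl⟩ := MulAction.exists_smul_eq H i1 i2
  obtain ⟨E, c1, c2, c3, c4⟩ :=
    xstepa_pair ρ W hB hbal t y h a i1 1 one_ne_zero h12 ht oy ft fy st sy (by omega)
  have c5 := xstepa_sum Finset.univ (fun i => E i 3) (fun i => E i 9) i1 (h • i1) i3
    (Finset.mem_univ _) (Finset.mem_univ _) (Finset.mem_univ _) h12 h13 h23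
    (fun i _ a1 a2 => (c4 i a1 a2).2 9 (by decide)) c1
  have c6 := c2 1
  have c7 := c2 3
  have c8 := c3 9
  have c9 := (c4 i3 h13.symm h23.symm).1
  rw [mul_one] at c6 c9
  rw [show (3 * 3 : K) = 9 by decide] at c7
  rw [one_mul] at c8
  have c10 := (xstepa_dim ρ W hB i1 i3).1
  have c11 := xstepa_of_full (W i1) (ρ t) 9 (by omega)
  refine hne (ext_blocks ρ W hB _ _ fun i w hw => ?_)
  rw [Module.End.one_apply]
  by_cases hi : i = i1
  · subst hi
    rw [xstepa_pow _ _ _ c11 3 w hw, show (9 : K) ^ 3 = 1 by decide, one_smul]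
  · rw [xstepa_pow _ _ _ (st i hi) 3 w hw, show (3 : K) ^ 3 = 1 by decide, one_smul]

theorem xstepa_fin [MulAction.IsPretransitive H I] (hB : BD ρ I W) (hbal : HBal ρ)
    (hS : BScal ρ W) (hbb : BBal ρ W) (t : H) (a : ℕ) (i1 i2 i3 : I) (h12 : i1 ≠ i2)
    (h13 : i1 ≠ i3) (h23 : i2 ≠ i3) (ht : t ^ (3 ^ a) = 1) (ft : ∀ i : I, t • i = i)
    (st : ∀ i, i ≠ i1 → ∀ w ∈ W i, ρ t w = (3 : K) • w) : ∀ w ∈ W i1, ρ t w = (3 : K) • w := by
  have h3 := xstepa_cube ρ W hB hbal hS hbb t a i1 i2 i3 h12 h13 h23 ht ft st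
  have mt : ∀ w ∈ W i1, ρ t w ∈ W i1 := fun w hw => by
    have := hB.map t i1 w hw
    rwa [ft] at this
  have b2 := split3 (W i1) (ρ t) mt fun w _ => by rw [h3, Module.End.one_apply]
  obtain ⟨d2, d0⟩ := xstepa_dim ρ W hB i1 i2
  have d3 := (xstepa_dim ρ W hB i1 i3).1
  have p0 : edOn (W i1) (ρ t) 1 = 0 := by
    by_contra e
    obtain ⟨w, -, hw0, hw⟩ := (edOn_pos _ _ _).1 (Nat.pos_of_ne_zero e)
    have b1 := xstepa_bal ρ W hB hbal t a (by rw [← map_pow, ht, map_one]) ft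
      ⟨w, hw0, by rw [hw, one_smul]⟩
    have c5 := xstepa_sum Finset.univ _ _ i1 i2 i3
      (Finset.mem_univ _) (Finset.mem_univ _) (Finset.mem_univ _) h12 h13 h23
      (fun i _ a1 _ => xstepa_zero _ _ _ _ (st i a1) (by decide)) b1
    rw [xstepa_full _ _ _ (st i2 h12.symm), xstepa_full _ _ _ (st i3 h13.symm),
      xstepa_zero _ _ _ 9 (st i2 h12.symm) (by decide)] at c5
    omega
  have p2 : edOn (W i1) (ρ t) 9 = 0 := by
    by_contra e
    obtain ⟨h, rfl⟩ := MulAction.exists_smul_eq H i1 i2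
    obtain ⟨E, c1, c2, c3, c4⟩ := xstepa_pair ρ W hB hbal t t h a i1 3 (by decide) h12 ht ht
      ft ft st st (Nat.pos_of_ne_zero e)
    have c5 := xstepa_sum Finset.univ (fun i => E i 9) (fun i => E i 3) i1 (h • i1) i3
      (Finset.mem_univ _) (Finset.mem_univ _) (Finset.mem_univ _) h12 h13 h23
      (fun i _ a1 a2 => (c4 i a1 a2).2 3 (by decide)) c1.symm
    have c6 := c2 1
    have c8 := c3 1
    have c9 := (c4 i3 h13.symm h23.symm).1
    rw [mul_one] at c6 c8
    rw [show (3 * 3 : K) = 9 by decide] at c9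
    omega
  exact xstepa_of_full _ _ _ (by omega)

end Aux

theorem stepA {V : Type} [AddCommGroup V] [Module K V] [Module.Finite K V]
    {H : Type} [Group H] [Finite H] (ρ : Representation K H V) {I : Type} [Fintype I] [MulAction H I] [MulAction.IsPretransitive H I]
    (W : I → Submodule K V) (hB : BD ρ I W) (hbal : HBal ρ) (hE : HEP ρ 3) (hS : BScal ρ W)
    (r : I → V) (hr : BReg ρ W r) (hbb : BBal ρ W) : Scal ρ := by
  classical
  have hr' : ∀ S : Finset I, ∀ i ∈ S, r i ∈ W i ∧ r i ≠ 0 := fun _ i _ => ⟨(hr i).1, (hr i).2.1⟩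
  have key : ∀ (S : Finset I) (t : H) (a : ℕ), t ^ (3 ^ a) = 1 →
      ρ t (∑ i ∈ S, r i) = (3 : K) • ∑ i ∈ S, r i →
      (∀ i ∈ S, t • i ∈ S) ∧ (∀ i ∈ S, t • i = i → ∀ w ∈ W i, ρ t w = (3 : K) • w) ∧
      ∀ j ∈ S, t • j ≠ j →
        ∑ i ∈ Finset.univ.filter (fun i : I => t • i = i), edOn (W i) (ρ t) 3 =
          ∑ i ∈ Finset.univ.filter (fun i : I => t • i = i), edOn (W i) (ρ t) 9 := by
    intro S t a ht h
    have h1 := comp_eq ρ W hB S r (hr' S) t 3 h
    refine ⟨fun i hi => (h1 i hi).1, fun i hi e w hw => ?_, fun j hj e => ?_⟩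
    · have h2 := (h1 i hi).2
      rw [e] at h2
      have := block_scal ρ W hB hS r hr t a ht i e 1 (by rw [pow_one]; exact h2) w hw
      rwa [pow_one] at this
    · exact xstepa_bal0 ρ W hB hbal t a ht (xstepa_mov ρ W hB t a ht _ h
        (sum_not_mem ρ W hB S r (hr' S) (fun i => t • i = i) j hj e))
  have fin : ∀ t : H, (∀ i, ∀ w ∈ W i, ρ t w = (3 : K) • w) → Scal ρ := by
    intro t h
    refine ⟨t, fun v => ?_⟩
    rw [ext_blocks ρ W hB (ρ t) ((3 : K) • LinearMap.id) h]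
    rfl
  obtain ⟨t, a, ht, h⟩ := ep3 ρ hE (∑ i, r i)
  obtain ⟨-, k2, k3⟩ := key _ t a ht h
  by_cases hall : ∀ i : I, t • i = i
  · exact fin t fun i => k2 i (Finset.mem_univ _) (hall i)
  obtain ⟨i1, hi1⟩ := not_forall.1 hall
  have k4 := k3 i1 (Finset.mem_univ _) hi1
  rw [Finset.sum_eq_zero (f := fun i => edOn (W i) (ρ t) 9) fun i hi =>
    xstepa_zero _ _ _ _ (k2 i (Finset.mem_univ _) (Finset.mem_filter.1 hi).2) (by decide),
    Finset.sum_eq_zero_iff] at k4
  have k5 : Finset.univ.filter (fun i : I => t • i = i) = ∅ := by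
    refine Finset.eq_empty_of_forall_notMem fun i hi => ?_
    have h1 := k4 i hi
    rw [xstepa_full _ _ _ (k2 i (Finset.mem_univ _) (Finset.mem_filter.1 hi).2)] at h1
    exact (xstepa_dim ρ W hB i i).2.ne' h1
  have k6 := card_fix (I := I) t a ht
  rw [k5, Finset.card_empty] at k6
  clear k5 k4 k3 k2 hi1 hall h ht t a
  obtain ⟨t, a, ht, h⟩ := ep3 ρ hE (∑ i ∈ Finset.univ.erase i1, r i)
  obtain ⟨k1, k2, k3⟩ := key _ t a ht h
  have f1 : t • i1 = i1 := by
    by_contra e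
    have h1 : ∀ n : ℕ, (t ^ (n + 1)) • i1 ∈ Finset.univ.erase i1 := by
      intro n
      induction n with
      | zero => simpa using e
      | succ n ih => rw [pow_succ', mul_smul]; exact k1 _ ih
    have h2 := h1 (3 ^ a - 1)
    rw [Nat.sub_add_cancel (Nat.one_le_pow _ _ (by norm_num)), ht, one_smul] at h2
    simp at h2
  have m1 : i1 ∈ Finset.univ.filter (fun i : I => t • i = i) :=
    Finset.mem_filter.2 ⟨Finset.mem_univ _, f1⟩
  have k7 : 1 < ((Finset.univ.filter (fun i : I => t • i = i)).erase i1).card := by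
    have h1 := (card_fix (I := I) t a ht).trans k6.symm
    have h2 := Finset.card_pos.2 ⟨i1, m1⟩
    rw [Finset.card_erase_of_mem m1]
    unfold Nat.ModEq at h1
    omega
  obtain ⟨i2, m2, i3, m3, h23⟩ := Finset.one_lt_card.1 k7
  obtain ⟨h12, m2⟩ := Finset.mem_erase.1 m2
  obtain ⟨h13, m3⟩ := Finset.mem_erase.1 m3
  have st : ∀ i ∈ Finset.univ.filter (fun i : I => t • i = i), i ≠ i1 →
      ∀ w ∈ W i, ρ t w = (3 : K) • w := fun i hi e =>
    k2 i (Finset.mem_erase.2 ⟨e, Finset.mem_univ _⟩) (Finset.mem_filter.1 hi).2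
  have ft : ∀ i : I, t • i = i := by
    intro j
    by_contra e
    have hj : j ≠ i1 := fun e' => e (e' ▸ f1)
    have c5 := xstepa_sum _ _ _ i1 i2 i3 m1 m2 m3 h12.symm h13.symm h23
      (fun i hi a1 _ => xstepa_zero _ _ _ _ (st i hi a1) (by decide))
      (k3 j (Finset.mem_erase.2 ⟨hj, Finset.mem_univ _⟩) e)
    rw [xstepa_full _ _ _ (st i2 m2 h12), xstepa_full _ _ _ (st i3 m3 h13),
      xstepa_zero _ _ _ 9 (st i2 m2 h12) (by decide)] at c5
    have d1 := edOn_le (W i1) (ρ t)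
    obtain ⟨d2, d0⟩ := xstepa_dim ρ W hB i1 i2
    have d3 := (xstepa_dim ρ W hB i1 i3).1
    omega
  have st' : ∀ i, i ≠ i1 → ∀ w ∈ W i, ρ t w = (3 : K) • w := fun i =>
    st i (Finset.mem_filter.2 ⟨Finset.mem_univ _, ft i⟩)
  refine fin t fun i => ?_
  by_cases hi : i = i1
  · subst hi
    exact xstepa_fin ρ W hB hbal hS hbb t a i i2 i3 h12.symm h13.symm h23 ht ft st'
  · exact st' i hi

end Pool.Agent.N9181

end

section

namespace Pool.Agent.N9181

open scoped commutatorElement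

theorem xfpf_mul {G : Type} [Group G] (y h k : G) (s t : ℕ) (hh : h * y * h⁻¹ = y ^ s)
    (hk : k * y * k⁻¹ = y ^ t) : (h * k) * y * (h * k)⁻¹ = y ^ (s * t) := by
  have h1 : (h * k) * y * (h * k)⁻¹ = h * (k * y * k⁻¹) * h⁻¹ := by group
  rw [h1, hk, ← conj_pow, hh, ← pow_mul]

theorem xfpf_pow {G : Type} [Group G] (y h : G) (s : ℕ) (hh : h * y * h⁻¹ = y ^ s) (e : ℕ) :
    (h ^ e) * y * (h ^ e)⁻¹ = y ^ (s ^ e) := by
  induction e with
  | zero => simp
  | succ e ih =>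
    rw [pow_succ, pow_succ]
    exact xfpf_mul y _ _ _ _ ih hh

theorem xfpf_mod {G : Type} [Group G] (y : G) (hy : y ^ 169 = 1) (a b : ℕ)
    (h : a ≡ b [MOD 169]) : y ^ a = y ^ b := by
  rw [pow_eq_pow_mod a hy, pow_eq_pow_mod b hy, h]

theorem xfpf_mem {G : Type} [Group G] [Finite G] (Q : Subgroup G) (hQ : Q.Normal)
    (hQi : ¬ 13 ∣ Q.index) (q : G) (a : ℕ) (hq : q ^ (13 ^ a) = 1) : q ∈ Q := by
  have h1 : orderOf (QuotientGroup.mk' Q q) ∣ 13 ^ a := by
    apply orderOf_dvd_of_pow_eq_one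
    rw [← map_pow, hq, map_one]
  have h2 : orderOf (QuotientGroup.mk' Q q) ∣ Q.index := by
    rw [Subgroup.index]
    exact orderOf_dvd_natCard _
  have h3 : Nat.Coprime (13 ^ a) Q.index :=
    Nat.Coprime.pow_left _ ((Nat.Prime.coprime_iff_not_dvd (by norm_num)).2 hQi)
  have h4 : orderOf (QuotientGroup.mk' Q q) = 1 :=
    Nat.eq_one_of_dvd_coprimes h3 h1 h2
  rw [orderOf_eq_one_iff] at h4
  exact (QuotientGroup.eq_one_iff q).1 h4

theorem fpf_norm {G : Type} [Group G] [Finite G] (Q : Subgroup G) (hQ : Q.Normal) (z : G) (hz : z ^ 3 = 1)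
    (hf : ∀ x ∈ Q, x * z = z * x → x = 1) : ∀ x ∈ Q, (x * z) ^ 3 = 1 ∧ IsConj z (x * z) := by
  let f : Q → Q := fun y => ⟨y.1 * (z * y.1⁻¹ * z⁻¹), Q.mul_mem y.2 (hQ.conj_mem _ (Q.inv_mem y.2) z)⟩
  have hinj : Function.Injective f := by
    intro y y' h
    have h1 : y.1 * (z * y.1⁻¹ * z⁻¹) = y'.1 * (z * y'.1⁻¹ * z⁻¹) := congrArg Subtype.val h
    have h2 : y'.1⁻¹ * y.1 * z = z * (y'.1⁻¹ * y.1) := by
      have h3 : y'.1⁻¹ * y.1 * z = y'.1⁻¹ * (y.1 * (z * y.1⁻¹ * z⁻¹)) * z * y.1 := by group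
      rw [h3, h1]; group
    have h4 := hf _ (Q.mul_mem (Q.inv_mem y'.2) y.2) h2
    apply Subtype.ext
    exact (inv_mul_eq_one.1 h4).symm
  have hsurj : Function.Surjective f := Finite.surjective_of_injective hinj
  intro x hx
  obtain ⟨y, hy⟩ := hsurj ⟨x, hx⟩
  have h1 : y.1 * (z * y.1⁻¹ * z⁻¹) = x := congrArg Subtype.val hy
  have h2 : x * z = y.1 * z * y.1⁻¹ := by rw [← h1]; group
  refine ⟨?_, ?_⟩
  · rw [h2, conj_pow, hz]; group
  · rw [h2]; exact isConj_iff.2 ⟨y.1, rfl⟩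

theorem xfpf_eig {G : Type} [Group G] [Finite G] (Q : Subgroup G) (hQ : Q.Normal) (z : G)
    (hz : z ^ 3 = 1) (hf : ∀ x ∈ Q, x * z = z * x → x = 1) (x : G) (hx : x ∈ Q)
    (h169 : x ^ 169 = 1) (h13 : x ^ 13 ≠ 1) :
    ∃ y ∈ Q, y ^ 169 = 1 ∧ y ^ 13 ≠ 1 ∧ ∃ a : ℕ, z * y * z⁻¹ = y ^ a := by
  set u := z * x * z⁻¹ with hu
  have huQ : u ∈ Q := hQ.conj_mem x hx z
  have hz3 : z * z * z = 1 := by rw [← hz]; simp [pow_succ]
  have hzi : z⁻¹ = z * z := by
    rw [inv_eq_iff_mul_eq_one, ← mul_assoc, hz3]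
  have e1 : x * u * (z * u * z⁻¹) = 1 := by
    have h := (fpf_norm Q hQ z hz hf x hx).1
    have h' : x * u * (z * u * z⁻¹) = (x * z) ^ 3 * (z ^ 3)⁻¹ := by
      rw [hu]; simp only [pow_succ, pow_zero]; group
    rw [h', h, hz]; simp
  have e2 : x⁻¹ * u⁻¹ * (z * u * z⁻¹)⁻¹ = 1 := by
    have h := (fpf_norm Q hQ z hz hf x⁻¹ (Q.inv_mem hx)).1
    have h' : x⁻¹ * u⁻¹ * (z * u * z⁻¹)⁻¹ = (x⁻¹ * z) ^ 3 * (z ^ 3)⁻¹ := by
      rw [hu]; simp only [pow_succ, pow_zero]; group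
    rw [h', h, hz]; simp
  have e3 : z * u * z⁻¹ = (x * u)⁻¹ := eq_inv_of_mul_eq_one_right e1
  have hc : Commute x u := by
    rw [e3, inv_inv] at e2
    have : x * u = u * x := by
      have h' : x * u = (u * x) * (x⁻¹ * u⁻¹ * (x * u)) := by group
      rw [h', e2, mul_one]
    exact this
  have u169 : u ^ 169 = 1 := by rw [hu, conj_pow, h169]; group
  have xinv : x⁻¹ = x ^ 168 := by
    rw [inv_eq_iff_mul_eq_one, ← pow_succ', h169]
  have uinv : u⁻¹ = u ^ 168 := by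
    rw [inv_eq_iff_mul_eq_one, ← pow_succ', u169]
  have key : ∀ c : ℕ, z * (u * x ^ c) * z⁻¹ = u ^ (168 + c) * x ^ 168 := by
    intro c
    have h' : z * (u * x ^ c) * z⁻¹ = (z * u * z⁻¹) * (z * x * z⁻¹) ^ c := by
      rw [conj_pow]; group
    rw [h', e3, ← hu, mul_inv_rev, xinv, uinv, pow_add, mul_assoc, mul_assoc,
      (hc.pow_pow 168 c).eq]
  have pw : ∀ c n : ℕ, (u * x ^ c) ^ n = u ^ n * x ^ (c * n) := by
    intro c n
    rw [(hc.symm.pow_right c).mul_pow, ← pow_mul]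
  have p169 : ∀ c : ℕ, (u * x ^ c) ^ 169 = 1 := by
    intro c
    rw [pw, u169, mul_comm c 169, pow_mul, h169]; simp
  by_cases h1 : (u * x ^ 23) ^ 13 = 1
  · by_cases h2 : (u * x ^ 147) ^ 13 = 1
    · exfalso
      apply h13
      rw [pw] at h1 h2
      have h3 : x ^ (23 * 13) = x ^ (147 * 13) := by
        apply mul_left_cancel (a := u ^ 13)
        rw [h1, h2]
      have h4 : x ^ (23 * 13) * x ^ (124 * 13) = x ^ (23 * 13) * 1 := by
        rw [← pow_add, mul_one, h3]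
      have h5 : x ^ (124 * 13) = 1 := mul_left_cancel h4
      have h6 : x ^ 13 = x ^ (124 * 13 * 2) := xfpf_mod x h169 _ _ (by decide)
      rw [h6, pow_mul, h5, one_pow]
    · refine ⟨u * x ^ 147, Q.mul_mem huQ (Q.pow_mem hx _), p169 _, h2, 146, ?_⟩
      rw [key, pw, xfpf_mod u u169 (168 + 147) 146 (by decide),
        xfpf_mod x h169 168 (147 * 146) (by decide)]
  · refine ⟨u * x ^ 23, Q.mul_mem huQ (Q.pow_mem hx _), p169 _, h1, 22, ?_⟩
    rw [key, pw, xfpf_mod u u169 (168 + 23) 22 (by decide),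
      xfpf_mod x h169 168 (23 * 22) (by decide)]

theorem exp13 {G : Type} [Group G] [Finite G] (N m : ℕ) (hP : PP G N m) (Q : Subgroup G) (hQ : Q.Normal)
    (hQp : IsPGroup 13 Q) (hQi : ¬ 13 ∣ Q.index) (z : G) (hz : z ^ 3 = 1)
    (hf : ∀ x ∈ Q, x * z = z * x → x = 1) : ∀ x ∈ Q, x ^ 13 = 1 := by
  have main : ∀ x ∈ Q, x ^ 169 = 1 → x ^ 13 = 1 := by
    intro x hx h169
    by_contra h13
    obtain ⟨y, hy, y169, y13, a, ha⟩ := xfpf_eig Q hQ z hz hf x hx h169 h13
    have ho : orderOf y = 13 ^ 2 :=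
      orderOf_eq_prime_pow (p := 13) (n := 1) (by simpa using y13) (by simpa using y169)
    have hG : 169 ∣ Nat.card G := by
      have := orderOf_dvd_natCard y
      rwa [ho] at this
    obtain ⟨j, hj, hj14⟩ := exists_j 169 N 14 (hG.trans hP.1.1) hP.1.2.1 (by decide)
    obtain ⟨g, hg⟩ := isConj_iff.1 (pp_sq N m hP y j hj)
    have hg27 : g * y * g⁻¹ = y ^ 27 := by
      rw [hg]
      exact xfpf_mod y y169 _ _ ((hj14.mul hj14).trans (by decide))
    obtain ⟨e, b, hb, he, -⟩ := p_part 13 (by norm_num) g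
    have he1 : e ≡ 1 [MOD 13] := by
      have := he 1 (by rw [pow_one]; exact Dvd.dvd.trans (by decide) hG)
      rwa [pow_one] at this
    have hqQ : g ^ e ∈ Q := xfpf_mem Q hQ hQi _ b hb
    have hq : g ^ e * y * (g ^ e)⁻¹ = y ^ 27 := by
      rw [xfpf_pow y g 27 hg27 e]
      apply xfpf_mod y y169
      have h1 : e = 13 * (e / 13) + 1 := by
        have := Nat.div_add_mod e 13
        have h2 : e % 13 = 1 := he1
        omega
      rw [h1, pow_succ, pow_mul]
      have h3 : 27 ^ 13 ≡ 1 [MOD 169] := by decide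
      have h4 := (h3.pow (e / 13)).mul_right 27
      simpa using h4
    have h3 := xfpf_pow y _ _ (xfpf_mul y _ _ _ _ hq ha) 3
    rw [(fpf_norm Q hQ z hz hf _ hqQ).1] at h3
    have h4 := xfpf_pow y _ _ ha 3
    rw [hz] at h4
    simp only [one_mul, inv_one, mul_one] at h3 h4
    have h5 : y ^ ((27 * a) ^ 3) = y ^ 79 := by
      rw [mul_pow, mul_comm, pow_mul, ← h4]
      exact xfpf_mod y y169 _ _ (by decide)
    rw [h5] at h3
    have h6 : y ^ 78 = 1 := by
      have : y ^ 78 * y = 1 * y := by rw [← pow_succ, one_mul]; exact h3.symm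
      exact mul_right_cancel this
    apply y13
    have h7 : y ^ 169 = y ^ 13 * (y ^ 78) ^ 2 := by rw [← pow_mul, ← pow_add]
    rw [h6, one_pow, mul_one, y169] at h7
    exact h7.symm
  have ind : ∀ k : ℕ, ∀ x ∈ Q, x ^ (13 ^ k) = 1 → x ^ 13 = 1 := by
    intro k
    induction k with
    | zero =>
      intro x _ h
      rw [pow_zero, pow_one] at h
      rw [h, one_pow]
    | succ k ih =>
      intro x hx h
      apply main x hx
      have h1 := ih (x ^ 13) (Q.pow_mem hx _) (by rw [← pow_mul, ← pow_succ']; exact h)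
      rw [← pow_mul] at h1
      exact h1
  intro x hx
  obtain ⟨k, hk⟩ := hQp ⟨x, hx⟩
  exact ind k x hx (congrArg Subtype.val hk)

end Pool.Agent.N9181

end

section

namespace Pool.Agent.N9181

open scoped commutatorElement

theorem ep_of_sq {V : Type} [AddCommGroup V] [Module K V] [Module.Finite K V]
    {G : Type} [Group G] [Finite G] (ρ : Representation K G V) (ι : V → G) (hι : Emb ρ ι) (N : ℕ) (hd : Nat.card G ∣ N) (hN : 0 < N)
    (hsq : ∀ (x : G) (j : ℕ), j.Coprime N → IsConj x (x ^ (j * j))) : HEP ρ 3 := by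
  intro v
  obtain ⟨h0, h1, h2, _⟩ := emb_basic ρ ι hι
  by_cases hv : v = 0
  · exact ⟨1, by rw [hv, map_zero, smul_zero]⟩
  have hne : ι v ≠ 1 := fun h => hv (hι.inj (h.trans h0.symm))
  have hord : orderOf (ι v) = 13 := orderOf_eq_prime (h2 v) hne
  have hdiv : 13 ∣ N := by
    have h := orderOf_dvd_natCard (ι v)
    rw [hord] at h
    exact h.trans hd
  obtain ⟨j, hj, hj4⟩ := exists_j 13 N 4 hdiv hN (by norm_num)
  have hconj := hsq (ι v) j hj
  obtain ⟨c, hc⟩ := isConj_iff.1 hconj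
  refine ⟨c, hι.inj ?_⟩
  have hj' : (j : K) = ((4 : ℕ) : K) := (ZMod.natCast_eq_natCast_iff j 4 13).2 hj4
  have h3 : ((j * j : ℕ) : K) = 3 := by
    rw [Nat.cast_mul, hj']
    decide
  rw [hι.act, hc, ← h1, h3]

theorem jordanQ {V : Type} [AddCommGroup V] [Module K V] [Module.Finite K V]
    {G : Type} [Group G] [Finite G] (ρ : Representation K G V) (ι : V → G) (hι : Emb ρ ι) (N : ℕ) (hP : AP G N) (Y : Subgroup G)
    (hY1 : ∀ v, ι v ∈ Y → v = 0) (hY2 : ∀ g : G, ∃ v, ∃ h ∈ Y, g = ι v * h) (u : G)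
    (huY : u ∈ Y) (a : ℕ) (hu : u ^ (13 ^ a) = 1) (hne : (ρ u - 1) ^ 2 ≠ 0) :
    ∃ (t : G) (b j : ℕ), t ^ (3 ^ b) = 1 ∧ j ≡ 3 [MOD 13] ∧ t * u * t⁻¹ = u ^ j ∧
      ∃ v, v ≠ 0 ∧ ρ t v = v := by
  have h0 : ι 0 = 1 := (emb_basic ρ ι hι).1
  have hneg : ∀ v, ι (-v) = (ι v)⁻¹ := fun v => by
    rw [eq_inv_iff_mul_eq_one, ← hι.add, neg_add_cancel, h0]
  have : Nontrivial (Module.End K V) := ⟨⟨_, _, hne⟩⟩
  have : CharP (Module.End K V) 13 :=
    charP_of_injective_algebraMap (algebraMap K (Module.End K V)).injective 13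
  have hnil : (ρ u - 1) ^ (13 ^ a) = 0 := by
    rw [sub_pow_char_pow_of_commute 13 a (Commute.one_right _), ← map_pow, hu, map_one, one_pow,
      sub_self]
  have hu1 : u ≠ 1 := by
    rintro rfl
    apply hne
    simp
  have h13 : 13 ∣ N := by
    have h1 : orderOf u ∣ 13 ^ a := orderOf_dvd_of_pow_eq_one hu
    obtain ⟨c, -, hc⟩ := (Nat.dvd_prime_pow fact13.out).mp h1
    have hc0 : c ≠ 0 := by
      rintro rfl
      exact hu1 (orderOf_eq_one_iff.mp (by simpa using hc))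
    exact ((hc ▸ dvd_pow_self 13 hc0 : 13 ∣ orderOf u).trans (orderOf_dvd_natCard u)).trans (ap_self N hP).dvd
  obtain ⟨v, hv⟩ := xmodb_ex (ρ u - 1) _ hnil hne
  obtain ⟨j0, hj0, hj4⟩ := exists_j 13 N 4 h13 (ap_self N hP).pos (by norm_num)
  have hj3 : j0 * j0 ≡ 3 [MOD 13] := (hj4.mul hj4).trans (by decide)
  obtain ⟨g, hg⟩ := isConj_iff.mp ((ap_self N hP).sq (ι v * u) j0 hj0)
  generalize j0 * j0 = j at hj3 hg
  obtain ⟨v1, h, hhY, rfl⟩ := hY2 g
  rw [xmodb_xpow ρ ι hι] at hg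
  have hu' : h * u * h⁻¹ ∈ Y := Y.mul_mem (Y.mul_mem hhY huY) (Y.inv_mem hhY)
  have e1 : ι (-((∑ i ∈ Finset.range j, (ρ u) ^ i) v) + (v1 + ρ h v + -(ρ (h * u * h⁻¹) v1)))
      = u ^ j * (h * u * h⁻¹)⁻¹ := by
    rw [hι.add, hι.add, hι.add, hneg, hneg, hι.act, hι.act, inv_mul_eq_iff_eq_mul,
      ← mul_assoc (ι ((∑ i ∈ Finset.range j, (ρ u) ^ i) v)), ← hg]
    group
  have e2 := hY1 _ (e1 ▸ Y.mul_mem (Y.pow_mem huY j) (Y.inv_mem hu'))
  rw [e2, h0, eq_comm, mul_inv_eq_one] at e1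
  have hc : ∀ (t : G) (i : ℕ), t * u * t⁻¹ = u ^ i → ρ t * ρ u = ρ u ^ i * ρ t := by
    intro t i ht
    rw [← map_pow, ← ht, ← map_mul, ← map_mul, inv_mul_cancel_right]
  obtain ⟨y1, hy1⟩ := xmodb_sum (ρ u) j v
  have hB : ρ h v = (j : K) • v + (ρ u - 1) (y1 + (∑ i ∈ Finset.range j, (ρ u) ^ i) v1) := by
    have e3 : (ρ u - 1) ((∑ i ∈ Finset.range j, (ρ u) ^ i) v1) = (ρ u ^ j) v1 - v1 := by
      rw [← Module.End.mul_apply, ← xmodb_geom]; simp
    rw [← e1, map_pow, hy1] at e2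
    rw [map_add, e3, ← sub_eq_zero, ← e2]
    abel
  obtain ⟨b, r, hr, hbr⟩ := Nat.exists_eq_pow_mul_and_not_dvd (orderOf_pos h).ne' 3 (by norm_num)
  obtain ⟨q, hq⟩ : ∃ q, r * r = 3 * q + 1 := by
    refine ⟨r * r / 3, ?_⟩
    have : r % 3 = 1 ∨ r % 3 = 2 := by omega
    have h2 : r * r % 3 = 1 := by
      rcases this with h | h <;> simp [Nat.mul_mod, h]
    omega
  have hje : j ^ (r * r) ≡ 3 [MOD 13] := by
    refine (hj3.pow _).trans ?_
    rw [hq, pow_succ, pow_mul]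
    have : (3 ^ 3) ^ q ≡ 1 ^ q [MOD 13] := Nat.ModEq.pow q (by decide)
    simpa using this.mul_right 3
  have ht := xmodb_powG h u j e1.symm (r * r)
  refine ⟨h ^ (r * r), b, j ^ (r * r), ?_, hje, ht, ?_⟩
  · rw [← pow_mul, ← orderOf_dvd_iff_pow_eq_one, hbr]
    exact ⟨r, by ring⟩
  · obtain ⟨y, hy⟩ := xmodb_powB (ρ u) (ρ h) j (hc h j e1.symm) v _ hB (r * r)
    rw [← map_pow] at hy
    refine xmodb_fix (ρ u) (ρ (h ^ (r * r))) (j ^ (r * r)) ?_ (hc _ _ ht) v hv y hy
    have := (ZMod.natCast_eq_natCast_iff _ _ _).mpr hje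
    simpa using this

theorem exp13Q {G : Type} [Group G] [Finite G] (N : ℕ) (hP : AP G N) (Q : Subgroup G) (hQ : Q.Normal)
    (hQp : IsPGroup 13 Q) (hQi : ¬ 13 ∣ Q.index) (z : G) (hz : z ^ 3 = 1)
    (hf : ∀ x ∈ Q, x * z = z * x → x = 1) : ∀ x ∈ Q, x ^ 13 = 1 := by
  have main : ∀ x ∈ Q, x ^ 169 = 1 → x ^ 13 = 1 := by
    intro x hx h169
    by_contra h13
    obtain ⟨y, hy, y169, y13, a, ha⟩ := xfpf_eig Q hQ z hz hf x hx h169 h13
    have ho : orderOf y = 13 ^ 2 :=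
      orderOf_eq_prime_pow (p := 13) (n := 1) (by simpa using y13) (by simpa using y169)
    have hG : 169 ∣ Nat.card G := by
      have := orderOf_dvd_natCard y
      rwa [ho] at this
    obtain ⟨j, hj, hj14⟩ := exists_j 169 N 14 (hG.trans (ap_self N hP).dvd) (ap_self N hP).pos (by decide)
    obtain ⟨g, hg⟩ := isConj_iff.1 ((ap_self N hP).sq y j hj)
    have hg27 : g * y * g⁻¹ = y ^ 27 := by
      rw [hg]
      exact xfpf_mod y y169 _ _ ((hj14.mul hj14).trans (by decide))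
    obtain ⟨e, b, hb, he, -⟩ := p_part 13 (by norm_num) g
    have he1 : e ≡ 1 [MOD 13] := by
      have := he 1 (by rw [pow_one]; exact Dvd.dvd.trans (by decide) hG)
      rwa [pow_one] at this
    have hqQ : g ^ e ∈ Q := xfpf_mem Q hQ hQi _ b hb
    have hq : g ^ e * y * (g ^ e)⁻¹ = y ^ 27 := by
      rw [xfpf_pow y g 27 hg27 e]
      apply xfpf_mod y y169
      have h1 : e = 13 * (e / 13) + 1 := by
        have := Nat.div_add_mod e 13
        have h2 : e % 13 = 1 := he1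
        omega
      rw [h1, pow_succ, pow_mul]
      have h3 : 27 ^ 13 ≡ 1 [MOD 169] := by decide
      have h4 := (h3.pow (e / 13)).mul_right 27
      simpa using h4
    have h3 := xfpf_pow y _ _ (xfpf_mul y _ _ _ _ hq ha) 3
    rw [(fpf_norm Q hQ z hz hf _ hqQ).1] at h3
    have h4 := xfpf_pow y _ _ ha 3
    rw [hz] at h4
    simp only [one_mul, inv_one, mul_one] at h3 h4
    have h5 : y ^ ((27 * a) ^ 3) = y ^ 79 := by
      rw [mul_pow, mul_comm, pow_mul, ← h4]
      exact xfpf_mod y y169 _ _ (by decide)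
    rw [h5] at h3
    have h6 : y ^ 78 = 1 := by
      have : y ^ 78 * y = 1 * y := by rw [← pow_succ, one_mul]; exact h3.symm
      exact mul_right_cancel this
    apply y13
    have h7 : y ^ 169 = y ^ 13 * (y ^ 78) ^ 2 := by rw [← pow_mul, ← pow_add]
    rw [h6, one_pow, mul_one, y169] at h7
    exact h7.symm
  have ind : ∀ k : ℕ, ∀ x ∈ Q, x ^ (13 ^ k) = 1 → x ^ 13 = 1 := by
    intro k
    induction k with
    | zero =>
      intro x _ h
      rw [pow_zero, pow_one] at h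
      rw [h, one_pow]
    | succ k ih =>
      intro x hx h
      apply main x hx
      have h1 := ih (x ^ 13) (Q.pow_mem hx _) (by rw [← pow_mul, ← pow_succ']; exact h)
      rw [← pow_mul] at h1
      exact h1
  intro x hx
  obtain ⟨k, hk⟩ := hQp ⟨x, hx⟩
  exact ind k x hx (congrArg Subtype.val hk)

end Pool.Agent.N9181

end

section

namespace Pool.Agent.N9181

open scoped commutatorElement

theorem xcls2_ring {H R : Type} [Group H] [Ring R] (ρ : H →* R)
    (h : ∀ y, (ρ y - 1) * (ρ y - 1) = 0) (y w : H) :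
    (ρ y - 1) * (ρ w - 1) + (ρ w - 1) * (ρ y - 1) = 0 ∧
      ρ ⁅y, w⁆ - 1 = (ρ y - 1) * (ρ w - 1) + (ρ y - 1) * (ρ w - 1) := by
  have hi : ∀ y, ρ y⁻¹ = 1 - (ρ y - 1) := fun y => by
    have e : ρ y⁻¹ * ρ y = 1 := by rw [← map_mul, inv_mul_cancel, map_one]
    linear_combination (norm := noncomm_ring) ρ y⁻¹ * h y + e * (1 - (ρ y - 1))
  have h1 := h y
  have h2 := h w
  have h3 := h (y * w)
  rw [commutatorElement_def, map_mul, map_mul, map_mul, hi, hi]
  rw [map_mul] at h3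
  obtain ⟨Y, hY⟩ : ∃ Y, ρ y = 1 + Y := ⟨ρ y - 1, by abel⟩
  obtain ⟨W, hW⟩ : ∃ W, ρ w = 1 + W := ⟨ρ w - 1, by abel⟩
  rw [hY, hW] at h3 ⊢
  rw [hY, add_sub_cancel_left] at h1
  rw [hW, add_sub_cancel_left] at h2
  simp only [add_sub_cancel_left]
  have h4 : Y * W + W * Y + W * Y * W + Y * W * Y + Y * W * Y * W = 0 := by
    linear_combination (norm := noncomm_ring) h3 - h1 - h2 - h1 * W - Y * h2
  have h5 : Y * W * Y + Y * W * Y * W = 0 := by
    linear_combination (norm := noncomm_ring) Y * h4 - h1 * W - h1 * (W * Y) - h1 * (W * Y * W)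
  have h6 : Y * W * Y * W = 0 := by
    linear_combination (norm := noncomm_ring) h5 * W - Y * W * Y * h2
  have h7 : W * Y * W = 0 := by
    linear_combination (norm := noncomm_ring) h4 * W - Y * h2 - W * Y * h2 - Y * W * Y * h2 - h6
  have h8 : Y * W + W * Y = 0 := by
    linear_combination (norm := noncomm_ring) h4 - h5 - h7
  refine ⟨h8, ?_⟩
  linear_combination (norm := noncomm_ring) -h8 - h1 - h2 + h1 * W - Y * h2 + h7 - h5 + h6 + h6

theorem xcls2_levi {H : Type} [Group H] (hE : ∀ x g : H, Commute x (g * x * g⁻¹)) (y w a : H) :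
    ⁅y, ⁅w, a⁆⁆ ^ 3 = 1 := by
  have F : ∀ y w a : H, ⁅y, ⁅w, a⁆⁆ * ⁅w, ⁅y, a⁆⁆ = 1 ∧
      ⁅⁅y, w⁆, a⁆ = ⁅y, ⁅w, a⁆⁆ * ⁅y, ⁅w, a⁆⁆ := fun y w a => by
    have : IsMulCommutative (Subgroup.normalClosure {a}) :=
      Subgroup.isMulCommutative_closure fun b hb c hc => by
        obtain ⟨_, rfl, h1⟩ := Group.mem_conjugatesOfSet_iff.1 hb
        obtain ⟨_, rfl, h2⟩ := Group.mem_conjugatesOfSet_iff.1 hc
        obtain ⟨g, rfl⟩ := isConj_iff.1 (h1.symm.trans h2)
        exact hE b g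
    let : CommGroup (Subgroup.normalClosure {a}) := { mul_comm := mul_comm' }
    let ρ := (Representation.ofMulDistribMulAction (ConjAct H) (Subgroup.normalClosure {a})).comp
      ConjAct.toConjAct.toMonoidHom
    have e : ∀ y c, (((ρ y - 1) c).toMul : H) = ⁅y, (c.toMul : H)⁆ := fun y c => by
      rw [commutatorElement_def, ← div_eq_mul_inv]
      rfl
    obtain ⟨h1, h2⟩ := xcls2_ring ρ (fun y => LinearMap.ext fun c => Subtype.ext (by
      refine (e y _).trans ?_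
      rw [e]
      refine Commute.commutator_eq ?_
      simpa [mul_assoc, commutatorElement_def] using
        (Commute.refl y).mul_right (hE y (c.toMul : H)).inv_right)) y w
    let c : Additive (Subgroup.normalClosure {a}) :=
      .ofMul ⟨a, Subgroup.subset_normalClosure rfl⟩
    have e2 : ∀ y w, ((((ρ y - 1) * (ρ w - 1)) c).toMul : H) = ⁅y, ⁅w, a⁆⁆ := fun y w =>
      (e y _).trans (by rw [e]; rfl)
    refine ⟨?_, ?_⟩
    · rw [← e2, ← e2]
      exact congrArg (fun T => ((T c).toMul : H)) h1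
    · rw [← e2]
      exact (e _ c).symm.trans (congrArg (fun T => ((T c).toMul : H)) h2)
  have G : ∀ y w a : H, ⁅y, ⁅w, a⁆⁆ = ⁅y, ⁅a, w⁆⁆⁻¹ := fun y w a => by
    rw [← commutatorElement_inv a w]
    generalize ⁅a, w⁆ = c
    simpa [mul_assoc, commutatorElement_def] using (hE c y).inv_right.eq.symm
  have h1 := (F y w a).2
  rw [← commutatorElement_inv, eq_inv_of_mul_eq_one_left (F a y w).1, G y a w, inv_inv] at h1
  rw [pow_succ, pow_two, ← h1, inv_mul_cancel]

theorem xcls2_comm {G : Type} [Group G] {x a : G} (h0 : a ^ 3 = 1) (h1 : (x * a) ^ 3 = 1)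
    (h2 : (x⁻¹ * a) ^ 3 = 1) : Commute x (a * x * a⁻¹) ∧ x⁻¹ = a * x * a⁻¹ * (a⁻¹ * x * a) := by
  have e : a⁻¹ = a * a := inv_eq_of_mul_eq_one_right (by rw [← h0, pow_three])
  have h3 : x * (a * x * a⁻¹) * (a⁻¹ * x * a) = 1 := by
    rw [← h1, show x * (a * x * a⁻¹) * (a⁻¹ * x * a) = x * a * x * (a * a)⁻¹ * x * a by group,
      ← e, inv_inv, pow_three]
    simp only [mul_assoc]
  have h4 : x⁻¹ * (a * x⁻¹ * a⁻¹) * (a⁻¹ * x⁻¹ * a) = 1 := by
    rw [← h2, show x⁻¹ * (a * x⁻¹ * a⁻¹) * (a⁻¹ * x⁻¹ * a) =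
      x⁻¹ * a * x⁻¹ * (a * a)⁻¹ * x⁻¹ * a by group, ← e, inv_inv, pow_three]
    simp only [mul_assoc]
  refine ⟨?_, inv_eq_of_mul_eq_one_right (by rw [← h3, mul_assoc x])⟩
  have h5 := eq_inv_of_mul_eq_one_left h3
  have h6 := congrArg (·⁻¹) (eq_inv_of_mul_eq_one_left h4)
  refine h5.trans ?_
  simpa [mul_assoc] using h6.symm

theorem class2 {G : Type} [Group G] [Finite G] (Q : Subgroup G) (hQ : Q.Normal) (hQp : IsPGroup 13 Q) (z : G)
    (hz : z ^ 3 = 1) (hf : ∀ x ∈ Q, x * z = z * x → x = 1) :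
    ∀ x ∈ Q, ∀ y ∈ Q, ∀ w ∈ Q, ⁅x, y⁆ * w = w * ⁅x, y⁆ := by
  have h1 := fun x hx => (fpf_norm Q hQ z hz hf x hx).1
  have h2 : ∀ x ∈ Q, ∀ g ∈ Q, Commute x (g * z * x * (g * z)⁻¹) := fun x hx g hg =>
    (xcls2_comm (h1 g hg) (mul_assoc x g z ▸ h1 _ (Q.mul_mem hx hg))
      (mul_assoc x⁻¹ g z ▸ h1 _ (Q.mul_mem (Q.inv_mem hx) hg))).1
  have h3 : ∀ x g : Q, Commute x (g * x * g⁻¹) := fun x g => by
    have a1 := hQ.conj_mem _ x.2 g
    have a2 := h2 _ a1 _ (hQ.conj_mem _ (Q.inv_mem g.2) z)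
    have a3 := h2 _ (hQ.conj_mem _ x.2 z⁻¹) _ g.2
    have a4 := (xcls2_comm hz (h1 _ x.2) (h1 _ (Q.inv_mem x.2))).2
    refine Subtype.ext (Commute.inv_left_iff.1 ?_ : Commute (x : G) (g * x * (g : G)⁻¹))
    rw [a4]
    refine Commute.mul_left (Commute.symm ?_) ?_
    · simpa [mul_assoc] using a2
    · simpa [mul_assoc] using a3
  intro x hx y hy w hw
  have h4 := xcls2_levi h3 ⟨w, hw⟩ ⟨x, hx⟩ ⟨y, hy⟩
  have h5 := orderOf_eq_one_iff.1 (Nat.eq_one_of_dvd_coprimes
    (hQp.orderOf_coprime (n := 3) (by norm_num) _) dvd_rfl (orderOf_dvd_of_pow_eq_one h4))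
  exact congrArg Subtype.val (commutatorElement_eq_one_iff_mul_comm.1 h5).symm

end Pool.Agent.N9181

end

section

/-! Definitions for the class of semi-rational groups. -/

namespace Pool.Agent.N9181

open scoped commutatorElement

/-- internal form of semi-rationality -/
def SP (G : Type) [Group G] (N : ℕ) : Prop :=
  Nat.card G ∣ N ∧ 0 < N ∧ ∀ (x : G) (j j' : ℕ), j.Coprime N → j'.Coprime N →
    IsConj x (x ^ j) ∨ IsConj x (x ^ j') ∨ IsConj x (x ^ (j * j'))

/-- `J` is maximal among the subgroups of `C` of order prime to `3` -/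
def M3 {H : Type} [Group H] (J C : Subgroup H) : Prop :=
  J ≤ C ∧ ¬ 3 ∣ Nat.card J ∧
    ∀ J' : Subgroup H, J ≤ J' → J' ≤ C → ¬ 3 ∣ Nat.card J' → J' = J

/-- numerical data attached to the cyclic normal subgroup `A` -/
def LamD {H : Type} [Group H] (A : Subgroup H) (d e g : ℕ) : Prop :=
  0 < g ∧ g * e ≤ d ∧ (Subgroup.centralizer (A : Set H)).index ∣ g ∧
    Nat.card A ≤ Nat.gcd (Nat.card A) 12 * g ^ 2 ∧ Nat.card A ∣ 13 ^ g - 1 ∧
    (g ≤ 2 → Nat.card A ∣ 24)

section Lin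

variable {V : Type} [AddCommGroup V] [Module K V] {H : Type} [Group H]

def fixS (ρ : Representation K H V) (J : Subgroup H) : Submodule K V where
  carrier := {v | ∀ y ∈ J, ρ y v = v}
  zero_mem' := fun _ _ => map_zero _
  add_mem' := fun {a b} ha hb y hy => by rw [map_add, ha y hy, hb y hy]
  smul_mem' := fun c a ha y hy => by rw [map_smul, ha y hy]

theorem mem_fixS (ρ : Representation K H V) (J : Subgroup H) (v : V) :
    v ∈ fixS ρ J ↔ ∀ y ∈ J, ρ y v = v := Iff.rfl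

theorem isFix_fixS (ρ : Representation K H V) (J : Subgroup H) : IsFix ρ J (fixS ρ J) :=
  fun _ => Iff.rfl

theorem rho_mul (ρ : Representation K H V) (a b : H) (v : V) : ρ (a * b) v = ρ a (ρ b v) := by
  rw [map_mul]; rfl

theorem rho_inv (ρ : Representation K H V) (a : H) (v : V) : ρ a⁻¹ (ρ a v) = v := by
  rw [← rho_mul, inv_mul_cancel, map_one]; rfl

theorem rho_inv' (ρ : Representation K H V) (a : H) (v : V) : ρ a (ρ a⁻¹ v) = v := by
  rw [← rho_mul, mul_inv_cancel, map_one]; rfl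

/-- the pointwise stabiliser of a subspace -/
def stabU (ρ : Representation K H V) (U : Submodule K V) : Subgroup H where
  carrier := {h | ∀ u ∈ U, ρ h u = u}
  one_mem' := fun u _ => by rw [map_one]; rfl
  mul_mem' := fun {a b} ha hb u hu => by rw [rho_mul, hb u hu, ha u hu]
  inv_mem' := fun {a} ha u hu => by
    have := rho_inv ρ a u
    rwa [ha u hu] at this

theorem mem_stabU (ρ : Representation K H V) (U : Submodule K V) (h : H) :
    h ∈ stabU ρ U ↔ ∀ u ∈ U, ρ h u = u := Iff.rfl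

/-- the stabiliser of a vector -/
def stabV (ρ : Representation K H V) (w : V) : Subgroup H where
  carrier := {h | ρ h w = w}
  one_mem' := by
    show ρ 1 w = w
    rw [map_one]; rfl
  mul_mem' := fun {a b} (ha : ρ a w = w) (hb : ρ b w = w) => by
    show ρ (a * b) w = w
    rw [rho_mul, hb, ha]
  inv_mem' := fun {a} (ha : ρ a w = w) => by
    have := rho_inv ρ a w
    rwa [ha] at this

theorem mem_stabV (ρ : Representation K H V) (w : V) (h : H) : h ∈ stabV ρ w ↔ ρ h w = w :=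
  Iff.rfl

/-- the elements acting as scalars -/
def scal (ρ : Representation K H V) : Subgroup H where
  carrier := {h | ∃ c : K, c ≠ 0 ∧ ∀ v, ρ h v = c • v}
  one_mem' := ⟨1, one_ne_zero, fun v => by rw [map_one, one_smul]; rfl⟩
  mul_mem' := by
    rintro a b ⟨c, hc, ha⟩ ⟨d, hd, hb⟩
    exact ⟨d * c, mul_ne_zero hd hc, fun v => by rw [rho_mul, hb, map_smul, ha, smul_smul]⟩
  inv_mem' := by
    rintro a ⟨c, hc, ha⟩
    refine ⟨c⁻¹, inv_ne_zero hc, fun v => ?_⟩
    rw [eq_inv_smul_iff₀ hc, ← map_smul, ← ha, rho_inv]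

theorem mem_scal (ρ : Representation K H V) (h : H) :
    h ∈ scal ρ ↔ ∃ c : K, c ≠ 0 ∧ ∀ v, ρ h v = c • v := Iff.rfl

def HSq (ρ : Representation K H V) (N : ℕ) : Prop :=
  ∀ (h : H) (j : ℕ), j.Coprime N → ∀ M, bt (ρ (h ^ (j * j))) M = bt (ρ h) M

/-- `s` is the restriction of `a` to `W` -/
def Rs (W : Submodule K V) (a : Module.End K V) (s : Module.End K W) : Prop :=
  ∀ w : W, (s w : V) = a w

def HSqOn (ρ : Representation K H V) (N : ℕ) (W : Submodule K V) : Prop :=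
  ∀ (h : H) (j : ℕ), j.Coprime N → ∀ s s' : Module.End K W, Rs W (ρ h) s →
    Rs W (ρ (h ^ (j * j))) s' → ∀ M, bt s' M = bt s M

def HBal3 (ρ : Representation K H V) : Prop :=
  ∀ (h : H) (a : ℕ) (v : V), h ^ (3 ^ a) = 1 → v ≠ 0 → ρ h v = v → ed (ρ h) 3 = ed (ρ h) 9

def Sim (ρ : Representation K H V) (a b : H) : Prop := ∀ c : K, ed (ρ a) c = ed (ρ b) c

/-- a `2`-element normalising `J` and multiplying `w` by the fourth root of unity `5` -/
def Val (ρ : Representation K H V) (J : Subgroup H) (w : V) (y : H) : Prop :=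
  y ∈ Subgroup.normalizer (J : Set H) ∧ (∃ a : ℕ, y ^ (2 ^ a) = 1) ∧ ρ y w = (5 : K) • w

def BalJ (ρ : Representation K H V) : Prop :=
  ∀ (w : V) (J : Subgroup H) (y : H), w ≠ 0 → M3 J (stabV ρ w) → Val ρ J w y →
    edOn (fixS ρ J) (ρ y) 5 = edOn (fixS ρ J) (ρ y) 8

def DK (ρ : Representation K H V) : Prop :=
  ∀ (w : V) (J : Subgroup H) (y : H), w ≠ 0 → M3 J (stabV ρ w) → Val ρ J w y →
    (∀ w' ∈ fixS ρ J, w' ≠ 0 → ρ y w' = (5 : K) • w' → ∃ k, ρ k w = w') ∨
      edOn (fixS ρ J) (ρ y) 5 ≤ edOn (fixS ρ J) (ρ y) 8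

/-- the class of pairs carried through the induction of theorem D -/
structure ClB (ρ : Representation K H V) (N : ℕ) : Prop where
  dvd : Nat.card H ∣ N
  pos : 0 < N
  cop : ¬ 13 ∣ Nat.card H
  ep : HEP ρ 5
  sq : HSq ρ N
  bal : BalJ ρ

def Par (ρ : Representation K H V) : Prop :=
  ∀ (T : Subgroup H) (y : H) (e : V), IsPGroup 3 T → y ∈ Subgroup.normalizer (T : Set H) →
    e ≠ 0 → fixS ρ T = Submodule.span K {e} → ρ y e ≠ (5 : K) • e

def Rel (ρ : Representation K H V) (W W' : Submodule K V) : Prop :=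
  ∀ w ∈ W, ∀ u ∈ W', w ≠ 0 → u ≠ 0 → ∀ γ : H, ρ γ w = (5 : K) • w → ρ γ u ≠ (5 : K) • u

def Mono (ρ : Representation K H V) : Prop :=
  ∃ (I : Type) (_ : Fintype I) (_ : MulAction H I) (W : I → Submodule K V), BD ρ I W ∧
    (∀ i, Module.finrank K (W i) = 1) ∧ ∀ i, ∃ k, k ≠ i ∧ Rel ρ (W i) (W k)

/-- lines with their partner map -/
structure LP (ρ : Representation K H V) (I : Type) [MulAction H I] (W : I → Submodule K V)
    (π : I → I) : Prop where
  bd : BD ρ I W
  one : ∀ i, Module.finrank K (W i) = 1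
  ne : ∀ i, π i ≠ i
  inv : ∀ i, π (π i) = i
  act : ∀ (h : H) (i : I), π (h • i) = h • π i
  rel : ∀ i, Rel ρ (W i) (W (π i))

/-- `h` fixes all blocks and acts on each of them by a cube root of unity -/
def DiagE (ρ : Representation K H V) {I : Type} [MulAction H I] (W : I → Submodule K V)
    (h : H) : Prop :=
  ∀ i, h • i = i ∧ ∃ c : K, c ^ 3 = 1 ∧ ∀ w ∈ W i, ρ h w = c • w

/-- a set of subspaces which is a system of blocks -/
structure SBD (ρ : Representation K H V) (S : Set (Submodule K V)) : Prop where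
  map : ∀ (h : H), ∀ W ∈ S, W.map (ρ h) ∈ S
  ind : sSupIndep S
  top : sSup S = ⊤
  ne : ⊥ ∉ S

def Term (ρ : Representation K H V) (N : ℕ) : Prop :=
  ∀ S : Set (Submodule K V), SBD ρ S → (∀ W ∈ S, HSqOn ρ N W) → S = {⊤}

/-- the simultaneous eigenspaces of `B` -/
def eigS (ρ : Representation K H V) (B : Subgroup H) : Set (Submodule K V) :=
  {W | W ≠ ⊥ ∧ ∃ χ : H → K, ∀ v, v ∈ W ↔ ∀ b ∈ B, ρ b v = χ b • v}

/-- `σ` is the faithful form of the action of the stabiliser of the block `i` -/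
structure FB (ρ : Representation K H V) {I : Type} [MulAction H I] (W : I → Submodule K V)
    (i : I) {H' : Type} [Group H'] (π : MulAction.stabilizer H i →* H')
    (σ : Representation K H' (W i)) : Prop where
  surj : Function.Surjective π
  res : ∀ (h : MulAction.stabilizer H i) (w : W i), (σ (π h) w : V) = ρ h w

/-- a good block -/
structure GB (ρ : Representation K H V) (N : ℕ) (A F : Subgroup H) : Prop where
  inj : Function.Injective ρ
  ne : ∃ v : V, v ≠ 0
  dvd : Nat.card H ∣ N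
  pos : 0 < N
  cop : ¬ 13 ∣ Nat.card H
  sq : HSq ρ N
  sd : SD A F
  mx : ∀ B : Subgroup H, B.Normal → (∀ a ∈ B, ∀ b ∈ B, a * b = b * a) → A ≤ B → B = A
  free : FreeOn ρ A
  sc : ∀ a ∈ A, a ^ 12 = 1 → a ∈ scal ρ

/-- a normal subgroup of Heisenberg type; `(p, q)` is `(2, 4)` or `(3, 3)` -/
structure EH (ρ : Representation K H V) (p q : ℕ) (E : Subgroup H) : Prop where
  inj : Function.Injective ρ
  ne : ∃ v : V, v ≠ 0
  nE : E.Normal
  pw : ∀ f ∈ E, f ^ q = 1
  pp : ∀ f ∈ E, f ^ p ∈ scal ρ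
  sc : ∀ f ∈ E, ∀ g ∈ E, ⁅f, g⁆ ∈ scal ρ
  mx : ∀ B : Subgroup H, B.Normal → B ≤ E → (∀ a ∈ B, ∀ b ∈ B, a * b = b * a) → B ≤ scal ρ

/-- an almost maximal isotropic subgroup `L` and a Heisenberg pair `X`, `Z` -/
structure HS (ρ : Representation K H V) (p : ℕ) (ν ζ : K) (E L : Subgroup H) (X Z : H) :
    Prop where
  le : L ≤ E
  mX : X ∈ E
  mZ : Z ∈ E
  cL : ∀ l ∈ L, ∀ l' ∈ L, l * l' = l' * l
  cX : ∀ l ∈ L, l * X = X * l
  cZ : ∀ l ∈ L, l * Z = Z * l
  pL : ∀ l ∈ L, l ^ p = 1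
  zx : ∀ v, ρ Z (ρ X v) = ν • ρ X (ρ Z v)
  cen : ∀ f ∈ E, (∀ l ∈ L, f * l = l * f) → ∃ (c : K) (l : H) (a b : ℕ),
    l ∈ L ∧ a < p ∧ b < p ∧ ∀ v, ρ f v = c • ρ (l * X ^ a * Z ^ b) v
  tr : ∀ v, (∀ l ∈ L, ∃ c : K, ρ l v = c • v) → ∃ f ∈ E, ρ f v ∈ fixS ρ L
  ex : ∃ m, m ≠ 0 ∧ m ∈ fixS ρ L ∧ ρ Z m = ζ • m
  sz : (scal ρ).relIndex E = p ^ 2 * Nat.card L ^ 2
  dim : Module.finrank K V = Nat.card L * Module.finrank K (fixS ρ L)

/-- the elements of `E` having `w` as an eigenvector are scalar multiples of elements of `L` -/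
def SL (ρ : Representation K H V) (E L : Subgroup H) (w : V) : Prop :=
  ∀ f ∈ E, ∀ c : K, ρ f w = c • w → ∃ l ∈ L, ∃ c' : K, ∀ v, ρ f v = c' • ρ l v

/-- the two admissible choices of the parameters -/
def PQ (p q : ℕ) (ν : K) : Prop := (p = 2 ∧ q = 4 ∧ ν = -1) ∨ (p = 3 ∧ q = 3 ∧ ν = 3)

/-- twice the coefficient of the fourth root of unity in the Brauer character -/
noncomputable def kap (a : Module.End K V) : ℤ :=
  2 * (ed a 5 : ℤ) - 2 * (ed a 8 : ℤ) - (ed a 2 : ℤ) - (ed a 6 : ℤ) + (ed a 11 : ℤ) + (ed a 7 : ℤ)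

/-- the vector `m + 3 X m` -/
def wv (ρ : Representation K H V) (X : H) (m : V) : V := m + (3 : K) • ρ X m

/-- the vector `m + X m + 2 X ^ 2 m` -/
def av (ρ : Representation K H V) (X : H) (m : V) : V :=
  m + ρ X m + (2 : K) • ρ X (ρ X m)

/-- the data of the smaller pair in the case of even degree -/
structure H2D (ρ : Representation K H V) (ζ : K) (L : Subgroup H) (X Z : H) (J B : Subgroup H)
    (C : Submodule K V) : Prop where
  lJ : L ≤ J
  nX : X ∈ Subgroup.normalizer (J : Set H)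
  nZ : Z ∈ Subgroup.normalizer (J : Set H)
  memB : ∀ b, b ∈ B ↔ b ∈ Subgroup.normalizer (J : Set H) ∧
    ∀ v ∈ fixS ρ J, ρ b (ρ X v) = ρ X (ρ b v) ∧ ρ b (ρ Z v) = ρ Z (ρ b v)
  memC : ∀ v, v ∈ C ↔ v ∈ fixS ρ J ∧ ρ Z v = ζ • v
  ne : C ≠ ⊥
  mx : ∀ m ∈ C, m ≠ 0 → M3 J (stabV ρ (wv ρ X m))

def FFE (ρ : Representation K H V) (E : Subgroup H) : Prop :=
  ∀ k : H, (∀ f ∈ E, ⁅k, f⁆ ∈ scal ρ) → ∃ f ∈ E, ∃ c : K, ∀ v, ρ k v = c • ρ f v

/-- every `3`-element multiplying `a` by `3` multiplies all of `T` by `3` -/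
def Th (ρ : Representation K H V) (T : Submodule K V) (a : V) : Prop :=
  ∀ (s : H) (n : ℕ), s ^ (3 ^ n) = 1 → ρ s a = (3 : K) • a → ∀ w ∈ T, ρ s w = (3 : K) • w

def Pos (ρ : Representation K H V) (r : V) (p : ℕ) : Prop :=
  ∀ (s : H) (n : ℕ), s ^ (3 ^ n) = 1 → ρ s r = (3 : K) • r → ed (ρ s) 9 + p ≤ ed (ρ s) 3

def PosW (ρ : Representation K H V) (r : V) (p : ℕ) : Prop :=
  ∀ (s : H) (n : ℕ), s ^ (3 ^ n) = 1 → ρ s r = (3 : K) • r → ed (ρ s) 9 < ed (ρ s) 3 + 2 * p

def RegF (ρ : Representation K H V) (r : V) : Prop :=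
  ∀ (s : H) (n : ℕ), s ^ (3 ^ n) = 1 → ρ s r = (3 : K) • r → (∀ v, ρ s v = v → v = 0) →
    ∀ v, ρ s v = (3 : K) • v

def PB1 (ρ : Representation K H V) : Prop :=
  ∃ (r r' : V) (p : ℕ), r ≠ 0 ∧ 0 < p ∧ (∀ k, ρ k r' ≠ (3 : K) • r) ∧ Pos ρ r p ∧
    PosW ρ r' p ∧ RegF ρ r

def PP2 (ρ : Representation K H V) : Prop :=
  ∃ r r' : V, r ≠ 0 ∧ r' ≠ 0 ∧ (∀ k, ρ k r' ≠ (3 : K) • r) ∧ Pos ρ r 1 ∧ Pos ρ r' 1

def PB2 (ρ : Representation K H V) : Prop :=
  PP2 ρ ∧ ∃ E : Subgroup H, EH ρ 3 3 E ∧ FFE ρ E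

def BPos (ρ : Representation K H V) {I : Type} [MulAction H I] (W : I → Submodule K V)
    (r : I → V) (p : ℕ) : Prop :=
  ∀ (i : I) (h : H) (n : ℕ), h ^ (3 ^ n) = 1 → h • i = i → ρ h (r i) = (3 : K) • r i →
    edOn (W i) (ρ h) 9 + p ≤ edOn (W i) (ρ h) 3

def BPosW (ρ : Representation K H V) {I : Type} [MulAction H I] (W : I → Submodule K V)
    (r : I → V) (p : ℕ) : Prop :=
  ∀ (i : I) (h : H) (n : ℕ), h ^ (3 ^ n) = 1 → h • i = i → ρ h (r i) = (3 : K) • r i →
    edOn (W i) (ρ h) 9 < edOn (W i) (ρ h) 3 + 2 * p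

def BRegF (ρ : Representation K H V) {I : Type} [MulAction H I] (W : I → Submodule K V)
    (r : I → V) : Prop :=
  ∀ (i : I) (h : H) (n : ℕ), h ^ (3 ^ n) = 1 → h • i = i → ρ h (r i) = (3 : K) • r i →
    (∀ v, ρ h v = v → v = 0) → ∀ w ∈ W i, ρ h w = (3 : K) • w

/-- the vector `m + 2 X m` -/
def w3 (ρ : Representation K H V) (X : H) (m : V) : V := m + (2 : K) • ρ X m

/-- the vector `a + x Y a` -/
def r9 (ρ : Representation K H V) (Y : H) (a : V) (x : K) : V := a + x • ρ Y a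

def T2 (X : Module.End K V) (m : V) : Submodule K V := Submodule.span K {m, X m}

def T3 (X : Module.End K V) (m : V) : Submodule K V := Submodule.span K {m, X m, X (X m)}

def U4 (X : Module.End K V) (a b : V) : Submodule K V := Submodule.span K {a, b, X a, X b}

/-- `S` normalises the group generated by `X`, `Z` and the scalars, on `T` -/
def PN (p : ℕ) (T : Submodule K V) (X Z S : Module.End K V) : Prop :=
  (∃ (c : K) (a b : ℕ), a < p ∧ b < p ∧ ∀ v ∈ T, S (X v) = c • (X ^ a * Z ^ b) (S v)) ∧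
    ∃ (c : K) (a b : ℕ), a < p ∧ b < p ∧ ∀ v ∈ T, S (Z v) = c • (X ^ a * Z ^ b) (S v)

structure P2 (X Z : Module.End K V) (ζ : K) (m : V) : Prop where
  ne : m ≠ 0
  z4 : ζ ^ 4 = 1
  xx : X (X m) = m ∨ X (X m) = -m
  zm : Z m = ζ • m
  zx : Z (X m) = (-ζ) • X m

structure P3 (X Z : Module.End K V) (m : V) : Prop where
  ne : m ≠ 0
  xx : X (X (X m)) = m
  zm : Z m = m
  z1 : Z (X m) = (3 : K) • X m
  z2 : Z (X (X m)) = (9 : K) • X (X m)

/-- the sum of the blocks in the orbit of `k` under `J` -/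
def OrbS {I : Type} [MulAction H I] (W : I → Submodule K V) (J : Subgroup H) (k : I) :
    Submodule K V := ⨆ (l : I) (_ : ∃ j ∈ J, j • k = l), W l

def Tri (ρ : Representation K H V) (N : ℕ) : Prop :=
  ∀ (h : H) (j j' : ℕ), j.Coprime N → j'.Coprime N →
    Sim ρ h (h ^ j) ∨ Sim ρ h (h ^ j') ∨ Sim ρ h (h ^ (j * j'))

end Lin

/-- a colouring preserved by no `3`-element acting non-trivially -/
def Rig (H : Type) [Group H] {Ω : Type} [MulAction H Ω] (c : Ω → Fin 3) : Prop :=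
  ∀ (t : H) (n : ℕ), t ^ (3 ^ n) = 1 → (∀ x, c (t • x) = c x) → ∀ x : Ω, t • x = x

/-- `A` is maximal among the abelian normal subgroups -/
def MxA {H : Type} [Group H] (A : Subgroup H) : Prop :=
  ∀ B : Subgroup H, B.Normal → (∀ a ∈ B, ∀ b ∈ B, a * b = b * a) → A ≤ B → B = A

/-- theorem D below dimension `n` -/
def DIH (n N : ℕ) : Prop :=
  ∀ (V : Type) [AddCommGroup V] [Module K V] [Module.Finite K V] (H : Type) [Group H] [Finite H]
    [Group.IsSolvable H] (ρ : Representation K H V), Module.finrank K V < n → ClB ρ N →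
      (∃ v : V, v ≠ 0) → Mono ρ

end Pool.Agent.N9181

end

section

namespace Pool.Agent.N9181

open scoped commutatorElement

theorem fix_norm {V : Type} [AddCommGroup V] [Module K V] [Module.Finite K V]
    {H : Type} [Group H] [Finite H] (ρ : Representation K H V) (J : Subgroup H) (k : H) (hk : k ∈ Subgroup.normalizer (J : Set H))
    (v : V) (hv : v ∈ fixS ρ J) : ρ k v ∈ fixS ρ J := by
  intro y hy
  have h1 := (Subgroup.mem_normalizer_iff''.1 hk y).1 hy
  rw [← rho_mul, show y * k = k * (k⁻¹ * y * k) by group, rho_mul, hv _ h1]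

theorem rho_pow_eig {V : Type} [AddCommGroup V] [Module K V] [Module.Finite K V]
    {H : Type} [Group H] [Finite H] (ρ : Representation K H V) (h : H) (v : V) (c : K) (hv : ρ h v = c • v) (n : ℕ) :
    ρ (h ^ n) v = c ^ n • v := by
  induction n with
  | zero => simp
  | succ k ih => rw [pow_succ', rho_mul, ih, map_smul, hv, smul_smul, pow_succ]

theorem xssbasic_key {V : Type} [AddCommGroup V] [Module K V] [Module.Finite K V]
    {H : Type} [Group H] [Finite H] (ρ : Representation K H V) (h : H) (v : V) (c : K)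
    (hv : ρ h v = c • v) {b e : ℕ} (hc : c ^ b = 1)
    (he : b.gcd (Nat.card H) ∣ Nat.card H → e ≡ 1 [MOD b.gcd (Nat.card H)]) :
    ρ (h ^ e) v = c • v := by
  rcases eq_or_ne v 0 with rfl | h0
  · simp
  have h1 : c ^ Nat.card H = 1 := smul_left_injective K h0 (by
    simp only [← rho_pow_eig ρ h v c hv, pow_card_eq_one', map_one, one_smul,
      Module.End.one_apply])
  rw [rho_pow_eig ρ h v c hv,
    xbasic_pow c _ e (pow_gcd_eq_one.2 ⟨hc, h1⟩) (he (Nat.gcd_dvd_right _ _))]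

theorem eig_ppart {V : Type} [AddCommGroup V] [Module K V] [Module.Finite K V]
    {H : Type} [Group H] [Finite H] (ρ : Representation K H V) (p : ℕ) (hp : p.Prime) (h : H) :
    ∃ e a : ℕ, (h ^ e) ^ (p ^ a) = 1 ∧ ∀ (v : V) (c : K) (b : ℕ), ρ h v = c • v →
      c ^ (p ^ b) = 1 → ρ (h ^ e) v = c • v := by
  obtain ⟨e, a, h1, h2, -⟩ := p_part p hp h
  refine ⟨e, a, h1, fun v c b hv hc => xssbasic_key ρ h v c hv hc fun hd => ?_⟩
  obtain ⟨k, -, hk⟩ := (Nat.dvd_prime_pow hp).1 (Nat.gcd_dvd_left (p ^ b) (Nat.card H))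
  rw [hk] at hd ⊢
  exact h2 k hd

theorem eig_qpart {V : Type} [AddCommGroup V] [Module K V] [Module.Finite K V]
    {H : Type} [Group H] [Finite H] (ρ : Representation K H V) (p : ℕ) (hp : p.Prime) (h : H) :
    ∃ e : ℕ, ¬ p ∣ orderOf (h ^ e) ∧ ∀ (v : V) (c : K) (b : ℕ), ρ h v = c • v → ¬ p ∣ b →
      c ^ b = 1 → ρ (h ^ e) v = c • v := by
  obtain ⟨e, h1, h2, -⟩ := q_part p hp h
  exact ⟨e, h1, fun v c b hv hb hc => xssbasic_key ρ h v c hv hc fun hd =>
    h2 _ hd fun h3 => hb (h3.trans (Nat.gcd_dvd_left _ _))⟩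

theorem ep2 {V : Type} [AddCommGroup V] [Module K V] [Module.Finite K V]
    {H : Type} [Group H] [Finite H] (ρ : Representation K H V) (hE : HEP ρ 5) (v : V) :
    ∃ (t : H) (a : ℕ), t ^ (2 ^ a) = 1 ∧ ρ t v = (5 : K) • v := by
  obtain ⟨h, hh⟩ := hE v
  obtain ⟨e, a, h1, h2⟩ := eig_ppart ρ 2 Nat.prime_two h
  exact ⟨_, a, h1, h2 v 5 2 hh (by decide)⟩

theorem scal_normal {V : Type} [AddCommGroup V] [Module K V] [Module.Finite K V]
    {H : Type} [Group H] [Finite H] (ρ : Representation K H V) : (scal ρ).Normal := by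
  refine ⟨fun z ⟨c, hc, hz⟩ g => ⟨c, hc, fun v => ?_⟩⟩
  rw [rho_mul, rho_mul, hz, map_smul, rho_inv']

theorem scal_central {V : Type} [AddCommGroup V] [Module K V] [Module.Finite K V]
    {H : Type} [Group H] [Finite H] (ρ : Representation K H V) (hinj : Function.Injective ρ) (z : H) (hz : z ∈ scal ρ)
    (h : H) : z * h = h * z := by
  obtain ⟨c, -, hc⟩ := hz
  refine hinj (LinearMap.ext fun v => ?_)
  rw [rho_mul, rho_mul, hc, hc, map_smul]

theorem k_twelve (c : K) (h : c ≠ 0) : c ^ 12 = 1 := by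
  exact ZMod.pow_card_sub_one_eq_one h

theorem xssbasic_gcd (c : K) (m : ℕ) (hm : m ≠ 0) (h : c ^ m = 1) : c ^ m.gcd 12 = 1 :=
  pow_gcd_eq_one.2 ⟨h, k_twelve c (by
    rintro rfl
    rw [zero_pow hm] at h
    exact zero_ne_one h)⟩

theorem k_cube (c : K) (n : ℕ) (h : c ^ (3 ^ n) = 1) : c ^ 3 = 1 := by
  have h1 := xssbasic_gcd c _ (pow_ne_zero n three_ne_zero) h
  obtain ⟨k, -, hk⟩ := (Nat.dvd_prime_pow Nat.prime_three).1 (Nat.gcd_dvd_left (3 ^ n) 12)
  have h2 := Nat.gcd_dvd_right (3 ^ n) 12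
  rw [hk] at h1 h2
  rcases k with _ | _ | k
  · rw [show c = 1 by simpa using h1, one_pow]
  · simpa using h1
  · exact absurd ((pow_dvd_pow 3 (Nat.le_add_left 2 k)).trans h2) (by decide)

theorem k_four (c : K) (n : ℕ) (h : c ^ (2 ^ n) = 1) : c ^ 4 = 1 := by
  have h1 := xssbasic_gcd c _ (pow_ne_zero n two_ne_zero) h
  obtain ⟨k, -, hk⟩ := (Nat.dvd_prime_pow Nat.prime_two).1 (Nat.gcd_dvd_left (2 ^ n) 12)
  have h2 := Nat.gcd_dvd_right (2 ^ n) 12
  rw [hk] at h1 h2
  rcases le_or_gt k 2 with h3 | h3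
  · exact orderOf_dvd_iff_pow_eq_one.1
      ((orderOf_dvd_of_pow_eq_one h1).trans (pow_dvd_pow 2 h3))
  · exact absurd ((pow_dvd_pow 2 h3).trans h2) (by decide)

theorem ev_card {V : Type} [AddCommGroup V] [Module K V] [Module.Finite K V] (a : Module.End K V) (c : K) :
    Nat.card {v : V // v ≠ 0 ∧ a v = c • v} + 1 = 13 ^ ed a c := by
  have := (card_sub (a.eigenspace c)).1
  rw [ed, ← (card_sub _).2, ← Finite.card_option]
  classical
  refine Nat.card_congr (Equiv.trans (Equiv.optionCongr ?_)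
    (Equiv.optionSubtypeNe (0 : a.eigenspace c)))
  exact ⟨fun v => ⟨⟨v.1, Module.End.mem_eigenspace_iff.2 v.2.2⟩, fun e => v.2.1 (congrArg Subtype.val e)⟩,
    fun v => ⟨v.1.1, fun e => v.2 (Subtype.ext e), Module.End.mem_eigenspace_iff.1 v.1.2⟩,
    fun _ => rfl, fun _ => rfl⟩

theorem ed_two {V : Type} [AddCommGroup V] [Module K V] [Module.Finite K V] (U : Submodule K V) (a : Module.End K V) (c c' : K) (h : c ≠ c') :
    edOn U a c + edOn U a c' ≤ Module.finrank K U := by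
  have h1 : (U ⊓ a.eigenspace c) ⊓ (U ⊓ a.eigenspace c') = ⊥ := by
    rw [eq_bot_iff]
    rintro v ⟨⟨-, h1⟩, -, h3⟩
    have : (c - c') • v = 0 := by
      rw [sub_smul, ← Module.End.mem_eigenspace_iff.1 h1, ← Module.End.mem_eigenspace_iff.1 h3,
        sub_self]
    exact (smul_eq_zero.1 this).resolve_left (sub_ne_zero.2 h)
  have a1 := Submodule.finrank_sup_add_finrank_inf_eq (U ⊓ a.eigenspace c) (U ⊓ a.eigenspace c')
  rw [h1, finrank_bot, add_zero] at a1
  rw [edOn, edOn, ← a1]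
  exact Submodule.finrank_mono (sup_le inf_le_left inf_le_left)

theorem edOn_res {V : Type} [AddCommGroup V] [Module K V] [Module.Finite K V] (U : Submodule K V) (a : Module.End K V) (s : Module.End K U)
    (hs : Rs U a s) (U' : Submodule K U) (c : K) : edOn U' s c = edOn (U'.map U.subtype) a c := by
  unfold edOn
  rw [← Submodule.finrank_map_subtype_eq]
  suffices h : Submodule.map U.subtype (U' ⊓ s.eigenspace c) =
      U'.map U.subtype ⊓ a.eigenspace c by rw [h]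
  ext v
  simp only [Submodule.mem_map, Module.End.mem_eigenspace_iff, Submodule.mem_inf,
    Submodule.subtype_apply]
  constructor
  · rintro ⟨w, ⟨h1, h2⟩, rfl⟩
    exact ⟨⟨w, h1, rfl⟩, by rw [← hs, h2]; rfl⟩
  · rintro ⟨⟨w, h1, rfl⟩, h2⟩
    exact ⟨w, ⟨h1, Subtype.ext (by rw [hs]; exact h2)⟩, rfl⟩

theorem edOn_conj {V : Type} [AddCommGroup V] [Module K V] [Module.Finite K V]
    {H : Type} [Group H] [Finite H] (ρ : Representation K H V) (U : Submodule K V) (g h : H) (c : K) :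
    edOn (U.map (ρ g)) (ρ (g * h * g⁻¹)) c = edOn U (ρ h) c := by
  have hi : Function.Injective (ρ g) := Function.LeftInverse.injective (rho_inv ρ g)
  unfold edOn
  rw [(Submodule.equivMapOfInjective _ hi (U ⊓ Module.End.eigenspace (ρ h) c)).finrank_eq]
  suffices e : U.map (ρ g) ⊓ Module.End.eigenspace (ρ (g * h * g⁻¹)) c =
      (U ⊓ Module.End.eigenspace (ρ h) c).map (ρ g) by rw [e]
  ext v
  simp only [Submodule.mem_map, Module.End.mem_eigenspace_iff, Submodule.mem_inf]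
  constructor
  · rintro ⟨⟨w, h1, rfl⟩, h2⟩
    rw [rho_mul, rho_inv, rho_mul, ← map_smul] at h2
    exact ⟨w, ⟨h1, hi h2⟩, rfl⟩
  · rintro ⟨w, ⟨h1, h2⟩, rfl⟩
    exact ⟨⟨w, h1, rfl⟩, by rw [rho_mul, rho_inv, rho_mul, h2, map_smul]⟩

theorem sim_conj {V : Type} [AddCommGroup V] [Module K V] [Module.Finite K V]
    {H : Type} [Group H] [Finite H] (ρ : Representation K H V) (a b : H) (h : IsConj a b) : Sim ρ a b := by
  obtain ⟨g, rfl⟩ := isConj_iff.1 h
  intro c
  rw [← edOn_top, ← edOn_top, ← edOn_conj ρ ⊤ g a c, Submodule.map_top, LinearMap.range_eq_top.2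
    (Function.RightInverse.surjective (rho_inv' ρ g))]

theorem ed_inv {V : Type} [AddCommGroup V] [Module K V] [Module.Finite K V]
    {H : Type} [Group H] [Finite H] (ρ : Representation K H V) (U : Submodule K V) (h : H) (c : K) (hc : c ≠ 0) :
    edOn U (ρ h⁻¹) c⁻¹ = edOn U (ρ h) c := by
  suffices e : Module.End.eigenspace (ρ h⁻¹) c⁻¹ = Module.End.eigenspace (ρ h) c by
    rw [edOn, edOn, e]
  ext v
  simp only [Module.End.mem_eigenspace_iff]
  rw [eq_inv_smul_iff₀ hc, ← map_smul]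
  exact ⟨fun e => by rw [← rho_inv' ρ h (c • v), e], fun e => by rw [← e, rho_inv]⟩

theorem line_ext {V : Type} [AddCommGroup V] [Module K V] [Module.Finite K V] (U : Submodule K V) (h1 : Module.finrank K U = 1) (w : V) (hw : w ∈ U)
    (h0 : w ≠ 0) : ∀ u ∈ U, ∃ c : K, u = c • w := by
  intro u hu
  obtain ⟨c, hc⟩ := (finrank_eq_one_iff_of_nonzero' (⟨w, hw⟩ : U)
    fun e => h0 (congrArg Subtype.val e)).1 h1 ⟨u, hu⟩
  exact ⟨c, (congrArg Subtype.val hc).symm⟩

theorem diagE_of {V : Type} [AddCommGroup V] [Module K V] [Module.Finite K V]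
    {H : Type} [Group H] [Finite H] (ρ : Representation K H V) {I : Type} [Fintype I] [MulAction H I] (W : I → Submodule K V) (hB : BD ρ I W)
    (h1 : ∀ i, Module.finrank K (W i) = 1) (t : H) (n : ℕ) (ht : t ^ (3 ^ n) = 1)
    (hf : ∀ i : I, t • i = i) : DiagE ρ W t := by
  intro i
  obtain ⟨w, hw, h0⟩ := (Submodule.ne_bot_iff _).1 (hB.ne i)
  obtain ⟨c, hc⟩ := line_ext _ (h1 i) w hw h0 _ (hf i ▸ hB.map t i w hw)
  refine ⟨hf i, c, k_cube c n (smul_left_injective K h0 ?_), fun u hu => ?_⟩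
  · simp only [← rho_pow_eig ρ t w c hc, ht, map_one, one_smul, Module.End.one_apply]
  · obtain ⟨d, rfl⟩ := line_ext _ (h1 i) w hw h0 u hu
    rw [map_smul, hc, smul_comm]

theorem exists_fb {V : Type} [AddCommGroup V] [Module K V] [Module.Finite K V]
    {H : Type} [Group H] [Finite H] (ρ : Representation K H V) {I : Type} [Fintype I] [MulAction H I] (W : I → Submodule K V) (hB : BD ρ I W) (i : I) :
    ∃ (H' : Type) (_ : Group H') (_ : Finite H') (π : MulAction.stabilizer H i →* H')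
      (σ : Representation K H' (W i)), FB ρ W i π σ ∧ Function.Injective σ ∧
      Nat.card H' ∣ Nat.card H := by
  obtain ⟨σ, hσ⟩ := exists_res ρ (MulAction.stabilizer H i) (W i) fun h hh w hw =>
    (show h • i = i from hh) ▸ hB.map h i w hw
  obtain ⟨H', _, _, π, σ', h1, h2, h3, h4, -⟩ := exists_faithful σ
  exact ⟨H', inferInstance, inferInstance, π, σ', ⟨h1, fun h w => by rw [h3, hσ]⟩, h2,
    h4.trans (Subgroup.card_subgroup_dvd_card _)⟩

end Pool.Agent.N9181

end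

section

namespace Pool.Agent.N9181

open scoped commutatorElement

theorem xshsa_rel {V : Type} [AddCommGroup V] [Module K V] {H : Type} [Group H]
    (ρ : Representation K H V) (f g : H) (h : ⁅f, g⁆ ∈ scal ρ) :
    ∃ c : K, c ≠ 0 ∧ ∀ v, ρ f (ρ g v) = c • ρ g (ρ f v) := by
  obtain ⟨c, h0, hc⟩ := h
  refine ⟨c, h0, fun v => ?_⟩
  rw [← hc, ← rho_mul, ← rho_mul, ← rho_mul, commutatorElement_def]
  congr 2
  group

theorem xshsa_ne {V : Type} [AddCommGroup V] [Module K V] {H : Type} [Group H]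
    (ρ : Representation K H V) (g : H) (v : V) (hv : v ≠ 0) : ρ g v ≠ 0 := fun e => hv (by
  rw [← rho_inv ρ g v, e, map_zero])

theorem xshsa_top {L Z : Type} [CommGroup L] [Finite L] [CommGroup Z] [Finite Z] [IsCyclic Z]
    (M : Subgroup (L →* Z)) (hM : ∀ l : L, (∀ φ ∈ M, φ l = 1) → l = 1) : M = ⊤ := by
  have := xpair_fin L Z
  have := xpair_fin M Z
  let ev : L →* M →* Z := M.subtype.flip
  have h1 : Function.Injective ev := (injective_iff_map_eq_one ev).2 fun l hl =>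
    hM l fun φ hφ => DFunLike.congr_fun hl ⟨φ, hφ⟩
  exact Subgroup.eq_top_of_le_card _ ((xpair_card L Z).trans
    ((Nat.card_le_card_of_injective _ h1).trans (xpair_card M Z)))

theorem xshsa_hom {L : Type} [Group L] (c : L → K) (h0 : ∀ l, c l ≠ 0)
    (hm : ∀ l l', c (l * l') = c l * c l') : ∃ φ : L →* Kˣ, ∀ l, (φ l : K) = c l :=
  ⟨MonoidHom.mk' (fun l => Units.mk0 (c l) (h0 l)) fun a b => Units.ext (hm a b), fun _ => rfl⟩

theorem eh_pd {V : Type} [AddCommGroup V] [Module K V] [Module.Finite K V]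
    {H : Type} [Group H] [Finite H] (ρ : Representation K H V) (p q : ℕ) (E : Subgroup H) (hE : EH ρ p q E) : PD (E ⊓ scal ρ) E := by
  obtain ⟨v, hv⟩ := hE.ne
  have := hE.nE
  refine ⟨?_, inf_le_left, fun a ha x _ => scal_central ρ hE.inj a ha.2 x, fun x hx y hy =>
    ⟨Subgroup.commutator_le_left E E (Subgroup.commutator_mem_commutator hx hy), hE.sc x hx y hy⟩,
    fun x hx h => ⟨hx, ?_⟩⟩
  · choose c h0 hc using fun a : (E ⊓ scal ρ : Subgroup H) => (mem_scal ρ a).1 a.2.2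
    obtain ⟨φ, hφ⟩ := xshsa_hom c h0 fun a b => smul_left_injective K hv (by
      beta_reduce
      rw [← hc, Subgroup.coe_mul, rho_mul, hc b, map_smul, hc a, smul_smul, mul_comm])
    refine isCyclic_of_injective φ ((injective_iff_map_eq_one φ).2 fun a ha => ?_)
    refine Subtype.ext (hE.inj (LinearMap.ext fun w => ?_))
    rw [hc, ← hφ, ha, Subgroup.coe_one, map_one, Units.val_one, one_smul]
    rfl
  · refine hE.mx (E ⊓ Subgroup.centralizer (E : Set H)) inferInstance inf_le_left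
      (fun a ha b hb => hb.2 a ha.1) ⟨hx, fun y hy => (h y hy).symm⟩

theorem eh_rel {V : Type} [AddCommGroup V] [Module K V] [Module.Finite K V]
    {H : Type} [Group H] [Finite H] (ρ : Representation K H V) (p q : ℕ) (ν : K) (hpq : PQ p q ν) (E : Subgroup H) (hE : EH ρ p q E) (f g : H) (hf : f ∈ E) (hg : g ∈ E) :
    ∃ k : ℕ, k < p ∧ ∀ v, ρ f (ρ g v) = ν ^ k • ρ g (ρ f v) := by
  obtain ⟨v, hv⟩ := hE.ne
  obtain ⟨c, -, hc⟩ := xshsa_rel ρ f g (hE.sc f hf g hg)
  have h1 : ∀ k : ℕ, ρ (f ^ k) (ρ g v) = c ^ k • ρ g (ρ (f ^ k) v) := by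
    intro k
    induction k with
    | zero => simp
    | succ k ih => rw [pow_succ', rho_mul, ih, map_smul, hc, rho_mul, smul_smul, pow_succ]
  obtain ⟨d, hd, h2⟩ := hE.pp f hf
  have h3 : c ^ p = 1 := by
    have := h1 p
    rw [h2, h2, map_smul, smul_comm] at this
    have h4 := smul_right_injective V hd this
    exact smul_left_injective K (xshsa_ne ρ g v hv) (h4.symm.trans (one_smul K _).symm)
  suffices h : ∃ k : ℕ, k < p ∧ c = ν ^ k by
    obtain ⟨k, hk, rfl⟩ := h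
    exact ⟨k, hk, hc⟩
  clear hc h1
  rcases hpq with ⟨rfl, -, rfl⟩ | ⟨rfl, -, rfl⟩ <;> revert c <;> decide

theorem hs_char {V : Type} [AddCommGroup V] [Module K V] [Module.Finite K V]
    {H : Type} [Group H] [Finite H] (ρ : Representation K H V) (p q : ℕ) (ν : K) (hpq : PQ p q ν) (E : Subgroup H) (hE : EH ρ p q E) (L : Subgroup H) (hle : L ≤ E)
    (hd : ∀ l ∈ L, l ∈ scal ρ → l = 1) (χ : H → K) (hχ : ∀ l ∈ L, χ l ^ p = 1)
    (hm : ∀ l ∈ L, ∀ l' ∈ L, χ (l * l') = χ l * χ l')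
    (hc : ∀ l ∈ L, ∀ l' ∈ L, l * l' = l' * l) :
    ∃ f ∈ E, ∀ l ∈ L, ∀ v, ρ l (ρ f v) = χ l • ρ f (ρ l v) := by
  obtain ⟨v, hv⟩ := hE.ne
  let iL : CommGroup L :=
    { (inferInstance : Group L) with mul_comm := fun a b => Subtype.ext (hc a a.2 b b.2) }
  let M : Subgroup (L →* Kˣ) :=
    { carrier := {φ | ∃ f ∈ E, ∀ (l : L) v, ρ l (ρ f v) = (φ l : K) • ρ f (ρ l v)}
      one_mem' := ⟨1, E.one_mem, fun l v => by simp⟩
      mul_mem' := by
        rintro φ ψ ⟨f, hf, h1⟩ ⟨g, hg, h2⟩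
        refine ⟨f * g, E.mul_mem hf hg, fun l v => ?_⟩
        rw [rho_mul, h1, h2, map_smul, smul_smul, rho_mul]
        rfl
      inv_mem' := by
        rintro φ ⟨f, hf, h1⟩
        refine ⟨f⁻¹, E.inv_mem hf, fun l v => ?_⟩
        have h2 := congrArg (ρ f⁻¹) (h1 l (ρ f⁻¹ v))
        rw [rho_inv', map_smul, rho_inv] at h2
        rw [h2, smul_smul, MonoidHom.inv_apply, Units.inv_mul, one_smul] }
  have hM : M = ⊤ := xshsa_top M fun l hl => by
    refine Subtype.ext (hd l l.2 ((eh_pd ρ p q E hE).nd l (hle l.2) fun f hf => ?_).2)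
    choose c h0 h1 using fun l : L => xshsa_rel ρ l f (hE.sc l (hle l.2) f hf)
    obtain ⟨φ, hφ⟩ := xshsa_hom c h0 fun a b =>
      smul_left_injective K (xshsa_ne ρ f _ (xshsa_ne ρ (a * b : L) v hv)) (by
        beta_reduce
        rw [← h1, Subgroup.coe_mul, rho_mul, h1 b, map_smul, h1 a, smul_smul, mul_comm, rho_mul])
    have h2 := hl φ ⟨f, hf, fun l w => by rw [hφ, h1]⟩
    refine hE.inj (LinearMap.ext fun w => ?_)
    rw [rho_mul, rho_mul, h1, ← hφ, h2, Units.val_one, one_smul]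
  have hp : p ≠ 0 := by rcases hpq with ⟨rfl, -⟩ | ⟨rfl, -⟩ <;> decide
  obtain ⟨φ, hφ⟩ := xshsa_hom (fun l : L => χ l)
    (fun l e => by simpa [e, hp] using hχ l l.2) fun a b => hm a a.2 b b.2
  obtain ⟨f, hf, h1⟩ : φ ∈ M := hM ▸ Subgroup.mem_top φ
  exact ⟨f, hf, fun l hl w => by rw [h1 ⟨l, hl⟩, hφ]⟩

end Pool.Agent.N9181

end

section

namespace Pool.Agent.N9181

open scoped commutatorElement

section

variable {V : Type} [AddCommGroup V] [Module K V] {H : Type} [Group H]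

theorem xshsu_ne (ρ : Representation K H V) (f : H) {w : V} (h0 : w ≠ 0) : ρ f w ≠ 0 := fun h =>
  h0 (by rw [← rho_inv ρ f w, h, map_zero])

theorem xshsu_inj (ρ : Representation K H V) (f : H) : Function.Injective (ρ f) :=
  Function.LeftInverse.injective (rho_inv ρ f)

theorem xshsu_fix (ρ : Representation K H V) {L : Subgroup H} {f : H}
    (h : ∀ l ∈ L, l * f = f * l) {v : V} (hv : v ∈ fixS ρ L) : ρ f v ∈ fixS ρ L := fun l hl => by
  rw [← rho_mul, h l hl, rho_mul, hv l hl]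

theorem xshsu_one {c : K} {w : V} (h0 : w ≠ 0) (h : w = c • w) : c = 1 :=
  smul_left_injective K h0 (h.symm.trans (one_smul K w).symm)

theorem xshsu_sq (ρ : Representation K H V) {f : H} (h : f ^ 2 ∈ scal ρ) :
    ∃ c : K, c ≠ 0 ∧ ∀ v, ρ f (ρ f v) = c • v :=
  let ⟨c, hc, h⟩ := h
  ⟨c, hc, fun v => by rw [← rho_mul, ← pow_two, h]⟩

end

theorem hs_fix {V : Type} [AddCommGroup V] [Module K V] [Module.Finite K V]
    {H : Type} [Group H] [Finite H] (ρ : Representation K H V) (p q : ℕ) (ν : K) (hpq : PQ p q ν) (E : Subgroup H) (hE : EH ρ p q E)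
    (ζ : K) (L : Subgroup H) (X Z : H) (hH : HS ρ p ν ζ E L X Z) (v : V) (hv : v ∈ fixS ρ L) :
    ρ X v ∈ fixS ρ L ∧ ρ Z v ∈ fixS ρ L := by
  exact ⟨xshsu_fix ρ hH.cX hv, xshsu_fix ρ hH.cZ hv⟩

theorem hs_comm {V : Type} [AddCommGroup V] [Module K V] [Module.Finite K V]
    {H : Type} [Group H] [Finite H] (ρ : Representation K H V) (p q : ℕ) (ν : K) (hpq : PQ p q ν) (E : Subgroup H) (hE : EH ρ p q E)
    (ζ : K) (L : Subgroup H) (X Z : H) (hH : HS ρ p ν ζ E L X Z) (f : H) (hf : f ∈ E) (w : V) (hw : w ∈ fixS ρ L) (h0 : w ≠ 0)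
    (h : ρ f w ∈ fixS ρ L) : ∀ l ∈ L, f * l = l * f := by
  intro l hl
  obtain ⟨k, -, hk⟩ := eh_rel ρ p q ν hpq E hE l f (hH.le hl) hf
  have h1 := hk w
  rw [h l hl, hw l hl] at h1
  have h2 := xshsu_one (xshsu_ne ρ f h0) h1
  refine hE.inj (LinearMap.ext fun v => ?_)
  rw [rho_mul, rho_mul, hk, h2, one_smul]

theorem hs_cen {V : Type} [AddCommGroup V] [Module K V] [Module.Finite K V]
    {H : Type} [Group H] [Finite H] (ρ : Representation K H V) (p q : ℕ) (ν : K) (hpq : PQ p q ν) (E : Subgroup H) (hE : EH ρ p q E)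
    (ζ : K) (L : Subgroup H) (X Z : H) (hH : HS ρ p ν ζ E L X Z) (f : H) (hf : f ∈ E) (h : ∀ l ∈ L, f * l = l * f) :
    ∃ (c : K) (a b : ℕ), c ≠ 0 ∧ a < p ∧ b < p ∧
      (∀ v ∈ fixS ρ L, ρ f v = c • (ρ X ^ a * ρ Z ^ b) v) ∧
      (a = 0 → b = 0 → ∃ l ∈ L, ∀ v, ρ f v = c • ρ l v) := by
  obtain ⟨c, l, a, b, hl, ha, hb, hc⟩ := hH.cen f hf h
  obtain ⟨v₀, hv₀⟩ := hE.ne
  refine ⟨c, a, b, fun h0 => xshsu_ne ρ f hv₀ (by rw [hc, h0, zero_smul]), ha, hb, fun v hv => ?_,
    fun ha0 hb0 => ⟨l, hl, fun v => by rw [hc, ha0, hb0, pow_zero, pow_zero, mul_one, mul_one]⟩⟩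
  have h1 : ρ (X ^ a * Z ^ b) v ∈ fixS ρ L := xshsu_fix ρ (fun l hl =>
    ((Commute.pow_right (hH.cX l hl) a).mul_right (Commute.pow_right (hH.cZ l hl) b)).eq) hv
  rw [hc, mul_assoc, rho_mul, h1 l hl, map_mul, map_pow, map_pow]

theorem hs_norm {V : Type} [AddCommGroup V] [Module K V] [Module.Finite K V]
    {H : Type} [Group H] [Finite H] (ρ : Representation K H V) (p q : ℕ) (ν : K) (hpq : PQ p q ν) (E : Subgroup H) (hE : EH ρ p q E)
    (ζ : K) (L : Subgroup H) (X Z : H) (hH : HS ρ p ν ζ E L X Z) (w : V) (hw : w ∈ fixS ρ L) (h0 : w ≠ 0) (hs : SL ρ E L w)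
    (h : H) (c : K) (hh : ρ h w = c • w) : h ∈ Subgroup.normalizer (L : Set H) := by
  have hc : c ≠ 0 := fun e => xshsu_ne ρ h h0 (by rw [hh, e, zero_smul])
  refine Subgroup.mem_normalizer_fintype fun l hl => ?_
  have h1 : ρ h⁻¹ w = c⁻¹ • w := by
    rw [eq_inv_smul_iff₀ hc, ← map_smul, ← hh, rho_inv]
  have h2 : ρ (h * l * h⁻¹) w = (1 : K) • w := by
    rw [rho_mul, rho_mul, h1, (fixS ρ L).smul_mem _ hw l hl, ← h1, rho_inv', one_smul]
  obtain ⟨l', hl', c', h3⟩ := hs _ (hE.nE.conj_mem l (hH.le hl) h) 1 h2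
  have h4 := h3 w
  rw [h2, one_smul, hw l' hl'] at h4
  have h5 : h * l * h⁻¹ = l' :=
    hE.inj (LinearMap.ext fun v => by rw [h3, xshsu_one h0 h4, one_smul])
  rw [h5]
  exact hl'

theorem hs_nc {V : Type} [AddCommGroup V] [Module K V] [Module.Finite K V]
    {H : Type} [Group H] [Finite H] (ρ : Representation K H V) (p q : ℕ) (ν : K) (hpq : PQ p q ν) (E : Subgroup H) (hE : EH ρ p q E)
    (ζ : K) (L : Subgroup H) (X Z : H) (hH : HS ρ p ν ζ E L X Z) (w : V) (hw : w ∈ fixS ρ L) (h0 : w ≠ 0) (hs : SL ρ E L w)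
    (m : V) (hm : m ∈ fixS ρ L) (c' : K) (hZ : ρ Z m = c' • m) (k : H) (c : K) :
    ρ k w ≠ c • m := by
  intro hk
  let Ev : V → Set H := fun v => {f | f ∈ E ∧ ∃ d : K, ρ f v = d • v}
  have h1 : Ev w ⊆ Ev m := by
    rintro f ⟨hf, d, hd⟩
    obtain ⟨l, hl, d', h⟩ := hs f hf d hd
    exact ⟨hf, d', by rw [h, hm l hl]⟩
  have h2 : (Ev m).ncard ≤ (Ev w).ncard := by
    refine Set.ncard_le_ncard_of_injOn (fun f => k⁻¹ * f * k) ?_ fun f _ g _ e => ?_
    · rintro f ⟨hf, d, hd⟩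
      refine ⟨hE.nE.conj_mem' f hf k, d, ?_⟩
      rw [rho_mul, rho_mul, hk, map_smul, hd, smul_comm, ← hk, map_smul, rho_inv]
    · exact mul_left_cancel (mul_right_cancel e)
  have h3 : Z ∈ Ev w := by
    rw [Set.eq_of_subset_of_ncard_le h1 h2]
    exact ⟨hH.mZ, c', hZ⟩
  obtain ⟨-, d, hd⟩ := h3
  obtain ⟨l, hl, d', h⟩ := hs Z hH.mZ d hd
  have h4 : ρ X (ρ Z w) = ν • ρ X (ρ Z w) := by
    rw [← hH.zx, h, h, ← rho_mul, hH.cX l hl, rho_mul, map_smul]
  have h5 := xshsu_one (xshsu_ne ρ X (xshsu_ne ρ Z h0)) h4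
  rcases hpq with ⟨-, -, rfl⟩ | ⟨-, -, rfl⟩ <;> exact absurd h5 (by decide)

theorem hs_conj {V : Type} [AddCommGroup V] [Module K V] [Module.Finite K V]
    {H : Type} [Group H] [Finite H] (ρ : Representation K H V) (p q : ℕ) (ν : K) (hpq : PQ p q ν) (E : Subgroup H) (hE : EH ρ p q E)
    (ζ : K) (L : Subgroup H) (X Z : H) (hH : HS ρ p ν ζ E L X Z) (h : H) (hh : h ∈ Subgroup.normalizer (L : Set H)) :
    PN p (fixS ρ L) (ρ X) (ρ Z) (ρ h) := by
  have key : ∀ Y ∈ E, (∀ l ∈ L, l * Y = Y * l) → ∃ (c : K) (a b : ℕ), a < p ∧ b < p ∧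
      ∀ v ∈ fixS ρ L, ρ h (ρ Y v) = c • (ρ X ^ a * ρ Z ^ b) (ρ h v) := by
    intro Y hY hc
    obtain ⟨c, a, b, -, ha, hb, h1, -⟩ := hs_cen ρ p q ν hpq E hE ζ L X Z hH (h * Y * h⁻¹)
      (hE.nE.conj_mem Y hY h) fun l hl => by
        have h2 := hc (h⁻¹ * l * h) ((Subgroup.mem_normalizer_iff''.1 hh l).1 hl)
        calc h * Y * h⁻¹ * l = h * (Y * (h⁻¹ * l * h)) * h⁻¹ := by group
          _ = l * (h * Y * h⁻¹) := by rw [← h2]; group
    refine ⟨c, a, b, ha, hb, fun v hv => ?_⟩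
    rw [← h1 _ (fix_norm ρ L h hh v hv), rho_mul, rho_mul, rho_inv]
  exact ⟨key X hH.mX hH.cX, key Z hH.mZ hH.cZ⟩

theorem pn_mono {V : Type} [AddCommGroup V] [Module K V] [Module.Finite K V] (p : ℕ) (T T' : Submodule K V) (hle : T' ≤ T) (X Z S : Module.End K V)
    (h : PN p T X Z S) : PN p T' X Z S := by
  obtain ⟨⟨c, a, b, ha, hb, h1⟩, c', a', b', ha', hb', h2⟩ := h
  exact ⟨⟨c, a, b, ha, hb, fun v hv => h1 v (hle hv)⟩, c', a', b', ha', hb',
    fun v hv => h2 v (hle hv)⟩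

theorem hs_p2 {V : Type} [AddCommGroup V] [Module K V] [Module.Finite K V]
    {H : Type} [Group H] [Finite H] (ρ : Representation K H V) (E : Subgroup H) (hE : EH ρ 2 4 E) (ζ : K) (L : Subgroup H) (X Z : H)
    (hH : HS ρ 2 (-1) ζ E L X Z) (m : V) (h0 : m ≠ 0) (hZ : ρ Z m = ζ • m) :
    P2 (ρ X) (ρ Z) ζ m := by
  refine ⟨h0, xshsu_one h0 ?_, ?_, hZ, ?_⟩
  · rw [← rho_pow_eig ρ Z m ζ hZ, hE.pw Z hH.mZ, map_one, Module.End.one_apply]
  · obtain ⟨c, -, hc⟩ := xshsu_sq ρ (hE.pp X hH.mX)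
    have h1 : ρ (X ^ 4) m = (c * c) • m := by
      rw [show X ^ 4 = X * X * (X * X) by rw [← pow_two X, ← pow_add], rho_mul, rho_mul, rho_mul, hc, hc, smul_smul]
    rw [hE.pw X hH.mX, map_one, Module.End.one_apply] at h1
    rcases mul_self_eq_one_iff.1 (xshsu_one h0 h1) with rfl | rfl
    · exact Or.inl (by rw [hc, one_smul])
    · exact Or.inr (by rw [hc, neg_one_smul])
  · rw [hH.zx, hZ, map_smul, smul_smul, neg_one_mul]

theorem hs_p3 {V : Type} [AddCommGroup V] [Module K V] [Module.Finite K V]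
    {H : Type} [Group H] [Finite H] (ρ : Representation K H V) (E : Subgroup H) (hE : EH ρ 3 3 E) (L : Subgroup H) (X Z : H)
    (hH : HS ρ 3 3 1 E L X Z) (m : V) (h0 : m ≠ 0) (hZ : ρ Z m = m) : P3 (ρ X) (ρ Z) m := by
  have h1 : ρ Z (ρ X m) = (3 : K) • ρ X m := by rw [hH.zx, hZ]
  refine ⟨h0, ?_, hZ, h1, ?_⟩
  · rw [← rho_mul, ← rho_mul, ← pow_three', hE.pw X hH.mX, map_one, Module.End.one_apply]
  · rw [hH.zx, h1, map_smul, smul_smul]
    congr 1

theorem hs_dbl {V : Type} [AddCommGroup V] [Module K V] [Module.Finite K V]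
    {H : Type} [Group H] [Finite H] (ρ : Representation K H V) (E : Subgroup H) (hE : EH ρ 2 4 E) (ζ : K) (L : Subgroup H) (X Z : H)
    (hH : HS ρ 2 (-1) ζ E L X Z) (U C : Submodule K V) (hX : ∀ v ∈ U, ρ X v ∈ U)
    (hZ : ∀ v ∈ U, ρ Z v ∈ U) (hC : ∀ v, v ∈ C ↔ v ∈ U ∧ ρ Z v = ζ • v) :
    Disjoint C (C.map (ρ X)) ∧ C ⊔ C.map (ρ X) = U ∧
      Module.finrank K U = 2 * Module.finrank K C := by
  obtain ⟨ε, hε, hXX⟩ := xshsu_sq ρ (hE.pp X hH.mX)
  obtain ⟨d, -, hZZ⟩ := xshsu_sq ρ (hE.pp Z hH.mZ)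
  obtain ⟨m, hm0, -, hm⟩ := hH.ex
  have hζ : ζ ≠ 0 := fun e => xshsu_ne ρ Z hm0 (by rw [hm, e, zero_smul])
  obtain rfl : ζ * ζ = d :=
    smul_left_injective K hm0 (by beta_reduce; rw [← hZZ, hm, map_smul, hm, smul_smul])
  have hd : Disjoint C (C.map (ρ X)) := by
    rw [Submodule.disjoint_def]
    rintro _ hv ⟨u, hu, rfl⟩
    have h1 := ((hC _).1 hv).2
    rw [hH.zx, ((hC _).1 hu).2, map_smul, smul_comm] at h1
    by_contra h0
    exact absurd (xshsu_one h0 (smul_right_injective V hζ h1).symm) (by decide)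
  have hs : C ⊔ C.map (ρ X) = U := by
    refine le_antisymm (sup_le (fun v hv => ((hC v).1 hv).1) ?_) fun v hv => ?_
    · rintro _ ⟨u, hu, rfl⟩
      exact hX u ((hC u).1 hu).1
    · have h7 : (7 : K) + 7 = 1 := by decide
      have hi := inv_mul_cancel₀ hζ
      have h1 : ζ⁻¹ • ρ Z v ∈ U := U.smul_mem _ (hZ v hv)
      refine Submodule.mem_sup.2 ⟨(7 : K) • (v + ζ⁻¹ • ρ Z v), (hC _).2
        ⟨U.smul_mem _ (add_mem hv h1), ?_⟩, (7 : K) • (v - ζ⁻¹ • ρ Z v),
        ⟨ε⁻¹ • ρ X ((7 : K) • (v - ζ⁻¹ • ρ Z v)), (hC _).2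
          ⟨U.smul_mem _ (hX _ (U.smul_mem _ (sub_mem hv h1))), ?_⟩, ?_⟩, ?_⟩
      · simp only [map_smul, map_add, hZZ]
        linear_combination (norm := module) (7 * ζ * hi) • v - (7 * hi) • ρ Z v
      · simp only [map_smul, map_sub, hH.zx, hZZ]
        linear_combination (norm := module)
          (7 * ε⁻¹ * ζ * hi) • ρ X v + (7 * ε⁻¹ * hi) • ρ X (ρ Z v)
      · rw [map_smul, hXX, inv_smul_smul₀ hε]
      · linear_combination (norm := module) h7 • v
  refine ⟨hd, hs, ?_⟩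
  have h1 := Submodule.finrank_sup_add_finrank_inf_eq C (C.map (ρ X))
  rw [hs, hd.eq_bot, finrank_bot,
    ← (Submodule.equivMapOfInjective _ (xshsu_inj ρ X) C).finrank_eq] at h1
  omega

end Pool.Agent.N9181

end

section

namespace Pool.Agent.N9181

open scoped commutatorElement

/-- the number of squares in a commutative group -/
noncomputable def xsrbaS (G : Type) [CommGroup G] : ℕ :=
  Nat.card (powMonoidHom 2 : G →* G).range

theorem xsrba_prod {G A B : Type} [CommGroup G] [CommGroup A] [CommGroup B] (e : G ≃* A × B) :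
    xsrbaS G = xsrbaS A * xsrbaS B := by
  have h : (powMonoidHom 2 : G →* G).range.map e.toMonoidHom =
      (powMonoidHom 2 : A →* A).range.prod (powMonoidHom 2 : B →* B).range := by
    ext x
    rw [Subgroup.mem_map, Subgroup.mem_prod]
    constructor
    · rintro ⟨_, ⟨y, rfl⟩, rfl⟩
      exact ⟨⟨(e y).1, by simp⟩, ⟨(e y).2, by simp⟩⟩
    · rintro ⟨⟨a, ha⟩, ⟨b, hb⟩⟩
      refine ⟨_, ⟨e.symm (a, b), rfl⟩, ?_⟩
      rw [powMonoidHom_apply] at ha hb ⊢
      rw [map_pow]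
      exact Prod.ext (by simpa using ha) (by simpa using hb)
  rw [xsrbaS, xsrbaS, xsrbaS, ← Nat.card_prod, ← Nat.card_congr (Subgroup.prodEquiv _ _).toEquiv,
    ← h]
  exact Nat.card_congr (Subgroup.equivMapOfInjective _ e.toMonoidHom e.injective).toEquiv

theorem xsrba_mul {a b : ℕ} (h : a.Coprime b) :
    xsrbaS (ZMod (a * b))ˣ = xsrbaS (ZMod a)ˣ * xsrbaS (ZMod b)ˣ :=
  xsrba_prod ((Units.mapEquiv (ZMod.chineseRemainder h).toMulEquiv).trans MulEquiv.prodUnits)

theorem xsrba_pos (r : ℕ) (hr : 0 < r) : 1 ≤ xsrbaS (ZMod r)ˣ := by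
  have : NeZero r := ⟨hr.ne'⟩
  exact Nat.card_pos

theorem xsrba_odd {p m : ℕ} (hp : p.Prime) (hm : p = 2 * m + 1) (k : ℕ) :
    xsrbaS (ZMod (p ^ (k + 1)))ˣ = p ^ k * m := by
  have : NeZero (p ^ (k + 1)) := ⟨pow_ne_zero _ hp.ne_zero⟩
  have := ZMod.isCyclic_units_of_prime_pow p hp (by omega) (k + 1)
  have hc : Nat.card (ZMod (p ^ (k + 1)))ˣ = 2 * (p ^ k * m) := by
    rw [Nat.card_eq_fintype_card, ZMod.card_units_eq_totient, Nat.totient_prime_pow_succ hp,
      show p - 1 = 2 * m by omega]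
    ring
  rw [xsrbaS, IsCyclic.card_powMonoidHom_range, hc, Nat.gcd_eq_right (dvd_mul_right _ _),
    Nat.mul_div_cancel_left _ two_pos]

theorem xsrba_two (k : ℕ) : 2 ^ k ≤ xsrbaS (ZMod (2 ^ (k + 3)))ˣ := by
  have : NeZero (2 ^ (k + 3)) := ⟨pow_ne_zero _ two_ne_zero⟩
  let u : (ZMod (2 ^ (k + 3)))ˣ :=
    ZMod.unitOfCoprime 5 (Nat.Coprime.pow_right _ (by norm_num))
  have h1 : orderOf u = 2 ^ (k + 1) := by
    rw [← orderOf_units, ZMod.coe_unitOfCoprime, Nat.cast_ofNat]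
    exact ZMod.orderOf_five (k + 1)
  have h2 : orderOf (u ^ 2) = 2 ^ k := by
    rw [orderOf_pow' _ two_ne_zero, h1, pow_succ, Nat.gcd_eq_right (dvd_mul_left _ _),
      Nat.mul_div_cancel _ two_pos]
  rw [← h2]
  exact Nat.le_of_dvd Nat.card_pos (Subgroup.orderOf_dvd_natCard _ ⟨u, rfl⟩)

theorem xsrba_if {q : ℕ} (c d : ℕ) {a b : ℕ} (h1 : q ∣ a * b ↔ q ∣ a ∨ q ∣ b)
    (h2 : ¬ (q ∣ a ∧ q ∣ b)) :
    (if q ∣ a then c else d) * (if q ∣ b then c else d) = d * if q ∣ a * b then c else d := by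
  by_cases ha : q ∣ a <;> by_cases hb : q ∣ b <;> simp_all [mul_comm]

theorem xsrba_pp (p k : ℕ) (hp : p.Prime) :
    8 * p ^ (k + 1) ≤ (if 5 ∣ p ^ (k + 1) then 5 else 4) * (if 8 ∣ p ^ (k + 1) then 4 else 2) *
      Nat.gcd (p ^ (k + 1)) 12 * xsrbaS (ZMod (p ^ (k + 1)))ˣ ^ 2 := by
  have h5 : 4 ≤ (if 5 ∣ p ^ (k + 1) then 5 else 4) := by split_ifs <;> omega
  have h8 : 2 ≤ (if 8 ∣ p ^ (k + 1) then 4 else 2) := by split_ifs <;> omega
  have hg : ∀ d, d ∣ p ^ (k + 1) → d ∣ 12 → d ≤ Nat.gcd (p ^ (k + 1)) 12 := fun d h1 h2 =>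
    Nat.le_of_dvd (Nat.gcd_pos_of_pos_right _ (by norm_num)) (Nat.dvd_gcd h1 h2)
  have hs := xsrba_pos _ (pow_pos hp.pos (k + 1))
  rcases hp.eq_two_or_odd' with rfl | ⟨m, hm⟩
  · rcases k with _ | _ | k
    · calc 8 * 2 ^ (0 + 1) = 4 * 2 * 2 * 1 ^ 2 := by norm_num
        _ ≤ _ := by gcongr; exact hg 2 (by norm_num) (by norm_num)
    · calc 8 * 2 ^ (0 + 1 + 1) = 4 * 2 * 4 * 1 ^ 2 := by norm_num
        _ ≤ _ := by gcongr; exact hg 4 (by norm_num) (by norm_num)
    · have h9 : 8 ∣ 2 ^ (k + 1 + 1 + 1) := ⟨2 ^ k, by ring⟩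
      have h1 : 1 ≤ 2 ^ k := Nat.one_le_two_pow
      rw [if_pos h9]
      calc 8 * 2 ^ (k + 1 + 1 + 1) = 4 * 4 * 4 * (2 ^ k * 1) := by ring
        _ ≤ 4 * 4 * 4 * (2 ^ k * 2 ^ k) := by gcongr
        _ = 4 * 4 * 4 * (2 ^ k) ^ 2 := by ring
        _ ≤ _ := by
          gcongr
          · exact hg 4 (Dvd.dvd.trans (by norm_num) h9) (by norm_num)
          · exact xsrba_two k
  · rw [xsrba_odd hp hm]
    have h1 : 1 ≤ p ^ k := Nat.one_le_pow _ _ hp.pos
    have key : ∀ c g : ℕ, 8 * p ≤ c * 2 * g * m ^ 2 → c ≤ (if 5 ∣ p ^ (k + 1) then 5 else 4) →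
        g ≤ Nat.gcd (p ^ (k + 1)) 12 →
        8 * p ^ (k + 1) ≤ (if 5 ∣ p ^ (k + 1) then 5 else 4) *
          (if 8 ∣ p ^ (k + 1) then 4 else 2) * Nat.gcd (p ^ (k + 1)) 12 * (p ^ k * m) ^ 2 := by
      intro c g h hc hg'
      calc 8 * p ^ (k + 1) = 8 * p * (p ^ k * 1) := by ring
        _ ≤ c * 2 * g * m ^ 2 * (p ^ k * p ^ k) := by gcongr
        _ = c * 2 * g * (p ^ k * m) ^ 2 := by ring
        _ ≤ _ := by gcongr
    have hd : p ∣ p ^ (k + 1) := dvd_pow_self _ (Nat.succ_ne_zero _)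
    have h2 := hp.two_le
    by_cases m1 : m = 1
    · subst m1
      subst hm
      exact key 4 3 (by norm_num) h5 (hg 3 hd (by norm_num))
    by_cases m2 : m = 2
    · subst m2
      subst hm
      exact key 5 1 (by norm_num) (if_pos hd).ge (hg 1 (one_dvd _) (one_dvd _))
    · have m3 : 3 ≤ m := by omega
      exact key 4 1 (by nlinarith) h5 (hg 1 (one_dvd _) (one_dvd _))

theorem sq_count (r : ℕ) (hr : 0 < r) :
    8 * r ≤ (if 5 ∣ r then 5 else 4) * (if 8 ∣ r then 4 else 2) * Nat.gcd r 12 *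
      Nat.card (powMonoidHom 2 : (ZMod r)ˣ →* (ZMod r)ˣ).range ^ 2 := by
  change 8 * r ≤ _ * xsrbaS (ZMod r)ˣ ^ 2
  induction r using Nat.recOnPosPrimePosCoprime with
  | prime_pow p n hp hn =>
    obtain ⟨k, rfl⟩ : ∃ k, n = k + 1 := ⟨n - 1, by omega⟩
    exact xsrba_pp p k hp
  | zero => omega
  | one =>
    have := xsrba_pos 1 one_pos
    norm_num
    exact Nat.one_le_pow _ _ this
  | coprime a b ha hb hab iha ihb =>
    have h1 := Nat.mul_le_mul (iha (by omega)) (ihb (by omega))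
    have nb : ∀ q, 1 < q → ¬ (q ∣ a ∧ q ∣ b) := fun q hq h =>
      hq.ne' (Nat.eq_one_of_dvd_coprimes hab h.1 h.2)
    have e5 := xsrba_if 5 4 (Nat.Prime.dvd_mul (by norm_num : Nat.Prime 5)) (nb 5 (by norm_num))
    have e8 := xsrba_if (q := 8) 4 2 (a := a) (b := b)
      (hab.isPrimePow_dvd_mul (n := 8) ((isPrimePow_nat_iff 8).2 ⟨2, 3, by norm_num⟩))
      (nb 8 (by norm_num))
    rw [xsrba_mul hab, hab.mul_gcd]
    refine Nat.le_of_mul_le_mul_left (c := 4 * 2) ?_ (by norm_num)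
    generalize (if 5 ∣ a * b then 5 else 4) = x, (if 8 ∣ a * b then 4 else 2) = y,
      (if 5 ∣ a then 5 else 4) = x1, (if 8 ∣ a then 4 else 2) = y1,
      (if 5 ∣ b then 5 else 4) = x2, (if 8 ∣ b then 4 else 2) = y2 at *
    calc 4 * 2 * (8 * (a * b)) = 8 * a * (8 * b) := by ring
      _ ≤ _ := h1
      _ = (x1 * x2) * (y1 * y2) * (a.gcd 12 * b.gcd 12 *
          (xsrbaS (ZMod a)ˣ * xsrbaS (ZMod b)ˣ) ^ 2) := by ring
      _ = _ := by rw [e5, e8]; ring

end Pool.Agent.N9181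

end

section

namespace Pool.Agent.N9181

open scoped commutatorElement

theorem xsrbound_ns {r d : ℕ} (h13 : Nat.Coprime 13 r) (hd : d ∣ r)
    (h : ∀ x : ZMod d, x ^ 2 ≠ (13 : ℕ)) :
    ZMod.unitOfCoprime 13 h13 ∉ (powMonoidHom 2 : (ZMod r)ˣ →* (ZMod r)ˣ).range := by
  rintro ⟨u, hu⟩
  have h1 := congrArg (fun x : (ZMod r)ˣ => ZMod.castHom hd (ZMod d) x) hu
  simp only [powMonoidHom_apply, Units.val_pow_eq_pow_val, map_pow, ZMod.coe_unitOfCoprime,
    map_natCast] at h1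
  exact h _ h1

theorem rbound (r : ℕ) (hr : 0 < r) (h13 : Nat.Coprime 13 r) (G : Subgroup (ZMod r)ˣ)
    (hsq : ∀ u : (ZMod r)ˣ, u * u ∈ G) (h : ZMod.unitOfCoprime 13 h13 ∈ G) :
    r ≤ Nat.gcd r 12 * Nat.card G ^ 2 ∧ r ∣ 13 ^ Nat.card G - 1 ∧ (Nat.card G ≤ 2 → r ∣ 24) := by
  have : NeZero r := ⟨hr.ne'⟩
  have hpow : ∀ u ∈ G, u ^ Nat.card G = 1 := fun u hu =>
    congrArg Subtype.val (pow_card_eq_one' (x := (⟨u, hu⟩ : G)))
  have h2 : r ∣ 13 ^ Nat.card G - 1 := by
    refine (Nat.modEq_iff_dvd' (Nat.one_le_pow _ _ (by norm_num))).1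
      ((ZMod.natCast_eq_natCast_iff _ _ _).1 ?_)
    simpa using congrArg Units.val (hpow _ h).symm
  refine ⟨?_, h2, fun hc => ?_⟩
  · have h1 := sq_count r hr
    have hle : (powMonoidHom 2 : (ZMod r)ˣ →* (ZMod r)ˣ).range ≤ G := by
      rintro _ ⟨u, rfl⟩
      simpa [sq] using hsq u
    obtain ⟨k, hk⟩ := Subgroup.card_dvd_of_le hle
    have h0 : k ≠ 0 := by
      rintro rfl
      exact Nat.card_pos.ne' hk
    have h3 : 5 ∣ r ∨ 8 ∣ r → k ≠ 1 := by
      rintro h3 rfl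
      rw [← Subgroup.eq_of_le_of_card_ge hle (by rw [hk, mul_one])] at h
      rcases h3 with h3 | h3
      · exact xsrbound_ns h13 h3 (by decide) h
      · exact xsrbound_ns h13 h3 (by decide) h
    have h4 : (if 5 ∣ r then 5 else 4) * (if 8 ∣ r then 4 else 2) ≤ 8 * k ^ 2 := by
      have h5 : 2 ≤ k → 4 ≤ k ^ 2 := fun h => by nlinarith
      have h6 : 0 < k ^ 2 := by positivity
      split_ifs <;> omega
    rw [hk, mul_pow]
    generalize Nat.card (powMonoidHom 2 : (ZMod r)ˣ →* (ZMod r)ˣ).range ^ 2 = s at h1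
    have h5 := Nat.mul_le_mul_right (Nat.gcd r 12 * s) h4
    nlinarith
  · have h0 : 0 < Nat.card G := Nat.card_pos
    have h7 : ¬ 7 ∣ r := fun h7 => by
      obtain ⟨u, hu⟩ := ZMod.unitsMap_surjective h7 (ZMod.unitOfCoprime 3 (by norm_num))
      have h1 := congrArg (fun x => (ZMod.unitsMap h7 x : ZMod 7)) (hpow _ (hsq u))
      simp only [map_pow, map_mul, map_one, hu, Units.val_pow_eq_pow_val, Units.val_mul,
        ZMod.coe_unitOfCoprime, Units.val_one] at h1
      revert h1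
      interval_cases Nat.card G <;> decide
    refine ((Nat.Prime.coprime_iff_not_dvd (by norm_num)).2 h7).symm.dvd_of_dvd_mul_left
      (h2.trans ?_)
    interval_cases Nat.card G <;> norm_num

end Pool.Agent.N9181

end

section

namespace Pool.Agent.N9181

open scoped commutatorElement

theorem xscover_card {V : Type} [AddCommGroup V] [Module K V] [Module.Finite K V] :
    {v : V | v ≠ 0}.ncard = 13 ^ Module.finrank K V - 1 := by
  have : Finite V := Module.finite_of_finite K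
  have h1 : Nat.card V = 13 ^ Module.finrank K V := by
    rw [Module.natCard_eq_pow_finrank (K := K), Nat.card_zmod]
  have h2 : {v : V | v ≠ 0} = Set.univ \ {0} := by
    ext v
    simp
  rw [h2, Set.ncard_sdiff_singleton_of_mem (Set.mem_univ _), Set.ncard_univ, h1]

theorem cover {V : Type} [AddCommGroup V] [Module K V] [Module.Finite K V] {β : Type} (T : Finset β) (S : β → Set V) (μ : ℕ)
    (h : ∀ v : V, v ≠ 0 → μ ≤ {t | t ∈ T ∧ v ∈ S t}.ncard) :
    μ * (13 ^ Module.finrank K V - 1) ≤ ∑ t ∈ T, (S t).ncard := by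
  classical
  have : Finite V := Module.finite_of_finite K
  have : Fintype V := Fintype.ofFinite V
  have h1 : (Finset.univ.filter (fun v : V => v ≠ 0)).card = 13 ^ Module.finrank K V - 1 := by
    rw [← xscover_card, ← Set.ncard_coe_finset]
    congr 1
    ext v
    simp
  have h2 := Finset.sum_card_bipartiteAbove_eq_sum_card_bipartiteBelow
    (s := Finset.univ.filter (fun v : V => v ≠ 0)) (t := T) (fun v t => v ∈ S t)
  rw [← h1, mul_comm, ← smul_eq_mul, ← Finset.sum_const]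
  refine le_trans (Finset.sum_le_sum ?_) (le_trans h2.le (Finset.sum_le_sum ?_))
  · intro v hv
    refine le_trans (h v (Finset.mem_filter.1 hv).2) (le_of_eq ?_)
    rw [← Set.ncard_coe_finset]
    congr 1
    ext t
    simp
  · intro t _
    rw [← Set.ncard_coe_finset]
    refine Set.ncard_le_ncard ?_ (Set.toFinite _)
    intro v hv
    exact ((Finset.mem_bipartiteBelow _).1 hv).2

theorem ev_ncard {V : Type} [AddCommGroup V] [Module K V] [Module.Finite K V] (a : Module.End K V) (c : K) (k : ℕ) (h : ed a c ≤ k) :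
    {v : V | v ≠ 0 ∧ a v = c • v}.ncard ≤ 13 ^ k - 1 := by
  have : Finite V := Module.finite_of_finite K
  have h1 : ((a.eigenspace c : Submodule K V) : Set V).ncard = 13 ^ ed a c := by
    rw [← Nat.card_coe_set_eq]
    exact (card_sub (a.eigenspace c)).2
  have h2 : {v : V | v ≠ 0 ∧ a v = c • v} = ((a.eigenspace c : Submodule K V) : Set V) \ {0} := by
    ext v
    simp only [Set.mem_ofPred_eq, Set.mem_sdiff, SetLike.mem_coe, Set.mem_singleton_iff,
      Module.End.mem_eigenspace_iff]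
    exact and_comm
  rw [h2, Set.ncard_sdiff_singleton_of_mem (Submodule.zero_mem _), h1]
  exact Nat.sub_le_sub_right (Nat.pow_le_pow_right (by norm_num) h) 1

theorem xscover_union {V H : Type} [Finite V] [Finite H] (B : H → Set V) (k : ℕ)
    (h : ∀ s, (B s).ncard ≤ k) : (⋃ s, B s).ncard ≤ Nat.card H * k := by
  have : Fintype H := Fintype.ofFinite H
  refine le_trans (Set.ncard_iUnion_le_of_fintype B) ?_
  refine le_trans (Finset.sum_le_sum (fun s _ => h s)) ?_
  rw [Finset.sum_const, smul_eq_mul, Finset.card_univ, Nat.card_eq_fintype_card]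

theorem pos_cnt {V : Type} [AddCommGroup V] [Module K V] [Module.Finite K V]
    {H : Type} [Group H] [Finite H] (ρ : Representation K H V) (h : Nat.card H * 13 ^ (Module.finrank K V / 2) < 13 ^ Module.finrank K V - 1) : PP2 ρ := by
  have : Finite V := Module.finite_of_finite K
  let B : H → Set V := fun s => {v | (v ≠ 0 ∧ ρ s v = (3 : K) • v) ∧ ed (ρ s) 3 ≤ ed (ρ s) 9}
  have hB : ∀ s, (B s).ncard ≤ 13 ^ (Module.finrank K V / 2) - 1 := by
    intro s
    by_cases hs : ed (ρ s) 3 ≤ ed (ρ s) 9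
    · have h1 := ed_two ⊤ (ρ s) 3 9 (by decide)
      rw [edOn_top, edOn_top, finrank_top] at h1
      refine le_trans (Set.ncard_le_ncard ?_ (Set.toFinite _))
        (ev_ncard (ρ s) 3 (Module.finrank K V / 2) (by omega))
      intro v hv
      exact hv.1
    · have : B s = ∅ := by
        ext v
        exact ⟨fun hv => hs hv.2, fun hv => hv.elim⟩
      rw [this, Set.ncard_empty]
      exact Nat.zero_le _
  have hU := xscover_union B _ hB
  have hpos : 1 ≤ 13 ^ (Module.finrank K V / 2) := Nat.one_le_pow _ _ (by norm_num)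
  have hmul : Nat.card H * (13 ^ (Module.finrank K V / 2) - 1) + Nat.card H =
      Nat.card H * 13 ^ (Module.finrank K V / 2) := by
    rw [← Nat.mul_succ]
    congr 1
    omega
  have hG : Nat.card H < ({v : V | v ≠ 0} \ ⋃ s, B s).ncard := by
    have h1 := Set.le_ncard_sdiff (⋃ s, B s) {v : V | v ≠ 0} (Set.toFinite _)
    rw [xscover_card] at h1
    omega
  have good : ∀ r ∈ ({v : V | v ≠ 0} \ ⋃ s, B s), r ≠ 0 ∧ Pos ρ r 1 := by
    intro r hr
    refine ⟨hr.1, fun s n _ hs => ?_⟩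
    by_contra hc
    exact hr.2 (Set.mem_iUnion.2 ⟨s, ⟨hr.1, hs⟩, by omega⟩)
  obtain ⟨r, hr⟩ := Set.nonempty_of_ncard_ne_zero (s := {v : V | v ≠ 0} \ ⋃ s, B s) (by omega)
  have hO : (Set.range (fun k : H => ρ k⁻¹ ((3 : K) • r))).ncard ≤ Nat.card H := by
    rw [← Set.image_univ, ← Set.ncard_univ]
    exact Set.ncard_image_le (Set.toFinite _)
  obtain ⟨r', hr', hn⟩ := Set.exists_mem_notMem_of_ncard_lt_ncard (lt_of_le_of_lt hO hG)
    (Set.toFinite _)
  refine ⟨r, r', (good r hr).1, (good r' hr').1, ?_, (good r hr).2, (good r' hr').2⟩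
  intro k hk
  exact hn ⟨k, by rw [← hk]; exact rho_inv ρ k r'⟩

end Pool.Agent.N9181

end

section

namespace Pool.Agent.N9181

open scoped commutatorElement

theorem xshall3a_ab {G : Type} [Group G] [Finite G] (Z L H : Subgroup G) [hZ : Z.Normal]
    (hp : IsPGroup 3 Z) (hc : ∀ a ∈ Z, ∀ b ∈ Z, a * b = b * a) (hi : ∀ x ∈ L, x ∈ Z → x = 1)
    (hd : ∀ h ∈ H, ∃ z ∈ Z, z⁻¹ * h ∈ L) (hH : ¬ 3 ∣ Nat.card H) :
    ∃ x ∈ Z, ∀ h ∈ H, x * h * x⁻¹ ∈ L := by
  choose c c1 c2 using fun h : H => hd h h.2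
  have hu : ∀ (g : G), ∀ z ∈ Z, ∀ z' ∈ Z, z⁻¹ * g ∈ L → z'⁻¹ * g ∈ L → z = z' := by
    intro g z hz z' hz' h1 h2
    have h3 := L.mul_mem h1 (L.inv_mem h2)
    rw [mul_inv_rev, inv_inv, mul_assoc, mul_inv_cancel_left] at h3
    exact inv_mul_eq_one.1 (hi _ h3 (Z.mul_mem (Z.inv_mem hz) hz'))
  have : Fact (Nat.Prime 3) := ⟨Nat.prime_three⟩
  obtain ⟨k, hk⟩ := IsPGroup.iff_card.1 hp
  let _ : CommGroup Z := { (inferInstance : Group Z) with
    mul_comm := fun a b => Subtype.ext (hc a a.2 b b.2) }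
  obtain ⟨w, hw⟩ := xqhalla_coc (A := Z) (H := H)
    (fun h => (MulAut.conjNormal (h : G) : MulAut Z).toMonoidHom) (fun h => ⟨c h, c1 h⟩)
    (fun h h' => Subtype.ext (hu _ _ (c1 _) _ (Subtype.prop _) (c2 _) (by
      have h1 := L.mul_mem (c2 h) (c2 h')
      change ((h : G) * c h' * (h : G)⁻¹ * c h)⁻¹ * (h * h') ∈ L
      convert h1 using 1
      group)))
    (by rw [hk]; exact ((Nat.Prime.coprime_iff_not_dvd Nat.prime_three).2 hH).pow_left k)
  refine ⟨w⁻¹, Z.inv_mem w.2, fun h hh => ?_⟩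
  have h1 : h * w * h⁻¹ * c ⟨h, hh⟩ = w := congrArg Subtype.val (hw ⟨h, hh⟩)
  have h2 : (c ⟨h, hh⟩)⁻¹ * h ∈ L := c2 ⟨h, hh⟩
  rw [hc _ (hZ.conj_mem _ w.2 h) _ (c1 _)] at h1
  have h3 : c ⟨h, hh⟩ = w * (h * w * h⁻¹)⁻¹ := eq_mul_inv_of_mul_eq h1
  rw [h3, mul_inv_rev, inv_inv, hc _ (hZ.conj_mem _ w.2 h) _ (Z.inv_mem w.2)] at h2
  convert h2 using 1
  group

theorem xshall3a_ind (n : ℕ) : ∀ (G : Type) [Group G] [Finite G] (Q L H : Subgroup G),
    Nat.card G = n → Q.Normal → IsPGroup 3 Q → (∀ x ∈ L, x ∈ Q → x = 1) →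
    (∀ g : G, ∃ q ∈ Q, ∃ l ∈ L, g = q * l) → ¬ 3 ∣ Nat.card H →
    ∃ x ∈ Q, ∀ h ∈ H, x * h * x⁻¹ ∈ L := by
  induction n using Nat.strong_induction_on with
  | _ n ih =>
  intro G _ _ Q L H hn hQ hp hi hd hH
  rcases subsingleton_or_nontrivial Q with hs | hs
  · refine ⟨1, Q.one_mem, fun h _ => ?_⟩
    obtain ⟨q, hq, l, hl, e⟩ := hd h
    have h1 : q = 1 := congrArg Subtype.val (Subsingleton.elim (⟨q, hq⟩ : Q) 1)
    rwa [e, h1, one_mul, one_mul, inv_one, mul_one]
  let Z : Subgroup G := (Subgroup.center Q).map Q.subtype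
  have hZQ : Z ≤ Q := Subgroup.map_subtype_le _
  have hZ : 1 < Nat.card Z := by
    have : Fact (Nat.Prime 3) := ⟨Nat.prime_three⟩
    have := hp.center_nontrivial
    rw [Subgroup.card_map_of_injective Q.subtype_injective]
    exact Finite.one_lt_card
  let π := QuotientGroup.mk' Z
  have hπ : Function.Surjective π := QuotientGroup.mk'_surjective Z
  obtain ⟨_, ⟨x, hx, rfl⟩, h1⟩ := ih (Nat.card (G ⧸ Z)) (by
      rw [← hn, Subgroup.card_eq_card_quotient_mul_card_subgroup Z]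
      exact lt_mul_of_one_lt_right Nat.card_pos hZ) (G ⧸ Z) (Q.map π) (L.map π) (H.map π) rfl
    (hQ.map π hπ) (hp.map π) (by
      rintro _ ⟨l, hl, rfl⟩ ⟨q, hq, e⟩
      have h1 : q⁻¹ * l ∈ Z := QuotientGroup.eq.1 e
      have h2 := Q.mul_mem hq (hZQ h1)
      rw [mul_inv_cancel_left] at h2
      rw [hi l hl h2, map_one])
    (fun g => by
      obtain ⟨g, rfl⟩ := hπ g
      obtain ⟨q, hq, l, hl, e⟩ := hd g
      exact ⟨π q, ⟨q, hq, rfl⟩, π l, ⟨l, hl, rfl⟩, by rw [e, map_mul]⟩)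
    fun h => hH (h.trans (Subgroup.card_map_dvd H π))
  obtain ⟨y, hy, h2⟩ := xshall3a_ab Z L (H.map (MulAut.conj x).toMonoidHom) (hp.to_le hZQ)
    (by
      rintro _ ⟨a, ha, rfl⟩ _ ⟨b, -, rfl⟩
      exact congrArg Subtype.val (Subgroup.mem_center_iff.1 ha b).symm)
    (fun z hz hz' => hi z hz (hZQ hz'))
    (by
      rintro _ ⟨h, hh, rfl⟩
      obtain ⟨l, hl, e⟩ := h1 (π h) ⟨h, hh, rfl⟩
      rw [← map_mul, ← map_inv, ← map_mul] at e
      refine ⟨x * h * x⁻¹ * l⁻¹, ?_, ?_⟩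
      · rw [← QuotientGroup.eq_one_iff]
        change π _ = 1
        rw [map_mul, ← e, map_inv, mul_inv_cancel]
      · change (x * h * x⁻¹ * l⁻¹)⁻¹ * (x * h * x⁻¹) ∈ L
        rwa [mul_inv_rev, inv_inv, inv_mul_cancel_right])
    fun h => hH (h.trans (Subgroup.card_map_dvd H _))
  refine ⟨y * x, Q.mul_mem (hZQ hy) hx, fun h hh => ?_⟩
  have h3 : y * (x * h * x⁻¹) * y⁻¹ ∈ L := h2 _ ⟨h, hh, rfl⟩
  convert h3 using 1
  group

theorem compl_conj3 {G : Type} [Group G] [Finite G] (Q L H : Subgroup G) (hQ : Q.Normal) (hp : IsPGroup 3 Q)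
    (hi : ∀ x ∈ L, x ∈ Q → x = 1) (hd : ∀ g : G, ∃ q ∈ Q, ∃ l ∈ L, g = q * l)
    (hH : ¬ 3 ∣ Nat.card H) : ∃ x ∈ Q, ∀ h ∈ H, x * h * x⁻¹ ∈ L := by
  exact xshall3a_ind _ G Q L H rfl hQ hp hi hd hH

end Pool.Agent.N9181

end

section

namespace Pool.Agent.N9181

open scoped commutatorElement

theorem xshall3b_ind (n : ℕ) : ∀ (G : Type) [Group G] [Finite G] [Group.IsSolvable G],
    Nat.card G = n → ∃ J : Subgroup G, ¬ 3 ∣ Nat.card J ∧ (∃ a : ℕ, J.index = 3 ^ a) ∧
      ∀ H : Subgroup G, ¬ 3 ∣ Nat.card H → ∃ x : G, ∀ h ∈ H, x * h * x⁻¹ ∈ J := by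
  induction n using Nat.strong_induction_on with
  | _ n ih =>
  intro G _ _ _ hn
  by_cases h0 : (⊤ : Subgroup G) = ⊥
  · refine ⟨⊤, ?_, ⟨0, Subgroup.index_top⟩, fun _ _ => ⟨1, fun _ _ => trivial⟩⟩
    rw [h0, Subgroup.card_bot]
    norm_num
  obtain ⟨B, p, hB, -, hne, hp, -, hpw, -⟩ := exists_min (⊤ : Subgroup G) inferInstance h0
  have : Fact p.Prime := ⟨hp⟩
  let π := QuotientGroup.mk' B
  have hπ : Function.Surjective π := QuotientGroup.mk'_surjective B
  obtain ⟨J₀, j1, ⟨a, j2⟩, j3⟩ := ih (Nat.card (G ⧸ B)) (by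
      rw [← hn, Subgroup.card_eq_card_quotient_mul_card_subgroup B]
      exact lt_mul_of_one_lt_right Nat.card_pos (B.one_lt_card_iff_ne_bot.2 hne)) (G ⧸ B) rfl
  have i1 : (J₀.comap π).index = 3 ^ a := (J₀.index_comap_of_surjective hπ).trans j2
  have i2 : (B.subgroupOf (J₀.comap π)).index = Nat.card J₀ := by
    have h := Subgroup.relIndex_ker (J₀.comap π) π
    rwa [QuotientGroup.ker_mk', Subgroup.map_comap_eq_self_of_surjective hπ] at h
  have hP : IsPGroup p (B.subgroupOf (J₀.comap π)) := fun g =>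
    ⟨1, Subtype.ext (Subtype.ext (by rw [pow_one]; exact hpw _ g.2))⟩
  obtain ⟨k, hk⟩ := IsPGroup.iff_card.1 hP
  have i3 : ∀ H : Subgroup G, ¬ 3 ∣ Nat.card H → ∃ x : G, ∀ h ∈ H, x * h * x⁻¹ ∈ J₀.comap π := by
    intro H hH
    obtain ⟨y, hy⟩ := j3 (H.map π) fun h => hH (h.trans (Subgroup.card_map_dvd H π))
    obtain ⟨x, rfl⟩ := hπ y
    refine ⟨x, fun h hh => ?_⟩
    change π (x * h * x⁻¹) ∈ J₀
    rw [map_mul, map_mul, map_inv]
    exact hy _ ⟨h, hh, rfl⟩
  by_cases h3 : p = 3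
  swap
  · refine ⟨J₀.comap π, fun h => ?_, ⟨a, i1⟩, i3⟩
    rw [← (B.subgroupOf (J₀.comap π)).index_mul_card, i2, hk] at h
    rcases (Nat.Prime.dvd_mul Nat.prime_three).1 h with h | h
    · exact j1 h
    · exact h3 ((Nat.prime_dvd_prime_iff_eq Nat.prime_three hp).1
        (Nat.prime_three.dvd_of_dvd_pow h)).symm
  subst h3
  obtain ⟨L, hL⟩ := Subgroup.exists_right_complement'_of_coprime
    (N := B.subgroupOf (J₀.comap π)) (by
      rw [hk, i2]
      exact Nat.Coprime.pow_left k ((Nat.Prime.coprime_iff_not_dvd hp).2 j1))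
  refine ⟨L.map (J₀.comap π).subtype, ?_, ⟨k + a, ?_⟩, fun H hH => ?_⟩
  · rwa [Subgroup.card_map_of_injective (J₀.comap π).subtype_injective, ← hL.symm.index_eq_card,
      i2]
  · rw [Subgroup.index_map_subtype, hL.index_eq_card, hk, i1, pow_add]
  · obtain ⟨x, hx⟩ := i3 H hH
    obtain ⟨y, -, hy⟩ := compl_conj3 (B.subgroupOf (J₀.comap π)) L
      ((H.map (MulAut.conj x).toMonoidHom).subgroupOf (J₀.comap π)) inferInstance hP
      (fun z h1 h2 => Subgroup.disjoint_def.1 hL.disjoint h2 h1)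
      (fun g => by
        obtain ⟨⟨q, l⟩, e⟩ := hL.2 g
        exact ⟨q, q.2, l, l.2, e.symm⟩)
      fun h => hH ((h.trans (Subgroup.card_comap_dvd_of_injective _ _
        (J₀.comap π).subtype_injective)).trans (Subgroup.card_map_dvd H _))
    refine ⟨y * x, fun h hh => ⟨_, hy ⟨x * h * x⁻¹, hx h hh⟩ ⟨h, hh, rfl⟩, ?_⟩⟩
    change (y : G) * (x * h * x⁻¹) * (y : G)⁻¹ = _
    group

theorem hall3 (G : Type) [Group G] [Finite G] [Group.IsSolvable G] :
    ∃ J : Subgroup G, ¬ 3 ∣ Nat.card J ∧ (∃ a : ℕ, J.index = 3 ^ a) ∧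
      ∀ H : Subgroup G, ¬ 3 ∣ Nat.card H → ∃ x : G, ∀ h ∈ H, x * h * x⁻¹ ∈ J := by
  exact xshall3b_ind _ G rfl

end Pool.Agent.N9181

end

section

namespace Pool.Agent.N9181

open scoped commutatorElement

theorem xsm3a_card {H : Type} [Group H] {J C : Subgroup H} (h : J ≤ C) :
    Nat.card J * J.relIndex C = Nat.card C := by
  rw [← Nat.card_congr (Subgroup.subgroupOfEquivOfLe h).toEquiv]
  exact (J.subgroupOf C).card_mul_index

theorem xsm3a_mem {H : Type} [Group H] (J : Subgroup H) (c y : H) :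
    y ∈ J.map (MulAut.conj c⁻¹).toMonoidHom ↔ c * y * c⁻¹ ∈ J := by
  rw [Subgroup.mem_map_equiv, MulAut.conj_symm_apply, inv_inv]

theorem xsm3a_core {H : Type} [Group H] [Finite H] [Group.IsSolvable H] {J C : Subgroup H}
    (h : M3 J C) : (∃ a : ℕ, Nat.card J * 3 ^ a = Nat.card C) ∧
      ∀ J' : Subgroup H, J' ≤ C → ¬ 3 ∣ Nat.card J' → ∃ c ∈ C, ∀ y ∈ J', c * y * c⁻¹ ∈ J := by
  obtain ⟨J1, h1, ⟨a, ha⟩, h2⟩ := hall3 C
  have e1 : Nat.card (J1.map C.subtype) = Nat.card J1 :=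
    Subgroup.card_map_of_injective C.subtype_injective
  have h3 : ∀ J' : Subgroup H, J' ≤ C → ¬ 3 ∣ Nat.card J' →
      ∃ c ∈ C, ∀ y ∈ J', c * y * c⁻¹ ∈ J1.map C.subtype := by
    intro J' l n
    obtain ⟨x, hx⟩ := h2 (J'.subgroupOf C)
      (by rwa [Nat.card_congr (Subgroup.subgroupOfEquivOfLe l).toEquiv])
    exact ⟨x, x.2, fun y hy => ⟨_, hx ⟨y, l hy⟩ hy, rfl⟩⟩
  obtain ⟨c, hc, h4⟩ := h3 J h.1 h.2.1
  have e2 : Nat.card ((J1.map C.subtype).map (MulAut.conj c⁻¹).toMonoidHom) = Nat.card J1 :=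
    (Subgroup.card_map_of_injective (MulAut.conj c⁻¹).injective).trans e1
  have e3 : (J1.map C.subtype).map (MulAut.conj c⁻¹).toMonoidHom = J := by
    refine h.2.2 _ (fun y hy => (xsm3a_mem _ c y).2 (h4 y hy)) (fun y hy => ?_) (by rwa [e2])
    have := C.mul_mem (C.mul_mem (C.inv_mem hc)
      (Subgroup.map_subtype_le J1 ((xsm3a_mem _ c y).1 hy))) hc
    simpa [mul_assoc] using this
  refine ⟨⟨a, by rw [← e3, e2, ← ha, J1.card_mul_index]⟩, fun J' l n => ?_⟩
  obtain ⟨c', hc', h5⟩ := h3 J' l n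
  refine ⟨c⁻¹ * c', C.mul_mem (C.inv_mem hc) hc', fun y hy => ?_⟩
  rw [← e3, xsm3a_mem]
  simpa [mul_assoc] using h5 y hy

theorem sup_three {H : Type} [Group H] [Finite H] (J J0 : Subgroup H) (h : ¬ 3 ∣ Nat.card J) (h0 : ¬ 3 ∣ Nat.card J0)
    (hn : J0 ≤ Subgroup.normalizer (J : Set H)) : ¬ 3 ∣ Nat.card (J ⊔ J0 : Subgroup H) := by
  have hN : (J.subgroupOf (J ⊔ J0)).Normal :=
    (Subgroup.normal_subgroupOf_iff_le_normalizer le_sup_left).2
      (sup_le Subgroup.le_normalizer hn)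
  have e : J.relIndex (J ⊔ J0) = J.relIndex J0 := by
    rw [← Subgroup.relIndex_subgroupOf (le_refl (J ⊔ J0)),
      Subgroup.subgroupOf_sup le_sup_left le_sup_right, Subgroup.relIndex_sup_left,
      Subgroup.relIndex_subgroupOf le_sup_right]
  rw [← xsm3a_card (le_sup_left : J ≤ J ⊔ J0), e, Nat.Prime.dvd_mul Nat.prime_three]
  rintro (a | a)
  · exact h a
  · exact h0 (a.trans (J.relIndex_dvd_card J0))

theorem m3_exists {H : Type} [Group H] [Finite H] (J0 C : Subgroup H) (hle : J0 ≤ C) (h3 : ¬ 3 ∣ Nat.card J0) :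
    ∃ J : Subgroup H, J0 ≤ J ∧ M3 J C := by
  obtain ⟨J, h1, h2⟩ := Finite.exists_le_maximal
    (p := fun J : Subgroup H => J ≤ C ∧ ¬ 3 ∣ Nat.card J) ⟨hle, h3⟩
  exact ⟨J, h1, h2.1.1, h2.1.2, fun J' a b c => le_antisymm (h2.2 ⟨b, c⟩ a) a⟩

theorem m3_sub {H : Type} [Group H] [Finite H] (J C C' : Subgroup H) (h : M3 J C) (h1 : J ≤ C') (h2 : C' ≤ C) :
    M3 J C' := by
  exact ⟨h1, h.2.1, fun J' a b c => h.2.2 J' a (b.trans h2) c⟩

theorem m3_inj {H : Type} [Group H] [Finite H] {H' : Type} [Group H'] [Finite H'] (f : H →* H')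
    (hf : Function.Injective f) (J C : Subgroup H) : M3 (J.map f) (C.map f) ↔ M3 J C := by
  constructor
  · rintro ⟨h1, h2, h3⟩
    rw [Subgroup.card_map_of_injective hf] at h2
    refine ⟨(Subgroup.map_le_map_iff_of_injective hf).1 h1, h2, fun J' a b c => ?_⟩
    exact Subgroup.map_injective hf (h3 _ (Subgroup.map_mono a) (Subgroup.map_mono b)
      (by rwa [Subgroup.card_map_of_injective hf]))
  · rintro ⟨h1, h2, h3⟩
    refine ⟨Subgroup.map_mono h1, by rwa [Subgroup.card_map_of_injective hf],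
      fun J' a b c => ?_⟩
    have e : (J'.comap f).map f = J' :=
      Subgroup.map_comap_eq_self (b.trans (Subgroup.map_le_range f C))
    rw [← e] at b c ⊢
    rw [Subgroup.card_map_of_injective hf] at c
    rw [h3 _ (Subgroup.map_le_iff_le_comap.1 a)
      ((Subgroup.map_le_map_iff_of_injective hf).1 b) c]

theorem m3_conj {H : Type} [Group H] [Finite H] (J C : Subgroup H) (h : M3 J C) (g : H) :
    M3 (J.map (MulAut.conj g).toMonoidHom) (C.map (MulAut.conj g).toMonoidHom) := by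
  exact (m3_inj _ (MulAut.conj g).injective J C).2 h

theorem m3_cc {H : Type} [Group H] [Finite H] [Group.IsSolvable H] (J J' C : Subgroup H) (h : M3 J C) (h1 : J' ≤ C)
    (h3 : ¬ 3 ∣ Nat.card J') : ∃ c ∈ C, ∀ y ∈ J', c * y * c⁻¹ ∈ J := by
  exact (xsm3a_core h).2 J' h1 h3

theorem m3_index {H : Type} [Group H] [Finite H] [Group.IsSolvable H] (J C : Subgroup H) (h : M3 J C) : ∃ a : ℕ, J.relIndex C = 3 ^ a := by
  obtain ⟨a, ha⟩ := (xsm3a_core h).1
  exact ⟨a, Nat.eq_of_mul_eq_mul_left Nat.card_pos ((xsm3a_card h.1).trans ha.symm)⟩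

theorem m3_le_card {H : Type} [Group H] [Finite H] [Group.IsSolvable H] (J J' C : Subgroup H) (h : M3 J C) (h1 : J' ≤ C)
    (h3 : ¬ 3 ∣ Nat.card J') : Nat.card J' ≤ Nat.card J := by
  obtain ⟨c, -, hc⟩ := m3_cc J J' C h h1 h3
  refine Nat.card_le_card_of_injective (fun y : J' => (⟨c * y * c⁻¹, hc y y.2⟩ : J))
    fun y y' e => Subtype.ext ?_
  simpa using e

theorem m3_of_card {H : Type} [Group H] [Finite H] [Group.IsSolvable H] (J J' C : Subgroup H) (h : M3 J C) (h1 : J' ≤ C)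
    (h3 : ¬ 3 ∣ Nat.card J') (hc : Nat.card J ≤ Nat.card J') : M3 J' C := by
  exact ⟨h1, h3, fun J'' a b c =>
    (Subgroup.eq_of_le_of_card_ge a ((m3_le_card J J'' C h b c).trans hc)).symm⟩

theorem m3_normal {H : Type} [Group H] [Finite H] (J J0 C : Subgroup H) (h : M3 J C) (h1 : J0 ≤ C)
    (h3 : ¬ 3 ∣ Nat.card J0) (hn : J ≤ Subgroup.normalizer (J0 : Set H) ∨ J0 ≤ Subgroup.normalizer (J : Set H)) : J0 ≤ J := by
  have : ¬ 3 ∣ Nat.card (J ⊔ J0 : Subgroup H) := by
    rcases hn with hn | hn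
    · rw [sup_comm]
      exact sup_three J0 J h3 h.2.1 hn
    · exact sup_three J J0 h.2.1 h3 hn
  exact le_sup_right.trans (h.2.2 _ le_sup_left (sup_le h.1 h1) this).le

theorem m3_norm {H : Type} [Group H] [Finite H] (J C : Subgroup H) (h : M3 J C) (y : H) (hy : y ∈ C)
    (hn : y ∈ Subgroup.normalizer (J : Set H)) (h3 : ¬ 3 ∣ orderOf y) : y ∈ J := by
  exact m3_normal J (Subgroup.zpowers y) C h (Subgroup.zpowers_le.2 hy)
    (by rwa [Nat.card_zpowers]) (Or.inr (Subgroup.zpowers_le.2 hn)) (Subgroup.mem_zpowers y)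

theorem m3_frat {H : Type} [Group H] [Finite H] [Group.IsSolvable H] (J C : Subgroup H) (h : M3 J C) (g : H) (hg : g ∈ Subgroup.normalizer (C : Set H)) :
    ∃ c ∈ C, g * c ∈ Subgroup.normalizer (J : Set H) := by
  have h1 := m3_conj J C h g⁻¹
  have e : C.map (MulAut.conj g⁻¹).toMonoidHom = C := by
    ext y
    rw [xsm3a_mem]
    exact (Subgroup.mem_normalizer_iff.1 hg y).symm
  rw [e] at h1
  obtain ⟨c, hc, h2⟩ := m3_cc _ J C h1 h.1 h.2.1
  refine ⟨c, hc, Subgroup.mem_normalizer_fintype fun y hy => ?_⟩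
  have := (xsm3a_mem _ _ _).1 (h2 y hy)
  simpa [mul_assoc] using this

theorem m3_lift {H : Type} [Group H] [Finite H] [Group.IsSolvable H] {H' : Type} [Group H'] [Finite H'] (π : H →* H')
    (hπ : Function.Surjective π) (J' C' : Subgroup H') (h : M3 J' C') :
    ∃ J : Subgroup H, M3 J (C'.comap π) ∧ M3 J (J'.comap π) ∧ J.map π = J' := by
  obtain ⟨J, -, hJ⟩ := m3_exists ⊥ (J'.comap π) bot_le (by simp)
  obtain ⟨a, ha⟩ := m3_index J _ hJ
  have e : J.map π = J' := by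
    refine le_antisymm (Subgroup.map_le_iff_le_comap.2 hJ.1) (Subgroup.relIndex_eq_one.1 ?_)
    have d1 : (J.map π).relIndex J' ∣ 3 ^ a := by
      conv_lhs => rw [← Subgroup.map_comap_eq_self_of_surjective hπ J']
      rw [Subgroup.relIndex_map_map, sup_eq_left.2 (Subgroup.ker_le_comap π J'), ← ha]
      exact Subgroup.relIndex_dvd_of_le_left _ le_sup_left
    exact Nat.eq_one_of_dvd_coprimes
      (((Nat.Prime.coprime_iff_not_dvd Nat.prime_three).2 h.2.1).pow_left a) d1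
      (Subgroup.relIndex_dvd_card _ _)
  refine ⟨J, ⟨hJ.1.trans (Subgroup.comap_mono h.1), hJ.2.1, fun J1 b c d => ?_⟩, hJ, e⟩
  refine hJ.2.2 J1 b (Subgroup.map_le_iff_le_comap.1 (h.2.2 _ ?_ ?_ ?_).le) d
  · rw [← e]
    exact Subgroup.map_mono b
  · exact Subgroup.map_le_iff_le_comap.2 c
  · exact fun x => d (x.trans (J1.card_map_dvd π))

end Pool.Agent.N9181

end

section

namespace Pool.Agent.N9181

open scoped commutatorElement

theorem fratU {V : Type} [AddCommGroup V] [Module K V] [Module.Finite K V]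
    {H : Type} [Group H] [Finite H] [Group.IsSolvable H] (ρ : Representation K H V) (w : V) (J : Subgroup H) (hJ : M3 J (stabV ρ w)) (U : Submodule K V) (hw : w ∈ U) (hU : U ≤ fixS ρ J) (g : H)
    (hg : ∀ u ∈ U, ρ g u ∈ U) : ∃ y ∈ Subgroup.normalizer (J : Set H), ∀ u ∈ U, ρ y u = ρ g u := by
  have h1 : J ≤ stabU ρ U := fun y hy u hu => hU hu y hy
  have h2 : g⁻¹ ∈ Subgroup.normalizer (stabU ρ U : Set H) :=
    Subgroup.mem_normalizer_fintype fun n hn => show _ ∈ stabU ρ U from fun u hu => by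
      rw [inv_inv, rho_mul, rho_mul, hn _ (hg u hu), rho_inv]
  obtain ⟨c, hc, h3⟩ := m3_frat J (stabU ρ U) (m3_sub J _ _ hJ h1 fun y hy => hy w hw) g
    (inv_mem_iff.1 h2)
  exact ⟨g * c, h3, fun u hu => by rw [rho_mul, hc u hu]⟩

theorem exists_val {V : Type} [AddCommGroup V] [Module K V] [Module.Finite K V]
    {H : Type} [Group H] [Finite H] [Group.IsSolvable H] (ρ : Representation K H V) (hE5 : HEP ρ 5) (w : V) (J : Subgroup H) (hJ : M3 J (stabV ρ w)) : ∃ y : H, Val ρ J w y := by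
  obtain ⟨g, hg⟩ := hE5 w
  have hw := Submodule.mem_span_singleton_self (R := K) w
  obtain ⟨y, hy, h⟩ := fratU ρ w J hJ (Submodule.span K {w}) hw
    ((Submodule.span_singleton_le_iff_mem _ _).2 fun y hy => hJ.1 hy) g
    ((Submodule.span_singleton_le_iff_mem w ((Submodule.span K {w}).comap (ρ g))).2
      (show ρ g w ∈ _ from hg ▸ Submodule.smul_mem _ _ hw))
  obtain ⟨e, a, h1, h2⟩ := eig_ppart ρ 2 Nat.prime_two y
  exact ⟨y ^ e, pow_mem hy e, ⟨a, h1⟩, h2 w 5 2 (by rw [h w hw, hg]) (by decide)⟩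

theorem val_pow4 {V : Type} [AddCommGroup V] [Module K V] [Module.Finite K V]
    {H : Type} [Group H] [Finite H] (ρ : Representation K H V) (w : V) (J : Subgroup H) (hJ : M3 J (stabV ρ w)) (y : H) (hy : Val ρ J w y) : y ^ 4 ∈ J := by
  obtain ⟨h1, ⟨a, h2⟩, h3⟩ := hy
  refine m3_norm J _ hJ _ ?_ (pow_mem h1 4) fun h => ?_
  · rw [mem_stabV, rho_pow_eig ρ y w 5 h3, show (5 : K) ^ 4 = 1 by decide, one_smul]
  · have h4 : orderOf (y ^ 4) ∣ 2 ^ a := (orderOf_pow_dvd 4).trans (orderOf_dvd_of_pow_eq_one h2)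
    exact absurd (Nat.prime_three.dvd_of_dvd_pow (h.trans h4)) (by decide)

theorem partner {V : Type} [AddCommGroup V] [Module K V] [Module.Finite K V]
    {H : Type} [Group H] [Finite H] [Group.IsSolvable H] (ρ : Representation K H V) (w : V) (J : Subgroup H) (hJ : M3 J (stabV ρ w)) (y : H) (hy : Val ρ J w y) (u : V) (hu : u ∈ fixS ρ J) (h0 : u ≠ 0)
    (hyu : ρ y u = (8 : K) • u) (g : H) (hg : ρ g w = (5 : K) • w) : ρ g u ≠ (5 : K) • u := by
  intro hgu
  have hw : w ∈ Submodule.span K {w, u} := Submodule.subset_span (by simp)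
  have hu' : u ∈ Submodule.span K {w, u} := Submodule.subset_span (by simp)
  have ule : ∀ P : Submodule K V, w ∈ P → u ∈ P → Submodule.span K {w, u} ≤ P := by
    intro P h1 h2
    refine Submodule.span_le.2 ?_
    rintro _ (rfl | rfl) <;> assumption
  obtain ⟨y', hy', h⟩ := fratU ρ w J hJ _ hw (ule _ (fun y hy => hJ.1 hy) hu) g
    (ule ((Submodule.span K {w, u}).comap (ρ g))
      (show ρ g w ∈ _ from hg ▸ Submodule.smul_mem _ _ hw)
      (show ρ g u ∈ _ from hgu ▸ Submodule.smul_mem _ _ hu'))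
  obtain ⟨h1, -, h3⟩ := hy
  have xw : ρ (y⁻¹ * y') w = (1 : K) • w := by
    rw [rho_mul, h w hw, hg, ← h3, rho_inv, one_smul]
  have xu : ρ (y⁻¹ * y') u = (-1 : K) • u := by
    rw [rho_mul, h u hu', hgu, show (5 : K) = -1 * 8 by decide, mul_smul, ← hyu, map_smul,
      rho_inv]
  obtain ⟨e, h4, h5⟩ := eig_qpart ρ 3 Nat.prime_three (y⁻¹ * y')
  have h6 := m3_norm J _ hJ ((y⁻¹ * y') ^ e)
    (by rw [mem_stabV, h5 w 1 1 xw (by decide) (by decide), one_smul])
    (pow_mem (mul_mem (inv_mem h1) hy') e) h4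
  have h7 := h5 u (-1) 2 xu (by decide) (by decide)
  rw [hu _ h6] at h7
  have h8 : (2 : K) • u = 0 := by linear_combination (norm := module) h7
  exact h0 ((smul_eq_zero.1 h8).resolve_left (by decide))

theorem m3_move {V : Type} [AddCommGroup V] [Module K V] [Module.Finite K V]
    {H : Type} [Group H] [Finite H] [Group.IsSolvable H] (ρ : Representation K H V) (w : V) (J : Subgroup H) (hJ : M3 J (stabV ρ w)) (u : V) (hu : u ∈ fixS ρ J) (g : H) (c : K) (hc : c ≠ 0)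
    (hg : ρ g w = c • u) : M3 J (stabV ρ u) := by
  have h1 : (stabV ρ w).map (MulAut.conj g).toMonoidHom = stabV ρ u := by
    ext x
    rw [Subgroup.mem_map_equiv, MulAut.conj_symm_apply, mem_stabV, mem_stabV, rho_mul, rho_mul,
      hg, map_smul]
    constructor
    · intro h
      have := congrArg (ρ g) h
      rw [rho_inv', hg] at this
      exact smul_right_injective V hc this
    · intro h
      rw [h, ← hg, rho_inv]
  have h2 := m3_conj J _ hJ g
  rw [h1] at h2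
  refine m3_of_card _ J _ h2 (fun y hy => hu y hy) hJ.2.1 (le_of_eq ?_)
  exact Subgroup.card_map_of_injective (MulAut.conj g).injective

end Pool.Agent.N9181

end
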