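import Pool.Agent.Mg.F9181f8.G01f10b
import Mathlib

section

namespace Pool.Agent.N9181

open scoped commutatorElement

theorem xind_surj {V : Type} [AddCommGroup V] [Module K V] [Module.Finite K V]
    (W : Submodule K V) (f : Module.End K V) (hf : ∀ v, f v = 0 → v = 0)
    (hW : ∀ w ∈ W, f w ∈ W) : ∀ w ∈ W, ∃ w' ∈ W, f w' = w := by
  intro w hw
  have hinj : Function.Injective (f.restrict hW) := by
    rw [injective_iff_map_eq_zero]
    intro u hu
    apply Subtype.ext
    apply hf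
    have := congrArg Subtype.val hu
    simpa using this
  have hsurj := (LinearMap.injective_iff_surjective).mp hinj
  obtain ⟨u, hu⟩ := hsurj ⟨w, hw⟩
  refine ⟨u, u.2, ?_⟩
  have := congrArg Subtype.val hu
  simpa using this

theorem xind_mul {V : Type} [AddCommGroup V] [Module K V]
    {H : Type} [Group H] (ρ : Representation K H V) (a b : H) (v : V) :
    ρ (a * b) v = ρ a (ρ b v) := by
  rw [map_mul]; rfl

theorem xind_inj {V : Type} [AddCommGroup V] [Module K V]
    {H : Type} [Group H] (ρ : Representation K H V) (a : H) (v : V) (h : ρ a v = 0) : v = 0 := by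
  have : ρ a⁻¹ (ρ a v) = v := by
    rw [← xind_mul, inv_mul_cancel, map_one]; rfl
  rw [← this, h, map_zero]

theorem xind_sub {V : Type} [AddCommGroup V] [Module K V]
    {H : Type} [Group H] (ρ : Representation K H V) (A : Subgroup H) (hA : FreeOn ρ A)
    (a b : H) (ha : a ∈ A) (hb : b ∈ A) (hab : a ≠ b) (v : V) (h : (ρ a - ρ b) v = 0) :
    v = 0 := by
  by_contra hv
  have h1 : ρ a v = ρ b v := by
    rw [LinearMap.sub_apply, sub_eq_zero] at h; exact h
  have h2 : ρ (b⁻¹ * a) v = v := by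
    rw [xind_mul, h1, ← xind_mul, inv_mul_cancel, map_one]; rfl
  have h3 := hA _ (A.mul_mem (A.inv_mem hb) ha) v hv h2
  exact hab (inv_mul_eq_one.mp h3).symm

theorem ind {V : Type} [AddCommGroup V] [Module K V] [Module.Finite K V]
    {H : Type} [Group H] (ρ : Representation K H V) (A Y : Subgroup H) (hA : FreeOn ρ A)
    (hAc : ∀ a ∈ A, ∀ b ∈ A, a * b = b * a) (hY : ∀ y ∈ Y, ∀ a ∈ A, y * a = a * y)
    (W : Submodule K V) (hWA : ∀ a ∈ A, ∀ w ∈ W, ρ a w ∈ W) (hWY : ∀ y ∈ Y, ∀ w ∈ W, ρ y w ∈ W)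
    {ι : Type} (s : Finset ι) (g : ι → H) (hWg : ∀ i ∈ s, ∀ w ∈ W, ρ (g i) w ∈ W)
    (hg : ∀ i ∈ s, ∀ y ∈ Y, ⁅y, g i⁆ ∈ A)
    (hd : ∀ i ∈ s, ∀ j ∈ s, i ≠ j → ∃ y ∈ Y, ⁅y, g i⁆ ≠ ⁅y, g j⁆)
    (c : ι → Module.End K V) (hcY : ∀ i ∈ s, ∀ y ∈ Y, c i * ρ y = ρ y * c i)
    (hcA : ∀ i ∈ s, ∀ a ∈ A, c i * ρ a = ρ a * c i)
    (hs : ∀ w ∈ W, ∑ i ∈ s, c i (ρ (g i) w) = 0) : ∀ i ∈ s, ∀ w ∈ W, c i w = 0 := by
  classical
  induction s using Finset.induction_on generalizing c with
  | empty => intro i hi; simp at hi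
  | insert j t hj ih =>
    have hjs : j ∈ insert j t := Finset.mem_insert_self j t
    have hsub : ∀ i ∈ t, i ∈ insert j t := fun i hi => Finset.mem_insert_of_mem hi
    have ht : ∀ i ∈ t, ∀ w ∈ W, c i w = 0 := by
      intro i0 hi0
      have hne : i0 ≠ j := fun h => hj (h ▸ hi0)
      obtain ⟨y, hy, hyne⟩ := hd i0 (hsub i0 hi0) j hjs hne
      have hcomm : ∀ (u : H), (∀ a ∈ A, u * a = a * u) → ∀ i ∈ t, c i * ρ u = ρ u * c i →
          (c i * (ρ ⁅y, g i⁆ - ρ ⁅y, g j⁆)) * ρ u = ρ u * (c i * (ρ ⁅y, g i⁆ - ρ ⁅y, g j⁆)) := by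
        intro u hu i hi hc
        have e1 : ρ ⁅y, g i⁆ * ρ u = ρ u * ρ ⁅y, g i⁆ := by
          rw [← map_mul, ← map_mul, hu _ (hg i (hsub i hi) y hy)]
        have e2 : ρ ⁅y, g j⁆ * ρ u = ρ u * ρ ⁅y, g j⁆ := by
          rw [← map_mul, ← map_mul, hu _ (hg j hjs y hy)]
        rw [mul_assoc, sub_mul, e1, e2, ← mul_sub, ← mul_assoc, hc, mul_assoc]
      have key := ih (fun i hi => hWg i (hsub i hi)) (fun i hi => hg i (hsub i hi))
        (fun i hi k hk => hd i (hsub i hi) k (hsub k hk))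
        (fun i => c i * (ρ ⁅y, g i⁆ - ρ ⁅y, g j⁆))
        (fun i hi u hu => hcomm u (hY u hu) i hi (hcY i (hsub i hi) u hu))
        (fun i hi u hu => hcomm u (hAc u hu) i hi (hcA i (hsub i hi) u hu))
        (by
          intro w hw
          have r1 := congrArg (ρ y) (hs (ρ y⁻¹ w) (hWY _ (Y.inv_mem hy) w hw))
          have r2 := congrArg (ρ ⁅y, g j⁆) (hs w hw)
          rw [map_sum, map_zero] at r1 r2
          have r1' : ∑ i ∈ insert j t, c i (ρ ⁅y, g i⁆ (ρ (g i) w)) = 0 := by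
            rw [← r1]
            refine Finset.sum_congr rfl fun i hi => ?_
            have e := LinearMap.congr_fun (hcY i hi y hy) (ρ (g i) (ρ y⁻¹ w))
            simp only [Module.End.mul_apply] at e
            rw [← e, ← xind_mul, ← xind_mul, ← xind_mul]
            congr 3
            rw [commutatorElement_def]; group
          have r2' : ∑ i ∈ insert j t, c i (ρ ⁅y, g j⁆ (ρ (g i) w)) = 0 := by
            rw [← r2]
            refine Finset.sum_congr rfl fun i hi => ?_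
            have e := LinearMap.congr_fun (hcA i hi _ (hg j hjs y hy)) (ρ (g i) w)
            simpa only [Module.End.mul_apply] using e
          have r3 : ∑ i ∈ insert j t, (c i * (ρ ⁅y, g i⁆ - ρ ⁅y, g j⁆)) (ρ (g i) w) = 0 := by
            have : ∀ i ∈ insert j t, (c i * (ρ ⁅y, g i⁆ - ρ ⁅y, g j⁆)) (ρ (g i) w) =
                c i (ρ ⁅y, g i⁆ (ρ (g i) w)) - c i (ρ ⁅y, g j⁆ (ρ (g i) w)) := by
              intro i _
              rw [Module.End.mul_apply, LinearMap.sub_apply, map_sub]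
            rw [Finset.sum_congr rfl this, Finset.sum_sub_distrib, r1', r2', sub_zero]
          rw [Finset.sum_insert hj, sub_self, mul_zero, LinearMap.zero_apply, zero_add] at r3
          exact r3)
      intro w hw
      obtain ⟨w', hw', rfl⟩ := xind_surj W (ρ ⁅y, g i0⁆ - ρ ⁅y, g j⁆)
        (xind_sub ρ A hA _ _ (hg i0 (hsub i0 hi0) y hy) (hg j hjs y hy) hyne)
        (fun u hu => by
          rw [LinearMap.sub_apply]
          exact W.sub_mem (hWA _ (hg i0 (hsub i0 hi0) y hy) u hu) (hWA _ (hg j hjs y hy) u hu))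
        w hw
      exact key i0 hi0 w' hw'
    intro i hi
    rcases Finset.mem_insert.mp hi with rfl | hi
    · intro w hw
      obtain ⟨w', hw', rfl⟩ := xind_surj W (ρ (g i)) (xind_inj ρ _) (hWg i hjs) w hw
      have r := hs w' hw'
      rw [Finset.sum_insert hj, Finset.sum_eq_zero (fun k hk =>
        ht k hk _ (hWg k (hsub k hk) w' hw')), add_zero] at r
      exact r
    · exact ht i hi

theorem mov {V : Type} [AddCommGroup V] [Module K V] [Module.Finite K V]
    {H : Type} [Group H] [Finite H] (ρ : Representation K H V) (A : Subgroup H) (hc : IsCyclic A) (hA : FreeOn ρ A) (x : H) (a : ℕ)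
    (hx : x ^ (3 ^ a) = 1) (hn : x ∈ Subgroup.normalizer (A : Set H))
    (hnc : x ∉ Subgroup.centralizer (A : Set H)) (hf : ∀ v, ρ x v = v → v = 0) :
    ∀ v, ρ (x ^ 3) v = v → v = 0 := by
  classical
  have hAc : ∀ u ∈ A, ∀ v ∈ A, u * v = v * u := by
    intro u hu v hv
    obtain ⟨z, hz⟩ := hc.exists_generator
    obtain ⟨m, hm⟩ := Subgroup.mem_zpowers_iff.mp (hz ⟨u, hu⟩)
    obtain ⟨n, hn'⟩ := Subgroup.mem_zpowers_iff.mp (hz ⟨v, hv⟩)
    have e1 : u = (z : H) ^ m := by
      have := congrArg Subtype.val hm; simpa using this.symm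
    have e2 : v = (z : H) ^ n := by
      have := congrArg Subtype.val hn'; simpa using this.symm
    rw [e1, e2, ← zpow_add, ← zpow_add, add_comm]
  have hex : ∃ r : ℕ, x ^ (3 ^ r) ∈ Subgroup.centralizer (A : Set H) :=
    ⟨a, by rw [hx]; exact Subgroup.one_mem _⟩
  obtain ⟨r, hr, hmin⟩ : ∃ r : ℕ, x ^ (3 ^ r) ∈ Subgroup.centralizer (A : Set H) ∧
      ∀ s < r, x ^ (3 ^ s) ∉ Subgroup.centralizer (A : Set H) :=
    ⟨Nat.find hex, Nat.find_spec hex, fun s hs => Nat.find_min hex hs⟩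
  have hr0 : r ≠ 0 := by
    rintro rfl
    apply hnc
    simpa using hr
  have hno : ∀ d : ℕ, 0 < d → d < 3 ^ r → x ^ d ∉ Subgroup.centralizer (A : Set H) := by
    intro d hd0 hd hmem
    obtain ⟨s, hs, hs'⟩ := (Nat.dvd_prime_pow Nat.prime_three).mp (Nat.gcd_dvd_right d (3 ^ r))
    have hlt : s < r := by
      have h1 : Nat.gcd d (3 ^ r) ≤ d := Nat.gcd_le_left _ hd0
      rw [hs'] at h1
      exact (Nat.pow_lt_pow_iff_right (by norm_num : 1 < 3)).mp (lt_of_le_of_lt h1 hd)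
    apply hmin s hlt
    rw [← hs']
    have e : x ^ (Nat.gcd d (3 ^ r)) =
        (x ^ d) ^ (Nat.gcdA d (3 ^ r)) * (x ^ (3 ^ r)) ^ (Nat.gcdB d (3 ^ r)) := by
      rw [← zpow_natCast x (Nat.gcd d (3 ^ r)), Nat.gcd_eq_gcd_ab, zpow_add, zpow_mul, zpow_mul,
        zpow_natCast, zpow_natCast]
    rw [e]
    exact Subgroup.mul_mem _ (Subgroup.zpow_mem _ hmem _) (Subgroup.zpow_mem _ hr _)
  let W : Submodule K V := LinearMap.ker (ρ (x ^ (3 ^ r)) - 1)
  have hWm : ∀ w, w ∈ W ↔ ρ (x ^ (3 ^ r)) w = w := by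
    intro w
    simp only [W, LinearMap.mem_ker, LinearMap.sub_apply, Module.End.one_apply, sub_eq_zero]
  have hWu : ∀ u : H, u * x ^ (3 ^ r) = x ^ (3 ^ r) * u → ∀ w ∈ W, ρ u w ∈ W := by
    intro u hu w hw
    rw [hWm] at hw ⊢
    rw [← xind_mul, ← hu, xind_mul, hw]
  have hWA : ∀ u ∈ A, ∀ w ∈ W, ρ u w ∈ W := fun u hu =>
    hWu u (Subgroup.mem_centralizer_iff.mp hr u hu)
  have hlt : ∀ k l : ℕ, l < k → k < 3 ^ r → ∃ y ∈ A, ⁅y, x ^ k⁆ ≠ ⁅y, x ^ l⁆ := by
    intro k l hlk hk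
    by_contra hcon
    push Not at hcon
    apply hno (k - l) (by omega) (by omega)
    rw [Subgroup.mem_centralizer_iff]
    intro y hy
    have e := hcon y⁻¹ (A.inv_mem hy)
    rw [commutatorElement_def, commutatorElement_def, inv_inv] at e
    have ek : x ^ k = x ^ l * x ^ (k - l) := by rw [← pow_add]; congr 1; omega
    rw [ek] at e
    have e2 : x ^ (k - l) * y * (x ^ (k - l))⁻¹ = y := by
      have e3 : x ^ (k - l) * y * (x ^ (k - l))⁻¹ =
          (x ^ l)⁻¹ * y * (y⁻¹ * (x ^ l * x ^ (k - l)) * y * (x ^ l * x ^ (k - l))⁻¹) * x ^ l := by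
        group
      rw [e3, e]; group
    calc y * x ^ (k - l) = (x ^ (k - l) * y * (x ^ (k - l))⁻¹) * x ^ (k - l) := by rw [e2]
      _ = x ^ (k - l) * y := by group
  have key := ind ρ A A hA hAc hAc W hWA hWA (Finset.range (3 ^ r)) (fun k => x ^ k)
    (fun k _ => hWu _ (by rw [← pow_add, ← pow_add, add_comm]))
    (fun k _ y hy => by
      have h1 : x ^ k ∈ Subgroup.normalizer (A : Set H) := Subgroup.pow_mem _ hn k
      have h2 := (Subgroup.mem_normalizer_iff.mp h1 y⁻¹).mp (A.inv_mem hy)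
      have e : ⁅y, x ^ k⁆ = y * (x ^ k * y⁻¹ * (x ^ k)⁻¹) := by
        rw [commutatorElement_def]; group
      rw [e]
      exact A.mul_mem hy h2)
    (fun k hk l hl hkl => by
      rcases lt_or_gt_of_ne hkl with h | h
      · obtain ⟨y, hy, hne⟩ := hlt l k h (Finset.mem_range.mp hl)
        exact ⟨y, hy, hne.symm⟩
      · exact hlt k l h (Finset.mem_range.mp hk))
    (fun _ => 1) (fun _ _ _ _ => by simp) (fun _ _ _ _ => by simp)
    (fun w hw => by
      apply hf
      simp only [Module.End.one_apply]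
      rw [map_sum]
      have h1 := Finset.sum_range_succ (fun k => ρ (x ^ k) w) (3 ^ r)
      have h2 := Finset.sum_range_succ' (fun k => ρ (x ^ k) w) (3 ^ r)
      rw [h1, (hWm w).mp hw, pow_zero, map_one, Module.End.one_apply] at h2
      rw [add_right_cancel h2]
      refine Finset.sum_congr rfl fun k _ => ?_
      rw [← xind_mul, ← pow_succ'])
  intro v hv
  have hv' : ∀ n : ℕ, ρ ((x ^ 3) ^ n) v = v := by
    intro n
    induction n with
    | zero => simp
    | succ n ih => rw [pow_succ, xind_mul, hv, ih]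
  have hvW : v ∈ W := by
    rw [hWm]
    obtain ⟨r', rfl⟩ := Nat.exists_eq_succ_of_ne_zero hr0
    rw [pow_succ', pow_mul]
    exact hv' _
  have := key 0 (Finset.mem_range.mpr (by positivity)) v hvW
  simpa using this

theorem freeCyc {V : Type} [AddCommGroup V] [Module K V] [Module.Finite K V]
    {H : Type} [Group H] [Finite H] (ρ : Representation K H V) (A : Subgroup H) (hA : FreeOn ρ A) (hV : ∃ v : V, v ≠ 0)
    (hAc : ∀ a ∈ A, ∀ b ∈ A, a * b = b * a) : IsCyclic A := by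
  classical
  obtain ⟨X, ⟨hX0, hXA⟩, hXmin⟩ := (wellFounded_lt (α := Submodule K V)).has_min
    {X | X ≠ ⊥ ∧ ∀ h ∈ A, ∀ w ∈ X, ρ h w ∈ X}
    ⟨⊤, by
      obtain ⟨v, hv⟩ := hV
      refine ⟨fun h => hv ?_, fun _ _ _ _ => Submodule.mem_top⟩
      have : v ∈ (⊤ : Submodule K V) := Submodule.mem_top
      rw [h] at this
      simpa using this⟩
  obtain ⟨σ, hσ⟩ := exists_res ρ A X hXA
  obtain ⟨v0, hv0, hv0'⟩ := Submodule.exists_mem_ne_zero_of_ne_bot hX0
  let C : Subring (Module.End K X) := Subring.centralizer (Set.range σ)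
  have hC : ∀ f ∈ C, f ≠ 0 → ∀ w, f w = 0 → w = 0 := by
    intro f hfC hf0 w hw
    by_contra hw0
    have hle : (LinearMap.ker f).map X.subtype ≤ X := Submodule.map_subtype_le _ _
    have hlt : (LinearMap.ker f).map X.subtype < X := by
      refine lt_of_le_of_ne hle fun heq => hf0 ?_
      ext u
      have hu : (u : V) ∈ (LinearMap.ker f).map X.subtype := by rw [heq]; exact u.2
      obtain ⟨u', hu', e⟩ := hu
      have : u' = u := Subtype.ext e
      rw [this] at hu'
      have h3 : f u = 0 := hu'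
      simp [h3]
    refine hXmin _ ⟨?_, ?_⟩ hlt
    · intro hb
      have : (w : V) ∈ (LinearMap.ker f).map X.subtype := ⟨w, hw, rfl⟩
      rw [hb] at this
      exact hw0 (Subtype.ext (by simpa using this))
    · rintro h hh _ ⟨u, hu, rfl⟩
      refine ⟨σ ⟨h, hh⟩ u, ?_, hσ _ _⟩
      have e := Subring.mem_centralizer_iff.mp hfC (σ ⟨h, hh⟩) ⟨_, rfl⟩
      have e2 := LinearMap.congr_fun e u
      have h3 : f u = 0 := hu
      simp only [Module.End.mul_apply, h3, map_zero] at e2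
      exact e2.symm
  have hnt : Nontrivial X := ⟨⟨⟨v0, hv0⟩, 0, fun h => hv0' (congrArg Subtype.val h)⟩⟩
  have hnz : NoZeroDivisors C := ⟨fun {f g} hfg => by
    by_cases hf0 : (f : Module.End K X) = 0
    · left; exact Subtype.ext hf0
    · right
      apply Subtype.ext
      ext u
      have e : (f : Module.End K X) * g = 0 := congrArg Subtype.val hfg
      have e2 := LinearMap.congr_fun e u
      have := hC f f.2 hf0 _ e2
      simp [this]⟩
  have hdom : IsDomain C := NoZeroDivisors.to_isDomain C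
  have hσC : ∀ u : A, σ u ∈ C := by
    intro u
    rw [Subring.mem_centralizer_iff]
    rintro _ ⟨u', rfl⟩
    rw [← map_mul, ← map_mul]
    congr 1
    exact Subtype.ext (hAc _ u'.2 _ u.2)
  have hσZ : ∀ u : A, (⟨σ u, hσC u⟩ : C) ∈ Subring.center C := by
    intro u
    rw [Subring.mem_center_iff]
    intro f
    apply Subtype.ext
    exact (Subring.mem_centralizer_iff.mp f.2 (σ u) ⟨_, rfl⟩).symm
  let φ : A →* Subring.center C :=
    { toFun := fun u => ⟨⟨σ u, hσC u⟩, hσZ u⟩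
      map_one' := Subtype.ext (Subtype.ext (map_one σ))
      map_mul' := fun u u' => Subtype.ext (Subtype.ext (map_mul σ u u')) }
  refine isCyclic_of_injective_ringHom φ ?_
  rw [injective_iff_map_eq_one]
  intro u hu
  have e : σ u = 1 := congrArg Subtype.val (congrArg Subtype.val hu)
  have e2 := hσ u ⟨v0, hv0⟩
  rw [e] at e2
  exact Subtype.ext (hA u u.2 v0 hv0' e2.symm)

end Pool.Agent.N9181

end

section

namespace Pool.Agent.N9181

open scoped commutatorElement

theorem xquad_poly {V : Type} [AddCommGroup V] [Module K V] (x : Module.End K V)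
    (h3 : x * x * x = 1) (hf : ∀ v, x v = v → v = 0) : x * x + x + 1 = 0 := by
  ext v
  apply hf
  have h := congrArg (fun y : Module.End K V => y v) h3
  simp only [Module.End.mul_apply, Module.End.one_apply] at h
  simp only [LinearMap.add_apply, Module.End.mul_apply, Module.End.one_apply, map_add, h]
  abel

theorem xquad_ring {R : Type} [Ring R] (x y : R) (hx : x * x + x + 1 = 0)
    (hy : y * y + y + 1 = 0) :
    x * (x * x * y + y * y * x) = (x * x * y + y * y * x) * x := by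
  have e1 : x * x = -x - 1 := by rw [← sub_eq_zero, ← hx]; noncomm_ring
  have e2 : y * y = -y - 1 := by rw [← sub_eq_zero, ← hy]; noncomm_ring
  rw [e1, e2]
  have e3 : x * ((-x - 1) * y + (-y - 1) * x) = -(x * x) * y - x * y - x * y * x - x * x := by
    noncomm_ring
  have e4 : ((-x - 1) * y + (-y - 1) * x) * x = -(x * y * x) - y * x - y * (x * x) - x * x := by
    noncomm_ring
  rw [e3, e4, e1]
  noncomm_ring

theorem xquad_sep {H : Type} [Group H] {A F : Subgroup H} (hP : PD A F) {g g' : H} (hg : g ∈ F)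
    (hg' : g' ∈ F) (h : g'⁻¹ * g ∉ A) : ∃ y ∈ F, ⁅y, g⁆ ≠ ⁅y, g'⁆ := by
  by_contra hc
  apply h
  apply hP.nd _ (F.mul_mem (F.inv_mem hg') hg)
  intro y hy
  have e : ⁅y⁻¹, g⁆ = ⁅y⁻¹, g'⁆ := by
    by_contra hne
    exact hc ⟨y⁻¹, F.inv_mem hy, hne⟩
  simp only [commutatorElement_def, inv_inv] at e
  calc g'⁻¹ * g * y = g'⁻¹ * y * (y⁻¹ * g * y * g⁻¹) * g := by group
    _ = y * (g'⁻¹ * g) := by rw [e]; group

theorem xquad_cube {H : Type} [Group H] {A F : Subgroup H} (hP : PD A F)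
    (h3 : ¬ 3 ∣ A.relIndex F) {w : H} (hw : w ∈ F) (h : w ^ 3 ∈ A) : w ∈ A := by
  have : (A.subgroupOf F).Normal := ⟨fun a ha y => by
    rw [Subgroup.mem_subgroupOf] at ha ⊢
    have e := hP.cen _ ha y y.2
    have : ((y * a * y⁻¹ : F) : H) = a := by
      simp only [Subgroup.coe_mul, Subgroup.coe_inv]
      rw [← e]; group
    rwa [this]⟩
  have hn : w ^ (A.relIndex F) ∈ A := by
    have := (A.subgroupOf F).pow_index_mem (⟨w, hw⟩ : F)
    rw [Subgroup.mem_subgroupOf] at this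
    exact this
  have e : w ^ (A.relIndex F % 3) ∈ A := by
    have e1 : w ^ (A.relIndex F) = (w ^ 3) ^ (A.relIndex F / 3) * w ^ (A.relIndex F % 3) := by
      rw [← pow_mul, ← pow_add, Nat.div_add_mod]
    rw [e1] at hn
    exact (A.mul_mem_cancel_left (A.pow_mem h _)).mp hn
  have hc : A.relIndex F % 3 = 1 ∨ A.relIndex F % 3 = 2 := by omega
  rcases hc with hc | hc
  · rwa [hc, pow_one] at e
  · rw [hc] at e
    have e2 : w ^ 3 = w ^ 2 * w := by group
    rw [e2] at h
    exact (A.mul_mem_cancel_left e).mp h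

theorem quad {V : Type} [AddCommGroup V] [Module K V] [Module.Finite K V]
    {H : Type} [Group H] [Finite H] (ρ : Representation K H V) (hV : ∃ v : V, v ≠ 0) (A F : Subgroup H) (hP : PD A F) (hA : FreeOn ρ A)
    (t : H) (ht : t ^ 3 = 1) (htA : t ∈ Subgroup.centralizer (A : Set H))
    (htF : t ∈ Subgroup.normalizer (F : Set H)) (h3 : ¬ 3 ∣ A.relIndex F)
    (hf : ∀ v, ρ t v = v → v = 0) (f : H) (hfF : f ∈ F) (hw : ⁅t⁻¹, f⁆ ∉ A) :
    ⁅t⁻¹, f⁆ * ⁅t⁻¹, f⁆ ∈ A ∧ ρ (⁅t⁻¹, f⁆ * ⁅t⁻¹, f⁆) = -1 := by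
  obtain ⟨w, hwd⟩ : ∃ w, w = ⁅t⁻¹, f⁆ := ⟨_, rfl⟩
  rw [← hwd] at hw ⊢
  have hts : t * w = f * t * f⁻¹ := by
    rw [hwd, commutatorElement_def]; group
  have ht3 : t * t * t = 1 := by rw [← ht, pow_three']
  have hs3 : (t * w) * (t * w) * (t * w) = 1 := by
    rw [hts]
    calc f * t * f⁻¹ * (f * t * f⁻¹) * (f * t * f⁻¹) = f * (t * t * t) * f⁻¹ := by group
      _ = 1 := by rw [ht3]; group
  have hcon : ∀ y, y ∈ F ↔ t * y * t⁻¹ ∈ F := Subgroup.mem_normalizer_iff.mp htF
  have hwF : w ∈ F := by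
    have e : w = (t⁻¹ * f * t) * f⁻¹ := by rw [hwd, commutatorElement_def]; group
    rw [e]
    refine F.mul_mem ?_ (F.inv_mem hfF)
    rw [hcon]
    have : t * (t⁻¹ * f * t) * t⁻¹ = f := by group
    rwa [this]
  have hta : ∀ a ∈ A, a * t = t * a := fun a ha => htA a ha
  obtain ⟨u, hu⟩ : ∃ u, u = t * w * t⁻¹ := ⟨_, rfl⟩
  have huF : u ∈ F := by rw [hu]; exact (hcon w).mp hwF
  have hx : ρ t * ρ t + ρ t + 1 = 0 :=
    xquad_poly _ (by rw [← map_mul, ← map_mul, ht3, map_one]) hf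
  have hy : ρ (t * w) * ρ (t * w) + ρ (t * w) + 1 = 0 := by
    refine xquad_poly _ (by rw [← map_mul, ← map_mul, hs3, map_one]) ?_
    intro v hv
    have e1 : ρ t (ρ f⁻¹ v) = ρ f⁻¹ v := by
      have e2 : t * f⁻¹ = f⁻¹ * (t * w) := by rw [hts]; group
      rw [← Module.End.mul_apply, ← map_mul, e2, map_mul, Module.End.mul_apply, hv]
    have e3 := hf _ e1
    have e4 : v = ρ f (ρ f⁻¹ v) := by
      rw [← Module.End.mul_apply, ← map_mul, mul_inv_cancel, map_one, Module.End.one_apply]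
    rw [e4, e3, map_zero]
  have hkey : ρ w + ρ w⁻¹ = ρ u + ρ u⁻¹ := by
    have e0 := xquad_ring _ _ hx hy
    have e1 : t * t * (t * w) = w := by
      calc t * t * (t * w) = (t * t * t) * w := by group
        _ = w := by rw [ht3, one_mul]
    have e2 : t * w * (t * w) * t = w⁻¹ := by
      calc t * w * (t * w) * t = ((t * w) * (t * w) * (t * w)) * w⁻¹ := by group
        _ = w⁻¹ := by rw [hs3, one_mul]
    simp only [← map_mul] at e0
    rw [e1, e2] at e0
    have e3 : ρ t * (ρ w + ρ w⁻¹) * ρ t⁻¹ = ρ w + ρ w⁻¹ := by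
      rw [e0, mul_assoc, ← map_mul, mul_inv_cancel, map_one, mul_one]
    have e4 : u⁻¹ = t * w⁻¹ * t⁻¹ := by rw [hu]; group
    rw [← e3, e4, hu, mul_add, add_mul]
    simp only [map_mul]
  have hrel : u * (t * u * t⁻¹) * w = 1 := by
    rw [hu]
    calc t * w * t⁻¹ * (t * (t * w * t⁻¹) * t⁻¹) * w
        = (t * w) * (t * w) * ((t * t * t)⁻¹ * t) * w := by group
      _ = (t * w) * (t * w) * (t * w) := by rw [ht3]; group
      _ = 1 := hs3
  have n1 : w⁻¹ * u ∉ A := by
    intro ha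
    obtain ⟨a, had⟩ : ∃ a, a = w⁻¹ * u := ⟨_, rfl⟩
    rw [← had] at ha
    have e1 : u = w * a := by rw [had]; group
    have c1 := hP.cen a ha w hwF
    have c2 := hta a ha
    have e2 : t * u * t⁻¹ = w * a * a := by
      calc t * u * t⁻¹ = t * w * t⁻¹ * (t * a) * t⁻¹ := by rw [e1]; group
        _ = u * a := by rw [← c2, ← hu]; group
        _ = w * a * a := by rw [e1]
    rw [e2, e1] at hrel
    have e3 : w ^ 3 * (a * a * a) = 1 := by
      calc w ^ 3 * (a * a * a) = w * (w * (w * a) * a) * a := by rw [pow_three']; group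
        _ = w * (w * (a * w) * a) * a := by rw [c1]
        _ = w * (w * a) * (w * a) * a := by group
        _ = w * (a * w) * (a * w) * a := by rw [c1]
        _ = w * a * w * a * (w * a) := by group
        _ = w * a * w * a * (a * w) := by rw [c1]
        _ = 1 := by rw [← hrel]; group
    apply hw
    apply xquad_cube hP h3 hwF
    rw [eq_inv_of_mul_eq_one_left e3]
    exact A.inv_mem (A.mul_mem (A.mul_mem ha ha) ha)
  have n2 : w * u ∉ A := by
    intro ha
    obtain ⟨a, had⟩ : ∃ a, a = w * u := ⟨_, rfl⟩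
    rw [← had] at ha
    have e1 : u = w⁻¹ * a := by rw [had]; group
    have c1 := hP.cen a ha w hwF
    have c2 := hta a ha
    have e2 : t * u * t⁻¹ = w := by
      calc t * u * t⁻¹ = (t * w * t⁻¹)⁻¹ * (t * a) * t⁻¹ := by rw [e1]; group
        _ = u⁻¹ * a := by rw [← c2, ← hu]; group
        _ = a⁻¹ * (w * a) := by rw [e1]; group
        _ = w := by rw [← c1]; group
    rw [e2, e1] at hrel
    have e3 : w * a = 1 := by
      calc w * a = a * w := c1.symm
        _ = w⁻¹ * (w * a) * w := by group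
        _ = w⁻¹ * (a * w) * w := by rw [c1]
        _ = 1 := by rw [← hrel]; group
    apply hw
    rw [eq_inv_of_mul_eq_one_left e3]
    exact A.inv_mem ha
  have hAc : ∀ a ∈ A, ∀ b ∈ A, a * b = b * a := fun a ha b hb => hP.cen a ha b (hP.le hb)
  have hY : ∀ y ∈ F, ∀ a ∈ A, y * a = a * y := fun y hy a ha => (hP.cen a ha y hy).symm
  have swap : ∀ p ∈ F, ∀ q, p * q ∈ A → q * p ∈ A := by
    intro p hp q ha
    have e : q * p = p * q := by
      calc q * p = p⁻¹ * (p * q * p) := by group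
        _ = p * q := by rw [hP.cen _ ha p hp]; group
    rwa [e]
  have symm : ∀ g g' : H, (∃ y ∈ F, ⁅y, g⁆ ≠ ⁅y, g'⁆) → ∃ y ∈ F, ⁅y, g'⁆ ≠ ⁅y, g⁆ :=
    fun g g' ⟨y, hy, hne⟩ => ⟨y, hy, hne.symm⟩
  have d02 := xquad_sep hP huF hwF n1
  by_cases hw2 : w * w ∈ A
  · refine ⟨hw2, ?_⟩
    have hi := A.inv_mem hw2
    have eu : u * u = w * w := by
      calc u * u = t * (w * w) * t⁻¹ := by rw [hu]; group
        _ = w * w := by rw [← hta _ hw2]; group
    have e1 : w⁻¹ = (w * w)⁻¹ * w := by group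
    have e2 : u⁻¹ = (w * w)⁻¹ * u := by rw [← eu]; group
    have hc : ∀ y ∈ F, (1 + ρ (w * w)⁻¹) * ρ y = ρ y * (1 + ρ (w * w)⁻¹) := by
      intro y hy
      rw [add_mul, mul_add, one_mul, mul_one, ← map_mul, ← map_mul, hP.cen _ hi y hy]
    have hc' : ∀ i : Fin 2, ∀ y ∈ F,
        ![1 + ρ (w * w)⁻¹, -(1 + ρ (w * w)⁻¹)] i * ρ y =
          ρ y * ![1 + ρ (w * w)⁻¹, -(1 + ρ (w * w)⁻¹)] i := by
      intro i y hy
      fin_cases i
      · exact hc y hy
      · show -(1 + ρ (w * w)⁻¹) * ρ y = ρ y * -(1 + ρ (w * w)⁻¹)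
        rw [neg_mul, mul_neg, hc y hy]
    have key := ind ρ A F hA hAc hY ⊤ (fun _ _ _ _ => trivial) (fun _ _ _ _ => trivial)
      (Finset.univ : Finset (Fin 2)) ![w, u] (fun _ _ _ _ => trivial)
      (fun i _ y hy => hP.comm y hy _ (by fin_cases i; exacts [hwF, huF]))
      (fun i _ j _ hij => by
        fin_cases i <;> fin_cases j
        · exact absurd rfl hij
        · exact symm _ _ d02
        · exact d02
        · exact absurd rfl hij)
      ![1 + ρ (w * w)⁻¹, -(1 + ρ (w * w)⁻¹)] (fun i _ y hy => hc' i y hy)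
      (fun i _ a ha => hc' i a (hP.le ha))
      (fun v _ => by
        have e := congrArg (fun z : Module.End K V => z v) hkey
        rw [e1, e2] at e
        simp only [map_mul ρ (w * w)⁻¹, LinearMap.add_apply, Module.End.mul_apply] at e
        simp only [Fin.sum_univ_two, Matrix.cons_val_zero, Matrix.cons_val_one,
          LinearMap.neg_apply, LinearMap.add_apply, Module.End.one_apply]
        rw [e, add_neg_cancel])
    ext v
    have k1 : (1 + ρ (w * w)⁻¹) (ρ (w * w) v) = 0 := key 0 (Finset.mem_univ _) _ trivial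
    rw [LinearMap.add_apply, Module.End.one_apply, ← Module.End.mul_apply, ← map_mul,
      inv_mul_cancel, map_one, Module.End.one_apply] at k1
    rw [LinearMap.neg_apply, Module.End.one_apply]
    exact eq_neg_of_add_eq_zero_left k1
  · exfalso
    have hu2 : u * u ∉ A := by
      intro ha
      apply hw2
      have e : w * w = u * u := by
        calc w * w = t⁻¹ * (u * u * t) := by rw [hu]; group
          _ = u * u := by rw [hta _ ha]; group
      rwa [e]
    have hwi := F.inv_mem hwF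
    have hui := F.inv_mem huF
    have d01 := xquad_sep hP hwF hwi (by rwa [inv_inv])
    have d03 := xquad_sep hP hwF hui (by rw [inv_inv]; exact fun h => n2 (swap _ huF _ h))
    have d12 := xquad_sep hP huF hwi (by rwa [inv_inv])
    have d13 := xquad_sep hP hwi hui (by rw [inv_inv]; exact fun h => n1 (swap _ huF _ h))
    have d23 := xquad_sep hP huF hui (by rwa [inv_inv])
    have hc' : ∀ i : Fin 4, ∀ z : Module.End K V,
        (![1, 1, -1, -1] : Fin 4 → Module.End K V) i * z =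
          z * (![1, 1, -1, -1] : Fin 4 → Module.End K V) i := by
      intro i z
      fin_cases i <;> simp
    have key := ind ρ A F hA hAc hY ⊤ (fun _ _ _ _ => trivial) (fun _ _ _ _ => trivial)
      (Finset.univ : Finset (Fin 4)) ![w, w⁻¹, u, u⁻¹] (fun _ _ _ _ => trivial)
      (fun i _ y hy => hP.comm y hy _ (by fin_cases i; exacts [hwF, hwi, huF, hui]))
      (fun i _ j _ hij => by
        fin_cases i <;> fin_cases j
        exacts [absurd rfl hij, d01, symm _ _ d02, d03, symm _ _ d01, absurd rfl hij,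
          symm _ _ d12, d13, d02, d12, absurd rfl hij, d23, symm _ _ d03, symm _ _ d13,
          symm _ _ d23, absurd rfl hij])
      ![1, 1, -1, -1] (fun i _ y _ => hc' i _) (fun i _ a _ => hc' i _)
      (fun v _ => by
        have e := congrArg (fun z : Module.End K V => z v) hkey
        simp only [LinearMap.add_apply] at e
        simp only [Fin.sum_univ_four, Matrix.cons_val_zero, Matrix.cons_val_one,
          Matrix.cons_val, LinearMap.neg_apply, Module.End.one_apply]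
        rw [e]
        abel)
    obtain ⟨v, hv⟩ := hV
    exact hv (key 0 (Finset.mem_univ _) v trivial)

end Pool.Agent.N9181

end

section

namespace Pool.Agent.N9181

open scoped commutatorElement

theorem xdim_free {V : Type} [AddCommGroup V] [Module K V] [Module.Finite K V]
    {H : Type} [Group H] (ρ : Representation K H V) (A : Subgroup H) (hA : FreeOn ρ A)
    {L : Type} [Field L] [Algebra K L] {M : Type} [AddCommGroup M] [Module L M]
    [Module.Finite L M] (τ : Representation L H M)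
    (h1 : ∀ (h : H) (c : K), Module.finrank L (Module.End.eigenspace (τ h) (algebraMap K L c)) =
        ed (ρ h) c) :
    ∀ a ∈ A, ∀ v, v ≠ 0 → τ a v = v → a = 1 := by
  intro a ha v hv hav
  by_contra hne
  have hb : Module.End.eigenspace (ρ a) (1 : K) = ⊥ := by
    rw [eq_bot_iff]
    intro w hw
    rw [Module.End.mem_eigenspace_iff, one_smul] at hw
    by_contra hw0
    exact hne (hA a ha w hw0 hw)
  have h2 := h1 a 1
  rw [map_one, ed, hb, finrank_bot, Submodule.finrank_eq_zero] at h2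
  have hm : v ∈ Module.End.eigenspace (τ a) (1 : L) := by
    rw [Module.End.mem_eigenspace_iff, one_smul]
    exact hav
  rw [h2] at hm
  exact hv hm

theorem xdim_pd {H : Type} [Group H] (A F : Subgroup H) (hP : PD A F) :
    PD (A.subgroupOf F) ⊤ := by
  refine ⟨?_, le_top, ?_, ?_, ?_⟩
  · have := hP.cyc
    exact isCyclic_of_surjective (Subgroup.subgroupOfEquivOfLe hP.le).symm
      (Subgroup.subgroupOfEquivOfLe hP.le).symm.surjective
  · intro a ha x _
    exact Subtype.ext (hP.cen a ha x x.2)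
  · intro x _ y _
    exact hP.comm x x.2 y y.2
  · intro x _ hx
    refine hP.nd x x.2 fun y hy => ?_
    exact congrArg Subtype.val (hx ⟨y, hy⟩ trivial)

theorem xdim_count {L : Type} [Field L] {M : Type} [AddCommGroup M] [Module L M]
    [Module.Finite L M] [DecidableEq L] (T : Module.End L M) (e : ℕ)
    (he : ∀ y, T.HasEigenvalue y → e ≤ Module.finrank L (T.eigenspace y)) :
    T.charpoly.roots.toFinset.card * e ≤ Module.finrank L M := by
  have hne : T.charpoly ≠ 0 := (LinearMap.charpoly_monic T).ne_zero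
  have h1 : T.charpoly.roots.toFinset.card * e ≤
      ∑ y ∈ T.charpoly.roots.toFinset, T.charpoly.roots.count y := by
    rw [← smul_eq_mul]
    refine Finset.card_nsmul_le_sum _ _ _ fun y hy => ?_
    rw [Multiset.mem_toFinset, Polynomial.mem_roots hne,
      ← Module.End.hasEigenvalue_iff_isRoot_charpoly] at hy
    rw [Polynomial.count_roots]
    exact (he y hy).trans (LinearMap.finrank_eigenspace_le T y)
  rw [Multiset.toFinset_sum_count_eq] at h1
  refine h1.trans ((Polynomial.card_roots' _).trans ?_)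
  rw [LinearMap.charpoly_natDegree]

theorem xdim_dvd {V : Type} [AddCommGroup V] [Module K V] [Module.Finite K V]
    (T : Module.End K V) (g : Polynomial K) (hg : Irreducible g)
    (hk : 0 < Module.finrank K (LinearMap.ker (Polynomial.aeval T g))) : g ∣ T.charpoly := by
  by_contra hn
  obtain ⟨u, w, huw⟩ := (hg.coprime_iff_not_dvd).2 hn
  have h1 := congrArg (Polynomial.aeval T) huw
  rw [map_add, map_mul, map_mul, LinearMap.aeval_self_charpoly, mul_zero, add_zero, map_one] at h1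
  have hb : LinearMap.ker (Polynomial.aeval T g) = ⊥ := by
    rw [eq_bot_iff]
    intro v hv
    rw [LinearMap.mem_ker] at hv
    have h2 := congrArg (fun f : Module.End K V => f v) h1
    simp only [Module.End.mul_apply, hv, map_zero, Module.End.one_apply] at h2
    exact h2.symm
  rw [hb, finrank_bot] at hk
  exact lt_irrefl _ hk

theorem dim1 {V : Type} [AddCommGroup V] [Module K V] [Module.Finite K V]
    {H : Type} [Group H] [Finite H] (h13 : ¬ 13 ∣ Nat.card H) (ρ : Representation K H V) (A F : Subgroup H) (hP : PD A F) (hA : FreeOn ρ A)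
    (W : Submodule K V) (hW : ∀ f ∈ F, ∀ w ∈ W, ρ f w ∈ W) (e : ℕ)
    (he : A.relIndex F = e ^ 2) : e ∣ Module.finrank K W := by
  obtain ⟨σ, hσ⟩ := exists_res ρ F W hW
  have hA' : FreeOn σ (A.subgroupOf F) := by
    intro a ha v hv hav
    have h1 : ρ a v = v := by rw [← hσ, hav]
    exact Subtype.ext (hA a ha v (fun h => hv (Subtype.ext h)) h1)
  have h13' : ¬ 13 ∣ Nat.card F := fun h => h13 (h.trans (Subgroup.card_subgroup_dvd_card F))
  obtain ⟨M, _, _, _, τ, hd, -, h1, -⟩ := exists_bc σ (AlgebraicClosure K)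
  have h2 := dimK h13' τ (A.subgroupOf F) ⊤ (xdim_pd A F hP) (xdim_free σ _ hA' τ h1) ⊤
    (fun _ _ _ _ => trivial) e (by rw [Subgroup.relIndex_top_right]; exact he)
  rwa [finrank_top, hd] at h2

theorem dim2 {V : Type} [AddCommGroup V] [Module K V] [Module.Finite K V]
    {H : Type} [Group H] [Finite H] (h13 : ¬ 13 ∣ Nat.card H) (ρ : Representation K H V) (hV : ∃ v : V, v ≠ 0) (N m : ℕ) (hNM : NM H N m)
    (hU : HU ρ N m) (A F : Subgroup H) (hP : PD A F) (hA : FreeOn ρ A) (e : ℕ)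
    (he : A.relIndex F = e ^ 2) : Nat.totient (Nat.card A) * e ≤ 2 * Module.finrank K V := by
  classical
  obtain ⟨M, _, _, _, τ, hd, hk, h1, hc⟩ := exists_bc ρ (AlgebraicClosure K)
  have hfree := xdim_free ρ A hA τ h1
  have hcy := hP.cyc
  obtain ⟨a0, ha0⟩ := IsCyclic.exists_ofOrder_eq_natCard (α := A)
  have hord : orderOf (a0 : H) = Nat.card A := by rw [← ha0, Subgroup.orderOf_coe]
  obtain ⟨a, haA⟩ := a0
  replace hord : orderOf a = Nat.card A := hord
  clear ha0
  set r := Nat.card A with hr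
  have hr0 : 0 < r := Nat.card_pos
  have : NeZero r := ⟨hr0.ne'⟩
  have hrN : r ∣ N := (Subgroup.card_subgroup_dvd_card A).trans hNM.1
  -- powers of eigenvectors
  have hpow : ∀ (y : AlgebraicClosure K) (v : M), τ a v = y • v → ∀ k : ℕ,
      τ (a ^ k) v = y ^ k • v := by
    intro y v hv k
    induction k with
    | zero => simp
    | succ k ih =>
      rw [pow_succ, map_mul, Module.End.mul_apply, hv, map_smul, ih, smul_smul, pow_succ']
  -- counting eigenvalues
  have hcount := xdim_count (τ a) e (by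
    intro y hy
    have hinv : ∀ f ∈ F, ∀ w ∈ Module.End.eigenspace (τ a) y,
        τ f w ∈ Module.End.eigenspace (τ a) y := by
      intro f hf w hw
      rw [Module.End.mem_eigenspace_iff] at hw ⊢
      rw [← Module.End.mul_apply, ← map_mul, hP.cen a haA f hf, map_mul, Module.End.mul_apply,
        hw, map_smul]
    refine Nat.le_of_dvd ?_ (dimK h13 τ A F hP hfree _ hinv e he)
    rw [Nat.pos_iff_ne_zero]
    intro h0
    rw [Submodule.finrank_eq_zero] at h0
    exact hy h0)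
  have hMpos : 0 < Module.finrank (AlgebraicClosure K) M := by
    rw [hd]
    obtain ⟨v, hv⟩ := hV
    exact Module.finrank_pos_iff_exists_ne_zero.2 ⟨v, hv⟩
  have : Nontrivial M := Module.finrank_pos_iff.1 hMpos
  obtain ⟨z, hz⟩ := Module.End.exists_eigenvalue (τ a)
  obtain ⟨v, hv⟩ := hz.exists_hasEigenvector
  have hv0 : v ≠ 0 := hv.2
  have hv1 : τ a v = z • v := hv.apply_eq_smul
  have hprim : IsPrimitiveRoot z r := by
    refine ⟨?_, fun l hl => ?_⟩
    · have h2 := hpow z v hv1 r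
      rw [← hord, pow_orderOf_eq_one, map_one, Module.End.one_apply, hord] at h2
      have h3 : (z ^ r - 1) • v = 0 := by rw [sub_smul, one_smul, ← h2, sub_self]
      exact sub_eq_zero.1 ((smul_eq_zero.1 h3).resolve_right hv0)
    · have h2 := hpow z v hv1 l
      rw [hl, one_smul] at h2
      rw [← hord]
      exact orderOf_dvd_of_pow_eq_one (hfree _ (A.pow_mem haA l) v hv0 h2)
  have hne : ∀ h : H, (LinearMap.charpoly (τ h)) ≠ 0 := fun h =>
    (LinearMap.charpoly_monic _).ne_zero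
  set E := (LinearMap.charpoly (τ a)).roots.toFinset with hE
  have hsub : primitiveRoots r (AlgebraicClosure K) ⊆ E ∪ E.image (· ^ m) := by
    intro x hx
    rw [mem_primitiveRoots hr0] at hx
    obtain ⟨i, -, hi, hxi⟩ := hprim.isPrimitiveRoot_iff.1 hx
    obtain ⟨j, hj, hji⟩ := exists_j r N i hrN hNM.2.1 hi
    have hxj : z ^ j = x := by
      rw [← hxi, pow_eq_pow_mod j hprim.pow_eq_one, pow_eq_pow_mod i hprim.pow_eq_one, hji]
    have hint : IsIntegral K x := Algebra.IsIntegral.isIntegral x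
    have hirr := minpoly.irreducible hint
    have hroot : ∀ h : H,
        0 < Module.finrank K (LinearMap.ker (Polynomial.aeval (ρ h) (minpoly K x))) →
        (LinearMap.charpoly (τ h)).IsRoot x := by
      intro h hh
      obtain ⟨u, hu⟩ := xdim_dvd (ρ h) _ hirr hh
      rw [hc, hu, Polynomial.IsRoot.def, Polynomial.eval_map_algebraMap, map_mul, minpoly.aeval,
        zero_mul]
    have hpos : 0 < Module.finrank K
        (LinearMap.ker (Polynomial.aeval (ρ (a ^ j)) (minpoly K x))) := by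
      rw [← hk]
      refine Module.finrank_pos_iff_exists_ne_zero.2 ⟨⟨v, ?_⟩, fun h => hv0 (congrArg Subtype.val h)⟩
      have hev : Module.End.HasEigenvector (τ (a ^ j)) x v := by
        refine ⟨?_, hv0⟩
        rw [Module.End.mem_eigenspace_iff, hpow z v hv1 j, hxj]
      rw [LinearMap.mem_ker, Module.End.aeval_apply_of_hasEigenvector hev,
        Polynomial.eval_map_algebraMap, minpoly.aeval, zero_smul]
    have hker := ker_of_U h13 ρ N m hU a j hj (minpoly K x)
    rw [Finset.mem_union]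
    by_cases h0 : 0 < Module.finrank K (LinearMap.ker (Polynomial.aeval (ρ a) (minpoly K x)))
    · left
      rw [hE, Multiset.mem_toFinset, Polynomial.mem_roots (hne a)]
      exact hroot a h0
    · right
      have h2 := hroot (a ^ m) (by omega)
      rw [← Module.End.mem_spectrum_iff_isRoot_charpoly, map_pow,
        spectrum.map_pow_of_nonempty ⟨z, Module.End.hasEigenvalue_iff_mem_spectrum.1 hz⟩] at h2
      obtain ⟨y, hy, hyx⟩ := h2
      rw [Finset.mem_image]
      refine ⟨y, ?_, hyx⟩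
      rw [hE, Multiset.mem_toFinset, Polynomial.mem_roots (hne a)]
      exact (Module.End.mem_spectrum_iff_isRoot_charpoly _ _).1 hy
  have hcard : Nat.totient r ≤ 2 * E.card := by
    rw [← hprim.card_primitiveRoots]
    refine (Finset.card_le_card hsub).trans ((Finset.card_union_le _ _).trans ?_)
    have := Finset.card_image_le (s := E) (f := (· ^ m))
    omega
  rw [hd] at hcount
  calc Nat.totient r * e ≤ 2 * E.card * e := Nat.mul_le_mul_right _ hcard
    _ = 2 * (E.card * e) := by ring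
    _ ≤ 2 * Module.finrank K V := Nat.mul_le_mul_left _ hcount

end Pool.Agent.N9181

end

section

namespace Pool.Agent.N9181

open Finset

variable {U Z : Type} [CommGroup U] [CommGroup Z]

lemma xm0base_two [Finite Z] [IsCyclic Z] {z z' : Z} (h : z ^ 2 = 1) (h' : z' ^ 2 = 1)
    (hz : z ≠ 1) (hz' : z' ≠ 1) : z * z' = 1 := by
  classical
  have := Fintype.ofFinite Z
  have e : z = z' := by
    by_contra hne
    have h1 := IsCyclic.card_pow_eq_one_le (α := Z) (n := 2) (by norm_num)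
    have h2 : ({1, z, z'} : Finset Z) ⊆ univ.filter (fun a => a ^ 2 = 1) := by
      intro a ha
      simp only [mem_insert, mem_singleton] at ha
      rcases ha with rfl | rfl | rfl <;> simp [h, h']
    have h3 := card_le_card h2
    rw [card_eq_three.2 ⟨1, z, z', hz.symm, hz'.symm, hne, rfl⟩] at h3
    omega
  rw [← e, ← pow_two, h]

/-- isometries of order three whose moved part is anisotropic -/
structure xm0base_P (B : U →* U →* Z) (s : MulAut U) : Prop where
  iso : ∀ x y, B (s x) (s y) = B x y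
  cube : ∀ x, s (s (s x)) = x
  sq : ∀ x, s x / x ≠ 1 → (s x / x) ^ 2 = 1 ∧ B (s x / x) (s (s x / x)) ≠ 1

/-- the moved part -/
def xm0base_S (s : MulAut U) : Subgroup U where
  carrier := {c | ∃ x, s x / x = c}
  one_mem' := ⟨1, by simp⟩
  mul_mem' := by
    rintro _ _ ⟨x, rfl⟩ ⟨y, rfl⟩
    exact ⟨x * y, by rw [map_mul, mul_div_mul_comm]⟩
  inv_mem' := by
    rintro _ ⟨x, rfl⟩
    exact ⟨x⁻¹, by rw [map_inv, inv_div_inv, inv_div]⟩

lemma xm0base_map {s : MulAut U} {c : U} (hc : c ∈ xm0base_S s) : s c ∈ xm0base_S s := by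
  obtain ⟨x, rfl⟩ := hc
  exact ⟨s x, by rw [map_div]⟩

variable {B : U →* U →* Z} {s s' : MulAut U}

lemma xm0base_sq (h : xm0base_P B s) {c : U} (hc : c ∈ xm0base_S s) : c ^ 2 = 1 := by
  obtain ⟨x, rfl⟩ := hc
  by_cases h1 : s x / x = 1
  · rw [h1, one_pow]
  · exact (h.sq x h1).1

lemma xm0base_q (h : xm0base_P B s) {c : U} (hc : c ∈ xm0base_S s) (h1 : c ≠ 1) :
    B c (s c) ≠ 1 := by
  obtain ⟨x, rfl⟩ := hc
  exact (h.sq x h1).2

lemma xm0base_bsq {c : U} (hc : c ^ 2 = 1) (y : U) : B c y ^ 2 = 1 := by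
  rw [← MonoidHom.pow_apply, ← map_pow, hc, map_one, MonoidHom.one_apply]

lemma xm0base_ss (h : xm0base_P B s) {c : U} (hc : c ∈ xm0base_S s) : s (s c) = c * s c := by
  have h1 := xm0base_sq h (mul_mem hc (xm0base_map hc))
  have h2 : s (s c) * (c * s c) = 1 := by
    obtain ⟨x, rfl⟩ := hc
    simp only [map_div, h.cube]
    rw [mul_comm (s x / x), div_mul_div_cancel, div_mul_div_cancel, div_self']
  rw [pow_two] at h1
  exact mul_right_cancel (h2.trans h1.symm)

variable [Finite Z] [IsCyclic Z]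

lemma xm0base_beta (h : xm0base_P B s) {c d : U} (hc : c ∈ xm0base_S s) (hd : d ∈ xm0base_S s)
    (h1 : c ≠ 1) (h2 : d ≠ 1) (h3 : c * d ≠ 1) : B c (s d) * B d (s c) ≠ 1 := by
  have e := xm0base_two (xm0base_bsq (xm0base_sq h hc) _) (xm0base_bsq (xm0base_sq h hd) _)
    (xm0base_q h hc h1) (xm0base_q h hd h2)
  have q := xm0base_q h (mul_mem hc hd) h3
  intro hb
  apply q
  simp only [map_mul, MonoidHom.mul_apply]
  calc _ = (B c (s c) * B d (s d)) * (B c (s d) * B d (s c)) := by ac_rfl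
    _ = 1 := by rw [e, hb, one_mul]

lemma xm0base_four (hB : Symp B) (h : xm0base_P B s) {c : U} (hc : c ∈ xm0base_S s) (h1 : c ≠ 1)
    {e : U} (he : e ∈ xm0base_S s) : e = 1 ∨ e = c ∨ e = s c ∨ e = c * s c := by
  by_contra hne
  simp only [not_or] at hne
  obtain ⟨n1, n2, n3, n4⟩ := hne
  have hd := xm0base_map hc
  have key : ∀ x ∈ xm0base_S s, e ≠ x → x * e ≠ 1 := fun x hx hne h0 => by
    have h2 := xm0base_sq h hx
    rw [pow_two] at h2
    exact hne (mul_left_cancel (h0.trans h2.symm))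
  have d1 : s c ≠ 1 := fun h0 => h1 (by simpa using h0)
  have d2 : c * s c ≠ 1 := fun h0 => by
    have h2 := xm0base_sq h hc
    rw [pow_two] at h2
    have h3 := xm0base_q h hc h1
    rw [mul_left_cancel (h0.trans h2.symm)] at h3
    exact h3 (hB.1 c)
  have b1 := xm0base_beta h hc hd h1 d1 d2
  have b2 := xm0base_beta h hc he h1 n1 (key c hc n2)
  have b3 := xm0base_beta h hc (mul_mem hd he) h1 (key _ hd n3)
    (by rw [← mul_assoc]; exact key _ (mul_mem hc hd) n4)
  have sq : ∀ x ∈ xm0base_S s, (B c (s x) * B x (s c)) ^ 2 = 1 := fun x hx => by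
    rw [mul_pow, xm0base_bsq (xm0base_sq h hc), xm0base_bsq (xm0base_sq h hx), one_mul]
  apply b3
  rw [← xm0base_two (sq _ hd) (sq _ he) b1 b2]
  simp only [map_mul, MonoidHom.mul_apply]
  exact mul_mul_mul_comm _ _ _ _

omit [Finite Z] [IsCyclic Z] in
lemma xm0base_skew (hB : Symp B) (x y : U) : B x y * B y x = 1 := by
  have := hB.1 (x * y)
  simp only [map_mul, MonoidHom.mul_apply, hB.1, one_mul, mul_one] at this
  rw [mul_comm]
  exact this

lemma xm0base_uniq (hB : Symp B) (h : xm0base_P B s) (h' : xm0base_P B s') {c : U}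
    (hc : c ∈ xm0base_S s) (hc' : c ∈ xm0base_S s') (h1 : c ≠ 1) (e : s c = s' c) : s = s' := by
  have e2 : s (s c) = s' (s c) := by rw [xm0base_ss h hc, e, xm0base_ss h' hc']
  have e3 : s (s (s c)) = s' (s (s c)) := by rw [h.cube, e2, e, h'.cube]
  have q := xm0base_q h hc h1
  have q' : B (s c) c ≠ 1 := fun h0 => q (by simpa [h0] using xm0base_skew hB c (s c))
  ext x
  have hy : s x / s' x ∈ xm0base_S s := by
    have a1 : s x / x ∈ xm0base_S s := ⟨x, rfl⟩
    have a2 : s' x / x ∈ xm0base_S s := by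
      rcases xm0base_four hB h' hc' h1 (e := s' x / x) ⟨x, rfl⟩ with k | k | k | k <;> rw [k]
      · exact one_mem _
      · exact hc
      · rw [← e]
        exact xm0base_map hc
      · rw [← e]
        exact mul_mem hc (xm0base_map hc)
    simpa using div_mem a1 a2
  have b1 : B (s x / s' x) (s c) = 1 := by
    rw [map_div, MonoidHom.div_apply, h.iso, e, h'.iso, div_self']
  have b2 : B (s x / s' x) c = 1 := by
    rw [← h.cube c, map_div, MonoidHom.div_apply, h.iso, e3, h'.iso, div_self']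
  rcases xm0base_four hB h hc h1 hy with k | k | k | k
  · exact div_eq_one.1 k
  · rw [k] at b1
    exact absurd b1 q
  · rw [k] at b2
    exact absurd b2 q'
  · rw [k, map_mul, MonoidHom.mul_apply, hB.1, one_mul] at b2
    exact absurd b2 q'

lemma xm0base_pairs [Fintype U] [DecidableEq U] [DecidableEq Z] (B : U →* U →* Z) :
    2 * (univ.filter fun p : U × U => p.1 ≠ 1 ∧ p.1 ^ 2 = 1 ∧ B p.1 p.2 ≠ 1).card ≤
      Fintype.card U * (Fintype.card U - 1) := by
  have h1 : ∀ c : U, c ^ 2 = 1 → 2 * (univ.filter fun d => B c d ≠ 1).card ≤ Fintype.card U := by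
    intro c hc
    rcases (univ.filter fun d => B c d ≠ 1).eq_empty_or_nonempty with h0 | ⟨d0, h0⟩
    · simp [h0]
    have h2 : (univ.filter fun d => B c d ≠ 1).card ≤ (univ.filter fun d => ¬ B c d ≠ 1).card := by
      refine card_le_card_of_injOn (fun d => d * d0) (fun d hd => ?_)
        fun d _ d' _ e => mul_right_cancel e
      simp only [coe_filter, mem_univ, true_and, Set.mem_ofPred_eq, not_not, mem_filter] at hd h0 ⊢
      rw [map_mul]
      exact xm0base_two (xm0base_bsq hc _) (xm0base_bsq hc _) hd h0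
    have h3 := card_filter_add_card_filter_not (s := (univ : Finset U)) fun d => B c d ≠ 1
    rw [card_univ] at h3
    omega
  rw [card_eq_sum_card_fiberwise (f := Prod.fst) (t := univ.erase 1)
    (fun p hp => by simpa using (mem_filter.1 (mem_coe.1 hp)).2.1), mul_sum, mul_comm,
    ← card_univ, ← card_erase_of_mem (mem_univ (1 : U)), card_univ, ← smul_eq_mul]
  refine sum_le_card_nsmul _ _ _ fun c _ => ?_
  by_cases hc : c ^ 2 = 1
  · refine le_trans (Nat.mul_le_mul_left 2 ?_) (h1 c hc)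
    refine card_le_card_of_injOn Prod.snd (fun p hp => ?_) fun p hp p' hp' e => ?_
    · simp only [coe_filter, mem_filter, mem_univ, true_and, Set.mem_ofPred_eq] at hp ⊢
      rw [← hp.2]
      exact hp.1.2.2
    · exact Prod.ext ((mem_filter.1 (mem_coe.1 hp)).2.trans
        (mem_filter.1 (mem_coe.1 hp')).2.symm) e
  · rw [card_eq_zero.2]
    · simp
    · refine filter_eq_empty_iff.2 fun p hp e => hc ?_
      rw [← e]
      exact (mem_filter.1 hp).2.2.1

omit [Finite Z] [IsCyclic Z] in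
lemma xm0base_norm [Finite U] (h3 : ¬ 3 ∣ Nat.card U) {x : U} (hx : s x * s (s x) * x = 1) :
    x ∈ xm0base_S s := by
  have a1 : s x / x ∈ xm0base_S s := ⟨x, rfl⟩
  have a2 : s (s x) / s x ∈ xm0base_S s := ⟨s x, rfl⟩
  have a3 : x ^ 3 ∈ xm0base_S s := by
    have e : x ^ 3 * ((s x / x) * (s (s x) / s x * (s x / x))) = s x * s (s x) * x := by
      rw [div_mul_div_cancel, div_eq_mul_inv, div_eq_mul_inv, pow_three']
      calc _ = (s x * s (s x) * x) * ((x * x⁻¹) * (x * x⁻¹)) := by ac_rfl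
        _ = _ := by simp
    rw [eq_inv_of_mul_eq_one_left (e.trans hx)]
    exact inv_mem (mul_mem a1 (mul_mem a2 a1))
  have hc : (Nat.card U).Coprime 3 :=
    ((Nat.Prime.coprime_iff_not_dvd Nat.prime_three).2 h3).symm
  obtain ⟨k, hk⟩ := exists_pow_eq_self_of_coprime (x := x)
    (Nat.Coprime.coprime_dvd_right (orderOf_dvd_natCard x) hc.symm)
  rw [← hk]
  exact pow_mem a3 k

end Pool.Agent.N9181

end

section

namespace Pool.Agent.N9181

open Finset
open scoped commutatorElement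

variable {H : Type} [Group H]

lemma xm0base_six {t f w : H} (ht : t ^ 3 = 1) (hw : w = t * f * t⁻¹ * f⁻¹)
    (hc : t * (w * w) * t⁻¹ = w * w) (h : Commute (t * w * t⁻¹) w) : (w * w) ^ 3 = 1 := by
  have e : t * (t * w * t⁻¹) * t⁻¹ * (t * w * t⁻¹ * w) = 1 := by
    have : t * (t * w * t⁻¹) * t⁻¹ * (t * w * t⁻¹ * w) = t ^ 3 * f * (t ^ 3)⁻¹ * f⁻¹ := by
      rw [hw, pow_three]
      group
    rw [this, ht]
    group
  have c2 : Commute (t * (t * w * t⁻¹) * t⁻¹) (t * w * t⁻¹ * w) := by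
    rw [eq_inv_of_mul_eq_one_left e]
    exact (Commute.refl _).inv_left
  have e1 : (t * w * t⁻¹) ^ 2 = w * w := by rw [conj_pow, pow_two, hc]
  have e2 : (t * (t * w * t⁻¹) * t⁻¹) ^ 2 = w * w := by rw [conj_pow, e1, hc]
  have e3 := c2.mul_pow 2
  rw [e, one_pow, h.mul_pow, e1, e2, pow_two] at e3
  rw [pow_three]
  exact e3.symm

lemma xm0base_one [Finite H] {A : Subgroup H} (h3 : ¬ 3 ∣ Nat.card A) {a : H} (ha : a ∈ A)
    (h : a ^ 3 = 1) : a = 1 := by
  rcases (Nat.dvd_prime Nat.prime_three).1 (orderOf_dvd_of_pow_eq_one h) with k | k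
  · exact orderOf_eq_one_iff.1 k
  · exact absurd (k ▸ A.orderOf_dvd_natCard ha) h3

lemma xm0base_count [Finite H] (A F : Subgroup H) (hS : SD A F) (h3A : ¬ 3 ∣ Nat.card A)
    (h3 : ¬ 3 ∣ A.relIndex F) (X : Finset (Subgroup.centralizer (A : Set H)))
    (hX : ∀ t ∈ X, (t : H) ^ 3 = 1 ∧ (t : H) ∉ F ∧ ∀ f ∈ F, ⁅(t : H), f⁆ ∉ A →
      ⁅(t : H), f⁆ * ⁅(t : H), f⁆ ∈ A ∧ (⁅(t : H), f⁆ * ⁅(t : H), f⁆) ^ 3 ≠ 1) :
    3 * X.card ≤ 2 * (A.relIndex F * (A.relIndex F - 1)) := by
  classical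
  obtain ⟨U, Z, _, _, _, _, _, π, ζ, B, κ, hπ, hk, hζ, -, hB, hBc, hU, -, hκ, hκ1⟩ :=
    sd_pair A F hS
  have := Fintype.ofFinite U
  let cj : Subgroup.centralizer (A : Set H) → F → F := fun t f =>
    ⟨t * f * (t : H)⁻¹, hS.nF.conj_mem _ f.2 _⟩
  have hcj : ∀ t f, (κ t : MulAut U) (π f) = π (cj t f) := fun t f => hκ t f _ rfl
  have hP : ∀ t ∈ X, xm0base_P B (κ t) := by
    intro t ht
    obtain ⟨t3, -, tq⟩ := hX t ht
    refine ⟨(κ t).2, fun x => ?_, fun x hx => ?_⟩
    · have h1 : t ^ 3 = 1 := Subtype.ext t3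
      have h2 : (κ t : MulAut U) ^ 3 = 1 := by
        rw [← Subgroup.coe_pow, ← map_pow, h1, map_one, Subgroup.coe_one]
      rw [pow_three] at h2
      exact DFunLike.congr_fun h2 x
    · obtain ⟨f, rfl⟩ := hπ x
      rw [hcj, ← map_div] at hx ⊢
      have hw : ((cj t f / f : F) : H) = ⁅(t : H), (f : H)⁆ := by
        rw [div_eq_mul_inv]
        rfl
      obtain ⟨q1, q2⟩ := tq f f.2 fun h => hx ((hk _).2 (hw ▸ h))
      rw [← hw] at q1 q2
      refine ⟨by rw [pow_two, ← map_mul]; exact (hk _).2 q1, fun h0 => q2 ?_⟩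
      have h1 := hBc (cj t f / f) (cj t (cj t f / f))
      rw [← hcj, h0, map_one] at h1
      refine xm0base_six t3 hw ?_ (commutatorElement_eq_one_iff_commute.1 h1.symm).symm
      rw [← t.2 _ q1, mul_inv_cancel_right]
  have hpairs := xm0base_pairs B
  rw [← Nat.card_eq_fintype_card, hU] at hpairs
  have main := card_mul_le_card_mul (s := X)
    (t := univ.filter fun p : U × U => p.1 ≠ 1 ∧ p.1 ^ 2 = 1 ∧ B p.1 p.2 ≠ 1)
    (fun t p => p.1 ∈ xm0base_S (κ t) ∧ p.2 = (κ t : MulAut U) p.1) (m := 3) (n := 4) ?_ ?_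
  · omega
  · intro t ht
    have h := hP t ht
    obtain ⟨c, hc, h1⟩ : ∃ c ∈ xm0base_S (κ t : MulAut U), c ≠ 1 := by
      by_contra h0
      refine (hX t ht).2.1 ((hκ1 t).1 (Subtype.ext (MulEquiv.ext fun x => ?_)))
      by_contra h2
      exact h0 ⟨_, ⟨x, rfl⟩, fun h4 => h2 (div_eq_one.1 h4)⟩
    obtain ⟨s, hs⟩ : ∃ s, (κ t : MulAut U) = s := ⟨_, rfl⟩
    rw [hs] at h hc
    have n1 : c ≠ s c := fun e => xm0base_q h hc h1 (e ▸ hB.1 c)
    have n2 : c ≠ s (s c) := fun e => n1 ((congrArg s e).trans (h.cube c)).symm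
    have n3 : s c ≠ s (s c) := fun e => n1 (s.injective e)
    rw [← card_eq_three.2 ⟨c, s c, s (s c), n1, n2, n3, rfl⟩]
    refine card_le_card_of_injOn (fun d => (d, s d)) (fun d hd => ?_)
      fun d _ d' _ e => congrArg Prod.fst e
    have h2 : d ∈ xm0base_S s ∧ d ≠ 1 := by
      simp only [coe_insert, coe_singleton, Set.mem_insert_iff, Set.mem_singleton_iff] at hd
      rcases hd with rfl | rfl | rfl
      · exact ⟨hc, h1⟩
      · exact ⟨xm0base_map hc, by simpa using h1⟩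
      · exact ⟨xm0base_map (xm0base_map hc), by simpa using h1⟩
    exact mem_coe.2 ((mem_bipartiteAbove _).2 ⟨mem_filter.2 ⟨mem_univ _, h2.2,
      xm0base_sq h h2.1, xm0base_q h h2.1 h2.2⟩, hs ▸ h2.1, hs ▸ rfl⟩)
  · rintro ⟨c, d⟩ hp
    have h1 : c ≠ 1 := (mem_filter.1 hp).2.1
    set T := X.bipartiteBelow
      (fun t (p : U × U) => p.1 ∈ xm0base_S (κ t) ∧ p.2 = (κ t : MulAut U) p.1) (c, d) with hT
    rcases T.eq_empty_or_nonempty with h0 | ⟨t0, h0⟩
    · simp [h0]
    obtain ⟨a1, a2, a3⟩ := (mem_bipartiteBelow _).1 h0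
    have hF : ∀ t ∈ T, (t0 : H)⁻¹ * t ∈ F := by
      intro t ht
      obtain ⟨b1, b2, b3⟩ := (mem_bipartiteBelow _).1 ht
      have e := xm0base_uniq hB (hP _ a1) (hP _ b1) a2 b2 h1 (a3.symm.trans b3)
      exact (hκ1 (t0⁻¹ * t)).1 (by rw [map_mul, map_inv, Subtype.ext e, inv_mul_cancel])
    refine le_trans (card_le_card_of_injOn
      (t := {1, c, (κ t0 : MulAut U) c, c * (κ t0 : MulAut U) c})
      (fun t => if h : (t0 : H)⁻¹ * t ∈ F then π ⟨_, h⟩ else 1) (fun t ht => ?_)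
      fun t ht t' ht' e => ?_) card_le_four
    · have ht := mem_coe.1 ht
      simp only [dif_pos (hF t ht), coe_insert, coe_singleton, Set.mem_insert_iff,
        Set.mem_singleton_iff]
      refine xm0base_four hB (hP _ a1) a2 h1 (xm0base_norm (hU ▸ h3) ?_)
      rw [hcj, hcj, ← map_mul, ← map_mul, ← map_one π]
      congr 1
      apply Subtype.ext
      have b1 := (hX t ((mem_bipartiteBelow _).1 ht).1).1
      have b2 := (hX t0 a1).1
      change (t0 : H) * ((t0 : H)⁻¹ * t) * (t0 : H)⁻¹ *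
        (t0 * (t0 * ((t0 : H)⁻¹ * t) * (t0 : H)⁻¹) * (t0 : H)⁻¹) * ((t0 : H)⁻¹ * t) = 1
      calc _ = (t : H) * t * ((t0 : H) ^ 3)⁻¹ * t := by group
        _ = 1 := by rw [b2, inv_one, mul_one, ← pow_three', b1]
    · have ht := mem_coe.1 ht
      have ht' := mem_coe.1 ht'
      simp only [dif_pos (hF t ht), dif_pos (hF t' ht')] at e
      have b0 : (t : H)⁻¹ * t' ∈ A := by
        have := (hk (⟨_, hF t ht⟩⁻¹ * ⟨_, hF t' ht'⟩)).1
          (by rw [map_mul, map_inv, e, inv_mul_cancel])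
        simpa [mul_assoc] using this
      have b1 := (hX t ((mem_bipartiteBelow _).1 ht).1).1
      have b2 := (hX t' ((mem_bipartiteBelow _).1 ht').1).1
      have b3 : Commute (t : H) ((t : H)⁻¹ * t') := (t.2 _ b0).symm
      have b4 := b3.mul_pow 3
      rw [mul_inv_cancel_left, b1, b2, one_mul] at b4
      exact Subtype.ext (inv_mul_eq_one.1 (xm0base_one h3A b0 b4.symm))

end Pool.Agent.N9181

end

section

namespace Pool.Agent.N9181

open scoped commutatorElement

section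

variable {V : Type} [AddCommGroup V] [Module K V]

lemma xm0base_zero {c : K} (hc : c ≠ 0) {v : V} (h : c • v = 0) : v = 0 :=
  (smul_eq_zero.1 h).resolve_left hc

lemma xm0base_neg {v : V} (h : -v = v) : v = 0 :=
  xm0base_zero (c := 2) (by decide) (by rw [two_smul]; exact neg_eq_iff_add_eq_zero.1 h)

variable [Module.Finite K V] {H : Type} [Group H]

omit [Module.Finite K V] in
lemma xm0base_free (ρ : Representation K H V) (hinj : Function.Injective ρ) (hF : HFP ρ)
    {t : H} (h3 : t ^ 3 = 1) {v : V} (hv : v ≠ 0) (h : ρ t v = v) : t = 1 :=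
  hinj ((hF t 1 v (by simpa using h3) hv h).trans (map_one ρ).symm)

lemma xm0base_ep [Finite H] (ρ : Representation K H V) (hinj : Function.Injective ρ) (hF : HFP ρ)
    (hE : HEP ρ 3) {v : V} (hv : v ≠ 0) : ∃ t : H, t ^ 3 = 1 ∧ t ≠ 1 ∧ ρ t v = (3 : K) • v := by
  obtain ⟨t, a, h1, h2⟩ := ep3 ρ hE v
  refine ⟨t, hinj ((hF (t ^ 3) a v (by rw [← pow_mul, mul_comm, pow_mul, h1, one_pow]) hv
    ?_).trans (map_one ρ).symm), ?_, h2⟩
  · simp only [pow_three, map_mul, Module.End.mul_apply, h2, map_smul, smul_smul]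
    rw [show (3 * 3 * 3 : K) = 1 by decide, one_smul]
  · rintro rfl
    rw [map_one, Module.End.one_apply] at h2
    refine hv (xm0base_zero (c := 2) (by decide) ?_)
    rw [show (2 : K) = 3 - 1 by decide, sub_smul, ← h2, one_smul, sub_self]

lemma xm0base_pos {a : Module.End K V} {c : K} (h : 0 < ed a c) : ∃ w, w ≠ 0 ∧ a w = c • w := by
  rw [← edOn_top, edOn_pos] at h
  obtain ⟨w, -, h⟩ := h
  exact ⟨w, h⟩

lemma xm0base_half (ρ : Representation K H V) (t f w : H) (hw : t * w = f * t * f⁻¹)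
    (h : ρ (w * w) = -1) : 2 * ed (ρ t) 3 ≤ Module.finrank K V := by
  have hinj : ∀ g, Function.Injective (ρ g) := fun g x y e => by
    simpa [← Module.End.mul_apply, ← map_mul] using congrArg (ρ g⁻¹) e
  have h1 := Submodule.finrank_sup_add_finrank_inf_eq (Module.End.eigenspace (ρ t) 3)
    ((Module.End.eigenspace (ρ t) 3).map (ρ f))
  have h2 : Module.End.eigenspace (ρ t) 3 ⊓ (Module.End.eigenspace (ρ t) 3).map (ρ f) = ⊥ := by
    rw [eq_bot_iff]
    rintro _ ⟨a1, x, a2, rfl⟩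
    rw [SetLike.mem_coe, Module.End.mem_eigenspace_iff] at a1 a2
    have e : ρ w (ρ f x) = ρ f x := by
      apply hinj t
      rw [a1, ← map_smul, ← a2]
      simp only [← Module.End.mul_apply, ← map_mul]
      rw [← mul_assoc, hw, inv_mul_cancel_right]
    have e2 : ρ (w * w) (ρ f x) = ρ f x := by rw [map_mul, Module.End.mul_apply, e, e]
    rw [h] at e2
    exact xm0base_neg e2
  have h3 := (Submodule.equivMapOfInjective _ (hinj f) (Module.End.eigenspace (ρ t) 3)).finrank_eq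
  have h4 := Submodule.finrank_le (Module.End.eigenspace (ρ t) 3 ⊔ (Module.End.eigenspace (ρ t) 3).map (ρ f))
  rw [h2, finrank_bot] at h1
  unfold ed
  omega

end

theorem m0base {V : Type} [AddCommGroup V] [Module K V] [Module.Finite K V]
    {H : Type} [Group H] [Finite H] (h13 : ¬ 13 ∣ Nat.card H) (ρ : Representation K H V) (hinj : Function.Injective ρ) (hirr : Irr ρ) (A F : Subgroup H) (hS : SD A F)
    (hF : HFP ρ) (hE : HEP ρ 3) : Scal ρ := by
  classical
  have hA := freeOn_of_irr ρ hinj hirr A hS.nA hS.cyc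
  by_cases h3A : 3 ∣ Nat.card A
  · obtain ⟨a, ha⟩ := exists_prime_orderOf_dvd_card' 3 h3A
    have a1 : (a : H) ≠ 1 := fun h => by
      rw [show a = 1 from Subtype.ext h, orderOf_one] at ha
      omega
    have a3 : (a : H) ^ 3 = 1 := by
      rw [← Subgroup.coe_pow, ← ha, pow_orderOf_eq_one, Subgroup.coe_one]
    rcases scal_of_three ρ hinj hirr A hS.nA hS.cyc a a.2 a1 a3 with h | ⟨e, p3, -, -, hc⟩
    · exact h
    exfalso
    obtain ⟨x, x0, hx⟩ := xm0base_pos p3
    obtain ⟨y, y0, hy⟩ := xm0base_pos (e ▸ p3)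
    have key : ∀ x y : V, ρ a x = (3 : K) • x → ρ a y = (9 : K) • y → x + y = 0 → y = 0 := by
      intro x y hx hy h
      have h1 := congrArg (ρ a) h
      rw [map_add, hx, hy, map_zero, eq_neg_of_add_eq_zero_left h] at h1
      refine xm0base_zero (c := 6) (by decide) ?_
      rw [← h1, smul_neg, show (6 : K) = 9 - 3 by decide, sub_smul]
      abel
    obtain ⟨t, t3, -, ht⟩ := xm0base_ep ρ hinj hF hE fun h => y0 (key x y hx hy h)
    have c : Commute t a := hc t 1 (by simpa using t3)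
    have cm : ∀ (v : V) (k : K), ρ a v = k • v →
        ρ a (ρ t v - (3 : K) • v) = k • (ρ t v - (3 : K) • v) := by
      intro v k hv
      rw [map_sub, map_smul, ← Module.End.mul_apply, ← map_mul, ← c.eq, map_mul,
        Module.End.mul_apply, hv, map_smul, smul_sub, smul_comm k]
    have s0 : (ρ t x - (3 : K) • x) + (ρ t y - (3 : K) • y) = 0 := by
      rw [map_add, smul_add] at ht
      rw [sub_add_sub_comm, ht, sub_self]
    have s1 := key _ _ (cm x _ hx) (cm y _ hy) s0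
    rw [s1, add_zero] at s0
    rw [sub_eq_zero] at s0 s1
    have u1 : t * a = 1 := xm0base_free ρ hinj hF (by rw [c.mul_pow, t3, a3, one_mul]) y0 (by
      rw [map_mul, Module.End.mul_apply, hy, map_smul, s1, smul_smul,
        show (9 * 3 : K) = 1 by decide, one_smul])
    have u2 := congrArg (fun g => ρ g x) u1
    simp only [map_mul, Module.End.mul_apply, hx, map_smul, s0, smul_smul, map_one,
      Module.End.one_apply] at u2
    refine x0 (xm0base_zero (c := 8) (by decide) ?_)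
    rw [show (8 : K) = 3 * 3 - 1 by decide, sub_smul, u2, one_smul, sub_self]
  exfalso
  obtain ⟨e, e0, he, hp⟩ := pd_sq A F hS.toPD
  have h3 : ¬ 3 ∣ A.relIndex F := fun h =>
    h3A (hp 3 Nat.prime_three (Nat.prime_three.dvd_of_dvd_pow (he ▸ h)))
  have hd := dim1 h13 ρ A F hS.toPD hA ⊤ (fun _ _ _ _ => trivial) e he
  rw [finrank_top] at hd
  obtain ⟨v0, hv0⟩ := hirr.1
  have hn : 0 < Module.finrank K V := Module.finrank_pos_iff_exists_ne_zero.2 ⟨v0, hv0⟩
  have hu : A.relIndex F ≤ Module.finrank K V ^ 2 := by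
    rw [he]
    exact Nat.pow_le_pow_left (Nat.le_of_dvd hn hd) 2
  have fr : ∀ t : H, t ^ 3 = 1 → t ≠ 1 → ∀ v, ρ t v = v → v = 0 := fun t t3 t1 v hv => by
    by_contra h0
    exact t1 (xm0base_free ρ hinj hF t3 h0 hv)
  have hN : ∀ (B : Subgroup H), B.Normal → ∀ t : H, t ∈ Subgroup.normalizer (B : Set H) :=
    fun B hB t => by
      rw [Subgroup.normalizer_eq_top]
      trivial
  have hC : ∀ t : H, t ^ 3 = 1 → t ≠ 1 → t ∈ Subgroup.centralizer (A : Set H) := by
    intro t t3 t1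
    by_contra h
    exact hv0 (mov ρ A hS.cyc hA t 1 (by simpa using t3) (hN A hS.nA t) h (fr t t3 t1) v0
      (by rw [t3, map_one, Module.End.one_apply]))
  have h3F : ¬ 3 ∣ Nat.card F := by
    rw [← Subgroup.card_mul_index (A.subgroupOf F),
      Nat.card_congr (Subgroup.subgroupOfEquivOfLe hS.le).toEquiv, Nat.prime_three.dvd_mul]
    exact not_or.2 ⟨h3A, h3⟩
  have hnF : ∀ t : H, t ^ 3 = 1 → t ≠ 1 → t ∉ F := fun t t3 t1 h => t1 (xm0base_one h3F h t3)
  have hq : ∀ t : H, t ^ 3 = 1 → t ≠ 1 → ∀ f ∈ F, ⁅t⁻¹, f⁆ ∉ A →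
      ⁅t⁻¹, f⁆ * ⁅t⁻¹, f⁆ ∈ A ∧ ρ (⁅t⁻¹, f⁆ * ⁅t⁻¹, f⁆) = -1 := fun t t3 t1 =>
    quad ρ hirr.1 A F hS.toPD hA t t3 (hC t t3 t1) (hN F hS.nF t) h3 (fr t t3 t1)
  have := Fintype.ofFinite (Subgroup.centralizer (A : Set H))
  let X : Finset (Subgroup.centralizer (A : Set H)) :=
    Finset.univ.filter fun t => (t : H) ^ 3 = 1 ∧ (t : H) ≠ 1
  have hX := xm0base_count A F hS h3A h3 X fun t ht => by
    obtain ⟨t3, t1⟩ := (Finset.mem_filter.1 ht).2
    refine ⟨t3, hnF _ t3 t1, fun f hf hw => ?_⟩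
    have h := hq (t : H)⁻¹ (by rw [inv_pow, t3, inv_one]) (inv_ne_one.2 t1) f hf
    rw [inv_inv] at h
    refine ⟨(h hw).1, fun h0 => hv0 (xm0base_neg ?_)⟩
    have h1 := congrArg (fun g => ρ g v0) h0
    simp only [map_pow, (h hw).2] at h1
    simpa [pow_three] using h1
  have hlt := num5 _ _ _ hn hu hX
  have := (card_sub (⊤ : Submodule K V)).1
  have := Fintype.ofFinite V
  have hV : Fintype.card V = 13 ^ Module.finrank K V := by
    rw [Module.card_eq_pow_finrank (K := K), ZMod.card]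
  have hcov : Finset.univ.erase (0 : V) ⊆ X.biUnion fun t =>
      (Finset.univ.filter fun v => v ∈ Module.End.eigenspace (ρ t) 3).erase 0 := by
    intro v hv
    have v0 := (Finset.mem_erase.1 hv).1
    obtain ⟨t, t3, t1, ht⟩ := xm0base_ep ρ hinj hF hE v0
    refine Finset.mem_biUnion.2 ⟨⟨t, hC t t3 t1⟩, Finset.mem_filter.2 ⟨Finset.mem_univ _, t3, t1⟩,
      Finset.mem_erase.2 ⟨v0, Finset.mem_filter.2 ⟨Finset.mem_univ _, ?_⟩⟩⟩
    exact Module.End.mem_eigenspace_iff.2 ht
  have hle := (Finset.card_le_card hcov).trans (Finset.card_biUnion_le_card_mul _ _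
    (13 ^ (Module.finrank K V / 2) - 1) fun t ht => ?_)
  · rw [Finset.card_erase_of_mem (Finset.mem_univ _), Finset.card_univ, hV] at hle
    omega
  obtain ⟨t3, t1⟩ := (Finset.mem_filter.1 ht).2
  obtain ⟨f, hf, hw⟩ : ∃ f ∈ F, ⁅(t : H)⁻¹, f⁆ ∉ A := by
    by_contra h
    refine hnF _ t3 t1 (inv_mem_iff.1 (hS.ff _ (inv_mem t.2) fun y hy => ?_))
    by_contra h0
    exact h ⟨y, hy, h0⟩
  have h2 := xm0base_half ρ t f _ (by rw [commutatorElement_def]; group) (hq _ t3 t1 f hf hw).2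
  rw [Finset.card_erase_of_mem (by simp), ← Fintype.card_subtype, ← Nat.card_eq_fintype_card,
    (card_sub _).2]
  exact Nat.sub_le_sub_right (Nat.pow_le_pow_right (by norm_num) (by unfold ed at h2; omega)) 1

end Pool.Agent.N9181

end

section

namespace Pool.Agent.N9181

open scoped commutatorElement

section

variable {V : Type} [AddCommGroup V] [Module K V] {H : Type} [Group H]

theorem xblocks_ind {I : Type} (W : I → Submodule K V)
    (h : ∀ i j, i ≠ j → ∃ f : Module.End K V, (∀ k, ∀ w ∈ W k, f w ∈ W k) ∧ (∀ w ∈ W j, f w = 0) ∧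
      ∀ w ∈ W i, f w = 0 → w = 0) : iSupIndep W := by
  classical
  rw [iSupIndep_iff_finsetSum_eq_zero_imp_eq_zero]
  intro s
  induction s using Finset.induction_on with
  | empty => intro v _ _ i hi; exact absurd hi (Finset.notMem_empty i)
  | insert j s hj ih =>
    intro v hv h0
    rw [Finset.sum_insert hj] at h0
    have h1 : ∀ i ∈ s, v i = 0 := fun i hi => by
      obtain ⟨f, f1, f2, f3⟩ := h i j fun e => hj (e ▸ hi)
      refine f3 _ (hv i (Finset.mem_insert_of_mem hi)) (ih (fun k => f (v k))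
        (fun k hk => f1 k _ (hv k (Finset.mem_insert_of_mem hk))) ?_ i hi)
      have h2 := congrArg f h0
      rwa [map_add, f2 _ (hv j (Finset.mem_insert_self j s)), zero_add, map_sum, map_zero] at h2
    intro i hi
    rcases Finset.mem_insert.1 hi with rfl | hi
    · rwa [Finset.sum_eq_zero h1, add_zero] at h0
    · exact h1 i hi

theorem xblocks_top {ρ : Representation K H V} (hirr : Irr ρ) {I : Type} (W : I → Submodule K V)
    (h : ∀ g i, ∃ j, ∀ w ∈ W i, ρ g w ∈ W j) {i : I} (hi : W i ≠ ⊥) : iSup W = ⊤ := by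
  refine (hirr.2 _ fun g => ?_).resolve_left fun e => hi (le_bot_iff.1 (e ▸ le_iSup W i))
  refine (iSup_le fun k w hw => ?_ : iSup W ≤ (iSup W).comap (ρ g))
  obtain ⟨j, hj⟩ := h g k
  exact le_iSup W j (hj w hw)

theorem xblocks_irr {ρ : Representation K H V} (hirr : Irr ρ) {I : Type} [MulAction H I]
    {W : I → Submodule K V} (h : BD ρ I W) (i : I) (W' : Submodule K V) (h1 : W' ≤ W i)
    (h2 : ∀ g : H, g • i = i → ∀ w ∈ W', ρ g w ∈ W') : W' = ⊥ ∨ W' = W i := by
  refine (em _).imp_right fun h0 => eq_of_le_of_inf_le_of_le_sup h1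
    ((iSupIndep_def.1 h.ind i).le_bot.trans bot_le) (le_top.trans ?_)
  rw [← xblocks_top hirr (fun g => W'.map (ρ g)) (i := 1) (fun g g' => ⟨g * g', ?_⟩)
    (by rwa [map_one, Module.End.one_eq_id, Submodule.map_id])]
  · refine iSup_le fun g => ?_
    rintro _ ⟨w, hw, rfl⟩
    by_cases e : g • i = i
    · exact Submodule.mem_sup_left (h2 g e w hw)
    · exact Submodule.mem_sup_right (le_iSup₂_of_le (f := fun j (_ : j ≠ i) => W j) _ e le_rfl
        (h.map g i w (h1 hw)))
  · rintro _ ⟨w, hw, rfl⟩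
    exact ⟨w, hw, by rw [map_mul, Module.End.mul_apply]⟩

/-- the fixed space -/
noncomputable def xblocksW (ρ : Representation K H V) (J : Subgroup H) : Submodule K V :=
  Representation.invariants (ρ.comp J.subtype)

theorem xblocks_mem {ρ : Representation K H V} {J : Subgroup H} {v : V} :
    v ∈ xblocksW ρ J ↔ ∀ y ∈ J, ρ y v = v :=
  Subtype.forall

open Pointwise in
/-- conjugation of subgroups -/
abbrev xblocksA (H : Type) [Group H] : MulAction H (Subgroup H) :=
  MulAction.compHom _ (MulAut.conj (G := H))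

theorem xblocks_conj {h y : H} {J : Subgroup H} :
    y ∈ (xblocksA H).smul h J ↔ h⁻¹ * y * h ∈ J :=
  Subgroup.mem_pointwise_smul_iff_inv_smul_mem

theorem xblocks_map {ρ : Representation K H V} (h : H) {J : Subgroup H} {w : V}
    (hw : w ∈ xblocksW ρ J) : ρ h w ∈ xblocksW ρ ((xblocksA H).smul h J) :=
  xblocks_mem.2 fun y hy => by
    have h1 := congrArg (ρ h) (xblocks_mem.1 hw _ (xblocks_conj.1 hy))
    rwa [← Module.End.mul_apply, ← map_mul, mul_assoc, mul_inv_cancel_left, map_mul] at h1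

theorem xblocks_max [Finite H] {ρ : Representation K H V} (hirr : Irr ρ) (B : Subgroup H) :
    ∃ J ≤ B, xblocksW ρ J ≠ ⊥ ∧ ∀ y ∈ B, ∀ v ∈ xblocksW ρ J, v ≠ 0 → ρ y v = v → y ∈ J := by
  obtain ⟨v₀, hv₀⟩ := hirr.1
  obtain ⟨J, ⟨h1, h2⟩, h3⟩ := (Set.toFinite {J | J ≤ B ∧ xblocksW ρ J ≠ ⊥}).exists_maximal
    ⟨⊥, bot_le, (Submodule.ne_bot_iff _).2 ⟨v₀, xblocks_mem.2 fun y hy => by
      rw [Subgroup.mem_bot.1 hy, map_one, Module.End.one_apply], hv₀⟩⟩
  refine ⟨J, h1, h2, fun y hy v hv h0 e => ?_⟩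
  let S : Subgroup H :=
    { carrier := {y | ρ y v = v}
      one_mem' := by simp
      mul_mem' := fun {a b} (ha : ρ a v = v) (hb : ρ b v = v) => show ρ (a * b) v = v by
        rw [map_mul, Module.End.mul_apply, hb, ha]
      inv_mem' := fun {a} (ha : ρ a v = v) => show ρ a⁻¹ v = v by
        conv_lhs => rw [← ha, ← Module.End.mul_apply, ← map_mul, inv_mul_cancel, map_one,
          Module.End.one_apply] }
  exact h3 (y := B ⊓ S) ⟨inf_le_left, (Submodule.ne_bot_iff _).2
    ⟨v, xblocks_mem.2 fun _ hz => hz.2, h0⟩⟩ (le_inf h1 (xblocks_mem.1 hv)) ⟨hy, e⟩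

end

theorem blocks {V : Type} [AddCommGroup V] [Module K V] [Module.Finite K V]
    {H : Type} [Group H] [Finite H] (ρ : Representation K H V) (hinj : Function.Injective ρ) (hirr : Irr ρ) (B : Subgroup H)
    (hB : B.Normal) (hc : ∀ a ∈ B, ∀ b ∈ B, a * b = b * a) (hn : ¬ IsCyclic B) :
    ∃ (I : Type) (_ : Fintype I) (_ : MulAction H I) (W : I → Submodule K V)
      (J : I → Subgroup H), MulAction.IsPretransitive H I ∧ 1 < Fintype.card I ∧ BD ρ I W ∧
      (∀ i, IsFix ρ (J i) (W i)) ∧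
      (∀ i, MulAction.stabilizer H i ≤ Subgroup.normalizer (J i : Set H)) ∧
      ∀ (i : I) (W' : Submodule K V), W' ≤ W i →
        (∀ h : H, h • i = i → ∀ w ∈ W', ρ h w ∈ W') → W' = ⊥ ∨ W' = W i := by
  obtain ⟨J₀, h1, h2, h3⟩ := xblocks_max hirr B
  let _ := xblocksA H
  let _ := Fintype.ofFinite (MulAction.orbit H J₀)
  have hm : ∀ (h y : H) (J : Subgroup H), y ∈ h • J ↔ h⁻¹ * y * h ∈ J := fun _ _ _ => xblocks_conj
  have key : ∀ i : MulAction.orbit H J₀, i.1 ≤ B ∧ xblocksW ρ i.1 ≠ ⊥ ∧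
      ∀ y ∈ B, ∀ v ∈ xblocksW ρ i.1, v ≠ 0 → ρ y v = v → y ∈ i.1 := by
    rintro ⟨_, h, rfl⟩
    have hi : ∀ (g : H) {v}, v ≠ 0 → ρ g v ≠ 0 := fun g v hv e => hv (by
      rw [← ρ.inv_self_apply g v, e, map_zero])
    refine ⟨fun y hy => ?_, ?_, fun y hy v hv h0 e => ?_⟩
    · simpa [mul_assoc] using hB.conj_mem _ (h1 ((hm _ _ _).1 hy)) h
    · obtain ⟨v, hv, h0⟩ := (Submodule.ne_bot_iff _).1 h2
      exact (Submodule.ne_bot_iff _).2 ⟨_, xblocks_map h hv, hi h h0⟩
    · have h4 : ρ h⁻¹ v ∈ xblocksW ρ (h⁻¹ • h • J₀) := xblocks_map h⁻¹ hv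
      rw [inv_smul_smul] at h4
      refine (hm _ _ _).2 (h3 _ (hB.conj_mem' y hy h) _ h4 (hi _ h0) ?_)
      rw [map_mul, map_mul, Module.End.mul_apply, Module.End.mul_apply, ρ.self_inv_apply, e]
  have hle : ∀ i j : MulAction.orbit H J₀, j.1 ≤ i.1 → i = j := fun i j h => by
    obtain ⟨v, hv, h0⟩ := (Submodule.ne_bot_iff _).1 (key i).2.1
    exact Subtype.ext (le_antisymm (fun y hy => (key j).2.2 y ((key i).1 hy) v
      (xblocks_mem.2 fun z hz => xblocks_mem.1 hv z (h hz)) h0 (xblocks_mem.1 hv y hy)) h)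
  have hBD : BD ρ (MulAction.orbit H J₀) fun i => xblocksW ρ i.1 := by
    refine ⟨fun h i w hw => xblocks_map h hw, xblocks_ind _ fun i j hij => ?_,
      xblocks_top hirr _ (fun g i => ⟨g • i, fun w hw => xblocks_map g hw⟩)
        (key ⟨J₀, MulAction.mem_orbit_self J₀⟩).2.1, fun i => (key i).2.1⟩
    obtain ⟨y, hy, hy'⟩ := SetLike.not_le_iff_exists.1 fun h => hij (hle i j h)
    have hb := (key j).1 hy
    refine ⟨ρ y - 1, fun k w hw => sub_mem (xblocks_mem.2 fun z hz => ?_) hw,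
      fun w hw => sub_eq_zero.2 (xblocks_mem.1 hw y hy), fun w hw e => by_contra fun h0 =>
        hy' ((key i).2.2 y hb w hw h0 (sub_eq_zero.1 e))⟩
    rw [← Module.End.mul_apply, ← map_mul, hc z ((key k).1 hz) y hb, map_mul,
      Module.End.mul_apply, xblocks_mem.1 hw z hz]
  refine ⟨MulAction.orbit H J₀, inferInstance, inferInstance, fun i => xblocksW ρ i.1,
    fun i => i.1, inferInstance, ?_, hBD, fun i v => xblocks_mem, fun i h hh => ?_,
    xblocks_irr hirr hBD⟩
  · by_contra h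
    have : Subsingleton (MulAction.orbit H J₀) :=
      Fintype.card_le_one_iff_subsingleton.1 (not_lt.1 h)
    have h4 : ⊤ ≤ xblocksW ρ J₀ := hBD.top.ge.trans (iSup_le fun i => by
      rw [Subsingleton.elim i ⟨J₀, MulAction.mem_orbit_self J₀⟩])
    exact hn (freeCyc ρ B (fun a ha v h0 e => hinj ((LinearMap.ext fun w => xblocks_mem.1
      (h4 trivial) a (h3 a ha v (h4 trivial) h0 e)).trans (map_one ρ).symm)) hirr.1 hc)
  · refine Subgroup.mem_normalizer_iff''.2 fun y => ?_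
    rw [← hm, show h • i.1 = i.1 from congrArg Subtype.val hh]

end Pool.Agent.N9181

end

section

namespace Pool.Agent.N9181

open scoped commutatorElement

/-- the statement in dimension `n` -/
def xm0St (n : ℕ) : Prop :=
  ∀ (V : Type) [AddCommGroup V] [Module K V] [Module.Finite K V]
    (H : Type) [Group H] [Finite H] [Group.IsSolvable H], Module.finrank K V = n →
    ¬ 13 ∣ Nat.card H → ∀ ρ : Representation K H V, (∃ v : V, v ≠ 0) → HFP ρ → HEP ρ 3 → Scal ρ

theorem xm0_three : (3 : K) ≠ 0 := by decide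

theorem xm0_block {V : Type} [AddCommGroup V] [Module K V] [Module.Finite K V]
    {H : Type} [Group H] [Finite H] [Group.IsSolvable H] (h13 : ¬ 13 ∣ Nat.card H)
    (ρ : Representation K H V) (hF : HFP ρ) (hE : HEP ρ 3)
    (ih : ∀ m < Module.finrank K V, xm0St m) {I : Type} [Fintype I] [MulAction H I]
    (W : I → Submodule K V) (hB : BD ρ I W) (hI : 1 < Fintype.card I) : Scal ρ := by
  refine step0 ρ W hB hF hE fun i => ?_
  obtain ⟨σ, hσ⟩ := exists_res ρ (MulAction.stabilizer H i) (W i) fun h hh w hw => by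
    have := hB.map h i w hw
    rwa [MulAction.mem_stabilizer_iff.1 hh] at this
  have h1 : ¬ 13 ∣ Nat.card (MulAction.stabilizer H i) := fun h =>
    h13 (h.trans (Subgroup.card_subgroup_dvd_card _))
  have h2 : ∃ v : W i, v ≠ 0 := by
    obtain ⟨v, hv, hv0⟩ := (Submodule.ne_bot_iff _).1 (hB.ne i)
    exact ⟨⟨v, hv⟩, fun h => hv0 (congrArg Subtype.val h)⟩
  have h3 : HFP σ := by
    intro h a v ha hv hfix
    have e : ρ h = 1 := hF h a v (by exact_mod_cast congrArg Subtype.val ha)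
      (fun h0 => hv (Subtype.ext h0)) (by rw [← hσ, hfix])
    refine LinearMap.ext fun w => Subtype.ext ?_
    rw [hσ, e]
    rfl
  have h4 : HEP σ 3 := by
    intro w
    by_cases hw : w = 0
    · exact ⟨1, by rw [hw, map_zero, smul_zero]⟩
    obtain ⟨h, hh⟩ := hE w
    have hi : h • i = i := by
      by_contra hne
      have d : Disjoint (W (h • i)) (W i) := hB.ind.pairwiseDisjoint hne
      have m1 : ρ h w ∈ W (h • i) := hB.map h i w w.2
      have m2 : ρ h w ∈ W i := hh ▸ (W i).smul_mem _ w.2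
      have z : ρ h w = 0 := (Submodule.disjoint_def.1 d) _ m1 m2
      rw [hh, smul_eq_zero] at z
      rcases z with z | z
      · exact xm0_three z
      · exact hw (Subtype.ext z)
    exact ⟨⟨h, MulAction.mem_stabilizer_iff.2 hi⟩, Subtype.ext (by rw [hσ]; exact hh)⟩
  obtain ⟨z, hz⟩ := ih _ (rank_lt ρ W hB hI i) (W i) (MulAction.stabilizer H i) rfl h1 σ h2 h3 h4
  refine ⟨z, MulAction.mem_stabilizer_iff.1 z.2, fun w hw => ?_⟩
  have := congrArg Subtype.val (hz ⟨w, hw⟩)
  rwa [hσ] at this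

/-- the trivial action on two points -/
@[reducible] def xm0Triv (H : Type) [Group H] : MulAction H Bool where
  smul _ b := b
  one_smul _ := rfl
  mul_smul _ _ _ := rfl

theorem xm0_faithful {V : Type} [AddCommGroup V] [Module K V] [Module.Finite K V]
    {H : Type} [Group H] [Finite H] [Group.IsSolvable H] (h13 : ¬ 13 ∣ Nat.card H)
    (ρ : Representation K H V) (hinj : Function.Injective ρ) (hV : ∃ v : V, v ≠ 0) (hF : HFP ρ)
    (hE : HEP ρ 3) (ih : ∀ m < Module.finrank K V, xm0St m) : Scal ρ := by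
  by_cases hirr : Irr ρ
  · by_cases hc : ∀ B : Subgroup H, B.Normal → (∀ a ∈ B, ∀ b ∈ B, a * b = b * a) → IsCyclic B
    · obtain ⟨A, F, hS⟩ := exists_sd hc
      exact m0base h13 ρ hinj hirr A F hS hF hE
    · push Not at hc
      obtain ⟨B, hB, hcomm, hn⟩ := hc
      obtain ⟨I, _, _, W, J, -, hI, hBD, -⟩ := blocks ρ hinj hirr B hB hcomm hn
      exact xm0_block h13 ρ hF hE ih W hBD hI
  · have hex : ∃ W : Submodule K V, (∀ h, ∀ v ∈ W, ρ h v ∈ W) ∧ W ≠ ⊥ ∧ W ≠ ⊤ := by
      by_contra hne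
      refine hirr ⟨hV, fun W hW => ?_⟩
      by_contra h2
      push Not at h2
      exact hne ⟨W, hW, h2.1, h2.2⟩
    obtain ⟨W, hW, hb, ht⟩ := hex
    have hc : (Nat.card H : K) ≠ 0 := fun h => h13 ((ZMod.natCast_eq_zero_iff _ _).1 h)
    obtain ⟨W', hW', hcompl⟩ := exists_compl hc ρ W hW
    let _ := xm0Triv H
    refine xm0_block h13 ρ hF hE ih (I := Bool) (fun b => cond b W W') ⟨?_, ?_, ?_, ?_⟩
      (by decide)
    · intro h i w hw
      cases i
      · exact hW' h w hw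
      · exact hW h w hw
    · intro i
      cases i
      · refine hcompl.disjoint.symm.mono_right (iSup₂_le fun j hj => ?_)
        cases j
        · exact absurd rfl hj
        · exact le_rfl
      · refine hcompl.disjoint.mono_right (iSup₂_le fun j hj => ?_)
        cases j
        · exact le_rfl
        · exact absurd rfl hj
    · rw [iSup_bool_eq]
      exact hcompl.sup_eq_top
    · intro i
      cases i
      · intro h
        have h' : W' = ⊥ := h
        have := hcompl.sup_eq_top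
        rw [h', sup_bot_eq] at this
        exact ht this
      · exact hb

theorem xm0_all (n : ℕ) : xm0St n := by
  induction n using Nat.strong_induction_on with
  | _ n ih =>
    intro V _ _ _ H _ _ _ hn h13 ρ hV hF hE
    obtain ⟨H', _, _, π, ρ', hs, hinj, hπ, hcard, -⟩ := exists_faithful ρ
    have : Group.IsSolvable H' := Group.isSolvable_of_surjective hs
    have hF' : HFP ρ' := by
      intro h a v ha hv hfix
      obtain ⟨g, rfl⟩ := hs h
      obtain ⟨e, b, h1, -, h2⟩ := p_part 3 Nat.prime_three g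
      have h3 : π (g ^ e) = π g := h2 H' π a ha
      rw [← h3, hπ] at hfix ⊢
      exact hF _ b v h1 hv hfix
    have hE' : HEP ρ' 3 := fun v => by
      obtain ⟨h, hh⟩ := hE v
      exact ⟨π h, by rw [hπ]; exact hh⟩
    obtain ⟨z, hz⟩ := xm0_faithful (fun h => h13 (h.trans hcard)) ρ' hinj hV hF' hE'
      (fun m hm => ih m (hn ▸ hm))
    obtain ⟨g, rfl⟩ := hs z
    exact ⟨g, fun v => by rw [← hπ]; exact hz v⟩

theorem m0 {V : Type} [AddCommGroup V] [Module K V] [Module.Finite K V]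
    {H : Type} [Group H] [Finite H] [Group.IsSolvable H] (h13 : ¬ 13 ∣ Nat.card H) (ρ : Representation K H V) (hV : ∃ v : V, v ≠ 0) (hF : HFP ρ)
    (hE : HEP ρ 3) : Scal ρ :=
  xm0_all _ V H rfl h13 ρ hV hF hE

end Pool.Agent.N9181

end

section

namespace Pool.Agent.N9181

open scoped commutatorElement

section
open Polynomial Finset
variable {L : Type} [Field L] {M : Type} [AddCommGroup M] [Module L M]

theorem xhhsa_diag {ι : Type} [Fintype ι] [DecidableEq L] (β : Module.Basis ι L M)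
    (f : Module.End L M) (d : ι → L) (h : ∀ i, f (β i) = d i • β i) (μ : L) :
    Module.finrank L (f.eigenspace μ) = (univ.filter fun i => d i = μ).card := by
  have h1 : ∀ x i, β.repr (f x) i = d i * β.repr x i := fun x i => by
    classical
    conv_lhs => rw [← β.sum_repr x, map_sum, map_sum]
    simp [h, Finsupp.single_apply, mul_comm]
  have h2 : f.eigenspace μ = Submodule.span L (Set.range fun i : {i // d i = μ} => β i) := by
    ext x
    rw [show (Set.range fun i : {i // d i = μ} => β i) = β '' {i | d i = μ} from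
      (Set.image_eq_range _ _).symm, β.mem_span_image, Module.End.mem_eigenspace_iff, β.ext_elem_iff]
    refine forall_congr' fun i => ?_
    simp [h1, or_comm, imp_iff_not_or]
  rw [h2, ← Fintype.card_subtype]
  exact finrank_span_eq_card (β.linearIndependent.comp _ Subtype.val_injective)

theorem xhhsa_ker (a : Module.End L M) (s : Finset L) :
    LinearMap.ker (aeval a (∏ μ ∈ s, (X - C μ))) ≤ ⨆ μ ∈ s, a.eigenspace μ := by
  classical
  induction s using Finset.induction_on with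
  | empty => simp [Module.End.one_eq_id]
  | insert μ s hμ ih =>
    rw [prod_insert hμ, ← sup_ker_aeval_eq_ker_aeval_mul_of_coprime _ (IsCoprime.prod_right
      fun ν hν => isCoprime_X_sub_C_of_isUnit_sub
        (sub_ne_zero.2 (ne_of_mem_of_not_mem hν hμ).symm).isUnit),
      Finset.iSup_insert]
    refine sup_le_sup (fun x hx => ?_) ih
    simpa [sub_eq_zero] using hx

end

theorem hhs_comb {Γ : Type} [AddCommGroup Γ] [Fintype Γ] (m : Γ → ℕ) (h0 : m 0 = 0)
    (h : ∀ ξ : Γ, ξ ≠ 0 → ∑ ν, m ν * m ν = ∑ ν, m ν * m (ν + ξ) + 1)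
    (h2 : 2 ≤ ∑ ν, m ν) : ∀ ν : Γ, ν ≠ 0 → m ν = 1 := by
  classical
  have h1 : ∀ ξ, m ξ ≤ 1 := fun ξ => by
    by_cases hξ : ξ = 0
    · rw [hξ, h0]
      exact Nat.zero_le _
    have a1 : ∑ ν, (m (ν + ξ) : ℤ) * m (ν + ξ) = ∑ ν, (m ν : ℤ) * m ν :=
      Equiv.sum_comp (Equiv.addRight ξ) fun ν => (m ν : ℤ) * m ν
    have a2 : ∑ ν, (m ν : ℤ) * m ν = ∑ ν, (m ν : ℤ) * m (ν + ξ) + 1 := by exact_mod_cast h ξ hξ
    have a3 : ∑ ν, ((m ν : ℤ) - m (ν + ξ)) ^ 2 = 2 := by
      simp only [sub_sq, Finset.sum_add_distrib, Finset.sum_sub_distrib, mul_assoc,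
        ← Finset.mul_sum]
      simp only [sq]
      linarith
    have a4 := Finset.single_le_sum (f := fun ν => ((m ν : ℤ) - m (ν + ξ)) ^ 2)
      (fun _ _ => sq_nonneg _) (Finset.mem_univ 0)
    rw [a3, zero_add, h0] at a4
    by_contra a5
    have a6 : (2 : ℤ) ≤ m ξ := by omega
    push_cast at a4
    nlinarith
  have h3 : ∑ ν, m ν * m ν = ∑ ν, m ν := Finset.sum_congr rfl fun ν _ => by
    have := h1 ν
    interval_cases m ν <;> rfl
  have h4 : ∑ ξ, ∑ ν, m ν * m (ν + ξ) = (∑ ν, m ν) * ∑ ν, m ν := by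
    rw [Finset.sum_comm, Finset.sum_mul]
    exact Finset.sum_congr rfl fun ν _ => (Finset.mul_sum ..).symm.trans
      (congrArg _ (Equiv.sum_comp (Equiv.addLeft ν) m))
  have h5 := Finset.sum_congr rfl fun ξ (hξ : ξ ∈ Finset.univ.erase 0) =>
    h ξ (Finset.ne_of_mem_erase hξ)
  rw [← Finset.add_sum_erase _ _ (Finset.mem_univ 0)] at h4
  simp only [add_zero, h3, Finset.sum_add_distrib, Finset.sum_const, smul_eq_mul] at h4 h5
  have h6 : ∑ ν, m ν = (Finset.univ.erase (0 : Γ)).card := by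
    obtain ⟨k, hk⟩ := Nat.exists_eq_add_of_le h2
    refine Nat.eq_of_mul_eq_mul_right (show 0 < k + 1 by omega) ?_
    rw [hk] at h4 h5 ⊢
    linarith
  rw [← Finset.add_sum_erase _ _ (Finset.mem_univ 0), h0, zero_add, Finset.card_eq_sum_ones] at h6
  exact fun ν hν => (Finset.sum_eq_sum_iff_of_le fun ν _ => h1 ν).1 h6 ν (by simpa using hν)

theorem hhs_end {L : Type} [Field L] {M : Type} [AddCommGroup M] [Module L M]
    [Module.Finite L M] (q : ℕ) [NeZero q] (ζ : L) (hζ : IsPrimitiveRoot ζ q)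
    (a b : Module.End L M) (hab : a * b = 1) (ha : a ^ q = 1) :
    (∑ ν : ZMod q, Module.finrank L (a.eigenspace (ζ ^ ν.val)) = Module.finrank L M) ∧
    ∀ ξ : ZMod q, Module.finrank L (Module.End.eigenspace
        (LinearMap.mulLeft L a ∘ₗ LinearMap.mulRight L b : Module.End L (Module.End L M))
        (ζ ^ ξ.val)) =
      ∑ ν : ZMod q, Module.finrank L (a.eigenspace (ζ ^ ν.val)) *
        Module.finrank L (a.eigenspace (ζ ^ (ν + ξ).val)) := by
  classical
  have inj : Function.Injective fun ν : ZMod q => ζ ^ ν.val := fun x y h =>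
    ZMod.val_injective q (hζ.pow_inj x.val_lt y.val_lt h)
  have add : ∀ x y : ZMod q, ζ ^ (x + y).val = ζ ^ x.val * ζ ^ y.val :=
    (AddChar.zmodChar q hζ.pow_eq_one).map_add_eq_mul
  have top : ⨆ ν : ZMod q, a.eigenspace (ζ ^ ν.val) = ⊤ := by
    have h := xhhsa_ker a (Polynomial.nthRootsFinset q 1)
    rw [← Polynomial.X_pow_sub_one_eq_prod (NeZero.pos q) hζ, map_sub, map_pow, Polynomial.aeval_X,
      ha, map_one, sub_self, LinearMap.ker_zero] at h
    refine top_le_iff.1 (h.trans (iSup₂_le fun μ hμ => ?_))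
    obtain ⟨i, hi, rfl⟩ := hζ.eq_pow_of_pow_eq_one
      ((Polynomial.mem_nthRootsFinset (NeZero.pos q) 1).1 hμ)
    exact le_iSup_of_le (i : ZMod q) (by rw [ZMod.val_cast_of_lt hi])
  obtain ⟨ι, _, β, c, hc⟩ : ∃ (ι : Type) (_ : Fintype ι) (β : Module.Basis ι L M) (c : ι → ZMod q),
      ∀ i, a (β i) = ζ ^ (c i).val • β i := by
    have hI := DirectSum.isInternal_submodule_of_iSupIndep_of_iSup_eq_top
      (a.eigenspaces_iSupIndep.comp inj) top
    exact ⟨_, inferInstance, hI.collectedBasis fun _ => Module.finBasis L _, Sigma.fst, fun i =>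
      Module.End.mem_eigenspace_iff.1 (hI.collectedBasis_mem _ i)⟩
  have hb : ∀ i, b (β i) = ζ ^ (-c i).val • β i := fun i => by
    have h := LinearMap.congr_fun (mul_eq_one_comm.1 hab) (ζ ^ (-c i).val • β i)
    rwa [Module.End.mul_apply, map_smul a, hc, smul_smul, ← add, neg_add_cancel, ZMod.val_zero,
      pow_zero, one_smul] at h
  have h1 : ∀ ν : ZMod q, Module.finrank L (a.eigenspace (ζ ^ ν.val)) =
      (Finset.univ.filter fun i => c i = ν).card := fun ν => by
    rw [xhhsa_diag β a _ hc]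
    exact congrArg _ (Finset.filter_congr fun i _ => inj.eq_iff)
  simp only [h1]
  refine ⟨by rw [Module.finrank_eq_card_basis β, ← Finset.card_univ,
    Finset.card_eq_sum_card_fiberwise (f := c) (t := Finset.univ) (by simp)], fun ξ => ?_⟩
  rw [xhhsa_diag β.end _ (fun p => ζ ^ (c p.1 + -c p.2).val) fun p => β.ext fun k => ?_,
    Finset.card_eq_sum_card_fiberwise (f := fun p : ι × ι => c p.2) (t := Finset.univ) (by simp)]
  · refine Finset.sum_congr rfl fun ν _ => ?_
    rw [mul_comm, ← Finset.card_product]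
    refine congrArg _ (Finset.ext fun p => ?_)
    simp only [Finset.mem_filter, Finset.mem_univ, true_and, Finset.mem_product]
    refine and_congr_left fun h => inj.eq_iff.trans ?_
    rw [h, add_neg_eq_iff_eq_add, add_comm]
  · simp only [LinearMap.comp_apply, LinearMap.mulLeft_apply, LinearMap.mulRight_apply,
      Module.End.mul_apply, hb, map_smul, LinearMap.smul_apply, Module.Basis.end_apply_apply]
    split_ifs with h
    · rw [hc, smul_smul, add, h, mul_comm]
    · simp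

end Pool.Agent.N9181

end

section

/-! Eigenspaces of an operator that permutes the isotypic parts of a pairing. -/

namespace Pool.Agent.N9181

open Finset Module
open scoped Classical

theorem xhhska_w {L X : Type} [Field L] [Finite X] (s : Equiv.Perm X) (μ : L) (q : ℕ) (hq : q ≠ 0)
    (hμ : μ ^ q = 1) (p : X → Prop) (hp : ∀ y k, p y → (s ^ k) y = y → q ∣ k) :
    ∃ w : X → L, (∀ y, w y ≠ 0) ∧ ∀ y, p (s y) → w (s y) = μ * w y := by
  have h0 : μ ≠ 0 := fun h => by simp [h, hq] at hμ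
  let S := Equiv.Perm.SameCycle.setoid s
  choose k hk using fun y : X =>
    Equiv.Perm.SameCycle.exists_nat_pow_eq (f := s) (Quotient.mk_out (s := S) y)
  have key : ∀ a b : ℕ, ∀ z, p ((s ^ a) z) → (s ^ a) z = (s ^ b) z → a ≤ b → μ ^ a = μ ^ b := by
    intro a b z h1 h2 h3
    obtain ⟨c, rfl⟩ := Nat.exists_eq_add_of_le h3
    obtain ⟨d, rfl⟩ := hp _ c h1 (by
      rw [← Equiv.Perm.mul_apply, ← pow_add, add_comm, ← h2])
    rw [pow_add, pow_mul, hμ, one_pow, mul_one]
  refine ⟨fun y => μ ^ k y, fun y => pow_ne_zero _ h0, fun y hy => ?_⟩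
  have h1 : Quotient.mk S (s y) = Quotient.mk S y :=
    Quotient.sound (Equiv.Perm.SameCycle.symm ⟨1, by simp⟩)
  have h2 := hk (s y)
  have h3 : (s ^ (k y + 1)) (Quotient.mk S y).out = s y := by
    rw [pow_succ', Equiv.Perm.mul_apply, hk y]
  rw [h1] at h2
  show μ ^ k (s y) = μ * μ ^ k y
  rw [← pow_succ']
  rcases le_total (k (s y)) (k y + 1) with h | h
  · exact key _ _ _ (by rwa [h2]) (h2.trans h3.symm) h
  · exact (key _ _ _ (by rwa [h3]) (h3.trans h2.symm) h).symm

/-- a pairing on a finite group with radical `A` -/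
structure xhhskaP {L G : Type} [Field L] [Group G] (A : Subgroup G) (B : G → G → L) : Prop where
  l : ∀ e e' y, B (e * e') y = B e y * B e' y
  r : ∀ e y y', B e (y * y') = B e y * B e y'
  al : ∀ a ∈ A, ∀ y, B a y = 1
  ar : ∀ a ∈ A, ∀ y, B y a = 1
  nl : ∀ y ∉ A, ∃ e, B y e ≠ 1
  nr : ∀ y ∉ A, ∃ e, B e y ≠ 1

namespace xhhskaP

variable {L G : Type} [Field L] [Group G] [Fintype G] {A : Subgroup G} {B : G → G → L}

theorem s1 (h : xhhskaP A B) (y : G) :
    ∑ e, B e y = if y ∈ A then (Fintype.card G : L) else 0 := by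
  split_ifs with hy
  · simp [h.ar y hy]
  · obtain ⟨e, he⟩ := h.nr y hy
    exact sum_hom_units_eq_zero (⟨⟨fun e => B e y, h.al 1 A.one_mem y⟩, fun a b => h.l a b y⟩ :
      G →* L) fun h1 => he (DFunLike.congr_fun h1 e)

theorem s2 (h : xhhskaP A B) (e : G) :
    ∑ y, B e y⁻¹ = if e ∈ A then (Fintype.card G : L) else 0 := by
  rw [show ∑ y, B e y⁻¹ = _ from Equiv.sum_comp (Equiv.inv G) (B e)]
  exact s1 (B := fun a b => B b a) ⟨fun a b c => h.r c a b, fun a b c => h.l b c a, h.ar, h.al,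
    h.nr, h.nl⟩ e

variable {V : Type} [AddCommGroup V] [Module L V]

/-- the isotypic projection up to a factor -/
noncomputable def Q (B : G → G → L) (C : G → End L V) (y : G) : End L V := ∑ e, B e y⁻¹ • C e

theorem q1 (h : xhhskaP A B) {C : G → End L V} (hC : ∀ a b, C (a * b) = C a * C b) (e y : G) :
    C e * Q B C y = B e y • Q B C y := by
  rw [Q, mul_sum, ← Equiv.sum_comp (Equiv.mulLeft e) fun e' => B e' y⁻¹ • C e', smul_sum]
  refine sum_congr rfl fun e' _ => ?_
  rw [Equiv.coe_mulLeft, h.l, hC, smul_smul, ← mul_assoc, ← h.r, mul_inv_cancel,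
    h.ar 1 A.one_mem, one_mul, mul_smul_comm]

theorem q2 (h : xhhskaP A B) {C : G → End L V} (hC : ∀ a b, C (a * b) = C a * C b) (z y : G) :
    Q B C z * Q B C y = (if z⁻¹ * y ∈ A then (Fintype.card G : L) else 0) • Q B C y := by
  rw [← h.s1, sum_smul, Q.eq_1 B C z, sum_mul]
  exact sum_congr rfl fun e _ => by rw [smul_mul_assoc, h.q1 hC, smul_smul, h.r]

/-- a combination of the projections -/
noncomputable def D (B : G → G → L) (C : G → End L V) (w : G → L) : End L V :=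
  ∑ y, w y • Q B C y

theorem d1 (h : xhhskaP A B) {C : G → End L V} (hC : ∀ a b, C (a * b) = C a * C b) {w : G → L}
    (hw : ∀ y, ∀ a ∈ A, w (y * a) = w y) (w' : G → L) :
    D B C w * D B C w' =
      (∑ t : G, if t ∈ A then (Fintype.card G : L) else 0) • D B C fun y => w y * w' y := by
  rw [D.eq_1 B C w', mul_sum, D.eq_1 B C fun y => w y * w' y, smul_sum]
  refine sum_congr rfl fun y _ => ?_
  rw [mul_smul_comm, D, sum_mul, ← Equiv.sum_comp (Equiv.mulLeft y), sum_smul, smul_sum]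
  refine sum_congr rfl fun t _ => ?_
  rw [Equiv.coe_mulLeft, smul_mul_assoc, h.q2 hC, mul_inv_rev, inv_mul_cancel_right, smul_smul,
    smul_smul, smul_smul]
  by_cases ht : t ∈ A
  · rw [if_pos ht, if_pos (A.inv_mem ht), hw y t ht]
    congr 1
    ring
  · rw [if_neg ht, if_neg fun h1 => ht (A.inv_mem_iff.1 h1)]
    simp

theorem d2 (h : xhhskaP A B) {C : G → End L V} (hA : ∀ a ∈ A, C a = 1) :
    (D B C fun y => if y ∈ A then 0 else 1) =
      (∑ t : G, if t ∈ A then (Fintype.card G : L) else 0) • 1 -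
        (∑ t : G, if t ∈ A then (1 : L) else 0) • Q B C 1 := by
  have h1 : ∑ y, Q B C y = (∑ t : G, if t ∈ A then (Fintype.card G : L) else 0) • 1 := by
    simp only [Q]
    rw [sum_comm, sum_smul]
    refine sum_congr rfl fun e _ => ?_
    rw [← sum_smul, h.s2]
    split_ifs with he
    · rw [hA e he]
    · rw [zero_smul, zero_smul]
  rw [← h1, sum_smul, ← sum_sub_distrib]
  refine sum_congr rfl fun y _ => ?_
  by_cases hy : y ∈ A
  · simp [Q, h.ar _ (A.inv_mem hy), h.ar _ A.one_mem, hy]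
  · simp [hy]

theorem d3 {C : G → End L V} (s : G ≃* G) (hs : ∀ e y, B (s e) (s y) = B e y) {Φ : End L V}
    (hΦ : ∀ e, Φ * C e = C (s e) * Φ) (y : G) : Φ * Q B C y = Q B C (s y) * Φ := by
  rw [Q, Q, mul_sum, ← s.toEquiv.sum_comp fun e => B e (s y)⁻¹ • C e, sum_mul]
  refine sum_congr rfl fun e _ => ?_
  rw [mul_smul_comm, smul_mul_assoc, hΦ, ← map_inv, ← hs]
  rfl

theorem d4 {C : G → End L V} (s : G ≃* G) (hs : ∀ e y, B (s e) (s y) = B e y) {Φ : End L V}
    (hΦ : ∀ e, Φ * C e = C (s e) * Φ) {w : G → L} {a b : L} (hw : ∀ y, a * w (s y) = b * w y) :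
    a • (D B C w * Φ) = b • (Φ * D B C w) := by
  rw [D, mul_sum, ← s.toEquiv.sum_comp fun y => w y • Q B C y, sum_mul, smul_sum, smul_sum]
  refine sum_congr rfl fun y _ => ?_
  rw [mul_smul_comm, d3 s hs hΦ, smul_mul_assoc, smul_smul, smul_smul, ← hw]
  rfl

theorem dim [Module.Finite L V] (h : xhhskaP A B) {C : G → End L V}
    (hC : ∀ a b, C (a * b) = C a * C b) (hA : ∀ a ∈ A, C a = 1)
    (hc : (∑ t : G, if t ∈ A then (Fintype.card G : L) else 0) ≠ 0) (s : G ≃* G)
    (hs : ∀ e y, B (s e) (s y) = B e y) (hsA : ∀ y, s y ∈ A ↔ y ∈ A) {Φ : End L V}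
    (hΦ : ∀ e, Φ * C e = C (s e) * Φ) {μ : L} (hμ : μ ≠ 0) {w : G → L} (hw0 : ∀ y, w y ≠ 0)
    (hw1 : ∀ y, ∀ a ∈ A, w (y * a) = w y) (hw2 : ∀ y ∉ A, w (s y) = μ * w y) {o : V} (ho : o ≠ 0)
    (hCo : ∀ e, C e o = o) (hΦo : Φ o = o)
    (H1 : ∀ T, (∀ e, C e T = T) → Φ T = T → ∃ c : L, T = c • o)
    (H2 : ∀ T, (∀ e, C e T = T) → Φ T = μ • T → T = 0) :
    finrank L (Φ.eigenspace 1) = finrank L (Φ.eigenspace μ) + 1 := by
  set c := ∑ t : G, if t ∈ A then (Fintype.card G : L) else 0 with hce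
  set n := ∑ t : G, if t ∈ A then (1 : L) else 0 with hne
  let w0 : G → L := fun y => if y ∈ A then 0 else w y
  let w1 : G → L := fun y => if y ∈ A then 0 else (w y)⁻¹
  have hm : ∀ y, ∀ a ∈ A, (y * a ∈ A ↔ y ∈ A) := fun y a ha => A.mul_mem_cancel_right ha
  have i0 : ∀ y, ∀ a ∈ A, w0 (y * a) = w0 y := fun y a ha => by simp only [w0, hm y a ha, hw1 y a ha]
  have i1 : ∀ y, ∀ a ∈ A, w1 (y * a) = w1 y := fun y a ha => by simp only [w1, hm y a ha, hw1 y a ha]
  have e01 : (fun y => w0 y * w1 y) = fun y => if y ∈ A then 0 else 1 := funext fun y => by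
    by_cases hy : y ∈ A <;> simp [w0, w1, hy, hw0 y]
  have e10 : (fun y => w1 y * w0 y) = fun y => if y ∈ A then 0 else 1 := by
    rw [← e01]
    exact funext fun y => mul_comm _ _
  have p01 := h.d1 hC i0 w1
  have p10 := h.d1 hC i1 w0
  rw [e01, h.d2 hA, ← hce, ← hne] at p01
  rw [e10, h.d2 hA, ← hce, ← hne] at p10
  have f0 : (1 : L) • (D B C w0 * Φ) = μ • (Φ * D B C w0) := d4 s hs hΦ fun y => by
    by_cases hy : y ∈ A <;> simp [w0, hsA, hy, hw2 y]
  have f1 : μ • (D B C w1 * Φ) = (1 : L) • (Φ * D B C w1) := d4 s hs hΦ fun y => by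
    by_cases hy : y ∈ A
    · simp [w1, hsA, hy]
    · simp only [w1, hsA, hy, if_false, hw2 y hy]
      field_simp
  have hP : ∀ T e, C e (Q B C 1 T) = Q B C 1 T := fun T e => by
    simpa [h.ar 1 A.one_mem] using LinearMap.congr_fun (h.q1 hC e 1) T
  have hP' : ∀ T, Φ (Q B C 1 T) = Q B C 1 (Φ T) := fun T => by
    simpa using LinearMap.congr_fun (d3 s hs hΦ 1) T
  let g := D B C w1 ∘ₗ (Φ.eigenspace 1).subtype
  have hr : LinearMap.range g = Φ.eigenspace μ := by
    refine le_antisymm ?_ fun T hT => ?_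
    · rintro _ ⟨⟨T, hT⟩, rfl⟩
      rw [End.mem_eigenspace_iff, one_smul] at hT
      rw [End.mem_eigenspace_iff]
      simpa [g, hT] using (LinearMap.congr_fun f1 T).symm
    · rw [End.mem_eigenspace_iff] at hT
      have h1 : Q B C 1 T = 0 := H2 _ (hP T) (by rw [hP', hT, map_smul])
      have h2 : Φ (D B C w0 T) = D B C w0 T := by
        have := LinearMap.congr_fun f0 T
        simp only [one_smul, End.mul_apply, hT, map_smul, LinearMap.smul_apply] at this
        exact (smul_right_injective V hμ this).symm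
      refine ⟨⟨(c * c)⁻¹ • D B C w0 T, End.mem_eigenspace_iff.2 (by simp [h2])⟩, ?_⟩
      have := LinearMap.congr_fun p10 T
      simp only [End.mul_apply, LinearMap.smul_apply, LinearMap.sub_apply, h1, smul_zero, sub_zero,
        End.one_apply, smul_smul] at this
      show D B C w1 ((c * c)⁻¹ • D B C w0 T) = T
      rw [map_smul, this, inv_smul_smul₀ (mul_ne_zero hc hc)]
  have hk : LinearMap.ker g =
      Submodule.span L {(⟨o, End.mem_eigenspace_iff.2 (by simp [hΦo])⟩ : Φ.eigenspace 1)} := by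
    refine le_antisymm ?_ ?_
    · rintro ⟨T, hT⟩ hT'
      have h0 : D B C w1 T = 0 := hT'
      have h3 := End.mem_eigenspace_iff.1 hT
      rw [one_smul] at h3
      obtain ⟨a, ha⟩ := H1 _ (hP T) (by rw [hP', h3])
      have := LinearMap.congr_fun p01 T
      simp only [End.mul_apply, LinearMap.smul_apply, LinearMap.sub_apply, h0, map_zero, ha,
        End.one_apply] at this
      have h4 := sub_eq_zero.1 ((smul_eq_zero.1 this.symm).resolve_left hc)
      refine Submodule.mem_span_singleton.2 ⟨c⁻¹ * (n * a), Subtype.ext ?_⟩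
      show (c⁻¹ * (n * a)) • o = T
      rw [mul_smul, mul_smul, ← h4, inv_smul_smul₀ hc]
    · rw [Submodule.span_singleton_le_iff_mem]
      show D B C w1 o = 0
      rw [D, LinearMap.sum_apply]
      refine sum_eq_zero fun y _ => ?_
      by_cases hy : y ∈ A
      · simp [w1, hy]
      · have : Q B C y o = 0 := by
          simp only [Q, LinearMap.sum_apply, LinearMap.smul_apply, hCo]
          rw [← sum_smul, h.s1, if_neg fun h1 => hy (A.inv_mem_iff.1 h1), zero_smul]
        rw [LinearMap.smul_apply, this, smul_zero]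
  rw [← LinearMap.finrank_range_add_finrank_ker g, hr, hk,
    finrank_span_singleton fun h1 => ho (congrArg Subtype.val h1)]

end xhhskaP

end Pool.Agent.N9181

end

section

namespace Pool.Agent.N9181

open scoped commutatorElement

section

open Finset Module
open scoped Classical

variable {L : Type} [Field L] {M : Type} [AddCommGroup M] [Module L M] {H : Type} [Group H]

theorem xhhsk_schur [IsAlgClosed L] [Module.Finite L M] [Nontrivial M] (ρ : Representation L H M)
    (hirr : ∀ W : Submodule L M, (∀ h, ∀ w ∈ W, ρ h w ∈ W) → W = ⊥ ∨ W = ⊤) {E : Subgroup H}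
    {x : H} (hgen : ∀ h : H, ∃ f ∈ E, ∃ k : ℕ, h = f * x ^ k) (T : End L M)
    (h1 : ∀ e ∈ E, Commute (ρ e) T) (h2 : Commute (ρ x) T) : ∃ c : L, T = c • 1 := by
  obtain ⟨c, hc⟩ := End.exists_eigenvalue T
  have h3 : ∀ h, Commute (ρ h) T := fun h => by
    obtain ⟨f, hf, k, rfl⟩ := hgen h
    rw [map_mul, map_pow]
    exact (h1 f hf).mul_left (h2.pow_left k)
  refine ⟨c, LinearMap.ext fun v => ?_⟩
  rcases hirr (T.eigenspace c) (fun h w hw => by
    rw [End.mem_eigenspace_iff] at hw ⊢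
    rw [← End.mul_apply, ← (h3 h).eq, End.mul_apply, hw, map_smul]) with h | h
  · exact absurd h hc
  · exact End.mem_eigenspace_iff.1 (h ▸ Submodule.mem_top : v ∈ T.eigenspace c)

theorem xhhsk_pair [Nontrivial M] (ρ : Representation L H M) {A E : Subgroup H} (hP : PD A E)
    (hA : ∀ a ∈ A, ∀ v, v ≠ 0 → ρ a v = v → a = 1) {lam : H → L}
    (hl : ∀ a ∈ A, ρ a = lam a • 1) :
    xhhskaP (A.subgroupOf E) fun e y : E => lam ⁅(e : H), (y : H)⁆ := by
  have inj : ∀ c d : L, c • (1 : End L M) = d • 1 → c = d := fun c d h =>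
    smul_left_injective L one_ne_zero h
  have l1 : lam 1 = 1 := inj _ _ (by rw [← hl 1 A.one_mem, map_one, one_smul])
  have lm : ∀ a ∈ A, ∀ b ∈ A, lam (a * b) = lam a * lam b := fun a ha b hb => inj _ _ (by
    rw [← hl _ (A.mul_mem ha hb), map_mul, hl a ha, hl b hb, smul_mul_smul_comm, mul_one])
  have hc : ∀ e y : E, ⁅(e : H), (y : H)⁆ ∈ A := fun e y => hP.comm _ e.2 _ y.2
  have nd : ∀ e y : E, lam ⁅(e : H), (y : H)⁆ = 1 → (e : H) * y = y * e := fun e y h => by
    obtain ⟨v, hv⟩ := exists_ne (0 : M)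
    exact commutatorElement_eq_one_iff_mul_comm.1
      (hA _ (hc e y) v hv (by rw [hl _ (hc e y), h, one_smul, End.one_apply]))
  refine ⟨fun e e' y => ?_, fun e y y' => ?_, fun a ha y => ?_, fun a ha y => ?_,
    fun y hy => ?_, fun y hy => ?_⟩
  · rw [mul_comm (lam _), ← lm _ (hc e' y) _ (hc e y)]
    congr 1
    have := hP.cen _ (hc e' y) _ e.2
    calc ⁅((e * e' : E) : H), (y : H)⁆ = e * ⁅(e' : H), (y : H)⁆ * (e : H)⁻¹ * ⁅(e : H), (y : H)⁆ := by
          simp only [commutatorElement_def, Subgroup.coe_mul]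
          group
      _ = _ := by rw [← this, mul_inv_cancel_right]
  · rw [← lm _ (hc e y) _ (hc e y')]
    congr 1
    have := hP.cen _ (hc e y') _ y.2
    calc ⁅(e : H), ((y * y' : E) : H)⁆ =
          ⁅(e : H), (y : H)⁆ * (y * ⁅(e : H), (y' : H)⁆ * (y : H)⁻¹) := by
          simp only [commutatorElement_def, Subgroup.coe_mul]
          group
      _ = _ := by rw [← this, mul_inv_cancel_right]
  · rw [commutatorElement_eq_one_iff_mul_comm.2 (hP.cen (a : H) ha _ y.2), l1]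
  · rw [commutatorElement_eq_one_iff_mul_comm.2 (hP.cen (a : H) ha _ y.2).symm, l1]
  · by_contra! h
    exact hy (hP.nd _ y.2 fun e he => nd y ⟨e, he⟩ (h _))
  · by_contra! h
    exact hy (hP.nd _ y.2 fun e he => (nd ⟨e, he⟩ y (h _)).symm)

theorem xhhsk_w [Finite H] {A E : Subgroup H} (hP : PD A E) {x : H} (s : E ≃* E)
    (hs : ∀ e, (s e : H) = x * e * x⁻¹) (hsA : ∀ y, s y ∈ A.subgroupOf E ↔ y ∈ A.subgroupOf E)
    {q : ℕ} (hq : q ≠ 0) (hfp : ∀ f ∈ E, ∀ k : ℕ, ¬ q ∣ k → ⁅x ^ k, f⁆ ∈ A → f ∈ A) {μ : L}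
    (hμ : μ ^ q = 1) : ∃ w : E → L, (∀ y, w y ≠ 0) ∧
      (∀ y, ∀ a ∈ A.subgroupOf E, w (y * a) = w y) ∧
      ∀ y ∉ A.subgroupOf E, w (s y) = μ * w y := by
  let t : Equiv.Perm (E ⧸ A.subgroupOf E) := Quotient.congr s.toEquiv fun a b => by
    show QuotientGroup.leftRel _ a b ↔ QuotientGroup.leftRel _ (s a) (s b)
    rw [QuotientGroup.leftRel_apply, QuotientGroup.leftRel_apply, ← map_inv, ← map_mul, hsA]
  have ht : ∀ (k : ℕ) (y : E), ∃ z : E, (z : H) = x ^ k * y * (x ^ k)⁻¹ ∧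
      (t ^ k) (y : E ⧸ A.subgroupOf E) = z := fun k y => by
    induction k with
    | zero => exact ⟨y, by simp, rfl⟩
    | succ k ih =>
      obtain ⟨z, h1, h2⟩ := ih
      refine ⟨s z, by rw [hs, h1]; group, ?_⟩
      rw [pow_succ', Equiv.Perm.mul_apply, h2]
      rfl
  obtain ⟨w, h1, h2⟩ := xhhska_w t μ q hq hμ (fun u => u ≠ ((1 : E) : E ⧸ A.subgroupOf E))
    fun u k hu hk => by
      obtain ⟨y, rfl⟩ := QuotientGroup.mk_surjective u
      obtain ⟨z, h1, h2⟩ := ht k y
      have h3 : ((y⁻¹ * z : E) : H) ∈ A :=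
        Subgroup.mem_subgroupOf.1 (QuotientGroup.eq.1 (hk.symm.trans h2))
      by_contra h4
      refine hu (QuotientGroup.eq.2 ?_).symm
      rw [inv_one, one_mul]
      refine hfp (y : H) y.2 k h4 ?_
      have h5 := hP.cen _ h3 _ y.2
      rw [show ⁅x ^ k, (y : H)⁆ = y * ((y⁻¹ * z : E) : H) * (y : H)⁻¹ by
        simp [h1, commutatorElement_def], ← h5, mul_inv_cancel_right]
      exact h3
  refine ⟨fun y => w y, fun y => h1 _, fun y a ha => ?_, fun y hy => h2 y fun h => hy ?_⟩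
  · exact congrArg w (QuotientGroup.eq.2 (by simpa using ha)).symm
  · have h3 : (1 : E)⁻¹ * s y ∈ A.subgroupOf E := QuotientGroup.eq.1 h.symm
    rwa [inv_one, one_mul, hsA] at h3

theorem xhhsk_dim [IsAlgClosed L] [CharP L 13] [Module.Finite L M] [Nontrivial M] [Finite H]
    (h13 : ¬ 13 ∣ Nat.card H) (ρ : Representation L H M)
    (hirr : ∀ W : Submodule L M, (∀ h, ∀ w ∈ W, ρ h w ∈ W) → W = ⊥ ∨ W = ⊤)
    {A E : Subgroup H} (hP : PD A E) {x : H}
    (hgen : ∀ h : H, ∃ f ∈ E, ∃ k : ℕ, h = f * x ^ k)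
    (hxA : x ∈ Subgroup.centralizer (A : Set H)) (hxE : x ∈ Subgroup.normalizer (E : Set H))
    (hA : ∀ a ∈ A, ∀ v, v ≠ 0 → ρ a v = v → a = 1) {q : ℕ} (hq : q ≠ 0) (hq1 : q ≠ 1)
    (hfp : ∀ f ∈ E, ∀ k : ℕ, ¬ q ∣ k → ⁅x ^ k, f⁆ ∈ A → f ∈ A) {μ : L} (hμ : μ ^ q = 1)
    (hμ1 : μ ≠ 1) :
    finrank L (End.eigenspace (LinearMap.mulLeft L (ρ x) ∘ₗ LinearMap.mulRight L (ρ x⁻¹) :
        End L (End L M)) 1) =
      finrank L (End.eigenspace (LinearMap.mulLeft L (ρ x) ∘ₗ LinearMap.mulRight L (ρ x⁻¹) :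
        End L (End L M)) μ) + 1 := by
  have := Fintype.ofFinite E
  have hx : ∀ a ∈ A, a * x = x * a := Subgroup.mem_centralizer_iff.1 hxA
  choose! lam hl using fun a (ha : a ∈ A) => xhhsk_schur ρ hirr hgen (ρ a)
    (fun e he => Commute.map (hP.cen a ha e he).symm ρ) (Commute.map (hx a ha).symm ρ)
  have hB := xhhsk_pair ρ hP hA hl
  let s : E ≃* E := E.normalizerMonoidHom ⟨x, hxE⟩
  have hs : ∀ e, (s e : H) = x * e * x⁻¹ := fun e => rfl
  have hsA : ∀ y, s y ∈ A.subgroupOf E ↔ y ∈ A.subgroupOf E := fun y => by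
    rw [Subgroup.mem_subgroupOf, Subgroup.mem_subgroupOf, hs]
    refine ⟨fun h => ?_, fun h => by rwa [← hx _ h, mul_inv_cancel_right]⟩
    have h1 := hx _ h
    rw [inv_mul_cancel_right, mul_right_inj] at h1
    rwa [h1]
  obtain ⟨w, w0, w1, w2⟩ := xhhsk_w hP s hs hsA hq hfp hμ
  let C : H → End L (End L M) := fun e => LinearMap.mulLeft L (ρ e) ∘ₗ LinearMap.mulRight L (ρ e⁻¹)
  have hCa : ∀ e T, C e T = ρ e * (T * ρ e⁻¹) := fun e T => rfl
  have hi : ∀ e, ρ e * ρ e⁻¹ = 1 := fun e => by rw [← map_mul, mul_inv_cancel, map_one]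
  have hi' : ∀ e, ρ e⁻¹ * ρ e = 1 := fun e => by rw [← map_mul, inv_mul_cancel, map_one]
  have hC : ∀ a b, C (a * b) = C a * C b := fun a b => LinearMap.ext fun T => by
    simp only [End.mul_apply, hCa, mul_inv_rev, map_mul, mul_assoc]
  have hCρ : ∀ e y, C e (ρ y) = ρ (e * y * e⁻¹) := fun e y => by
    rw [hCa, map_mul, map_mul, mul_assoc]
  have hcm : ∀ e T, C e T = T → Commute (ρ e) T := fun e T h => by
    have := congrArg (· * ρ e) h
    simp only [hCa, mul_assoc, hi', mul_one] at this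
    exact this
  have hcm' : ∀ e T, Commute (ρ e) T → C e T = T := fun e T h => by
    rw [hCa, ← mul_assoc, h.eq, mul_assoc, hi, mul_one]
  have h0 : ∀ K : Subgroup H, (Nat.card K : L) ≠ 0 := fun K h =>
    h13 (((CharP.cast_eq_zero_iff L 13 _).1 h).trans K.card_subgroup_dvd_card)
  have hc : (∑ t : E, if t ∈ A.subgroupOf E then (Fintype.card E : L) else 0) ≠ 0 := by
    rw [← sum_filter, sum_const, nsmul_eq_mul, ← Fintype.card_subtype, ← Nat.card_eq_fintype_card,
      ← Nat.card_eq_fintype_card, Nat.card_congr (Subgroup.subgroupOfEquivOfLe hP.le).toEquiv]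
    exact mul_ne_zero (h0 A) (h0 E)
  refine hB.dim (C := fun e : E => C e) (fun a b => hC a b) (fun a ha => LinearMap.ext fun T =>
    hcm' _ _ ?_) hc s (fun e y => ?_) hsA (Φ := C x) (fun e => ?_) (fun h => ?_) w0 w1 w2
    (o := 1) one_ne_zero (fun e => hcm' _ _ (Commute.one_right _))
    (hcm' _ _ (Commute.one_right _)) (fun T h1 h2 => xhhsk_schur ρ hirr hgen T
      (fun e he => hcm _ _ (h1 ⟨e, he⟩)) (hcm _ _ h2)) fun T h1 h2 => ?_
  · rw [hl (a : H) ha]
    exact (Commute.one_left T).smul_left _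
  · have h1 := hx _ (hP.comm _ e.2 _ y.2)
    rw [hs, hs, ← conjugate_commutatorElement, ← h1, mul_inv_cancel_right]
  · rw [← hC, ← hC, hs, inv_mul_cancel_right]
  · simp [h, hq] at hμ
  obtain ⟨g, hg⟩ := xhhsk_schur ρ hirr hgen (∑ f : E, ρ (f * x * (f : H)⁻¹))
    (fun e he => hcm _ _ (by
      rw [map_sum, ← Equiv.sum_comp (Equiv.mulLeft (⟨e, he⟩ : E)) fun f : E => ρ (f * x * (f : H)⁻¹)]
      exact sum_congr rfl fun f _ => by rw [hCρ]; simp [mul_assoc]))
    (hcm _ _ (by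
      rw [map_sum, ← Equiv.sum_comp s.toEquiv fun f : E => ρ (f * x * (f : H)⁻¹)]
      exact sum_congr rfl fun f _ => by
        rw [hCρ, show (s.toEquiv f : H) = x * f * x⁻¹ from rfl]
        congr 1
        group))
  have hg0 : g ≠ 0 := fun h => hc (by
    have hE : ∀ f : E, ⁅(f : H), x⁆ ∈ E := fun f => by
      have := E.mul_mem f.2 (s f⁻¹).2
      simpa [hs, commutatorElement_def, mul_assoc] using this
    have h3 : ∑ f : E, ρ ⁅(f : H), x⁆ = 0 := by
      simp only [commutatorElement_def, map_mul _ _ x⁻¹]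
      rw [← sum_mul, hg, h, zero_smul, zero_mul]
    have h4 : ∀ f : E, ∑ e : E, C e (ρ ⁅(f : H), x⁆) =
        (if f ∈ A.subgroupOf E then (Fintype.card E : L) else 0) • 1 := fun f => by
      have h5 : ∀ e : E, C e (ρ ⁅(f : H), x⁆) = lam ⁅(e : H), ⁅(f : H), x⁆⁆ • ρ ⁅(f : H), x⁆ :=
        fun e => by
        rw [hCρ, show (e : H) * ⁅(f : H), x⁆ * (e : H)⁻¹ = ⁅(e : H), ⁅(f : H), x⁆⁆ * ⁅(f : H), x⁆ by
          rw [commutatorElement_def (e : H), inv_mul_cancel_right], map_mul,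
          hl _ (hP.comm _ e.2 _ (hE f)), smul_one_mul]
      rw [sum_congr rfl fun e _ => h5 e, ← sum_smul, hB.s1 ⟨_, hE f⟩]
      by_cases hf : f ∈ A.subgroupOf E
      · have h6 := commutatorElement_eq_one_iff_mul_comm.2 (hx (f : H) hf)
        rw [if_pos hf, if_pos (Subgroup.mem_subgroupOf.2 (h6.symm ▸ A.one_mem : ⁅(f : H), x⁆ ∈ A)),
          h6, map_one]
      · rw [if_neg hf, if_neg fun h6 => hf (hfp (f : H) f.2 1 (by simpa using hq1) (by
          rw [pow_one, ← commutatorElement_inv]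
          exact A.inv_mem h6)), zero_smul, zero_smul]
    have h5 := sum_congr (s₁ := univ) rfl fun f _ => h4 f
    rw [sum_comm, ← sum_smul] at h5
    simp only [← map_sum, h3, map_zero, sum_const_zero] at h5
    exact (smul_eq_zero.1 h5.symm).resolve_right one_ne_zero)
  have h3 : ∀ f : E, ρ (f * x * (f : H)⁻¹) * T = μ • (T * ρ (f * x * (f : H)⁻¹)) := fun f => by
    have h4 : ρ x * T = μ • (T * ρ x) := by
      have := congrArg (· * ρ x) h2
      simpa only [hCa, mul_assoc, hi', mul_one, smul_mul_assoc] using this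
    have h5 := (hcm _ _ (h1 f)).eq
    have h6 : ρ (f : H)⁻¹ * T = T * ρ (f : H)⁻¹ := (hcm _ _ (h1 f⁻¹)).eq
    rw [map_mul, map_mul, mul_assoc, h6, ← mul_assoc, mul_assoc (ρ f), h4, mul_smul_comm,
      smul_mul_assoc, ← mul_assoc, h5, mul_assoc T, mul_assoc T]
  have h4 := sum_congr (s₁ := univ) rfl fun f _ => h3 f
  rw [← sum_mul, ← smul_sum, ← mul_sum, hg, smul_one_mul, mul_smul_one, smul_smul, ← sub_eq_zero,
    ← sub_smul, smul_eq_zero] at h4
  refine h4.resolve_left fun h5 => hμ1 (mul_right_cancel₀ hg0 ?_)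
  rw [one_mul, ← sub_eq_zero.1 h5]

end

theorem hhsK {L : Type} [Field L] [IsAlgClosed L] [CharP L 13] {M : Type} [AddCommGroup M] [Module L M]
    [Module.Finite L M] {H : Type} [Group H] [Finite H] (h13 : ¬ 13 ∣ Nat.card H)
    (ρ : Representation L H M) (hM : ∃ v : M, v ≠ 0)
    (hirr : ∀ W : Submodule L M, (∀ h, ∀ w ∈ W, ρ h w ∈ W) → W = ⊥ ∨ W = ⊤)
    (A E : Subgroup H) (hP : PD A E) (hne : A ≠ E) (x : H)
    (hgen : ∀ h : H, ∃ f ∈ E, ∃ k : ℕ, h = f * x ^ k)
    (hxA : x ∈ Subgroup.centralizer (A : Set H)) (hxE : x ∈ Subgroup.normalizer (E : Set H))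
    (hA : ∀ a ∈ A, ∀ v, v ≠ 0 → ρ a v = v → a = 1) (r : ℕ) (hq : (ρ x) ^ (3 ^ r) = 1)
    (hfp : ∀ f ∈ E, ∀ k : ℕ, ¬ 3 ^ r ∣ k → ⁅x ^ k, f⁆ ∈ A → f ∈ A)
    (hf : ∀ v, ρ x v = v → v = 0) (ω : L) (hω : ω ^ 3 = 1) :
    Module.finrank L (Module.End.eigenspace (ρ x) ω) =
      Module.finrank L (Module.End.eigenspace (ρ x) (ω ^ 2)) := by
  obtain ⟨v, hv⟩ := hM
  have : Nontrivial M := ⟨v, 0, hv⟩
  have hr : r ≠ 0 := by
    rintro rfl
    exact hv (hf v (by rw [pow_zero, pow_one] at hq; rw [hq, Module.End.one_apply]))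
  have hq1 : 3 ^ r ≠ 1 := (Nat.one_lt_pow hr (by norm_num)).ne'
  have : NeZero (3 ^ r) := ⟨by positivity⟩
  have : NeZero ((3 ^ r : ℕ) : L) := ⟨fun h => by
    have := (Nat.Prime.dvd_of_dvd_pow (by norm_num) ((CharP.cast_eq_zero_iff L 13 _).1 h))
    omega⟩
  obtain ⟨ζ, hζ⟩ := HasEnoughRootsOfUnity.exists_primitiveRoot L (3 ^ r)
  obtain ⟨h1, h2⟩ := hhs_end (3 ^ r) ζ hζ (ρ x) (ρ x⁻¹)
    (by rw [← map_mul, mul_inv_cancel, map_one]) hq
  have h3 := hhs_comb (fun ν : ZMod (3 ^ r) =>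
    Module.finrank L (Module.End.eigenspace (ρ x) (ζ ^ ν.val))) ?_ (fun ξ hξ => ?_) ?_
  · have h4 : ∀ c : L, c ^ 3 = 1 → c ≠ 1 →
        Module.finrank L (Module.End.eigenspace (ρ x) c) = 1 := fun c hc hc1 => by
      obtain ⟨i, hi, rfl⟩ := hζ.eq_pow_of_pow_eq_one (ξ := c) (by
        obtain ⟨d, hd⟩ := dvd_pow_self 3 hr
        rw [hd, pow_mul, hc, one_pow])
      have h5 := h3 i fun h => hc1 (by rw [← ZMod.val_cast_of_lt hi, h, ZMod.val_zero, pow_zero])
      rwa [ZMod.val_cast_of_lt hi] at h5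
    by_cases h5 : ω = 1
    · rw [h5, one_pow]
    · rw [h4 ω hω h5, h4 (ω ^ 2) (by rw [← pow_mul, mul_comm, pow_mul, hω, one_pow]) fun h =>
        h5 (by rwa [pow_succ, h, one_mul] at hω)]
  · rw [ZMod.val_zero, pow_zero, Submodule.finrank_eq_zero, eq_bot_iff]
    exact fun w hw => hf w (by simpa using Module.End.mem_eigenspace_iff.1 hw)
  · have h4 := h2 0
    rw [Finset.sum_congr rfl fun ν _ => by rw [add_zero ν]] at h4
    rw [← h4, ← h2 ξ, ZMod.val_zero, pow_zero]
    exact xhhsk_dim h13 ρ hirr hP hgen hxA hxE hA (NeZero.ne _) hq1 hfp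
      (by rw [← pow_mul, mul_comm, pow_mul, hζ.pow_eq_one, one_pow])
      (hζ.pow_ne_one_of_pos_of_lt ((ZMod.val_ne_zero ξ).2 hξ) (ZMod.val_lt ξ))
  · rw [h1]
    by_contra h4
    have h5 : Module.finrank L M = 1 := by
      have := Module.finrank_pos (R := L) (M := M)
      omega
    refine hne (le_antisymm hP.le fun f hf' => hP.nd f hf' fun y hy =>
      commutatorElement_eq_one_iff_mul_comm.1 (hA _ (hP.comm f hf' y hy) v hv ?_))
    obtain ⟨a, ha, -⟩ := LinearMap.existsUnique_eq_smul_id_of_finrank_eq_one h5 (ρ f)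
    have h6 : Commute (ρ f) (ρ y) := by
      rw [ha]
      exact (Commute.one_left _).smul_left a
    rw [commutatorElement_def, map_mul, map_mul, map_mul, h6.eq, ← map_mul, ← map_mul, ← map_mul,
      mul_inv_cancel_right, mul_inv_cancel, map_one, Module.End.one_apply]

end Pool.Agent.N9181

end

section

namespace Pool.Agent.N9181

open scoped commutatorElement

theorem xhhs_res {L : Type} [Field L] {M : Type} [AddCommGroup M] [Module L M]
    (W : Submodule L M) (a : Module.End L M) (s : Module.End L W)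
    (hs : ∀ w : W, (s w : M) = a w) (c : L) :
    Module.finrank L (s.eigenspace c) =
      Module.finrank L (W ⊓ a.eigenspace c : Submodule L M) := by
  rw [← Submodule.finrank_map_subtype_eq W (s.eigenspace c)]
  have : (s.eigenspace c).map W.subtype = W ⊓ a.eigenspace c := by
    ext v
    simp only [Submodule.mem_map, Module.End.mem_eigenspace_iff, Submodule.mem_inf,
      Submodule.coe_subtype]
    constructor
    · rintro ⟨w, hw, rfl⟩
      refine ⟨w.2, ?_⟩
      rw [← hs, hw]; rfl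
    · rintro ⟨hv, hv'⟩
      refine ⟨⟨v, hv⟩, ?_, rfl⟩
      apply Subtype.ext
      rw [hs]; exact hv'
  rw [this]

theorem xhhs_add {L : Type} [Field L] {M : Type} [AddCommGroup M] [Module L M]
    [Module.Finite L M] (X Y : Submodule L M) (hXY : IsCompl X Y) (a : Module.End L M)
    (hX : ∀ v ∈ X, a v ∈ X) (hY : ∀ v ∈ Y, a v ∈ Y) (c : L) :
    Module.finrank L (a.eigenspace c) =
      Module.finrank L (X ⊓ a.eigenspace c : Submodule L M) +
        Module.finrank L (Y ⊓ a.eigenspace c : Submodule L M) := by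
  have h1 : (X ⊓ a.eigenspace c) ⊔ (Y ⊓ a.eigenspace c) = a.eigenspace c := by
    apply le_antisymm (sup_le inf_le_right inf_le_right)
    intro v hv
    have hv' : v ∈ X ⊔ Y := by rw [hXY.sup_eq_top]; trivial
    obtain ⟨x, hx, y, hy, rfl⟩ := Submodule.mem_sup.mp hv'
    rw [Module.End.mem_eigenspace_iff, map_add, smul_add] at hv
    have e : a x - c • x = -(a y - c • y) := by
      rw [neg_sub, sub_eq_sub_iff_add_eq_add, hv, add_comm]
    have hx1 : a x - c • x ∈ X := X.sub_mem (hX x hx) (X.smul_mem c hx)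
    have hy1 : a x - c • x ∈ Y := by
      rw [e]; exact Y.neg_mem (Y.sub_mem (hY y hy) (Y.smul_mem c hy))
    have h0 : a x - c • x = 0 := (Submodule.disjoint_def.mp hXY.disjoint) _ hx1 hy1
    have h0' : a y - c • y = 0 := by rw [h0] at e; exact neg_eq_zero.mp e.symm
    exact Submodule.add_mem_sup
      ⟨hx, Module.End.mem_eigenspace_iff.mpr (sub_eq_zero.mp h0)⟩
      ⟨hy, Module.End.mem_eigenspace_iff.mpr (sub_eq_zero.mp h0')⟩
  have h2 : (X ⊓ a.eigenspace c) ⊓ (Y ⊓ a.eigenspace c) = ⊥ :=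
    eq_bot_iff.mpr ((inf_le_inf inf_le_left inf_le_left).trans hXY.inf_eq_bot.le)
  have h3 := Submodule.finrank_sup_add_finrank_inf_eq (X ⊓ a.eigenspace c) (Y ⊓ a.eigenspace c)
  rw [h1, h2, finrank_bot, add_zero] at h3
  exact h3

theorem xhhs_min {L : Type} [Field L] {M : Type} [AddCommGroup M] [Module L M]
    [Module.Finite L M] {H : Type} [Group H] (ρ : Representation L H M) (hM : ∃ v : M, v ≠ 0) :
    ∃ X : Submodule L M, (∀ h, ∀ w ∈ X, ρ h w ∈ X) ∧ X ≠ ⊥ ∧
      ∀ Y : Submodule L M, (∀ h, ∀ w ∈ Y, ρ h w ∈ Y) → Y ≤ X → Y = ⊥ ∨ Y = X := by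
  classical
  have hex : ∃ n : ℕ, ∃ X : Submodule L M, (∀ h, ∀ w ∈ X, ρ h w ∈ X) ∧ X ≠ ⊥ ∧
      Module.finrank L X = n := by
    refine ⟨_, ⊤, fun _ _ _ => trivial, ?_, rfl⟩
    obtain ⟨v, hv⟩ := hM
    exact (Submodule.ne_bot_iff _).mpr ⟨v, trivial, hv⟩
  obtain ⟨X, hX, hX0, hXn⟩ := Nat.find_spec hex
  refine ⟨X, hX, hX0, fun Y hY hYX => ?_⟩
  by_cases hY0 : Y = ⊥
  · exact Or.inl hY0
  · right
    have := Nat.find_min' hex ⟨Y, hY, hY0, rfl⟩
    exact Submodule.eq_of_le_of_finrank_le hYX (by rw [hXn]; exact this)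

theorem xhhs_ind {L : Type} [Field L] [IsAlgClosed L] [CharP L 13]
    {H : Type} [Group H] [Finite H] (h13 : ¬ 13 ∣ Nat.card H)
    (A E : Subgroup H) (hP : PD A E) (hne : A ≠ E) (x : H)
    (hgen : ∀ h : H, ∃ f ∈ E, ∃ k : ℕ, h = f * x ^ k)
    (hxA : x ∈ Subgroup.centralizer (A : Set H)) (hxE : x ∈ Subgroup.normalizer (E : Set H))
    (r : ℕ) (hfp : ∀ f ∈ E, ∀ k : ℕ, ¬ 3 ^ r ∣ k → ⁅x ^ k, f⁆ ∈ A → f ∈ A)
    (ω : L) (hω : ω ^ 3 = 1) (n : ℕ) :
    ∀ (M : Type) [AddCommGroup M] [Module L M] [Module.Finite L M] (ρ : Representation L H M),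
      Module.finrank L M = n → (∀ a ∈ A, ∀ v, v ≠ 0 → ρ a v = v → a = 1) →
      (∀ v, ρ (x ^ (3 ^ r)) v = v) → (∀ v, ρ x v = v → v = 0) →
      Module.finrank L (Module.End.eigenspace (ρ x) ω) =
        Module.finrank L (Module.End.eigenspace (ρ x) (ω ^ 2)) := by
  induction n using Nat.strong_induction_on with
  | _ n ih =>
    intro M _ _ _ ρ hn hA hq hf
    by_cases hM : ∃ v : M, v ≠ 0
    swap
    · push Not at hM
      have : ∀ S : Submodule L M, S = ⊥ := fun S =>
        (Submodule.eq_bot_iff _).mpr fun v _ => hM v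
      rw [this (Module.End.eigenspace (ρ x) ω), this (Module.End.eigenspace (ρ x) (ω ^ 2))]
    obtain ⟨X, hX, hX0, hmin⟩ := xhhs_min ρ hM
    have hc : (Nat.card H : L) ≠ 0 := fun h => h13 ((CharP.cast_eq_zero_iff L 13 _).mp h)
    obtain ⟨Y, hY, hXY⟩ := exists_compl hc ρ X hX
    let σ : Representation L H X := ρ.subrepresentation X fun g w hw => hX g w hw
    let τ : Representation L H Y := ρ.subrepresentation Y fun g w hw => hY g w hw
    have hσ : ∀ h (w : X), (σ h w : M) = ρ h w := fun _ _ => rfl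
    have hτ : ∀ h (w : Y), (τ h w : M) = ρ h w := fun _ _ => rfl
    rw [xhhs_add X Y hXY (ρ x) (hX x) (hY x) ω, xhhs_add X Y hXY (ρ x) (hX x) (hY x) (ω ^ 2),
      ← xhhs_res X (ρ x) (σ x) (hσ x), ← xhhs_res X (ρ x) (σ x) (hσ x),
      ← xhhs_res Y (ρ x) (τ x) (hτ x), ← xhhs_res Y (ρ x) (τ x) (hτ x)]
    congr 1
    · refine hhsK h13 σ ?_ ?_ A E hP hne x hgen hxA hxE ?_ r ?_ hfp ?_ ω hω
      · obtain ⟨v, hv, hv0⟩ := (Submodule.ne_bot_iff _).mp hX0
        exact ⟨⟨v, hv⟩, fun h => hv0 (congrArg Subtype.val h)⟩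
      · intro W hW
        have := hmin (W.map X.subtype) (by
          rintro h _ ⟨w, hw, rfl⟩
          exact ⟨σ h w, hW h w hw, hσ h w⟩) (Submodule.map_subtype_le _ _)
        rcases this with h | h
        · left
          exact (Submodule.map_injective_of_injective X.subtype_injective)
            (by rw [h, Submodule.map_bot])
        · right
          exact (Submodule.map_injective_of_injective X.subtype_injective)
            (by rw [h, Submodule.map_subtype_top])
      · intro a ha v hv hav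
        exact hA a ha v (fun h => hv (Subtype.ext h)) (by rw [← hσ, hav])
      · rw [← map_pow]
        ext v
        rw [hσ, hq]; rfl
      · intro v hv
        exact Subtype.ext (hf v (by rw [← hσ, hv]))
    · have hlt : Module.finrank L Y < n := by
        rw [← hn]
        apply Submodule.finrank_lt
        rintro rfl
        exact hX0 (by simpa using hXY.inf_eq_bot)
      refine ih _ hlt Y τ rfl ?_ ?_ ?_
      · intro a ha v hv hav
        exact hA a ha v (fun h => hv (Subtype.ext h)) (by rw [← hτ, hav])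
      · intro v
        apply Subtype.ext
        rw [hτ, hq]
      · intro v hv
        exact Subtype.ext (hf v (by rw [← hτ, hv]))

/-- the subgroup generated by `E` and an element normalising it -/
def xhhsSub {H : Type} [Group H] (E : Subgroup H) (x : H)
    (hxE : x ∈ Subgroup.normalizer (E : Set H)) : Subgroup H where
  carrier := {h | ∃ f ∈ E, ∃ y ∈ Subgroup.zpowers x, h = f * y}
  one_mem' := ⟨1, E.one_mem, 1, one_mem _, by simp⟩
  mul_mem' := by
    rintro _ _ ⟨f, hf, y, hy, rfl⟩ ⟨g, hg, z, hz, rfl⟩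
    have hy' := Subgroup.zpowers_le.mpr hxE hy
    exact ⟨f * (y * g * y⁻¹), E.mul_mem hf ((Subgroup.mem_normalizer_iff.mp hy' g).mp hg),
      y * z, mul_mem hy hz, by group⟩
  inv_mem' := by
    rintro _ ⟨f, hf, y, hy, rfl⟩
    have hy' := Subgroup.zpowers_le.mpr hxE hy
    exact ⟨y⁻¹ * f⁻¹ * y, (Subgroup.mem_normalizer_iff''.mp hy' _).mp (E.inv_mem hf),
      y⁻¹, inv_mem hy, by group⟩

theorem xhhs_pd {H : Type} [Group H] (A E H1 : Subgroup H) (hP : PD A E) (hE : E ≤ H1) :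
    PD (A.subgroupOf H1) (E.subgroupOf H1) where
  cyc := by
    have := hP.cyc
    exact isCyclic_of_surjective (Subgroup.subgroupOfEquivOfLe (hP.le.trans hE)).symm
      (Subgroup.subgroupOfEquivOfLe (hP.le.trans hE)).symm.surjective
  le := fun _ ha => hP.le ha
  cen := fun a ha y hy => Subtype.ext (hP.cen a ha y hy)
  comm := fun y hy z hz => hP.comm y hy z hz
  nd := fun y hy h => hP.nd y hy fun z hz =>
    congrArg Subtype.val (h ⟨z, hE hz⟩ hz)

theorem xhhs_pow (c : K) (hc : c ^ 3 = 1) (r : ℕ) (hr : 1 ≤ r) : c ^ (3 ^ r) = 1 := by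
  obtain ⟨s, rfl⟩ := Nat.exists_eq_add_of_le hr
  rw [pow_add, pow_one, pow_mul, hc, one_pow]

theorem hhs {V : Type} [AddCommGroup V] [Module K V] [Module.Finite K V]
    {H : Type} [Group H] [Finite H] (h13 : ¬ 13 ∣ Nat.card H) (ρ : Representation K H V) (A E : Subgroup H) (hP : PD A E) (hne : A ≠ E) (x : H)
    (hxA : x ∈ Subgroup.centralizer (A : Set H)) (hxE : x ∈ Subgroup.normalizer (E : Set H))
    (hA : FreeOn ρ A) (r : ℕ) (hc : ∀ f ∈ E, x ^ (3 ^ r) * f = f * x ^ (3 ^ r)) (hr : 1 ≤ r)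
    (hfp : ∀ f ∈ E, ∀ k : ℕ, ¬ 3 ^ r ∣ k → ⁅x ^ k, f⁆ ∈ A → f ∈ A)
    (hf : ∀ v, ρ x v = v → v = 0) : ed (ρ x) 3 = ed (ρ x) 9 := by
  let H1 := xhhsSub E x hxE
  have hE : E ≤ H1 := fun f hf => ⟨f, hf, 1, one_mem _, by simp⟩
  have hx : x ∈ H1 := ⟨1, E.one_mem, x, Subgroup.mem_zpowers x, by simp⟩
  let W : Submodule K V := Module.End.eigenspace (ρ (x ^ (3 ^ r))) 1
  have hWm : ∀ v, v ∈ W ↔ ρ (x ^ (3 ^ r)) v = v := fun v => by
    rw [Module.End.mem_eigenspace_iff, one_smul]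
  have hcomm : ∀ h ∈ H1, x ^ (3 ^ r) * h = h * x ^ (3 ^ r) := by
    rintro _ ⟨f, hf, _, ⟨k, rfl⟩, rfl⟩
    have : Commute (x ^ (3 ^ r)) (x ^ k) := ((Commute.refl x).pow_left _).zpow_right k
    rw [← mul_assoc, hc f hf, mul_assoc, mul_assoc, this.eq]
  have hW : ∀ h ∈ H1, ∀ w ∈ W, ρ h w ∈ W := by
    intro h hh w hw
    rw [hWm] at hw ⊢
    rw [← Module.End.mul_apply, ← map_mul, hcomm h hh, map_mul, Module.End.mul_apply, hw]
  obtain ⟨σ, hσ⟩ := exists_res ρ H1 W hW
  have hed : ∀ c : K, c ^ 3 = 1 → ed (ρ x) c = ed (σ ⟨x, hx⟩) c := by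
    intro c hc3
    rw [ed_res W (ρ x) (σ ⟨x, hx⟩) (hσ ⟨x, hx⟩) c, edOn, ed, inf_eq_right.mpr]
    intro v hv
    by_cases hv0 : v = 0
    · rw [hv0]; exact W.zero_mem
    rw [hWm, map_pow, Module.End.HasEigenvector.pow_apply ⟨hv, hv0⟩, xhhs_pow c hc3 r hr,
      one_smul]
  rw [hed 3 (by decide), hed 9 (by decide)]
  let L := AlgebraicClosure K
  obtain ⟨M, _, _, _, τ, hrk, -, heig, -⟩ := exists_bc σ L
  have hz : ∀ h : H1, (∀ w, σ h w = w → w = 0) → ∀ v, τ h v = v → v = 0 := by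
    intro h hh v hv
    have h1 := heig h 1
    have h2 : Module.End.eigenspace (σ h) 1 = ⊥ :=
      (Submodule.eq_bot_iff _).mpr fun w hw =>
        hh w (by rwa [Module.End.mem_eigenspace_iff, one_smul] at hw)
    rw [map_one, ed, h2, finrank_bot, Submodule.finrank_eq_zero] at h1
    exact (Submodule.eq_bot_iff _).mp h1 v (by rwa [Module.End.mem_eigenspace_iff, one_smul])
  have h13' : ¬ 13 ∣ Nat.card H1 := fun h => h13 (h.trans (Subgroup.card_subgroup_dvd_card H1))
  have key := xhhs_ind (L := L) h13' (A.subgroupOf H1) (E.subgroupOf H1) (xhhs_pd A E H1 hP hE)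
    ?_ ⟨x, hx⟩ ?_ ?_ ?_ r ?_ (algebraMap K L 3) ?_ _ M τ rfl ?_ ?_ ?_
  · rw [← map_pow, heig, heig] at key
    rw [key]
    congr 1
  · intro h
    apply hne
    apply le_antisymm hP.le
    intro f hf
    have : (⟨f, hE hf⟩ : H1) ∈ A.subgroupOf H1 := by rw [h]; exact hf
    exact this
  · rintro ⟨_, f, hf, y, hy, rfl⟩
    obtain ⟨k, rfl⟩ := mem_powers_iff_mem_zpowers.mpr hy
    exact ⟨⟨f, hE hf⟩, hf, k, rfl⟩
  · rw [Subgroup.mem_centralizer_iff]
    intro a ha
    exact Subtype.ext (Subgroup.mem_centralizer_iff.mp hxA a ha)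
  · rw [Subgroup.mem_normalizer_iff]
    intro h
    exact Subgroup.mem_normalizer_iff.mp hxE h
  · intro f hf k hk h
    exact hfp f hf k hk h
  · rw [← map_pow, show (3 : K) ^ 3 = 1 by decide, map_one]
  · intro a ha v hv hav
    by_contra h1
    refine hv (hz a (fun w hw => ?_) v hav)
    by_contra hw0
    exact h1 (Subtype.ext (hA a ha w (fun h => hw0 (Subtype.ext h)) (by rw [← hσ, hw])))
  · intro v
    have h1 := heig (⟨x, hx⟩ ^ (3 ^ r)) 1
    have h2 : Module.End.eigenspace (σ (⟨x, hx⟩ ^ (3 ^ r))) 1 = ⊤ := by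
      rw [eq_top_iff]
      intro w _
      rw [Module.End.mem_eigenspace_iff, one_smul]
      apply Subtype.ext
      rw [hσ]
      exact (hWm w).mp w.2
    rw [map_one, ed, h2, finrank_top, ← hrk] at h1
    have h3 := Submodule.eq_top_of_finrank_eq h1
    have : v ∈ Module.End.eigenspace (τ (⟨x, hx⟩ ^ (3 ^ r))) 1 := by rw [h3]; trivial
    rwa [Module.End.mem_eigenspace_iff, one_smul] at this
  · refine hz _ fun w hw => Subtype.ext (hf w ?_)
    have := hσ ⟨x, hx⟩ w
    rw [hw] at this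
    exact this.symm

end Pool.Agent.N9181

end

section

namespace Pool.Agent.N9181

open scoped commutatorElement

theorem xexe_cop {G : Type} [Group G] (z : G) (a n : ℕ) (h3 : ¬ 3 ∣ n) (h1 : z ^ (3 ^ a) = 1)
    (h2 : z ^ n = 1) : z = 1 := by
  have hc : (3 ^ a).Coprime n :=
    Nat.Coprime.pow_left a ((Nat.Prime.coprime_iff_not_dvd Nat.prime_three).2 h3)
  have := pow_gcd_eq_one.2 ⟨h1, h2⟩
  rwa [hc.gcd_eq_one, pow_one] at this

theorem xexe_avg {U Z : Type} [CommGroup U] [Finite U] [CommGroup Z] (B : U →* U →* Z)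
    (hB : Symp B) (h3 : ¬ 3 ∣ Nat.card U) (t : MulAut U) (ht : t ∈ Iso B) (a : ℕ)
    (ha : t ^ (3 ^ a) = 1) (u : U) (hu : t u = u) (h : ∀ y, t y = y → B u y = 1) : u = 1 := by
  refine hB.2 u fun y => xexe_cop _ a _ h3 ?_ (by rw [← map_pow, pow_card_eq_one', map_one])
  have hk : ∀ k : ℕ, B u ((t ^ k) y) = B u y := by
    intro k
    induction k with
    | zero => rfl
    | succ k ih =>
      rw [pow_succ', MulAut.mul_apply, ← ih]
      conv_lhs => rw [← hu]
      exact ht _ _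
  have h1 : t (∏ k ∈ Finset.range (3 ^ a), (t ^ k) y) = ∏ k ∈ Finset.range (3 ^ a), (t ^ k) y := by
    have e1 := Finset.prod_range_succ (fun k => (t ^ k) y) (3 ^ a)
    have e2 := Finset.prod_range_succ' (fun k => (t ^ k) y) (3 ^ a)
    rw [e1, ha, pow_zero] at e2
    rw [map_prod]
    refine (Finset.prod_congr rfl fun k _ => ?_).trans (mul_right_cancel e2).symm
    rw [pow_succ', MulAut.mul_apply]
  have h2 := h _ h1
  rw [map_prod, Finset.prod_congr rfl fun k _ => hk k, Finset.prod_const, Finset.card_range] at h2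
  exact h2

theorem xexe_lin {U Z : Type} [CommGroup U] [Finite U] [CommGroup Z] (B : U →* U →* Z)
    (hB : Symp B) (h3 : ¬ 3 ∣ Nat.card U) (s : MulAut U) (hs : s ∈ Iso B) (a : ℕ)
    (ha : s ^ (3 ^ a) = 1) (hne : s ≠ 1) :
    ∃ (W : Subgroup U) (r : ℕ), 1 ≤ r ∧ (∃ v ∈ W, v ≠ 1) ∧ (∀ u ∈ W, s u ∈ W) ∧
      (∀ u ∈ W, (s ^ (3 ^ r)) u = u) ∧
      (∀ u ∈ W, ∀ k : ℕ, ¬ 3 ^ r ∣ k → (s ^ k) u = u → u = 1) ∧
      ∀ u ∈ W, (∀ y ∈ W, B u y = 1) → u = 1 := by
  classical
  have hs' : ∀ x y, B (s x) (s y) = B x y := hs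
  have hex : ∃ r : ℕ, ∃ u, (s ^ (3 ^ r)) u = u ∧ s u ≠ u := by
    refine ⟨a, ?_⟩
    by_contra hc
    refine hne (MulEquiv.ext fun u => ?_)
    by_contra h
    exact hc ⟨u, by rw [ha]; rfl, h⟩
  obtain ⟨u0, hu0, hu1⟩ := Nat.find_spec hex
  have hmin : ∀ j < Nat.find hex, ∀ u, (s ^ (3 ^ j)) u = u → s u = u := by
    intro j hj u hu
    by_contra h
    exact Nat.find_min hex hj ⟨u, hu, h⟩
  generalize Nat.find hex = r at hu0 hmin
  have hcomm : ∀ u, (s ^ (3 ^ r)) (s u) = s ((s ^ (3 ^ r)) u) := by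
    intro u
    rw [← MulAut.mul_apply, ← MulAut.mul_apply, ← pow_succ, ← pow_succ']
  let W : Subgroup U :=
    { carrier := {u | (s ^ (3 ^ r)) u = u ∧ ∀ y, s y = y → B u y = 1}
      one_mem' := ⟨map_one _, fun y _ => by rw [map_one]; rfl⟩
      mul_mem' := fun {b c} hb hc => ⟨by rw [map_mul, hb.1, hc.1], fun y hy => by
        rw [map_mul, MonoidHom.mul_apply, hb.2 y hy, hc.2 y hy, one_mul]⟩
      inv_mem' := fun {b} hb => ⟨by rw [map_inv, hb.1], fun y hy => by
        rw [map_inv, MonoidHom.inv_apply, hb.2 y hy, inv_one]⟩ }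
  have hW : ∀ u, u ∈ W ↔ (s ^ (3 ^ r)) u = u ∧ ∀ y, s y = y → B u y = 1 := fun u => Iff.rfl
  have hd : ∀ y, (s ^ (3 ^ r)) y = y → s y * y⁻¹ ∈ W := by
    intro y hy
    refine (hW _).2 ⟨by rw [map_mul, map_inv, hcomm, hy], fun z hz => ?_⟩
    rw [map_mul, map_inv, MonoidHom.mul_apply, MonoidHom.inv_apply]
    have := hs' y z
    rw [hz] at this
    rw [this, mul_inv_cancel]
  have hfix : ∀ u ∈ W, s u = u → u = 1 := fun u hu h =>
    xexe_avg B hB h3 s hs a ha u h ((hW u).1 hu).2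
  refine ⟨W, r, ?_, ⟨_, hd u0 hu0, fun h => hu1 (mul_inv_eq_one.1 h)⟩, ?_,
    fun u hu => ((hW u).1 hu).1, ?_, ?_⟩
  · rcases Nat.eq_zero_or_pos r with h | h
    · subst h
      rw [pow_zero, pow_one] at hu0
      exact absurd hu0 hu1
    · exact h
  · intro u hu
    obtain ⟨h1, h2⟩ := (hW u).1 hu
    refine (hW _).2 ⟨by rw [hcomm, h1], fun y hy => ?_⟩
    have := hs' u y
    rw [hy] at this
    rw [this, h2 y hy]
  · intro u hu k hk h
    have h1 : MulAction.period s u ∣ k := MulAction.pow_smul_eq_iff_period_dvd.1 h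
    have h2 : MulAction.period s u ∣ 3 ^ a :=
      MulAction.pow_smul_eq_iff_period_dvd.1 (by rw [ha, one_smul])
    obtain ⟨j, -, hj⟩ := (Nat.dvd_prime_pow Nat.prime_three).1 h2
    have h4 : j < r := by
      by_contra hc
      exact hk ((pow_dvd_pow 3 (not_lt.1 hc)).trans (hj ▸ h1))
    refine hfix u hu (hmin j h4 u ?_)
    exact (MulAction.pow_smul_eq_iff_period_dvd (m := s) (a := u)).2 (hj ▸ dvd_rfl)
  · intro u hu h
    refine hfix u hu (mul_inv_eq_one.1 ?_)
    have hq : (s ^ (3 ^ r)) ^ (3 ^ a) = 1 := by rw [← pow_mul, mul_comm, pow_mul, ha, one_pow]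
    refine xexe_avg B hB h3 (s ^ (3 ^ r)) ((Iso B).pow_mem hs _) a hq _
      ((hW _).1 (hd u ((hW u).1 hu).1)).1 fun y hy => ?_
    obtain ⟨z, rfl⟩ := s.surjective y
    rw [hcomm] at hy
    have h1 := h _ (hd z (s.injective hy))
    rw [map_mul, map_inv, mul_inv_eq_one] at h1
    rw [map_mul, map_inv, MonoidHom.mul_apply, MonoidHom.inv_apply, hs', h1, mul_inv_cancel]

theorem exists_E {H : Type} [Group H] [Finite H] (A F : Subgroup H) (hS : SD A F) (h3 : ¬ 3 ∣ A.relIndex F) (x : H)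
    (a : ℕ) (hx : x ^ (3 ^ a) = 1) (hxA : x ∈ Subgroup.centralizer (A : Set H)) (hxF : x ∉ F) :
    ∃ (E : Subgroup H) (r : ℕ), PD A E ∧ A ≠ E ∧ x ∈ Subgroup.normalizer (E : Set H) ∧ 1 ≤ r ∧
      (∀ f ∈ E, x ^ (3 ^ r) * f = f * x ^ (3 ^ r)) ∧
      ∀ f ∈ E, ∀ k : ℕ, ¬ 3 ^ r ∣ k → ⁅x ^ k, f⁆ ∈ A → f ∈ A := by
  obtain ⟨U, Z, _, _, _, _, _, π, ζ, B, κ, hπ, hker, hζ, -, hB, hcm, hcard, -, hκ, hκ1⟩ :=
    sd_pair A F hS
  rw [← hcard] at h3
  let c : Subgroup.centralizer (A : Set H) := ⟨x, hxA⟩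
  have hc : c ^ (3 ^ a) = 1 := Subtype.ext hx
  obtain ⟨W, r, hr, ⟨v, hv, hv1⟩, hinv, hfix, hk, hnd⟩ :=
    xexe_lin B hB h3 (κ c : MulAut U) (κ c).2 a
      (by rw [← Subgroup.coe_pow, ← map_pow, hc, map_one]; rfl)
      (fun h => hxF ((hκ1 c).1 (Subtype.ext h)))
  have hconj : ∀ (k : ℕ) (f : F), ((κ c : MulAut U) ^ k) (π f) =
      π ⟨x ^ k * f * (x ^ k)⁻¹, hS.nF.conj_mem _ f.2 _⟩ := by
    intro k f
    rw [← Subgroup.coe_pow, ← map_pow]
    exact hκ (c ^ k) f _ rfl
  have hiff : ∀ (k : ℕ) (f : F), ((κ c : MulAut U) ^ k) (π f) = π f ↔ ⁅x ^ k, (f : H)⁆ ∈ A := by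
    intro k f
    rw [hconj, ← mul_inv_eq_one, ← map_inv, ← map_mul, hker]
    exact Iff.rfl
  let E : Subgroup H := (W.comap π).map F.subtype
  have hE : ∀ f, f ∈ E ↔ ∃ hf : f ∈ F, π ⟨f, hf⟩ ∈ W := by
    intro f
    constructor
    · rintro ⟨g, hg, rfl⟩
      exact ⟨g.2, hg⟩
    · rintro ⟨hf, h⟩
      exact ⟨⟨f, hf⟩, h, rfl⟩
  have hEF : ∀ f ∈ E, f ∈ F := fun f hf => ((hE f).1 hf).1
  refine ⟨E, r, ⟨hS.cyc, fun b hb => (hE b).2 ⟨hS.le hb, ?_⟩,
    fun b hb f hf => hS.cen b hb f (hEF f hf),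
    fun f hf g hg => hS.comm f (hEF f hf) g (hEF g hg), ?_⟩, ?_, ?_, hr, ?_, ?_⟩
  · rw [(hker ⟨b, hS.le hb⟩).2 hb]
    exact W.one_mem
  · intro f hf h
    obtain ⟨hf1, hf2⟩ := (hE f).1 hf
    refine (hker ⟨f, hf1⟩).1 (hnd _ hf2 fun y hy => hζ ?_)
    obtain ⟨g, rfl⟩ := hπ y
    rw [hcm, map_one, commutatorElement_eq_one_iff_mul_comm]
    exact h g ((hE g).2 ⟨g.2, hy⟩)
  · intro h
    obtain ⟨g, rfl⟩ := hπ v
    exact hv1 ((hker g).2 (h ▸ (hE g).2 ⟨g.2, hv⟩))
  · refine Subgroup.mem_normalizer_fintype fun f hf => ?_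
    obtain ⟨hf1, hf2⟩ := (hE f).1 hf
    refine (hE _).2 ⟨hS.nF.conj_mem _ hf1 _, ?_⟩
    rw [← hκ c ⟨f, hf1⟩ _ rfl]
    exact hinv _ hf2
  · intro f hf
    obtain ⟨hf1, hf2⟩ := (hE f).1 hf
    have h1 : ⁅x ^ (3 ^ r), f⁆ ∈ A := (hiff _ ⟨f, hf1⟩).1 (hfix _ hf2)
    have hy : ∀ b ∈ A, Commute b (x ^ (3 ^ r)) := fun b hb =>
      Commute.pow_right (Subgroup.mem_centralizer_iff.1 hxA b hb) _
    have hya : (x ^ (3 ^ r)) ^ (3 ^ a) = 1 := by rw [← pow_mul, mul_comm, pow_mul, hx, one_pow]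
    generalize x ^ (3 ^ r) = y at h1 hy hya
    rw [← commutatorElement_eq_one_iff_mul_comm]
    have e0 : y * f * y⁻¹ = ⁅y, f⁆ * f := by rw [commutatorElement_def]; group
    have hcf : Commute ⁅y, f⁆ f := hS.cen _ h1 f hf1
    have hcy := hy _ h1
    generalize ⁅y, f⁆ = d at e0 hcf hcy h1
    refine xexe_cop d a _ h3 ?_ ?_
    · have : ∀ n : ℕ, y ^ n * f = d ^ n * f * y ^ n := by
        intro n
        induction n with
        | zero => simp
        | succ n ih =>
          have e1 : y * f = d * f * y := by rw [← e0]; group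
          rw [pow_succ', mul_assoc, ih, ← mul_assoc, ← mul_assoc, ← (hcy.pow_left n).eq,
            mul_assoc (d ^ n), e1, pow_succ]
          group
      have h2 := this (3 ^ a)
      rw [hya, one_mul, mul_one] at h2
      exact mul_eq_right.1 h2.symm
    · have h2 : f ^ Nat.card U ∈ A := by
        refine (hker (⟨f, hf1⟩ ^ Nat.card U)).1 ?_
        rw [map_pow, pow_card_eq_one']
      have h4 : y * f ^ Nat.card U * y⁻¹ = d ^ Nat.card U * f ^ Nat.card U := by
        rw [← conj_pow, e0, hcf.mul_pow]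
      rw [← (hy _ h2).eq, mul_inv_cancel_right] at h4
      exact mul_eq_right.1 h4.symm
  · intro f hf k hk1 h
    obtain ⟨hf1, hf2⟩ := (hE f).1 hf
    exact (hker ⟨f, hf1⟩).1 (hk _ hf2 k hk1 ((hiff k ⟨f, hf1⟩).2 h))

end Pool.Agent.N9181

end

section

namespace Pool.Agent.N9181

open scoped commutatorElement

theorem xbasea1_cube {V : Type} [AddCommGroup V] [Module K V]
    {H : Type} [Group H] (ρ : Representation K H V) (x : H) (c : K) (hc : c ^ 3 = 1) (v : V)
    (hv : ρ x v = c • v) : ρ (x ^ 3) v = v := by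
  have h : ρ (x ^ 3) v = ρ x (ρ x (ρ x v)) := by
    rw [map_pow]
    rfl
  rw [h, hv, map_smul, hv, map_smul, map_smul, hv, smul_smul, smul_smul]
  have : c * c * c = 1 := by rw [← hc]; ring
  rw [this, one_smul]

theorem baseA1 {V : Type} [AddCommGroup V] [Module K V] [Module.Finite K V]
    {H : Type} [Group H] [Finite H] (h13 : ¬ 13 ∣ Nat.card H) (ρ : Representation K H V) (hinj : Function.Injective ρ) (hirr : Irr ρ) (A F : Subgroup H) (hS : SD A F)
    (hbal : HBal ρ) (h3 : ¬ 3 ∣ A.relIndex F) (x : H) (a : ℕ) (hx : x ^ (3 ^ a) = 1)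
    (hne : ed (ρ x) 3 ≠ ed (ρ x) 9) : Scal ρ := by
  have hfree : FreeOn ρ A := freeOn_of_irr ρ hinj hirr A hS.nA hS.cyc
  have hf : ∀ v, ρ x v = v → v = 0 := by
    intro v hv
    by_contra h0
    exact hne (hbal x v h0 hv)
  have hv3 : ∃ v : V, v ≠ 0 ∧ ρ (x ^ 3) v = v := by
    have hpos : 0 < ed (ρ x) 3 ∨ 0 < ed (ρ x) 9 := by omega
    rcases hpos with h | h
    · rw [← edOn_top, edOn_pos] at h
      obtain ⟨w, -, hw0, hw⟩ := h
      exact ⟨w, hw0, xbasea1_cube ρ x 3 (by decide) w hw⟩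
    · rw [← edOn_top, edOn_pos] at h
      obtain ⟨w, -, hw0, hw⟩ := h
      exact ⟨w, hw0, xbasea1_cube ρ x 9 (by decide) w hw⟩
  obtain ⟨v, hv0, hv⟩ := hv3
  have hxA : x ∈ Subgroup.centralizer (A : Set H) := by
    by_contra hnc
    have hn : x ∈ Subgroup.normalizer (A : Set H) := by
      have := hS.nA
      rw [Subgroup.normalizer_eq_top]
      trivial
    exact hv0 (mov ρ A hS.cyc hfree x a hx hn hnc hf v hv)
  have hxF : x ∈ F := by
    by_contra hxF
    obtain ⟨E, r, hP, hAE, hxE, hr, hc, hfp⟩ := exists_E A F hS h3 x a hx hxA hxF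
    exact hne (hhs h13 ρ A E hP hAE x hxA hxE hfree r hc hr hfp hf)
  have hxmem : x ∈ A := by
    have := hS.nA
    have h1 : x ^ (A.relIndex F) ∈ A := A.pow_relIndex_mem hxF
    have h2 : (A.relIndex F).Coprime (orderOf x) := by
      have h4 : (A.relIndex F).Coprime (3 ^ a) :=
        Nat.Coprime.pow_right a ((Nat.Prime.coprime_iff_not_dvd Nat.prime_three).2 h3).symm
      exact Nat.Coprime.coprime_dvd_right (orderOf_dvd_of_pow_eq_one hx) h4
    obtain ⟨m, hm⟩ := exists_pow_eq_self_of_coprime h2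
    rw [← hm]
    exact A.pow_mem h1 m
  have hx3 : x ^ 3 = 1 := hfree _ (A.pow_mem hxmem 3) v hv0 hv
  have hx1 : x ≠ 1 := by
    intro h
    apply hv0
    apply hf
    rw [h, map_one]
    rfl
  rcases scal_of_three ρ hinj hirr A hS.nA hS.cyc x hxmem hx1 hx3 with h | h
  · exact h
  · exact absurd h.1 hne

end Pool.Agent.N9181

end
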