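import Pool.Agent.Mg.F9181f8.G5cdca3
import Pool.Agent.Mg.F9181f8.G01f10b

section

namespace Pool.Agent.N9181

open scoped commutatorElement

theorem exists_proj {V : Type} [AddCommGroup V] [Module K V] [Module.Finite K V]
    {H : Type} [Group H] [Finite H] (ρ : Representation K H V) {I : Type} [Fintype I] [MulAction H I] (W : I → Submodule K V) (hB : BD ρ I W) :
    ∃ P : I → V →ₗ[K] V, (∀ i v, P i v ∈ W i) ∧ (∀ v, ∑ i, P i v = v) ∧
      (∀ i, ∀ w ∈ W i, P i w = w) ∧ (∀ i j, i ≠ j → ∀ w ∈ W j, P i w = 0) ∧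
      ∀ (h : H) (i : I) (v : V), P (h • i) (ρ h v) = ρ h (P i v) := by
  classical
  have hc : ∀ i, IsCompl (W i) (⨆ (j : I) (_ : j ≠ i), W j) := by
    intro i
    refine ⟨hB.ind i, ?_⟩
    rw [codisjoint_iff, eq_top_iff, ← hB.top]
    refine iSup_le fun j => ?_
    by_cases hj : j = i
    · subst hj
      exact le_sup_left
    · exact le_sup_of_le_right (le_iSup₂_of_le (f := fun (j : I) (_ : j ≠ i) => W j) j hj le_rfl)
  have h1 : ∀ i, ∀ w ∈ W i, (W i).projection _ (hc i) w = w := fun i w hw =>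
    Submodule.projection_apply_of_mem_left (hc i) hw
  have h2 : ∀ i j, i ≠ j → ∀ w ∈ W j, (W i).projection _ (hc i) w = 0 := fun i j hij w hw =>
    Submodule.projection_apply_of_mem_right (hc i)
      (le_iSup₂_of_le (f := fun (j : I) (_ : j ≠ i) => W j) j hij.symm le_rfl hw)
  refine ⟨fun i => (W i).projection _ (hc i), fun i v => Submodule.projection_apply_mem (hc i) v,
    fun v => ?_, h1, h2, fun h i v => ?_⟩
  · have e := ext_blocks ρ W hB (∑ i, (W i).projection _ (hc i)) 1 (fun j w hw => by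
      rw [LinearMap.sum_apply, Finset.sum_eq_single j (fun i _ hij => h2 i j hij w hw)
        (fun hj => absurd (Finset.mem_univ j) hj), h1 j w hw, Module.End.one_apply])
    have := LinearMap.congr_fun e v
    rwa [LinearMap.sum_apply, Module.End.one_apply] at this
  · have e := ext_blocks ρ W hB ((W (h • i)).projection _ (hc (h • i)) * ρ h)
      (ρ h * (W i).projection _ (hc i)) (fun j w hw => by
        rw [Module.End.mul_apply, Module.End.mul_apply]
        by_cases hij : i = j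
        · subst hij
          rw [h1 _ _ (hB.map h i w hw), h1 _ _ hw]
        · rw [h2 i j hij w hw, map_zero]
          exact h2 _ _ (fun e => hij (MulAction.injective h e)) _ (hB.map h j w hw))
    exact LinearMap.congr_fun e v

theorem comp0 {V : Type} [AddCommGroup V] [Module K V] [Module.Finite K V]
    {H : Type} [Group H] [Finite H] (ρ : Representation K H V) {I : Type} [Fintype I] [MulAction H I] (W : I → Submodule K V) (hB : BD ρ I W) (r r' : I → V) (hr : ∀ i, r i ∈ W i) (hr' : ∀ i, r' i ∈ W i)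
    (t : H) (ν : K) (h : ρ t (∑ i, r i) = ν • ∑ i, r' i) : ∀ i, ρ t (r i) = ν • r' (t • i) := by
  intro i
  obtain ⟨P, -, -, h1, h2, h3⟩ := exists_proj ρ W hB
  have key : ∀ (s : I → V), (∀ i, s i ∈ W i) → ∀ j, P j (∑ i, s i) = s j := by
    intro s hs j
    rw [map_sum, Finset.sum_eq_single j (fun i _ hij => h2 j i hij.symm _ (hs i))
      (fun hj => absurd (Finset.mem_univ j) hj), h1 j _ (hs j)]
  have e := h3 t i (∑ i, r i)
  rw [h, map_smul, key r hr, key r' hr'] at e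
  exact e.symm

theorem blk_eq {V : Type} [AddCommGroup V] [Module K V] [Module.Finite K V]
    {H : Type} [Group H] [Finite H] (ρ : Representation K H V) {I : Type} [Fintype I] [MulAction H I] (W : I → Submodule K V) (hB : BD ρ I W) (i j : I) (h : H) (w : V) (hw : w ∈ W i) (h0 : w ≠ 0)
    (hj : ρ h w ∈ W j) : h • i = j := by
  obtain ⟨P, -, -, h1, h2, -⟩ := exists_proj ρ W hB
  by_contra hne
  have e1 := h1 _ _ (hB.map h i w hw)
  rw [h2 _ _ hne _ hj] at e1
  exact xcomp_ne ρ h w h0 e1.symm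

theorem pair_act {V : Type} [AddCommGroup V] [Module K V] [Module.Finite K V]
    {H : Type} [Group H] [Finite H] (ρ : Representation K H V) {I : Type} [Fintype I] [MulAction H I] (W : I → Submodule K V) (hB : BD ρ I W) (i k : I) (hik : i ≠ k) (w u w' u' : V) (hw : w ∈ W i)
    (hu : u ∈ W k) (hw' : w' ∈ W i) (hu' : u' ∈ W k) (h0 : w ≠ 0) (h0' : u ≠ 0) (g : H)
    (h : ρ g (w + u) = w' + u') :
    (g • i = i ∧ g • k = k ∧ ρ g w = w' ∧ ρ g u = u') ∨
      (g • i = k ∧ g • k = i ∧ ρ g w = u' ∧ ρ g u = w') := by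
  obtain ⟨P, -, -, h1, h2, h3⟩ := exists_proj ρ W hB
  have e1 : ρ g w = P (g • i) w' + P (g • i) u' := by
    have := h3 g i (w + u)
    rw [h, map_add, map_add, h1 i w hw, h2 i k hik u hu, add_zero] at this
    exact this.symm
  have e2 : ρ g u = P (g • k) w' + P (g • k) u' := by
    have := h3 g k (w + u)
    rw [h, map_add, map_add, h1 k u hu, h2 k i hik.symm w hw, zero_add] at this
    exact this.symm
  have hne : g • i ≠ g • k := fun e => hik (MulAction.injective g e)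
  have n1 := xcomp_ne ρ g w h0
  have n2 := xcomp_ne ρ g u h0'
  have c1 : g • i = i ∨ g • i = k := by
    by_contra hcon
    rw [not_or] at hcon
    rw [h2 _ _ hcon.1 _ hw', h2 _ _ hcon.2 _ hu', add_zero] at e1
    exact n1 e1
  have c2 : g • k = i ∨ g • k = k := by
    by_contra hcon
    rw [not_or] at hcon
    rw [h2 _ _ hcon.1 _ hw', h2 _ _ hcon.2 _ hu', add_zero] at e2
    exact n2 e2
  rcases c1 with c1 | c1
  · rcases c2 with c2 | c2
    · exact absurd (c1.trans c2.symm) hne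
    · left
      rw [c1, h1 i _ hw', h2 i k hik _ hu', add_zero] at e1
      rw [c2, h1 k _ hu', h2 k i hik.symm _ hw', zero_add] at e2
      exact ⟨c1, c2, e1, e2⟩
  · rcases c2 with c2 | c2
    · right
      rw [c1, h1 k _ hu', h2 k i hik.symm _ hw', zero_add] at e1
      rw [c2, h1 i _ hw', h2 i k hik _ hu', add_zero] at e2
      exact ⟨c1, c2, e1, e2⟩
    · exact absurd (c1.trans c2.symm) hne

theorem trans_of_irr {V : Type} [AddCommGroup V] [Module K V] [Module.Finite K V]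
    {H : Type} [Group H] [Finite H] (ρ : Representation K H V) {I : Type} [Fintype I] [MulAction H I] (W : I → Submodule K V) (hB : BD ρ I W) (hirr : Irr ρ) : MulAction.IsPretransitive H I := by
  refine ⟨fun i j => ?_⟩
  by_contra hcon
  have hinv : ∀ h : H, ∀ v ∈ (⨆ g : H, W (g • i)), ρ h v ∈ (⨆ g : H, W (g • i)) := by
    intro h
    have : (⨆ g : H, W (g • i)) ≤ (⨆ g : H, W (g • i)).comap (ρ h) := by
      refine iSup_le fun g w hw => ?_
      have := hB.map h _ w hw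
      rw [← mul_smul] at this
      exact le_iSup (fun g : H => W (g • i)) (h * g) this
    exact fun v hv => this hv
  rcases hirr.2 _ hinv with e | e
  · apply hB.ne i
    rw [eq_bot_iff, ← e]
    have := le_iSup (fun g : H => W (g • i)) 1
    rwa [one_smul] at this
  · apply hB.ne j
    have hle : (⨆ g : H, W (g • i)) ≤ ⨆ (l : I) (_ : l ≠ j), W l :=
      iSup_le fun g => le_iSup₂_of_le (f := fun (l : I) (_ : l ≠ j) => W l) (g • i)
        (fun e => hcon ⟨g, e⟩) le_rfl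
    rw [e] at hle
    have hd := hB.ind j
    rw [top_le_iff.1 hle] at hd
    exact disjoint_top.1 hd

theorem blk_map {V : Type} [AddCommGroup V] [Module K V] [Module.Finite K V]
    {H : Type} [Group H] [Finite H] (ρ : Representation K H V) {I : Type} [Fintype I] [MulAction H I] (W : I → Submodule K V) (hB : BD ρ I W) (h : H) (i : I) : (W i).map (ρ h) = W (h • i) := by
  refine le_antisymm ?_ fun w hw => ?_
  · rintro _ ⟨w, hw, rfl⟩
    exact hB.map h i w hw
  · refine ⟨ρ h⁻¹ w, ?_, rho_inv' ρ h w⟩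
    have := hB.map h⁻¹ _ w hw
    rwa [inv_smul_smul] at this

end Pool.Agent.N9181

end

section

namespace Pool.Agent.N9181

open scoped commutatorElement

theorem xstrans_key {V : Type} [AddCommGroup V] [Module K V] [Module.Finite K V]
    {H : Type} [Group H] (ρ : Representation K H V) {I : Type} [MulAction H I]
    (W : I → Submodule K V) (hB : BD ρ I W) (i : I) {H' : Type} [Group H']
    (π : MulAction.stabilizer H i →* H') (σ : Representation K H' (W i)) (hF : FB ρ W i π σ)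
    (g h : H) (n : ℕ) (hn : h ^ (3 ^ n) = 1) (hj : h • g • i = g • i) :
    ∃ s : H', s ^ (3 ^ n) = 1 ∧ (∀ w : W i, (σ s w : V) = ρ g⁻¹ (ρ h (ρ g w))) ∧
      ∀ c, ed (σ s) c = edOn (W (g • i)) (ρ h) c := by
  have hm : g⁻¹ * h * g ∈ MulAction.stabilizer H i := by
    rw [MulAction.mem_stabilizer_iff, mul_smul, mul_smul, hj, inv_smul_smul]
  refine ⟨π ⟨_, hm⟩, ?_, fun w => ?_, fun c => ?_⟩
  · rw [← map_pow]
    have h1 : (⟨_, hm⟩ : MulAction.stabilizer H i) ^ (3 ^ n) = 1 := by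
      apply Subtype.ext
      have h2 := conj_pow (a := g⁻¹) (b := h) (i := 3 ^ n)
      rw [inv_inv, hn, mul_one, inv_mul_cancel] at h2
      exact h2
    rw [h1, map_one]
  · rw [hF.res, rho_mul, rho_mul]
  · rw [ed_res (W i) (ρ (g⁻¹ * h * g)) _ (fun w => hF.res ⟨_, hm⟩ w) c,
      ← (dim_eq ρ W hB g (g⁻¹ * h * g) i c).2]
    congr 2
    group

theorem xstrans_eig {V : Type} [AddCommGroup V] [Module K V]
    {H : Type} [Group H] (ρ : Representation K H V) (U : Submodule K V) (s : Module.End K U)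
    (g h : H) (hs : ∀ w : U, (s w : V) = ρ g⁻¹ (ρ h (ρ g w))) (r : U) (c : K)
    (hr : ρ h (ρ g r) = c • ρ g r) : s r = c • r := by
  apply Subtype.ext
  rw [hs, hr, map_smul, rho_inv]
  rfl

theorem trans_pb {V : Type} [AddCommGroup V] [Module K V] [Module.Finite K V]
    {H : Type} [Group H] [Finite H] (ρ : Representation K H V) {I : Type} [Fintype I] [MulAction H I] (W : I → Submodule K V) (hB : BD ρ I W) (i : I) {H' : Type} [Group H'] [Finite H'] (π : MulAction.stabilizer H i →* H')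
    (σ : Representation K H' (W i)) (hF : FB ρ W i π σ) (g : I → H) (hg : ∀ j, g j • i = j) :
    (∀ (r : W i) (p : ℕ), Pos σ r p → BPos ρ W (fun j => ρ (g j) r) p) ∧
      (∀ (r : W i) (p : ℕ), PosW σ r p → BPosW ρ W (fun j => ρ (g j) r) p) ∧
      (∀ r : W i, RegF σ r → BRegF ρ W (fun j => ρ (g j) r)) ∧
      ∀ r r' : W i, r ≠ 0 → (∀ k, σ k r' ≠ (3 : K) • r) →
        ∀ (h : H) (j j' : I), ρ h (ρ (g j) r') ≠ (3 : K) • ρ (g j') r := by
  refine ⟨fun r p hP j h n hn hj hr => ?_, fun r p hP j h n hn hj hr => ?_,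
    fun r hP j h n hn hj hr hf w hw => ?_, fun r r' h0 hk h j j' he => ?_⟩
  · obtain ⟨s, h1, h2, h3⟩ := xstrans_key ρ W hB i π σ hF (g j) h n hn (by rw [hg, hj])
    have h4 := hP s n h1 (xstrans_eig ρ _ _ _ _ h2 r 3 hr)
    rwa [h3, h3, hg] at h4
  · obtain ⟨s, h1, h2, h3⟩ := xstrans_key ρ W hB i π σ hF (g j) h n hn (by rw [hg, hj])
    have h4 := hP s n h1 (xstrans_eig ρ _ _ _ _ h2 r 3 hr)
    rwa [h3, h3, hg] at h4
  · obtain ⟨s, h1, h2, -⟩ := xstrans_key ρ W hB i π σ hF (g j) h n hn (by rw [hg, hj])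
    have h4 := hP s n h1 (xstrans_eig ρ _ _ _ _ h2 r 3 hr) (fun v hv => by
      have h5 := h2 v
      rw [hv] at h5
      have h6 : ρ h (ρ (g j) v) = ρ (g j) v := by
        conv_rhs => rw [h5, rho_inv']
      have h7 := hf _ h6
      by_contra h8
      exact xcomp_ne ρ (g j) v (fun e => h8 (Subtype.ext e)) h7)
    have hw' : ρ (g j)⁻¹ w ∈ W i := by
      have h5 := hB.map (g j)⁻¹ j w hw
      rwa [show (g j)⁻¹ • j = i by rw [inv_smul_eq_iff, hg]] at h5
    have h5 := h2 ⟨_, hw'⟩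
    rw [h4] at h5
    have h6 := congrArg (ρ (g j)) h5
    simp only [SetLike.val_smul, map_smul, rho_inv'] at h6
    exact h6.symm
  · have h1 : ρ ((g j')⁻¹ * h * g j) r' = (3 : K) • (r : V) := by
      rw [rho_mul, rho_mul, he, map_smul, rho_inv]
    have h2 : (3 : K) • (r : V) ≠ 0 :=
      smul_ne_zero (by decide) (fun e => h0 (Subtype.ext e))
    have hm : (g j')⁻¹ * h * g j ∈ MulAction.stabilizer H i := by
      rw [MulAction.mem_stabilizer_iff]
      by_contra hne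
      have h3 : Disjoint (W (((g j')⁻¹ * h * g j) • i)) (W i) := hB.ind.pairwiseDisjoint hne
      refine h2 (Submodule.disjoint_def.1 h3 _ ?_ ((W i).smul_mem _ r.2))
      rw [← h1]
      exact hB.map _ i _ r'.2
    exact hk (π ⟨_, hm⟩) (Subtype.ext (by rw [hF.res]; exact h1))

end Pool.Agent.N9181

end

section

namespace Pool.Agent.N9181

open scoped commutatorElement

section Aux

variable {V : Type} [AddCommGroup V] [Module K V] [Module.Finite K V]
  {H : Type} [Group H] [Finite H] (ρ : Representation K H V) {I : Type} [Fintype I]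
  [MulAction H I] (W : I → Submodule K V)

theorem xsfin1_bal0 [DecidableEq I] (hB : BD ρ I W) (hbal : HBal3 ρ) (t : H) (a : ℕ)
    (ht : t ^ (3 ^ a) = 1) (hv : ∃ v, v ≠ 0 ∧ ρ t v = v) :
    ∑ i ∈ Finset.univ.filter (fun i : I => t • i = i), edOn (W i) (ρ t) 3 =
      ∑ i ∈ Finset.univ.filter (fun i : I => t • i = i), edOn (W i) (ρ t) 9 := by
  obtain ⟨c, hc, -⟩ := cyc ρ W hB t a ht
  obtain ⟨v, hv0, hv⟩ := hv
  have := hbal t a v ht hv0 hv
  rw [hc 3 (by decide), hc 9 (by decide)] at this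
  omega

theorem xsfin1_bal (hB : BD ρ I W) (hbal : HBal3 ρ) (g : H) (b : ℕ)
    (hg : (ρ g) ^ (3 ^ b) = 1) (hf : ∀ i : I, g • i = i) (hv : ∃ v, v ≠ 0 ∧ ρ g v = v) :
    ∑ i, edOn (W i) (ρ g) 3 = ∑ i, edOn (W i) (ρ g) 9 := by
  classical
  obtain ⟨e, a, h1, -, h2⟩ := p_part 3 Nat.prime_three g
  have h3 : ρ (g ^ e) = ρ g := h2 _ ρ b hg
  have h4 : ∀ i : I, (g ^ e) • i = i := fun i =>
    (MulAction.stabilizer H i).pow_mem (show g ∈ MulAction.stabilizer H i from hf i) e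
  have := xsfin1_bal0 ρ W hB hbal (g ^ e) a h1 (by rw [h3]; exact hv)
  rwa [Finset.filter_true_of_mem fun i _ => h4 i, h3] at this

theorem xsfin1_pair (hB : BD ρ I W) (hbal : HBal3 ρ) (t x h : H) (a : ℕ) (i1 : I) (s : K)
    (hs : s ≠ 0) (h12 : i1 ≠ h • i1) (ht : t ^ (3 ^ a) = 1) (hx : x ^ (3 ^ a) = 1)
    (ft : ∀ i : I, t • i = i) (fx : ∀ i : I, x • i = i)
    (st : ∀ i, i ≠ i1 → ∀ w ∈ W i, ρ t w = (3 : K) • w)
    (sx : ∀ i, i ≠ i1 → ∀ w ∈ W i, ρ x w = s • w) (hv : 0 < edOn (W i1) (ρ x) 9) :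
    ∃ E : I → K → ℕ, ∑ i, E i 3 = ∑ i, E i 9 ∧ (∀ ν, E i1 (3 * ν) = edOn (W i1) (ρ x) ν) ∧
      (∀ ν, E (h • i1) (s * ν) = edOn (W i1) (ρ t) ν) ∧
      ∀ i, i ≠ i1 → i ≠ h • i1 →
        E i (3 * s) = Module.finrank K (W i) ∧ ∀ ν, 3 * s ≠ ν → E i ν = 0 := by
  have f2 : ∀ i : I, (h * t * h⁻¹) • i = i := fun i => by
    rw [mul_smul, mul_smul, ft, smul_inv_smul]
  have s2 : ∀ i, i ≠ h • i1 → ∀ w ∈ W i, ρ (h * t * h⁻¹) w = (3 : K) • w := by
    intro i hi w hw
    have h1 : h⁻¹ • i ≠ i1 := fun e => hi (by rw [← e, smul_inv_smul])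
    rw [map_mul, map_mul, Module.End.mul_apply, Module.End.mul_apply,
      st _ h1 _ (hB.map h⁻¹ i w hw), map_smul, ← Module.End.mul_apply, ← map_mul,
      mul_inv_cancel, map_one, Module.End.one_apply]
  have o2 : (h * t * h⁻¹) ^ (3 ^ a) = 1 := by rw [conj_pow, ht, mul_one, mul_inv_cancel]
  have d2 := fun c => (dim_eq ρ W hB h t i1 c).2
  generalize h * t * h⁻¹ = u at f2 s2 o2 d2
  generalize h • i1 = i2 at h12 s2 d2
  have mx : ∀ i, ∀ w ∈ W i, ρ x w ∈ W i := fun i w hw => by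
    have := hB.map x i w hw
    rwa [fx] at this
  have mu : ∀ i, ∀ w ∈ W i, ρ u w ∈ W i := fun i w hw => by
    have := hB.map u i w hw
    rwa [f2] at this
  have hc : Commute (ρ u) (ρ x) := by
    refine ext_blocks ρ W hB _ _ fun i w hw => ?_
    rw [Module.End.mul_apply, Module.End.mul_apply]
    by_cases hi : i = i1
    · have hi2 : i ≠ i2 := hi ▸ h12
      rw [s2 i hi2 _ (mx i w hw), s2 i hi2 w hw, map_smul]
    · rw [sx i hi _ (mu i w hw), sx i hi w hw, map_smul]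
  have ho : (ρ (u * x)) ^ (3 ^ a) = 1 := by
    rw [map_mul, hc.mul_pow, ← map_pow, ← map_pow, o2, hx, map_one, mul_one]
  have e1 : ∀ w ∈ W i1, ρ (u * x) w = (3 : K) • ρ x w := fun w hw => by
    rw [map_mul, Module.End.mul_apply, s2 i1 h12 _ (mx i1 w hw)]
  have e2 : ∀ w ∈ W i2, ρ (u * x) w = s • ρ u w := fun w hw => by
    rw [map_mul, Module.End.mul_apply, sx i2 h12.symm w hw, map_smul]
  have e3 : ∀ i, i ≠ i1 → i ≠ i2 → ∀ w ∈ W i, ρ (u * x) w = (3 * s) • w := fun i a1 a2 w hw => by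
    rw [map_mul, Module.End.mul_apply, sx i a1 w hw, map_smul, s2 i a2 w hw, smul_smul, mul_comm]
  refine ⟨fun i ν => edOn (W i) (ρ (u * x)) ν, ?_, fun ν => ?_, fun ν => ?_, fun i a1 a2 => ?_⟩
  · refine xsfin1_bal ρ W hB hbal _ a ho (fun i => by rw [mul_smul, fx, f2]) ?_
    obtain ⟨w, hw, hw0, e⟩ := (edOn_pos _ _ _).1 hv
    refine ⟨w, hw0, ?_⟩
    rw [e1 w hw, e, smul_smul, show (3 * 9 : K) = 1 by decide, one_smul]
  · exact xstepa_mul _ _ _ _ _ (by decide) e1
  · exact (xstepa_mul _ _ _ _ _ hs e2).trans (d2 ν)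
  · exact ⟨xstepa_full _ _ _ (e3 i a1 a2), fun ν hν => xstepa_zero _ _ _ _ (e3 i a1 a2) hν⟩

theorem xsfin1_cube [MulAction.IsPretransitive H I] (hB : BD ρ I W) (hbal : HBal3 ρ)
    (t : H) (a : ℕ) (i1 i2 i3 : I) (h12 : i1 ≠ i2)
    (h13 : i1 ≠ i3) (h23 : i2 ≠ i3) (ht : t ^ (3 ^ a) = 1) (ft : ∀ i : I, t • i = i)
    (st : ∀ i, i ≠ i1 → ∀ w ∈ W i, ρ t w = (3 : K) • w) : (ρ t) ^ 3 = 1 := by
  by_contra hne
  obtain ⟨k, k1, k2⟩ : ∃ k, ρ (t ^ (3 ^ (k + 1))) ≠ 1 ∧ ρ (t ^ (3 ^ (k + 1 + 1))) = 1 := by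
    by_contra hn
    have h1 : ∀ k, ρ (t ^ (3 ^ (k + 1))) ≠ 1 := by
      intro k
      induction k with
      | zero => rw [map_pow]; exact hne
      | succ k ih => exact fun e => hn ⟨k, ih, e⟩
    refine h1 a ?_
    rw [pow_succ, pow_mul, ht, one_pow, map_one]
  have oy : (t ^ (3 ^ (k + 1))) ^ (3 ^ a) = 1 := by
    rw [← pow_mul, mul_comm, pow_mul, ht, one_pow]
  have fy : ∀ i : I, (t ^ (3 ^ (k + 1))) • i = i := fun i =>
    (MulAction.stabilizer H i).pow_mem (show t ∈ MulAction.stabilizer H i from ft i) _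
  have sy : ∀ i, i ≠ i1 → ∀ w ∈ W i, ρ (t ^ (3 ^ (k + 1))) w = (1 : K) • w := by
    intro i hi w hw
    rw [map_pow, xstepa_pow _ _ _ (st i hi) _ w hw, pow_succ', pow_mul,
      show (3 : K) ^ 3 = 1 by decide, one_pow]
  have b9 : edOn (W i1) (ρ t) 9 ≤ edOn (W i1) (ρ (t ^ (3 ^ (k + 1)))) 1 := by
    refine Submodule.finrank_mono fun w hw => ⟨hw.1, Module.End.mem_eigenspace_iff.2 ?_⟩
    rw [rho_pow_eig ρ t w 9 (Module.End.mem_eigenspace_iff.1 hw.2), pow_succ', pow_mul,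
      show (9 : K) ^ 3 = 1 by decide, one_pow]
  rw [pow_succ _ (k + 1), pow_mul, map_pow] at k2
  generalize t ^ (3 ^ (k + 1)) = y at k1 k2 oy fy sy b9
  have my : ∀ w ∈ W i1, ρ y w ∈ W i1 := fun w hw => by
    have := hB.map y i1 w hw
    rwa [fy] at this
  have b1 : ∑ i, edOn (W i) (ρ y) 3 = ∑ i, edOn (W i) (ρ y) 9 := by
    refine xsfin1_bal ρ W hB hbal y a (by rw [← map_pow, oy, map_one]) fy ?_
    obtain ⟨w, hw, hw0⟩ := Submodule.exists_mem_ne_zero_of_ne_bot (hB.ne i2)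
    exact ⟨w, hw0, by rw [sy i2 h12.symm w hw, one_smul]⟩
  rw [Finset.sum_eq_single i1 (fun i _ hi => xstepa_zero _ _ _ _ (sy i hi) (by decide))
      (fun h => (h (Finset.mem_univ _)).elim),
    Finset.sum_eq_single i1 (fun i _ hi => xstepa_zero _ _ _ _ (sy i hi) (by decide))
      (fun h => (h (Finset.mem_univ _)).elim)] at b1
  have b2 := split3 (W i1) (ρ y) my fun w _ => by rw [k2, Module.End.one_apply]
  have b3 : 0 < edOn (W i1) (ρ y) 3 := by
    refine Nat.pos_of_ne_zero fun e => k1 (ext_blocks ρ W hB _ _ fun i w hw => ?_)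
    rw [Module.End.one_apply]
    by_cases hi : i = i1
    · subst hi
      rw [xstepa_of_full (W i) (ρ y) 1 (by omega) w hw, one_smul]
    · rw [sy i hi w hw, one_smul]
  obtain ⟨h, rfl⟩ := MulAction.exists_smul_eq H i1 i2
  obtain ⟨E, c1, c2, c3, c4⟩ :=
    xsfin1_pair ρ W hB hbal t y h a i1 1 one_ne_zero h12 ht oy ft fy st sy (by omega)
  have c5 := xstepa_sum Finset.univ (fun i => E i 3) (fun i => E i 9) i1 (h • i1) i3
    (Finset.mem_univ _) (Finset.mem_univ _) (Finset.mem_univ _) h12 h13 h23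
    (fun i _ a1 a2 => (c4 i a1 a2).2 9 (by decide)) c1
  have c6 := c2 1
  have c7 := c2 3
  have c8 := c3 9
  have c9 := (c4 i3 h13.symm h23.symm).1
  rw [mul_one] at c6 c9
  rw [show (3 * 3 : K) = 9 by decide] at c7
  rw [one_mul] at c8
  have c10 := (xstepa_dim ρ W hB i1 i3).1
  omega

theorem xsfin1_fin [MulAction.IsPretransitive H I] (hB : BD ρ I W) (hbal : HBal3 ρ)
    (t : H) (a : ℕ) (i1 i2 i3 : I) (h12 : i1 ≠ i2)
    (h13 : i1 ≠ i3) (h23 : i2 ≠ i3) (ht : t ^ (3 ^ a) = 1) (ft : ∀ i : I, t • i = i)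
    (st : ∀ i, i ≠ i1 → ∀ w ∈ W i, ρ t w = (3 : K) • w) : ∀ w ∈ W i1, ρ t w = (3 : K) • w := by
  have h3 := xsfin1_cube ρ W hB hbal t a i1 i2 i3 h12 h13 h23 ht ft st
  have mt : ∀ w ∈ W i1, ρ t w ∈ W i1 := fun w hw => by
    have := hB.map t i1 w hw
    rwa [ft] at this
  have b2 := split3 (W i1) (ρ t) mt fun w _ => by rw [h3, Module.End.one_apply]
  obtain ⟨d2, d0⟩ := xstepa_dim ρ W hB i1 i2
  have d3 := (xstepa_dim ρ W hB i1 i3).1
  have p0 : edOn (W i1) (ρ t) 1 = 0 := by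
    by_contra e
    obtain ⟨w, -, hw0, hw⟩ := (edOn_pos _ _ _).1 (Nat.pos_of_ne_zero e)
    have b1 := xsfin1_bal ρ W hB hbal t a (by rw [← map_pow, ht, map_one]) ft
      ⟨w, hw0, by rw [hw, one_smul]⟩
    have c5 := xstepa_sum Finset.univ _ _ i1 i2 i3
      (Finset.mem_univ _) (Finset.mem_univ _) (Finset.mem_univ _) h12 h13 h23
      (fun i _ a1 _ => xstepa_zero _ _ _ _ (st i a1) (by decide)) b1
    rw [xstepa_full _ _ _ (st i2 h12.symm), xstepa_full _ _ _ (st i3 h13.symm),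
      xstepa_zero _ _ _ 9 (st i2 h12.symm) (by decide)] at c5
    omega
  have p2 : edOn (W i1) (ρ t) 9 = 0 := by
    by_contra e
    obtain ⟨h, rfl⟩ := MulAction.exists_smul_eq H i1 i2
    obtain ⟨E, c1, c2, c3, c4⟩ := xsfin1_pair ρ W hB hbal t t h a i1 3 (by decide) h12 ht ht
      ft ft st st (Nat.pos_of_ne_zero e)
    have c5 := xstepa_sum Finset.univ (fun i => E i 9) (fun i => E i 3) i1 (h • i1) i3
      (Finset.mem_univ _) (Finset.mem_univ _) (Finset.mem_univ _) h12 h13 h23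
      (fun i _ a1 a2 => (c4 i a1 a2).2 3 (by decide)) c1.symm
    have c6 := c2 1
    have c8 := c3 1
    have c9 := (c4 i3 h13.symm h23.symm).1
    rw [mul_one] at c6 c8
    rw [show (3 * 3 : K) = 9 by decide] at c9
    omega
  exact xstepa_of_full _ _ _ (by omega)

end Aux

theorem bal3_all {V : Type} [AddCommGroup V] [Module K V] [Module.Finite K V]
    {H : Type} [Group H] [Finite H] (ρ : Representation K H V) {I : Type} [Fintype I] [MulAction H I] (W : I → Submodule K V) (hB : BD ρ I W) (hb : HBal3 ρ) (g : H) (b : ℕ) (hg : (ρ g) ^ (3 ^ b) = 1)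
    (hf : ∀ i : I, g • i = i) (hv : ∃ v, v ≠ 0 ∧ ρ g v = v) :
    ∑ i, edOn (W i) (ρ g) 3 = ∑ i, edOn (W i) (ρ g) 9 := by
  exact xsfin1_bal ρ W hB hb g b hg hf hv

theorem fin1 {V : Type} [AddCommGroup V] [Module K V] [Module.Finite K V]
    {H : Type} [Group H] [Finite H] (ρ : Representation K H V) {I : Type} [Fintype I] [MulAction H I] [MulAction.IsPretransitive H I]
    (W : I → Submodule K V) (hB : BD ρ I W) (hb : HBal3 ρ) (t : H) (a : ℕ) (i1 i2 i3 : I) (h12 : i1 ≠ i2)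
    (h13 : i1 ≠ i3) (h23 : i2 ≠ i3) (ht : t ^ (3 ^ a) = 1) (ft : ∀ i : I, t • i = i)
    (st : ∀ i, i ≠ i1 → ∀ w ∈ W i, ρ t w = (3 : K) • w) : ∀ w ∈ W i1, ρ t w = (3 : K) • w := by
  exact xsfin1_fin ρ W hB hb t a i1 i2 i3 h12 h13 h23 ht ft st

end Pool.Agent.N9181

end

section

namespace Pool.Agent.N9181

open scoped commutatorElement

theorem z2 {V : Type} [AddCommGroup V] [Module K V] [Module.Finite K V]
    {H : Type} [Group H] [Finite H] (ρ : Representation K H V) {I : Type} [Fintype I] [MulAction H I] (W : I → Submodule K V) (hB : BD ρ I W) [Nonempty I] (hb : HBal3 ρ) (t : H) (a : ℕ) (ht : t ^ (3 ^ a) = 1)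
    (ft : ∀ i : I, t • i = i) (hf : ∀ v, ρ t v = v → v = 0)
    (hp : ∀ i, edOn (W i) (ρ t) 9 < edOn (W i) (ρ t) 3)
    (hz : ∀ i : I, ∃ z : H, DiagE ρ W z ∧ ∀ w ∈ W i, ρ z w = (3 : K) • w) : Scal ρ := by
  classical
  have := Fintype.ofFinite H
  by_contra hS
  have ext : ∀ f g : Module.End K V, (∀ i, ∀ w ∈ W i, f w = g w) → f = g := fun f g h =>
    LinearMap.eqLocus_eq_top.1 (top_le_iff.1 (hB.top ▸ iSup_le h))
  obtain ⟨dl, hd⟩ : ∃ dl : H → I → ℤ, ∀ z i,
    dl z i = edOn (W i) (ρ (t * z)) 3 - edOn (W i) (ρ (t * z)) 9 := ⟨_, fun _ _ => rfl⟩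
  have n1 : ∀ i, edOn (W i) (ρ t) 1 = 0 := fun i => Nat.eq_zero_of_not_pos fun h => by
    obtain ⟨w, -, h1, h2⟩ := (edOn_pos _ _ _).1 h
    exact h1 (hf w (by rwa [one_smul] at h2))
  have key : ∀ {z i} {c : K} (ν μ : K), (∀ w ∈ W i, ρ z w = c • w) → c ≠ 0 → c * ν = μ →
      edOn (W i) (ρ (t * z)) μ = edOn (W i) (ρ t) ν := fun ν μ h hc e =>
    e ▸ xstepa_mul _ _ _ _ _ hc fun w hw => by rw [rho_mul, h w hw, map_smul]
  have d1 : ∀ {z i}, (∀ w ∈ W i, ρ z w = (1 : K) • w) →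
      dl z i = edOn (W i) (ρ t) 3 - edOn (W i) (ρ t) 9 := fun h => by
    rw [hd, key 3 3 h (by decide) (by decide), key 9 9 h (by decide) (by decide)]
  have d3 : ∀ {z i}, (∀ w ∈ W i, ρ z w = (3 : K) • w) → dl z i = -edOn (W i) (ρ t) 3 := fun h => by
    rw [hd, key 1 3 h (by decide) (by decide), key 3 9 h (by decide) (by decide), n1]
    simp
  have d9 : ∀ {z i}, (∀ w ∈ W i, ρ z w = (9 : K) • w) → dl z i = edOn (W i) (ρ t) 9 := fun h => by
    rw [hd, key 9 3 h (by decide) (by decide), key 1 9 h (by decide) (by decide), n1]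
    simp
  have mul : ∀ {z z' i} {c c' : K} (d : K), (∀ w ∈ W i, ρ z w = c • w) →
      (∀ w ∈ W i, ρ z' w = c' • w) → c' * c = d → ∀ w ∈ W i, ρ (z * z') w = d • w :=
    fun d h h' e w hw => by rw [rho_mul, h' w hw, map_smul, h w hw, smul_smul, e]
  have mulD : ∀ {z z'}, DiagE ρ W z → DiagE ρ W z' → DiagE ρ W (z * z') := fun h h' i => by
    obtain ⟨e1, c, e2, e3⟩ := h i
    obtain ⟨e4, c', e5, e6⟩ := h' i
    exact ⟨by rw [mul_smul, e4, e1], _, by rw [mul_pow, e5, e2, one_mul], mul _ e3 e6 rfl⟩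
  have tri : ∀ {z}, DiagE ρ W z → ∀ i, (∀ w ∈ W i, ρ z w = (1 : K) • w) ∨
      (∀ w ∈ W i, ρ z w = (3 : K) • w) ∨ ∀ w ∈ W i, ρ z w = (9 : K) • w := fun h i => by
    obtain ⟨-, c, e2, e3⟩ := h i
    have : ∀ c : K, c ^ 3 = 1 → c = 1 ∨ c = 3 ∨ c = 9 := by decide
    rcases this c e2 with rfl | rfl | rfl
    exacts [.inl e3, .inr (.inl e3), .inr (.inr e3)]
  have pos : ∀ {z i}, (∀ w ∈ W i, ρ z w = (1 : K) • w) → 0 < dl z i := fun h => by
    rw [d1 h, sub_pos]
    exact_mod_cast hp _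
  have hA : ∀ {z i}, DiagE ρ W z → (∀ w ∈ W i, ρ z w = (9 : K) • w) → ∑ i, dl z i = 0 := by
    intro z i hD h9
    have e1 : Commute (ρ t) (ρ z) := ext _ _ fun i w hw => by
      obtain ⟨-, c, -, e⟩ := hD i
      rw [Module.End.mul_apply, Module.End.mul_apply, e w hw, e _ (ft i ▸ hB.map t i w hw), map_smul]
    have e2 : ρ z ^ 3 = 1 := ext _ _ fun i w hw => by
      obtain ⟨-, c, e', e⟩ := hD i
      rw [xstepa_pow _ _ c e 3 w hw, e', one_smul, Module.End.one_apply]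
    obtain ⟨w, -, e3, e4⟩ := (edOn_pos (W i) (ρ (t * z)) 1).1 (by
      rw [key 3 1 h9 (by decide) (by decide)]
      exact (Nat.zero_le _).trans_lt (hp i))
    have := bal3_all ρ W hB hb (t * z) (a + 1) (by
      rw [map_mul, e1.mul_pow, ← map_pow, pow_succ, pow_mul, ht, one_pow, map_one, pow_mul', e2,
        one_pow, one_mul]) (fun i => by rw [mul_smul, (hD i).1, ft]) ⟨w, e3, by rwa [one_smul] at e4⟩
    simp only [hd, Finset.sum_sub_distrib, ← Nat.cast_sum, this, sub_self]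
  have hC : ∀ z : {z // DiagE ρ W z}, 0 ≤ ∑ i, dl z i := fun ⟨z, hD⟩ => by
    by_cases h9 : ∃ i, ∀ w ∈ W i, ρ z w = (9 : K) • w
    · exact (hA hD h9.choose_spec).ge
    have h13 := fun i => (or_assoc.2 (tri hD i)).resolve_right fun h => h9 ⟨i, h⟩
    by_cases h3 : ∃ i, ∀ w ∈ W i, ρ z w = (3 : K) • w
    · obtain ⟨i, h3⟩ := h3
      have e := (Finset.sum_eq_zero_iff_of_nonneg fun j _ => (h13 j).elim
        (fun h => (pos (mul 1 h h (by decide))).le) fun h =>
          (d9 (mul 9 h h (by decide))).symm ▸ Nat.cast_nonneg _).1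
        (hA (mulD hD hD) (mul 9 h3 h3 (by decide)))
      refine (hS ⟨z, fun v => ?_⟩).elim
      rw [ext (ρ z) ((3 : K) • 1) fun j => (h13 j).resolve_left fun h =>
        (pos (mul 1 h h (by decide))).ne' (e j (Finset.mem_univ j))]
      rfl
    · exact Finset.sum_nonneg fun j _ => (pos ((h13 j).resolve_right fun h => h3 ⟨j, h⟩)).le
  have h1 : ∀ i, ∀ w ∈ W i, ρ 1 w = (1 : K) • w := fun i w _ => by simp
  have hE : ∀ i, ∑ z : {z // DiagE ρ W z}, dl z i = 0 := fun i => by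
    obtain ⟨y, hy, h3⟩ := hz i
    have hb : Function.Bijective fun z : {z // DiagE ρ W z} =>
        (⟨z * y, mulD z.2 hy⟩ : {z // DiagE ρ W z}) :=
      Finite.injective_iff_bijective.1 fun z z' e =>
        Subtype.ext (mul_right_cancel (congrArg Subtype.val e))
    have e1 := hb.sum_comp fun z => dl z i
    have e2 := hb.sum_comp fun z => dl (z * y) i
    have e3 : ∑ z : {z // DiagE ρ W z}, (dl z i + dl (z * y) i + dl (z * y * y) i) = 0 :=
      Finset.sum_eq_zero fun z _ => by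
        rcases tri z.2 i with h | h | h
        · have h' := mul 3 h h3 (by decide)
          rw [d1 h, d3 h', d9 (mul 9 h' h3 (by decide))]
          ring
        · have h' := mul 9 h h3 (by decide)
          rw [d3 h, d9 h', d1 (mul 1 h' h3 (by decide))]
          ring
        · have h' := mul 1 h h3 (by decide)
          rw [d9 h, d1 h', d3 (mul 3 h' h3 (by decide))]
          ring
    rw [Finset.sum_add_distrib, Finset.sum_add_distrib] at e3
    linarith
  have := Finset.sum_pos' (fun z _ => hC z) ⟨⟨1, fun i => ⟨one_smul _ _, 1, one_pow _, h1 i⟩⟩,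
    Finset.mem_univ _, Finset.sum_pos (fun i _ => pos (h1 i)) Finset.univ_nonempty⟩
  rw [Finset.sum_comm, Finset.sum_eq_zero fun i _ => hE i] at this
  exact this.false

end Pool.Agent.N9181

end

section

namespace Pool.Agent.N9181

open scoped commutatorElement

theorem xslines_ne {V : Type} [AddCommGroup V] [Module K V]
    {H : Type} [Group H] (ρ : Representation K H V) (h : H) (w : V) (a : K) (h0 : w ≠ 0)
    (ha : ρ h w = a • w) : a ≠ 0 := by
  rintro rfl
  apply h0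
  rw [← rho_inv ρ h w, ha, zero_smul, map_zero]

theorem xslines_odd : ∀ t : K, t ≠ 0 → t ^ 1 ≠ 12 → t ^ 2 ≠ 12 → t ^ 3 ≠ 12 → t ^ 6 ≠ 12 →
    t ^ 3 = 1 := by
  decide

theorem xslines_ar (d x x' : K) (hx : x ≠ 0) (h : (d * d * x' * x⁻¹) ^ 3 = 1) :
    x ^ 6 = x' ^ 6 := by
  have hd : d ≠ 0 := by
    rintro rfl
    simp at h
  have h1 : (d * d * x' * x⁻¹) * x = d * d * x' := inv_mul_cancel_right₀ hx _
  have h2 := k_twelve d hd
  calc x ^ 6 = ((d * d * x' * x⁻¹) ^ 3) ^ 2 * x ^ 6 := by rw [h, one_pow, one_mul]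
    _ = ((d * d * x' * x⁻¹) * x) ^ 6 := by ring
    _ = d ^ 12 * x' ^ 6 := by rw [h1]; ring
    _ = x' ^ 6 := by rw [h2, one_mul]

theorem l_swap {V : Type} [AddCommGroup V] [Module K V] [Module.Finite K V]
    {H : Type} [Group H] [Finite H] (ρ : Representation K H V) (hE5 : HEP ρ 5) {I : Type} [Fintype I] [MulAction H I] (W : I → Submodule K V) (hB : BD ρ I W) (i k : I) (hik : i ≠ k) (hR : Rel ρ (W i) (W k)) (w u : V)
    (hw : w ∈ W i) (hu : u ∈ W k) (h0 : w ≠ 0) (h0' : u ≠ 0) :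
    ∃ g : H, ρ g w = (5 : K) • u ∧ ρ g u = (5 : K) • w := by
  obtain ⟨g, hg⟩ := hE5 (w + u)
  rw [smul_add] at hg
  rcases pair_act ρ W hB i k hik w u _ _ hw hu ((W i).smul_mem 5 hw) ((W k).smul_mem 5 hu)
    h0 h0' g hg with ⟨-, -, h1, h2⟩ | ⟨-, -, h1, h2⟩
  · exact absurd h2 (hR w hw u hu h0 h0' g h1)
  · exact ⟨g, h1, h2⟩

theorem l_diag {V : Type} [AddCommGroup V] [Module K V] [Module.Finite K V]
    {H : Type} [Group H] [Finite H] (ρ : Representation K H V) (hE5 : HEP ρ 5) {I : Type} [Fintype I] [MulAction H I] (W : I → Submodule K V) (hB : BD ρ I W) (i k : I) (hik : i ≠ k) (hR : Rel ρ (W i) (W k)) (w u : V)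
    (hw : w ∈ W i) (hu : u ∈ W k) (h0 : w ≠ 0) (h0' : u ≠ 0) (x : K) (hx : x ≠ 0) :
    ∃ g : H, ρ g w = x • w ∧ ρ g u = x⁻¹ • u := by
  obtain ⟨g, h1, h2⟩ := l_swap ρ hE5 W hB i k hik hR w u hw hu h0 h0'
  obtain ⟨g', h3, h4⟩ := l_swap ρ hE5 W hB i k hik hR w (x • u) hw ((W k).smul_mem x hu) h0
    (smul_ne_zero hx h0')
  refine ⟨g⁻¹ * g', ?_, ?_⟩
  · rw [rho_mul, h3, smul_comm, map_smul, ← h1, rho_inv]
  · rw [eq_inv_smul_iff₀ hx, ← map_smul, rho_mul, h4, ← h2, rho_inv]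

theorem rel_mu3 {V : Type} [AddCommGroup V] [Module K V] [Module.Finite K V]
    {H : Type} [Group H] [Finite H] (ρ : Representation K H V) (hE5 : HEP ρ 5) {I : Type} [Fintype I] [MulAction H I] (W : I → Submodule K V) (hB : BD ρ I W) (i k : I) (hik : i ≠ k) (hR : Rel ρ (W i) (W k)) (w u : V)
    (hw : w ∈ W i) (hu : u ∈ W k) (h0 : w ≠ 0) (h0' : u ≠ 0) (h : H) (a b : K)
    (ha : ρ h w = a • w) (hb : ρ h u = b • u) : (a * b) ^ 3 = 1 := by
  have ha0 := xslines_ne ρ h w a h0 ha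
  have hb0 := xslines_ne ρ h u b h0' hb
  have key : ∀ j : ℕ, (a * b) ^ j ≠ 12 := by
    intro j hj
    have h5 : (5 : K) ≠ 0 := by decide
    have haj : a ^ j ≠ 0 := pow_ne_zero j ha0
    obtain ⟨g, h1, h2⟩ := l_diag ρ hE5 W hB i k hik hR w u hw hu h0 h0' (5 * (a ^ j)⁻¹)
      (mul_ne_zero h5 (inv_ne_zero haj))
    refine hR w hw u hu h0 h0' (h ^ j * g) ?_ ?_
    · rw [rho_mul, h1, map_smul, rho_pow_eig ρ h w a ha, smul_smul, inv_mul_cancel_right₀ haj]
    · rw [rho_mul, h2, map_smul, rho_pow_eig ρ h u b hb, smul_smul, mul_inv, inv_inv, mul_assoc,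
        ← mul_pow, hj]
      congr 1
      rw [inv_mul_eq_iff_eq_mul₀ h5]
      decide
  exact xslines_odd (a * b) (mul_ne_zero ha0 hb0) (key 1) (key 2) (key 3) (key 6)

theorem l_ng {V : Type} [AddCommGroup V] [Module K V] [Module.Finite K V]
    {H : Type} [Group H] [Finite H] (ρ : Representation K H V) (hE5 : HEP ρ 5) {I : Type} [Fintype I] [MulAction H I] (W : I → Submodule K V) (hB : BD ρ I W) (i k : I) (hik : i ≠ k) (hR : Rel ρ (W i) (W k)) (w u : V)
    (hw : w ∈ W i) (hu : u ∈ W k) (h0 : w ≠ 0) (h0' : u ≠ 0) (h : H) (x x' c : K) (hx : x ≠ 0)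
    (hh : ρ h (w + x • u) = c • (w + x' • u)) : x ^ 6 = x' ^ 6 := by
  rw [smul_add, smul_smul] at hh
  rcases pair_act ρ W hB i k hik w (x • u) _ _ hw ((W k).smul_mem x hu) ((W i).smul_mem c hw)
    ((W k).smul_mem (c * x') hu) h0 (smul_ne_zero hx h0') h hh with
    ⟨-, -, h1, h2⟩ | ⟨-, -, h1, h2⟩
  · have h3 : ρ h u = (x⁻¹ * (c * x')) • u := by
      rw [← smul_smul, eq_inv_smul_iff₀ hx, ← map_smul, h2]
    have h4 := rel_mu3 ρ hE5 W hB i k hik hR w u hw hu h0 h0' h _ _ h1 h3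
    refine xslines_ar c x x' hx ?_
    rw [← h4]
    ring
  · obtain ⟨g, h5, h6⟩ := l_swap ρ hE5 W hB i k hik hR w u hw hu h0 h0'
    have h3 : ρ h u = (x⁻¹ * c) • w := by
      rw [← smul_smul, eq_inv_smul_iff₀ hx, ← map_smul, h2]
    have h7 : ρ (g * h) w = (c * x' * 5) • w := by
      rw [rho_mul, h1, map_smul, h6, smul_smul]
    have h8 : ρ (g * h) u = (x⁻¹ * c * 5) • u := by
      rw [rho_mul, h3, map_smul, h5, smul_smul]
    have h4 := rel_mu3 ρ hE5 W hB i k hik hR w u hw hu h0 h0' (g * h) _ _ h7 h8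
    refine xslines_ar (5 * c) x x' hx ?_
    rw [← h4]
    ring

theorem rel_symm {V : Type} [AddCommGroup V] [Module K V] [Module.Finite K V]
    {H : Type} [Group H] [Finite H] (ρ : Representation K H V) (U U' : Submodule K V) (h : Rel ρ U U') : Rel ρ U' U := by
  intro w hw u hu h0 h0' γ h1 h2
  exact h u hu w hw h0' h0 γ h2 h1

theorem rel_map {V : Type} [AddCommGroup V] [Module K V] [Module.Finite K V]
    {H : Type} [Group H] [Finite H] (ρ : Representation K H V) {I : Type} [Fintype I] [MulAction H I] (W : I → Submodule K V) (hB : BD ρ I W) (i k : I) (h : Rel ρ (W i) (W k)) (g : H) :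
    Rel ρ (W (g • i)) (W (g • k)) := by
  intro w hw u hu h0 h0' γ h1 h2
  have hw' : ρ g⁻¹ w ∈ W i := by simpa using hB.map g⁻¹ _ w hw
  have hu' : ρ g⁻¹ u ∈ W k := by simpa using hB.map g⁻¹ _ u hu
  have hne : ∀ v : V, v ≠ 0 → ρ g⁻¹ v ≠ 0 := fun v hv e => hv (by
    rw [← rho_inv' ρ g v, e, map_zero])
  refine h _ hw' _ hu' (hne w h0) (hne u h0') (g⁻¹ * γ * g) ?_ ?_
  · rw [rho_mul, rho_inv', rho_mul, h1, map_smul]
  · rw [rho_mul, rho_inv', rho_mul, h2, map_smul]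

end Pool.Agent.N9181

end

section

namespace Pool.Agent.N9181

open scoped commutatorElement

theorem mono_pair {V : Type} [AddCommGroup V] [Module K V] [Module.Finite K V]
    {H : Type} [Group H] [Finite H] (ρ : Representation K H V) (hE5 : HEP ρ 5) (hV : ∃ v : V, v ≠ 0) (hM : Mono ρ) :
    ∃ (a b : V) (g : H), (∀ x y : K, x • a + y • b = 0 → x = 0 ∧ y = 0) ∧
      ρ g a = (2 : K) • a ∧ ρ g b = (7 : K) • b ∧
      (∀ h : H, ρ h a = (5 : K) • a → ρ h b ≠ (5 : K) • b) ∧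
      ∀ h : H, ρ h a ∈ Submodule.span K {a, b} → ρ h b ∈ Submodule.span K {a, b} →
        (∃ x y : K, ρ h a = x • a ∧ ρ h b = y • b) ∨ ∃ x y : K, ρ h a = x • b ∧ ρ h b = y • a := by
  obtain ⟨I, _, _, W, hB, h1, hR⟩ := hM
  have hI : Nonempty I := by
    by_contra hI
    rw [not_nonempty_iff] at hI
    have h1 := hB.top
    rw [iSup_of_empty] at h1
    obtain ⟨v, h0⟩ := hV
    have h2 : v ∈ (⊥ : Submodule K V) := h1 ▸ Submodule.mem_top
    exact h0 h2
  obtain ⟨i⟩ := hI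
  obtain ⟨k, hk, hr⟩ := hR i
  obtain ⟨a, ha, a0⟩ := Submodule.exists_mem_ne_zero_of_ne_bot (hB.ne i)
  obtain ⟨b, hb, b0⟩ := Submodule.exists_mem_ne_zero_of_ne_bot (hB.ne k)
  obtain ⟨g, g1, g2⟩ := l_diag ρ hE5 W hB i k hk.symm hr a b ha hb a0 b0 2 (by decide)
  obtain ⟨P, -, -, P3, P4, -⟩ := exists_proj ρ W hB
  have ind : ∀ x y : K, x • a + y • b = 0 → x = 0 ∧ y = 0 := fun x y h => by
    have e1 := congrArg (P i) h
    have e2 := congrArg (P k) h
    rw [map_add, map_smul, map_smul, map_zero] at e1 e2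
    rw [P3 i a ha, P4 i k hk.symm b hb, smul_zero, add_zero] at e1
    rw [P3 k b hb, P4 k i hk a ha, smul_zero, zero_add] at e2
    exact ⟨(smul_eq_zero.1 e1).resolve_right a0, (smul_eq_zero.1 e2).resolve_right b0⟩
  have key : ∀ (l : I) (v : V), v ∈ W l → v ≠ 0 → v ∈ Submodule.span K {a, b} →
      l = i ∨ l = k := fun l v hv v0 hs => by
    by_contra hn
    rw [not_or] at hn
    obtain ⟨x, y, e⟩ := Submodule.mem_span_pair.1 hs
    have e1 := congrArg (P l) e
    rw [map_add, map_smul, map_smul, P4 l i hn.1 a ha, P4 l k hn.2 b hb, P3 l v hv, smul_zero,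
      smul_zero, add_zero] at e1
    exact v0 e1.symm
  refine ⟨a, b, g, ind, g1, by rw [g2, show (2 : K)⁻¹ = 7 from inv_eq_of_mul_eq_one_right (by decide)], hr a ha b hb a0 b0,
    fun h p1 p2 => ?_⟩
  have n0 : ∀ v : V, v ≠ 0 → ρ h v ≠ 0 := fun v v0 e => v0 (by rw [← rho_inv ρ h v, e, map_zero])
  have m1 := hB.map h i a ha
  have m2 := hB.map h k b hb
  have hne : h • i ≠ h • k := fun e => hk (MulAction.injective h e).symm
  rcases key _ _ m1 (n0 a a0) p1 with e1 | e1 <;> rcases key _ _ m2 (n0 b b0) p2 with e2 | e2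
  · exact absurd (e1.trans e2.symm) hne
  · rw [e1] at m1
    rw [e2] at m2
    obtain ⟨x, hx⟩ := line_ext _ (h1 i) a ha a0 _ m1
    obtain ⟨y, hy⟩ := line_ext _ (h1 k) b hb b0 _ m2
    exact Or.inl ⟨x, y, hx, hy⟩
  · rw [e1] at m1
    rw [e2] at m2
    obtain ⟨x, hx⟩ := line_ext _ (h1 k) b hb b0 _ m1
    obtain ⟨y, hy⟩ := line_ext _ (h1 i) a ha a0 _ m2
    exact Or.inr ⟨x, y, hx, hy⟩
  · exact absurd (e1.trans e2.symm) hne

end Pool.Agent.N9181

end

section

namespace Pool.Agent.N9181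

open scoped commutatorElement

theorem xsmonolp_cyc {H I : Type} [Group H] [MulAction H I] (n : ℕ) : ∀ (g : H) (i j k : I),
    g • i = j → g • j = k → g • k = i → i ≠ j → j ≠ k → k ≠ i → g ^ (2 ^ n) ≠ 1 := by
  induction n with
  | zero =>
    intro g i j k h _ _ hij _ _ e
    rw [pow_zero, pow_one] at e
    rw [e, one_smul] at h
    exact hij h
  | succ n ih =>
    intro g i j k h1 h2 h3 hij hjk hki
    rw [pow_succ', pow_mul, pow_two]
    exact ih _ i k j (by rw [mul_smul, h1, h2]) (by rw [mul_smul, h3, h1])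
      (by rw [mul_smul, h2, h3]) hki.symm hjk.symm hij.symm

theorem xsmonolp_num : ∀ a b c : K, ∃ x y : K, x ≠ 0 ∧ y ≠ 0 ∧ (5 * x) ^ 3 ≠ a ∧
    (5 * (y * x)) ^ 3 ≠ b ∧ (5 * y) ^ 3 ≠ c := by
  decide +kernel

section
variable {V : Type} [AddCommGroup V] [Module K V] [Module.Finite K V] {H : Type} [Group H]
  [Finite H] (ρ : Representation K H V) {I : Type} [Fintype I] [MulAction H I]
  (W : I → Submodule K V)

theorem xsmonolp_tri (hB : BD ρ I W) {i j k : I} (hij : i ≠ j) (hjk : j ≠ k) (hki : k ≠ i)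
    {a b c : V} (ha : a ∈ W i) (hb : b ∈ W j) (hc : c ∈ W k) (h0 : a ≠ 0) {g : H} {ν : K}
    (h : ρ g (a + b + c) = ν • (a + b + c)) :
    (g • i = i ∧ ρ g a = ν • a) ∨ (g • i = j ∧ ρ g a = ν • b) ∨ (g • i = k ∧ ρ g a = ν • c) := by
  obtain ⟨P, -, -, h1, h2, h3⟩ := exists_proj ρ W hB
  have h4 := h3 g i (a + b + c)
  rw [h, map_smul, map_add, map_add, map_add (P i), map_add (P i), h1 i a ha, h2 i j hij b hb,
    h2 i k hki.symm c hc, add_zero, add_zero] at h4
  by_cases e1 : g • i = i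
  · rw [e1, h1 i a ha, h2 i j hij b hb, h2 i k hki.symm c hc, add_zero, add_zero] at h4
    exact Or.inl ⟨e1, h4.symm⟩
  by_cases e2 : g • i = j
  · rw [e2, h1 j b hb, h2 j i hij.symm a ha, h2 j k hjk c hc, zero_add, add_zero] at h4
    exact Or.inr (Or.inl ⟨e2, h4.symm⟩)
  by_cases e3 : g • i = k
  · rw [e3, h1 k c hc, h2 k i hki a ha, h2 k j hjk.symm b hb, zero_add, zero_add] at h4
    exact Or.inr (Or.inr ⟨e3, h4.symm⟩)
  rw [h2 _ i e1 a ha, h2 _ j e2 b hb, h2 _ k e3 c hc, add_zero, add_zero, smul_zero] at h4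
  exact absurd h4.symm (xcomp_ne ρ g a h0)

theorem xsmonolp_cmp (hE5 : HEP ρ 5) (hB : BD ρ I W) {j l : I} (hjl : j ≠ l)
    (hR : Rel ρ (W j) (W l)) {w u : V} (hw : w ∈ W j) (hu : u ∈ W l) (h0 : w ≠ 0) (h0' : u ≠ 0)
    (t : V) : ∃ c : K, ∀ (α : K) (g : H), α ≠ 0 → ρ g w = (5 : K) • w → ρ g u = α • t →
      α ^ 3 = c := by
  by_cases h : ∃ (β : K) (g : H), β ≠ 0 ∧ ρ g w = (5 : K) • w ∧ ρ g u = β • t
  · obtain ⟨β, g', hβ, h1, h2⟩ := h
    refine ⟨β ^ 3, fun α g _ h3 h4 => ?_⟩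
    have h5 := rel_mu3 ρ hE5 W hB j l hjl hR w u hw hu h0 h0' (g'⁻¹ * g) 1 (α / β)
      (by rw [rho_mul, h3, ← h1, rho_inv, one_smul])
      (by rw [rho_mul, h4, ← div_mul_cancel₀ α hβ, mul_smul, ← h2, map_smul, rho_inv,
        mul_div_cancel_right₀ _ hβ])
    rwa [one_mul, div_pow, div_eq_one_iff_eq (pow_ne_zero 3 hβ)] at h5
  · exact ⟨0, fun α g h1 h2 h3 => absurd ⟨α, g, h1, h2, h3⟩ h⟩

end

theorem rel_uniq {V : Type} [AddCommGroup V] [Module K V] [Module.Finite K V]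
    {H : Type} [Group H] [Finite H] (ρ : Representation K H V) (hE5 : HEP ρ 5) {I : Type} [Fintype I] [MulAction H I] (W : I → Submodule K V) (hB : BD ρ I W) (h1 : ∀ i, Module.finrank K (W i) = 1) (i k k' : I) (hk : k ≠ i) (hk' : k' ≠ i)
    (hR : Rel ρ (W i) (W k)) (hR' : Rel ρ (W i) (W k')) : k = k' := by
  by_contra hkk
  choose r hr hr0 using fun j => (Submodule.ne_bot_iff _).1 (hB.ne j)
  obtain ⟨c0, hA⟩ := xsmonolp_cmp ρ W hE5 hB hk.symm hR (hr i) (hr k) (hr0 i) (hr0 k) (r k')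
  obtain ⟨a0, hB1⟩ := xsmonolp_cmp ρ W hE5 hB hk' (rel_symm ρ _ _ hR') (hr k') (hr i) (hr0 k')
    (hr0 i) (r k)
  obtain ⟨b0, hC⟩ := xsmonolp_cmp ρ W hE5 hB hk (rel_symm ρ _ _ hR) (hr k) (hr i) (hr0 k)
    (hr0 i) (r k')
  obtain ⟨x, y, hx, hy, n1, n2, n3⟩ := xsmonolp_num a0 b0 c0
  have h5 : (5 : K) ≠ 0 := by decide
  have hyx := mul_ne_zero hy hx
  have mb := (W k).smul_mem x (hr k)
  have mc := (W k').smul_mem (y * x) (hr k')
  have zb := smul_ne_zero hx (hr0 k)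
  have zc := smul_ne_zero hyx (hr0 k')
  obtain ⟨g, n, hg, hv⟩ := ep2 ρ hE5 (r i + x • r k + (y * x) • r k')
  have t1 := xsmonolp_tri ρ W hB hk.symm hkk hk' (hr i) mb mc (hr0 i) hv
  have t2 := xsmonolp_tri ρ W hB hk hk'.symm (Ne.symm hkk) mb (hr i) mc zb
    (by rwa [add_comm (x • r k)])
  have t3 := xsmonolp_tri ρ W hB hk' hk.symm hkk mc (hr i) mb zc
    (by rwa [add_assoc, add_comm ((y * x) • r k')])
  have hi : ∀ {p q s : I}, g • p = s → g • q = s → p = q := fun e e' =>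
    MulAction.injective g (e.trans e'.symm)
  have hs : ∀ {z : K} {v : V}, z ≠ 0 → ρ g (z • v) = (5 : K) • z • v → ρ g v = (5 : K) • v :=
    fun hz e => smul_right_injective V hz (by rwa [map_smul, smul_comm] at e)
  rcases t1 with ⟨e1, f1⟩ | ⟨e1, f1⟩ | ⟨e1, f1⟩
  · rcases t2 with ⟨e2, f2⟩ | ⟨e2, f2⟩ | ⟨e2, f2⟩
    · exact hR _ (hr i) _ mb (hr0 i) zb g f1 f2
    · exact hk (hi e2 e1)
    · refine n3 (hA _ g (mul_ne_zero h5 hy) f1 (smul_right_injective V hx ?_))
      rw [map_smul, smul_smul, ← mul_assoc, mul_comm, mul_smul] at f2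
      exact f2
  · rcases t3 with ⟨e3, f3⟩ | ⟨e3, f3⟩ | ⟨e3, f3⟩
    · exact n1 (hB1 _ g (mul_ne_zero h5 hx) (hs hyx f3) (by rw [f1, smul_smul]))
    · rcases t2 with ⟨e2, -⟩ | ⟨e2, -⟩ | ⟨e2, -⟩
      · exact hk (hi e2 e1)
      · exact hkk (hi e2 e3)
      · exact xsmonolp_cyc n g i k k' e1 e2 e3 hk.symm hkk hk' hg
    · exact hk' (hi e3 e1)
  · rcases t2 with ⟨e2, f2⟩ | ⟨e2, f2⟩ | ⟨e2, f2⟩
    · exact n2 (hC _ g (mul_ne_zero h5 hyx) (hs hx f2) (by rw [f1, smul_smul]))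
    · rcases t3 with ⟨e3, -⟩ | ⟨e3, -⟩ | ⟨e3, -⟩
      · exact hk' (hi e3 e1)
      · exact hkk (hi e2 e3)
      · exact xsmonolp_cyc n g i k' k e1 e3 e2 hk'.symm (Ne.symm hkk) hk hg
    · exact hk (hi e2 e1)

theorem mono_lp {V : Type} [AddCommGroup V] [Module K V] [Module.Finite K V]
    {H : Type} [Group H] [Finite H] (ρ : Representation K H V) (hE5 : HEP ρ 5) (hM : Mono ρ) :
    ∃ (I : Type) (_ : Fintype I) (_ : MulAction H I) (W : I → Submodule K V) (π : I → I),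
      LP ρ I W π := by
  obtain ⟨I, _, _, W, hB, h1, h2⟩ := hM
  choose π h3 h4 using h2
  exact ⟨I, inferInstance, _, W, π, hB, h1, h3,
    fun i => rel_uniq ρ hE5 W hB h1 (π i) _ _ (h3 _) (h3 i).symm (h4 _) (rel_symm ρ _ _ (h4 i)),
    fun h i => rel_uniq ρ hE5 W hB h1 (h • i) _ _ (h3 _) ((MulAction.injective h).ne (h3 i))
      (h4 _) (rel_map ρ W hB _ _ (h4 i) h), h4⟩

end Pool.Agent.N9181

end

section

namespace Pool.Agent.N9181

open scoped commutatorElement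

theorem gchoice {V : Type} [AddCommGroup V] [Module K V] [Module.Finite K V]
    {H : Type} [Group H] [Finite H] (ρ : Representation K H V) (hE5 : HEP ρ 5) {I : Type} [Fintype I] [MulAction H I] (W : I → Submodule K V) (π : I → I)
    (hL : LP ρ I W π) (k : I) :
    ∃ r : I → V, (∀ l, r l ∈ W l ∧ r l ≠ 0) ∧ ∀ (h : H) (l : I) (x : K), l ≠ k → l ≠ π k →
      (x = 1 ∨ x = 3) → ρ h (r k + x • r (π k)) ≠ (5 : K) • (r l + r (π l)) := by
  classical
  have hb : ∀ l, ∃ w ∈ W l, w ≠ 0 := fun l => (Submodule.ne_bot_iff _).1 (hL.bd.ne l)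
  choose b hb hb0 using hb
  obtain ⟨D, hD1, hD2⟩ := l_diag ρ hE5 W hL.bd k (π k) (hL.ne k).symm (hL.rel k) (b k) (b (π k))
    (hb _) (hb _) (hb0 _) (hb0 _) 10 (by decide)
  have red1 : ∀ (h : H) (x : K) (v : V), (x = 1 ∨ x = 3) →
      ρ h (b k + x • b (π k)) = (5 : K) • v →
      ∃ (g : H) (c : K), c ≠ 0 ∧ ρ g (b k + b (π k)) = c • v := by
    rintro h x v (rfl | rfl) e
    · exact ⟨h, 5, by decide, by rwa [one_smul] at e⟩
    · refine ⟨h * D, 10 * 5, by decide, ?_⟩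
      have e1 : ρ D (b k + b (π k)) = (10 : K) • (b k + (3 : K) • b (π k)) := by
        rw [map_add, hD1, hD2, smul_add, smul_smul,
          show (10 : K)⁻¹ = 10 * 3 from inv_eq_of_mul_eq_one_right (by decide)]
      rw [rho_mul, e1, map_smul, e, smul_smul]
  have hy : ∀ l, ∃ y : K, y ≠ 0 ∧ ∀ (h : H) (x : K), (x = 1 ∨ x = 3) →
      ρ h (b k + x • b (π k)) ≠ (5 : K) • (b l + y • b (π l)) := fun l => by
    by_contra hc
    push Not at hc
    obtain ⟨h1, x1, hx1, e1⟩ := hc 1 one_ne_zero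
    obtain ⟨h2, x2, hx2, e2⟩ := hc 2 (by decide)
    obtain ⟨g1, c1, hc1, f1⟩ := red1 h1 x1 _ hx1 e1
    obtain ⟨g2, c2, -, f2⟩ := red1 h2 x2 _ hx2 e2
    have f3 : ρ (g2 * g1⁻¹) (b l + (1 : K) • b (π l)) =
        (c1⁻¹ * c2) • (b l + (2 : K) • b (π l)) := by
      rw [← smul_smul, eq_inv_smul_iff₀ hc1, ← map_smul, ← f1, rho_mul, rho_inv, f2]
    have := l_ng ρ hE5 W hL.bd l (π l) (hL.ne l).symm (hL.rel l) (b l) (b (π l))
      (hb _) (hb _) (hb0 _) (hb0 _) _ 1 2 _ one_ne_zero f3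
    revert this
    decide
  choose y hy0 hy using hy
  let f := Fintype.equivFin I
  refine ⟨fun l => if l = k ∨ l = π k ∨ f l < f (π l) then b l else y (π l) • b l,
    fun l => ?_, fun h l x h1 h2 hx => ?_⟩
  · beta_reduce
    split_ifs
    · exact ⟨hb l, hb0 l⟩
    · exact ⟨(W l).smul_mem _ (hb l), smul_ne_zero (hy0 _) (hb0 l)⟩
  · have h3 : π l ≠ k := fun e => h2 (by rw [← e, hL.inv])
    have h4 : π l ≠ π k := fun e => h1 (by rw [← hL.inv l, e, hL.inv])
    beta_reduce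
    rw [if_pos (Or.inl rfl), if_pos (Or.inr (Or.inl rfl)), hL.inv]
    rcases lt_or_gt_of_ne (f.injective.ne (hL.ne l)) with h5 | h5
    · rw [if_neg (by simp [h1, h2, h5.le]), if_pos (Or.inr (Or.inr h5)), add_comm (y (π l) • b l)]
      have := hy (π l) h x hx
      rwa [hL.inv] at this
    · rw [if_pos (Or.inr (Or.inr h5)), if_neg (by simp [h3, h4, h5.le])]
      exact hy l h x hx

end Pool.Agent.N9181

end

section

namespace Pool.Agent.N9181

open scoped commutatorElement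

theorem xsr3a_nat (b : ℕ) (g : ℕ → ℕ) (hr : ∀ j, j ≤ b + 1 → 1 ≤ g (j + 1) ∧ g (j + 1) ≤ b + 2)
    (hi : ∀ j, j + 1 ≤ b → g (j + 3) ≠ g (j + 1))
    (hs : ∀ j, j ≤ b → g (j + 2) = g (j + 1) + 1 ∨ g (j + 1) = g (j + 2) + 1) :
    (∀ j, j ≤ b + 1 → g (j + 1) = j + 1) ∨ ∀ j, j ≤ b + 1 → g (j + 1) + j = b + 2 := by
  have h0 := hr 0 (by omega)
  have h1 := hr (b + 1) le_rfl
  rcases hs 0 (by omega) with h | h
  · have key : ∀ i, i ≤ b → g (i + 2) = g 1 + i + 1 ∧ g (i + 1) = g 1 + i := by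
      intro i
      induction i with
      | zero => exact fun _ => ⟨h, rfl⟩
      | succ i ih =>
        intro hi'
        have h2 := ih (by omega)
        have h3 := hi i hi'
        have h4 := hs (i + 1) hi'
        simp only [add_assoc, Nat.reduceAdd] at *
        omega
    have h5 := key b le_rfl
    simp only [add_assoc, Nat.reduceAdd, zero_add] at h0 h1
    refine Or.inl fun j hj => ?_
    rcases hj.eq_or_lt with rfl | hj
    · simp only [add_assoc, Nat.reduceAdd]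
      omega
    · have := key j (by omega)
      omega
  · have key : ∀ i, i ≤ b → g (i + 2) + i + 1 = g 1 ∧ g (i + 1) + i = g 1 := by
      intro i
      induction i with
      | zero => exact fun _ => ⟨h.symm, rfl⟩
      | succ i ih =>
        intro hi'
        have h2 := ih (by omega)
        have h3 := hi i hi'
        have h4 := hs (i + 1) hi'
        simp only [add_assoc, Nat.reduceAdd] at *
        omega
    have h5 := key b le_rfl
    simp only [add_assoc, Nat.reduceAdd, zero_add] at h0 h1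
    refine Or.inr fun j hj => ?_
    rcases hj.eq_or_lt with rfl | hj
    · simp only [add_assoc, Nat.reduceAdd]
      omega
    · have := key j (by omega)
      omega

theorem xsr3a_big (b : ℕ) (σ : Equiv.Perm (Fin (b + 4 + 1)))
    (h : ∀ j j1 : Fin (b + 4 + 1), 1 ≤ j.val → j1.val = j.val + 1 →
      ∃ k k1 : Fin (b + 4 + 1), 1 ≤ k.val ∧ k1.val = k.val + 1 ∧
        ({σ 0, σ j, σ j1} : Finset (Fin (b + 4 + 1))) = {0, k, k1}) (x : Fin (b + 4 + 1)) :
    σ (σ x) = x := by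
  have hz : ∀ j (hj : j + 1 < b + 4 + 1), 1 ≤ j →
      (σ.symm 0).val = 0 ∨ (σ.symm 0).val = j ∨ (σ.symm 0).val = j + 1 := by
    intro j hj h1
    obtain ⟨k, k1, -, -, e⟩ := h ⟨j, by omega⟩ ⟨j + 1, hj⟩ h1 rfl
    have h2 := e.symm ▸ Finset.mem_insert_self 0 {k, k1}
    simpa only [Finset.mem_insert, Finset.mem_singleton, ← Equiv.symm_apply_eq, Fin.ext_iff,
      Fin.val_zero] using h2
  have h0 : σ 0 = 0 := by
    rw [← Equiv.eq_symm_apply, Fin.ext_iff, Fin.val_zero]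
    have h1 := hz 1 (by omega) le_rfl
    have h3 := hz 3 (by omega) (by omega)
    omega
  have hne : ∀ j : Fin (b + 4 + 1), 1 ≤ j.val → 1 ≤ (σ j).val := fun j hj => by
    by_contra h1
    have h2 : σ j = σ 0 := by rw [h0]; exact Fin.ext (by rw [Fin.val_zero]; omega)
    rw [σ.injective h2, Fin.val_zero] at hj
    omega
  let g : ℕ → ℕ := fun j => if hj : j < b + 4 + 1 then (σ ⟨j, hj⟩).val else 0
  have hg : ∀ j (hj : j < b + 4 + 1), g j = (σ ⟨j, hj⟩).val := fun j hj => dif_pos hj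
  have hinj : ∀ i j, i < b + 4 + 1 → j < b + 4 + 1 → g i = g j → i = j := fun i j hi hj e =>
    congrArg Fin.val (σ.injective (Fin.ext ((hg i hi).symm.trans (e.trans (hg j hj)))))
  have key := xsr3a_nat (b + 2) g (fun j hj => ?_)
    (fun j hj e => by have := hinj _ _ (by omega) (by omega) e; omega) (fun j hj => ?_)
  · by_cases hx : x = 0
    · rw [hx, h0, h0]
    have hx1 : 1 ≤ x.val := Nat.one_le_iff_ne_zero.2 fun e => hx (Fin.ext e)
    have hx2 := hne x hx1
    have e1 : g (x.val - 1 + 1) = (σ x).val := by rw [Nat.sub_add_cancel hx1, hg _ x.2]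
    have e2 : g ((σ x).val - 1 + 1) = (σ (σ x)).val := by
      rw [Nat.sub_add_cancel hx2, hg _ (σ x).2]
    have l1 := x.2
    have l2 := (σ x).2
    refine Fin.ext ?_
    rcases key with key | key <;>
    · have k1 := key (x.val - 1) (by omega)
      have k2 := key ((σ x).val - 1) (by omega)
      omega
  · rw [hg _ (by omega)]
    exact ⟨hne _ (Nat.le_add_left _ _), Nat.le_of_lt_succ (Fin.is_lt _)⟩
  · obtain ⟨k, k1, -, hk, e⟩ := h ⟨j + 1, by omega⟩ ⟨j + 2, by omega⟩ (Nat.le_add_left _ _) rfl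
    have h1 := e ▸ Finset.mem_insert_of_mem (Finset.mem_insert_self _ _)
    have h2 := e ▸ Finset.mem_insert_of_mem (Finset.mem_insert_of_mem (Finset.mem_singleton_self _))
    have h3 := hne ⟨j + 1, by omega⟩ (Nat.le_add_left _ _)
    have h4 := hne ⟨j + 2, by omega⟩ (Nat.le_add_left _ _)
    have h5 := hinj (j + 1) (j + 2) (by omega) (by omega)
    simp only [Finset.mem_insert, Finset.mem_singleton, Fin.ext_iff, Fin.val_zero, ← hg] at h1 h2 h3 h4
    omega

theorem r3_comb (a : ℕ) (ha : a ≠ 2) (σ : Equiv.Perm (Fin (a + 1))) (n : ℕ)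
    (hσ : σ ^ (3 ^ n) = 1)
    (h : ∀ j j1 : Fin (a + 1), 1 ≤ j.val → j1.val = j.val + 1 →
      ∃ k k1 : Fin (a + 1), 1 ≤ k.val ∧ k1.val = k.val + 1 ∧
        ({σ 0, σ j, σ j1} : Finset (Fin (a + 1))) = {0, k, k1}) : σ = 1 := by
  have h2 : ∀ x, σ (σ x) = x := by
    clear hσ
    match a, ha, σ, h with
    | 0, _, σ, _ => revert σ; decide
    | 1, _, σ, _ => revert σ; decide
    | 3, _, σ, h => revert σ; decide +kernel
    | b + 4, _, σ, h => exact xsr3a_big b σ h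
  have h3 : σ ^ 2 = 1 := Equiv.ext h2
  exact (pow_eq_one_iff_of_coprime (Nat.Coprime.pow_right n (by norm_num))).1 ⟨h3, hσ⟩

end Pool.Agent.N9181

end

section

namespace Pool.Agent.N9181

open scoped commutatorElement

section
variable {p : ℕ} [Fact p.Prime] {M : Type} [AddCommGroup M] [Module (ZMod p) M] {a : ℕ}

/-- the origin and the basis vectors -/
noncomputable def xsr3bP (b : Module.Basis (Fin a) (ZMod p) M) : Fin (a + 1) → M :=
  Fin.cons 0 b

/-- barycentric coordinates -/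
noncomputable def xsr3bL (b : Module.Basis (Fin a) (ZMod p) M) (x : M) : Fin (a + 1) → ZMod p :=
  Fin.cons (1 - ∑ j, b.repr x j) (fun j => b.repr x j)

theorem xsr3b_LP (b : Module.Basis (Fin a) (ZMod p) M) (i : Fin (a + 1)) :
    xsr3bL b (xsr3bP b i) = Pi.single i 1 := by
  funext m
  refine Fin.cases ?_ (fun i => ?_) i <;> refine Fin.cases ?_ (fun m => ?_) m
  · simp [xsr3bL, xsr3bP]
  · simp [xsr3bL, xsr3bP]
  · simp [xsr3bL, xsr3bP, Finsupp.single_apply]
  · simp [xsr3bL, xsr3bP, Finsupp.single_apply, Pi.single_apply, eq_comm]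

theorem xsr3b_Laff (b : Module.Basis (Fin a) (ZMod p) M) (x y z : M) :
    xsr3bL b (x + y - z) = xsr3bL b x + xsr3bL b y - xsr3bL b z := by
  funext m
  refine Fin.cases ?_ (fun m => ?_) m
  · simp only [xsr3bL, Fin.cons_zero, Pi.sub_apply, Pi.add_apply, map_sub, map_add,
      Finsupp.sub_apply, Finsupp.add_apply, Finset.sum_sub_distrib, Finset.sum_add_distrib]
    ring
  · simp [xsr3bL]

theorem xsr3b_inj (b : Module.Basis (Fin a) (ZMod p) M) : Function.Injective (xsr3bP b) := by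
  intro i j h
  have h1 := congrFun (congrArg (xsr3bL b) h) i
  rw [xsr3b_LP, xsr3b_LP, Pi.single_eq_same] at h1
  by_contra hne
  rw [Pi.single_eq_of_ne hne] at h1
  exact one_ne_zero h1

theorem xsr3b_supp (b : Module.Basis (Fin a) (ZMod p) M) {i j k : Fin (a + 1)} (hij : i ≠ j)
    (hik : i ≠ k) (hjk : j ≠ k) (m : Fin (a + 1)) :
    xsr3bL b (xsr3bP b j + xsr3bP b k - xsr3bP b i) m ≠ 0 ↔
      m ∈ ({i, j, k} : Finset (Fin (a + 1))) := by
  rw [xsr3b_Laff, xsr3b_LP, xsr3b_LP, xsr3b_LP]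
  simp only [Pi.sub_apply, Pi.add_apply, Finset.mem_insert, Finset.mem_singleton]
  by_cases h1 : m = i
  · subst h1
    simp [Pi.single_eq_of_ne hij, Pi.single_eq_of_ne hik]
  by_cases h2 : m = j
  · subst h2
    simp [Pi.single_eq_of_ne h1, Pi.single_eq_of_ne hjk]
  by_cases h3 : m = k
  · subst h3
    simp [Pi.single_eq_of_ne h1, Pi.single_eq_of_ne h2]
  · simp [h1, h2, h3]

theorem xsr3b_core (b : Module.Basis (Fin a) (ZMod p) M) (φ : M →+ M) (t : Equiv.Perm M) (n : ℕ)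
    (ht : ∀ x, t x = φ x + t 0) (hn : t ^ (3 ^ n) = 1)
    (hP : ∀ i, ∃ i', t (xsr3bP b i) = xsr3bP b i') :
    ∃ σ : Equiv.Perm (Fin (a + 1)), σ ^ (3 ^ n) = 1 ∧ (∀ i, t (xsr3bP b i) = xsr3bP b (σ i)) ∧
      (σ = 1 → t = 1) := by
  choose f hf using hP
  have hfi : Function.Injective f := fun i j h => xsr3b_inj b (t.injective (by rw [hf, hf, h]))
  have hpow : ∀ (m : ℕ) (i : Fin (a + 1)), (t ^ m) (xsr3bP b i) =
      xsr3bP b ((Equiv.ofBijective f hfi.bijective_of_finite ^ m) i) := by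
    intro m
    induction m with
    | zero => intro i; rfl
    | succ m ih =>
      intro i
      rw [pow_succ, pow_succ, Equiv.Perm.mul_apply, Equiv.Perm.mul_apply, hf, ih]
      rfl
  refine ⟨Equiv.ofBijective f hfi.bijective_of_finite, ?_, hf, fun h => ?_⟩
  · ext1 i
    apply xsr3b_inj b
    rw [← hpow, hn]
    rfl
  · have h1 : ∀ i, t (xsr3bP b i) = xsr3bP b i := fun i => by
      have := hpow 1 i
      rwa [pow_one, pow_one, h] at this
    have h0 : t 0 = 0 := h1 0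
    have h2 : AddMonoidHom.toZModLinearMap p φ = LinearMap.id := by
      refine b.ext fun j => ?_
      have := h1 j.succ
      rw [ht, h0, add_zero] at this
      exact this
    ext1 x
    rw [ht, h0, add_zero]
    exact LinearMap.congr_fun h2 x

end

theorem xsr3b_three : ∀ σ : Equiv.Perm (Fin (2 + 1)), σ 2 = 2 → σ * σ = 1 := by decide

theorem r3_lin (p : ℕ) [Fact p.Prime] (M : Type) [AddCommGroup M] [Module (ZMod p) M] [Finite M] :
    ∃ c : M → Fin 3, Nat.card {x // c x = 1} ≠ Nat.card {x // c x = 2} ∧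
      ∀ (φ : M →+ M) (t : Equiv.Perm M) (n : ℕ), (∀ x, t x = φ x + t 0) → t ^ (3 ^ n) = 1 →
        (∀ x, c (t x) = c x) → t = 1 := by
  classical
  obtain ⟨a, ⟨b⟩⟩ : ∃ a, Nonempty (Module.Basis (Fin a) (ZMod p) M) :=
    ⟨_, ⟨Module.finBasis (ZMod p) M⟩⟩
  have hinj := xsr3b_inj b
  by_cases ha : a = 2
  · subst ha
    obtain ⟨c, c1, c2⟩ : ∃ c : M → Fin 3,
        (∀ x, c x = 1 ↔ x ∈ ({xsr3bP b 0, xsr3bP b 1} : Set M)) ∧
        ∀ x, c x = 2 ↔ x ∈ ({xsr3bP b 2} : Set M) := by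
      refine ⟨fun x => if x ∈ ({xsr3bP b 0, xsr3bP b 1} : Set M) then 1 else
        if x ∈ ({xsr3bP b 2} : Set M) then 2 else 0, fun x => ?_, fun x => ?_⟩
      · beta_reduce
        split_ifs with h1 h2
        · exact iff_of_true rfl h1
        · exact iff_of_false (by decide) h1
        · exact iff_of_false (by decide) h1
      · beta_reduce
        split_ifs with h1 h2
        · refine iff_of_false (by decide) fun h2 => ?_
          rw [Set.mem_singleton_iff.1 h2] at h1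
          rcases h1 with h1 | h1
          · exact absurd (hinj h1) (by decide)
          · exact absurd (hinj h1) (by decide)
        · exact iff_of_true rfl h2
        · exact iff_of_false (by decide) h2
    refine ⟨c, ?_, fun φ t n ht hn hc => ?_⟩
    · rw [Nat.card_congr (Equiv.subtypeEquivRight c1), Nat.card_congr (Equiv.subtypeEquivRight c2),
        Nat.card_coe_set_eq, Nat.card_coe_set_eq, Set.ncard_singleton,
        Set.ncard_pair fun h => absurd (hinj h) (by decide)]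
      decide
    · have h2 : t (xsr3bP b 2) = xsr3bP b 2 := (c2 _).1 (by rw [hc]; exact (c2 _).2 rfl)
      obtain ⟨σ, s1, s2, s3⟩ := xsr3b_core b φ t n ht hn (fun i => by
        have h01 : ∀ x ∈ ({xsr3bP b 0, xsr3bP b 1} : Set M), ∃ i', t x = xsr3bP b i' := by
          intro x hx
          rcases (c1 (t x)).1 (by rw [hc]; exact (c1 _).2 hx) with h | h
          · exact ⟨0, h⟩
          · exact ⟨1, h⟩
        fin_cases i
        · exact h01 _ (Or.inl rfl)
        · exact h01 _ (Or.inr rfl)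
        · exact ⟨2, h2⟩)
      refine s3 ?_
      have h3 := xsr3b_three σ (hinj ((s2 2).symm.trans h2))
      obtain ⟨k, hk⟩ : Odd (3 ^ n) := Odd.pow (by decide)
      rw [hk, pow_succ, pow_mul, pow_two, h3, one_pow, one_mul] at s1
      exact s1
  · have hq : ∀ j j1 : Fin (a + 1), 1 ≤ j.val → j1.val = j.val + 1 →
        (0 : Fin (a + 1)) ≠ j ∧ (0 : Fin (a + 1)) ≠ j1 ∧ j ≠ j1 := by
      intro j j1 h1 h2
      refine ⟨fun h => ?_, fun h => ?_, fun h => ?_⟩
      · rw [← h] at h1; exact absurd h1 (by simp)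
      · rw [← h] at h2; exact absurd h2 (by simp)
      · rw [← h] at h2; omega
    have hP0 : xsr3bP b 0 = 0 := rfl
    obtain ⟨c, c1, c2⟩ : ∃ c : M → Fin 3, (∀ x, c x = 1 ↔ x ∈ Set.range (xsr3bP b)) ∧
        ∀ x, c x = 2 ↔ x ∈ {x | ∃ j j1 : Fin (a + 1), 1 ≤ j.val ∧ j1.val = j.val + 1 ∧
          x = xsr3bP b j + xsr3bP b j1} := by
      refine ⟨fun x => if x ∈ Set.range (xsr3bP b) then 1 else
        if x ∈ {x | ∃ j j1 : Fin (a + 1), 1 ≤ j.val ∧ j1.val = j.val + 1 ∧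
          x = xsr3bP b j + xsr3bP b j1} then 2 else 0, fun x => ?_, fun x => ?_⟩
      · beta_reduce
        split_ifs with h1 h2
        · exact iff_of_true rfl h1
        · exact iff_of_false (by decide) h1
        · exact iff_of_false (by decide) h1
      · beta_reduce
        split_ifs with h1 h2
        · refine iff_of_false (by decide) ?_
          rintro ⟨j, j1, h2, h3, h4⟩
          obtain ⟨i, hi⟩ := h1
          obtain ⟨e1, e2, e3⟩ := hq j j1 h2 h3
          have key : ∀ m ∈ ({0, j, j1} : Finset (Fin (a + 1))), m = i := by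
            intro m hm
            have := (xsr3b_supp b e1 e2 e3 m).2 hm
            rw [hP0, sub_zero, ← h4, ← hi, xsr3b_LP] at this
            by_contra hne
            exact this (Pi.single_eq_of_ne hne _)
          exact e1 ((key 0 (by simp)).trans (key j (by simp)).symm)
        · exact iff_of_true rfl h2
        · exact iff_of_false (by decide) h2
    refine ⟨c, ?_, fun φ t n ht hn hc => ?_⟩
    · rw [Nat.card_congr (Equiv.subtypeEquivRight c1), Nat.card_congr (Equiv.subtypeEquivRight c2),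
        Nat.card_range_of_injective hinj, Nat.card_eq_fintype_card, Fintype.card_fin]
      refine ne_of_gt (Nat.lt_succ_of_le ?_)
      refine le_trans (Nat.card_mono (Set.toFinite _)
        (t := Set.range fun j : Fin a => xsr3bP b j.castSucc + xsr3bP b j.succ) ?_) ?_
      · rintro x ⟨j, j1, h1, h2, rfl⟩
        have hj : j.val < a := by have := j1.isLt; omega
        refine ⟨⟨j.val, hj⟩, ?_⟩
        have e1 : (⟨j.val, hj⟩ : Fin a).castSucc = j := Fin.ext rfl
        have e2 : (⟨j.val, hj⟩ : Fin a).succ = j1 := Fin.ext h2.symm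
        beta_reduce
        rw [e1, e2]
      · refine (Finite.card_range_le _).trans ?_
        rw [Nat.card_eq_fintype_card, Fintype.card_fin]
    · obtain ⟨σ, s1, s2, s3⟩ := xsr3b_core b φ t n ht hn (fun i => by
        obtain ⟨i', hi'⟩ := (c1 (t (xsr3bP b i))).1 (by rw [hc]; exact (c1 _).2 ⟨i, rfl⟩)
        exact ⟨i', hi'.symm⟩)
      refine s3 (r3_comb a ha σ n s1 fun j j1 h1 h2 => ?_)
      obtain ⟨k, k1, h3, h4, h5⟩ := (c2 (t (xsr3bP b j + xsr3bP b j1))).1
        (by rw [hc]; exact (c2 _).2 ⟨j, j1, h1, h2, rfl⟩)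
      refine ⟨k, k1, h3, h4, ?_⟩
      obtain ⟨e1, e2, e3⟩ := hq j j1 h1 h2
      obtain ⟨f1, f2, f3⟩ := hq k k1 h3 h4
      have h6 : xsr3bP b (σ j) + xsr3bP b (σ j1) - xsr3bP b (σ 0) =
          xsr3bP b k + xsr3bP b k1 - xsr3bP b 0 := by
        rw [← s2, ← s2, ← s2, hP0, sub_zero, ← h5, ht (xsr3bP b j), ht (xsr3bP b j1),
          ht (xsr3bP b j + xsr3bP b j1), map_add]
        abel
      ext m
      rw [← xsr3b_supp b (σ.injective.ne e1) (σ.injective.ne e2) (σ.injective.ne e3), h6,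
        xsr3b_supp b f1 f2 f3]

end Pool.Agent.N9181

end

section

namespace Pool.Agent.N9181

open scoped commutatorElement

theorem r3_aff {G : Type} [Group G] [Finite G] {Ω : Type} [Finite Ω] [MulAction G Ω] (B : Subgroup G) (hB : B.Normal)
    (p : ℕ) (hp : p.Prime) (hc : ∀ a ∈ B, ∀ b ∈ B, a * b = b * a) (hb : ∀ a ∈ B, a ^ p = 1)
    (x0 : Ω) (ht : ∀ x : Ω, ∃ b ∈ B, b • x0 = x) :
    ∃ c : Ω → Fin 3, Nat.card {x // c x = 1} ≠ Nat.card {x // c x = 2} ∧ Rig G c := by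
  have := Fact.mk hp
  let π := MulAction.toPermHom G Ω
  let Q : Subgroup (Equiv.Perm Ω) := B.map π
  let iQ : CommGroup Q :=
    { (inferInstance : Group Q) with
      mul_comm := by
        rintro ⟨_, a, ha, rfl⟩ ⟨_, b, hb, rfl⟩
        refine Subtype.ext ?_
        change π a * π b = π b * π a
        rw [← map_mul, hc a ha b hb, map_mul] }
  have hQ : ∀ x : Additive Q, p • x = 0 := by
    rintro ⟨_, a, ha, rfl⟩
    refine Subtype.ext ?_
    change π a ^ p = 1
    rw [← map_pow, hb a ha, map_one]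
  let iM : Module (ZMod p) (Additive Q) := AddCommGroup.zmodModule hQ
  have hbij : Function.Bijective fun x : Additive Q => (x.toMul : Equiv.Perm Ω) x0 := by
    constructor
    · rintro ⟨_, a, ha, rfl⟩ ⟨_, a', ha', rfl⟩ h
      replace h : a • x0 = a' • x0 := h
      refine Subtype.ext (Equiv.ext fun x => ?_)
      obtain ⟨b, hb, rfl⟩ := ht x
      change a • b • x0 = a' • b • x0
      rw [← mul_smul, hc a ha b hb, mul_smul, h, ← mul_smul, ← hc a' ha' b hb, mul_smul]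
    · intro x
      obtain ⟨b, hb, rfl⟩ := ht x
      exact ⟨Additive.ofMul ⟨π b, b, hb, rfl⟩, rfl⟩
  let e : Additive Q ≃ Ω := Equiv.ofBijective _ hbij
  have he : ∀ x, e x = (x.toMul : Equiv.Perm Ω) x0 := fun _ => rfl
  obtain ⟨c, h1, h2⟩ := r3_lin p (Additive Q)
  refine ⟨fun x => c (e.symm x), ?_, fun t n htn hcol x => ?_⟩
  · rwa [Nat.card_congr (e.symm.subtypeEquiv (q := fun x => c x = 1) fun _ => Iff.rfl),
      Nat.card_congr (e.symm.subtypeEquiv (q := fun x => c x = 2) fun _ => Iff.rfl)]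
  have hm : ∀ q : Q, π t * q * (π t)⁻¹ ∈ Q := by
    rintro ⟨_, a, ha, rfl⟩
    exact ⟨t * a * t⁻¹, hB.conj_mem a ha t, by rw [map_mul, map_mul, map_inv]⟩
  let φ : Additive Q →+ Additive Q := AddMonoidHom.mk'
    (fun x => Additive.ofMul ⟨_, hm x.toMul⟩) fun x y => Subtype.ext (by
      change π t * ((x.toMul : Equiv.Perm Ω) * y.toMul) * (π t)⁻¹ =
        π t * x.toMul * (π t)⁻¹ * (π t * y.toMul * (π t)⁻¹)
      group)
  have hT : ∀ y, e (e.symm.permCongrHom (π t) y) = t • e y := fun y => e.apply_symm_apply _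
  have h3 := h2 φ (e.symm.permCongrHom (π t)) n (fun y => e.injective (by
      rw [hT, he, he]
      change _ = (π t * y.toMul * (π t)⁻¹) (e (e.symm.permCongrHom (π t) 0))
      rw [hT]
      change _ = t • (y.toMul : Equiv.Perm Ω) ((π t)⁻¹ (π t x0))
      rw [← Equiv.Perm.mul_apply (π t)⁻¹, inv_mul_cancel, Equiv.Perm.one_apply]))
    (by rw [← map_pow, ← map_pow, htn, map_one, map_one]) fun y => by
      have := hcol (e y)
      simp only [Equiv.symm_apply_apply] at this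
      exact this
  have h4 := hT (e.symm x)
  rw [h3, Equiv.Perm.one_apply, e.apply_symm_apply] at h4
  exact h4.symm

end Pool.Agent.N9181

end

section

namespace Pool.Agent.N9181

open scoped commutatorElement

theorem xsr3d_shift (n : Fin 3 → ℕ) (a b : Fin 3) (h : ∀ j, n (j - a) = n (j - b)) (hab : a ≠ b) :
    n 1 = n 2 := by
  have key : ∀ a b : Fin 3, a ≠ b →
      (∃ j, j - a = 1 ∧ j - b = 2) ∨ ∃ j, j - a = 2 ∧ j - b = 1 := by decide
  rcases key a b hab with ⟨j, h1, h2⟩ | ⟨j, h1, h2⟩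
  · rw [← h1, ← h2, h j]
  · rw [← h1, ← h2, h j]

theorem xsr3d_card {G Ω : Type} [Group G] [MulAction G Ω] (g : G) (P Q : Ω → Prop)
    (h : ∀ x, P x ↔ Q (g • x)) : Nat.card {x // P x} = Nat.card {x // Q x} :=
  Nat.card_congr ((MulAction.toPerm g).subtypeEquiv h)

theorem r3_step {G : Type} [Group G] [Finite G] {Ω Ω' : Type} [Finite Ω] [MulAction G Ω] [MulAction G Ω'] (f : Ω → Ω')
    (hs : Function.Surjective f) (hf : ∀ (g : G) (x : Ω), f (g • x) = g • f x) (c' : Ω' → Fin 3)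
    (hc' : Rig G c')
    (h : ∀ y : Ω', ∃ c0 : Ω → Fin 3,
      Nat.card {x // f x = y ∧ c0 x = 1} ≠ Nat.card {x // f x = y ∧ c0 x = 2} ∧
      ∀ (t : G) (n : ℕ), t ^ (3 ^ n) = 1 → t • y = y → (∀ x, f x = y → c0 (t • x) = c0 x) →
        ∀ x, f x = y → t • x = x) : ∃ c : Ω → Fin 3, Rig G c := by
  choose c0 h1 h2 using h
  obtain ⟨rep, hrep, hrt⟩ : ∃ rep : Ω' → Ω', (∀ y, ∃ k : G, k • y = rep y) ∧
      ∀ (t : G) y, rep (t • y) = rep y :=
    ⟨fun y => (Quotient.mk (MulAction.orbitRel G Ω') y).out,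
      fun y => Quotient.mk_out (s := MulAction.orbitRel G Ω') y,
      fun t y => congrArg Quotient.out
        (Quotient.sound (s := MulAction.orbitRel G Ω') (MulAction.mem_orbit y t))⟩
  choose k hk using hrep
  refine ⟨fun x => c0 (rep (f x)) (k (f x) • x) + c' (f x), fun t n ht hc => ?_⟩
  have hA : ∀ y j, Nat.card {x // f x = y ∧ c0 (rep (f x)) (k (f x) • x) + c' (f x) = j} =
      Nat.card {x // f x = rep y ∧ c0 (rep y) x = j - c' y} := fun y j => by
    refine xsr3d_card (k y) _ _ fun x => ?_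
    rw [hf, ← hk y, smul_left_cancel_iff, hk y, eq_sub_iff_add_eq]
    refine and_congr_right fun hx => ?_
    rw [hx]
  have hct : ∀ y, c' (t • y) = c' y := fun y => by
    by_contra hne
    refine h1 (rep y) (xsr3d_shift (fun j => Nat.card {x // f x = rep y ∧ c0 (rep y) x = j})
      _ _ (fun j => ?_) hne)
    have e1 := hA (t • y) j
    rw [hrt] at e1
    rw [← e1, ← hA y j]
    refine (xsr3d_card t _ _ fun x => ?_).symm
    have e2 := hc x
    beta_reduce at e2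
    rw [e2, hf, smul_left_cancel_iff]
  have htr := hc' t n ht hct
  intro x
  have e := h2 (rep (f x)) (k (f x) * t * (k (f x))⁻¹) n
    (by rw [conj_pow, ht, mul_one, mul_inv_cancel])
    (by rw [← hk, mul_smul, inv_smul_smul, mul_smul, htr])
    (fun x' hx' => by
      have e1 : f ((k (f x))⁻¹ • x') = f x := by rw [hf, hx', ← hk, inv_smul_smul]
      have e2 := hc ((k (f x))⁻¹ • x')
      beta_reduce at e2
      rw [hf t, htr, e1, add_left_inj, smul_inv_smul] at e2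
      rw [mul_smul, mul_smul, e2])
    (k (f x) • x) (by rw [hf, hk])
  rwa [mul_smul, inv_smul_smul, mul_smul, smul_left_cancel_iff] at e

end Pool.Agent.N9181

end

section

namespace Pool.Agent.N9181

open scoped commutatorElement

theorem xsr3e_act {G Ω : Type} [Group G] [MulAction G Ω] (r : Setoid Ω)
    (hr : ∀ (g : G) x y, r x y → r (g • x) (g • y)) :
    ∃ _ : MulAction G (Quotient r), ∀ (g : G) (x : Ω),
      Quotient.mk r (g • x) = g • Quotient.mk r x :=
  ⟨{ smul := fun g => Quotient.map (g • ·) (hr g)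
     one_smul := by
      rintro ⟨x⟩
      exact congrArg (Quotient.mk r) (one_smul G x)
     mul_smul := by
      rintro g h ⟨x⟩
      exact congrArg (Quotient.mk r) (mul_smul g h x) }, fun _ _ => rfl⟩

theorem xsr3e_fib {G : Type} [Group G] [Finite G] {Ω Ω' : Type} [Finite Ω] [MulAction G Ω]
    [MulAction G Ω'] (f : Ω → Ω') (hf : ∀ (g : G) (x : Ω), f (g • x) = g • f x) (B : Subgroup G)
    (hB : B.Normal) (p : ℕ) (hp : p.Prime) (hc : ∀ a ∈ B, ∀ b ∈ B, a * b = b * a)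
    (hb : ∀ a ∈ B, a ^ p = 1) (x0 : Ω) (ht : ∀ x, f x = f x0 → ∃ b ∈ B, b • x0 = x) :
    ∃ c0 : Ω → Fin 3,
      Nat.card {x // f x = f x0 ∧ c0 x = 1} ≠ Nat.card {x // f x = f x0 ∧ c0 x = 2} ∧
      ∀ (t : G) (n : ℕ), t ^ (3 ^ n) = 1 → t • f x0 = f x0 →
        (∀ x, f x = f x0 → c0 (t • x) = c0 x) → ∀ x, f x = f x0 → t • x = x := by
  classical
  let _ : MulAction (MulAction.stabilizer G (f x0)) {x // f x = f x0} :=
    { smul := fun s x => ⟨s.1 • x.1, by rw [hf, x.2]; exact s.2⟩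
      one_smul := fun x => Subtype.ext (one_smul G x.1)
      mul_smul := fun g h x => Subtype.ext (mul_smul g.1 h.1 x.1) }
  obtain ⟨c, h1, h2⟩ := r3_aff (Ω := {x // f x = f x0})
    (B.subgroupOf (MulAction.stabilizer G (f x0))) (hB.subgroupOf _) p hp
    (fun a ha b hb => Subtype.ext (hc _ ha _ hb)) (fun a ha => Subtype.ext (hb _ ha)) ⟨x0, rfl⟩
    fun x => by
      obtain ⟨b, hb, e⟩ := ht x.1 x.2
      exact ⟨⟨b, by rw [MulAction.mem_stabilizer_iff, ← hf, e, x.2]⟩, hb, Subtype.ext e⟩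
  have hc0 : ∀ x : {x // f x = f x0},
      (if h : f x.1 = f x0 then c ⟨x.1, h⟩ else 0) = c x := fun x => dif_pos x.2
  have hcard : ∀ k : Fin 3, Nat.card {x // f x = f x0 ∧
      (if h : f x = f x0 then c ⟨x, h⟩ else 0) = k} = Nat.card {x // c x = k} := fun k =>
    Nat.card_congr
      { toFun := fun x => ⟨⟨x.1, x.2.1⟩, (hc0 ⟨x.1, x.2.1⟩).symm.trans x.2.2⟩
        invFun := fun x => ⟨x.1.1, x.1.2, (hc0 x.1).trans x.2⟩
        left_inv := fun _ => rfl
        right_inv := fun _ => rfl }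
  refine ⟨fun x => if h : f x = f x0 then c ⟨x, h⟩ else 0, by rwa [hcard, hcard],
    fun t n h3 hy h x hx => ?_⟩
  exact congrArg Subtype.val (h2 ⟨t, hy⟩ n (Subtype.ext h3)
    (fun z => (hc0 _).symm.trans ((h z.1 z.2).trans (hc0 z))) ⟨x, hx⟩)

theorem xsr3e_ind (k : ℕ) : ∀ (G : Type) [Group G] [Finite G] [Group.IsSolvable G] (Ω : Type)
    [Finite Ω] [MulAction G Ω], Nat.card Ω = k → ∃ c : Ω → Fin 3, Rig G c := by
  induction k using Nat.strong_induction_on with
  | h k ih =>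
  intro G _ _ _ Ω _ _ hk
  let G' := (MulAction.toPermHom G Ω).range
  have : Group.IsSolvable G' :=
    Group.isSolvable_of_surjective (MulAction.toPermHom G Ω).rangeRestrict_surjective
  suffices h : ∃ c : Ω → Fin 3, Rig G' c by
    obtain ⟨c, hc⟩ := h
    refine ⟨c, fun t n h3 h => hc ((MulAction.toPermHom G Ω).rangeRestrict t) n ?_ h⟩
    rw [← map_pow, h3, map_one]
  by_cases h0 : (⊤ : Subgroup G') = ⊥
  · refine ⟨fun _ => 0, fun t _ _ _ x => ?_⟩
    have : t = 1 := Subgroup.mem_bot.1 (h0 ▸ Subgroup.mem_top t)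
    rw [this, one_smul]
  obtain ⟨B, p, hB, -, hne, hp, hc, hb, -⟩ := exists_min ⊤ inferInstance h0
  obtain ⟨_, hf⟩ := xsr3e_act (G := G') (MulAction.orbitRel B Ω) (by
    rintro g x y ⟨b, rfl⟩
    refine ⟨⟨g * b * g⁻¹, hB.conj_mem _ b.2 g⟩, ?_⟩
    change (g * b * g⁻¹ : G') • g • y = g • (b : G') • y
    rw [mul_smul, inv_smul_smul, mul_smul])
  have hlt : Nat.card (Quotient (MulAction.orbitRel B Ω)) < k := by
    have := Fintype.ofFinite Ω
    have := Fintype.ofFinite (Quotient (MulAction.orbitRel B Ω))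
    rw [← hk, Nat.card_eq_fintype_card, Nat.card_eq_fintype_card]
    refine Fintype.card_lt_of_surjective_not_injective _ Quotient.mk_surjective fun hi => hne ?_
    rw [eq_bot_iff]
    intro b hb
    exact Subgroup.mem_bot.2 (Subtype.ext (Equiv.ext fun x =>
      hi (Quotient.sound ⟨⟨b, hb⟩, rfl⟩)))
  obtain ⟨c', hc'⟩ := ih _ hlt G' _ rfl
  refine r3_step _ Quotient.mk_surjective hf c' hc' fun y => ?_
  obtain ⟨x0, rfl⟩ := Quotient.mk_surjective y
  refine xsr3e_fib _ hf B hB p hp hc hb x0 fun x hx => ?_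
  obtain ⟨b, e⟩ := Quotient.exact hx
  exact ⟨b, b.2, e⟩

theorem r3 (G : Type) [Group G] [Finite G] [Group.IsSolvable G] (Ω : Type) [Finite Ω]
    [MulAction G Ω] : ∃ c : Ω → Fin 3, Rig G c := by
  exact xsr3e_ind _ G Ω rfl

theorem r3_pi {G : Type} [Group G] [Finite G] [Group.IsSolvable G] {I : Type} [Finite I] [MulAction G I] (π : I → I)
    (h1 : ∀ i, π (π i) = i) (h2 : ∀ (g : G) (i : I), π (g • i) = g • π i) :
    ∃ c : I → Fin 3, (∀ i, c (π i) = c i) ∧ Rig G c := by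
  let r : Setoid I := ⟨fun i j => i = j ∨ i = π j, fun _ => Or.inl rfl, by
    rintro i j (rfl | rfl)
    · exact Or.inl rfl
    · exact Or.inr (h1 _).symm, by
    rintro i j k (rfl | rfl) (rfl | rfl)
    · exact Or.inl rfl
    · exact Or.inr rfl
    · exact Or.inr rfl
    · exact Or.inl (h1 _)⟩
  obtain ⟨_, hf⟩ := xsr3e_act (G := G) r (by
    rintro g i j (rfl | rfl)
    · exact Or.inl rfl
    · exact Or.inr (h2 _ _).symm)
  obtain ⟨c', hc'⟩ := r3 G (Quotient r)
  refine ⟨fun i => c' (Quotient.mk r i), fun i => congrArg c' (Quotient.sound (Or.inr rfl)),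
    fun t n h3 h i => ?_⟩
  have e := hc' t n h3 (fun y => by
    obtain ⟨x, rfl⟩ := Quotient.mk_surjective y
    rw [← hf]
    exact h x) (Quotient.mk r i)
  rw [← hf] at e
  rcases Quotient.exact e with e | e
  · exact e
  have e2 : t ^ 2 ∈ MulAction.stabilizer G i := by
    rw [MulAction.mem_stabilizer_iff, pow_two, mul_smul, e, ← h2, e, h1]
  obtain ⟨k, hk⟩ : Odd (3 ^ n) := Odd.pow (by decide)
  have e3 : (t ^ 2) ^ k • i = i := pow_mem e2 k
  conv_lhs => rw [← e3, ← mul_smul, ← pow_mul, ← pow_succ', ← hk, h3, one_smul]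

end Pool.Agent.N9181

end

section

namespace Pool.Agent.N9181

open scoped commutatorElement

theorem xstau_zero {V : Type} [AddCommGroup V] [Module K V] {H : Type} [Group H]
    (ρ : Representation K H V) (h : H) (ν : K) (hν : ν ≠ 0) (a b : V) (e : ρ h a = ν • b) :
    a = 0 ↔ b = 0 := by
  constructor
  · intro h0
    rw [h0, map_zero] at e
    exact (smul_eq_zero.1 e.symm).resolve_left hν
  · intro h0
    rw [← rho_inv ρ h a, e, h0, smul_zero, map_zero]

theorem xstau_line {V : Type} [AddCommGroup V] [Module K V] [Module.Finite K V]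
    (U : Submodule K V) (h1 : Module.finrank K U = 1) (a : Module.End K V) (ν : K) (w : V)
    (hw : w ∈ U) (h0 : w ≠ 0) (e : a w = ν • w) : ∀ u ∈ U, a u = ν • u := by
  intro u hu
  obtain ⟨c, rfl⟩ := line_ext U h1 w hw h0 u hu
  rw [map_smul, e, smul_comm]

theorem xstau_swap {V : Type} [AddCommGroup V] [Module K V] [Module.Finite K V]
    {H : Type} [Group H] [Finite H] (ρ : Representation K H V) (hE5 : HEP ρ 5) {I : Type}
    [Fintype I] [MulAction H I] (W : I → Submodule K V) (π : I → I) (hL : LP ρ I W π) (k : I)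
    (r q : I → V) (hr : ∀ l, r l ∈ W l ∧ r l ≠ 0) (hq : ∀ l, q l = r l ∨ q l = 0) (x : K)
    (hx : x ≠ 0) (hg : ∀ (h : H) (l : I), l ≠ k → l ≠ π k →
      ρ h (r k + x • r (π k)) ≠ (5 : K) • (r l + r (π l))) :
    ∃ g : H, g • k = π k ∧ ρ g (r k) = (5 : K) • x • r (π k) ∧
      ρ g (x • r (π k)) = (5 : K) • r k ∧
      ∀ l, l ≠ k → l ≠ π k → ρ g (q l) = (5 : K) • q (g • l) := by
  classical
  have h5 : (5 : K) ≠ 0 := by decide
  let Q : I → V := fun l => if l = k then r k else if l = π k then x • r (π k) else q l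
  have Qk : Q k = r k := if_pos rfl
  have Qp : Q (π k) = x • r (π k) := by
    simp only [Q]
    rw [if_neg (hL.ne k), if_pos trivial]
  have Ql : ∀ l, l ≠ k → l ≠ π k → Q l = q l := fun l h1 h2 => by
    simp only [Q]
    rw [if_neg h1, if_neg h2]
  have hQ : ∀ l, Q l ∈ W l := fun l => by
    by_cases h1 : l = k
    · rw [h1, Qk]
      exact (hr k).1
    by_cases h2 : l = π k
    · rw [h2, Qp]
      exact (W _).smul_mem _ (hr _).1
    rw [Ql l h1 h2]
    rcases hq l with h | h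
    · rw [h]
      exact (hr l).1
    · rw [h]
      exact (W l).zero_mem
  obtain ⟨g, hgs⟩ := hE5 (∑ l, Q l)
  have hc := comp0 ρ W hL.bd Q Q hQ hQ g 5 hgs
  have e1 := hc k
  have e2 := hc (π k)
  rw [Qk] at e1
  rw [Qp, ← hL.act] at e2
  have hk : g • k = π k := by
    by_contra h2
    by_cases h1 : g • k = k
    · rw [h1, Qk] at e1
      rw [h1, Qp, map_smul, smul_comm] at e2
      exact hL.rel k _ (hr k).1 _ (hr _).1 (hr k).2 (hr _).2 g e1
        (smul_right_injective V hx e2)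
    · have h3 : π (g • k) ≠ k := fun h => h2 (by rw [← hL.inv (g • k), h])
      have h4 : π (g • k) ≠ π k := fun h => h1 (by rw [← hL.inv (g • k), h, hL.inv])
      rw [Ql _ h1 h2] at e1
      rw [Ql _ h3 h4] at e2
      have n1 := (xstau_zero ρ g 5 h5 _ _ e1).not.1 (hr k).2
      have n2 := (xstau_zero ρ g 5 h5 _ _ e2).not.1 (smul_ne_zero hx (hr _).2)
      rw [(hq _).resolve_right n1] at e1
      rw [(hq _).resolve_right n2] at e2
      exact hg g _ h1 h2 (by rw [map_add, e1, e2, smul_add])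
  have hk' : g • π k = k := by rw [← hL.act, hk, hL.inv]
  rw [hk, Qp] at e1
  rw [hk, hL.inv, Qk] at e2
  refine ⟨g, hk, e1, e2, fun l h1 h2 => ?_⟩
  have h3 : g • l ≠ k := fun h => h2 (MulAction.injective g (h.trans hk'.symm))
  have h4 : g • l ≠ π k := fun h => h1 (MulAction.injective g (h.trans hk.symm))
  have := hc l
  rwa [Ql l h1 h2, Ql _ h3 h4] at this

theorem col {V : Type} [AddCommGroup V] [Module K V] [Module.Finite K V]
    {H : Type} [Group H] [Finite H] (ρ : Representation K H V) {I : Type} [Fintype I] [MulAction H I] (W : I → Submodule K V) (π : I → I)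
    (hL : LP ρ I W π) (r : I → V) (hr : ∀ l, r l ≠ 0) (c : I → Fin 3)
    (hc : ∀ l, c (π l) = c l) (i : I) :
    ∃ q : I → V, (∀ l, q l = r l ∨ q l = 0) ∧ q i = r i ∧ q (π i) = r (π i) ∧
      ∀ l l', (q l = 0 ↔ q l' = 0) → (q (π l) = 0 ↔ q (π l') = 0) → c l = c l' := by
  classical
  let f := Fintype.equivFin I
  let A : I → Prop := fun l => c l = c i ∨ (c l = c i + 1 ∧ f l < f (π l))
  have hz : ∀ l, (if A l then r l else 0) = 0 ↔ ¬ A l := fun l => by
    by_cases h : A l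
    · simp [h, hr l]
    · simp [h]
  refine ⟨fun l => if A l then r l else 0, fun l => ?_, if_pos (Or.inl rfl),
    if_pos (Or.inl (hc i)), fun l l' h1 h2 => ?_⟩
  · by_cases h : A l
    · exact Or.inl (if_pos h)
    · exact Or.inr (if_neg h)
  · rw [hz, hz] at h1 h2
    simp only [A, hc, hL.inv] at h1 h2
    have n1 : f l ≠ f (π l) := fun h => hL.ne l (f.injective h).symm
    have n2 : f l' ≠ f (π l') := fun h => hL.ne l' (f.injective h).symm
    have t1 : (f l < f (π l)) ↔ ¬ (f (π l) < f l) := by omega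
    have t2 : (f l' < f (π l')) ↔ ¬ (f (π l') < f l') := by omega
    rw [t1, t2] at h1
    generalize (f (π l) < f l) = a at h1 h2
    generalize (f (π l') < f l') = b at h1 h2
    generalize c l = u at h1 h2 ⊢
    generalize c l' = v at h1 h2 ⊢
    generalize c i = w at h1 h2 ⊢
    by_cases ha : a <;> by_cases hb : b <;> simp only [ha, hb] at h1 h2 <;> revert u v w <;> decide

theorem tt {V : Type} [AddCommGroup V] [Module K V] [Module.Finite K V]
    {H : Type} [Group H] [Finite H] [Group.IsSolvable H] (ρ : Representation K H V) (hE3 : HEP ρ 3) {I : Type} [Fintype I] [MulAction H I] (W : I → Submodule K V) (π : I → I)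
    (hL : LP ρ I W π) (k : I) :
    ∃ t : H, DiagE ρ W t ∧ (∀ w ∈ W k, ρ t w = (3 : K) • w) ∧
      ∀ w ∈ W (π k), ρ t w = (3 : K) • w := by
  obtain ⟨c, hc, hR⟩ := r3_pi (G := H) π hL.inv hL.act
  have hex : ∀ i, ∃ x, x ∈ W i ∧ x ≠ 0 := fun i => (Submodule.ne_bot_iff _).1 (hL.bd.ne i)
  choose r hr using hex
  obtain ⟨q, hq, q1, q2, hcol⟩ := col ρ W π hL r (fun l => (hr l).2) c hc k
  have hQ : ∀ l, q l ∈ W l := fun l => by
    rcases hq l with h | h
    · rw [h]
      exact (hr l).1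
    · rw [h]
      exact (W l).zero_mem
  obtain ⟨t, a, ht, hts⟩ := ep3 ρ hE3 (∑ l, q l)
  have h0 := comp0 ρ W hL.bd q q hQ hQ t 3 hts
  have h3 : (3 : K) ≠ 0 := by decide
  have hf : ∀ l : I, t • l = l := hR t a ht fun l =>
    (hcol l (t • l) (xstau_zero ρ t 3 h3 _ _ (h0 l))
      (by rw [hL.act]; exact xstau_zero ρ t 3 h3 _ _ (h0 (π l)))).symm
  refine ⟨t, diagE_of ρ W hL.bd hL.one t a ht hf,
    xstau_line _ (hL.one _) _ _ (r k) (hr k).1 (hr k).2 ?_,
    xstau_line _ (hL.one _) _ _ (r (π k)) (hr _).1 (hr _).2 ?_⟩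
  · have := h0 k
    rwa [hf, q1] at this
  · have := h0 (π k)
    rwa [hf, q2] at this

theorem tau {V : Type} [AddCommGroup V] [Module K V] [Module.Finite K V]
    {H : Type} [Group H] [Finite H] [Group.IsSolvable H] (ρ : Representation K H V) (hE5 : HEP ρ 5) {I : Type} [Fintype I] [MulAction H I] (W : I → Submodule K V) (π : I → I)
    (hL : LP ρ I W π) (k i : I) :
    ∃ t : H, DiagE ρ W t ∧ (∀ w ∈ W k, ρ t w = (3 : K) • w) ∧
      (∀ w ∈ W (π k), ρ t w = (9 : K) • w) ∧ (i ≠ k → i ≠ π k → ∀ w ∈ W i, ρ t w = w) := by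
  obtain ⟨c, hc, hR⟩ := r3_pi (G := H) π hL.inv hL.act
  obtain ⟨r, hr, hg⟩ := gchoice ρ hE5 W π hL k
  obtain ⟨q, hq, q1, -, hcol⟩ := col ρ W π hL r (fun l => (hr l).2) c hc i
  obtain ⟨g1, a1, b1, c1, d1⟩ := xstau_swap ρ hE5 W π hL k r q hr hq 1 one_ne_zero
    fun h l h1 h2 => hg h l 1 h1 h2 (Or.inl rfl)
  obtain ⟨g3, a3, b3, c3, d3⟩ := xstau_swap ρ hE5 W π hL k r q hr hq 3 (by decide)
    fun h l h1 h2 => hg h l 3 h1 h2 (Or.inr rfl)
  rw [one_smul] at b1 c1
  have dk : (g1⁻¹ * g3) • k = k := by rw [mul_smul, a3, ← a1, inv_smul_smul]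
  have dp : (g1⁻¹ * g3) • π k = π k := by rw [← hL.act, dk]
  have ek : ρ (g1⁻¹ * g3) (r k) = (3 : K) • r k := by
    rw [rho_mul, b3, smul_comm, ← b1, map_smul, rho_inv]
  have ep : ρ (g1⁻¹ * g3) (r (π k)) = (9 : K) • r (π k) := by
    have h1 : r (π k) = (9 : K) • (3 : K) • r (π k) := by
      rw [smul_smul, show (9 : K) * 3 = 1 by decide, one_smul]
    nth_rewrite 1 [h1]
    rw [map_smul, rho_mul, c3, ← c1, rho_inv]
  generalize hd : g1⁻¹ * g3 = d at dk dp ek ep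
  have out : ∀ (h : H), h • k = k → ∀ l, l ≠ k → l ≠ π k → h • l ≠ k ∧ h • l ≠ π k :=
    fun h hk l h1 h2 => ⟨fun e => h1 (MulAction.injective h (e.trans hk.symm)),
      fun e => h2 (MulAction.injective h (by
        show h • l = h • π k
        rw [e, ← hL.act, hk]))⟩
  have el : ∀ l, l ≠ k → l ≠ π k → ρ d (q l) = q (d • l) := fun l h1 h2 => by
    have h3 := d1 (d • l) (out d dk l h1 h2).1 (out d dk l h1 h2).2
    have h4 : g1 • d • l = g3 • l := by rw [← hd, mul_smul, smul_inv_smul]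
    rw [h4, ← d3 l h1 h2] at h3
    rw [← rho_inv ρ g1 (q (d • l)), h3, ← hd, rho_mul]
  have pk : ∀ n : ℕ, (d ^ n) • k = k := fun n => by
    induction n with
    | zero => rw [pow_zero, one_smul]
    | succ n ih => rw [pow_succ, mul_smul, dk, ih]
  have pl : ∀ n : ℕ, ∀ l, l ≠ k → l ≠ π k → ρ (d ^ n) (q l) = q ((d ^ n) • l) := fun n => by
    induction n with
    | zero =>
      intro l _ _
      rw [pow_zero, one_smul, map_one]
      rfl
    | succ n ih =>
      intro l h1 h2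
      rw [pow_succ, rho_mul, el l h1 h2, ih _ (out d dk l h1 h2).1 (out d dk l h1 h2).2, mul_smul]
  obtain ⟨e, a, ht, he⟩ := eig_ppart ρ 3 (by norm_num) d
  have hf : ∀ l : I, (d ^ e) • l = l := hR _ a ht fun l => by
    by_cases h1 : l = k
    · rw [h1, pk]
    by_cases h2 : l = π k
    · rw [h2, ← hL.act, pk]
    have h3 : π l ≠ k := fun h => h2 (by rw [← hL.inv l, h])
    have h4 : π l ≠ π k := fun h => h1 (by rw [← hL.inv l, h, hL.inv])
    refine (hcol l _ (xstau_zero ρ (d ^ e) 1 one_ne_zero _ _ ?_) ?_).symm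
    · rw [one_smul, pl e l h1 h2]
    · rw [hL.act]
      refine xstau_zero ρ (d ^ e) 1 one_ne_zero _ _ ?_
      rw [one_smul, pl e _ h3 h4]
  refine ⟨d ^ e, diagE_of ρ W hL.bd hL.one _ a ht hf,
    xstau_line _ (hL.one _) _ _ (r k) (hr k).1 (hr k).2 (he _ _ 1 ek (by decide)),
    xstau_line _ (hL.one _) _ _ (r (π k)) (hr _).1 (hr _).2 (he _ _ 1 ep (by decide)),
    fun h1 h2 w hw => ?_⟩
  have h3 := pl e i h1 h2
  rw [hf, q1] at h3
  have := xstau_line _ (hL.one _) (ρ (d ^ e)) 1 (r i) (hr i).1 (hr i).2 (by rw [h3, one_smul]) w hw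
  rwa [one_smul] at this

end Pool.Agent.N9181

end

section

namespace Pool.Agent.N9181

open scoped commutatorElement

open scoped Pointwise in
theorem xsefin_frat {H : Type} [Group H] [Finite H] (p : ℕ) [Fact p.Prime] (Y : Subgroup H)
    (y : H) (hy : y ∈ Subgroup.normalizer (Y : Set H)) :
    ∃ T : Subgroup H, IsPGroup p T ∧ T ≤ Y ∧ (∃ c ∈ Y, y * c ∈ Subgroup.normalizer (T : Set H)) ∧
      ∀ g ∈ Y, ∀ a : ℕ, g ^ (p ^ a) = 1 → ∃ d ∈ Y, d * g * d⁻¹ ∈ T := by
  obtain ⟨S⟩ : Nonempty (Sylow p Y) := inferInstance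
  refine ⟨(S : Subgroup Y).map Y.subtype, S.isPGroup'.map _, Subgroup.map_subtype_le _, ?_, ?_⟩
  · let α : MulAut Y := Y.normalizerMonoidHom ⟨y, hy⟩
    have hα : ∀ x : Y, ((α x : Y) : H) = y * x * y⁻¹ := fun x => rfl
    obtain ⟨c, hc⟩ := MulAction.exists_smul_eq Y S (α⁻¹ • S)
    refine ⟨c, c.2, Subgroup.mem_normalizer_fintype ?_⟩
    rintro _ ⟨s, hs, rfl⟩
    have h1 : MulAut.conj c • s ∈ ((c • S : Sylow p Y) : Subgroup Y) := by
      rw [Sylow.coe_subgroup_smul]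
      exact Subgroup.smul_mem_pointwise_smul _ _ _ hs
    rw [hc, Sylow.pointwise_smul_def, Subgroup.mem_pointwise_smul_iff_inv_smul_mem,
      inv_inv] at h1
    refine ⟨_, h1, ?_⟩
    show ((α (c * s * c⁻¹) : Y) : H) = _
    rw [hα]
    simp only [Subgroup.coe_mul, Subgroup.coe_inv, Subgroup.subtype_apply]
    group
  · intro g hg a ha
    have h1 : IsPGroup p (Subgroup.zpowers (⟨g, hg⟩ : Y)) := by
      rintro ⟨_, n, rfl⟩
      refine ⟨a, Subtype.ext (Subtype.ext ?_)⟩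
      show (g ^ n) ^ (p ^ a) = 1
      rw [← zpow_natCast, ← zpow_mul, mul_comm, zpow_mul, zpow_natCast, ha, one_zpow]
    obtain ⟨Q, hQ⟩ := h1.exists_le_sylow
    obtain ⟨d, hd⟩ := MulAction.exists_smul_eq Y Q S
    refine ⟨d, d.2, MulAut.conj d • (⟨g, hg⟩ : Y), ?_, rfl⟩
    rw [← hd]
    show _ ∈ ((d • Q : Sylow p Y) : Subgroup Y)
    rw [Sylow.coe_subgroup_smul]
    exact Subgroup.smul_mem_pointwise_smul _ _ _ (hQ (Subgroup.mem_zpowers _))

theorem xsefin_grp {V : Type} [AddCommGroup V] [Module K V]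
    {H : Type} [Group H] (ρ : Representation K H V) {I : Type} [MulAction H I]
    (W : I → Submodule K V) (i : I) :
    ∃ Y : Subgroup H, ∀ g, g ∈ Y ↔ DiagE ρ W g ∧ ∀ w ∈ W i, ρ g w = w := by
  refine ⟨⟨⟨⟨{g | DiagE ρ W g ∧ ∀ w ∈ W i, ρ g w = w}, ?_⟩, ?_⟩, ?_⟩, fun g => Iff.rfl⟩
  · rintro a b ⟨ha, ha'⟩ ⟨hb, hb'⟩
    refine ⟨fun k => ?_, fun w hw => by rw [rho_mul, hb' w hw, ha' w hw]⟩
    obtain ⟨h1, c, hc, h2⟩ := ha k
    obtain ⟨h3, d, hd, h4⟩ := hb k
    refine ⟨by rw [mul_smul, h3, h1], d * c, by rw [mul_pow, hc, hd, one_mul], fun w hw => ?_⟩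
    rw [rho_mul, h4 w hw, map_smul, h2 w hw, smul_smul]
  · refine ⟨fun k => ⟨one_smul _ _, 1, one_pow _, fun w _ => ?_⟩, fun w _ => ?_⟩
    · rw [map_one, one_smul]; rfl
    · rw [map_one]; rfl
  · rintro a ⟨ha, ha'⟩
    refine ⟨fun k => ?_, fun w hw => ?_⟩
    · obtain ⟨h1, c, hc, h2⟩ := ha k
      have hc0 : c ≠ 0 := by
        rintro rfl
        rw [zero_pow (by norm_num)] at hc
        exact zero_ne_one hc
      refine ⟨inv_smul_eq_iff.2 h1.symm, c⁻¹, by rw [inv_pow, hc, inv_one], fun w hw => ?_⟩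
      rw [eq_inv_smul_iff₀ hc0, ← map_smul, ← h2 w hw, rho_inv]
    · have := rho_inv ρ a w
      rwa [ha' w hw] at this

theorem efin {V : Type} [AddCommGroup V] [Module K V] [Module.Finite K V]
    {H : Type} [Group H] [Finite H] (ρ : Representation K H V) (hE5 : HEP ρ 5) (hP : Par ρ) {I : Type} [Fintype I] [MulAction H I] (W : I → Submodule K V) (hB : BD ρ I W) (h1 : ∀ i, Module.finrank K (W i) = 1) (i : I)
    (h : ∀ k, k ≠ i → ∃ (g : H) (c : K), DiagE ρ W g ∧ (∀ w ∈ W i, ρ g w = w) ∧ c ≠ 1 ∧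
      ∀ u ∈ W k, ρ g u = c • u) : False := by
  classical
  have : Fact (Nat.Prime 3) := ⟨by norm_num⟩
  obtain ⟨e, he, he0⟩ := (Submodule.ne_bot_iff _).1 (hB.ne i)
  obtain ⟨y, hy⟩ := hE5 e
  have hyi : y • i = i := blk_eq ρ W hB i i y e he he0 (by rw [hy]; exact (W i).smul_mem _ he)
  obtain ⟨Y, hY⟩ := xsefin_grp ρ W i
  have hconj : ∀ (d g : H) (k : I) (c : K), (∀ u ∈ W (d⁻¹ • k), ρ g u = c • u) →
      ∀ u ∈ W k, ρ (d * g * d⁻¹) u = c • u := by
    intro d g k c hg u hu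
    rw [rho_mul, rho_mul, hg _ (hB.map d⁻¹ k u hu), map_smul, rho_inv']
  have hyY : y ∈ Subgroup.normalizer (Y : Set H) := by
    refine Subgroup.mem_normalizer_fintype ?_
    intro g hg
    obtain ⟨hg1, hg2⟩ := (hY g).1 hg
    refine (hY _).2 ⟨fun k => ?_, fun w hw => ?_⟩
    · obtain ⟨h2, c, hc, h3⟩ := hg1 (y⁻¹ • k)
      exact ⟨by rw [mul_smul, mul_smul, h2, smul_inv_smul], c, hc, hconj y g k c h3⟩
    · have h2 := hconj y g i 1 (by
        rw [inv_smul_eq_iff.2 hyi.symm]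
        intro u hu
        rw [one_smul, hg2 u hu]) w hw
      rwa [one_smul] at h2
  obtain ⟨T, hT, hTY, ⟨c, hc, hcn⟩, hT2⟩ := xsefin_frat 3 Y y hyY
  obtain ⟨P, hP1, hP2, -, -, hP5⟩ := exists_proj ρ W hB
  refine hP T (y * c) e hT hcn he0 (le_antisymm ?_ ?_) ?_
  · intro v hv
    have hk : ∀ k, k ≠ i → P k v = 0 := by
      intro k hki
      obtain ⟨g, x, hg1, hg2, hx, hg3⟩ := h k hki
      have hx3 : x ^ (3 ^ 1) = 1 := by
        obtain ⟨-, x', hx', hg4⟩ := hg1 k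
        obtain ⟨u, hu, hu0⟩ := (Submodule.ne_bot_iff _).1 (hB.ne k)
        have h2 : x = x' := smul_left_injective K hu0 ((hg3 u hu).symm.trans (hg4 u hu))
        rw [pow_one, h2, hx']
      obtain ⟨n, a, hn1, hn2⟩ := eig_ppart ρ 3 (by norm_num) g
      obtain ⟨d, hd, hdT⟩ := hT2 (g ^ n) (Y.pow_mem ((hY g).2 ⟨hg1, hg2⟩) n) a hn1
      have hdk : d⁻¹ • k = k := (((hY _).1 (Y.inv_mem hd)).1 k).1
      have h3 := hconj d (g ^ n) k x (by
        rw [hdk]
        exact fun u hu => hn2 u x 1 (hg3 u hu) hx3) _ (hP1 k v)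
      have h4 := hP5 (d * g ^ n * d⁻¹) k v
      rw [(((hY _).1 (hTY hdT)).1 k).1, hv _ hdT, h3] at h4
      have h5 : (1 - x) • P k v = 0 := by rw [sub_smul, one_smul, ← h4, sub_self]
      exact (smul_eq_zero.1 h5).resolve_left fun h6 => hx (sub_eq_zero.1 h6).symm
    have h2 := hP2 v
    rw [Finset.sum_eq_single i (fun k _ hki => hk k hki) (fun hi => absurd (Finset.mem_univ i) hi)]
      at h2
    obtain ⟨x, hx⟩ := line_ext (W i) (h1 i) e he he0 v (h2 ▸ hP1 i v)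
    exact Submodule.mem_span_singleton.2 ⟨x, hx.symm⟩
  · rw [Submodule.span_singleton_le_iff_mem]
    exact fun t ht => ((hY t).1 (hTY ht)).2 e he
  · rw [rho_mul, ((hY c).1 hc).2 e he, hy]

end Pool.Agent.N9181

end
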