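import Pool.Agent.Mg.F9181f8.Gaf6fc9
import Pool.Agent.Mg.F9181f8.G5cdca3
import Pool.Agent.MP_9181f8_al.Defs
import Pool.Agent.Mg.F9181f8.Gf1e907
import Pool.Agent.Mg.F9181f8.Ge586db
import Pool.Agent.Mg.F9181f8.G01f10b

section

namespace Pool.Agent.N9181

open scoped commutatorElement

theorem xgoodstep_mem {G : Type} [Group G] (R : Subgroup G) (x : G) (n k : ℕ) (h : n.Coprime k)
    (h1 : x ^ n ∈ R) (h2 : x ^ k ∈ R) : x ∈ R := by
  have hg := Nat.gcd_eq_gcd_ab n k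
  rw [h] at hg
  have hx : x = (x ^ n) ^ (Nat.gcdA n k) * (x ^ k) ^ (Nat.gcdB n k) := by
    rw [← zpow_natCast, ← zpow_natCast, ← zpow_mul, ← zpow_mul, ← zpow_add, ← hg]
    simp
  rw [hx]
  exact R.mul_mem (R.zpow_mem h1 _) (R.zpow_mem h2 _)

theorem xgoodstep_cop (a k : ℕ) (h : ¬ 13 ∣ k) : (13 ^ a).Coprime k :=
  Nat.Coprime.pow_left a ((Nat.Prime.coprime_iff_not_dvd fact13.out).2 h)

theorem xgoodstep_B {V : Type} [AddCommGroup V] [Module K V] [Module.Finite K V]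
    {G : Type} [Group G] (ρ : Representation K G V) (ι : V → G) (hι : Emb ρ ι)
    (B : Subgroup G) (hB : ∀ g, g ∈ B ↔ ∃ v, ι v = g) :
    B.Normal ∧ IsPGroup 13 B ∧ B ≤ MonoidHom.ker ρ ∧
      ∀ b ∈ B, ∀ d ∈ MonoidHom.ker ρ, b * d = d * b := by
  obtain ⟨-, -, h3, h4⟩ := emb_basic ρ ι hι
  refine ⟨⟨fun b hb g => ?_⟩, fun b => ⟨1, ?_⟩, fun b hb => ?_, fun b hb d hd => ?_⟩
  · obtain ⟨v, rfl⟩ := (hB b).1 hb
    exact (hB _).2 ⟨ρ g v, hι.act g v⟩
  · obtain ⟨v, hv⟩ := (hB b).1 b.2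
    apply Subtype.ext
    simp only [pow_one, SubmonoidClass.coe_pow, OneMemClass.coe_one]
    rw [← hv]
    exact h3 v
  · obtain ⟨v, rfl⟩ := (hB b).1 hb
    exact MonoidHom.mem_ker.2 (h4 v)
  · obtain ⟨v, rfl⟩ := (hB b).1 hb
    have h := hι.act d v
    rw [MonoidHom.mem_ker.1 hd] at h
    have h' : ι v = d * ι v * d⁻¹ := h
    calc ι v * d = d * ι v * d⁻¹ * d := by rw [← h']
      _ = d * ι v := by group

theorem xgoodstep_idx {V : Type} [AddCommGroup V] [Module K V] [Module.Finite K V]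
    {G : Type} [Group G] [Finite G] (ρ : Representation K G V)
    (h13 : ∀ (g : G) (a : ℕ), g ^ (13 ^ a) = 1 → ρ g = 1) : ¬ 13 ∣ (MonoidHom.ker ρ).index := by
  intro hd
  obtain ⟨y, hy⟩ := exists_prime_orderOf_dvd_card' (G := G ⧸ MonoidHom.ker ρ) 13 hd
  obtain ⟨g, rfl⟩ := QuotientGroup.mk'_surjective (MonoidHom.ker ρ) y
  obtain ⟨e, a, h1, -, h2⟩ := p_part 13 fact13.out g
  have h3 := h2 _ (QuotientGroup.mk' (MonoidHom.ker ρ)) 1 (by
    rw [pow_one]; exact orderOf_dvd_iff_pow_eq_one.1 (by rw [hy]))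
  have h4 : QuotientGroup.mk' (MonoidHom.ker ρ) (g ^ e) = 1 :=
    (QuotientGroup.eq_one_iff _).2 (MonoidHom.mem_ker.2 (h13 _ a h1))
  rw [← h3, h4, orderOf_one] at hy
  norm_num at hy

theorem xgoodstep_pred {G : Type} [Group G] [Finite G] (N m : ℕ) (hP : PP G N m) :
    (N - 1).Coprime N ∧ ∀ x : G, x ^ (N - 1) = x⁻¹ := by
  obtain ⟨⟨hd, hN, -⟩, -⟩ := hP
  obtain ⟨n, rfl⟩ : ∃ n, N = n + 1 := ⟨N - 1, by omega⟩
  refine ⟨by simp, fun x => ?_⟩
  have h : x ^ (n + 1) = 1 := orderOf_dvd_iff_pow_eq_one.1 ((orderOf_dvd_natCard x).trans hd)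
  rw [Nat.add_sub_cancel, eq_inv_iff_mul_eq_one, ← pow_succ, h]

theorem xgoodstep_q {V : Type} [AddCommGroup V] [Module K V] [Module.Finite K V]
    {G : Type} [Group G] [Finite G] (ρ : Representation K G V)
    (h13 : ∀ (g : G) (a : ℕ), g ^ (13 ^ a) = 1 → ρ g = 1) (g : G) :
    ∃ e : ℕ, ¬ 13 ∣ orderOf (g ^ e) ∧ ρ (g ^ e) = ρ g ∧
      ∀ (T : Type) [Monoid T] (f : G →* T), (f g) ^ 3 = 1 → f (g ^ e) = f g := by
  obtain ⟨e, h1, -, h2, u, ⟨a, hu⟩, h3, -⟩ := q_part 13 fact13.out g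
  refine ⟨e, h1, ?_, fun T _ f hf => h2 T f 3 (by norm_num) hf⟩
  conv_rhs => rw [h3, map_mul, h13 u a hu, mul_one]

/-- an element that is central of order three modulo a normal subgroup fixes no vector -/
theorem xgoodstep_tool {V : Type} [AddCommGroup V] [Module K V] [Module.Finite K V]
    {G : Type} [Group G] [Finite G] [Group.IsSolvable G] (ρ : Representation K G V) (ι : V → G)
    (hι : Emb ρ ι) (N m : ℕ) (hP : PP G N m)
    (h13 : ∀ (g : G) (a : ℕ), g ^ (13 ^ a) = 1 → ρ g = 1) {T : Type} [Group T] (f : G →* T)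
    (g : G) (hc : ∀ y, f y * f g = f g * f y) (h1 : f g ≠ 1) (h3 : (f g) ^ 3 = 1) :
    ∀ v, ρ g v = v → v = 0 := by
  obtain ⟨e, ho, hr, hf⟩ := xgoodstep_q ρ h13 g
  have hf' := hf T f h3
  obtain ⟨hN, hinv⟩ := xgoodstep_pred N m hP
  rw [← hr]
  refine rmod ρ ι hι N m hP (g ^ e) ho (N - 1) hN ?_ (fun y a _ hy => h13 y a hy)
  intro hj
  rw [hinv] at hj
  obtain ⟨y, hy⟩ := isConj_iff.1 hj
  have h := congrArg f hy
  rw [map_mul, map_mul, map_inv, map_inv, hf', hc y, mul_inv_cancel_right] at h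
  apply h1
  calc f g = (f g) ^ 3 * ((f g)⁻¹ * (f g)⁻¹) := by group
    _ = (f g)⁻¹ * (f g)⁻¹ := by rw [h3, one_mul]
    _ = f g * (f g)⁻¹ := by rw [← h]
    _ = 1 := mul_inv_cancel _

theorem xgoodstep_idx2 {G : Type} [Group G] (Q C : Subgroup G) (hQ : Q.Normal)
    (h1 : ¬ 13 ∣ Q.index) (h2 : ¬ 13 ∣ C.index) : ¬ 13 ∣ (Q ⊓ C).index := by
  rw [← Subgroup.relIndex_mul_index (inf_le_right : Q ⊓ C ≤ C), Subgroup.inf_relIndex_right]
  intro h
  rcases (Nat.Prime.dvd_mul fact13.out).1 h with h | h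
  · exact h1 (h.trans (Subgroup.relIndex_dvd_index_of_normal Q C))
  · exact h2 h

theorem xgoodstep_rel {G : Type} [Group G] (B D R : Subgroup G) (h1 : B ≤ D) (h2 : D ≤ R)
    (h : ¬ 13 ∣ B.relIndex R) : ¬ 13 ∣ B.relIndex D := by
  intro hd
  apply h
  rw [← Subgroup.relIndex_mul_relIndex B D R h1 h2]
  exact hd.mul_right _

/-- elements of `Q` act as real operators -/
theorem xgoodstep_real {V : Type} [AddCommGroup V] [Module K V] [Module.Finite K V]
    {G : Type} [Group G] [Finite G] [Group.IsSolvable G] (ρ : Representation K G V)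
    (N m : ℕ) (hP : PP G N m) (B R Q : Subgroup G) (z : G) (hD : GD B R Q z)
    (hBC : B ≤ MonoidHom.ker ρ) (hi : 13 ∣ B.index)
    (h13 : ∀ (g : G) (a : ℕ), g ^ (13 ^ a) = 1 → ρ g = 1) (q : G) (hq : q ∈ Q) :
    RealOp ρ q := by
  have nR := hD.nR
  have nQ := hD.nQ
  set C : Subgroup G := MonoidHom.ker ρ with hC
  have nC : C.Normal := MonoidHom.normal_ker ρ
  have nD : (R ⊓ C).Normal := inferInstance
  have nK : (Q ⊓ C).Normal := inferInstance
  have hKi : ¬ 13 ∣ (Q ⊓ C).index := xgoodstep_idx2 Q C nQ hD.idx (xgoodstep_idx ρ h13)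
  have hDK : R ⊓ C ≤ Q ⊓ C := inf_le_inf_right C hD.le2
  obtain ⟨e, ho, hr, -⟩ := xgoodstep_q ρ h13 q
  obtain ⟨hN, hinv⟩ := xgoodstep_pred N m hP
  have hqR : q ^ e ∈ R := by
    obtain ⟨a, ha⟩ := hD.pw (q ^ e) (Q.pow_mem hq e)
    refine xgoodstep_mem R _ _ _ (xgoodstep_cop a _ ho) ha ?_
    rw [pow_orderOf_eq_one]
    exact R.one_mem
  let f : G →* G ⧸ (R ⊓ C) := QuotientGroup.mk' (R ⊓ C)
  have hfs : Function.Surjective f := QuotientGroup.mk'_surjective _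
  have hf1 : ∀ x, f x = 1 ↔ x ∈ R ⊓ C := fun x => QuotientGroup.eq_one_iff x
  have key : ∃ g : G, g * q ^ e * g⁻¹ * (q ^ e) ∈ C := by
    by_contra hno
    push Not at hno
    have h := rgrp N m (pp_surj f hfs N m hP) ((Q ⊓ C).map f) (nK.map f hfs) ?_ ?_ (f (q ^ e)) ?_
      (N - 1) hN ?_
    · have hle : Q ⊓ C ≤ R ⊓ C := by
        intro k hk
        rw [← hf1]
        refine h (f k) ⟨k, hk, rfl⟩ ?_
        have hk2 : k * q ^ e * k⁻¹ * (q ^ e)⁻¹ ∈ R ⊓ C := by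
          refine Subgroup.mem_inf.2 ⟨R.mul_mem (nR.conj_mem _ hqR k) (R.inv_mem hqR), ?_⟩
          have h5 := C.mul_mem hk.2 (nC.conj_mem _ (C.inv_mem hk.2) (q ^ e))
          simpa only [mul_assoc] using h5
        rw [← hf1] at hk2
        simp only [map_mul, map_inv] at hk2
        rw [mul_inv_eq_one, mul_inv_eq_iff_eq_mul] at hk2
        exact hk2
      have heq : R ⊓ C = Q ⊓ C := le_antisymm hDK hle
      have hBD : B ≤ R ⊓ C := le_inf hD.le1 hBC
      rw [← Subgroup.relIndex_mul_index hBD] at hi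
      rcases (Nat.Prime.dvd_mul fact13.out).1 hi with h6 | h6
      · exact xgoodstep_rel B _ R hBD inf_le_left hD.cop h6
      · rw [heq] at h6
        exact hKi h6
    · rintro ⟨_, k, hk, rfl⟩
      obtain ⟨a, ha⟩ := hD.pw k hk.1
      refine ⟨a, Subtype.ext ?_⟩
      show (f k) ^ 13 ^ a = 1
      rw [← map_pow, hf1]
      exact ⟨ha, C.pow_mem hk.2 _⟩
    · exact fun h => hKi (h.trans (Subgroup.index_map_dvd _ hfs))
    · exact fun h => ho (h.trans (orderOf_map_dvd f _))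
    · intro y hy
      obtain ⟨g, rfl⟩ := hfs y
      obtain ⟨k, hk, hk'⟩ := hy
      rw [← map_pow, hinv, ← map_inv, ← map_inv, ← map_mul, ← map_mul, ← map_mul, inv_inv] at hk'
      have h7 : k⁻¹ * (g * q ^ e * g⁻¹ * q ^ e) ∈ R ⊓ C := by
        rw [← hf1, map_mul, map_inv, hk', inv_mul_cancel]
      apply hno g
      have h8 := C.mul_mem hk.2 h7.2
      simpa only [mul_inv_cancel_left] using h8
  obtain ⟨g, hg⟩ := key
  intro M
  have h9 : ρ (g * q ^ e * g⁻¹) = ρ q⁻¹ := by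
    have h10 : ρ (g * q ^ e * g⁻¹) * ρ q = 1 := by
      rw [← hr, ← map_mul]
      exact MonoidHom.mem_ker.1 hg
    calc ρ (g * q ^ e * g⁻¹) = ρ (g * q ^ e * g⁻¹) * ρ q * ρ q⁻¹ := by
          rw [mul_assoc (ρ _), ← map_mul ρ q, mul_inv_cancel, map_one, mul_one]
      _ = ρ q⁻¹ := by rw [h10, one_mul]
  rw [← hr, ← h9]
  exact bt_isConj ρ _ _ (isConj_iff.2 ⟨g, rfl⟩) M

/-- an element acting as a power of the scalar three is central of exponent three mod the kernel -/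
theorem xgoodstep_scal {V : Type} [AddCommGroup V] [Module K V] [Module.Finite K V]
    {G : Type} [Group G] (ρ : Representation K G V) (y : G) (s : ℕ)
    (hy : ∀ v, ρ y v = (3 : K) ^ s • v) :
    y ^ 3 ∈ MonoidHom.ker ρ ∧ ∀ g : G, ⁅g, y⁆ ∈ MonoidHom.ker ρ := by
  constructor
  · rw [MonoidHom.mem_ker]
    ext v
    have h27 : (3 : K) ^ s * (3 : K) ^ s * (3 : K) ^ s = 1 := by
      rw [← mul_pow, ← mul_pow]
      have : (3 : K) * 3 * 3 = 1 := by decide
      rw [this, one_pow]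
    have h : y ^ 3 = y * y * y := by rw [pow_succ, pow_two]
    rw [h, map_mul, map_mul]
    simp only [Module.End.mul_apply, hy, smul_smul, Module.End.one_apply]
    rw [← mul_assoc, h27, one_smul]
  · intro g
    have h : ρ g * ρ y = ρ y * ρ g := by
      ext v
      simp only [Module.End.mul_apply, hy, map_smul]
    rw [MonoidHom.mem_ker, commutatorElement_def, map_mul, map_mul, map_mul, h, mul_assoc (ρ y),
      ← map_mul ρ g, mul_inv_cancel, map_one, mul_one, ← map_mul, mul_inv_cancel, map_one]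

theorem xgoodstep_pow {V : Type} [AddCommGroup V] [Module K V] [Module.Finite K V]
    {G : Type} [Group G] (ρ : Representation K G V) (y : G)
    (hy : ∀ v, ρ y v = (3 : K) • v) (s : ℕ) : ∀ v, ρ (y ^ s) v = (3 : K) ^ s • v := by
  induction s with
  | zero => intro v; simp
  | succ s ih =>
    intro v
    rw [pow_succ, map_mul, Module.End.mul_apply, hy, map_smul, ih, smul_smul, pow_succ, mul_comm]

theorem xgoodstep_comm {G : Type} [Group G] (S : Subgroup G) [S.Normal] (g y : G) :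
    ⁅g, y⁆ ∈ S ↔ QuotientGroup.mk' S g * QuotientGroup.mk' S y =
      QuotientGroup.mk' S y * QuotientGroup.mk' S g := by
  rw [← commutatorElement_eq_one_iff_mul_comm, ← map_commutatorElement]
  exact (QuotientGroup.eq_one_iff _).symm

theorem good_base {V : Type} [AddCommGroup V] [Module K V] [Module.Finite K V]
    {G : Type} [Group G] [Finite G] [Group.IsSolvable G] (ρ : Representation K G V) (ι : V → G) (hι : Emb ρ ι) (N m : ℕ) (hP : PP G N m) (hirr : Irr ρ)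
    (B : Subgroup G) (hB : ∀ g, g ∈ B ↔ ∃ v, ι v = g) (hi : ¬ 13 ∣ B.index) : Good G := by
  obtain ⟨nB, pB, hBC, hcen⟩ := xgoodstep_B ρ ι hι B hB
  have h13 : ∀ (g : G) (a : ℕ), g ^ (13 ^ a) = 1 → ρ g = 1 := by
    intro g a hg
    refine MonoidHom.mem_ker.1 (hBC (xgoodstep_mem B g _ _ (xgoodstep_cop a _ hi) ?_
      (B.pow_index_mem g)))
    rw [hg]
    exact B.one_mem
  obtain ⟨-, -, ⟨y, hy⟩, -⟩ := copM ρ ι hι N m hP hirr h13
  obtain ⟨R, nR, hle, hc, hpw⟩ := centralHall B (MonoidHom.ker ρ) (MonoidHom.normal_ker ρ) hBC pB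
    hcen (fun h => hi (h.trans (Subgroup.relIndex_dvd_index_of_le hBC)))
  obtain ⟨h3, hcm⟩ := xgoodstep_scal ρ y 1 (by simpa only [pow_one] using hy)
  refine ⟨R, MonoidHom.ker ρ, y, nR, MonoidHom.normal_ker ρ, bot_le, hle, ?_, hpw,
    xgoodstep_idx ρ h13, ?_, h3, hcm⟩
  · rw [Subgroup.relIndex_bot_left]
    exact hc
  · intro h
    obtain ⟨v, hv⟩ := hirr.1
    have h1 := hy v
    rw [MonoidHom.mem_ker.1 h, Module.End.one_apply] at h1
    have h2 : ((3 : K) - 1) • v = 0 := by rw [sub_smul, ← h1, one_smul, sub_self]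
    rcases smul_eq_zero.1 h2 with h4 | h4
    · revert h4; decide
    · exact hv h4

theorem good_step {V : Type} [AddCommGroup V] [Module K V] [Module.Finite K V]
    {G : Type} [Group G] [Finite G] [Group.IsSolvable G] (ρ : Representation K G V) (ι : V → G) (hι : Emb ρ ι) (N m : ℕ) (hP : PP G N m) (hirr : Irr ρ)
    (B R Q : Subgroup G) (hB : ∀ g, g ∈ B ↔ ∃ v, ι v = g) (z : G) (hD : GD B R Q z)
    (hi : 13 ∣ B.index) (h13 : ∀ (g : G) (a : ℕ), g ^ (13 ^ a) = 1 → ρ g = 1) : Good G := by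
  obtain ⟨-, pB, hBC, hcen⟩ := xgoodstep_B ρ ι hι B hB
  obtain ⟨hcop, hreal, ⟨y, hy⟩, -⟩ := copM ρ ι hι N m hP hirr h13
  have nR := hD.nR
  have nQ := hD.nQ
  have hRe := xgoodstep_real ρ N m hP B R Q z hD hBC hi h13
  have hCi := xgoodstep_idx ρ h13
  have hsc := fun (t : G) (s : ℕ) => xgoodstep_scal ρ t s
  have hmem : ∀ t, t ∈ MonoidHom.ker ρ ↔ ρ t = 1 := fun t => MonoidHom.mem_ker
  have nC : (MonoidHom.ker ρ).Normal := MonoidHom.normal_ker ρ
  generalize MonoidHom.ker ρ = C at *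
  by_cases hs : ∃ s : ℕ, z * (y ^ s)⁻¹ ∈ Q ⊔ C
  · obtain ⟨s, hs⟩ := hs
    obtain ⟨q, hq, c, hc, hqc'⟩ := Subgroup.mem_sup_of_normal_right.1 hs
    have hz : c * y ^ s = q⁻¹ * z := by
      rw [eq_inv_mul_iff_mul_eq, ← mul_assoc, hqc', inv_mul_cancel_right]
    obtain ⟨h3, hcm⟩ := hsc (c * y ^ s) s (by
      intro v
      rw [map_mul, (hmem c).1 hc, one_mul, xgoodstep_pow ρ y hy])
    have hf : QuotientGroup.mk' Q (c * y ^ s) = QuotientGroup.mk' Q z := by
      have h1 : QuotientGroup.mk' Q q = 1 := (QuotientGroup.eq_one_iff _).2 hq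
      rw [hz, map_mul, map_inv, h1, inv_one, one_mul]
    have hBD : B ≤ R ⊓ C := le_inf hD.le1 hBC
    obtain ⟨R0, nR0, hle, hc0, hpw⟩ := centralHall B (R ⊓ C) inferInstance hBD pB
      (fun b hb d hd => hcen b hb d hd.2) (xgoodstep_rel B _ R hBD inf_le_left hD.cop)
    refine ⟨R0, Q ⊓ C, c * y ^ s, nR0, inferInstance, bot_le,
      hle.trans (inf_le_inf_right C hD.le2), ?_, ?_, xgoodstep_idx2 Q C nQ hD.idx hCi, ?_,
      ⟨?_, h3⟩, fun g => ⟨?_, hcm g⟩⟩
    · rw [Subgroup.relIndex_bot_left]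
      exact hc0
    · intro k hk
      obtain ⟨a, ha⟩ := hD.pw k hk.1
      obtain ⟨b, hb⟩ := hpw (k ^ 13 ^ a) ⟨ha, C.pow_mem hk.2 _⟩
      exact ⟨a + b, by rw [pow_add, pow_mul]; exact hb⟩
    · intro h
      apply hD.zn
      have h1 := Q.mul_mem hq h.1
      rw [hz, mul_inv_cancel_left] at h1
      exact h1
    · have h1 : QuotientGroup.mk' Q (z ^ 3) = 1 := (QuotientGroup.eq_one_iff _).2 hD.z3
      have h2 : QuotientGroup.mk' Q ((c * y ^ s) ^ 3) = 1 := by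
        rw [map_pow, hf, ← map_pow, h1]
      exact (QuotientGroup.eq_one_iff _).1 h2
    · have h1 := (xgoodstep_comm Q g z).1 (hD.zc g)
      rw [← hf] at h1
      exact (xgoodstep_comm Q g _).2 h1
  · exfalso
    push Not at hs
    obtain ⟨e, a, hx, -, hxf⟩ := p_part 3 (by norm_num) z
    have hz3 : ∀ (S : Subgroup G) [S.Normal], Q ≤ S → (QuotientGroup.mk' S z) ^ 3 = 1 := by
      intro S _ hS
      rw [← map_pow]
      exact (QuotientGroup.eq_one_iff _).2 (hS hD.z3)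
    refine sign3 ρ hirr.1 (hbal_of_hreal ρ hcop hreal) ⟨y, hy⟩ (z ^ e) a hx ?_ ?_
    · intro i hi1
      refine bal_of_realOp ρ hcop _ (fun k => hRe _ (Q.pow_mem ?_ k))
      obtain ⟨j, rfl⟩ : ∃ j, i = j + 1 := ⟨i - 1, by omega⟩
      have h : (z ^ e) ^ 3 ^ (j + 1) = (z ^ 3) ^ (e * 3 ^ j) := by
        rw [← pow_mul, ← pow_mul]
        congr 1
        ring
      rw [h]
      exact Q.pow_mem hD.z3 _
    · intro s v hv
      have nS : (Q ⊔ C).Normal := inferInstance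
      let f : G →* G ⧸ (Q ⊔ C) := QuotientGroup.mk' (Q ⊔ C)
      have hf1 : ∀ x, f x = 1 ↔ x ∈ Q ⊔ C := fun x => QuotientGroup.eq_one_iff x
      have hfz3 : (f z) ^ 3 = 1 := hz3 _ le_sup_left
      have hfe : f (z ^ e) = f z := hxf _ f 1 (by rw [pow_one]; exact hfz3)
      obtain ⟨h3, hcm⟩ := hsc (y ^ s) s (xgoodstep_pow ρ y hy s)
      have hcz : ∀ g, Commute (f g) (f z) := fun g =>
        (xgoodstep_comm (Q ⊔ C) g z).1 (Subgroup.mem_sup_left (hD.zc g))
      have hcy : ∀ g, Commute (f g) (f (y ^ s)) := fun g =>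
        (xgoodstep_comm (Q ⊔ C) g _).1 (Subgroup.mem_sup_right (hcm g))
      have hy3 : (f (y ^ s)) ^ 3 = 1 := by
        rw [← map_pow, hf1]
        exact Subgroup.mem_sup_right h3
      have hfg : f ((y ^ s)⁻¹ * z ^ e) = f z * (f (y ^ s))⁻¹ := by
        rw [map_mul, map_inv, hfe]
        exact ((hcy z).inv_right.eq).symm
      refine xgoodstep_tool ρ ι hι N m hP h13 f ((y ^ s)⁻¹ * z ^ e) ?_ ?_ ?_ v ?_
      · intro g
        rw [hfg]
        exact ((hcz g).mul_right (hcy g).inv_right).eq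
      · rw [hfg, ← map_inv, ← map_mul, Ne, hf1]
        exact hs s
      · rw [hfg, (hcy z).inv_right.mul_pow, hfz3, inv_pow, hy3, inv_one, one_mul]
      · rw [map_mul, Module.End.mul_apply, hv, ← xgoodstep_pow ρ y hy s v,
          ← Module.End.mul_apply, ← map_mul, inv_mul_cancel, map_one, Module.End.one_apply]

end Pool.Agent.N9181

end

section

namespace Pool.Agent.N9181

open scoped commutatorElement

theorem xqtstep_pred {G : Type} [Group G] [Finite G] (N : ℕ) (hP : AP G N) :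
    (N - 1).Coprime N ∧ ∀ x : G, x ^ (N - 1) = x⁻¹ := by
  have hd := (ap_self N hP).dvd
  have hN := (ap_self N hP).pos
  obtain ⟨n, rfl⟩ : ∃ n, N = n + 1 := ⟨N - 1, by omega⟩
  refine ⟨by simp, fun x => ?_⟩
  have h : x ^ (n + 1) = 1 := orderOf_dvd_iff_pow_eq_one.1 ((orderOf_dvd_natCard x).trans hd)
  rw [Nat.add_sub_cancel, eq_inv_iff_mul_eq_one, ← pow_succ, h]

/-- an element that is central of order three modulo a normal subgroup fixes no vector -/
theorem xqtstep_tool {V : Type} [AddCommGroup V] [Module K V] [Module.Finite K V]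
    {G : Type} [Group G] [Finite G] [Group.IsSolvable G] (ρ : Representation K G V) (ι : V → G)
    (hι : Emb ρ ι) (N : ℕ) (hP : AP G N) (hirr : Irr ρ)
    (h13 : ∀ (g : G) (a : ℕ), g ^ (13 ^ a) = 1 → ρ g = 1) {T : Type} [Group T] (f : G →* T)
    (g : G) (hc : ∀ y, f y * f g = f g * f y) (h1 : f g ≠ 1) (h3 : (f g) ^ 3 = 1) :
    ∀ v, ρ g v = v → v = 0 := by
  obtain ⟨e, ho, hr, hf⟩ := xgoodstep_q ρ h13 g
  have hf' := hf T f h3
  obtain ⟨hN, hinv⟩ := xqtstep_pred N hP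
  rw [← hr]
  refine (ap_self N hP).rm1 V ρ ι hι hirr h13 (g ^ e) ho ⟨N - 1, hN, ?_⟩
  intro hj
  rw [hinv] at hj
  obtain ⟨y, hy⟩ := isConj_iff.1 hj
  have h := congrArg f hy
  rw [map_mul, map_mul, map_inv, map_inv, hf', hc y, mul_inv_cancel_right] at h
  apply h1
  calc f g = (f g) ^ 3 * ((f g)⁻¹ * (f g)⁻¹) := by group
    _ = (f g)⁻¹ * (f g)⁻¹ := by rw [h3, one_mul]
    _ = f g * (f g)⁻¹ := by rw [← h]
    _ = 1 := mul_inv_cancel _

/-- elements of `Q` act as real operators -/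
theorem xqtstep_real {V : Type} [AddCommGroup V] [Module K V] [Module.Finite K V]
    {G : Type} [Group G] [Finite G] [Group.IsSolvable G] (ρ : Representation K G V)
    (N : ℕ) (hP : AP G N) (B R Q : Subgroup G) (z : G) (hD : GD B R Q z)
    (hBC : B ≤ MonoidHom.ker ρ) (hi : 13 ∣ B.index)
    (h13 : ∀ (g : G) (a : ℕ), g ^ (13 ^ a) = 1 → ρ g = 1) (q : G) (hq : q ∈ Q) :
    RealOp ρ q := by
  have nR := hD.nR
  have nQ := hD.nQ
  set C : Subgroup G := MonoidHom.ker ρ with hC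
  have nC : C.Normal := MonoidHom.normal_ker ρ
  have nD : (R ⊓ C).Normal := inferInstance
  have nK : (Q ⊓ C).Normal := inferInstance
  have hKi : ¬ 13 ∣ (Q ⊓ C).index := xgoodstep_idx2 Q C nQ hD.idx (xgoodstep_idx ρ h13)
  have hDK : R ⊓ C ≤ Q ⊓ C := inf_le_inf_right C hD.le2
  obtain ⟨e, ho, hr, -⟩ := xgoodstep_q ρ h13 q
  obtain ⟨hN, hinv⟩ := xqtstep_pred N hP
  have hqR : q ^ e ∈ R := by
    obtain ⟨a, ha⟩ := hD.pw (q ^ e) (Q.pow_mem hq e)
    refine xgoodstep_mem R _ _ _ (xgoodstep_cop a _ ho) ha ?_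
    rw [pow_orderOf_eq_one]
    exact R.one_mem
  let f : G →* G ⧸ (R ⊓ C) := QuotientGroup.mk' (R ⊓ C)
  have hfs : Function.Surjective f := QuotientGroup.mk'_surjective _
  have hf1 : ∀ x, f x = 1 ↔ x ∈ R ⊓ C := fun x => QuotientGroup.eq_one_iff x
  have key : ∃ g : G, g * q ^ e * g⁻¹ * (q ^ e) ∈ C := by
    by_contra hno
    push Not at hno
    have h := rgrpQ N (ap_surj f hfs N hP) ((Q ⊓ C).map f) (nK.map f hfs) ?_ ?_ (f (q ^ e)) ?_
      (N - 1) hN ?_
    · have hle : Q ⊓ C ≤ R ⊓ C := by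
        intro k hk
        rw [← hf1]
        refine h (f k) ⟨k, hk, rfl⟩ ?_
        have hk2 : k * q ^ e * k⁻¹ * (q ^ e)⁻¹ ∈ R ⊓ C := by
          refine Subgroup.mem_inf.2 ⟨R.mul_mem (nR.conj_mem _ hqR k) (R.inv_mem hqR), ?_⟩
          have h5 := C.mul_mem hk.2 (nC.conj_mem _ (C.inv_mem hk.2) (q ^ e))
          simpa only [mul_assoc] using h5
        rw [← hf1] at hk2
        simp only [map_mul, map_inv] at hk2
        rw [mul_inv_eq_one, mul_inv_eq_iff_eq_mul] at hk2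
        exact hk2
      have heq : R ⊓ C = Q ⊓ C := le_antisymm hDK hle
      have hBD : B ≤ R ⊓ C := le_inf hD.le1 hBC
      rw [← Subgroup.relIndex_mul_index hBD] at hi
      rcases (Nat.Prime.dvd_mul fact13.out).1 hi with h6 | h6
      · exact xgoodstep_rel B _ R hBD inf_le_left hD.cop h6
      · rw [heq] at h6
        exact hKi h6
    · rintro ⟨_, k, hk, rfl⟩
      obtain ⟨a, ha⟩ := hD.pw k hk.1
      refine ⟨a, Subtype.ext ?_⟩
      show (f k) ^ 13 ^ a = 1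
      rw [← map_pow, hf1]
      exact ⟨ha, C.pow_mem hk.2 _⟩
    · exact fun h => hKi (h.trans (Subgroup.index_map_dvd _ hfs))
    · exact fun h => ho (h.trans (orderOf_map_dvd f _))
    · intro y hy
      obtain ⟨g, rfl⟩ := hfs y
      obtain ⟨k, hk, hk'⟩ := hy
      rw [← map_pow, hinv, ← map_inv, ← map_inv, ← map_mul, ← map_mul, ← map_mul, inv_inv] at hk'
      have h7 : k⁻¹ * (g * q ^ e * g⁻¹ * q ^ e) ∈ R ⊓ C := by
        rw [← hf1, map_mul, map_inv, hk', inv_mul_cancel]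
      apply hno g
      have h8 := C.mul_mem hk.2 h7.2
      simpa only [mul_inv_cancel_left] using h8
  obtain ⟨g, hg⟩ := key
  intro M
  have h9 : ρ (g * q ^ e * g⁻¹) = ρ q⁻¹ := by
    have h10 : ρ (g * q ^ e * g⁻¹) * ρ q = 1 := by
      rw [← hr, ← map_mul]
      exact MonoidHom.mem_ker.1 hg
    calc ρ (g * q ^ e * g⁻¹) = ρ (g * q ^ e * g⁻¹) * ρ q * ρ q⁻¹ := by
          rw [mul_assoc (ρ _), ← map_mul ρ q, mul_inv_cancel, map_one, mul_one]
      _ = ρ q⁻¹ := by rw [h10, one_mul]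
  rw [← hr, ← h9]
  exact bt_isConj ρ _ _ (isConj_iff.2 ⟨g, rfl⟩) M

theorem good_baseQ {V : Type} [AddCommGroup V] [Module K V] [Module.Finite K V]
    {G : Type} [Group G] [Finite G] [Group.IsSolvable G] (ρ : Representation K G V) (ι : V → G) (hι : Emb ρ ι) (N : ℕ) (hP : AP G N) (hirr : Irr ρ)
    (B : Subgroup G) (hB : ∀ g, g ∈ B ↔ ∃ v, ι v = g) (hi : ¬ 13 ∣ B.index) : Good G := by
  obtain ⟨nB, pB, hBC, hcen⟩ := xgoodstep_B ρ ι hι B hB
  have h13 : ∀ (g : G) (a : ℕ), g ^ (13 ^ a) = 1 → ρ g = 1 := by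
    intro g a hg
    refine MonoidHom.mem_ker.1 (hBC (xgoodstep_mem B g _ _ (xgoodstep_cop a _ hi) ?_
      (B.pow_index_mem g)))
    rw [hg]
    exact B.one_mem
  obtain ⟨-, -, ⟨y, hy⟩, -⟩ := copMQ ρ ι hι N hP hirr h13
  obtain ⟨R, nR, hle, hc, hpw⟩ := centralHall B (MonoidHom.ker ρ) (MonoidHom.normal_ker ρ) hBC pB
    hcen (fun h => hi (h.trans (Subgroup.relIndex_dvd_index_of_le hBC)))
  obtain ⟨h3, hcm⟩ := xgoodstep_scal ρ y 1 (by simpa only [pow_one] using hy)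
  refine ⟨R, MonoidHom.ker ρ, y, nR, MonoidHom.normal_ker ρ, bot_le, hle, ?_, hpw,
    xgoodstep_idx ρ h13, ?_, h3, hcm⟩
  · rw [Subgroup.relIndex_bot_left]
    exact hc
  · intro h
    obtain ⟨v, hv⟩ := hirr.1
    have h1 := hy v
    rw [MonoidHom.mem_ker.1 h, Module.End.one_apply] at h1
    have h2 : ((3 : K) - 1) • v = 0 := by rw [sub_smul, ← h1, one_smul, sub_self]
    rcases smul_eq_zero.1 h2 with h4 | h4
    · revert h4; decide
    · exact hv h4

theorem good_stepQ {V : Type} [AddCommGroup V] [Module K V] [Module.Finite K V]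
    {G : Type} [Group G] [Finite G] [Group.IsSolvable G] (ρ : Representation K G V) (ι : V → G) (hι : Emb ρ ι) (N : ℕ) (hP : AP G N) (hirr : Irr ρ)
    (B R Q : Subgroup G) (hB : ∀ g, g ∈ B ↔ ∃ v, ι v = g) (z : G) (hD : GD B R Q z)
    (hi : 13 ∣ B.index) (h13 : ∀ (g : G) (a : ℕ), g ^ (13 ^ a) = 1 → ρ g = 1) : Good G := by
  obtain ⟨-, pB, hBC, hcen⟩ := xgoodstep_B ρ ι hι B hB
  obtain ⟨hcop, hreal, ⟨y, hy⟩, -⟩ := copMQ ρ ι hι N hP hirr h13
  have nR := hD.nR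
  have nQ := hD.nQ
  have hRe := xqtstep_real ρ N hP B R Q z hD hBC hi h13
  have hCi := xgoodstep_idx ρ h13
  have hsc := fun (t : G) (s : ℕ) => xgoodstep_scal ρ t s
  have hmem : ∀ t, t ∈ MonoidHom.ker ρ ↔ ρ t = 1 := fun t => MonoidHom.mem_ker
  have nC : (MonoidHom.ker ρ).Normal := MonoidHom.normal_ker ρ
  generalize MonoidHom.ker ρ = C at *
  by_cases hs : ∃ s : ℕ, z * (y ^ s)⁻¹ ∈ Q ⊔ C
  · obtain ⟨s, hs⟩ := hs
    obtain ⟨q, hq, c, hc, hqc'⟩ := Subgroup.mem_sup_of_normal_right.1 hs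
    have hz : c * y ^ s = q⁻¹ * z := by
      rw [eq_inv_mul_iff_mul_eq, ← mul_assoc, hqc', inv_mul_cancel_right]
    obtain ⟨h3, hcm⟩ := hsc (c * y ^ s) s (by
      intro v
      rw [map_mul, (hmem c).1 hc, one_mul, xgoodstep_pow ρ y hy])
    have hf : QuotientGroup.mk' Q (c * y ^ s) = QuotientGroup.mk' Q z := by
      have h1 : QuotientGroup.mk' Q q = 1 := (QuotientGroup.eq_one_iff _).2 hq
      rw [hz, map_mul, map_inv, h1, inv_one, one_mul]
    have hBD : B ≤ R ⊓ C := le_inf hD.le1 hBC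
    obtain ⟨R0, nR0, hle, hc0, hpw⟩ := centralHall B (R ⊓ C) inferInstance hBD pB
      (fun b hb d hd => hcen b hb d hd.2) (xgoodstep_rel B _ R hBD inf_le_left hD.cop)
    refine ⟨R0, Q ⊓ C, c * y ^ s, nR0, inferInstance, bot_le,
      hle.trans (inf_le_inf_right C hD.le2), ?_, ?_, xgoodstep_idx2 Q C nQ hD.idx hCi, ?_,
      ⟨?_, h3⟩, fun g => ⟨?_, hcm g⟩⟩
    · rw [Subgroup.relIndex_bot_left]
      exact hc0
    · intro k hk
      obtain ⟨a, ha⟩ := hD.pw k hk.1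
      obtain ⟨b, hb⟩ := hpw (k ^ 13 ^ a) ⟨ha, C.pow_mem hk.2 _⟩
      exact ⟨a + b, by rw [pow_add, pow_mul]; exact hb⟩
    · intro h
      apply hD.zn
      have h1 := Q.mul_mem hq h.1
      rw [hz, mul_inv_cancel_left] at h1
      exact h1
    · have h1 : QuotientGroup.mk' Q (z ^ 3) = 1 := (QuotientGroup.eq_one_iff _).2 hD.z3
      have h2 : QuotientGroup.mk' Q ((c * y ^ s) ^ 3) = 1 := by
        rw [map_pow, hf, ← map_pow, h1]
      exact (QuotientGroup.eq_one_iff _).1 h2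
    · have h1 := (xgoodstep_comm Q g z).1 (hD.zc g)
      rw [← hf] at h1
      exact (xgoodstep_comm Q g _).2 h1
  · exfalso
    push Not at hs
    obtain ⟨e, a, hx, -, hxf⟩ := p_part 3 (by norm_num) z
    have hz3 : ∀ (S : Subgroup G) [S.Normal], Q ≤ S → (QuotientGroup.mk' S z) ^ 3 = 1 := by
      intro S _ hS
      rw [← map_pow]
      exact (QuotientGroup.eq_one_iff _).2 (hS hD.z3)
    refine sign3 ρ hirr.1 (hbal_of_hreal ρ hcop hreal) ⟨y, hy⟩ (z ^ e) a hx ?_ ?_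
    · intro i hi1
      refine bal_of_realOp ρ hcop _ (fun k => hRe _ (Q.pow_mem ?_ k))
      obtain ⟨j, rfl⟩ : ∃ j, i = j + 1 := ⟨i - 1, by omega⟩
      have h : (z ^ e) ^ 3 ^ (j + 1) = (z ^ 3) ^ (e * 3 ^ j) := by
        rw [← pow_mul, ← pow_mul]
        congr 1
        ring
      rw [h]
      exact Q.pow_mem hD.z3 _
    · intro s v hv
      have nS : (Q ⊔ C).Normal := inferInstance
      let f : G →* G ⧸ (Q ⊔ C) := QuotientGroup.mk' (Q ⊔ C)
      have hf1 : ∀ x, f x = 1 ↔ x ∈ Q ⊔ C := fun x => QuotientGroup.eq_one_iff x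
      have hfz3 : (f z) ^ 3 = 1 := hz3 _ le_sup_left
      have hfe : f (z ^ e) = f z := hxf _ f 1 (by rw [pow_one]; exact hfz3)
      obtain ⟨h3, hcm⟩ := hsc (y ^ s) s (xgoodstep_pow ρ y hy s)
      have hcz : ∀ g, Commute (f g) (f z) := fun g =>
        (xgoodstep_comm (Q ⊔ C) g z).1 (Subgroup.mem_sup_left (hD.zc g))
      have hcy : ∀ g, Commute (f g) (f (y ^ s)) := fun g =>
        (xgoodstep_comm (Q ⊔ C) g _).1 (Subgroup.mem_sup_right (hcm g))
      have hy3 : (f (y ^ s)) ^ 3 = 1 := by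
        rw [← map_pow, hf1]
        exact Subgroup.mem_sup_right h3
      have hfg : f ((y ^ s)⁻¹ * z ^ e) = f z * (f (y ^ s))⁻¹ := by
        rw [map_mul, map_inv, hfe]
        exact ((hcy z).inv_right.eq).symm
      refine xqtstep_tool ρ ι hι N hP hirr h13 f ((y ^ s)⁻¹ * z ^ e) ?_ ?_ ?_ v ?_
      · intro g
        rw [hfg]
        exact ((hcz g).mul_right (hcy g).inv_right).eq
      · rw [hfg, ← map_inv, ← map_mul, Ne, hf1]
        exact hs s
      · rw [hfg, (hcy z).inv_right.mul_pow, hfz3, inv_pow, hy3, inv_one, one_mul]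
      · rw [map_mul, Module.End.mul_apply, hv, ← xgoodstep_pow ρ y hy s v,
          ← Module.End.mul_apply, ← map_mul, inv_mul_cancel, map_one, Module.End.one_apply]

end Pool.Agent.N9181

end

section

namespace Pool.Agent.N9181

open scoped commutatorElement

theorem xgoodind_pull {G : Type} [Group G] (B : Subgroup G) [B.Normal] (h : Good (G ⧸ B)) :
    ∃ (R Q : Subgroup G) (z : G), GD B R Q z := by
  obtain ⟨R, Q, z, hD⟩ := h
  obtain ⟨z0, rfl⟩ := QuotientGroup.mk'_surjective B z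
  have hs := QuotientGroup.mk'_surjective B
  have hk : B = (⊥ : Subgroup (G ⧸ B)).comap (QuotientGroup.mk' B) := by
    rw [MonoidHom.comap_bot, QuotientGroup.ker_mk']
  refine ⟨R.comap (QuotientGroup.mk' B), Q.comap (QuotientGroup.mk' B), z0, hD.nR.comap _,
    hD.nQ.comap _, hk.le.trans (Subgroup.comap_mono bot_le), Subgroup.comap_mono hD.le2, ?_,
    fun k hk => ?_, ?_, hD.zn, ?_, fun g => ?_⟩
  · have e : B.relIndex (R.comap (QuotientGroup.mk' B)) = (⊥ : Subgroup (G ⧸ B)).relIndex R := by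
      have e1 := (⊥ : Subgroup (G ⧸ B)).relIndex_comap (QuotientGroup.mk' B)
        (R.comap (QuotientGroup.mk' B))
      rwa [← hk, Subgroup.map_comap_eq_self_of_surjective hs] at e1
    rw [e]
    exact hD.cop
  · obtain ⟨a, ha⟩ := hD.pw _ hk
    exact ⟨a, by rw [Subgroup.mem_comap, map_pow]; exact ha⟩
  · rw [Subgroup.index_comap_of_surjective _ hs]
    exact hD.idx
  · rw [Subgroup.mem_comap, map_pow]
    exact hD.z3
  · rw [Subgroup.mem_comap, map_commutatorElement]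
    exact hD.zc _

theorem xgoodind_ind (N m n : ℕ) : ∀ (G : Type) [Group G] [Finite G] [Group.IsSolvable G],
    Nat.card G = n → PP G N m → 13 ∣ Nat.card G → Good G := by
  induction n using Nat.strong_induction_on with
  | _ n ih =>
    intro G _ _ _ hn hP h
    have hne : (⊤ : Subgroup G) ≠ ⊥ := fun e => by
      rw [← Subgroup.card_top, e, Subgroup.card_bot] at h
      norm_num at h
    obtain ⟨B, p, hB, -, hB0, hp, hc, hpw, hmin⟩ := exists_min (⊤ : Subgroup G) inferInstance hne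
    have hq : 13 ∣ B.index → ∃ (R Q : Subgroup G) (z : G), GD B R Q z := fun hi => by
      refine xgoodind_pull B (ih (Nat.card (G ⧸ B)) ?_ _ rfl
        (pp_surj _ (QuotientGroup.mk'_surjective B) N m hP) hi)
      rw [← hn, ← B.card_mul_index]
      have h1 : 1 < Nat.card B := (Subgroup.one_lt_card_iff_ne_bot B).2 hB0
      have h2 : 0 < B.index := Nat.pos_of_ne_zero Subgroup.index_ne_zero_of_finite
      exact (lt_mul_iff_one_lt_left h2).2 h1
    by_cases h13 : p = 13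
    · subst h13
      obtain ⟨V, _, _, _, ρ, ι, hι, hBι⟩ := exists_emb B hB hc hpw
      have hirr := emb_irr ρ ι hι B hBι hB0 hmin
      by_cases hi : 13 ∣ B.index
      · obtain ⟨R, Q, z, hD⟩ := hq hi
        exact good_step ρ ι hι N m hP hirr B R Q hBι z hD hi
          (modular ρ ι hι N m hP hirr B R Q hBι z hD)
      · exact good_base ρ ι hι N m hP hirr B hBι hi
    · have hB13 : ¬ 13 ∣ Nat.card B := fun hd => by
        obtain ⟨x, hx⟩ := exists_prime_orderOf_dvd_card' 13 hd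
        have h1 : x ^ p = 1 := Subtype.ext (hpw x x.2)
        have h2 := orderOf_dvd_of_pow_eq_one h1
        rw [hx] at h2
        exact h13 ((Nat.prime_dvd_prime_iff_eq fact13.out hp).1 h2).symm
      have hi : 13 ∣ B.index := by
        rw [← B.card_mul_index] at h
        exact (fact13.out.dvd_mul.1 h).resolve_left hB13
      obtain ⟨R, Q, z, hD⟩ := hq hi
      refine ⟨R, Q, z, hD.nR, hD.nQ, bot_le, hD.le2, fun hd => ?_, hD.pw, hD.idx, hD.zn, hD.z3,
        hD.zc⟩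
      rw [← Subgroup.relIndex_mul_relIndex ⊥ B R bot_le hD.le1, Subgroup.relIndex_bot_left] at hd
      exact (fact13.out.dvd_mul.1 hd).elim hB13 hD.cop

theorem good {G : Type} [Group G] [Finite G] [Group.IsSolvable G] (N m : ℕ) (hP : PP G N m) (h : 13 ∣ Nat.card G) : Good G :=
  xgoodind_ind N m _ G rfl hP h

theorem fpf_data {G : Type} [Group G] [Finite G] [Group.IsSolvable G] (N m : ℕ) (hP : PP G N m) (h : 13 ∣ Nat.card G) :
    ∃ (G' : Type) (_ : Group G') (_ : Finite G') (π : G →* G') (Q : Subgroup G') (z : G'),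
      Function.Surjective π ∧ ¬ 13 ∣ Nat.card π.ker ∧ Q.Normal ∧ IsPGroup 13 Q ∧
      ¬ 13 ∣ Q.index ∧ z ^ 3 = 1 ∧ ∀ x ∈ Q, x * z = z * x → x = 1 := by
  obtain ⟨R, Q, z, hD⟩ := good N m hP h
  have := hD.nR
  have hs := QuotientGroup.mk'_surjective R
  have hP' := pp_surj _ hs N m hP
  have hker : (QuotientGroup.mk' R).ker ≤ Q := by
    rw [QuotientGroup.ker_mk']
    exact hD.le2
  have hQn : (Q.map (QuotientGroup.mk' R)).Normal := hD.nQ.map _ hs
  have hQp : IsPGroup 13 (Q.map (QuotientGroup.mk' R)) := by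
    rintro ⟨_, k, hk, rfl⟩
    obtain ⟨a, ha⟩ := hD.pw k hk
    refine ⟨a, Subtype.ext ?_⟩
    change QuotientGroup.mk' R k ^ 13 ^ a = 1
    rw [← map_pow]
    exact (QuotientGroup.eq_one_iff _).2 ha
  have hQi : ¬ 13 ∣ (Q.map (QuotientGroup.mk' R)).index := by
    rw [Subgroup.index_map_eq _ hs hker]
    exact hD.idx
  generalize hQ' : Q.map (QuotientGroup.mk' R) = Q' at hQn hQp hQi
  have hmem : ∀ g, QuotientGroup.mk' Q' (QuotientGroup.mk' R g) = 1 ↔ g ∈ Q := fun g => by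
    rw [QuotientGroup.mk'_apply, QuotientGroup.eq_one_iff, ← hQ', ← Subgroup.mem_comap,
      Subgroup.comap_map_eq_self hker]
  have hz3 : QuotientGroup.mk' Q' (QuotientGroup.mk' R z) ^ 3 = 1 := by
    rw [← map_pow, ← map_pow]
    exact (hmem _).2 hD.z3
  obtain ⟨e, a, ha, -, hf⟩ := p_part 3 Nat.prime_three (QuotientGroup.mk' R z)
  have h1 := hf _ (QuotientGroup.mk' Q') 1 (by rw [pow_one]; exact hz3)
  generalize QuotientGroup.mk' R z ^ e = c at ha h1
  have hc3 : c ^ 3 = 1 := by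
    have h2 : c ^ 3 ∈ Q' := by
      rw [← QuotientGroup.eq_one_iff, ← QuotientGroup.mk'_apply, map_pow, h1, hz3]
    obtain ⟨b, hb⟩ := hQp ⟨_, h2⟩
    have h3 : (c ^ 3) ^ 13 ^ b = 1 := congrArg Subtype.val hb
    have h4 : (c ^ 3) ^ 3 ^ a = 1 := by rw [← pow_mul, mul_comm, pow_mul, ha, one_pow]
    exact orderOf_eq_one_iff.1 (Nat.eq_one_of_dvd_coprimes
      (Nat.Coprime.pow b a (by norm_num : Nat.Coprime 13 3)) (orderOf_dvd_of_pow_eq_one h3)
      (orderOf_dvd_of_pow_eq_one h4))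
  refine ⟨G ⧸ R, inferInstance, inferInstance, QuotientGroup.mk' R, Q', c, hs, ?_, hQn, hQp, hQi,
    hc3, rgrp N m hP' Q' hQn hQp hQi c (fun hd => ?_) (N - 1) ?_ fun g hg => ?_⟩
  · rw [QuotientGroup.ker_mk', ← Subgroup.relIndex_bot_left]
    exact hD.cop
  · have := hd.trans (orderOf_dvd_of_pow_eq_one hc3)
    norm_num at this
  · exact (Nat.coprime_self_sub_left hP.1.2.1).2 (Nat.coprime_one_left N)
  · obtain ⟨g, rfl⟩ := hs g
    have h2 : c ^ (N - 1) * c = 1 := by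
      rw [← pow_succ, Nat.sub_add_cancel hP.1.2.1]
      exact orderOf_dvd_iff_pow_eq_one.1 ((orderOf_dvd_natCard c).trans hP'.1.1)
    rw [eq_inv_of_mul_eq_one_left h2, inv_inv, ← QuotientGroup.eq_one_iff,
      ← QuotientGroup.mk'_apply] at hg
    have h3 := (hmem _).2 (hD.zc g)
    rw [map_commutatorElement, map_commutatorElement, commutatorElement_eq_one_iff_mul_comm] at h3
    simp only [map_mul, map_inv, h1] at hg
    rw [h3, mul_inv_cancel_right] at hg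
    rw [pow_succ, pow_two, hg, one_mul] at hz3
    exact hD.zn ((hmem z).1 hz3)

end Pool.Agent.N9181

end

section

namespace Pool.Agent.N9181

open scoped commutatorElement

theorem xqtind_ind (N n : ℕ) : ∀ (G : Type) [Group G] [Finite G] [Group.IsSolvable G],
    Nat.card G = n → AP G N → 13 ∣ Nat.card G → Good G := by
  induction n using Nat.strong_induction_on with
  | _ n ih =>
    intro G _ _ _ hn hP h
    have hne : (⊤ : Subgroup G) ≠ ⊥ := fun e => by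
      rw [← Subgroup.card_top, e, Subgroup.card_bot] at h
      norm_num at h
    obtain ⟨B, p, hB, -, hB0, hp, hc, hpw, hmin⟩ := exists_min (⊤ : Subgroup G) inferInstance hne
    have hq : 13 ∣ B.index → ∃ (R Q : Subgroup G) (z : G), GD B R Q z := fun hi => by
      refine xgoodind_pull B (ih (Nat.card (G ⧸ B)) ?_ _ rfl
        (ap_surj _ (QuotientGroup.mk'_surjective B) N hP) hi)
      rw [← hn, ← B.card_mul_index]
      have h1 : 1 < Nat.card B := (Subgroup.one_lt_card_iff_ne_bot B).2 hB0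
      have h2 : 0 < B.index := Nat.pos_of_ne_zero Subgroup.index_ne_zero_of_finite
      exact (lt_mul_iff_one_lt_left h2).2 h1
    by_cases h13 : p = 13
    · subst h13
      obtain ⟨V, _, _, _, ρ, ι, hι, hBι⟩ := exists_emb B hB hc hpw
      have hirr := emb_irr ρ ι hι B hBι hB0 hmin
      by_cases hi : 13 ∣ B.index
      · obtain ⟨R, Q, z, hD⟩ := hq hi
        exact good_stepQ ρ ι hι N hP hirr B R Q hBι z hD hi
          (modularQ ρ ι hι N hP hirr B R Q hBι z hD)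
      · exact good_baseQ ρ ι hι N hP hirr B hBι hi
    · have hB13 : ¬ 13 ∣ Nat.card B := fun hd => by
        obtain ⟨x, hx⟩ := exists_prime_orderOf_dvd_card' 13 hd
        have h1 : x ^ p = 1 := Subtype.ext (hpw x x.2)
        have h2 := orderOf_dvd_of_pow_eq_one h1
        rw [hx] at h2
        exact h13 ((Nat.prime_dvd_prime_iff_eq fact13.out hp).1 h2).symm
      have hi : 13 ∣ B.index := by
        rw [← B.card_mul_index] at h
        exact (fact13.out.dvd_mul.1 h).resolve_left hB13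
      obtain ⟨R, Q, z, hD⟩ := hq hi
      refine ⟨R, Q, z, hD.nR, hD.nQ, bot_le, hD.le2, fun hd => ?_, hD.pw, hD.idx, hD.zn, hD.z3,
        hD.zc⟩
      rw [← Subgroup.relIndex_mul_relIndex ⊥ B R bot_le hD.le1, Subgroup.relIndex_bot_left] at hd
      exact (fact13.out.dvd_mul.1 hd).elim hB13 hD.cop

theorem goodQ {G : Type} [Group G] [Finite G] [Group.IsSolvable G] (N : ℕ) (hP : AP G N) (h : 13 ∣ Nat.card G) : Good G :=
  xqtind_ind N _ G rfl hP h

theorem fpf_dataQ {G : Type} [Group G] [Finite G] [Group.IsSolvable G] (N : ℕ) (hP : AP G N) (h : 13 ∣ Nat.card G) :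
    ∃ (G' : Type) (_ : Group G') (_ : Finite G') (π : G →* G') (Q : Subgroup G') (z : G'),
      Function.Surjective π ∧ ¬ 13 ∣ Nat.card π.ker ∧ Q.Normal ∧ IsPGroup 13 Q ∧
      ¬ 13 ∣ Q.index ∧ z ^ 3 = 1 ∧ ∀ x ∈ Q, x * z = z * x → x = 1 := by
  obtain ⟨R, Q, z, hD⟩ := goodQ N hP h
  have := hD.nR
  have hs := QuotientGroup.mk'_surjective R
  have hP' := ap_surj _ hs N hP
  have hker : (QuotientGroup.mk' R).ker ≤ Q := by
    rw [QuotientGroup.ker_mk']
    exact hD.le2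
  have hQn : (Q.map (QuotientGroup.mk' R)).Normal := hD.nQ.map _ hs
  have hQp : IsPGroup 13 (Q.map (QuotientGroup.mk' R)) := by
    rintro ⟨_, k, hk, rfl⟩
    obtain ⟨a, ha⟩ := hD.pw k hk
    refine ⟨a, Subtype.ext ?_⟩
    change QuotientGroup.mk' R k ^ 13 ^ a = 1
    rw [← map_pow]
    exact (QuotientGroup.eq_one_iff _).2 ha
  have hQi : ¬ 13 ∣ (Q.map (QuotientGroup.mk' R)).index := by
    rw [Subgroup.index_map_eq _ hs hker]
    exact hD.idx
  generalize hQ' : Q.map (QuotientGroup.mk' R) = Q' at hQn hQp hQi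
  have hmem : ∀ g, QuotientGroup.mk' Q' (QuotientGroup.mk' R g) = 1 ↔ g ∈ Q := fun g => by
    rw [QuotientGroup.mk'_apply, QuotientGroup.eq_one_iff, ← hQ', ← Subgroup.mem_comap,
      Subgroup.comap_map_eq_self hker]
  have hz3 : QuotientGroup.mk' Q' (QuotientGroup.mk' R z) ^ 3 = 1 := by
    rw [← map_pow, ← map_pow]
    exact (hmem _).2 hD.z3
  obtain ⟨e, a, ha, -, hf⟩ := p_part 3 Nat.prime_three (QuotientGroup.mk' R z)
  have h1 := hf _ (QuotientGroup.mk' Q') 1 (by rw [pow_one]; exact hz3)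
  generalize QuotientGroup.mk' R z ^ e = c at ha h1
  have hc3 : c ^ 3 = 1 := by
    have h2 : c ^ 3 ∈ Q' := by
      rw [← QuotientGroup.eq_one_iff, ← QuotientGroup.mk'_apply, map_pow, h1, hz3]
    obtain ⟨b, hb⟩ := hQp ⟨_, h2⟩
    have h3 : (c ^ 3) ^ 13 ^ b = 1 := congrArg Subtype.val hb
    have h4 : (c ^ 3) ^ 3 ^ a = 1 := by rw [← pow_mul, mul_comm, pow_mul, ha, one_pow]
    exact orderOf_eq_one_iff.1 (Nat.eq_one_of_dvd_coprimes
      (Nat.Coprime.pow b a (by norm_num : Nat.Coprime 13 3)) (orderOf_dvd_of_pow_eq_one h3)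
      (orderOf_dvd_of_pow_eq_one h4))
  refine ⟨G ⧸ R, inferInstance, inferInstance, QuotientGroup.mk' R, Q', c, hs, ?_, hQn, hQp, hQi,
    hc3, rgrpQ N hP' Q' hQn hQp hQi c (fun hd => ?_) (N - 1) ?_ fun g hg => ?_⟩
  · rw [QuotientGroup.ker_mk', ← Subgroup.relIndex_bot_left]
    exact hD.cop
  · have := hd.trans (orderOf_dvd_of_pow_eq_one hc3)
    norm_num at this
  · exact (Nat.coprime_self_sub_left (ap_self N hP).pos).2 (Nat.coprime_one_left N)
  · obtain ⟨g, rfl⟩ := hs g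
    have h2 : c ^ (N - 1) * c = 1 := by
      rw [← pow_succ, Nat.sub_add_cancel (ap_self N hP).pos]
      exact orderOf_dvd_iff_pow_eq_one.1 ((orderOf_dvd_natCard c).trans (ap_self N hP').dvd)
    rw [eq_inv_of_mul_eq_one_left h2, inv_inv, ← QuotientGroup.eq_one_iff,
      ← QuotientGroup.mk'_apply] at hg
    have h3 := (hmem _).2 (hD.zc g)
    rw [map_commutatorElement, map_commutatorElement, commutatorElement_eq_one_iff_mul_comm] at h3
    simp only [map_mul, map_inv, h1] at hg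
    rw [h3, mul_inv_cancel_right] at hg
    rw [pow_succ, pow_two, hg, one_mul] at hz3
    exact hD.zn ((hmem z).1 hz3)

end Pool.Agent.N9181

end

section

namespace Pool.Agent.MP_9181f8_al

open Polynomial

/-- An irreducible representation is trivial on a normal subgroup, or the character vanishes on
every element that is conjugate to its whole coset. -/
lemma dich {G : Type} [Group G] [Finite G] (N : Subgroup G) [N.Normal] {V : Type} [AddCommGroup V]
    [Module ℂ V] [FiniteDimensional ℂ V] (ρ : Representation ℂ G V) [ρ.IsIrreducible] :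
    (∀ n ∈ N, ρ n = 1) ∨ ∀ x : G, (∀ n ∈ N, IsConj (x * n) x) → ρ.character x = 0 := by
  classical
  let _ : Fintype N := Fintype.ofFinite N
  let E : V →ₗ[ℂ] V := ∑ n : N, ρ n
  have hE : ∀ g : G, E * ρ g = ρ g * E := by
    intro g
    simp only [E, Finset.sum_mul, Finset.mul_sum, ← map_mul]
    rw [← Equiv.sum_comp (MulAut.conjNormal g).toEquiv]
    refine Finset.sum_congr rfl fun n _ => ?_
    simp
  let F : ρ.IntertwiningMap ρ := ⟨E, hE⟩
  rcases Representation.IsIrreducible.injective_or_eq_zero F with h | h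
  · left
    intro n hn
    have h1 : E * ρ n = E := by
      simp only [E, Finset.sum_mul, ← map_mul]
      rw [← Equiv.sum_comp (Equiv.mulRight (⟨n, hn⟩ : N)) (fun m : N => ρ m)]
      rfl
    ext v
    apply h
    exact LinearMap.congr_fun h1 v
  · right
    intro x hx
    have h0 : E = 0 := congrArg Representation.IntertwiningMap.toLinearMap h
    have h1 : ∑ n : N, ρ.character (x * n) = 0 := by
      simp only [Representation.character, map_mul]
      rw [← map_sum, ← Finset.mul_sum]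
      show LinearMap.trace ℂ V (ρ x * E) = 0
      rw [h0, mul_zero, map_zero]
    have h2 : ∀ n : N, ρ.character (x * n) = ρ.character x := by
      intro n
      obtain ⟨c, hc⟩ := isConj_iff.1 (hx n n.2)
      rw [← ρ.char_conj (x * n) c, hc]
    simp only [h2, Finset.sum_const, Finset.card_univ, nsmul_eq_mul, mul_eq_zero,
      Nat.cast_eq_zero, Fintype.card_ne_zero, false_or] at h1
    exact h1

/-- The trace of a polynomial in an operator of finite order lies in any additive subgroup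
containing the values of the polynomial at the roots of unity. -/
lemma trace_mem {V : Type} [AddCommGroup V] [Module ℂ V] [FiniteDimensional ℂ V]
    (T : Module.End ℂ V) {n : ℕ} (hT : T ^ n = 1) (Q : ℂ[X]) (hQ : 0 < Q.degree)
    (S : AddSubgroup ℂ) (hS : ∀ z : ℂ, z ^ n = 1 → Q.eval z ∈ S) :
    LinearMap.trace ℂ V (aeval T Q) ∈ S := by
  rw [Module.End.trace_eq_sum_roots_charpoly_of_splits (IsAlgClosed.splits _)]
  refine S.multiset_sum_mem _ fun μ hμ => ?_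
  have h1 : (LinearMap.charpoly (aeval T Q)).IsRoot μ := (mem_roots'.1 hμ).2
  rw [← Module.End.hasEigenvalue_iff_isRoot_charpoly, Module.End.hasEigenvalue_iff_mem_spectrum,
    spectrum.map_polynomial_aeval_of_degree_pos T Q hQ] at h1
  obtain ⟨z, hz, rfl⟩ := h1
  refine hS z ?_
  have h2 := spectrum.pow_mem_pow T n hz
  rw [hT] at h2
  rw [← Module.End.hasEigenvalue_iff_mem_spectrum] at h2
  obtain ⟨v, hv⟩ := h2.exists_hasEigenvector
  have h3 := hv.apply_eq_smul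
  have h4 : (z ^ n - 1) • v = 0 := by
    rw [sub_smul, ← h3]; simp
  rcases smul_eq_zero.1 h4 with h | h
  · exact sub_eq_zero.1 h
  · exact absurd h hv.2

/-- The rational span of `1` and `s`. -/
def quad (s : ℂ) : AddSubgroup ℂ where
  carrier := {z | ∃ α β : ℚ, z = α + β * s}
  add_mem' := by
    rintro _ _ ⟨a, b, rfl⟩ ⟨c, d, rfl⟩
    exact ⟨a + c, b + d, by push_cast; ring⟩
  zero_mem' := ⟨0, 0, by simp⟩
  neg_mem' := by
    rintro _ ⟨a, b, rfl⟩
    exact ⟨-a, -b, by push_cast; ring⟩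

lemma adjoin_quad {ι : Type} (χ : ι → ℂ) (s : ℂ) (h : ∀ g, χ g ∈ quad s) :
    IntermediateField.adjoin ℚ (Set.range χ) = ⊥ ∨
      IntermediateField.adjoin ℚ (Set.range χ) = IntermediateField.adjoin ℚ {s} := by
  by_cases hb : IntermediateField.adjoin ℚ (Set.range χ) = ⊥
  · exact Or.inl hb
  right
  apply le_antisymm
  · rw [IntermediateField.adjoin_le_iff]
    rintro _ ⟨g, rfl⟩
    obtain ⟨a, b, hab⟩ := h g
    rw [hab]
    exact add_mem (SubfieldClass.ratCast_mem _ a)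
      (mul_mem (SubfieldClass.ratCast_mem _ b) (IntermediateField.mem_adjoin_simple_self ℚ s))
  · rw [IntermediateField.adjoin_simple_le_iff]
    have : ∃ g, χ g ∉ (⊥ : IntermediateField ℚ ℂ) := by
      by_contra hc
      push Not at hc
      apply hb
      rw [eq_bot_iff, IntermediateField.adjoin_le_iff]
      rintro _ ⟨g, rfl⟩
      exact hc g
    obtain ⟨g, hg⟩ := this
    obtain ⟨a, b, hab⟩ := h g
    have hb0 : (b : ℂ) ≠ 0 := by
      intro h0
      apply hg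
      rw [hab, h0, zero_mul, add_zero]
      exact SubfieldClass.ratCast_mem _ a
    have hs : s = (χ g - a) / b := by
      rw [hab]; field_simp; ring
    rw [hs]
    exact div_mem (sub_mem (IntermediateField.subset_adjoin ℚ _ ⟨g, rfl⟩)
      (SubfieldClass.ratCast_mem _ a)) (SubfieldClass.ratCast_mem _ b)

lemma six_mem {s : ℂ} (hs : s ^ 2 = -3) {z : ℂ} (hz : z ^ 6 = 1) : z ∈ quad s := by
  have h : (z - 1) * (z + 1) * (2 * z - 1 - s) * (2 * z - 1 + s) * (2 * z + 1 - s) *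
      (2 * z + 1 + s) = 0 := by
    have e1 : (2 * z - 1 - s) * (2 * z - 1 + s) = 4 * (z ^ 2 - z + 1) := by
      linear_combination -hs
    have e2 : (2 * z + 1 - s) * (2 * z + 1 + s) = 4 * (z ^ 2 + z + 1) := by
      linear_combination -hs
    calc _ = (z - 1) * (z + 1) * ((2 * z - 1 - s) * (2 * z - 1 + s)) *
        ((2 * z + 1 - s) * (2 * z + 1 + s)) := by ring
      _ = 16 * (z ^ 6 - 1) := by rw [e1, e2]; ring
      _ = 0 := by rw [hz]; ring
  simp only [mul_eq_zero] at h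
  rcases h with ((((h | h) | h) | h) | h) | h
  · exact ⟨1, 0, by push_cast; linear_combination h⟩
  · exact ⟨-1, 0, by push_cast; linear_combination h⟩
  · exact ⟨1 / 2, 1 / 2, by push_cast; linear_combination h / 2⟩
  · exact ⟨1 / 2, -1 / 2, by push_cast; linear_combination h / 2⟩
  · exact ⟨-1 / 2, 1 / 2, by push_cast; linear_combination h / 2⟩
  · exact ⟨-1 / 2, -1 / 2, by push_cast; linear_combination h / 2⟩

lemma gauss13 {s : ℂ} (hs : s ^ 2 = 13) {z : ℂ} (hz : z ^ 13 = 1) :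
    z + z ^ 3 + z ^ 9 + z ^ 17 + z ^ 23 + z ^ 25 ∈ quad s := by
  have e : z + z ^ 3 + z ^ 9 + z ^ 17 + z ^ 23 + z ^ 25 =
      z + z ^ 3 + z ^ 9 + z ^ 4 + z ^ 10 + z ^ 12 := by
    linear_combination (z ^ 4 + z ^ 10 + z ^ 12) * hz
  rw [e]
  by_cases h1 : z = 1
  · exact ⟨6, 0, by rw [h1]; push_cast; ring⟩
  have h2 : 1 + z + z ^ 2 + z ^ 3 + z ^ 4 + z ^ 5 + z ^ 6 + z ^ 7 + z ^ 8 + z ^ 9 + z ^ 10 +
      z ^ 11 + z ^ 12 = 0 := by
    apply mul_left_cancel₀ (sub_ne_zero.2 h1)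
    linear_combination hz
  set η := z + z ^ 3 + z ^ 9 + z ^ 4 + z ^ 10 + z ^ 12 with hη
  have h3 : η ^ 2 + η - 3 = 0 := by
    rw [hη]
    linear_combination (z ^ 11 + 2 * z ^ 9 + 2 * z ^ 8 + z ^ 7 + 2 * z ^ 6 + z ^ 5 + 2 * z ^ 3 +
      2 * z ^ 2 + 2 * z + 6) * hz + 3 * h2
  have h4 : (2 * η + 1 - s) * (2 * η + 1 + s) = 0 := by
    linear_combination 4 * h3 - hs
  rcases mul_eq_zero.1 h4 with h | h
  · exact ⟨-1 / 2, 1 / 2, by push_cast; linear_combination h / 2⟩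
  · exact ⟨-1 / 2, -1 / 2, by push_cast; linear_combination h / 2⟩

lemma gauss26 {s : ℂ} (hs : s ^ 2 = 13) {z : ℂ} (hz : z ^ 26 = 1) :
    z + z ^ 3 + z ^ 9 + z ^ 17 + z ^ 23 + z ^ 25 ∈ quad s := by
  have h : (z ^ 13 - 1) * (z ^ 13 + 1) = 0 := by linear_combination hz
  rcases mul_eq_zero.1 h with h | h
  · exact gauss13 hs (sub_eq_zero.1 h)
  · have h1 : (-z) ^ 13 = 1 := by linear_combination -h
    have h2 := neg_mem (gauss13 hs h1)
    convert h2 using 1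
    ring

/-- A criterion for quadratic rationality. -/
lemma isQR_of {G : Type} [Group G] [Finite G] (N : Subgroup G) [N.Normal]
    (h6 : ∀ x : G, x ^ 6 ∈ N)
    (h : ∀ x : G, (∀ n ∈ N, IsConj (x * n) x) ∨ (x ^ 26 = 1 ∧ IsConj (x ^ 17) x)) : IsQR G := by
  intro V _ _ _ ρ hρ
  rcases dich N ρ with h1 | h1
  · obtain ⟨s, hs⟩ := IsAlgClosed.exists_pow_nat_eq (-3 : ℂ) (n := 2) (by norm_num)
    have hm : ∀ g, ρ.character g ∈ quad s := by
      intro g
      have hT : (ρ g) ^ 6 = 1 := by rw [← map_pow]; exact h1 _ (h6 g)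
      have := trace_mem (ρ g) hT X (by simp) (quad s) (fun z hz => by simpa using six_mem hs hz)
      simpa [Representation.character] using this
    rcases adjoin_quad _ s hm with h2 | h2
    · exact Or.inl h2
    · refine Or.inr ⟨-3, ?_, s, by push_cast; exact hs, h2⟩
      have : Prime (-3 : ℤ) := Prime.neg Int.prime_three
      exact this.squarefree
  · obtain ⟨s, hs⟩ := IsAlgClosed.exists_pow_nat_eq (13 : ℂ) (n := 2) (by norm_num)
    have hm : ∀ g, ρ.character g ∈ quad s := by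
      intro g
      rcases h g with h2 | ⟨h2, h3⟩
      · rw [h1 g h2]; exact zero_mem _
      have hT : (ρ g) ^ 26 = 1 := by rw [← map_pow, h2, map_one]
      have hc : ∀ k : ℕ, IsConj (g ^ k) g → IsConj (g ^ (k * 17 % 26)) g := by
        intro k hk
        have : g ^ (k * 17 % 26) = (g ^ k) ^ 17 := by
          rw [← pow_mul, ← pow_eq_pow_mod _ h2]
        rw [this]
        exact (hk.pow 17).trans h3
      have c3 : IsConj (g ^ 3) g := hc 17 h3
      have c25 : IsConj (g ^ 25) g := hc 3 c3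
      have c9 : IsConj (g ^ 9) g := hc 25 c25
      have c23 : IsConj (g ^ 23) g := hc 9 c9
      have hch : ∀ k : ℕ, IsConj (g ^ k) g → LinearMap.trace ℂ V (ρ g ^ k) = ρ.character g := by
        intro k hk
        obtain ⟨c, hc⟩ := isConj_iff.1 hk
        rw [← map_pow]
        show ρ.character (g ^ k) = _
        rw [← ρ.char_conj (g ^ k) c, hc]
      have hdeg : (X + X ^ 3 + X ^ 9 + X ^ 17 + X ^ 23 + X ^ 25 : ℂ[X]).degree = 25 := by
        compute_degree!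
      have := trace_mem (ρ g) hT (X + X ^ 3 + X ^ 9 + X ^ 17 + X ^ 23 + X ^ 25)
        (by rw [hdeg]; norm_num) (quad s) (fun z hz => by simpa using gauss26 hs hz)
      simp only [map_add, map_pow, aeval_X, hch _ c3, hch _ c9, hch _ h3, hch _ c23,
        hch _ c25] at this
      obtain ⟨a, b, hab⟩ := this
      refine ⟨a / 6, b / 6, ?_⟩
      push_cast
      have e : LinearMap.trace ℂ V (ρ g) = ρ.character g := rfl
      rw [e] at hab
      linear_combination hab / 6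
    rcases adjoin_quad _ s hm with h2 | h2
    · exact Or.inl h2
    · refine Or.inr ⟨13, ?_, s, by push_cast; exact hs, h2⟩
      have : Prime (13 : ℤ) := Int.prime_iff_natAbs_prime.2 (by norm_num)
      exact this.squarefree

lemma exists_coprime_pow {G : Type} [Group G] (x : G) {M : ℕ} (hM : M ≠ 0) (hx : x ^ M = 1)
    (j : ℤ) (hj : Int.gcd j (orderOf x) = 1) :
    ∃ n : ℕ, n < M ∧ Nat.Coprime n M ∧ x ^ j = x ^ n := by
  have : NeZero M := ⟨hM⟩
  have hd : orderOf x ∣ M := orderOf_dvd_of_pow_eq_one hx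
  have hu : IsUnit ((j : ZMod (orderOf x))) := by
    rw [ZMod.coe_int_isUnit_iff_isCoprime]
    exact (Int.isCoprime_iff_gcd_eq_one.2 hj).symm
  obtain ⟨w, hw⟩ := ZMod.unitsMap_surjective hd hu.unit
  refine ⟨(w : ZMod M).val, ZMod.val_lt _, ZMod.val_coe_unit_coprime w, ?_⟩
  rw [← zpow_natCast, zpow_eq_zpow_iff_modEq, ← ZMod.intCast_eq_intCast_iff]
  have := congrArg Units.val hw
  rw [ZMod.unitsMap_val, IsUnit.unit_spec] at this
  rw [← this, Int.cast_natCast, ZMod.natCast_val]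

/-- A criterion for being `5`-semi-rational. -/
lemma isUSR_of {G : Type} [Group G]
    (h : ∀ x : G, x ^ 6 = 1 ∨ (x ^ 26 = 1 ∧ IsConj (x ^ 17) x)) : IsUSR G := by
  refine ⟨5, fun x j hj => ?_⟩
  have e5 : x ^ (5 : ℤ) = x ^ 5 := zpow_natCast x 5
  rw [e5]
  rcases h x with h6 | ⟨h2, h3⟩
  · obtain ⟨n, hn, hc, e⟩ := exists_coprime_pow x (by norm_num) h6 j hj
    rw [e]
    have : n = 1 ∨ n = 5 := by
      interval_cases n <;> simp_all (config := {decide := true})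
    rcases this with rfl | rfl
    · left; rw [pow_one]
    · right; rfl
  · obtain ⟨n, hn, hc, e⟩ := exists_coprime_pow x (by norm_num) h2 j hj
    rw [e]
    have hc' : ∀ k : ℕ, IsConj (x ^ k) x → IsConj (x ^ (k * 17 % 26)) x := by
      intro k hk
      have : x ^ (k * 17 % 26) = (x ^ k) ^ 17 := by
        rw [← pow_mul, ← pow_eq_pow_mod _ h2]
      rw [this]
      exact (hk.pow 17).trans h3
    have h5 : ∀ k : ℕ, IsConj (x ^ k) x → IsConj (x ^ (k * 5 % 26)) (x ^ 5) := by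
      intro k hk
      have : x ^ (k * 5 % 26) = (x ^ k) ^ 5 := by
        rw [← pow_mul, ← pow_eq_pow_mod _ h2]
      rw [this]
      exact hk.pow 5
    have c1 : IsConj (x ^ 1) x := by rw [pow_one]
    have c3 : IsConj (x ^ 3) x := hc' 17 h3
    have c25 : IsConj (x ^ 25) x := hc' 3 c3
    have c9 : IsConj (x ^ 9) x := hc' 25 c25
    have c23 : IsConj (x ^ 23) x := hc' 9 c9
    have : n = 1 ∨ n = 17 ∨ n = 3 ∨ n = 25 ∨ n = 9 ∨ n = 23 ∨ n = 5 ∨ n = 7 ∨ n = 15 ∨ n = 21 ∨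
        n = 19 ∨ n = 11 := by
      interval_cases n <;> simp_all (config := {decide := true})
    rcases this with rfl | rfl | rfl | rfl | rfl | rfl | rfl | rfl | rfl | rfl | rfl | rfl
    · exact Or.inl c1
    · exact Or.inl h3
    · exact Or.inl c3
    · exact Or.inl c25
    · exact Or.inl c9
    · exact Or.inl c23
    · exact Or.inr (h5 1 c1)
    · exact Or.inr (h5 17 h3)
    · exact Or.inr (h5 3 c3)
    · exact Or.inr (h5 25 c25)
    · exact Or.inr (h5 9 c9)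
    · exact Or.inr (h5 23 c23)

end Pool.Agent.MP_9181f8_al

end

section

namespace Pool.Agent.MP_9181f8_al

local instance fact13 : Fact (Nat.Prime 13) := ⟨by norm_num⟩

/-- The field with `13` elements. -/
abbrev K := ZMod 13

variable {A U : Type} [AddCommGroup A] [Module K A] [AddCommGroup U] [Module K U]

/-- A Heisenberg type group extended by the diagonal group of order `12`. -/
@[ext]
structure Gp (β : A →ₗ[K] A →ₗ[K] U) where
  a : A
  b : A
  u : U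
  p : K
  q : K
  hp : p ^ 6 = 1
  hq : p ^ 2 = q ^ 2

namespace Gp

variable {β : A →ₗ[K] A →ₗ[K] U}

lemma p_ne (x : Gp β) : x.p ≠ 0 := by
  intro h
  have := x.hp
  rw [h] at this
  exact absurd this (by decide)

lemma q_ne (x : Gp β) : x.q ≠ 0 := by
  intro h
  have := x.hq
  rw [h] at this
  exact x.p_ne (by simpa using this)

instance : Mul (Gp β) := ⟨fun x y =>
  ⟨x.a + x.p • y.a, x.b + x.q • y.b, x.u + (x.p * x.q) • y.u + β x.a (x.q • y.b),
    x.p * y.p, x.q * y.q, by rw [mul_pow, x.hp, y.hp, mul_one],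
    by rw [mul_pow, mul_pow, x.hq, y.hq]⟩⟩

instance : One (Gp β) := ⟨⟨0, 0, 0, 1, 1, by simp, rfl⟩⟩

instance : Inv (Gp β) := ⟨fun x =>
  ⟨-(x.p⁻¹ • x.a), -(x.q⁻¹ • x.b), -((x.p⁻¹ * x.q⁻¹) • x.u) + (x.p⁻¹ * x.q⁻¹) • β x.a x.b,
    x.p⁻¹, x.q⁻¹, by rw [inv_pow, x.hp, inv_one], by rw [inv_pow, inv_pow, x.hq]⟩⟩

@[simp] lemma mul_a (x y : Gp β) : (x * y).a = x.a + x.p • y.a := rfl
@[simp] lemma mul_b (x y : Gp β) : (x * y).b = x.b + x.q • y.b := rfl
@[simp] lemma mul_u (x y : Gp β) :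
    (x * y).u = x.u + (x.p * x.q) • y.u + β x.a (x.q • y.b) := rfl
@[simp] lemma mul_p (x y : Gp β) : (x * y).p = x.p * y.p := rfl
@[simp] lemma mul_q (x y : Gp β) : (x * y).q = x.q * y.q := rfl
@[simp] lemma one_a : (1 : Gp β).a = 0 := rfl
@[simp] lemma one_b : (1 : Gp β).b = 0 := rfl
@[simp] lemma one_u : (1 : Gp β).u = 0 := rfl
@[simp] lemma one_p : (1 : Gp β).p = 1 := rfl
@[simp] lemma one_q : (1 : Gp β).q = 1 := rfl
@[simp] lemma inv_a (x : Gp β) : x⁻¹.a = -(x.p⁻¹ • x.a) := rfl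
@[simp] lemma inv_b (x : Gp β) : x⁻¹.b = -(x.q⁻¹ • x.b) := rfl
@[simp] lemma inv_u (x : Gp β) :
    x⁻¹.u = -((x.p⁻¹ * x.q⁻¹) • x.u) + (x.p⁻¹ * x.q⁻¹) • β x.a x.b := rfl
@[simp] lemma inv_p (x : Gp β) : x⁻¹.p = x.p⁻¹ := rfl
@[simp] lemma inv_q (x : Gp β) : x⁻¹.q = x.q⁻¹ := rfl

instance : Group (Gp β) := Group.ofLeftAxioms
  (fun x y z => by
    ext
    · simp only [mul_a, mul_p]; module
    · simp only [mul_b, mul_q]; module
    · simp only [mul_u, mul_a, mul_b, mul_p, mul_q, map_add, map_smul, LinearMap.add_apply,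
        LinearMap.smul_apply]
      module
    · simp only [mul_p]; ring
    · simp only [mul_q]; ring)
  (fun x => by ext <;> simp)
  (fun x => by
    ext
    · simp
    · simp
    · simp only [mul_u, inv_u, inv_p, inv_q, inv_a, map_neg, map_smul, LinearMap.neg_apply,
        LinearMap.smul_apply, one_u]
      module
    · simp [x.p_ne]
    · simp [x.q_ne])

instance [Finite A] [Finite U] : Finite (Gp β) :=
  Finite.of_injective (fun x : Gp β => (x.a, x.b, x.u, x.p, x.q)) (by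
    intro x y h
    simp only [Prod.mk.injEq] at h
    ext <;> simp [h])

lemma pow_p (x : Gp β) (n : ℕ) : (x ^ n).p = x.p ^ n := by
  induction n with
  | zero => simp
  | succ n ih => rw [pow_succ, mul_p, ih, pow_succ]

lemma pow_q (x : Gp β) (n : ℕ) : (x ^ n).q = x.q ^ n := by
  induction n with
  | zero => simp
  | succ n ih => rw [pow_succ, mul_q, ih, pow_succ]

lemma hq6 (x : Gp β) : x.q ^ 6 = 1 := by
  have := x.hp
  have h := x.hq
  calc x.q ^ 6 = (x.q ^ 2) ^ 3 := by ring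
    _ = (x.p ^ 2) ^ 3 := by rw [h]
    _ = 1 := by rw [← this]; ring

/-- The Heisenberg type normal subgroup. -/
def N (β : A →ₗ[K] A →ₗ[K] U) : Subgroup (Gp β) where
  carrier := {x | x.p = 1 ∧ x.q = 1}
  mul_mem' := by
    rintro x y ⟨h1, h2⟩ ⟨h3, h4⟩
    exact ⟨by simp [h1, h3], by simp [h2, h4]⟩
  one_mem' := ⟨rfl, rfl⟩
  inv_mem' := by
    rintro x ⟨h1, h2⟩
    exact ⟨by simp [h1], by simp [h2]⟩

instance : (N β).Normal := ⟨by
  rintro x ⟨h1, h2⟩ g
  exact ⟨by simp [h1, g.p_ne], by simp [h2, g.q_ne]⟩⟩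

/-- Its centre. -/
def Z (β : A →ₗ[K] A →ₗ[K] U) : Subgroup (Gp β) where
  carrier := {x | x.p = 1 ∧ x.q = 1 ∧ x.a = 0 ∧ x.b = 0}
  mul_mem' := by
    rintro x y ⟨h1, h2, h5, h6⟩ ⟨h3, h4, h7, h8⟩
    exact ⟨by simp [h1, h3], by simp [h2, h4], by simp [h5, h7], by simp [h6, h8]⟩
  one_mem' := ⟨rfl, rfl, rfl, rfl⟩
  inv_mem' := by
    rintro x ⟨h1, h2, h3, h4⟩
    exact ⟨by simp [h1], by simp [h2], by simp [h3], by simp [h4]⟩

instance : Group.IsSolvable (Gp β) := by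
  have h1 : derivedSeries (Gp β) 1 ≤ N β := by
    rw [derivedSeries_succ, Subgroup.commutator_le]
    intro x _ y _
    have := x.p_ne; have := y.p_ne; have := x.q_ne; have := y.q_ne
    refine ⟨?_, ?_⟩
    · simp only [commutatorElement_def, mul_p, inv_p]; field_simp
    · simp only [commutatorElement_def, mul_q, inv_q]; field_simp
  have h2 : derivedSeries (Gp β) 2 ≤ Z β := by
    rw [derivedSeries_succ, Subgroup.commutator_le]
    intro x hx y hy
    obtain ⟨a1, a2⟩ := h1 hx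
    obtain ⟨a3, a4⟩ := h1 hy
    refine ⟨?_, ?_, ?_, ?_⟩ <;> simp [commutatorElement_def, a1, a2, a3, a4]
  refine ⟨3, ?_⟩
  rw [derivedSeries_succ, eq_bot_iff, Subgroup.commutator_le]
  intro x hx y hy
  obtain ⟨a1, a2, a5, a6⟩ := h2 hx
  obtain ⟨a3, a4, a7, a8⟩ := h2 hy
  rw [Subgroup.mem_bot]
  ext <;> simp [commutatorElement_def, a1, a2, a3, a4, a5, a6, a7, a8]

lemma conj_of {x y : Gp β} (c : Gp β) (h : c * x = y * c) : IsConj x y :=
  isConj_iff.2 ⟨c, by rw [h, mul_inv_cancel_right]⟩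

/-- Conjugation by an element of `N`. -/
lemma conj_N (x y : Gp β) (a b : A) (u : U) (hp : y.p = x.p) (hq : y.q = x.q)
    (ha : y.a = x.a + (1 - x.p) • a) (hb : y.b = x.b + (1 - x.q) • b)
    (hu : y.u = x.u + (1 - x.p * x.q) • u + β a x.b - β y.a (x.q • b)) : IsConj x y := by
  refine conj_of ⟨a, b, u, 1, 1, by simp, rfl⟩ ?_
  ext
  · simp only [mul_a, hp, ha]; module
  · simp only [mul_b, hq, hb]; module
  · simp only [mul_u, hp, hq, hu, one_smul, mul_one]; module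
  · simp [hp]
  · simp [hq]

/-- Conjugation by a diagonal element. -/
lemma conj_D (x y : Gp β) (s t : K) (hs : s ^ 6 = 1) (ht : s ^ 2 = t ^ 2) (hp : y.p = x.p)
    (hq : y.q = x.q) (ha : y.a = s • x.a) (hb : y.b = t • x.b) (hu : y.u = (s * t) • x.u) :
    IsConj x y := by
  refine conj_of ⟨0, 0, 0, s, t, hs, ht⟩ ?_
  ext <;> simp [hp, hq, ha, hb, hu, mul_comm]

lemma kill {M : Type} [AddCommGroup M] [Module K M] (p : K) (a : M) :
    p • (a + (1 - p) • -((1 - p)⁻¹ • a)) = a + (1 - p) • -((1 - p)⁻¹ • a) := by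
  by_cases h : p = 1
  · simp [h]
  · have h' : 1 - p ≠ 0 := sub_ne_zero.2 (Ne.symm h)
    rw [smul_neg, smul_smul, mul_inv_cancel₀ h', one_smul, add_neg_cancel, smul_zero]

/-- Normal form under conjugation. -/
lemma normal_form (x : Gp β) : ∃ y : Gp β, IsConj x y ∧ y.p = x.p ∧ y.q = x.q ∧
    y.p • y.a = y.a ∧ y.q • y.b = y.b ∧ (y.p * y.q) • y.u = y.u := by
  set a := -((1 - x.p)⁻¹ • x.a)
  set b := -((1 - x.q)⁻¹ • x.b)
  set w := x.u + β a x.b - β (x.a + (1 - x.p) • a) (x.q • b)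
  set u := -((1 - x.p * x.q)⁻¹ • w)
  refine ⟨⟨x.a + (1 - x.p) • a, x.b + (1 - x.q) • b, w + (1 - x.p * x.q) • u, x.p, x.q, x.hp,
    x.hq⟩, conj_N _ _ a b u rfl rfl rfl rfl ?_, rfl, rfl, kill _ _, kill _ _, kill _ _⟩
  simp only [w]
  module

lemma fix_pow {M : Type} [AddCommGroup M] [Module K M] {p : K} {a : M} (h : p • a = a) (n : ℕ) :
    p ^ n • a = a := by
  induction n with
  | zero => simp
  | succ n ih => rw [pow_succ, mul_smul, h, ih]

lemma fix_zero {M : Type} [AddCommGroup M] [Module K M] {p : K} {a : M} (h : p • a = a)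
    (hp : p ≠ 1) : a = 0 := by
  have : (p - 1) • a = 0 := by rw [sub_smul, h, one_smul, sub_self]
  exact (smul_eq_zero.1 this).resolve_left (sub_ne_zero.2 hp)

lemma pow_fix (y : Gp β) (ha : y.p • y.a = y.a) (hb : y.q • y.b = y.b)
    (hu : (y.p * y.q) • y.u = y.u) (n : ℕ) :
    (y ^ n).a = (n : K) • y.a ∧ (y ^ n).b = (n : K) • y.b ∧
      (y ^ n).u = (n : K) • y.u + (n.choose 2 : K) • β y.a y.b := by
  induction n with
  | zero => simp
  | succ n ih =>
    obtain ⟨h1, h2, h3⟩ := ih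
    refine ⟨?_, ?_, ?_⟩
    · rw [pow_succ, mul_a, h1, pow_p, fix_pow ha]; push_cast; module
    · rw [pow_succ, mul_b, h2, pow_q, fix_pow hb]; push_cast; module
    · rw [pow_succ, mul_u, h1, h3, pow_p, pow_q, ← mul_pow, fix_pow hu, fix_pow hb,
        Nat.choose_succ_succ' n 1, Nat.choose_one_right]
      simp only [map_smul, LinearMap.smul_apply]
      push_cast; module

lemma case_big (x : Gp β) (h : x.p ^ 2 ≠ 1) :
    IsConj x ⟨0, 0, 0, x.p, x.q, x.hp, x.hq⟩ := by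
  obtain ⟨y, hy, h1, h2, h3, h4, h5⟩ := normal_form x
  have key : ∀ p q : K, p ^ 6 = 1 → p ^ 2 = q ^ 2 → p ^ 2 ≠ 1 → p ≠ 1 ∧ q ≠ 1 ∧ p * q ≠ 1 := by
    decide
  obtain ⟨k1, k2, k3⟩ := key x.p x.q x.hp x.hq h
  rw [← h1] at k1; rw [← h2] at k2; rw [← h1, ← h2] at k3
  convert hy using 1
  ext
  · exact (fix_zero h3 k1).symm
  · exact (fix_zero h4 k2).symm
  · exact (fix_zero h5 k3).symm
  · exact h1.symm
  · exact h2.symm

lemma six_of_big (x : Gp β) (h : x.p ^ 2 ≠ 1) : x ^ 6 = 1 := by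
  have h1 := (case_big x h).pow 6
  have h2 : (⟨0, 0, 0, x.p, x.q, x.hp, x.hq⟩ : Gp β) ^ 6 = 1 := by
    obtain ⟨k1, k2, k3⟩ := pow_fix (⟨0, 0, 0, x.p, x.q, x.hp, x.hq⟩ : Gp β) (by simp) (by simp)
      (by simp) 6
    ext
    · simp [k1]
    · simp [k2]
    · simp [k3]
    · rw [pow_p]; exact x.hp
    · rw [pow_q]; exact x.hq6
  rw [h2] at h1
  exact isConj_one_left.1 h1

lemma coset_of_big (x : Gp β) (h : x.p ^ 2 ≠ 1) : ∀ n ∈ N β, IsConj (x * n) x := by
  rintro n ⟨h1, h2⟩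
  have e1 : (x * n).p = x.p := by simp [h1]
  have e2 : (x * n).q = x.q := by simp [h2]
  have h3 := case_big (x * n) (by rw [e1]; exact h)
  refine h3.trans ?_
  convert (case_big x h).symm using 2

lemma small (hl : ∀ a, a ≠ 0 → Function.Surjective (β a))
    (hr : ∀ b, b ≠ 0 → Function.Surjective (β.flip b)) (x : Gp β) (h : x.p ^ 2 = 1) :
    x ^ 26 = 1 ∧ IsConj (x ^ 17) x := by
  obtain ⟨y, hy, h1, h2, h3, h4, h5⟩ := normal_form x
  rw [← h1] at h
  have hq : y.q ^ 2 = 1 := by rw [← y.hq, h]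
  have key : ∀ p : K, p ^ 2 = 1 → p ^ 26 = 1 ∧ p ^ 17 = p ∧ (p = 1 ∨ p = -1) := by decide
  obtain ⟨p1, p2, p3⟩ := key _ h
  obtain ⟨q1, q2, q3⟩ := key _ hq
  constructor
  · have e : y ^ 26 = 1 := by
      obtain ⟨k1, k2, k3⟩ := pow_fix y h3 h4 h5 26
      have z1 : ((26 : ℕ) : K) = 0 := by decide
      have z2 : ((Nat.choose 26 2 : ℕ) : K) = 0 := by decide
      rw [z1] at k1 k2 k3
      rw [z2] at k3
      ext
      · simp [k1]
      · simp [k2]
      · simp [k3]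
      · rw [pow_p]; exact p1
      · rw [pow_q]; exact q1
    have := hy.pow 26
    rw [e] at this
    exact isConj_one_left.1 this
  · refine (hy.pow 17).trans (IsConj.trans (IsConj.symm ?_) hy.symm)
    obtain ⟨k1, k2, k3⟩ := pow_fix y h3 h4 h5 17
    have z1 : ((17 : ℕ) : K) = 4 := by decide
    have z2 : ((Nat.choose 17 2 : ℕ) : K) = 6 := by decide
    rw [z1] at k1 k2 k3
    rw [z2] at k3
    have e1 : (y ^ 17).p = y.p := by rw [pow_p, p2]
    have e2 : (y ^ 17).q = y.q := by rw [pow_q, q2]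
    by_cases hab : y.a = 0 ∧ y.b = 0
    · refine conj_D y _ 3 10 (by decide) (by decide) e1 e2 (by simp [k1, hab.1])
        (by simp [k2, hab.2]) ?_
      have : (3 * 10 : K) = 4 := by decide
      simp [k3, hab.1, this]
    · let z : Gp β := ⟨(4 : K) • y.a, (4 : K) • y.b, ((4 : K) * 4) • y.u, y.p, y.q, y.hp, y.hq⟩
      have hz : IsConj y z := conj_D y z 4 4 (by decide) rfl rfl rfl rfl rfl rfl
      refine hz.trans ?_
      have h40 : (4 : K) ≠ 0 := by decide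
      by_cases hpq : y.p = 1 ∧ y.q = 1
      · rcases not_and_or.1 hab with ha | hb
        · obtain ⟨b, hb⟩ := hl _ (smul_ne_zero h40 ha) (z.u - (y ^ 17).u)
          refine conj_N z _ 0 b 0 e1 e2 (by simp [k1, z]) (by simp [k2, z, hpq.2]) ?_
          have : z.q = 1 := hpq.2
          rw [this, one_smul, k1, hb]
          simp
        · obtain ⟨a, ha⟩ := hr _ (smul_ne_zero h40 hb) ((y ^ 17).u - z.u)
          refine conj_N z _ a 0 0 e1 e2 (by simp [k1, z, hpq.1]) (by simp [k2, z]) ?_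
          have : β a z.b = (y ^ 17).u - z.u := ha
          rw [this]
          simp
      · have hm : (-1 : K) ≠ 1 := by decide
        have hu : y.u = 0 ∧ β y.a y.b = 0 := by
          rcases p3 with p3 | p3 <;> rcases q3 with q3 | q3
          · exact absurd ⟨p3, q3⟩ hpq
          · refine ⟨fix_zero h5 (by rw [p3, q3]; decide), ?_⟩
            rw [fix_zero h4 (by rw [q3]; exact hm), map_zero]
          · refine ⟨fix_zero h5 (by rw [p3, q3]; decide), ?_⟩
            rw [fix_zero h3 (by rw [p3]; exact hm), map_zero, LinearMap.zero_apply]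
          · exact absurd ⟨fix_zero h3 (by rw [p3]; exact hm), fix_zero h4 (by rw [q3]; exact hm)⟩
              hab
        have : z = y ^ 17 := by
          ext
          · exact k1.symm
          · exact k2.symm
          · simp [k3, z, hu.1, hu.2]
          · exact e1.symm
          · exact e2.symm
        rw [this]

lemma isUSR (hl : ∀ a, a ≠ 0 → Function.Surjective (β a))
    (hr : ∀ b, b ≠ 0 → Function.Surjective (β.flip b)) : IsUSR (Gp β) := by
  refine isUSR_of fun x => ?_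
  by_cases h : x.p ^ 2 = 1
  · exact Or.inr (small hl hr x h)
  · exact Or.inl (six_of_big x h)

lemma isQR [Finite A] [Finite U] (hl : ∀ a, a ≠ 0 → Function.Surjective (β a))
    (hr : ∀ b, b ≠ 0 → Function.Surjective (β.flip b)) : IsQR (Gp β) := by
  refine isQR_of (N β) (fun x => ⟨by rw [pow_p]; exact x.hp, by rw [pow_q]; exact x.hq6⟩)
    fun x => ?_
  by_cases h : x.p ^ 2 = 1
  · exact Or.inr (small hl hr x h)
  · exact Or.inl (coset_of_big x h)

end Gp

end Pool.Agent.MP_9181f8_al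

end

section

namespace Pool.Agent.MP_9181f8_al

attribute [local instance] fact13

open Finset
open scoped commutatorElement

/-- Every bilinear map factors through the multiplication of a large finite field. -/
lemma camina {L : Type} [AddCommGroup L] [Module K L] [Finite L] (β₀ : L →ₗ[K] L →ₗ[K] L) :
    ∃ (A : Type) (_ : AddCommGroup A) (_ : Module K A) (_ : Finite A)
      (β : A →ₗ[K] A →ₗ[K] L) (i j : L →ₗ[K] A),
      (∀ a, a ≠ 0 → Function.Surjective (β a)) ∧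
      (∀ b, b ≠ 0 → Function.Surjective (β.flip b)) ∧ ∀ x y, β (i x) (j y) = β₀ x y := by
  classical
  obtain ⟨m, hm⟩ : ∃ m, m = Module.finrank K L := ⟨_, rfl⟩
  let e : Module.Basis (Fin m) K L := Module.finBasisOfFinrankEq K L hm.symm
  let F := GaloisField 13 (m * m + m + 1)
  let pb : PowerBasis K F := Field.powerBasisOfFiniteOfSeparable K F
  have hd : pb.dim = m * m + m + 1 := by
    rw [← pb.finrank]; exact GaloisField.finrank 13 (Nat.succ_ne_zero _)
  let e' : ℕ → L := fun k => if h : k < m then e ⟨k, h⟩ else 0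
  have he' : ∀ k : Fin m, e' k = e k := fun k => by simp [e', k.2]
  let π : F →ₗ[K] L := pb.basis.constr K fun r =>
    if (r : ℕ) < m * m then β₀ (e' (r % m)) (e' (r / m)) else e' (r - m * m)
  have hπ : ∀ r : ℕ, r < m * m + m + 1 → π (pb.gen ^ r) =
      if r < m * m then β₀ (e' (r % m)) (e' (r / m)) else e' (r - m * m) := by
    intro r hr
    have := pb.basis.constr_basis K (fun r : Fin pb.dim =>
      if (r : ℕ) < m * m then β₀ (e' (r % m)) (e' (r / m)) else e' (r - m * m)) ⟨r, by rw [hd]; exact hr⟩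
    rw [pb.basis_eq_pow] at this
    exact this
  have hsurj : Function.Surjective π := by
    rw [← LinearMap.range_eq_top, eq_top_iff, ← e.span_eq, Submodule.span_le]
    rintro _ ⟨k, rfl⟩
    refine ⟨pb.gen ^ (m * m + k), ?_⟩
    have := k.2
    rw [hπ _ (by omega), if_neg (by omega), Nat.add_sub_cancel_left, he']
  let β : F →ₗ[K] F →ₗ[K] L := (LinearMap.mul K F).compr₂ π
  have hβ : ∀ a b, β a b = π (a * b) := fun a b => rfl
  let i : L →ₗ[K] F := e.constr K fun k => pb.gen ^ (k : ℕ)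
  let j : L →ₗ[K] F := e.constr K fun k => pb.gen ^ (m * (k : ℕ))
  refine ⟨F, inferInstance, inferInstance, inferInstance, β, i, j, ?_, ?_, ?_⟩
  · intro a ha u
    obtain ⟨w, hw⟩ := hsurj u
    exact ⟨a⁻¹ * w, by rw [hβ, mul_inv_cancel_left₀ ha, hw]⟩
  · intro b hb u
    obtain ⟨w, hw⟩ := hsurj u
    exact ⟨w * b⁻¹, by rw [LinearMap.flip_apply, hβ, inv_mul_cancel_right₀ hb, hw]⟩
  · have : β.compl₁₂ i j = β₀ := by
      refine LinearMap.ext_basis e e fun k l => ?_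
      have hk := k.2
      have hl := l.2
      have h1 : (k : ℕ) + m * l < m * m := by nlinarith
      rw [LinearMap.compl₁₂_apply, hβ, e.constr_basis, e.constr_basis, ← pow_add,
        hπ _ (by omega), if_pos h1, Nat.add_mul_mod_self_left, Nat.mod_eq_of_lt hk,
        Nat.add_mul_div_left _ _ (by omega), Nat.div_eq_of_lt hk, zero_add, he', he']
    intro x y
    rw [← this, LinearMap.compl₁₂_apply]

/-- Groups of class at most two and exponent dividing `13`. -/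
structure Cl2 (P : Type) [Group P] : Prop where
  cen : ∀ x y : P, ⁅x, y⁆ ∈ Subgroup.center P
  ex : ∀ x : P, x ^ 13 = 1

variable {P : Type} [Group P]

namespace Cl2

variable (h : Cl2 P)
include h

lemma comm (x y z : P) : z * ⁅x, y⁆ = ⁅x, y⁆ * z := Subgroup.mem_center_iff.1 (h.cen x y) z

lemma mul_left (x y z : P) : ⁅x * y, z⁆ = ⁅x, z⁆ * ⁅y, z⁆ := by
  calc ⁅x * y, z⁆ = x * ⁅y, z⁆ * (z * x⁻¹ * z⁻¹) := by simp only [commutatorElement_def]; group
    _ = ⁅y, z⁆ * ⁅x, z⁆ := by rw [h.comm y z x]; simp only [commutatorElement_def]; group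
    _ = _ := h.comm _ _ _

lemma mul_right (x y z : P) : ⁅x, y * z⁆ = ⁅x, y⁆ * ⁅x, z⁆ := by
  calc ⁅x, y * z⁆ = x * y * x⁻¹ * (⁅x, z⁆ * y⁻¹) := by simp only [commutatorElement_def]; group
    _ = _ := by rw [← h.comm x z y⁻¹]; simp only [commutatorElement_def]; group

lemma comm_pow (x y z : P) (n : ℕ) : z * ⁅x, y⁆ ^ n = ⁅x, y⁆ ^ n * z :=
  (Commute.pow_right (h.comm x y z) n).eq

lemma cen_left (x y z : P) (n : ℕ) : ⁅⁅x, y⁆ ^ n, z⁆ = 1 :=
  commutatorElement_eq_one_iff_mul_comm.2 (h.comm_pow x y z n).symm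

lemma cen_right (x y z : P) (n : ℕ) : ⁅z, ⁅x, y⁆ ^ n⁆ = 1 :=
  commutatorElement_eq_one_iff_mul_comm.2 (h.comm_pow x y z n)

lemma mul_pow' (x y z w : P) (n : ℕ) : (⁅x, y⁆ * ⁅z, w⁆) ^ n = ⁅x, y⁆ ^ n * ⁅z, w⁆ ^ n :=
  Commute.mul_pow (h.comm z w _) n

end Cl2

/-- The additive group attached to a group of class two by Baer. -/
def Baer (_ : Cl2 P) : Type := P

namespace Baer

variable {h : Cl2 P}

/-- The identity map. -/
def val (x : Baer h) : P := x

/-- The identity map. -/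
def of (h : Cl2 P) (x : P) : Baer h := x

lemma to_inj {x y : Baer h} (e : x.val = y.val) : x = y := e

instance : Add (Baer h) := ⟨fun x y => of h (x.val * y.val * ⁅x.val, y.val⁆ ^ 6)⟩
instance : Zero (Baer h) := ⟨of h 1⟩
instance : Neg (Baer h) := ⟨fun x => of h x.val⁻¹⟩

lemma to_add (x y : Baer h) : (x + y).val = x.val * y.val * ⁅x.val, y.val⁆ ^ 6 := rfl
lemma to_zero : (0 : Baer h).val = 1 := rfl
lemma to_neg (x : Baer h) : (-x).val = x.val⁻¹ := rfl
lemma to_of (x : P) : (of h x).val = x := rfl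

instance : AddCommGroup (Baer h) :=
  { AddGroup.ofLeftAxioms
      (fun x y z => to_inj (by
        simp only [to_add, h.mul_left, h.mul_right, h.cen_left, h.cen_right, mul_one, h.mul_pow']
        rw [mul_assoc _ _ z.val, ← h.comm_pow]
        simp only [mul_assoc]
        congr 3
        rw [← h.comm_pow y.val z.val, ← h.comm_pow x.val y.val (⁅x.val, z.val⁆ ^ 6),
          ← mul_assoc, ← h.comm_pow x.val y.val (⁅x.val, z.val⁆ ^ 6)]))
      (fun x => to_inj (by simp [to_add, to_zero]))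
      (fun x => to_inj (by
        simp [to_add, to_zero, to_neg, commutatorElement_def])) with
    add_comm := fun x y => to_inj (by
      simp only [to_add]
      have e1 : x.val * y.val = ⁅x.val, y.val⁆ * (y.val * x.val) := by
        simp only [commutatorElement_def]; group
      have e2 : ⁅y.val, x.val⁆ = ⁅x.val, y.val⁆⁻¹ := (commutatorElement_inv _ _).symm
      rw [e1, ← h.comm, e2, mul_assoc, ← pow_succ', inv_pow]
      congr 1
      rw [eq_inv_iff_mul_eq_one, ← pow_add]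
      exact h.ex _) }

lemma to_nsmul (n : ℕ) (x : Baer h) : (n • x).val = x.val ^ n := by
  induction n with
  | zero => rw [zero_nsmul, to_zero, pow_zero]
  | succ n ih =>
    rw [succ_nsmul, to_add, ih, commutatorElement_eq_one_iff_mul_comm.2
      (Commute.pow_self x.val n).eq, one_pow, mul_one, pow_succ]

instance : Module K (Baer h) :=
  AddCommGroup.zmodModule fun x => to_inj (by rw [to_nsmul, h.ex, to_zero])

instance [Finite P] : Finite (Baer h) := inferInstanceAs (Finite P)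

lemma br_left (x y z : Baer h) :
    of h ⁅(x + y).val, z.val⁆ = of h ⁅x.val, z.val⁆ + of h ⁅y.val, z.val⁆ := to_inj (by
  have := h.cen_left x.val z.val ⁅y.val, z.val⁆ 1
  rw [pow_one] at this
  simp only [to_add, to_of, h.mul_left, h.cen_left, mul_one, this, one_pow])

lemma br_right (x y z : Baer h) :
    of h ⁅x.val, (y + z).val⁆ = of h ⁅x.val, y.val⁆ + of h ⁅x.val, z.val⁆ := to_inj (by
  have := h.cen_left x.val y.val ⁅x.val, z.val⁆ 1
  rw [pow_one] at this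
  simp only [to_add, to_of, h.mul_right, h.cen_right, mul_one, this, one_pow])

/-- The commutator as a bilinear map. -/
def br (h : Cl2 P) : Baer h →ₗ[K] Baer h →ₗ[K] Baer h :=
  LinearMap.mk₂ K (fun x y => of h ⁅x.val, y.val⁆) br_left
    (fun c x y => ZMod.map_smul
      (AddMonoidHom.mk' (fun x : Baer h => of h ⁅x.val, y.val⁆) fun a b => br_left a b y) c x)
    br_right
    (fun c x y => ZMod.map_smul
      (AddMonoidHom.mk' (fun y : Baer h => of h ⁅x.val, y.val⁆) fun a b => br_right x a b) c y)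

lemma to_br (x y : Baer h) : (br h x y).val = ⁅x.val, y.val⁆ := rfl

lemma of_mul (x y : P) : of h (x * y) = of h x + of h y + (7 : K) • br h (of h x) (of h y) := by
  apply to_inj
  have e : (7 : K) • br h (of h x) (of h y) = (7 : ℕ) • br h (of h x) (of h y) :=
    Nat.cast_smul_eq_nsmul K 7 _
  rw [e, to_add, to_add, to_nsmul, to_br]
  simp only [to_of, h.cen_right, one_pow, mul_one]
  rw [mul_assoc (x * y), ← pow_add, h.ex, mul_one]

lemma br_br (x y : Baer h) : br h (br h x y) = 0 := by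
  ext z
  apply to_inj
  have := h.cen_left x.val y.val z.val 1
  rw [pow_one] at this
  exact this

lemma br_zero {z : Baer h} (hz : br h z = 0) (x : Baer h) : br h x z = 0 := by
  apply to_inj
  have : (br h z x).val = 1 := by rw [hz]; rfl
  rw [to_br] at this
  rw [to_br, ← commutatorElement_inv, this, inv_one, to_zero]

end Baer

open Baer in
theorem embed [Finite P] (h : Cl2 P) :
    ∃ (G : Type) (_ : Group G), Finite G ∧ Group.IsSolvable G ∧ IsUSR G ∧ IsQR G ∧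
      ∃ f : P →* G, Function.Injective f := by
  obtain ⟨A, _, _, _, β, i, j, hl, hr, hβ⟩ := camina ((7 : K) • br h)
  obtain ⟨g, hg⟩ := LinearMap.exists_leftInverse_of_injective (LinearMap.ker (br h)).subtype
    (Submodule.ker_subtype _)
  let r : Baer h →ₗ[K] Baer h := LinearMap.id - (LinearMap.ker (br h)).subtype ∘ₗ g
  have hr1 : ∀ x y, r (br h x y) = 0 := by
    intro x y
    have := LinearMap.congr_fun hg ⟨br h x y, br_br x y⟩
    simp only [LinearMap.comp_apply, Submodule.subtype_apply, LinearMap.id_apply] at this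
    simp [r, this]
  have hr2 : ∀ x y, br h (r x) (r y) = br h x y := by
    intro x y
    have h1 : br h (g x) = 0 := (g x).2
    have h2 : br h (g y) = 0 := (g y).2
    simp [r, h1, br_zero h2]
  refine ⟨Gp β, inferInstance, inferInstance, inferInstance, Gp.isUSR hl hr, Gp.isQR hl hr,
    MonoidHom.mk' (fun x => ⟨i (r (of h x)), j (r (of h x)), of h x, 1, 1, by simp, rfl⟩) ?_, ?_⟩
  · intro x y
    ext
    · simp [of_mul, hr1]
    · simp [of_mul, hr1]
    · simp [of_mul, hβ, hr2]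
    · simp
    · simp
  · intro x y e
    exact congrArg Gp.u e

end Pool.Agent.MP_9181f8_al

end

section

namespace Pool.Agent.N9181

open scoped commutatorElement

theorem sylow13 (P : Type) [Group P] [Finite P] (hP : IsPGroup 13 P) {G : Type} [Group G] [Finite G] [Group.IsSolvable G]
    (hG : Pool.Agent.MP_9181f8_al.IsUSR G) (f : P →* G) (hf : Function.Injective f) :
    (∀ g : P, g ^ 13 = 1) ∧ commutator P ≤ Subgroup.center P := by
  obtain ⟨m, hm⟩ := pp_of_usr hG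
  by_cases h13 : 13 ∣ Nat.card G
  · obtain ⟨G', _, _, π, Q, z, hπ, hk, hQ, hQp, hQi, hz, hfp⟩ := fpf_data _ m hm h13
    have hinj : Function.Injective (π.comp f) := by
      rw [injective_iff_map_eq_one]
      intro x hx
      obtain ⟨a, ha⟩ := hP x
      have h1 : orderOf (f x) ∣ Nat.card π.ker := Subgroup.orderOf_dvd_natCard _ hx
      have h2 : orderOf (f x) ∣ 13 ^ a := orderOf_dvd_of_pow_eq_one (by rw [← map_pow, ha, map_one])
      have h3 : orderOf (f x) = 1 := Nat.eq_one_of_dvd_coprimes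
        (Nat.Coprime.pow_left a ((Nat.Prime.coprime_iff_not_dvd (by norm_num)).2 hk)) h2 h1
      exact hf (by rw [orderOf_eq_one_iff.1 h3, map_one])
    have hmem : ∀ x : P, (π.comp f) x ∈ Q := by
      intro x
      obtain ⟨a, ha⟩ := hP x
      have h1 : (QuotientGroup.mk' Q ((π.comp f) x)) ^ (13 ^ a) = 1 := by
        rw [← map_pow, ← map_pow, ha, map_one, map_one]
      have h2 : (QuotientGroup.mk' Q ((π.comp f) x)) ^ Q.index = 1 := pow_card_eq_one'
      have h3 := pow_gcd_eq_one.2 ⟨h1, h2⟩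
      rw [Nat.Coprime.pow_left a ((Nat.Prime.coprime_iff_not_dvd (by norm_num)).2 hQi),
        pow_one] at h3
      exact (QuotientGroup.eq_one_iff _).1 h3
    refine ⟨fun g => hinj ?_, ?_⟩
    · rw [map_pow, map_one]
      exact exp13 _ m (pp_surj π hπ _ m hm) Q hQ hQp hQi z hz hfp _ (hmem g)
    · rw [commutator_def, Subgroup.commutator_le]
      intro x _ y _
      rw [Subgroup.mem_center_iff]
      intro w
      apply hinj
      rw [map_mul, map_mul, map_commutatorElement]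
      exact (class2 Q hQ hQp z hz hfp _ (hmem x) _ (hmem y) _ (hmem w)).symm
  · have h1 : ∀ x : P, x = 1 := by
      intro x
      obtain ⟨a, ha⟩ := hP x
      have h2 : orderOf (f x) ∣ 13 ^ a := orderOf_dvd_of_pow_eq_one (by rw [← map_pow, ha, map_one])
      have h3 : orderOf (f x) = 1 := Nat.eq_one_of_dvd_coprimes
        (Nat.Coprime.pow_left a ((Nat.Prime.coprime_iff_not_dvd (by norm_num)).2 h13)) h2
        (orderOf_dvd_natCard _)
      exact hf (by rw [orderOf_eq_one_iff.1 h3, map_one])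
    exact ⟨fun g => h1 _, fun x _ => by rw [h1 x]; exact Subgroup.one_mem _⟩

end Pool.Agent.N9181

end

section

namespace Pool.Agent.N9181

open scoped commutatorElement

theorem sylowQ (P : Type) [Group P] [Finite P] (hPp : IsPGroup 13 P)
    {G : Type} [Group G] [Finite G] [Group.IsSolvable G] (N : ℕ) (hP : AP G N) (f : P →* G) (hf : Function.Injective f) :
    (∀ g : P, g ^ 13 = 1) ∧ commutator P ≤ Subgroup.center P := by
  by_cases h13 : 13 ∣ Nat.card G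
  · obtain ⟨G', _, _, π, Q, z, hπ, hk, hQ, hQp, hQi, hz, hfp⟩ := fpf_dataQ N hP h13
    have hinj : Function.Injective (π.comp f) := by
      rw [injective_iff_map_eq_one]
      intro x hx
      obtain ⟨a, ha⟩ := hPp x
      have h1 : orderOf (f x) ∣ Nat.card π.ker := Subgroup.orderOf_dvd_natCard _ hx
      have h2 : orderOf (f x) ∣ 13 ^ a := orderOf_dvd_of_pow_eq_one (by rw [← map_pow, ha, map_one])
      have h3 : orderOf (f x) = 1 := Nat.eq_one_of_dvd_coprimes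
        (Nat.Coprime.pow_left a ((Nat.Prime.coprime_iff_not_dvd (by norm_num)).2 hk)) h2 h1
      exact hf (by rw [orderOf_eq_one_iff.1 h3, map_one])
    have hmem : ∀ x : P, (π.comp f) x ∈ Q := by
      intro x
      obtain ⟨a, ha⟩ := hPp x
      have h1 : (QuotientGroup.mk' Q ((π.comp f) x)) ^ (13 ^ a) = 1 := by
        rw [← map_pow, ← map_pow, ha, map_one, map_one]
      have h2 : (QuotientGroup.mk' Q ((π.comp f) x)) ^ Q.index = 1 := pow_card_eq_one'
      have h3 := pow_gcd_eq_one.2 ⟨h1, h2⟩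
      rw [Nat.Coprime.pow_left a ((Nat.Prime.coprime_iff_not_dvd (by norm_num)).2 hQi),
        pow_one] at h3
      exact (QuotientGroup.eq_one_iff _).1 h3
    refine ⟨fun g => hinj ?_, ?_⟩
    · rw [map_pow, map_one]
      exact exp13Q N (ap_surj π hπ N hP) Q hQ hQp hQi z hz hfp _ (hmem g)
    · rw [commutator_def, Subgroup.commutator_le]
      intro x _ y _
      rw [Subgroup.mem_center_iff]
      intro w
      apply hinj
      rw [map_mul, map_mul, map_commutatorElement]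
      exact (class2 Q hQ hQp z hz hfp _ (hmem x) _ (hmem y) _ (hmem w)).symm
  · have h1 : ∀ x : P, x = 1 := by
      intro x
      obtain ⟨a, ha⟩ := hPp x
      have h2 : orderOf (f x) ∣ 13 ^ a := orderOf_dvd_of_pow_eq_one (by rw [← map_pow, ha, map_one])
      have h3 : orderOf (f x) = 1 := Nat.eq_one_of_dvd_coprimes
        (Nat.Coprime.pow_left a ((Nat.Prime.coprime_iff_not_dvd (by norm_num)).2 h13)) h2
        (orderOf_dvd_natCard _)
      exact hf (by rw [orderOf_eq_one_iff.1 h3, map_one])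
    exact ⟨fun g => h1 _, fun x _ => by rw [h1 x]; exact Subgroup.one_mem _⟩

end Pool.Agent.N9181

end

section

namespace Pool.Agent.N9181

theorem sylowQR (P : Type) [Group P] [Finite P] (hP : IsPGroup 13 P) {G : Type} [Group G]
    [Finite G] [Group.IsSolvable G] (hG : Pool.Agent.MP_9181f8_al.IsQR G) (f : P →* G)
    (hf : Function.Injective f) : (∀ g : P, g ^ 13 = 1) ∧ commutator P ≤ Subgroup.center P :=
  sylowQ P hP _ (ap_of_qp _ (qp_of_qr hG)) f hf

end Pool.Agent.N9181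

end

section

namespace Pool.Agent.N9181

open scoped commutatorElement

theorem xsbba_mul {V : Type} [AddCommGroup V] [Module K V]
    {H : Type} [Group H] (ρ : Representation K H V) (T : Submodule K V) (a b : H) :
    T.map (ρ (a * b)) = (T.map (ρ b)).map (ρ a) := by
  rw [map_mul, Module.End.mul_eq_comp, Submodule.map_comp]

theorem xsbba_one {V : Type} [AddCommGroup V] [Module K V]
    {H : Type} [Group H] (ρ : Representation K H V) (T : Submodule K V) :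
    T.map (ρ 1) = T := by
  rw [map_one, Module.End.one_eq_id, Submodule.map_id]

theorem xsbba_inv {V : Type} [AddCommGroup V] [Module K V]
    {H : Type} [Group H] (ρ : Representation K H V) (T : Submodule K V) (a : H)
    (h : T.map (ρ a) = T) : T.map (ρ a⁻¹) = T := by
  conv_lhs => rw [← h]
  rw [← xsbba_mul, inv_mul_cancel, xsbba_one]

theorem xsbba_pow {V : Type} [AddCommGroup V] [Module K V]
    {H : Type} [Group H] (ρ : Representation K H V) (T : Submodule K V) (a : H)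
    (h : T.map (ρ a) = T) (k : ℕ) : T.map (ρ (a ^ k)) = T := by
  induction k with
  | zero => rw [pow_zero, xsbba_one]
  | succ k ih => rw [pow_succ, xsbba_mul, h, ih]

/-- the stabiliser of a subspace -/
def xsbbaSt {V : Type} [AddCommGroup V] [Module K V]
    {H : Type} [Group H] (ρ : Representation K H V) (T : Submodule K V) : Subgroup H where
  carrier := {g | T.map (ρ g) = T}
  one_mem' := xsbba_one ρ T
  mul_mem' := fun {a b} (ha : T.map (ρ a) = T) (hb : T.map (ρ b) = T) => by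
    show T.map (ρ (a * b)) = T
    rw [xsbba_mul, hb, ha]
  inv_mem' := fun {a} ha => xsbba_inv ρ T a ha

theorem bb_key {V : Type} [AddCommGroup V] [Module K V] [Module.Finite K V]
    {H : Type} [Group H] [Finite H] (ρ : Representation K H V) (E : Subgroup H) (hE : E.Normal) (h2 : IsPGroup 2 E) (s : H) (n : ℕ)
    (hs : s ^ (3 ^ n) = 1) (T : Submodule K V) (hT : T.map (ρ s) = T) (f : H) (hf : f ∈ E)
    (hT' : (T.map (ρ f)).map (ρ s) = T.map (ρ f)) :
    ∃ g ∈ E, g * s = s * g ∧ T.map (ρ g) = T.map (ρ f) := by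
  classical
  have : Fact (Nat.Prime 2) := ⟨Nat.prime_two⟩
  have : Fact (Nat.Prime 3) := ⟨Nat.prime_three⟩
  let D : Type := {g : H // g ∈ E ∧ T.map (ρ g) = T.map (ρ f)}
  let e : (E ⊓ xsbbaSt ρ T : Subgroup H) ≃ D :=
    { toFun := fun x => ⟨f * x.1, E.mul_mem hf x.2.1, by
        have hx : T.map (ρ x.1) = T := x.2.2
        rw [xsbba_mul, hx]⟩
      invFun := fun g => ⟨f⁻¹ * g.1, E.mul_mem (E.inv_mem hf) g.2.1, by
        show T.map (ρ (f⁻¹ * g.1)) = T
        rw [xsbba_mul, g.2.2, ← xsbba_mul, inv_mul_cancel, xsbba_one]⟩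
      left_inv := fun x => Subtype.ext (inv_mul_cancel_left _ _)
      right_inv := fun g => Subtype.ext (mul_inv_cancel_left _ _) }
  obtain ⟨k, hk⟩ := IsPGroup.iff_card.1 (h2.to_inf_left (K := xsbbaSt ρ T))
  have hfin : Fintype D := Fintype.ofFinite D
  have hcard : Fintype.card D = 2 ^ k := by
    rw [← hk, Nat.card_congr e, Nat.card_eq_fintype_card]
  let φ : Function.End D := fun g => ⟨s * g.1 * s⁻¹, hE.conj_mem _ g.2.1 s, by
    rw [xsbba_mul, xsbba_inv ρ T s hT, xsbba_mul, g.2.2, hT']⟩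
  have hφ : ∀ (j : ℕ) (g : D), ((φ ^ j) g).1 = s ^ j * g.1 * (s ^ j)⁻¹ := by
    intro j
    induction j with
    | zero =>
      intro g
      rw [pow_zero, pow_zero, one_mul, inv_one, mul_one]
      rfl
    | succ j ih =>
      intro g
      have h1 : (φ ^ (j + 1)) g = φ ((φ ^ j) g) := by rw [pow_succ']; rfl
      rw [h1]
      show s * ((φ ^ j) g).1 * s⁻¹ = _
      rw [ih, pow_succ']
      group
  have h1 : φ ^ 3 ^ n = 1 := by
    funext g
    refine Subtype.ext ?_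
    rw [hφ, hs, one_mul, inv_one, mul_one]
    rfl
  have hm := Equiv.Perm.card_fixedPoints_modEq (f := φ) (p := 3) (n := n) h1
  have hne : Fintype.card (Function.fixedPoints φ) ≠ 0 := by
    intro h0
    rw [h0, hcard] at hm
    have h3 : 3 ∣ 2 ^ k := (Nat.modEq_zero_iff_dvd).1 hm
    have := Nat.prime_three.dvd_of_dvd_pow h3
    omega
  obtain ⟨⟨g, hg⟩⟩ := Fintype.card_pos_iff.1 (Nat.pos_of_ne_zero hne)
  have hg' : s * g.1 * s⁻¹ = g.1 := congrArg Subtype.val hg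
  refine ⟨g.1, g.2.1, ?_, g.2.2⟩
  conv_lhs => rw [← hg']
  rw [inv_mul_cancel_right]

theorem xsbba_act {V : Type} [AddCommGroup V] [Module K V] [Module.Finite K V]
    {H : Type} [Group H] [Finite H] (ρ : Representation K H V) (E : Subgroup H) (hE : E.Normal)
    (h2 : IsPGroup 2 E) (s : H) (n : ℕ)
    (hs : s ^ (3 ^ n) = 1) (T : Submodule K V) (hT : T.map (ρ s) = T) (f : H) (hf : f ∈ E)
    (hT' : (T.map (ρ f)).map (ρ s) = T.map (ρ f)) (c : K) (hc : ∀ w ∈ T, ρ s w = c • w) :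
    ∀ w ∈ T.map (ρ f), ρ s w = c • w := by
  obtain ⟨g, -, hg, hgT⟩ := bb_key ρ E hE h2 s n hs T hT f hf hT'
  rw [← hgT]
  rintro _ ⟨w, hw, rfl⟩
  rw [← rho_mul, ← hg, rho_mul, hc w hw, map_smul]

theorem bb_cyc {V : Type} [AddCommGroup V] [Module K V] [Module.Finite K V]
    {H : Type} [Group H] [Finite H] (ρ : Representation K H V) (E : Subgroup H) (hE : E.Normal) (h2 : IsPGroup 2 E) (H1 : Subgroup H)
    (s : H) (hs1 : s ∈ H1) (n : ℕ) (hs : s ^ (3 ^ n) = 1) (S : Set (Submodule K V))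
    (hS : SBD (V := V) (H := H1) (ρ.comp H1.subtype) S) (T : Submodule K V) (hT : T ∈ S)
    (hsT : T.map (ρ s) = T) (htr : ∀ U ∈ S, ∃ f ∈ E, U = T.map (ρ f)) :
    (∃ c k : ℕ, 0 < k ∧ ∀ ν : K, ν ^ 3 = 1 → ed (ρ s) ν = c + k * edOn T (ρ s) ν) ∧
      ((∀ w ∈ T, ρ s w = (3 : K) • w) → (∀ v, ρ s v = v → v = 0) → ∀ v, ρ s v = (3 : K) • v) := by
  classical
  obtain ⟨hF, hA, hsm, hB⟩ := sbd_bd (V := V) (H := H1) (ρ.comp H1.subtype) S hS
  let t : H1 := ⟨s, hs1⟩
  have ht : t ^ (3 ^ n) = 1 := Subtype.ext (by simpa using hs)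
  have hsm' : ∀ (j : ℕ) (U : S), ((t ^ j • U : S) : Submodule K V) =
      (U : Submodule K V).map (ρ (s ^ j)) := fun j U => hsm (t ^ j) U
  have hsm1 : ∀ U : S, ((t • U : S) : Submodule K V) = (U : Submodule K V).map (ρ s) :=
    fun U => hsm t U
  constructor
  · obtain ⟨c, hc, -⟩ := cyc (V := V) (H := H1) (ρ.comp H1.subtype)
      (fun U : S => (U : Submodule K V)) hB t n ht
    refine ⟨c, (Finset.univ.filter (fun i : S => t • i = i)).card, ?_, fun ν hν => ?_⟩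
    · refine Finset.card_pos.2 ⟨⟨T, hT⟩, Finset.mem_filter.2 ⟨Finset.mem_univ _, ?_⟩⟩
      exact Subtype.ext ((hsm1 ⟨T, hT⟩).trans hsT)
    · have h1 : ed (ρ s) ν = c + ∑ i ∈ Finset.univ.filter (fun i : S => t • i = i),
          edOn (i : Submodule K V) (ρ s) ν := hc ν hν
      rw [h1, ← smul_eq_mul, ← Finset.sum_const]
      congr 1
      refine Finset.sum_congr rfl fun U hU => ?_
      have hU' : (U : Submodule K V).map (ρ s) = U := by
        rw [← hsm1, (Finset.mem_filter.1 hU).2]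
      obtain ⟨f, hf, hUf⟩ := htr U U.2
      rw [hUf] at hU' ⊢
      obtain ⟨g, -, hg, hgT⟩ := bb_key ρ E hE h2 s n hs T hsT f hf hU'
      have h3 := edOn_conj ρ T g s ν
      rwa [hg, mul_inv_cancel_right, hgT] at h3
  · intro h3 h0
    obtain ⟨P, -, -, hP3, hP4, -⟩ := exists_proj (V := V) (H := H1) (ρ.comp H1.subtype)
      (fun U : S => (U : Submodule K V)) hB
    have hfix : ∀ U : S, t • U = U := by
      intro U
      by_contra hU
      have hd : MulAction.period t U ∣ 3 ^ n :=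
        MulAction.pow_smul_eq_iff_period_dvd.1 (by rw [ht, one_smul])
      obtain ⟨c, -, hc⟩ := (Nat.dvd_prime_pow Nat.prime_three).1 hd
      have hc0 : c ≠ 0 := by
        rintro rfl
        apply hU
        have := (MulAction.pow_smul_eq_iff_period_dvd (n := 1) (m := t) (a := U)).2
          (by rw [hc]; simp)
        rwa [pow_one] at this
      obtain ⟨c, rfl⟩ := Nat.exists_eq_succ_of_ne_zero hc0
      have hUm : (U : Submodule K V).map (ρ (s ^ 3 ^ (c + 1))) = U := by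
        rw [← hsm', (MulAction.pow_smul_eq_iff_period_dvd (m := t) (a := U)).2 (by rw [hc])]
      obtain ⟨f, hf, hUf⟩ := htr U U.2
      have hact : ∀ w ∈ (U : Submodule K V), ρ (s ^ 3 ^ (c + 1)) w = (1 : K) • w := by
        rw [hUf] at hUm ⊢
        refine xsbba_act ρ E hE h2 (s ^ 3 ^ (c + 1)) n ?_ T (xsbba_pow ρ T s hsT _) f hf hUm 1
          fun w hw => ?_
        · rw [← pow_mul, mul_comm, pow_mul, hs, one_pow]
        · rw [rho_pow_eig ρ s w 3 (h3 w hw), pow_succ', pow_mul,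
            show (3 : K) ^ 3 = 1 by decide, one_pow]
      obtain ⟨w, hw, hw0⟩ := (Submodule.ne_bot_iff _).1 (hB.ne U)
      have hv : ρ s (∑ i ∈ Finset.range (3 ^ (c + 1)), ρ (s ^ i) w) =
          ∑ i ∈ Finset.range (3 ^ (c + 1)), ρ (s ^ i) w := by
        have e1 := Finset.sum_range_succ (fun i => ρ (s ^ i) w) (3 ^ (c + 1))
        have e2 := Finset.sum_range_succ' (fun i => ρ (s ^ i) w) (3 ^ (c + 1))
        rw [e1, hact w hw, one_smul, pow_zero, map_one, Module.End.one_apply] at e2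
        rw [map_sum, add_right_cancel e2]
        refine Finset.sum_congr rfl fun i _ => ?_
        rw [pow_succ', rho_mul]
      have hz := congrArg (P U) (h0 _ hv)
      rw [map_zero, map_sum, Finset.sum_eq_single 0] at hz
      · rw [pow_zero, map_one, Module.End.one_apply, hP3 U w hw] at hz
        exact hw0 hz
      · intro i hi hi0
        refine hP4 U (t ^ i • U) (fun h => ?_) _ (hB.map (t ^ i) U w hw)
        have h4 := MulAction.pow_smul_eq_iff_period_dvd.1 h.symm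
        rw [hc] at h4
        exact absurd (Nat.le_of_dvd (Nat.pos_of_ne_zero hi0) h4)
          (not_le.2 (Finset.mem_range.1 hi))
      · intro h
        exact absurd (Finset.mem_range.2 (by positivity)) h
    have key := ext_blocks (V := V) (H := H1) (ρ.comp H1.subtype)
      (fun U : S => (U : Submodule K V)) hB (ρ s) ((3 : K) • LinearMap.id) fun U w hw => by
        have hU' : (U : Submodule K V).map (ρ s) = U := by rw [← hsm1, hfix U]
        obtain ⟨f, hf, hUf⟩ := htr U U.2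
        have hw' : w ∈ T.map (ρ f) := hUf ▸ hw
        rw [hUf] at hU'
        exact xsbba_act ρ E hE h2 s n hs T hsT f hf hU' 3 h3 w hw'
    intro v
    rw [key]
    rfl

end Pool.Agent.N9181

end

section

namespace Pool.Agent.N9181

open scoped commutatorElement

theorem p2_ind {V : Type} [AddCommGroup V] [Module K V] [Module.Finite K V] (X Z : Module.End K V) (ζ : K) (m : V) (h : P2 X Z ζ m) (a b : K)
    (hab : a • m + b • X m = 0) : a = 0 ∧ b = 0 := by
  have hz : ζ ≠ 0 := by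
    intro h0
    have := h.z4
    rw [h0] at this
    revert this
    decide
  have h1 := congrArg Z hab
  rw [map_add, map_smul, map_smul, h.zm, h.zx, map_zero] at h1
  have h2 : (2 * ζ * a) • m = 0 := by
    have e : (2 * ζ * a) • m = ζ • (a • m + b • X m) + (a • ζ • m + b • (-ζ) • X m) := by module
    rw [e, hab, h1, smul_zero, add_zero]
  have ha : a = 0 := by
    rcases smul_eq_zero.1 h2 with h3 | h3
    · rcases mul_eq_zero.1 h3 with h4 | h4
      · rcases mul_eq_zero.1 h4 with h5 | h5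
        · exact absurd h5 (by decide)
        · exact absurd h5 hz
      · exact h4
    · exact absurd h3 h.ne
  refine ⟨ha, ?_⟩
  rw [ha, zero_smul, zero_add] at hab
  rcases smul_eq_zero.1 hab with h3 | h3
  · exact h3
  · exfalso
    rcases h.xx with h4 | h4
    · rw [h3, map_zero] at h4
      exact h.ne h4.symm
    · rw [h3, map_zero] at h4
      exact h.ne (neg_eq_zero.1 h4.symm)

/-- first coordinate of `X ^ a * D ^ b` applied to `(x, y)` -/
def xsqmaF (e : K) (a b : ℕ) (x y : K) : K :=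
  if a = 0 then x else if b = 0 then e * y else -(e * y)

/-- second coordinate of `X ^ a * D ^ b` applied to `(x, y)` -/
def xsqmaG (a b : ℕ) (x y : K) : K :=
  if a = 0 then (if b = 0 then y else -y) else x

section

variable {V : Type} [AddCommGroup V] [Module K V] [Module.Finite K V]

theorem xsqma_inj (X Z : Module.End K V) (ζ : K) (m : V) (h : P2 X Z ζ m) (x y x' y' : K)
    (e : x • m + y • X m = x' • m + y' • X m) : x = x' ∧ y = y' := by
  have := p2_ind X Z ζ m h (x - x') (y - y') (by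
    have e2 : (x - x') • m + (y - y') • X m = (x • m + y • X m) - (x' • m + y' • X m) := by module
    rw [e2, e, sub_self])
  exact ⟨sub_eq_zero.1 this.1, sub_eq_zero.1 this.2⟩

omit [Module.Finite K V] in
theorem xsqma_eps (X Z : Module.End K V) (ζ : K) (m : V) (h : P2 X Z ζ m) :
    ∃ e : K, (e = 1 ∨ e = -1) ∧ X (X m) = e • m := by
  rcases h.xx with h1 | h1
  · exact ⟨1, Or.inl rfl, by rw [h1, one_smul]⟩
  · exact ⟨-1, Or.inr rfl, by rw [h1, neg_smul, one_smul]⟩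

omit [Module.Finite K V] in
theorem xsqma_app (X Z : Module.End K V) (ζ : K) (m : V) (h : P2 X Z ζ m) (e : K)
    (he : X (X m) = e • m) (a b : ℕ) (ha : a < 2) (hb : b < 2) (x y : K) :
    (X ^ a * Z ^ b) (x • m + y • X m) =
      (ζ ^ b * xsqmaF e a b x y) • m + (ζ ^ b * xsqmaG a b x y) • X m := by
  have hm := h.zm
  have hx := h.zx
  interval_cases a <;> interval_cases b <;>
    simp only [xsqmaF, xsqmaG, pow_zero, pow_one, one_mul, mul_one, Module.End.one_apply,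
      Module.End.mul_apply, map_add, map_smul, hm, hx, he, if_true, one_ne_zero, if_false] <;>
    module

omit [Module.Finite K V] in
theorem xsqma_mem (X : Module.End K V) (m : V) (x y : K) : x • m + y • X m ∈ T2 X m :=
  Submodule.mem_span_pair.2 ⟨x, y, rfl⟩

end

theorem xsqma_z (ζ : K) (h : ζ ^ 4 = 1) : ζ ≠ 0 := by
  intro h0
  rw [h0] at h
  revert h
  decide

theorem xsqma_fin1 : ∀ e : K, (e = 1 ∨ e = -1) → ∀ a : Fin 2, ∀ b : Fin 2, ∀ c : K,
    xsqmaF e a b 1 3 = c → xsqmaG a b 1 3 = c * 3 → (a : ℕ) = 0 ∧ (b : ℕ) = 0 := by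
  decide +kernel

theorem qb_eig {V : Type} [AddCommGroup V] [Module K V] [Module.Finite K V] (X Z : Module.End K V) (ζ : K) (m : V) (h : P2 X Z ζ m) (a b : ℕ)
    (ha : a < 2) (hb : b < 2) (c : K)
    (hc : (X ^ a * Z ^ b) (m + (3 : K) • X m) = c • (m + (3 : K) • X m)) : a = 0 ∧ b = 0 := by
  obtain ⟨e, he, hx⟩ := xsqma_eps X Z ζ m h
  have hz := pow_ne_zero b (xsqma_z ζ h.z4)
  have h1 := xsqma_app X Z ζ m h e hx a b ha hb 1 3
  rw [one_smul, hc] at h1
  have h2 : c • (m + (3 : K) • X m) = c • m + (c * 3) • X m := by module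
  rw [h2] at h1
  obtain ⟨h3, h4⟩ := xsqma_inj X Z ζ m h _ _ _ _ h1
  refine xsqma_fin1 e he ⟨a, ha⟩ ⟨b, hb⟩ ((ζ ^ b)⁻¹ * c) ?_ ?_
  · show xsqmaF e a b 1 3 = _
    rw [h3]; field_simp
  · show xsqmaG a b 1 3 = _
    rw [mul_assoc, h4]; field_simp

/-- the cube of the matrix with rows `(r, p)`, `(s, q)` is a scalar -/
def xsqmaC (r p s q : K) : Prop :=
  (r * r + p * s) * p + (r * p + p * q) * q = 0 ∧ (s * r + q * s) * r + (s * p + q * q) * s = 0 ∧
    (r * r + p * s) * r + (r * p + p * q) * s = (s * r + q * s) * p + (s * p + q * q) * q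

instance (r p s q : K) : Decidable (xsqmaC r p s q) := by unfold xsqmaC; infer_instance

set_option synthInstance.maxSize 4000 in
theorem xsqma_fin2 : ∀ e : K, (e = 1 ∨ e = -1) → ∀ p q : K, ∀ a : Fin 2, ∀ b : Fin 2, ∀ c : K,
    p = c * xsqmaF e a b (1 - 3 * p) (3 - 3 * q) → q = c * xsqmaG a b (1 - 3 * p) (3 - 3 * q) →
    e * (1 - 3 * p) = c * xsqmaF e a b p q → e * (3 - 3 * q) = c * xsqmaG a b p q →
    ∀ a' : Fin 2, ∀ b' : Fin 2, ∀ c' : K,
    1 - 3 * p = c' * xsqmaF e a' b' (1 - 3 * p) (3 - 3 * q) →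
    3 - 3 * q = c' * xsqmaG a' b' (1 - 3 * p) (3 - 3 * q) →
    -p = c' * xsqmaF e a' b' p q → -q = c' * xsqmaG a' b' p q →
    xsqmaC (1 - 3 * p) p (3 - 3 * q) q := by
  decide +kernel

theorem qb {V : Type} [AddCommGroup V] [Module K V] [Module.Finite K V] (X Z S : Module.End K V) (ζ : K) (m : V) (h : P2 X Z ζ m)
    (hP : PN 2 (T2 X m) X Z S) (n : ℕ) (hn : ¬ 3 ∣ n) (hS : S ^ n = 1) (c : K)
    (hc : S (m + (3 : K) • X m) = c • (m + (3 : K) • X m)) : S m = c • m ∧ S (X m) = c • X m := by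
  obtain ⟨e, he, hx⟩ := xsqma_eps X Z ζ m h
  have hz := xsqma_z ζ h.z4
  obtain ⟨⟨c1, a, b, ha, hb, r1⟩, c2, a', b', ha', hb', r2⟩ := hP
  have hw : m + (3 : K) • X m ≠ 0 := fun h0 =>
    one_ne_zero (p2_ind X Z ζ m h 1 3 (by rw [one_smul]; exact h0)).1
  obtain ⟨k, hk⟩ : ∃ k, S ^ (3 * k + 1) = 1 := by
    have h3 : n % 3 = 1 ∨ n % 3 = 2 := by omega
    rcases h3 with h3 | h3
    · exact ⟨n / 3, by rw [show 3 * (n / 3) + 1 = n by omega, hS]⟩
    · exact ⟨2 * (n / 3) + 1, by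
        rw [show 3 * (2 * (n / 3) + 1) + 1 = n * 2 by omega, pow_mul, hS, one_pow]⟩
  have hc0 : c ≠ 0 := by
    intro h0
    rw [h0, zero_smul] at hc
    apply hw
    have : (S ^ (3 * k + 1)) (m + (3 : K) • X m) = 0 := by
      rw [pow_succ, Module.End.mul_apply, hc, map_zero]
    rwa [hk, Module.End.one_apply] at this
  have h9 : (9 * e - 1 : K) ≠ 0 := by
    rcases he with he | he <;> rw [he] <;> decide
  obtain ⟨p, q, hq⟩ : ∃ p q : K, S (X m) = (c * p) • m + (c * q) • X m := by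
    have h1 := r1 _ (xsqma_mem X m 1 3)
    rw [one_smul, hc, map_smul] at h1
    have h2 := xsqma_app X Z ζ m h e hx a b ha hb 1 3
    rw [one_smul] at h2
    rw [h2] at h1
    have h3 : (9 * e - 1 : K) • X m = (3 * e) • (m + (3 : K) • X m) - X (m + (3 : K) • X m) := by
      rw [map_add, map_smul, hx]; module
    have h4 := congrArg S h3
    rw [map_smul, map_sub, map_smul, hc, h1] at h4
    refine ⟨(9 * e - 1)⁻¹ * (3 * e - c1 * (ζ ^ b * xsqmaF e a b 1 3)),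
      (9 * e - 1)⁻¹ * (9 * e - c1 * (ζ ^ b * xsqmaG a b 1 3)), ?_⟩
    rw [← inv_smul_smul₀ h9 (S (X m)), h4]
    module
  have hp : S m = (c * (1 - 3 * p)) • m + (c * (3 - 3 * q)) • X m := by
    have h1 : S m = S (m + (3 : K) • X m) - (3 : K) • S (X m) := by
      rw [map_add, map_smul]; abel
    rw [h1, hc, hq]; module
  have hm : m ∈ T2 X m := by simpa using xsqma_mem X m 1 0
  have hm' : X m ∈ T2 X m := by simpa using xsqma_mem X m 0 1
  have sc : ∀ (a b : ℕ), a < 2 → b < 2 → ∀ (d x y : K),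
      d • (X ^ a * Z ^ b) ((c * x) • m + (c * y) • X m) =
        (c * (d * ζ ^ b * xsqmaF e a b x y)) • m + (c * (d * ζ ^ b * xsqmaG a b x y)) • X m := by
    intro a b ha hb d x y
    have h1 : (c * x) • m + (c * y) • X m = c • (x • m + y • X m) := by module
    rw [h1, map_smul, xsqma_app X Z ζ m h e hx a b ha hb]
    module
  have e1 := r1 m hm
  rw [hp, hq, sc a b ha hb] at e1
  have e2 := r1 _ hm'
  rw [hx, map_smul, hp, hq, sc a b ha hb, smul_add, smul_smul, smul_smul] at e2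
  have e3 := r2 m hm
  rw [h.zm, map_smul, hp, sc a' b' ha' hb', smul_add, smul_smul, smul_smul] at e3
  have e4 := r2 _ hm'
  rw [h.zx, map_smul, hq, sc a' b' ha' hb', smul_add, smul_smul, smul_smul] at e4
  obtain ⟨f1, g1⟩ := xsqma_inj X Z ζ m h _ _ _ _ e1
  obtain ⟨f2, g2⟩ := xsqma_inj X Z ζ m h _ _ _ _ e2
  obtain ⟨f3, g3⟩ := xsqma_inj X Z ζ m h _ _ _ _ e3
  obtain ⟨f4, g4⟩ := xsqma_inj X Z ζ m h _ _ _ _ e4
  have hcz := mul_ne_zero hc0 hz
  have iz : ζ * ζ⁻¹ = 1 := mul_inv_cancel₀ hz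
  obtain ⟨u1, u2, u3⟩ := xsqma_fin2 e he p q ⟨a, ha⟩ ⟨b, hb⟩ (c1 * ζ ^ b)
    (mul_left_cancel₀ hc0 f1) (mul_left_cancel₀ hc0 g1)
    (mul_left_cancel₀ hc0 (by linear_combination f2))
    (mul_left_cancel₀ hc0 (by linear_combination g2)) ⟨a', ha'⟩ ⟨b', hb'⟩ (ζ⁻¹ * (c2 * ζ ^ b'))
    (mul_left_cancel₀ hcz (by
      linear_combination f3 - (c * (c2 * ζ ^ b' * xsqmaF e a' b' (1 - 3 * p) (3 - 3 * q))) * iz))
    (mul_left_cancel₀ hcz (by
      linear_combination g3 - (c * (c2 * ζ ^ b' * xsqmaG a' b' (1 - 3 * p) (3 - 3 * q))) * iz))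
    (mul_left_cancel₀ hcz (by
      linear_combination f4 - (c * (c2 * ζ ^ b' * xsqmaF e a' b' p q)) * iz))
    (mul_left_cancel₀ hcz (by
      linear_combination g4 - (c * (c2 * ζ ^ b' * xsqmaG a' b' p q)) * iz))
  obtain ⟨l, hl⟩ : ∃ l : K, l = c ^ 3 * (((1 - 3 * p) * (1 - 3 * p) + p * (3 - 3 * q)) * (1 - 3 * p) +
      ((1 - 3 * p) * p + p * q) * (3 - 3 * q)) := ⟨_, rfl⟩
  have c1m : S (S (S m)) = l • m := by
    have : S (S (S m)) = l • m + (c ^ 3 * (((3 - 3 * q) * (1 - 3 * p) + q * (3 - 3 * q)) * (1 - 3 * p) +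
        ((3 - 3 * q) * p + q * q) * (3 - 3 * q))) • X m := by
      simp only [hp, hq, map_add, map_smul, hl]
      module
    rw [this, u2, mul_zero, zero_smul, add_zero]
  have c2m : S (S (S (X m))) = l • X m := by
    have : S (S (S (X m))) = (c ^ 3 * (((1 - 3 * p) * (1 - 3 * p) + p * (3 - 3 * q)) * p +
        ((1 - 3 * p) * p + p * q) * q)) • m + (c ^ 3 * (((3 - 3 * q) * (1 - 3 * p) +
        q * (3 - 3 * q)) * p + ((3 - 3 * q) * p + q * q) * q)) • X m := by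
      simp only [hp, hq, map_add, map_smul]
      module
    rw [this, u1, mul_zero, zero_smul, zero_add, ← u3, ← hl]
  have pw : ∀ v : V, S (S (S v)) = l • v → v = l ^ k • S v := by
    intro v hv
    have h1 : ∀ j : ℕ, (S ^ (3 * j)) v = l ^ j • v := by
      intro j
      induction j with
      | zero => simp
      | succ j ih =>
        rw [show 3 * (j + 1) = 3 * j + 1 + 1 + 1 by ring, pow_succ, pow_succ, pow_succ,
          Module.End.mul_apply, Module.End.mul_apply, Module.End.mul_apply, hv, map_smul, ih,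
          smul_smul, pow_succ']
    have h2 : (S ^ (3 * k + 1)) v = l ^ k • S v := by
      rw [pow_succ', Module.End.mul_apply, h1, map_smul]
    rwa [hk, Module.End.one_apply] at h2
  have hlc : l ^ k * c = 1 := by
    have h1 := pw (m + (3 : K) • X m) (by
      rw [map_add, map_add, map_add, map_smul, map_smul, map_smul, c1m, c2m]; module)
    rw [hc, smul_smul] at h1
    have h2 : (l ^ k * c - 1) • (m + (3 : K) • X m) = 0 := by
      rw [sub_smul, ← h1, one_smul, sub_self]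
    exact sub_eq_zero.1 ((smul_eq_zero.1 h2).resolve_right hw)
  have fin : ∀ v : V, S (S (S v)) = l • v → S v = c • v := by
    intro v hv
    have h1 := congrArg (fun u => c • u) (pw v hv)
    simp only [smul_smul] at h1
    rw [h1, mul_comm, hlc, one_smul]
  exact ⟨fin m c1m, fin _ c2m⟩

set_option synthInstance.maxSize 4000 in
theorem xsqma_fin3 : ∀ e : K, (e = 1 ∨ e = -1) → ∀ a : Fin 2, ∀ b : Fin 2, ∀ c : K,
    (0 = c * xsqmaF e a b 1 0 → 1 = c * xsqmaG a b 1 0 → e = c * xsqmaF e a b 0 1 →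
      (a : ℕ) = 1 ∧ (b : ℕ) = 0 ∧ c = 1) ∧
    (1 = c * xsqmaF e a b 1 0 → -1 = c * xsqmaG a b 0 1 → (a : ℕ) = 0 ∧ (b : ℕ) = 1 ∧ c = 1) := by
  decide +kernel

theorem qb_uniq {V : Type} [AddCommGroup V] [Module K V] [Module.Finite K V] (X Z : Module.End K V) (ζ : K) (m : V) (h : P2 X Z ζ m) (a b : ℕ)
    (ha : a < 2) (hb : b < 2) (c : K) :
    ((∀ v ∈ T2 X m, X v = c • (X ^ a * Z ^ b) v) → a = 1 ∧ b = 0 ∧ c = 1) ∧
      ((∀ v ∈ T2 X m, Z v = c • (X ^ a * Z ^ b) v) → a = 0 ∧ b = 1 ∧ c = 1) := by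
  obtain ⟨e, he, hx⟩ := xsqma_eps X Z ζ m h
  have hz := xsqma_z ζ h.z4
  have sc : ∀ x y : K, c • (X ^ a * Z ^ b) (x • m + y • X m) =
      (c * ζ ^ b * xsqmaF e a b x y) • m + (c * ζ ^ b * xsqmaG a b x y) • X m := by
    intro x y
    rw [xsqma_app X Z ζ m h e hx a b ha hb]
    module
  constructor
  · intro r
    have e1 := r _ (xsqma_mem X m 1 0)
    have e2 := r _ (xsqma_mem X m 0 1)
    rw [sc] at e1 e2
    have t1 : X ((1 : K) • m + (0 : K) • X m) = (0 : K) • m + (1 : K) • X m := by simp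
    have t2 : X ((0 : K) • m + (1 : K) • X m) = e • m + (0 : K) • X m := by simp [hx]
    rw [t1] at e1
    rw [t2] at e2
    obtain ⟨f1, g1⟩ := xsqma_inj X Z ζ m h _ _ _ _ e1
    obtain ⟨f2, -⟩ := xsqma_inj X Z ζ m h _ _ _ _ e2
    obtain ⟨u1, u2, u3⟩ := (xsqma_fin3 e he ⟨a, ha⟩ ⟨b, hb⟩ (c * ζ ^ b)).1 f1 g1 f2
    have u2' : b = 0 := u2
    refine ⟨u1, u2', ?_⟩
    rwa [u2', pow_zero, mul_one] at u3
  · intro r
    have e1 := r _ (xsqma_mem X m 1 0)
    have e2 := r _ (xsqma_mem X m 0 1)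
    rw [sc] at e1 e2
    have t1 : Z ((1 : K) • m + (0 : K) • X m) = ζ • m + (0 : K) • X m := by simp [h.zm]
    have t2 : Z ((0 : K) • m + (1 : K) • X m) = (0 : K) • m + (-ζ) • X m := by simp [h.zx]
    rw [t1] at e1
    rw [t2] at e2
    obtain ⟨f1, -⟩ := xsqma_inj X Z ζ m h _ _ _ _ e1
    obtain ⟨-, g2⟩ := xsqma_inj X Z ζ m h _ _ _ _ e2
    have iz : ζ * ζ⁻¹ = 1 := mul_inv_cancel₀ hz
    obtain ⟨u1, u2, u3⟩ := (xsqma_fin3 e he ⟨a, ha⟩ ⟨b, hb⟩ (ζ⁻¹ * (c * ζ ^ b))).2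
      (mul_left_cancel₀ hz (by
        linear_combination f1 - (c * ζ ^ b * xsqmaF e a b 1 0) * iz))
      (mul_left_cancel₀ hz (by
        linear_combination g2 - (c * ζ ^ b * xsqmaG a b 0 1) * iz))
    have u2' : b = 1 := u2
    refine ⟨u1, u2', ?_⟩
    rw [u2', pow_one] at u3
    linear_combination u3 - c * iz

end Pool.Agent.N9181

end

section

namespace Pool.Agent.N9181

open scoped commutatorElement

theorem xsqmb_li {V : Type} [AddCommGroup V] [Module K V] (X Z : Module.End K V) (m : V)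
    (h : P3 X Z m) : LinearIndependent K ![m, X m, X (X m)] := by
  have h2 : X (X m) ≠ 0 := fun e => h.ne (by rw [← h.xx, e, map_zero])
  have h1 : X m ≠ 0 := fun e => h2 (by rw [e, map_zero])
  refine Module.End.eigenvectors_linearIndependent' Z ![(1 : K), 3, 9] (by decide) _ fun i => ?_
  fin_cases i
  · exact ⟨Module.End.mem_eigenspace_iff.2 (h.zm.trans (one_smul K m).symm), h.ne⟩
  · exact ⟨Module.End.mem_eigenspace_iff.2 h.z1, h1⟩
  · exact ⟨Module.End.mem_eigenspace_iff.2 h.z2, h2⟩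

theorem p3_ind {V : Type} [AddCommGroup V] [Module K V] [Module.Finite K V] (X Z : Module.End K V) (m : V) (h : P3 X Z m) (a b c : K)
    (hab : a • m + b • X m + c • X (X m) = 0) : a = 0 ∧ b = 0 ∧ c = 0 := by
  have h1 := Fintype.linearIndependent_iff.1 (xsqmb_li X Z m h) ![a, b, c]
    (by rw [Fin.sum_univ_three]; exact hab)
  exact ⟨h1 0, h1 1, h1 2⟩

theorem p3_rank {V : Type} [AddCommGroup V] [Module K V] [Module.Finite K V] (X Z : Module.End K V) (m : V) (h : P3 X Z m) :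
    Module.finrank K (T3 X m) = 3 := by
  have h1 := finrank_span_eq_card (xsqmb_li X Z m h)
  have h2 : Set.range ![m, X m, X (X m)] = {m, X m, X (X m)} := by
    simp only [Matrix.range_cons, Matrix.range_empty, Set.union_empty, Set.singleton_union]
  rw [h2, Fintype.card_fin] at h1
  exact h1

/-- the vector with given coordinates -/
def xsqmbP {V : Type} [AddCommGroup V] [Module K V] (X : Module.End K V) (m : V)
    (t : K × K × K) : V := t.1 • m + t.2.1 • X m + t.2.2 • X (X m)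

def xsqmbX (t : K × K × K) : K × K × K := (t.2.2, t.1, t.2.1)

def xsqmbZ (t : K × K × K) : K × K × K := (t.1, 3 * t.2.1, 9 * t.2.2)

def xsqmbM (a b : ℕ) (t : K × K × K) : K × K × K := xsqmbX^[a] (xsqmbZ^[b] t)

def xsqmbG (c : K) (a b : ℕ) (t : K × K × K) : K × K × K :=
  (3 * t.1 + 12 * t.2.1 + 7 * t.2.2) • ((1, 2, 0) : K × K × K) +
    ((7 * t.1 + 3 * t.2.1 + 12 * t.2.2) * c) • xsqmbM a b (1, 2, 0) +
    ((12 * t.1 + 7 * t.2.1 + 3 * t.2.2) * (c * c)) • xsqmbM a b (xsqmbM a b (1, 2, 0))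

theorem xsqmb_c1 : ∀ a < 3, ∀ b < 3, ∀ c : K,
    xsqmbM a b (1, 2, 0) = c • ((1, 2, 0) : K × K × K) → a = 0 ∧ b = 0 := by
  decide +kernel

def xsqmbR (g : K × K × K → K × K × K) : Prop := ∃ a' < 3, ∃ b' < 3, ∃ c' : K,
  g (xsqmbZ (1, 0, 0)) = c' • xsqmbM a' b' (g (1, 0, 0)) ∧
    g (xsqmbZ (0, 1, 0)) = c' • xsqmbM a' b' (g (0, 1, 0))

instance xsqmbRd (g : K × K × K → K × K × K) : Decidable (xsqmbR g) := by
  unfold xsqmbR
  infer_instance

def xsqmbC (g : K × K × K → K × K × K) : Prop :=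
  g (g (g (1, 0, 0))) = (1, 0, 0) ∧ g (g (g (0, 1, 0))) = (0, 1, 0) ∧
    g (g (g (0, 0, 1))) = (0, 0, 1)

instance xsqmbCd (g : K × K × K → K × K × K) : Decidable (xsqmbC g) := by
  unfold xsqmbC
  infer_instance

theorem xsqmb_c2 : ∀ a < 3, ∀ b < 3, ∀ c : K,
    (1, 2, 0) = (c * c * c) • xsqmbM a b (xsqmbM a b (xsqmbM a b (1, 2, 0))) →
    xsqmbR (xsqmbG c a b) → xsqmbC (xsqmbG c a b) := by
  decide +kernel

section
variable {V : Type} [AddCommGroup V] [Module K V] {X Z : Module.End K V} {m : V}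

theorem xsqmb_add (s t : K × K × K) : xsqmbP X m (s + t) = xsqmbP X m s + xsqmbP X m t := by
  simp only [xsqmbP, Prod.fst_add, Prod.snd_add]
  module

theorem xsqmb_smul (c : K) (t : K × K × K) : xsqmbP X m (c • t) = c • xsqmbP X m t := by
  simp only [xsqmbP, Prod.smul_fst, Prod.smul_snd, smul_eq_mul]
  module

theorem xsqmb_w : xsqmbP X m (1, 2, 0) = m + (2 : K) • X m := by
  simp only [xsqmbP, one_smul, zero_smul, add_zero]

theorem xsqmb_mem (t : K × K × K) : xsqmbP X m t ∈ T3 X m :=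
  add_mem (add_mem (Submodule.smul_mem _ _ (Submodule.subset_span (Or.inl rfl)))
    (Submodule.smul_mem _ _ (Submodule.subset_span (Or.inr (Or.inl rfl)))))
    (Submodule.smul_mem _ _ (Submodule.subset_span (Or.inr (Or.inr rfl))))

theorem xsqmb_inj [Module.Finite K V] (h : P3 X Z m) {s t : K × K × K}
    (e : xsqmbP X m s = xsqmbP X m t) : s = t := by
  obtain ⟨h1, h2, h3⟩ := p3_ind X Z m h (s.1 - t.1) (s.2.1 - t.2.1) (s.2.2 - t.2.2) (by
    rw [← sub_eq_zero.2 e]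
    simp only [xsqmbP]
    module)
  exact Prod.ext (sub_eq_zero.1 h1) (Prod.ext (sub_eq_zero.1 h2) (sub_eq_zero.1 h3))

theorem xsqmb_X (h : P3 X Z m) (t : K × K × K) : X (xsqmbP X m t) = xsqmbP X m (xsqmbX t) := by
  simp only [xsqmbP, xsqmbX, map_add, map_smul, h.xx]
  module

theorem xsqmb_Z (h : P3 X Z m) (t : K × K × K) : Z (xsqmbP X m t) = xsqmbP X m (xsqmbZ t) := by
  simp only [xsqmbP, xsqmbZ, map_add, map_smul, h.zm, h.z1, h.z2]
  module

theorem xsqmb_M (h : P3 X Z m) (a b : ℕ) (t : K × K × K) :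
    (X ^ a * Z ^ b) (xsqmbP X m t) = xsqmbP X m (xsqmbM a b t) := by
  have h1 : Function.Semiconj (xsqmbP X m) xsqmbX X := fun t => (xsqmb_X h t).symm
  have h2 : Function.Semiconj (xsqmbP X m) xsqmbZ Z := fun t => (xsqmb_Z h t).symm
  rw [Module.End.mul_apply, Module.End.pow_apply, Module.End.pow_apply, xsqmbM,
    h1.iterate_right a, h2.iterate_right b]

theorem xsqmb_pow {S : Module.End K V} {c : K} {v : V} (h : S v = c • v) (k : ℕ) :
    (S ^ k) v = c ^ k • v := by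
  induction k with
  | zero => rw [pow_zero, pow_zero, one_smul, Module.End.one_apply]
  | succ k ih => rw [pow_succ, Module.End.mul_apply, h, map_smul, ih, smul_smul, pow_succ']

end

theorem xsqmb_dec (t : K × K × K) :
    t = (3 * t.1 + 12 * t.2.1 + 7 * t.2.2) • ((1, 2, 0) : K × K × K) +
      (7 * t.1 + 3 * t.2.1 + 12 * t.2.2) • xsqmbX (1, 2, 0) +
      (12 * t.1 + 7 * t.2.1 + 3 * t.2.2) • xsqmbX (xsqmbX (1, 2, 0)) := by
  have h13 : (13 : K) = 0 := by decide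
  obtain ⟨x, y, z⟩ := t
  simp only [xsqmbX, Prod.smul_mk, Prod.mk_add_mk, smul_eq_mul, Prod.mk.injEq]
  refine ⟨?_, ?_, ?_⟩
  · linear_combination (-2 * x - 2 * y - z) * h13
  · linear_combination (-x - 2 * y - 2 * z) * h13
  · linear_combination (-2 * x - y - 2 * z) * h13

theorem q3_eig {V : Type} [AddCommGroup V] [Module K V] [Module.Finite K V] (X Z : Module.End K V) (m : V) (h : P3 X Z m) (a b : ℕ) (ha : a < 3)
    (hb : b < 3) (c : K)
    (hc : (X ^ a * Z ^ b) (m + (2 : K) • X m) = c • (m + (2 : K) • X m)) : a = 0 ∧ b = 0 := by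
  rw [← xsqmb_w, xsqmb_M h, ← xsqmb_smul] at hc
  exact xsqmb_c1 a ha b hb c (xsqmb_inj h hc)

theorem q3 {V : Type} [AddCommGroup V] [Module K V] [Module.Finite K V] (X Z S : Module.End K V) (m : V) (h : P3 X Z m)
    (hP : PN 3 (T3 X m) X Z S) (n : ℕ) (hn : ¬ 3 ∣ n) (hS : S ^ n = 1) (c : K)
    (hc : S (m + (2 : K) • X m) = c • (m + (2 : K) • X m)) : ∀ v ∈ T3 X m, S v = c • v := by
  obtain ⟨⟨c1, a, b, ha, hb, h1⟩, c2, a', b', ha', hb', h2⟩ := hP
  rw [← xsqmb_w] at hc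
  obtain ⟨k, hk⟩ : ∃ k, S ^ (3 * k + 1) = 1 := by
    obtain h3 | h3 : n % 3 = 1 ∨ n % 3 = 2 := by omega
    · exact ⟨n / 3, by rw [show 3 * (n / 3) + 1 = n by omega, hS]⟩
    · exact ⟨2 * (n / 3) + 1, by
        rw [show 3 * (2 * (n / 3) + 1) + 1 = n * 2 by omega, pow_mul, hS, one_pow]⟩
  have hck : c ^ (3 * k + 1) = 1 := by
    have h3 := xsqmb_pow hc (3 * k + 1)
    rw [hk, Module.End.one_apply, ← xsqmb_smul] at h3
    have h4 := congrArg Prod.fst (xsqmb_inj h h3)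
    rw [Prod.smul_fst, smul_eq_mul, mul_one] at h4
    exact h4.symm
  have hc0 : c ≠ 0 := by
    rintro rfl
    rw [zero_pow (Nat.succ_ne_zero _)] at hck
    exact zero_ne_one hck
  have st : ∀ (d : K) (s t : K × K × K), S (xsqmbP X m s) = d • xsqmbP X m t →
      S (xsqmbP X m (xsqmbX s)) = (d * c1) • xsqmbP X m (xsqmbM a b t) := by
    intro d s t e
    rw [← xsqmb_X h, h1 _ (xsqmb_mem s), e, map_smul, xsqmb_M h, smul_smul, mul_comm]
  have s1 := st _ _ _ hc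
  have s2 := st _ _ _ s1
  have s3 := st _ _ _ s2
  have e3 : (1, 2, 0) = (c1 * c1 * c1) • xsqmbM a b (xsqmbM a b (xsqmbM a b (1, 2, 0))) := by
    apply xsqmb_inj h
    apply smul_right_injective V hc0
    dsimp only
    rw [← hc, xsqmb_smul, smul_smul, ← mul_assoc, ← mul_assoc, ← s3]
    rfl
  have hG : ∀ t, S (xsqmbP X m t) = c • xsqmbP X m (xsqmbG c1 a b t) := by
    intro t
    conv_lhs => rw [xsqmb_dec t]
    simp only [xsqmbG, xsqmb_add, xsqmb_smul, map_add, map_smul, hc, s1, s2]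
    module
  have hR : ∀ t, xsqmbG c1 a b (xsqmbZ t) = c2 • xsqmbM a' b' (xsqmbG c1 a b t) := by
    intro t
    apply xsqmb_inj h
    apply smul_right_injective V hc0
    dsimp only
    rw [← hG, ← xsqmb_Z h, h2 _ (xsqmb_mem t), hG, map_smul, xsqmb_M h, xsqmb_smul, smul_comm]
  obtain ⟨g0, g1, g2⟩ := xsqmb_c2 a ha b hb c1 e3 ⟨a', ha', b', hb', c2, hR _, hR _⟩
  have h3 : ∀ t, xsqmbG c1 a b (xsqmbG c1 a b (xsqmbG c1 a b t)) = t →
      (S ^ 3) (xsqmbP X m t) = c ^ 3 • xsqmbP X m t := by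
    intro t e
    rw [pow_three, Module.End.mul_apply, Module.End.mul_apply, hG, map_smul, hG, map_smul,
      map_smul, hG, e, smul_smul, smul_smul, pow_three, mul_assoc]
  have h4 : ∀ v ∈ T3 X m, (S ^ 3) v = c ^ 3 • v := by
    intro v hv
    have b0 := h3 _ g0
    have b1 := h3 _ g1
    have b2 := h3 _ g2
    simp only [xsqmbP, one_smul, zero_smul, add_zero, zero_add] at b0 b1 b2
    refine LinearMap.eqOn_span (f := S ^ 3) (g := c ^ 3 • LinearMap.id) ?_ hv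
    rintro x (rfl | rfl | rfl)
    · exact b0
    · exact b1
    · exact b2
  intro v hv
  have h5 := xsqmb_pow (h4 v hv) k
  rw [← pow_mul, ← pow_mul] at h5
  have h6 : (S ^ (3 * k + 1)) v = v := by rw [hk, Module.End.one_apply]
  rw [pow_succ', Module.End.mul_apply, h5, map_smul] at h6
  rw [← h6, smul_smul, ← pow_succ', hck, one_smul, h6]

end Pool.Agent.N9181

end

section

namespace Pool.Agent.N9181

open scoped commutatorElement

abbrev xsqmcT : Type := K × K × K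

def xsqmcX (t : xsqmcT) : xsqmcT := (t.2.2, t.1, t.2.1)

def xsqmcZ (t : xsqmcT) : xsqmcT := (t.1, 3 * t.2.1, 9 * t.2.2)

def xsqmcU (a b : ℕ) (t : xsqmcT) : xsqmcT := xsqmcX^[a] (xsqmcZ^[b] t)

def xsqmcM (c : K) (t : xsqmcT) : xsqmcT := (c * t.1, c * t.2.1, c * t.2.2)

def xsqmcA (s t : xsqmcT) : xsqmcT := (s.1 + t.1, s.2.1 + t.2.1, s.2.2 + t.2.2)

def xsqmcW : xsqmcT := (1, 1, 2)

def xsqmcS (c : K) (a b : ℕ) (t : xsqmcT) : xsqmcT :=
  xsqmcA (xsqmcA (xsqmcM (t.2.2 - 10 * (t.1 + t.2.1 + t.2.2)) xsqmcW)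
    (xsqmcM ((t.1 - 10 * (t.1 + t.2.1 + t.2.2)) * c) (xsqmcU a b xsqmcW)))
    (xsqmcM ((t.2.1 - 10 * (t.1 + t.2.1 + t.2.2)) * (c * c)) (xsqmcU a b (xsqmcU a b xsqmcW)))

def xsqmcE (i : Fin 3) : xsqmcT := (if i = 0 then 1 else 0, if i = 1 then 1 else 0,
  if i = 2 then 1 else 0)

theorem xsqmc_dne : ∀ (a b : Fin 3) (ν : K), xsqmcA (xsqmcA xsqmcW (xsqmcM ν (xsqmcU a b xsqmcW)))
    (xsqmcM (ν ^ 2) (xsqmcU a b (xsqmcU a b xsqmcW))) = (0, 0, 0) → a = 0 ∧ b = 0 := by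
  decide +kernel

theorem xsqmc_deig : ∀ (a b : Fin 3) (c : K), xsqmcU a b xsqmcW = xsqmcM c xsqmcW →
    a = 0 ∧ b = 0 := by
  decide +kernel

theorem xsqmc_dmain : ∀ (c : K) (a b : Fin 3),
    (∀ i : Fin 3, xsqmcS c a b (xsqmcX (xsqmcE i)) =
      xsqmcM c (xsqmcU a b (xsqmcS c a b (xsqmcE i)))) →
    ∀ (c' : K) (a' b' : Fin 3),
    (∀ i : Fin 3, xsqmcS c a b (xsqmcZ (xsqmcE i)) =
      xsqmcM c' (xsqmcU a' b' (xsqmcS c a b (xsqmcE i)))) →
    ∀ i : Fin 3, xsqmcS c a b (xsqmcS c a b (xsqmcS c a b (xsqmcS c a b (xsqmcE i)))) =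
      xsqmcE i := by
  decide +kernel

section

variable {V : Type} [AddCommGroup V] [Module K V]

def xsqmcL (X : Module.End K V) (m : V) (t : xsqmcT) : V :=
  t.1 • m + t.2.1 • X m + t.2.2 • X (X m)

theorem xsqmc_LA (X : Module.End K V) (m : V) (s t : xsqmcT) :
    xsqmcL X m (xsqmcA s t) = xsqmcL X m s + xsqmcL X m t := by
  simp only [xsqmcL, xsqmcA, add_smul]
  abel

theorem xsqmc_LM (X : Module.End K V) (m : V) (c : K) (t : xsqmcT) :
    xsqmcL X m (xsqmcM c t) = c • xsqmcL X m t := by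
  simp only [xsqmcL, xsqmcM, smul_add, smul_smul]

theorem xsqmc_LX {X Z : Module.End K V} {m : V} (h : P3 X Z m) (t : xsqmcT) :
    X (xsqmcL X m t) = xsqmcL X m (xsqmcX t) := by
  simp only [xsqmcL, xsqmcX, map_add, map_smul, h.xx]
  abel

theorem xsqmc_LZ {X Z : Module.End K V} {m : V} (h : P3 X Z m) (t : xsqmcT) :
    Z (xsqmcL X m t) = xsqmcL X m (xsqmcZ t) := by
  simp only [xsqmcL, xsqmcZ, map_add, map_smul, h.zm, h.z1, h.z2, smul_smul, mul_comm]

theorem xsqmc_LXp {X Z : Module.End K V} {m : V} (h : P3 X Z m) (a : ℕ) (t : xsqmcT) :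
    (X ^ a) (xsqmcL X m t) = xsqmcL X m (xsqmcX^[a] t) := by
  induction a generalizing t with
  | zero => simp
  | succ a ih =>
    rw [pow_succ, Module.End.mul_apply, xsqmc_LX h, ih, Function.iterate_succ_apply]

theorem xsqmc_LZp {X Z : Module.End K V} {m : V} (h : P3 X Z m) (a : ℕ) (t : xsqmcT) :
    (Z ^ a) (xsqmcL X m t) = xsqmcL X m (xsqmcZ^[a] t) := by
  induction a generalizing t with
  | zero => simp
  | succ a ih =>
    rw [pow_succ, Module.End.mul_apply, xsqmc_LZ h, ih, Function.iterate_succ_apply]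

theorem xsqmc_LU {X Z : Module.End K V} {m : V} (h : P3 X Z m) (a b : ℕ) (t : xsqmcT) :
    (X ^ a * Z ^ b) (xsqmcL X m t) = xsqmcL X m (xsqmcU a b t) := by
  rw [Module.End.mul_apply, xsqmc_LZp h, xsqmc_LXp h, xsqmcU]

theorem xsqmc_LW (X : Module.End K V) (m : V) :
    xsqmcL X m xsqmcW = m + X m + (2 : K) • X (X m) := by
  simp only [xsqmcL, xsqmcW, one_smul]

theorem xsqmc_mem (X : Module.End K V) (m : V) (t : xsqmcT) : xsqmcL X m t ∈ T3 X m := by
  unfold xsqmcL T3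
  refine Submodule.add_mem _ (Submodule.add_mem _ ?_ ?_) ?_ <;>
    exact Submodule.smul_mem _ _ (Submodule.subset_span (by simp))

theorem xsqmc_inj [Module.Finite K V] {X Z : Module.End K V} {m : V} (h : P3 X Z m)
    {s t : xsqmcT} (e : xsqmcL X m s = xsqmcL X m t) : s = t := by
  have h0 : (s.1 - t.1) • m + (s.2.1 - t.2.1) • X m + (s.2.2 - t.2.2) • X (X m) = 0 := by
    have : xsqmcL X m s - xsqmcL X m t = 0 := sub_eq_zero.2 e
    rw [← this]
    simp only [xsqmcL, sub_smul]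
    abel
  obtain ⟨h1, h2, h3⟩ := p3_ind X Z m h _ _ _ h0
  exact Prod.ext (sub_eq_zero.1 h1) (Prod.ext (sub_eq_zero.1 h2) (sub_eq_zero.1 h3))

theorem xsqmc_dec (t : xsqmcT) : t =
    xsqmcA (xsqmcA (xsqmcM (t.2.2 - 10 * (t.1 + t.2.1 + t.2.2)) xsqmcW)
      (xsqmcM (t.1 - 10 * (t.1 + t.2.1 + t.2.2)) (xsqmcX xsqmcW)))
      (xsqmcM (t.2.1 - 10 * (t.1 + t.2.1 + t.2.2)) (xsqmcX (xsqmcX xsqmcW))) := by
  obtain ⟨x, y, z⟩ := t
  have h13 : (13 : K) = 0 := by decide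
  simp only [xsqmcA, xsqmcM, xsqmcX, xsqmcW, Prod.mk.injEq]
  refine ⟨?_, ?_, ?_⟩
  · linear_combination (3 * (x + y + z)) * h13
  · linear_combination (3 * (x + y + z)) * h13
  · linear_combination (3 * (x + y + z)) * h13

theorem xsqmc_LS {X Z S : Module.End K V} {m : V} (h : P3 X Z m) (c1 : K) (a b : ℕ)
    (h1 : ∀ v ∈ T3 X m, S (X v) = c1 • (X ^ a * Z ^ b) (S v)) (c : K)
    (hc : S (xsqmcL X m xsqmcW) = c • xsqmcL X m xsqmcW) (t : xsqmcT) :
    S (xsqmcL X m t) = c • xsqmcL X m (xsqmcS c1 a b t) := by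
  have e1 : S (xsqmcL X m (xsqmcX xsqmcW)) = (c * c1) • xsqmcL X m (xsqmcU a b xsqmcW) := by
    rw [← xsqmc_LX h, h1 _ (xsqmc_mem X m _), hc, map_smul, xsqmc_LU h, smul_smul, mul_comm]
  have e2 : S (xsqmcL X m (xsqmcX (xsqmcX xsqmcW))) =
      (c * (c1 * c1)) • xsqmcL X m (xsqmcU a b (xsqmcU a b xsqmcW)) := by
    rw [← xsqmc_LX h, h1 _ (xsqmc_mem X m _), e1, map_smul, xsqmc_LU h, smul_smul]
    congr 1
    ring
  conv_lhs => rw [xsqmc_dec t]
  simp only [xsqmcS, xsqmc_LA, xsqmc_LM, map_add, map_smul, hc, e1, e2, smul_add, smul_smul]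
  congr 1
  · congr 1
    · rw [mul_comm]
    · congr 1
      ring
  · congr 1
    ring

end

theorem ql_ne {V : Type} [AddCommGroup V] [Module K V] [Module.Finite K V] (X Z : Module.End K V) (m : V) (h : P3 X Z m) (a b : ℕ) (ha : a < 3)
    (hb : b < 3) (ν : K) (w : V) (hw : w = m + X m + (2 : K) • X (X m))
    (hc : w + ν • (X ^ a * Z ^ b) w + ν ^ 2 • (X ^ a * Z ^ b) ((X ^ a * Z ^ b) w) = 0) :
    a = 0 ∧ b = 0 := by
  rw [← xsqmc_LW] at hw
  subst hw
  rw [xsqmc_LU h, xsqmc_LU h, ← xsqmc_LM, ← xsqmc_LM, ← xsqmc_LA, ← xsqmc_LA] at hc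
  have h0 : (0 : V) = xsqmcL X m (0, 0, 0) := by simp [xsqmcL]
  rw [h0] at hc
  obtain ⟨e1, e2⟩ := xsqmc_dne ⟨a, ha⟩ ⟨b, hb⟩ ν (xsqmc_inj h hc)
  exact ⟨congrArg Fin.val e1, congrArg Fin.val e2⟩

theorem ql_eig {V : Type} [AddCommGroup V] [Module K V] [Module.Finite K V] (X Z : Module.End K V) (m : V) (h : P3 X Z m) (a b : ℕ) (ha : a < 3)
    (hb : b < 3) (c : K) (w : V) (hw : w = m + X m + (2 : K) • X (X m))
    (hc : (X ^ a * Z ^ b) w = c • w) : a = 0 ∧ b = 0 := by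
  rw [← xsqmc_LW] at hw
  subst hw
  rw [xsqmc_LU h, ← xsqmc_LM] at hc
  obtain ⟨e1, e2⟩ := xsqmc_deig ⟨a, ha⟩ ⟨b, hb⟩ c (xsqmc_inj h hc)
  exact ⟨congrArg Fin.val e1, congrArg Fin.val e2⟩

theorem ql {V : Type} [AddCommGroup V] [Module K V] [Module.Finite K V] (X Z S : Module.End K V) (m : V) (h : P3 X Z m)
    (hP : PN 3 (T3 X m) X Z S) (n : ℕ) (hS : S ^ (3 ^ n) = 1) (c : K) (w : V)
    (hw : w = m + X m + (2 : K) • X (X m)) (hc : S w = c • w) : ∀ v ∈ T3 X m, S v = c • v := by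
  rw [← xsqmc_LW] at hw
  subst hw
  obtain ⟨⟨c1, a, b, ha, hb, h1⟩, ⟨c2, a', b', ha', hb', h2⟩⟩ := hP
  have hw0 : xsqmcL X m xsqmcW ≠ 0 := by
    intro e
    have h0 : (0 : V) = xsqmcL X m (0, 0, 0) := by simp [xsqmcL]
    rw [h0] at e
    exact absurd (xsqmc_inj h e) (by decide)
  have hpw : ∀ k : ℕ, (S ^ k) (xsqmcL X m xsqmcW) = c ^ k • xsqmcL X m xsqmcW := by
    intro k
    induction k with
    | zero => simp
    | succ k ih => rw [pow_succ, Module.End.mul_apply, hc, map_smul, ih, smul_smul, pow_succ']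
  have hcN : c ^ (3 ^ n) = 1 := by
    have e := hpw (3 ^ n)
    rw [hS, Module.End.one_apply] at e
    have e' : (c ^ (3 ^ n) - 1) • xsqmcL X m xsqmcW = 0 := by
      rw [sub_smul, one_smul, ← e, sub_self]
    rcases smul_eq_zero.1 e' with e1 | e1
    · exact sub_eq_zero.1 e1
    · exact absurd e1 hw0
  have hc0 : c ≠ 0 := by
    rintro rfl
    rw [zero_pow (pow_ne_zero n (by norm_num))] at hcN
    exact zero_ne_one hcN
  have hL := xsqmc_LS h c1 a b h1 c hc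
  have hinj : ∀ s t : xsqmcT, c • xsqmcL X m s = c • xsqmcL X m t → s = t := fun s t e =>
    xsqmc_inj h (smul_right_injective V hc0 e)
  have k4 := xsqmc_dmain c1 ⟨a, ha⟩ ⟨b, hb⟩ (fun i => by
      apply hinj
      rw [← hL, ← xsqmc_LX h, h1 _ (xsqmc_mem X m _), hL, map_smul, xsqmc_LU h, xsqmc_LM,
        smul_comm]) c2 ⟨a', ha'⟩ ⟨b', hb'⟩ (fun i => by
      apply hinj
      rw [← hL, ← xsqmc_LZ h, h2 _ (xsqmc_mem X m _), hL, map_smul, xsqmc_LU h, xsqmc_LM,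
        smul_comm])
  have s4e : ∀ i : Fin 3, (S ^ 4) (xsqmcL X m (xsqmcE i)) = c ^ 4 • xsqmcL X m (xsqmcE i) := by
    intro i
    have e : (S ^ 4) (xsqmcL X m (xsqmcE i)) = S (S (S (S (xsqmcL X m (xsqmcE i))))) := rfl
    rw [e, hL, map_smul, map_smul, map_smul, hL, map_smul, map_smul, hL, map_smul, hL]
    have := k4 i
    simp only at this
    rw [this, smul_smul, smul_smul, smul_smul]
    congr 1
    ring
  have s4 : ∀ v ∈ T3 X m, (S ^ 4) v = c ^ 4 • v := by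
    intro v hv
    have f0 := s4e 0
    have f1 := s4e 1
    have f2 := s4e 2
    have g0 : xsqmcL X m (xsqmcE 0) = m := by simp [xsqmcL, xsqmcE]
    have g1 : xsqmcL X m (xsqmcE 1) = X m := by simp [xsqmcL, xsqmcE]
    have g2 : xsqmcL X m (xsqmcE 2) = X (X m) := by simp [xsqmcL, xsqmcE]
    rw [g0] at f0
    rw [g1] at f1
    rw [g2] at f2
    refine Submodule.span_induction (p := fun v _ => (S ^ 4) v = c ^ 4 • v) ?_ ?_ ?_ ?_ hv
    · intro x hx
      simp only [Set.mem_insert_iff, Set.mem_singleton_iff] at hx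
      rcases hx with rfl | rfl | rfl
      · exact f0
      · exact f1
      · exact f2
    · simp
    · intro x y _ _ hx hy
      rw [map_add, hx, hy, smul_add]
    · intro r x _ hx
      rw [map_smul, hx, smul_comm]
  have s4k : ∀ (k : ℕ), ∀ v ∈ T3 X m, (S ^ (4 * k)) v = c ^ (4 * k) • v := by
    intro k
    induction k with
    | zero => intro v _; simp
    | succ k ih =>
      intro v hv
      rw [Nat.mul_succ, pow_add, Module.End.mul_apply, s4 v hv, map_smul, ih v hv, smul_smul,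
        ← pow_add, add_comm]
  have hmod : ∃ k : ℕ, 3 ^ n * 3 ^ n = 4 * k + 1 := by
    refine ⟨(3 ^ n * 3 ^ n) / 4, ?_⟩
    have : (3 ^ n * 3 ^ n) % 4 = 1 := by
      rw [← mul_pow, Nat.pow_mod]
      norm_num
    omega
  obtain ⟨k, hk⟩ := hmod
  intro v hv
  have e1 : S ^ (4 * k + 1) = 1 := by rw [← hk, pow_mul, hS, one_pow]
  have e2 : c ^ (4 * k + 1) = 1 := by rw [← hk, pow_mul, hcN, one_pow]
  have e3 : v = c ^ (4 * k) • S v := by
    have : (S ^ (4 * k + 1)) v = v := by rw [e1, Module.End.one_apply]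
    rw [pow_succ', Module.End.mul_apply, s4k k v hv, map_smul] at this
    exact this.symm
  calc S v = c ^ (4 * k + 1) • S v := by rw [e2, one_smul]
    _ = c • c ^ (4 * k) • S v := by rw [smul_smul, pow_succ']
    _ = c • v := by rw [← e3]

end Pool.Agent.N9181

end

section

namespace Pool.Agent.N9181

open scoped commutatorElement

theorem xshsv_sl {V : Type} [AddCommGroup V] [Module K V] [Module.Finite K V]
    {H : Type} [Group H] [Finite H] (ρ : Representation K H V) (p q : ℕ) (ν : K) (hpq : PQ p q ν)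
    (E : Subgroup H) (hE : EH ρ p q E) (ζ : K) (L : Subgroup H) (X Z : H)
    (hH : HS ρ p ν ζ E L X Z) (w : V) (hw : w ∈ fixS ρ L) (h0 : w ≠ 0)
    (heig : ∀ (a b : ℕ) (c : K), a < p → b < p → (ρ X ^ a * ρ Z ^ b) w = c • w → a = 0 ∧ b = 0) :
    SL ρ E L w := by
  intro f hf c hc
  have h1 : ρ f w ∈ fixS ρ L := by
    rw [hc]
    exact Submodule.smul_mem _ _ hw
  have h2 := hs_comm ρ p q ν hpq E hE ζ L X Z hH f hf w hw h0 h1
  obtain ⟨c1, a, b, hc1, ha, hb, h3, h4⟩ := hs_cen ρ p q ν hpq E hE ζ L X Z hH f hf h2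
  have h5 : (ρ X ^ a * ρ Z ^ b) w = (c1⁻¹ * c) • w := by
    rw [mul_smul, eq_inv_smul_iff₀ hc1, ← h3 w hw, hc]
  obtain ⟨rfl, rfl⟩ := heig a b _ ha hb h5
  obtain ⟨l, hl, h6⟩ := h4 rfl rfl
  exact ⟨l, hl, c1, h6⟩

theorem xshsv_pq2 : PQ 2 4 (-1) := Or.inl ⟨rfl, rfl, rfl⟩

theorem xshsv_pq3 : PQ 3 3 3 := Or.inr ⟨rfl, rfl, rfl⟩

theorem xshsv_pow {V : Type} [AddCommGroup V] [Module K V] {H : Type} [Group H]
    (ρ : Representation K H V) (h : H) (n : ℕ) (hn : h ^ n = 1) : ρ h ^ n = 1 := by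
  rw [← map_pow, hn, map_one]

theorem xshsv_t2 {V : Type} [AddCommGroup V] [Module K V] (X S : Module.End K V) (m : V)
    (U : Submodule K V) (h1 : S m ∈ U) (h2 : S (X m) ∈ U) : ∀ v ∈ T2 X m, S v ∈ U := by
  intro v hv
  have : T2 X m ≤ U.comap S := by
    rw [T2, Submodule.span_le]
    rintro x (rfl | rfl)
    · exact h1
    · exact h2
  exact this hv

theorem xshsv_t2s {V : Type} [AddCommGroup V] [Module K V] (X S : Module.End K V) (m : V)
    (c : K) (h1 : S m = c • m) (h2 : S (X m) = c • X m) : ∀ v ∈ T2 X m, S v = c • v := by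
  intro v hv
  rw [T2, Submodule.mem_span_pair] at hv
  obtain ⟨a, b, rfl⟩ := hv
  rw [map_add, map_smul, map_smul, h1, h2, smul_add, smul_comm a c, smul_comm b c]

theorem hs_sl2 {V : Type} [AddCommGroup V] [Module K V] [Module.Finite K V]
    {H : Type} [Group H] [Finite H] (ρ : Representation K H V) (E : Subgroup H) (hE : EH ρ 2 4 E) (ζ : K) (L : Subgroup H) (X Z : H)
    (hH : HS ρ 2 (-1) ζ E L X Z) (m : V) (hm : m ∈ fixS ρ L) (h0 : m ≠ 0) (hZ : ρ Z m = ζ • m) :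
    wv ρ X m ∈ fixS ρ L ∧ wv ρ X m ≠ 0 ∧ SL ρ E L (wv ρ X m) := by
  have hP := hs_p2 ρ E hE ζ L X Z hH m h0 hZ
  have hX := (hs_fix ρ 2 4 (-1) xshsv_pq2 E hE ζ L X Z hH m hm).1
  have h1 : wv ρ X m ∈ fixS ρ L := Submodule.add_mem _ hm (Submodule.smul_mem _ _ hX)
  have h2 : wv ρ X m ≠ 0 := by
    intro h
    have := p2_ind (ρ X) (ρ Z) ζ m hP 1 3 (by rw [one_smul]; exact h)
    exact one_ne_zero this.1
  exact ⟨h1, h2, xshsv_sl ρ 2 4 (-1) xshsv_pq2 E hE ζ L X Z hH _ h1 h2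
    fun a b c ha hb hc => qb_eig (ρ X) (ρ Z) ζ m hP a b ha hb c hc⟩

theorem hs_sl3 {V : Type} [AddCommGroup V] [Module K V] [Module.Finite K V]
    {H : Type} [Group H] [Finite H] (ρ : Representation K H V) (E : Subgroup H) (hE : EH ρ 3 3 E) (L : Subgroup H) (X Z : H)
    (hH : HS ρ 3 3 1 E L X Z) (m : V) (hm : m ∈ fixS ρ L) (h0 : m ≠ 0) (hZ : ρ Z m = m) :
    w3 ρ X m ∈ fixS ρ L ∧ w3 ρ X m ≠ 0 ∧ SL ρ E L (w3 ρ X m) := by
  have hP := hs_p3 ρ E hE L X Z hH m h0 hZ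
  have hX := (hs_fix ρ 3 3 3 xshsv_pq3 E hE 1 L X Z hH m hm).1
  have h1 : w3 ρ X m ∈ fixS ρ L := Submodule.add_mem _ hm (Submodule.smul_mem _ _ hX)
  have h2 : w3 ρ X m ≠ 0 := by
    intro h
    have := p3_ind (ρ X) (ρ Z) m hP 1 2 0 (by rw [one_smul, zero_smul, add_zero]; exact h)
    exact one_ne_zero this.1
  exact ⟨h1, h2, xshsv_sl ρ 3 3 3 xshsv_pq3 E hE 1 L X Z hH _ h1 h2
    fun a b c ha hb hc => q3_eig (ρ X) (ρ Z) m hP a b ha hb c hc⟩

theorem hs_sla {V : Type} [AddCommGroup V] [Module K V] [Module.Finite K V]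
    {H : Type} [Group H] [Finite H] (ρ : Representation K H V) (E : Subgroup H) (hE : EH ρ 3 3 E) (L : Subgroup H) (X Z : H)
    (hH : HS ρ 3 3 1 E L X Z) (m : V) (hm : m ∈ fixS ρ L) (h0 : m ≠ 0) (hZ : ρ Z m = m) :
    av ρ X m ∈ fixS ρ L ∧ av ρ X m ≠ 0 ∧ SL ρ E L (av ρ X m) := by
  have hP := hs_p3 ρ E hE L X Z hH m h0 hZ
  have hX := (hs_fix ρ 3 3 3 xshsv_pq3 E hE 1 L X Z hH m hm).1
  have hX2 := (hs_fix ρ 3 3 3 xshsv_pq3 E hE 1 L X Z hH _ hX).1
  have h1 : av ρ X m ∈ fixS ρ L :=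
    Submodule.add_mem _ (Submodule.add_mem _ hm hX) (Submodule.smul_mem _ _ hX2)
  have h2 : av ρ X m ≠ 0 := by
    intro h
    have := p3_ind (ρ X) (ρ Z) m hP 1 1 2 (by rw [one_smul, one_smul]; exact h)
    exact one_ne_zero this.1
  exact ⟨h1, h2, xshsv_sl ρ 3 3 3 xshsv_pq3 E hE 1 L X Z hH _ h1 h2
    fun a b c ha hb hc => ql_eig (ρ X) (ρ Z) m hP a b ha hb c _ rfl hc⟩

theorem hs_t3 {V : Type} [AddCommGroup V] [Module K V] [Module.Finite K V]
    {H : Type} [Group H] [Finite H] (ρ : Representation K H V) (E : Subgroup H) (hE : EH ρ 3 3 E) (L : Subgroup H) (X Z : H)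
    (hH : HS ρ 3 3 1 E L X Z) (m : V) (hm : m ∈ fixS ρ L) (h0 : m ≠ 0) (hZ : ρ Z m = m) :
    T3 (ρ X) m ≤ fixS ρ L ∧ (Module.finrank K (fixS ρ L) = 3 → T3 (ρ X) m = fixS ρ L) := by
  have hP := hs_p3 ρ E hE L X Z hH m h0 hZ
  have hX := (hs_fix ρ 3 3 3 xshsv_pq3 E hE 1 L X Z hH m hm).1
  have hX2 := (hs_fix ρ 3 3 3 xshsv_pq3 E hE 1 L X Z hH _ hX).1
  have h1 : T3 (ρ X) m ≤ fixS ρ L := by
    rw [T3, Submodule.span_le]
    rintro x (rfl | rfl | rfl)
    · exact hm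
    · exact hX
    · exact hX2
  refine ⟨h1, fun h3 => Submodule.eq_of_le_of_finrank_eq h1 ?_⟩
  rw [h3, p3_rank (ρ X) (ρ Z) m hP]

theorem ql_th {V : Type} [AddCommGroup V] [Module K V] [Module.Finite K V]
    {H : Type} [Group H] [Finite H] (ρ : Representation K H V) (E : Subgroup H) (hE : EH ρ 3 3 E) (L : Subgroup H) (X Z : H)
    (hH : HS ρ 3 3 1 E L X Z) (m : V) (hm : m ∈ fixS ρ L) (h0 : m ≠ 0) (hZ : ρ Z m = m) : Th ρ (T3 (ρ X) m) (av ρ X m) := by
  intro s n hs hsa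
  have hP := hs_p3 ρ E hE L X Z hH m h0 hZ
  obtain ⟨h1, h2, h3⟩ := hs_sla ρ E hE L X Z hH m hm h0 hZ
  have h4 := hs_norm ρ 3 3 3 xshsv_pq3 E hE 1 L X Z hH _ h1 h2 h3 s 3 hsa
  have h5 := pn_mono 3 _ _ (hs_t3 ρ E hE L X Z hH m hm h0 hZ).1 _ _ _
    (hs_conj ρ 3 3 3 xshsv_pq3 E hE 1 L X Z hH s h4)
  exact ql (ρ X) (ρ Z) (ρ s) m hP h5 n (xshsv_pow ρ s _ hs) 3 _ rfl hsa

theorem h3_cen {V : Type} [AddCommGroup V] [Module K V] [Module.Finite K V]
    {H : Type} [Group H] [Finite H] (ρ : Representation K H V) (E : Subgroup H) (hE : EH ρ 3 3 E) (L : Subgroup H) (X Z : H)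
    (hH : HS ρ 3 3 1 E L X Z) (m : V) (hm : m ∈ fixS ρ L) (h0 : m ≠ 0) (hZ : ρ Z m = m) (h : H) (h3 : ¬ 3 ∣ orderOf h) (c : K)
    (hh : ρ h (w3 ρ X m) = c • w3 ρ X m) :
    h ∈ Subgroup.normalizer (L : Set H) ∧ ∀ v ∈ T3 (ρ X) m, ρ h v = c • v := by
  have hP := hs_p3 ρ E hE L X Z hH m h0 hZ
  obtain ⟨h1, h2, h3'⟩ := hs_sl3 ρ E hE L X Z hH m hm h0 hZ
  have h4 := hs_norm ρ 3 3 3 xshsv_pq3 E hE 1 L X Z hH _ h1 h2 h3' h c hh
  have h5 := pn_mono 3 _ _ (hs_t3 ρ E hE L X Z hH m hm h0 hZ).1 _ _ _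
    (hs_conj ρ 3 3 3 xshsv_pq3 E hE 1 L X Z hH h h4)
  exact ⟨h4, q3 (ρ X) (ρ Z) (ρ h) m hP h5 (orderOf h) h3
    (xshsv_pow ρ h _ (pow_orderOf_eq_one h)) c hh⟩

theorem h2_cen {V : Type} [AddCommGroup V] [Module K V] [Module.Finite K V]
    {H : Type} [Group H] [Finite H] (ρ : Representation K H V) (E : Subgroup H) (hE : EH ρ 2 4 E) (ζ : K) (L : Subgroup H) (X Z : H)
    (hH : HS ρ 2 (-1) ζ E L X Z) (m : V) (hm : m ∈ fixS ρ L) (h0 : m ≠ 0) (hZ : ρ Z m = ζ • m) (h : H) (h3 : ¬ 3 ∣ orderOf h) (c : K)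
    (hh : ρ h (wv ρ X m) = c • wv ρ X m) :
    h ∈ Subgroup.normalizer (L : Set H) ∧ ρ h m = c • m ∧
      ∀ v ∈ fixS ρ L, ρ h (ρ X v) = ρ X (ρ h v) ∧ ρ h (ρ Z v) = ρ Z (ρ h v) := by
  have hP := hs_p2 ρ E hE ζ L X Z hH m h0 hZ
  have hX := (hs_fix ρ 2 4 (-1) xshsv_pq2 E hE ζ L X Z hH m hm).1
  obtain ⟨h1, h2, h3'⟩ := hs_sl2 ρ E hE ζ L X Z hH m hm h0 hZ
  have h4 := hs_norm ρ 2 4 (-1) xshsv_pq2 E hE ζ L X Z hH _ h1 h2 h3' h c hh
  have hle : T2 (ρ X) m ≤ fixS ρ L := by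
    rw [T2, Submodule.span_le]
    rintro x (rfl | rfl)
    · exact hm
    · exact hX
  have hN := hs_conj ρ 2 4 (-1) xshsv_pq2 E hE ζ L X Z hH h h4
  obtain ⟨e1, e2⟩ := qb (ρ X) (ρ Z) (ρ h) ζ m hP (pn_mono 2 _ _ hle _ _ _ hN) (orderOf h) h3
    (xshsv_pow ρ h _ (pow_orderOf_eq_one h)) c hh
  have hc : c ≠ 0 := by
    rintro rfl
    apply h0
    have := rho_inv ρ h m
    rw [e1, zero_smul, map_zero] at this
    exact this.symm
  have hs := xshsv_t2s (ρ X) (ρ h) m c e1 e2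
  have m1 : m ∈ T2 (ρ X) m := Submodule.subset_span (Or.inl rfl)
  have m2 : ρ X m ∈ T2 (ρ X) m := Submodule.subset_span (Or.inr rfl)
  have tX : ∀ v ∈ T2 (ρ X) m, ρ X v ∈ T2 (ρ X) m := by
    refine xshsv_t2 (ρ X) (ρ X) m _ m2 ?_
    rcases hP.xx with e | e
    · rw [e]; exact m1
    · rw [e]; exact Submodule.neg_mem _ m1
  have tZ : ∀ v ∈ T2 (ρ X) m, ρ Z v ∈ T2 (ρ X) m := by
    refine xshsv_t2 (ρ X) (ρ Z) m _ ?_ ?_
    · rw [hP.zm]; exact Submodule.smul_mem _ _ m1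
    · rw [hP.zx]; exact Submodule.smul_mem _ _ m2
  obtain ⟨⟨c1, a1, b1, ha1, hb1, r1⟩, ⟨c2, a2, b2, ha2, hb2, r2⟩⟩ := hN
  have u1 : ∀ v ∈ T2 (ρ X) m, ρ X v = c1 • (ρ X ^ a1 * ρ Z ^ b1) v := by
    intro v hv
    have := r1 v (hle hv)
    rw [hs _ (tX v hv), hs v hv, map_smul, smul_comm c1 c] at this
    exact smul_right_injective V hc this
  have u2 : ∀ v ∈ T2 (ρ X) m, ρ Z v = c2 • (ρ X ^ a2 * ρ Z ^ b2) v := by
    intro v hv
    have := r2 v (hle hv)
    rw [hs _ (tZ v hv), hs v hv, map_smul, smul_comm c2 c] at this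
    exact smul_right_injective V hc this
  obtain ⟨rfl, rfl, rfl⟩ := (qb_uniq (ρ X) (ρ Z) ζ m hP a1 b1 ha1 hb1 c1).1 u1
  obtain ⟨rfl, rfl, rfl⟩ := (qb_uniq (ρ X) (ρ Z) ζ m hP a2 b2 ha2 hb2 c2).2 u2
  refine ⟨h4, e1, fun v hv => ⟨?_, ?_⟩⟩
  · have := r1 v hv
    rwa [one_smul, pow_one, pow_zero, mul_one] at this
  · have := r2 v hv
    rwa [one_smul, pow_one, pow_zero, one_mul] at this

end Pool.Agent.N9181

end

section

namespace Pool.Agent.N9181

open scoped commutatorElement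

theorem xsbbb_ne {V : Type} [AddCommGroup V] [Module K V] {H : Type} [Group H]
    (ρ : Representation K H V) (f : H) {v : V} (h : v ≠ 0) : ρ f v ≠ 0 := fun e =>
  h (by rw [← rho_inv ρ f v, e, map_zero])

/-- the elements having `r` as an eigenvector -/
def xsbbbR {V : Type} [AddCommGroup V] [Module K V] {H : Type} [Group H]
    (ρ : Representation K H V) (r : V) (h0 : r ≠ 0) : Subgroup H where
  carrier := {f | ∃ c : K, ρ f r = c • r}
  one_mem' := ⟨1, by rw [map_one, one_smul]; rfl⟩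
  mul_mem' := by
    rintro a b ⟨c, ha⟩ ⟨d, hb⟩
    exact ⟨d * c, by rw [rho_mul, hb, map_smul, ha, smul_smul]⟩
  inv_mem' := by
    rintro a ⟨c, ha⟩
    have hc : c ≠ 0 := fun e => xsbbb_ne ρ a h0 (by rw [ha, e, zero_smul])
    exact ⟨c⁻¹, by rw [eq_inv_smul_iff₀ hc, ← map_smul, ← ha, rho_inv]⟩

theorem xsbbb_map {V : Type} [AddCommGroup V] [Module K V] [Module.Finite K V]
    {H : Type} [Group H] [Finite H] {ρ : Representation K H V} {p q : ℕ} {ν : K} (hpq : PQ p q ν)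
    {E : Subgroup H} (hE : EH ρ p q E) {B : Subgroup H} (hB : B ≤ E) {f : H} (hf : f ∈ E)
    {U : Submodule K V} (hU : U ∈ eigS ρ B) : U.map (ρ f) ∈ eigS ρ B := by
  obtain ⟨hU, χ, hχ⟩ := hU
  have hν : ν ≠ 0 := by rcases hpq with ⟨-, -, rfl⟩ | ⟨-, -, rfl⟩ <;> decide
  choose! k hk using fun b (hb : b ∈ B) => eh_rel ρ p q ν hpq E hE b f (hB hb) hf
  obtain ⟨u, hu, hu0⟩ := (Submodule.ne_bot_iff U).1 hU
  refine ⟨(Submodule.ne_bot_iff _).2 ⟨_, ⟨u, hu, rfl⟩, xsbbb_ne ρ f hu0⟩,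
    fun b => ν ^ k b * χ b, fun v => ⟨?_, fun h => ⟨ρ f⁻¹ v, (hχ _).2 fun b hb => ?_, rho_inv' ρ f v⟩⟩⟩
  · rintro ⟨w, hw, rfl⟩ b hb
    rw [(hk b hb).2, (hχ w).1 hw b hb, map_smul, smul_smul]
  · have h1 := (hk b hb).2 (ρ f⁻¹ v)
    rw [rho_inv', h b hb, mul_smul] at h1
    rw [← map_smul, smul_right_injective V (pow_ne_zero _ hν) h1, rho_inv]

theorem xsbbb_tr {V : Type} [AddCommGroup V] [Module K V] [Module.Finite K V]
    {H : Type} [Group H] [Finite H] {ρ : Representation K H V} {p q : ℕ} {ν : K} (hpq : PQ p q ν)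
    {E : Subgroup H} (hE : EH ρ p q E) {B : Subgroup H} (hB : B ≤ E) {f : H} (hf : f ∈ E)
    {T U : Submodule K V} (hT : T ∈ eigS ρ B) (hU : U ∈ eigS ρ B) {v : V} (hv : v ∈ U)
    (h0 : v ≠ 0) (h : ρ f v ∈ T) : ∃ g ∈ E, U = T.map (ρ g) :=
  ⟨f⁻¹, E.inv_mem hf, eig_uniq ρ B _ _ hU (xsbbb_map hpq hE hB (E.inv_mem hf) hT) v h0 hv
    ⟨_, h, rho_inv ρ f v⟩⟩

theorem xsbbb_cyc {V : Type} [AddCommGroup V] [Module K V] [Module.Finite K V]
    {H : Type} [Group H] [Finite H] {ρ : Representation K H V} {E : Subgroup H} (hE : EH ρ 2 4 E)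
    {B : Subgroup H} (hc : ∀ a ∈ B, ∀ b ∈ B, a * b = b * a) (h12 : ∀ b ∈ B, b ^ 12 = 1)
    {T : Submodule K V} (hT : T ∈ eigS ρ B) (htr : ∀ U ∈ eigS ρ B, ∃ f ∈ E, U = T.map (ρ f))
    {s : H} (hs : s ∈ Subgroup.normalizer (B : Set H)) {n : ℕ} (hn : s ^ (3 ^ n) = 1) {w : V}
    (hw : w ∈ T) (h0 : w ≠ 0) (h : ρ s w = (3 : K) • w) :
    (∃ c k : ℕ, 0 < k ∧ ed (ρ s) 3 = c + k * edOn T (ρ s) 3 ∧
      ed (ρ s) 9 = c + k * edOn T (ρ s) 9) ∧
      ((∀ w ∈ T, ρ s w = (3 : K) • w) → (∀ v, ρ s v = v → v = 0) → ∀ v, ρ s v = (3 : K) • v) := by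
  have hS := eb ρ B _ hc h12 le_rfl
  obtain ⟨⟨c, k, hk, h1⟩, h2⟩ := bb_cyc ρ E hE.nE (fun g => ⟨2, Subtype.ext (hE.pw g g.2)⟩) _ s hs
    n hn _ hS T hT (eig_uniq ρ B _ _ (hS.map ⟨s, hs⟩ T hT) hT (ρ s w) (xsbbb_ne ρ s h0)
      ⟨w, hw, rfl⟩ (h ▸ T.smul_mem _ hw)) htr
  exact ⟨⟨c, k, hk, h1 3 (by decide), h1 9 (by decide)⟩, h2⟩

theorem xsbbb_le {V : Type} [AddCommGroup V] [Module K V] [Module.Finite K V]
    {T U : Submodule K V} (hle : T ≤ U) {a : Module.End K V} {c : K} (h : ∀ w ∈ T, a w = c • w) :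
    Module.finrank K T ≤ edOn U a c :=
  Submodule.finrank_mono (le_inf hle fun w hw => Module.End.mem_eigenspace_iff.2 (h w hw))

theorem bb_hat {V : Type} [AddCommGroup V] [Module K V] [Module.Finite K V]
    {H : Type} [Group H] [Finite H] (ρ : Representation K H V) (E : Subgroup H) (hE : EH ρ 2 4 E) (ζ : K) (L : Subgroup H) (X Z : H)
    (hH : HS ρ 2 (-1) ζ E L X Z) (T : Submodule K V)
    (hT : ∀ v, v ∈ T ↔ v ∈ fixS ρ L ∧ ρ Z v = ζ • v) (r : V) (hr : r ∈ T) (h0 : r ≠ 0) :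
    ∃ D : Subgroup H, (∀ a ∈ D, ∀ b ∈ D, a * b = b * a) ∧ (∀ b ∈ D, b ^ 12 = 1) ∧
      T ∈ eigS ρ D ∧ (∀ U ∈ eigS ρ D, ∃ f ∈ E, U = T.map (ρ f)) ∧
      ∀ (s : H) (c : K), ρ s r = c • r → s ∈ Subgroup.normalizer (D : Set H) := by
  have hpq : PQ 2 4 (-1) := Or.inl ⟨rfl, rfl, rfl⟩
  obtain ⟨hr1, hr2⟩ := (hT r).1 hr
  have hD : E ⊓ xsbbbR ρ r h0 ≤ E := inf_le_left
  have hL : L ≤ E ⊓ xsbbbR ρ r h0 := fun l hl => ⟨hH.le hl, 1, by rw [hr1 l hl, one_smul]⟩
  have hZ : Z ∈ E ⊓ xsbbbR ρ r h0 := ⟨hH.mZ, ζ, hr2⟩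
  have key : ∀ f ∈ E ⊓ xsbbbR ρ r h0, ∃ c : K, ∀ v ∈ T, ρ f v = c • v := by
    rintro f ⟨hf, c, hc⟩
    obtain ⟨d, a, b, -, ha, -, h, -⟩ := hs_cen ρ 2 4 (-1) hpq E hE ζ L X Z hH f hf
      (hs_comm ρ 2 4 (-1) hpq E hE ζ L X Z hH f hf r hr1 h0 (hc ▸ Submodule.smul_mem _ c hr1))
    have h1 : ∀ v ∈ T, ρ f v = (d * ζ ^ b) • (ρ X ^ a) v := fun v hv => by
      rw [h v ((hT v).1 hv).1, Module.End.mul_apply, ← map_pow ρ Z,
        rho_pow_eig ρ Z v ζ ((hT v).1 hv).2, map_smul, smul_smul]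
    obtain rfl | rfl : a = 0 ∨ a = 1 := by omega
    · exact ⟨_, h1⟩
    · have h2 := (p2_ind _ _ ζ r (hs_p2 ρ E hE ζ L X Z hH r h0 hr2) c (-(d * ζ ^ b)) (by
        rw [← hc, h1 r hr, pow_one, neg_smul, add_neg_cancel])).1
      exact absurd (by rw [hc, h2, zero_smul]) (xsbbb_ne ρ f h0)
  choose! χ hχ using key
  have hTD : T ∈ eigS ρ (E ⊓ xsbbbR ρ r h0) := by
    refine ⟨(Submodule.ne_bot_iff T).2 ⟨r, hr, h0⟩, χ, fun v => ⟨fun hv b hb => hχ b hb v hv,
      fun h => (hT v).2 ⟨fun l hl => ?_, ?_⟩⟩⟩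
    · rw [h l (hL hl), smul_left_injective K h0
        ((hχ l (hL hl) r hr).symm.trans ((hr1 l hl).trans (one_smul K r).symm)), one_smul]
    · rw [h Z hZ, smul_left_injective K h0 ((hχ Z hZ r hr).symm.trans hr2)]
  refine ⟨E ⊓ xsbbbR ρ r h0, ?_, fun b hb => ?_, hTD, fun U hU => ?_, fun s c hs => ?_⟩
  · rintro a ⟨ha, c, hc⟩ b ⟨hb, d, hd⟩
    obtain ⟨k, -, hk⟩ := eh_rel ρ 2 4 (-1) hpq E hE a b ha hb
    have h1 : ρ a (ρ b r) = ρ b (ρ a r) := by
      rw [hd, hc, map_smul, map_smul, hc, hd, smul_comm]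
    have h2 : (-1 : K) ^ k = 1 := smul_left_injective K (xsbbb_ne ρ b (xsbbb_ne ρ a h0))
      ((hk r).symm.trans (h1.trans (one_smul K _).symm))
    exact hE.inj (LinearMap.ext fun v => by rw [rho_mul, rho_mul, hk, h2, one_smul])
  · rw [show 12 = 4 * 3 from rfl, pow_mul, hE.pw b hb.1, one_pow]
  · obtain ⟨v, hv, hv0⟩ := (Submodule.ne_bot_iff U).1 hU.1
    obtain ⟨f, hf, hw⟩ := hH.tr v fun l hl => hU.2.elim fun ψ hψ => ⟨ψ l, (hψ v).1 hv l (hL hl)⟩
    obtain ⟨-, ψ, hψ⟩ := xsbbb_map hpq hE hD hf hU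
    have h1 := (hψ _).1 ⟨v, hv, rfl⟩ Z hZ
    obtain ⟨d, -, hd⟩ := hE.pp Z hH.mZ
    have h2 : ψ Z ^ 2 = ζ ^ 2 :=
      (smul_left_injective K (xsbbb_ne ρ f hv0)
        ((rho_pow_eig ρ Z _ _ h1 2).symm.trans (hd _))).trans
      (smul_left_injective K h0 ((hd r).symm.trans (rho_pow_eig ρ Z _ _ hr2 2)))
    rcases sq_eq_sq_iff_eq_or_eq_neg.1 h2 with h3 | h3
    · exact xsbbb_tr hpq hE hD hf hTD hU hv hv0 ((hT _).2 ⟨hw, h3 ▸ h1⟩)
    · refine xsbbb_tr hpq hE hD (E.mul_mem hH.mX hf) hTD hU hv hv0 ((hT _).2 ?_)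
      rw [rho_mul, hH.zx, h1, h3, map_smul, smul_smul, neg_mul_neg, one_mul]
      exact ⟨(hs_fix ρ 2 4 (-1) hpq E hE ζ L X Z hH _ hw).1, rfl⟩
  · have h1 : s ∈ xsbbbR ρ r h0 := ⟨c, hs⟩
    refine Subgroup.mem_normalizer_iff.2 fun b => and_congr
      ⟨fun h => hE.nE.conj_mem b h s, fun h => by simpa [mul_assoc] using hE.nE.conj_mem _ h s⁻¹⟩ ?_
    change b ∈ xsbbbR ρ r h0 ↔ s * b * s⁻¹ ∈ xsbbbR ρ r h0
    rw [mul_mem_cancel_right (inv_mem h1), mul_mem_cancel_left h1]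

theorem bb_trL {V : Type} [AddCommGroup V] [Module K V] [Module.Finite K V]
    {H : Type} [Group H] [Finite H] (ρ : Representation K H V) (p q : ℕ) (ν : K) (hpq : PQ p q ν) (E : Subgroup H) (hE : EH ρ p q E)
    (ζ : K) (L : Subgroup H) (X Z : H) (hH : HS ρ p ν ζ E L X Z) : fixS ρ L ∈ eigS ρ L ∧
    ∀ U ∈ eigS ρ L, ∃ f ∈ E, U = (fixS ρ L).map (ρ f) := by
  obtain ⟨m, h0, hm, -⟩ := hH.ex
  have h1 := fix_eigS ρ L ((Submodule.ne_bot_iff _).2 ⟨m, hm, h0⟩)
  refine ⟨h1, fun U hU => ?_⟩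
  obtain ⟨v, hv, hv0⟩ := (Submodule.ne_bot_iff U).1 hU.1
  obtain ⟨f, hf, hw⟩ := hH.tr v fun l hl => hU.2.elim fun ψ hψ => ⟨ψ l, (hψ v).1 hv l hl⟩
  exact xsbbb_tr hpq hE hH.le hf h1 hU hv hv0 hw

theorem bb_main {V : Type} [AddCommGroup V] [Module K V] [Module.Finite K V]
    {H : Type} [Group H] [Finite H] (ρ : Representation K H V) (E : Subgroup H) (hE : EH ρ 2 4 E) (ζ : K) (L : Subgroup H) (X Z : H)
    (hH : HS ρ 2 (-1) ζ E L X Z) (T : Submodule K V)
    (hT : ∀ v, v ∈ T ↔ v ∈ fixS ρ L ∧ ρ Z v = ζ • v) (r : V) (hr : r ∈ T) (h0 : r ≠ 0)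
    (h1 : Th ρ T r) (T' : Submodule K V) (hle : T' ≤ fixS ρ L)
    (hk : Module.finrank K T' = Module.finrank K T) (h2 : Th ρ T' (wv ρ X r)) : PB1 ρ := by
  have hpq : PQ 2 4 (-1) := Or.inl ⟨rfl, rfl, rfl⟩
  obtain ⟨hr1, hr2⟩ := (hT r).1 hr
  obtain ⟨D, d1, d2, d3, d4, d5⟩ := bb_hat ρ E hE ζ L X Z hH T hT r hr h0
  obtain ⟨l1, l2⟩ := bb_trL ρ 2 4 (-1) hpq E hE ζ L X Z hH
  obtain ⟨w1, w2, w3⟩ := hs_sl2 ρ E hE ζ L X Z hH r hr1 h0 hr2
  have hp : 0 < Module.finrank K T := pos_iff_ne_zero.2 (mt Submodule.finrank_eq_zero.1 d3.1)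
  refine ⟨r, wv ρ X r, _, h0, hp,
    fun k => hs_nc ρ 2 4 (-1) hpq E hE ζ L X Z hH _ w1 w2 w3 r hr1 ζ hr2 k 3, fun s n hn hs => ?_,
    fun s n hn hs => ?_,
    fun s n hn hs => (xsbbb_cyc hE d1 d2 d3 d4 (d5 s 3 hs) hn hr h0 hs).2 (h1 s n hn hs)⟩
  · obtain ⟨c, k, hk, e3, e9⟩ := (xsbbb_cyc hE d1 d2 d3 d4 (d5 s 3 hs) hn hr h0 hs).1
    have a1 := xsbbb_le le_rfl (h1 s n hn hs)
    have a2 := ed_two T (ρ s) 3 9 (by decide)
    have a3 := Nat.le_mul_of_pos_left (edOn T (ρ s) 3) hk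
    rw [e3, e9, show edOn T (ρ s) 9 = 0 by omega]
    omega
  · obtain ⟨c, k, hk, e3, e9⟩ := (xsbbb_cyc hE hH.cL
      (fun l hl => by rw [show 12 = 2 * 6 from rfl, pow_mul, hH.pL l hl, one_pow]) l1 l2
      (hs_norm ρ 2 4 (-1) hpq E hE ζ L X Z hH _ w1 w2 w3 s 3 hs) hn w1 w2 hs).1
    have a1 := xsbbb_le hle (h2 s n hn hs)
    have a2 := ed_two (fixS ρ L) (ρ s) 3 9 (by decide)
    have a3 := (hs_dbl ρ E hE ζ L X Z hH (fixS ρ L) T
      (fun v hv => (hs_fix ρ 2 4 (-1) hpq E hE ζ L X Z hH v hv).1)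
      (fun v hv => (hs_fix ρ 2 4 (-1) hpq E hE ζ L X Z hH v hv).2) hT).2.2
    have a4 := Nat.mul_le_mul_left k
      (show edOn (fixS ρ L) (ρ s) 9 ≤ edOn (fixS ρ L) (ρ s) 3 by omega)
    omega

end Pool.Agent.N9181

end

section

namespace Pool.Agent.N9181

open scoped commutatorElement

theorem xsbasemb_fac (e : ℕ) (he : 0 < e) (hp : ∀ p : ℕ, p.Prime → p ∣ e → p ∣ 12)
    (h9 : ¬ 9 ∣ e) : ∃ a b : ℕ, b ≤ 1 ∧ e = 2 ^ a * 3 ^ b ∧ e.factorization 2 = a ∧
      e.factorization 3 = b := by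
  obtain ⟨a, m, hm2, hm⟩ := Nat.exists_eq_pow_mul_and_not_dvd he.ne' 2 (by norm_num)
  have hm0 : m ≠ 0 := by
    rintro rfl
    exact hm2 (dvd_zero 2)
  obtain ⟨b, k, hk3, hk⟩ := Nat.exists_eq_pow_mul_and_not_dvd hm0 3 (by norm_num)
  have hk1 : k = 1 := by
    by_contra hne
    obtain ⟨p, hpp, hpk⟩ := Nat.exists_prime_and_dvd hne
    have hpm : p ∣ m := hk ▸ Dvd.dvd.mul_left hpk _
    have h12 : p ∣ 12 := hp p hpp (hm ▸ Dvd.dvd.mul_left hpm _)
    have h' : p ∣ 2 ^ 2 * 3 := by simpa using h12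
    rcases (Nat.Prime.dvd_mul hpp).1 h' with h | h
    · have := (Nat.prime_dvd_prime_iff_eq hpp Nat.prime_two).1 (hpp.dvd_of_dvd_pow h)
      subst this
      exact hm2 hpm
    · have := (Nat.prime_dvd_prime_iff_eq hpp Nat.prime_three).1 h
      subst this
      exact hk3 hpk
  subst hk1
  rw [mul_one] at hk
  subst hk
  have hb : b ≤ 1 := by
    by_contra hb
    apply h9
    rw [hm]
    have : 3 ^ 2 ∣ 3 ^ b := pow_dvd_pow 3 (by omega)
    exact Dvd.dvd.mul_left this _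
  refine ⟨a, b, hb, hm, ?_, ?_⟩
  · rw [hm, Nat.factorization_mul (by positivity) (by positivity),
      Nat.Prime.factorization_pow Nat.prime_two, Nat.Prime.factorization_pow Nat.prime_three]
    simp
  · rw [hm, Nat.factorization_mul (by positivity) (by positivity),
      Nat.Prime.factorization_pow Nat.prime_two, Nat.Prime.factorization_pow Nat.prime_three]
    simp

theorem xsbasemb_k3 : ∀ c : K, c ^ 3 = 1 → c = 1 ∨ (3 : K) * c = 1 ∨ (3 : K) * (3 * c) = 1 := by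
  decide

/-- data for the prime three when the index is nine -/
theorem xsbasemb_e3 {V : Type} [AddCommGroup V] [Module K V] [Module.Finite K V]
    {H : Type} [Group H] [Finite H] (ρ : Representation K H V) (E : Subgroup H)
    (hE : EH ρ 3 3 E) (h9 : (scal ρ).relIndex E = (3 ^ 1) ^ 2) :
    ∃ (L : Subgroup H) (X Z : H), HS ρ 3 3 1 E L X Z ∧ fixS ρ L = ⊤ := by
  obtain ⟨ζ, L, X, Z, hH, hζ⟩ := hs_rep ρ 3 3 3 (Or.inr ⟨rfl, rfl, rfl⟩) E hE
    (by rw [h9]; norm_num)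
  obtain rfl := hζ rfl
  refine ⟨L, X, Z, hH, ?_⟩
  have h1 := hH.sz
  rw [h9] at h1
  have h2 : Nat.card L ^ 2 = 1 := by omega
  have h3 : Nat.card L = 1 := (Nat.pow_eq_one.1 h2).resolve_right (by norm_num)
  have h4 : L = ⊥ := Subgroup.card_eq_one.1 h3
  rw [eq_top_iff]
  intro v _ y hy
  rw [h4, Subgroup.mem_bot] at hy
  rw [hy, map_one]
  rfl

theorem xsbasemb_comm {V : Type} [AddCommGroup V] [Module K V]
    {H : Type} [Group H] (ρ : Representation K H V) (f g : H) (h : f * g = g * f) (v : V) :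
    ρ f (ρ g v) = ρ g (ρ f v) := by
  rw [← rho_mul, h, rho_mul]

/-- a vector of an invariant subspace fixed by `Z` -/
theorem xsbasemb_fixv {V : Type} [AddCommGroup V] [Module K V] [Module.Finite K V]
    {H : Type} [Group H] [Finite H] (ρ : Representation K H V) (E : Subgroup H)
    (hE : EH ρ 3 3 E) (L : Subgroup H) (X Z : H) (hH : HS ρ 3 3 1 E L X Z)
    (T : Submodule K V) (hT : T ≠ ⊥) (hi : ∀ g ∈ E, ∀ v ∈ T, ρ g v ∈ T) :
    ∃ m ∈ T, m ≠ 0 ∧ ρ Z m = m := by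
  have hle : Subgroup.zpowers Z ≤ E := by
    rw [Subgroup.zpowers_le]
    exact hH.mZ
  obtain ⟨v, hv, h0, hev⟩ := eig_ex ρ (Subgroup.zpowers Z)
    (by
      rintro a ⟨i, rfl⟩ b ⟨j, rfl⟩
      show Z ^ i * Z ^ j = Z ^ j * Z ^ i
      rw [← zpow_add, ← zpow_add, add_comm])
    (fun b hb => by
      have := hE.pw b (hle hb)
      rw [show 12 = 3 * 4 by norm_num, pow_mul, this, one_pow])
    T hT (fun b hb u hu => hi b (hle hb) u hu)
  obtain ⟨c, hc⟩ := hev Z (Subgroup.mem_zpowers Z)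
  have hne : ∀ w : V, w ≠ 0 → ρ X w ≠ 0 := fun w hw h => hw (by
    have := rho_inv ρ X w
    rw [h, map_zero] at this
    exact this.symm)
  have hc3 : c ^ 3 = 1 := by
    have h1 := rho_pow_eig ρ Z v c hc 3
    rw [hE.pw Z hH.mZ, map_one] at h1
    have h2 : (c ^ 3 - 1) • v = 0 := by
      rw [sub_smul, one_smul, ← h1]
      exact sub_self _
    exact sub_eq_zero.1 ((smul_eq_zero.1 h2).resolve_right h0)
  have hx : ∀ (w : V) (d : K), ρ Z w = d • w → ρ Z (ρ X w) = (3 * d) • ρ X w := fun w d hw => by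
    rw [hH.zx, hw, map_smul, smul_smul]
  rcases xsbasemb_k3 c hc3 with h | h | h
  · exact ⟨v, hv, h0, by rw [hc, h, one_smul]⟩
  · exact ⟨ρ X v, hi X hH.mX v hv, hne v h0, by rw [hx v c hc, h, one_smul]⟩
  · exact ⟨ρ X (ρ X v), hi X hH.mX _ (hi X hH.mX v hv), hne _ (hne v h0),
      by rw [hx _ _ (hx v c hc), h, one_smul]⟩

theorem xsbasemb_t3le {V : Type} [AddCommGroup V] [Module K V]
    (X : Module.End K V) (m : V) (T : Submodule K V) (hm : m ∈ T) (hX : ∀ v ∈ T, X v ∈ T) :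
    T3 X m ≤ T := by
  unfold T3
  rw [Submodule.span_le]
  rintro v (rfl | rfl | rfl)
  · exact hm
  · exact hX _ hm
  · exact hX _ (hX _ hm)

/-- the mixed case -/
theorem xsbasemb_mix {V : Type} [AddCommGroup V] [Module K V] [Module.Finite K V]
    {H : Type} [Group H] [Finite H] (ρ : Representation K H V) (E : Subgroup H)
    (hE : EH ρ 2 4 E) (ζ : K) (L : Subgroup H) (X Z : H) (hH : HS ρ 2 (-1) ζ E L X Z)
    (T : Submodule K V) (hT : ∀ v, v ∈ T ↔ v ∈ fixS ρ L ∧ ρ Z v = ζ • v)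
    (h3 : Module.finrank K T = 3) (E' : Subgroup H) (hE' : EH ρ 3 3 E')
    (h9 : (scal ρ).relIndex E' = (3 ^ 1) ^ 2) : PB1 ρ := by
  obtain ⟨L', X', Z', hH', htop⟩ := xsbasemb_e3 ρ E' hE' h9
  have hc : ∀ f ∈ E, ∀ g ∈ E', ∀ v, ρ f (ρ g v) = ρ g (ρ f v) := fun f hf g hg v =>
    xsbasemb_comm ρ f g (eh_comm ρ E E' hE hE' f hf g hg) v
  have hfix : ∀ g ∈ E', ∀ v ∈ fixS ρ L, ρ g v ∈ fixS ρ L := fun g hg v hv y hy => by
    rw [hc y (hH.le hy) g hg, hv y hy]
  have hi : ∀ g ∈ E', ∀ v ∈ T, ρ g v ∈ T := fun g hg v hv => by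
    obtain ⟨h1, h2⟩ := (hT v).1 hv
    exact (hT _).2 ⟨hfix g hg v h1, by rw [hc Z hH.mZ g hg, h2, map_smul]⟩
  have hTne : T ≠ ⊥ := by
    rintro rfl
    simp at h3
  obtain ⟨m, hm, h0, hZ⟩ := xsbasemb_fixv ρ E' hE' L' X' Z' hH' T hTne hi
  have hall : ∀ v, v ∈ fixS ρ L' := fun v => by
    rw [htop]
    exact Submodule.mem_top
  have hle : T3 (ρ X') m ≤ T := xsbasemb_t3le _ m T hm (hi X' hH'.mX)
  have hP := hs_p3 ρ E' hE' L' X' Z' hH' m h0 hZ
  have heq : T3 (ρ X') m = T :=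
    Submodule.eq_of_le_of_finrank_eq hle (by rw [p3_rank _ _ m hP, h3])
  obtain ⟨hm1, hm2⟩ := (hT m).1 hm
  obtain ⟨hw1, hw0, -⟩ := hs_sl2 ρ E hE ζ L X Z hH m hm1 h0 hm2
  have hwZ : ρ Z' (wv ρ X m) = wv ρ X m := by
    unfold wv
    rw [map_add, map_smul, ← hc X hH.mX Z' hH'.mZ, hZ]
  have hP' := hs_p3 ρ E' hE' L' X' Z' hH' _ hw0 hwZ
  have hr : av ρ X' m ∈ T := by
    unfold av
    exact T.add_mem (T.add_mem hm (hi X' hH'.mX m hm))
      (T.smul_mem _ (hi X' hH'.mX _ (hi X' hH'.mX m hm)))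
  have hr0 : av ρ X' m ≠ 0 := (hs_sla ρ E' hE' L' X' Z' hH' m (hall m) h0 hZ).2.1
  have hsw : wv ρ X (av ρ X' m) = av ρ X' (wv ρ X m) := by
    unfold wv av
    simp only [map_add, map_smul, hc X hH.mX X' hH'.mX, smul_add, smul_smul]
    rw [mul_comm (3 : K) 2]
    abel
  refine bb_main ρ E hE ζ L X Z hH T hT (av ρ X' m) hr hr0 ?_ (T3 (ρ X') (wv ρ X m))
    (xsbasemb_t3le _ _ _ hw1 (hfix X' hH'.mX)) (by rw [p3_rank _ _ _ hP', h3]) ?_
  · rw [← heq]
    exact ql_th ρ E' hE' L' X' Z' hH' m (hall m) h0 hZ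
  · rw [hsw]
    exact ql_th ρ E' hE' L' X' Z' hH' _ (hall _) hw0 hwZ

theorem pb_of_reg {V : Type} [AddCommGroup V] [Module K V] [Module.Finite K V]
    {H : Type} [Group H] [Finite H] (ρ : Representation K H V) (r : V) (h0 : r ≠ 0) (h : Th ρ ⊤ r) : PB1 ρ := by
  have hp : 0 < Module.finrank K V := Module.finrank_pos_iff_exists_ne_zero.2 ⟨r, h0⟩
  refine ⟨r, 0, Module.finrank K V, h0, hp, fun k hk => ?_, fun s n hs hr => ?_,
    fun s n _ _ => ?_, fun s n hs hr _ v => h s n hs hr v Submodule.mem_top⟩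
  · rw [map_zero] at hk
    exact (smul_ne_zero (by decide) h0) hk.symm
  · have hv : ∀ v, ρ s v = (3 : K) • v := fun v => h s n hs hr v Submodule.mem_top
    have h3 : Module.End.eigenspace (ρ s) 3 = ⊤ := by
      rw [eq_top_iff]
      intro v _
      exact Module.End.mem_eigenspace_iff.2 (hv v)
    have h9 : Module.End.eigenspace (ρ s) 9 = ⊥ := by
      rw [eq_bot_iff]
      intro v hv9
      have h1 := Module.End.mem_eigenspace_iff.1 hv9
      rw [hv v] at h1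
      have h2 : ((3 : K) - 9) • v = 0 := by rw [sub_smul, h1, sub_self]
      exact (smul_eq_zero.1 h2).resolve_left (by decide)
    unfold ed
    rw [h3, h9]
    simp
  · have : ed (ρ s) 9 ≤ Module.finrank K V := Submodule.finrank_le _
    omega

theorem th_line {V : Type} [AddCommGroup V] [Module K V] [Module.Finite K V]
    {H : Type} [Group H] [Finite H] (ρ : Representation K H V) (r : V) : Th ρ (Submodule.span K {r}) r := by
  intro s n _ hr w hw
  obtain ⟨c, rfl⟩ := Submodule.mem_span_singleton.1 hw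
  rw [map_smul, hr, smul_comm]

theorem baseM_b {V : Type} [AddCommGroup V] [Module K V] [Module.Finite K V]
    {H : Type} [Group H] [Finite H] (ρ : Representation K H V) (N : ℕ) (A F : Subgroup H) (hG : GB ρ N A F) (e : ℕ) (he : A.relIndex F = e ^ 2) (hd : Module.finrank K V = e) (h9 : ¬ 9 ∣ e) : PB1 ρ := by
  obtain ⟨g, hg⟩ := lam ρ N A F hG e he
  rw [hd] at hg
  obtain ⟨e', he0, he1, -, hpr⟩ := gb_e ρ N A F hG
  have hee : e' = e := Nat.pow_left_injective (by norm_num : (2 : ℕ) ≠ 0) (he1.symm.trans he)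
  subst hee
  obtain ⟨h12, -, -⟩ := gb_one ρ N A F hG e' g he0 hg
  obtain ⟨a, b, hb, hab, hfa, hfb⟩ := xsbasemb_fac e' he0
    (fun p hp hpe => (hpr p hp hpe).trans h12) h9
  obtain ⟨E, -, hE, hEi⟩ := exists_EH ρ N A F hG e' he 2 4 (Or.inl ⟨rfl, rfl⟩)
  obtain ⟨E', -, hE', hEi'⟩ := exists_EH ρ N A F hG e' he 3 3 (Or.inr ⟨rfl, rfl⟩)
  rw [hfa] at hEi
  rw [hfb] at hEi'
  rcases a with _ | a
  · rcases Nat.le_one_iff_eq_zero_or_eq_one.1 hb with rfl | rfl
    · obtain ⟨v, hv⟩ := hG.ne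
      have h1 : Module.finrank K V = 1 := by rw [hd, hab]; norm_num
      have h2 : Submodule.span K {v} = ⊤ := (finrank_eq_one_iff_of_nonzero v hv).1 h1
      exact pb_of_reg ρ v hv (h2 ▸ th_line ρ v)
    · obtain ⟨L, X, Z, hH, htop⟩ := xsbasemb_e3 ρ E' hE' hEi'
      obtain ⟨m, h0, hm, hZ⟩ := hH.ex
      rw [one_smul] at hZ
      have h3 : Module.finrank K (fixS ρ L) = 3 := by
        rw [htop, finrank_top, hd, hab]; norm_num
      have h4 := (hs_t3 ρ E' hE' L X Z hH m hm h0 hZ).2 h3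
      have h5 := ql_th ρ E' hE' L X Z hH m hm h0 hZ
      rw [h4, htop] at h5
      exact pb_of_reg ρ _ (hs_sla ρ E' hE' L X Z hH m hm h0 hZ).2.1 h5
  · have hpq : PQ 2 4 (-1) := Or.inl ⟨rfl, rfl, rfl⟩
    obtain ⟨ζ, L, X, Z, hH, -⟩ := hs_rep ρ 2 4 (-1) hpq E hE (by
      rw [hEi]
      intro h
      have h1 := (Nat.pow_eq_one.1 h).resolve_right (by norm_num)
      have h2 := (Nat.pow_eq_one.1 h1).resolve_left (by norm_num)
      omega)
    have hL : Nat.card L = 2 ^ a := by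
      have h1 := hH.sz
      rw [hEi, ← mul_pow] at h1
      have h2 := Nat.pow_left_injective (by norm_num : (2 : ℕ) ≠ 0) h1
      rw [pow_succ] at h2
      omega
    have hF : Module.finrank K (fixS ρ L) = 2 * 3 ^ b := by
      have h1 := hH.dim
      rw [hd, hab, hL, pow_succ, mul_assoc] at h1
      exact (Nat.eq_of_mul_eq_mul_left (by positivity) h1).symm
    have hT : ∀ v, v ∈ fixS ρ L ⊓ Module.End.eigenspace (ρ Z) ζ ↔
        v ∈ fixS ρ L ∧ ρ Z v = ζ • v := fun v => by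
      rw [Submodule.mem_inf, Module.End.mem_eigenspace_iff]
    generalize fixS ρ L ⊓ Module.End.eigenspace (ρ Z) ζ = T at hT
    have hTd : Module.finrank K T = 3 ^ b := by
      have h1 := (hs_dbl ρ E hE ζ L X Z hH (fixS ρ L) T
        (fun v hv => (hs_fix ρ 2 4 (-1) hpq E hE ζ L X Z hH v hv).1)
        (fun v hv => (hs_fix ρ 2 4 (-1) hpq E hE ζ L X Z hH v hv).2) hT).2.2
      omega
    rcases Nat.le_one_iff_eq_zero_or_eq_one.1 hb with rfl | rfl
    · obtain ⟨m, h0, hm, hZ⟩ := hH.ex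
      have hmT : m ∈ T := (hT m).2 ⟨hm, hZ⟩
      have h1 : Submodule.span K {m} = T :=
        Submodule.eq_of_le_of_finrank_eq ((Submodule.span_singleton_le_iff_mem m T).2 hmT)
          (by rw [finrank_span_singleton h0, hTd, pow_zero])
      obtain ⟨hw1, hw0, -⟩ := hs_sl2 ρ E hE ζ L X Z hH m hm h0 hZ
      exact bb_main ρ E hE ζ L X Z hH T hT m hmT h0 (h1 ▸ th_line ρ m)
        (Submodule.span K {wv ρ X m}) ((Submodule.span_singleton_le_iff_mem _ _).2 hw1)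
        (by rw [finrank_span_singleton hw0, hTd, pow_zero]) (th_line ρ _)
    · exact xsbasemb_mix ρ E hE ζ L X Z hH T hT (by rw [hTd, pow_one]) E' hE' hEi'

end Pool.Agent.N9181

end

section

namespace Pool.Agent.N9181

open scoped commutatorElement

theorem xsp9a_13 : (13 : K) = 0 := by decide

theorem xsp9a_ind {V : Type} [AddCommGroup V] [Module K V] (A : Module.End K V) (u0 u1 u2 : V)
    (h0 : A u0 = u0) (h1 : A u1 = (3 : K) • u1) (h2 : A u2 = (9 : K) • u2)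
    (h : u0 + u1 + u2 = 0) : u0 = 0 ∧ u1 = 0 := by
  have e1 : u0 + (3 : K) • u1 + (9 : K) • u2 = 0 := by
    have := congrArg A h
    rwa [map_add, map_add, map_zero, h0, h1, h2] at this
  have e2 : u0 + (3 : K) • (3 : K) • u1 + (9 : K) • (9 : K) • u2 = 0 := by
    have := congrArg A e1
    rwa [map_add, map_add, map_zero, map_smul, map_smul, h0, h1, h2] at this
  constructor
  · linear_combination (norm := module) (9 : K) • h + (9 : K) • e1 + (9 : K) • e2 -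
      xsp9a_13 • ((2 : K) • u0 + (9 : K) • u1 + (63 : K) • u2)
  · linear_combination (norm := module) (9 : K) • h + (81 : K) • e1 + (27 : K) • e2 -
      xsp9a_13 • ((9 : K) • u0 + (38 : K) • u1 + (225 : K) • u2)

theorem xsp9a_two {V : Type} [AddCommGroup V] [Module K V] (G : Module.End K V) (A B : V)
    (p q : K) (hA : G A = p • A) (hB : G B = q • B) (hpq : p ≠ q) (A0 : A ≠ 0) (B0 : B ≠ 0)
    (s t : K) (h : s • A + t • B = 0) : s = 0 ∧ t = 0 := by
  have e : s • p • A + t • q • B = 0 := by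
    have := congrArg G h
    rwa [map_add, map_zero, map_smul, map_smul, hA, hB] at this
  have e1 : ((p - q) * s) • A = 0 := by linear_combination (norm := module) e - q • h
  have e2 : ((p - q) * t) • B = 0 := by linear_combination (norm := module) p • h - e
  have n := sub_ne_zero.2 hpq
  exact ⟨(mul_eq_zero.1 ((smul_eq_zero.1 e1).resolve_right A0)).resolve_left n,
    (mul_eq_zero.1 ((smul_eq_zero.1 e2).resolve_right B0)).resolve_left n⟩

theorem xsp9a_match {V : Type} [AddCommGroup V] [Module K V] (G : Module.End K V) (u w A B : V)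
    (p q : K) (hu : G u = u) (hw : G w = (3 : K) • w) (hA : G A = p • A) (hB : G B = q • B)
    (hpq : p ≠ q) (A0 : A ≠ 0) (B0 : B ≠ 0) (h : u + w = A + B) :
    (u = A ∧ w = B) ∨ (u = B ∧ w = A) := by
  have e : u + (3 : K) • w = p • A + q • B := by
    have := congrArg G h
    rwa [map_add, map_add, hu, hw, hA, hB] at this
  have e1 : (2 : K) • u = (3 - p) • A + (3 - q) • B := by
    linear_combination (norm := module) (3 : K) • h - e
  have e2 : (2 : K) • u = (3 - p) • p • A + (3 - q) • q • B := by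
    have := congrArg G e1
    rwa [map_add, map_smul, map_smul, map_smul, hu, hA, hB] at this
  obtain ⟨f1, f2⟩ := xsp9a_two G A B p q hA hB hpq A0 B0 ((p - 1) * (p - 3)) ((q - 1) * (q - 3))
    (by linear_combination (norm := module) e2 - e1)
  have n2 : (2 : K) ≠ 0 := by decide
  rw [mul_eq_zero, sub_eq_zero, sub_eq_zero] at f1 f2
  rcases f1 with rfl | rfl <;> rcases f2 with rfl | rfl
  · exact absurd rfl hpq
  · have : u = A := smul_right_injective V n2 (by linear_combination (norm := module) e1)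
    exact .inl ⟨this, by linear_combination (norm := module) h - this⟩
  · have : u = B := smul_right_injective V n2 (by linear_combination (norm := module) e1)
    exact .inr ⟨this, by linear_combination (norm := module) h - this⟩
  · exact absurd rfl hpq

theorem xsp9a_cube {V : Type} [AddCommGroup V] [Module K V] (G : Module.End K V) (a : V)
    (a0 : a ≠ 0) (h3 : G (G (G a)) = a) (μ y : K) (h : μ • G a = y • a) : μ ^ 3 = y ^ 3 := by
  have e1 := congrArg G h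
  have e2 := congrArg G e1
  simp only [map_smul, h3] at e1 e2
  have e : (μ ^ 3 - y ^ 3) • a = 0 := by
    linear_combination (norm := module) μ ^ 2 • e2 + (μ * y) • e1 + y ^ 2 • h
  exact sub_eq_zero.1 ((smul_eq_zero.1 e).resolve_right a0)

theorem xsp9a_pw {V : Type} [AddCommGroup V] [Module K V] {H : Type} [Group H]
    (ρ : Representation K H V) (g : H) (h : g ^ 3 = 1) (v : V) : ρ g (ρ g (ρ g v)) = v := by
  rw [← rho_mul, ← rho_mul, ← pow_two, ← pow_succ, h, map_one]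
  rfl

theorem p9_edge {V : Type} [AddCommGroup V] [Module K V] [Module.Finite K V]
    {H : Type} [Group H] [Finite H] (ρ : Representation K H V) (E : Subgroup H) (hE : EH ρ 3 3 E) (L : Subgroup H) (X Z : H)
    (hH : HS ρ 3 3 1 E L X Z) (l Y : H) (hl : l ∈ L) (hL : ∀ x ∈ L, x = 1 ∨ x = l ∨ x = l * l) (hY : Y ∈ E)
    (hlY : ∀ v, ρ l (ρ Y v) = (3 : K) • ρ Y (ρ l v)) (m : V) (hm : m ∈ fixS ρ L) (h0 : m ≠ 0) (hZ : ρ Z m = m) (x : K) (hx : x ≠ 0) (hx3 : x ^ 3 ≠ -1) (f : H) (hf : f ∈ E) (ν : K)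
    (h : r9 ρ Y (av ρ X m) x + ν • ρ f (r9 ρ Y (av ρ X m) x) +
      ν ^ 2 • ρ f (ρ f (r9 ρ Y (av ρ X m) x)) = 0) : ∃ l' ∈ L, ∃ c : K, ∀ v, ρ f v = c • ρ l' v := by
  obtain ⟨ha, a0, -⟩ := hs_sla ρ E hE L X Z hH m hm h0 hZ
  have hpq : PQ 3 3 (3 : K) := .inr ⟨rfl, rfl, rfl⟩
  obtain ⟨k, hk, hr⟩ := eh_rel ρ 3 3 3 hpq E hE l f (hH.le hl) hf
  have hP := hs_p3 ρ E hE L X Z hH m h0 hZ
  have hw : av ρ X m = m + ρ X m + (2 : K) • ρ X (ρ X m) := rfl
  generalize av ρ X m = a at *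
  have la : ρ l a = a := ha l hl
  have lb : ρ l (ρ Y a) = (3 : K) • ρ Y a := by rw [hlY, la]
  have f3 := xsp9a_pw ρ f (hE.pw f hf) a
  simp only [r9, map_add, map_smul] at h
  have hb : ρ Y⁻¹ (ρ Y a) = a := rho_inv ρ Y a
  generalize ρ Y a = b at *
  obtain rfl | rfl | rfl : k = 0 ∨ k = 1 ∨ k = 2 := by omega
  · simp only [pow_zero, one_smul] at hr
    have c1 : f * l = l * f := hE.inj (LinearMap.ext fun v => by rw [rho_mul, rho_mul, hr])
    have c2 : ∀ y ∈ L, f * y = y * f := by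
      intro y hy
      rcases hL y hy with rfl | rfl | rfl
      · rw [mul_one, one_mul]
      · exact c1
      · rw [← mul_assoc, c1, mul_assoc, c1, mul_assoc]
    obtain ⟨c, i, j, -, hi, hj, h1, h2⟩ := hs_cen ρ 3 3 3 hpq E hE 1 L X Z hH f hf c2
    have e := (xsp9a_ind (ρ l) (a + ν • ρ f a + ν ^ 2 • ρ f (ρ f a))
      (x • b + ν • x • ρ f b + ν ^ 2 • x • ρ f (ρ f b)) 0
      (by simp only [map_add, map_smul, hr, la])
      (by simp only [map_add, map_smul, hr, lb]; module) (by simp)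
      (by linear_combination (norm := module) h)).1
    have fa : ρ f a ∈ fixS ρ L := fun y hy => by
      rw [← rho_mul, ← c2 y hy, rho_mul, ha y hy]
    rw [h1 _ fa, h1 _ ha, map_smul] at e
    obtain ⟨i0, j0⟩ := ql_ne (ρ X) (ρ Z) m hP i j hi hj (ν * c) a hw
      (by linear_combination (norm := module) e)
    obtain ⟨l', hl', h3⟩ := h2 i0 j0
    exact ⟨l', hl', c, h3⟩
  · exfalso
    simp only [pow_one] at hr
    obtain ⟨e0, e1⟩ := xsp9a_ind (ρ l) (a + ν ^ 2 • x • ρ f (ρ f b)) (x • b + ν • ρ f a)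
      (ν • x • ρ f b + ν ^ 2 • ρ f (ρ f a))
      (by
        simp only [map_add, map_smul, hr, la, lb]
        linear_combination (norm := module) xsp9a_13 • ((2 * ν ^ 2 * x) • ρ f (ρ f b)))
      (by simp only [map_add, map_smul, hr, la, lb]; module)
      (by simp only [map_add, map_smul, hr, la, lb]; module)
      (by linear_combination (norm := module) h)
    have e2 := congrArg (fun v => ρ f (ρ f v)) e1
    simp only [map_add, map_smul, map_zero, f3] at e2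
    have e3 : (1 - ν ^ 3) • a = 0 := by linear_combination (norm := module) e0 - ν ^ 2 • e2
    have e4 := congrArg (ρ Y⁻¹) e1
    rw [map_add, map_smul, map_smul, map_zero, hb, ← rho_mul] at e4
    have e5 := xsp9a_cube (ρ (Y⁻¹ * f)) a a0
      (xsp9a_pw ρ _ (hE.pw _ (E.mul_mem (E.inv_mem hY) hf)) a) ν (-x)
      (by linear_combination (norm := module) e4)
    exact hx3 (by linear_combination e5 + (smul_eq_zero.1 e3).resolve_right a0)
  · exfalso
    obtain ⟨e0, e1⟩ := xsp9a_ind (ρ l) (a + ν • x • ρ f b) (x • b + ν ^ 2 • ρ f (ρ f a))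
      (ν • ρ f a + ν ^ 2 • x • ρ f (ρ f b))
      (by
        simp only [map_add, map_smul, hr, la, lb]
        linear_combination (norm := module) xsp9a_13 • ((2 * ν * x) • ρ f b))
      (by
        simp only [map_add, map_smul, hr, la, lb]
        linear_combination (norm := module) xsp9a_13 • ((6 * ν ^ 2) • ρ f (ρ f a)))
      (by
        simp only [map_add, map_smul, hr, la, lb]
        linear_combination (norm := module) xsp9a_13 • ((18 * ν ^ 2 * x) • ρ f (ρ f b)))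
      (by linear_combination (norm := module) h)
    have e2 := congrArg (ρ f) e1
    simp only [map_add, map_smul, map_zero, f3] at e2
    have e3 : (1 - ν ^ 3) • a = 0 := by linear_combination (norm := module) e0 - ν • e2
    have e4 := congrArg (ρ Y⁻¹) e1
    rw [map_add, map_smul, map_smul, map_zero, hb, ← rho_mul, ← rho_mul] at e4
    have e5 := xsp9a_cube (ρ (Y⁻¹ * f * f)) a a0
      (xsp9a_pw ρ _ (hE.pw _ (E.mul_mem (E.mul_mem (E.inv_mem hY) hf) hf)) a) (ν ^ 2) (-x)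
      (by linear_combination (norm := module) e4)
    exact hx3 (by
      linear_combination e5 + (1 + ν ^ 3) * (smul_eq_zero.1 e3).resolve_right a0)

theorem p9_act {V : Type} [AddCommGroup V] [Module K V] [Module.Finite K V]
    {H : Type} [Group H] [Finite H] (ρ : Representation K H V) (E : Subgroup H) (hE : EH ρ 3 3 E) (L : Subgroup H) (X Z : H)
    (hH : HS ρ 3 3 1 E L X Z) (l Y : H) (hl : l ∈ L) (hL : ∀ x ∈ L, x = 1 ∨ x = l ∨ x = l * l) (hY : Y ∈ E)
    (hlY : ∀ v, ρ l (ρ Y v) = (3 : K) • ρ Y (ρ l v)) (m : V) (hm : m ∈ fixS ρ L) (h0 : m ≠ 0) (hZ : ρ Z m = m) (x x' : K) (hx : x ≠ 0) (hx' : x' ≠ 0) (hx3 : x' ^ 3 ≠ -1) (k : H)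
    (c : K) (h : ρ k (r9 ρ Y (av ρ X m) x) = c • r9 ρ Y (av ρ X m) x') :
    (ρ k (av ρ X m) = c • av ρ X m ∧ x • ρ k (ρ Y (av ρ X m)) = (c * x') • ρ Y (av ρ X m)) ∨
      (ρ k (av ρ X m) = (c * x') • ρ Y (av ρ X m) ∧ x • ρ k (ρ Y (av ρ X m)) = c • av ρ X m) := by
  obtain ⟨ha, a0, -⟩ := hs_sla ρ E hE L X Z hH m hm h0 hZ
  have hf : k * l * k⁻¹ ∈ E := hE.nE.conj_mem l (hH.le hl) k
  have key := p9_edge ρ E hE L X Z hH l Y hl hL hY hlY m hm h0 hZ x' hx' hx3 _ hf 3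
  generalize av ρ X m = a at *
  have la : ρ l a = a := ha l hl
  have lb : ρ l (ρ Y a) = (3 : K) • ρ Y a := by rw [hlY, la]
  have inj : ∀ (g : H) (v : V), v ≠ 0 → ρ g v ≠ 0 := fun g v hv e =>
    hv (by rw [← rho_inv ρ g v, e, map_zero])
  have b0 := inj Y a a0
  have fk : ∀ v, ρ (k * l * k⁻¹) (ρ k v) = ρ k (ρ l v) := fun v => by
    rw [← rho_mul, inv_mul_cancel_right, rho_mul]
  simp only [r9] at h key
  generalize ρ Y a = b at *
  generalize k * l * k⁻¹ = f at *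
  have n13 : (1 : K) ≠ 3 := by decide
  have c0 : c ≠ 0 := by
    rintro rfl
    refine inj k (a + x • b) (fun e => ?_) (by rw [h, zero_smul])
    exact one_ne_zero (xsp9a_two (ρ l) a b 1 3 (by rw [la, one_smul]) lb n13 a0 b0 1 x
      (by rw [one_smul, e])).1
  have e0 : (a + x • b) + (3 : K) • ρ l (a + x • b) + (3 : K) ^ 2 • ρ l (ρ l (a + x • b)) = 0 := by
    simp only [map_add, map_smul, la, lb]
    linear_combination (norm := module) xsp9a_13 • (a + (7 * x) • b)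
  have e1 := congrArg (ρ k) e0
  rw [map_add, map_add, map_smul, map_smul, map_zero, ← fk, ← fk, ← fk, h, map_smul,
    map_smul] at e1
  obtain ⟨l', hl', d, hd⟩ := key (smul_right_injective V c0 (by linear_combination (norm := module) e1))
  have hu : ρ f (ρ k a) = ρ k a := by rw [fk, la]
  have hw : ρ f (x • ρ k b) = (3 : K) • x • ρ k b := by
    rw [map_smul, fk, lb, map_smul, smul_comm]
  have d0 : d ≠ 0 := by
    rintro rfl
    exact inj f a a0 (by rw [hd, zero_smul])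
  have hs : ρ k a + x • ρ k b = c • a + (c * x') • b := by
    rw [map_add, map_smul] at h
    linear_combination (norm := module) h
  have fin : ∀ t : K, t ≠ 1 → ρ l' a = a → ρ l' b = t • b → _ := fun t ht h1 h2 =>
    xsp9a_match (ρ f) (ρ k a) (x • ρ k b) (c • a) ((c * x') • b) d (d * t) hu hw
      (by rw [hd, map_smul, h1]) (by rw [hd, map_smul, h2]; module)
      (fun e => ht (mul_left_cancel₀ d0 (by rw [← e, mul_one]))) (smul_ne_zero c0 a0)
      (smul_ne_zero (mul_ne_zero c0 hx') b0) hs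
  rcases hL l' hl' with rfl | rfl | rfl
  · exfalso
    have h1 : ∀ v, ρ f v = d • v := fun v => by rw [hd, map_one]; rfl
    rw [h1] at hu hw
    have h2 : d = 1 := smul_left_injective K (inj k a a0) (by simpa using hu)
    have h3 : d = 3 := smul_left_injective K (smul_ne_zero hx (inj k b b0)) hw
    exact n13 (h2.symm.trans h3)
  · exact fin 3 n13.symm la lb
  · exact fin 9 (by decide) (by rw [rho_mul, la, la])
      (by rw [rho_mul, lb, map_smul, lb]; module)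

end Pool.Agent.N9181

end

section

namespace Pool.Agent.N9181

open scoped commutatorElement

theorem xsp9b_gen {H : Type} [Group H] [Finite H] (L : Subgroup H) (hL : Nat.card L = 3) :
    ∃ l ∈ L, l ≠ 1 ∧ ∀ x ∈ L, x = 1 ∨ x = l ∨ x = l * l := by
  have : Fact (Nat.Prime 3) := ⟨Nat.prime_three⟩
  have : Nontrivial L := Finite.one_lt_card_iff_nontrivial.1 (by omega)
  obtain ⟨l, hl⟩ := exists_ne (1 : L)
  have ho : orderOf l = 3 := orderOf_eq_prime (by rw [← hL]; exact pow_card_eq_one') hl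
  refine ⟨l, l.2, fun h => hl (Subtype.ext h), fun x hx => ?_⟩
  have h1 : (⟨x, hx⟩ : L) ∈ Submonoid.powers l := mem_powers_of_prime_card hL hl
  obtain ⟨n, hn⟩ := h1
  have h2 : l ^ (n % 3) = ⟨x, hx⟩ := by
    rw [← ho, pow_mod_orderOf]
    exact hn
  have h3 : (l : H) ^ (n % 3) = x := by
    have := congrArg Subtype.val h2
    simpa using this
  have h4 : n % 3 = 0 ∨ n % 3 = 1 ∨ n % 3 = 2 := by omega
  rcases h4 with h | h | h
  · left
    rw [← h3, h, pow_zero]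
  · right; left
    rw [← h3, h, pow_one]
  · right; right
    rw [← h3, h, pow_two]

theorem xsp9b_Y {V : Type} [AddCommGroup V] [Module K V] [Module.Finite K V]
    {H : Type} [Group H] [Finite H] (ρ : Representation K H V) (E : Subgroup H)
    (hE : EH ρ 3 3 E) (l : H) (hl : l ∈ E) (h1 : l ≠ 1) (m : V) (h0 : m ≠ 0) (hm : ρ l m = m) :
    ∃ Y ∈ E, ∀ v, ρ l (ρ Y v) = (3 : K) • ρ Y (ρ l v) := by
  have hns : l ∉ scal ρ := by
    rintro ⟨c, -, hc⟩
    have h2 : (c - 1) • m = 0 := by rw [sub_smul, one_smul, ← hc, hm, sub_self]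
    have h3 : c = 1 := sub_eq_zero.1 ((smul_eq_zero.1 h2).resolve_right h0)
    apply h1
    apply hE.inj
    ext v
    rw [hc, h3, one_smul, map_one]
    rfl
  have hex : ∃ Y ∈ E, l * Y ≠ Y * l := by
    by_contra hn
    push Not at hn
    exact hns ((eh_pd ρ 3 3 E hE).nd l hl hn).2
  obtain ⟨Y, hY, hne⟩ := hex
  obtain ⟨k, hk, hr⟩ := eh_rel ρ 3 3 3 (Or.inr ⟨rfl, rfl, rfl⟩) E hE l Y hl hY
  have hk' : k = 0 ∨ k = 1 ∨ k = 2 := by omega
  rcases hk' with rfl | rfl | rfl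
  · exfalso
    apply hne
    apply hE.inj
    ext v
    rw [rho_mul, rho_mul, hr, pow_zero, one_smul]
  · exact ⟨Y, hY, fun v => by rw [hr, pow_one]⟩
  · refine ⟨Y * Y, E.mul_mem hY hY, fun v => ?_⟩
    rw [rho_mul, rho_mul, hr, hr, map_smul, smul_smul]
    congr 1

theorem xsp9b_zero {V : Type} [AddCommGroup V] [Module K V] (v : V) (h : v = (3 : K) • v) :
    v = 0 := by
  have h2 : ((1 : K) - 3) • v = 0 := by rw [sub_smul, one_smul, ← h, sub_self]
  exact (smul_eq_zero.1 h2).resolve_left (by decide)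

theorem xsp9b_cube {V : Type} [AddCommGroup V] [Module K V] [Module.Finite K V]
    {H : Type} [Group H] [Finite H] (ρ : Representation K H V) (f : H) (hf : f ^ 3 = 1)
    (a : V) (h0 : a ≠ 0) : ρ f a ≠ (8 : K) • a := by
  intro h
  have h1 := rho_pow_eig ρ f a 8 h 3
  rw [hf, map_one] at h1
  have h2 : ((8 : K) ^ 3 - 1) • a = 0 := by
    rw [sub_smul, one_smul, ← h1]
    exact sub_self _
  exact h0 ((smul_eq_zero.1 h2).resolve_left (by decide))

theorem xsp9b_inv {V : Type} [AddCommGroup V] [Module K V]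
    {H : Type} [Group H] (ρ : Representation K H V) (k : H) (a b : V)
    (h : ρ k a = (3 : K) • b) : ρ k⁻¹ b = (9 : K) • a := by
  have h1 := rho_inv ρ k a
  rw [h, map_smul] at h1
  rw [← h1, smul_smul, show (9 : K) * 3 = 1 by decide, one_smul]

theorem xsp9b_five {V : Type} [AddCommGroup V] [Module K V] (a b : V)
    (h : (5 : K) • a = (3 : K) • b) : a = (11 : K) • b := by
  have h1 := congrArg (fun v => (8 : K) • v) h
  simp only [smul_smul] at h1
  rw [show (8 : K) * 5 = 1 by decide, show (8 : K) * 3 = 11 by decide, one_smul] at h1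
  exact h1

theorem xsp9b_pos {V : Type} [AddCommGroup V] [Module K V] [Module.Finite K V]
    {H : Type} [Group H] [Finite H] (ρ : Representation K H V) (E : Subgroup H)
    (hE : EH ρ 3 3 E) (L : Subgroup H) (X Z : H) (hH : HS ρ 3 3 1 E L X Z)
    (hL9 : Module.finrank K V = 9) (h3 : Module.finrank K (fixS ρ L) = 3)
    (l Y : H) (hl : l ∈ L) (hL : ∀ x ∈ L, x = 1 ∨ x = l ∨ x = l * l) (hY : Y ∈ E)
    (hlY : ∀ v, ρ l (ρ Y v) = (3 : K) • ρ Y (ρ l v)) (m : V) (hm : m ∈ fixS ρ L) (h0 : m ≠ 0)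
    (hZ : ρ Z m = m) (x : K) (hx : x ≠ 0) (hx3 : x ^ 3 ≠ -1) :
    Pos ρ (r9 ρ Y (av ρ X m) x) 1 := by
  intro s n hs hr
  obtain ⟨ha1, ha0, -⟩ := hs_sla ρ E hE L X Z hH m hm h0 hZ
  have hth := ql_th ρ E hE L X Z hH m hm h0 hZ
  rw [(hs_t3 ρ E hE L X Z hH m hm h0 hZ).2 h3] at hth
  have hact := p9_act ρ E hE L X Z hH l Y hl hL hY hlY m hm h0 hZ x x hx hx hx3 s 3 hr
  generalize av ρ X m = a at ha1 ha0 hth hact
  rcases hact with ⟨h1, h2⟩ | ⟨h1, h2⟩
  · have h2' : ρ s (ρ Y a) = (3 : K) • ρ Y a := by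
      rw [mul_comm, ← smul_smul] at h2
      exact smul_right_injective V hx h2
    have hs' : (Y⁻¹ * s * Y) ^ (3 ^ n) = 1 := by
      have := @conj_pow H _ (3 ^ n) Y⁻¹ s
      rw [inv_inv] at this
      rw [this, hs, mul_one, inv_mul_cancel]
    have h4 : ρ (Y⁻¹ * s * Y) a = (3 : K) • a := by
      rw [rho_mul, rho_mul, h2', map_smul, rho_inv]
    have h5 := hth _ n hs' h4
    have h6 := hth s n hs h1
    have hle : fixS ρ L ⊔ (fixS ρ L).map (ρ Y) ≤ Module.End.eigenspace (ρ s) 3 := by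
      apply sup_le
      · intro w hw
        exact Module.End.mem_eigenspace_iff.2 (h6 w hw)
      · rintro _ ⟨w, hw, rfl⟩
        have h7 := congrArg (ρ Y) (h5 w hw)
        rw [rho_mul, rho_mul, rho_inv', map_smul] at h7
        exact Module.End.mem_eigenspace_iff.2 h7
    have hinf : fixS ρ L ⊓ (fixS ρ L).map (ρ Y) = ⊥ := by
      rw [eq_bot_iff]
      rintro _ ⟨hv, w, hw, rfl⟩
      have h7 := hlY w
      rw [hv l hl, hw l hl] at h7
      exact xsp9b_zero _ h7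
    have hinj : Function.Injective (ρ Y) := fun u v h => by
      rw [← rho_inv ρ Y u, h, rho_inv]
    have hmap : Module.finrank K ((fixS ρ L).map (ρ Y)) = 3 := by
      rw [← h3]
      exact (Submodule.equivMapOfInjective _ hinj _).finrank_eq.symm
    have h8 := Submodule.finrank_sup_add_finrank_inf_eq (fixS ρ L) ((fixS ρ L).map (ρ Y))
    rw [hinf, finrank_bot, h3, hmap] at h8
    have h9 : 6 ≤ ed (ρ s) 3 := by
      have := Submodule.finrank_mono hle
      unfold ed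
      omega
    have h10 := ed_two ⊤ (ρ s) 3 9 (by decide)
    rw [edOn_top, edOn_top, finrank_top, hL9] at h10
    omega
  · exfalso
    have h4 : ρ (s * s) a = (9 : K) • a := by
      rw [rho_mul, h1, map_smul, ← smul_smul, h2, smul_smul]
      congr 1
    obtain ⟨j, hj⟩ : Odd (3 ^ n) := Odd.pow (by decide)
    have h5 : s * (s * s) ^ j = 1 := by
      rw [← hs, hj, ← pow_two, ← pow_mul, pow_succ']
    have h6 := rho_pow_eig ρ (s * s) a 9 h4 j
    have h7 : a = (9 ^ j * (3 * x)) • ρ Y a := by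
      have := rho_mul ρ s ((s * s) ^ j) a
      rw [h5, h6, map_smul, h1, smul_smul, map_one] at this
      exact this
    have h8 := congrArg (ρ l) h7
    rw [map_smul, hlY, ha1 l hl, smul_comm, ← h7] at h8
    exact ha0 (xsp9b_zero _ h8)

theorem p9 {V : Type} [AddCommGroup V] [Module K V] [Module.Finite K V]
    {H : Type} [Group H] [Finite H] (ρ : Representation K H V) (E : Subgroup H) (hE : EH ρ 3 3 E) (L : Subgroup H) (X Z : H)
    (hH : HS ρ 3 3 1 E L X Z) (hL : Nat.card L = 3) (h3 : Module.finrank K (fixS ρ L) = 3) : PP2 ρ := by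
  obtain ⟨l, hl, hl1, hLl⟩ := xsp9b_gen L hL
  obtain ⟨m, h0, hm, hZ⟩ := hH.ex
  rw [one_smul] at hZ
  obtain ⟨Y, hY, hlY⟩ := xsp9b_Y ρ E hE l (hH.le hl) hl1 m h0 (hm l hl)
  have h9 : Module.finrank K V = 9 := by rw [hH.dim, hL, h3]
  obtain ⟨ha1, ha0, -⟩ := hs_sla ρ E hE L X Z hH m hm h0 hZ
  have hne : ∀ x : K, r9 ρ Y (av ρ X m) x ≠ 0 := fun x h => by
    unfold r9 at h
    have h1 : av ρ X m = (-x) • ρ Y (av ρ X m) := by
      rw [neg_smul]
      exact eq_neg_of_add_eq_zero_left h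
    have h2 := congrArg (ρ l) h1
    rw [map_smul, hlY, ha1 l hl, smul_comm, ← h1] at h2
    exact ha0 (xsp9b_zero _ h2)
  refine ⟨r9 ρ Y (av ρ X m) 1, r9 ρ Y (av ρ X m) 5, hne 1, hne 5, fun k hk => ?_,
    xsp9b_pos ρ E hE L X Z hH h9 h3 l Y hl hLl hY hlY m hm h0 hZ 1 (by decide) (by decide),
    xsp9b_pos ρ E hE L X Z hH h9 h3 l Y hl hLl hY hlY m hm h0 hZ 5 (by decide) (by decide)⟩
  have hact := p9_act ρ E hE L X Z hH l Y hl hLl hY hlY m hm h0 hZ 5 1 (by decide) (by decide)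
    (by decide) k 3 hk
  have hc : k * Y * k⁻¹ ∈ E := hE.nE.conj_mem Y hY k
  generalize av ρ X m = a at ha0 hact
  rw [mul_one] at hact
  rcases hact with ⟨h1, h2⟩ | ⟨h1, h2⟩
  · refine xsp9b_cube ρ (Y⁻¹ * (k * Y * k⁻¹)) (hE.pw _ (E.mul_mem (E.inv_mem hY) hc)) a ha0 ?_
    rw [rho_mul, rho_mul, rho_mul, xsp9b_inv ρ k a a h1, map_smul, map_smul,
      xsp9b_five _ _ h2, map_smul, map_smul, rho_inv, smul_smul]
    congr 1
  · refine xsp9b_cube ρ (k * Y * k⁻¹ * Y) (hE.pw _ (E.mul_mem hc hY)) a ha0 ?_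
    rw [rho_mul, rho_mul, rho_mul, xsp9b_inv ρ k a _ h1, map_smul, map_smul,
      xsp9b_five _ _ h2, smul_smul]
    congr 1

end Pool.Agent.N9181

end

section

namespace Pool.Agent.N9181

open scoped commutatorElement

theorem baseM_c {V : Type} [AddCommGroup V] [Module K V] [Module.Finite K V]
    {H : Type} [Group H] [Finite H] (ρ : Representation K H V) (N : ℕ) (A F : Subgroup H) (hG : GB ρ N A F) (k : ℕ) (hk : 2 ≤ k) (he : A.relIndex F = (3 ^ k) ^ 2)
    (hd : Module.finrank K V = 3 ^ k) : PB2 ρ := by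
  obtain ⟨g, hg⟩ := lam ρ N A F hG _ he
  rw [hd] at hg
  obtain ⟨h12, hA, hC⟩ := gb_one ρ N A F hG _ g (by positivity) hg
  obtain ⟨E, hEm, hE, hi⟩ := exists_EH ρ N A F hG _ he 3 3 (Or.inr ⟨rfl, rfl⟩)
  refine ⟨?_, E, hE, eh_ffe ρ N A F hG k he hA E hEm⟩
  rw [Nat.Prime.factorization_pow Nat.prime_three, Finsupp.single_eq_same] at hi
  rcases hk.eq_or_lt with rfl | hk3
  · obtain ⟨ζ, L, X, Z, hH, hζ⟩ := hs_rep ρ 3 3 3 (Or.inr ⟨rfl, rfl, rfl⟩) E hE (by
      rw [hi]; norm_num)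
    obtain rfl := hζ rfl
    have h5 : Nat.card L = 3 := by
      have h6 := hH.sz
      rw [hi] at h6
      exact Nat.pow_left_injective two_ne_zero (by
        show Nat.card L ^ 2 = 3 ^ 2
        omega)
    have h7 := hH.dim
    rw [hd, h5] at h7
    exact p9 ρ E hE L X Z hH h5 (by omega)
  · obtain ⟨I, M, h1, -, -, h2, -⟩ := cntA A F hG.sd _ he (Odd.pow (by decide))
    rw [hC, Subgroup.card_top] at h2
    refine pos_cnt ρ ?_
    rw [hd]
    refine lt_of_le_of_lt (Nat.mul_le_mul_right _ (h2.trans ?_)) (num27 k hk3)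
    exact Nat.mul_le_mul (Nat.mul_le_mul_right _ (Nat.le_of_dvd (by norm_num) h12)) h1

theorem baseM {V : Type} [AddCommGroup V] [Module K V] [Module.Finite K V]
    {H : Type} [Group H] [Finite H] (ρ : Representation K H V) (N : ℕ) (A F : Subgroup H) (hG : GB ρ N A F) : PB1 ρ ∨ PB2 ρ := by
  obtain ⟨e, he0, he, hed, hp⟩ := gb_e ρ N A F hG
  by_cases h2 : 2 * e ≤ Module.finrank K V ∨ (Module.finrank K V = e ∧ 18 ∣ e)
  · obtain ⟨r, r0, hr⟩ := regM ρ N A F hG e he h2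
    exact Or.inl (pb_of_reg ρ r r0 hr)
  have hd0 : 0 < Module.finrank K V := Module.finrank_pos_iff_exists_ne_zero.2 hG.ne
  have hde : Module.finrank K V = e := by
    obtain ⟨c, hc⟩ := hed
    have h1 : c = 1 := by
      rcases c with _ | _ | c
      · omega
      · rfl
      · exact absurd (Or.inl (by rw [hc]; nlinarith)) h2
    rw [hc, h1, mul_one]
  by_cases h9 : 9 ∣ e
  swap
  · exact Or.inl (baseM_b ρ N A F hG e he hde h9)
  have ho : ¬ 2 ∣ e := fun h => h2 (Or.inr ⟨hde, by omega⟩)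
  obtain ⟨g, hg⟩ := lam ρ N A F hG e he
  rw [hde] at hg
  obtain ⟨h12, -, -⟩ := gb_one ρ N A F hG e g he0 hg
  have h3 : e = 3 ^ e.primeFactorsList.length := by
    refine Nat.eq_prime_pow_of_unique_prime_dvd he0.ne' fun {p} pp hpe => ?_
    have h4 : p ∣ 2 ^ 2 * 3 := (hp p pp hpe).trans h12
    rcases (Nat.Prime.dvd_mul pp).1 h4 with h | h
    · have := (Nat.prime_dvd_prime_iff_eq pp Nat.prime_two).1 (pp.dvd_of_dvd_pow h)
      exact absurd (this ▸ hpe) ho
    · exact (Nat.prime_dvd_prime_iff_eq pp Nat.prime_three).1 h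
  generalize e.primeFactorsList.length = k at h3
  subst h3
  refine Or.inr (baseM_c ρ N A F hG k ?_ he hde)
  rcases k with _ | _ | k
  · omega
  · omega
  · omega

end Pool.Agent.N9181

end

section

namespace Pool.Agent.N9181

open scoped commutatorElement

theorem xsstepp_bal {V : Type} [AddCommGroup V] [Module K V] [Module.Finite K V]
    {H : Type} [Group H] [Finite H] (ρ : Representation K H V) {I : Type} [Fintype I]
    [DecidableEq I] [MulAction H I] (W : I → Submodule K V) (hB : BD ρ I W) (hb : HBal3 ρ)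
    (t : H) (a : ℕ) (ht : t ^ (3 ^ a) = 1) (v : V) (h0 : v ≠ 0) (hv : ρ t v = v) :
    ∑ i ∈ Finset.univ.filter (fun i : I => t • i = i), edOn (W i) (ρ t) 3 =
      ∑ i ∈ Finset.univ.filter (fun i : I => t • i = i), edOn (W i) (ρ t) 9 := by
  obtain ⟨c, hc, -⟩ := cyc ρ W hB t a ht
  have := hb t a v ht h0 hv
  rw [hc 3 (by decide), hc 9 (by decide)] at this
  omega

theorem xsstepp_sum {I : Type} (S : Finset I) (f g : I → ℕ) (p : ℕ)
    (h : ∀ i ∈ S, f i + p ≤ g i) : ∑ i ∈ S, f i + S.card * p ≤ ∑ i ∈ S, g i := by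
  have := Finset.sum_le_sum h
  rwa [Finset.sum_add_distrib, Finset.sum_const, smul_eq_mul] at this

theorem stepP {V : Type} [AddCommGroup V] [Module K V] [Module.Finite K V]
    {H : Type} [Group H] [Finite H] (ρ : Representation K H V) {I : Type} [Fintype I] [MulAction H I] (W : I → Submodule K V) (hB : BD ρ I W) (hb : HBal3 ρ) (hE : HEP ρ 3) (r r' : I → V) (hr : ∀ i, r i ∈ W i ∧ r i ≠ 0) (hr' : ∀ i, r' i ∈ W i)
    (p : ℕ) (hp : 0 < p) (hn : ∀ (h : H) (i j : I), ρ h (r' i) ≠ (3 : K) • r j)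
    (h1 : BPos ρ W r p) (h2 : BPosW ρ W r' p) :
    ∃ (t : H) (a : ℕ), t ^ (3 ^ a) = 1 ∧ (∀ i : I, t • i = i) ∧ (∀ v, ρ t v = v → v = 0) ∧
      ((∀ i, ρ t (r i) = (3 : K) • r i) ∨ ∃ i1 i2 i3 : I, i1 ≠ i2 ∧ i1 ≠ i3 ∧ i2 ≠ i3 ∧
        ρ t (r' i1) = (3 : K) • r' i1 ∧ ∀ i, i ≠ i1 → ρ t (r i) = (3 : K) • r i) := by
  classical
  obtain ⟨t, a, ht, h⟩ := ep3 ρ hE (∑ i, r i)
  have c1 := comp0 ρ W hB r r (fun i => (hr i).1) (fun i => (hr i).1) t 3 h
  have k1 : ∀ v, v ≠ 0 → ρ t v = v → Finset.univ.filter (fun i : I => t • i = i) = ∅ := by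
    intro v h0 hv
    have b1 := xsstepp_bal ρ W hB hb t a ht v h0 hv
    have b2 := xsstepp_sum (Finset.univ.filter (fun i : I => t • i = i)) _ _ p fun i hi =>
      h1 i t a ht (Finset.mem_filter.1 hi).2 (by rw [c1 i, (Finset.mem_filter.1 hi).2])
    rw [← Finset.card_eq_zero]
    exact (Nat.mul_eq_zero.1 (by omega : _ * p = 0)).resolve_right hp.ne'
  by_cases hall : ∀ i : I, t • i = i
  · refine ⟨t, a, ht, hall, fun v hv => ?_, Or.inl fun i => by rw [c1 i, hall i]⟩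
    by_contra h0
    have b1 := k1 v h0 hv
    have b2 : iSup W ≤ ⊥ := iSup_le fun i =>
      (Finset.filter_eq_empty_iff.1 b1 (Finset.mem_univ i) (hall i)).elim
    rw [hB.top] at b2
    exact h0 (b2 Submodule.mem_top)
  obtain ⟨i1, hi1⟩ := not_forall.1 hall
  obtain ⟨v, h0, hv⟩ := xstepa_mov ρ W hB t a ht _ h
    (sum_not_mem ρ W hB Finset.univ r (fun i _ => hr i) (fun i => t • i = i) i1
      (Finset.mem_univ _) hi1)
  have k6 := card_fix (I := I) t a ht
  rw [k1 v h0 hv, Finset.card_empty] at k6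
  clear hv h0 v hi1 hall k1 c1 h ht t a
  have hs : ∀ i, Function.update r i1 (r' i1) i ∈ W i := by
    intro i
    by_cases e : i = i1
    · rw [e, Function.update_self]; exact hr' i1
    · rw [Function.update_of_ne e]; exact (hr i).1
  obtain ⟨t, a, ht, h⟩ := ep3 ρ hE (∑ i, Function.update r i1 (r' i1) i)
  have c1 := comp0 ρ W hB _ _ hs hs t 3 h
  have f1 : t • i1 = i1 := by
    by_contra e
    have := c1 i1
    rw [Function.update_self, Function.update_of_ne e] at this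
    exact hn _ _ _ this
  have c2 : ρ t (r' i1) = (3 : K) • r' i1 := by
    have := c1 i1
    rwa [f1, Function.update_self] at this
  have c3 : ∀ i, i ≠ i1 → t • i = i → ρ t (r i) = (3 : K) • r i := by
    intro i e hi
    have := c1 i
    rwa [hi, Function.update_of_ne e] at this
  have m1 : i1 ∈ Finset.univ.filter (fun i : I => t • i = i) :=
    Finset.mem_filter.2 ⟨Finset.mem_univ _, f1⟩
  have k7 : 1 < ((Finset.univ.filter (fun i : I => t • i = i)).erase i1).card := by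
    have h1 := (card_fix (I := I) t a ht).trans k6.symm
    have h2 := Finset.card_pos.2 ⟨i1, m1⟩
    rw [Finset.card_erase_of_mem m1]
    unfold Nat.ModEq at h1
    omega
  have k8 : ∀ v, ρ t v = v → v = 0 := by
    intro v hv
    by_contra h0
    have b1 := xsstepp_bal ρ W hB hb t a ht v h0 hv
    rw [← Finset.add_sum_erase _ _ m1, ← Finset.add_sum_erase _ _ m1] at b1
    have b2 := xsstepp_sum ((Finset.univ.filter (fun i : I => t • i = i)).erase i1) _ _ p
      fun i hi => h1 i t a ht (Finset.mem_filter.1 (Finset.mem_erase.1 hi).2).2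
        (c3 i (Finset.mem_erase.1 hi).1 (Finset.mem_filter.1 (Finset.mem_erase.1 hi).2).2)
    have b3 := h2 i1 t a ht f1 c2
    have b4 := Nat.mul_le_mul_right p (show 2 ≤ _ from k7)
    omega
  have ft : ∀ i : I, t • i = i := by
    intro j
    by_contra e
    have hj : j ≠ i1 := fun e' => e (e' ▸ f1)
    obtain ⟨v, h0, hv⟩ := xstepa_mov ρ W hB t a ht _ h (by
      intro hm
      rw [Finset.sum_update_of_mem (Finset.mem_univ _), Finset.sdiff_singleton_eq_erase] at hm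
      refine sum_not_mem ρ W hB (Finset.univ.erase i1) r (fun i _ => hr i) (fun i => t • i = i) j
        (Finset.mem_erase.2 ⟨hj, Finset.mem_univ _⟩) e ?_
      exact (Submodule.add_mem_iff_right _
        (le_iSup₂ (f := fun (i : I) (_ : t • i = i) => W i) i1 f1 (hr' i1))).1 hm)
    exact h0 (k8 v hv)
  obtain ⟨i2, m2, i3, m3, h23⟩ := Finset.one_lt_card.1 k7
  exact ⟨t, a, ht, ft, k8, Or.inr ⟨i1, i2, i3, (Finset.mem_erase.1 m2).1.symm,
    (Finset.mem_erase.1 m3).1.symm, h23, c2, fun i e => c3 i e (ft i)⟩⟩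

end Pool.Agent.N9181

end

section

namespace Pool.Agent.N9181

open scoped commutatorElement

theorem xso3k_fix {Q : Type} [Group Q] [Finite Q] (P M : Subgroup Q) (hP : IsPGroup 3 P)
    (hM : M.Normal) (m : Q) (hm : m ∈ M) (h1 : m ≠ 1) (h3 : m ^ 3 = 1) :
    ∃ b ∈ M, b ≠ 1 ∧ ∀ x ∈ P, x * b * x⁻¹ = b := by
  let _ : MulAction P M :=
    { smul := fun x b => ⟨x * b * (x : Q)⁻¹, hM.conj_mem _ b.2 x⟩
      one_smul := fun b => Subtype.ext (by
        show ((1 : P) : Q) * b * ((1 : P) : Q)⁻¹ = b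
        simp)
      mul_smul := fun x y b => Subtype.ext (by
        show ((x * y : P) : Q) * b * ((x * y : P) : Q)⁻¹ = x * (y * b * (y : Q)⁻¹) * (x : Q)⁻¹
        simp [mul_assoc]) }
  have hd : 3 ∣ Nat.card M := by
    have ho : orderOf m = 3 := orderOf_eq_prime h3 h1
    rw [← ho]
    exact M.orderOf_dvd_natCard hm
  obtain ⟨b, hb, hne⟩ := hP.exists_fixed_point_of_prime_dvd_card_of_fixed_point M hd
    (a := 1) (fun x => Subtype.ext (by
      show (x : Q) * ((1 : M) : Q) * (x : Q)⁻¹ = ((1 : M) : Q)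
      simp))
  exact ⟨b, b.2, fun h => hne (Subtype.ext h.symm), fun x hx => congrArg Subtype.val (hb ⟨x, hx⟩)⟩

theorem xso3k_comm {H : Type} [Group H] (S : Subgroup H) [S.Normal] (a b : H) :
    ⁅a, b⁆ ∈ S ↔ Commute (QuotientGroup.mk' S a) (QuotientGroup.mk' S b) := by
  rw [← commutatorElement_eq_one_iff_commute, ← map_commutatorElement, QuotientGroup.mk'_apply,
    QuotientGroup.eq_one_iff]

theorem xso3k_grp {H : Type} [Group H] [Finite H] (S E P : Subgroup H) [S.Normal]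
    (hc : ∀ z ∈ S, ∀ h, z * h = h * z) (hE : E.Normal) (pw : ∀ f ∈ E, f ^ 3 = 1)
    (sc : ∀ f ∈ E, ∀ g ∈ E, ⁅f, g⁆ ∈ S)
    (mx : ∀ B : Subgroup H, B.Normal → B ≤ E → (∀ a ∈ B, ∀ b ∈ B, a * b = b * a) → B ≤ S)
    (hP : P.Normal) (h3 : ∀ x ∈ P, ∃ n : ℕ, x ^ (3 ^ n) ∈ S) :
    ∀ x ∈ P, ∀ f ∈ E, ⁅x, f⁆ ∈ S := by
  rw [← Subgroup.commutator_le]
  by_contra hn
  obtain ⟨m, hm, hmS⟩ := SetLike.not_le_iff_exists.1 hn
  have hME : ⁅P, E⁆ ≤ E := Subgroup.commutator_le_right P E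
  have hMn : (⁅P, E⁆ : Subgroup H).Normal := inferInstance
  let π := QuotientGroup.mk' S
  have hπ : Function.Surjective π := QuotientGroup.mk'_surjective S
  have hπ1 : ∀ a, π a = 1 ↔ a ∈ S := fun a => QuotientGroup.eq_one_iff a
  have hPp : IsPGroup 3 (P.map π) := by
    rintro ⟨_, x, hx, rfl⟩
    obtain ⟨n, hn⟩ := h3 x hx
    exact ⟨n, Subtype.ext (by
      show (π x) ^ (3 ^ n) = 1
      rw [← map_pow, hπ1]; exact hn)⟩
  obtain ⟨_, ⟨b, hb, rfl⟩, hb1, hbP⟩ := xso3k_fix (P.map π) ((⁅P, E⁆ : Subgroup H).map π) hPp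
    (hMn.map π hπ) (π m) ⟨m, hm, rfl⟩ (fun h => hmS ((hπ1 m).1 h))
    (by rw [← map_pow, pw m (hME hm), map_one])
  have hPn : (P.map π).Normal := hP.map π hπ
  let B : Subgroup H := ⁅P, E⁆ ⊓ (Subgroup.centralizer (P.map π : Set (H ⧸ S))).comap π
  have hBn : B.Normal := inferInstance
  have key : ∀ c ∈ B, ∀ x ∈ P, ∀ f ∈ E, c * ⁅x, f⁆ = ⁅x, f⁆ * c := by
    intro c hcB x hx f hf
    have h1 : ⁅x⁻¹, c⁆ ∈ S := by
      rw [xso3k_comm]
      exact hcB.2 (π x⁻¹) ⟨x⁻¹, P.inv_mem hx, rfl⟩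
    have h2 := sc c (hME hcB.1) f hf
    generalize hs : ⁅x⁻¹, c⁆ = s at h1
    generalize ht : ⁅c, f⁆ = t at h2
    have e1 : c * x = x * (s * c) := by rw [← hs, commutatorElement_def]; group
    have e2 : c * f = t * f * c := by rw [← ht, commutatorElement_def]; group
    have e3 : c * x⁻¹ = s⁻¹ * x⁻¹ * c := by
      have : s * c * x⁻¹ = x⁻¹ * c := by
        rw [show s * c * x⁻¹ = x⁻¹ * (x * (s * c)) * x⁻¹ by group, ← e1]; group
      rw [mul_assoc s⁻¹, ← this]; group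
    have e4 : c * f⁻¹ = f⁻¹ * t⁻¹ * c := by
      rw [show c * f⁻¹ = c * (c * f)⁻¹ * c by group, e2]; group
    have s1 := hc s h1
    have t1 := hc t h2
    calc c * ⁅x, f⁆ = (c * x) * f * x⁻¹ * f⁻¹ := by rw [commutatorElement_def]; group
      _ = x * s * (c * f) * x⁻¹ * f⁻¹ := by rw [e1]; group
      _ = x * s * t * f * (c * x⁻¹) * f⁻¹ := by rw [e2]; group
      _ = x * s * t * f * s⁻¹ * x⁻¹ * (c * f⁻¹) := by rw [e3]; group
      _ = x * (s * (t * f)) * s⁻¹ * x⁻¹ * f⁻¹ * t⁻¹ * c := by rw [e4]; group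
      _ = x * (t * (f * x⁻¹ * f⁻¹)) * t⁻¹ * c := by rw [s1]; group
      _ = ⁅x, f⁆ * c := by rw [t1, commutatorElement_def]; group
  have hab : ∀ a ∈ B, ∀ c ∈ B, a * c = c * a := by
    intro a ha c hcB
    have : (⁅P, E⁆ : Subgroup H) ≤ Subgroup.centralizer {a} := by
      rw [Subgroup.commutator_le]
      intro x hx f hf
      rw [Subgroup.mem_centralizer_iff]
      rintro _ rfl
      exact key _ ha x hx f hf
    exact this hcB.1 a rfl
  refine hb1 ((hπ1 b).2 (mx B hBn (fun a ha => hME ha.1) hab ⟨hb, fun y hy => ?_⟩))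
  have := hbP y hy
  rw [mul_inv_eq_iff_eq_mul] at this
  exact this

theorem xso3k_all {H : Type} [Group H] [Finite H] (S E R : Subgroup H) [S.Normal]
    (hc : ∀ z ∈ S, ∀ h, z * h = h * z) (hE : E.Normal) (pw : ∀ f ∈ E, f ^ 3 = 1)
    (sc : ∀ f ∈ E, ∀ g ∈ E, ⁅f, g⁆ ∈ S)
    (mx : ∀ B : Subgroup H, B.Normal → B ≤ E → (∀ a ∈ B, ∀ b ∈ B, a * b = b * a) → B ≤ S)
    (hR : R.Normal) (hcR : ∀ a ∈ R, ∀ b ∈ R, ⁅a, b⁆ ∈ S) :
    ∀ k ∈ R, ∀ f ∈ E, ⁅k, f⁆ ∈ S := by
  let π := QuotientGroup.mk' S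
  have hπ1 : ∀ a, π a = 1 ↔ a ∈ S := fun a => QuotientGroup.eq_one_iff a
  have hcm : ∀ a ∈ R, ∀ b ∈ R, Commute (π a) (π b) := fun a ha b hb =>
    (xso3k_comm S a b).1 (hcR a ha b hb)
  let P : Subgroup H :=
    { carrier := {x | x ∈ R ∧ ∃ n : ℕ, (π x) ^ (3 ^ n) = 1}
      one_mem' := ⟨R.one_mem, 0, by simp⟩
      mul_mem' := by
        rintro a b ⟨ha, n, hn⟩ ⟨hb, m, hm⟩
        refine ⟨R.mul_mem ha hb, n + m, ?_⟩
        rw [map_mul, (hcm a ha b hb).mul_pow, pow_add, pow_mul, hn, one_pow, one_mul, mul_comm,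
          pow_mul, hm, one_pow]
      inv_mem' := by
        rintro a ⟨ha, n, hn⟩
        exact ⟨R.inv_mem ha, n, by rw [map_inv, inv_pow, hn, inv_one]⟩ }
  have hP : P.Normal := ⟨by
    rintro a ⟨ha, n, hn⟩ g
    exact ⟨hR.conj_mem a ha g, n, by
      rw [map_mul, map_mul, map_inv, conj_pow, hn, mul_one, mul_inv_cancel]⟩⟩
  have h3 := xso3k_grp S E P hc hE pw sc mx hP (by
    rintro x ⟨-, n, hn⟩
    exact ⟨n, (hπ1 _).1 (by rw [map_pow, hn])⟩)
  intro k hk f hf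
  obtain ⟨e, he, -, -, u, ⟨a, ha⟩, hku, j, hj⟩ := q_part 3 (by norm_num) k
  have h1 : ⁅u, f⁆ ∈ S := h3 u ⟨hj ▸ R.pow_mem hk j, a, by rw [← map_pow, ha, map_one]⟩ f hf
  have hk' : k ^ e ∈ R := R.pow_mem hk e
  generalize k ^ e = y at he hku hk'
  have h2 : ⁅y, f⁆ ∈ S := by
    have m1 : f * y⁻¹ * f⁻¹ ∈ R := hR.conj_mem _ (R.inv_mem hk') f
    have m2 : ⁅y, f⁆ ∈ E := by
      rw [commutatorElement_def]
      exact E.mul_mem (hE.conj_mem f hf y) (E.inv_mem hf)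
    have e1 : ⁅y, f⁆ = y * (f * y⁻¹ * f⁻¹) := by rw [commutatorElement_def]; group
    have p1 : (π ⁅y, f⁆) ^ orderOf y = 1 := by
      rw [e1, map_mul, (hcm _ hk' _ m1).mul_pow, ← map_pow, ← map_pow, conj_pow, inv_pow,
        pow_orderOf_eq_one]
      simp
    have p2 : (π ⁅y, f⁆) ^ 3 = 1 := by rw [← map_pow, pw _ m2, map_one]
    have hco : Nat.Coprime 3 (orderOf y) := (Nat.Prime.coprime_iff_not_dvd (by norm_num)).2 he
    rw [← hπ1, ← orderOf_eq_one_iff]
    exact Nat.eq_one_of_dvd_coprimes hco (orderOf_dvd_of_pow_eq_one p2)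
      (orderOf_dvd_of_pow_eq_one p1)
  rw [xso3k_comm] at h1 h2 ⊢
  rw [hku, map_mul]
  exact h2.mul_left h1

theorem o3k {V : Type} [AddCommGroup V] [Module K V] [Module.Finite K V]
    {H : Type} [Group H] [Finite H] (ρ : Representation K H V) (E : Subgroup H) (hE : EH ρ 3 3 E) (P : Subgroup H) (hP : P.Normal)
    (h3 : ∀ x ∈ P, ∃ n : ℕ, x ^ (3 ^ n) ∈ scal ρ) : ∀ x ∈ P, ∀ f ∈ E, ⁅x, f⁆ ∈ scal ρ := by
  have := scal_normal ρ
  exact xso3k_grp (scal ρ) E P (scal_central ρ hE.inj) hE.nE hE.pw hE.sc hE.mx hP h3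

theorem z4 {V : Type} [AddCommGroup V] [Module K V] [Module.Finite K V]
    {H : Type} [Group H] [Finite H] (ρ : Representation K H V) (E : Subgroup H) (hE : EH ρ 3 3 E) (hF : FFE ρ E) (R : Subgroup H)
    (hR : R.Normal) (hc : ∀ a ∈ R, ∀ b ∈ R, ⁅a, b⁆ ∈ scal ρ) (hn : ¬ R ≤ scal ρ) :
    (∀ a ∈ R, ∀ b ∈ R, ⁅a, b⁆ ^ 3 = 1) ∧ ∃ a ∈ R, ∃ b ∈ R, ⁅a, b⁆ ≠ 1 := by
  have hSn := scal_normal ρ
  have hcen := scal_central ρ hE.inj
  have hall := xso3k_all (scal ρ) E R hcen hE.nE hE.pw hE.sc hE.mx hR hc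
  have dec : ∀ a ∈ R, ∃ s ∈ scal ρ, ∃ f ∈ E, a = s * f := by
    intro a ha
    obtain ⟨f, hf, c, hcf⟩ := hF a (hall a ha)
    refine ⟨a * f⁻¹, ⟨c, ?_, fun v => by rw [rho_mul, hcf, rho_inv']⟩, f, hf, by group⟩
    rintro rfl
    obtain ⟨v, hv⟩ := hE.ne
    apply hv
    rw [← rho_inv ρ a v, hcf, zero_smul, map_zero]
  have cm : ∀ s ∈ scal ρ, ∀ t ∈ scal ρ, ∀ f g : H, ⁅s * f, t * g⁆ = ⁅f, g⁆ := by
    intro s hs t ht f g
    have s1 := hcen s hs
    have t1 := hcen t ht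
    calc ⁅s * f, t * g⁆ = (s * (f * t * g * f⁻¹)) * s⁻¹ * g⁻¹ * t⁻¹ := by
          rw [commutatorElement_def]; group
      _ = f * (t * (g * f⁻¹ * g⁻¹)) * t⁻¹ := by rw [s1]; group
      _ = ⁅f, g⁆ := by rw [t1, commutatorElement_def]; group
  refine ⟨fun a ha b hb => ?_, ?_⟩
  · obtain ⟨s, hs, f, hf, rfl⟩ := dec a ha
    obtain ⟨t, ht, g, hg, rfl⟩ := dec b hb
    rw [cm s hs t ht]
    refine hE.pw _ ?_
    rw [commutatorElement_def]
    exact E.mul_mem (hE.nE.conj_mem g hg f) (E.inv_mem hg)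
  · by_contra hab
    push Not at hab
    apply hn
    have hB : E ⊓ (scal ρ ⊔ R) ≤ scal ρ := by
      have := hE.nE
      refine hE.mx _ inferInstance inf_le_left ?_
      rintro x ⟨-, hx⟩ y ⟨-, hy⟩
      have hx' : x ∈ ((scal ρ ⊔ R : Subgroup H) : Set H) := hx
      have hy' : y ∈ ((scal ρ ⊔ R : Subgroup H) : Set H) := hy
      rw [Subgroup.normal_mul] at hx' hy'
      obtain ⟨s, hs, a, ha, rfl⟩ := hx'
      obtain ⟨t, ht, b, hb, rfl⟩ := hy'
      rw [← commutatorElement_eq_one_iff_mul_comm]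
      exact (cm s hs t ht a b).trans (hab a ha b hb)
    intro a ha
    obtain ⟨s, hs, f, hf, e⟩ := dec a ha
    have hf2 : f ∈ scal ρ ⊔ R := by
      rw [show f = s⁻¹ * a by rw [e]; group]
      exact Subgroup.mul_mem_sup ((scal ρ).inv_mem hs) ha
    rw [e]
    exact (scal ρ).mul_mem hs (hB ⟨hf, hf2⟩)

end Pool.Agent.N9181

end

section

namespace Pool.Agent.N9181

open scoped commutatorElement

theorem xsz1_step {H : Type} [Group H] [Group.IsSolvable H] (D : Subgroup H) (hD : D.Normal)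
    (P : H → Prop) (h1 : P 1) (hn : ¬ ∀ y ∈ D, P y) :
    ∃ Y : Subgroup H, Y.Normal ∧ Y ≤ D ∧ (¬ ∀ y ∈ Y, P y) ∧ ∀ a ∈ Y, ∀ b ∈ Y, P ⁅a, b⁆ := by
  let Y : ℕ → Subgroup H := fun n => Nat.rec D (fun _ Z => ⁅Z, Z⁆) n
  have key : ∀ n, (Y n).Normal ∧ Y n ≤ D ∧ Y n ≤ derivedSeries H n := by
    intro n
    induction n with
    | zero => exact ⟨hD, le_rfl, le_top⟩
    | succ n ih =>
      obtain ⟨a1, a2, a3⟩ := ih
      exact ⟨Subgroup.commutator_normal _ _, (Subgroup.commutator_le_left _ _).trans a2,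
        Subgroup.commutator_mono a3 a3⟩
  obtain ⟨m, hm⟩ := (Group.isSolvable_def H).1 inferInstance
  obtain ⟨n, a1, a2⟩ := Nat.exists_not_and_succ_of_not_zero_of_exists
    (p := fun n => ∀ y ∈ Y n, P y) hn ⟨m, fun y hy => by
      have := (key m).2.2 hy
      rw [hm, Subgroup.mem_bot] at this
      rwa [this]⟩
  exact ⟨Y n, (key n).1, (key n).2.1, a1, fun a ha b hb =>
    a2 _ (Subgroup.commutator_mem_commutator ha hb)⟩

theorem xsz1_tr {V : Type} [AddCommGroup V] [Module K V] {H : Type} [Group H]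
    (ρ : Representation K H V) {I : Type} [MulAction H I] (W : I → Submodule K V) (hB : BD ρ I W)
    (i : I) (g h : H) (c : K) (hc : ∀ w ∈ W i, ρ h w = c • w) :
    ∀ w ∈ W (g • i), ρ (g * h * g⁻¹) w = c • w := by
  intro w hw
  have h1 := hB.map g⁻¹ _ w hw
  rw [inv_smul_smul] at h1
  rw [rho_mul, rho_mul, hc _ h1, map_smul, rho_inv']

theorem z1 {V : Type} [AddCommGroup V] [Module K V] [Module.Finite K V]
    {H : Type} [Group H] [Finite H] [Group.IsSolvable H] (ρ : Representation K H V) {I : Type} [Fintype I] [MulAction H I] [MulAction.IsPretransitive H I]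
    (W : I → Submodule K V) (hB : BD ρ I W) (i : I) {H' : Type} [Group H'] [Finite H'] (π : MulAction.stabilizer H i →* H')
    (σ : Representation K H' (W i)) (hF : FB ρ W i π σ) (E : Subgroup H') (hE : EH σ 3 3 E) (hFF : FFE σ E)
    (t : H) (ht : ∀ j : I, t • j = j)
    (hn : ¬ ∀ j : I, ∃ c : K, ∀ w ∈ W j, ρ t w = c • w) :
    ∀ j : I, ∃ z : H, DiagE ρ W z ∧ ∀ w ∈ W j, ρ z w = (3 : K) • w := by
  let D : Subgroup H := (MulAction.toPermHom H I).ker
  have mD : ∀ h, h ∈ D ↔ ∀ j : I, h • j = j := fun h => by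
    rw [MonoidHom.mem_ker, Equiv.ext_iff]
    rfl
  obtain ⟨Y, hY, hYD, hnY, hcY⟩ := xsz1_step D inferInstance
    (fun h => ∀ j : I, ∃ c : K, ∀ w ∈ W j, ρ h w = c • w)
    (fun j => ⟨1, fun w _ => by rw [map_one, one_smul]; rfl⟩)
    (fun h => hn (h t ((mD t).2 ht)))
  have st : ∀ y ∈ Y, y ∈ MulAction.stabilizer H i := fun y hy => (mD y).1 (hYD hy) i
  obtain ⟨v, hv⟩ := hE.ne
  let R : Subgroup H' := (Y.subgroupOf (MulAction.stabilizer H i)).map π
  have mR : ∀ y (hy : y ∈ Y), π ⟨y, st y hy⟩ ∈ R := fun y hy => ⟨⟨y, st y hy⟩, hy, rfl⟩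
  have cR : ∀ a (ha : a ∈ Y) b (hb : b ∈ Y) (c : K), (∀ w ∈ W i, ρ ⁅a, b⁆ w = c • w) →
      ∀ w, σ ⁅π ⟨a, st a ha⟩, π ⟨b, st b hb⟩⁆ w = c • w := fun a ha b hb c hc w => by
    rw [← map_commutatorElement]
    exact Subtype.ext ((hF.res _ w).trans (hc w w.2))
  obtain ⟨h3, _, ⟨⟨a, _⟩, ha, rfl⟩, _, ⟨⟨b, _⟩, hb, rfl⟩, hab⟩ :=
    z4 σ E hE hFF R (Subgroup.Normal.map inferInstance π hF.surj) (by
      rintro _ ⟨⟨a, _⟩, ha, rfl⟩ _ ⟨⟨b, _⟩, hb, rfl⟩
      obtain ⟨c, hc⟩ := hcY a ha b hb i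
      have h1 := cR a ha b hb c hc
      refine ⟨c, fun h0 => hv ?_, h1⟩
      have h2 := rho_inv σ ⁅π ⟨a, st a ha⟩, π ⟨b, st b hb⟩⁆ v
      rw [h1, h0, zero_smul, map_zero] at h2
      exact h2.symm) (fun hR => hnY fun y hy j => by
      obtain ⟨g, rfl⟩ := MulAction.exists_smul_eq H i j
      have hy' := hY.conj_mem' y hy g
      obtain ⟨c, -, hc⟩ := hR (mR _ hy')
      refine ⟨c, ?_⟩
      have := xsz1_tr ρ W hB i g (g⁻¹ * y * g) c fun w hw =>
        (hF.res ⟨_, st _ hy'⟩ ⟨w, hw⟩).symm.trans (congrArg Subtype.val (hc ⟨w, hw⟩))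
      rwa [show g * (g⁻¹ * y * g) * g⁻¹ = y by group] at this)
  have cube : ∀ a ∈ Y, ∀ b ∈ Y, ∃ c : K, c ^ 3 = 1 ∧ ∀ w ∈ W i, ρ ⁅a, b⁆ w = c • w := by
    intro a ha b hb
    obtain ⟨c, hc⟩ := hcY a ha b hb i
    refine ⟨c, ?_, hc⟩
    have h1 := rho_pow_eig σ _ v c (cR a ha b hb c hc v) 3
    rw [h3 _ (mR a ha) _ (mR b hb), map_one] at h1
    exact (smul_left_injective K hv (h1.symm.trans (one_smul K v).symm))
  have diag : ∀ a ∈ Y, ∀ b ∈ Y, DiagE ρ W ⁅a, b⁆ := by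
    intro a ha b hb j
    refine ⟨(mD _).1 (hYD (Subgroup.commutator_le_left Y Y
      (Subgroup.commutator_mem_commutator ha hb))) j, ?_⟩
    obtain ⟨g, rfl⟩ := MulAction.exists_smul_eq H i j
    obtain ⟨c, h1, h2⟩ := cube _ (hY.conj_mem' a ha g) _ (hY.conj_mem' b hb g)
    refine ⟨c, h1, ?_⟩
    have := xsz1_tr ρ W hB i g _ c h2
    rwa [show g * ⁅g⁻¹ * a * g, g⁻¹ * b * g⁆ * g⁻¹ = ⁅a, b⁆ by
      simp only [commutatorElement_def]; group] at this
  obtain ⟨c, h1, h2⟩ := cube a ha b hb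
  have h0 : c ≠ 1 := by
    rintro rfl
    refine hab (hE.inj (LinearMap.ext fun w => ?_))
    rw [cR a ha b hb 1 h2, one_smul, map_one]
    rfl
  intro j
  obtain ⟨g, rfl⟩ := MulAction.exists_smul_eq H i j
  have h4 := xsz1_tr ρ W hB i g _ c h2
  have h5 := diag _ (hY.conj_mem a ha g) _ (hY.conj_mem b hb g)
  rw [← conjugate_commutatorElement] at h5
  generalize g * ⁅a, b⁆ * g⁻¹ = z at h4 h5
  have h6 : c = 3 ∨ c = 9 := by
    revert h0 h1
    generalize c = x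
    revert x
    decide
  rcases h6 with rfl | rfl
  · exact ⟨z, h5, h4⟩
  · refine ⟨z * z, fun k => ?_, fun w hw => ?_⟩
    · obtain ⟨a1, d, a2, a3⟩ := h5 k
      refine ⟨by rw [mul_smul, a1, a1], d * d, by rw [mul_pow, a2, one_mul], fun w hw => ?_⟩
      rw [rho_mul, a3 w hw, map_smul, a3 w hw, smul_smul]
    · rw [rho_mul, h4 w hw, map_smul, h4 w hw, smul_smul]
      rfl

end Pool.Agent.N9181

end

section

namespace Pool.Agent.N9181

open scoped commutatorElement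

theorem xsterma_map {V : Type} [AddCommGroup V] [Module K V] {H : Type} [Group H]
    (ρ : Representation K H V) (U : Submodule K V) (hU : ∀ h, ∀ w ∈ U, ρ h w ∈ U) (h : H) :
    U.map (ρ h) = U := by
  refine le_antisymm ?_ fun w hw => ⟨ρ h⁻¹ w, hU _ _ hw, rho_inv' ρ h w⟩
  rintro _ ⟨w, hw, rfl⟩
  exact hU h w hw

theorem term_fix {V : Type} [AddCommGroup V] [Module K V] [Module.Finite K V]
    {H : Type} [Group H] [Finite H] (ρ : Representation K H V) (h13 : ¬ 13 ∣ Nat.card H) (N : ℕ) (hd : Nat.card H ∣ N) (hinj : Function.Injective ρ)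
    (hS : HSq ρ N) (hT : Term ρ N) (B : Subgroup H) (hB : B.Normal) (hne : B ≠ ⊥) :
    fixS ρ B = ⊥ := by
  have hn : ∀ h : H, h ∈ Subgroup.normalizer (B : Set H) := fun h => by
    rw [Subgroup.normalizer_eq_top B]
    trivial
  have h0 : ∀ h, ∀ w ∈ fixS ρ B, ρ h w ∈ fixS ρ B := fun h => fix_norm ρ B h (hn h)
  have hc : (Nat.card H : K) ≠ 0 := fun h => h13 ((ZMod.natCast_eq_zero_iff _ 13).1 h)
  obtain ⟨U, hU, hcp⟩ := exists_compl hc ρ (fixS ρ B) h0
  by_contra hb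
  have hUb : U ≠ ⊥ := by
    rintro rfl
    have ht : fixS ρ B = ⊤ := by simpa using hcp.sup_eq_top
    refine hne (eq_bot_iff.2 fun b hb => Subgroup.mem_bot.2 (hinj ?_))
    rw [map_one]
    ext v
    exact (show v ∈ fixS ρ B from ht ▸ Submodule.mem_top) b hb
  have hne' : fixS ρ B ≠ U := fun h => hb (by
    have := hcp.disjoint
    rw [← h] at this
    exact disjoint_self.1 this)
  have hq0 : HSqOn ρ N (fixS ρ B) := fun h j hj s s' hs hs' M =>
    hsq_tw ρ h13 N hd hS B (fun _ => 1) (fixS ρ B) (fun v => by simp [mem_fixS]) h (hn h) j hj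
      s s' hs hs' M
  have hq1 : HSqOn ρ N U := fun h j hj s s' hs hs' M => by
    have hp : ∀ g : H, (ρ g) ^ Nat.card H = 1 := fun g => by
      rw [← map_pow, pow_card_eq_one', map_one]
    have e1 := bt_add (ρ h) _ h13 (hp h) _ _ hcp ((ρ h).restrict (h0 h)) s (fun _ => rfl) hs M
    have e2 := bt_add (ρ (h ^ (j * j))) _ h13 (hp _) _ _ hcp
      ((ρ (h ^ (j * j))).restrict (h0 _)) s' (fun _ => rfl) hs' M
    have e3 := hq0 h j hj ((ρ h).restrict (h0 h)) ((ρ (h ^ (j * j))).restrict (h0 _))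
      (fun _ => rfl) (fun _ => rfl) M
    have e4 := hS h j hj M
    linear_combination e4 - e2 + e1 - e3
  have hs : ({fixS ρ B, U} : Set (Submodule K V)) = {⊤} := by
    refine hT _ ⟨?_, (sSupIndep_pair hne').2 hcp.disjoint, ?_, ?_⟩ ?_
    · rintro h W (rfl | rfl)
      · exact Or.inl (xsterma_map ρ _ h0 h)
      · exact Or.inr (xsterma_map ρ _ hU h)
    · rw [sSup_pair, hcp.sup_eq_top]
    · rintro (h | h)
      · exact hb h.symm
      · exact hUb h.symm
    · rintro W (rfl | rfl)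
      · exact hq0
      · exact hq1
  have e1 : fixS ρ B ∈ ({⊤} : Set (Submodule K V)) := hs ▸ Or.inl rfl
  have e2 : U ∈ ({⊤} : Set (Submodule K V)) := hs ▸ Or.inr rfl
  exact hne' (e1.trans e2.symm)

theorem term_sc {V : Type} [AddCommGroup V] [Module K V] [Module.Finite K V]
    {H : Type} [Group H] [Finite H] (ρ : Representation K H V) (h13 : ¬ 13 ∣ Nat.card H) (N : ℕ) (hd : Nat.card H ∣ N) (hinj : Function.Injective ρ)
    (hS : HSq ρ N) (hT : Term ρ N) (B : Subgroup H) (hB : B.Normal)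
    (hc : ∀ a ∈ B, ∀ b ∈ B, a * b = b * a) (h12 : ∀ b ∈ B, b ^ 12 = 1) : B ≤ scal ρ := by
  have hn : ∀ h : H, h ∈ Subgroup.normalizer (B : Set H) := fun h => by
    rw [Subgroup.normalizer_eq_top B]
    trivial
  have h1 := eb ρ B ⊤ hc h12 fun h _ => hn h
  have hs : eigS ρ B = {⊤} := by
    refine hT _ ⟨fun h W hW => h1.map ⟨h, trivial⟩ W hW, h1.ind, h1.top, h1.ne⟩ ?_
    rintro W ⟨-, χ, hχ⟩ h j hj s s' hs hs' M
    exact hsq_tw ρ h13 N hd hS B χ W hχ h (hn h) j hj s s' hs hs' M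
  obtain ⟨ht, χ, hχ⟩ : (⊤ : Submodule K V) ∈ eigS ρ B := hs ▸ rfl
  intro b hb
  have hv : ∀ v, ρ b v = χ b • v := fun v => (hχ v).1 trivial b hb
  refine ⟨χ b, fun h => ht (eq_bot_iff.2 fun v _ => ?_), hv⟩
  rw [Submodule.mem_bot, ← rho_inv ρ b v, hv, h, zero_smul, map_zero]

end Pool.Agent.N9181

end

section

namespace Pool.Agent.N9181

open scoped commutatorElement

section

variable {V : Type} [AddCommGroup V] [Module K V] {H : Type} [Group H]

/-- `J` is maximal among the subgroups of `B` with a fixed vector in `U` -/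
def xstermbM (ρ : Representation K H V) (B : Subgroup H) (U : Submodule K V) (J : Subgroup H) :
    Prop :=
  J ≤ B ∧ fixS ρ J ⊓ U ≠ ⊥ ∧ ∀ y ∈ B, ∀ v ∈ fixS ρ J ⊓ U, v ≠ 0 → ρ y v = v → y ∈ J

theorem xstermb_max [Finite H] (ρ : Representation K H V) (B : Subgroup H) (U : Submodule K V)
    {v₀ : V} (h0 : v₀ ≠ 0) (hU : v₀ ∈ U) : ∃ J, B ⊓ stabV ρ v₀ ≤ J ∧ xstermbM ρ B U J := by
  obtain ⟨J, h4, ⟨h1, h2⟩, h3⟩ := (Set.toFinite {J | J ≤ B ∧ fixS ρ J ⊓ U ≠ ⊥}).exists_le_maximal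
    (a := B ⊓ stabV ρ v₀) ⟨inf_le_left, (Submodule.ne_bot_iff _).2 ⟨v₀, ⟨fun _ hy => hy.2, hU⟩, h0⟩⟩
  exact ⟨J, h4, h1, h2, fun y hy v hv h0 e => h3 (y := B ⊓ stabV ρ v) ⟨inf_le_left,
    (Submodule.ne_bot_iff _).2 ⟨v, ⟨fun _ hz => hz.2, hv.2⟩, h0⟩⟩ (le_inf h1 hv.1) ⟨hy, e⟩⟩

theorem xstermb_inv {ρ : Representation K H V} {B J : Subgroup H}
    (hc : ∀ a ∈ B, ∀ b ∈ B, a * b = b * a) (hJ : J ≤ B) {y : H} (hy : y ∈ B) {w : V}
    (hw : w ∈ fixS ρ J) : ρ y w ∈ fixS ρ J := fun z hz => by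
  rw [← rho_mul, hc z (hJ hz) y hy, rho_mul, hw z hz]

theorem xstermb_up [Finite H] [Module.Finite K V] {ρ : Representation K H V} {B J : Subgroup H}
    (hc : ∀ a ∈ B, ∀ b ∈ B, a * b = b * a) {p : ℕ} (hp : p.Prime) (hB : ∀ b ∈ B, b ^ p = 1)
    (h0 : fixS ρ B = ⊥) {U : Submodule K V} (hU : ∀ b ∈ B, ∀ u ∈ U, ρ b u ∈ U)
    (hJ : xstermbM ρ B U J) : xstermbM ρ B ⊤ J := by
  have := Fact.mk hp
  refine ⟨hJ.1, fun e => hJ.2.1 (eq_bot_mono (inf_le_inf_left _ le_top) e),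
    fun y hy v hv hv0 e => by_contra fun hn => hv0 ?_⟩
  obtain ⟨σ, hσ⟩ := exists_res ρ B (fixS ρ J ⊓ U) fun b hb w hw =>
    ⟨xstermb_inv hc hJ.1 hb hw.1, hU b hb w hw.2⟩
  obtain ⟨H', _, _, π, ρ', h1, h2, h3, -⟩ := exists_faithful σ
  obtain ⟨u, hu, hu0⟩ := (Submodule.ne_bot_iff _).1 hJ.2.1
  have hk : ∀ z : B, π z = 1 → z.1 ∈ J := fun z hz => hJ.2.2 z z.2 u hu hu0 (by
    rw [← hσ z ⟨u, hu⟩, ← h3, hz, map_one, Module.End.one_apply])
  have hcy := freeCyc ρ' ⊤ (fun a _ w hw ea => by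
    obtain ⟨z, rfl⟩ := h1 a
    have hz := hJ.2.2 z z.2 w w.2 (fun e => hw (Subtype.ext e)) (by rw [← hσ, ← h3, ea])
    refine h2 (LinearMap.ext fun w' => Subtype.ext ?_)
    rw [h3, hσ, map_one, Module.End.one_apply, w'.2.1 _ hz])
    ⟨⟨u, hu⟩, fun e => hu0 (congrArg Subtype.val e)⟩ (fun a _ b _ => by
      obtain ⟨z, rfl⟩ := h1 a
      obtain ⟨z', rfl⟩ := h1 b
      rw [← map_mul, ← map_mul]
      exact congrArg π (Subtype.ext (hc _ z.2 _ z'.2)))
  have hcy' : IsCyclic H' := isCyclic_of_surjective _ Subgroup.topEquiv.surjective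
  have hy1 : π ⟨y, hy⟩ ≠ 1 := fun e => hn (hk _ e)
  have hcard : Nat.card H' = p := by
    have : Nontrivial H' := ⟨_, _, hy1⟩
    rw [← IsCyclic.exponent_eq_card]
    refine (Monoid.exponent_eq_prime_iff hp).2 fun g hg => orderOf_eq_prime ?_ hg
    obtain ⟨z, rfl⟩ := h1 g
    rw [← map_pow, show z ^ p = 1 from Subtype.ext (hB z z.2), map_one]
  rw [← Submodule.mem_bot K, ← h0]
  intro z hz
  obtain ⟨k, hk'⟩ := mem_zpowers_of_prime_card hcard hy1 (g' := π ⟨z, hz⟩)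
  have h4 := hk ((⟨y, hy⟩ ^ k)⁻¹ * ⟨z, hz⟩) (by
    rw [map_mul, map_inv, map_zpow, ← hk', inv_mul_cancel])
  have h5 : y ^ k * ((y ^ k)⁻¹ * z) ∈ stabV ρ v :=
    mul_mem (zpow_mem (show y ∈ stabV ρ v from e) k) (hv.1 _ h4)
  rwa [mul_inv_cancel_left] at h5

theorem xstermb_sbd [Finite H] [Module.Finite K V] {ρ : Representation K H V}
    (h13 : ¬ 13 ∣ Nat.card H) {B : Subgroup H} (hN : B.Normal)
    (hc : ∀ a ∈ B, ∀ b ∈ B, a * b = b * a) {p : ℕ} (hp : p.Prime) (hB : ∀ b ∈ B, b ^ p = 1)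
    (h0 : fixS ρ B = ⊥) : SBD ρ {W | ∃ J, xstermbM ρ B ⊤ J ∧ fixS ρ J = W} := by
  have hmap : ∀ h : H, ∀ W ∈ {W | ∃ J, xstermbM ρ B ⊤ J ∧ fixS ρ J = W},
      W.map (ρ h) ∈ {W | ∃ J, xstermbM ρ B ⊤ J ∧ fixS ρ J = W} := by
    rintro h _ ⟨J, hJ, rfl⟩
    have hm : ∀ v, v ∈ fixS ρ (J.comap (MulAut.conj h⁻¹).toMonoidHom) ↔ ρ h⁻¹ v ∈ fixS ρ J :=
      fun v => ⟨fun hv y hy => by
        have h1 := hv (h * y * h⁻¹) (by simpa [Subgroup.mem_comap, mul_assoc] using hy)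
        conv_rhs => rw [← h1, rho_mul, rho_mul, rho_inv], fun hv y hy => by
        have h1 := congrArg (ρ h) (hv (h⁻¹ * y * h) (by simpa [Subgroup.mem_comap] using hy))
        rwa [rho_mul, rho_mul, rho_inv', rho_inv'] at h1⟩
    have hi : ∀ (g : H) {v}, v ≠ 0 → ρ g v ≠ 0 := fun g v hv e => hv (by
      rw [← rho_inv ρ g v, e, map_zero])
    refine ⟨J.comap (MulAut.conj h⁻¹).toMonoidHom, ⟨fun y hy => ?_, ?_, fun y hy v hv hv0 e => ?_⟩,
      Submodule.ext fun v => (hm v).trans ⟨fun hv => ⟨_, hv, rho_inv' ρ h v⟩, ?_⟩⟩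
    · simpa [mul_assoc] using hN.conj_mem _ (hJ.1 hy) h
    · obtain ⟨v, hv, hv0⟩ := (Submodule.ne_bot_iff _).1 hJ.2.1
      exact (Submodule.ne_bot_iff _).2 ⟨ρ h v, ⟨(hm _).2 (by rw [rho_inv]; exact hv.1), trivial⟩,
        hi h hv0⟩
    · refine hJ.2.2 _ (hN.conj_mem y hy h⁻¹) _ ⟨(hm v).1 hv.1, trivial⟩ (hi _ hv0) ?_
      change ρ (h⁻¹ * y * h⁻¹⁻¹) _ = _
      rw [rho_mul, rho_mul, rho_inv, e]
    · rintro ⟨w, hw, rfl⟩
      rwa [rho_inv]
  refine ⟨hmap, (sSupIndep_iff _).2 (xblocks_ind _ ?_), ?_, ?_⟩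
  · rintro ⟨_, J, hJ, rfl⟩ ⟨_, J', hJ', rfl⟩ hne
    obtain ⟨y, hy, hy'⟩ := SetLike.not_le_iff_exists.1 fun h : J' ≤ J => by
      obtain ⟨v, hv, hv0⟩ := (Submodule.ne_bot_iff _).1 hJ.2.1
      obtain rfl : J = J' := le_antisymm (fun y hy => hJ'.2.2 y (hJ.1 hy) v
        ⟨fun z hz => hv.1 z (h hz), trivial⟩ hv0 (hv.1 y hy)) h
      exact hne rfl
    refine ⟨ρ y - 1, ?_, fun w hw => sub_eq_zero.2 (hw y hy), fun w hw e => by_contra fun h1 =>
      hy' (hJ.2.2 y (hJ'.1 hy) w ⟨hw, trivial⟩ h1 (sub_eq_zero.1 e))⟩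
    rintro ⟨_, J₀, hJ₀, rfl⟩ w hw
    exact sub_mem (xstermb_inv hc hJ₀.1 (hJ'.1 hy) hw) hw
  · obtain ⟨U, hU, hco⟩ := exists_compl (fun e => h13 ((ZMod.natCast_eq_zero_iff _ _).1 e)) ρ
      (sSup {W | ∃ J, xstermbM ρ B ⊤ J ∧ fixS ρ J = W}) fun h =>
        (sSup_le fun W hW w hw => le_sSup (hmap h W hW) ⟨w, hw, rfl⟩ :
          sSup _ ≤ Submodule.comap (ρ h) (sSup {W | ∃ J, xstermbM ρ B ⊤ J ∧ fixS ρ J = W}))
    refine eq_top_of_isCompl_bot ((?_ : U = ⊥) ▸ hco)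
    by_contra hne
    obtain ⟨u, hu, hu0⟩ := (Submodule.ne_bot_iff _).1 hne
    obtain ⟨J, -, hJ⟩ := xstermb_max ρ B U hu0 hu
    refine hJ.2.1 (hco.disjoint.mono_left (le_sSup ?_)).eq_bot
    exact ⟨J, xstermb_up hc hp hB h0 (fun b _ => hU b) hJ, rfl⟩
  · rintro ⟨J, hJ, e⟩
    exact hJ.2.1 (by rw [e, bot_inf_eq])

end

theorem term_cyc {V : Type} [AddCommGroup V] [Module K V] [Module.Finite K V]
    {H : Type} [Group H] [Finite H] (ρ : Representation K H V) (h13 : ¬ 13 ∣ Nat.card H) (N : ℕ) (hd : Nat.card H ∣ N) (hinj : Function.Injective ρ)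
    (hS : HSq ρ N) (hT : Term ρ N) (hV : ∃ v : V, v ≠ 0) (B : Subgroup H) (hB : B.Normal)
    (hc : ∀ a ∈ B, ∀ b ∈ B, a * b = b * a) : IsCyclic B := by
  refine freeCyc ρ B (fun a ha v hv e => by_contra fun h1 => ?_) hV hc
  obtain ⟨p, hp, hpa⟩ := Nat.exists_prime_and_dvd (fun e => h1 (orderOf_eq_one_iff.1 e))
  have h2 := orderOf_pow_orderOf_div (orderOf_pos a).ne' hpa
  let B₀ : Subgroup H :=
    { carrier := {b | b ∈ B ∧ b ^ p = 1}
      one_mem' := ⟨one_mem _, one_pow _⟩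
      mul_mem' := fun {x y} hx hy => ⟨mul_mem hx.1 hy.1, by
        rw [Commute.mul_pow (hc x hx.1 y hy.1), hx.2, hy.2, one_mul]⟩
      inv_mem' := fun {x} hx => ⟨inv_mem hx.1, by rw [inv_pow, hx.2, inv_one]⟩ }
  have hN : B₀.Normal := ⟨fun x hx g => ⟨hB.conj_mem x hx.1 g, by
    rw [conj_pow, hx.2, mul_one, mul_inv_cancel]⟩⟩
  have h3 : a ^ (orderOf a / p) ∈ B₀ :=
    ⟨pow_mem ha _, orderOf_dvd_iff_pow_eq_one.1 h2.dvd⟩
  have h4 : a ^ (orderOf a / p) ≠ 1 := fun e => hp.ne_one (by rw [← h2, e, orderOf_one])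
  have h5 := hT _ (xstermb_sbd h13 hN (fun x hx y hy => hc x hx.1 y hy.1) hp (fun _ hb => hb.2)
    (term_fix ρ h13 N hd hinj hS hT B₀ hN fun e => h4 (Subgroup.mem_bot.1 (e ▸ h3)))) (by
      rintro _ ⟨J, hJ, rfl⟩ h j hj s s' hs hs'
      refine hsq_tw ρ h13 N hd hS J (fun _ => 1) _ (fun v => by simp [mem_fixS]) h ?_ j hj s s'
        hs hs'
      obtain ⟨u, hu, hu0⟩ := (Submodule.ne_bot_iff _).1 hJ.2.1
      refine (inv_mem_iff).1 (Subgroup.mem_normalizer_fintype fun y hy =>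
        hJ.2.2 _ (hN.conj_mem y (hJ.1 hy) _) u hu hu0 ?_)
      have h6 := (s ⟨u, hu.1⟩).2 y hy
      rw [hs] at h6
      rw [rho_mul, rho_mul, inv_inv, h6, rho_inv])
  obtain ⟨J, h6, hJ⟩ := xstermb_max ρ B₀ ⊤ hv trivial
  have h7 : fixS ρ J = ⊤ := h5.le ⟨J, hJ, rfl⟩
  refine h4 (hinj (LinearMap.ext fun w => ?_))
  rw [map_one]
  exact h7.ge trivial _ (h6 ⟨h3, pow_mem (show a ∈ stabV ρ v from e) _⟩)

end Pool.Agent.N9181

end

section

namespace Pool.Agent.N9181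

open scoped commutatorElement

section

variable {V : Type} [AddCommGroup V] [Module K V] {H : Type} [Group H]

theorem xsrefine_mul (ρ : Representation K H V) (a b : H) (U : Submodule K V) :
    U.map (ρ (a * b)) = (U.map (ρ b)).map (ρ a) := by
  rw [map_mul, Module.End.mul_eq_comp, Submodule.map_comp]

theorem xsrefine_one (ρ : Representation K H V) (U : Submodule K V) : U.map (ρ 1) = U := by
  rw [map_one, Module.End.one_eq_id, Submodule.map_id]

theorem xsrefine_inv (ρ : Representation K H V) (a : H) (U : Submodule K V) :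
    (U.map (ρ a)).map (ρ a⁻¹) = U := by
  rw [← xsrefine_mul, inv_mul_cancel, xsrefine_one]

theorem xsrefine_inv' (ρ : Representation K H V) (a : H) (U : Submodule K V) :
    (U.map (ρ a⁻¹)).map (ρ a) = U := by
  rw [← xsrefine_mul, mul_inv_cancel, xsrefine_one]

theorem xsrefine_bot (ρ : Representation K H V) (a : H) (U : Submodule K V)
    (h : U.map (ρ a) = ⊥) : U = ⊥ := by
  rw [← xsrefine_inv ρ a U, h, Submodule.map_bot]

theorem xsrefine_sSup (ρ : Representation K H V) (a : H) (S : Set (Submodule K V)) :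
    sSup ((fun U => U.map (ρ a)) '' S) = (sSup S).map (ρ a) := by
  rw [sSup_image, sSup_eq_iSup, Submodule.map_iSup]
  refine iSup_congr fun U => ?_
  rw [Submodule.map_iSup]

theorem xsrefine_ind (ρ : Representation K H V) (a : H) (S : Set (Submodule K V))
    (hS : sSupIndep S) : sSupIndep ((fun U => U.map (ρ a)) '' S) := by
  rintro _ ⟨U, hU, rfl⟩
  have h1 : sSup ((fun U : Submodule K V => U.map (ρ a)) '' S \ {U.map (ρ a)}) ≤
      (sSup (S \ {U})).map (ρ a) := by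
    rw [← xsrefine_sSup]
    refine sSup_le_sSup ?_
    rintro _ ⟨⟨U', hU', rfl⟩, hne⟩
    refine ⟨U', ⟨hU', ?_⟩, rfl⟩
    rintro rfl
    exact hne rfl
  refine Disjoint.mono_right h1 ?_
  rw [Submodule.disjoint_def]
  rintro _ ⟨x, hx, rfl⟩ ⟨y, hy, hxy⟩
  have hyx : y = x := by
    have := congrArg (ρ a⁻¹) hxy
    rwa [rho_inv, rho_inv] at this
  subst hyx
  rw [Submodule.disjoint_def.1 (hS hU) y hx hy, map_zero]

theorem xsrefine_eq (S : Set (Submodule K V)) (hS : sSupIndep S) (U U1 U2 : Submodule K V)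
    (h1 : U1 ∈ S) (h2 : U2 ∈ S) (hU : U ≠ ⊥) (l1 : U ≤ U1) (l2 : U ≤ U2) : U1 = U2 := by
  by_contra hne
  have hd : Disjoint U1 U2 := hS.pairwiseDisjoint h1 h2 hne
  exact hU (le_bot_iff.1 (hd l1 l2))

theorem xsrefine_glue (S T : Set (Submodule K V)) (hS : sSupIndep S)
    (hT : ∀ U ∈ T, ∃ U1 ∈ S, U ≤ U1)
    (hC : ∀ U1 ∈ S, sSupIndep {U | U ∈ T ∧ U ≤ U1}) : sSupIndep T := by
  intro U hU
  obtain ⟨U1, hU1, hle⟩ := hT U hU
  have h1 : sSup (T \ {U}) ≤ sSup ({U | U ∈ T ∧ U ≤ U1} \ {U}) ⊔ sSup (S \ {U1}) := by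
    refine sSup_le ?_
    rintro U' ⟨hU', hne⟩
    obtain ⟨U2, hU2, hle2⟩ := hT U' hU'
    by_cases h : U2 = U1
    · subst h
      exact le_sup_of_le_left (le_sSup ⟨⟨hU', hle2⟩, hne⟩)
    · exact le_sup_of_le_right (hle2.trans (le_sSup ⟨hU2, h⟩))
  refine Disjoint.mono_right h1 ?_
  rw [Submodule.disjoint_def]
  intro x hx hx'
  obtain ⟨a, ha, b, hb, rfl⟩ := Submodule.mem_sup.1 hx'
  have hA : sSup ({U | U ∈ T ∧ U ≤ U1} \ {U}) ≤ U1 := sSup_le fun U' hU' => hU'.1.2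
  have hb1 : b ∈ U1 := by
    have := U1.sub_mem (hle hx) (hA ha)
    rwa [add_sub_cancel_left] at this
  have hb0 : b = 0 := Submodule.disjoint_def.1 (hS hU1) b hb1 hb
  subst hb0
  rw [add_zero] at hx ⊢
  exact Submodule.disjoint_def.1 (hC U1 hU1 ⟨hU, hle⟩) a hx ha

end

theorem refine_a {V : Type} [AddCommGroup V] [Module K V] [Module.Finite K V]
    {H : Type} [Group H] [Finite H] (ρ : Representation K H V) (S : Set (Submodule K V)) (hS : SBD ρ S) (U0 : Submodule K V)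
    (hU0 : U0 ∈ S) (S' : Set (Submodule K V)) (h1 : ⊥ ∉ S') (h2 : sSupIndep S')
    (h3 : sSup S' = U0) (h4 : ∀ h : H, U0.map (ρ h) = U0 → ∀ U ∈ S', U.map (ρ h) ∈ S') :
    SBD ρ ({U | U ∈ S ∧ ∀ h : H, U ≠ U0.map (ρ h)} ∪ {U | ∃ h : H, ∃ U' ∈ S', U = U'.map (ρ h)}) ∧
      (S' ≠ {U0} → S.ncard <
        ({U | U ∈ S ∧ ∀ h : H, U ≠ U0.map (ρ h)} ∪
          {U | ∃ h : H, ∃ U' ∈ S', U = U'.map (ρ h)}).ncard) := by
  classical
  set T : Set (Submodule K V) := {U | U ∈ S ∧ ∀ h : H, U ≠ U0.map (ρ h)} ∪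
    {U | ∃ h : H, ∃ U' ∈ S', U = U'.map (ρ h)} with hTdef
  have hle0 : ∀ U' ∈ S', U' ≤ U0 := fun U' hU' => h3 ▸ le_sSup hU'
  have hne : ∀ U ∈ T, U ≠ ⊥ := by
    rintro U (⟨hU, -⟩ | ⟨h, U', hU', rfl⟩) hb
    · exact hS.ne (hb ▸ hU)
    · exact h1 (xsrefine_bot ρ h U' hb ▸ hU')
  have hT : ∀ U ∈ T, ∃ U1 ∈ S, U ≤ U1 := by
    rintro U (⟨hU, -⟩ | ⟨h, U', hU', rfl⟩)
    · exact ⟨U, hU, le_rfl⟩
    · exact ⟨_, hS.map h U0 hU0, Submodule.map_mono (hle0 U' hU')⟩
  have hC : ∀ U1 ∈ S, sSupIndep {U | U ∈ T ∧ U ≤ U1} ∧ sSup {U | U ∈ T ∧ U ≤ U1} = U1 := by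
    intro U1 hU1
    by_cases hc : ∀ h : H, U1 ≠ U0.map (ρ h)
    · have e : {U | U ∈ T ∧ U ≤ U1} = {U1} := by
        ext U
        constructor
        · rintro ⟨hU, hle⟩
          have hb := hne U hU
          rcases hU with ⟨hU, -⟩ | ⟨h, U', hU', rfl⟩
          · exact xsrefine_eq S hS.ind U U U1 hU hU1 hb le_rfl hle
          · exact absurd (xsrefine_eq S hS.ind _ _ _ hU1 (hS.map h U0 hU0) hb hle
              (Submodule.map_mono (hle0 U' hU'))) (hc h)
        · rintro rfl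
          exact ⟨Or.inl ⟨hU1, hc⟩, le_rfl⟩
      rw [e]
      exact ⟨sSupIndep_singleton _, sSup_singleton⟩
    · push Not at hc
      obtain ⟨h, rfl⟩ := hc
      have e : {U | U ∈ T ∧ U ≤ U0.map (ρ h)} = (fun U => U.map (ρ h)) '' S' := by
        ext U
        constructor
        · rintro ⟨hU, hle⟩
          have hb := hne U hU
          rcases hU with ⟨hU, hn⟩ | ⟨k, U', hU', rfl⟩
          · exact absurd (xsrefine_eq S hS.ind U U _ hU hU1 hb le_rfl hle) (hn h)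
          · have e1 := xsrefine_eq S hS.ind _ _ _ (hS.map k U0 hU0) hU1 hb
              (Submodule.map_mono (hle0 U' hU')) hle
            refine ⟨U'.map (ρ (h⁻¹ * k)), h4 _ ?_ U' hU', ?_⟩
            · rw [xsrefine_mul, e1, xsrefine_inv]
            · show (U'.map (ρ (h⁻¹ * k))).map (ρ h) = _
              rw [xsrefine_mul, xsrefine_inv']
        · rintro ⟨U', hU', rfl⟩
          exact ⟨Or.inr ⟨h, U', hU', rfl⟩, Submodule.map_mono (hle0 U' hU')⟩
      rw [e]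
      exact ⟨xsrefine_ind ρ h S' h2, by rw [xsrefine_sSup, h3]⟩
  refine ⟨⟨?_, xsrefine_glue S T hS.ind hT fun U1 hU1 => (hC U1 hU1).1, ?_,
    fun hb => hne _ hb rfl⟩, fun hS' => ?_⟩
  · rintro h W (⟨hW, hn⟩ | ⟨k, U', hU', rfl⟩)
    · refine Or.inl ⟨hS.map h W hW, fun k hk => hn (h⁻¹ * k) ?_⟩
      rw [xsrefine_mul, ← hk, xsrefine_inv]
    · exact Or.inr ⟨h * k, U', hU', (xsrefine_mul ρ h k U').symm⟩
  · rw [eq_top_iff, ← hS.top]
    refine sSup_le fun U1 hU1 => ?_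
    rw [← (hC U1 hU1).2]
    exact sSup_le_sSup fun U hU => hU.1
  · have : Finite V := Module.finite_of_finite K
    have : Finite (Submodule K V) :=
      Finite.of_injective (fun U : Submodule K V => (U : Set V)) SetLike.coe_injective
    choose! f hf using hT
    have hfe : ∀ U ∈ T, ∀ U1 ∈ S, U ≤ U1 → f U = U1 := fun U hU U1 hU1 hle =>
      xsrefine_eq S hS.ind U _ _ (hf U hU).1 hU1 (hne U hU) (hf U hU).2 hle
    have him : f '' T = S := by
      ext U1
      constructor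
      · rintro ⟨U, hU, rfl⟩
        exact (hf U hU).1
      · intro hU1
        have hn : {U | U ∈ T ∧ U ≤ U1}.Nonempty := by
          rw [Set.nonempty_iff_ne_empty]
          intro he
          have := (hC U1 hU1).2
          rw [he, sSup_empty] at this
          exact hS.ne (this ▸ hU1)
        obtain ⟨U, hU, hle⟩ := hn
        exact ⟨U, hU, hfe U hU U1 hU1 hle⟩
    have hmem : ∀ U' ∈ S', U' ∈ T := fun U' hU' =>
      Or.inr ⟨1, U', hU', (xsrefine_one ρ U').symm⟩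
    have hni : ¬ Set.InjOn f T := by
      intro hi
      apply hS'
      have hn : S'.Nonempty := by
        rw [Set.nonempty_iff_ne_empty]
        intro he
        rw [he, sSup_empty] at h3
        exact hS.ne (h3 ▸ hU0)
      obtain ⟨U', hU'⟩ := hn
      have e : S' = {U'} := by
        refine Set.eq_singleton_iff_unique_mem.2 ⟨hU', fun U'' hU'' => ?_⟩
        refine hi (hmem _ hU'') (hmem _ hU') ?_
        rw [hfe _ (hmem _ hU'') U0 hU0 (hle0 _ hU''), hfe _ (hmem _ hU') U0 hU0 (hle0 _ hU')]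
      rw [e, sSup_singleton] at h3
      rw [e, h3]
    rw [← him]
    refine lt_of_le_of_ne (Set.ncard_image_le (Set.toFinite T)) fun he => hni ?_
    exact (Set.ncard_image_iff (Set.toFinite T)).1 he

end Pool.Agent.N9181

end

section

namespace Pool.Agent.N9181

open scoped commutatorElement

theorem xsgbd_sup {V W : Type} [AddCommGroup V] [Module K V] [AddCommGroup W] [Module K W]
    (f : W →ₗ[K] V) (T : Set (Submodule K W)) :
    sSup ((fun U : Submodule K W => U.map f) '' T) = (sSup T).map f := by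
  rw [sSup_image, (Submodule.gc_map_comap f).l_sSup]

theorem xsgbd_ind {V W : Type} [AddCommGroup V] [Module K V] [AddCommGroup W] [Module K W]
    (f : W →ₗ[K] V) (hf : Function.Injective f) (T : Set (Submodule K W)) (h : sSupIndep T) :
    sSupIndep ((fun U : Submodule K W => U.map f) '' T) := by
  rintro _ ⟨U, hU, rfl⟩
  have e : ((fun U : Submodule K W => U.map f) '' T) \ {U.map f} =
      (fun U : Submodule K W => U.map f) '' (T \ {U}) := by
    rw [Set.image_sdiff (Submodule.map_injective_of_injective hf), Set.image_singleton]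
  show Disjoint (U.map f) (sSup (((fun U : Submodule K W => U.map f) '' T) \ {U.map f}))
  rw [e, xsgbd_sup, disjoint_iff, ← Submodule.map_inf f hf, disjoint_iff.1 (h hU),
    Submodule.map_bot]

theorem xsgbd_top {V : Type} [AddCommGroup V] [Module K V]
    {H : Type} [Group H] (ρ : Representation K H V) (hV : ∃ v : V, v ≠ 0) :
    SBD ρ {⊤} := by
  refine ⟨?_, sSupIndep_singleton _, sSup_singleton, ?_⟩
  · intro h W hW
    rw [Set.mem_singleton_iff] at hW ⊢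
    subst hW
    rw [eq_top_iff]
    intro v _
    exact ⟨ρ h⁻¹ v, trivial, rho_inv' ρ h v⟩
  · intro hb
    rw [Set.mem_singleton_iff] at hb
    obtain ⟨v, hv⟩ := hV
    have : v ∈ (⊥ : Submodule K V) := by rw [hb]; trivial
    exact hv ((Submodule.mem_bot K).1 this)

theorem xsgbd_max {V : Type} [AddCommGroup V] [Module K V] [Module.Finite K V]
    {H : Type} [Group H] [Finite H] (ρ : Representation K H V) (N : ℕ) (hV : ∃ v : V, v ≠ 0)
    (hS : HSq ρ N) : ∃ S : Set (Submodule K V), SBD ρ S ∧ (∀ W ∈ S, HSqOn ρ N W) ∧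
      ∀ T : Set (Submodule K V), SBD ρ T → (∀ W ∈ T, HSqOn ρ N W) → T.ncard ≤ S.ncard := by
  have : Finite V := Module.finite_of_finite K
  have : Finite (Submodule K V) := Finite.of_injective _ SetLike.coe_injective
  have hne : ({S : Set (Submodule K V) | SBD ρ S ∧ ∀ W ∈ S, HSqOn ρ N W}).Nonempty := by
    refine ⟨{⊤}, xsgbd_top ρ hV, ?_⟩
    intro W hW
    rw [Set.mem_singleton_iff] at hW
    subst hW
    exact hsq_top ρ N hS
  obtain ⟨S, hS1, hS2⟩ := Set.exists_max_image _ Set.ncard (Set.toFinite _) hne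
  exact ⟨S, hS1.1, hS1.2, fun T h1 h2 => hS2 T ⟨h1, h2⟩⟩

theorem xsgbd_on {V : Type} [AddCommGroup V] [Module K V] [Module.Finite K V]
    {H : Type} [Group H] [Finite H] (ρ : Representation K H V) (N : ℕ) {I : Type} [Fintype I]
    [MulAction H I] (W : I → Submodule K V) (hB : BD ρ I W) (i : I) {H' : Type} [Group H']
    (π : MulAction.stabilizer H i →* H') (σ : Representation K H' (W i)) (hF : FB ρ W i π σ)
    (U : Submodule K (W i)) (hU : U ≠ ⊥) (hq : HSqOn σ N U) :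
    HSqOn ρ N (U.map (W i).subtype) := by
  intro h j hj s s' hs hs' M
  obtain ⟨u, hu, hu0⟩ := (Submodule.ne_bot_iff U).1 hU
  have hle : U.map (W i).subtype ≤ W i := Submodule.map_subtype_le _ _
  have hfix : h • i = i := by
    refine blk_eq ρ W hB i i h (u : V) u.2 (fun h0 => hu0 (Subtype.ext h0)) ?_
    have := hs ⟨(u : V), Submodule.mem_map_of_mem (f := (W i).subtype) hu⟩
    rw [← this]
    exact hle (Subtype.property _)
  let h0 : MulAction.stabilizer H i := ⟨h, hfix⟩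
  let e : U ≃ₗ[K] U.map (W i).subtype :=
    Submodule.equivMapOfInjective (W i).subtype (W i).injective_subtype U
  have he : ∀ w : U, ((e w : U.map (W i).subtype) : V) = ((w : W i) : V) := fun _ => rfl
  have key : ∀ (g : MulAction.stabilizer H i) (a : Module.End K (U.map (W i).subtype)),
      Rs (U.map (W i).subtype) (ρ g) a →
      Rs U (σ (π g)) (e.symm.toLinearMap ∘ₗ a ∘ₗ e.toLinearMap) := by
    intro g a ha w
    apply Subtype.ext
    rw [hF.res, ← he, ← he, ← ha]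
    simp
  have cj : ∀ (a : Module.End K (U.map (W i).subtype)),
      bt (e.symm.toLinearMap ∘ₗ a ∘ₗ e.toLinearMap) M = bt a M := by
    intro a
    refine bt_conj e _ a ?_ M
    intro v
    simp
  rw [← cj s, ← cj s']
  refine hq (π h0) j hj _ _ (key h0 s hs) ?_ M
  rw [← map_pow]
  exact key (h0 ^ (j * j)) s' hs'

theorem gbd {V : Type} [AddCommGroup V] [Module K V] [Module.Finite K V]
    {H : Type} [Group H] [Finite H] (ρ : Representation K H V) (N : ℕ) (hV : ∃ v : V, v ≠ 0) (hS : HSq ρ N) :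
    ∃ (I : Type) (_ : Fintype I) (_ : MulAction H I) (W : I → Submodule K V), BD ρ I W ∧
      ∀ (i : I) (H' : Type) [Group H'] [Finite H'] (π : MulAction.stabilizer H i →* H')
        (σ : Representation K H' (W i)), FB ρ W i π σ → HSq σ N ∧ Term σ N := by
  obtain ⟨S, hS1, hS2, hS3⟩ := xsgbd_max ρ N hV hS
  obtain ⟨iF, iA, hact, hB⟩ := sbd_bd ρ S hS1
  refine ⟨S, iF, iA, fun U => (U : Submodule K V), hB, ?_⟩
  intro i H' _ _ π σ hF
  constructor
  · intro h j hj M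
    obtain ⟨g, rfl⟩ := hF.surj h
    refine hS2 i i.2 g j hj _ _ (hF.res g) ?_ M
    rw [← map_pow]
    exact hF.res (g ^ (j * j))
  · intro T hT1 hT2
    have hinj := (i : Submodule K V).injective_subtype
    have hmi := Submodule.map_injective_of_injective hinj
    have h1 : ⊥ ∉ (fun U : Submodule K (i : Submodule K V) =>
        U.map (i : Submodule K V).subtype) '' T := by
      rintro ⟨U, hU, hb⟩
      have : U = ⊥ := hmi (by rw [Submodule.map_bot]; exact hb)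
      exact hT1.ne (this ▸ hU)
    have h3 : sSup ((fun U : Submodule K (i : Submodule K V) =>
        U.map (i : Submodule K V).subtype) '' T) = (i : Submodule K V) := by
      rw [xsgbd_sup, hT1.top, Submodule.map_subtype_top]
    have h4 : ∀ h : H, (i : Submodule K V).map (ρ h) = i →
        ∀ U ∈ (fun U : Submodule K (i : Submodule K V) =>
          U.map (i : Submodule K V).subtype) '' T, U.map (ρ h) ∈
          (fun U : Submodule K (i : Submodule K V) =>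
            U.map (i : Submodule K V).subtype) '' T := by
      rintro h hh _ ⟨U, hU, rfl⟩
      have hfix : h • i = i := Subtype.ext ((hact h i).trans hh)
      refine ⟨U.map (σ (π ⟨h, hfix⟩)), hT1.map _ U hU, ?_⟩
      show (U.map (σ (π ⟨h, hfix⟩))).map (i : Submodule K V).subtype =
        (U.map (i : Submodule K V).subtype).map (ρ h)
      rw [← Submodule.map_comp, ← Submodule.map_comp]
      congr 1
      ext w
      exact hF.res ⟨h, hfix⟩ w
    obtain ⟨r1, r2⟩ := refine_a ρ S hS1 i i.2 _ h1 (xsgbd_ind _ hinj T hT1.ind) h3 h4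
    have hle := hS3 _ r1 (by
      rintro U (⟨hU, _⟩ | ⟨h, _, ⟨U', hU', rfl⟩, rfl⟩)
      · exact hS2 U hU
      · refine hsq_map ρ N _ ?_ h
        exact xsgbd_on ρ N (fun U : S => (U : Submodule K V)) hB i π σ hF U'
          (fun hb => hT1.ne (hb ▸ hU')) (hT2 U' hU'))
    have hE : (fun U : Submodule K (i : Submodule K V) =>
        U.map (i : Submodule K V).subtype) '' T = {(i : Submodule K V)} := by
      by_contra hne
      exact absurd (r2 hne) (not_lt.2 hle)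
    apply Set.image_injective.2 hmi
    rw [Set.image_singleton, Submodule.map_subtype_top]
    exact hE

end Pool.Agent.N9181

end

section

namespace Pool.Agent.N9181

open scoped commutatorElement

theorem xstermc_normal {H : Type} [Group H] (A : Subgroup H) (hA : A.Normal) (hc : IsCyclic A) :
    ∀ a ∈ A, (Subgroup.zpowers a).Normal := by
  obtain ⟨⟨g, hg⟩, hgen⟩ := hc.exists_generator
  intro a ha
  obtain ⟨k, hk⟩ := hgen ⟨a, ha⟩
  have hk' : g ^ k = a := by simpa using congrArg Subtype.val hk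
  refine ⟨?_⟩
  rintro _ ⟨l, rfl⟩ h
  obtain ⟨m, hm⟩ := hgen ⟨h * g * h⁻¹, hA.conj_mem g hg h⟩
  have hm' : g ^ m = h * g * h⁻¹ := by simpa using congrArg Subtype.val hm
  refine ⟨l * m, ?_⟩
  show a ^ (l * m) = h * a ^ l * h⁻¹
  rw [← hk', ← zpow_mul, ← zpow_mul, ← conj_zpow, ← hm', ← zpow_mul]
  congr 1
  ring

theorem exists_sd2 {H : Type} [Group H] [Finite H] [Group.IsSolvable H]
    (h : ∀ B : Subgroup H, B.Normal → (∀ a ∈ B, ∀ b ∈ B, a * b = b * a) → IsCyclic B) :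
    ∃ A F : Subgroup H, SD A F ∧ MxA A := by
  obtain ⟨A, hA⟩ := exists_maximal_of_wellFoundedGT
    (fun A : Subgroup H => A.Normal ∧ ∀ a ∈ A, ∀ b ∈ A, a * b = b * a)
    ⟨⊥, inferInstance, fun a ha b _ => by rw [Subgroup.mem_bot.1 ha, one_mul, mul_one]⟩
  obtain ⟨hn, hc⟩ := hA.prop
  obtain ⟨F, hF⟩ := exists_maximal_of_wellFoundedGT
    (fun F : Subgroup H => F.Normal ∧ A ≤ F ∧ F ≤ Subgroup.centralizer (A : Set H) ∧
      ∀ x ∈ F, ∀ y ∈ F, ⁅x, y⁆ ∈ A)
    ⟨A, hn, le_rfl, fun x hx a ha => hc a ha x hx, fun x hx y hy =>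
      A.mul_mem (A.mul_mem (A.mul_mem hx hy) (A.inv_mem hx)) (A.inv_mem hy)⟩
  obtain ⟨hFn, hle, hcen, hcm⟩ := hF.prop
  have hP : PD A F := ⟨h A hn hc, hle, fun a ha x hx => hcen hx a ha, hcm, fun x hx hx' =>
    hA.le_of_ge (y := F ⊓ Subgroup.centralizer (F : Set H))
      ⟨inferInstance, fun a ha b hb => hb.2 a ha.1⟩
      (fun a ha => ⟨hle ha, fun y hy => (hcen hy a ha).symm⟩) ⟨hx, fun y hy => (hx' y hy).symm⟩⟩
  have hC := xstruct_cent hP fun F' h1 h2 h3 h4 => hF.le_of_ge ⟨h1, hle.trans h2, h3, h4⟩ h2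
  refine ⟨A, F, ⟨hP, hn, hFn, fun c hc hy => ?_⟩,
    fun B h1 h2 h3 => le_antisymm (hA.le_of_ge ⟨h1, h2⟩ h3) h3⟩
  obtain ⟨x, hx, hx'⟩ := xstruct_ff hP hc hy
  simpa using F.mul_mem hx (hle (hC hx'))

theorem gb_of_term {V : Type} [AddCommGroup V] [Module K V] [Module.Finite K V]
    {H : Type} [Group H] [Finite H] [Group.IsSolvable H] (ρ : Representation K H V) (h13 : ¬ 13 ∣ Nat.card H) (N : ℕ) (hd : Nat.card H ∣ N) (hinj : Function.Injective ρ)
    (hS : HSq ρ N) (hT : Term ρ N) (hN : 0 < N) (hV : ∃ v : V, v ≠ 0) :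
    ∃ A F : Subgroup H, GB ρ N A F := by
  obtain ⟨A, F, hSD, hM⟩ := exists_sd2 (term_cyc ρ h13 N hd hinj hS hT hV)
  have hn : ∀ a ∈ A, (Subgroup.zpowers a).Normal := xstermc_normal A hSD.nA hSD.cyc
  refine ⟨A, F, hinj, hV, hd, hN, h13, hS, hSD, hM, fun a ha v h0 hv => ?_, fun a ha h12 => ?_⟩
  · by_contra hne
    have h1 := term_fix ρ h13 N hd hinj hS hT _ (hn a ha) (Subgroup.zpowers_ne_bot.2 hne)
    have h2 : v ∈ fixS ρ (Subgroup.zpowers a) := fun y hy =>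
      (Subgroup.zpowers_le (H := stabV ρ v)).2 hv hy
    rw [h1] at h2
    exact h0 h2
  · refine term_sc ρ h13 N hd hinj hS hT _ (hn a ha) ?_ ?_ (Subgroup.mem_zpowers a)
    · rintro _ ⟨k, rfl⟩ _ ⟨l, rfl⟩
      exact zpow_mul_comm a k l
    · rintro _ ⟨k, rfl⟩
      show (a ^ k) ^ 12 = 1
      rw [← zpow_natCast, ← zpow_mul, mul_comm, zpow_mul, zpow_natCast, h12, one_zpow]

theorem gblocks {V : Type} [AddCommGroup V] [Module K V] [Module.Finite K V]
    {H : Type} [Group H] [Finite H] [Group.IsSolvable H] (ρ : Representation K H V) (h13 : ¬ 13 ∣ Nat.card H) (N : ℕ) (hd : Nat.card H ∣ N) (hN : 0 < N)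
    (hV : ∃ v : V, v ≠ 0) (hS : HSq ρ N) :
    ∃ (I : Type) (_ : Fintype I) (_ : MulAction H I) (W : I → Submodule K V), BD ρ I W ∧
      ∀ i : I, ∃ (H' : Type) (_ : Group H') (_ : Finite H') (_ : Group.IsSolvable H')
        (π : MulAction.stabilizer H i →* H') (σ : Representation K H' (W i))
        (A F : Subgroup H'), FB ρ W i π σ ∧ GB σ N A F := by
  obtain ⟨I, _, _, W, hB, hW⟩ := gbd ρ N hV hS
  refine ⟨I, inferInstance, inferInstance, W, hB, fun i => ?_⟩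
  obtain ⟨H', _, _, π, σ, hF, hinj, hc⟩ := exists_fb ρ W hB i
  have hs : Group.IsSolvable H' := Group.isSolvable_of_surjective hF.surj
  obtain ⟨h1, h2⟩ := hW i H' π σ hF
  obtain ⟨v, hv, h0⟩ := Submodule.exists_mem_ne_zero_of_ne_bot (hB.ne i)
  obtain ⟨A, F, hG⟩ := gb_of_term σ (fun h => h13 (h.trans hc)) N (hc.trans hd) hinj h1 h2 hN
    ⟨⟨v, hv⟩, fun e => h0 (congrArg Subtype.val e)⟩
  exact ⟨H', inferInstance, inferInstance, hs, π, σ, A, F, hF, hG⟩

end Pool.Agent.N9181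

end

section

namespace Pool.Agent.N9181

open scoped commutatorElement

theorem thmM2 {V : Type} [AddCommGroup V] [Module K V] [Module.Finite K V]
    {H : Type} [Group H] [Finite H] [Group.IsSolvable H] (ρ : Representation K H V) (h13 : ¬ 13 ∣ Nat.card H) (N : ℕ) (hd : Nat.card H ∣ N) (hN : 0 < N)
    (hirr : Irr ρ) (hS : HSq ρ N) (hb : HBal3 ρ) (hE : HEP ρ 3) : Scal ρ := by
  obtain ⟨I, _, _, W, hB, hW⟩ := gblocks ρ h13 N hd hN hirr.1 hS
  have htr := trans_of_irr ρ W hB hirr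
  have hI : Nonempty I := by
    by_contra hI
    rw [not_nonempty_iff] at hI
    have h1 := hB.top
    rw [iSup_of_empty] at h1
    obtain ⟨v, h0⟩ := hirr.1
    have h2 : v ∈ (⊥ : Submodule K V) := h1 ▸ Submodule.mem_top
    exact h0 h2
  obtain ⟨i⟩ := id hI
  obtain ⟨H', _, _, _, π, σ, A, F, hF, hG⟩ := hW i
  choose g hg using fun j => MulAction.exists_smul_eq H i j
  obtain ⟨t1, t2, t3, t4⟩ := trans_pb ρ W hB i π σ hF g hg
  have hm : ∀ (r : W i) (j : I), ρ (g j) r ∈ W j := fun r j => by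
    have := hB.map (g j) i r r.2
    rwa [hg j] at this
  have hm0 : ∀ r : W i, r ≠ 0 → ∀ j : I, ρ (g j) r ∈ W j ∧ ρ (g j) r ≠ 0 := fun r h0 j =>
    ⟨hm r j, fun e => h0 (Subtype.ext (by
      rw [← rho_inv ρ (g j) r, e, map_zero]; rfl))⟩
  have fin : ∀ t : H, (∀ i, ∀ w ∈ W i, ρ t w = (3 : K) • w) → Scal ρ := by
    intro t h
    refine ⟨t, fun v => ?_⟩
    rw [ext_blocks ρ W hB (ρ t) ((3 : K) • LinearMap.id) h]
    rfl
  rcases baseM σ N A F hG with ⟨r, r', p, r0, hp, hn, p1, p2, p3⟩ | ⟨⟨r, r', r0, r0', hn, p1, p2⟩,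
    E, hE', hFF⟩
  · obtain ⟨t, a, ht, ft, hf, h⟩ := stepP ρ W hB hb hE _ _ (hm0 r r0) (hm r') p hp (t4 r r' r0 hn)
      (t1 r p p1) (t2 r' p p2)
    rcases h with h | ⟨i1, i2, i3, h12, h13', h23, -, h⟩
    · exact fin t fun j => t3 r p3 j t a ht (ft j) (h j) hf
    · have st : ∀ j, j ≠ i1 → ∀ w ∈ W j, ρ t w = (3 : K) • w := fun j hj =>
        t3 r p3 j t a ht (ft j) (h j hj) hf
      refine fin t fun j => ?_
      by_cases e : j = i1
      · subst e
        exact fin1 ρ W hB hb t a j i2 i3 h12 h13' h23 ht ft st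
      · exact st j e
  · obtain ⟨t, a, ht, ft, hf, h⟩ := stepP ρ W hB hb hE _ _ (hm0 r r0) (hm r') 1 one_pos
      (t4 r r' r0 hn) (t1 r 1 p1) (t2 r' 1 fun s n h1 h2 => by
        have := p2 s n h1 h2
        omega)
    have hpos : ∀ j, edOn (W j) (ρ t) 9 < edOn (W j) (ρ t) 3 := fun j => by
      rcases h with h | ⟨i1, -, -, -, -, -, h1, h⟩
      · exact t1 r 1 p1 j t a ht (ft j) (h j)
      · by_cases e : j = i1
        · subst e
          exact t1 r' 1 p2 j t a ht (ft j) h1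
        · exact t1 r 1 p1 j t a ht (ft j) (h j e)
    by_cases hsc : ∀ j : I, ∃ c : K, ∀ w ∈ W j, ρ t w = c • w
    · refine fin t fun j => ?_
      obtain ⟨c, hc⟩ := hsc j
      obtain ⟨u, hu, u0, e⟩ := (edOn_pos (W j) (ρ t) 3).1 (by have := hpos j; omega)
      rw [hc u hu] at e
      rwa [smul_left_injective K u0 e] at hc
    · exact z2 ρ W hB hb t a ht ft hf hpos (z1 ρ W hB i π σ hF E hE' hFF t ft hsc)

end Pool.Agent.N9181

end

section

namespace Pool.Agent.N9181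

open scoped commutatorElement

theorem xsh2b_norm {V : Type} [AddCommGroup V] [Module K V] {H : Type} [Group H] [Finite H]
    (ρ : Representation K H V) (hinj : Function.Injective ρ) (E L J : Subgroup H) (hE : E.Normal)
    (hL : L ≤ J) (w : V) (h0 : w ≠ 0) (hJ : J ≤ stabV ρ w) (hs : SL ρ E L w) (Y : H) (hY : Y ∈ E)
    (h : ∀ j ∈ J, ρ j (ρ Y w) = ρ Y w) : Y ∈ Subgroup.normalizer (J : Set H) := by
  rw [← inv_mem_iff]
  refine Subgroup.mem_normalizer_fintype fun j hj => ?_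
  have h1 : j⁻¹ * (Y⁻¹ * j * Y) ∈ E := by
    have := E.mul_mem (hE.conj_mem _ (E.inv_mem hY) j⁻¹) hY
    simpa only [inv_inv, mul_assoc] using this
  have h2 : ρ (j⁻¹ * (Y⁻¹ * j * Y)) w = w := by
    rw [rho_mul, rho_mul, rho_mul, h j hj, rho_inv]
    exact hJ (J.inv_mem hj)
  obtain ⟨l, hl, c, hc⟩ := hs _ h1 1 (by rw [h2, one_smul])
  have h3 : c = 1 := by
    have h4 := hc w
    rw [h2, show ρ l w = w from hJ (hL hl)] at h4
    have h5 : (c - 1) • w = 0 := by rw [sub_smul, ← h4, one_smul, sub_self]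
    exact sub_eq_zero.1 ((smul_eq_zero.1 h5).resolve_right h0)
  have h4 : j⁻¹ * (Y⁻¹ * j * Y) = l := hinj (LinearMap.ext fun v => by rw [hc, h3, one_smul])
  rw [inv_inv, inv_mul_eq_iff_eq_mul.1 h4]
  exact J.mul_mem hj (hL hl)

/-- the elements normalising `J` and commuting with `X`, `Z` on the fixed space -/
def xsh2bB {V : Type} [AddCommGroup V] [Module K V] [Module.Finite K V]
    {H : Type} [Group H] [Finite H] (ρ : Representation K H V) (J : Subgroup H) (X Z : H) :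
    Subgroup H where
  carrier := {b | b ∈ Subgroup.normalizer (J : Set H) ∧
    ∀ v ∈ fixS ρ J, ρ b (ρ X v) = ρ X (ρ b v) ∧ ρ b (ρ Z v) = ρ Z (ρ b v)}
  one_mem' := ⟨one_mem _, fun v _ => by simp⟩
  mul_mem' := by
    rintro a b ⟨ha, ha'⟩ ⟨hb, hb'⟩
    refine ⟨mul_mem ha hb, fun v hv => ?_⟩
    have h1 := ha' _ (fix_norm ρ J b hb v hv)
    rw [rho_mul, rho_mul, rho_mul, (hb' v hv).1, (hb' v hv).2]
    exact h1
  inv_mem' := by
    rintro b ⟨hb, hb'⟩
    refine ⟨inv_mem hb, fun v hv => ?_⟩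
    have h1 := hb' _ (fix_norm ρ J b⁻¹ (inv_mem hb) v hv)
    rw [rho_inv'] at h1
    rw [← h1.1, ← h1.2, rho_inv, rho_inv]
    exact ⟨rfl, rfl⟩

theorem h2_data {V : Type} [AddCommGroup V] [Module K V] [Module.Finite K V]
    {H : Type} [Group H] [Finite H] [Group.IsSolvable H] (ρ : Representation K H V) (E : Subgroup H) (hE : EH ρ 2 4 E) (ζ : K) (L : Subgroup H) (X Z : H)
    (hH : HS ρ 2 (-1) ζ E L X Z) :
    ∃ (J B : Subgroup H) (C : Submodule K V), H2D ρ ζ L X Z J B C := by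
  have hL3 : ¬ 3 ∣ Nat.card L := fun h => by
    have := Fact.mk Nat.prime_three
    obtain ⟨x, hx⟩ := exists_prime_orderOf_dvd_card' 3 h
    have h1 : orderOf x ∣ 2 := orderOf_dvd_of_pow_eq_one (Subtype.ext (hH.pL x x.2))
    rw [hx] at h1
    omega
  let S : Set (Subgroup H) := {J | L ≤ J ∧ ∃ m, m ≠ 0 ∧ m ∈ fixS ρ L ∧ ρ Z m = ζ • m ∧
    M3 J (stabV ρ (wv ρ X m))}
  have hne : S.Nonempty := by
    obtain ⟨m, h0, hm, hZ⟩ := hH.ex
    obtain ⟨J, h1, h2⟩ := m3_exists L (stabV ρ (wv ρ X m))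
      (fun l hl => (hs_sl2 ρ E hE ζ L X Z hH m hm h0 hZ).1 l hl) hL3
    exact ⟨J, h1, m, h0, hm, hZ, h2⟩
  obtain ⟨J, ⟨hLJ, m, h0, hm, hZ, hJ⟩, hmax⟩ :=
    Set.exists_max_image S (fun J => Nat.card J) (Set.toFinite _) hne
  obtain ⟨hw, hw0, hs⟩ := hs_sl2 ρ E hE ζ L X Z hH m hm h0 hZ
  have hc := fun j (hj : j ∈ J) => h2_cen ρ E hE ζ L X Z hH m hm h0 hZ j
    (fun h => hJ.2.1 (h.trans (Subgroup.orderOf_dvd_natCard J hj))) 1
    (by rw [one_smul]; exact hJ.1 hj)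
  refine ⟨J, xsh2bB ρ J X Z, fixS ρ J ⊓ Module.End.eigenspace (ρ Z) ζ, hLJ, ?_, ?_,
    fun _ => Iff.rfl, fun v => ?_, ?_, fun m' hm' h0' => ?_⟩
  · exact xsh2b_norm ρ hE.inj E L J hE.nE hLJ _ hw0 hJ.1 hs X hH.mX fun j hj => by
      rw [((hc j hj).2.2 _ hw).1, show ρ j (wv ρ X m) = wv ρ X m from hJ.1 hj]
  · exact xsh2b_norm ρ hE.inj E L J hE.nE hLJ _ hw0 hJ.1 hs Z hH.mZ fun j hj => by
      rw [((hc j hj).2.2 _ hw).2, show ρ j (wv ρ X m) = wv ρ X m from hJ.1 hj]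
  · rw [Submodule.mem_inf, Module.End.mem_eigenspace_iff]
  · exact (Submodule.ne_bot_iff _).2 ⟨m, ⟨fun j hj => by rw [(hc j hj).2.1, one_smul],
      Module.End.mem_eigenspace_iff.2 hZ⟩, h0⟩
  · have h1 : m' ∈ fixS ρ L := fun l hl => hm'.1 l (hLJ hl)
    obtain ⟨J', h2, h3⟩ := m3_exists J (stabV ρ (wv ρ X m')) (fun j hj => by
      rw [mem_stabV, wv, map_add, map_smul, ((hc j hj).2.2 _ h1).1, hm'.1 j hj]) hJ.2.1
    have h4 := hmax J' ⟨hLJ.trans h2, m', h0', h1, Module.End.mem_eigenspace_iff.1 hm'.2, h3⟩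
    rwa [Subgroup.eq_of_le_of_card_ge h2 h4]

end Pool.Agent.N9181

end

section

namespace Pool.Agent.N9181

open scoped commutatorElement

theorem xsh2c_ord {H : Type} [Group H] (y : H) (a : ℕ) (ha : y ^ (2 ^ a) = 1) :
    ¬ 3 ∣ orderOf y := fun h => by
  have := Nat.prime_three.dvd_of_dvd_pow (h.trans (orderOf_dvd_of_pow_eq_one ha))
  omega

theorem h2_inv {V : Type} [AddCommGroup V] [Module K V] [Module.Finite K V]
    {H : Type} [Group H] [Finite H] (ρ : Representation K H V) (E : Subgroup H) (hE : EH ρ 2 4 E) (ζ : K) (L : Subgroup H) (X Z : H)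
    (hH : HS ρ 2 (-1) ζ E L X Z)
    (J B : Subgroup H) (C : Submodule K V) (hD : H2D ρ ζ L X Z J B C) (b : H) (hb : b ∈ B) (v : V) (hv : v ∈ C) : ρ b v ∈ C := by
  obtain ⟨hn, hc⟩ := (hD.memB b).1 hb
  obtain ⟨h1, h2⟩ := (hD.memC v).1 hv
  refine (hD.memC _).2 ⟨fix_norm ρ J b hn v h1, ?_⟩
  rw [← (hc v h1).2, h2, map_smul]

theorem h2_JB {V : Type} [AddCommGroup V] [Module K V] [Module.Finite K V]
    {H : Type} [Group H] [Finite H] (ρ : Representation K H V) (E : Subgroup H) (hE : EH ρ 2 4 E) (ζ : K) (L : Subgroup H) (X Z : H)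
    (hH : HS ρ 2 (-1) ζ E L X Z)
    (J B : Subgroup H) (C : Submodule K V) (hD : H2D ρ ζ L X Z J B C) : J ≤ B := by
  intro j hj
  refine (hD.memB j).2 ⟨Subgroup.le_normalizer hj, fun v hv => ⟨?_, ?_⟩⟩
  · rw [fix_norm ρ J X hD.nX v hv j hj, hv j hj]
  · rw [fix_norm ρ J Z hD.nZ v hv j hj, hv j hj]

theorem h2_lt {V : Type} [AddCommGroup V] [Module K V] [Module.Finite K V]
    {H : Type} [Group H] [Finite H] (ρ : Representation K H V) (E : Subgroup H) (hE : EH ρ 2 4 E) (ζ : K) (L : Subgroup H) (X Z : H)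
    (hH : HS ρ 2 (-1) ζ E L X Z)
    (J B : Subgroup H) (C : Submodule K V) (hD : H2D ρ ζ L X Z J B C) : Module.finrank K C < Module.finrank K V := by
  have h1 := (hs_dbl ρ E hE ζ L X Z hH (fixS ρ J) C (fix_norm ρ J X hD.nX) (fix_norm ρ J Z hD.nZ)
    hD.memC).2.2
  have h2 : Module.finrank K C ≠ 0 := fun h => hD.ne (Submodule.finrank_eq_zero.1 h)
  have h3 := Submodule.finrank_le (fixS ρ J)
  omega

theorem h2_dbl {V : Type} [AddCommGroup V] [Module K V] [Module.Finite K V]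
    {H : Type} [Group H] [Finite H] (ρ : Representation K H V) (E : Subgroup H) (hE : EH ρ 2 4 E) (ζ : K) (L : Subgroup H) (X Z : H)
    (hH : HS ρ 2 (-1) ζ E L X Z)
    (J B : Subgroup H) (C : Submodule K V) (hD : H2D ρ ζ L X Z J B C) (b : H) (hb : b ∈ B) (c : K) :
    edOn (fixS ρ J) (ρ b) c = 2 * edOn C (ρ b) c := by
  obtain ⟨-, hc⟩ := (hD.memB b).1 hb
  refine (hs_dbl ρ E hE ζ L X Z hH (fixS ρ J ⊓ Module.End.eigenspace (ρ b) c)
    (C ⊓ Module.End.eigenspace (ρ b) c) ?_ ?_ ?_).2.2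
  · rintro v ⟨h1, h2⟩
    refine ⟨fix_norm ρ J X hD.nX v h1, Module.End.mem_eigenspace_iff.2 ?_⟩
    rw [(hc v h1).1, Module.End.mem_eigenspace_iff.1 h2, map_smul]
  · rintro v ⟨h1, h2⟩
    refine ⟨fix_norm ρ J Z hD.nZ v h1, Module.End.mem_eigenspace_iff.2 ?_⟩
    rw [(hc v h1).2, Module.End.mem_eigenspace_iff.1 h2, map_smul]
  · intro v
    rw [Submodule.mem_inf, Submodule.mem_inf, hD.memC]
    tauto

theorem h2_memB {V : Type} [AddCommGroup V] [Module K V] [Module.Finite K V]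
    {H : Type} [Group H] [Finite H] (ρ : Representation K H V) (E : Subgroup H) (hE : EH ρ 2 4 E) (ζ : K) (L : Subgroup H) (X Z : H)
    (hH : HS ρ 2 (-1) ζ E L X Z)
    (J B : Subgroup H) (C : Submodule K V) (hD : H2D ρ ζ L X Z J B C) (m : V) (hm : m ∈ C) (h0 : m ≠ 0) (y : H)
    (hn : y ∈ Subgroup.normalizer (J : Set H)) (h3 : ¬ 3 ∣ orderOf y) (c : K) (hy : ρ y (wv ρ X m) = c • wv ρ X m) :
    y ∈ B ∧ ρ y m = c • m := by
  obtain ⟨h1, h2⟩ := (hD.memC m).1 hm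
  have hle : ∀ v ∈ fixS ρ J, v ∈ fixS ρ L := fun v hv l hl => hv l (hD.lJ hl)
  obtain ⟨-, h4, h5⟩ := h2_cen ρ E hE ζ L X Z hH m (hle m h1) h0 h2 y h3 c hy
  exact ⟨(hD.memB y).2 ⟨hn, fun v hv => h5 v (hle v hv)⟩, h4⟩

theorem h2_ep {V : Type} [AddCommGroup V] [Module K V] [Module.Finite K V]
    {H : Type} [Group H] [Finite H] [Group.IsSolvable H] (ρ : Representation K H V) (hE5 : HEP ρ 5) (E : Subgroup H) (hE : EH ρ 2 4 E) (ζ : K) (L : Subgroup H) (X Z : H)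
    (hH : HS ρ 2 (-1) ζ E L X Z)
    (J B : Subgroup H) (C : Submodule K V) (hD : H2D ρ ζ L X Z J B C) (τ : Representation K B C) (hτ : ∀ (b : B) (v : C), (τ b v : V) = ρ b v) : HEP τ 5 := by
  intro v
  by_cases h0 : (v : V) = 0
  · refine ⟨1, ?_⟩
    rw [show v = 0 from Subtype.ext h0, map_zero, smul_zero]
  obtain ⟨y, hn, ⟨a, ha⟩, hy⟩ := exists_val ρ hE5 _ J (hD.mx v v.2 h0)
  obtain ⟨h1, h2⟩ := h2_memB ρ E hE ζ L X Z hH J B C hD v v.2 h0 y hn (xsh2c_ord y a ha) 5 hy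
  exact ⟨⟨y, h1⟩, Subtype.ext ((hτ _ _).trans h2)⟩

theorem h2_sq {V : Type} [AddCommGroup V] [Module K V] [Module.Finite K V]
    {H : Type} [Group H] [Finite H] (ρ : Representation K H V) (h13 : ¬ 13 ∣ Nat.card H) (N : ℕ) (hd : Nat.card H ∣ N) (hS : HSq ρ N)
    (E : Subgroup H) (hE : EH ρ 2 4 E) (ζ : K) (L : Subgroup H) (X Z : H)
    (hH : HS ρ 2 (-1) ζ E L X Z)
    (J B : Subgroup H) (C : Submodule K V) (hD : H2D ρ ζ L X Z J B C) (τ : Representation K B C) (hτ : ∀ (b : B) (v : C), (τ b v : V) = ρ b v) : HSq τ N := by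
  intro b j hj M
  obtain ⟨m, hm, h0⟩ := (Submodule.ne_bot_iff C).1 hD.ne
  have hmx := hD.mx m hm h0
  obtain ⟨hn, hc⟩ := (hD.memB b).1 b.2
  have hζ : ζ ≠ 0 := by
    intro h
    have := rho_inv ρ Z m
    rw [((hD.memC m).1 hm).2, h, zero_smul, map_zero] at this
    exact h0 this.symm
  let S : Subgroup H :=
    { carrier := {h | ∃ c : K, c ≠ 0 ∧ ∀ v ∈ C, ρ h v = c • v}
      one_mem' := ⟨1, one_ne_zero, fun v _ => by rw [map_one, one_smul]; rfl⟩
      mul_mem' := by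
        rintro x y ⟨c, hc, hx⟩ ⟨d, hd, hy⟩
        exact ⟨d * c, mul_ne_zero hd hc, fun v hv => by
          rw [rho_mul, hy v hv, map_smul, hx v hv, smul_smul]⟩
      inv_mem' := by
        rintro x ⟨c, hc, hx⟩
        refine ⟨c⁻¹, inv_ne_zero hc, fun v hv => ?_⟩
        rw [eq_inv_smul_iff₀ hc, ← map_smul, ← hx v hv, rho_inv] }
  have hPS : J ⊔ Subgroup.zpowers Z ≤ S :=
    sup_le (fun y hy => ⟨1, one_ne_zero, fun v hv => by
        rw [one_smul]; exact ((hD.memC v).1 hv).1 y hy⟩)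
      (Subgroup.zpowers_le.2 ⟨ζ, hζ, fun v hv => ((hD.memC v).1 hv).2⟩)
  let χ : H → K := fun h => Classical.epsilon fun c : K => c ≠ 0 ∧ ∀ v ∈ C, ρ h v = c • v
  have hχ : ∀ y ∈ J ⊔ Subgroup.zpowers Z, ∀ v ∈ C, ρ y v = χ y • v :=
    fun y hy => (Classical.epsilon_spec (hPS hy)).2
  have hZP : Z ∈ J ⊔ Subgroup.zpowers Z := Subgroup.mem_sup_right (Subgroup.mem_zpowers Z)
  have hU : ∀ v, v ∈ C ↔ ∀ y ∈ J ⊔ Subgroup.zpowers Z, ρ y v = χ y • v := by
    refine fun v => ⟨fun hv y hy => hχ y hy v hv, fun h => (hD.memC v).2 ⟨fun y hy => ?_, ?_⟩⟩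
    · have h1 := hχ y (Subgroup.mem_sup_left hy) m hm
      rw [((hD.memC m).1 hm).1 y hy] at h1
      have h2 : χ y = 1 := smul_left_injective K h0 (h1.symm.trans (one_smul K m).symm)
      rw [h y (Subgroup.mem_sup_left hy), h2, one_smul]
    · have h1 := hχ Z hZP m hm
      rw [((hD.memC m).1 hm).2] at h1
      rw [h Z hZP, ← smul_left_injective K h0 h1]
  have hk : (b : H) * Z * (b : H)⁻¹ * Z⁻¹ ∈ J := by
    have hkE : (b : H) * Z * (b : H)⁻¹ * Z⁻¹ ∈ E :=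
      mul_mem (hE.nE.conj_mem Z hH.mZ b) (inv_mem hH.mZ)
    refine m3_norm J _ hmx _ ?_ (mul_mem (mul_mem (mul_mem hn hD.nZ) (inv_mem hn)) (inv_mem hD.nZ))
      (xsh2c_ord _ 2 (hE.pw _ hkE))
    have hw : wv ρ X m ∈ fixS ρ J := fun y hy => hmx.1 hy
    have hu := fix_norm ρ J _ (inv_mem hn) _ (fix_norm ρ J _ (inv_mem hD.nZ) _ hw)
    rw [mem_stabV, rho_mul, rho_mul, rho_mul, (hc _ hu).2, rho_inv', rho_inv']
  have hb : (b : H) ∈ Subgroup.normalizer ((J ⊔ Subgroup.zpowers Z : Subgroup H) : Set H) := by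
    refine Subgroup.mem_normalizer_fintype fun y hy => ?_
    have hle : J ⊔ Subgroup.zpowers Z ≤
        (J ⊔ Subgroup.zpowers Z).comap (MulAut.conj (b : H)).toMonoidHom := by
      refine sup_le (fun y hy => Subgroup.mem_sup_left ((hn y).1 hy)) (Subgroup.zpowers_le.2 ?_)
      have := mul_mem (Subgroup.mem_sup_left (T := Subgroup.zpowers Z) hk) hZP
      rwa [inv_mul_cancel_right] at this
    exact hle hy
  exact hsq_tw ρ h13 N hd hS _ χ C hU b hb j hj (τ b) (τ (b ^ (j * j))) (hτ b)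
    (hτ (b ^ (j * j))) M

end Pool.Agent.N9181

end

section

namespace Pool.Agent.N9181

open scoped commutatorElement

theorem xsh2e_le {V : Type} [AddCommGroup V] [Module K V] [Module.Finite K V]
    {H : Type} [Group H] [Finite H] (ρ : Representation K H V) (hK : DK ρ) (E : Subgroup H)
    (hE : EH ρ 2 4 E) (ζ : K) (L : Subgroup H) (X Z : H) (hH : HS ρ 2 (-1) ζ E L X Z)
    (J B : Subgroup H) (C : Submodule K V) (hD : H2D ρ ζ L X Z J B C) (y : H) (hy : y ∈ B) (a : ℕ)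
    (ha : y ^ (2 ^ a) = 1) (m : V) (hm : m ∈ C) (h0 : m ≠ 0) (he : ρ y m = (5 : K) • m) :
    edOn C (ρ y) 5 ≤ edOn C (ρ y) 8 := by
  obtain ⟨hJ, hZ⟩ := (hD.memC m).1 hm
  have hL : m ∈ fixS ρ L := fun l hl => hJ l (hD.lJ hl)
  obtain ⟨w1, w2, w3⟩ := hs_sl2 ρ E hE ζ L X Z hH m hL h0 hZ
  obtain ⟨hn, hc⟩ := (hD.memB y).1 hy
  have hv : Val ρ J (wv ρ X m) y := by
    refine ⟨hn, ⟨a, ha⟩, ?_⟩
    rw [wv, map_add, map_smul, (hc m hJ).1, he, map_smul, smul_add, smul_comm]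
  rcases hK _ J y w2 (hD.mx m hm h0) hv with h | h
  · obtain ⟨k, hk⟩ := h m hJ h0 he
    exact absurd (hk.trans (one_smul K m).symm)
      (hs_nc ρ 2 4 (-1) (Or.inl ⟨rfl, rfl, rfl⟩) E hE ζ L X Z hH _ w1 w2 w3 m hL ζ hZ k 1)
  · rw [h2_dbl ρ E hE ζ L X Z hH J B C hD y hy, h2_dbl ρ E hE ζ L X Z hH J B C hD y hy] at h
    omega

theorem xsh2e_top {V : Type} [AddCommGroup V] [Module K V] [Module.Finite K V]
    {H : Type} [Group H] [Finite H] (ρ : Representation K H V) (E : Subgroup H)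
    (hE : EH ρ 2 4 E) (ζ : K) (L : Subgroup H) (X Z : H) (hH : HS ρ 2 (-1) ζ E L X Z)
    (J B : Subgroup H) (C : Submodule K V) (hD : H2D ρ ζ L X Z J B C) (τ : Representation K B C)
    (hτ : ∀ (b : B) (v : C), (τ b v : V) = ρ b v) (w : C) (h0 : w ≠ 0) (J1 : Subgroup B)
    (hJ : M3 J1 (stabV τ w)) : fixS τ J1 = ⊤ := by
  have hw : (w : V) ≠ 0 := fun h => h0 (Subtype.ext h)
  have hM := hD.mx w w.2 hw
  have hwJ := ((hD.memC w).1 w.2).1
  have hle := h2_JB ρ E hE ζ L X Z hH J B C hD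
  have h1 : J.subgroupOf B ≤ J1 := by
    refine m3_normal J1 _ _ hJ (fun j hj => Subtype.ext ?_) ?_ (Or.inl fun b _ => ?_)
    · rw [hτ]
      exact hwJ _ hj
    · rw [Nat.card_congr (Subgroup.subgroupOfEquivOfLe hle).toEquiv]
      exact hM.2.1
    · have hb := ((hD.memB b).1 b.2).1
      rw [Subgroup.mem_normalizer_iff] at hb ⊢
      exact fun h => hb h
  have h2 : J1.map B.subtype = J := by
    refine hM.2.2 _ (fun j hj => ⟨⟨j, hle hj⟩, h1 hj, rfl⟩) ?_ ?_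
    · rintro _ ⟨j, hj, rfl⟩
      have e : ρ j w = w := by
        rw [← hτ]
        exact congrArg Subtype.val (hJ.1 hj)
      show ρ j (wv ρ X w) = wv ρ X w
      rw [wv, map_add, map_smul, (((hD.memB j).1 j.2).2 w hwJ).1, e]
    · rw [Subgroup.card_map_of_injective B.subtype_injective]
      exact hJ.2.1
  rw [eq_top_iff]
  intro v _ j hj
  refine Subtype.ext ?_
  rw [hτ]
  exact ((hD.memC v).1 v.2).1 _ (h2 ▸ ⟨j, hj, rfl⟩)

theorem h2_bal {V : Type} [AddCommGroup V] [Module K V] [Module.Finite K V]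
    {H : Type} [Group H] [Finite H] [Group.IsSolvable H] (ρ : Representation K H V) (hK : DK ρ) (E : Subgroup H) (hE : EH ρ 2 4 E) (ζ : K) (L : Subgroup H) (X Z : H)
    (hH : HS ρ 2 (-1) ζ E L X Z)
    (J B : Subgroup H) (C : Submodule K V) (hD : H2D ρ ζ L X Z J B C) (τ : Representation K B C) (hτ : ∀ (b : B) (v : C), (τ b v : V) = ρ b v) : BalJ τ := by
  intro w J1 y h0 hJ hv
  obtain ⟨-, ⟨a, ha⟩, he⟩ := hv
  rw [xsh2e_top ρ E hE ζ L X Z hH J B C hD τ hτ w h0 J1 hJ, edOn_top, edOn_top,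
    ed_res C (ρ y) _ (hτ y), ed_res C (ρ y) _ (hτ y)]
  have ha' : (y : H) ^ (2 ^ a) = 1 := congrArg Subtype.val ha
  have he' : ρ y w = (5 : K) • (w : V) := by
    rw [← hτ, he]
    rfl
  refine le_antisymm (xsh2e_le ρ hK E hE ζ L X Z hH J B C hD y y.2 a ha' w w.2
    (fun h => h0 (Subtype.ext h)) he') ?_
  rcases Nat.eq_zero_or_pos (edOn C (ρ y) 8) with h | h
  · omega
  · obtain ⟨u, hu, u0, ue⟩ := (edOn_pos C _ _).1 h
    have ui : ρ (y : H)⁻¹ u = (5 : K) • u := by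
      have h1 : u = (5 : K) • (8 : K) • u := by
        rw [smul_smul, show (5 : K) * 8 = 1 by decide, one_smul]
      nth_rewrite 1 [h1]
      rw [map_smul, ← ue, rho_inv]
    have h2 := xsh2e_le ρ hK E hE ζ L X Z hH J B C hD (y : H)⁻¹ (B.inv_mem y.2) a
      (by rw [inv_pow, ha', inv_one]) u hu u0 ui
    have h5 := ed_inv ρ C y 5 (by decide)
    have h8 := ed_inv ρ C y 8 (by decide)
    rw [show (5 : K)⁻¹ = 8 from inv_eq_of_mul_eq_one_right (by decide)] at h5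
    rw [show (8 : K)⁻¹ = 5 from inv_eq_of_mul_eq_one_right (by decide)] at h8
    omega

theorem h2_clb {V : Type} [AddCommGroup V] [Module K V] [Module.Finite K V]
    {H : Type} [Group H] [Finite H] [Group.IsSolvable H] (ρ : Representation K H V) (h13 : ¬ 13 ∣ Nat.card H) (N : ℕ) (hd : Nat.card H ∣ N) (hN : 0 < N)
    (hS : HSq ρ N) (hE5 : HEP ρ 5) (hK : DK ρ) (E : Subgroup H) (hE : EH ρ 2 4 E) (ζ : K) (L : Subgroup H) (X Z : H)
    (hH : HS ρ 2 (-1) ζ E L X Z)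
    (J B : Subgroup H) (C : Submodule K V) (hD : H2D ρ ζ L X Z J B C) (τ : Representation K B C) (hτ : ∀ (b : B) (v : C), (τ b v : V) = ρ b v) : ClB τ N := by
  have hB : Nat.card B ∣ Nat.card H := Subgroup.card_subgroup_dvd_card B
  exact ⟨hB.trans hd, hN, fun h => h13 (h.trans hB), h2_ep ρ hE5 E hE ζ L X Z hH J B C hD τ hτ,
    h2_sq ρ h13 N hd hS E hE ζ L X Z hH J B C hD τ hτ, h2_bal ρ hK E hE ζ L X Z hH J B C hD τ hτ⟩

end Pool.Agent.N9181

end

section

namespace Pool.Agent.N9181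

open scoped commutatorElement

theorem xsh2d_ne {V : Type} [AddCommGroup V] [Module K V] {a b : V}
    (hab : ∀ x y : K, x • a + y • b = 0 → x = 0 ∧ y = 0) : a ≠ 0 := fun h =>
  one_ne_zero (hab 1 0 (by simp [h])).1

theorem xsh2d_xx {V : Type} [AddCommGroup V] [Module K V] {H : Type} [Group H]
    (ρ : Representation K H V) (E : Subgroup H) (hE : EH ρ 2 4 E) (X : H) (hX : X ∈ E) :
    ∃ c : K, c ≠ 0 ∧ ∀ v, ρ X (ρ X v) = c • v := by
  obtain ⟨c, hc, h⟩ := hE.pp X hX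
  exact ⟨c, hc, fun v => by rw [← rho_mul, ← pow_two, h]⟩

theorem h2_u4 {V : Type} [AddCommGroup V] [Module K V] [Module.Finite K V]
    {H : Type} [Group H] [Finite H] (ρ : Representation K H V) (E : Subgroup H) (hE : EH ρ 2 4 E) (ζ : K) (L : Subgroup H) (X Z : H)
    (hH : HS ρ 2 (-1) ζ E L X Z)
    (J B : Subgroup H) (C : Submodule K V) (hD : H2D ρ ζ L X Z J B C) (a b : V) (ha : a ∈ C) (hb : b ∈ C)
    (hab : ∀ x y : K, x • a + y • b = 0 → x = 0 ∧ y = 0) (x y z t : K)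
    (h : x • a + y • b + z • ρ X a + t • ρ X b = 0) : x = 0 ∧ y = 0 ∧ z = 0 ∧ t = 0 := by
  have hz := (hs_p2 ρ E hE ζ L X Z hH a (xsh2d_ne hab) ((hD.memC a).1 ha).2).z4
  have hζ : ζ ≠ 0 := fun h0 => by rw [h0] at hz; exact absurd hz (by decide)
  have za := ((hD.memC a).1 ha).2
  have zb := ((hD.memC b).1 hb).2
  have h2 := congrArg (ρ Z) h
  simp only [map_add, map_smul, map_zero, hH.zx, za, zb] at h2
  have h3 : (2 * ζ) • (x • a + y • b) = 0 := by
    linear_combination (norm := module) ζ • h + h2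
  have h4 : x • a + y • b = 0 :=
    (smul_eq_zero.1 h3).resolve_left (mul_ne_zero (by decide) hζ)
  have h5 : ρ X (z • a + t • b) = 0 := by
    rw [map_add, map_smul, map_smul]
    linear_combination (norm := module) h - h4
  have h6 : z • a + t • b = 0 := by
    rw [← rho_inv ρ X (z • a + t • b), h5, map_zero]
  exact ⟨(hab x y h4).1, (hab x y h4).2, hab z t h6⟩

theorem xsh2d_fix {V : Type} [AddCommGroup V] [Module K V] [Module.Finite K V]
    {H : Type} [Group H] [Finite H] (ρ : Representation K H V) (E : Subgroup H) (hE : EH ρ 2 4 E)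
    (ζ : K) (L : Subgroup H) (X Z : H) (hH : HS ρ 2 (-1) ζ E L X Z)
    (J B : Subgroup H) (C : Submodule K V) (hD : H2D ρ ζ L X Z J B C) (a b : V) (ha : a ∈ C)
    (hb : b ∈ C) (hab : ∀ x y : K, x • a + y • b = 0 → x = 0 ∧ y = 0) :
    wv ρ X a + b ∈ fixS ρ J ∧ wv ρ X a + b ∈ fixS ρ L ∧ wv ρ X a + b ≠ 0 := by
  have fa := ((hD.memC a).1 ha).1
  have fb := ((hD.memC b).1 hb).1
  have h1 : wv ρ X a + b ∈ fixS ρ J :=
    add_mem (add_mem fa (Submodule.smul_mem _ _ (fix_norm ρ J X hD.nX a fa))) fb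
  refine ⟨h1, fun y hy => h1 y (hD.lJ hy), fun h0 => ?_⟩
  refine one_ne_zero (h2_u4 ρ E hE ζ L X Z hH J B C hD a b ha hb hab 1 1 3 0 ?_).1
  unfold wv at h0
  linear_combination (norm := module) h0

theorem h2_slv {V : Type} [AddCommGroup V] [Module K V] [Module.Finite K V]
    {H : Type} [Group H] [Finite H] (ρ : Representation K H V) (E : Subgroup H) (hE : EH ρ 2 4 E) (ζ : K) (L : Subgroup H) (X Z : H)
    (hH : HS ρ 2 (-1) ζ E L X Z)
    (J B : Subgroup H) (C : Submodule K V) (hD : H2D ρ ζ L X Z J B C) (a b : V) (ha : a ∈ C) (hb : b ∈ C)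
    (hab : ∀ x y : K, x • a + y • b = 0 → x = 0 ∧ y = 0) : SL ρ E L (wv ρ X a + b) := by
  intro f hf c hc
  have hpq : PQ 2 4 (-1) := Or.inl ⟨rfl, rfl, rfl⟩
  obtain ⟨-, fL, h0⟩ := xsh2d_fix ρ E hE ζ L X Z hH J B C hD a b ha hb hab
  have hz := (hs_p2 ρ E hE ζ L X Z hH a (xsh2d_ne hab) ((hD.memC a).1 ha).2).z4
  have hζ : ζ ≠ 0 := fun h0 => by rw [h0] at hz; exact absurd hz (by decide)
  have za := ((hD.memC a).1 ha).2
  have zb := ((hD.memC b).1 hb).2
  obtain ⟨e, -, xx⟩ := xsh2d_xx ρ E hE X hH.mX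
  have u4 := h2_u4 ρ E hE ζ L X Z hH J B C hD a b ha hb hab
  obtain ⟨c0, i, j, hc0, hi, hj, h1, h2⟩ := hs_cen ρ 2 4 (-1) hpq E hE ζ L X Z hH f hf
    (hs_comm ρ 2 4 (-1) hpq E hE ζ L X Z hH f hf _ fL h0 (hc ▸ Submodule.smul_mem _ _ fL))
  have h3 := h1 _ fL
  rw [hc] at h3
  unfold wv at h3
  interval_cases i <;> interval_cases j
  · obtain ⟨l, hl, h⟩ := h2 rfl rfl
    exact ⟨l, hl, c0, h⟩
  · exfalso
    simp only [pow_zero, pow_one, one_mul, map_add, map_smul, hH.zx, za, zb] at h3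
    obtain ⟨e1, -, e3, -⟩ := u4 (c - c0 * ζ) (c - c0 * ζ) (3 * c + 3 * (c0 * ζ)) 0
      (by linear_combination (norm := module) h3)
    have : (6 : K) * (c0 * ζ) = 0 := by linear_combination e3 - 3 * e1
    exact mul_ne_zero (by decide) (mul_ne_zero hc0 hζ) this
  · exfalso
    simp only [pow_zero, pow_one, mul_one, map_add, map_smul, xx] at h3
    obtain ⟨-, -, -, e4⟩ := u4 (c - 3 * c0 * e) c (3 * c - c0) (-c0)
      (by linear_combination (norm := module) h3)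
    exact hc0 (neg_eq_zero.1 e4)
  · exfalso
    simp only [pow_one, Module.End.mul_apply, map_add, map_smul, hH.zx, za, zb, xx] at h3
    obtain ⟨-, -, -, e4⟩ := u4 (c + 3 * c0 * ζ * e) c (3 * c - c0 * ζ) (-(c0 * ζ))
      (by linear_combination (norm := module) h3)
    exact mul_ne_zero hc0 hζ (neg_eq_zero.1 e4)

theorem h2_gam {V : Type} [AddCommGroup V] [Module K V] [Module.Finite K V]
    {H : Type} [Group H] [Finite H] [Group.IsSolvable H] (ρ : Representation K H V) (hE5 : HEP ρ 5) (E : Subgroup H) (hE : EH ρ 2 4 E) (ζ : K) (L : Subgroup H) (X Z : H)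
    (hH : HS ρ 2 (-1) ζ E L X Z)
    (J B : Subgroup H) (C : Submodule K V) (hD : H2D ρ ζ L X Z J B C) (a b : V) (ha : a ∈ C) (hb : b ∈ C)
    (hab : ∀ x y : K, x • a + y • b = 0 → x = 0 ∧ y = 0) :
    ∃ (g : H) (n : ℕ), g ∈ Subgroup.normalizer (J : Set H) ∧ g ∈ Subgroup.normalizer (L : Set H) ∧ g ^ (2 ^ n) = 1 ∧
      ρ g (wv ρ X a + b) = (5 : K) • (wv ρ X a + b) ∧
      ∀ u ∈ U4 (ρ X) a b, ρ g u ∈ U4 (ρ X) a b := by
  have hpq : PQ 2 4 (-1) := Or.inl ⟨rfl, rfl, rfl⟩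
  obtain ⟨-, fL, h0⟩ := xsh2d_fix ρ E hE ζ L X Z hH J B C hD a b ha hb hab
  have sl := h2_slv ρ E hE ζ L X Z hH J B C hD a b ha hb hab
  have hz := (hs_p2 ρ E hE ζ L X Z hH a (xsh2d_ne hab) ((hD.memC a).1 ha).2).z4
  have hζ : ζ ≠ 0 := fun h0 => by rw [h0] at hz; exact absurd hz (by decide)
  obtain ⟨fa, za⟩ := (hD.memC a).1 ha
  obtain ⟨fb, zb⟩ := (hD.memC b).1 hb
  obtain ⟨e, he, xx⟩ := xsh2d_xx ρ E hE X hH.mX
  obtain ⟨g0, hg0⟩ := hE5 (wv ρ X a + b)
  set U := U4 (ρ X) a b with hU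
  have ua : a ∈ U := Submodule.subset_span (by simp)
  have ub : b ∈ U := Submodule.subset_span (by simp)
  have uxa : ρ X a ∈ U := Submodule.subset_span (by simp)
  have uxb : ρ X b ∈ U := Submodule.subset_span (by simp)
  have ule : ∀ P : Submodule K V, a ∈ P → b ∈ P → ρ X a ∈ P → ρ X b ∈ P → U ≤ P := by
    intro P h1 h2 h3 h4
    refine Submodule.span_le.2 ?_
    rintro _ (rfl | rfl | rfl | rfl) <;> assumption
  have uw : wv ρ X a ∈ U := add_mem ua (U.smul_mem _ uxa)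
  have uv : wv ρ X a + b ∈ U := add_mem uw ub
  have uX : ∀ u ∈ U, ρ X u ∈ U := ule (U.comap (ρ X)) uxa uxb
    (show ρ X (ρ X a) ∈ U from xx a ▸ U.smul_mem _ ua)
    (show ρ X (ρ X b) ∈ U from xx b ▸ U.smul_mem _ ub)
  have uZ : ∀ u ∈ U, ρ Z u ∈ U := ule (U.comap (ρ Z))
    (show ρ Z a ∈ U from za ▸ U.smul_mem _ ua) (show ρ Z b ∈ U from zb ▸ U.smul_mem _ ub)
    (show ρ Z (ρ X a) ∈ U by rw [hH.zx, za, map_smul]; exact U.smul_mem _ (U.smul_mem _ uxa))
    (show ρ Z (ρ X b) ∈ U by rw [hH.zx, zb, map_smul]; exact U.smul_mem _ (U.smul_mem _ uxb))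
  have uP : ∀ (T : Module.End K V), (∀ u ∈ U, T u ∈ U) → ∀ n : ℕ, ∀ u ∈ U, (T ^ n) u ∈ U := by
    intro T hT n
    induction n with
    | zero => exact fun u hu => hu
    | succ n ih => exact fun u hu => by rw [pow_succ', Module.End.mul_apply]; exact hT _ (ih u hu)
  have uJ : U ≤ fixS ρ J := ule _ fa fb (fix_norm ρ J X hD.nX a fa) (fix_norm ρ J X hD.nX b fb)
  obtain ⟨⟨c1, i1, j1, -, -, p1⟩, c2, i2, j2, -, -, p2⟩ := hs_conj ρ 2 4 (-1) hpq E hE ζ L X Z hH g0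
    (hs_norm ρ 2 4 (-1) hpq E hE ζ L X Z hH _ fL h0 sl g0 5 hg0)
  set P : Submodule K V := fixS ρ L ⊓ U.comap (ρ g0) with hP
  have pX : ∀ w ∈ P, ρ X w ∈ P := fun w hw =>
    ⟨(hs_fix ρ 2 4 (-1) hpq E hE ζ L X Z hH w hw.1).1, show ρ g0 (ρ X w) ∈ U by
      rw [p1 w hw.1, Module.End.mul_apply]
      exact U.smul_mem _ (uP _ uX _ _ (uP _ uZ _ _ hw.2))⟩
  have pZ : ∀ w ∈ P, ρ Z w ∈ P := fun w hw =>
    ⟨(hs_fix ρ 2 4 (-1) hpq E hE ζ L X Z hH w hw.1).2, show ρ g0 (ρ Z w) ∈ U by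
      rw [p2 w hw.1, Module.End.mul_apply]
      exact U.smul_mem _ (uP _ uX _ _ (uP _ uZ _ _ hw.2))⟩
  have pv : wv ρ X a + b ∈ P := ⟨fL, show ρ g0 _ ∈ U from hg0 ▸ U.smul_mem _ uv⟩
  have pxa : ρ X a ∈ P := by
    have h1 : (6 * ζ) • ρ X a = ζ • (wv ρ X a + b) - ρ Z (wv ρ X a + b) := by
      simp only [wv, map_add, map_smul, hH.zx, za, zb]
      module
    rw [← P.smul_mem_iff (mul_ne_zero (show (6 : K) ≠ 0 by decide) hζ), h1]
    exact sub_mem (P.smul_mem _ pv) (pZ _ pv)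
  have pa : a ∈ P := by
    rw [← P.smul_mem_iff he, ← xx]
    exact pX _ pxa
  have pb : b ∈ P := by
    have := sub_mem pv (show wv ρ X a ∈ P from add_mem pa (P.smul_mem _ pxa))
    rwa [add_sub_cancel_left] at this
  have ug : ∀ u ∈ U, ρ g0 u ∈ U := fun u hu => (ule P pa pb pxa (pX _ pb) hu).2
  obtain ⟨y, hy, hyu⟩ := fratU ρ (wv ρ X a) J (hD.mx a ha (xsh2d_ne hab)) U uw uJ g0 ug
  obtain ⟨m, n, h1, h2⟩ := eig_ppart ρ 2 Nat.prime_two y
  have h3 := h2 (wv ρ X a + b) 5 2 (by rw [hyu _ uv, hg0]) (by decide)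
  refine ⟨y ^ m, n, pow_mem hy m, hs_norm ρ 2 4 (-1) hpq E hE ζ L X Z hH _ fL h0 sl _ 5 h3, h1, h3,
    fun u hu => ?_⟩
  rw [map_pow]
  exact uP _ (fun u hu => by rw [hyu u hu]; exact ug u hu) m u hu

end Pool.Agent.N9181

end

section

namespace Pool.Agent.N9181

open scoped commutatorElement

theorem xsh2f_mem {V : Type} [AddCommGroup V] [Module K V] (X : Module.End K V) (a b u : V) :
    u ∈ U4 X a b ↔ ∃ x y z t : K, u = x • a + y • b + z • X a + t • X b := by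
  unfold U4
  constructor
  · intro h
    obtain ⟨x, u1, h1, rfl⟩ := Submodule.mem_span_insert.1 h
    obtain ⟨y, u2, h2, rfl⟩ := Submodule.mem_span_insert.1 h1
    obtain ⟨z, t, rfl⟩ := Submodule.mem_span_pair.1 h2
    exact ⟨x, y, z, t, by module⟩
  · rintro ⟨x, y, z, t, rfl⟩
    refine add_mem (add_mem (add_mem ?_ ?_) ?_) ?_ <;>
      exact Submodule.smul_mem _ _ (Submodule.subset_span (by simp))

theorem xsh2f_pow {V : Type} [AddCommGroup V] [Module K V] (F : Submodule K V)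
    (g X : Module.End K V) (hX : ∀ v ∈ F, X v ∈ F) (h : ∀ v ∈ F, g (X v) = X (g v)) (i : ℕ) :
    ∀ v ∈ F, (X ^ i) v ∈ F ∧ g ((X ^ i) v) = (X ^ i) (g v) := by
  induction i with
  | zero => exact fun v hv => ⟨hv, rfl⟩
  | succ i ih =>
    intro v hv
    simp only [pow_succ', Module.End.mul_apply]
    exact ⟨hX _ (ih v hv).1, by rw [h _ (ih v hv).1, (ih v hv).2]⟩

theorem xsh2f_conj {V : Type} [AddCommGroup V] [Module K V] {H : Type} [Group H]
    (ρ : Representation K H V) (F : Submodule K V) (g γ : H) (X Z Y : Module.End K V)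
    (hX : ∀ v ∈ F, X v ∈ F) (hZ : ∀ v ∈ F, Z v ∈ F) (hγ : ∀ v ∈ F, ρ γ v ∈ F)
    (hg' : ∀ v ∈ F, ρ (γ⁻¹ * g * γ) v ∈ F)
    (h : ∀ v ∈ F, ρ g (X v) = X (ρ g v) ∧ ρ g (Z v) = Z (ρ g v)) (c : K) (i j : ℕ)
    (hY : ∀ v ∈ F, ρ γ (Y v) = c • (X ^ i * Z ^ j) (ρ γ v)) (v : V) (hv : v ∈ F) :
    ρ (γ⁻¹ * g * γ) (Y v) = Y (ρ (γ⁻¹ * g * γ) v) := by
  have h1 := xsh2f_pow F (ρ g) Z hZ (fun v hv => (h v hv).2) j _ (hγ v hv)
  have h2 := xsh2f_pow F (ρ g) X hX (fun v hv => (h v hv).1) i _ h1.1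
  have h3 := hY _ (hg' v hv)
  rw [← rho_inv ρ γ (Y (ρ (γ⁻¹ * g * γ) v)), h3, rho_mul, rho_mul, rho_mul, rho_mul, rho_inv',
    hY v hv, map_smul, Module.End.mul_apply, Module.End.mul_apply, h2.2, h1.2]

theorem xsh2f_num (x y p1 p2 p3 p4 : K) (h1 : (2 - x) * p1 = 0) (h2 : (7 - x) * p2 = 0)
    (h3 : (2 - x) * p3 = 0) (h4 : (7 - x) * p4 = 0) (k1 : (2 - y) * (5 - p1) = 0)
    (k2 : (7 - y) * (5 - p2) = 0) (k3 : (2 - y) * (15 - p3) = 0) (k4 : (7 - y) * (-p4) = 0) :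
    (p1 = 5 ∧ p2 = 0 ∧ p3 = 15 ∧ p4 = 0) ∨ (p1 = 0 ∧ p2 = 5 ∧ p3 = 0 ∧ p4 = 0) := by
  have n5 : (5 : K) ≠ 0 := by decide
  have n72 : (7 : K) - 2 ≠ 0 := by decide
  have n27 : (2 : K) - 7 ≠ 0 := by decide
  by_cases hx : x = 2
  · subst hx
    have e2 := (mul_eq_zero.1 h2).resolve_left n72
    have e4 := (mul_eq_zero.1 h4).resolve_left n72
    rw [e2, sub_zero] at k2
    have ey : y = 7 := (sub_eq_zero.1 ((mul_eq_zero.1 k2).resolve_right n5)).symm
    subst ey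
    exact Or.inl ⟨(sub_eq_zero.1 ((mul_eq_zero.1 k1).resolve_left n27)).symm, e2,
      (sub_eq_zero.1 ((mul_eq_zero.1 k3).resolve_left n27)).symm, e4⟩
  · have hx' : 2 - x ≠ 0 := fun h => hx (sub_eq_zero.1 h).symm
    have e1 := (mul_eq_zero.1 h1).resolve_left hx'
    have e3 := (mul_eq_zero.1 h3).resolve_left hx'
    rw [e1, sub_zero] at k1
    have ey : y = 2 := (sub_eq_zero.1 ((mul_eq_zero.1 k1).resolve_right n5)).symm
    subst ey
    exact Or.inr ⟨e1, (sub_eq_zero.1 ((mul_eq_zero.1 k2).resolve_left n72)).symm, e3,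
      neg_eq_zero.1 ((mul_eq_zero.1 k4).resolve_left n72)⟩

theorem h2_fin {V : Type} [AddCommGroup V] [Module K V] [Module.Finite K V]
    {H : Type} [Group H] [Finite H] [Group.IsSolvable H] (ρ : Representation K H V) (hE5 : HEP ρ 5) (E : Subgroup H) (hE : EH ρ 2 4 E) (ζ : K) (L : Subgroup H) (X Z : H)
    (hH : HS ρ 2 (-1) ζ E L X Z)
    (J B : Subgroup H) (C : Submodule K V) (hD : H2D ρ ζ L X Z J B C) (a b : V) (ha : a ∈ C) (hb : b ∈ C)
    (hab : ∀ x y : K, x • a + y • b = 0 → x = 0 ∧ y = 0) (g : H) (hg : g ∈ B)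
    (hga : ρ g a = (2 : K) • a) (hgb : ρ g b = (7 : K) • b)
    (hr : ∀ h ∈ B, ρ h a = (5 : K) • a → ρ h b ≠ (5 : K) • b)
    (hm : ∀ h ∈ B, ρ h a ∈ Submodule.span K {a, b} → ρ h b ∈ Submodule.span K {a, b} →
      (∃ x y : K, ρ h a = x • a ∧ ρ h b = y • b) ∨ ∃ x y : K, ρ h a = x • b ∧ ρ h b = y • a) :
    False := by
  obtain ⟨γ, n, hγJ, hγL, hγn, hγv, hγU⟩ := h2_gam ρ hE5 E hE ζ L X Z hH J B C hD a b ha hb hab
  have hpq : PQ 2 4 (-1) := Or.inl ⟨rfl, rfl, rfl⟩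
  have hu4 := h2_u4 ρ E hE ζ L X Z hH J B C hD a b ha hb hab
  have hFL : ∀ v ∈ fixS ρ J, v ∈ fixS ρ L := fun v hv l hl => hv l (hD.lJ hl)
  obtain ⟨haF, haZ⟩ := (hD.memC a).1 ha
  obtain ⟨hbF, hbZ⟩ := (hD.memC b).1 hb
  have ha0 : a ≠ 0 := fun h => one_ne_zero (hab 1 0 (by rw [h]; simp)).1
  have hb0 : b ≠ 0 := fun h => one_ne_zero (hab 0 1 (by rw [h]; simp)).2
  have hζ : ζ ≠ 0 := fun h => by
    have := (hs_p2 ρ E hE ζ L X Z hH a ha0 haZ).z4
    rw [h] at this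
    exact absurd this (by decide)
  obtain ⟨hgJ, hgc⟩ := (hD.memB g).1 hg
  have hg'J : γ⁻¹ * g * γ ∈ Subgroup.normalizer (J : Set H) :=
    mul_mem (mul_mem (inv_mem hγJ) hgJ) hγJ
  have hg' : γ⁻¹ * g * γ ∈ B := by
    obtain ⟨⟨c, i, j, -, -, h1⟩, c', i', j', -, -, h2⟩ :=
      hs_conj ρ 2 4 (-1) hpq E hE ζ L X Z hH γ hγL
    refine (hD.memB _).2 ⟨hg'J, fun v hv => ⟨?_, ?_⟩⟩
    · exact xsh2f_conj ρ (fixS ρ J) g γ (ρ X) (ρ Z) (ρ X) (fix_norm ρ J X hD.nX)
        (fix_norm ρ J Z hD.nZ) (fix_norm ρ J γ hγJ) (fix_norm ρ J _ hg'J) hgc c i j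
        (fun v hv => h1 v (hFL v hv)) v hv
    · exact xsh2f_conj ρ (fixS ρ J) g γ (ρ X) (ρ Z) (ρ Z) (fix_norm ρ J X hD.nX)
        (fix_norm ρ J Z hD.nZ) (fix_norm ρ J γ hγJ) (fix_norm ρ J _ hg'J) hgc c' i' j'
        (fun v hv => h2 v (hFL v hv)) v hv
  obtain ⟨-, hgc'⟩ := (hD.memB _).1 hg'
  have hgXa : ρ g (ρ X a) = (2 : K) • ρ X a := by rw [(hgc a haF).1, hga, map_smul]
  have hgXb : ρ g (ρ X b) = (7 : K) • ρ X b := by rw [(hgc b hbF).1, hgb, map_smul]
  have hg4 : ∀ x y z t : K, ρ g (x • a + y • b + z • ρ X a + t • ρ X b) =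
      (2 * x) • a + (7 * y) • b + (2 * z) • ρ X a + (7 * t) • ρ X b := fun x y z t => by
    simp only [map_add, map_smul, hga, hgb, hgXa, hgXb]
    module
  have hgU : ∀ u ∈ U4 (ρ X) a b, ρ g u ∈ U4 (ρ X) a b := fun u hu => by
    obtain ⟨x, y, z, t, rfl⟩ := (xsh2f_mem _ _ _ _).1 hu
    exact (xsh2f_mem _ _ _ _).2 ⟨_, _, _, _, hg4 x y z t⟩
  have hγk : ∀ k : ℕ, ∀ u ∈ U4 (ρ X) a b, ρ (γ ^ k) u ∈ U4 (ρ X) a b := fun k => by
    induction k with
    | zero => intro u hu; rw [pow_zero, map_one]; exact hu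
    | succ k ih => intro u hu; rw [pow_succ, rho_mul]; exact ih _ (hγU u hu)
  have hγi : ∀ u ∈ U4 (ρ X) a b, ρ γ⁻¹ u ∈ U4 (ρ X) a b := fun u hu => by
    have : γ⁻¹ = γ ^ (2 ^ n - 1) := by
      refine inv_eq_of_mul_eq_one_right ?_
      rw [← pow_succ', Nat.sub_add_cancel Nat.one_le_two_pow, hγn]
    rw [this]
    exact hγk _ u hu
  have hg'U : ∀ u ∈ U4 (ρ X) a b, ρ (γ⁻¹ * g * γ) u ∈ U4 (ρ X) a b := fun u hu => by
    rw [rho_mul, rho_mul]
    exact hγi _ (hgU _ (hγU u hu))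
  have hUC : ∀ u ∈ U4 (ρ X) a b, u ∈ C → u ∈ Submodule.span K {a, b} := fun u hu hC => by
    obtain ⟨x, y, z, t, rfl⟩ := (xsh2f_mem _ _ _ _).1 hu
    have h1 := ((hD.memC _).1 hC).2
    simp only [map_add, map_smul, hH.zx, haZ, hbZ] at h1
    obtain ⟨-, -, h2, h3⟩ := hu4 0 0 (2 * ζ * z) (2 * ζ * t)
      (by linear_combination (norm := module) (-1 : K) • h1)
    have n2 : (2 : K) * ζ ≠ 0 := mul_ne_zero (by decide) hζ
    rw [(mul_eq_zero.1 h2).resolve_left n2, (mul_eq_zero.1 h3).resolve_left n2]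
    exact Submodule.mem_span_pair.2 ⟨x, y, by simp⟩
  have haU : a ∈ U4 (ρ X) a b := (xsh2f_mem _ _ _ _).2 ⟨1, 0, 0, 0, by simp⟩
  have hbU : b ∈ U4 (ρ X) a b := (xsh2f_mem _ _ _ _).2 ⟨0, 1, 0, 0, by simp⟩
  have hwU : wv ρ X a ∈ U4 (ρ X) a b := (xsh2f_mem _ _ _ _).2 ⟨1, 0, 3, 0, by simp [wv]⟩
  have hrel : ∀ u, ρ g (ρ γ u) = ρ γ (ρ (γ⁻¹ * g * γ) u) := fun u => by
    rw [rho_mul, rho_mul, rho_inv']
  rcases hm _ hg' (hUC _ (hg'U a haU) (h2_inv ρ E hE ζ L X Z hH J B C hD _ hg' a ha))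
    (hUC _ (hg'U b hbU) (h2_inv ρ E hE ζ L X Z hH J B C hD _ hg' b hb)) with
    ⟨x, y, hx, hy⟩ | ⟨x, y, hx, hy⟩
  · have hp : ρ g (ρ γ (wv ρ X a)) = x • ρ γ (wv ρ X a) := by
      rw [hrel, ← map_smul]
      congr 1
      simp only [wv, map_add, map_smul, (hgc' a haF).1, hx]
      module
    have hq : ρ g (ρ γ b) = y • ρ γ b := by rw [hrel, hy, map_smul]
    obtain ⟨p1, p2, p3, p4, hP⟩ := (xsh2f_mem _ _ _ _).1 (hγU _ hwU)
    have hQ : ρ γ b = (5 - p1) • a + (5 - p2) • b + (15 - p3) • ρ X a + (-p4) • ρ X b := by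
      rw [map_add, hP] at hγv
      unfold wv at hγv
      linear_combination (norm := module) hγv
    rw [hP, hg4] at hp
    rw [hQ, hg4] at hq
    obtain ⟨h1, h2, h3, h4⟩ := hu4 ((2 - x) * p1) ((7 - x) * p2) ((2 - x) * p3) ((7 - x) * p4)
      (by linear_combination (norm := module) hp)
    obtain ⟨k1, k2, k3, k4⟩ := hu4 ((2 - y) * (5 - p1)) ((7 - y) * (5 - p2))
      ((2 - y) * (15 - p3)) ((7 - y) * (-p4)) (by linear_combination (norm := module) hq)
    rcases xsh2f_num x y p1 p2 p3 p4 h1 h2 h3 h4 k1 k2 k3 k4 with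
      ⟨rfl, rfl, rfl, rfl⟩ | ⟨rfl, rfl, rfl, rfl⟩
    · have h3 : ¬ 3 ∣ orderOf γ := fun h => by
        have := (Nat.Prime.dvd_of_dvd_pow Nat.prime_three
          (h.trans (orderOf_dvd_of_pow_eq_one hγn)))
        omega
      obtain ⟨hB, h5⟩ := h2_memB ρ E hE ζ L X Z hH J B C hD a ha ha0 γ hγJ h3 5
        (by rw [hP]; unfold wv; module)
      exact hr γ hB h5 (by rw [hQ]; module)
    · obtain ⟨s1, s2, s3⟩ := hs_sl2 ρ E hE ζ L X Z hH a (hFL a haF) ha0 haZ
      exact hs_nc ρ 2 4 (-1) hpq E hE ζ L X Z hH _ s1 s2 s3 b (hFL b hbF) ζ hbZ γ 5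
        (by rw [hP]; module)
  · have hsq : ∀ u ∈ U4 (ρ X) a b, ρ (γ⁻¹ * g * γ) (ρ (γ⁻¹ * g * γ) u) = (x * y) • u := by
      intro u hu
      obtain ⟨p1, p2, p3, p4, rfl⟩ := (xsh2f_mem _ _ _ _).1 hu
      simp only [map_add, map_smul, (hgc' a haF).1, (hgc' b hbF).1, hx, hy]
      module
    have hgg : ∀ u ∈ U4 (ρ X) a b, ρ g (ρ g u) = (x * y) • u := fun u hu => by
      rw [← rho_inv' ρ γ u, hrel, hrel, hsq _ (hγi u hu), map_smul]
    have h1 := hgg a haU
    have h2 := hgg b hbU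
    rw [hga, map_smul, hga] at h1
    rw [hgb, map_smul, hgb] at h2
    obtain ⟨e1, e2⟩ := hab (4 - x * y) (49 - x * y)
      (by linear_combination (norm := module) h1 + h2)
    have : (45 : K) = 0 := by linear_combination e2 - e1
    exact absurd this (by decide)

end Pool.Agent.N9181

end

section

namespace Pool.Agent.N9181

open scoped commutatorElement

theorem xsposign_key {I Q : Type} [LinearOrder Q] (cl : I → Q) (t : I → I)
    (h1 : ∀ a b, cl a = cl b → cl (t a) = cl (t b)) (h4 : ∀ a, cl (t (t (t (t a)))) = cl a) :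
    ∃ s : I → K, (∀ l, s l = 1 ∨ s l = -1) ∧ (∀ a b, cl a = cl b → s a = s b) ∧
      ∀ l, cl (t l) ≠ cl l → s (t l) = - s l := by
  refine ⟨fun l => if min (cl l) (cl (t (t l))) < min (cl (t l)) (cl (t (t (t l)))) then 1 else -1,
    fun l => ?_, fun a b h => ?_, fun l hl => ?_⟩
  · dsimp only
    split_ifs
    · exact Or.inl rfl
    · exact Or.inr rfl
  · dsimp only
    rw [h, h1 _ _ h, h1 _ _ (h1 _ _ h), h1 _ _ (h1 _ _ (h1 _ _ h))]
  · dsimp only
    have hne : min (cl l) (cl (t (t l))) ≠ min (cl (t l)) (cl (t (t (t l)))) := by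
      intro e
      apply hl
      rcases min_choice (cl l) (cl (t (t l))) with e1 | e1 <;>
        rcases min_choice (cl (t l)) (cl (t (t (t l)))) with e2 | e2 <;> rw [e1, e2] at e
      · exact e.symm
      · exact (h1 _ _ e).trans (h4 l)
      · exact (h4 (t l)).symm.trans ((h1 _ _ (h1 _ _ (h1 _ _ e))).trans (h4 l))
      · exact (h4 (t l)).symm.trans ((h1 _ _ (h1 _ _ e)).symm.trans (h4 l))
    rw [h4, min_comm (cl (t (t l)))]
    rcases lt_or_gt_of_ne hne with e | e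
    · rw [if_pos e, if_neg e.not_gt]
    · rw [if_pos e, if_neg e.not_gt, neg_neg]

theorem po_sign {H : Type} [Group H] [Finite H] {I : Type} [MulAction H I] (J : Subgroup H) (y : H)
    (hn : y ∈ Subgroup.normalizer (J : Set H)) (h4 : y ^ 4 ∈ J) :
    ∃ s : I → K, (∀ l, s l = 1 ∨ s l = -1) ∧ (∀ j ∈ J, ∀ l, s (j • l) = s l) ∧
      ∀ l, (¬ ∃ j ∈ J, j • l = y • l) → s (y • l) = - s l := by
  obtain ⟨_, -⟩ := exists_wellFoundedLT (Quotient (MulAction.orbitRel J I))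
  have hcl : ∀ a b : I, Quotient.mk (MulAction.orbitRel J I) a = Quotient.mk _ b ↔
      ∃ j ∈ J, j • b = a := fun a b => by
    rw [Quotient.eq]
    exact ⟨fun ⟨j, hj⟩ => ⟨j, j.2, hj⟩, fun ⟨j, hj, e⟩ => ⟨⟨j, hj⟩, e⟩⟩
  obtain ⟨s, s1, s2, s3⟩ := xsposign_key (Quotient.mk (MulAction.orbitRel J I)) (fun l => y • l)
    (fun a b h => by
      obtain ⟨j, hj, rfl⟩ := (hcl a b).1 h
      refine (hcl _ _).2 ⟨y * j * y⁻¹, (Subgroup.mem_normalizer_iff.1 hn j).1 hj, ?_⟩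
      rw [smul_smul, inv_mul_cancel_right, mul_smul])
    (fun a => (hcl _ _).2 ⟨y ^ 4, h4, by
      rw [smul_smul, smul_smul, smul_smul, pow_succ, pow_succ, pow_two]⟩)
  exact ⟨s, s1, fun j hj l => s2 _ _ ((hcl _ _).2 ⟨j, hj, rfl⟩),
    fun l hl => s3 l fun e => hl ((hcl _ _).1 e)⟩

end Pool.Agent.N9181

end

section

namespace Pool.Agent.N9181

open scoped commutatorElement

theorem xspo_act {V : Type} [AddCommGroup V] [Module K V] {H : Type} [Group H]
    (ρ : Representation K H V) {I : Type} [Fintype I] [MulAction H I] (P : I → V →ₗ[K] V)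
    (hP : ∀ (h : H) (i : I) (v : V), P (h • i) (ρ h v) = ρ h (P i v)) (f : I → K) (g : H) (u : V)
    (c c' : K) (hu : ρ g u = c' • u)
    (hf : ∀ l, (f l * c') • P (g • l) u = (c * f (g • l)) • P (g • l) u) :
    ρ g (∑ l, f l • P l u) = c • ∑ l, f l • P l u := by
  rw [map_sum, Finset.smul_sum]
  refine Fintype.sum_equiv (MulAction.toPerm g) _ _ fun l => ?_
  rw [map_smul, ← hP, hu, map_smul, smul_smul, hf, MulAction.toPerm_apply, smul_smul]

theorem xspo_comp {V : Type} [AddCommGroup V] [Module K V] {I : Type} [Fintype I]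
    (W : I → Submodule K V) (P : I → V →ₗ[K] V) (h1 : ∀ i v, P i v ∈ W i)
    (h3 : ∀ i, ∀ w ∈ W i, P i w = w) (h4 : ∀ i j, i ≠ j → ∀ w ∈ W j, P i w = 0) (f : I → K)
    (u : V) (k : I) : P k (∑ l, f l • P l u) = f k • P k u := by
  rw [map_sum, Finset.sum_eq_single k]
  · rw [map_smul, h3 k _ (h1 k u)]
  · intro l _ hl
    rw [map_smul, h4 k l hl.symm _ (h1 l u), smul_zero]
  · intro h
    exact absurd (Finset.mem_univ k) h

theorem xspo_zero {V : Type} [AddCommGroup V] [Module K V] {H : Type} [Group H]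
    (ρ : Representation K H V) {I : Type} [Fintype I] [MulAction H I] (W : I → Submodule K V)
    (P : I → V →ₗ[K] V) (h1 : ∀ i v, P i v ∈ W i)
    (h3 : ∀ i, ∀ w ∈ W i, P i w = w) (h4 : ∀ i j, i ≠ j → ∀ w ∈ W j, P i w = 0)
    (hP : ∀ (h : H) (i : I) (v : V), P (h • i) (ρ h v) = ρ h (P i v)) (J : Subgroup H) (y : H)
    (hn : y ∈ Subgroup.normalizer (J : Set H)) (l : I)
    (hc : ∀ u : V, u ∈ fixS ρ J → ρ y u = (8 : K) • u → u ∈ OrbS W J l → u = 0)
    (hl : ∃ j ∈ J, j • l = y • l) (u : V) (hu : u ∈ fixS ρ J) (hy : ρ y u = (8 : K) • u) :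
    P l u = 0 := by
  classical
  obtain ⟨j0, hj0, e0⟩ := hl
  have hn' := Subgroup.mem_normalizer_iff.1 hn
  let f : I → K := fun m => if ∃ j ∈ J, j • l = m then 1 else 0
  have fJ : ∀ j ∈ J, ∀ m, f (j • m) = f m := by
    intro j hj m
    refine if_congr ⟨?_, ?_⟩ rfl rfl
    · rintro ⟨j', hj', e⟩
      exact ⟨j⁻¹ * j', J.mul_mem (J.inv_mem hj) hj', by rw [mul_smul, e, inv_smul_smul]⟩
    · rintro ⟨j', hj', e⟩
      exact ⟨j * j', J.mul_mem hj hj', by rw [mul_smul, e]⟩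
  have fy : ∀ m, f (y • m) = f m := by
    intro m
    refine if_congr ⟨?_, ?_⟩ rfl rfl
    · rintro ⟨j', hj', e⟩
      refine ⟨y⁻¹ * (j' * j0⁻¹) * y, (hn' _).2 ?_, ?_⟩
      · rw [show y * (y⁻¹ * (j' * j0⁻¹) * y) * y⁻¹ = j' * j0⁻¹ by group]
        exact J.mul_mem hj' (J.inv_mem hj0)
      · rw [mul_smul, ← e0, mul_smul, mul_smul, inv_smul_smul, e, inv_smul_smul]
    · rintro ⟨j', hj', e⟩
      refine ⟨y * j' * y⁻¹ * j0, J.mul_mem ((hn' _).1 hj') hj0, ?_⟩
      rw [mul_smul, e0, mul_smul, inv_smul_smul, mul_smul, e]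
  have hv := hc (∑ m, f m • P m u) (fun j hj => by
      have := xspo_act ρ P hP f j u 1 1 (by rw [one_smul]; exact hu j hj)
        (fun m => by rw [fJ j hj, mul_comm])
      rwa [one_smul] at this)
    (xspo_act ρ P hP f y u 8 8 hy fun m => by rw [fy, mul_comm])
    (Submodule.sum_mem _ fun m _ => by
      by_cases hm : ∃ j ∈ J, j • l = m
      · exact Submodule.smul_mem _ _ (Submodule.mem_iSup_of_mem m
          (Submodule.mem_iSup_of_mem hm (h1 m u)))
      · rw [show f m = 0 from if_neg hm, zero_smul]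
        exact Submodule.zero_mem _)
  have := xspo_comp W P h1 h3 h4 f u l
  rw [hv, map_zero, show f l = 1 from if_pos ⟨1, J.one_mem, one_smul _ _⟩, one_smul] at this
  exact this.symm

theorem po {V : Type} [AddCommGroup V] [Module K V] [Module.Finite K V]
    {H : Type} [Group H] [Finite H] (ρ : Representation K H V) {I : Type} [Fintype I] [MulAction H I] (W : I → Submodule K V) (hB : BD ρ I W) (J : Subgroup H) (y : H) (hn : y ∈ Subgroup.normalizer (J : Set H)) (h4 : y ^ 4 ∈ J) (i : I)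
    (hJi : ∀ j ∈ J, j • i = i) (hyi : y • i = i)
    (h1 : edOn (fixS ρ J) (ρ y) 5 ≤ edOn (fixS ρ J) (ρ y) 8)
    (h2 : edOn (fixS ρ J ⊓ W i) (ρ y) 8 < edOn (fixS ρ J ⊓ W i) (ρ y) 5) :
    ∃ (k : I) (u : V), k ≠ i ∧ u ≠ 0 ∧ u ∈ fixS ρ J ∧ ρ y u = (8 : K) • u ∧ u ∈ OrbS W J k := by
  classical
  by_contra hcon
  obtain ⟨P, p1, p2, p3, p4, p5⟩ := exists_proj ρ W hB
  obtain ⟨s, s1, s2, s3⟩ := po_sign (I := I) J y hn h4
  have hz : ∀ l, l ≠ i → (∃ j ∈ J, j • l = y • l) → ∀ u ∈ fixS ρ J, ρ y u = (8 : K) • u →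
      P l u = 0 := fun l hl hj u hu hy =>
    xspo_zero ρ W P p1 p3 p4 p5 J y hn l
      (fun v a b c => by_contra fun h0 => hcon ⟨l, v, hl, h0, a, b, c⟩) hj u hu hy
  let f : I → K := fun l => if l = i then 0 else s l
  have hfix : ∀ g : H, g • i = i → ∀ l : I, g • l = i ↔ l = i := fun g hg l =>
    ⟨fun e => MulAction.injective g (e.trans hg.symm), fun e => by rw [e, hg]⟩
  let φ : V →ₗ[K] V := ∑ l, f l • P l
  have hφ : ∀ u, φ u = ∑ l, f l • P l u := fun u => by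
    simp only [φ, LinearMap.sum_apply, LinearMap.smul_apply]
  have φ5 : ∀ u ∈ fixS ρ J ⊓ Module.End.eigenspace (ρ y) 8, φ u ∈ fixS ρ J ⊓ Module.End.eigenspace (ρ y) 5 := by
    rintro u ⟨hu, hy⟩
    have hy := Module.End.mem_eigenspace_iff.1 hy
    rw [hφ]
    refine ⟨fun j hj => ?_, Module.End.mem_eigenspace_iff.2 ?_⟩
    · have := xspo_act ρ P p5 f j u 1 1 (by rw [one_smul]; exact hu j hj) (fun m => by
        rw [show f (j • m) = f m from if_congr (hfix j (hJi j hj) m) rfl (s2 j hj m), mul_comm])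
      rwa [one_smul] at this
    · refine xspo_act ρ P p5 f y u 5 8 hy fun m => ?_
      by_cases hm : m = i
      · rw [show f m = 0 from if_pos hm, show f (y • m) = 0 from if_pos ((hfix y hyi m).2 hm),
          zero_mul, mul_zero]
      by_cases hj : ∃ j ∈ J, j • m = y • m
      · have e := p5 y m u
        rw [hz m hm hj u hu hy, map_zero, hy, map_smul] at e
        rw [(smul_eq_zero.1 e).resolve_left (by decide), smul_zero, smul_zero]
      · rw [show f m = s m from if_neg hm,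
          show f (y • m) = s (y • m) from if_neg fun e => hm ((hfix y hyi m).1 e), s3 m hj,
          show (8 : K) = -5 by decide]
        congr 1
        ring
  have P8 : ∀ u ∈ fixS ρ J ⊓ Module.End.eigenspace (ρ y) 8,
      P i u ∈ (fixS ρ J ⊓ W i) ⊓ Module.End.eigenspace (ρ y) 8 := by
    rintro u ⟨hu, hy⟩
    have hy := Module.End.mem_eigenspace_iff.1 hy
    refine ⟨⟨fun j hj => ?_, p1 i u⟩, Module.End.mem_eigenspace_iff.2 ?_⟩
    · rw [← p5, hJi j hj, hu j hj]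
    · rw [← p5, hyi, hy, map_smul]
  let A5 : Submodule K V := (fixS ρ J ⊓ W i) ⊓ Module.End.eigenspace (ρ y) 5
  let A8 : Submodule K V := (fixS ρ J ⊓ W i) ⊓ Module.End.eigenspace (ρ y) 8
  let B5 : Submodule K V := fixS ρ J ⊓ Module.End.eigenspace (ρ y) 5
  let B8 : Submodule K V := fixS ρ J ⊓ Module.End.eigenspace (ρ y) 8
  let T1 : (A5 × B8) →ₗ[K] B5 := LinearMap.codRestrict B5
    (A5.subtype ∘ₗ LinearMap.fst K A5 B8 + φ ∘ₗ B8.subtype ∘ₗ LinearMap.snd K A5 B8)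
    fun x => B5.add_mem ⟨x.1.2.1.1, x.1.2.2⟩ (φ5 _ x.2.2)
  let T2 : (A5 × B8) →ₗ[K] A8 := LinearMap.codRestrict A8
    (P i ∘ₗ B8.subtype ∘ₗ LinearMap.snd K A5 B8) fun x => P8 _ x.2.2
  have hinj : Function.Injective (T1.prod T2) := by
    rw [injective_iff_map_eq_zero]
    rintro ⟨a, u⟩ h
    have e1 : (a : V) + φ u = 0 := congrArg (fun z : B5 × A8 => (z.1 : V)) h
    have e2 : P i u = 0 := congrArg (fun z : B5 × A8 => (z.2 : V)) h
    have ea : (a : V) = 0 := by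
      have := congrArg (P i) e1
      rwa [map_add, map_zero, p3 i _ a.2.1.2, hφ, xspo_comp W P p1 p3 p4,
        show f i = 0 from if_pos rfl, zero_smul, add_zero] at this
    rw [ea, zero_add] at e1
    have eu : ∀ l, P l u = 0 := by
      intro l
      by_cases hl : l = i
      · rw [hl, e2]
      have := congrArg (P l) e1
      rw [map_zero, hφ, xspo_comp W P p1 p3 p4, show f l = s l from if_neg hl] at this
      refine (smul_eq_zero.1 this).resolve_left ?_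
      rcases s1 l with e | e <;> rw [e] <;> decide
    have eu' : (u : V) = 0 := by
      rw [← p2 u]
      exact Finset.sum_eq_zero fun l _ => eu l
    exact Prod.ext (Subtype.ext ea) (Subtype.ext eu')
  have hd := LinearMap.finrank_le_finrank_of_injective hinj
  rw [Module.finrank_prod, Module.finrank_prod] at hd
  have h1' : Module.finrank K B5 ≤ Module.finrank K B8 := h1
  have h2' : Module.finrank K A8 < Module.finrank K A5 := h2
  omega

theorem po_comp {V : Type} [AddCommGroup V] [Module K V] [Module.Finite K V]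
    {H : Type} [Group H] [Finite H] (ρ : Representation K H V) {I : Type} [Fintype I] [MulAction H I] (W : I → Submodule K V) (hB : BD ρ I W) (J : Subgroup H) (y : H) (k : I) (u : V) (h0 : u ≠ 0)
    (hu : u ∈ fixS ρ J) (hyu : ρ y u = (8 : K) • u) (hk : u ∈ OrbS W J k) :
    ∃ (l : I) (j : H) (u' : V), j ∈ J ∧ u' ∈ W l ∧ u' ≠ 0 ∧ ρ (y * j) u' = (8 : K) • u' := by
  obtain ⟨P, p1, p2, -, p4, p5⟩ := exists_proj ρ W hB
  have hA : ∀ l, P l u ≠ 0 → ∃ j ∈ J, j • k = l := by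
    intro l hl
    by_contra hc
    have : OrbS W J k ≤ LinearMap.ker (P l) :=
      iSup_le fun m => iSup_le fun hm w hw => p4 l m (fun e => hc (e ▸ hm)) w hw
    exact hl (this hk)
  obtain ⟨l, hl⟩ : ∃ l, P l u ≠ 0 := by
    by_contra hc
    apply h0
    rw [← p2 u]
    exact Finset.sum_eq_zero fun l _ => by_contra fun h => hc ⟨l, h⟩
  have e : ρ y (P (y⁻¹ • l) u) = (8 : K) • P l u := by
    rw [← p5, smul_inv_smul, hyu, map_smul]
  obtain ⟨j1, hj1, e1⟩ := hA l hl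
  obtain ⟨j2, hj2, e2⟩ := hA (y⁻¹ • l) fun h => by
    rw [h, map_zero] at e
    exact hl ((smul_eq_zero.1 e.symm).resolve_left (by decide))
  have hj := J.mul_mem hj2 (J.inv_mem hj1)
  refine ⟨l, j2 * j1⁻¹, P l u, hj, p1 l u, hl, ?_⟩
  rw [rho_mul, ← p5 (j2 * j1⁻¹), hu _ hj, ← e, ← e2, ← e1, mul_smul, inv_smul_smul]

end Pool.Agent.N9181

end

section

namespace Pool.Agent.N9181

open scoped commutatorElement

theorem xskill3_end {V : Type} [AddCommGroup V] [Module K V] [Module.Finite K V]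
    {H : Type} [Group H] [Finite H] (ρ : Representation K H V) (E : Subgroup H) (hn : E.Normal)
    (h3 : ∀ f ∈ E, f ^ 3 = 1) (f h : H) (hf : f ∈ E) (u : V) (h0 : u ≠ 0)
    (h8 : ρ h u = (8 : K) • u) (h5 : ρ h (ρ f u) = (5 : K) • ρ f u) : False := by
  have hg : f * (h * f⁻¹ * h⁻¹) ∈ E := mul_mem hf (hn.conj_mem _ (inv_mem hf) h)
  have e1 : ρ (f * (h * f⁻¹ * h⁻¹)) (ρ h (ρ f u)) = (8 : K) • ρ f u := by
    rw [rho_mul, rho_mul, rho_mul, rho_inv, rho_inv, h8, map_smul]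
  have e2 : ρ (f * (h * f⁻¹ * h⁻¹)) (ρ f u) = (-1 : K) • ρ f u := by
    rw [h5, map_smul] at e1
    have e3 := congrArg (fun v => (8 : K) • v) e1
    simp only [smul_smul] at e3
    rwa [show (8 : K) * 5 = 1 by decide, show (8 : K) * 8 = -1 by decide, one_smul] at e3
  have e4 := rho_pow_eig ρ _ _ _ e2 3
  rw [h3 _ hg, map_one, Module.End.one_apply] at e4
  have e5 : ((1 : K) - (-1) ^ 3) • ρ f u = 0 := by rw [sub_smul, one_smul, ← e4, sub_self]
  have e6 : ρ f u = 0 := (smul_eq_zero.1 e5).resolve_left (by decide)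
  apply h0
  rw [← rho_inv ρ f u, e6, map_zero]

theorem xskill3_lt {V : Type} [AddCommGroup V] [Module K V] [Module.Finite K V]
    (T : Submodule K V) (a : Module.End K V) (h : ∀ v ∈ T, a v = (5 : K) • v)
    (h3 : Module.finrank K T = 3) : edOn T a 8 < edOn T a 5 := by
  have e1 : T ⊓ a.eigenspace 5 = T :=
    inf_eq_left.2 fun v hv => Module.End.mem_eigenspace_iff.2 (h v hv)
  have e2 : T ⊓ a.eigenspace 8 = ⊥ := by
    rw [eq_bot_iff]
    rintro v ⟨hv, h8⟩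
    have h8 := Module.End.mem_eigenspace_iff.1 h8
    have : ((8 : K) - 5) • v = 0 := by rw [sub_smul, ← h8, h v hv, sub_self]
    exact (smul_eq_zero.1 this).resolve_left (by decide)
  rw [edOn, edOn, e1, e2, h3, finrank_bot]
  norm_num

theorem kill3 {V : Type} [AddCommGroup V] [Module K V] [Module.Finite K V]
    {H : Type} [Group H] [Finite H] [Group.IsSolvable H] (ρ : Representation K H V) (hE5 : HEP ρ 5) (hK : DK ρ) (E : Subgroup H) (hE : EH ρ 3 3 E) (L : Subgroup H) (X Z : H)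
    (hH : HS ρ 3 3 1 E L X Z) (h3 : Module.finrank K (fixS ρ L) = 3) : False := by
  obtain ⟨m, h0, hm, hZ1⟩ := hH.ex
  have hZ : ρ Z m = m := by rwa [one_smul] at hZ1
  obtain ⟨hw, hw0, hsl⟩ := hs_sl3 ρ E hE L X Z hH m hm h0 hZ
  have hT := (hs_t3 ρ E hE L X Z hH m hm h0 hZ).2 h3
  obtain ⟨J, -, hJ⟩ := m3_exists ⊥ (stabV ρ (w3 ρ X m)) bot_le (by simp)
  obtain ⟨y, hy⟩ := exists_val ρ hE5 _ J hJ
  have hJc : ∀ j ∈ J, j ∈ Subgroup.normalizer (L : Set H) ∧ ∀ v ∈ fixS ρ L, ρ j v = v :=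
    fun j hj => by
    have := h3_cen ρ E hE L X Z hH m hm h0 hZ j
      (fun h => hJ.2.1 (h.trans (Subgroup.orderOf_dvd_natCard J hj))) 1
      (by rw [one_smul]; exact hJ.1 hj)
    rw [hT] at this
    simpa only [one_smul] using this
  have hyc : y ∈ Subgroup.normalizer (L : Set H) ∧ ∀ v ∈ fixS ρ L, ρ y v = (5 : K) • v := by
    obtain ⟨a, ha⟩ := hy.2.1
    have := h3_cen ρ E hE L X Z hH m hm h0 hZ y (fun h => by
      have := Nat.prime_three.dvd_of_dvd_pow (h.trans (orderOf_dvd_of_pow_eq_one ha))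
      omega) 5 hy.2.2
    rwa [hT] at this
  rcases hK _ J y hw0 hJ hy with h | h
  · obtain ⟨k, hk⟩ := h m (fun j hj => (hJc j hj).2 m hm) h0 (hyc.2 m hm)
    exact hs_nc ρ 3 3 3 (Or.inr ⟨rfl, rfl, rfl⟩) E hE 1 L X Z hH _ hw hw0 hsl m hm 1 hZ1 k 1
      (by rw [one_smul]; exact hk)
  obtain ⟨_, _, -, hB⟩ := sbd_bd _ _ (eb ρ L (Subgroup.normalizer (L : Set H)) hH.cL
    (fun b hb => by rw [show 12 = 3 * 4 from rfl, pow_mul, hH.pL b hb, one_pow]) le_rfl)
  let i : eigS ρ L := ⟨fixS ρ L, fix_eigS ρ L fun e => h0 (by rwa [e] at hm)⟩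
  have hi : ∀ g : Subgroup.normalizer (L : Set H), g • i = i := fun g =>
    blk_eq _ _ hB i i g m hm h0 (fix_norm ρ L g g.2 m hm)
  have hfix : fixS (V := V) (ρ.comp (Subgroup.normalizer (L : Set H)).subtype)
      (J.subgroupOf (Subgroup.normalizer (L : Set H))) = fixS ρ J := by
    ext v
    exact ⟨fun hv j hj => hv ⟨j, (hJc j hj).1⟩ hj, fun hv j hj => hv j hj⟩
  have hinf : fixS ρ J ⊓ fixS ρ L = fixS ρ L :=
    inf_eq_right.2 fun v hv j hj => (hJc j hj).2 v hv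
  obtain ⟨k, u, -, hu0, hu, hyu, hk⟩ := po _ _ hB
    (J.subgroupOf (Subgroup.normalizer (L : Set H))) ⟨y, hyc.1⟩
    (Subgroup.le_normalizer_comap (Subgroup.normalizer (L : Set H)).subtype hy.1)
    (val_pow4 ρ _ J hJ y hy) i (fun j _ => hi j) (hi _) (by rw [hfix]; exact h)
    (by rw [hfix]; exact hinf.symm ▸ xskill3_lt _ _ hyc.2 h3)
  obtain ⟨l, j, u', hj, hl, hu', h8⟩ := po_comp _ _ hB _ _ k u hu0 hu hyu hk
  obtain ⟨χ, hχ⟩ := l.2.2
  obtain ⟨f, hf, hfu⟩ := hH.tr u' fun b hb => ⟨χ b, (hχ u').1 hl b hb⟩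
  refine xskill3_end ρ E hE.nE hE.pw f (y * j) hf u' hu' h8 ?_
  rw [rho_mul, (hJc j hj).2 _ hfu, hyc.2 _ hfu]

end Pool.Agent.N9181

end

section

namespace Pool.Agent.N9181

open scoped commutatorElement

theorem kill_cnt {V : Type} [AddCommGroup V] [Module K V] [Module.Finite K V]
    {H : Type} [Group H] [Finite H] [Group.IsSolvable H] (ρ : Representation K H V) (hinj : Function.Injective ρ) (hE5 : HEP ρ 5) (hK : DK ρ) (w : V) (h0 : w ≠ 0)
    (hr : ∀ (h : H) (c : K), ¬ 3 ∣ orderOf h → ρ h w = c • w → h ∈ scal ρ)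
    (hc : Nat.card H < 13 ^ Module.finrank K V - 1) : False := by
  obtain ⟨J, -, hJ⟩ := m3_exists ⊥ (stabV ρ w) bot_le (by simp)
  obtain ⟨y, hy⟩ := exists_val ρ hE5 w J hJ
  have hT : fixS ρ J = ⊤ := by
    refine eq_top_iff.2 fun v _ j hj => ?_
    have h1 : ρ j w = w := hJ.1 hj
    obtain ⟨c, -, hc⟩ := hr j 1 (fun h => hJ.2.1 (h.trans (J.orderOf_dvd_natCard hj)))
      (by rw [h1, one_smul])
    have h2 : c = 1 := smul_left_injective K h0 (by
      show c • w = (1 : K) • w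
      rw [← hc, h1, one_smul])
    rw [hc, h2, one_smul]
  have hy5 : ∀ v, ρ y v = (5 : K) • v := by
    obtain ⟨a, ha⟩ := hy.2.1
    obtain ⟨c, -, hc⟩ := hr y 5 (fun h => by
      have := Nat.prime_three.dvd_of_dvd_pow (h.trans (orderOf_dvd_of_pow_eq_one ha))
      omega) hy.2.2
    have h2 : c = 5 := smul_left_injective K h0 (by
      show c • w = (5 : K) • w
      rw [← hc, hy.2.2])
    intro v
    rw [hc, h2]
  rcases hK w J y h0 hJ hy with h | h
  · obtain ⟨hfin, hcard⟩ := card_sub (⊤ : Submodule K V)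
    rw [finrank_top, Nat.card_congr Submodule.topEquiv.toEquiv] at hcard
    let f : H → {v : V // v ≠ 0} := fun k => ⟨ρ k w, fun e => h0 (by
      rw [← rho_inv ρ k w, e, map_zero])⟩
    have hs : Function.Surjective f := fun v => by
      obtain ⟨k, hk⟩ := h v (hT ▸ Submodule.mem_top) v.2 (hy5 v)
      exact ⟨k, Subtype.ext hk⟩
    have h1 := Nat.card_le_card_of_surjective f hs
    have h2 : Nat.card {v : V // v ≠ 0} + 1 = Nat.card V := by
      classical
      have := Fintype.ofFinite V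
      rw [Nat.card_eq_fintype_card, Nat.card_eq_fintype_card, Fintype.card_subtype_compl,
        Fintype.card_subtype_eq]
      have := Fintype.card_pos (α := V)
      omega
    omega
  · have h1 : 0 < edOn (fixS ρ J) (ρ y) 5 :=
      (edOn_pos _ _ _).2 ⟨w, hT ▸ Submodule.mem_top, h0, hy5 w⟩
    obtain ⟨u, -, hu0, hu⟩ := (edOn_pos (fixS ρ J) (ρ y) 8).1 (by omega)
    rw [hy5] at hu
    exact absurd (smul_left_injective K hu0 hu) (by decide)

end Pool.Agent.N9181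

end

section

namespace Pool.Agent.N9181

open scoped commutatorElement

theorem kill2 {V : Type} [AddCommGroup V] [Module K V] [Module.Finite K V]
    {H : Type} [Group H] [Finite H] [Group.IsSolvable H] (ρ : Representation K H V) (N : ℕ) (A F : Subgroup H) (hG : GB ρ N A F) (e : ℕ) (he : A.relIndex F = e ^ 2) (h2 : 2 ∣ e) (hE5 : HEP ρ 5) (hK : DK ρ) (hI : DIH (Module.finrank K V) N) : False := by
  have he0 : e ≠ 0 := by
    rintro rfl
    exact Subgroup.FiniteIndex.index_ne_zero (H := A.subgroupOf F) (by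
      simpa [Subgroup.relIndex] using he)
  obtain ⟨E, -, hE, hi⟩ := exists_EH ρ N A F hG e he 2 4 (Or.inl ⟨rfl, rfl⟩)
  have hne : (scal ρ).relIndex E ≠ 1 := by
    rw [hi, Ne, Nat.pow_eq_one, Nat.pow_eq_one]
    have := Nat.prime_two.factorization_pos_of_dvd he0 h2
    omega
  obtain ⟨ζ, L, X, Z, hH, -⟩ := hs_rep ρ 2 4 (-1) (Or.inl ⟨rfl, rfl, rfl⟩) E hE hne
  obtain ⟨J, B, C, hD⟩ := h2_data ρ E hE ζ L X Z hH
  obtain ⟨τ, hτ⟩ := exists_res ρ B C (h2_inv ρ E hE ζ L X Z hH J B C hD)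
  have hC := h2_clb ρ hG.cop N hG.dvd hG.pos hG.sq hE5 hK E hE ζ L X Z hH J B C hD τ hτ
  have hC0 : ∃ v : C, v ≠ 0 := by
    obtain ⟨v, hv, h0⟩ := Submodule.exists_mem_ne_zero_of_ne_bot hD.ne
    exact ⟨⟨v, hv⟩, fun e => h0 (congrArg Subtype.val e)⟩
  obtain ⟨a, b, g, p1, p2, p3, p4, p5⟩ := mono_pair τ hC.ep hC0
    (hI C B τ (h2_lt ρ E hE ζ L X Z hH J B C hD) hC hC0)
  refine h2_fin ρ hE5 E hE ζ L X Z hH J B C hD a b a.2 b.2
    (fun x y h => p1 x y (Subtype.ext h)) g g.2 ?_ ?_ (fun h hh h1 h2 => ?_) fun h hh h1 h2 => ?_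
  · rw [← hτ, p2]; rfl
  · rw [← hτ, p3]; rfl
  · exact p4 ⟨h, hh⟩ (Subtype.ext ((hτ ⟨h, hh⟩ a).trans h1)) (Subtype.ext ((hτ ⟨h, hh⟩ b).trans h2))
  · have key : ∀ v : C, ρ h v ∈ Submodule.span K {(a : V), (b : V)} →
        τ ⟨h, hh⟩ v ∈ Submodule.span K {a, b} := fun v hv => by
      obtain ⟨x, y, e⟩ := Submodule.mem_span_pair.1 hv
      exact Submodule.mem_span_pair.2 ⟨x, y, Subtype.ext (e.trans (hτ ⟨h, hh⟩ v).symm)⟩
    rcases p5 ⟨h, hh⟩ (key a h1) (key b h2) with ⟨x, y, e1, e2⟩ | ⟨x, y, e1, e2⟩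
    · exact Or.inl ⟨x, y, (hτ ⟨h, hh⟩ a).symm.trans (congrArg Subtype.val e1),
        (hτ ⟨h, hh⟩ b).symm.trans (congrArg Subtype.val e2)⟩
    · exact Or.inr ⟨x, y, (hτ ⟨h, hh⟩ a).symm.trans (congrArg Subtype.val e1),
        (hτ ⟨h, hh⟩ b).symm.trans (congrArg Subtype.val e2)⟩

theorem kill {V : Type} [AddCommGroup V] [Module K V] [Module.Finite K V]
    {H : Type} [Group H] [Finite H] [Group.IsSolvable H] (ρ : Representation K H V) (N : ℕ) (A F : Subgroup H) (hG : GB ρ N A F) (hE5 : HEP ρ 5) (hK : DK ρ) (hI : DIH (Module.finrank K V) N) : Module.finrank K V = 1 := by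
  obtain ⟨e, he0, he, hed, hp⟩ := gb_e ρ N A F hG
  by_cases h2 : 2 ∣ e
  · exact (kill2 ρ N A F hG e he h2 hE5 hK hI).elim
  have ho : Odd e := Nat.odd_iff.2 (by omega)
  by_cases hd : 2 * e ≤ Module.finrank K V
  · obtain ⟨⟨w, w0, hw⟩, hc⟩ := regD ρ N A F hG e he ho hd
    exact (kill_cnt ρ hG.inj hE5 hK w w0 hw hc).elim
  have hd0 : 0 < Module.finrank K V := Module.finrank_pos_iff_exists_ne_zero.2 hG.ne
  have hde : Module.finrank K V = e := by
    obtain ⟨c, hc⟩ := hed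
    have h1 : c = 1 := by
      rcases c with _ | _ | c
      · omega
      · rfl
      · exact absurd (by rw [hc]; nlinarith) hd
    rw [hc, h1, mul_one]
  obtain ⟨g, hg⟩ := lam ρ N A F hG e he
  rw [hde] at hg
  obtain ⟨h12, -, -⟩ := gb_one ρ N A F hG e g he0 hg
  have h3 : e = 3 ^ e.primeFactorsList.length := by
    refine Nat.eq_prime_pow_of_unique_prime_dvd he0.ne' fun {p} pp hpe => ?_
    have h4 : p ∣ 2 ^ 2 * 3 := (hp p pp hpe).trans h12
    rcases (Nat.Prime.dvd_mul pp).1 h4 with h | h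
    · have := (Nat.prime_dvd_prime_iff_eq pp Nat.prime_two).1 (pp.dvd_of_dvd_pow h)
      exact absurd (this ▸ hpe) h2
    · exact (Nat.prime_dvd_prime_iff_eq pp Nat.prime_three).1 h
  generalize e.primeFactorsList.length = k at h3
  rcases k with _ | k
  · rw [hde, h3, pow_zero]
  exfalso
  obtain ⟨E, -, hE, hi⟩ := exists_EH ρ N A F hG e he 3 3 (Or.inr ⟨rfl, rfl⟩)
  rw [h3, Nat.Prime.factorization_pow Nat.prime_three, Finsupp.single_eq_same] at hi
  obtain ⟨ζ, L, X, Z, hH, hζ⟩ := hs_rep ρ 3 3 3 (Or.inr ⟨rfl, rfl, rfl⟩) E hE (by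
    rw [hi, Ne, Nat.pow_eq_one, Nat.pow_eq_one]
    omega)
  obtain rfl := hζ rfl
  have h5 : Nat.card L = 3 ^ k := by
    have h6 := hH.sz
    rw [hi, pow_succ' 3 k, mul_pow] at h6
    exact (Nat.pow_left_injective two_ne_zero (Nat.eq_of_mul_eq_mul_left (by norm_num) h6)).symm
  refine kill3 ρ hE5 hK E hE L X Z hH ?_
  have h7 := hH.dim
  rw [hde, h3, h5, pow_succ] at h7
  exact (Nat.eq_of_mul_eq_mul_left (by positivity) h7).symm

end Pool.Agent.N9181

end

section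

namespace Pool.Agent.N9181

open scoped commutatorElement

theorem xsdka_pow {G : Type} [Group G] (J : Subgroup G) (y j : G)
    (hy : y ∈ Subgroup.normalizer (J : Set G)) (hj : j ∈ J) (e : ℕ) :
    ∃ j' ∈ J, (y * j) ^ e = y ^ e * j' := by
  induction e with
  | zero => exact ⟨1, one_mem _, by simp⟩
  | succ e ih =>
    obtain ⟨k, hk, h⟩ := ih
    refine ⟨y⁻¹ * k * y * j, mul_mem ?_ hj, ?_⟩
    · have := (Subgroup.mem_normalizer_iff.1 (inv_mem hy) k).1 hk
      rwa [inv_inv] at this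
    · rw [pow_succ, h, pow_succ]
      group

theorem xsdka_ed {V : Type} [AddCommGroup V] [Module K V] (U : Submodule K V)
    (a b : Module.End K V) (h : ∀ v ∈ U, a v = b v) (c : K) : edOn U a c = edOn U b c := by
  have : U ⊓ a.eigenspace c = U ⊓ b.eigenspace c := by
    ext v
    simp only [Submodule.mem_inf, Module.End.mem_eigenspace_iff]
    exact and_congr_right fun hv => by rw [h v hv]
  rw [edOn, edOn, this]

theorem fb_ep {V : Type} [AddCommGroup V] [Module K V] [Module.Finite K V]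
    {H : Type} [Group H] [Finite H] (ρ : Representation K H V) {I : Type} [Fintype I] [MulAction H I] (W : I → Submodule K V) (hB : BD ρ I W) (i : I) {H' : Type} [Group H'] [Finite H'] (π : MulAction.stabilizer H i →* H')
    (σ : Representation K H' (W i)) (hF : FB ρ W i π σ) (c : K) (hc : c ≠ 0) (hE : HEP ρ c) : HEP σ c := by
  intro v
  by_cases hv : v = 0
  · exact ⟨1, by rw [hv, map_zero, smul_zero]⟩
  obtain ⟨h, hh⟩ := hE v
  have hi : h • i = i := blk_eq ρ W hB i i h v v.2 (fun e => hv (Subtype.ext e))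
    (by rw [hh]; exact (W i).smul_mem c v.2)
  exact ⟨π ⟨h, hi⟩, Subtype.ext ((hF.res ⟨h, hi⟩ v).trans hh)⟩

theorem val_lift {V : Type} [AddCommGroup V] [Module K V] [Module.Finite K V]
    {H : Type} [Group H] [Finite H] [Group.IsSolvable H] (ρ : Representation K H V) {I : Type} [Fintype I] [MulAction H I] (W : I → Submodule K V) (hB : BD ρ I W) (i : I) {H' : Type} [Group H'] [Finite H'] (π : MulAction.stabilizer H i →* H')
    (σ : Representation K H' (W i)) (hF : FB ρ W i π σ) (w : W i) (h0 : w ≠ 0) (J' : Subgroup H')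
    (hJ' : M3 J' (stabV σ w)) (y' : H') (hy' : Val σ J' w y') :
    ∃ (J : Subgroup H) (y : H), M3 J (stabV ρ (w : V)) ∧ Val ρ J (w : V) y ∧
      (∀ j ∈ J, j • i = i) ∧ y • i = i ∧
      (∀ v : W i, v ∈ fixS σ J' ↔ (v : V) ∈ fixS ρ J) ∧
      (∀ v ∈ fixS σ J', (σ y' v : V) = ρ y v) ∧
      ∀ c : K, edOn (fixS ρ J ⊓ W i) (ρ y) c = edOn (fixS σ J') (σ y') c := by
  obtain ⟨J0, h1, h2, h3⟩ := m3_lift π hF.surj J' (stabV σ w) hJ'
  have hmap : ((stabV σ w).comap π).map (MulAction.stabilizer H i).subtype = stabV ρ (w : V) := by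
    ext h
    constructor
    · rintro ⟨t, ht, rfl⟩
      have ht' : σ (π t) w = w := ht
      exact (hF.res t w).symm.trans (congrArg Subtype.val ht')
    · intro hh
      have hh' : ρ h w = w := hh
      have hi : h • i = i := blk_eq ρ W hB i i h w w.2 (fun e => h0 (Subtype.ext e))
        (by rw [hh']; exact w.2)
      exact ⟨⟨h, hi⟩, Subtype.ext ((hF.res ⟨h, hi⟩ w).trans hh'), rfl⟩
  obtain ⟨t, rfl⟩ := hF.surj y'
  obtain ⟨hn, ⟨a', ha'⟩, hw5⟩ := hy'
  have ht : t ∈ Subgroup.normalizer ((J'.comap π : Subgroup _) : Set (MulAction.stabilizer H i)) :=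
    Subgroup.le_normalizer_comap π hn
  obtain ⟨c, hc, htc⟩ := m3_frat J0 _ h2 t ht
  obtain ⟨e, a, he1, he2, -⟩ := p_part 2 Nat.prime_two (t * c)
  obtain ⟨j', hj', hpow⟩ := xsdka_pow J' (π t) (π c) hn hc e
  have hy : π t ^ e = π t := by
    obtain ⟨b, -, hb⟩ := (Nat.dvd_prime_pow Nat.prime_two).1 (orderOf_dvd_of_pow_eq_one ha')
    refine xbasic_pow _ (2 ^ b) _ (by rw [← hb, pow_orderOf_eq_one]) (he2 b ?_)
    rw [← hb]
    exact (orderOf_dvd_natCard _).trans (Subgroup.card_dvd_of_surjective π hF.surj)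
  have hact : ∀ v ∈ fixS σ J', σ (π ((t * c) ^ e)) v = σ (π t) v := fun v hv => by
    rw [map_pow, map_mul, hpow, hy, rho_mul, hv j' hj']
  have hact' : ∀ v ∈ fixS σ J', (σ (π t) v : V) = ρ ((t * c) ^ e : MulAction.stabilizer H i) v :=
    fun v hv => by rw [← hact v hv, hF.res]
  have hfix : ∀ v : W i, v ∈ fixS σ J' ↔
      (v : V) ∈ fixS ρ (J0.map (MulAction.stabilizer H i).subtype) := fun v => by
    rw [← h3]
    constructor
    · rintro hv _ ⟨j, hj, rfl⟩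
      exact (hF.res j v).symm.trans (congrArg Subtype.val (hv _ ⟨j, hj, rfl⟩))
    · rintro hv _ ⟨j, hj, rfl⟩
      exact Subtype.ext ((hF.res j v).trans (hv _ ⟨j, hj, rfl⟩))
  refine ⟨J0.map (MulAction.stabilizer H i).subtype,
    ((t * c) ^ e : MulAction.stabilizer H i), ?_, ⟨?_, ⟨a, ?_⟩, ?_⟩, ?_, ((t * c) ^ e).2, hfix,
    hact', fun d => ?_⟩
  · rw [← hmap]
    exact (m3_inj _ (Subgroup.subtype_injective _) _ _).2 h1
  · exact Subgroup.le_normalizer_map _ ⟨_, pow_mem htc e, rfl⟩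
  · exact congrArg Subtype.val he1
  · rw [← hact' w fun j hj => hJ'.1 hj, hw5]
    rfl
  · rintro _ ⟨j, -, rfl⟩
    exact j.2
  · rw [← xsdka_ed _ _ _ hact d, edOn_res (W i) _ _ (hF.res ((t * c) ^ e)) _ d]
    congr 1
    ext v
    constructor
    · rintro ⟨h4, h5⟩
      exact ⟨⟨v, h5⟩, (hfix _).2 h4, rfl⟩
    · rintro ⟨u, hu, rfl⟩
      exact ⟨(hfix u).1 hu, u.2⟩

end Pool.Agent.N9181

end

section

namespace Pool.Agent.N9181

open scoped commutatorElement

theorem ext_partner {V : Type} [AddCommGroup V] [Module K V] [Module.Finite K V]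
    {H : Type} [Group H] [Finite H] [Group.IsSolvable H] (ρ : Representation K H V) (hE5 : HEP ρ 5) {I : Type} [Fintype I] [MulAction H I] (W : I → Submodule K V) (hB : BD ρ I W) (i : I) (w : V) (J : Subgroup H) (hJ : M3 J (stabV ρ w)) (y : H) (hy : Val ρ J w y) (hw : w ∈ W i) (hw0 : w ≠ 0)
    (k : I) (hk : k ≠ i) (u : V) (h0 : u ≠ 0) (hu : u ∈ fixS ρ J) (hyu : ρ y u = (8 : K) • u)
    (ho : u ∈ OrbS W J k) :
    ∃ (l : I) (g : H), l ≠ i ∧ u ∈ W l ∧ ρ g w = (5 : K) • u ∧ ρ g u = (5 : K) • w := by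
  obtain ⟨P, p1, p2, p3, p4, p5⟩ := exists_proj ρ W hB
  have hJw : ∀ j ∈ J, ρ j w = w := fun j hj => hJ.1 hj
  have hJv : ∀ j ∈ J, ρ j (w + u) = w + u := fun j hj => by rw [map_add, hJw j hj, hu j hj]
  have tr : ∀ l l', (∃ j ∈ J, j • k = l) → (∃ j ∈ J, j • k = l') → ∃ j ∈ J, j • l = l' := by
    rintro _ _ ⟨j, hj, rfl⟩ ⟨j', hj', rfl⟩
    exact ⟨j' * j⁻¹, J.mul_mem hj' (J.inv_mem hj), by rw [mul_smul, inv_smul_smul]⟩
  have hiO : ¬ ∃ j ∈ J, j • k = i := fun h => by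
    obtain ⟨j, hj, e⟩ := tr i k h ⟨1, J.one_mem, one_smul _ _⟩
    exact hk (e.symm.trans (blk_eq ρ W hB i i j w hw hw0 ((hJw j hj).symm ▸ hw)))
  have hP0 : ∀ l, (¬ ∃ j ∈ J, j • k = l) → P l u = 0 := fun l hl =>
    (show OrbS W J k ≤ LinearMap.ker (P l) from
      iSup₂_le fun l' hl' x hx => p4 l l' (fun e => hl (e ▸ hl')) x hx) ho
  have hP1 : ∀ l, (∃ j ∈ J, j • k = l) → P l u ≠ 0 := fun l hl e => h0 (by
    rw [← p2 u]
    refine Finset.sum_eq_zero fun l' _ => by_contra fun h => ?_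
    obtain ⟨j, hj, rfl⟩ := tr l l' hl (by_contra fun h' => h (hP0 l' h'))
    exact h (by rw [← hu j hj, p5, e, map_zero]))
  have hPi : P i (w + u) = w := by rw [map_add, p3 i w hw, hP0 i hiO, add_zero]
  have hPl : ∀ l, l ≠ i → P l (w + u) = P l u := fun l hl => by
    rw [map_add, p4 l i hl w hw, zero_add]
  have hfix : ∀ (n : H) (c : K), ρ n (w + u) = c • (w + u) → n • i = i →
      ρ n w = c • w ∧ ρ n u = c • u := fun n c hn hi => by
    have h1 := p5 n i (w + u)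
    rw [hi, hn, map_smul, hPi] at h1
    rw [map_add, smul_add, ← h1] at hn
    exact ⟨h1.symm, add_left_cancel hn⟩
  obtain ⟨g, hg⟩ := hE5 (w + u)
  have hgi : g • i ≠ i := fun e =>
    partner ρ w J hJ y hy u hu h0 hyu g (hfix g 5 hg e).1 (hfix g 5 hg e).2
  have hs : ∀ l, P (g • l) (w + u) = 0 ↔ P l (w + u) = 0 := fun l => by
    have h1 := p5 g l (w + u)
    rw [hg, map_smul] at h1
    refine ⟨fun e => ?_, fun e => ?_⟩
    · rw [← rho_inv ρ g (P l (w + u)), ← h1, e, smul_zero, map_zero]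
    · rw [e, map_zero] at h1
      exact (smul_eq_zero.1 h1).resolve_left (by decide)
  have hO : ∀ l, l ≠ i → P l (w + u) ≠ 0 → ∃ j ∈ J, j • k = l := fun l hl h =>
    by_contra fun h' => h ((hPl l hl).trans (hP0 l h'))
  have hk0 : g⁻¹ • i ≠ i := fun e => hgi (inv_smul_eq_iff.1 e).symm
  have o1 := hO _ hgi (mt (hs i).1 (hPi.symm ▸ hw0))
  have o0 := hO _ hk0 (mt (hs _).2 (by rw [smul_inv_smul, hPi]; exact hw0))
  have huq : ∀ l, (∃ j ∈ J, j • k = l) → l = g⁻¹ • i := fun l hl => by_contra fun hne => by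
    have h1 : l ≠ i := fun e => hiO (e ▸ hl)
    obtain ⟨j, hj, e⟩ := tr _ _ o1 hl
    obtain ⟨j', hj', e'⟩ := tr _ _ (hO (g • l) (fun e => hne (eq_inv_smul_iff.2 e))
      (mt (hs l).1 ((hPl l h1).symm ▸ hP1 l hl))) o0
    obtain ⟨h2, h3⟩ := hfix (g * j' * g * j * g) (5 * 5 * 5)
      (by simp only [rho_mul, hg, map_smul, hJv j hj, hJv j' hj', smul_smul, mul_assoc (5 : K)])
      (by simp only [mul_smul, e, e', smul_inv_smul])
    have h4 : (5 * 5 * 5 : K) ^ 3 = 5 := by decide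
    exact partner ρ w J hJ y hy u hu h0 hyu _ (h4 ▸ rho_pow_eig ρ _ w _ h2 3)
      (h4 ▸ rho_pow_eig ρ _ u _ h3 3)
  have hu0 : u ∈ W (g⁻¹ • i) := by
    rw [← p2 u, Finset.sum_eq_single (g⁻¹ • i) (fun l _ hl => hP0 l fun h => hl (huq l h))
      fun h => absurd (Finset.mem_univ _) h]
    exact p1 _ _
  rcases pair_act ρ W hB i _ hk0.symm w u _ _ hw hu0 (Submodule.smul_mem _ 5 hw)
    (Submodule.smul_mem _ 5 hu0) hw0 h0 g (hg.trans (smul_add _ _ _)) with h | h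
  · exact absurd h.1 hgi
  · exact ⟨_, g, hk0, hu0, h.2.2⟩

end Pool.Agent.N9181

end

section

namespace Pool.Agent.N9181

open scoped commutatorElement

theorem xsdkb_cancel {V : Type} [AddCommGroup V] [Module K V] (a : Module.End K V) (w : V)
    (c d : K) (h0 : c • w ≠ 0) (h : a (c • w) = d • c • w) : a w = d • w := by
  rw [map_smul, smul_comm d c] at h
  exact smul_right_injective V (left_ne_zero_of_smul h0) h

theorem dk {V : Type} [AddCommGroup V] [Module K V] [Module.Finite K V]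
    {H : Type} [Group H] [Finite H] [Group.IsSolvable H] (ρ : Representation K H V) (N : ℕ) (hC : ClB ρ N) {I : Type} [Fintype I] [MulAction H I] (W : I → Submodule K V) (hB : BD ρ I W) (i : I) {H' : Type} [Group H'] [Finite H'] (π : MulAction.stabilizer H i →* H')
    (σ : Representation K H' (W i)) (hF : FB ρ W i π σ) : HEP σ 5 ∧ DK σ := by
  refine ⟨fb_ep ρ W hB i π σ hF 5 (by decide) hC.ep, fun w J' y' h0 hJ' hy' => ?_⟩
  obtain ⟨J, y, hJ, hy, hJi, hyi, hfix, hact, hed⟩ := val_lift ρ W hB i π σ hF w h0 J' hJ' y' hy'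
  refine or_iff_not_imp_right.2 fun hlt w' hw' hw0' hy5 => ?_
  have hw0 : (w : V) ≠ 0 := fun h => h0 (Subtype.ext h)
  have hw1 : (w' : V) ≠ 0 := fun h => hw0' (Subtype.ext h)
  obtain ⟨k, u, hk, hu0, hu, hyu, ho⟩ := po ρ W hB J y hy.1 (val_pow4 ρ w J hJ y hy) i hJi hyi
    (hC.bal w J y hw0 hJ hy).le (by rw [hed, hed]; exact not_le.1 hlt)
  obtain ⟨l, g, hl, hul, hg, -⟩ := ext_partner ρ hC.ep W hB i w J hJ y hy w.2 hw0 k hk u hu0 hu hyu ho
  have hJu := m3_move ρ w J hJ u hu g 5 (by decide) hg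
  have hy3 : Val ρ J u (y ^ 3) := by
    obtain ⟨a, ha⟩ := hy.2.1
    refine ⟨Subgroup.pow_mem _ hy.1 3, ⟨a, by rw [pow_right_comm, ha, one_pow]⟩, ?_⟩
    rw [rho_pow_eig ρ y u 8 hyu 3, show (8 : K) ^ 3 = 5 by decide]
  have hyw' : ρ y (w' : V) = (5 : K) • (w' : V) := by
    rw [← hact w' hw', hy5]
    rfl
  have hyw3 : ρ (y ^ 3) (w' : V) = (8 : K) • (w' : V) := by
    rw [rho_pow_eig ρ y _ 5 hyw' 3, show (5 : K) ^ 3 = 8 by decide]
  obtain ⟨g', hg'⟩ := hC.ep (u + w')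
  rw [smul_add] at hg'
  rcases pair_act ρ W hB l i hl u w' _ _ hul w'.2 ((W l).smul_mem _ hul) ((W i).smul_mem _ w'.2)
    hu0 hw1 g' hg' with ⟨-, -, h1, h2⟩ | ⟨-, -, h1, -⟩
  · exact absurd h2 (partner ρ u J hJu _ hy3 w' ((hfix w').1 hw') hw1 hyw3 g' h1)
  · have h3 : ρ (g' * g * y ^ 2) (w : V) = w' := by
      rw [rho_mul, rho_pow_eig ρ y _ 5 hy.2.2 2, map_smul, rho_mul, hg, map_smul, h1, smul_smul,
        smul_smul, show (5 : K) ^ 2 * 5 * 5 = 1 by decide, one_smul]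
    have h4 := blk_eq ρ W hB i i _ w w.2 hw0 (h3 ▸ w'.2)
    exact ⟨π ⟨_, h4⟩, Subtype.ext ((hF.res ⟨_, h4⟩ w).trans h3)⟩

theorem line_rel {V : Type} [AddCommGroup V] [Module K V] [Module.Finite K V]
    {H : Type} [Group H] [Finite H] [Group.IsSolvable H] (ρ : Representation K H V) (N : ℕ) (hC : ClB ρ N) {I : Type} [Fintype I] [MulAction H I] (W : I → Submodule K V) (hB : BD ρ I W) (h1 : ∀ i, Module.finrank K (W i) = 1) (i : I) :
    ∃ k, k ≠ i ∧ Rel ρ (W i) (W k) := by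
  obtain ⟨w, hw, hw0⟩ := (Submodule.ne_bot_iff _).1 (hB.ne i)
  obtain ⟨J, -, hJ⟩ := m3_exists ⊥ (stabV ρ w) bot_le (by simp)
  obtain ⟨y, hy⟩ := exists_val ρ hC.ep w J hJ
  have hwJ : w ∈ fixS ρ J := fun j hj => hJ.1 hj
  have h8 : edOn (fixS ρ J ⊓ W i) (ρ y) 8 = 0 := by
    by_contra h
    obtain ⟨v, hv, hv0, h8⟩ := (edOn_pos _ _ _).1 (Nat.pos_of_ne_zero h)
    obtain ⟨c, rfl⟩ := line_ext (W i) (h1 i) w hw hw0 v hv.2
    have h2 := xsdkb_cancel _ w c 8 hv0 h8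
    rw [hy.2.2, ← sub_eq_zero, ← sub_smul] at h2
    exact hw0 ((smul_eq_zero.1 h2).resolve_left (by decide))
  obtain ⟨k, u, hk, hu0, hu, hyu, ho⟩ := po ρ W hB J y hy.1 (val_pow4 ρ w J hJ y hy) i
    (fun j hj => blk_eq ρ W hB i i j w hw hw0 (by rw [hwJ j hj]; exact hw))
    (blk_eq ρ W hB i i y w hw hw0 (by rw [hy.2.2]; exact (W i).smul_mem _ hw))
    (hC.bal w J y hw0 hJ hy).le
    (by rw [h8]; exact (edOn_pos _ _ _).2 ⟨w, ⟨hwJ, hw⟩, hw0, hy.2.2⟩)
  obtain ⟨l, g, hl, hul, -, -⟩ := ext_partner ρ hC.ep W hB i w J hJ y hy hw hw0 k hk u hu0 hu hyu ho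
  refine ⟨l, hl, fun w₁ hw₁ u₁ hu₁ h2 h3 γ h4 h5 => ?_⟩
  obtain ⟨c, rfl⟩ := line_ext (W i) (h1 i) w hw hw0 w₁ hw₁
  obtain ⟨d, rfl⟩ := line_ext (W l) (h1 l) u hul hu0 u₁ hu₁
  exact partner ρ w J hJ y hy u hu hu0 hyu γ (xsdkb_cancel _ w c 5 h2 h4)
    (xsdkb_cancel _ u d 5 h3 h5)

end Pool.Agent.N9181

end

section

namespace Pool.Agent.N9181

open scoped commutatorElement

theorem thmD (n N : ℕ) : DIH n N := by
  induction n with
  | zero => intro V _ _ _ H _ _ _ ρ h; exact absurd h (Nat.not_lt_zero _)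
  | succ n ih =>
  intro V _ _ _ H _ _ _ ρ hn hC hV
  obtain ⟨I, _, _, W, hB, hW⟩ := gblocks ρ hC.cop N hC.dvd hC.pos hV hC.sq
  have h1 : ∀ i, Module.finrank K (W i) = 1 := fun i => by
    obtain ⟨H', _, _, _, π, σ, A, F, hF, hG⟩ := hW i
    obtain ⟨e5, hK⟩ := dk ρ N hC W hB i π σ hF
    have hle : Module.finrank K (W i) ≤ n :=
      Nat.lt_succ_iff.1 (lt_of_le_of_lt (Submodule.finrank_le _) hn)
    exact kill σ N A F hG e5 hK fun V' _ _ _ H'' _ _ _ τ h => ih V' H'' τ (h.trans_le hle)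
  exact ⟨I, inferInstance, inferInstance, W, hB, h1, line_rel ρ N hC W hB h1⟩

end Pool.Agent.N9181

end

section

namespace Pool.Agent.N9181

open scoped commutatorElement

theorem xsthme_mul {V : Type} [AddCommGroup V] [Module K V] {H : Type} [Group H]
    (ρ : Representation K H V) {I : Type} [MulAction H I] (W : I → Submodule K V) (a b : H)
    (ha : DiagE ρ W a) (hb : DiagE ρ W b) : DiagE ρ W (a * b) := fun i => by
  obtain ⟨a1, c, hc, a2⟩ := ha i
  obtain ⟨b1, d, hd, b2⟩ := hb i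
  refine ⟨by rw [mul_smul, b1, a1], d * c, by rw [mul_pow, hc, hd, one_mul], fun w hw => ?_⟩
  rw [rho_mul, b2 w hw, map_smul, a2 w hw, smul_smul]

theorem thmE {V : Type} [AddCommGroup V] [Module K V] [Module.Finite K V]
    {H : Type} [Group H] [Finite H] [Group.IsSolvable H] (ρ : Representation K H V) (N : ℕ) (hC : ClB ρ N) (hE3 : HEP ρ 3) (hP : Par ρ) (v : V) : v = 0 := by
  by_contra h0
  obtain ⟨I, _, _, W, π, hL⟩ :=
    mono_lp ρ hC.ep (thmD (Module.finrank K V + 1) N V H ρ (Nat.lt_succ_self _) hC ⟨v, h0⟩)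
  have hI : Nonempty I := by
    by_contra hI
    rw [not_nonempty_iff] at hI
    have h1 := hL.bd.top
    rw [iSup_of_empty] at h1
    have h2 : v ∈ (⊥ : Submodule K V) := h1 ▸ Submodule.mem_top
    exact h0 h2
  obtain ⟨i⟩ := hI
  refine efin ρ hC.ep hP W hL.bd hL.one i fun k hk => ?_
  by_cases e : k = π i
  · subst e
    obtain ⟨t, t1, t2, t3⟩ := tt ρ hE3 W π hL i
    obtain ⟨s, s1, s2, s3, -⟩ := tau ρ hC.ep W π hL i i
    refine ⟨t * (s * s), 9, xsthme_mul ρ W t _ t1 (xsthme_mul ρ W s s s1 s1), fun w hw => ?_,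
      by decide, fun u hu => ?_⟩
    · rw [rho_mul, rho_mul, s2 w hw, map_smul, s2 w hw, map_smul, map_smul, t2 w hw, smul_smul,
        smul_smul, show (3 * 3 * 3 : K) = 1 by decide, one_smul]
    · rw [rho_mul, rho_mul, s3 u hu, map_smul, s3 u hu, map_smul, map_smul, t3 u hu, smul_smul,
        smul_smul, show (9 * 9 * 3 : K) = 9 by decide]
  · obtain ⟨s, s1, s2, -, s4⟩ := tau ρ hC.ep W π hL k i
    exact ⟨s, 3, s1, s4 hk.symm fun e' => e (by rw [e', hL.inv]), by decide, s2⟩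

end Pool.Agent.N9181

end

section

namespace Pool.Agent.N9181

open scoped commutatorElement

theorem xskapa_m (M : ℕ) (m : RM M) (h1 : red M m = -1) (h2 : m * m = 1) : m = -1 := by
  have hu : IsUnit (m - 1) := red_unit M _ (by rw [map_sub, h1, map_one]; decide)
  have h3 : (m - 1) * (m + 1) = 0 := by linear_combination h2
  have h4 : m + 1 = 0 := (hu.mul_right_eq_zero).1 h3
  linear_combination h4

theorem xskapa_tcpow (M : ℕ) (tc : K → RM M) (h1 : tc 1 = 1)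
    (hm : ∀ c c', tc (c * c') = tc c * tc c') (c : K) (k : ℕ) : tc (c ^ k) = tc c ^ k := by
  induction k with
  | zero => simpa using h1
  | succ k ih => rw [pow_succ, hm, ih, pow_succ (tc c) k]

theorem xskapa_coef {R : Type} [CommRing R] (i w : R) (hw : w ^ 3 = 1) (j : ℕ)
    (hj : 2 ∣ j ∨ 3 ∣ j) :
    2 * i ^ j - 2 * (-1 * i) ^ j - (i * w) ^ j - (i * (w * w)) ^ j + (-1 * (i * w)) ^ j
      + (-1 * (i * (w * w))) ^ j = 0 := by
  simp only [mul_pow]
  rcases hj with ⟨l, rfl⟩ | ⟨l, rfl⟩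
  · have : (-1 : R) ^ (2 * l) = 1 := by rw [pow_mul]; simp
    rw [this]; ring
  · have : w ^ (3 * l) = 1 := by rw [pow_mul, hw, one_pow]
    rw [this]; ring

theorem kap_bt (M n : ℕ) (hn : ¬ 13 ∣ n) : ∃ c : ℕ → RM M, (∀ k, ¬ k.Coprime 6 → c k = 0) ∧
    ∀ (V : Type) [AddCommGroup V] [Module K V] [Module.Finite K V] (a : Module.End K V),
      a ^ (12 * n) = 1 →
      ((12 * n : ℕ) : RM M) * (kap a : RM M) = ∑ k ∈ Finset.range (12 * n), c k * bt (a ^ k) M := by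
  obtain ⟨tc, hred, h1, hm, -⟩ := bt_smul M
  have hN : ¬ 13 ∣ 12 * n := by
    intro h
    rcases (Nat.Prime.dvd_mul (by norm_num : Nat.Prime 13)).1 h with h | h
    · norm_num at h
    · exact hn h
  have hpow : ∀ c : K, c ≠ 0 → tc c ^ (12 * n) = 1 := by
    intro c hc
    rw [pow_mul, ← xskapa_tcpow M tc h1 hm, k_twelve c hc, h1, one_pow]
  have hm1 : tc (-1) = -1 := xskapa_m M _ (hred _) (by rw [← hm, neg_mul_neg, one_mul, h1])
  have hw : tc 3 ^ 3 = 1 := by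
    rw [← xskapa_tcpow M tc h1 hm, show (3 : K) ^ 3 = 1 by decide, h1]
  have e8 : tc 8 = -1 * tc 5 := by rw [← hm1, ← hm]; congr 1
  have e2 : tc 2 = tc 5 * tc 3 := by rw [← hm]; congr 1
  have e6 : tc 6 = tc 5 * (tc 3 * tc 3) := by rw [← hm, ← hm]; congr 1
  have e11 : tc 11 = -1 * (tc 5 * tc 3) := by rw [← hm1, ← hm, ← hm]; congr 1
  have e7 : tc 7 = -1 * (tc 5 * (tc 3 * tc 3)) := by rw [← hm1, ← hm, ← hm, ← hm]; congr 1
  refine ⟨fun k => 2 * tc 5 ^ (12 * n - k) - 2 * tc 8 ^ (12 * n - k) - tc 2 ^ (12 * n - k)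
    - tc 6 ^ (12 * n - k) + tc 11 ^ (12 * n - k) + tc 7 ^ (12 * n - k), ?_, ?_⟩
  · intro k hk
    have hj : 2 ∣ 12 * n - k ∨ 3 ∣ 12 * n - k := by
      by_cases h2 : 2 ∣ k
      · exact Or.inl (Nat.dvd_sub (Dvd.intro (6 * n) (by ring)) h2)
      by_cases h3 : 3 ∣ k
      · exact Or.inr (Nat.dvd_sub (Dvd.intro (4 * n) (by ring)) h3)
      exfalso
      apply hk
      have c2 : k.Coprime 2 := ((Nat.Prime.coprime_iff_not_dvd Nat.prime_two).2 h2).symm
      have c3 : k.Coprime 3 := ((Nat.Prime.coprime_iff_not_dvd Nat.prime_three).2 h3).symm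
      exact Nat.Coprime.mul_right c2 c3
    show 2 * tc 5 ^ (12 * n - k) - 2 * tc 8 ^ (12 * n - k) - tc 2 ^ (12 * n - k)
      - tc 6 ^ (12 * n - k) + tc 11 ^ (12 * n - k) + tc 7 ^ (12 * n - k) = 0
    rw [e8, e2, e6, e11, e7]
    exact xskapa_coef (tc 5) (tc 3) hw _ hj
  · intro V _ _ _ a ha
    have E : ∀ c : K, c ≠ 0 → ∑ k ∈ Finset.range (12 * n), tc c ^ (12 * n - k) * bt (a ^ k) M
        = ((12 * n : ℕ) : RM M) * (ed a c : RM M) := by
      intro c hc
      have := bt_eig a (12 * n) hN ha M (tc c) (hpow c hc)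
      rwa [hred] at this
    have E5 := E 5 (by decide)
    have E8 := E 8 (by decide)
    have E2 := E 2 (by decide)
    have E6 := E 6 (by decide)
    have E11 := E 11 (by decide)
    have E7 := E 7 (by decide)
    simp only [add_mul, sub_mul, mul_assoc, Finset.sum_add_distrib, Finset.sum_sub_distrib,
      ← Finset.mul_sum]
    rw [E5, E8, E2, E6, E11, E7]
    unfold kap
    push_cast
    ring

theorem xskapa_mem {H : Type} [Group H] (T : Subgroup H) (y : H)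
    (hn : y ∈ Subgroup.normalizer (T : Set H)) (t : H) (ht : t ∈ T) (k : ℕ) :
    (y ^ k)⁻¹ * (y * t) ^ k ∈ T := by
  induction k with
  | zero => simp
  | succ k ih =>
    have h1 : y⁻¹ * ((y ^ k)⁻¹ * (y * t) ^ k) * y⁻¹⁻¹ ∈ T :=
      (Subgroup.mem_normalizer_iff.1 (Subgroup.inv_mem _ hn) _).1 ih
    have h2 : (y ^ (k + 1))⁻¹ * (y * t) ^ (k + 1)
        = (y⁻¹ * ((y ^ k)⁻¹ * (y * t) ^ k) * y⁻¹⁻¹) * t := by
      rw [pow_succ, pow_succ]; group
    rw [h2]
    exact T.mul_mem h1 ht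

theorem xskapa_inj {H : Type} [Group H] (N k : ℕ) (hN : 1 < N) (hk : k.Coprime N) (x x' : H)
    (hx : x ^ N = 1) (hx' : x' ^ N = 1) (h : x ^ k = x' ^ k) : x = x' := by
  obtain ⟨m, hm⟩ : ∃ m, k * m % N = 1 := by
    obtain ⟨m, -, hm⟩ := Nat.exists_mul_mod_eq_one_of_coprime hk hN
    exact ⟨m, hm⟩
  have he : k * m ≡ 1 [MOD N] := by
    unfold Nat.ModEq
    rw [hm, Nat.mod_eq_of_lt hN]
  rw [← xbasic_pow x N (k * m) hx he, ← xbasic_pow x' N (k * m) hx' he, pow_mul, pow_mul, h]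

theorem xskapa_int (x y : ℤ) (h : ∀ M, (x : RM M) = (y : RM M)) : x = y := by
  have h1 : ∀ M, ((13 ^ (M + 1) : ℕ) : ℤ) ∣ y - x := fun M =>
    (ZMod.intCast_eq_intCast_iff_dvd_sub x y _).1 (h M)
  have h2 := h1 (y - x).natAbs
  have hlt : (y - x).natAbs < 13 ^ ((y - x).natAbs + 1) :=
    lt_trans (Nat.lt_succ_self _) (Nat.lt_pow_self (by norm_num))
  have h3 : y - x = 0 := Int.eq_zero_of_dvd_of_natAbs_lt_natAbs h2 (by simpa using hlt)
  omega

theorem kap_avg {V : Type} [AddCommGroup V] [Module K V] [Module.Finite K V]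
    {H : Type} [Group H] [Finite H] (ρ : Representation K H V) (h13 : ¬ 13 ∣ Nat.card H) (T : Subgroup H) (hT : IsPGroup 3 T) (y : H)
    (a : ℕ) (hy : y ^ (2 ^ a) = 1) (hn : y ∈ Subgroup.normalizer (T : Set H)) (s : Module.End K (fixS ρ T))
    (hs : Rs (fixS ρ T) (ρ y) s) : ∑ᶠ t : T, kap (ρ (y * t)) = (Nat.card T : ℤ) * kap s := by
  classical
  have : Fintype T := Fintype.ofFinite T
  have : Fact (Nat.Prime 3) := ⟨Nat.prime_three⟩
  obtain ⟨b, hb⟩ := IsPGroup.iff_card.1 hT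
  set n := 2 ^ a * Nat.card T with hn_def
  have hp : Nat.Prime 13 := by norm_num
  have hn13 : ¬ 13 ∣ n := by
    intro h
    rcases (Nat.Prime.dvd_mul hp).1 h with h | h
    · have := Nat.Prime.dvd_of_dvd_pow hp h
      norm_num at this
    · exact h13 (h.trans (Subgroup.card_subgroup_dvd_card T))
  have hN13 : ¬ 13 ∣ 12 * n := by
    intro h
    rcases (Nat.Prime.dvd_mul hp).1 h with h | h
    · norm_num at h
    · exact hn13 h
  have hn0 : 0 < n := Nat.pos_of_ne_zero (fun h => hn13 (h ▸ dvd_zero 13))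
  have hpow : ∀ t : T, (y * t) ^ (12 * n) = 1 := by
    intro t
    have h1 := xskapa_mem T y hn t t.2 (2 ^ a)
    rw [hy, inv_one, one_mul] at h1
    have h2 : (⟨_, h1⟩ : T) ^ Nat.card T = 1 := pow_card_eq_one'
    have h3 : ((y * t) ^ (2 ^ a)) ^ Nat.card T = 1 := congrArg Subtype.val h2
    rw [mul_comm 12 n, pow_mul, hn_def, pow_mul, h3, one_pow]
  have hsk : ∀ (k : ℕ) (w : fixS ρ T), ((s ^ k) w : V) = ρ (y ^ k) w := by
    intro k
    induction k with
    | zero => intro w; simp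
    | succ k ih =>
      intro w
      rw [pow_succ, Module.End.mul_apply, ih, hs w, pow_succ, rho_mul]
  have hs1 : s ^ (12 * n) = 1 := by
    ext w
    have := hpow 1
    rw [Subgroup.coe_one, mul_one] at this
    rw [hsk, this, map_one]
    rfl
  have key : ∀ (k : ℕ), k.Coprime 6 → ∀ M,
      ∑ t : T, bt ((ρ (y * t)) ^ k) M = (Nat.card T : RM M) * bt (s ^ k) M := by
    intro k hk M
    have c2 : k.Coprime 2 := Nat.Coprime.coprime_dvd_right (by norm_num) hk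
    have c3 : k.Coprime 3 := Nat.Coprime.coprime_dvd_right (by norm_num) hk
    have hkN : k.Coprime (12 * n) := by
      rw [hn_def, hb]
      exact Nat.Coprime.mul_right (Nat.Coprime.mul_right c2 hk)
        (Nat.Coprime.mul_right (Nat.Coprime.pow_right a c2) (Nat.Coprime.pow_right b c3))
    have hyk : y ^ k ∈ Subgroup.normalizer (T : Set H) := Subgroup.pow_mem _ hn k
    have hW : ∀ v ∈ fixS ρ T, ρ (y ^ k) v ∈ fixS ρ T := fun v hv => fix_norm ρ T _ hyk v hv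
    have h1 := bt_TL h13 ρ T (y ^ k) hyk (fixS ρ T) (isFix_fixS ρ T) hW M
    have h2 : (ρ (y ^ k)).restrict hW = s ^ k := by
      ext w
      rw [hsk]
      rfl
    rw [h2, finsum_eq_sum_of_fintype] at h1
    rw [h1]
    let φ : T → T := fun t => ⟨(y ^ k)⁻¹ * (y * t) ^ k, xskapa_mem T y hn t t.2 k⟩
    have hφ : Function.Injective φ := by
      intro t t' h
      have h3 : (y ^ k)⁻¹ * (y * t) ^ k = (y ^ k)⁻¹ * (y * t') ^ k := congrArg Subtype.val h
      have h4 := xskapa_inj (12 * n) k (by omega) hkN _ _ (hpow t) (hpow t') (mul_left_cancel h3)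
      exact Subtype.ext (mul_left_cancel h4)
    refine Fintype.sum_bijective φ (Finite.injective_iff_bijective.1 hφ) _ _ (fun t => ?_)
    show bt ((ρ (y * t)) ^ k) M = bt (ρ (y ^ k * ((y ^ k)⁻¹ * (y * t) ^ k))) M
    rw [mul_inv_cancel_left, map_pow]
  apply xskapa_int
  intro M
  obtain ⟨c, hc0, hc⟩ := kap_bt M n hn13
  have hu : IsUnit ((12 * n : ℕ) : RM M) := red_unit M _ (by
    rw [map_natCast]
    exact fun h => hN13 ((ZMod.natCast_eq_zero_iff _ 13).1 h))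
  apply hu.mul_left_cancel
  rw [finsum_eq_sum_of_fintype]
  push_cast [Int.cast_sum]
  have h1 : ∀ t : T, ((12 * n : ℕ) : RM M) * (kap (ρ (y * t)) : RM M)
      = ∑ k ∈ Finset.range (12 * n), c k * bt ((ρ (y * t)) ^ k) M := fun t =>
    hc V _ (by rw [← map_pow, hpow, map_one])
  have h2 := hc _ s hs1
  push_cast at h1 h2
  rw [Finset.mul_sum, Finset.sum_congr rfl (fun t _ => h1 t), Finset.sum_comm,
    mul_left_comm _ (Nat.card T : RM M), h2, Finset.mul_sum]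
  refine Finset.sum_congr rfl (fun k _ => ?_)
  rw [← Finset.mul_sum]
  by_cases hk : k.Coprime 6
  · rw [key k hk M]; ring
  · rw [hc0 k hk]; simp

end Pool.Agent.N9181

end

section

namespace Pool.Agent.N9181

open scoped commutatorElement

theorem xskapb_pow {V : Type} [AddCommGroup V] [Module K V] (a : Module.End K V) (c : K) (v : V)
    (h : a v = c • v) (j : ℕ) : (a ^ j) v = c ^ j • v := by
  induction j with
  | zero => simp
  | succ j ih => rw [pow_succ', Module.End.mul_apply, ih, map_smul, h, smul_smul, pow_succ]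

theorem ed_pow {V : Type} [AddCommGroup V] [Module K V] [Module.Finite K V] (a : Module.End K V) (n j : ℕ) (hn : 0 < n) (ha : a ^ n = 1)
    (hj : j.Coprime (12 * n)) (c : K) (hc : c ≠ 0) : ed (a ^ j) (c ^ j) = ed a c := by
  obtain ⟨j', -, hj'⟩ := Nat.exists_mul_mod_eq_one_of_coprime hj (by omega)
  have h1 : j * j' ≡ 1 [MOD 12 * n] := by
    rw [Nat.ModEq, hj', Nat.mod_eq_of_lt (by omega)]
  have h2 : (a ^ j).eigenspace (c ^ j) = a.eigenspace c := by
    ext v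
    rw [Module.End.mem_eigenspace_iff, Module.End.mem_eigenspace_iff]
    refine ⟨fun h => ?_, fun h => xskapb_pow a c v h j⟩
    have h3 := xskapb_pow _ _ v h j'
    rwa [← pow_mul, ← pow_mul, xbasic_pow a n _ ha (h1.of_mul_left 12),
      xbasic_pow c 12 _ (ZMod.pow_card_sub_one_eq_one hc) (h1.of_mul_right n)] at h3
  unfold ed
  rw [h2]

theorem xskapb_ed {V : Type} [AddCommGroup V] [Module K V] [Module.Finite K V]
    (a : Module.End K V) (n j r : ℕ) (hn : 0 < n) (ha : a ^ n = 1) (hj : j.Coprime (12 * n))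
    (hr : j ≡ r [MOD 12]) (c c' : K) (hc : c ≠ 0) (h : c ^ r = c') : ed (a ^ j) c' = ed a c := by
  rw [← ed_pow a n j hn ha hj c hc, ← h,
    pow_eq_pow_of_modEq hr (ZMod.pow_card_sub_one_eq_one hc)]

theorem xskapb_five {V : Type} [AddCommGroup V] [Module K V] [Module.Finite K V]
    (a : Module.End K V) (n j : ℕ) (hn : 0 < n) (ha : a ^ n = 1) (hj : j.Coprime (12 * n))
    (hr : j ≡ 5 [MOD 12]) : kap (a ^ j) = kap a := by
  have h := xskapb_ed a n j 5 hn ha hj hr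
  unfold kap
  rw [h 5 5 (by decide) (by decide), h 8 8 (by decide) (by decide), h 6 2 (by decide) (by decide),
    h 2 6 (by decide) (by decide), h 7 11 (by decide) (by decide), h 11 7 (by decide) (by decide)]
  ring

theorem xskapb_seven {V : Type} [AddCommGroup V] [Module K V] [Module.Finite K V]
    (a : Module.End K V) (n j : ℕ) (hn : 0 < n) (ha : a ^ n = 1) (hj : j.Coprime (12 * n))
    (hr : j ≡ 7 [MOD 12]) : kap (a ^ j) = -kap a := by
  have h := xskapb_ed a n j 7 hn ha hj hr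
  unfold kap
  rw [h 8 5 (by decide) (by decide), h 5 8 (by decide) (by decide), h 11 2 (by decide) (by decide),
    h 7 6 (by decide) (by decide), h 2 11 (by decide) (by decide), h 6 7 (by decide) (by decide)]
  ring

theorem xskapb_eleven {V : Type} [AddCommGroup V] [Module K V] [Module.Finite K V]
    (a : Module.End K V) (n j : ℕ) (hn : 0 < n) (ha : a ^ n = 1) (hj : j.Coprime (12 * n))
    (hr : j ≡ 11 [MOD 12]) : kap (a ^ j) = -kap a := by
  have h := xskapb_ed a n j 11 hn ha hj hr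
  unfold kap
  rw [h 8 5 (by decide) (by decide), h 5 8 (by decide) (by decide), h 7 2 (by decide) (by decide),
    h 11 6 (by decide) (by decide), h 6 11 (by decide) (by decide), h 2 7 (by decide) (by decide)]
  ring

theorem xskapb_sim {V : Type} [AddCommGroup V] [Module K V] {H : Type} [Group H]
    {ρ : Representation K H V} {a b : H} (h : Sim ρ a b) : kap (ρ a) = kap (ρ b) := by
  unfold kap
  rw [h, h, h, h, h, h]

theorem xskapb_coset {H : Type} [Group H] (T : Subgroup H) (y : H)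
    (hy : y ∈ Subgroup.normalizer (T : Set H)) (t : H) (ht : t ∈ T) (k : ℕ) :
    (y ^ k)⁻¹ * (y * t) ^ k ∈ T := by
  induction k with
  | zero => simp
  | succ k ih =>
    have h := T.mul_mem ((Subgroup.mem_normalizer_iff''.1 hy _).1 ih) ht
    have e : (y ^ (k + 1))⁻¹ * (y * t) ^ (k + 1) = y⁻¹ * ((y ^ k)⁻¹ * (y * t) ^ k) * y * t := by
      rw [pow_succ, pow_succ]
      group
    rwa [e]

theorem xskapb_line {V : Type} [AddCommGroup V] [Module K V] [Module.Finite K V]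
    (W : Submodule K V) (e : V) (he : e ≠ 0) (hW : W = Submodule.span K {e}) :
    kap ((5 : K) • (1 : Module.End K W)) = 2 := by
  have h1 : ed ((5 : K) • (1 : Module.End K W)) 5 = 1 := by
    have : ((5 : K) • (1 : Module.End K W)).eigenspace 5 = ⊤ :=
      eq_top_iff.2 fun v _ => Module.End.mem_eigenspace_iff.2 rfl
    unfold ed
    rw [this, finrank_top, hW, finrank_span_singleton he]
  have h2 : ∀ c : K, 5 - c ≠ 0 → ed ((5 : K) • (1 : Module.End K W)) c = 0 := fun c hc => by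
    have : ((5 : K) • (1 : Module.End K W)).eigenspace c = ⊥ := by
      refine eq_bot_iff.2 fun v hv => ?_
      have h3 : (5 : K) • v = c • v := Module.End.mem_eigenspace_iff.1 hv
      rw [← sub_eq_zero, ← sub_smul] at h3
      exact (smul_eq_zero.1 h3).resolve_left hc
    unfold ed
    rw [this, finrank_bot]
  unfold kap
  rw [h1, h2 8 (by decide), h2 2 (by decide), h2 6 (by decide), h2 11 (by decide),
    h2 7 (by decide)]
  norm_num

theorem xskapb_u (a m N : ℕ) (hN : 0 < N) (hm : 0 < m) (h2 : (2 ^ (a + 2)).Coprime (3 * m)) :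
    ∃ u : ℕ, u.Coprime (N * (2 ^ (a + 2) * (3 * m))) ∧ u ≡ 1 [MOD 2 ^ (a + 2)] ∧
      3 * m ∣ u + 1 := by
  obtain ⟨j, h3, h4⟩ := Nat.chineseRemainder h2 1 (3 * m - 1)
  have h5 : j.Coprime (2 ^ (a + 2) * (3 * m)) := by
    refine Nat.Coprime.mul_right ?_ ?_
    · rw [Nat.Coprime, h3.gcd_eq]
      exact Nat.gcd_one_left _
    · rw [Nat.Coprime, h4.gcd_eq]
      exact (Nat.coprime_self_sub_left (by omega)).2 (Nat.coprime_one_left _)
  obtain ⟨u, hu, hu'⟩ := exists_j _ (N * (2 ^ (a + 2) * (3 * m))) j (Dvd.intro_left _ rfl)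
    (by positivity) h5
  refine ⟨u, hu, (hu'.of_mul_right _).trans h3, ?_⟩
  have h6 := ((hu'.of_mul_left _).trans h4).add_right 1
  rw [Nat.sub_add_cancel (by omega)] at h6
  exact (Nat.modEq_zero_iff_dvd).1 (h6.trans (Nat.modEq_zero_iff_dvd.2 dvd_rfl))

theorem kap_par {V : Type} [AddCommGroup V] [Module K V] [Module.Finite K V]
    {H : Type} [Group H] [Finite H] (ρ : Representation K H V) (h13 : ¬ 13 ∣ Nat.card H) (N : ℕ) (hN : 0 < N) (hT : Tri ρ N)
    (h2 : ∀ (h : H) (a : ℕ), h ^ (2 ^ a) = 1 → Sim ρ h h⁻¹) : Par ρ := by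
  intro T y₀ e hT3 hy₀ he hfix h5
  obtain ⟨e₀, a, hya, hy5⟩ := eig_ppart ρ 2 Nat.prime_two y₀
  have hy5 := hy5 e 5 2 h5 (by decide)
  have hy := Subgroup.pow_mem _ hy₀ e₀
  generalize y₀ ^ e₀ = y at hya hy5 hy
  have havg := kap_avg ρ h13 T hT3 y a hya hy ((5 : K) • 1) fun w => by
    obtain ⟨c, hc⟩ := Submodule.mem_span_singleton.1 (hfix.le w.2)
    change (5 : K) • (w : V) = _
    rw [← hc, map_smul, hy5, smul_comm]
  rw [xskapb_line _ e he hfix] at havg
  have : Fact (Nat.Prime 3) := ⟨Nat.prime_three⟩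
  obtain ⟨b, hb⟩ := IsPGroup.iff_card.1 hT3
  have hm : 0 < Nat.card T := Nat.card_pos
  have hodd : Nat.Coprime 2 (3 * Nat.card T) := by
    rw [hb, ← pow_succ']
    exact Nat.Coprime.pow_right _ (by norm_num)
  have hco : (2 ^ (a + 2)).Coprime (3 * Nat.card T) := Nat.Coprime.pow_left _ hodd
  obtain ⟨u, hu, hu1, hu2⟩ := xskapb_u a (Nat.card T) N hN hm hco
  have h12 : 12 ∣ 2 ^ (a + 2) * (3 * Nat.card T) := ⟨2 ^ a * Nat.card T, by ring⟩
  obtain ⟨u', hu', hu7⟩ := exists_j 12 (N * (2 ^ (a + 2) * (3 * Nat.card T))) 7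
    (h12.mul_left N) (by positivity) (by norm_num)
  have hu5 : u ≡ 5 [MOD 12] := by
    have h3 : u ≡ 1 [MOD 4] := hu1.of_dvd ⟨2 ^ a, by ring⟩
    have h4 : 3 ∣ u + 1 := (Dvd.intro _ rfl).trans hu2
    unfold Nat.ModEq at h3 ⊢
    omega
  have huu : u * u ≡ 1 [MOD 2 ^ (a + 2) * (3 * Nat.card T)] := by
    refine (Nat.modEq_and_modEq_iff_modEq_mul hco).1 ⟨by simpa using hu1.mul hu1, ?_⟩
    have h3 : u + 1 ≡ 0 [MOD 3 * Nat.card T] := Nat.modEq_zero_iff_dvd.2 hu2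
    have h4 := (h3.mul_left u).trans (show u * 0 ≡ u + 1 [MOD _] from h3.symm)
    rw [mul_add, mul_one, add_comm u 1] at h4
    exact Nat.ModEq.add_right_cancel' u h4
  have hord : ∀ t : T, (y * t) ^ (2 ^ (a + 2) * (3 * Nat.card T)) = 1 := fun t => by
    have h3 := xskapb_coset T y hy t t.2 (2 ^ a)
    rw [hya, inv_one, one_mul] at h3
    have h4 : ((y * t) ^ 2 ^ a) ^ Nat.card T = 1 :=
      congrArg Subtype.val (pow_card_eq_one' (G := T) (x := ⟨_, h3⟩))
    rw [show 2 ^ (a + 2) * (3 * Nat.card T) = 2 ^ a * Nat.card T * 12 by ring, pow_mul, pow_mul, h4,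
      one_pow]
  have hyu : y ^ u = y := xbasic_pow y _ _ hya (hu1.of_dvd ⟨4, by ring⟩)
  have hn : 0 < 2 ^ (a + 2) * (3 * Nat.card T) := by positivity
  have hfix2 : ∀ h : H, h ^ (2 ^ (a + 2) * (3 * Nat.card T)) = 1 → h ^ u = h →
      h ^ 2 ^ (a + 2) = 1 := fun h h3 h4 => by
    rw [pow_mul] at h3
    have h5 : (h ^ 2 ^ (a + 2)) ^ 2 = 1 := by
      obtain ⟨k, hk⟩ := hu2
      have h6 : (h ^ 2 ^ (a + 2)) ^ (u + 1) = 1 := by rw [hk, pow_mul, h3, one_pow]
      rwa [pow_succ, pow_right_comm, h4, ← pow_two] at h6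
    have := pow_gcd_eq_one.2 ⟨h5, h3⟩
    rwa [hodd, pow_one] at this
  generalize 2 ^ (a + 2) * (3 * Nat.card T) = n at hu hu' huu hord hn h12 hfix2
  have hc : ∀ j : ℕ, j.Coprime (N * n) → j.Coprime (12 * n) := fun j hj =>
    Nat.Coprime.mul_right (hj.coprime_dvd_right (h12.mul_left N)) hj.coprime_mul_left_right
  have hρ : ∀ t : T, ρ (y * t) ^ n = 1 := fun t => by rw [← map_pow, hord, map_one]
  have heven : ∀ t : T, ∃ k : ℤ, kap (ρ (y * t)) = 2 * k := fun t => by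
    rcases hT (y * t) u u' hu.coprime_mul_right_right hu'.coprime_mul_right_right with h | h | h
    · have h3 := xskapb_ed _ n u 5 hn (hρ t) (hc u hu) hu5
      have h4 := h3 2 6 (by decide) (by decide)
      have h5 := h3 11 7 (by decide) (by decide)
      rw [← map_pow, ← h] at h4 h5
      refine ⟨(ed (ρ (y * t)) 5 : ℤ) - ed (ρ (y * t)) 8 - ed (ρ (y * t)) 2 + ed (ρ (y * t)) 11, ?_⟩
      unfold kap
      rw [h4, h5]
      ring
    · have h3 := xskapb_sim h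
      rw [map_pow, xskapb_seven _ n u' hn (hρ t) (hc u' hu') hu7] at h3
      exact ⟨0, by omega⟩
    · have h3 := xskapb_sim h
      rw [map_pow, xskapb_eleven _ n _ hn (hρ t) (hc _ (Nat.Coprime.mul_left hu hu'))
        ((hu5.mul hu7).trans (by decide))] at h3
      exact ⟨0, by omega⟩
  have hmem : ∀ t : T, y⁻¹ * (y * t) ^ u ∈ T := fun t => by
    have h3 := xskapb_coset T y hy t t.2 u
    rwa [hyu] at h3
  have := Fintype.ofFinite T
  have hsum : ∑ t : T, ((kap (ρ (y * t)) : ℤ) : ZMod 4) = 0 := by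
    refine Finset.sum_ninvolution (fun t : T => (⟨_, hmem t⟩ : T)) (fun t => ?_) (fun t h3 h4 => ?_)
      (fun t => Finset.mem_univ _) fun t => Subtype.ext ?_
    · obtain ⟨k, hk⟩ := heven t
      rw [mul_inv_cancel_left, map_pow, xskapb_five _ n u hn (hρ t) (hc u hu) hu5, hk]
      push_cast
      have h4 : (4 : ZMod 4) = 0 := rfl
      linear_combination (k : ZMod 4) * h4
    · have h5 : y⁻¹ * (y * t) ^ u = t := congrArg Subtype.val h4
      have h6 := xskapb_sim (h2 _ _ (hfix2 _ (hord t) (inv_mul_eq_iff_eq_mul.1 h5)))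
      have h7 : (y * t)⁻¹ = (y * t) ^ (n - 1) := by
        rw [inv_eq_iff_mul_eq_one, ← pow_succ', Nat.sub_add_cancel hn, hord]
      have h8 : (n - 1).Coprime n := (Nat.coprime_self_sub_left hn).2 (Nat.coprime_one_left _)
      rw [h7, map_pow, xskapb_eleven _ n _ hn (hρ t)
        (Nat.Coprime.mul_right (h8.coprime_dvd_right h12) h8) (by
          unfold Nat.ModEq
          omega)] at h6
      exact h3 (by rw [show kap (ρ (y * t)) = 0 by omega, Int.cast_zero])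
    · change y⁻¹ * (y * (y⁻¹ * (y * t) ^ u)) ^ u = t
      rw [mul_inv_cancel_left, ← pow_mul, xbasic_pow _ _ _ (hord t) huu, inv_mul_cancel_left]
  rw [← Int.cast_sum, ← finsum_eq_sum_of_fintype, havg, ZMod.intCast_zmod_eq_zero_iff_dvd] at hsum
  have h3 : ¬ 2 ∣ 3 * Nat.card T := (Nat.Prime.coprime_iff_not_dvd Nat.prime_two).1 hodd
  omega

end Pool.Agent.N9181

end

section

namespace Pool.Agent.N9181

open scoped commutatorElement

theorem xswrapa_res {V : Type} [AddCommGroup V] [Module K V] [Module.Finite K V]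
    {H : Type} [Group H] [Finite H] (ρ : Representation K H V) (J : Subgroup H) (y : H)
    (hy : y ∈ Subgroup.normalizer (J : Set H)) (n : ℕ) (hn : y ^ n = 1) :
    ∃ s : Module.End K (fixS ρ J), (∀ w : fixS ρ J, (s w : V) = ρ y w) ∧
      (∀ (k : ℕ) (w : fixS ρ J), ((s ^ k) w : V) = ρ (y ^ k) w) ∧ s ^ n = 1 := by
  have hbW : ∀ v ∈ fixS ρ J, ρ y v ∈ fixS ρ J := fun v hv => fix_norm ρ J y hy v hv
  have hs : ∀ (k : ℕ) (w : fixS ρ J), ((((ρ y).restrict hbW) ^ k) w : V) = ρ (y ^ k) w :=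
    fun k w => by
      rw [Module.End.pow_restrict, map_pow]
      rfl
  refine ⟨(ρ y).restrict hbW, fun _ => rfl, hs, LinearMap.ext fun w => Subtype.ext ?_⟩
  rw [hs, hn, map_one]
  rfl

theorem xswrapa_ord {H : Type} [Group H] [Finite H] (J : Subgroup H) (h3 : ¬ 3 ∣ Nat.card J)
    (b : H) (hb : b ∈ Subgroup.normalizer (J : Set H)) (a : ℕ) (ha : b ^ (2 ^ a) = 1)
    (j : H) (hj : j ∈ J) : ¬ 3 ∣ orderOf (b * j) := by
  intro h
  have h1 : (b * j) ^ (2 ^ a) ∈ J := by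
    have := xbtuse_mem hb hj (2 ^ a)
    rwa [ha, inv_one, one_mul] at this
  have h2 : (b * j) ^ (2 ^ a * Nat.card J) = 1 := by
    rw [pow_mul]
    exact congrArg Subtype.val (pow_card_eq_one' (x := (⟨_, h1⟩ : J)))
  have h4 := h.trans (orderOf_dvd_of_pow_eq_one h2)
  rcases (Nat.Prime.dvd_mul Nat.prime_three).1 h4 with h5 | h5
  · have := Nat.prime_three.dvd_of_dvd_pow h5
    omega
  · exact h3 h5

theorem bal_of_real {V : Type} [AddCommGroup V] [Module K V] [Module.Finite K V]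
    {H : Type} [Group H] [Finite H] (ρ : Representation K H V) (h13 : ¬ 13 ∣ Nat.card H)
    (hr : ∀ h : H, ¬ 3 ∣ orderOf h → IsConj h h⁻¹) : BalJ ρ := by
  rintro w J y - hM ⟨hy, ⟨a, ha⟩, -⟩
  have := Fintype.ofFinite J
  have hu := fun M => xbtuse_unit M fun h => h13 (h.trans (Subgroup.card_subgroup_dvd_card J))
  have ha' : y⁻¹ ^ (2 ^ a) = 1 := by rw [inv_pow, ha, inv_one]
  obtain ⟨s, hs1, hs2, hs3⟩ := xswrapa_res ρ J y hy _ ha
  obtain ⟨s', hs1', hs2', hs3'⟩ := xswrapa_res ρ J y⁻¹ (inv_mem hy) _ ha'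
  have h2 : ¬ 13 ∣ 2 ^ a := fun h => by
    have := Nat.Prime.dvd_of_dvd_pow fact13.out h
    omega
  have key : ∀ (k M : ℕ), bt (s ^ k) M = bt (s' ^ k) M := by
    intro k M
    refine (hu M).mul_left_cancel ?_
    have hk := pow_mem hy k
    rw [xbtuse_TL h13 ρ hk (isFix_fixS ρ J) _ (hs2 k),
      xbtuse_TL h13 ρ (pow_mem (inv_mem hy) k) (isFix_fixS ρ J) _ (hs2' k), inv_pow,
      ← xbtuse_sum (fun x => bt (ρ x) M) (y ^ k)⁻¹ (fun j : J => (y ^ k * j)⁻¹)
        (fun j => by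
          have := (Subgroup.mem_normalizer_iff.1 hk _).1 (inv_mem j.2)
          simpa [mul_assoc] using this)
        fun j j' e => Subtype.ext (mul_left_cancel (inv_injective e))]
    refine Finset.sum_congr rfl fun j _ => bt_isConj ρ _ _ (hr _ ?_) M
    exact xswrapa_ord J hM.2.1 _ hk a (by rw [pow_right_comm, ha, one_pow]) j j.2
  have h3 : ed s 5 = ed s' 5 := by
    simp only [xbteig_ed]
    refine eq_of_cast _ _ fun M => ?_
    obtain ⟨c, hc⟩ := bt_ker (Polynomial.X - Polynomial.C 5) (2 ^ a) h2 M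
    rw [hc _ _ hs3, hc _ _ hs3']
    exact Finset.sum_congr rfl fun k _ => by rw [key]
  have h8 : (8 : K)⁻¹ = 5 := by
    refine inv_eq_of_mul_eq_one_right ?_
    decide
  rw [← ed_inv ρ (fixS ρ J) y 8 (by decide), h8, ← ed_res _ _ s hs1, ← ed_res _ _ s' hs1', h3]

end Pool.Agent.N9181

end

section

namespace Pool.Agent.N9181

open scoped commutatorElement

theorem eg_core {V : Type} [AddCommGroup V] [Module K V] [Module.Finite K V]
    {H : Type} [Group H] [Finite H] [Group.IsSolvable H] (ρ : Representation K H V) (h13 : ¬ 13 ∣ Nat.card H) (N : ℕ) (hd : Nat.card H ∣ N) (hN : 0 < N)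
    (t : H) (a : ℕ) (ht : t ^ (3 ^ a) = 1) (hc : ∀ g : H, g * t = t * g) (hS : HSq ρ N)
    (hT : Tri ρ N) (hr : ∀ h : H, ¬ 3 ∣ orderOf h → IsConj h h⁻¹)
    (hE : ∀ v, ρ t v = v → ∀ l : K, l ≠ 0 → ∃ h, ρ h v = l • v) : ∀ v, ρ t v = v → v = 0 := by
  have hn : (Subgroup.zpowers t).Normal := by
    refine ⟨fun y hy g => ?_⟩
    obtain ⟨k, rfl⟩ := Subgroup.mem_zpowers_iff.1 hy
    rwa [(Commute.zpow_right (hc g) k).eq, mul_inv_cancel_right]
  have hU : ∀ v, v ∈ fixS ρ (Subgroup.zpowers t) ↔ ρ t v = v := fun v =>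
    ⟨fun h => h t (Subgroup.mem_zpowers t),
      fun h _ hy => (Subgroup.zpowers_le (H := stabV ρ v)).2 h hy⟩
  have hno : ∀ h : H, h ∈ Subgroup.normalizer ((Subgroup.zpowers t : Subgroup H) : Set H) :=
    fun h => by
      rw [Subgroup.normalizer_eq_top]
      exact Subgroup.mem_top h
  obtain ⟨σ, hσ⟩ : ∃ σ : Representation K H (fixS ρ (Subgroup.zpowers t)),
      ∀ h w, (σ h w : V) = ρ h w :=
    ⟨ρ.subrepresentation _ fun g v hv => fix_norm ρ _ g (hno g) v hv, fun _ _ => rfl⟩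
  have hep : ∀ l : K, l ≠ 0 → HEP σ l := fun l hl w => by
    obtain ⟨h, hh⟩ := hE w ((hU w).1 w.2) l hl
    exact ⟨h, Subtype.ext ((hσ h w).trans hh)⟩
  have hP : Par ρ := by
    refine kap_par ρ h13 N hN hT fun h b hb => sim_conj ρ _ _ (hr h fun h3 => ?_)
    have := Nat.prime_three.dvd_of_dvd_pow (h3.trans (orderOf_dvd_of_pow_eq_one hb))
    omega
  have hPσ : Par σ := by
    intro T y e hT3 hy he hf h5
    have hz : IsPGroup 3 (Subgroup.zpowers t) := by
      rintro ⟨g, hg⟩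
      obtain ⟨k, rfl⟩ := Subgroup.mem_zpowers_iff.1 hg
      refine ⟨a, Subtype.ext ?_⟩
      change (t ^ k) ^ 3 ^ a = 1
      rw [← zpow_natCast, ← zpow_mul, mul_comm, zpow_mul, zpow_natCast, ht, one_zpow]
    refine hP (T ⊔ Subgroup.zpowers t) y e (hT3.to_sup_of_normal_right hz)
      (Subgroup.normalizer_le_normalizer_sup_normal hy) (fun h => he (Subtype.ext h))
      (le_antisymm (fun v hv => ?_) ?_) ((hσ y e).symm.trans (congrArg Subtype.val h5))
    · have h1 : v ∈ fixS ρ (Subgroup.zpowers t) := fun g hg => hv g (Subgroup.mem_sup_right hg)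
      have h2 : (⟨v, h1⟩ : fixS ρ (Subgroup.zpowers t)) ∈ fixS σ T := fun g hg =>
        Subtype.ext ((hσ g _).trans (hv g (Subgroup.mem_sup_left hg)))
      rw [hf, Submodule.mem_span_singleton] at h2
      obtain ⟨c, hc'⟩ := h2
      exact Submodule.mem_span_singleton.2 ⟨c, congrArg Subtype.val hc'⟩
    · rw [Submodule.span_singleton_le_iff_mem]
      have h1 : e ∈ fixS σ T := hf ▸ Submodule.mem_span_singleton_self e
      have h2 : T ⊔ Subgroup.zpowers t ≤ stabV ρ (e : V) :=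
        sup_le (fun g hg => (hσ g e).symm.trans (congrArg Subtype.val (h1 g hg))) e.2
      exact h2
  intro v hv
  have hC : ClB σ N := ⟨hd, hN, h13, hep 5 (by decide), fun h j hj M =>
    hsq_tw ρ h13 N hd hS (Subgroup.zpowers t) (fun _ => 1) _
      (fun v => by simp only [one_smul, mem_fixS]) h (hno h) j hj _ _ (hσ _) (hσ _) M,
    bal_of_real σ h13 hr⟩
  exact congrArg Subtype.val (thmE σ N hC (hep 3 (by decide)) hPσ ⟨v, (hU v).2 hv⟩)

end Pool.Agent.N9181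

end

section

namespace Pool.Agent.N9181

open scoped commutatorElement

theorem thmEG {V : Type} [AddCommGroup V] [Module K V] [Module.Finite K V]
    {G : Type} [Group G] [Finite G] [Group.IsSolvable G] (ρ : Representation K G V) (ι : V → G) (hι : Emb ρ ι) (N : ℕ) (hP : SP G N) (t : G)
    (a : ℕ) (ht : t ^ (3 ^ a) = 1) (hn : Nonrat N t)
    (h13 : ∀ (g : G) (b : ℕ), g * t = t * g → g ^ (13 ^ b) = 1 → ρ g = 1) :
    ∀ v, ρ t v = v → v = 0 := by
  let C : Subgroup G := Subgroup.centralizer {t}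
  have hC : ∀ g : G, g ∈ C ↔ g * t = t * g := fun g => by
    simp only [C, Subgroup.mem_centralizer_iff, Set.mem_singleton_iff, forall_eq]
    exact eq_comm
  let σ : Representation K C V := ρ.comp C.subtype
  have hσ : ∀ h : C, σ h = ρ (h : G) := fun _ => rfl
  obtain ⟨H', _, _, π, ρ', hπ, -, hρ', hcard, h13'⟩ := exists_faithful σ
  have : Group.IsSolvable H' := Group.isSolvable_of_surjective hπ
  have hH : ¬ 13 ∣ Nat.card H' := h13' fun h a ha => by
    rw [hσ]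
    exact h13 h a ((hC h).1 h.2) (by simpa using congrArg Subtype.val ha)
  have hd : Nat.card H' ∣ N := (hcard.trans (Subgroup.card_subgroup_dvd_card C)).trans hP.1
  have hpw : ∀ (h : C) (j : ℕ), ρ' (π h ^ j) = ρ ((h : G) ^ j) := fun h j => by
    rw [← map_pow, hρ', hσ, Subgroup.coe_pow]
  have hp1 : ∀ h : C, ρ' (π h) = ρ (h : G) := hρ'
  have hto : orderOf t ∣ 3 ^ a := orderOf_dvd_of_pow_eq_one ht
  have ht13 : ¬ 13 ∣ orderOf t := fun h => by
    have h1 := (by norm_num : Nat.Prime 13).dvd_of_dvd_pow (h.trans hto)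
    omega
  let c0 : C := ⟨t, (hC t).2 rfl⟩
  have hcc : ρ' (π c0) = ρ t := hρ' c0
  have key := eg_core ρ' hH N hd hP.2.1 (π c0) a (by
    rw [← map_pow, show c0 ^ 3 ^ a = 1 from Subtype.ext ht, map_one]) (fun g => by
    obtain ⟨h, rfl⟩ := hπ g
    rw [← map_mul, ← map_mul]
    congr 1
    exact Subtype.ext ((hC h).1 h.2)) (fun h' j hj M => by
    obtain ⟨h, rfl⟩ := hπ h'
    rw [hpw, hp1]
    exact (bt_isConj ρ _ _ (sp_sq N hP (h : G) j hj) M).symm) (fun h' j j' hj hj' => by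
    obtain ⟨h, rfl⟩ := hπ h'
    simp only [Sim, hpw, hp1]
    exact (hP.2.2 h j j' hj hj').imp (sim_conj ρ _ _) (Or.imp (sim_conj ρ _ _) (sim_conj ρ _ _)))
    (fun h' h3 => by
      obtain ⟨h, rfl⟩ := hπ h'
      obtain ⟨e, he, -, he', -⟩ := q_part 3 (by norm_num) h
      rw [← he' H' π _ h3 (pow_orderOf_eq_one _)]
      generalize h ^ e = x at he
      have hN := hP.2.1
      obtain ⟨g, hg, hx⟩ := sp_cop N hP (x : G) t ((hC x).1 x.2) (by
        rw [Subgroup.orderOf_coe]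
        exact (((Nat.Prime.coprime_iff_not_dvd (by norm_num)).2 he).symm.pow_right
          a).coprime_dvd_right hto) hn (N - 1) ((Nat.coprime_self_sub_left hN).2 (by simp))
      have hxN : (x : G) ^ N = 1 := orderOf_dvd_iff_pow_eq_one.1 ((orderOf_dvd_natCard _).trans hP.1)
      have hx' : (x : G) ^ (N - 1) = (x : G)⁻¹ :=
        eq_inv_of_mul_eq_one_left (by rw [← pow_succ, Nat.sub_add_cancel hN, hxN])
      rw [← map_inv]
      exact π.map_isConj (isConj_iff.2 ⟨⟨g, (hC g).2 hg⟩, Subtype.ext (hx.trans hx')⟩))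
    (fun v hv l hl => by
      rw [hcc] at hv
      obtain ⟨g, hg, hgv⟩ := sp_eig ρ ι hι N hP t ht13 hn v hv l hl
      exact ⟨π ⟨g, (hC g).2 hg⟩, by rw [hρ']; exact hgv⟩)
  intro v hv
  exact key v (by rw [hcc]; exact hv)

end Pool.Agent.N9181

end

section

namespace Pool.Agent.N9181

open scoped commutatorElement

theorem xssap_cop (N : ℕ) (hN : 0 < N) : (N - 1).Coprime N := by
  obtain ⟨k, rfl⟩ := Nat.exists_eq_add_one_of_ne_zero hN.ne'
  simp

theorem xssap_inv {G : Type} [Group G] [Finite G] (N : ℕ) (hd : Nat.card G ∣ N) (hN : 0 < N)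
    (c : G) : c ^ (N - 1) = c⁻¹ := by
  rw [eq_inv_iff_mul_eq_one, ← pow_succ, Nat.sub_add_cancel hN]
  exact orderOf_dvd_iff_pow_eq_one.1 ((orderOf_dvd_natCard c).trans hd)

theorem xssap_rm2 {V : Type} [AddCommGroup V] [Module K V] [Module.Finite K V]
    {G : Type} [Group G] [Finite G] [Group.IsSolvable G] (ρ : Representation K G V) (ι : V → G)
    (hι : Emb ρ ι) (N : ℕ) (hP : SP G N) (B R Q : Subgroup G) (z : G)
    (hB : ∀ g, g ∈ B ↔ ∃ v, ι v = g) (hD : GD B R Q z) (t : G) (a : ℕ) (ht : t ^ (3 ^ a) = 1)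
    (hf : ∀ x ∈ Q, ⁅x, t⁆ ∈ R → x ∈ R) (hn : Nonrat N t) : ∀ v, ρ t v = v → v = 0 := by
  have hB1 : ∀ b ∈ B, ρ b = 1 := fun b hb => by
    obtain ⟨y, rfl⟩ := (hB b).1 hb
    exact (emb_basic ρ ι hι).2.2.2 y
  have hBn : B.Normal := ⟨fun x hx y => by
    obtain ⟨c, rfl⟩ := (hB x).1 hx
    exact (hB _).2 ⟨_, hι.act y c⟩⟩
  refine thmEG ρ ι hι N hP t a ht hn fun g b hg hb => ?_
  have h1 : g ∈ Q := xrmod_mem Q hD.nQ hD.idx g b hb
  have h2 : g ∈ R := hf g h1 (by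
    rw [commutatorElement_eq_one_iff_mul_comm.2 hg]; exact R.one_mem)
  have h4 : (⟨g, h2⟩ : R) ∈ B.subgroupOf R :=
    xmodc_mem _ (hBn.subgroupOf R) hD.cop _ b (by
      rw [Subgroup.mem_subgroupOf, SubmonoidClass.coe_pow, hb]; exact B.one_mem)
  exact hB1 g h4

theorem xssap_faith {V : Type} [AddCommGroup V] [Module K V] [Module.Finite K V]
    {G : Type} [Group G] [Finite G] [Group.IsSolvable G] (ρ : Representation K G V) (ι : V → G)
    (hι : Emb ρ ι) (N : ℕ) (hP : SP G N) (hirr : Irr ρ) (h13 : T13 ρ) :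
    ∃ (H : Type) (_ : Group H) (_ : Finite H) (_ : Group.IsSolvable H) (π : G →* H)
      (σ : Representation K H V), Function.Surjective π ∧ (∀ h, σ (π h) = ρ h) ∧
      ¬ 13 ∣ Nat.card H ∧ Irr σ ∧ NM H N (N - 1) ∧ HU σ N (N - 1) ∧ HEP σ 3 := by
  obtain ⟨H, _, _, π, σ, hs, hinj, he, hd, hc⟩ := exists_faithful ρ
  have hsol : Group.IsSolvable H := Group.isSolvable_of_surjective hs
  have hP' : SP H N := sp_surj π hs N hP
  have hirr' : Irr σ := ⟨hirr.1, fun W hW => hirr.2 W fun h w hw => he h ▸ hW (π h) w hw⟩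
  have hE : HEP σ 3 := fun v => by
    obtain ⟨g, hg⟩ := ep_of_sq ρ ι hι N hP.1 hP.2.1 (sp_sq N hP) v
    exact ⟨π g, by rw [he, hg]⟩
  have hS : HSq σ N := fun h j hj M => (bt_isConj σ _ _ (sp_sq N hP' h j hj) M).symm
  have hb : HBal3 σ := by
    intro h a v hh hv0 hv
    obtain ⟨g, rfl⟩ := hs h
    obtain ⟨e, b, h1, -, h2⟩ := p_part 3 (by norm_num) g
    rw [← h2 H π a hh, he] at hv ⊢
    generalize g ^ e = t at h1 hv
    have h5 : IsConj t (t ^ (N - 1)) := by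
      by_contra hn
      exact hv0 (thmEG ρ ι hι N hP t b h1 ⟨N - 1, xssap_cop N hP.2.1, hn⟩
        (fun g c _ hg => h13 g c hg) v hv)
    rw [xssap_inv N hP.1 hP.2.1] at h5
    have h6 := ed_inv ρ ⊤ t 9 (by decide)
    rw [edOn_top, edOn_top, show (9 : K)⁻¹ = 3 from inv_eq_of_mul_eq_one_right (by decide)] at h6
    rw [sim_conj ρ _ _ h5 3, h6]
  have hz : Scal σ := thmM2 σ (hc h13) N hP'.1 hP'.2.1 hirr' hS hb hE
  exact ⟨H, _, inferInstance, hsol, π, σ, hs, he, hc h13, hirr',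
    ⟨hP'.1, hP'.2.1, xssap_cop N hP.2.1⟩, sp_HU σ (hc h13) hinj N hP' hz, hE⟩

theorem xssap_rm1 {V : Type} [AddCommGroup V] [Module K V] [Module.Finite K V]
    {G : Type} [Group G] [Finite G] [Group.IsSolvable G] (ρ : Representation K G V) (ι : V → G)
    (hι : Emb ρ ι) (N : ℕ) (hP : SP G N) (hirr : Irr ρ) (h13 : T13 ρ) (c : G)
    (hc : ¬ 13 ∣ orderOf c) (hn : Nonrat N c) : ∀ v, ρ c v = v → v = 0 := by
  obtain ⟨H, _, _, _, π, σ, -, he, hH, -, hNM, hU, -⟩ := xssap_faith ρ ι hι N hP hirr h13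
  have key := atomN hH σ N (N - 1) hNM hU (π c) fun v hv l hl => by
    rw [he] at hv
    obtain ⟨g, -, hg⟩ := sp_eig ρ ι hι N hP c hc hn v hv l hl
    exact ⟨π g, by rw [he, hg]⟩
  intro v hv
  exact key v (by rw [he]; exact hv)

theorem xssap_cm {V : Type} [AddCommGroup V] [Module K V] [Module.Finite K V]
    {G : Type} [Group G] [Finite G] [Group.IsSolvable G] (ρ : Representation K G V) (ι : V → G)
    (hι : Emb ρ ι) (N : ℕ) (hP : SP G N) (hirr : Irr ρ) (h13 : T13 ρ) :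
    Scal ρ ∧ ∃ v, Reg ρ v := by
  have hR : HReal ρ := fun h v hv hh M => by
    obtain ⟨c, h1, h2, h3⟩ := xcopm_part ρ h13 h
    have h5 : IsConj c (c ^ (N - 1)) := by
      by_contra hn
      exact hv (xssap_rm1 ρ ι hι N hP hirr h13 c h1 ⟨N - 1, xssap_cop N hP.2.1, hn⟩ v
        (by rw [h2, hh]))
    rw [← h2, ← h3, ← xssap_inv N hP.1 hP.2.1]
    exact bt_isConj ρ _ _ h5 M
  obtain ⟨H, _, _, _, π, σ, hs, he, hH, hirr', hNM, hU, hE⟩ := xssap_faith ρ ι hι N hP hirr h13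
  obtain ⟨⟨z, hz⟩, v, hv, hv'⟩ := thmM hH σ hirr' N (N - 1) hNM hU
    (fun h v hv hh M => by
      obtain ⟨g, rfl⟩ := hs h
      rw [← map_inv, he, he]
      exact hR g v hv (he g ▸ hh) M) hE
  obtain ⟨g, rfl⟩ := hs z
  refine ⟨⟨g, fun w => by rw [← he, hz]⟩, v, hv, fun h a h1 h2 => ?_⟩
  rw [← he] at h1 h2 ⊢
  exact hv' _ a h1 h2

theorem ap_of_sp {G : Type} [Group G] [Finite G] [Group.IsSolvable G] (N : ℕ) (hP : SP G N) : AP G N := by
  intro G' _ _ f hf
  have : Group.IsSolvable G' := Group.isSolvable_of_surjective hf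
  have hP' := sp_surj f hf N hP
  exact ⟨hP'.1, hP'.2.1, sp_sq N hP',
    fun V _ _ _ ρ ι hι hirr h13 c hc hn => xssap_rm1 ρ ι hι N hP' hirr h13 c hc hn,
    fun V _ _ _ ρ ι hι _ B R Q z hB hD t a ht hf hn =>
      xssap_rm2 ρ ι hι N hP' B R Q z hB hD t a ht hf hn,
    fun V _ _ _ ρ ι hι hirr h13 => xssap_cm ρ ι hι N hP' hirr h13⟩

end Pool.Agent.N9181

end

section

namespace Pool.Agent.N9181

open scoped commutatorElement

theorem sylowSR (P : Type) [Group P] [Finite P] (hP : IsPGroup 13 P)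
    {G : Type} [Group G] [Finite G] [Group.IsSolvable G] (hG : Pool.Agent.MP_9181f8_al.IsSR G) (f : P →* G) (hf : Function.Injective f) :
    (∀ g : P, g ^ 13 = 1) ∧ commutator P ≤ Subgroup.center P :=
  sylowQ P hP (Nat.card G) (ap_of_sp _ (sp_of_sr hG)) f hf

end Pool.Agent.N9181

end
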