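import Pool.Agent.Mg.F9181f8.G5cdca3
import Pool.Agent.Mg.F9181f8.G01f10b
import Pool.Agent.Mg.F9181f8.Ge586db

section

namespace Pool.Agent.N9181

open scoped commutatorElement

theorem ext_hom {G : Type} [Group G] {S : Type} [Monoid S] (R Q T L : Subgroup G)
    (hQ : Q.Normal) (hLT : L ≤ T) (hd : ∀ t ∈ T, ∃ q ∈ Q, q ∈ T ∧ ∃ l ∈ L, t = q * l)
    (hi : ∀ x ∈ L, x ∈ Q → x ∈ R) (h1 : (1 : G) ∈ R) (A : L →* S) (α : G → S)
    (hm : ∀ q ∈ Q, ∀ q' ∈ Q, q ∈ T → q' ∈ T → α (q * q') = α q * α q')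
    (hr : ∀ l : L, (l : G) ∈ R → α l = A l)
    (he : ∀ (l : L), ∀ q ∈ Q, q ∈ T → A l * α q = α (l * q * (l : G)⁻¹) * A l) :
    ∃ τ : T →* S, ∀ l : L, τ ⟨l, hLT l.2⟩ = A l := by
  have key : ∀ q ∈ Q, q ∈ T → ∀ q' ∈ Q, q' ∈ T → ∀ l l' : L, q * l = q' * l' →
      α q * A l = α q' * A l' := by
    intro q hq hqT q' hq' hqT' l l' h
    have e : ((l' * l⁻¹ : L) : G) = q'⁻¹ * q := by
      rw [Subgroup.coe_mul, Subgroup.coe_inv, mul_inv_eq_iff_eq_mul, mul_assoc, h,
        inv_mul_cancel_left]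
    have hx : ((l' * l⁻¹ : L) : G) ∈ Q := e ▸ Q.mul_mem (Q.inv_mem hq') hq
    have h2 := hm q' hq' _ hx hqT' (hLT (l' * l⁻¹).2)
    rw [hr _ (hi _ (l' * l⁻¹).2 hx), e, mul_inv_cancel_left] at h2
    rw [h2, mul_assoc, ← map_mul, inv_mul_cancel_right]
  have h0 : α 1 = 1 := (hr 1 h1).trans (map_one A)
  choose q hq hqT l hl e using fun t : T => hd t t.2
  have hv : ∀ (t : T), ∀ q' ∈ Q, q' ∈ T → ∀ l' : L, t = q' * l' →
      α (q t) * A ⟨l t, hl t⟩ = α q' * A l' := fun t q' hq' hqT' l' h =>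
    key _ (hq t) (hqT t) _ hq' hqT' _ _ ((e t).symm.trans h)
  refine ⟨⟨⟨fun t => α (q t) * A ⟨l t, hl t⟩, ?_⟩, fun t t' => ?_⟩, fun l' => ?_⟩
  · rw [hv 1 1 Q.one_mem T.one_mem 1 (by simp), h0, map_one, one_mul]
  · have h2 : l t * q t' * (l t)⁻¹ ∈ Q := hQ.conj_mem _ (hq t') _
    have h3 : l t * q t' * (l t)⁻¹ ∈ T :=
      T.mul_mem (T.mul_mem (hLT (hl t)) (hqT t')) (T.inv_mem (hLT (hl t)))
    have h4 := he ⟨l t, hl t⟩ _ (hq t') (hqT t')
    dsimp only at h4 ⊢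
    rw [hv (t * t') _ (Q.mul_mem (hq t) h2) (T.mul_mem (hqT t) h3) (⟨l t, hl t⟩ * ⟨l t', hl t'⟩) (by
      rw [Subgroup.coe_mul, Subgroup.coe_mul]
      conv_lhs => rw [e t, e t']
      group), hm _ (hq t) _ h2 (hqT t) h3, map_mul, mul_assoc, ← mul_assoc (α _) (A _) (A _), ← h4]
    simp only [mul_assoc]
  · exact (hv _ 1 Q.one_mem T.one_mem l' (one_mul _).symm).trans (by rw [h0, one_mul])

theorem xqext_ind {G : Type} [Group G] (T : Subgroup G) {U : Type} [AddCommGroup U] [Module ℂ U]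
    (τ0 : Representation ℂ T U) (h0 : IrrF τ0) (n : ℕ) :
    ∀ (M : Type) [AddCommGroup M] [Module ℂ M] [Module.Finite ℂ M] (τ : Representation ℂ G M)
      (j : U →ₗ[ℂ] M), Module.finrank ℂ M = n → j ≠ 0 →
      (∀ (t : T) (u : U), j (τ0 t u) = τ t (j u)) →
    ∃ (M' : Type) (_ : AddCommGroup M') (_ : Module ℂ M') (_ : Module.Finite ℂ M')
      (τ : Representation ℂ G M'), IrrF τ ∧
      ∃ j : U →ₗ[ℂ] M', Function.Injective j ∧ ∀ (t : T) (u : U), j (τ0 t u) = τ t (j u) := by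
  induction n using Nat.strong_induction_on with
  | _ n ih =>
  intro M _ _ _ τ j hn hj ht
  by_cases hirr : IrrF τ
  · refine ⟨M, inferInstance, inferInstance, inferInstance, τ, hirr, j, ?_, ht⟩
    refine LinearMap.ker_eq_bot.1 ((h0.2 _ fun t v hv => ?_).resolve_right
      (mt LinearMap.ker_eq_top.1 hj))
    rw [LinearMap.mem_ker] at hv ⊢
    rw [ht, hv, map_zero]
  obtain ⟨u, hu⟩ := DFunLike.ne_iff.1 hj
  have h1 : ∃ W : Submodule ℂ M, (∀ h, ∀ v ∈ W, τ h v ∈ W) ∧ W ≠ ⊥ ∧ W ≠ ⊤ := by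
    by_contra h
    refine hirr ⟨⟨j u, hu⟩, fun W hW => ?_⟩
    by_contra h2
    exact h ⟨W, hW, not_or.1 h2⟩
  obtain ⟨W, hW, hb, htop⟩ := h1
  have h2 := W.finrank_quotient_add_finrank
  by_cases h3 : ∀ v, j v ∈ W
  · refine ih _ (hn ▸ Submodule.finrank_lt htop) W (τ.subrepresentation W fun g v hv => hW g v hv)
      (j.codRestrict W h3) rfl (fun h => hu ?_) fun t v => Subtype.ext (ht t v)
    exact congrArg Subtype.val (LinearMap.congr_fun h u)
  · have h4 : Module.finrank ℂ W ≠ 0 := mt Submodule.finrank_eq_zero.1 hb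
    refine ih _ (by omega) (M ⧸ W) (τ.quotient W fun g v hv => hW g v hv) (W.mkQ ∘ₗ j) rfl
      (fun h => h3 fun v => ?_) fun t v => congrArg W.mkQ (ht t v)
    exact (Submodule.Quotient.mk_eq_zero W).1 (LinearMap.congr_fun h v)

theorem exists_over {G : Type} [Group G] [Finite G] (T : Subgroup G) {U : Type} [AddCommGroup U] [Module ℂ U]
    [Module.Finite ℂ U] (τ0 : Representation ℂ T U) (h0 : IrrF τ0) :
    ∃ (M' : Type) (_ : AddCommGroup M') (_ : Module ℂ M') (_ : Module.Finite ℂ M')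
      (τ : Representation ℂ G M'), IrrF τ ∧
      ∃ j : U →ₗ[ℂ] M', Function.Injective j ∧ ∀ (t : T) (u : U), j (τ0 t u) = τ t (j u) := by
  classical
  let τ : Representation ℂ G (G → U) :=
    { toFun := fun g => LinearMap.funLeft ℂ U (· * g)
      map_one' := by ext F x; simp
      map_mul' := fun g h => LinearMap.ext fun F => funext fun x => congrArg F (mul_assoc x g h).symm }
  let j : U →ₗ[ℂ] (G → U) := LinearMap.pi fun x => if h : x ∈ T then τ0 ⟨x, h⟩ else 0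
  have hj : ∀ u x, j u x = if h : x ∈ T then τ0 ⟨x, h⟩ u else 0 := fun u x => by
    simp only [j, LinearMap.pi_apply]
    split_ifs <;> rfl
  obtain ⟨v, hv⟩ := h0.1
  refine xqext_ind T τ0 h0 _ (G → U) τ j rfl (fun h => hv ?_) fun t u => funext fun x => ?_
  · have h1 := hj v 1
    rw [dif_pos T.one_mem, h] at h1
    exact (LinearMap.congr_fun (map_one τ0) v).symm.trans h1.symm
  · change j (τ0 t u) x = j u (x * t)
    rw [hj, hj]
    by_cases hx : x ∈ T
    · rw [dif_pos hx, dif_pos (T.mul_mem hx t.2), ← Module.End.mul_apply, ← map_mul]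
      rfl
    · rw [dif_neg hx, dif_neg (mt (T.mul_mem_cancel_right t.2).1 hx)]

end Pool.Agent.N9181

end

section

namespace Pool.Agent.N9181

open scoped commutatorElement

theorem xqtlift_red {M : Type} [AddCommGroup M] [Module Kp M] {R : Type} [Group R] {n : ℕ}
    (b : Module.Basis (Fin n) Kp M) (A : R →* Matrix (Fin n) (Fin n) Oo)
    (σ : R →* Module.End Kp M) (h : ∀ r, (A r).map res = LinearMap.toMatrix b b (σ r))
    (x : MonoidAlgebra Oo R) :
    (gev (RingHom.id Oo) A x).map res = LinearMap.toMatrix b b (gev res σ x) := by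
  refine gev_ind (fun x => (gev (RingHom.id Oo) A x).map res =
    LinearMap.toMatrix b b (gev res σ x)) (by simp) ?_ ?_ x
  · intro x y hx hy
    rw [map_add, map_add, map_add, ← hx, ← hy]
    exact res.mapMatrix.map_add _ _
  · intro r c
    rw [gev_single, gev_single, map_smul, ← h]
    ext i j
    simp

theorem xqtlift_card {G : Type} [Group G] [Finite G] (R L : Subgroup G) (h : R ≤ L)
    (h1 : ¬ 13 ∣ Nat.card R) (h2 : ¬ 13 ∣ R.relIndex L) : ¬ 13 ∣ Nat.card L := by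
  rw [← (R.subgroupOf L).card_mul_index,
    Nat.card_congr (Subgroup.subgroupOfEquivOfLe h).toEquiv]
  intro hd
  exact ((Nat.Prime.dvd_mul (by norm_num)).1 hd).elim h1 h2

theorem tlift {M : Type} [AddCommGroup M] [Module Kp M] [Module.Finite Kp M] {G : Type} [Group G] [Finite G] (R Q : Subgroup G) [R.Normal] {I : Type} [Fintype I] [MulAction G I]
    (e : I → MonoidAlgebra Oo R) (a : I → G → MonoidAlgebra Oo R) (hC : CD R Q I e a) (hQ : RQ R Q) (h13 : ¬ 13 ∣ Nat.card R)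
    (σ : Representation Kp G M) (hσ : IrrF σ) (i : I) (hi : gv res σ R (e i) ≠ 0)
    (L : Subgroup G) (hL : HT R Q (MulAction.stabilizer G i) L) :
    ∃ (n : ℕ) (τ0 : Representation ℂ (MulAction.stabilizer G i) (Fin n → ℂ)), IrrF τ0 ∧
      gev Oo.subtype (τ0.comp (Subgroup.inclusion (hL.le1.trans hL.le2))) (e i) = 1 ∧
      ∀ (l : G) (hl : l ∈ L) (s : Module.End Kp (LinearMap.range (gv res σ R (e i)))),
        (∀ w, (s w : M) = σ l w) → IsCt s (τ0.character ⟨l, hL.le2 hl⟩) := by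
  have hWT : ∀ g : G, g • i = i → ∀ w ∈ LinearMap.range (gv res σ R (e i)),
      σ g w ∈ LinearMap.range (gv res σ R (e i)) := by
    rintro g hg _ ⟨v, rfl⟩
    have h := blk_act res R Q e a hC σ g i
    rw [hg] at h
    exact ⟨σ g v, (LinearMap.congr_fun h v).symm⟩
  obtain ⟨σL, hσL⟩ := exists_resF σ L _ (fun g hg => hWT g (hL.le2 hg))
  have hne : ∃ v : LinearMap.range (gv res σ R (e i)), v ≠ 0 := by
    by_contra h
    push Not at h
    exact hi (LinearMap.ext fun v => congrArg Subtype.val (h ⟨_, v, rfl⟩))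
  have hirr : IrrF σL := by
    refine ⟨hne, fun W' hW' => ?_⟩
    have h1 : ∀ l ∈ L, ∀ w ∈ W'.map (Submodule.subtype _), σ l w ∈ W'.map (Submodule.subtype _) := by
      rintro l hl _ ⟨w, hw, rfl⟩
      exact ⟨_, hW' ⟨l, hl⟩ w hw, hσL ⟨l, hl⟩ w⟩
    have h2 := blk_irr res R Q e a hC σ hσ i (W'.map (Submodule.subtype _))
      (Submodule.map_subtype_le _ _) (fun g hg w hw => by
        obtain ⟨q, hq, hqi, l, hl, rfl⟩ := hL.dec g hg
        have h3 := h1 l hl w hw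
        rw [map_mul, Module.End.mul_apply,
          blk_q R Q e a hC hQ σ hσ i q hq hqi _ (Submodule.map_subtype_le _ _ h3)]
        exact gev_mem res (σ.comp R.subtype) _ (fun r => h1 r (hL.le1 r.2)) _ _ h3)
    refine h2.imp (fun h => ?_) fun h => ?_
    · exact Submodule.map_injective_of_injective (Submodule.injective_subtype _)
        (h.trans (Submodule.map_bot _).symm)
    · exact Submodule.map_injective_of_injective (Submodule.injective_subtype _)
        (h.trans (Submodule.map_subtype_top _).symm)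
  have hcL := xqtlift_card R L hL.le1 h13 hL.cop
  let b := Module.finBasis Kp (LinearMap.range (gv res σ R (e i)))
  obtain ⟨A, hA⟩ := olift hcL σL b
  have hone : gev (RingHom.id Oo) (A.comp (Subgroup.inclusion hL.le1)) (e i) = 1 := by
    have h1 := xqtlift_red b (A.comp (Subgroup.inclusion hL.le1))
      (σL.comp (Subgroup.inclusion hL.le1)) (fun r => hA _) (e i)
    have h2 : gev res (σL.comp (Subgroup.inclusion hL.le1)) (e i) = 1 := by
      refine LinearMap.ext fun w => Subtype.ext ?_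
      refine (gev_int res (σL.comp (Subgroup.inclusion hL.le1)) (σ.comp R.subtype)
        (Submodule.subtype _) (fun r u => hσL ⟨r, hL.le1 r.2⟩ u) (e i) w).trans ?_
      obtain ⟨_, v, rfl⟩ := w
      show (gv res σ R (e i) * gv res σ R (e i)) v = gv res σ R (e i) v
      rw [← map_mul, hC.idem]
    rw [h2, LinearMap.toMatrix_one] at h1
    refine (sub_eq_zero.1 (idem_zero _ ?_ ?_)).symm
    · rw [sub_mul, mul_sub, mul_sub, ← map_mul, hC.idem]
      simp
    · show res.mapMatrix _ = 0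
      rw [map_sub, map_one, RingHom.mapMatrix_apply, h1, sub_self]
  obtain ⟨τ, hτ⟩ := ext_hom R Q (MulAction.stabilizer G i) L hQ.nQ hL.le2 hL.dec
    (rel_int R Q L hQ hL.le1 hL.cop) R.one_mem A
    (fun q => gev (RingHom.id Oo) (A.comp (Subgroup.inclusion hL.le1)) (a i q))
    (fun q hq q' hq' h h' => by rw [hC.mul i q hq q' hq' h h', map_mul])
    (fun l hl => by
      have h := hC.rst i ⟨l, hl⟩
      simp only at h
      simp only [h, map_mul, hone, mul_one, gev_of]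
      rfl)
    (fun l q hq h => by
      have h1 := hC.equi i l q hq h
      rw [show (l : G) • i = i from hL.le2 l.2] at h1
      rw [← h1]
      refine gev_cj _ R _ _ (l : G) (A l) (fun r => ?_) _
      simp only [MonoidHom.comp_apply, ← map_mul]
      congr 1
      apply Subtype.ext
      simp)
  let ψ : Matrix _ _ Oo →+* Module.End ℂ (Fin (Module.finrank Kp
      (LinearMap.range (gv res σ R (e i)))) → ℂ) :=
    (Matrix.toLinAlgEquiv' : _ ≃ₐ[ℂ] _).toRingEquiv.toRingHom.comp Oo.subtype.mapMatrix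
  have hψ : ∀ X, ψ X = Matrix.toLin' (X.map Oo.subtype) := fun _ => rfl
  refine ⟨_, ψ.toMonoidHom.comp τ, ⟨?_, fun W' hW' => ?_⟩, ?_, fun l hl s hs => ?_⟩
  · obtain ⟨v, hv⟩ := hne
    have : Nontrivial (LinearMap.range (gv res σ R (e i))) := ⟨v, 0, hv⟩
    have : Nonempty (Fin (Module.finrank Kp (LinearMap.range (gv res σ R (e i))))) :=
      ⟨⟨0, Module.finrank_pos⟩⟩
    exact exists_ne 0
  · refine oirr σL hirr b A hA W' fun l w hw => ?_
    have h := hW' ⟨l, hL.le2 l.2⟩ w hw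
    rw [← hτ]
    exact h
  · refine (gev_map (RingHom.id Oo) _ (A.comp (Subgroup.inclusion hL.le1)) _ ψ (fun c => ?_)
      (fun r => ?_) _).symm.trans (by rw [hone, map_one])
    · rw [← (Matrix.toLinAlgEquiv' : _ ≃ₐ[ℂ] _).commutes]
      refine congrArg (Matrix.toLinAlgEquiv' : _ ≃ₐ[ℂ] _) ?_
      ext i j
      simp only [RingHom.mapMatrix_apply, Matrix.map_apply, Matrix.algebraMap_matrix_apply]
      split_ifs <;> simp
    · exact congrArg ψ (hτ ⟨r, hL.le1 r.2⟩).symm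
  · refine ⟨_, b, A ⟨l, hl⟩, Nat.card L, hcL, by rw [← map_pow, pow_card_eq_one', map_one], ?_, ?_⟩
    · rw [hA]
      congr 1
      exact LinearMap.ext fun w => Subtype.ext ((hσL _ w).trans (hs w).symm)
    · show _ = LinearMap.trace ℂ _ (ψ (τ ⟨l, hL.le2 hl⟩))
      rw [hτ ⟨l, hl⟩, hψ, Matrix.trace_toLin'_eq]
      exact AddMonoidHom.map_trace Oo.subtype _

end Pool.Agent.N9181

end

section

namespace Pool.Agent.N9181

open scoped commutatorElement

theorem glift {M : Type} [AddCommGroup M] [Module Kp M] [Module.Finite Kp M] {G : Type} [Group G] [Finite G] (R Q : Subgroup G) [R.Normal] {I : Type} [Fintype I] [MulAction G I]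
    (e : I → MonoidAlgebra Oo R) (a : I → G → MonoidAlgebra Oo R) (hC : CD R Q I e a) (hQ : RQ R Q) (h13 : ¬ 13 ∣ Nat.card R)
    (σ : Representation Kp G M) (hσ : IrrF σ) (i : I) (hi : gv res σ R (e i) ≠ 0)
    (L : Subgroup G) (hL : HT R Q (MulAction.stabilizer G i) L) :
    ∃ (M' : Type) (_ : AddCommGroup M') (_ : Module ℂ M') (_ : Module.Finite ℂ M')
      (τ : Representation ℂ G M'), IrrF τ ∧
      gv Oo.subtype τ R (e i) ≠ 0 ∧
      ∀ l ∈ L, ∀ s : Module.End Kp (LinearMap.range (gv res σ R (e i))),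
        (∀ w, (s w : M) = σ l w) →
          IsCt s (LinearMap.trace ℂ M' (τ l * gv Oo.subtype τ R (e i))) := by
  obtain ⟨n, τ0, h0, h1, h2⟩ := tlift R Q e a hC hQ h13 σ hσ i hi L hL
  obtain ⟨M', _, _, _, τ, hτ, j, hj, hjt⟩ := exists_over (MulAction.stabilizer G i) τ0 h0
  have hE : ∀ u, gv Oo.subtype τ R (e i) (j u) = j u := fun u => by
    have := gev_int Oo.subtype (τ0.comp (Subgroup.inclusion (hL.le1.trans hL.le2)))
      (MonoidHom.comp τ R.subtype) j (fun r u => hjt _ u) (e i) u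
    rw [h1] at this
    exact this.symm
  obtain ⟨u0, hu0⟩ := h0.1
  have hj0 : j u0 ≠ 0 := fun h => hu0 (hj (h.trans (map_zero j).symm))
  have hr : LinearMap.range j = LinearMap.range (gv Oo.subtype τ R (e i)) := by
    refine (blk_irr Oo.subtype R Q e a hC τ hτ i (LinearMap.range j) ?_ ?_).resolve_left ?_
    · rintro _ ⟨u, rfl⟩
      exact ⟨j u, hE u⟩
    · rintro g hg _ ⟨u, rfl⟩
      exact ⟨τ0 ⟨g, hg⟩ u, hjt ⟨g, hg⟩ u⟩
    · intro h
      exact hj0 ((Submodule.eq_bot_iff _).1 h _ ⟨u0, rfl⟩)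
  refine ⟨M', inferInstance, inferInstance, inferInstance, τ, hτ, fun h => hj0 ?_,
    fun l hl s hs => ?_⟩
  · rw [← hE, h, LinearMap.zero_apply]
  · let p : M' →ₗ[ℂ] (Fin n → ℂ) := (LinearEquiv.ofInjective j hj).symm.toLinearMap ∘ₗ
      LinearMap.codRestrict (LinearMap.range j) (gv Oo.subtype τ R (e i))
        fun x => hr ▸ ⟨x, rfl⟩
    have hp : ∀ x, j (p x) = gv Oo.subtype τ R (e i) x := fun x =>
      congrArg Subtype.val ((LinearEquiv.ofInjective j hj).apply_symm_apply ⟨_, hr ▸ ⟨x, rfl⟩⟩)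
    have e1 : τ l * gv Oo.subtype τ R (e i) = j ∘ₗ (τ0 ⟨l, hL.le2 hl⟩ ∘ₗ p) := by
      ext x
      rw [LinearMap.comp_apply, LinearMap.comp_apply, hjt, hp]
      rfl
    have e2 : (τ0 ⟨l, hL.le2 hl⟩ ∘ₗ p) ∘ₗ j = τ0 ⟨l, hL.le2 hl⟩ := by
      refine LinearMap.ext fun u => ?_
      rw [LinearMap.comp_apply, LinearMap.comp_apply, hj ((hp _).trans (hE u))]
    rw [e1, LinearMap.trace_comp_comm', e2]
    exact h2 l hl s hs

end Pool.Agent.N9181

end

section

namespace Pool.Agent.N9181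

open scoped commutatorElement

theorem xqhallb_top {G : Type} [Group G] [Finite G] (R Q : Subgroup G) [R.Normal] [hQ : Q.Normal]
    (pw : ∀ k ∈ Q, ∃ a : ℕ, k ^ (13 ^ a) ∈ R) (hi : ¬ 13 ∣ Q.index) :
    ∃ L : Subgroup G, R ≤ L ∧ ¬ 13 ∣ R.relIndex L ∧ (∀ t, ∃ q ∈ Q, ∃ l ∈ L, t = q * l) ∧
      ∀ H : Subgroup G, ¬ 13 ∣ R.relIndex H → ∃ x ∈ Q, ∀ h ∈ H, x * h * x⁻¹ ∈ L := by
  have : Fact (Nat.Prime 13) := ⟨by norm_num⟩
  let f := QuotientGroup.mk' R
  have hf : Function.Surjective f := QuotientGroup.mk'_surjective R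
  have hk : f.ker = R := QuotientGroup.ker_mk' R
  have hc : ∀ H : Subgroup G, R.relIndex H = Nat.card (H.map f) := fun H => by
    rw [← Subgroup.relIndex_ker, hk]
  have hn : (Q.map f).Normal := hQ.map f hf
  have hp : IsPGroup 13 (Q.map f) := by
    rintro ⟨_, k, hkQ, rfl⟩
    obtain ⟨a, ha⟩ := pw k hkQ
    refine ⟨a, Subtype.ext ?_⟩
    change f k ^ 13 ^ a = 1
    rw [← map_pow, ← MonoidHom.mem_ker, hk]
    exact ha
  have hi' : ¬ 13 ∣ (Q.map f).index := fun h => hi (h.trans (Q.index_map_dvd hf))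
  obtain ⟨n, hn'⟩ := IsPGroup.iff_card.1 hp
  obtain ⟨L, hL⟩ := Subgroup.exists_right_complement'_of_coprime (N := Q.map f) (by
    rw [hn']
    exact Nat.Coprime.pow_left n ((Nat.Prime.coprime_iff_not_dvd Fact.out).2 hi'))
  have hd : ∀ g, ∃ q ∈ Q.map f, ∃ l ∈ L, g = q * l := fun g => by
    obtain ⟨⟨q, l⟩, e⟩ := hL.2 g
    exact ⟨q, q.2, l, l.2, e.symm⟩
  refine ⟨L.comap f, fun r hr => ?_, ?_, fun t => ?_, fun H hH => ?_⟩
  · rw [← hk] at hr
    change f r ∈ L
    rw [MonoidHom.mem_ker.1 hr]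
    exact L.one_mem
  · rwa [hc, Subgroup.map_comap_eq_self_of_surjective hf, ← hL.symm.index_eq_card]
  · obtain ⟨_, ⟨q, hq, rfl⟩, l, hl, e⟩ := hd (f t)
    refine ⟨q, hq, q⁻¹ * t, ?_, (mul_inv_cancel_left q t).symm⟩
    change f (q⁻¹ * t) ∈ L
    rwa [map_mul, map_inv, e, inv_mul_cancel_left]
  · obtain ⟨_, ⟨x, hx, rfl⟩, h⟩ := compl_conj (Q.map f) L (H.map f) hn hp
      (fun x h1 h2 => Subgroup.disjoint_def.1 hL.disjoint h2 h1) hd (hc H ▸ hH)
    refine ⟨x, hx, fun y hy => ?_⟩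
    change f (x * y * x⁻¹) ∈ L
    rw [map_mul, map_mul, map_inv]
    exact h _ ⟨y, hy, rfl⟩

theorem hall_T {G : Type} [Group G] [Finite G] (R Q T : Subgroup G) (h : RQ R Q) (hi : ¬ 13 ∣ Q.index)
    (hT : R ≤ T) : ∃ L : Subgroup G, HT R Q T L := by
  have := h.nR
  have := h.nQ
  obtain ⟨L, h1, h2, h3, h4⟩ := xqhallb_top (R.subgroupOf T) (Q.subgroupOf T)
    (fun k hk => h.pw k hk)
    fun hd => hi (hd.trans (Subgroup.relIndex_dvd_index_of_normal Q T))
  have hle : L.map T.subtype ≤ T := Subgroup.map_subtype_le L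
  refine ⟨L.map T.subtype, fun r hr => ⟨⟨r, hT hr⟩, h1 hr, rfl⟩, hle, ?_, fun t ht => ?_,
    fun H hH hc => ?_⟩
  · rw [← Subgroup.relIndex_subgroupOf hle]
    rwa [show (L.map T.subtype).subgroupOf T = L from
      Subgroup.comap_map_eq_self_of_injective T.subtype_injective L]
  · obtain ⟨q, hq, l, hl, e⟩ := h3 ⟨t, ht⟩
    exact ⟨q, hq, q.2, l, ⟨l, hl, rfl⟩, congrArg Subtype.val e⟩
  · obtain ⟨x, hx, hc'⟩ := h4 (H.subgroupOf T) (by rwa [Subgroup.relIndex_subgroupOf hH])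
    exact ⟨x, hx, x.2, fun y hy => ⟨_, hc' ⟨y, hH hy⟩ hy, rfl⟩⟩

end Pool.Agent.N9181

end

section

namespace Pool.Agent.N9181

open scoped commutatorElement

theorem xqfsc_zero {M : Type} [AddCommGroup M] [Module Kp M] [Subsingleton M]
    (s : Module.End Kp M) : IsCt s 0 :=
  ⟨0, Module.Basis.empty M, 1, 1, by norm_num, pow_one _, Subsingleton.elim _ _, by simp⟩

theorem xqfsc_conj {F : Type} [Field F] {M : Type} [AddCommGroup M] [Module F M] {G : Type}
    [Group G] (σ : Representation F G M) (E E' : Module.End F M) (h k l : G)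
    (hE : σ k * E = E' * σ k) (hk : h * k = k * l) (s : Module.End F (LinearMap.range E'))
    (hs : ∀ w, (s w : M) = σ h w) :
    ∃ (φ : LinearMap.range E ≃ₗ[F] LinearMap.range E') (s' : Module.End F (LinearMap.range E)),
      (∀ w, (s' w : M) = σ l w) ∧ ∀ v, φ (s' v) = s (φ v) := by
  let u : M ≃ₗ[F] M := LinearEquiv.ofLinearMap (σ k) (σ k⁻¹)
    (LinearMap.ext (σ.self_inv_apply k)) (LinearMap.ext (σ.inv_self_apply k))
  have h1 : (LinearMap.range E).map (u : M →ₗ[F] M) = LinearMap.range E' := by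
    rw [← LinearMap.range_comp, ← LinearEquiv.range_comp u E']
    exact congrArg LinearMap.range hE
  let φ := u.ofSubmodules _ _ h1
  have h2 : ∀ v, (φ v : M) = σ k v := fun _ => rfl
  have h3 : ∀ v, φ (φ.symm.conj s v) = s (φ v) := fun v => by simp
  refine ⟨φ, φ.symm.conj s, fun w => u.injective ?_, h3⟩
  change σ k _ = σ k _
  rw [← h2, h3, hs, h2, ← Module.End.mul_apply, ← map_mul, hk, map_mul, Module.End.mul_apply]

theorem xqfsc_tr {F : Type} [Field F] {M : Type} [AddCommGroup M] [Module F M] {G : Type}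
    [Group G] (σ : Representation F G M) (E E' : Module.End F M) (h k l : G)
    (hE : σ k * E = E' * σ k) (hk : h * k = k * l) :
    LinearMap.trace F M (σ h * E') = LinearMap.trace F M (σ l * E) := by
  have h1 : σ h * E' = σ k * (σ l * E * σ k⁻¹) := by
    rw [← mul_assoc, ← mul_assoc, ← map_mul, ← hk, map_mul, mul_assoc (σ h), hE, mul_assoc,
      mul_assoc, ← map_mul, mul_inv_cancel, map_one, mul_one]
  rw [h1, LinearMap.trace_mul_comm, mul_assoc, ← map_mul, inv_mul_cancel, map_one, mul_one]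

theorem fsc {M : Type} [AddCommGroup M] [Module Kp M] [Module.Finite Kp M] {G : Type} [Group G] [Finite G] (R Q : Subgroup G) [R.Normal] {I : Type} [Fintype I] [MulAction G I]
    (e : I → MonoidAlgebra Oo R) (a : I → G → MonoidAlgebra Oo R) (hC : CD R Q I e a) (hQ : RQ R Q) (h13 : ¬ 13 ∣ Nat.card R)
    (hidx : ¬ 13 ∣ Q.index) (σ : Representation Kp G M) (hσ : IrrF σ) :
    ∃ (M' : Type) (_ : AddCommGroup M') (_ : Module ℂ M') (_ : Module.Finite ℂ M')
      (τ : Representation ℂ G M'), IrrF τ ∧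
      ∀ h : G, ¬ 13 ∣ orderOf h → ∀ j : I, h • j = j →
        ∀ s : Module.End Kp (LinearMap.range (gv res σ R (e j))), (∀ w, (s w : M) = σ h w) →
          IsCt s (LinearMap.trace ℂ M' (τ h * gv Oo.subtype τ R (e j))) := by
  obtain ⟨i, hi⟩ := blk_ex res R Q e a hC σ hσ
  obtain ⟨L, hL⟩ := hall_T R Q (MulAction.stabilizer G i) hQ hidx fun r hr => hC.triv r hr i
  obtain ⟨M', _, _, _, τ, hτ, hτi, H⟩ := glift R Q e a hC hQ h13 σ hσ i hi L hL
  refine ⟨M', _, _, inferInstance, τ, hτ, fun h hh j hj s hs => ?_⟩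
  by_cases hg : ∃ g : G, g • i = j
  · obtain ⟨g, hg⟩ := hg
    have hx : (g⁻¹ * h * g) • i = i := by rw [mul_smul, mul_smul, hg, hj, ← hg, inv_smul_smul]
    obtain ⟨y, -, hy, hl⟩ := hL.cnj (Subgroup.zpowers (g⁻¹ * h * g))
      (Subgroup.zpowers_le_of_mem hx) fun hd => hh (by
        have h1 := hd.trans (Subgroup.relIndex_dvd_card R _)
        rw [Nat.card_zpowers] at h1
        have h2 := conj_pow (i := orderOf h) (a := g⁻¹) (b := h)
        rw [inv_inv, pow_orderOf_eq_one, mul_one, inv_mul_cancel] at h2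
        exact h1.trans (orderOf_dvd_of_pow_eq_one h2))
    have hk : (g * y⁻¹) • i = j := by
      rw [mul_smul, show y⁻¹ • i = i from (MulAction.stabilizer G i).inv_mem hy, hg]
    have hm : h * (g * y⁻¹) = g * y⁻¹ * (y * (g⁻¹ * h * g) * y⁻¹) := by group
    obtain ⟨φ, s', h1, h2⟩ := xqfsc_conj σ _ _ _ _ _
      (hk ▸ blk_act res R Q e a hC σ (g * y⁻¹) i) hm s hs
    rw [xqfsc_tr τ _ _ _ _ _ (hk ▸ blk_act Oo.subtype R Q e a hC τ (g * y⁻¹) i) hm]
    exact isCt_conj φ s' s h2 _ (H _ (hl _ (Subgroup.mem_zpowers _)) s' h1)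
  · have h1 : gv res σ R (e j) = 0 :=
      by_contra fun h1 => hg (blk_orbit res R Q e a hC σ hσ i j hi h1)
    have h2 : gv Oo.subtype τ R (e j) = 0 :=
      by_contra fun h2 => hg (blk_orbit Oo.subtype R Q e a hC τ hτ i j hτi h2)
    have : Subsingleton (LinearMap.range (gv res σ R (e j))) :=
      Submodule.subsingleton_iff_eq_bot.2 (LinearMap.range_eq_bot.2 h1)
    rw [h2, mul_zero, map_zero]
    exact xqfsc_zero s

end Pool.Agent.N9181

end

section

namespace Pool.Agent.N9181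

open scoped commutatorElement

theorem xqfs_card {G : Type} [Group G] [Finite G] (R : Subgroup G) [R.Normal]
    (h13 : ¬ 13 ∣ Nat.card R) (h : G) (hh : ¬ 13 ∣ orderOf h) :
    ¬ 13 ∣ Nat.card ↥(R ⊔ Subgroup.zpowers h) := by
  rw [← (R.subgroupOf (R ⊔ Subgroup.zpowers h)).card_mul_index,
    Nat.card_congr (Subgroup.subgroupOfEquivOfLe le_sup_left).toEquiv]
  intro hd
  rcases (Nat.Prime.dvd_mul (by norm_num)).1 hd with h1 | h1
  · exact h13 h1
  · change 13 ∣ R.relIndex (R ⊔ Subgroup.zpowers h) at h1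
    rw [Subgroup.relIndex_sup_left] at h1
    have h2 := h1.trans (Subgroup.relIndex_dvd_card R _)
    rw [Nat.card_zpowers] at h2
    exact hh h2

theorem fs {M : Type} [AddCommGroup M] [Module Kp M] [Module.Finite Kp M] {G : Type} [Group G] [Finite G] (R Q : Subgroup G) (hQ : RQ R Q) (h13 : ¬ 13 ∣ Nat.card R)
    (hidx : ¬ 13 ∣ Q.index) (σ : Representation Kp G M) (hσ : IrrF σ) :
    ∃ (M' : Type) (_ : AddCommGroup M') (_ : Module ℂ M') (_ : Module.Finite ℂ M')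
      (τ : Representation ℂ G M'), IrrF τ ∧
      ∀ h : G, ¬ 13 ∣ orderOf h → IsCt (σ h) (τ.character h) := by
  classical
  have := hQ.nR
  obtain ⟨I, _, _, e, a, hC⟩ := canO R Q hQ h13
  obtain ⟨M', _, _, _, τ, hτ, H⟩ := fsc R Q e a hC hQ h13 hidx σ hσ
  refine ⟨M', _, _, inferInstance, τ, hτ, fun h hh => ?_⟩
  have hcard := xqfs_card R h13 h hh
  set L := R ⊔ Subgroup.zpowers h with hL
  have hRL : R ≤ L := le_sup_left
  have hhL : h ∈ L := Subgroup.mem_sup_right (Subgroup.mem_zpowers h)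
  let b := Module.finBasis Kp M
  obtain ⟨A, hA⟩ := olift hcard (σ.comp L.subtype) b
  let ga := gev (RingHom.id Oo) (A.comp (Subgroup.inclusion hRL))
  have hga : ∀ x, (ga x).map res = LinearMap.toMatrix b b (gv res σ R x) := by
    intro x
    have h1 := gev_map (RingHom.id Oo) res (A.comp (Subgroup.inclusion hRL))
      ((LinearMap.toMatrixAlgEquiv b).toMulEquiv.toMonoidHom.comp (σ.comp R.subtype))
      (RingHom.mapMatrix res)
      (fun c => by
        ext i j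
        by_cases hij : i = j <;> simp [Matrix.algebraMap_matrix_apply, hij])
      (fun r => hA _) x
    have h2 := gev_map res res (σ.comp R.subtype)
      ((LinearMap.toMatrixAlgEquiv b).toMulEquiv.toMonoidHom.comp (σ.comp R.subtype))
      (LinearMap.toMatrixAlgEquiv b).toRingEquiv.toRingHom
      (fun c => (LinearMap.toMatrixAlgEquiv b).commutes _) (fun r => rfl) x
    exact h1.trans h2.symm
  have hact : ∀ i, A ⟨h, hhL⟩ * ga (e i) = ga (e (h • i)) * A ⟨h, hhL⟩ := by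
    intro i
    rw [← hC.act]
    refine gev_cj _ R _ _ h _ (fun r => ?_) _
    simp only [MonoidHom.comp_apply, ← map_mul]
    congr 1
    ext
    simp
  have hpow : A ⟨h, hhL⟩ ^ Nat.card L = 1 := by rw [← map_pow, pow_card_eq_one', map_one]
  refine ⟨_, b, A ⟨h, hhL⟩, Nat.card L, hcard, hpow, hA _, ?_⟩
  have t1 := tr_blocks (Matrix.traceAddMonoidHom (Fin (Module.finrank Kp M)) Oo)
    (fun x y => Matrix.trace_mul_comm x y) (fun i => ga (e i))
    (by rw [← map_sum, hC.sum, map_one]) (fun i => by rw [← map_mul, hC.idem])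
    (fun i j hij => by rw [← map_mul, hC.orth i j hij, map_zero]) (A ⟨h, hhL⟩) (fun i => h • i) hact
  have t2 := tr_blocks (LinearMap.trace ℂ M').toAddMonoidHom
    (fun x y => LinearMap.trace_mul_comm ℂ x y) (fun i => gv Oo.subtype τ R (e i))
    (by rw [← map_sum, hC.sum, map_one]) (fun i => by rw [← map_mul, hC.idem])
    (fun i j hij => by rw [← map_mul, hC.orth i j hij, map_zero]) (τ h) (fun i => h • i)
    (fun i => blk_act Oo.subtype R Q e a hC τ h i)
  refine (congrArg Oo.subtype t1).trans ?_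
  rw [map_sum]
  refine Eq.trans (Finset.sum_congr rfl fun j hj => ?_) t2.symm
  have hj' : h • j = j := (Finset.mem_filter.1 hj).2
  have hcm : σ h * gv res σ R (e j) = gv res σ R (e j) * σ h := by
    rw [blk_act res R Q e a hC σ h j, hj']
  let s : Module.End Kp (LinearMap.range (gv res σ R (e j))) :=
    (σ h).restrict (fun w ⟨u, hu⟩ => ⟨σ h u, by
      rw [← hu]; exact (LinearMap.congr_fun hcm u).symm⟩)
  refine isCt_unique s _ _ ?_ (H h hh j hj' s fun w => rfl)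
  exact oct_idem b (σ h) (gv res σ R (e j)) _ _ (Nat.card L) hcard hpow
    (by rw [← map_mul, hC.idem]) (by rw [hact, hj']) (hA _) (hga _) s fun w => rfl

end Pool.Agent.N9181

end

section

namespace Pool.Agent.N9181

open scoped commutatorElement

section Abs

variable {F X : Type} [Field F] [AddCommGroup X] [Module F X] {φ : F →+* F}

theorem xqfrob_phi {ι : Type} (B : Module.Basis ι F X) (φ : F →+* F) :
    ∃ Φ : X →ₛₗ[φ] X, ∀ x i, B.repr (Φ x) i = φ (B.repr x i) :=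
  ⟨B.repr.symm.toLinearMap ∘ₛₗ Finsupp.mapRange.linearMap φ.toSemilinearMap ∘ₛₗ B.repr.toLinearMap,
    fun x i => by simp⟩

theorem xqfrob_fix {ι : Type} (B : Module.Basis ι F X) {Φ : X →ₛₗ[φ] X}
    (hΦ : ∀ x i, B.repr (Φ x) i = φ (B.repr x i)) (W : Submodule F X) (h0 : W ≠ ⊥)
    (hW : ∀ w ∈ W, Φ w ∈ W) : ∃ w ∈ W, w ≠ 0 ∧ Φ w = w := by
  obtain ⟨w, ⟨h1, h2⟩, h3⟩ := exists_minimalFor_of_wellFoundedLT (fun w => w ∈ W ∧ w ≠ 0)
    (fun w => (B.repr w).support) ((Submodule.ne_bot_iff W).1 h0)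
  obtain ⟨i, hi⟩ := Finsupp.support_nonempty_iff.2 (B.repr.map_ne_zero_iff.2 h2)
  have hc := Finsupp.mem_support_iff.1 hi
  have h4 := W.smul_mem (B.repr w i)⁻¹ h1
  refine ⟨_, h4, smul_ne_zero (inv_ne_zero hc) h2, sub_eq_zero.1 (by_contra fun h => ?_)⟩
  have h5 := h3 ⟨W.sub_mem (hW _ h4) h4, h⟩ (fun j hj => Finsupp.mem_support_iff.2 fun e =>
    Finsupp.mem_support_iff.1 hj (by rw [map_sub, Finsupp.sub_apply, hΦ]; simp [e])) hi
  refine Finsupp.mem_support_iff.1 h5 ?_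
  rw [map_sub, Finsupp.sub_apply, hΦ, map_smul, Finsupp.smul_apply, smul_eq_mul,
    inv_mul_cancel₀ hc, map_one, sub_self]

theorem xqfrob_sup [Module.Finite F X] (a : Module.End F X) (c : F) {W S : Submodule F X}
    (hW : ∀ w ∈ W, a w ∈ W) (hS : ∀ w ∈ S, a w ∈ S) (h : W ⊓ S = ⊥) :
    Module.finrank F ((W ⊔ S) ⊓ a.eigenspace c : Submodule F X) =
      Module.finrank F (W ⊓ a.eigenspace c : Submodule F X) +
        Module.finrank F (S ⊓ a.eigenspace c : Submodule F X) := by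
  have h1 : (W ⊔ S) ⊓ a.eigenspace c = W ⊓ a.eigenspace c ⊔ S ⊓ a.eigenspace c := by
    refine le_antisymm ?_ (sup_le (inf_le_inf_right _ le_sup_left) (inf_le_inf_right _ le_sup_right))
    rintro x ⟨h2, h3⟩
    obtain ⟨y, hy, z, hz, rfl⟩ := Submodule.mem_sup.1 h2
    have h4 : a y - c • y = -(a z - c • z) := by
      have := Module.End.mem_eigenspace_iff.1 h3
      rw [map_add, smul_add] at this
      linear_combination (norm := module) this
    have h5 : a y - c • y ∈ W ⊓ S := ⟨W.sub_mem (hW y hy) (W.smul_mem c hy),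
      h4 ▸ S.neg_mem (S.sub_mem (hS z hz) (S.smul_mem c hz))⟩
    rw [h, Submodule.mem_bot] at h5
    exact Submodule.add_mem_sup ⟨hy, Module.End.mem_eigenspace_iff.2 (sub_eq_zero.1 h5)⟩
      ⟨hz, Module.End.mem_eigenspace_iff.2 (sub_eq_zero.1 (neg_eq_zero.1 (h4 ▸ h5)))⟩
  have h2 : W ⊓ a.eigenspace c ⊓ (S ⊓ a.eigenspace c) = ⊥ :=
    le_bot_iff.1 ((inf_le_inf inf_le_left inf_le_left).trans h.le)
  rw [h1, ← Submodule.finrank_sup_add_finrank_inf_eq, h2, finrank_bot, add_zero]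

variable [RingHomSurjective φ] {Φ : X →ₛₗ[φ] X}

theorem xqfrob_map (hi : Function.Injective Φ) (a : Module.End F X) (ha : ∀ x, Φ (a x) = a (Φ x))
    (c : F) (S : Submodule F X) :
    Module.finrank F (S.map Φ ⊓ a.eigenspace (φ c) : Submodule F X) =
      Module.finrank F (S ⊓ a.eigenspace c : Submodule F X) := by
  have h1 : S.map Φ ⊓ a.eigenspace (φ c) = (S ⊓ a.eigenspace c).map Φ := by
    ext x
    simp only [Submodule.mem_inf, Submodule.mem_map, Module.End.mem_eigenspace_iff]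
    constructor
    · rintro ⟨⟨y, h1, rfl⟩, h2⟩
      exact ⟨y, ⟨h1, hi (by rw [ha, h2, map_smulₛₗ])⟩, rfl⟩
    · rintro ⟨y, ⟨h1, h2⟩, rfl⟩
      exact ⟨⟨y, h1, rfl⟩, by rw [← ha, h2, map_smulₛₗ]⟩
  rw [h1]
  exact congrArg Cardinal.toNat (rank_eq_of_equiv_equiv φ (AddEquiv.ofBijective
    (Φ.submoduleMap _).toAddMonoidHom ⟨LinearMap.submoduleMap_injective hi _,
      LinearMap.submoduleMap_surjective _ _⟩) ⟨φ.injective, φ.surjective⟩
    fun r m => map_smulₛₗ (Φ.submoduleMap _) r m).symm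

theorem xqfrob_abs [Module.Finite F X] {G : Type} (τ : G → Module.End F X)
    (hi : Function.Injective Φ) (hc : ∀ g x, Φ (τ g x) = τ g (Φ x))
    (hd : ∀ W : Submodule F X, W ≠ ⊥ → (∀ g, ∀ w ∈ W, τ g w ∈ W) → (∀ w ∈ W, Φ w ∈ W) → W = ⊤)
    {M : Submodule F X} (hM : Minimal (fun W => W ≠ ⊥ ∧ ∀ g, ∀ w ∈ W, τ g w ∈ W) M) (h h' : G)
    (hP : ∀ c, Module.finrank F (M ⊓ (τ h).eigenspace c : Submodule F X) =
      Module.finrank F (M ⊓ (τ h').eigenspace c : Submodule F X)) (c : F) :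
    edF (τ h) c = edF (τ h') c := by
  let P : Submodule F X → Prop := fun W => ∀ c,
    Module.finrank F (W ⊓ (τ h).eigenspace c : Submodule F X) =
      Module.finrank F (W ⊓ (τ h').eigenspace c : Submodule F X)
  let T : Set (Submodule F X) :=
    {S | Minimal (fun W => W ≠ ⊥ ∧ ∀ g, ∀ w ∈ W, τ g w ∈ W) S ∧ P S}
  have h1 : ∀ S ∈ T, S.map Φ ∈ T := by
    rintro S ⟨⟨⟨a1, a2⟩, a3⟩, a4⟩
    refine ⟨⟨⟨fun e => a1 ?_, ?_⟩, fun W hW e => ?_⟩, fun c => ?_⟩
    · rw [← Submodule.comap_map_eq_of_injective hi S, e, Submodule.comap_bot,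
        LinearMap.ker_eq_bot.2 hi]
    · rintro g _ ⟨w, hw, rfl⟩
      exact ⟨_, a2 g w hw, hc g w⟩
    · refine Submodule.map_le_iff_le_comap.2 (a3 ⟨fun e' => hW.1 (eq_bot_iff.2 fun w hw => ?_),
        fun g w hw => ?_⟩ ((Submodule.comap_mono e).trans
          (Submodule.comap_map_eq_of_injective hi S).le))
      · obtain ⟨y, -, rfl⟩ := e hw
        rw [(Submodule.eq_bot_iff _).1 e' y hw, map_zero]
        exact Submodule.zero_mem _
      · exact Submodule.mem_comap.2 (hc g w ▸ hW.2 g _ hw)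
    · obtain ⟨c, rfl⟩ := φ.surjective c
      rw [xqfrob_map hi _ (hc h), xqfrob_map hi _ (hc h'), a4]
  obtain ⟨W, ⟨a1, a2, a3⟩, a4⟩ := exists_maximal_of_wellFoundedGT
    (fun W => W ≤ sSup T ∧ (∀ g, ∀ w ∈ W, τ g w ∈ W) ∧ P W)
    ⟨M, le_sSup ⟨hM, hP⟩, hM.1.2, hP⟩
  have h2 : ∀ S ∈ T, S ≤ W := by
    intro S hS
    obtain ⟨⟨⟨b1, b2⟩, b3⟩, b4⟩ := id hS
    by_cases e : W ⊓ S = ⊥
    · refine le_sup_right.trans (a4 ⟨sup_le a1 (le_sSup hS), fun g w hw => ?_, fun c => ?_⟩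
        le_sup_left)
      · obtain ⟨y, hy, z, hz, rfl⟩ := Submodule.mem_sup.1 hw
        rw [map_add]
        exact Submodule.add_mem_sup (a2 g y hy) (b2 g z hz)
      · rw [xqfrob_sup _ _ (a2 h) (b2 h) e, xqfrob_sup _ _ (a2 h') (b2 h') e, a3, b4]
    · exact (b3 ⟨e, fun g w hw => ⟨a2 g w hw.1, b2 g w hw.2⟩⟩ inf_le_right).trans inf_le_left
  have h3 := hd W (fun e => hM.1.1 (le_bot_iff.1 (e ▸ h2 M ⟨hM, hP⟩))) a2 fun w hw =>
    (sSup_le fun S hS => Submodule.map_le_iff_le_comap.1 (h2 _ (h1 S hS)) : _ ≤ W.comap Φ) (a1 hw)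
  have h4 := a3 c
  rwa [h3, top_inf_eq, top_inf_eq] at h4

end Abs

theorem xqfrob_res {F X : Type} [Field F] [AddCommGroup X] [Module F X]
    (W : Submodule F X) (a : Module.End F X) (s : Module.End F W)
    (hs : ∀ w : W, (s w : X) = a w) (c : F) :
    edF s c = Module.finrank F (W ⊓ a.eigenspace c : Submodule F X) := by
  unfold edF
  rw [← Submodule.finrank_map_subtype_eq]
  suffices h : Submodule.map W.subtype (s.eigenspace c) = W ⊓ a.eigenspace c by rw [h]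
  ext v
  simp only [Submodule.mem_map, Module.End.mem_eigenspace_iff, Submodule.mem_inf,
    Submodule.subtype_apply]
  constructor
  · rintro ⟨w, hw, rfl⟩
    exact ⟨w.2, by rw [← hs, hw]; rfl⟩
  · rintro ⟨h1, h2⟩
    exact ⟨⟨v, h1⟩, Subtype.ext (by rw [hs]; exact h2), rfl⟩

open TensorProduct in
theorem frob {V : Type} [AddCommGroup V] [Module K V] [Module.Finite K V]
    {G : Type} [Group G] (ρ : Representation K G V) (hirr : Irr ρ) :
    ∃ (X : Type) (_ : AddCommGroup X) (_ : Module Kp X) (_ : Module.Finite Kp X)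
      (τ : Representation Kp G X) (M : Type) (_ : AddCommGroup M) (_ : Module Kp M)
      (_ : Module.Finite Kp M) (σ : Representation Kp G M), IrrF σ ∧
      (∀ (h : G) (g : Polynomial K),
        Module.finrank Kp (LinearMap.ker (Polynomial.aeval (τ h) (g.map (algebraMap K Kp)))) =
          Module.finrank K (LinearMap.ker (Polynomial.aeval (ρ h) g))) ∧
      ∀ h h' : G, (∀ c, edF (σ h) c = edF (σ h') c) → ∀ c, edF (τ h) c = edF (τ h') c := by
  let τ : Representation Kp G (Kp ⊗[K] V) :=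
    { toFun := fun h => (ρ h).baseChange Kp
      map_one' := by rw [map_one]; exact LinearMap.baseChange_one K V
      map_mul' := fun a b => by rw [map_mul]; exact LinearMap.baseChange_mul _ _ }
  have hτ : ∀ h, τ h = (ρ h).baseChange Kp := fun _ => rfl
  let b := Module.finBasis K V
  let B := Algebra.TensorProduct.basis Kp b
  have hB : ∀ v i, B.repr (1 ⊗ₜ v) i = algebraMap K Kp (b.repr v i) := fun v i => by
    rw [Algebra.TensorProduct.basis_repr_tmul, one_smul, Finsupp.mapRange_apply]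
  have : RingHomSurjective (frobenius Kp 13) := ⟨(bijective_frobenius Kp 13).2⟩
  obtain ⟨Φ, hΦ⟩ := xqfrob_phi B (frobenius Kp 13)
  have h1 : ∀ v, Φ (1 ⊗ₜ v) = 1 ⊗ₜ v := fun v => B.ext_elem fun i => by
    rw [hΦ, hB, frobenius_def, ← map_pow, ZMod.pow_card]
  obtain ⟨v, hv⟩ := hirr.1
  obtain ⟨M, hM⟩ := exists_minimal_of_wellFoundedLT
    (fun W : Submodule Kp (Kp ⊗[K] V) => W ≠ ⊥ ∧ ∀ g, ∀ w ∈ W, τ g w ∈ W)
    ⟨⊤, (Submodule.ne_bot_iff _).2 ⟨1 ⊗ₜ v, trivial, fun e => hv (b.ext_elem fun i =>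
      (algebraMap K Kp).injective (by rw [← hB, e]; simp))⟩, fun _ _ _ => trivial⟩
  refine ⟨Kp ⊗[K] V, inferInstance, inferInstance, inferInstance, τ, M, inferInstance,
    inferInstance, inferInstance, τ.subrepresentation M hM.1.2, ⟨?_, fun W hW => ?_⟩,
    fun h g => by rw [hτ, xbasech_aeval, xbasech_ker], fun h h' hP => ?_⟩
  · obtain ⟨w, h2, h3⟩ := (Submodule.ne_bot_iff _).1 hM.1.1
    exact ⟨⟨w, h2⟩, fun e => h3 (congrArg Subtype.val e)⟩
  · refine or_iff_not_imp_left.2 fun e => eq_top_iff.2 fun w _ => ?_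
    obtain ⟨y, h2, h3⟩ := hM.2 (y := W.map M.subtype) ⟨fun e' => e (by
      rw [← Submodule.comap_map_eq_of_injective M.injective_subtype W, e', Submodule.comap_bot,
        Submodule.ker_subtype]), by
      rintro g _ ⟨y, hy, rfl⟩
      exact ⟨_, hW g y hy, rfl⟩⟩ (Submodule.map_subtype_le _ _) w.2
    exact Subtype.ext h3 ▸ h2
  refine xqfrob_abs (Φ := Φ) τ (fun x y e => B.ext_elem fun i => (frobenius Kp 13).injective
    (by rw [← hΦ, e, hΦ])) (fun g => LinearMap.congr_fun (B.ext (f₁ := Φ ∘ₛₗ τ g)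
      (f₂ := τ g ∘ₛₗ Φ) fun i => ?_)) (fun W a1 a2 a3 => ?_) hM h h' fun c => ?_
  · rw [Algebra.TensorProduct.basis_apply, LinearMap.comp_apply, LinearMap.comp_apply, h1, hτ,
      LinearMap.baseChange_tmul, h1]
  · obtain ⟨w, b1, b2, b3⟩ := xqfrob_fix B hΦ W a1 a3
    have b4 : ∀ i, ∃ c, algebraMap K Kp c = B.repr w i := fun i => by
      have b5 := hΦ w i
      rw [b3, frobenius_def, eq_comm, ← Subfield.mem_bot_iff_pow_eq_self,
        ← ZMod.fieldRange_castHom_eq_bot 13] at b5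
      exact b5
    choose c hc using b4
    obtain rfl : 1 ⊗ₜ b.equivFun.symm c = w := B.ext_elem fun i => by
      rw [hB, ← hc, ← b.equivFun_apply, LinearEquiv.apply_symm_apply]
    rcases hirr.2 ((W.restrictScalars K).comap (TensorProduct.mk K Kp V 1))
      (fun g u hu => a2 g _ hu) with e | e
    · exact absurd (by rw [(Submodule.eq_bot_iff _).1 e _ b1, tmul_zero]) b2
    · rw [eq_top_iff, ← B.span_eq, Submodule.span_le]
      rintro _ ⟨i, rfl⟩
      rw [Algebra.TensorProduct.basis_apply]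
      exact e.ge (Submodule.mem_top (x := b i))
  · rw [← xqfrob_res M _ (τ.subrepresentation M hM.1.2 h) fun _ => rfl, hP,
      xqfrob_res M (τ h') _ fun _ => rfl]

end Pool.Agent.N9181

end

section

namespace Pool.Agent.N9181

open scoped commutatorElement

theorem qp_U {V : Type} [AddCommGroup V] [Module K V] [Module.Finite K V]
    {G : Type} [Group G] [Finite G] (ρ : Representation K G V) (hirr : Irr ρ) (N : ℕ) (hP : QP G N) (R Q : Subgroup G) (hQ : RQ R Q)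
    (h13 : ¬ 13 ∣ Nat.card R) (hidx : ¬ 13 ∣ Q.index) : ∃ m : ℕ, m.Coprime N ∧ HU' ρ N m := by
  obtain ⟨X, _, _, _, τ, M, _, _, _, σ, hσ, hker, hed⟩ := frob ρ hirr
  obtain ⟨M', _, _, _, χ, hχ, hct⟩ := fs R Q hQ h13 hidx σ hσ
  have hp : ∀ (h : G) (k : ℕ), ¬ 13 ∣ orderOf h → ¬ 13 ∣ orderOf (h ^ k) :=
    fun h k hh hk => hh (hk.trans (orderOf_pow_dvd k))
  have key : ∀ (h : G) (a b : ℕ), ¬ 13 ∣ orderOf h →
      (∀ g, χ.character (g ^ a) = χ.character (g ^ b)) →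
      ∀ L, bt (ρ (h ^ a)) L = bt (ρ (h ^ b)) L := by
    intro h a b hh hab L
    have h1 : ∀ c, (h ^ c) ^ orderOf h = 1 := fun c => by
      rw [← pow_mul, mul_comm, pow_mul, pow_orderOf_eq_one, one_pow]
    have e1 := ochar (σ (h ^ a)) (σ (h ^ b)) _ hh (by rw [← map_pow, h1, map_one])
      (by rw [← map_pow, h1, map_one]) (fun k => χ.character ((h ^ k) ^ a))
      (fun k => by
        rw [← map_pow, pow_right_comm]
        exact hct _ (hp _ _ (hp _ _ hh)))
      (fun k => by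
        rw [← map_pow, pow_right_comm, hab]
        exact hct _ (hp _ _ (hp _ _ hh)))
    obtain ⟨e, he⟩ := conj_of_ker (ρ (h ^ a)) (ρ (h ^ b)) _ hh (by rw [← map_pow, h1, map_one])
      (by rw [← map_pow, h1, map_one]) fun g => by
        rw [← hker, ← hker]
        exact ker_ed _ _ _ hh (by rw [← map_pow, h1, map_one]) (by rw [← map_pow, h1, map_one])
          (hed _ _ e1) _
    exact bt_conj e _ _ he L
  obtain ⟨m, hm, hmm, hj⟩ : ∃ m : ℕ, m.Coprime N ∧ SS χ (m * m) ∧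
      ∀ j : ℕ, j.Coprime N → SS χ j ∨ SS χ (j * m) := by
    by_cases hall : ∀ j : ℕ, j.Coprime N → SS χ j
    · exact ⟨1, Nat.coprime_one_left N, hall 1 (Nat.coprime_one_left N),
        fun j hj => Or.inl (hall j hj)⟩
    · obtain ⟨m, hm⟩ := not_forall.1 hall
      obtain ⟨hm, hm'⟩ := Classical.not_imp.1 hm
      refine ⟨m, hm, ?_, fun j hj => ?_⟩
      · exact ((hP.2.2 M' χ hχ m m hm hm).resolve_left hm').resolve_left hm'
      · exact (hP.2.2 M' χ hχ j m hj hm).imp_right fun h => h.resolve_left hm'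
  refine ⟨m, hm, fun h hh j hj' L => ?_⟩
  have k1 : ∀ a, SS χ a → bt (ρ (h ^ a)) L = bt (ρ h) L := fun a ha => by
    have := key h a 1 hh (fun g => by rw [ha, pow_one]) L
    rwa [pow_one] at this
  rcases hj j hj' with hs | hs
  · rw [k1 j hs, key h (j * m) m hh (fun g => by rw [mul_comm, pow_mul, hs]) L]
  · rw [k1 _ hs, add_comm, key h j m hh (fun g => by
      rw [← hmm (g ^ j), ← hs (g ^ m), ← pow_mul, ← pow_mul, mul_left_comm]) L]

theorem qp_U2 {V : Type} [AddCommGroup V] [Module K V] [Module.Finite K V]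
    {G : Type} [Group G] [Finite G] (ρ : Representation K G V) (hirr : Irr ρ) (N : ℕ) (hP : QP G N) (B R Q : Subgroup G) (hQ : RQ R Q)
    (hB : ∀ b ∈ B, ρ b = 1) (h13 : ¬ 13 ∣ B.relIndex R) (hidx : ¬ 13 ∣ Q.index) :
    ∃ m : ℕ, m.Coprime N ∧ HU' ρ N m := by
  obtain ⟨H, _, _, π, ρ', hs, hi, he, -⟩ := exists_faithful ρ
  have hk : B ≤ π.ker := fun b hb => hi (by rw [he, hB b hb, map_one])
  obtain ⟨m, hm, hU⟩ := qp_U ρ' ⟨hirr.1, fun W hW => hirr.2 W fun h => he h ▸ hW (π h)⟩ N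
    (qp_surj π hs N hP) (R.map π) (Q.map π)
    ⟨hQ.nR.map π hs, hQ.nQ.map π hs, Subgroup.map_mono hQ.le, by
      rintro _ ⟨k, hk, rfl⟩
      obtain ⟨a, ha⟩ := hQ.pw k hk
      exact ⟨a, k ^ 13 ^ a, ha, map_pow _ _ _⟩⟩
    (fun h => h13 (h.trans (by
      rw [← Subgroup.relIndex_ker]
      exact Subgroup.relIndex_dvd_of_le_left R hk)))
    (fun h => hidx (h.trans (Q.index_map_dvd hs)))
  refine ⟨m, hm, fun h hh j hj L => ?_⟩
  have := hU (π h) (fun hd => hh (hd.trans (orderOf_map_dvd π h))) j hj L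
  simpa only [← map_pow, he] using this

end Pool.Agent.N9181

end

section

namespace Pool.Agent.N9181

open scoped commutatorElement

section Aux

variable {V : Type} [AddCommGroup V] [Module K V] [Fintype V]
  {G : Type} [Group G] (ρ : Representation K G V) (ι : V → G) (hι : Emb ρ ι)
  {M : Type} [AddCommGroup M] [Module ℂ M] (τ : Representation ℂ G M)

theorem xqcduala_eq (f : Module.Dual K V) :
    pj τ ι f = ∑ v : V, (ZMod.stdAddChar (-(f v)) : ℂ) • τ (ι v) :=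
  finsum_eq_sum_of_fintype _

theorem xqcduala_psi (a b : K) :
    (ZMod.stdAddChar (-a) : ℂ) = ZMod.stdAddChar b * ZMod.stdAddChar (-(b + a)) := by
  rw [← AddChar.map_add_eq_mul]
  congr 1
  ring

include hι

theorem xqcduala_left (f : Module.Dual K V) (w : V) :
    τ (ι w) * pj τ ι f = (ZMod.stdAddChar (f w) : ℂ) • pj τ ι f := by
  rw [xqcduala_eq, Finset.mul_sum, Finset.smul_sum]
  refine Fintype.sum_equiv (Equiv.addLeft w) _ _ fun v => ?_
  rw [Equiv.coe_addLeft, mul_smul_comm, ← map_mul, ← hι.add, smul_smul, map_add,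
    ← xqcduala_psi]

theorem xqcduala_right (f : Module.Dual K V) (w : V) :
    pj τ ι f * τ (ι w) = (ZMod.stdAddChar (f w) : ℂ) • pj τ ι f := by
  rw [xqcduala_eq, Finset.sum_mul, Finset.smul_sum]
  refine Fintype.sum_equiv (Equiv.addLeft w) _ _ fun v => ?_
  rw [Equiv.coe_addLeft, smul_mul_assoc, ← map_mul, ← hι.add, smul_smul, map_add,
    ← xqcduala_psi, add_comm v w]

theorem xqcduala_sq (f : Module.Dual K V) :
    pj τ ι f * pj τ ι f = (Fintype.card V : ℂ) • pj τ ι f := by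
  have h : ∀ v : V, ((ZMod.stdAddChar (-(f v)) : ℂ) • τ (ι v)) * pj τ ι f = pj τ ι f := by
    intro v
    rw [smul_mul_assoc, xqcduala_left ρ ι hι, smul_smul, ← AddChar.map_add_eq_mul,
      neg_add_cancel, AddChar.map_zero_eq_one, one_smul]
  calc pj τ ι f * pj τ ι f
      = (∑ v : V, (ZMod.stdAddChar (-(f v)) : ℂ) • τ (ι v)) * pj τ ι f := by
        rw [← xqcduala_eq]
    _ = (Fintype.card V : ℂ) • pj τ ι f := by
        rw [Finset.sum_mul, Finset.sum_congr rfl fun v _ => h v, Finset.sum_const,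
          Finset.card_univ, Nat.cast_smul_eq_nsmul]

theorem xqcduala_orth (f f' : Module.Dual K V) (h : f ≠ f') : pj τ ι f' * pj τ ι f = 0 := by
  obtain ⟨w, hw⟩ : ∃ w, f w ≠ f' w := by
    by_contra hc
    push Not at hc
    exact h (LinearMap.ext hc)
  have h1 : (ZMod.stdAddChar (f w) : ℂ) • (pj τ ι f' * pj τ ι f) =
      (ZMod.stdAddChar (f' w) : ℂ) • (pj τ ι f' * pj τ ι f) := by
    rw [← mul_smul_comm, ← xqcduala_left ρ ι hι, ← mul_assoc, xqcduala_right ρ ι hι,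
      smul_mul_assoc]
  rw [← sub_eq_zero, ← sub_smul] at h1
  refine (smul_eq_zero.1 h1).resolve_left (sub_ne_zero.2 fun e => hw ?_)
  exact ZMod.injective_stdAddChar e

theorem xqcduala_conj (f : Module.Dual K V) (g : G) :
    τ g * pj τ ι (f ∘ₗ ρ g) = pj τ ι f * τ g := by
  rw [xqcduala_eq, xqcduala_eq, Finset.mul_sum, Finset.sum_mul]
  let e : V ≃ V :=
    { toFun := ρ g
      invFun := ρ g⁻¹
      left_inv := fun v => by
        rw [← Module.End.mul_apply, ← map_mul, inv_mul_cancel, map_one, Module.End.one_apply]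
      right_inv := fun v => by
        rw [← Module.End.mul_apply, ← map_mul, mul_inv_cancel, map_one, Module.End.one_apply] }
  refine Fintype.sum_equiv e _ _ fun v => ?_
  change _ = ((ZMod.stdAddChar (-(f (ρ g v))) : ℂ) • τ (ι (ρ g v))) * τ g
  rw [mul_smul_comm, smul_mul_assoc, ← map_mul, ← map_mul, hι.act, inv_mul_cancel_right]
  rfl

end Aux

theorem pj_orbit {V : Type} [AddCommGroup V] [Module K V] [Module.Finite K V]
    {G : Type} [Group G] [Finite G] (ρ : Representation K G V) (ι : V → G) (hι : Emb ρ ι) {M : Type} [AddCommGroup M] [Module ℂ M] [Module.Finite ℂ M] (τ : Representation ℂ G M) (hτ : IrrF τ)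
    (f f' : Module.Dual K V) (hf : pj τ ι f ≠ 0) (hf' : pj τ ι f' ≠ 0) :
    ∃ g : G, f ∘ₗ ρ g = f' := by
  have hfin : Finite V := Module.finite_of_finite K
  have := Fintype.ofFinite V
  by_contra hc
  push Not at hc
  let W : Submodule ℂ M := ⨅ g : G, LinearMap.ker (pj τ ι f' * τ g)
  have hW : ∀ m, m ∈ W ↔ ∀ g : G, (pj τ ι f' * τ g) m = 0 := fun m => by
    simp only [W, Submodule.mem_iInf, LinearMap.mem_ker]
  rcases hτ.2 W (fun h v hv => (hW _).2 fun g => by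
    have h1 := (hW v).1 hv (g * h)
    rw [map_mul, ← mul_assoc, Module.End.mul_apply] at h1
    exact h1) with h | h
  · apply hf
    ext m
    have hm : pj τ ι f m ∈ W := (hW _).2 fun g => by
      have h1 := xqcduala_conj ρ ι hι τ (f ∘ₗ ρ g⁻¹) g
      have h2 : (f ∘ₗ ρ g⁻¹) ∘ₗ ρ g = f := by
        ext v
        simp only [LinearMap.comp_apply]
        rw [← Module.End.mul_apply, ← map_mul, inv_mul_cancel, map_one, Module.End.one_apply]
      rw [h2] at h1
      rw [← Module.End.mul_apply, mul_assoc, h1, ← mul_assoc,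
        xqcduala_orth ρ ι hι τ _ _ (hc g⁻¹), zero_mul, LinearMap.zero_apply]
    rw [h] at hm
    exact hm
  · apply hf'
    ext m
    have hm : m ∈ W := by
      rw [h]
      exact Submodule.mem_top
    have h1 := (hW m).1 hm 1
    rwa [map_one, mul_one] at h1

theorem pj_trace {V : Type} [AddCommGroup V] [Module K V] [Module.Finite K V]
    {G : Type} [Group G] [Finite G] (ρ : Representation K G V) (ι : V → G) (hι : Emb ρ ι) {M : Type} [AddCommGroup M] [Module ℂ M] [Module.Finite ℂ M] (τ : Representation ℂ G M) (f : Module.Dual K V) (c : G) :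
    LinearMap.trace ℂ M (pj τ ι f * τ c) =
      ∑ᶠ v : V, (ZMod.stdAddChar (-(f v)) : ℂ) * τ.character (ι v * c) := by
  have hfin : Finite V := Module.finite_of_finite K
  have := Fintype.ofFinite V
  rw [xqcduala_eq, finsum_eq_sum_of_fintype, Finset.sum_mul, map_sum]
  refine Finset.sum_congr rfl fun v _ => ?_
  rw [smul_mul_assoc, ← map_mul, map_smul, smul_eq_mul]
  rfl

theorem pj_ss {V : Type} [AddCommGroup V] [Module K V] [Module.Finite K V]
    {G : Type} [Group G] [Finite G] (ρ : Representation K G V) (ι : V → G) (hι : Emb ρ ι) {M : Type} [AddCommGroup M] [Module ℂ M] [Module.Finite ℂ M] (τ : Representation ℂ G M) (j : ℕ) (hj : (j : K) ≠ 0)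
    (hS : SS τ j) (f : Module.Dual K V) (hf : pj τ ι f ≠ 0) : pj τ ι ((j : K) • f) ≠ 0 := by
  have hfin : Finite V := Module.finite_of_finite K
  have := Fintype.ofFinite V
  have hc : (Fintype.card V : ℂ) ≠ 0 := by exact_mod_cast Fintype.card_ne_zero
  have hid : IsIdempotentElem ((Fintype.card V : ℂ)⁻¹ • pj τ ι f) := by
    unfold IsIdempotentElem
    rw [smul_mul_assoc, mul_smul_comm, xqcduala_sq ρ ι hι, smul_smul _ (Fintype.card V : ℂ),
      inv_mul_cancel₀ hc, one_smul]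
  have htr : LinearMap.trace ℂ M (pj τ ι ((j : K) • f)) = LinearMap.trace ℂ M (pj τ ι f) := by
    have h1 := pj_trace ρ ι hι τ ((j : K) • f) 1
    have h2 := pj_trace ρ ι hι τ f 1
    rw [map_one, mul_one, finsum_eq_sum_of_fintype] at h1 h2
    rw [h1, h2]
    refine Fintype.sum_equiv (Equiv.smulRight (β := V) hj) _ _ fun v => ?_
    change _ = (ZMod.stdAddChar (-(f ((j : K) • v))) : ℂ) * τ.character (ι ((j : K) • v) * 1)
    rw [mul_one, mul_one, (emb_basic ρ ι hι).2.1, hS, map_smul]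
    rfl
  intro h0
  rw [h0, map_zero] at htr
  have h3 : (Fintype.card V : ℂ)⁻¹ • pj τ ι f = 0 :=
    (LinearMap.IsIdempotentElem.trace_eq_zero_iff hid).1 (by rw [map_smul, ← htr, smul_zero])
  exact hf ((smul_eq_zero.1 h3).resolve_left (inv_ne_zero hc))

end Pool.Agent.N9181

end

section

namespace Pool.Agent.N9181

open scoped commutatorElement

theorem xqcsep_conj {G A : Type} [Group G] [Fintype G] [AddCommMonoid A] (y : G) (F : G → A) :
    ∑ g, F (y * g * y⁻¹) = ∑ g, F g :=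
  Equiv.sum_comp (MulAut.conj y).toEquiv F

theorem xqcsep_irr {G : Type} [Group G] [Fintype G] (ψ : G → ℂ)
    (hψ : ∀ y g, ψ (y * g * y⁻¹) = ψ g) {M : Type} [AddCommGroup M] [Module ℂ M]
    [Module.Finite ℂ M] (τ : Representation ℂ G M) (hi : IrrF τ)
    (h : ∑ g, ψ g * τ.character g = 0) : ∑ g, ψ g • τ g = 0 := by
  obtain ⟨⟨v, hv⟩, hi⟩ := hi
  have : Nontrivial M := ⟨v, 0, hv⟩
  have hc (y : G) : τ y * ∑ g, ψ g • τ g = (∑ g, ψ g • τ g) * τ y := by
    rw [Finset.mul_sum, ← xqcsep_conj y fun g => ψ g • τ g, Finset.sum_mul]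
    refine Finset.sum_congr rfl fun g _ => ?_
    rw [hψ, mul_smul_comm, smul_mul_assoc, ← map_mul, ← map_mul, inv_mul_cancel_right]
  have ht : LinearMap.trace ℂ M (∑ g, ψ g • τ g) = 0 := by
    rw [map_sum, ← h]
    exact Finset.sum_congr rfl fun g _ => by rw [map_smul]; rfl
  generalize (∑ g, ψ g • τ g : Module.End ℂ M) = Z at hc ht
  obtain ⟨c, hcz⟩ := Module.End.exists_eigenvalue Z
  have hW := (hi (Z.eigenspace c) fun y w hw => by
    rw [Module.End.mem_eigenspace_iff] at hw ⊢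
    rw [← Module.End.mul_apply, ← hc, Module.End.mul_apply, hw, map_smul]).resolve_left hcz
  have hZ : Z = c • (1 : Module.End ℂ M) := LinearMap.ext fun w =>
    Module.End.mem_eigenspace_iff.1 (hW ▸ Submodule.mem_top)
  rw [hZ, map_smul, LinearMap.trace_one, smul_eq_mul, mul_eq_zero] at ht
  rcases ht with ht | ht
  · rw [hZ, ht, zero_smul]
  · exact absurd (Nat.cast_eq_zero.1 ht) Module.finrank_pos.ne'

theorem xqcsep_all {G : Type} [Group G] [Fintype G] (ψ : G → ℂ)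
    (h : ∀ (M : Type) [AddCommGroup M] [Module ℂ M] [Module.Finite ℂ M]
      (τ : Representation ℂ G M), IrrF τ → ∑ g, ψ g • τ g = 0) (n : ℕ) :
    ∀ (M : Type) [AddCommGroup M] [Module ℂ M] [Module.Finite ℂ M]
      (τ : Representation ℂ G M), Module.finrank ℂ M = n → ∑ g, ψ g • τ g = 0 := by
  induction n using Nat.strong_induction_on with
  | _ n ih =>
  intro M _ _ _ τ hn
  by_cases hi : IrrF τ
  · exact h M τ hi
  have key (W : Submodule ℂ M) (hW : ∀ g, ∀ w ∈ W, τ g w ∈ W) (hne : W ≠ ⊤) (w : M)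
      (hw : w ∈ W) : (∑ g, ψ g • τ g) w = 0 := by
    have h1 := ih _ (hn ▸ Submodule.finrank_lt hne) W
      (Representation.subrepresentation τ W fun g w hw => hW g w hw) rfl
    have h2 := congrArg Subtype.val (LinearMap.congr_fun h1 ⟨w, hw⟩)
    rw [LinearMap.sum_apply, Submodule.coe_sum] at h2
    rw [LinearMap.sum_apply]
    exact h2
  by_cases hv : ∃ v : M, v ≠ 0
  · have : ¬ ∀ W : Submodule ℂ M, (∀ h, ∀ v ∈ W, τ h v ∈ W) → W = ⊥ ∨ W = ⊤ :=
      fun h' => hi ⟨hv, h'⟩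
    push Not at this
    obtain ⟨W, hW, h0, h1⟩ := this
    obtain ⟨W', hW', hc⟩ := exists_compl (Nat.cast_ne_zero.2 Nat.card_pos.ne') τ W hW
    have h2 : W' ≠ ⊤ := fun h' => h0 (by
      have := hc.inf_eq_bot
      rwa [h', inf_top_eq] at this)
    refine LinearMap.ext fun v => ?_
    obtain ⟨a, ha, b, hb, rfl⟩ := Submodule.mem_sup.1 (hc.sup_eq_top ▸ Submodule.mem_top (x := v))
    rw [map_add, key W hW h1 a ha, key W' hW' h2 b hb, add_zero, LinearMap.zero_apply]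
  · push Not at hv
    exact LinearMap.ext fun v => (hv _).trans (hv _).symm

/-- the regular representation on functions -/
def xqcsep_reg (G : Type) [Group G] : Representation ℂ G (G → ℂ) where
  toFun g := LinearMap.funLeft ℂ ℂ fun x => x * g
  map_one' := by
    ext f x
    simp [LinearMap.funLeft_apply]
  map_mul' g h := by
    ext f x
    simp [LinearMap.funLeft_apply, mul_assoc]

theorem csep {G : Type} [Group G] [Fintype G] [DecidableRel (IsConj : G → G → Prop)]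
    (φ : G → ℂ)
    (h : ∀ (M : Type) [AddCommGroup M] [Module ℂ M] [Module.Finite ℂ M]
      (τ : Representation ℂ G M), IrrF τ → ∑ g, φ g * τ.character g = 0) (x : G) :
    ∑ g ∈ Finset.univ.filter (fun g => IsConj x g), φ g = 0 := by
  classical
  let ψ : G → ℂ := fun g => ∑ y, φ (y * g * y⁻¹)
  have hψ (y g : G) : ψ (y * g * y⁻¹) = ψ g := by
    refine Eq.trans ?_ (Equiv.sum_comp (Equiv.mulRight y) fun z => φ (z * g * z⁻¹))
    refine Finset.sum_congr rfl fun z _ => ?_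
    simp [mul_assoc]
  have hZ := xqcsep_all ψ (fun M _ _ _ τ hi => xqcsep_irr ψ hψ τ hi (by
    simp only [ψ, Finset.sum_mul]
    rw [Finset.sum_comm]
    refine Finset.sum_eq_zero fun y _ => ?_
    rw [← h M τ hi, ← xqcsep_conj y fun g => φ g * τ.character g]
    exact Finset.sum_congr rfl fun g _ => by rw [Representation.char_conj])) _ (G → ℂ)
    (xqcsep_reg G) rfl
  have h0 (g : G) : ψ g = 0 := by
    have h1 := congrFun (LinearMap.congr_fun hZ (Pi.single g 1)) 1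
    rw [LinearMap.sum_apply, Finset.sum_apply, Finset.sum_eq_single g] at h1
    · simpa [xqcsep_reg, LinearMap.funLeft_apply] using h1
    · intro b _ hb
      simp [xqcsep_reg, LinearMap.funLeft_apply, hb]
    · simp
  have h2 : ∑ g, (if IsConj x g then ψ g else 0) =
      ∑ _y : G, ∑ g, (if IsConj x g then φ g else 0) := by
    have h3 (g : G) : (if IsConj x g then ψ g else 0) =
        ∑ y : G, if IsConj x (y * g * y⁻¹) then φ (y * g * y⁻¹) else 0 := by
      have h4 (y : G) : IsConj x (y * g * y⁻¹) ↔ IsConj x g :=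
        have h5 : IsConj g (y * g * y⁻¹) := isConj_iff.2 ⟨y, rfl⟩
        ⟨fun h6 => h6.trans h5.symm, fun h6 => h6.trans h5⟩
      simp only [h4]
      split_ifs
      · rfl
      · simp
    simp only [h3]
    rw [Finset.sum_comm]
    exact Finset.sum_congr rfl fun y _ => xqcsep_conj y fun g => if IsConj x g then φ g else 0
  simp only [h0, ite_self, Finset.sum_const_zero, Finset.sum_const, Finset.card_univ,
    nsmul_eq_mul] at h2
  rw [Finset.sum_filter]
  exact (mul_eq_zero.1 h2.symm).resolve_left (Nat.cast_ne_zero.2 Fintype.card_ne_zero)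

theorem qp_sq {G : Type} [Group G] [Finite G] (N : ℕ) (hP : QP G N) (x : G) (j : ℕ) (hj : j.Coprime N) :
    IsConj x (x ^ (j * j)) := by
  classical
  have := Fintype.ofFinite G
  have h := csep (fun g => (if g = x then 1 else 0) - if g = x ^ (j * j) then 1 else 0)
    (fun M _ _ _ τ hi => by
      have hs : SS τ (j * j) := by
        have h1 (h : SS τ j) : SS τ (j * j) := fun g => by rw [pow_mul, h, h]
        rcases hP.2.2 M τ hi j j hj hj with h | h | h
        exacts [h1 h, h1 h, h]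
      simp [sub_mul, Finset.sum_sub_distrib, hs x]) x
  by_contra hx
  simp [Finset.sum_sub_distrib, hx, IsConj.refl, -isConj_iff] at h

end Pool.Agent.N9181

end

section

namespace Pool.Agent.N9181

open scoped commutatorElement

theorem xqcdual_pow {V : Type} [AddCommGroup V] [Module K V]
    {G : Type} [Group G] (ρ : Representation K G V) (ι : V → G) (hι : Emb ρ ι) (c : G) (v : V)
    (k : ℕ) : (ι v * c) ^ k = ι (∑ i ∈ Finset.range k, ρ (c ^ i) v) * c ^ k := by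
  induction k with
  | zero => simp [xembb_zero ρ ι hι]
  | succ k ih =>
    rw [pow_succ, ih, Finset.sum_range_succ, hι.add, hι.act, pow_succ]
    group

theorem xqcdual_f {V : Type} [AddCommGroup V] [Module K V]
    {G : Type} [Group G] (ρ : Representation K G V) (c : G) (f : Module.Dual K V)
    (hf : f ∘ₗ ρ c = f) (v : V) (k : ℕ) :
    f (∑ i ∈ Finset.range k, ρ (c ^ i) v) = (k : K) * f v := by
  have h1 : ∀ i : ℕ, f (ρ (c ^ i) v) = f v := by
    intro i
    induction i with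
    | zero => simp
    | succ i ih =>
      rw [pow_succ', map_mul, Module.End.mul_apply, ← ih]
      exact LinearMap.congr_fun hf _
  rw [map_sum, Finset.sum_congr rfl fun i _ => h1 i]
  simp

theorem xqcdual_zero {V : Type} [AddCommGroup V] [Module K V]
    {G : Type} [Group G] (ρ : Representation K G V) (ι : V → G) (hι : Emb ρ ι) (c d : G) (v : V)
    (n : ℕ) (hc : c ^ n = 1) (hd : d ^ n = 1) (h : IsConj c (ι v * d)) :
    ∑ i ∈ Finset.range n, ρ (d ^ i) v = 0 := by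
  obtain ⟨g, hg⟩ := isConj_iff.1 h
  have h1 : (ι v * d) ^ n = 1 := by rw [← hg, conj_pow, hc]; group
  rw [xqcdual_pow ρ ι hι, hd, mul_one] at h1
  exact hι.inj (h1.trans (xembb_zero ρ ι hι).symm)

theorem xqcdual_tel {V : Type} [AddCommGroup V] [Module K V]
    {G : Type} [Group G] (ρ : Representation K G V) (d : G) (v : V) (k : ℕ) :
    ∃ w : V, v - ρ (d ^ k) v = w - ρ d w := by
  induction k with
  | zero => exact ⟨0, by simp⟩
  | succ k ih =>
    obtain ⟨w, hw⟩ := ih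
    refine ⟨w + ρ (d ^ k) v, ?_⟩
    rw [pow_succ', map_mul, Module.End.mul_apply, map_add]
    have : v = w - ρ d w + ρ (d ^ k) v := by rw [← hw]; abel
    conv_lhs => rw [this]
    rw [← this]
    have h2 : v - ρ d (ρ (d ^ k) v) = (v - ρ (d ^ k) v) + ρ (d ^ k) v - ρ d (ρ (d ^ k) v) := by
      abel
    rw [h2, hw]
    abel

theorem xqcdual_conj {V : Type} [AddCommGroup V] [Module K V]
    {G : Type} [Group G] (ρ : Representation K G V) (ι : V → G) (hι : Emb ρ ι) (d : G) (v : V)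
    (n : ℕ) (hn : (n : K) ≠ 0) (h : ∑ i ∈ Finset.range n, ρ (d ^ i) v = 0) :
    IsConj d (ι v * d) := by
  choose w hw using xqcdual_tel ρ d v
  have h1 : (n : K) • v = (∑ i ∈ Finset.range n, w i) - ρ d (∑ i ∈ Finset.range n, w i) := by
    rw [map_sum, ← Finset.sum_sub_distrib, ← Finset.sum_congr rfl fun i _ => hw i,
      Finset.sum_sub_distrib, h, sub_zero, Finset.sum_const, Finset.card_range,
      Nat.cast_smul_eq_nsmul]
  obtain ⟨u, hu⟩ : ∃ u : V, v = u + ρ d (-u) := by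
    refine ⟨(n : K)⁻¹ • ∑ i ∈ Finset.range n, w i, ?_⟩
    rw [map_neg, map_smul, ← sub_eq_add_neg, ← smul_sub, ← h1, smul_smul, inv_mul_cancel₀ hn,
      one_smul]
  refine isConj_iff.2 ⟨ι u, ?_⟩
  rw [hu, hι.add, hι.act, xembb_neg ρ ι hι]
  group

theorem xqcdual_sum {V : Type} [AddCommGroup V] [Module K V] [Fintype V]
    {G : Type} [Group G] [Finite G] (ρ : Representation K G V) (ι : V → G) (hι : Emb ρ ι)
    (c : G) (f : Module.Dual K V) (hf : f ∘ₗ ρ c = f) (j : ℕ) (hj : (j : K) = 1)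
    (hjG : (Nat.card G).Coprime j) (χ : G → ℂ) (hχ : ∀ g, χ (g ^ j) = χ g) :
    ∑ v : V, (ZMod.stdAddChar (-(f v)) : ℂ) * χ (ι v * c) =
      ∑ v : V, (ZMod.stdAddChar (-(f v)) : ℂ) * χ (ι v * c ^ j) := by
  have hinj : Function.Injective (fun v : V => ∑ i ∈ Finset.range j, ρ (c ^ i) v) := by
    intro v w h
    have h1 : (ι v * c) ^ j = (ι w * c) ^ j := by
      rw [xqcdual_pow ρ ι hι, xqcdual_pow ρ ι hι]
      exact congrArg (fun x => ι x * c ^ j) h
    exact hι.inj (mul_right_cancel ((powCoprime hjG).injective h1))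
  refine Fintype.sum_bijective _ (Finite.injective_iff_bijective.1 hinj) _ _ fun v => ?_
  rw [xqcdual_f ρ c f hf, hj, one_mul, ← xqcdual_pow ρ ι hι, hχ]

theorem xqcdual_sep {V : Type} [Fintype V] {G : Type} [Group G] [Finite G]
    [DecidableRel (IsConj : G → G → Prop)] (a : V → ℂ) (x y : V → G)
    (h : ∀ (M : Type) [AddCommGroup M] [Module ℂ M] [Module.Finite ℂ M]
      (τ : Representation ℂ G M), IrrF τ →
        ∑ v, a v * τ.character (x v) = ∑ v, a v * τ.character (y v)) (c : G) :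
    ∑ v, (if IsConj c (x v) then a v else 0) = ∑ v, (if IsConj c (y v) then a v else 0) := by
  classical
  have := Fintype.ofFinite G
  have key : ∀ (z : V → G) (χ : G → ℂ),
      ∑ g, (∑ v, if g = z v then a v else 0) * χ g = ∑ v, a v * χ (z v) := by
    intro z χ
    simp only [Finset.sum_mul]
    rw [Finset.sum_comm]
    refine Finset.sum_congr rfl fun v _ => ?_
    simp
  have h1 := csep (fun g => (∑ v, if g = x v then a v else 0) - ∑ v, if g = y v then a v else 0)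
    (fun M _ _ _ τ hτ => by
      simp only [sub_mul, Finset.sum_sub_distrib, key]
      exact sub_eq_zero.2 (h M τ hτ)) c
  have key2 : ∀ z : V → G, ∑ g ∈ Finset.univ.filter (fun g => IsConj c g),
      (∑ v, if g = z v then a v else 0) = ∑ v, (if IsConj c (z v) then a v else 0) := by
    intro z
    rw [Finset.sum_comm]
    refine Finset.sum_congr rfl fun v _ => ?_
    simp
  rw [Finset.sum_sub_distrib, key2, key2] at h1
  exact sub_eq_zero.1 h1

theorem xqcdual_j (n N a b : ℕ) (hn : Nat.Coprime 13 n) (hd : 13 * n ∣ N) (hN : 0 < N)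
    (ha : a.Coprime 13) (hb : b.Coprime n) :
    ∃ j : ℕ, j.Coprime N ∧ j ≡ a [MOD 13] ∧ j ≡ b [MOD n] := by
  obtain ⟨j1, h11, h12⟩ := Nat.chineseRemainder hn a b
  have hc1 : j1.Coprime 13 := by
    rw [Nat.Coprime, h11.gcd_eq]
    exact ha
  have hc2 : j1.Coprime n := by
    rw [Nat.Coprime, h12.gcd_eq]
    exact hb
  obtain ⟨j, hjN, hj⟩ := exists_j (13 * n) N j1 hd hN (hc1.mul_right hc2)
  exact ⟨j, hjN, (hj.of_mul_right _).trans h11, (hj.of_mul_left _).trans h12⟩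

theorem qp_dual {V : Type} [AddCommGroup V] [Module K V] [Module.Finite K V]
    {G : Type} [Group G] [Finite G] (ρ : Representation K G V) (ι : V → G) (hι : Emb ρ ι) (N : ℕ) (hP : QP G N) (c : G) (hc : ¬ 13 ∣ orderOf c)
    (hn : Nonrat N c) (f : Module.Dual K V) (hf : f ∘ₗ ρ c = f) (l : K) (hl : l ≠ 0) :
    ∃ g : G, f ∘ₗ ρ g = l • f := by
  classical
  by_contra hcon
  have hfin : Finite V := Module.finite_of_finite K
  have := Fintype.ofFinite V
  obtain ⟨j0, hj0, hn⟩ := hn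
  obtain ⟨h0, -, h13, -⟩ := emb_basic ρ ι hι
  obtain ⟨v0, hv0⟩ : ∃ v : V, v ≠ 0 := by
    by_contra h
    refine hcon ⟨1, LinearMap.ext fun v => ?_⟩
    have hv : v = 0 := by
      by_contra hv
      exact h ⟨v, hv⟩
    simp [hv]
  have cop : Nat.Coprime 13 (orderOf c) := (Nat.Prime.coprime_iff_not_dvd (by norm_num)).2 hc
  have hne : ι v0 ≠ 1 := fun h => hv0 (hι.inj (h.trans h0.symm))
  have ho : orderOf (ι v0) = 13 := orderOf_eq_prime (h13 v0) hne
  have hd1 : 13 ∣ N := (ho ▸ orderOf_dvd_natCard (ι v0)).trans hP.1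
  have hd2 : orderOf c ∣ N := (orderOf_dvd_natCard c).trans hP.1
  have hd : 13 * orderOf c ∣ N := cop.mul_dvd_of_dvd_of_dvd hd1 hd2
  have hlc : l.val.Coprime 13 :=
    (Nat.coprime_of_lt_prime (fun h => hl ((ZMod.val_eq_zero l).1 h)) (ZMod.val_lt l)
      (by norm_num)).symm
  obtain ⟨j, hjN, hj1, -⟩ := xqcdual_j (orderOf c) N l.val 1 cop hd hP.2.1 hlc (by simp)
  obtain ⟨j', hjN', hj1', hj2'⟩ := xqcdual_j (orderOf c) N 1 j0 cop hd hP.2.1 (by simp)
    (hj0.coprime_dvd_right hd2)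
  have hjl : (j : K) = l := by
    rw [(ZMod.natCast_eq_natCast_iff j l.val 13).2 hj1, ZMod.natCast_zmod_val]
  have hjl' : (j' : K) = 1 := by
    rw [(ZMod.natCast_eq_natCast_iff j' 1 13).2 hj1', Nat.cast_one]
  have hcj : c ^ j' = c ^ j0 := pow_eq_pow_of_modEq hj2' (pow_orderOf_eq_one c)
  have hnK : ((orderOf c : ℕ) : K) ≠ 0 := fun h => hc ((ZMod.natCast_eq_zero_iff _ 13).1 h)
  have hsep := xqcdual_sep (fun v : V => (ZMod.stdAddChar (-(f v)) : ℂ)) (fun v => ι v * c)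
    (fun v => ι v * c ^ j') (fun M _ _ _ τ hτ => by
      by_cases hp : pj τ ι f = 0
      · have e1 := pj_trace ρ ι hι τ f c
        have e2 := pj_trace ρ ι hι τ f (c ^ j')
        rw [hp, zero_mul, map_zero, finsum_eq_sum_of_fintype] at e1 e2
        exact e1.symm.trans e2
      · have hno : ∀ k : ℕ, (k : K) = l → ¬ SS τ k := fun k hk hS => by
          have := pj_orbit ρ ι hι τ hτ f _ hp (pj_ss ρ ι hι τ k (hk ▸ hl) hS f hp)
          rw [hk] at this
          exact hcon this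
        have hS : SS τ j' := by
          rcases hP.2.2 M τ hτ j j' hjN hjN' with h | h | h
          · exact absurd h (hno j hjl)
          · exact h
          · exact absurd h (hno _ (by rw [Nat.cast_mul, hjl, hjl', mul_one]))
        exact xqcdual_sum ρ ι hι c f hf j' hjl' (hjN'.coprime_dvd_right hP.1).symm _ hS) c
  have hR : ∀ v : V, ¬ IsConj c (ι v * c ^ j') := fun v h => by
    have hz := xqcdual_zero ρ ι hι c (c ^ j') v (orderOf c) (pow_orderOf_eq_one c)
      (by rw [← pow_mul, mul_comm, pow_mul, pow_orderOf_eq_one, one_pow]) h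
    exact hn (hcj ▸ h.trans (xqcdual_conj ρ ι hι (c ^ j') v _ hnK hz).symm)
  have hL : ∀ v : V, (if IsConj c (ι v * c) then (ZMod.stdAddChar (-(f v)) : ℂ) else 0) =
      if IsConj c (ι v * c) then 1 else 0 := fun v => by
    split_ifs with h
    · have hz := xqcdual_zero ρ ι hι c c v (orderOf c) (pow_orderOf_eq_one c)
        (pow_orderOf_eq_one c) h
      have h1 := xqcdual_f ρ c f hf v (orderOf c)
      rw [hz, map_zero] at h1
      rw [(mul_eq_zero.1 h1.symm).resolve_left hnK, neg_zero, AddChar.map_zero_eq_one]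
    · rfl
  simp only [hR, if_false, Finset.sum_const_zero, hL, Finset.sum_boole, Nat.cast_eq_zero,
    Finset.card_eq_zero, Finset.filter_eq_empty_iff] at hsep
  exact hsep (Finset.mem_univ 0) (by rw [h0, one_mul])

end Pool.Agent.N9181

end

section

namespace Pool.Agent.N9181

open scoped commutatorElement

section

variable {V : Type} [AddCommGroup V] [Module K V]

theorem xapplow_zero (S : Module.End K V) (c d : K) (hS : ∀ v, S (S v) = d • v)
    (hcd : c * c ≠ d) : ed S c = 0 := by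
  have : S.eigenspace c = ⊥ := by
    rw [Submodule.eq_bot_iff]
    intro v hv
    rw [Module.End.mem_eigenspace_iff] at hv
    have h1 := hS v
    rw [hv, map_smul, hv, smul_smul] at h1
    have h2 : (c * c - d) • v = 0 := by rw [sub_smul, h1, sub_self]
    rcases smul_eq_zero.1 h2 with h | h
    · exact absurd (sub_eq_zero.1 h) hcd
    · exact h
  unfold ed
  rw [this, finrank_bot]

theorem xapplow_full (S : Module.End K V) (c : K) (hS : ∀ v, S v = c • v) :
    ed S c = Module.finrank K V := by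
  have : S.eigenspace c = ⊤ := by
    rw [Submodule.eq_top_iff']
    intro v
    rw [Module.End.mem_eigenspace_iff]
    exact hS v
  unfold ed
  rw [this, finrank_top]

theorem xapplow_congr (S T : Module.End K V) (a c : K) (ha : a ≠ 0) (hS : ∀ v, S v = a • T v) :
    ed S (a * c) = ed T c := by
  have : S.eigenspace (a * c) = T.eigenspace c := by
    ext v
    rw [Module.End.mem_eigenspace_iff, Module.End.mem_eigenspace_iff, hS, mul_smul]
    exact (smul_right_injective V ha).eq_iff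
  unfold ed
  rw [this]

theorem xapplow_split [Module.Finite K V] (T : Module.End K V) (hT : ∀ v, T (T v) = -v) :
    ed T 5 + ed T 8 = Module.finrank K V := by
  unfold ed
  apply Submodule.finrank_add_eq_of_isCompl
  constructor
  · rw [Submodule.disjoint_def]
    intro v h5 h8
    rw [Module.End.mem_eigenspace_iff] at h5 h8
    have h2 : ((5 : K) - 8) • v = 0 := by rw [sub_smul, ← h5, ← h8, sub_self]
    rcases smul_eq_zero.1 h2 with h | h
    · exact absurd h (by decide)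
    · exact h
  · rw [codisjoint_iff, Submodule.eq_top_iff']
    intro v
    have e25 : (5 : K) * 5 = -1 := by decide
    have e40 : (8 : K) * 5 = 1 := by decide
    have e8 : (8 : K) = -5 := by decide
    have e10 : (4 : K) * (5 + 5) = 1 := by decide
    refine Submodule.mem_sup.2 ⟨(4 : K) • (T v + (5 : K) • v), ?_,
      (4 : K) • ((5 : K) • v - T v), ?_, ?_⟩
    · apply Submodule.smul_mem
      rw [Module.End.mem_eigenspace_iff, map_add, hT, map_smul, smul_add, smul_smul, e25,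
        neg_one_smul, add_comm]
    · apply Submodule.smul_mem
      rw [Module.End.mem_eigenspace_iff, map_sub, hT, map_smul, smul_sub, smul_smul, e40,
        one_smul, e8, neg_smul]
      abel
    · rw [← smul_add]
      have : T v + (5 : K) • v + ((5 : K) • v - T v) = ((5 : K) + 5) • v := by
        rw [add_smul]; abel
      rw [this, smul_smul, e10, one_smul]

theorem xapplow_pow3 (i : ℕ) : (3 : K) ^ i = 3 ^ (i % 3) := by
  have h3 : (3 : K) ^ 3 = 1 := by decide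
  conv_lhs => rw [← Nat.div_add_mod i 3, pow_add, pow_mul, h3, one_pow, one_mul]

theorem xapplow_scal {H : Type} [Group H] (ρ : Representation K H V) (z : H)
    (hz : ∀ v, ρ z v = (3 : K) • v) (i : ℕ) (v : V) : ρ (z ^ i) v = (3 : K) ^ i • v := by
  induction i generalizing v with
  | zero => simp
  | succ i ih => rw [pow_succ, map_mul, Module.End.mul_apply, hz, ih, smul_smul, pow_succ]

theorem xapplow_prod {H : Type} [Group H] (ρ : Representation K H V) (z y : H)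
    (hz : ∀ v, ρ z v = (3 : K) • v) (i : ℕ) (v : V) :
    ρ ((y * z) ^ i) v = (3 : K) ^ i • ((ρ y) ^ i) v := by
  induction i generalizing v with
  | zero => simp
  | succ i ih =>
    rw [pow_succ, map_mul, Module.End.mul_apply, ih, map_mul, Module.End.mul_apply, hz,
      map_smul, map_smul, smul_smul, pow_succ, pow_succ, Module.End.mul_apply]

theorem xapplow_odd (T : Module.End K V) (hT : T * T = -1) (i : ℕ) (hi : Odd i) (v : V) :
    (T ^ i) ((T ^ i) v) = -v := by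
  rw [← Module.End.mul_apply, ← pow_add, ← two_mul, pow_mul, pow_two, hT, hi.neg_one_pow]
  simp

theorem xapplow_seven (T : Module.End K V) (hT : T * T = -1) (j : ℕ) (hj : j % 4 = 3) :
    T ^ j = -T := by
  have h4 : T ^ 4 = 1 := by
    have : T ^ 4 = (T * T) * (T * T) := by simp [pow_succ, mul_assoc]
    rw [this, hT]; simp
  have h3 : T ^ 3 = -T := by
    have : T ^ 3 = (T * T) * T := by simp [pow_succ]
    rw [this, hT]; simp
  rw [← Nat.div_add_mod j 4, pow_add, pow_mul, h4, one_pow, one_mul, hj, h3]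

theorem xapplow_dvd {H : Type} [Group H] [Finite H] (x : H) (p k : ℕ) (hp : p.Prime)
    (h1 : x ^ p ^ k ≠ 1) (h2 : x ^ p ^ (k + 1) = 1) : p ^ (k + 1) ∣ Nat.card H := by
  have := Fact.mk hp
  rw [← orderOf_eq_prime_pow h1 h2]
  exact orderOf_dvd_natCard x

end

theorem xapplow_m {V : Type} [AddCommGroup V] [Module K V] [Module.Finite K V]
    {H : Type} [Group H] [Finite H] (h13 : ¬ 13 ∣ Nat.card H) (ρ : Representation K H V)
    (hV : ∃ v : V, v ≠ 0) (hinj : Function.Injective ρ) (z : H)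
    (hz : ∀ v, ρ z v = (3 : K) • v) (N m : ℕ) (hNM : NM H N m) (hU : HU ρ N m) :
    3 ∣ N ∧ m % 3 = 2 := by
  obtain ⟨v0, hv0⟩ := hV
  have hz3 : z ^ 3 ^ (0 + 1) = 1 := by
    apply hinj
    ext v
    have h3 : (3 : K) ^ 3 ^ (0 + 1) = 1 := by decide
    rw [xapplow_scal ρ z hz, h3, map_one]
    simp
  have hz1 : z ^ 3 ^ 0 ≠ 1 := by
    intro h
    have h1 := hz v0
    rw [pow_zero, pow_one] at h
    rw [h, map_one, Module.End.one_apply] at h1
    have h2 : ((3 : K) - 1) • v0 = 0 := by rw [sub_smul, ← h1, one_smul, sub_self]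
    rcases smul_eq_zero.1 h2 with h | h
    · exact absurd h (by decide)
    · exact hv0 h
  have h3N : 3 ∣ N := by
    have := xapplow_dvd z 3 0 (by norm_num) hz1 hz3
    exact dvd_trans (by simpa using this) hNM.1
  refine ⟨h3N, ?_⟩
  have hm0 : m % 3 ≠ 0 := by
    intro h
    have h1 : 3 ∣ Nat.gcd m N := Nat.dvd_gcd (Nat.dvd_of_mod_eq_zero h) h3N
    rw [hNM.2.2] at h1
    omega
  have hm1 : m % 3 ≠ 1 := by
    intro h
    obtain ⟨j, hj, hj2⟩ := exists_j 3 N 2 h3N hNM.2.1 (by norm_num)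
    have hj3 : j % 3 = 2 := hj2
    have hjm : (j * m) % 3 = 2 := by rw [Nat.mul_mod, hj3, h]
    have key := ed_of_U h13 ρ N m hU z j hj 3
    have z2 : ∀ i, i % 3 = 2 → ed (ρ (z ^ i)) 3 = 0 := by
      intro i hi
      apply xapplow_zero _ 3 (9 * 9)
      · intro v
        have h9 : (3 : K) ^ 2 = 9 := by decide
        rw [xapplow_scal ρ z hz, xapplow_scal ρ z hz, xapplow_pow3, hi, h9, smul_smul]
      · decide
    have z1 : ed (ρ (z ^ m)) 3 = Module.finrank K V := by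
      apply xapplow_full
      intro v
      rw [xapplow_scal ρ z hz, xapplow_pow3, h, pow_one]
    rw [z2 j hj3, z2 _ hjm, z1, xapplow_full _ 3 hz] at key
    have hpos : 0 < Module.finrank K V := Module.finrank_pos_iff_exists_ne_zero.2 ⟨v0, hv0⟩
    omega
  omega

theorem xapplow_bal {V : Type} [AddCommGroup V] [Module K V] [Module.Finite K V]
    {H : Type} [Group H] [Finite H] (h13 : ¬ 13 ∣ Nat.card H) (ρ : Representation K H V)
    (hV : ∃ v : V, v ≠ 0) (hinj : Function.Injective ρ) (z : H)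
    (hz : ∀ v, ρ z v = (3 : K) • v) (N m : ℕ) (hNM : NM H N m) (hU : HU ρ N m)
    (y : H) (hy : ρ (y * y) = -1) : Module.finrank K V = 2 * ed (ρ y) 5 := by
  obtain ⟨h3N, hm3⟩ := xapplow_m h13 ρ hV hinj z hz N m hNM hU
  obtain ⟨v0, hv0⟩ := hV
  have hT : ρ y * ρ y = -1 := by rw [← map_mul, hy]
  have hy4 : y ^ 2 ^ (1 + 1) = 1 := by
    apply hinj
    have : y ^ 2 ^ (1 + 1) = (y * y) * (y * y) := by simp [pow_succ, mul_assoc]
    rw [this, map_mul, hy, map_one]
    simp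
  have hy2 : y ^ 2 ^ 1 ≠ 1 := by
    intro h
    rw [pow_one, pow_two] at h
    rw [h, map_one] at hy
    have h1 : v0 = -v0 := by simpa using congrArg (fun f : Module.End K V => f v0) hy
    have h2 : ((1 : K) + 1) • v0 = 0 := by
      rw [add_smul, one_smul]
      exact add_eq_zero_iff_eq_neg.2 h1
    rcases smul_eq_zero.1 h2 with h | h
    · exact absurd h (by decide)
    · exact hv0 h
  have h4N : 4 ∣ N := by
    have := xapplow_dvd y 2 1 (by norm_num) hy2 hy4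
    exact dvd_trans (by simpa using this) hNM.1
  have h12 : 12 ∣ N := by omega
  have hmo : m % 2 = 1 := by
    by_contra h
    have h1 : 2 ∣ Nat.gcd m N := Nat.dvd_gcd (by omega) (by omega)
    rw [hNM.2.2] at h1
    omega
  obtain ⟨j, hj, hj7⟩ := exists_j 12 N 7 h12 hNM.2.1 (by norm_num)
  have hj12 : j % 12 = 7 := hj7
  have key := ed_of_U h13 ρ N m hU (y * z) j hj 2
  have z2 : ∀ i, i % 3 = 2 → i % 2 = 1 → ed (ρ ((y * z) ^ i)) 2 = 0 := by
    intro i hi ho
    apply xapplow_zero _ 2 (-(9 * 9))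
    · intro v
      have h9 : (3 : K) ^ 2 = 9 := by decide
      rw [xapplow_prod ρ z y hz, xapplow_prod ρ z y hz, xapplow_pow3, hi, h9, map_smul,
        xapplow_odd _ hT i (Nat.odd_iff.2 ho), smul_smul, smul_neg, neg_smul]
    · decide
  have hj3 : j % 3 = 1 := by omega
  have hj2 : j % 2 = 1 := by omega
  have hjm3 : (j * m) % 3 = 2 := by rw [Nat.mul_mod, hj3, hm3]
  have hjm2 : (j * m) % 2 = 1 := by rw [Nat.mul_mod, hj2, hmo]
  have e5 : ed (ρ (y * z)) 2 = ed (ρ y) 5 := by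
    have h2 : (2 : K) = 3 * 5 := by decide
    rw [h2]
    apply xapplow_congr _ _ _ _ (by decide)
    intro v
    rw [map_mul, Module.End.mul_apply, hz, map_smul]
  have e8 : ed (ρ ((y * z) ^ j)) 2 = ed (ρ y) 8 := by
    have h2 : (2 : K) = -3 * 8 := by decide
    rw [h2]
    apply xapplow_congr _ _ _ _ (by decide)
    intro v
    rw [xapplow_prod ρ z y hz, xapplow_pow3, hj3, pow_one, xapplow_seven _ hT j (by omega)]
    simp
  rw [z2 _ hjm3 hjm2, z2 _ hm3 hmo, e5, e8] at key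
  have hs := xapplow_split (ρ y) (fun v => by
    rw [← Module.End.mul_apply, hT]; simp)
  omega

theorem xapplow_sq {V : Type} [AddCommGroup V] [Module K V]
    {H : Type} [Group H] (ρ : Representation K H V) (hF : HFree ρ) (y : H) (v : V) (hv : v ≠ 0)
    (hy : ρ y v = (5 : K) • v) : ρ (y * y) = -1 := by
  have e25 : (5 : K) * 5 = -1 := by decide
  have h2 : ρ (y * y) v = -v := by
    rw [map_mul, Module.End.mul_apply, hy, map_smul, hy, smul_smul, e25, neg_one_smul]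
  have h4 : ρ ((y * y) * (y * y)) = 1 := by
    apply hF _ v hv
    rw [map_mul, Module.End.mul_apply, h2, map_neg, h2, neg_neg]
  have hne : ρ (y * y) ≠ 1 := by
    intro h
    rw [h, Module.End.one_apply] at h2
    have h3 : ((1 : K) + 1) • v = 0 := by
      rw [add_smul, one_smul]
      exact add_eq_zero_iff_eq_neg.2 h2
    rcases smul_eq_zero.1 h3 with h | h
    · exact absurd h (by decide)
    · exact hv h
  ext w
  have hw : ρ (y * y) (ρ (y * y) w + w) = ρ (y * y) w + w := by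
    rw [map_add, ← Module.End.mul_apply, ← map_mul, h4, Module.End.one_apply, add_comm]
  by_contra hc
  apply hne
  apply hF _ _ _ hw
  intro h0
  apply hc
  simpa using add_eq_zero_iff_eq_neg.1 h0

theorem appLow {V : Type} [AddCommGroup V] [Module K V] [Module.Finite K V]
    {H : Type} [Group H] [Finite H] (h13 : ¬ 13 ∣ Nat.card H) (ρ : Representation K H V) (hV : ∃ v : V, v ≠ 0) (hinj : Function.Injective ρ)
    (hF : HFree ρ) (hz : Scal ρ) (N m : ℕ) (hNM : NM H N m) (hU : HU ρ N m) (hE : HEP ρ 5) :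
    ∃ k : ℕ, 0 < k ∧ Module.finrank K V = 2 * k ∧
      13 ^ k + 1 ≤ Nat.card {y : H // ρ (y * y) = -1} := by
  classical
  obtain ⟨z, hz⟩ := hz
  have hbal := xapplow_bal h13 ρ hV hinj z hz N m hNM hU
  obtain ⟨v0, hv0⟩ := hV
  obtain ⟨y0, hy0⟩ := hE v0
  have hk := hbal y0 (xapplow_sq ρ hF y0 v0 hv0 hy0)
  have hpos : 0 < Module.finrank K V := Module.finrank_pos_iff_exists_ne_zero.2 ⟨v0, hv0⟩
  set k := ed (ρ y0) 5 with hkdef
  have hkpos : 0 < k := by omega
  refine ⟨k, hkpos, hk, ?_⟩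
  have : Finite V := (card_sub (⊤ : Submodule K V)).1
  have := Fintype.ofFinite V
  have := Fintype.ofFinite {y : H // ρ (y * y) = -1}
  have hcV : Fintype.card V = 13 ^ (2 * k) := by
    have := (card_sub (⊤ : Submodule K V)).2
    rw [finrank_top, hk, Nat.card_congr (Submodule.topEquiv.toEquiv), Nat.card_eq_fintype_card]
      at this
    exact this
  let E : {y : H // ρ (y * y) = -1} → Finset V := fun y =>
    (Finset.univ.filter (fun v => v ∈ Module.End.eigenspace (ρ y.1) 5)).erase 0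
  have hE1 : ∀ y, (E y).card = 13 ^ k - 1 := by
    intro y
    have h1 := (card_sub (Module.End.eigenspace (ρ y.1) 5)).2
    have h2 : Module.finrank K (Module.End.eigenspace (ρ y.1) 5) = k := by
      have := hbal y.1 y.2
      unfold ed at this
      omega
    rw [h2, Nat.card_eq_fintype_card, Fintype.card_subtype] at h1
    rw [Finset.card_erase_of_mem (by simp), h1]
  have hcov : (Finset.univ : Finset V).erase 0 ⊆ Finset.univ.biUnion E := by
    intro v hv
    have hv0 : v ≠ 0 := (Finset.mem_erase.1 hv).1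
    obtain ⟨y, hy⟩ := hE v
    refine Finset.mem_biUnion.2 ⟨⟨y, xapplow_sq ρ hF y v hv0 hy⟩, Finset.mem_univ _, ?_⟩
    refine Finset.mem_erase.2 ⟨hv0, Finset.mem_filter.2 ⟨Finset.mem_univ _, ?_⟩⟩
    exact Module.End.mem_eigenspace_iff.2 hy
  have hle := (Finset.card_le_card hcov).trans Finset.card_biUnion_le
  rw [Finset.card_erase_of_mem (Finset.mem_univ _), Finset.card_univ, hcV,
    Finset.sum_congr rfl (fun y _ => hE1 y), Finset.sum_const, Finset.card_univ, smul_eq_mul]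
    at hle
  rw [Nat.card_eq_fintype_card]
  have h1 : 1 < 13 ^ k := Nat.one_lt_pow hkpos.ne' (by norm_num)
  obtain ⟨a, ha⟩ : ∃ a, 13 ^ k = a + 1 := ⟨13 ^ k - 1, by omega⟩
  have ha0 : 0 < a := by omega
  rw [two_mul, pow_add, ha] at hle
  rw [ha]
  have h2 : (a + 1) * (a + 1) - 1 = (a + 1 + 1) * a := by
    have : (a + 1) * (a + 1) = (a + 1 + 1) * a + 1 := by ring
    omega
  rw [h2, Nat.add_sub_cancel] at hle
  exact Nat.le_of_mul_le_mul_right hle ha0

end Pool.Agent.N9181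

end

section

namespace Pool.Agent.N9181

open scoped commutatorElement

theorem xfreeu_cyc {C : Type} [Group C] [Finite C] [IsCyclic C] {p : ℕ} (hp : p.Prime) {z w : C}
    (hz : z ^ p = 1) (hz1 : z ≠ 1) (hw : w ^ p = 1) : w ∈ Subgroup.zpowers z := by
  let _ := IsCyclic.commGroup (α := C)
  have := Fact.mk hp
  have h1 : Subgroup.zpowers z ≤ (powMonoidHom p : C →* C).ker := by
    rw [Subgroup.zpowers_le]; exact hz
  have h2 : Nat.card (powMonoidHom p : C →* C).ker ≤ Nat.card (Subgroup.zpowers z) := by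
    rw [IsCyclic.card_powMonoidHom_ker, Nat.card_zpowers, orderOf_eq_prime hz hz1]
    exact Nat.gcd_le_right _ hp.pos
  rw [Subgroup.eq_of_le_of_card_ge h1 h2]
  exact hw

theorem xfreeu_pow {G : Type} [Group G] {x y c : G} (hc : ∀ g, c * g = g * c)
    (h : y * x = c * (x * y)) (n : ℕ) : (x * y) ^ n = c ^ n.choose 2 * (x ^ n * y ^ n) := by
  have hk : ∀ (k : ℕ) (g : G), g * c ^ k = c ^ k * g := fun k g =>
    ((Commute.pow_left (hc g) k).eq).symm
  have h1 : ∀ n : ℕ, y ^ n * x = c ^ n * (x * y ^ n) := by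
    intro n
    induction n with
    | zero => simp
    | succ n IH =>
      rw [pow_succ' y, mul_assoc, IH, ← mul_assoc y, hk, mul_assoc, ← mul_assoc y, h, pow_succ c]
      simp only [mul_assoc]
  induction n with
  | zero => simp
  | succ n IH =>
    rw [pow_succ, IH, Nat.choose_succ_succ' n 1, Nat.choose_one_right, add_comm n, pow_add,
      pow_succ x, pow_succ y]
    simp only [mul_assoc]
    rw [← mul_assoc (y ^ n), h1, mul_assoc, ← mul_assoc (x ^ n), hk]
    simp only [mul_assoc]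

theorem xfreeu_key {G U Z : Type} [Group G] [Finite G] [CommGroup U] [Finite U] [CommGroup Z]
    [Finite Z] [IsCyclic Z] (π : G →* U) (ι : Z →* G) (B : U →* U →* Z)
    (hs : Function.Surjective π) (hk : ∀ x, π x = 1 ↔ ∃ z, ι z = x) (hi : Function.Injective ι)
    (hcen : ∀ z x, ι z * x = x * ι z) (hB : Symp B) (hc : ∀ x y, ι (B (π x) (π y)) = ⁅x, y⁆)
    (hcyc : ∀ S : Subgroup G, (∀ a ∈ S, ∀ b ∈ S, a * b = b * a) → IsCyclic S)
    {p : ℕ} (hp : p.Prime) (hpU : p ∣ Nat.card U) : p = 2 ∧ ¬ 4 ∣ Nat.card Z := by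
  have := Fact.mk hp
  by_contra hcon
  obtain ⟨u, hu⟩ := exists_prime_orderOf_dvd_card' p hpU
  have hup : u ^ p = 1 := hu ▸ pow_orderOf_eq_one u
  obtain ⟨v, hv⟩ : ∃ v, B u v ≠ 1 := by
    by_contra h
    have := hB.2 u fun y => by simpa using fun h' => h ⟨y, h'⟩
    rw [this, orderOf_one] at hu
    exact hp.one_lt.ne hu
  have hcp : B u v ^ p = 1 := by
    rw [← MonoidHom.pow_apply, ← map_pow, hup, map_one, MonoidHom.one_apply]
  have hπι : ∀ z, π (ι z) = 1 := fun z => (hk _).2 ⟨z, rfl⟩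
  have K1 : ∀ w : G, w ^ p = 1 → π w = 1 := by
    intro w hw
    have := Subgroup.isMulCommutative_closure (k := {w, ι (B u v)}) (by
      rintro a (rfl | rfl) b (rfl | rfl)
      exacts [rfl, (hcen _ _).symm, hcen _ _, rfl])
    have := hcyc (Subgroup.closure {w, ι (B u v)}) fun a ha b hb =>
      setLike_mul_comm ha hb
    obtain ⟨k, hk'⟩ := xfreeu_cyc (C := Subgroup.closure {w, ι (B u v)}) hp
      (z := ⟨ι (B u v), Subgroup.subset_closure (by simp)⟩)
      (w := ⟨w, Subgroup.subset_closure (by simp)⟩)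
      (Subtype.ext (by simp [← map_pow, hcp]))
      (fun h => hv (hi (by simpa using congrArg Subtype.val h))) (Subtype.ext (by simpa using hw))
    have h3 : ι (B u v) ^ k = w := congrArg Subtype.val hk'
    rw [← h3, map_zpow, hπι, one_zpow]
  have K2 : ∀ (w : G) (h : Z), w ^ p = ι (h ^ p) → π w = 1 := by
    intro w h hw
    have h1 := K1 (w * ι h⁻¹) (by
      rw [Commute.mul_pow (hcen _ _).symm, hw, ← map_pow, ← map_mul, inv_pow, mul_inv_cancel,
        map_one])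
    rwa [map_mul, hπι, mul_one] at h1
  obtain ⟨m, hm⟩ : p ∣ orderOf v := by
    rw [← orderOf_eq_prime hcp hv, orderOf_dvd_iff_pow_eq_one, ← map_pow, pow_orderOf_eq_one,
      map_one]
  have hm0 : 0 < m := Nat.pos_of_ne_zero fun h => by
    rw [h, mul_zero] at hm; exact (orderOf_pos v).ne' hm
  have hv1 : v ^ m ≠ 1 := pow_ne_one_of_lt_orderOf hm0.ne' (by
    rw [hm]; exact lt_mul_of_one_lt_left hm0 hp.one_lt)
  obtain ⟨x, hx⟩ := hs u
  obtain ⟨y, hy⟩ := hs (v ^ m)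
  obtain ⟨g, hg⟩ := IsCyclic.exists_generator (α := Z)
  obtain ⟨a, ha⟩ := (hk (x ^ p)).1 (by rw [map_pow, hx, hup])
  obtain ⟨b, hb⟩ := (hk (y ^ p)).1 (by
    rw [map_pow, hy, ← pow_mul, mul_comm, ← hm, pow_orderOf_eq_one])
  obtain ⟨i, rfl⟩ := hg a
  obtain ⟨j, rfl⟩ := hg b
  simp only at ha hb
  have hj : ¬ (p : ℤ) ∣ j := by
    rintro ⟨k, rfl⟩
    exact hv1 (hy ▸ K2 y (g ^ k) (by rw [← hb, ← zpow_natCast, ← zpow_mul, mul_comm]))
  obtain ⟨s, t, hst⟩ := (Nat.prime_iff_prime_int.1 hp).irreducible.coprime_iff_not_dvd.2 hj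
  set y' := y ^ (-(i * t))
  set c := B (π y') (π x)
  obtain ⟨h, hh⟩ : ∃ h : Z, c ^ p.choose 2 = h ^ p := by
    rcases hp.eq_two_or_odd' with rfl | ⟨r, hr⟩
    · obtain ⟨n, hn⟩ : 4 ∣ Nat.card Z := by
        by_contra h4; exact hcon ⟨rfl, h4⟩
      have ho : orderOf g = 4 * n := by rw [orderOf_eq_card_of_forall_mem_zpowers hg, hn]
      have hn0 : 0 < n := Nat.pos_of_ne_zero fun h => by
        rw [h, mul_zero] at ho; exact (orderOf_pos g).ne' ho
      obtain ⟨k, hk'⟩ := xfreeu_cyc hp (z := g ^ (2 * n)) (w := c)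
        (by rw [← pow_mul, ← orderOf_dvd_iff_pow_eq_one, ho]; exact ⟨1, by ring⟩)
        (pow_ne_one_of_lt_orderOf (by omega) (by omega))
        (by rw [← map_pow, hx, hup, map_one])
      refine ⟨(g ^ n) ^ k, ?_⟩
      simp only at hk'
      rw [Nat.choose_self, pow_one, ← hk', mul_comm, pow_mul, ← zpow_natCast (g ^ n), ← zpow_mul,
        mul_comm, zpow_mul, zpow_natCast]
    · refine ⟨c ^ r, ?_⟩
      rw [← pow_mul, Nat.choose_two_right, hr, Nat.add_sub_cancel, mul_left_comm,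
        Nat.mul_div_cancel_left _ two_pos, mul_comm]
  have h1 := K2 (x * y') (h * g ^ (i * s)) (by
    rw [xfreeu_pow (c := ι c) (hcen c) (by rw [hc, commutatorElement_def]; group), ← ha,
      ← zpow_natCast y', ← zpow_mul, mul_comm (-(i * t)), zpow_mul, zpow_natCast, ← hb,
      ← map_pow, ← map_zpow ι _ (-(i * t)), ← map_mul, ← map_mul, hh, mul_pow, ← zpow_mul,
      ← zpow_add, ← zpow_natCast (g ^ (i * s)), ← zpow_mul]
    congr 3
    linear_combination (-i) * hst)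
  rw [map_mul, map_zpow, hx, hy, mul_eq_one_iff_eq_inv] at h1
  refine hv ?_
  rw [h1, map_inv, map_zpow, map_pow, MonoidHom.inv_apply, MonoidHom.zpow_apply,
    MonoidHom.pow_apply, hB.1, one_pow, one_zpow, inv_one]

theorem xfreeu_core {G U Z : Type} [Group G] [Finite G] [CommGroup U] [Finite U] [CommGroup Z]
    [Finite Z] [IsCyclic Z] (π : G →* U) (ι : Z →* G) (B : U →* U →* Z)
    (hs : Function.Surjective π) (hk : ∀ x, π x = 1 ↔ ∃ z, ι z = x) (hi : Function.Injective ι)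
    (hcen : ∀ z x, ι z * x = x * ι z) (hB : Symp B) (hc : ∀ x y, ι (B (π x) (π y)) = ⁅x, y⁆)
    (hcyc : ∀ S : Subgroup G, (∀ a ∈ S, ∀ b ∈ S, a * b = b * a) → IsCyclic S) :
    Nat.card U = 1 ∨ (Nat.card U = 4 ∧ ¬ 4 ∣ Nat.card Z) := by
  by_cases h1 : Nat.card U = 1
  · exact Or.inl h1
  have key := fun (p : ℕ) (hp : p.Prime) (h : p ∣ Nat.card U) =>
    xfreeu_key π ι B hs hk hi hcen hB hc hcyc hp h
  obtain ⟨p, hp, hpU⟩ := Nat.exists_prime_and_dvd h1
  have h4 := (key p hp hpU).2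
  refine Or.inr ⟨?_, h4⟩
  have h2 : ∀ u : U, u ^ 2 = 1 := fun u => hB.2 _ fun y => by
    have e1 : orderOf (B u y) ∣ Nat.card U := by
      rw [orderOf_dvd_iff_pow_eq_one, ← map_pow, pow_card_eq_one', map_one]
    have e2 := Nat.eq_prime_pow_of_unique_prime_dvd (p := 2) (orderOf_pos (B u y)).ne'
      fun hd h => (key _ hd (h.trans e1)).1
    generalize (orderOf (B u y)).primeFactorsList.length = k at e2
    rw [map_pow, MonoidHom.pow_apply, ← orderOf_dvd_iff_pow_eq_one, e2]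
    rcases Nat.lt_or_ge k 2 with h | h
    · simpa using Nat.pow_dvd_pow 2 (by omega : k ≤ 1)
    · exact absurd ((Nat.pow_dvd_pow 2 h).trans (e2 ▸ orderOf_dvd_natCard _)) h4
  obtain ⟨S, hS⟩ := exists_lagr B hB
  have h3 := card_perp B hB S
  obtain ⟨g, hg⟩ := (Subgroup.isCyclic_iff_exists_zpowers_eq_top _).1 (hcyc (S.comap π)
    fun a ha b hb => by
      rw [← commutatorElement_eq_one_iff_mul_comm, ← hc]
      have : π b ∈ perp B S := hS.symm ▸ hb
      rw [this _ ha, map_one])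
  have h5 : Nat.card S ∣ 2 := by
    rw [← Subgroup.map_comap_eq_self_of_surjective hs S, ← hg, MonoidHom.map_zpowers,
      Nat.card_zpowers, orderOf_dvd_iff_pow_eq_one]
    exact h2 _
  rw [hS] at h3
  rcases (Nat.dvd_prime Nat.prime_two).1 h5 with h | h
  · rw [h] at h3; exact absurd h3.symm h1
  · rw [← h3, h]

theorem freeU {V : Type} [AddCommGroup V] [Module K V] [Module.Finite K V]
    {H : Type} [Group H] [Finite H] (ρ : Representation K H V) (hV : ∃ v : V, v ≠ 0) (A F : Subgroup H) (hP : PD A F) (hF : FreeOn ρ F) :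
    A.relIndex F = 1 ∨ (A.relIndex F = 4 ∧ ¬ 4 ∣ Nat.card A) := by
  obtain ⟨U, Z, _, _, _, _, _, π, ζ, B, h1, h2, h3, h4, h5, h6, h7, h8⟩ := pd_pair A F hP
  have hA : ∀ z, ζ z ∈ A := fun z => (h4 _).2 ⟨z, rfl⟩
  rw [← h7, ← h8]
  refine xfreeu_core π (ζ.codRestrict F fun z => hP.le (hA z)) B h1 (fun x => ?_)
    (fun a b h => h3 (congrArg Subtype.val h)) (fun z x => Subtype.ext (hP.cen _ (hA z) _ x.2)) h5
    (fun x y => Subtype.ext (h6 x y)) fun S hS => ?_
  · rw [h2, h4]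
    exact ⟨fun ⟨z, hz⟩ => ⟨z, Subtype.ext hz⟩, fun ⟨z, hz⟩ => ⟨z, congrArg Subtype.val hz⟩⟩
  · exact freeCyc (ρ.comp F.subtype) S (fun a _ v hv h => Subtype.ext (hF a a.2 v hv h)) hV hS

end Pool.Agent.N9181

end

section

namespace Pool.Agent.N9181

open scoped commutatorElement

theorem xappup_tri {H : Type} [Group H] [Finite H] {n z : H} (hn : ∀ g, Commute n g)
    (hn2 : n * n = 1) (hz : ∀ g, Commute z g) (hz3 : orderOf z = 3)
    (h2 : ∀ t : H, t * t = 1 → t = 1 ∨ t = n) (h3 : ∀ s : H, s ^ 3 = 1 → ∀ g, Commute s g)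
    (h4 : ∀ w : H, Nat.totient (orderOf w) ≤ 4) {y y' : H} (hy : y * y = n) (hy' : y' * y' = n) :
    y' = y ∨ y' = n * y ∨ y * y' = n * (y' * y) := by
  have hi : ∀ x : H, x * x = n → x⁻¹ = n * x := fun x hx => by
    rw [inv_eq_iff_mul_eq_one, ← mul_assoc, ← (hn x).eq, mul_assoc, hx, hn2]
  have hw : y * (y * y'⁻¹) * y⁻¹ = (y * y'⁻¹)⁻¹ := by
    rw [← mul_assoc y, hy, mul_inv_rev, inv_inv, hi y' hy', ← mul_assoc n, hn2, one_mul]
  generalize hw0 : y * y'⁻¹ = w at hw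
  have h5 : ¬ 3 ∣ orderOf w := by
    rintro ⟨c, hc⟩
    have h6 : (w ^ c) ^ 3 = 1 := by rw [← pow_mul, mul_comm, ← hc, pow_orderOf_eq_one]
    have h7 : w ^ c = (w ^ c)⁻¹ := by
      rw [← inv_pow, ← hw, conj_pow, ← (h3 _ h6 y).eq, mul_inv_cancel_right]
    have h8 : w ^ c = 1 := by
      rw [pow_succ, pow_two] at h6
      rw [eq_inv_iff_mul_eq_one] at h7
      rwa [h7, one_mul] at h6
    have h9 := orderOf_pos w
    have h10 := Nat.le_of_dvd (by omega) (orderOf_dvd_of_pow_eq_one h8)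
    omega
  have h6 := h4 (z * w)
  rw [(hz w).orderOf_mul_eq_mul_orderOf_of_coprime
    (by rw [hz3]; exact (Nat.Prime.coprime_iff_not_dvd Nat.prime_three).2 h5), hz3] at h6
  have h7 : w * w * (w * w) = 1 := by
    have h8 : orderOf w ∣ 4 := by rcases num7 _ h5 h6 with h | h | h <;> rw [h] <;> norm_num
    have := orderOf_dvd_iff_pow_eq_one.1 h8
    rwa [pow_succ, pow_succ, pow_two, mul_assoc] at this
  rcases h2 _ h7 with h | h
  · rcases h2 _ h with h | h
    · exact Or.inl (mul_inv_eq_one.1 (hw0.trans h)).symm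
    · refine Or.inr (Or.inl ?_)
      rw [mul_inv_eq_iff_eq_mul.1 (hw0.trans h), ← mul_assoc, hn2, one_mul]
  · refine Or.inr (Or.inr ?_)
    have h8 : w = n * (y * y') := by
      rw [← hw0, hi y' hy', ← mul_assoc, ← (hn y).eq, mul_assoc]
    have h9 : w⁻¹ = n * (y' * y) := by
      rw [← hw0, mul_inv_rev, inv_inv, hi y hy, ← mul_assoc, ← (hn y').eq, mul_assoc]
    rw [← h9, hi w h, h8, ← mul_assoc, hn2, one_mul]

theorem xappup_six {H : Type} [Group H] {n : H} (hn : ∀ g, Commute n g)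
    (hn2 : n * n = 1) (hn1 : n ≠ 1)
    (ht : ∀ y y' : H, y * y = n → y' * y' = n → y' = y ∨ y' = n * y ∨ y * y' = n * (y' * y))
    {y₁ : H} (h₁ : y₁ * y₁ = n) :
    ∃ y₂ : H, ∀ y, y * y = n →
      y ∈ ({y₁, n * y₁, y₂, n * y₂, y₁ * y₂, n * (y₁ * y₂)} : Set H) := by
  by_cases h : ∃ y₂, y₂ * y₂ = n ∧ y₁ * y₂ = n * (y₂ * y₁)
  · obtain ⟨y₂, h₂, h₃⟩ := h
    refine ⟨y₂, fun y hy => ?_⟩
    simp only [Set.mem_insert_iff, Set.mem_singleton_iff]
    have h4 : y₁ * y₂ * (y₁ * y₂) = n := by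
      nth_rw 1 [h₃]
      rw [mul_assoc n, mul_assoc y₂, ← mul_assoc y₁, h₁, ← mul_assoc y₂, ← (hn y₂).eq,
        mul_assoc n, h₂, hn2, mul_one]
    rcases ht y₁ y h₁ hy with h5 | h5 | h5
    · exact Or.inl h5
    · exact Or.inr (Or.inl h5)
    rcases ht y₂ y h₂ hy with h6 | h6 | h6
    · exact Or.inr (Or.inr (Or.inl h6))
    · exact Or.inr (Or.inr (Or.inr (Or.inl h6)))
    rcases ht (y₁ * y₂) y h4 hy with h7 | h7 | h7
    · exact Or.inr (Or.inr (Or.inr (Or.inr (Or.inl h7))))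
    · exact Or.inr (Or.inr (Or.inr (Or.inr (Or.inr h7))))
    exfalso
    have h8 : y₁ * y₂ * y = y * (y₁ * y₂) := by
      rw [mul_assoc, h6, ← mul_assoc, ← (hn y₁).eq, mul_assoc, ← mul_assoc y₁, h5, mul_assoc n,
        ← mul_assoc n, hn2, one_mul, mul_assoc]
    rw [h8] at h7
    exact hn1 (right_eq_mul.1 h7)
  · refine ⟨1, fun y hy => ?_⟩
    simp only [Set.mem_insert_iff, Set.mem_singleton_iff]
    rcases ht y₁ y h₁ hy with h5 | h5 | h5
    · exact Or.inl h5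
    · exact Or.inr (Or.inl h5)
    · exact absurd ⟨y, hy, h5⟩ h

theorem xappup_three {H : Type} [Group H] [Finite H] {n z : H} (hn2 : n * n = 1)
    (hz : ∀ g, Commute z g) (hz3 : orderOf z = 3) :
    3 * Nat.card {y : H // y * y = n} ≤ Nat.card H := by
  have key : ∀ (y : {y : H // y * y = n}) (c : Subgroup.zpowers z), (y.1 * c.1) ^ 9 = y.1 := by
    rintro ⟨y, hy⟩ ⟨_, i, rfl⟩
    have h1 : y ^ 9 = y := by
      rw [show y ^ 9 = y * y * (y * y) * (y * y * (y * y)) * y by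
        simp only [pow_succ, pow_zero, one_mul, mul_assoc], hy, hn2, one_mul, one_mul]
    have h2 : z ^ 9 = 1 := orderOf_dvd_iff_pow_eq_one.1 (by rw [hz3]; norm_num)
    have h3 : (z ^ i) ^ 9 = 1 := by
      rw [← zpow_natCast, ← zpow_mul, mul_comm, zpow_mul, zpow_natCast, h2, one_zpow]
    simp only
    rw [((hz y).zpow_left i).symm.mul_pow, h1, h3, mul_one]
  have := Nat.card_le_card_of_injective
    (fun p : {y : H // y * y = n} × Subgroup.zpowers z => p.1.1 * p.2.1) fun p q h => by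
      have h1 : p.1 = q.1 :=
        Subtype.ext (by rw [← key p.1 p.2, ← key q.1 q.2]; exact congrArg (· ^ 9) h)
      refine Prod.ext h1 (Subtype.ext ?_)
      simp only [h1] at h
      exact mul_left_cancel h
  rwa [Nat.card_prod, Nat.card_zpowers, hz3, mul_comm] at this

theorem appUp {V : Type} [AddCommGroup V] [Module K V] [Module.Finite K V]
    {H : Type} [Group H] [Finite H] [Group.IsSolvable H] (h13 : ¬ 13 ∣ Nat.card H) (ρ : Representation K H V) (hinj : Function.Injective ρ)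
    (hF : HFree ρ) (hz : Scal ρ) (N m : ℕ) (hNM : NM H N m) (hU : HU ρ N m) (k : ℕ) (hk : 0 < k)
    (hn : Module.finrank K V = 2 * k) : Nat.card {y : H // ρ (y * y) = -1} ≤ 13 ^ k := by
  have hV : ∃ v : V, v ≠ 0 := by
    have : Nontrivial V := Module.nontrivial_of_finrank_pos (R := K) (by omega)
    exact exists_ne 0
  have hfree : ∀ (a : H) (v : V), v ≠ 0 → ρ a v = v → a = 1 := fun a v hv h =>
    hinj ((hF a v hv h).trans (map_one ρ).symm)
  have hfr : ∀ A : Subgroup H, FreeOn ρ A := fun A a _ => hfree a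
  have heq : ∀ (a b : H) (v : V), v ≠ 0 → ρ a v = ρ b v → a = b := fun a b v hv h => by
    refine (inv_mul_eq_one.1 (hfree (b⁻¹ * a) v hv ?_)).symm
    rw [map_mul, Module.End.mul_apply, h, ← Module.End.mul_apply, ← map_mul, inv_mul_cancel,
      map_one, Module.End.one_apply]
  obtain ⟨z, hz⟩ := hz
  obtain ⟨v, hv⟩ := id hV
  have hzc : ∀ g, Commute z g := fun g => heq _ _ v hv (by
    rw [map_mul, map_mul, Module.End.mul_apply, Module.End.mul_apply, hz, hz, map_smul])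
  have hz3 : orderOf z = 3 := by
    have : Fact (Nat.Prime 3) := ⟨Nat.prime_three⟩
    refine orderOf_eq_prime (hfree _ v hv ?_) fun h => ?_
    · rw [pow_succ, pow_two, map_mul, map_mul, Module.End.mul_apply, Module.End.mul_apply, hz, hz,
        hz, smul_smul, smul_smul, show (3 : K) * 3 * 3 = 1 by decide, one_smul]
    · have h1 := hz v
      rw [h, map_one, Module.End.one_apply] at h1
      have h2 : ((3 : K) - 1) • v = 0 := by rw [sub_smul, one_smul, ← h1, sub_self]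
      exact hv ((smul_eq_zero.1 h2).resolve_left (by decide))
  rcases isEmpty_or_nonempty {y : H // ρ (y * y) = -1} with h | ⟨y₁, h₁⟩
  · rw [Nat.card_of_isEmpty]
    exact Nat.zero_le _
  obtain ⟨n, hn0⟩ : ∃ n, y₁ * y₁ = n := ⟨_, rfl⟩
  rw [hn0] at h₁
  have hS : Nat.card {y : H // ρ (y * y) = -1} = Nat.card {y : H // y * y = n} :=
    Nat.card_congr (Equiv.subtypeEquivRight fun y => by rw [← h₁, hinj.eq_iff])
  have hnc : ∀ g, Commute n g := fun g => hinj (by
    rw [map_mul, map_mul, h₁, neg_one_mul, mul_neg_one])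
  have hn2 : n * n = 1 := hinj (by rw [map_mul, h₁, map_one, neg_mul_neg, one_mul])
  have hn1 : n ≠ 1 := fun h => by
    have h1 := LinearMap.congr_fun h₁ v
    rw [h, map_one, LinearMap.neg_apply, Module.End.one_apply] at h1
    have h2 : (2 : K) • v = 0 := by rw [two_smul]; exact add_eq_zero_iff_eq_neg.2 h1
    exact hv ((smul_eq_zero.1 h2).resolve_left (by decide))
  rw [hS]
  rcases (show k = 1 ∨ 2 ≤ k by omega) with rfl | hk2
  · have h2 : ∀ t : H, t * t = 1 → t = 1 ∨ t = n := fun t ht => by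
      by_cases h : v + ρ t v = 0
      · refine Or.inr (heq _ _ v hv ?_)
        rw [h₁, LinearMap.neg_apply, Module.End.one_apply]
        exact eq_neg_of_add_eq_zero_right h
      · refine Or.inl (hfree t _ h ?_)
        rw [map_add, ← Module.End.mul_apply, ← map_mul, ht, map_one, Module.End.one_apply,
          add_comm]
    have h3 : ∀ s : H, s ^ 3 = 1 → ∀ g, Commute s g := fun s hs g => by
      by_cases h : ρ s v - (9 : K) • v = 0
      · rw [heq s (z * z) v hv (by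
          rw [map_mul, Module.End.mul_apply, hz, hz, smul_smul, sub_eq_zero.1 h]; rfl)]
        exact (hzc g).mul_left (hzc g)
      by_cases h' : ρ s (ρ s v - (9 : K) • v) - (3 : K) • (ρ s v - (9 : K) • v) = 0
      · rw [heq s z _ h (by rw [hz, sub_eq_zero.1 h'])]
        exact hzc g
      have e : ρ s (ρ s (ρ s v)) = v := by
        rw [← Module.End.mul_apply, ← Module.End.mul_apply, ← map_mul, ← map_mul, ← pow_two,
          ← pow_succ, hs, map_one, Module.End.one_apply]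
      rw [hfree s _ h' (by
        simp only [map_sub, map_smul, e]
        match_scalars <;> decide)]
      exact Commute.one_left g
    have h4 : ∀ w : H, Nat.totient (orderOf w) ≤ 4 := fun w => by
      have hc : ∀ a ∈ Subgroup.zpowers w, ∀ x ∈ Subgroup.zpowers w, a * x = x * a := by
        rintro _ ⟨i, rfl⟩ _ ⟨j, rfl⟩
        exact (Commute.refl w).zpow_zpow i j
      have := dim2 h13 ρ hV N m hNM hU (Subgroup.zpowers w) (Subgroup.zpowers w)
        ⟨inferInstance, le_rfl, hc, fun x hx y hy => by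
          rw [commutatorElement_eq_one_iff_mul_comm.2 (hc x hx y hy)]; exact one_mem _,
          fun x hx _ => hx⟩ (hfr _) 1 (by rw [Subgroup.relIndex_self, one_pow])
      rwa [Nat.card_zpowers, mul_one, hn] at this
    obtain ⟨y₂, h5⟩ := xappup_six hnc hn2 hn1
      (fun y y' => xappup_tri hnc hn2 hzc hz3 h2 h3 h4) hn0
    refine (Set.ncard_le_ncard (s := {y : H | y * y = n}) h5).trans ?_
    refine le_trans ?_ (show 0 + 1 + 1 + 1 + 1 + 1 + 1 ≤ 13 ^ 1 by norm_num)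
    iterate 5 refine (Set.ncard_insert_le _ _).trans (Nat.succ_le_succ ?_)
    simp
  · obtain ⟨A, F, hA⟩ := exists_sd (H := H) fun B _ hB => freeCyc ρ B (hfr B) hV hB
    obtain ⟨e, I, M, he, hi, hI, -, -, -, -, -, -, hc⟩ := sd_count A F hA
    have hd := dim2 h13 ρ hV N m hNM hU A F hA.toPD (hfr A) e hi
    have hcen : ∀ c : H, (∀ g, Commute c g) → orderOf c ∣ Nat.card A := fun c h => by
      refine Subgroup.orderOf_dvd_natCard A (hA.nd c (hA.ff c (fun g _ => (h g).symm) fun y _ => ?_)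
        fun y _ => h y)
      rw [commutatorElement_eq_one_iff_mul_comm.2 (h y)]
      exact one_mem _
    have h6 : 6 ∣ Nat.card A := by
      have h2 := hcen n hnc
      have h3 := hcen z hzc
      rw [orderOf_eq_prime (p := 2) ((pow_two n).trans hn2) hn1] at h2
      rw [hz3] at h3
      omega
    have h7 := xappup_three hn2 hzc hz3
    obtain ⟨h8, h9⟩ := num6 k _ hk2 h6
    have hI1 := hI.1
    rcases freeU ρ hV A F hA.toPD (hfr F) with h | ⟨h, h'⟩
    · obtain rfl : e = 1 := by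
        rw [hi] at h
        exact (Nat.pow_eq_one.1 h).resolve_right (by norm_num)
      have h10 := h8 (by omega)
      have h11 := Nat.mul_le_mul_left (Nat.card A * Nat.totient (Nat.card A) * 1 ^ 2)
        (hI1.trans (show ch 2 (1 ^ 2) ≤ 1 by decide))
      omega
    · obtain rfl : e = 2 := by
        rw [hi] at h
        exact Nat.pow_left_injective (n := 2) (by norm_num) h
      have h10 := h9 h' (by omega)
      have h11 := Nat.mul_le_mul_left (Nat.card A * Nat.totient (Nat.card A) * 2 ^ 2)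
        (hI1.trans (show ch 2 (2 ^ 2) ≤ 8 by decide))
      omega

end Pool.Agent.N9181

end

section

namespace Pool.Agent.N9181

open scoped commutatorElement

theorem xbttl_split {X H : Type} [Group X] [Finite X] [Group H] (π : X →* H)
    (hs : Function.Surjective π) (hk : IsPGroup 13 π.ker) (h13 : ¬ 13 ∣ Nat.card H) :
    ∃ s : H →* X, ∀ h, π (s h) = h := by
  obtain ⟨n, hn⟩ := hk.exists_card_eq
  have hi : π.ker.index = Nat.card H := by
    rw [Subgroup.index_ker, MonoidHom.range_eq_top.2 hs, Subgroup.card_top]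
  obtain ⟨C, hC⟩ := Subgroup.exists_right_complement'_of_coprime (N := π.ker) (by
    rw [hn, hi]
    exact Nat.Coprime.pow_left n ((Nat.Prime.coprime_iff_not_dvd fact13.out).2 h13))
  have hb : Function.Bijective (π.comp C.subtype) := by
    refine ⟨(injective_iff_map_eq_one _).2 fun c hc => Subtype.ext ?_, fun h => ?_⟩
    · exact Subgroup.disjoint_def.1 hC.disjoint hc c.2
    · obtain ⟨x, rfl⟩ := hs h
      obtain ⟨⟨k, c⟩, rfl⟩ := hC.2 x
      exact ⟨⟨c.1, c.2⟩, by simp [show π k.1 = 1 from k.2]⟩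
  exact ⟨C.subtype.comp (MulEquiv.ofBijective _ hb).symm.toMonoidHom,
    (MulEquiv.ofBijective _ hb).apply_symm_apply⟩

theorem xbttl_left {H T : Type} [Group H] [Semiring T] (τ : H →* T) (J : Subgroup H) [Fintype J]
    {z : H} (hz : z ∈ J) : τ z * ∑ y : J, τ y = ∑ y : J, τ y := by
  rw [Finset.mul_sum]
  exact Fintype.sum_equiv (Equiv.mulLeft (⟨z, hz⟩ : J)) _ _ fun y => (map_mul τ z y).symm

theorem xbttl_comm {H T : Type} [Group H] [Semiring T] (τ : H →* T) (J : Subgroup H) [Fintype J]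
    {a : H} (ha : a ∈ Subgroup.normalizer (J : Set H)) :
    τ a * ∑ y : J, τ y = (∑ y : J, τ y) * τ a := by
  rw [Finset.mul_sum, Finset.sum_mul]
  refine Fintype.sum_equiv (J.normalizerMonoidHom ⟨a, ha⟩).toEquiv _ _ fun y => ?_
  rw [← map_mul, ← map_mul]
  exact congrArg τ (inv_mul_cancel_right (a * y) a).symm

theorem exists_lift {V : Type} [AddCommGroup V] [Module K V] [Module.Finite K V]
    {H : Type} [Group H] [Finite H] (h13 : ¬ 13 ∣ Nat.card H) (ρ : Representation K H V) {n : ℕ} (b : Module.Basis (Fin n) K V) (M : ℕ) :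
    ∃ τ : H →* Matrix (Fin n) (Fin n) (RM M),
      ∀ h, (τ h).map (red M) = LinearMap.toMatrix b b (ρ h) := by
  let X : Subgroup (H × (Matrix (Fin n) (Fin n) (RM M))ˣ) := MonoidHom.eqLocus
    (((red M).mapMatrix.toMonoidHom.comp (Units.coeHom _)).comp (MonoidHom.snd _ _))
    (((LinearMap.toMatrixAlgEquiv b).toMulEquiv.toMonoidHom.comp ρ).comp (MonoidHom.fst _ _))
  have hX : ∀ x, x ∈ X ↔ x.2.1.map (red M) = LinearMap.toMatrix b b (ρ x.1) := fun _ => Iff.rfl
  refine (xbttl_split ((MonoidHom.fst _ _).comp X.subtype) (fun h => ?_) (fun x => ?_)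
    h13).elim fun s hs => ?_
  rotate_right
  · refine ⟨((Units.coeHom _).comp (MonoidHom.snd _ _)).comp (X.subtype.comp s), fun h => ?_⟩
    exact ((hX _).1 (s h).2).trans (congrArg (fun g => LinearMap.toMatrix b b (ρ g)) (hs h))
  · choose A hA using fun i j => red_surj M (LinearMap.toMatrix b b (ρ h) i j)
    have e : (Matrix.of A).map (red M) = LinearMap.toMatrix b b (ρ h) :=
      Matrix.ext fun i j => hA i j
    have u : IsUnit (Matrix.of A) := by
      refine (Matrix.isUnit_iff_isUnit_det _).2 (red_unit M _ ?_)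
      rw [RingHom.map_det, RingHom.mapMatrix_apply, e, LinearMap.det_toMatrix]
      exact (((Group.isUnit h).map ρ).map LinearMap.det).ne_zero
    exact ⟨⟨(h, u.unit), (hX _).2 e⟩, rfl⟩
  · have e1 : x.1.1.1 = 1 := x.2
    have e2 := (hX _).1 x.1.2
    rw [e1, map_one, LinearMap.toMatrix_one] at e2
    refine ⟨M, Subtype.ext (Subtype.ext (Prod.ext ?_ (Units.ext ?_)))⟩
    · change x.1.1.1 ^ 13 ^ M = 1
      rw [e1, one_pow]
    · exact (Units.val_pow_eq_pow_val _ _).trans (pow_of_red M _ e2)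

theorem bt_TL {V : Type} [AddCommGroup V] [Module K V] [Module.Finite K V]
    {H : Type} [Group H] [Finite H] (h13 : ¬ 13 ∣ Nat.card H) (ρ : Representation K H V) (J : Subgroup H) (a : H)
    (ha : a ∈ Subgroup.normalizer (J : Set H)) (W : Submodule K V) (hW : IsFix ρ J W)
    (h : ∀ v ∈ W, ρ a v ∈ W) (M : ℕ) :
    (Nat.card J : RM M) * bt ((ρ a).restrict h) M = ∑ᶠ y : J, bt (ρ (a * y)) M := by
  have := Fintype.ofFinite J
  obtain ⟨τ, hτ⟩ := exists_lift h13 ρ (Module.finBasis K V) M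
  have hN : ∀ g, τ g ^ Nat.card H = 1 := fun g => by rw [← map_pow, pow_card_eq_one', map_one]
  have hb : ∀ g, bt (ρ g) M = (τ g).trace := fun g => isBt_unique _ M _ _
    (isBt_bt _ _ h13 (by rw [← map_pow, pow_card_eq_one', map_one]) M)
    ⟨_, _, τ g, _, h13, hN g, hτ g, rfl⟩
  obtain ⟨u, hu⟩ := (red_unit M (Nat.card J) (by
    rw [map_natCast, Ne, ZMod.natCast_eq_zero_iff]
    exact fun e => h13 (e.trans J.card_subgroup_dvd_card))).exists_left_inv
  have hu' : red M u * Nat.card J = 1 := by simpa using congrArg (red M) hu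
  have key := trace_mul_idem (Module.finBasis K V) (ρ a) (red M u • ∑ y : J, ρ y) M (τ a)
    (u • ∑ y : J, τ y) _ h13 (hN a) ?_ ?_ (hτ a) ?_ W (fun v => ⟨fun hv => ?_, fun hv => ?_⟩) h
  · rw [← key, finsum_eq_sum_of_fintype, Matrix.mul_smul, Matrix.trace_smul, smul_eq_mul,
      ← mul_assoc, mul_comm _ u, hu, one_mul, Finset.mul_sum, Matrix.trace_sum]
    simp only [hb, map_mul τ]
  · rw [Matrix.smul_mul, Matrix.mul_smul, Finset.sum_mul,
      Finset.sum_congr rfl fun (y : J) _ => xbttl_left τ J y.2, Finset.sum_const,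
      ← Nat.cast_smul_eq_nsmul (RM M), smul_smul u, Finset.card_univ, ← Nat.card_eq_fintype_card,
      smul_smul, mul_assoc, hu, mul_one]
  · rw [Matrix.smul_mul, Matrix.mul_smul, xbttl_comm τ J ha]
  · ext i j
    simp only [Matrix.map_apply, Matrix.smul_apply, Matrix.sum_apply, smul_eq_mul, map_mul,
      map_sum, map_smul, ← hτ]
  · rw [LinearMap.smul_apply, LinearMap.sum_apply,
      Finset.sum_congr rfl fun (y : J) _ => (hW v).1 hv y y.2, Finset.sum_const,
      ← Nat.cast_smul_eq_nsmul K, smul_smul, Finset.card_univ, ← Nat.card_eq_fintype_card, hu',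
      one_smul]
  · refine (hW v).2 fun y hy => ?_
    conv_lhs => rw [← hv]
    rw [← Module.End.mul_apply, mul_smul_comm, xbttl_left ρ J hy, hv]

end Pool.Agent.N9181

end

section

namespace Pool.Agent.N9181

open scoped commutatorElement

section

variable {V : Type} [AddCommGroup V] [Module K V] [Module.Finite K V] {H : Type} [Group H]

theorem xbtuse_mem {J : Subgroup H} {a : H} (ha : a ∈ Subgroup.normalizer (J : Set H)) {y : H}
    (hy : y ∈ J) (k : ℕ) : (a ^ k)⁻¹ * (a * y) ^ k ∈ J := by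
  induction k with
  | zero => simp
  | succ k ih =>
    have e : (a ^ (k + 1))⁻¹ * (a * y) ^ (k + 1) = a⁻¹ * ((a ^ k)⁻¹ * (a * y) ^ k) * a * y := by
      rw [pow_succ, pow_succ]
      group
    rw [e]
    exact mul_mem ((Subgroup.mem_normalizer_iff''.1 ha _).1 ih) hy

theorem xbtuse_sum {A : Type} [AddCommMonoid A] {J : Subgroup H} [Fintype J] (g : H → A)
    (a : H) (f : J → H) (h1 : ∀ y, a⁻¹ * f y ∈ J) (h2 : Function.Injective f) :
    ∑ y : J, g (f y) = ∑ y : J, g (a * y) := by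
  refine Fintype.sum_bijective (fun y => (⟨a⁻¹ * f y, h1 y⟩ : J))
    (Finite.injective_iff_bijective.1 fun y y' e => h2 ?_) _ _ fun y => by simp
  exact mul_left_cancel (congrArg Subtype.val e)

theorem xbtuse_unit (M : ℕ) {n : ℕ} (h : ¬ 13 ∣ n) : IsUnit (n : RM M) :=
  red_unit M _ (by rw [map_natCast]; exact fun e => h ((ZMod.natCast_eq_zero_iff n 13).1 e))

theorem xbtuse_TL [Finite H] (h13 : ¬ 13 ∣ Nat.card H) (ρ : Representation K H V)
    {J : Subgroup H} [Fintype J] {a : H} (ha : a ∈ Subgroup.normalizer (J : Set H))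
    {W : Submodule K V} (hW : IsFix ρ J W) (s : Module.End K W)
    (hs : ∀ w : W, (s w : V) = ρ a w) (M : ℕ) :
    (Nat.card J : RM M) * bt s M = ∑ y : J, bt (ρ (a * y)) M := by
  have h : ∀ v ∈ W, ρ a v ∈ W := fun v hv => hs ⟨v, hv⟩ ▸ (s ⟨v, hv⟩).2
  have e : s = (ρ a).restrict h := LinearMap.ext fun w => Subtype.ext (hs w)
  rw [e, bt_TL h13 ρ J a ha W hW h M, finsum_eq_sum_of_fintype]

theorem xbtuse_pow [Finite H] (h13 : ¬ 13 ∣ Nat.card H) (ρ : Representation K H V)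
    {J : Subgroup H} [Fintype J] {a : H} (ha : a ∈ Subgroup.normalizer (J : Set H))
    {W : Submodule K V} (hW : IsFix ρ J W) (k : ℕ) (s : Module.End K W)
    (hs : ∀ w : W, (s w : V) = ρ (a ^ k) w) {q : ℕ} (hq : ∀ y ∈ J, (a * y) ^ q = 1)
    (hk : k.Coprime q) (h0 : q ≠ 0) (M : ℕ) :
    (Nat.card J : RM M) * bt s M = ∑ y : J, bt (ρ ((a * y) ^ k)) M := by
  rw [xbtuse_TL h13 ρ (pow_mem ha k) hW s hs M]
  refine (xbtuse_sum (fun x => bt (ρ x) M) _ _ (fun y => xbtuse_mem ha y.2 k) fun y y' e => ?_).symm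
  have h1 : ∀ y : J, ∀ l, k * l ≡ 1 [MOD q] → ((a * y) ^ k) ^ l = a * y := fun y l hl => by
    rw [← pow_mul, pow_eq_pow_mod _ (hq y y.2), hl, ← pow_eq_pow_mod _ (hq y y.2), pow_one]
  obtain ⟨l, -, hl⟩ := Nat.exists_mul_mod_eq_of_coprime 1 hk h0
  refine Subtype.ext (mul_left_cancel (a := a) ?_)
  rw [← h1 y l hl, ← h1 y' l hl]
  exact congrArg (· ^ l) e

theorem xbtuse_c (M : ℕ) : ∃ c : RM M, c ^ 3 = 1 ∧ red M c = 3 := by
  refine ⟨3 ^ 13 ^ M, ?_, by rw [map_pow, map_ofNat, ZMod.pow_card_pow]⟩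
  have h := dvd_sub_pow_of_dvd_sub (R := RM M) (p := 13) (a := 3 ^ 3) (b := 1)
    ⟨2, by norm_num⟩ M
  rw [← Nat.cast_pow, ZMod.natCast_self, zero_dvd_iff, one_pow, sub_eq_zero] at h
  rw [pow_right_comm, h]

end

theorem inherit {V : Type} [AddCommGroup V] [Module K V] [Module.Finite K V]
    {H : Type} [Group H] [Finite H] (h13 : ¬ 13 ∣ Nat.card H) (ρ : Representation K H V) (N m : ℕ) (hNM : NM H N m) (J H1 : Subgroup H)
    (hle : H1 ≤ Subgroup.normalizer (J : Set H)) (W : Submodule K V) (hW : IsFix ρ J W)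
    (σ : Representation K H1 W) (hσ : ∀ (h : H1) (w : W), (σ h w : V) = ρ h w) :
    (HReal ρ → HReal σ) ∧ (HU ρ N m → HU σ N m) := by
  have := Fintype.ofFinite J
  have hu := fun M => xbtuse_unit M fun h => h13 (h.trans (Subgroup.card_subgroup_dvd_card J))
  refine ⟨fun hR h w hw e M => (hu M).mul_left_cancel ?_, fun hU h j hj M =>
    (hu M).mul_left_cancel ?_⟩
  · rw [xbtuse_TL h13 ρ (hle h.2) hW _ (hσ h), xbtuse_TL h13 ρ (hle h⁻¹.2) hW _ (hσ h⁻¹),
      ← xbtuse_sum (fun x => bt (ρ x) M) (h⁻¹ : H1) (fun y : J => ((h : H) * y)⁻¹)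
        (fun y => by
          have := (Subgroup.mem_normalizer_iff.1 (hle h.2) _).1 (inv_mem y.2)
          simpa [mul_assoc] using this)
        fun y y' e => Subtype.ext (mul_left_cancel (inv_injective e))]
    refine Finset.sum_congr rfl fun y _ => hR _ w (fun e => hw (Subtype.ext e)) ?_ M
    rw [map_mul, Module.End.mul_apply, (hW w).1 w.2 y y.2, ← hσ, e]
  · have key : ∀ k : ℕ, k.Coprime N → (Nat.card J : RM M) * bt (σ (h ^ k)) M =
        ∑ y : J, bt (ρ (((h : H) * y) ^ k)) M := fun k hk =>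
      xbtuse_pow h13 ρ (hle h.2) hW k _ (hσ (h ^ k)) (fun y _ => pow_card_eq_one')
        (hk.coprime_dvd_right hNM.1) Nat.card_pos.ne' M
    rw [mul_add, mul_add, key j hj, key _ (hj.mul_left hNM.2.2), key m hNM.2.2,
      xbtuse_TL h13 ρ (hle h.2) hW _ (hσ h), ← Finset.sum_add_distrib, ← Finset.sum_add_distrib]
    exact Finset.sum_congr rfl fun y _ => hU _ j hj M

theorem exists_unbal {V : Type} [AddCommGroup V] [Module K V] [Module.Finite K V]
    {H : Type} [Group H] [Finite H] (h13 : ¬ 13 ∣ Nat.card H) (ρ : Representation K H V) (T : Subgroup H) (hT : IsPGroup 3 T) (b : H)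
    (hb : b ∈ Subgroup.normalizer (T : Set H)) (hb3 : b ^ 3 ∈ T) (W : Submodule K V)
    (hW : IsFix ρ T W) (hne : edOn W (ρ b) 3 ≠ edOn W (ρ b) 9) :
    ∃ y ∈ T, (∃ a : ℕ, (b * y) ^ (3 ^ a) = 1) ∧ ed (ρ (b * y)) 3 ≠ ed (ρ (b * y)) 9 := by
  have := Fintype.ofFinite T
  have := Fact.mk Nat.prime_three
  obtain ⟨t, ht⟩ := hT.exists_card_eq
  have hq : ∀ y ∈ T, (b * y) ^ 3 ^ (t + 1) = 1 := fun y hy => by
    have h1 : (b * y) ^ 3 ∈ T := by simpa using mul_mem hb3 (xbtuse_mem hb hy 3)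
    rw [pow_succ', pow_mul, ← ht]
    exact congrArg Subtype.val (pow_card_eq_one' (x := (⟨_, h1⟩ : T)))
  have hq13 : ¬ 13 ∣ 3 ^ (t + 1) := fun h => by
    have := (Nat.Prime.dvd_of_dvd_pow fact13.out h)
    omega
  by_contra hc
  push Not at hc
  have hbW : ∀ v ∈ W, ρ b v ∈ W := fun v hv => (hW _).2 fun y hy => by
    have h1 := (hW v).1 hv _ ((Subgroup.mem_normalizer_iff''.1 hb y).1 hy)
    rw [← Module.End.mul_apply, ← map_mul, show y * b = b * (b⁻¹ * y * b) by group, map_mul,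
      Module.End.mul_apply, h1]
  have hs : ∀ (k : ℕ) (w : W), ((((ρ b).restrict hbW) ^ k) w : V) = ρ (b ^ k) w := fun k w => by
    rw [Module.End.pow_restrict, map_pow]
    rfl
  have hs1 : ((ρ b).restrict hbW) ^ 3 ^ (t + 1) = 1 := LinearMap.ext fun w => Subtype.ext (by
    have h1 := hq 1 (one_mem T)
    rw [mul_one] at h1
    rw [hs, h1, map_one]
    rfl)
  rw [← ed_res W _ ((ρ b).restrict hbW) fun _ => rfl,
    ← ed_res W _ ((ρ b).restrict hbW) fun _ => rfl] at hne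
  generalize (ρ b).restrict hbW = s at hs hs1 hne
  refine hne (eq_of_cast _ _ fun M => ?_)
  obtain ⟨c, c1, c2⟩ := xbtuse_c M
  have c3 : red M (c ^ 2) = 9 := by rw [map_pow, c2]; norm_num
  have c4 : c ^ 3 ^ (t + 1) = 1 := by rw [pow_succ' 3, pow_mul, c1, one_pow]
  have c5 : (c ^ 2) ^ 3 ^ (t + 1) = 1 := by rw [pow_right_comm, c4, one_pow]
  have key : ∀ {U : Type} [AddCommGroup U] [Module K U] [Module.Finite K U] (a : Module.End K U),
      a ^ 3 ^ (t + 1) = 1 → ∑ k ∈ Finset.range (3 ^ (t + 1)),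
        (c ^ (3 ^ (t + 1) - k) - (c ^ 2) ^ (3 ^ (t + 1) - k)) * bt (a ^ k) M =
        ((3 ^ (t + 1) : ℕ) : RM M) * (ed a 3 - ed a 9) := fun a ha => by
    simp only [sub_mul, Finset.sum_sub_distrib]
    rw [bt_eig a _ hq13 ha M c c4, bt_eig a _ hq13 ha M _ c5, c2, c3, mul_sub]
  have h1 : (Nat.card T : RM M) * (((3 ^ (t + 1) : ℕ) : RM M) * (ed s 3 - ed s 9)) =
      ∑ y : T, ((3 ^ (t + 1) : ℕ) : RM M) * (ed (ρ (b * y)) 3 - ed (ρ (b * y)) 9) := by
    rw [← key s hs1, Finset.mul_sum, Finset.sum_congr rfl fun (y : T) _ =>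
      (key (ρ (b * y)) (by rw [← map_pow, hq y y.2, map_one])).symm, Finset.sum_comm]
    refine Finset.sum_congr rfl fun k hk => ?_
    rw [← Finset.mul_sum, mul_left_comm]
    by_cases h3 : 3 ∣ k
    · obtain ⟨l, hl⟩ := Nat.dvd_sub (dvd_pow_self 3 (Nat.succ_ne_zero t)) h3
      rw [hl, pow_right_comm, pow_mul, c1, one_pow, one_pow, sub_self, zero_mul, zero_mul]
    · rw [xbtuse_pow h13 ρ hb hW k _ (hs k) hq
        ((Nat.Coprime.symm ((Nat.Prime.coprime_iff_not_dvd Nat.prime_three).2 h3)).pow_right _)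
        (by positivity)]
      simp only [map_pow]
  rw [Finset.sum_eq_zero fun y _ => by rw [hc y y.2 ⟨_, hq y y.2⟩, sub_self, mul_zero],
    (xbtuse_unit M fun h => h13 (h.trans (Subgroup.card_subgroup_dvd_card T))).mul_right_eq_zero,
    (xbtuse_unit M hq13).mul_right_eq_zero] at h1
  exact sub_eq_zero.1 h1

end Pool.Agent.N9181

end

section

namespace Pool.Agent.N9181

open scoped commutatorElement

/-- the stabiliser of a vector -/
def xatomStab {V : Type} [AddCommGroup V] [Module K V] {H : Type} [Group H]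
    (ρ : Representation K H V) (v : V) : Subgroup H where
  carrier := {h | ρ h v = v}
  one_mem' := by simp
  mul_mem' := fun {a b} ha hb => by
    simp only [Set.mem_ofPred_eq] at ha hb ⊢
    rw [map_mul, Module.End.mul_apply, hb, ha]
  inv_mem' := fun {a} ha => by
    simp only [Set.mem_ofPred_eq] at ha ⊢
    have h1 : ρ a⁻¹ (ρ a v) = v := by
      rw [← Module.End.mul_apply, ← map_mul, inv_mul_cancel, map_one, Module.End.one_apply]
    rwa [ha] at h1

theorem xatom_mem {V : Type} [AddCommGroup V] [Module K V] {H : Type} [Group H]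
    (ρ : Representation K H V) (v : V) (h : H) : h ∈ xatomStab ρ v ↔ ρ h v = v := Iff.rfl

/-- the fixed space of a subgroup -/
def xatomFix {V : Type} [AddCommGroup V] [Module K V] {H : Type} [Group H]
    (ρ : Representation K H V) (J : Subgroup H) : Submodule K V where
  carrier := {v | ∀ y ∈ J, ρ y v = v}
  zero_mem' := fun y _ => map_zero _
  add_mem' := fun {a b} ha hb y hy => by rw [map_add, ha y hy, hb y hy]
  smul_mem' := fun c v hv y hy => by rw [map_smul, hv y hy]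

theorem xatom_fix {V : Type} [AddCommGroup V] [Module K V] {H : Type} [Group H]
    (ρ : Representation K H V) (J : Subgroup H) (v : V) :
    v ∈ xatomFix ρ J ↔ ∀ y ∈ J, ρ y v = v := Iff.rfl

theorem xatom_inj {V : Type} [AddCommGroup V] [Module K V] {H : Type} [Group H]
    (ρ : Representation K H V) (h : H) (v w : V) (e : ρ h v = ρ h w) : v = w := by
  have h1 : ∀ u, ρ h⁻¹ (ρ h u) = u := fun u => by
    rw [← Module.End.mul_apply, ← map_mul, inv_mul_cancel, map_one, Module.End.one_apply]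
  rw [← h1 v, e, h1 w]

theorem xatom_norm {V : Type} [AddCommGroup V] [Module K V] {H : Type} [Group H]
    (ρ : Representation K H V) (w : V) (h : H) (l : K) (hl : l ≠ 0) (e : ρ h w = l • w) :
    h ∈ Subgroup.normalizer (xatomStab ρ w : Set H) := by
  have h1 : ρ h⁻¹ w = l⁻¹ • w := by
    apply xatom_inj ρ h
    rw [← Module.End.mul_apply, ← map_mul, mul_inv_cancel, map_one, Module.End.one_apply,
      map_smul, e, smul_smul, inv_mul_cancel₀ hl, one_smul]
  rw [Subgroup.mem_normalizer_iff]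
  intro y
  rw [xatom_mem, xatom_mem, map_mul, map_mul, Module.End.mul_apply, Module.End.mul_apply, h1,
    map_smul, map_smul]
  constructor
  · intro hy
    rw [hy, e, smul_smul, inv_mul_cancel₀ hl, one_smul]
  · intro hy
    apply xatom_inj ρ h
    rw [e]
    have h2 := congrArg (fun u => l • u) hy
    simp only [smul_smul, mul_inv_cancel₀ hl, one_smul] at h2
    exact h2

theorem app {V : Type} [AddCommGroup V] [Module K V] [Module.Finite K V]
    {H : Type} [Group H] [Finite H] [Group.IsSolvable H] (h13 : ¬ 13 ∣ Nat.card H) (ρ : Representation K H V) (hV : ∃ v : V, v ≠ 0) (hF : HFree ρ)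
    (N m : ℕ) (hNM : NM H N m) (hU : HU ρ N m) (hE : ∀ c : K, c ≠ 0 → HEP ρ c) : False := by
  obtain ⟨H', _, _, π, ρ', hs, hinj, hπ, hd, -⟩ := exists_faithful ρ
  have : Group.IsSolvable H' := Group.isSolvable_of_surjective hs
  have h13' : ¬ 13 ∣ Nat.card H' := fun h => h13 (h.trans hd)
  have hF' : HFree ρ' := by
    intro h v hv hh
    obtain ⟨g, rfl⟩ := hs h
    rw [hπ] at hh ⊢
    exact hF g v hv hh
  have hNM' : NM H' N m := ⟨hd.trans hNM.1, hNM.2⟩
  have hU' : HU ρ' N m := by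
    intro h j hj M
    obtain ⟨g, rfl⟩ := hs h
    rw [← map_pow π, ← map_pow π, ← map_pow π, hπ, hπ, hπ, hπ]
    exact hU g j hj M
  have hE' : ∀ c : K, c ≠ 0 → HEP ρ' c := by
    intro c hc v
    obtain ⟨h, hh⟩ := hE c hc v
    exact ⟨π h, by rw [hπ, hh]⟩
  have hz : Scal ρ' :=
    m0 h13' ρ' hV (fun h _ v _ hv hh => hF' h v hv hh) (hE' 3 (by decide))
  obtain ⟨k, hk, hn, hlow⟩ := appLow h13' ρ' hV hinj hF' hz N m hNM' hU' (hE' 5 (by decide))
  have hup := appUp h13' ρ' hinj hF' hz N m hNM' hU' k hk hn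
  omega

theorem atom12 {V : Type} [AddCommGroup V] [Module K V] [Module.Finite K V]
    {H : Type} [Group H] [Finite H] [Group.IsSolvable H] (h13 : ¬ 13 ∣ Nat.card H) (ρ : Representation K H V) (N m : ℕ) (hNM : NM H N m) (hU : HU ρ N m) (c : H)
    (hc : ∀ g, g * c = c * g)
    (hE : ∀ v, ρ c v = v → ∀ l : K, l ≠ 0 → ∃ h, ρ h v = l • v) : ∀ v, ρ c v = v → v = 0 := by
  intro v hv
  by_contra hv0
  have : Finite V := (card_sub (⊤ : Submodule K V)).1
  obtain ⟨v0, ⟨hv00, hv0c⟩, hmax⟩ := Set.exists_max_image {u : V | u ≠ 0 ∧ ρ c u = u}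
    (fun u => Nat.card (xatomStab ρ u)) (Set.toFinite _) ⟨v, hv0, hv⟩
  have hcJ : c ∈ xatomStab ρ v0 := hv0c
  have hst : ∀ w ∈ xatomFix ρ (xatomStab ρ v0), w ≠ 0 → xatomStab ρ v0 = xatomStab ρ w := by
    intro w hw hw0
    exact Subgroup.eq_of_le_of_card_ge (fun y hy => hw y hy) (hmax w ⟨hw0, hw c hcJ⟩)
  have hinv : ∀ h ∈ Subgroup.normalizer (xatomStab ρ v0 : Set H),
      ∀ w ∈ xatomFix ρ (xatomStab ρ v0), ρ h w ∈ xatomFix ρ (xatomStab ρ v0) := by
    intro h hh w hw y hy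
    have h1 : h⁻¹ * y * h ∈ xatomStab ρ v0 := by
      rw [Subgroup.mem_normalizer_iff] at hh
      apply (hh _).2
      have : h * (h⁻¹ * y * h) * h⁻¹ = y := by group
      rw [this]
      exact hy
    have h2 : y * h = h * (h⁻¹ * y * h) := by group
    rw [← Module.End.mul_apply, ← map_mul, h2, map_mul, Module.End.mul_apply, hw _ h1]
  obtain ⟨σ, hσ⟩ := exists_res ρ _ _ hinv
  have hd : Nat.card (Subgroup.normalizer (xatomStab ρ v0 : Set H)) ∣ Nat.card H :=
    Subgroup.card_subgroup_dvd_card _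
  have hU' := (inherit h13 ρ N m hNM (xatomStab ρ v0) _ le_rfl _ (xatom_fix ρ _) σ hσ).2 hU
  refine app (fun h => h13 (h.trans hd)) σ ⟨⟨v0, fun y hy => hy⟩, ?_⟩ ?_ N m
    ⟨hd.trans hNM.1, hNM.2⟩ hU' ?_
  · intro h0
    exact hv00 (congrArg Subtype.val h0)
  · intro h w hw0 hh
    have hw0' : (w : V) ≠ 0 := fun h0 => hw0 (Subtype.ext h0)
    have h1 : (h : H) ∈ xatomStab ρ v0 := by
      apply (hst w w.2 hw0').ge
      rw [xatom_mem, ← hσ, hh]
    ext u
    rw [hσ, Module.End.one_apply]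
    exact u.2 _ h1
  · intro l hl w
    by_cases hw0 : (w : V) = 0
    · refine ⟨1, ?_⟩
      have : w = 0 := Subtype.ext hw0
      rw [this, map_zero, smul_zero]
    · obtain ⟨h, hh⟩ := hE w (w.2 c hcJ) l hl
      have h1 := xatom_norm ρ w h l hl hh
      rw [← hst w w.2 hw0] at h1
      refine ⟨⟨h, h1⟩, Subtype.ext ?_⟩
      rw [hσ]
      exact hh

end Pool.Agent.N9181

end

section

namespace Pool.Agent.N9181

open scoped commutatorElement

theorem atomN {V : Type} [AddCommGroup V] [Module K V] [Module.Finite K V]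
    {H : Type} [Group H] [Finite H] [Group.IsSolvable H] (h13 : ¬ 13 ∣ Nat.card H) (ρ : Representation K H V) (N m : ℕ)
    (hNM : NM H N m) (hU : HU ρ N m) (c : H)
    (hE : ∀ v, ρ c v = v → ∀ l : K, l ≠ 0 → ∃ h, ρ h v = l • v) : ∀ v, ρ c v = v → v = 0 := by
  intro v hv
  by_contra hv0
  have : Finite V := (card_sub (⊤ : Submodule K V)).1
  obtain ⟨v0, ⟨hv00, hv0c⟩, hmax⟩ := Set.exists_max_image {u : V | u ≠ 0 ∧ ρ c u = u}
    (fun u => Nat.card (xatomStab ρ u)) (Set.toFinite _) ⟨v, hv0, hv⟩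
  have hcJ : c ∈ xatomStab ρ v0 := hv0c
  have hst : ∀ w ∈ xatomFix ρ (xatomStab ρ v0), w ≠ 0 → xatomStab ρ v0 = xatomStab ρ w := by
    intro w hw hw0
    exact Subgroup.eq_of_le_of_card_ge (fun y hy => hw y hy) (hmax w ⟨hw0, hw c hcJ⟩)
  have hinv : ∀ h ∈ Subgroup.normalizer (xatomStab ρ v0 : Set H),
      ∀ w ∈ xatomFix ρ (xatomStab ρ v0), ρ h w ∈ xatomFix ρ (xatomStab ρ v0) := by
    intro h hh w hw y hy
    have h1 : h⁻¹ * y * h ∈ xatomStab ρ v0 := by
      rw [Subgroup.mem_normalizer_iff] at hh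
      apply (hh _).2
      have : h * (h⁻¹ * y * h) * h⁻¹ = y := by group
      rw [this]
      exact hy
    have h2 : y * h = h * (h⁻¹ * y * h) := by group
    rw [← Module.End.mul_apply, ← map_mul, h2, map_mul, Module.End.mul_apply, hw _ h1]
  obtain ⟨σ, hσ⟩ := exists_res ρ _ _ hinv
  have hd : Nat.card (Subgroup.normalizer (xatomStab ρ v0 : Set H)) ∣ Nat.card H :=
    Subgroup.card_subgroup_dvd_card _
  have hU' := (inherit h13 ρ N m hNM (xatomStab ρ v0) _ le_rfl _ (xatom_fix ρ _) σ hσ).2 hU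
  refine app (fun h => h13 (h.trans hd)) σ ⟨⟨v0, fun y hy => hy⟩, ?_⟩ ?_ N m
    ⟨hd.trans hNM.1, hNM.2⟩ hU' ?_
  · intro h0
    exact hv00 (congrArg Subtype.val h0)
  · intro h w hw0 hh
    have hw0' : (w : V) ≠ 0 := fun h0 => hw0 (Subtype.ext h0)
    have h1 : (h : H) ∈ xatomStab ρ v0 := by
      apply (hst w w.2 hw0').ge
      rw [xatom_mem, ← hσ, hh]
    ext u
    rw [hσ, Module.End.one_apply]
    exact u.2 _ h1
  · intro l hl w
    by_cases hw0 : (w : V) = 0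
    · refine ⟨1, ?_⟩
      have : w = 0 := Subtype.ext hw0
      rw [this, map_zero, smul_zero]
    · obtain ⟨h, hh⟩ := hE w (w.2 c hcJ) l hl
      have h1 := xatom_norm ρ w h l hl hh
      rw [← hst w w.2 hw0] at h1
      refine ⟨⟨h, h1⟩, Subtype.ext ?_⟩
      rw [hσ]
      exact hh

theorem xqatomd_pow {V : Type} [AddCommGroup V] [Module K V] (a : Module.End K V) (n : ℕ) :
    (show Module.End K (Module.Dual K V) from Module.Dual.transpose (R := K) a) ^ n
      = Module.Dual.transpose (R := K) (a ^ n) := by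
  induction n with
  | zero =>
    ext f v
    simp [Module.Dual.transpose_apply]
  | succ n ih =>
    rw [pow_succ, ih, pow_succ']
    ext f v
    simp [Module.Dual.transpose_apply]

theorem bt_dual {V : Type} [AddCommGroup V] [Module K V] [Module.Finite K V]
    (a : Module.End K V) (N : ℕ) (hN : ¬ 13 ∣ N) (ha : a ^ N = 1) (M : ℕ) :
    bt (V := Module.Dual K V) (Module.Dual.transpose (R := K) a) M = bt a M := by
  obtain ⟨n, b, A, N', hN', hA, hm, ht⟩ := isBt_bt a N hN ha M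
  have h1 : (show Module.End K (Module.Dual K V) from Module.Dual.transpose (R := K) a) ^ N
      = 1 := by
    rw [xqatomd_pow, ha]
    ext f v
    simp [Module.Dual.transpose_apply]
  refine isBt_unique _ M _ _ (isBt_bt _ N hN h1 M) ⟨n, b.dualBasis, A.transpose, N', hN', ?_, ?_, ?_⟩
  · rw [← Matrix.transpose_pow, hA, Matrix.transpose_one]
  · rw [LinearMap.toMatrix_transpose, ← hm, Matrix.transpose_map]
  · rw [Matrix.trace_transpose, ht]

theorem atomD {V : Type} [AddCommGroup V] [Module K V] [Module.Finite K V]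
    {H : Type} [Group H] [Finite H] [Group.IsSolvable H] (h13 : ¬ 13 ∣ Nat.card H) (ρ : Representation K H V) (N m : ℕ)
    (hNM : NM H N m) (hU : HU ρ N m) (c : H)
    (hE : ∀ f : Module.Dual K V, f ∘ₗ ρ c = f → ∀ l : K, l ≠ 0 → ∃ h, f ∘ₗ ρ h = l • f) :
    ∀ v, ρ c v = v → v = 0 := by
  have hb : ∀ (h : H) (M : ℕ), bt (ρ.dual h) M = bt (ρ h⁻¹) M := by
    intro h M
    rw [Representation.dual_apply]
    exact bt_dual (ρ h⁻¹) (Nat.card H) h13 (by rw [← map_pow, pow_card_eq_one', map_one]) M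
  have hU' : HU ρ.dual N m := by
    intro h j hj M
    rw [hb, hb, hb, hb, ← inv_pow, ← inv_pow, ← inv_pow]
    exact hU h⁻¹ j hj M
  have key := atomN h13 ρ.dual N m hNM hU' c⁻¹ (by
    intro f hf l hl
    have hf' : f ∘ₗ ρ c = f := by
      rw [Representation.dual_apply, inv_inv] at hf
      exact hf
    obtain ⟨h, hh⟩ := hE f hf' l hl
    refine ⟨h⁻¹, ?_⟩
    rw [Representation.dual_apply, inv_inv]
    exact hh)
  intro v hv
  by_contra hv0
  have hni : ¬ Function.Injective (ρ c - 1 : Module.End K V) := by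
    intro hi
    apply hv0
    apply hi
    rw [map_zero, LinearMap.sub_apply, hv, Module.End.one_apply, sub_self]
  have hns : LinearMap.range (ρ c - 1 : Module.End K V) < ⊤ := by
    rw [lt_top_iff_ne_top, Ne, LinearMap.range_eq_top]
    intro hs
    exact hni (LinearMap.injective_iff_surjective.2 hs)
  obtain ⟨f, hf0, hf⟩ := Submodule.exists_dual_map_eq_bot_of_lt_top hns inferInstance
  apply hf0
  apply key f
  rw [Representation.dual_apply, inv_inv]
  ext u
  have h1 : f ((ρ c - 1 : Module.End K V) u) ∈ (⊥ : Submodule K K) := by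
    rw [← hf]
    exact Submodule.mem_map_of_mem (LinearMap.mem_range_self _ u)
  rw [Submodule.mem_bot, LinearMap.sub_apply, map_sub, sub_eq_zero] at h1
  exact h1

end Pool.Agent.N9181

end

section

namespace Pool.Agent.N9181

open scoped commutatorElement

theorem xqhallt_conj {G : Type} [Group G] (R Q T L : Subgroup G) (h : RQ R Q) (hL : HT R Q T L)
    (x : G) (hxQ : x ∈ Q) (hxT : x ∈ T) :
    HT R Q T (L.comap (MulAut.conj x).toMonoidHom) := by
  have hm : ∀ y, y ∈ L.comap (MulAut.conj x).toMonoidHom ↔ x * y * x⁻¹ ∈ L := fun y => Iff.rfl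
  refine ⟨fun r hr => (hm r).2 (hL.le1 (h.nR.conj_mem r hr x)), fun y hy => ?_, ?_, ?_, ?_⟩
  · have h1 := hL.le2 ((hm y).1 hy)
    rw [show y = x⁻¹ * (x * y * x⁻¹) * x by group]
    exact T.mul_mem (T.mul_mem (T.inv_mem hxT) h1) hxT
  · have h1 : R.comap (MulAut.conj x).toMonoidHom = R := by
      ext y
      refine ⟨fun hy => ?_, fun hy => h.nR.conj_mem y hy x⟩
      have h2 := h.nR.conj_mem _ (show x * y * x⁻¹ ∈ R from hy) x⁻¹
      rwa [show x⁻¹ * (x * y * x⁻¹) * x⁻¹⁻¹ = y by group] at h2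
    have h2 := Subgroup.relIndex_comap R (MulAut.conj x).toMonoidHom
      (L.comap (MulAut.conj x).toMonoidHom)
    rw [h1, Subgroup.map_comap_eq_self_of_surjective (MulAut.conj x).surjective] at h2
    rw [h2]
    exact hL.cop
  · intro t ht
    obtain ⟨q, hq, hqT, l, hl, e⟩ := hL.dec (x * t * x⁻¹)
      (T.mul_mem (T.mul_mem hxT ht) (T.inv_mem hxT))
    refine ⟨x⁻¹ * q * x, Q.mul_mem (Q.mul_mem (Q.inv_mem hxQ) hq) hxQ,
      T.mul_mem (T.mul_mem (T.inv_mem hxT) hqT) hxT, x⁻¹ * l * x, (hm _).2 ?_, ?_⟩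
    · rwa [show x * (x⁻¹ * l * x) * x⁻¹ = l by group]
    · rw [show x⁻¹ * q * x * (x⁻¹ * l * x) = x⁻¹ * (q * l) * x by group, ← e]
      group
  · intro H hH hc
    obtain ⟨y, hyQ, hyT, hy⟩ := hL.cnj H hH hc
    refine ⟨x⁻¹ * y, Q.mul_mem (Q.inv_mem hxQ) hyQ, T.mul_mem (T.inv_mem hxT) hyT,
      fun k hk => (hm _).2 ?_⟩
    rw [show x * (x⁻¹ * y * k * (x⁻¹ * y)⁻¹) * x⁻¹ = y * k * y⁻¹ by group]
    exact hy k hk

theorem xqhallt_ex {G : Type} [Group G] [Finite G] (R Q T : Subgroup G) (h : RQ R Q)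
    (hi : ¬ 13 ∣ Q.index) (hT : R ≤ T) (t : G) (ht : ¬ 13 ∣ orderOf t) (htT : t ∈ T) :
    ∃ L : Subgroup G, HT R Q T L ∧ t ∈ L := by
  obtain ⟨L, hL⟩ := hall_T R Q T h hi hT
  obtain ⟨x, hxQ, hxT, hx⟩ := hL.cnj (Subgroup.zpowers t) ((Subgroup.zpowers_le).2 htT)
    (fun hd => ht (by
      rw [← Nat.card_zpowers]
      exact hd.trans (Subgroup.relIndex_dvd_card R _)))
  exact ⟨_, xqhallt_conj R Q T L h hL x hxQ hxT, hx t (Subgroup.mem_zpowers t)⟩

theorem hall_t {G : Type} [Group G] [Finite G] (R Q : Subgroup G) (h : RQ R Q) (hi : ¬ 13 ∣ Q.index) (t : G)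
    (ht : ¬ 13 ∣ orderOf t) (hf : ∀ x ∈ Q, ⁅x, t⁆ ∈ R → x ∈ R) :
    ∃ L : Subgroup G, R ≤ L ∧ t ∈ L ∧ ¬ 13 ∣ R.relIndex L ∧
      ∀ Y : Subgroup G, t ∈ Y → ∀ g ∈ Y, ∃ u ∈ Y, (∃ a : ℕ, u ^ (13 ^ a) = 1) ∧
        ∃ l ∈ Y, l ∈ L ∧ g = u * l := by
  obtain ⟨L, hL, htL⟩ := xqhallt_ex R Q ⊤ h hi le_top t ht trivial
  refine ⟨L, hL.le1, htL, hL.cop, fun Y hY g hg => ?_⟩
  obtain ⟨L', hL', htL'⟩ := xqhallt_ex R Q (R ⊔ Y) h hi le_sup_left t ht
    (Subgroup.mem_sup_right hY)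
  obtain ⟨x, hxQ, -, hx⟩ := hL.cnj L' le_top hL'.cop
  have hxR : x ∈ R := by
    refine hf x hxQ (rel_int R Q L h hL.le1 hL.cop _ ?_ ?_)
    · rw [commutatorElement_def]
      exact L.mul_mem (hx t htL') (L.inv_mem htL)
    · rw [commutatorElement_def, show x * t * x⁻¹ * t⁻¹ = x * (t * x⁻¹ * t⁻¹) by group]
      exact Q.mul_mem hxQ (h.nQ.conj_mem _ (Q.inv_mem hxQ) t)
  have hle : L' ≤ L := by
    intro k hk
    rw [show k = x⁻¹ * (x * k * x⁻¹) * x by group]
    exact L.mul_mem (L.mul_mem (L.inv_mem (hL.le1 hxR)) (hx k hk)) (hL.le1 hxR)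
  obtain ⟨q, hq, -, l, hl, e⟩ := hL'.dec g (Subgroup.mem_sup_right hg)
  have := h.nR
  have hl2 : l ∈ ((R ⊔ Y : Subgroup G) : Set G) := hL'.le2 hl
  rw [Subgroup.normal_mul] at hl2
  obtain ⟨r, hr, n, hn, e2⟩ := hl2
  have e2' : r * n = l := e2
  have hnL : n ∈ L := by
    rw [show n = r⁻¹ * l by rw [← e2']; group]
    exact L.mul_mem (L.inv_mem (hL.le1 hr)) (hle hl)
  have hqQ : g * n⁻¹ ∈ Q := by
    rw [show g * n⁻¹ = q * r by rw [e, ← e2']; group]
    exact Q.mul_mem hq (h.le hr)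
  have hqY : g * n⁻¹ ∈ Y := Y.mul_mem hg (Y.inv_mem hn)
  obtain ⟨c, hc, -, -, u, hu, e3, k, hk⟩ := q_part 13 (by norm_num) (g * n⁻¹)
  have hR : (g * n⁻¹) ^ c ∈ R := by
    obtain ⟨b, hb⟩ := h.pw _ (Q.pow_mem hqQ c)
    obtain ⟨m, hm⟩ := exists_pow_eq_self_of_coprime (x := (g * n⁻¹) ^ c) (n := 13 ^ b)
      (Nat.Coprime.pow_left b ((Nat.Prime.coprime_iff_not_dvd (by norm_num)).2 hc))
    rw [← hm]
    exact R.pow_mem hb m
  refine ⟨u, hk ▸ Y.pow_mem hqY k, hu, (g * n⁻¹) ^ c * n, Y.mul_mem (Y.pow_mem hqY c) hn,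
    L.mul_mem (hL.le1 hR) hnL, ?_⟩
  have hcm : (g * n⁻¹) ^ c * u = u * (g * n⁻¹) ^ c := by
    rw [hk]; exact (Commute.pow_pow_self _ c k).eq
  rw [← mul_assoc, ← hcm, ← e3]
  group

end Pool.Agent.N9181

end

section

namespace Pool.Agent.N9181

open scoped commutatorElement

theorem xrmod_parts {G : Type} [Group G] (u c g : G) (huc : Commute u c) (hu : u ^ 13 = 1)
    (hc : ¬ 13 ∣ orderOf c) (a b : ℕ) (h : g * (u * c) ^ a * g⁻¹ = (u * c) ^ b) :
    g * u ^ a * g⁻¹ = u ^ b ∧ g * c ^ a * g⁻¹ = c ^ b := by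
  have cop : Nat.Coprime 13 (orderOf c) := (Nat.Prime.coprime_iff_not_dvd (by norm_num)).2 hc
  obtain ⟨e1, h11, h12⟩ := Nat.chineseRemainder cop 1 0
  obtain ⟨e2, h21, h22⟩ := Nat.chineseRemainder cop 0 1
  have hco : c ^ orderOf c = 1 := pow_orderOf_eq_one c
  have k1 : (u * c) ^ e1 = u := by
    rw [huc.mul_pow, pow_eq_pow_of_modEq h11 hu, pow_eq_pow_of_modEq h12 hco]
    simp
  have k2 : (u * c) ^ e2 = c := by
    rw [huc.mul_pow, pow_eq_pow_of_modEq h21 hu, pow_eq_pow_of_modEq h22 hco]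
    simp
  have key : ∀ e : ℕ, g * ((u * c) ^ e) ^ a * g⁻¹ = ((u * c) ^ e) ^ b := by
    intro e
    rw [← pow_mul, ← pow_mul, mul_comm e a, mul_comm e b, pow_mul, pow_mul, ← h, conj_pow]
  exact ⟨by simpa only [k1] using key e1, by simpa only [k2] using key e2⟩

theorem xrmod_eig {V : Type} [AddCommGroup V] [Module K V] [Module.Finite K V]
    {G : Type} [Group G] [Finite G] (ρ : Representation K G V) (ι : V → G) (hι : Emb ρ ι)
    (N m : ℕ) (hP : PP G N m) (c : G) (hc : ¬ 13 ∣ orderOf c) (j0 : ℕ) (hj0 : j0.Coprime N)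
    (hn : ¬ IsConj c (c ^ j0)) (v : V) (hv : ρ c v = v) (l : K) (hl : l ≠ 0) :
    ∃ g : G, g * c = c * g ∧ ρ g v = l • v := by
  by_cases hv0 : v = 0
  · exact ⟨1, by simp, by simp [hv0]⟩
  obtain ⟨h0, hsm, h13, -⟩ := emb_basic ρ ι hι
  have cop : Nat.Coprime 13 (orderOf c) := (Nat.Prime.coprime_iff_not_dvd (by norm_num)).2 hc
  have hne : ι v ≠ 1 := fun h => hv0 (hι.inj (h.trans h0.symm))
  have ho : orderOf (ι v) = 13 := orderOf_eq_prime (h13 v) hne
  have hd1 : 13 ∣ N := (ho ▸ orderOf_dvd_natCard (ι v)).trans hP.1.1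
  have hd2 : orderOf c ∣ N := (orderOf_dvd_natCard c).trans hP.1.1
  have hd : 13 * orderOf c ∣ N := cop.mul_dvd_of_dvd_of_dvd hd1 hd2
  obtain ⟨j1, h11, h12⟩ := Nat.chineseRemainder cop l.val 1
  have hc1 : j1.Coprime 13 := by
    rw [Nat.Coprime, h11.gcd_eq]
    have hlt : l.val < 13 := ZMod.val_lt l
    have hpos : l.val ≠ 0 := fun h => hl ((ZMod.val_eq_zero l).1 h)
    exact (Nat.coprime_of_lt_prime hpos hlt (by norm_num)).symm
  have hc2 : j1.Coprime (orderOf c) := by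
    rw [Nat.Coprime, h12.gcd_eq]
    simp
  obtain ⟨j, hjN, hj⟩ := exists_j (13 * orderOf c) N j1 hd hP.1.2.1 (hc1.mul_right hc2)
  have hj1 : j ≡ l.val [MOD 13] := (hj.of_mul_right _).trans h11
  have hj2 : j ≡ 1 [MOD orderOf c] := (hj.of_mul_left _).trans h12
  have hcj : c ^ j = c := by
    rw [pow_eq_pow_of_modEq hj2 (pow_orderOf_eq_one c), pow_one]
  have hjl : (j : K) = l := by
    rw [(ZMod.natCast_eq_natCast_iff j l.val 13).2 hj1, ZMod.natCast_zmod_val]
  have huc : Commute (ι v) c := by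
    have h := hι.act c v
    rw [hv] at h
    show ι v * c = c * ι v
    calc ι v * c = (c * ι v * c⁻¹) * c := by rw [← h]
      _ = c * ι v := by group
  rcases hP.2 (ι v * c) j hjN with h | h
  · obtain ⟨g, hg⟩ := isConj_iff.1 h
    obtain ⟨k1, k2⟩ := xrmod_parts (ι v) c g huc (h13 v) hc 1 j (by rw [pow_one]; exact hg)
    rw [pow_one] at k1 k2
    refine ⟨g, ?_, hι.inj ?_⟩
    · rw [hcj] at k2
      calc g * c = (g * c * g⁻¹) * g := by group
        _ = c * g := by rw [k2]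
    · rw [hι.act, k1, ← hjl, hsm]
  · obtain ⟨g, hg⟩ := isConj_iff.1 h
    obtain ⟨-, k2⟩ := xrmod_parts (ι v) c g huc (h13 v) hc m j hg
    rw [hcj] at k2
    exact absurd (pp_rat N m hP c (isConj_iff.2 ⟨g, k2⟩).symm j0 hj0) hn

theorem rmod {V : Type} [AddCommGroup V] [Module K V] [Module.Finite K V]
    {G : Type} [Group G] [Finite G] [Group.IsSolvable G] (ρ : Representation K G V) (ι : V → G) (hι : Emb ρ ι) (N m : ℕ) (hP : PP G N m) (c : G)
    (hc : ¬ 13 ∣ orderOf c) (j0 : ℕ) (hj0 : j0.Coprime N) (hn : ¬ IsConj c (c ^ j0))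
    (h13 : ∀ (g : G) (a : ℕ), g * c = c * g → g ^ (13 ^ a) = 1 → ρ g = 1) :
    ∀ v, ρ c v = v → v = 0 := by
  let C : Subgroup G := Subgroup.centralizer {c}
  have hC : ∀ g : G, g ∈ C ↔ g * c = c * g := fun g => by
    simp only [C, Subgroup.mem_centralizer_iff, Set.mem_singleton_iff, forall_eq]
    exact eq_comm
  let σ : Representation K C V := ρ.comp C.subtype
  have hσ : ∀ h : C, σ h = ρ (h : G) := fun _ => rfl
  obtain ⟨H', _, _, π, ρ', hπ, -, hρ', hcard, h13'⟩ := exists_faithful σ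
  have : Group.IsSolvable H' := Group.isSolvable_of_surjective hπ
  have hH : ¬ 13 ∣ Nat.card H' := h13' fun h a ha => by
    rw [hσ]
    exact h13 h a ((hC h).1 h.2) (by simpa using congrArg Subtype.val ha)
  have hNM : NM H' N m :=
    ⟨(hcard.trans (Subgroup.card_subgroup_dvd_card C)).trans hP.1.1, hP.1.2.1, hP.1.2.2⟩
  have hU : HU ρ' N m := by
    intro h' j hj M
    obtain ⟨h, rfl⟩ := hπ h'
    rw [← map_pow, ← map_pow, ← map_pow, hρ', hρ', hρ', hρ', hσ, hσ, hσ, hσ]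
    exact pp_U ρ N m hP h j hj M
  let c0 : C := ⟨c, (hC c).2 rfl⟩
  have hcc : ρ' (π c0) = ρ c := hρ' c0
  have key := atom12 hH ρ' N m hNM hU (π c0) (fun g => by
    obtain ⟨h, rfl⟩ := hπ g
    rw [← map_mul, ← map_mul]
    congr 1
    exact Subtype.ext ((hC h).1 h.2)) (fun v hv l hl => by
    rw [hcc] at hv
    obtain ⟨g, hg, hgv⟩ := xrmod_eig ρ ι hι N m hP c hc j0 hj0 hn v hv l hl
    exact ⟨π ⟨g, (hC g).2 hg⟩, by rw [hρ']; exact hgv⟩)
  intro v hv
  exact key v (by rw [hcc]; exact hv)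

theorem xrmod_mem {G : Type} [Group G] (Q : Subgroup G) (hQ : Q.Normal)
    (hQi : ¬ 13 ∣ Q.index) (g : G) (a : ℕ) (hg : g ^ (13 ^ a) = 1) : g ∈ Q := by
  have cop : Nat.Coprime 13 Q.index := (Nat.Prime.coprime_iff_not_dvd (by norm_num)).2 hQi
  have h1 : Nat.Coprime Q.index (orderOf g) :=
    (cop.symm.pow_right a).coprime_dvd_right (orderOf_dvd_of_pow_eq_one hg)
  obtain ⟨e, he⟩ := exists_pow_eq_self_of_coprime h1
  rw [← he]
  exact Q.pow_mem (Subgroup.pow_index_mem Q g) e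

theorem xrmod_triv {V : Type} [AddCommGroup V] [Module K V] [Module.Finite K V]
    {G : Type} [Group G] [Finite G] (ρ : Representation K G V) (hirr : Irr ρ) (Q : Subgroup G)
    (hQ : Q.Normal) (hQp : IsPGroup 13 Q) : ∀ s ∈ Q, ρ s = 1 := by
  let W : Submodule K V :=
    { carrier := {v | ∀ s ∈ Q, ρ s v = v}
      add_mem' := fun {a b} ha hb s hs => by rw [map_add, ha s hs, hb s hs]
      zero_mem' := fun s _ => map_zero _
      smul_mem' := fun r a ha s hs => by rw [map_smul, ha s hs] }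
  have hW : ∀ v, v ∈ W ↔ ∀ s ∈ Q, ρ s v = v := fun _ => Iff.rfl
  obtain ⟨v, hv0, hv⟩ := fix_of_pgroup ρ Q hQp hirr.1
  rcases hirr.2 W (fun h w hw => by
    rw [hW] at hw ⊢
    intro s hs
    have h1 : ρ (h⁻¹ * s * h) w = w := hw _ (by simpa using hQ.conj_mem s hs h⁻¹)
    have h2 : s * h = h * (h⁻¹ * s * h) := by group
    rw [← Module.End.mul_apply, ← map_mul, h2, map_mul, Module.End.mul_apply, h1]) with h | h
  · have : v ∈ W := (hW v).2 hv
    rw [h] at this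
    exact absurd ((Submodule.mem_bot K).1 this) hv0
  · intro s hs
    ext w
    exact (hW w).1 (h ▸ Submodule.mem_top) s hs

theorem xrmod_ind (n : ℕ) : ∀ (G : Type) [Group G] [Finite G] [Group.IsSolvable G],
    Nat.card G = n → ∀ (N m : ℕ), PP G N m → ∀ (Q : Subgroup G), Q.Normal → IsPGroup 13 Q →
    ¬ 13 ∣ Q.index → ∀ c : G, ¬ 13 ∣ orderOf c → ∀ j0 : ℕ, j0.Coprime N →
    (∀ g : G, g * c * g⁻¹ * (c ^ j0)⁻¹ ∉ Q) → ∀ x ∈ Q, x * c = c * x → x = 1 := by
  induction n using Nat.strong_induction_on with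
  | _ n ih =>
  intro G _ _ _ hn N m hP Q hQ hQp hQi c hc j0 hj0 hnc x hx hxc
  by_cases hQb : Q = ⊥
  · rw [hQb] at hx
    exact Subgroup.mem_bot.1 hx
  obtain ⟨B, p, hBn, hBQ, hBne, hp, hBc, hBp, hBmin⟩ := exists_min Q hQ hQb
  have hp13 : p = 13 := by
    obtain ⟨b, hb1⟩ := Subgroup.ne_bot_iff_exists_ne_one.1 hBne
    have hb1' : (b : G) ≠ 1 := fun h => hb1 (Subtype.ext h)
    have : Fact p.Prime := ⟨hp⟩
    have ho : orderOf (b : G) = p := orderOf_eq_prime (hBp b b.2) hb1'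
    obtain ⟨k, hk⟩ := hQp ⟨b, hBQ b.2⟩
    have hk' : (b : G) ^ (13 ^ k) = 1 := by simpa using congrArg Subtype.val hk
    have hd : p ∣ 13 ^ k := ho ▸ orderOf_dvd_of_pow_eq_one hk'
    exact (Nat.prime_dvd_prime_iff_eq hp (by norm_num)).1 (hp.dvd_of_dvd_pow hd)
  subst hp13
  obtain ⟨V, _, _, _, ρ, ι, hι, hB⟩ := exists_emb B hBn hBc hBp
  have hirr := emb_irr ρ ι hι B hB hBne hBmin
  have htriv := xrmod_triv ρ hirr Q hQ hQp
  let f : G →* G ⧸ B := QuotientGroup.mk' B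
  have hf : Function.Surjective f := QuotientGroup.mk'_surjective B
  have hker : f.ker = B := QuotientGroup.ker_mk' B
  have hlt : Nat.card (G ⧸ B) < n := by
    rw [← hn, Subgroup.card_eq_card_quotient_mul_card_subgroup B]
    exact lt_mul_of_one_lt_right Nat.card_pos ((Subgroup.one_lt_card_iff_ne_bot B).2 hBne)
  have hcm : (Q.map f).comap f = Q := Subgroup.comap_map_eq_self (hker.le.trans hBQ)
  have hxB : f x = 1 := by
    refine ih _ hlt (G ⧸ B) rfl N m (pp_surj f hf N m hP) (Q.map f) (hQ.map f hf) (hQp.map f)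
      (fun h => hQi (h.trans (Subgroup.index_map_dvd Q hf))) (f c)
      (fun h => hc (h.trans (orderOf_map_dvd f c))) j0 hj0 (fun g' hg' => ?_) (f x)
      (Subgroup.mem_map_of_mem f hx) (by rw [← map_mul, hxc, map_mul])
    obtain ⟨g, rfl⟩ := hf g'
    apply hnc g
    rw [← hcm, Subgroup.mem_comap]
    simpa only [map_mul, map_inv, map_pow] using hg'
  obtain ⟨v, rfl⟩ := (hB x).1 (hker.le ((MonoidHom.mem_ker).2 hxB))
  have hv : ρ c v = v := hι.inj (by
    rw [hι.act, ← hxc]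
    group)
  have hv0 := rmod ρ ι hι N m hP c hc j0 hj0 (fun h => by
    obtain ⟨g, hg⟩ := isConj_iff.1 h
    apply hnc g
    rw [hg, mul_inv_cancel]
    exact Q.one_mem) (fun g a _ hg => htriv g (xrmod_mem Q hQ hQi g a hg)) v hv
  rw [hv0]
  exact (emb_basic ρ ι hι).1

theorem rgrp {G : Type} [Group G] [Finite G] [Group.IsSolvable G] (N m : ℕ) (hP : PP G N m) (Q : Subgroup G) (hQ : Q.Normal)
    (hQp : IsPGroup 13 Q) (hQi : ¬ 13 ∣ Q.index) (c : G) (hc : ¬ 13 ∣ orderOf c) (j0 : ℕ)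
    (hj0 : j0.Coprime N) (hn : ∀ g : G, g * c * g⁻¹ * (c ^ j0)⁻¹ ∉ Q) :
    ∀ x ∈ Q, x * c = c * x → x = 1 :=
  xrmod_ind _ G rfl N m hP Q hQ hQp hQi c hc j0 hj0 hn

end Pool.Agent.N9181

end

section

namespace Pool.Agent.N9181

open scoped commutatorElement

theorem xunbal_conj {H : Type} [Group H] [Finite H] (S T T' : Subgroup H) (hT : IsPGroup 3 T)
    (hT' : IsPGroup 3 T') (h1 : T ≤ S) (h2 : T' ≤ S)
    (hmax : ∀ U : Subgroup H, IsPGroup 3 U → U ≤ S → T ≤ U → U ≤ T) :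
    ∃ c ∈ S, ∀ y ∈ T', c⁻¹ * y * c ∈ T := by
  have : Fact (Nat.Prime 3) := ⟨Nat.prime_three⟩
  obtain ⟨P, hP⟩ := (hT.comap_subtype (K := S)).exists_le_sylow
  obtain ⟨P', hP'⟩ := (hT'.comap_subtype (K := S)).exists_le_sylow
  obtain ⟨c, hc⟩ := MulAction.exists_smul_eq S P' P
  have h3 : (P : Subgroup S).map S.subtype ≤ T :=
    hmax _ (P.isPGroup'.map _) (Subgroup.map_subtype_le _)
      fun y hy => ⟨⟨y, h1 hy⟩, hP hy, rfl⟩
  refine ⟨((c⁻¹ : S) : H), (c⁻¹).2, fun y hy => h3 ⟨c * ⟨y, h2 hy⟩ * c⁻¹, ?_, by simp⟩⟩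
  have h4 : (⟨y, h2 hy⟩ : S) ∈ (P' : Subgroup S) := hP' hy
  rw [← hc]
  exact Subgroup.smul_mem_pointwise_smul _ (MulAut.conj c) _ h4

/-- the stabiliser of a vector -/
def xunbalSt {V : Type} [AddCommGroup V] [Module K V] {H : Type} [Group H]
    (ρ : Representation K H V) (w : V) : Subgroup H where
  carrier := {h | ρ h w = w}
  one_mem' := by simp
  mul_mem' := fun {a b} ha hb => by
    have ha' : ρ a w = w := ha
    have hb' : ρ b w = w := hb
    show ρ (a * b) w = w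
    rw [map_mul, Module.End.mul_apply, hb', ha']
  inv_mem' := fun {a} ha => by
    have ha' : ρ a w = w := ha
    show ρ a⁻¹ w = w
    conv_lhs => rw [← ha']
    rw [← Module.End.mul_apply, ← map_mul, inv_mul_cancel, map_one, Module.End.one_apply]

/-- the fixed space of a subgroup -/
def xunbalFix {V : Type} [AddCommGroup V] [Module K V] {H : Type} [Group H]
    (ρ : Representation K H V) (T : Subgroup H) : Submodule K V where
  carrier := {v | ∀ y ∈ T, ρ y v = v}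
  zero_mem' := fun y _ => map_zero _
  add_mem' := fun {a b} ha hb y hy => by rw [map_add, ha y hy, hb y hy]
  smul_mem' := fun c v hv y hy => by rw [map_smul, hv y hy]

theorem xunbal_zp {H : Type} [Group H] (h : H) (a : ℕ) (ha : h ^ (3 ^ a) = 1) :
    IsPGroup 3 (Subgroup.zpowers h) := by
  rintro ⟨g, n, rfl⟩
  refine ⟨a, Subtype.ext ?_⟩
  show (h ^ n) ^ (3 ^ a) = 1
  rw [← zpow_natCast, ← zpow_mul, mul_comm, zpow_mul, zpow_natCast, ha, one_zpow]

theorem unbal {V : Type} [AddCommGroup V] [Module K V] [Module.Finite K V]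
    {H : Type} [Group H] [Finite H] [Group.IsSolvable H] (h13 : ¬ 13 ∣ Nat.card H) (ρ : Representation K H V) (hV : ∃ v : V, v ≠ 0) (hE : HEP ρ 3) :
    ∃ (x : H) (a : ℕ), x ^ (3 ^ a) = 1 ∧ ed (ρ x) 3 ≠ ed (ρ x) 9 := by
  obtain ⟨T, hTm⟩ := exists_maximal_of_wellFoundedGT
    (fun T : Subgroup H => IsPGroup 3 T ∧ ∃ v : V, v ≠ 0 ∧ T ≤ xunbalSt ρ v)
    ⟨⊥, IsPGroup.of_bot, by obtain ⟨v, hv⟩ := hV; exact ⟨v, hv, bot_le⟩⟩
  obtain ⟨⟨hT, w0, hw0, hw0T⟩, hmax⟩ := hTm
  have hW : IsFix ρ T (xunbalFix ρ T) := fun v => Iff.rfl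
  generalize xunbalFix ρ T = W at hW
  have hw0W : w0 ∈ W := (hW w0).2 fun y hy => hw0T hy
  have hinv : ∀ h ∈ Subgroup.normalizer (T : Set H), ∀ w ∈ W, ρ h w ∈ W := fun h hh w hw => by
    refine (hW _).2 fun y hy => ?_
    have h1 : h⁻¹ * y * h ∈ T := by
      rw [Subgroup.mem_normalizer_iff.1 hh]
      simpa [mul_assoc] using hy
    have h2 := (hW w).1 hw _ h1
    rw [← Module.End.mul_apply, ← map_mul, show y * h = h * (h⁻¹ * y * h) by group, map_mul,
      Module.End.mul_apply, h2]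
  have key : ∀ h ∈ Subgroup.normalizer (T : Set H), ∀ a : ℕ, h ^ (3 ^ a) = 1 → ∀ w ∈ W, w ≠ 0 →
      ρ h w = w → h ∈ T := fun h hh a ha w hw hw1 hw2 => by
    have h1 : IsPGroup 3 (T ⊔ Subgroup.zpowers h : Subgroup H) :=
      hT.to_sup_of_normal_left' (xunbal_zp h a ha) (Subgroup.zpowers_le.2 hh)
    have h2 : T ⊔ Subgroup.zpowers h ≤ xunbalSt ρ w :=
      sup_le (fun y hy => (hW w).1 hw y hy) (Subgroup.zpowers_le.2 hw2)
    exact hmax ⟨h1, w, hw1, h2⟩ le_sup_left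
      (Subgroup.mem_sup_right (Subgroup.mem_zpowers h))
  obtain ⟨σ, hσ⟩ := exists_res ρ (Subgroup.normalizer (T : Set H)) W hinv
  have hF : HFP σ := fun h a v ha hv hv2 => by
    have h1 : (h : H) ∈ T := key h h.2 a (by rw [← Subgroup.coe_pow, ha]; rfl) v v.2
      (fun h0 => hv (Subtype.ext h0)) (by rw [← hσ, hv2])
    ext w
    rw [hσ, (hW w).1 w.2 _ h1]
    rfl
  have h3 : (3 : K) ≠ 0 := by decide
  have hEσ : HEP σ 3 := fun w => by
    by_cases hw : w = 0
    · exact ⟨1, by simp [hw]⟩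
    obtain ⟨t, ht⟩ := hE w
    have hw' : (w : V) ≠ 0 := fun h0 => hw (Subtype.ext h0)
    have h1 : T ≤ xunbalSt ρ (w : V) := fun y hy => (hW w).1 w.2 y hy
    have ht' : (3 : K) • ρ t⁻¹ w = w := by
      rw [← map_smul, ← ht, ← Module.End.mul_apply, ← map_mul, inv_mul_cancel, map_one,
        Module.End.one_apply]
    have h2 : T.map (MulAut.conj t).toMonoidHom ≤ xunbalSt ρ (w : V) := by
      rintro _ ⟨y, hy, rfl⟩
      have h4 : ρ y w = w := h1 hy
      show ρ (t * y * t⁻¹) w = w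
      apply smul_right_injective V h3
      show (3 : K) • ρ (t * y * t⁻¹) w = (3 : K) • (w : V)
      rw [map_mul, map_mul, Module.End.mul_apply, Module.End.mul_apply, ← map_smul, ← map_smul,
        ht', h4, ht]
    obtain ⟨c, hc, hc2⟩ := xunbal_conj _ T _ hT (hT.map _) h1 h2
      fun U hU hU1 hU2 => hmax ⟨hU, w, hw', hU1⟩ hU2
    have h5 : c⁻¹ * t ∈ Subgroup.normalizer (T : Set H) :=
      Subgroup.mem_normalizer_fintype fun y hy => by
        have := hc2 (t * y * t⁻¹) ⟨y, hy, rfl⟩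
        simpa [mul_assoc] using this
    refine ⟨⟨_, h5⟩, Subtype.ext ?_⟩
    have h6 : ρ c⁻¹ w = w := (xunbalSt ρ (w : V)).inv_mem hc
    rw [hσ]
    show ρ (c⁻¹ * t) w = (3 : K) • (w : V)
    rw [map_mul, Module.End.mul_apply, ht, map_smul, h6]
  obtain ⟨z, hz⟩ := m0 (fun h => h13 (h.trans (Subgroup.card_subgroup_dvd_card _))) σ
    ⟨⟨w0, hw0W⟩, fun h0 => hw0 (congrArg Subtype.val h0)⟩ hF hEσ
  have h27 : (3 : K) * (3 * 3) = 1 := by decide
  obtain ⟨e, a, hea, -, he⟩ := p_part 3 Nat.prime_three z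
  have hz3 : σ (z ^ e) = σ z := he _ σ 1 (by
    refine LinearMap.ext fun w => ?_
    rw [pow_one, pow_three, Module.End.mul_apply, Module.End.mul_apply, hz, hz, hz, smul_smul,
      smul_smul, mul_assoc, h27, one_smul, Module.End.one_apply])
  have hb : ∀ w ∈ W, ρ ((z ^ e : Subgroup.normalizer (T : Set H)) : H) w = (3 : K) • w :=
    fun w hw => by
      have := hσ (z ^ e) ⟨w, hw⟩
      rw [hz3, hz] at this
      exact this.symm
  have hea' : ((z ^ e : Subgroup.normalizer (T : Set H)) : H) ^ (3 ^ a) = 1 := by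
    rw [← Subgroup.coe_pow, hea]; rfl
  have hbN := (z ^ e).2
  generalize ((z ^ e : Subgroup.normalizer (T : Set H)) : H) = b at hb hea' hbN
  have hb3 : b ^ 3 ∈ T := by
    refine key _ (Subgroup.pow_mem _ hbN 3) a (by rw [← pow_mul, mul_comm, pow_mul, hea', one_pow])
      w0 hw0W hw0 ?_
    rw [pow_three, map_mul, map_mul, Module.End.mul_apply, Module.End.mul_apply, hb w0 hw0W,
      map_smul, hb w0 hw0W, map_smul, map_smul, hb w0 hw0W, smul_smul, smul_smul, mul_assoc, h27,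
      one_smul]
  have hne : edOn W (ρ b) 3 ≠ edOn W (ρ b) 9 := fun h => by
    have h1 := (edOn_pos W (ρ b) 3).2 ⟨w0, hw0W, hw0, hb w0 hw0W⟩
    rw [h] at h1
    obtain ⟨w, hw, hw1, hw2⟩ := (edOn_pos W (ρ b) 9).1 h1
    rw [hb w hw] at hw2
    have h2 : (3 : K) ≠ 9 := by decide
    exact h2 (smul_left_injective K hw1 hw2)
  obtain ⟨y, -, ⟨a', ha'⟩, hy⟩ := exists_unbal h13 ρ T hT b hbN hb3 W hW hne
  exact ⟨b * y, a', ha', hy⟩

end Pool.Agent.N9181

end

section

namespace Pool.Agent.N9181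

open scoped commutatorElement

section
variable {V : Type} [AddCommGroup V] [Module K V] [Module.Finite K V]

open Module.End

omit [Module.Finite K V] in
theorem xbasea2_inv {s α : Module.End K V} (h : s * α = α * s) (c : K) :
    ∀ w ∈ s.eigenspace c, α w ∈ s.eigenspace c := fun w hw => by
  rw [mem_eigenspace_iff] at hw ⊢
  rw [← Module.End.mul_apply, h, Module.End.mul_apply, hw, map_smul]

theorem xbasea2_split {s α : Module.End K V} (h : s * α = α * s) (h3 : α ^ 3 = 1)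
    (h1 : ed α 1 = 0) (c : K) :
    ed s c = edOn (α.eigenspace 3) s c + edOn (α.eigenspace 9) s c := by
  have h2 := split3 (s.eigenspace c) α (xbasea2_inv h c) fun w _ => by rw [h3]; rfl
  have h4 : edOn (s.eigenspace c) α 1 ≤ ed α 1 := Submodule.finrank_mono inf_le_right
  rw [edOn, edOn, inf_comm (α.eigenspace 3), inf_comm (α.eigenspace 9)]
  change Module.finrank K (s.eigenspace c) =
    edOn (s.eigenspace c) α 3 + edOn (s.eigenspace c) α 9
  omega

omit [Module.Finite K V] in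
theorem xbasea2_mul {W : Submodule K V} {s b : Module.End K V} {l c c' : K} (hl : l ≠ 0)
    (hc : c' = l * c) (h : ∀ w ∈ W, b w = l • w) : edOn W (s * b) c' = edOn W s c := by
  have e : W ⊓ (s * b).eigenspace c' = W ⊓ s.eigenspace c := by
    ext w
    simp only [Submodule.mem_inf, mem_eigenspace_iff]
    refine and_congr_right fun hw => ?_
    rw [Module.End.mul_apply, h w hw, map_smul, hc, mul_smul, smul_right_inj hl]
  rw [edOn, e, edOn]

theorem xbasea2_le {H : Type} [Group H] {ρ : Representation K H V} (hbal : HBal ρ) {a t : H}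
    (ha3 : a ^ 3 = 1) (h1 : ed (ρ a) 1 = 0) (hta : t * a = a * t) {v₁ v₂ : V}
    (m₁ : v₁ ∈ Module.End.eigenspace (ρ a) 3) (m₂ : v₂ ∈ Module.End.eigenspace (ρ a) 9) (n₁ : v₁ ≠ 0) (n₂ : v₂ ≠ 0)
    (hv : ρ t (v₁ + v₂) = (3 : K) • (v₁ + v₂)) : 2 * ed (ρ t) 3 ≤ Module.finrank K V := by
  have hc : ρ t * ρ a = ρ a * ρ t := by rw [← map_mul, hta, map_mul]
  have h3 : ρ a ^ 3 = 1 := by rw [← map_pow, ha3, map_one]
  have e₁ : ∀ w ∈ Module.End.eigenspace (ρ a) 3, ρ a w = (3 : K) • w := fun w => mem_eigenspace_iff.1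
  have e₂ : ∀ w ∈ Module.End.eigenspace (ρ a) 9, ρ a w = (9 : K) • w := fun w => mem_eigenspace_iff.1
  have f₁ : ∀ w ∈ Module.End.eigenspace (ρ a) 3, (ρ a * ρ a) w = (9 : K) • w := fun w hw => by
    rw [Module.End.mul_apply, e₁ w hw, map_smul, e₁ w hw, smul_smul]
    rfl
  have f₂ : ∀ w ∈ Module.End.eigenspace (ρ a) 9, (ρ a * ρ a) w = (3 : K) • w := fun w hw => by
    rw [Module.End.mul_apply, e₂ w hw, map_smul, e₂ w hw, smul_smul]
    rfl
  have g₀ : v₁ + v₂ ∈ Module.End.eigenspace (ρ t) 3 := mem_eigenspace_iff.2 hv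
  have g₁ := xbasea2_inv hc 3 _ g₀
  rw [map_add, e₁ _ m₁, e₂ _ m₂] at g₁
  have g₂ : v₂ ∈ Module.End.eigenspace (ρ t) 3 := by
    have := sub_mem g₁ (Submodule.smul_mem _ (3 : K) g₀)
    rw [smul_add, add_sub_add_left_eq_sub, ← sub_smul] at this
    exact (Submodule.smul_mem_iff _ (by decide)).1 this
  have g₃ : v₁ ∈ Module.End.eigenspace (ρ t) 3 := by simpa using sub_mem g₀ g₂
  rw [mem_eigenspace_iff] at g₂ g₃
  have b₁ := hbal (t * (a * a)) v₁ n₁ (by
    rw [map_mul, map_mul, Module.End.mul_apply, f₁ _ m₁, map_smul, g₃, smul_smul]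
    exact one_smul K v₁)
  have b₂ := hbal (t * a) v₂ n₂ (by
    rw [map_mul, Module.End.mul_apply, e₂ _ m₂, map_smul, g₂, smul_smul]
    exact one_smul K v₂)
  have c₁ : ρ t * (ρ a * ρ a) * ρ a = ρ a * (ρ t * (ρ a * ρ a)) := by
    rw [← mul_assoc (ρ a), ← hc]
    simp only [mul_assoc]
  have c₂ : ρ t * ρ a * ρ a = ρ a * (ρ t * ρ a) := by rw [← mul_assoc (ρ a), ← hc]
  rw [map_mul, map_mul, xbasea2_split c₁ h3 h1, xbasea2_split c₁ h3 h1,
    xbasea2_mul (c := 9) (by decide) (by decide) f₁, xbasea2_mul (c := 1) (by decide) (by decide) f₂,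
    xbasea2_mul (c := 1) (by decide) (by decide) f₁,
    xbasea2_mul (c := 3) (by decide) (by decide) f₂] at b₁
  rw [map_mul, xbasea2_split c₂ h3 h1, xbasea2_split c₂ h3 h1,
    xbasea2_mul (c := 1) (by decide) (by decide) e₁, xbasea2_mul (c := 9) (by decide) (by decide) e₂,
    xbasea2_mul (c := 3) (by decide) (by decide) e₁,
    xbasea2_mul (c := 1) (by decide) (by decide) e₂] at b₂
  have s₃ := xbasea2_split hc h3 h1 3
  have s₉ := xbasea2_split hc h3 h1 9
  have k := edOn_le ⊤ (ρ t)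
  rw [edOn_top, edOn_top, edOn_top, finrank_top] at k
  omega

open Classical Finset in
theorem xbasea2_count {H : Type} [Group H] [Finite H] (ρ : Representation K H V)
    {V₁ V₂ : Submodule K V} {d : ℕ} (h₁ : Module.finrank K V₁ = d) (h₂ : Module.finrank K V₂ = d)
    (hV : Module.finrank K V = 2 * d) (P : H → Prop) (hP : Nat.card {t // P t} + 2 ≤ 13 ^ d)
    (h : ∀ v, v ∉ V₁ → v ∉ V₂ → ∃ t, P t ∧ ρ t v = (3 : K) • v ∧ ed (ρ t) 3 ≤ d) : False := by
  have := (card_sub V₁).1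
  have := Fintype.ofFinite V
  have := Fintype.ofFinite H
  have hc : ∀ W : Submodule K V, (univ.filter (· ∈ W)).card = 13 ^ Module.finrank K W :=
    fun W => by
      rw [← (card_sub W).2]
      exact (Nat.subtype_card _ (by simp)).symm
  have hs : univ.filter (· ∈ (⊤ : Submodule K V)) ⊆ univ.filter (· ∈ V₁) ∪
      (univ.filter (· ∈ V₂)).erase 0 ∪ (univ.filter fun t => P t ∧ ed (ρ t) 3 ≤ d).biUnion
        fun t => univ.filter (· ∈ Module.End.eigenspace (ρ t) 3) := by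
    intro v _
    by_cases a₁ : v ∈ V₁
    · simp [a₁]
    by_cases a₂ : v ∈ V₂
    · have : v ≠ 0 := fun e => a₁ (e ▸ zero_mem _)
      simp [a₂, this]
    obtain ⟨t, b₁, b₂, b₃⟩ := h v a₁ a₂
    exact mem_union_right _ (mem_biUnion.2 ⟨t, by simp [b₁, b₃], by simp [b₂]⟩)
  have k₁ := (card_le_card hs).trans ((card_union_le _ _).trans (add_le_add (card_union_le _ _)
    (card_biUnion_le_card_mul _ _ (13 ^ d) fun t ht => by
      rw [hc]
      exact Nat.pow_le_pow_right (by norm_num) (mem_filter.1 ht).2.2)))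
  have k₂ : (univ.filter fun t => P t ∧ ed (ρ t) 3 ≤ d).card ≤ Nat.card {t // P t} := by
    rw [Nat.subtype_card (univ.filter P) (by simp)]
    exact card_le_card fun t ht => mem_filter.2 ⟨mem_univ _, (mem_filter.1 ht).2.1⟩
  rw [card_erase_of_mem (by simp), hc, hc, hc, finrank_top, h₁, h₂, hV, two_mul, pow_add] at k₁
  obtain ⟨x, hx⟩ : ∃ x, 13 ^ d = x + 2 := ⟨13 ^ d - 2, by omega⟩
  rw [hx] at k₁ hP
  have k₃ := Nat.mul_le_mul_right (x + 2) (k₂.trans (Nat.le_of_add_le_add_right hP))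
  have k₄ : (x + 2) * (x + 2) = x * (x + 2) + 2 * (x + 2) := by ring
  omega

end

theorem baseA2 {V : Type} [AddCommGroup V] [Module K V] [Module.Finite K V]
    {H : Type} [Group H] [Finite H] (h13 : ¬ 13 ∣ Nat.card H) (ρ : Representation K H V) (hinj : Function.Injective ρ) (hirr : Irr ρ) (A F : Subgroup H) (hS : SD A F)
    (hbal : HBal ρ) (N m : ℕ) (hNM : NM H N m) (hU : HU ρ N m) (hE : HEP ρ 3)
    (h3 : 3 ∣ A.relIndex F) : Scal ρ := by
  obtain ⟨e, I, M, he, hrel, hI, -, -, -, hc3, hidx, hpe, hH⟩ := sd_count A F hS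
  have h3e : 3 ∣ e := Nat.prime_three.dvd_of_dvd_pow (hrel ▸ h3)
  have h3A := hpe 3 Nat.prime_three h3e
  have : Fact (Nat.Prime 3) := ⟨Nat.prime_three⟩
  obtain ⟨a, ha⟩ := exists_prime_orderOf_dvd_card' 3 h3A
  have ha3 : (a : H) ^ 3 = 1 := by rw [← ha, ← Subgroup.coe_pow, pow_orderOf_eq_one]; rfl
  have ha1 : (a : H) ≠ 1 := fun h => by
    rw [OneMemClass.coe_eq_one.1 h, orderOf_one] at ha
    omega
  refine (scal_of_three ρ hinj hirr A hS.nA hS.cyc a a.2 ha1 ha3).resolve_right ?_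
  rintro ⟨h39, hd, hV, h1, hcm⟩
  have hfree := freeOn_of_irr ρ hinj hirr A hS.nA hS.cyc
  have hed : e ∣ ed (ρ a) 3 := dim1 h13 ρ A F hS.toPD hfree _ (fun f hf =>
    xbasea2_inv (by rw [← map_mul, hS.cen a a.2 f hf, map_mul]) 3) e hrel
  have htop : Module.End.eigenspace (ρ a) 3 ⊔ Module.End.eigenspace (ρ a) 9 = ⊤ := by
    have h4 := Submodule.finrank_sup_add_finrank_inf_eq (Module.End.eigenspace (ρ a) 3) (Module.End.eigenspace (ρ a) 9)
    have h5 : Module.End.eigenspace (ρ a) 3 ⊓ Module.End.eigenspace (ρ a) 9 = ⊥ := disjoint_iff.1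
      ((Module.End.eigenspaces_iSupIndep (ρ a)).pairwiseDisjoint (by decide : (3 : K) ≠ 9))
    rw [h5, finrank_bot] at h4
    refine Submodule.eq_top_of_finrank_eq ?_
    change _ + 0 = ed (ρ a) 3 + ed (ρ a) 9 at h4
    omega
  have key : ∀ v, v ∉ Module.End.eigenspace (ρ a) 3 → v ∉ Module.End.eigenspace (ρ a) 9 → ∃ t : H,
      (∃ b : ℕ, t ^ (3 ^ b) = 1) ∧ ρ t v = (3 : K) • v ∧ ed (ρ t) 3 ≤ ed (ρ a) 3 := by
    intro v n₁ n₂
    obtain ⟨t, b, ht, hv⟩ := ep3 ρ hE v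
    obtain ⟨v₁, m₁, v₂, m₂, rfl⟩ := Submodule.mem_sup.1 (htop ▸ Submodule.mem_top (x := v))
    have := xbasea2_le hbal ha3 h1 (hcm t b ht) m₁ m₂ (fun h => n₂ (by rwa [h, zero_add]))
      (fun h => n₁ (by rwa [h, add_zero])) hv
    exact ⟨t, ⟨b, ht⟩, hv, by omega⟩
  rcases lt_or_ge (Nat.totient (Nat.card A)) 6 with h6 | h6
  · obtain ⟨h9, hφ⟩ := num8 _ Nat.card_pos h3A h6
    refine xbasea2_count ρ rfl h39.symm hV _ ((Nat.add_le_add_right (hc3 h9) 2).trans
      (num3 _ e I h3e he (Nat.le_of_dvd hd hed) hI)) fun v n₁ n₂ => ?_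
    obtain ⟨t, ⟨b, ht⟩, h4⟩ := key v n₁ n₂
    refine ⟨t, ⟨?_, b, ht⟩, h4⟩
    have := hS.nA
    have h5 : (3 ^ b).Coprime (Subgroup.centralizer (A : Set H)).index :=
      Nat.Coprime.pow_left b ((Nat.Prime.coprime_iff_not_dvd Nat.prime_three).2
        fun h => hφ (h.trans hidx))
    rw [← QuotientGroup.eq_one_iff, ← pow_one (t : H ⧸ Subgroup.centralizer (A : Set H)), ← h5,
      pow_gcd_eq_one]
    exact ⟨by rw [← QuotientGroup.mk_pow, ht]; rfl, pow_card_eq_one'⟩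
  · have h4 := dim2 h13 ρ hirr.1 N m hNM hU A F hS.toPD hfree e hrel
    refine xbasea2_count ρ rfl h39.symm hV (fun _ => True) ((Nat.add_le_add_right
      ((Finite.card_subtype_le _).trans hH) 2).trans
        (num4 (ed (ρ a) 3) e I _ h3e he h6 (by omega) hI)) fun v n₁ n₂ => ?_
    obtain ⟨t, -, h5⟩ := key v n₁ n₂
    exact ⟨t, trivial, h5⟩

end Pool.Agent.N9181

end

section

namespace Pool.Agent.N9181

open scoped commutatorElement

theorem xbaseb_pow {H : Type} [Group H] (a : ℕ) :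
    ∀ h : H, h ^ (3 ^ a) = 1 → h ≠ 1 → ∃ k : ℕ, h ^ k ≠ 1 ∧ (h ^ k) ^ 3 = 1 := by
  induction a with
  | zero =>
    intro h h1 h2
    exact absurd (by simpa using h1) h2
  | succ a ih =>
    intro h h1 h2
    by_cases h3 : h ^ 3 = 1
    · exact ⟨1, by simpa using h2, by simpa using h3⟩
    · obtain ⟨k, hk1, hk2⟩ := ih (h ^ 3) (by rw [← pow_mul, ← pow_succ', h1]) h3
      exact ⟨3 * k, by rw [pow_mul]; exact hk1, by rw [pow_mul]; exact hk2⟩

theorem xbaseb_fix {V : Type} [AddCommGroup V] [Module K V] {H : Type} [Group H]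
    (ρ : Representation K H V) (h : H) (v : V) (hv : ρ h v = v) (k : ℕ) : ρ (h ^ k) v = v := by
  induction k with
  | zero => simp
  | succ k ih => rw [pow_succ, map_mul, Module.End.mul_apply, hv, ih]

theorem xbaseb_eig {V : Type} [AddCommGroup V] [Module K V] (a b : Module.End K V)
    (h : ∀ v, b v = (9 : K) • a v) (c d : K) (hd : d = 9 * c) : ed b d = ed a c := by
  have : b.eigenspace d = a.eigenspace c := by
    ext v
    rw [Module.End.mem_eigenspace_iff, Module.End.mem_eigenspace_iff, h, hd, mul_smul]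
    constructor
    · intro h1
      have h9 : (9 : K) ≠ 0 := by decide
      exact smul_right_injective V h9 h1
    · intro h1
      rw [h1]
  unfold ed
  rw [this]

theorem xbaseb_dim {V : Type} [AddCommGroup V] [Module K V] [Module.Finite K V]
    {H : Type} [Group H] (ρ : Representation K H V) (hinj : Function.Injective ρ)
    (hbal : HBal ρ) (hz : Scal ρ) (s : H) (h1 : s ≠ 1) (h3 : s ^ 3 = 1) (v : V) (hv : v ≠ 0)
    (hs : ρ s v = v) : Module.finrank K V = 3 * ed (ρ s) 1 := by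
  obtain ⟨z, hz⟩ := hz
  have e1 := split3 (⊤ : Submodule K V) (ρ s) (fun _ _ => trivial) (fun w _ => by
    rw [← map_pow, h3, map_one, Module.End.one_apply])
  rw [edOn_top, edOn_top, edOn_top, finrank_top] at e1
  have e2 := hbal s v hv hs
  have e3 : 0 < ed (ρ s) 3 := by
    by_contra hc
    have e4 : ed (ρ s) 1 = Module.finrank K V := by omega
    have e5 : Module.End.eigenspace (ρ s) 1 = ⊤ := Submodule.eq_top_of_finrank_eq e4
    apply h1
    apply hinj
    rw [map_one]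
    ext w
    have : w ∈ Module.End.eigenspace (ρ s) 1 := by rw [e5]; trivial
    rw [Module.End.mem_eigenspace_iff, one_smul] at this
    exact this
  rw [← edOn_top, edOn_pos] at e3
  obtain ⟨w, -, hw0, hw⟩ := e3
  have h9 : ∀ u, ρ (s * z * z) u = (9 : K) • ρ s u := by
    intro u
    rw [map_mul, map_mul, Module.End.mul_apply, Module.End.mul_apply, hz, hz, map_smul, map_smul,
      smul_smul]
    norm_num
  have e6 := hbal (s * z * z) w hw0 (by
    rw [h9, hw, smul_smul]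
    have : (9 : K) * 3 = 1 := by decide
    rw [this, one_smul])
  rw [xbaseb_eig _ _ h9 9 3 (by decide), xbaseb_eig _ _ h9 1 9 (by decide)] at e6
  omega

theorem xbaseb_count {V : Type} [AddCommGroup V] [Module K V] [Module.Finite K V]
    {H : Type} [Group H] [Finite H] (ρ : Representation K H V) (hinj : Function.Injective ρ)
    (hbal : HBal ρ) (hz : Scal ρ)
    (hall : ∀ v : V, v ≠ 0 → ∃ s : H, s ≠ 1 ∧ s ^ 3 = 1 ∧ ρ s v = v) (X : Set H)
    (hX : ∀ s : H, s ≠ 1 → s ^ 3 = 1 → (∃ v : V, v ≠ 0 ∧ ρ s v = v) → s ∈ X) :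
    2 * (13 ^ Module.finrank K V - 1) ≤ X.ncard * (13 ^ (Module.finrank K V / 3) - 1) := by
  classical
  obtain ⟨hfin, hcard⟩ := card_sub (⊤ : Submodule K V)
  have := Fintype.ofFinite V
  have := Fintype.ofFinite H
  rw [finrank_top] at hcard
  have hV : Fintype.card V = 13 ^ Module.finrank K V := by
    rw [← hcard, ← Nat.card_eq_fintype_card]
    exact (Nat.card_congr Submodule.topEquiv.toEquiv).symm
  set Y : Finset H :=
    Finset.univ.filter (fun s => s ≠ 1 ∧ s ^ 3 = 1 ∧ ∃ v : V, v ≠ 0 ∧ ρ s v = v) with hY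
  have hYX : Y.card ≤ X.ncard := by
    rw [← Set.ncard_coe_finset]
    refine Set.ncard_le_ncard (fun s hs => ?_) (Set.toFinite _)
    have := (Finset.mem_filter.1 (Finset.mem_coe.1 hs)).2
    exact hX s this.1 this.2.1 this.2.2
  have key := Finset.card_mul_le_card_mul (fun (v : V) (s : H) => ρ s v = v)
    (s := Finset.univ.erase (0 : V)) (t := Y) (m := 2)
    (n := 13 ^ (Module.finrank K V / 3) - 1) (fun v hv => by
      have hv0 : v ≠ 0 := Finset.ne_of_mem_erase hv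
      obtain ⟨s, hs1, hs3, hsv⟩ := hall v hv0
      have hs2 : s ^ 2 ≠ 1 := fun h => hs1 (by rw [pow_succ, h, one_mul] at hs3; exact hs3)
      have hne : s ≠ s ^ 2 := fun h => hs1 (by
        rw [pow_two] at h
        exact (left_eq_mul.1 h))
      have hsv2 := xbaseb_fix ρ s v hsv 2
      rw [← Finset.card_pair hne]
      refine Finset.card_le_card (fun t ht => ?_)
      rw [Finset.mem_bipartiteAbove, hY, Finset.mem_filter]
      rcases Finset.mem_insert.1 ht with rfl | ht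
      · exact ⟨⟨Finset.mem_univ _, hs1, hs3, v, hv0, hsv⟩, hsv⟩
      · rw [Finset.mem_singleton.1 ht]
        refine ⟨⟨Finset.mem_univ _, hs2, ?_, v, hv0, hsv2⟩, hsv2⟩
        rw [← pow_mul, mul_comm, pow_mul, hs3, one_pow])
    (fun s hs => by
      obtain ⟨hs1, hs3, v, hv0, hsv⟩ := (Finset.mem_filter.1 hs).2
      have hd := xbaseb_dim ρ hinj hbal hz s hs1 hs3 v hv0 hsv
      have hc := (card_sub (Module.End.eigenspace (ρ s) 1)).2
      have hd' : Module.finrank K V / 3 = Module.finrank K (Module.End.eigenspace (ρ s) 1) := by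
        unfold ed at hd
        omega
      rw [hd', ← hc]
      have e1 : (Finset.univ.erase (0 : V)).bipartiteBelow (fun (v : V) (s : H) => ρ s v = v) s =
          (Finset.univ.filter (fun u : V => u ∈ Module.End.eigenspace (ρ s) 1)).erase 0 := by
        ext u
        simp only [Finset.mem_bipartiteBelow, Finset.mem_erase, Finset.mem_univ, and_true,
          Finset.mem_filter, true_and, Module.End.mem_eigenspace_iff, one_smul]
      rw [e1, Finset.card_erase_of_mem (by simp), Nat.card_eq_fintype_card,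
        Fintype.card_subtype])
  rw [Finset.card_erase_of_mem (Finset.mem_univ _), Finset.card_univ, hV, mul_comm] at key
  exact key.trans (Nat.mul_le_mul_right _ hYX)

theorem baseB {V : Type} [AddCommGroup V] [Module K V] [Module.Finite K V]
    {H : Type} [Group H] [Finite H] (h13 : ¬ 13 ∣ Nat.card H) (ρ : Representation K H V) (hinj : Function.Injective ρ) (hirr : Irr ρ) (A F : Subgroup H) (hS : SD A F)
    (hbal : HBal ρ) (N m : ℕ) (hNM : NM H N m) (hU : HU ρ N m) (hz : Scal ρ) : ∃ v, Reg ρ v := by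
  by_contra hno
  have hall : ∀ v : V, v ≠ 0 → ∃ s : H, s ≠ 1 ∧ s ^ 3 = 1 ∧ ρ s v = v := by
    intro v hv
    by_contra hc
    refine hno ⟨v, hv, fun h a h1 h2 => ?_⟩
    by_contra h3
    have h4 : h ^ (3 ^ a) = 1 := hinj (by rw [map_pow, h1, map_one])
    have h5 : h ≠ 1 := fun e => h3 (by rw [e, map_one])
    obtain ⟨k, hk1, hk2⟩ := xbaseb_pow a h h4 h5
    exact hc ⟨h ^ k, hk1, hk2, xbaseb_fix ρ h v h2 k⟩
  obtain ⟨v0, hv0⟩ := hirr.1
  obtain ⟨s0, hs1, hs3, hsv⟩ := hall v0 hv0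
  have h3n : 3 ∣ Module.finrank K V :=
    ⟨_, xbaseb_dim ρ hinj hbal hz s0 hs1 hs3 v0 hv0 hsv⟩
  have : Nontrivial V := ⟨⟨v0, 0, hv0⟩⟩
  have hn : 0 < Module.finrank K V := Module.finrank_pos
  have hfree := freeOn_of_irr ρ hinj hirr A hS.nA hS.cyc
  obtain ⟨e, I, M, he, hrel, hI, hM, hM3, hc1, -, hidx, -, hcH⟩ := sd_count A F hS
  by_cases hcase : ∀ s : H, s ≠ 1 → s ^ 3 = 1 → (∃ v : V, v ≠ 0 ∧ ρ s v = v) →
      s ∈ Subgroup.centralizer (A : Set H)
  · have h1 := xbaseb_count ρ hinj hbal hz hall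
      {c : H | c ∈ Subgroup.centralizer (A : Set H) ∧ c ^ 3 = 1}
      (fun s a b c => ⟨hcase s a b c, b⟩)
    have h2 := dim1 h13 ρ A F hS.toPD hfree ⊤ (fun _ _ _ _ => trivial) e hrel
    rw [finrank_top] at h2
    have h3 := num1 _ e I M hn h3n h2 hI hM hM3
    have h4 : {c : H | c ∈ Subgroup.centralizer (A : Set H) ∧ c ^ 3 = 1}.ncard ≤
        3 * e ^ 2 * M := hc1
    exact absurd (h1.trans (Nat.mul_le_mul_right _ h4)) (not_le.2 h3)
  · obtain ⟨s, hs⟩ := not_forall.1 hcase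
    have hs3' : s ^ 3 = 1 := by
      by_contra hh
      exact hs (fun _ b => absurd b hh)
    have hsC : s ∉ Subgroup.centralizer (A : Set H) := fun hh => hs (fun _ _ _ => hh)
    have := hS.nA
    have : Fact (Nat.Prime 3) := ⟨by norm_num⟩
    have hi3 : 3 ∣ (Subgroup.centralizer (A : Set H)).index := by
      have o1 : orderOf (QuotientGroup.mk s : H ⧸ Subgroup.centralizer (A : Set H)) = 3 := by
        refine orderOf_eq_prime ?_ ?_
        · rw [← QuotientGroup.mk_pow, hs3', QuotientGroup.mk_one]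
        · intro hh
          exact hsC ((QuotientGroup.eq_one_iff s).1 hh)
      rw [← o1]
      exact orderOf_dvd_natCard _
    obtain ⟨z, hzz⟩ := id hz
    have hzc : ∀ g : H, g * z = z * g := by
      intro g
      apply hinj
      ext u
      rw [map_mul, map_mul, Module.End.mul_apply, Module.End.mul_apply, hzz, hzz, map_smul]
    have hzF : z ∈ F := hS.ff z (fun g _ => hzc g) (fun y _ => by
      rw [commutatorElement_eq_one_iff_mul_comm.2 (hzc y).symm]
      exact A.one_mem)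
    have hzA : z ∈ A := hS.nd z hzF (fun y _ => (hzc y).symm)
    have hz3 : z ^ 3 = 1 := by
      apply hinj
      ext u
      rw [pow_succ, pow_two, map_mul, map_mul, Module.End.mul_apply, Module.End.mul_apply, hzz,
        hzz, hzz, smul_smul, smul_smul, map_one, Module.End.one_apply]
      have : (3 : K) * 3 * 3 = 1 := by decide
      rw [this, one_smul]
    have hz1 : z ≠ 1 := by
      intro hh
      have h1 := hzz v0
      rw [hh, map_one, Module.End.one_apply] at h1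
      have h2 : ((3 : K) - 1) • v0 = 0 := by rw [sub_smul, one_smul, ← h1, sub_self]
      rcases smul_eq_zero.1 h2 with h | h
      · exact absurd h (by decide)
      · exact hv0 h
    have hA3 : 3 ∣ Nat.card A := by
      rw [← orderOf_eq_prime hz3 hz1]
      exact Subgroup.orderOf_dvd_natCard A hzA
    have h6 : 6 ≤ Nat.totient (Nat.card A) := by
      by_contra hh
      exact (num8 _ Nat.card_pos hA3 (not_le.1 hh)).2 (hi3.trans hidx)
    have h1 := xbaseb_count ρ hinj hbal hz hall Set.univ (fun _ _ _ _ => trivial)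
    rw [Set.ncard_univ] at h1
    have h2 := num2 _ e I _ h3n h6 he
      (dim2 h13 ρ hirr.1 N m hNM hU A F hS.toPD hfree e hrel) hI
    exact absurd (h1.trans (Nat.mul_le_mul_right _ hcH)) (not_le.2 h2)

end Pool.Agent.N9181

end

section

namespace Pool.Agent.N9181

open scoped commutatorElement

theorem xstepb_scale {V : Type} [AddCommGroup V] [Module K V]
    (a b : Module.End K V) (hb : ∀ v, b v = (9 : K) • a v) (c : K) :
    ed b (9 * c) = ed a c := by
  have h : b.eigenspace (9 * c) = a.eigenspace c := by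
    ext v
    rw [Module.End.mem_eigenspace_iff, Module.End.mem_eigenspace_iff, hb]
    constructor
    · intro h
      have h3 : (3 : K) • (9 : K) • a v = (3 : K) • (9 * c) • v := by rw [h]
      have e1 : (3 : K) * 9 = 1 := by decide
      rw [smul_smul, smul_smul, ← mul_assoc, e1, one_smul, one_mul] at h3
      exact h3
    · intro h
      rw [h, smul_smul]
  unfold ed
  rw [h]

theorem xstepb_tri {V : Type} [AddCommGroup V] [Module K V] [Module.Finite K V]
    {H : Type} [Group H] (ρ : Representation K H V) (hbal : HBal ρ) (hz : Scal ρ)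
    (g : H) (v : V) (hv : v ≠ 0) (hg : ρ g v = v) (h3 : 0 < ed (ρ g) 3) :
    ed (ρ g) 1 = ed (ρ g) 9 := by
  obtain ⟨z, hz⟩ := hz
  rw [← edOn_top, edOn_pos] at h3
  obtain ⟨w, -, hw0, hw⟩ := h3
  have e9 : (3 : K) * 3 = 9 := by decide
  have hb : ∀ u, ρ (g * z * z) u = (9 : K) • ρ g u := by
    intro u
    rw [map_mul, map_mul, Module.End.mul_apply, Module.End.mul_apply, hz, hz, smul_smul, e9,
      map_smul]
  have hw1 : ρ (g * z * z) w = w := by
    have e1 : (9 : K) * 3 = 1 := by decide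
    rw [hb, hw, smul_smul, e1, one_smul]
  have h1 := hbal (g * z * z) w hw0 hw1
  have h2 := xstepb_scale (ρ g) (ρ (g * z * z)) hb 1
  have h4 := xstepb_scale (ρ g) (ρ (g * z * z)) hb 9
  have e2 : (9 : K) * 1 = 9 := by decide
  have e3 : (9 : K) * 9 = 3 := by decide
  rw [e2] at h2
  rw [e3] at h4
  omega

theorem xstepb_zero {V : Type} [AddCommGroup V] [Module K V] [Module.Finite K V]
    (W : Submodule K V) (a : Module.End K V) (ha : ∀ w ∈ W, a w = w) (c : K) (hc : c ≠ 1) :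
    edOn W a c = 0 := by
  by_contra h
  obtain ⟨w, hw, hw0, hwa⟩ := (edOn_pos W a c).1 (Nat.pos_of_ne_zero h)
  rw [ha w hw] at hwa
  have h1 : (c - 1) • w = 0 := by rw [sub_smul, one_smul, ← hwa, sub_self]
  rcases smul_eq_zero.1 h1 with h2 | h2
  · exact hc (sub_eq_zero.1 h2)
  · exact hw0 h2

theorem xstepb_one {V : Type} [AddCommGroup V] [Module K V]
    (W : Submodule K V) (a : Module.End K V) (ha : ∀ w ∈ W, a w = w) :
    edOn W a 1 = Module.finrank K W := by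
  have h : (W ⊓ a.eigenspace 1 : Submodule K V) = W := by
    refine inf_eq_left.2 fun w hw => ?_
    rw [Module.End.mem_eigenspace_iff, one_smul]
    exact ha w hw
  unfold edOn
  rw [h]

theorem xstepb_ne {V : Type} [AddCommGroup V] [Module K V] [Module.Finite K V]
    {H : Type} [Group H] (ρ : Representation K H V) {I : Type} [MulAction H I]
    (W : I → Submodule K V) (hB : BD ρ I W) (S : Finset I) (r : I → V)
    (hr : ∀ i ∈ S, r i ∈ W i ∧ r i ≠ 0) (i : I) (hi : i ∈ S) : (∑ i ∈ S, r i) ≠ 0 := by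
  intro h
  have h1 := sum_not_mem ρ W hB S r hr (fun _ => False) i hi (fun h => h)
  rw [h] at h1
  exact h1 (Submodule.zero_mem _)

theorem xstepb_three {V : Type} [AddCommGroup V] [Module K V]
    {H : Type} [Group H] [Finite H] (ρ : Representation K H V) (h : H) (a : ℕ)
    (ha : (ρ h) ^ (3 ^ a) = 1) : ∃ (t : H) (b : ℕ), t ^ (3 ^ b) = 1 ∧ ρ t = ρ h := by
  obtain ⟨e, b, h1, -, h2⟩ := p_part 3 Nat.prime_three h
  exact ⟨h ^ e, b, h1, h2 (Module.End K V) ρ a ha⟩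

theorem xstepb_pow {T : Type} [Monoid T] (x : T) (a : ℕ) (ha : x ^ (3 ^ a) = 1) (hx : x ≠ 1) :
    ∃ k : ℕ, x ^ (3 ^ k) ≠ 1 ∧ (x ^ (3 ^ k)) ^ 3 = 1 := by
  induction a with
  | zero => exact absurd (by simpa using ha) hx
  | succ n ih =>
    by_cases h : x ^ (3 ^ n) = 1
    · exact ih h
    · exact ⟨n, h, by rw [← pow_mul, ← pow_succ, ha]⟩

theorem xstepb_caseA {V : Type} [AddCommGroup V] [Module K V] [Module.Finite K V]
    {H : Type} [Group H] [Finite H] (ρ : Representation K H V) {I : Type} [Fintype I]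
    [MulAction H I] (W : I → Submodule K V) (hB : BD ρ I W) (hbal : HBal ρ) (hS : BScal ρ W)
    (r : I → V) (hr : BReg ρ W r) (hz : Scal ρ) (hm : ¬ 3 ∣ Fintype.card I)
    (t : H) (a : ℕ) (ht : t ^ (3 ^ a) = 1) (hv : ρ t (∑ i, r i) = ∑ i, r i) : ρ t = 1 := by
  classical
  have hr' : ∀ i ∈ (Finset.univ : Finset I), r i ∈ W i ∧ r i ≠ 0 :=
    fun i _ => ⟨(hr i).1, (hr i).2.1⟩
  have hv1 : ρ t (∑ i, r i) = (1 : K) • ∑ i, r i := by rw [one_smul]; exact hv
  have hc := comp_eq ρ W hB Finset.univ r hr' t 1 hv1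
  have hfix : ∀ i, t • i = i → ∀ w ∈ W i, ρ t w = w := by
    intro i hi w hw
    have h1 := (hc i (Finset.mem_univ i)).2
    rw [hi] at h1
    have h2 := block_scal ρ W hB hS r hr t a ht i hi 0 (by rw [pow_zero]; exact h1) w hw
    rwa [pow_zero, one_smul] at h2
  by_cases hall : ∀ i : I, t • i = i
  · exact ext_blocks ρ W hB _ _ fun i w hw => hfix i (hall i) w hw
  exfalso
  obtain ⟨j, hj⟩ := not_forall.1 hall
  obtain ⟨c, hc1, hc2⟩ := cyc ρ W hB t a ht
  have hpos : 0 < c := hc2 1 _ (one_pow 3) hv1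
    (sum_not_mem ρ W hB Finset.univ r hr' (fun i => t • i = i) j (Finset.mem_univ j) hj)
  have e3 := hc1 3 (by decide)
  have e9 := hc1 9 (by decide)
  have e1 := hc1 1 (one_pow 3)
  have z9 : ∑ i ∈ Finset.univ.filter (fun i : I => t • i = i), edOn (W i) (ρ t) 9 = 0 :=
    Finset.sum_eq_zero fun i hi =>
      xstepb_zero _ _ (hfix i (Finset.mem_filter.1 hi).2) 9 (by decide)
  have hf := card_fix (I := I) t a ht
  have hne : (Finset.univ.filter (fun i : I => t • i = i)).Nonempty := by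
    rw [← Finset.card_pos]
    refine Nat.pos_of_ne_zero fun h0 => hm ?_
    rw [h0] at hf
    exact (Nat.modEq_zero_iff_dvd).1 hf.symm
  obtain ⟨i, hi⟩ := hne
  have p1 : 0 < edOn (W i) (ρ t) 1 := (edOn_pos _ _ _).2
    ⟨r i, (hr i).1, (hr i).2.1, by
      rw [one_smul]; exact hfix i (Finset.mem_filter.1 hi).2 _ (hr i).1⟩
  have p2 : edOn (W i) (ρ t) 1 ≤
      ∑ i ∈ Finset.univ.filter (fun i : I => t • i = i), edOn (W i) (ρ t) 1 :=
    Finset.single_le_sum (f := fun i => edOn (W i) (ρ t) 1) (fun _ _ => Nat.zero_le _) hi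
  have h := xstepb_tri ρ hbal hz t _ (xstepb_ne ρ W hB Finset.univ r hr' j (Finset.mem_univ j))
    hv (by omega)
  omega

theorem xstepb_caseB {V : Type} [AddCommGroup V] [Module K V] [Module.Finite K V]
    {H : Type} [Group H] [Finite H] (ρ : Representation K H V) {I : Type} [Fintype I]
    [DecidableEq I] [MulAction H I] [MulAction.IsPretransitive H I]
    (W : I → Submodule K V) (hB : BD ρ I W) (hbal : HBal ρ) (hS : BScal ρ W)
    (r : I → V) (hr : BReg ρ W r) (hz : Scal ρ) (hm : 3 ∣ Fintype.card I) (i1 : I)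
    (hv0 : (∑ i ∈ Finset.univ.erase i1, r i) ≠ 0)
    (t : H) (a : ℕ) (ht : t ^ (3 ^ a) = 1) (h3 : (ρ t) ^ 3 = 1)
    (hv : ρ t (∑ i ∈ Finset.univ.erase i1, r i) = ∑ i ∈ Finset.univ.erase i1, r i) :
    ρ t = 1 := by
  have hr' : ∀ i ∈ (Finset.univ.erase i1 : Finset I), r i ∈ W i ∧ r i ≠ 0 :=
    fun i _ => ⟨(hr i).1, (hr i).2.1⟩
  have hv1 : ρ t (∑ i ∈ Finset.univ.erase i1, r i) =
      (1 : K) • ∑ i ∈ Finset.univ.erase i1, r i := by rw [one_smul]; exact hv
  have hc := comp_eq ρ W hB _ r hr' t 1 hv1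
  have hfix : ∀ i, i ≠ i1 → t • i = i → ∀ w ∈ W i, ρ t w = w := by
    intro i hi1 hi w hw
    have h1 := (hc i (Finset.mem_erase.2 ⟨hi1, Finset.mem_univ i⟩)).2
    rw [hi] at h1
    have h2 := block_scal ρ W hB hS r hr t a ht i hi 0 (by rw [pow_zero]; exact h1) w hw
    rwa [pow_zero, one_smul] at h2
  have hi1 : t • i1 = i1 := by
    by_contra hne
    have h1 : t⁻¹ • i1 ≠ i1 := fun h => hne (by
      conv_lhs => rw [← h]
      exact smul_inv_smul t i1)
    have h2 := (hc _ (Finset.mem_erase.2 ⟨h1, Finset.mem_univ _⟩)).1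
    rw [smul_inv_smul] at h2
    exact (Finset.mem_erase.1 h2).1 rfl
  by_contra hne
  have hb := hbal t _ hv0 hv
  have p3 : 0 < ed (ρ t) 3 := by
    refine Nat.pos_of_ne_zero fun h0 => hne ?_
    have hs := split3 (⊤ : Submodule K V) (ρ t) (fun _ _ => Submodule.mem_top)
      (fun w _ => by rw [h3]; rfl)
    rw [edOn_top, edOn_top, edOn_top, ← hb, h0, finrank_top] at hs
    have ht1 : Module.End.eigenspace (ρ t) 1 = ⊤ :=
      Submodule.eq_top_of_finrank_eq (by unfold ed at hs; omega)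
    ext w
    have hw : w ∈ Module.End.eigenspace (ρ t) 1 := by rw [ht1]; exact Submodule.mem_top
    rw [Module.End.mem_eigenspace_iff, one_smul] at hw
    exact hw
  have htri := xstepb_tri ρ hbal hz t _ hv0 hv p3
  obtain ⟨c, hc1, -⟩ := cyc ρ W hB t a ht
  have e9 := hc1 9 (by decide)
  have e1 := hc1 1 (one_pow 3)
  have hf := card_fix (I := I) t a ht
  generalize hF : Finset.univ.filter (fun i : I => t • i = i) = F at e9 e1 hf
  have hmem : ∀ i, i ∈ F ↔ t • i = i := fun i => by rw [← hF]; simp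
  have hF1 : i1 ∈ F := (hmem i1).2 hi1
  have hcard : 3 ≤ F.card :=
    Nat.le_of_dvd (Finset.card_pos.2 ⟨i1, hF1⟩) ((hf.dvd_iff (dvd_refl 3)).2 hm)
  rw [← Finset.add_sum_erase F _ hF1] at e9 e1
  have z9 : ∑ i ∈ F.erase i1, edOn (W i) (ρ t) 9 = 0 :=
    Finset.sum_eq_zero fun i hi =>
      xstepb_zero _ _ (hfix i (Finset.mem_erase.1 hi).1 ((hmem i).1 (Finset.mem_erase.1 hi).2))
        9 (by decide)
  have z1 : ∑ i ∈ F.erase i1, edOn (W i) (ρ t) 1 =
      (F.card - 1) * Module.finrank K (W i1) := by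
    rw [← Finset.card_erase_of_mem hF1, ← smul_eq_mul, ← Finset.sum_const]
    refine Finset.sum_congr rfl fun i hi => ?_
    rw [xstepb_one _ _ (hfix i (Finset.mem_erase.1 hi).1 ((hmem i).1 (Finset.mem_erase.1 hi).2))]
    obtain ⟨g, hg⟩ := MulAction.exists_smul_eq H i1 i
    rw [← hg]
    exact (dim_eq ρ W hB g t i1 1).1
  have hle := edOn_le (W i1) (ρ t)
  have hd : 0 < Module.finrank K (W i1) :=
    Nat.pos_of_ne_zero fun h0 => hB.ne i1 (Submodule.finrank_eq_zero.1 h0)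
  have h2 : 2 * Module.finrank K (W i1) ≤ (F.card - 1) * Module.finrank K (W i1) :=
    Nat.mul_le_mul_right _ (by omega)
  omega

theorem stepB {V : Type} [AddCommGroup V] [Module K V] [Module.Finite K V]
    {H : Type} [Group H] [Finite H] (ρ : Representation K H V) {I : Type} [Fintype I] [Nonempty I] [MulAction H I]
    [MulAction.IsPretransitive H I]
    (W : I → Submodule K V) (hB : BD ρ I W) (hbal : HBal ρ) (hS : BScal ρ W)
    (r : I → V) (hr : BReg ρ W r) (hz : Scal ρ) : ∃ v, Reg ρ v := by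
  classical
  obtain ⟨i1⟩ := ‹Nonempty I›
  by_cases hm : 3 ∣ Fintype.card I
  · have hc : 1 < Fintype.card I :=
      lt_of_lt_of_le (by norm_num) (Nat.le_of_dvd Fintype.card_pos hm)
    obtain ⟨j, hj⟩ := Fintype.exists_ne_of_one_lt_card hc i1
    have hv0 : (∑ i ∈ Finset.univ.erase i1, r i) ≠ 0 :=
      xstepb_ne ρ W hB _ r (fun i _ => ⟨(hr i).1, (hr i).2.1⟩) j
        (Finset.mem_erase.2 ⟨hj, Finset.mem_univ j⟩)
    refine ⟨_, hv0, fun h a ha hv => ?_⟩
    obtain ⟨t, b, htb, ht⟩ := xstepb_three ρ h a ha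
    by_contra hne
    obtain ⟨k, hk1, hk3⟩ := xstepb_pow (ρ h) a ha hne
    have hy : ρ (t ^ (3 ^ k)) = (ρ h) ^ (3 ^ k) := by rw [map_pow, ht]
    refine hk1 ?_
    rw [← hy]
    refine xstepb_caseB ρ W hB hbal hS r hr hz hm i1 hv0 _ b ?_ (by rw [hy]; exact hk3) ?_
    · rw [← pow_mul, mul_comm, pow_mul, htb, one_pow]
    · rw [hy, Module.End.pow_apply]
      exact Function.iterate_fixed hv _
  · refine ⟨∑ i, r i, xstepb_ne ρ W hB _ r (fun i _ => ⟨(hr i).1, (hr i).2.1⟩) i1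
      (Finset.mem_univ i1), fun h a ha hv => ?_⟩
    obtain ⟨t, b, htb, ht⟩ := xstepb_three ρ h a ha
    rw [← ht] at hv ⊢
    exact xstepb_caseA ρ W hB hbal hS r hr hz hm t b htb hv

end Pool.Agent.N9181

end

section

namespace Pool.Agent.N9181

open scoped commutatorElement

/-- The statement in dimension `n`. -/
def xthmm_P (n : ℕ) : Prop :=
  ∀ (V : Type) [AddCommGroup V] [Module K V] [Module.Finite K V] (H : Type) [Group H] [Finite H]
    [Group.IsSolvable H], Module.finrank K V = n → ¬ 13 ∣ Nat.card H →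
    ∀ (ρ : Representation K H V), Irr ρ → ∀ N m : ℕ, NM H N m → HU ρ N m → HReal ρ → HEP ρ 3 →
      Scal ρ ∧ ∃ v, Reg ρ v

theorem xthmm_base {V : Type} [AddCommGroup V] [Module K V] [Module.Finite K V]
    {H : Type} [Group H] [Finite H] [Group.IsSolvable H] (h13 : ¬ 13 ∣ Nat.card H)
    (ρ : Representation K H V) (hinj : Function.Injective ρ) (hirr : Irr ρ) (N m : ℕ)
    (hNM : NM H N m) (hU : HU ρ N m) (hR : HReal ρ) (hE : HEP ρ 3)
    (h : ∀ B : Subgroup H, B.Normal → (∀ a ∈ B, ∀ b ∈ B, a * b = b * a) → IsCyclic B) :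
    Scal ρ ∧ ∃ v, Reg ρ v := by
  obtain ⟨A, F, hS⟩ := exists_sd h
  have hbal := hbal_of_hreal ρ (cop_of_card ρ h13) hR
  have hz : Scal ρ := by
    by_cases h3 : 3 ∣ A.relIndex F
    · exact baseA2 h13 ρ hinj hirr A F hS hbal N m hNM hU hE h3
    · obtain ⟨x, a, hx, hne⟩ := unbal h13 ρ hirr.1 hE
      exact baseA1 h13 ρ hinj hirr A F hS hbal h3 x a hx hne
  exact ⟨hz, baseB h13 ρ hinj hirr A F hS hbal N m hNM hU hz⟩

theorem xthmm_step {V : Type} [AddCommGroup V] [Module K V] [Module.Finite K V]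
    {H : Type} [Group H] [Finite H] [Group.IsSolvable H] (h13 : ¬ 13 ∣ Nat.card H)
    (ρ : Representation K H V) (hinj : Function.Injective ρ) (hirr : Irr ρ) (N m : ℕ)
    (hNM : NM H N m) (hU : HU ρ N m) (hR : HReal ρ) (hE : HEP ρ 3)
    (ih : ∀ k < Module.finrank K V, xthmm_P k) : Scal ρ ∧ ∃ v, Reg ρ v := by
  by_cases h : ∀ B : Subgroup H, B.Normal → (∀ a ∈ B, ∀ b ∈ B, a * b = b * a) → IsCyclic B
  · exact xthmm_base h13 ρ hinj hirr N m hNM hU hR hE h
  push Not at h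
  obtain ⟨B, hBn, hc, hn⟩ := h
  obtain ⟨I, _, _, W, J, htr, hI, hB, hJ, hle, hmin⟩ := blocks ρ hinj hirr B hBn hc hn
  have hbal := hbal_of_hreal ρ (cop_of_card ρ h13) hR
  have key : ∀ i, ∃ σ : Representation K (MulAction.stabilizer H i) (W i),
      (∀ h w, (σ h w : V) = ρ h w) ∧ HBal σ ∧ Scal σ ∧ ∃ v, Reg σ v := by
    intro i
    obtain ⟨σ, hσ⟩ := exists_res ρ (MulAction.stabilizer H i) (W i) fun h hh w hw => by
      have := hB.map h i w hw
      rwa [MulAction.mem_stabilizer_iff.1 hh] at this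
    have hd := Subgroup.card_subgroup_dvd_card (MulAction.stabilizer H i)
    have h13' : ¬ 13 ∣ Nat.card (MulAction.stabilizer H i) := fun e => h13 (e.trans hd)
    obtain ⟨i1, i2⟩ := inherit h13 ρ N m hNM (J i) _ (hle i) (W i) (hJ i) σ hσ
    refine ⟨σ, hσ, hbal_of_hreal σ (cop_of_card σ h13') (i1 hR),
      ih _ (rank_lt ρ W hB hI i) (W i) _ rfl h13' σ ⟨?_, fun W' hW' => ?_⟩ N m
        ⟨hd.trans hNM.1, hNM.2⟩ (i2 hU) (i1 hR) fun w => ?_⟩
    · obtain ⟨v, hv, h0⟩ := Submodule.exists_mem_ne_zero_of_ne_bot (hB.ne i)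
      exact ⟨⟨v, hv⟩, fun e => h0 (congrArg Subtype.val e)⟩
    · have := hmin i (W'.map (W i).subtype) (Submodule.map_subtype_le _ _) (by
        rintro h hh _ ⟨w, hw, rfl⟩
        exact ⟨σ ⟨h, hh⟩ w, hW' _ w hw, hσ ⟨h, hh⟩ w⟩)
      refine this.imp (fun e => ?_) fun e => ?_
      · exact Submodule.map_injective_of_injective (W i).injective_subtype
          (by rw [e, Submodule.map_bot])
      · exact Submodule.map_injective_of_injective (W i).injective_subtype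
          (by rw [e, Submodule.map_subtype_top])
    · by_cases h0 : w = 0
      · exact ⟨1, by rw [h0, map_zero, smul_zero]⟩
      obtain ⟨h, hh⟩ := hE w
      have hi : h • i = i := by
        by_contra hne
        have hd := hB.ind.pairwiseDisjoint hne
        have m1 : (3 : K) • (w : V) ∈ W (h • i) := hh ▸ hB.map h i w w.2
        have m2 : (3 : K) • (w : V) ∈ W i := (W i).smul_mem _ w.2
        have e := Submodule.disjoint_def.1 hd _ m1 m2
        rcases smul_eq_zero.1 e with e | e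
        · exact absurd e (by decide)
        · exact h0 (Subtype.ext e)
      exact ⟨⟨h, hi⟩, Subtype.ext ((hσ ⟨h, hi⟩ w).trans hh)⟩
  choose σ hσ k1 k2 r k3 using key
  have hS : BScal ρ W := fun i => by
    obtain ⟨z, hz⟩ := k2 i
    exact ⟨z, z.2, fun w hw => (hσ i z ⟨w, hw⟩).symm.trans (congrArg Subtype.val (hz ⟨w, hw⟩))⟩
  have hr : BReg ρ W fun i => (r i : V) := fun i => by
    refine ⟨(r i).2, fun e => (k3 i).1 (Subtype.ext e), fun h a hi h1 h2 w hw => ?_⟩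
    have e := (k3 i).2 ⟨h, hi⟩ a (by
      ext u
      rw [← map_pow, hσ, Subgroup.coe_pow, map_pow, h1 _ u.2]
      rfl) (Subtype.ext ((hσ i ⟨h, hi⟩ (r i)).trans h2))
    have := hσ i ⟨h, hi⟩ ⟨w, hw⟩
    rw [e] at this
    exact this.symm
  have hbb : BBal ρ W := by
    rintro i h hi ⟨w, hw, h0, e⟩
    rw [← ed_res (W i) (ρ h) (σ i ⟨h, hi⟩) (hσ i ⟨h, hi⟩),
      ← ed_res (W i) (ρ h) (σ i ⟨h, hi⟩) (hσ i ⟨h, hi⟩)]
    exact k1 i ⟨h, hi⟩ ⟨w, hw⟩ (fun e0 => h0 (congrArg Subtype.val e0))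
      (Subtype.ext ((hσ i ⟨h, hi⟩ ⟨w, hw⟩).trans e))
  have : Nonempty I := Fintype.card_pos_iff.1 (by omega)
  have hz := stepA ρ W hB hbal hE hS _ hr hbb
  exact ⟨hz, stepB ρ W hB hbal hS _ hr hz⟩

theorem xthmm_all (n : ℕ) : xthmm_P n := by
  induction n using Nat.strong_induction_on with
  | _ n ih =>
  intro V _ _ _ H _ _ _ hn h13 ρ hirr N m hNM hU hR hE
  obtain ⟨H', _, _, π, ρ', hs, hinj, e, hd, -⟩ := exists_faithful ρ
  have : Group.IsSolvable H' := Group.isSolvable_of_surjective hs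
  obtain ⟨⟨z, hz⟩, v, hv, hreg⟩ := xthmm_step (fun c => h13 (c.trans hd)) ρ' hinj
    ⟨hirr.1, fun W hW => hirr.2 W fun h v hv => e h ▸ hW (π h) v hv⟩ N m
    ⟨hd.trans hNM.1, hNM.2⟩
    (fun h j hj M => by
      obtain ⟨g, rfl⟩ := hs h
      simp only [← map_pow π, e]
      exact hU g j hj M)
    (fun h v h0 hv M => by
      obtain ⟨g, rfl⟩ := hs h
      rw [← map_inv π, e, e]
      exact hR g v h0 (e g ▸ hv) M)
    (fun v => by
      obtain ⟨h, hh⟩ := hE v
      exact ⟨π h, e h ▸ hh⟩)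
    (hn ▸ ih)
  obtain ⟨g, rfl⟩ := hs z
  refine ⟨⟨g, fun u => e g ▸ hz u⟩, v, hv, fun h a h1 h2 => ?_⟩
  rw [← e] at h1 h2 ⊢
  exact hreg (π h) a h1 h2

theorem thmM {V : Type} [AddCommGroup V] [Module K V] [Module.Finite K V]
    {H : Type} [Group H] [Finite H] [Group.IsSolvable H] (h13 : ¬ 13 ∣ Nat.card H) (ρ : Representation K H V) (hirr : Irr ρ) (N m : ℕ) (hNM : NM H N m) (hU : HU ρ N m)
    (hR : HReal ρ) (hE : HEP ρ 3) : Scal ρ ∧ ∃ v, Reg ρ v :=
  xthmm_all _ V H rfl h13 ρ hirr N m hNM hU hR hE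

end Pool.Agent.N9181

end

section

namespace Pool.Agent.N9181

open scoped commutatorElement

theorem xcopm_pos {V : Type} [AddCommGroup V] [Module K V] [Module.Finite K V]
    (a : Module.End K V) (c : K) : 0 < ed a c ↔ ∃ w, w ≠ 0 ∧ a w = c • w := by
  rw [← edOn_top, edOn_pos]
  simp

theorem xcopm_part {V : Type} [AddCommGroup V] [Module K V] {G : Type} [Group G] [Finite G]
    (ρ : Representation K G V) (h13 : ∀ (g : G) (a : ℕ), g ^ (13 ^ a) = 1 → ρ g = 1) (h : G) :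
    ∃ c : G, ¬ 13 ∣ orderOf c ∧ ρ c = ρ h ∧ ρ c⁻¹ = ρ h⁻¹ := by
  obtain ⟨e, h1, -, -, u, ⟨a, ha⟩, h2, -⟩ := q_part 13 (by norm_num) h
  have h3 : ρ (h ^ e) = ρ h := by
    conv_rhs => rw [h2, map_mul, h13 u a ha, mul_one]
  refine ⟨h ^ e, h1, h3, ?_⟩
  calc ρ (h ^ e)⁻¹ = ρ (h ^ e)⁻¹ * (ρ h * ρ h⁻¹) := by rw [← map_mul, mul_inv_cancel, map_one, mul_one]
    _ = ρ h⁻¹ := by rw [← h3, ← mul_assoc, ← map_mul, inv_mul_cancel, map_one, one_mul]

theorem xcopm_eig {V : Type} [AddCommGroup V] [Module K V] [Module.Finite K V]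
    (a : Module.End K V) (v : V) (hv : v ≠ 0) (h : (a ^ 3) v = v) :
    ∃ w, w ≠ 0 ∧ (a w = w ∨ a w = (3 : K) • w ∨ a w = (9 : K) • w) := by
  let W : Submodule K V := LinearMap.ker (a ^ 3 - 1)
  have hW : ∀ w, w ∈ W ↔ (a ^ 3) w = w := fun w => by
    simp only [W, LinearMap.mem_ker, LinearMap.sub_apply, Module.End.one_apply, sub_eq_zero]
  have h1 := split3 W a (fun w hw => by
    rw [hW] at hw ⊢
    rw [← Module.End.mul_apply, ← pow_succ, pow_succ', Module.End.mul_apply, hw])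
    fun w hw => (hW w).1 hw
  have h2 : 0 < Module.finrank K W :=
    Module.finrank_pos_iff_exists_ne_zero.2 ⟨⟨v, (hW v).2 h⟩, fun e => hv (congrArg Subtype.val e)⟩
  have h3 : 0 < edOn W a 1 ∨ 0 < edOn W a 3 ∨ 0 < edOn W a 9 := by omega
  rcases h3 with h3 | h3 | h3 <;> obtain ⟨w, -, h4, h5⟩ := (edOn_pos W a _).1 h3
  · exact ⟨w, h4, Or.inl (by rwa [one_smul] at h5)⟩
  · exact ⟨w, h4, Or.inr (Or.inl h5)⟩
  · exact ⟨w, h4, Or.inr (Or.inr h5)⟩

theorem copM {V : Type} [AddCommGroup V] [Module K V] [Module.Finite K V]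
    {G : Type} [Group G] [Finite G] [Group.IsSolvable G] (ρ : Representation K G V) (ι : V → G) (hι : Emb ρ ι) (N m : ℕ) (hP : PP G N m) (hirr : Irr ρ)
    (h13 : ∀ (g : G) (a : ℕ), g ^ (13 ^ a) = 1 → ρ g = 1) :
    Cop ρ ∧ HReal ρ ∧ Scal ρ ∧ ∃ v, Reg ρ v := by
  have hR : HReal ρ := fun h v hv hh M => by
    obtain ⟨c, h1, h2, h3⟩ := xcopm_part ρ h13 h
    obtain ⟨k, rfl⟩ := Nat.exists_eq_add_one_of_ne_zero hP.1.2.1.ne'
    have h4 : c ^ k = c⁻¹ := by
      rw [eq_inv_iff_mul_eq_one, ← pow_succ]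
      exact orderOf_dvd_iff_pow_eq_one.1 ((orderOf_dvd_natCard c).trans hP.1.1)
    have h5 : IsConj c (c ^ k) := by
      by_contra hn
      exact hv (rmod ρ ι hι _ m hP c h1 k (by simp) hn (fun g a _ hg => h13 g a hg) v
        (by rw [h2, hh]))
    rw [← h2, ← h3, ← h4]
    exact bt_isConj ρ _ _ h5 M
  refine ⟨fun h => ?_, hR, ?_⟩
  · obtain ⟨c, h1, h2, -⟩ := xcopm_part ρ h13 h
    exact ⟨orderOf c, h1, by rw [← h2, ← map_pow, pow_orderOf_eq_one, map_one]⟩
  obtain ⟨H, _, _, π, σ, hs, -, he, -, hc⟩ := exists_faithful ρ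
  have : Group.IsSolvable H := Group.isSolvable_of_surjective hs
  have hP' := pp_surj π hs N m hP
  obtain ⟨⟨z, hz⟩, v, hv, hv'⟩ := thmM (hc h13) σ
    ⟨hirr.1, fun W hW => hirr.2 W fun h w hw => he h ▸ hW (π h) w hw⟩ N m hP'.1 (pp_U σ N m hP')
    (fun h v hv hh M => by
      obtain ⟨g, rfl⟩ := hs h
      rw [← map_inv, he, he]
      exact hR g v hv (he g ▸ hh) M)
    (fun v => by
      obtain ⟨g, hg⟩ := pp_ep ρ ι hι N m hP v
      exact ⟨π g, by rw [he, hg]⟩)
  obtain ⟨g, rfl⟩ := hs z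
  refine ⟨⟨g, fun w => by rw [← he, hz]⟩, v, hv, fun h a h1 h2 => ?_⟩
  rw [← he] at h1 h2 ⊢
  exact hv' _ a h1 h2

theorem sign3 {V : Type} [AddCommGroup V] [Module K V] [Module.Finite K V]
    {G : Type} [Group G] (ρ : Representation K G V) (hV : ∃ v : V, v ≠ 0) (hbal : HBal ρ) (hz : Scal ρ) (x : G)
    (a : ℕ) (hx : x ^ (3 ^ a) = 1)
    (hr : ∀ i : ℕ, 1 ≤ i → ed (ρ (x ^ (3 ^ i))) 3 = ed (ρ (x ^ (3 ^ i))) 9)
    (hf : ∀ (s : ℕ) (v : V), ρ x v = (3 : K) ^ s • v → v = 0) : False := by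
  obtain ⟨z, hz⟩ := hz
  have key : ∀ (i : ℕ) (v : V), ρ (x ^ (3 ^ i)) v = v → v = 0 := by
    intro i
    induction i with
    | zero => exact fun v h => hf 0 v (by simpa using h)
    | succ k ih =>
      intro v h
      by_contra hv
      rw [pow_succ, pow_mul, map_pow] at h
      obtain ⟨w, hw, h1 | h1⟩ := xcopm_eig _ v hv h
      · exact hw (ih w h1)
      rcases Nat.eq_zero_or_pos k with rfl | hk
      · rw [pow_zero, pow_one] at h1
        rcases h1 with h1 | h1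
        · exact hw (hf 1 w (by rw [h1, pow_one]))
        · exact hw (hf 2 w (by rw [h1]; rfl))
      have h2 := hr k hk
      generalize x ^ (3 ^ k) = s at ih h1 h2
      have h3 : 0 < ed (ρ s) 3 ∧ 0 < ed (ρ s) 9 := by
        rcases h1 with h1 | h1
        · have := (xcopm_pos (ρ s) 3).2 ⟨w, hw, h1⟩
          omega
        · have := (xcopm_pos (ρ s) 9).2 ⟨w, hw, h1⟩
          omega
      obtain ⟨u, hu, h4⟩ := (xcopm_pos _ _).1 h3.1
      obtain ⟨u', hu', h5⟩ := (xcopm_pos _ _).1 h3.2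
      have h6 : ∀ y, ρ (z * z * s) y = (9 : K) • ρ s y := fun y => by
        rw [map_mul, map_mul, Module.End.mul_apply, Module.End.mul_apply, hz, hz, smul_smul]
        rfl
      have h7 := hbal (z * z * s) u hu (by
        rw [h6, h4, smul_smul, show (9 * 3 : K) = 1 by decide, one_smul])
      have h8 := (xcopm_pos (ρ (z * z * s)) 3).2 ⟨u', hu', by
        rw [h6, h5, smul_smul, show (9 * 9 : K) = 3 by decide]⟩
      obtain ⟨y, hy, h9⟩ := (xcopm_pos _ _).1 (h7 ▸ h8)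
      rw [h6] at h9
      exact hy (ih y (smul_right_injective V (show (9 : K) ≠ 0 by decide) h9))
  obtain ⟨v, hv⟩ := hV
  exact hv (key a v (by rw [hx, map_one, Module.End.one_apply]))

end Pool.Agent.N9181

end

section

namespace Pool.Agent.N9181

open scoped commutatorElement

theorem xmodc_mem {G : Type} [Group G] (Q : Subgroup G) (hQ : Q.Normal) (hi : ¬ 13 ∣ Q.index)
    (x : G) (a : ℕ) (hx : x ^ (13 ^ a) ∈ Q) : x ∈ Q := by
  have h1 : orderOf (QuotientGroup.mk' Q x) ∣ 13 ^ a := orderOf_dvd_of_pow_eq_one (by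
    rw [← map_pow]; exact (QuotientGroup.eq_one_iff _).2 hx)
  have h2 : orderOf (QuotientGroup.mk' Q x) ∣ Q.index := orderOf_dvd_of_pow_eq_one (by
    rw [← map_pow]; exact (QuotientGroup.eq_one_iff _).2 (Q.pow_index_mem x))
  have h3 : (13 ^ a).Coprime Q.index :=
    ((Nat.Prime.coprime_iff_not_dvd fact13.out).2 hi).pow_left a
  exact (QuotientGroup.eq_one_iff _).1
    (orderOf_eq_one_iff.1 (Nat.eq_one_of_dvd_coprimes h3 h1 h2))

theorem xmodc_map {G : Type} [Group G] {M Q : Subgroup G} [M.Normal] (h : M ≤ Q) {x : G}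
    (hx : QuotientGroup.mk' M x ∈ Q.map (QuotientGroup.mk' M)) : x ∈ Q := by
  have h1 : x ∈ (Q.map (QuotientGroup.mk' M)).comap (QuotientGroup.mk' M) := hx
  rwa [Subgroup.comap_map_eq_self (by rwa [QuotientGroup.ker_mk'])] at h1

theorem xmodc_ord {G : Type} [Group G] {t : G} {b : ℕ} (ht : t ^ (3 ^ b) = 1) :
    ¬ 13 ∣ orderOf t := fun h => by
  have h1 := fact13.out.dvd_of_dvd_pow (h.trans (orderOf_dvd_of_pow_eq_one ht))
  norm_num at h1

/-- The top chief factor as a module. -/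
theorem xmodc_top {G : Type} [Group G] [Finite G] [Group.IsSolvable G] (N m : ℕ) (hP : PP G N m)
    (M Q : Subgroup G) [M.Normal] (hQ : Q.Normal) (hMQ : M ≤ Q) (hne : M ≠ Q)
    (hmax : ∀ M' : Subgroup G, M'.Normal → M ≤ M' → M' ≤ Q → M' = M ∨ M' = Q)
    (hpw : ∀ k ∈ Q, ∃ a : ℕ, k ^ (13 ^ a) ∈ M) (hi : ¬ 13 ∣ Q.index) :
    ∃ (V : Type) (_ : AddCommGroup V) (_ : Module K V) (_ : Module.Finite K V)
      (ρ : Representation K (G ⧸ M) V) (ι : V → G ⧸ M), Emb ρ ι ∧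
      (∀ g, g ∈ Q.map (QuotientGroup.mk' M) ↔ ∃ v, ι v = g) ∧ Scal ρ ∧ ∃ v, Reg ρ v := by
  have hs := QuotientGroup.mk'_surjective M
  have h1 : Q.map (QuotientGroup.mk' M) ≠ ⊥ := fun h => hne (le_antisymm hMQ (by
    rwa [Subgroup.map_eq_bot_iff, QuotientGroup.ker_mk'] at h))
  obtain ⟨B, p, hB, hle, hB0, hp, hc, he, hmin⟩ := exists_min _ (hQ.map _ hs) h1
  have h2 : B = Q.map (QuotientGroup.mk' M) := by
    rcases hmax (B.comap (QuotientGroup.mk' M)) (hB.comap _)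
      (fun x hx => by
        rw [Subgroup.mem_comap, show QuotientGroup.mk' M x = 1 from
          (QuotientGroup.eq_one_iff x).2 hx]
        exact B.one_mem)
      (fun x hx => xmodc_map hMQ (hle hx)) with h | h
    · refine absurd ?_ hB0
      rw [← Subgroup.map_comap_eq_self_of_surjective hs B, h, Subgroup.map_eq_bot_iff,
        QuotientGroup.ker_mk']
    · rw [← h, Subgroup.map_comap_eq_self_of_surjective hs]
  obtain rfl : p = 13 := by
    obtain ⟨⟨b, hb⟩, hb1⟩ := Subgroup.ne_bot_iff_exists_ne_one.1 hB0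
    obtain ⟨q, hq, rfl⟩ := hle hb
    obtain ⟨a, ha⟩ := hpw q hq
    have : Fact p.Prime := ⟨hp⟩
    have h3 := orderOf_eq_prime (he _ hb) fun h => hb1 (Subtype.ext h)
    have h4 : orderOf (QuotientGroup.mk' M q) ∣ 13 ^ a := orderOf_dvd_of_pow_eq_one (by
      rw [← map_pow]; exact (QuotientGroup.eq_one_iff _).2 ha)
    exact (Nat.prime_dvd_prime_iff_eq hp fact13.out).1 (hp.dvd_of_dvd_pow (h3 ▸ h4))
  obtain ⟨V, _, _, _, ρ, ι, hι, hV⟩ := exists_emb B hB hc he
  have h5 := copM ρ ι hι N m (pp_surj _ hs N m hP) (emb_irr ρ ι hι B hV hB0 hmin) fun g a hg => by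
    obtain ⟨x, rfl⟩ := hs g
    rw [← map_pow] at hg
    have h6 : x ∈ Q := xmodc_mem Q hQ hi x a (hMQ ((QuotientGroup.eq_one_iff _).1 hg))
    obtain ⟨v, hv⟩ := (hV _).1 (h2 ▸ Subgroup.mem_map_of_mem (QuotientGroup.mk' M) h6)
    rw [← hv]
    exact (emb_basic ρ ι hι).2.2.2 v
  exact ⟨V, _, _, inferInstance, ρ, ι, hι, h2 ▸ hV, h5.2.2⟩

/-- A 3-element with the eigenvalue `3` on a regular vector is the scalar `3`. -/
theorem xmodc_scal {V : Type} [AddCommGroup V] [Module K V] {G : Type} [Group G]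
    (ρ : Representation K G V) (hz : Scal ρ) {w : V} (hw : Reg ρ w) {t : G} {b : ℕ}
    (ht : t ^ (3 ^ b) = 1) (h : ρ t w = (3 : K) • w) (v : V) : ρ t v = (3 : K) • v := by
  obtain ⟨z, hz⟩ := hz
  have e1 : (9 : K) * 3 = 1 := by decide
  have e2 : (9 : K) ^ 3 = 1 := by decide
  have h1 : ρ (t * z⁻¹) = (9 : K) • ρ t := by
    ext x
    have h2 : ρ z⁻¹ x = (9 : K) • x := by
      have h3 : ρ z⁻¹ (ρ z ((9 : K) • x)) = (9 : K) • x := by
        rw [← Module.End.mul_apply, ← map_mul, inv_mul_cancel, map_one, Module.End.one_apply]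
      rwa [hz, smul_smul, mul_comm, e1, one_smul] at h3
    rw [map_mul, Module.End.mul_apply, h2, map_smul, LinearMap.smul_apply]
  have h4 := hw.2 (t * z⁻¹) (b + 1) (by
    rw [h1, smul_pow, ← map_pow, pow_succ 3 b, pow_mul t, ht, one_pow, map_one, mul_comm,
      pow_mul, e2, one_pow, one_smul]) (by
    rw [h1, LinearMap.smul_apply, h, smul_smul, e1, one_smul])
  rw [← hz, ← inv_mul_cancel_right t z, map_mul, h4, one_mul]

theorem modular {V : Type} [AddCommGroup V] [Module K V] [Module.Finite K V]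
    {G : Type} [Group G] [Finite G] [Group.IsSolvable G] (ρ : Representation K G V) (ι : V → G) (hι : Emb ρ ι) (N m : ℕ) (hP : PP G N m) (hirr : Irr ρ)
    (B R Q : Subgroup G) (hB : ∀ g, g ∈ B ↔ ∃ v, ι v = g) (z : G) (hD : GD B R Q z) :
    ∀ (g : G) (a : ℕ), g ^ (13 ^ a) = 1 → ρ g = 1 := by
  intro g a hg
  by_contra hne
  obtain ⟨hgQ, M, hM, hRM, hMQ, hMne, hker, hmax⟩ := exists_top ρ ι hι B R Q hB z hD g a hg hne
  obtain ⟨Y, hY1, hY2⟩ := split ρ ι hι B R hB hD.nR hD.le1 hD.cop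
    (quad_ne ρ ι hι hirr B R Q hB z hD g hgQ a hg hne).2
  obtain ⟨V', _, _, _, σ, κ, hκ, hQ', hsc, w, hw⟩ := xmodc_top N m hP M Q hD.nQ hMQ hMne hmax
    (fun k hk => (hD.pw k hk).imp fun _ h => hRM h) hD.idx
  obtain ⟨k0, kp, k13, kt⟩ := emb_basic σ κ hκ
  obtain ⟨q, hq, hqw⟩ := (hQ' _).2 ⟨w, rfl⟩
  obtain ⟨v, h, hY, rfl⟩ := hY2 q
  have hvM : ι v ∈ M := hRM (hD.le1 ((hB _).2 ⟨v, rfl⟩))
  have hh : QuotientGroup.mk' M h = κ w := by
    rwa [map_mul, show QuotientGroup.mk' M (ι v) = 1 from (QuotientGroup.eq_one_iff _).2 hvM,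
      one_mul] at hqw
  obtain ⟨e, a', hu, -, hu'⟩ := p_part 13 fact13.out h
  have huw : QuotientGroup.mk' M (h ^ e) = κ w :=
    (hu' _ (QuotientGroup.mk' M) 1 (by rw [hh, pow_one, k13])).trans hh
  have huQ : h ^ e ∈ Q := Q.pow_mem ((Q.mul_mem_cancel_left (hMQ hvM)).1 hq) e
  have huY : h ^ e ∈ Y := Y.pow_mem hY e
  generalize h ^ e = u at hu huw huQ huY
  have hu1 : ρ u ≠ 1 := fun h1 => hw.1 (hκ.inj (by
    rw [k0, ← huw]; exact (QuotientGroup.eq_one_iff _).2 (hker u huQ h1)))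
  obtain ⟨t, b, j, ht, hj, htu, v0, hv0, htv⟩ := jordan ρ ι hι N m hP Y hY1 hY2 u huY a' hu
    (quad_ne ρ ι hι hirr B R Q hB z hD u huQ a' hu hu1).1
  have h3 : ∀ x, σ (QuotientGroup.mk' M t) x = (3 : K) • x := by
    refine xmodc_scal σ hsc hw (b := b) (by rw [← map_pow, ht, map_one]) (hκ.inj ?_)
    have e3 : (3 : K) = (j : K) := ((ZMod.natCast_eq_natCast_iff j 3 13).2 hj).symm
    rw [hκ.act, e3, kp, ← huw, ← map_inv, ← map_mul, ← map_mul, htu, map_pow]
  have hN : 0 < N := hP.1.2.1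
  have hco : (N - 1).Coprime N := by
    obtain ⟨n, rfl⟩ := Nat.exists_eq_succ_of_ne_zero hN.ne'
    simp
  have htN : t ^ (N - 1) = t⁻¹ := by
    rw [eq_inv_iff_mul_eq_one, ← pow_succ, Nat.sub_add_cancel hN]
    exact orderOf_dvd_iff_pow_eq_one.1 ((orderOf_dvd_natCard t).trans hP.1.1)
  have hn : ∀ x : G, x * t * x⁻¹ * (t ^ (N - 1))⁻¹ ∉ Q := fun x hx => by
    obtain ⟨y, hy⟩ := (hQ' _).1 (Subgroup.mem_map_of_mem (QuotientGroup.mk' M) hx)
    have h1 : σ (κ y) w = w := by rw [kt, Module.End.one_apply]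
    rw [hy, htN, inv_inv] at h1
    simp only [map_mul, Module.End.mul_apply, h3, map_smul] at h1
    rw [← Module.End.mul_apply, ← map_mul, ← map_mul, mul_inv_cancel, map_one, map_one,
      Module.End.one_apply, smul_smul] at h1
    have h2 : (3 * 3 - 1 : K) • w = 0 := by rw [sub_smul, h1, one_smul, sub_self]
    exact hw.1 ((smul_eq_zero.1 h2).resolve_left (by decide))
  have := hD.nR
  have hs := QuotientGroup.mk'_surjective R
  have hr := rgrp N m (pp_surj _ hs N m hP) (Q.map (QuotientGroup.mk' R)) (hD.nQ.map _ hs)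
    (by
      rintro ⟨_, k, hk, rfl⟩
      obtain ⟨c, hc⟩ := hD.pw k hk
      refine ⟨c, Subtype.ext ?_⟩
      rw [SubmonoidClass.coe_pow, ← map_pow]
      exact (QuotientGroup.eq_one_iff _).2 hc)
    (fun h1 => hD.idx (h1.trans (Q.index_map_dvd hs))) (QuotientGroup.mk' R t)
    (xmodc_ord (b := b) (by rw [← map_pow, ht, map_one])) (N - 1) hco fun x hx => by
      obtain ⟨x, rfl⟩ := hs x
      exact hn x (xmodc_map hD.le2 (by simpa only [map_mul, map_inv, map_pow] using hx))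
  have hBn : B.Normal := ⟨fun x hx y => by
    obtain ⟨c, rfl⟩ := (hB x).1 hx
    exact (hB _).2 ⟨_, hι.act y c⟩⟩
  refine hv0 (rmod ρ ι hι N m hP t (xmodc_ord ht) (N - 1) hco (fun h1 => ?_)
    (fun x c hx hc => ?_) v0 htv)
  · obtain ⟨x, hx⟩ := isConj_iff.1 h1
    exact hn x (by rw [hx, mul_inv_cancel]; exact Q.one_mem)
  · have h1 : x ∈ Q := xmodc_mem Q hD.nQ hD.idx x c (hc ▸ Q.one_mem)
    have h2 : x ∈ R := (QuotientGroup.eq_one_iff x).1
      (hr (QuotientGroup.mk' R x) (Subgroup.mem_map_of_mem _ h1)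
        (by rw [← map_mul, ← map_mul, hx]))
    have h4 : (⟨x, h2⟩ : R) ∈ B.subgroupOf R :=
      xmodc_mem _ (hBn.subgroupOf R) hD.cop _ c (by
        rw [Subgroup.mem_subgroupOf, SubmonoidClass.coe_pow, hc]; exact B.one_mem)
    obtain ⟨y, hy⟩ := (hB x).1 h4
    rw [← hy]
    exact (emb_basic ρ ι hι).2.2.2 y

end Pool.Agent.N9181

end

section

namespace Pool.Agent.N9181

open scoped commutatorElement

/-- the stabiliser of the line through a linear form -/
def xqqrm_stab {V : Type} [AddCommGroup V] [Module K V] {G : Type} [Group G]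
    (ρ : Representation K G V) (f : Module.Dual K V) : Subgroup G where
  carrier := {g | ∃ u : K, u ≠ 0 ∧ f ∘ₗ ρ g = u • f}
  one_mem' := ⟨1, one_ne_zero, by rw [map_one, one_smul]; rfl⟩
  mul_mem' := by
    rintro a b ⟨u, hu, ha⟩ ⟨w, hw, hb⟩
    refine ⟨u * w, mul_ne_zero hu hw, ?_⟩
    rw [map_mul, Module.End.mul_eq_comp, ← LinearMap.comp_assoc, ha, LinearMap.smul_comp, hb,
      smul_smul]
  inv_mem' := by
    rintro a ⟨u, hu, ha⟩
    refine ⟨u⁻¹, inv_ne_zero hu, ?_⟩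
    rw [eq_inv_smul_iff₀ hu, ← LinearMap.smul_comp, ← ha, LinearMap.comp_assoc,
      ← Module.End.mul_eq_comp, ← map_mul, mul_inv_cancel, map_one]
    rfl

theorem xqqrm_pow {V : Type} [AddCommGroup V] [Module K V] {G : Type} [Group G]
    (ρ : Representation K G V) (f : Module.Dual K V) {g : G} {c : K} (h : f ∘ₗ ρ g = c • f)
    (n : ℕ) : f ∘ₗ ρ (g ^ n) = c ^ n • f := by
  induction n with
  | zero =>
    rw [pow_zero, pow_zero, map_one, one_smul]
    rfl
  | succ n ih =>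
    rw [pow_succ, map_mul, Module.End.mul_eq_comp, ← LinearMap.comp_assoc, ih,
      LinearMap.smul_comp, h, smul_smul, pow_succ]

theorem rm_core {V : Type} [AddCommGroup V] [Module K V] [Module.Finite K V]
    {G : Type} [Group G] [Finite G] [Group.IsSolvable G] (ρ : Representation K G V) (N m : ℕ) (hNM : NM G N m) (hU : HU' ρ N m) (L : Subgroup G)
    (h13 : ∀ g ∈ L, ∀ a : ℕ, g ^ (13 ^ a) = 1 → ρ g = 1) (c : G) (hc : c ∈ L)
    (hE : ∀ f : Module.Dual K V, f ∘ₗ ρ c = f → ∀ l : K, l ≠ 0 →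
      ∃ h ∈ L, f ∘ₗ ρ h = l • f) : ∀ v, ρ c v = v → v = 0 := by
  let σ : Representation K L V := ρ.comp L.subtype
  have hσ : ∀ h : L, σ h = ρ (h : G) := fun _ => rfl
  obtain ⟨H', _, _, π, ρ', hπ, -, hρ', hcard, h13'⟩ := exists_faithful σ
  have : Group.IsSolvable H' := Group.isSolvable_of_surjective hπ
  have hH : ¬ 13 ∣ Nat.card H' := h13' fun h a ha =>
    h13 h h.2 a (by simpa using congrArg Subtype.val ha)
  have hNM' : NM H' N m :=
    ⟨(hcard.trans (Subgroup.card_subgroup_dvd_card L)).trans hNM.1, hNM.2.1, hNM.2.2⟩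
  have hU' : HU ρ' N m := by
    intro h' j hj M
    obtain ⟨h, rfl⟩ := hπ h'
    obtain ⟨e, he, -, he', -⟩ := q_part 13 fact13.out h
    rw [← he' H' π (Nat.card H') hH pow_card_eq_one']
    generalize h ^ e = h0 at he
    rw [← map_pow, ← map_pow, ← map_pow, hρ', hρ', hρ', hρ', hσ, hσ, hσ, hσ]
    exact hU h0 (by rwa [Subgroup.orderOf_coe]) j hj M
  have hcc : ρ' (π ⟨c, hc⟩) = ρ c := hρ' _
  have key := atomD hH ρ' N m hNM' hU' (π ⟨c, hc⟩) fun f hf l hl => by
    rw [hcc] at hf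
    obtain ⟨g, hg, hgv⟩ := hE f hf l hl
    exact ⟨π ⟨g, hg⟩, by rw [hρ']; exact hgv⟩
  intro v hv
  exact key v (by rw [hcc]; exact hv)

theorem qp_U1 {V : Type} [AddCommGroup V] [Module K V] [Module.Finite K V]
    {G : Type} [Group G] [Finite G] (ρ : Representation K G V) (hirr : Irr ρ) (N : ℕ) (hP : QP G N) (h13 : T13 ρ) :
    ∃ m : ℕ, m.Coprime N ∧ HU' ρ N m := by
  obtain ⟨H', _, _, π, ρ', hπ, hinj, hρ', -, h13'⟩ := exists_faithful ρ
  refine qp_U2 ρ hirr N hP π.ker π.ker π.ker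
    ⟨inferInstance, inferInstance, le_rfl, fun k hk => ⟨0, by rwa [pow_zero, pow_one]⟩⟩
    (fun b hb => by rw [← hρ', MonoidHom.mem_ker.1 hb, map_one])
    (by rw [Subgroup.relIndex_self]; norm_num) ?_
  rw [Subgroup.index_ker, MonoidHom.range_eq_top.2 hπ, Subgroup.card_top]
  exact h13' h13

theorem qp_rm1 {V : Type} [AddCommGroup V] [Module K V] [Module.Finite K V]
    {G : Type} [Group G] [Finite G] [Group.IsSolvable G] (ρ : Representation K G V) (ι : V → G) (hι : Emb ρ ι) (hirr : Irr ρ) (N : ℕ) (hP : QP G N) (h13 : T13 ρ) (c : G)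
    (hc : ¬ 13 ∣ orderOf c) (hn : Nonrat N c) : ∀ v, ρ c v = v → v = 0 := by
  obtain ⟨m, hm, hU⟩ := qp_U1 ρ hirr N hP h13
  exact rm_core ρ N m ⟨hP.1, hP.2.1, hm⟩ hU ⊤ (fun g _ a hg => h13 g a hg) c trivial
    fun f hf l hl => (qp_dual ρ ι hι N hP c hc hn f hf l hl).imp fun g hg => ⟨trivial, hg⟩

theorem qp_rm2 {V : Type} [AddCommGroup V] [Module K V] [Module.Finite K V]
    {G : Type} [Group G] [Finite G] [Group.IsSolvable G] (ρ : Representation K G V) (ι : V → G) (hι : Emb ρ ι) (hirr : Irr ρ) (N : ℕ) (hP : QP G N) (B R Q : Subgroup G) (z : G)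
    (hB : ∀ g, g ∈ B ↔ ∃ v, ι v = g) (hD : GD B R Q z) (t : G) (a : ℕ) (ht : t ^ (3 ^ a) = 1)
    (hf : ∀ x ∈ Q, ⁅x, t⁆ ∈ R → x ∈ R) (hn : Nonrat N t) : ∀ v, ρ t v = v → v = 0 := by
  have hQ : RQ R Q := ⟨hD.nR, hD.nQ, hD.le2, hD.pw⟩
  have hB1 : ∀ b ∈ B, ρ b = 1 := fun b hb => by
    obtain ⟨y, rfl⟩ := (hB b).1 hb
    exact (emb_basic ρ ι hι).2.2.2 y
  have hBn : B.Normal := ⟨fun x hx y => by
    obtain ⟨c, rfl⟩ := (hB x).1 hx
    exact (hB _).2 ⟨_, hι.act y c⟩⟩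
  obtain ⟨m, hm, hU⟩ := qp_U2 ρ hirr N hP B R Q hQ hB1 hD.cop hD.idx
  obtain ⟨L, -, htL, hL, hY⟩ := hall_t R Q hQ hD.idx t (xmodc_ord ht) hf
  refine rm_core ρ N m ⟨hP.1, hP.2.1, hm⟩ hU L (fun x hx c hc => ?_) t htL fun f hft l hl => ?_
  · have h2 : (⟨x, hx⟩ : L) ∈ R.subgroupOf L :=
      xmodc_mem _ (hD.nR.subgroupOf L) hL _ c (by
        rw [Subgroup.mem_subgroupOf, SubmonoidClass.coe_pow, hc]; exact R.one_mem)
    have h4 : (⟨x, h2⟩ : R) ∈ B.subgroupOf R :=
      xmodc_mem _ (hBn.subgroupOf R) hD.cop _ c (by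
        rw [Subgroup.mem_subgroupOf, SubmonoidClass.coe_pow, hc]; exact B.one_mem)
    exact hB1 x h4
  · obtain ⟨g, hg⟩ := qp_dual ρ ι hι N hP t (xmodc_ord ht) hn f hft l hl
    obtain ⟨u, ⟨c, -, hc⟩, ⟨b, hb⟩, y, -, hyL, rfl⟩ := hY (xqqrm_stab ρ f)
      ⟨1, one_ne_zero, by rw [hft, one_smul]⟩ g ⟨l, hl, hg⟩
    have h1 := xqqrm_pow ρ f hc (13 ^ b)
    rw [hb, map_one, ZMod.pow_card_pow, ← hc] at h1
    refine ⟨y, hyL, ?_⟩
    rw [← hg, map_mul, Module.End.mul_eq_comp, ← LinearMap.comp_assoc, ← h1]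
    rfl

end Pool.Agent.N9181

end

section

namespace Pool.Agent.N9181

open scoped commutatorElement

theorem xqqap_cm {V : Type} [AddCommGroup V] [Module K V] [Module.Finite K V]
    {G : Type} [Group G] [Finite G] [Group.IsSolvable G] (ρ : Representation K G V) (ι : V → G)
    (hι : Emb ρ ι) (N : ℕ) (hP : QP G N) (hirr : Irr ρ) (h13 : T13 ρ) :
    Scal ρ ∧ ∃ v, Reg ρ v := by
  have hR : HReal ρ := fun h v hv hh M => by
    obtain ⟨c, h1, h2, h3⟩ := xcopm_part ρ h13 h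
    obtain ⟨k, rfl⟩ := Nat.exists_eq_add_one_of_ne_zero hP.2.1.ne'
    have h4 : c ^ k = c⁻¹ := by
      rw [eq_inv_iff_mul_eq_one, ← pow_succ]
      exact orderOf_dvd_iff_pow_eq_one.1 ((orderOf_dvd_natCard c).trans hP.1)
    have h5 : IsConj c (c ^ k) := by
      by_contra hn
      exact hv (qp_rm1 ρ ι hι hirr _ hP h13 c h1 ⟨k, by simp, hn⟩ v (by rw [h2, hh]))
    rw [← h2, ← h3, ← h4]
    exact bt_isConj ρ _ _ h5 M
  obtain ⟨m, hm, hU⟩ := qp_U1 ρ hirr N hP h13
  obtain ⟨H, _, _, π, σ, hs, -, he, hd, hc⟩ := exists_faithful ρ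
  have : Group.IsSolvable H := Group.isSolvable_of_surjective hs
  have hU' : HU σ N m := by
    intro h' j hj M
    obtain ⟨h, rfl⟩ := hs h'
    obtain ⟨e, h1, -, h2, -⟩ := q_part 13 fact13.out h
    rw [← h2 H π (Nat.card H) (hc h13) pow_card_eq_one']
    generalize h ^ e = h0 at h1
    rw [← map_pow, ← map_pow, ← map_pow, he, he, he, he]
    exact hU h0 h1 j hj M
  obtain ⟨⟨z, hz⟩, v, hv, hv'⟩ := thmM (hc h13) σ
    ⟨hirr.1, fun W hW => hirr.2 W fun h w hw => he h ▸ hW (π h) w hw⟩ N m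
    ⟨hd.trans hP.1, hP.2.1, hm⟩ hU'
    (fun h v hv hh M => by
      obtain ⟨g, rfl⟩ := hs h
      rw [← map_inv, he, he]
      exact hR g v hv (he g ▸ hh) M)
    (fun v => by
      obtain ⟨g, hg⟩ := ep_of_sq ρ ι hι N hP.1 hP.2.1 (qp_sq N hP) v
      exact ⟨π g, by rw [he, hg]⟩)
  obtain ⟨g, rfl⟩ := hs z
  refine ⟨⟨g, fun w => by rw [← he, hz]⟩, v, hv, fun h a h1 h2 => ?_⟩
  rw [← he] at h1 h2 ⊢
  exact hv' _ a h1 h2

theorem ap_of_qp {G : Type} [Group G] [Finite G] [Group.IsSolvable G] (N : ℕ) (hP : QP G N) : AP G N := by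
  intro G' _ _ f hf
  have : Group.IsSolvable G' := Group.isSolvable_of_surjective hf
  have hP' := qp_surj f hf N hP
  exact ⟨hP'.1, hP'.2.1, qp_sq N hP',
    fun V _ _ _ ρ ι hι hirr h13 c hc hn => qp_rm1 ρ ι hι hirr N hP' h13 c hc hn,
    fun V _ _ _ ρ ι hι hirr B R Q z hB hD t a ht hf hn =>
      qp_rm2 ρ ι hι hirr N hP' B R Q z hB hD t a ht hf hn,
    fun V _ _ _ ρ ι hι hirr h13 => xqqap_cm ρ ι hι N hP' hirr h13⟩

end Pool.Agent.N9181

end

section

namespace Pool.Agent.N9181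

open scoped commutatorElement

theorem xqtrgrp_ind (n : ℕ) : ∀ (G : Type) [Group G] [Finite G] [Group.IsSolvable G],
    Nat.card G = n → ∀ (N : ℕ), AP G N → ∀ (Q : Subgroup G), Q.Normal → IsPGroup 13 Q →
    ¬ 13 ∣ Q.index → ∀ c : G, ¬ 13 ∣ orderOf c → ∀ j0 : ℕ, j0.Coprime N →
    (∀ g : G, g * c * g⁻¹ * (c ^ j0)⁻¹ ∉ Q) → ∀ x ∈ Q, x * c = c * x → x = 1 := by
  induction n using Nat.strong_induction_on with
  | _ n ih =>
  intro G _ _ _ hn N hP Q hQ hQp hQi c hc j0 hj0 hnc x hx hxc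
  by_cases hQb : Q = ⊥
  · rw [hQb] at hx
    exact Subgroup.mem_bot.1 hx
  obtain ⟨B, p, hBn, hBQ, hBne, hp, hBc, hBp, hBmin⟩ := exists_min Q hQ hQb
  have hp13 : p = 13 := by
    obtain ⟨b, hb1⟩ := Subgroup.ne_bot_iff_exists_ne_one.1 hBne
    have hb1' : (b : G) ≠ 1 := fun h => hb1 (Subtype.ext h)
    have : Fact p.Prime := ⟨hp⟩
    have ho : orderOf (b : G) = p := orderOf_eq_prime (hBp b b.2) hb1'
    obtain ⟨k, hk⟩ := hQp ⟨b, hBQ b.2⟩
    have hk' : (b : G) ^ (13 ^ k) = 1 := by simpa using congrArg Subtype.val hk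
    have hd : p ∣ 13 ^ k := ho ▸ orderOf_dvd_of_pow_eq_one hk'
    exact (Nat.prime_dvd_prime_iff_eq hp (by norm_num)).1 (hp.dvd_of_dvd_pow hd)
  subst hp13
  obtain ⟨V, _, _, _, ρ, ι, hι, hB⟩ := exists_emb B hBn hBc hBp
  have hirr := emb_irr ρ ι hι B hB hBne hBmin
  have htriv := xrmod_triv ρ hirr Q hQ hQp
  let f : G →* G ⧸ B := QuotientGroup.mk' B
  have hf : Function.Surjective f := QuotientGroup.mk'_surjective B
  have hker : f.ker = B := QuotientGroup.ker_mk' B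
  have hlt : Nat.card (G ⧸ B) < n := by
    rw [← hn, Subgroup.card_eq_card_quotient_mul_card_subgroup B]
    exact lt_mul_of_one_lt_right Nat.card_pos ((Subgroup.one_lt_card_iff_ne_bot B).2 hBne)
  have hcm : (Q.map f).comap f = Q := Subgroup.comap_map_eq_self (hker.le.trans hBQ)
  have hxB : f x = 1 := by
    refine ih _ hlt (G ⧸ B) rfl N (ap_surj f hf N hP) (Q.map f) (hQ.map f hf) (hQp.map f)
      (fun h => hQi (h.trans (Subgroup.index_map_dvd Q hf))) (f c)
      (fun h => hc (h.trans (orderOf_map_dvd f c))) j0 hj0 (fun g' hg' => ?_) (f x)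
      (Subgroup.mem_map_of_mem f hx) (by rw [← map_mul, hxc, map_mul])
    obtain ⟨g, rfl⟩ := hf g'
    apply hnc g
    rw [← hcm, Subgroup.mem_comap]
    simpa only [map_mul, map_inv, map_pow] using hg'
  obtain ⟨v, rfl⟩ := (hB x).1 (hker.le ((MonoidHom.mem_ker).2 hxB))
  have hv : ρ c v = v := hι.inj (by
    rw [hι.act, ← hxc]
    group)
  have hv0 := (ap_self N hP).rm1 V ρ ι hι hirr
    (fun g a hg => htriv g (xrmod_mem Q hQ hQi g a hg)) c hc ⟨j0, hj0, fun h => by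
    obtain ⟨g, hg⟩ := isConj_iff.1 h
    apply hnc g
    rw [hg, mul_inv_cancel]
    exact Q.one_mem⟩ v hv
  rw [hv0]
  exact (emb_basic ρ ι hι).1

theorem rgrpQ {G : Type} [Group G] [Finite G] [Group.IsSolvable G] (N : ℕ) (hP : AP G N) (Q : Subgroup G) (hQ : Q.Normal)
    (hQp : IsPGroup 13 Q) (hQi : ¬ 13 ∣ Q.index) (c : G) (hc : ¬ 13 ∣ orderOf c) (j0 : ℕ)
    (hj0 : j0.Coprime N) (hn : ∀ g : G, g * c * g⁻¹ * (c ^ j0)⁻¹ ∉ Q) :
    ∀ x ∈ Q, x * c = c * x → x = 1 :=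
  xqtrgrp_ind _ G rfl N hP Q hQ hQp hQi c hc j0 hj0 hn

theorem copMQ {V : Type} [AddCommGroup V] [Module K V] [Module.Finite K V]
    {G : Type} [Group G] [Finite G] [Group.IsSolvable G] (ρ : Representation K G V) (ι : V → G) (hι : Emb ρ ι) (N : ℕ) (hP : AP G N) (hirr : Irr ρ)
    (h13 : ∀ (g : G) (a : ℕ), g ^ (13 ^ a) = 1 → ρ g = 1) :
    Cop ρ ∧ HReal ρ ∧ Scal ρ ∧ ∃ v, Reg ρ v := by
  have hR : HReal ρ := fun h v hv hh M => by
    obtain ⟨c, h1, h2, h3⟩ := xcopm_part ρ h13 h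
    obtain ⟨k, rfl⟩ := Nat.exists_eq_add_one_of_ne_zero (ap_self N hP).pos.ne'
    have h4 : c ^ k = c⁻¹ := by
      rw [eq_inv_iff_mul_eq_one, ← pow_succ]
      exact orderOf_dvd_iff_pow_eq_one.1 ((orderOf_dvd_natCard c).trans (ap_self _ hP).dvd)
    have h5 : IsConj c (c ^ k) := by
      by_contra hn
      exact hv ((ap_self _ hP).rm1 V ρ ι hι hirr h13 c h1 ⟨k, by simp, hn⟩ v
        (by rw [h2, hh]))
    rw [← h2, ← h3, ← h4]
    exact bt_isConj ρ _ _ h5 M
  refine ⟨fun h => ?_, hR, ?_⟩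
  · obtain ⟨c, h1, h2, -⟩ := xcopm_part ρ h13 h
    exact ⟨orderOf c, h1, by rw [← h2, ← map_pow, pow_orderOf_eq_one, map_one]⟩
  · exact (ap_self N hP).cm V ρ ι hι hirr h13

end Pool.Agent.N9181

end

section

namespace Pool.Agent.N9181

open scoped commutatorElement

/-- The top chief factor as a module. -/
theorem xqtmodc_top {G : Type} [Group G] [Finite G] [Group.IsSolvable G] (N : ℕ) (hP : AP G N)
    (M Q : Subgroup G) [M.Normal] (hQ : Q.Normal) (hMQ : M ≤ Q) (hne : M ≠ Q)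
    (hmax : ∀ M' : Subgroup G, M'.Normal → M ≤ M' → M' ≤ Q → M' = M ∨ M' = Q)
    (hpw : ∀ k ∈ Q, ∃ a : ℕ, k ^ (13 ^ a) ∈ M) (hi : ¬ 13 ∣ Q.index) :
    ∃ (V : Type) (_ : AddCommGroup V) (_ : Module K V) (_ : Module.Finite K V)
      (ρ : Representation K (G ⧸ M) V) (ι : V → G ⧸ M), Emb ρ ι ∧
      (∀ g, g ∈ Q.map (QuotientGroup.mk' M) ↔ ∃ v, ι v = g) ∧ Scal ρ ∧ ∃ v, Reg ρ v := by
  have hs := QuotientGroup.mk'_surjective M
  have h1 : Q.map (QuotientGroup.mk' M) ≠ ⊥ := fun h => hne (le_antisymm hMQ (by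
    rwa [Subgroup.map_eq_bot_iff, QuotientGroup.ker_mk'] at h))
  obtain ⟨B, p, hB, hle, hB0, hp, hc, he, hmin⟩ := exists_min _ (hQ.map _ hs) h1
  have h2 : B = Q.map (QuotientGroup.mk' M) := by
    rcases hmax (B.comap (QuotientGroup.mk' M)) (hB.comap _)
      (fun x hx => by
        rw [Subgroup.mem_comap, show QuotientGroup.mk' M x = 1 from
          (QuotientGroup.eq_one_iff x).2 hx]
        exact B.one_mem)
      (fun x hx => xmodc_map hMQ (hle hx)) with h | h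
    · refine absurd ?_ hB0
      rw [← Subgroup.map_comap_eq_self_of_surjective hs B, h, Subgroup.map_eq_bot_iff,
        QuotientGroup.ker_mk']
    · rw [← h, Subgroup.map_comap_eq_self_of_surjective hs]
  obtain rfl : p = 13 := by
    obtain ⟨⟨b, hb⟩, hb1⟩ := Subgroup.ne_bot_iff_exists_ne_one.1 hB0
    obtain ⟨q, hq, rfl⟩ := hle hb
    obtain ⟨a, ha⟩ := hpw q hq
    have : Fact p.Prime := ⟨hp⟩
    have h3 := orderOf_eq_prime (he _ hb) fun h => hb1 (Subtype.ext h)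
    have h4 : orderOf (QuotientGroup.mk' M q) ∣ 13 ^ a := orderOf_dvd_of_pow_eq_one (by
      rw [← map_pow]; exact (QuotientGroup.eq_one_iff _).2 ha)
    exact (Nat.prime_dvd_prime_iff_eq hp fact13.out).1 (hp.dvd_of_dvd_pow (h3 ▸ h4))
  obtain ⟨V, _, _, _, ρ, ι, hι, hV⟩ := exists_emb B hB hc he
  have h5 := copMQ ρ ι hι N (ap_surj _ hs N hP) (emb_irr ρ ι hι B hV hB0 hmin) fun g a hg => by
    obtain ⟨x, rfl⟩ := hs g
    rw [← map_pow] at hg
    have h6 : x ∈ Q := xmodc_mem Q hQ hi x a (hMQ ((QuotientGroup.eq_one_iff _).1 hg))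
    obtain ⟨v, hv⟩ := (hV _).1 (h2 ▸ Subgroup.mem_map_of_mem (QuotientGroup.mk' M) h6)
    rw [← hv]
    exact (emb_basic ρ ι hι).2.2.2 v
  exact ⟨V, _, _, inferInstance, ρ, ι, hι, h2 ▸ hV, h5.2.2⟩

theorem modularQ {V : Type} [AddCommGroup V] [Module K V] [Module.Finite K V]
    {G : Type} [Group G] [Finite G] [Group.IsSolvable G] (ρ : Representation K G V) (ι : V → G) (hι : Emb ρ ι) (N : ℕ) (hP : AP G N) (hirr : Irr ρ)
    (B R Q : Subgroup G) (hB : ∀ g, g ∈ B ↔ ∃ v, ι v = g) (z : G) (hD : GD B R Q z) :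
    ∀ (g : G) (a : ℕ), g ^ (13 ^ a) = 1 → ρ g = 1 := by
  intro g a hg
  by_contra hne
  obtain ⟨hgQ, M, hM, hRM, hMQ, hMne, hker, hmax⟩ := exists_top ρ ι hι B R Q hB z hD g a hg hne
  obtain ⟨Y, hY1, hY2⟩ := split ρ ι hι B R hB hD.nR hD.le1 hD.cop
    (quad_ne ρ ι hι hirr B R Q hB z hD g hgQ a hg hne).2
  obtain ⟨V', _, _, _, σ, κ, hκ, hQ', hsc, w, hw⟩ := xqtmodc_top N hP M Q hD.nQ hMQ hMne hmax
    (fun k hk => (hD.pw k hk).imp fun _ h => hRM h) hD.idx
  obtain ⟨k0, kp, k13, kt⟩ := emb_basic σ κ hκ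
  obtain ⟨q, hq, hqw⟩ := (hQ' _).2 ⟨w, rfl⟩
  obtain ⟨v, h, hY, rfl⟩ := hY2 q
  have hvM : ι v ∈ M := hRM (hD.le1 ((hB _).2 ⟨v, rfl⟩))
  have hh : QuotientGroup.mk' M h = κ w := by
    rwa [map_mul, show QuotientGroup.mk' M (ι v) = 1 from (QuotientGroup.eq_one_iff _).2 hvM,
      one_mul] at hqw
  obtain ⟨e, a', hu, -, hu'⟩ := p_part 13 fact13.out h
  have huw : QuotientGroup.mk' M (h ^ e) = κ w :=
    (hu' _ (QuotientGroup.mk' M) 1 (by rw [hh, pow_one, k13])).trans hh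
  have huQ : h ^ e ∈ Q := Q.pow_mem ((Q.mul_mem_cancel_left (hMQ hvM)).1 hq) e
  have huY : h ^ e ∈ Y := Y.pow_mem hY e
  generalize h ^ e = u at hu huw huQ huY
  have hu1 : ρ u ≠ 1 := fun h1 => hw.1 (hκ.inj (by
    rw [k0, ← huw]; exact (QuotientGroup.eq_one_iff _).2 (hker u huQ h1)))
  obtain ⟨t, b, j, ht, hj, htu, v0, hv0, htv⟩ := jordanQ ρ ι hι N hP Y hY1 hY2 u huY a' hu
    (quad_ne ρ ι hι hirr B R Q hB z hD u huQ a' hu hu1).1
  have h3 : ∀ x, σ (QuotientGroup.mk' M t) x = (3 : K) • x := by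
    refine xmodc_scal σ hsc hw (b := b) (by rw [← map_pow, ht, map_one]) (hκ.inj ?_)
    have e3 : (3 : K) = (j : K) := ((ZMod.natCast_eq_natCast_iff j 3 13).2 hj).symm
    rw [hκ.act, e3, kp, ← huw, ← map_inv, ← map_mul, ← map_mul, htu, map_pow]
  have hN : 0 < N := (ap_self N hP).pos
  have hco : (N - 1).Coprime N := by
    obtain ⟨n, rfl⟩ := Nat.exists_eq_succ_of_ne_zero hN.ne'
    simp
  have htN : t ^ (N - 1) = t⁻¹ := by
    rw [eq_inv_iff_mul_eq_one, ← pow_succ, Nat.sub_add_cancel hN]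
    exact orderOf_dvd_iff_pow_eq_one.1 ((orderOf_dvd_natCard t).trans (ap_self N hP).dvd)
  have hn : ∀ x : G, x * t * x⁻¹ * (t ^ (N - 1))⁻¹ ∉ Q := fun x hx => by
    obtain ⟨y, hy⟩ := (hQ' _).1 (Subgroup.mem_map_of_mem (QuotientGroup.mk' M) hx)
    have h1 : σ (κ y) w = w := by rw [kt, Module.End.one_apply]
    rw [hy, htN, inv_inv] at h1
    simp only [map_mul, Module.End.mul_apply, h3, map_smul] at h1
    rw [← Module.End.mul_apply, ← map_mul, ← map_mul, mul_inv_cancel, map_one, map_one,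
      Module.End.one_apply, smul_smul] at h1
    have h2 : (3 * 3 - 1 : K) • w = 0 := by rw [sub_smul, h1, one_smul, sub_self]
    exact hw.1 ((smul_eq_zero.1 h2).resolve_left (by decide))
  have := hD.nR
  have hs := QuotientGroup.mk'_surjective R
  have hr := rgrpQ N (ap_surj _ hs N hP) (Q.map (QuotientGroup.mk' R)) (hD.nQ.map _ hs)
    (by
      rintro ⟨_, k, hk, rfl⟩
      obtain ⟨c, hc⟩ := hD.pw k hk
      refine ⟨c, Subtype.ext ?_⟩
      rw [SubmonoidClass.coe_pow, ← map_pow]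
      exact (QuotientGroup.eq_one_iff _).2 hc)
    (fun h1 => hD.idx (h1.trans (Q.index_map_dvd hs))) (QuotientGroup.mk' R t)
    (xmodc_ord (b := b) (by rw [← map_pow, ht, map_one])) (N - 1) hco fun x hx => by
      obtain ⟨x, rfl⟩ := hs x
      exact hn x (xmodc_map hD.le2 (by simpa only [map_mul, map_inv, map_pow] using hx))
  refine hv0 ((ap_self N hP).rm2 V ρ ι hι hirr B R Q z hB hD t b ht (fun x hx hc => ?_)
    ⟨N - 1, hco, fun h1 => ?_⟩ v0 htv)
  · refine (QuotientGroup.eq_one_iff x).1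
      (hr (QuotientGroup.mk' R x) (Subgroup.mem_map_of_mem _ hx) ?_)
    have h1 : QuotientGroup.mk' R ⁅x, t⁆ = 1 := (QuotientGroup.eq_one_iff _).2 hc
    rw [map_commutatorElement] at h1
    exact commutatorElement_eq_one_iff_mul_comm.1 h1
  · obtain ⟨x, hx⟩ := isConj_iff.1 h1
    exact hn x (by rw [hx, mul_inv_cancel]; exact Q.one_mem)

end Pool.Agent.N9181

end

section

namespace Pool.Agent.N9181

open scoped commutatorElement

theorem xssbd_poly : ∏ c : K, (Polynomial.X - Polynomial.C c) =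
    (Polynomial.X ^ 13 - Polynomial.X : Polynomial K) := by
  have hm : (Polynomial.X ^ 13 - Polynomial.X : Polynomial K).Monic :=
    Polynomial.monic_X_pow_sub (by rw [Polynomial.degree_X]; norm_num)
  have hr := FiniteField.roots_X_pow_card_sub_X K
  rw [ZMod.card] at hr
  have := Polynomial.prod_multiset_X_sub_C_of_monic_of_roots_card_eq hm (by
    rw [hr, FiniteField.X_pow_card_sub_X_natDegree_eq K (by norm_num : 1 < 13), ← Finset.card_def,
      Finset.card_univ, ZMod.card])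
  rw [hr] at this
  exact this

theorem xssbd_eig {V : Type} [AddCommGroup V] [Module K V] (a : Module.End K V) (ha : a ^ 12 = 1)
    (U : Submodule K V) (hU : U ≠ ⊥) (hi : ∀ u ∈ U, a u ∈ U) :
    ∃ (c : K) (u : V), u ∈ U ∧ u ≠ 0 ∧ a u = c • u := by
  by_contra hn
  push Not at hn
  obtain ⟨u, hu, h0⟩ := (Submodule.ne_bot_iff U).1 hU
  have key : ∀ s : Finset K,
      Polynomial.aeval a (∏ c ∈ s, (Polynomial.X - Polynomial.C c)) u ∈ U ∧
      Polynomial.aeval a (∏ c ∈ s, (Polynomial.X - Polynomial.C c)) u ≠ 0 := by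
    intro s
    induction s using Finset.induction_on with
    | empty => simpa using ⟨hu, h0⟩
    | insert c s hc ih =>
      rw [Finset.prod_insert hc, map_mul, Module.End.mul_apply]
      set w := Polynomial.aeval a (∏ c ∈ s, (Polynomial.X - Polynomial.C c)) u
      have e : Polynomial.aeval a (Polynomial.X - Polynomial.C c) w = a w - c • w := by simp
      rw [e]
      exact ⟨U.sub_mem (hi _ ih.1) (U.smul_mem _ ih.1), sub_ne_zero.2 (hn c w ih.1 ih.2)⟩
  apply (key Finset.univ).2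
  rw [xssbd_poly, map_sub, map_pow, Polynomial.aeval_X, pow_succ, ha, one_mul, sub_self,
    LinearMap.zero_apply]

/-- the simultaneous eigenspace of a function -/
def xssbdE {V : Type} [AddCommGroup V] [Module K V] {H : Type} [Group H]
    (ρ : Representation K H V) (B : Subgroup H) (χ : H → K) : Submodule K V where
  carrier := {v | ∀ b ∈ B, ρ b v = χ b • v}
  zero_mem' := fun b _ => by rw [map_zero, smul_zero]
  add_mem' := fun {x y} hx hy b hb => by rw [map_add, hx b hb, hy b hb, smul_add]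
  smul_mem' := fun c x hx b hb => by rw [map_smul, hx b hb, smul_comm]

theorem sbd_bd {V : Type} [AddCommGroup V] [Module K V] [Module.Finite K V]
    {H : Type} [Group H] [Finite H] (ρ : Representation K H V) (S : Set (Submodule K V)) (hS : SBD ρ S) :
    ∃ (_ : Fintype S) (_ : MulAction H S),
      (∀ (h : H) (U : S), ((h • U : S) : Submodule K V) = (U : Submodule K V).map (ρ h)) ∧
      BD ρ S (fun U => (U : Submodule K V)) := by
  have hV : Finite V := Module.finite_of_finite K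
  have hF : Finite (Submodule K V) :=
    Finite.of_injective (fun U : Submodule K V => (U : Set V)) SetLike.coe_injective
  let act : MulAction H S :=
    { smul := fun h U => ⟨(U : Submodule K V).map (ρ h), hS.map h U U.2⟩
      one_smul := fun U => Subtype.ext (by
        show (U : Submodule K V).map (ρ 1) = U
        rw [map_one]
        exact Submodule.map_id _)
      mul_smul := fun g h U => Subtype.ext (by
        show (U : Submodule K V).map (ρ (g * h)) = ((U : Submodule K V).map (ρ h)).map (ρ g)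
        rw [map_mul, ← Submodule.map_comp]
        rfl) }
  refine ⟨Fintype.ofFinite S, act, fun _ _ => rfl, fun h U w hw => Submodule.mem_map_of_mem hw,
    (sSupIndep_iff S).1 hS.ind, ?_, fun U hU => hS.ne (hU ▸ U.2)⟩
  rw [← hS.top, sSup_eq_iSup']

theorem eig_ex {V : Type} [AddCommGroup V] [Module K V] [Module.Finite K V]
    {H : Type} [Group H] [Finite H] (ρ : Representation K H V) (B : Subgroup H) (hc : ∀ a ∈ B, ∀ b ∈ B, a * b = b * a)
    (h12 : ∀ b ∈ B, b ^ 12 = 1) (U : Submodule K V) (hU : U ≠ ⊥)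
    (hi : ∀ b ∈ B, ∀ u ∈ U, ρ b u ∈ U) :
    ∃ v ∈ U, v ≠ 0 ∧ ∀ b ∈ B, ∃ c : K, ρ b v = c • v := by
  obtain ⟨U0, ⟨h1, h2, h3⟩, hmin⟩ := (wellFounded_lt (α := Submodule K V)).has_min
    {W | W ≤ U ∧ W ≠ ⊥ ∧ ∀ b ∈ B, ∀ u ∈ W, ρ b u ∈ W} ⟨U, le_rfl, hU, hi⟩
  obtain ⟨v, hv, h0⟩ := (Submodule.ne_bot_iff U0).1 h2
  refine ⟨v, h1 hv, h0, fun b hb => ?_⟩
  obtain ⟨c, u, hu, hu0, hu1⟩ := xssbd_eig (ρ b) (by rw [← map_pow, h12 b hb, map_one]) U0 h2 (h3 b hb)
  refine ⟨c, ?_⟩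
  by_contra hn
  refine hmin (U0 ⊓ Module.End.eigenspace (ρ b) c) ⟨inf_le_left.trans h1, ?_, ?_⟩ ?_
  · exact (Submodule.ne_bot_iff _).2 ⟨u, ⟨hu, Module.End.mem_eigenspace_iff.2 hu1⟩, hu0⟩
  · rintro b' hb' w ⟨hw, hw'⟩
    refine ⟨h3 b' hb' w hw, Module.End.mem_eigenspace_iff.2 ?_⟩
    rw [← rho_mul, hc b hb b' hb', rho_mul, Module.End.mem_eigenspace_iff.1 hw', map_smul]
  · refine lt_of_le_of_ne inf_le_left fun he => hn ?_
    rw [← he] at hv
    exact Module.End.mem_eigenspace_iff.1 hv.2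

theorem eig_of {V : Type} [AddCommGroup V] [Module K V] [Module.Finite K V]
    {H : Type} [Group H] [Finite H] (ρ : Representation K H V) (B : Subgroup H) (v : V) (h0 : v ≠ 0)
    (h : ∀ b ∈ B, ∃ c : K, ρ b v = c • v) : ∃ U ∈ eigS ρ B, v ∈ U := by
  classical
  choose! χ hχ using h
  exact ⟨xssbdE ρ B χ, ⟨(Submodule.ne_bot_iff _).2 ⟨v, hχ, h0⟩, χ, fun _ => Iff.rfl⟩, hχ⟩

theorem eig_uniq {V : Type} [AddCommGroup V] [Module K V] [Module.Finite K V]
    {H : Type} [Group H] [Finite H] (ρ : Representation K H V) (B : Subgroup H) (U U' : Submodule K V) (hU : U ∈ eigS ρ B)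
    (hU' : U' ∈ eigS ρ B) (v : V) (h0 : v ≠ 0) (h : v ∈ U) (h' : v ∈ U') : U = U' := by
  obtain ⟨-, χ, hχ⟩ := hU
  obtain ⟨-, χ', hχ'⟩ := hU'
  have e : ∀ b ∈ B, χ b = χ' b := fun b hb =>
    smul_left_injective K h0 (((hχ v).1 h b hb).symm.trans ((hχ' v).1 h' b hb))
  ext w
  rw [hχ, hχ']
  exact forall₂_congr fun b hb => by rw [e b hb]

theorem fix_eigS {V : Type} [AddCommGroup V] [Module K V] [Module.Finite K V]
    {H : Type} [Group H] [Finite H] (ρ : Representation K H V) (B : Subgroup H) (h : fixS ρ B ≠ ⊥) : fixS ρ B ∈ eigS ρ B := by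
  refine ⟨h, fun _ => 1, fun v => ?_⟩
  simp only [one_smul]
  exact mem_fixS ρ B v

theorem eb {V : Type} [AddCommGroup V] [Module K V] [Module.Finite K V]
    {H : Type} [Group H] [Finite H] (ρ : Representation K H V) (B H1 : Subgroup H) (hc : ∀ a ∈ B, ∀ b ∈ B, a * b = b * a)
    (h12 : ∀ b ∈ B, b ^ 12 = 1) (hn : H1 ≤ Subgroup.normalizer (B : Set H)) :
    SBD (V := V) (H := H1) (ρ.comp H1.subtype) (eigS ρ B) := by
  refine ⟨?_, ?_, ?_, fun h => h.1 rfl⟩
  · rintro ⟨h, hh⟩ W ⟨hW, χ, hχ⟩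
    have hN := Subgroup.mem_set_normalizer_iff.1 (hn hh)
    show W.map (ρ h) ∈ eigS ρ B
    refine ⟨?_, fun b => χ (h⁻¹ * b * h), fun v => ⟨?_, fun hv => ?_⟩⟩
    · obtain ⟨w, hw, h0⟩ := (Submodule.ne_bot_iff W).1 hW
      refine (Submodule.ne_bot_iff _).2 ⟨ρ h w, Submodule.mem_map_of_mem hw, fun h1 => h0 ?_⟩
      rw [← rho_inv ρ h w, h1, map_zero]
    · rintro ⟨w, hw, rfl⟩ b hb
      have hb' : h⁻¹ * b * h ∈ B := (hN _).2 (by
        rw [show h * (h⁻¹ * b * h) * h⁻¹ = b by group]; exact hb)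
      rw [← map_smul, ← (hχ w).1 hw _ hb', ← rho_mul, ← rho_mul]
      congr 2
      group
    · refine ⟨ρ h⁻¹ v, (hχ _).2 fun b hb => ?_, rho_inv' ρ h v⟩
      have h1 : ρ (h * b * h⁻¹) v = χ (h⁻¹ * (h * b * h⁻¹) * h) • v := hv _ ((hN b).1 hb)
      rw [show h⁻¹ * (h * b * h⁻¹) * h = b by group] at h1
      rw [← map_smul, ← h1, ← rho_mul, ← rho_mul]
      congr 2
      group
  · have h1 := Module.End.independent_iInf_maxGenEigenspace_of_forall_mapsTo
      (fun b : B => (ρ b : Module.End K V)) fun i j φ =>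
        Module.End.mapsTo_maxGenEigenspace_of_comm (by
          show ρ j * ρ i = ρ i * ρ j
          rw [← map_mul, ← map_mul, hc _ j.2 _ i.2]) φ
    have h2 : iSupIndep fun χ : B → K => ⨅ b : B, Module.End.eigenspace (ρ b) (χ b) :=
      h1.mono fun χ => iInf_mono fun b => Module.End.genEigenspace_le_maximal _ _ _
    refine h2.sSupIndep_range.mono ?_
    rintro W ⟨-, χ, hχ⟩
    refine ⟨fun b => χ b, ?_⟩
    ext v
    simp only [Submodule.mem_iInf, Module.End.mem_eigenspace_iff, hχ, Subtype.forall]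
  · have hcard : (Nat.card B : K) ≠ 0 := by
      intro h0
      obtain ⟨x, hx⟩ := exists_prime_orderOf_dvd_card' 13 ((ZMod.natCast_eq_zero_iff _ 13).1 h0)
      have h1 : x ^ 12 = 1 := Subtype.ext (h12 x x.2)
      have h2 := orderOf_dvd_of_pow_eq_one h1
      rw [hx] at h2
      omega
    have hT : ∀ b : B, ∀ w ∈ sSup (eigS ρ B), ρ b w ∈ sSup (eigS ρ B) := by
      intro b
      refine (sSup_le fun W hW w hw => ?_ : sSup (eigS ρ B) ≤ (sSup (eigS ρ B)).comap (ρ b))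
      obtain ⟨χ, hχ⟩ := hW.2
      rw [Submodule.mem_comap, (hχ w).1 hw b b.2]
      exact Submodule.smul_mem _ _ (le_sSup hW hw)
    obtain ⟨W', hW', hcm⟩ := exists_compl hcard (ρ.comp B.subtype) (sSup (eigS ρ B)) hT
    by_contra hne
    have h1 : W' ≠ ⊥ := fun h => hne (by simpa [h] using hcm.sup_eq_top)
    obtain ⟨v, hv, h0, h2⟩ := eig_ex ρ B hc h12 W' h1 fun b hb => hW' ⟨b, hb⟩
    obtain ⟨U, hU, hvU⟩ := eig_of ρ B v h0 h2
    exact h0 (Submodule.disjoint_def.1 hcm.disjoint v (le_sSup hU hvU) hv)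

end Pool.Agent.N9181

end

section

namespace Pool.Agent.N9181

open scoped commutatorElement

theorem xseha_mx {H : Type} [Group H] {A F : Subgroup H} (hS : SD A F) (hM : MxA A) (T : Set H)
    (hT : ∀ x ∈ T, x ∈ F) (hn : ∀ x ∈ T, ∀ g, g * x * g⁻¹ ∈ T)
    (hc : ∀ x ∈ T, ∀ y ∈ T, x * y = y * x) : ∀ x ∈ T, x ∈ A := by
  have hX : ∀ x ∈ Group.conjugatesOfSet (T ∪ A), x ∈ T ∪ A := fun x hx => by
    obtain ⟨a, ha, h⟩ := Group.mem_conjugatesOfSet_iff.1 hx
    obtain ⟨c, rfl⟩ := isConj_iff.1 h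
    exact ha.imp (hn a · c) (hS.nA.conj_mem a · c)
  have hc' : ∀ x ∈ T ∪ A, ∀ y ∈ T ∪ A, x * y = y * x := by
    rintro x (hx | hx) y (hy | hy)
    exacts [hc x hx y hy, (hS.cen y hy x (hT x hx)).symm, hS.cen x hx y (hT y hy),
      hS.cen x hx y (hS.le hy)]
  have h1 : Subgroup.normalClosure (T ∪ A) ≤
      Subgroup.centralizer (Subgroup.normalClosure (T ∪ A) : Set H) := by
    rw [Subgroup.normalClosure, Subgroup.centralizer_closure, Subgroup.closure_le]
    exact fun x hx y hy => hc' y (hX y hy) x (hX x hx)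
  have h2 := hM (Subgroup.normalClosure (T ∪ A)) inferInstance (fun a ha b hb => h1 hb a ha)
    fun a ha => Subgroup.subset_normalClosure (Or.inr ha)
  exact fun x hx => h2.le (Subgroup.subset_normalClosure (Or.inl hx))

theorem xseha_conj {H : Type} [Group H] {A : Subgroup H} (hA : A.Normal) {x : H} {n : ℕ}
    (h : x ^ n ∈ A) (g : H) : (g * x * g⁻¹) ^ n ∈ A := by
  rw [conj_pow]
  exact hA.conj_mem _ h g

theorem xseha_pow {H : Type} [Group H] {f g c : H} (h : g * f = c * f * g) (hf : Commute c f)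
    (hg : Commute c g) (n : ℕ) : (f * g) ^ n = c ^ n.choose 2 * (f ^ n * g ^ n) := by
  have h1 : ∀ n : ℕ, g ^ n * f = c ^ n * f * g ^ n := fun n => by
    induction n with
    | zero => simp
    | succ n ih =>
      rw [pow_succ, mul_assoc, h, ← mul_assoc, ← mul_assoc, ← (hg.pow_right n).eq,
        mul_assoc c, ih, pow_succ']
      simp only [mul_assoc]
  induction n with
  | zero => simp
  | succ n ih =>
    rw [pow_succ, ih, Nat.choose_succ_succ', Nat.choose_one_right, add_comm n (Nat.choose n _),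
      pow_add, pow_succ f, pow_succ g]
    calc _ = c ^ n.choose 2 * (f ^ n * (g ^ n * f) * g) := by simp only [mul_assoc]
      _ = c ^ n.choose 2 * (f ^ n * c ^ n * f * g ^ n * g) := by simp only [h1, mul_assoc]
      _ = _ := by simp only [← (hf.pow_pow n n).eq, mul_assoc]

theorem u_elem {H : Type} [Group H] [Finite H] (A F : Subgroup H) (hS : SD A F) (hM : MxA A) (p : ℕ) (f : H) (hf : f ∈ F) (h : f ^ (p * p) ∈ A) :
    f ^ p ∈ A := by
  obtain ⟨U, Z, _, _, _, _, _, π, ζ, B, -, h2, -, -, -, h6, -, -⟩ := pd_pair A F hS.toPD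
  refine xseha_mx hS hM {y | ∃ x ∈ F, x ^ (p * p) ∈ A ∧ x ^ p = y} ?_ ?_ ?_ _ ⟨f, hf, h, rfl⟩
  · rintro _ ⟨x, hx, -, rfl⟩
    exact F.pow_mem hx p
  · rintro _ ⟨x, hx, h1, rfl⟩ g
    exact ⟨g * x * g⁻¹, hS.nF.conj_mem x hx g, xseha_conj hS.nA h1 g, conj_pow⟩
  · rintro _ ⟨x, hx, h1, rfl⟩ _ ⟨y, hy, -, rfl⟩
    have h3 := h6 (⟨x, hx⟩ ^ p) (⟨y, hy⟩ ^ p)
    rw [map_pow π ⟨y, hy⟩, map_pow, ← MonoidHom.pow_apply, ← map_pow, ← map_pow, ← pow_mul,
      (h2 _).2 h1, map_one, MonoidHom.one_apply, map_one] at h3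
    exact commutatorElement_eq_one_iff_mul_comm.1 h3.symm

theorem u_lift {H : Type} [Group H] [Finite H] (A F : Subgroup H) (hS : SD A F) (hM : MxA A) (p q : ℕ) (hpq : (p = 2 ∧ q = 4) ∨ (p = 3 ∧ q = 3)) (f : H) (hf : f ∈ F) (h : f ^ p ∈ A) :
    ∃ a ∈ A, (f * a) ^ q = 1 := by
  obtain ⟨U, Z, _, _, _, _, _, π, ζ, B, h1, h2, -, h4, h5, h6, -, -⟩ := pd_pair A F hS.toPD
  obtain ⟨hp, ⟨r, hr⟩, ⟨s, hs⟩, hk⟩ : p.Prime ∧ p ∣ q ∧ p ∣ q.choose 2 ∧
      ∀ i j : ℕ, p ∣ i + 0 * j ∨ ∃ k, p ∣ j + k * i := by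
    rcases hpq with ⟨rfl, rfl⟩ | ⟨rfl, rfl⟩ <;>
      refine ⟨by norm_num, by norm_num, by decide, fun i j => or_iff_not_imp_right.2 fun h => ?_⟩ <;>
      have h0 := not_exists.1 h 0 <;> have h1 := not_exists.1 h 1 <;>
      have h2 := not_exists.1 h 2 <;>
      have h3 : i % 3 = 0 ∨ i % 3 = 1 ∨ i % 3 = 2 := by omega
    all_goals omega
  have hO : ∀ x : F, (x : H) ^ p ∈ A ↔ π x ^ p = 1 := fun x => by
    rw [← map_pow, h2]
    rfl
  have hmul : ∀ x y : F, (x : H) ^ p ∈ A → ((x : H) * y) ^ q = (x : H) ^ q * (y : H) ^ q := by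
    intro x y hx
    have hc := hS.comm y y.2 x x.2
    rw [xseha_pow (c := ⁅(y : H), (x : H)⁆) (by group) (hS.cen _ hc x x.2) (hS.cen _ hc y y.2), hs,
      pow_mul, ← h6, ← map_pow ζ, ← map_pow (B _), (hO x).1 hx, map_one, map_one, one_pow, one_mul]
  have key : ∀ (g g' : F) (a : H) (k : ℕ), (g : H) ^ p ∈ A → (g' : H) ^ p ∈ A → a ∈ A →
      (g' : H) ^ p * ((g : H) ^ p) ^ k = a ^ p →
      (∀ e ∈ F, e ^ p ∈ A → e ^ q = 1 → g * e = e * g) → Commute (g : H) g' := by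
    intro g g' a k hg hg' ha e hD
    have ca : Commute ((g' : H) * g ^ k) a := (hS.cen a ha (g' * g ^ k : F) (g' * g ^ k).2).symm
    have e1 : ((g' : H) * g ^ k) ^ q = a ^ q := by
      refine (hmul g' (g ^ k) hg').trans ?_
      rw [hr, pow_mul, pow_mul a, ← e, Commute.mul_pow (hS.cen _ hg' _ (hS.le (A.pow_mem hg k))),
        Subgroup.coe_pow, ← pow_mul, ← pow_mul, ← pow_mul, ← pow_mul]
      congr 2
      ring
    have e2 : ((g' : H) * g ^ k) ^ p ∈ A := (hO (g' * g ^ k)).2 (by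
      rw [map_mul, map_pow, mul_pow, (hO g').1 hg', pow_right_comm, (hO g).1 hg, one_pow, one_mul])
    have e3 : Commute (g : H) (g' * g ^ k * a⁻¹) :=
      hD _ (F.mul_mem (g' * g ^ k).2 (F.inv_mem (hS.le ha)))
        (ca.inv_right.mul_pow p ▸ A.mul_mem e2 (A.pow_mem (A.inv_mem ha) p))
        (by rw [ca.inv_right.mul_pow, e1, inv_pow, mul_inv_cancel])
    simpa using (e3.mul_right (hS.cen a ha g g.2).symm).mul_right
      ((Commute.refl (g : H)).pow_right k).inv_right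
  have hD := xseha_mx hS hM
    {g | g ∈ F ∧ g ^ p ∈ A ∧ ∀ e ∈ F, e ^ p ∈ A → e ^ q = 1 → g * e = e * g} (fun x hx => hx.1)
    (fun x hx g => ⟨hS.nF.conj_mem x hx.1 g, xseha_conj hS.nA hx.2.1 g,
      fun e he e1 e2 => by
        have e3 := hx.2.2 (g⁻¹ * e * g⁻¹⁻¹) (hS.nF.conj_mem e he _)
          (xseha_conj hS.nA e1 _) (by rw [conj_pow, e2, mul_one, mul_inv_cancel])
        calc g * x * g⁻¹ * e = g * (x * (g⁻¹ * e * g⁻¹⁻¹)) * g⁻¹ := by group
          _ = _ := by rw [e3]; group⟩)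
    (fun x hx y hy => by
      obtain ⟨z, hz⟩ := IsCyclic.exists_monoid_generator (α := Z)
      obtain ⟨u, hu⟩ := (h4 _).1 hx.2.1
      obtain ⟨v, hv⟩ := (h4 _).1 hy.2.1
      obtain ⟨i, rfl⟩ := hz u
      obtain ⟨j, rfl⟩ := hz v
      have e : ∀ i j k l : ℕ, j + k * i = p * l → ζ (z ^ j) * ζ (z ^ i) ^ k = ζ (z ^ l) ^ p :=
        fun i j k l e => by
          rw [← map_pow, ← map_pow, ← map_mul, ← pow_mul, ← pow_mul, ← pow_add, mul_comm i, e,
            mul_comm]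
      rcases hk i j with ⟨l, hl⟩ | ⟨k, l, hl⟩
      · exact (key ⟨y, hy.1⟩ ⟨x, hx.1⟩ _ 0 hy.2.1 hx.2.1 ((h4 _).2 ⟨_, rfl⟩)
          (hu ▸ hv ▸ e j i 0 l hl) hy.2.2).symm
      · exact key ⟨x, hx.1⟩ ⟨y, hy.1⟩ _ k hx.2.1 hy.2.1 ((h4 _).2 ⟨_, rfl⟩)
          (hu ▸ hv ▸ e i j k l hl) hx.2.2)
  let P0 : Subgroup U :=
    { carrier := {u | ∃ g : F, π g = u ∧ (g : H) ^ p ∈ A ∧ (g : H) ^ q = 1}
      one_mem' := ⟨1, map_one π, by simp, by simp⟩
      mul_mem' := by
        rintro _ _ ⟨x, rfl, x1, x2⟩ ⟨y, rfl, y1, y2⟩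
        refine ⟨x * y, map_mul π x y, (hO _).2 ?_, (hmul x y x1).trans ?_⟩
        · rw [map_mul, mul_pow, (hO x).1 x1, (hO y).1 y1, one_mul]
        · rw [x2, y2, one_mul]
      inv_mem' := by
        rintro _ ⟨x, rfl, x1, x2⟩
        exact ⟨x⁻¹, map_inv π x, by simpa using x1, by simpa using x2⟩ }
  have hle : P0 ≤ (powMonoidHom p : U →* U).ker := by
    rintro _ ⟨x, rfl, x1, -⟩
    exact (hO x).1 x1
  have hel : ∀ (a : ℕ) (u : U), u ^ p ^ a = 1 → u ^ p = 1 := fun a => by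
    induction a with
    | zero => exact fun u hu => by rw [show u = 1 by simpa using hu, one_pow]
    | succ a ih =>
      intro u hu
      obtain ⟨x, rfl⟩ := h1 u
      rw [pow_succ', pow_mul] at hu
      have e := ih _ hu
      rw [← pow_mul, ← map_pow, h2] at e
      exact (hO x).1 (u_elem A F hS hM p x x.2 e)
  have hperp : perp B P0 = perp B (powMonoidHom p : U →* U).ker := by
    refine le_antisymm (fun y hy u hu => ?_) fun y hy u hu => hy u (hle hu)
    obtain ⟨e, a, e1, -, e2⟩ := p_part p hp y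
    obtain ⟨g, hg⟩ := h1 (y ^ e)
    have e3 : (g : H) ∈ A := hD g ⟨g.2, (hO g).2 (hg ▸ hel a _ e1), fun w hw w1 w2 => by
      have e4 := h6 ⟨w, hw⟩ g
      rw [hg, map_pow, hy _ ⟨⟨w, hw⟩, rfl, w1, w2⟩, one_pow, map_one] at e4
      exact (commutatorElement_eq_one_iff_mul_comm.1 e4.symm).symm⟩
    rw [← e2 Z (B u) 1 (by
      rw [pow_one, ← MonoidHom.pow_apply, ← map_pow, show u ^ p = 1 from hu, map_one,
        MonoidHom.one_apply]), ← hg, (h2 g).2 e3, map_one]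
  have hc := card_perp B h5 P0
  rw [hperp, ← card_perp B h5 (powMonoidHom p : U →* U).ker] at hc
  obtain ⟨g, g1, -, g2⟩ := (Subgroup.eq_of_le_of_card_ge hle
    (Nat.eq_of_mul_eq_mul_right Nat.card_pos hc).ge).ge ((hO ⟨f, hf⟩).1 h)
  refine ⟨f⁻¹ * g, (h2 (⟨f, hf⟩⁻¹ * g)).1 ?_, by rwa [mul_inv_cancel_left]⟩
  rw [map_mul, map_inv, g1, inv_mul_cancel]

end Pool.Agent.N9181

end

section

namespace Pool.Agent.N9181

open scoped commutatorElement

theorem xsgbasic_twelve {V : Type} [AddCommGroup V] [Module K V] [Module.Finite K V]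
    {H : Type} [Group H] [Finite H] (ρ : Representation K H V) (hinj : Function.Injective ρ)
    (z : H) (hz : z ∈ scal ρ) : z ^ 12 = 1 := by
  obtain ⟨c, hc, h⟩ := hz
  apply hinj
  ext v
  rw [rho_pow_eig ρ z v c (h v) 12, k_twelve c hc, one_smul, map_one]
  rfl

theorem xsgbasic_le {V : Type} [AddCommGroup V] [Module K V] [Module.Finite K V]
    {H : Type} [Group H] [Finite H] (ρ : Representation K H V) (N : ℕ) (A F : Subgroup H)
    (hG : GB ρ N A F) : scal ρ ≤ A := by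
  have hA := hG.sd.nA
  have hS := scal_normal ρ
  have hB : A ⊔ scal ρ = A := by
    refine hG.mx _ inferInstance ?_ le_sup_left
    intro x hx y hy
    obtain ⟨a, ha, z, hz, rfl⟩ := Subgroup.mem_sup_of_normal_right.1 hx
    obtain ⟨b, hb, w, hw, rfl⟩ := Subgroup.mem_sup_of_normal_right.1 hy
    have h1 : Commute a b := hG.sd.cen a ha b (hG.sd.le hb)
    have h2 : Commute a w := (scal_central ρ hG.inj w hw a).symm
    have h3 : Commute z (b * w) := scal_central ρ hG.inj z hz _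
    exact ((h1.mul_right h2).mul_left h3).eq
  exact hB ▸ le_sup_right

theorem xsgbasic_cube (c : K) (h : c ^ 3 = 1) (h1 : c ≠ 1) : c = 3 ∨ c ^ 2 = 3 := by
  revert c
  decide

theorem gb_scal {V : Type} [AddCommGroup V] [Module K V] [Module.Finite K V]
    {H : Type} [Group H] [Finite H] (ρ : Representation K H V) (N : ℕ) (A F : Subgroup H) (hG : GB ρ N A F) :
    scal ρ ≤ A ∧ Nat.card (scal ρ) = Nat.gcd (Nat.card A) 12 ∧
      (3 ∣ Nat.card A → ∃ z : H, z ^ 3 = 1 ∧ ∀ v, ρ z v = (3 : K) • v) := by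
  have hle := xsgbasic_le ρ N A F hG
  refine ⟨hle, ?_, ?_⟩
  · have hc := hG.sd.cyc
    let _ : CommGroup A := IsCyclic.commGroup
    rw [← IsCyclic.card_powMonoidHom_ker A 12]
    refine Nat.card_congr ⟨fun z => ⟨⟨z, hle z.2⟩, ?_⟩, fun a => ⟨a.1, ?_⟩, fun _ => rfl,
      fun _ => rfl⟩
    · exact Subtype.ext (xsgbasic_twelve ρ hG.inj z z.2)
    · exact hG.sc _ a.1.2 (congrArg Subtype.val a.2)
  · intro h3
    have : Fact (Nat.Prime 3) := ⟨Nat.prime_three⟩
    obtain ⟨x, hx⟩ := exists_prime_orderOf_dvd_card' 3 h3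
    have hx3 : (x : H) ^ 3 = 1 := by
      have := pow_orderOf_eq_one x
      rw [hx] at this
      exact congrArg Subtype.val this
    have hx1 : (x : H) ≠ 1 := by
      intro h
      have : x = 1 := Subtype.ext h
      rw [this, orderOf_one] at hx
      norm_num at hx
    have h12 : (x : H) ^ 12 = 1 := by
      rw [show 12 = 3 * 4 by rfl, pow_mul, hx3, one_pow]
    obtain ⟨c, -, h⟩ := hG.sc _ x.2 h12
    obtain ⟨v, hv⟩ := hG.ne
    have hc3 : c ^ 3 = 1 := by
      have h1 := rho_pow_eig ρ x v c (h v) 3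
      rw [hx3, map_one] at h1
      have h2 : (c ^ 3 - 1) • v = 0 := by
        rw [sub_smul, one_smul, ← h1]
        exact sub_self v
      exact sub_eq_zero.1 ((smul_eq_zero.1 h2).resolve_right hv)
    have hc1 : c ≠ 1 := by
      rintro rfl
      exact hx1 (hG.free _ x.2 v hv (by rw [h v, one_smul]))
    rcases xsgbasic_cube c hc3 hc1 with rfl | h9
    · exact ⟨x, hx3, h⟩
    · refine ⟨(x : H) ^ 2, by rw [← pow_mul, mul_comm, pow_mul, hx3, one_pow], fun w => ?_⟩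
      rw [rho_pow_eig ρ x w c (h w) 2, h9]

theorem gb_e {V : Type} [AddCommGroup V] [Module K V] [Module.Finite K V]
    {H : Type} [Group H] [Finite H] (ρ : Representation K H V) (N : ℕ) (A F : Subgroup H) (hG : GB ρ N A F) :
    ∃ e : ℕ, 0 < e ∧ A.relIndex F = e ^ 2 ∧ e ∣ Module.finrank K V ∧
      ∀ p : ℕ, p.Prime → p ∣ e → p ∣ Nat.card A := by
  obtain ⟨e, h0, h1, h2⟩ := pd_sq A F hG.sd.toPD
  refine ⟨e, h0, h1, ?_, h2⟩
  have := dim1 hG.cop ρ A F hG.sd.toPD hG.free ⊤ (fun _ _ _ _ => Submodule.mem_top) e h1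
  rwa [finrank_top] at this

theorem eb_A {V : Type} [AddCommGroup V] [Module K V] [Module.Finite K V]
    {H : Type} [Group H] [Finite H] (ρ : Representation K H V) (N : ℕ) (A F : Subgroup H) (hG : GB ρ N A F) (a : H) (ha : a ∈ A) (v : V) (h0 : v ≠ 0) (c : K)
    (h : ρ a v = c • v) : a ∈ scal ρ := by
  have hc : c ≠ 0 := by
    rintro rfl
    have h1 := rho_inv ρ a v
    rw [h, zero_smul, map_zero] at h1
    exact h0 h1.symm
  refine hG.sc a ha (hG.free _ (A.pow_mem ha 12) v h0 ?_)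
  rw [rho_pow_eig ρ a v c h 12, k_twelve c hc, one_smul]

theorem gb_one {V : Type} [AddCommGroup V] [Module K V] [Module.Finite K V]
    {H : Type} [Group H] [Finite H] (ρ : Representation K H V) (N : ℕ) (A F : Subgroup H) (hG : GB ρ N A F) (e g : ℕ) (he : 0 < e) (hL : LamD A e e g) :
    Nat.card A ∣ 12 ∧ A = scal ρ ∧ Subgroup.centralizer (A : Set H) = ⊤ := by
  obtain ⟨h1, h2, h3, -, h5, -⟩ := hL
  have hg : g = 1 := by
    have : g ≤ 1 := Nat.le_of_mul_le_mul_right (by rwa [one_mul]) he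
    omega
  subst hg
  have h12 : Nat.card A ∣ 12 := by simpa using h5
  refine ⟨h12, le_antisymm (fun a ha => hG.sc a ha ?_) (xsgbasic_le ρ N A F hG),
    Subgroup.index_eq_one.1 (Nat.dvd_one.1 h3)⟩
  obtain ⟨k, hk⟩ := h12
  have h6 : (⟨a, ha⟩ : A) ^ Nat.card A = 1 := pow_card_eq_one'
  have h7 : a ^ Nat.card A = 1 := congrArg Subtype.val h6
  rw [hk, pow_mul, h7, one_pow]

theorem pow_e {H : Type} [Group H] [Finite H] (A F : Subgroup H) (hS : SD A F) (e : ℕ) (he : A.relIndex F = e ^ 2) (f : H) (hf : f ∈ F) :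
    f ^ (e ^ 2) ∈ A := by
  have := hS.nA
  rw [← he]
  exact Subgroup.pow_relIndex_mem A hf

end Pool.Agent.N9181

end

section

namespace Pool.Agent.N9181

open scoped commutatorElement

theorem xsehb_pow {H : Type} [Group H] {f g c : H} (hf : Commute c f) (hg : Commute c g)
    (h : g * f = c * f * g) (n : ℕ) :
    g ^ n * f = c ^ n * f * g ^ n ∧ (f * g) ^ n = c ^ n.choose 2 * f ^ n * g ^ n := by
  induction n with
  | zero => simp
  | succ n ih =>
    constructor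
    · calc g ^ (n + 1) * f = g * (g ^ n * f) := by rw [pow_succ', mul_assoc]
        _ = c ^ n * (g * f) * g ^ n := by
          rw [ih.1, ← mul_assoc, ← mul_assoc, ← (hg.pow_left n).eq, mul_assoc _ g f]
        _ = _ := by rw [h, pow_succ c, pow_succ' g]; simp only [mul_assoc]
    · calc (f * g) ^ (n + 1) = c ^ n.choose 2 * f ^ n * (g ^ n * f) * g := by
            rw [pow_succ, ih.2]; simp only [mul_assoc]
        _ = c ^ n.choose 2 * (f ^ n * c ^ n) * f * g ^ n * g := by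
          rw [ih.1]; simp only [mul_assoc]
        _ = _ := by
          rw [← (hf.pow_pow n n).eq, Nat.choose_succ_succ' n 1, Nat.choose_one_right, add_comm n,
            pow_add c, pow_succ f, pow_succ g]
          simp only [mul_assoc]

theorem xsehb_cm {H : Type} [Group H] [Finite H] {A F : Subgroup H} (hP : PD A F) {p : ℕ} {f g : H}
    (hf : f ∈ F) (hg : g ∈ F) (h : f ^ p ∈ A) : ⁅f, g⁆ ^ p = 1 := by
  obtain ⟨U, Z, _, _, _, _, _, π, ζ, B, -, h2, -, -, -, h6, -⟩ := pd_pair A F hP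
  have h1 : π ⟨f, hf⟩ ^ p = 1 := by
    rw [← map_pow]
    exact (h2 _).2 h
  rw [← h6 ⟨f, hf⟩ ⟨g, hg⟩, ← map_pow, ← MonoidHom.pow_apply, ← map_pow, h1, map_one,
    MonoidHom.one_apply, map_one]

theorem xsehb_desc {H : Type} [Group H] [Finite H] {A F : Subgroup H} (hS : SD A F) (hM : MxA A)
    (p k : ℕ) : ∀ f ∈ F, f ^ (p ^ k) ∈ A → f ^ p ∈ A := by
  induction k with
  | zero => exact fun f _ h => A.pow_mem (by simpa using h) p
  | succ k ih =>
    intro f hf h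
    rw [pow_succ', pow_mul] at h
    exact u_elem A F hS hM p f hf (by rw [pow_mul]; exact ih _ (F.pow_mem hf p) h)

theorem exists_EH {V : Type} [AddCommGroup V] [Module K V] [Module.Finite K V]
    {H : Type} [Group H] [Finite H] (ρ : Representation K H V) (N : ℕ) (A F : Subgroup H) (hG : GB ρ N A F) (e : ℕ) (he : A.relIndex F = e ^ 2) (p q : ℕ) (hpq : (p = 2 ∧ q = 4) ∨ (p = 3 ∧ q = 3)) :
    ∃ E : Subgroup H, (∀ f, f ∈ E ↔ f ∈ F ∧ f ^ q = 1) ∧ EH ρ p q E ∧
      (scal ρ).relIndex E = (p ^ e.factorization p) ^ 2 := by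
  have hS := hG.sd
  have hM : MxA A := hG.mx
  have hp : p.Prime := by rcases hpq with ⟨rfl, -⟩ | ⟨rfl, -⟩ <;> norm_num
  obtain ⟨d1, d2, d3, d4⟩ : q ∣ p ^ 2 ∧ q ∣ 12 ∧ p ∣ 12 ∧ p ∣ q.choose 2 := by
    rcases hpq with ⟨rfl, rfl⟩ | ⟨rfl, rfl⟩ <;> decide
  have pd : ∀ {x : H} {a b : ℕ}, x ^ a = 1 → a ∣ b → x ^ b = 1 := fun {x a b} h ⟨c, hc⟩ => by
    rw [hc, pow_mul, h, one_pow]
  have hA : ∀ f ∈ F, f ^ q = 1 → f ^ p ∈ A := fun f hf h =>
    xsehb_desc hS hM p 2 f hf (by rw [pd h d1]; exact A.one_mem)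
  let E : Subgroup H :=
    { carrier := {f | f ∈ F ∧ f ^ q = 1}
      one_mem' := ⟨F.one_mem, one_pow _⟩
      mul_mem' := fun {f g} hf hg => by
        refine ⟨F.mul_mem hf.1 hg.1, ?_⟩
        have hc := hS.comm g hg.1 f hf.1
        rw [(xsehb_pow (c := ⁅g, f⁆) (hS.cen _ hc f hf.1) (hS.cen _ hc g hg.1)
          (by rw [commutatorElement_def]; group) q).2, hf.2, hg.2,
          pd (xsehb_cm hS.toPD hg.1 hf.1 (hA g hg.1 hg.2)) d4, one_mul, one_mul]
      inv_mem' := fun {f} hf => ⟨F.inv_mem hf.1, by rw [inv_pow, hf.2, inv_one]⟩ }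
  have hE : ∀ f, f ∈ E ↔ f ∈ F ∧ f ^ q = 1 := fun _ => Iff.rfl
  refine ⟨E, hE, ⟨hG.inj, hG.ne, ⟨fun f hf g => ⟨hS.nF.conj_mem f hf.1 g, ?_⟩⟩, fun f hf => hf.2,
    fun f hf => hG.sc _ (hA f hf.1 hf.2) ?_, fun f hf g hg => hG.sc _ (hS.comm f hf.1 g hg.1)
      (pd (xsehb_cm hS.toPD hf.1 hg.1 (hA f hf.1 hf.2)) d3), fun B hB hle hab b hb => ?_⟩, ?_⟩
  · rw [conj_pow, hf.2, mul_one, mul_inv_cancel]
  · rw [← pow_mul]
    exact pd hf.2 (d2.mul_left p)
  · have := hS.nA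
    have h1 : B ⊔ A = A := hM _ inferInstance (fun x hx y hy => by
      obtain ⟨b, hb, a, ha, rfl⟩ := Subgroup.mem_sup_of_normal_right.1 hx
      obtain ⟨b', hb', a', ha', rfl⟩ := Subgroup.mem_sup_of_normal_right.1 hy
      have c1 : Commute b b' := hab b hb b' hb'
      have c2 : Commute a' b := hS.cen a' ha' b (hle hb).1
      have c3 : Commute a b' := hS.cen a ha b' (hle hb').1
      have c4 : Commute a a' := hS.cen a ha a' (hS.le ha')
      exact ((c1.mul_right c2.symm).mul_left (c3.mul_right c4)).eq) le_sup_right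
    exact hG.sc b (h1 ▸ Subgroup.mem_sup_left hb) (pd (hle hb).2 d2)
  · obtain ⟨U, Z, _, _, _, _, _, π, ζ, B, h1, h2, -, -, -, -, h7, -⟩ := pd_pair A F hS.toPD
    have := Fact.mk hp
    let φ : E →* U := π.comp (Subgroup.inclusion fun f hf => hf.1)
    have hk : (scal ρ).subgroupOf E = φ.ker := by
      ext f
      rw [Subgroup.mem_subgroupOf, MonoidHom.mem_ker]
      exact ⟨fun h => (h2 _).2 ((gb_scal ρ N A F hG).1 h),
        fun h => hG.sc _ ((h2 _).1 h) (pd f.2.2 d2)⟩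
    have hP : IsPGroup p φ.range := by
      rintro ⟨_, f, rfl⟩
      refine ⟨1, Subtype.ext ?_⟩
      change φ f ^ p ^ 1 = 1
      rw [pow_one, ← map_pow]
      exact (h2 _).2 (hA f f.2.1 f.2.2)
    obtain ⟨P, hle⟩ := hP.exists_le_sylow
    have hge : (P : Subgroup U) ≤ φ.range := fun u hu => by
      obtain ⟨k, hk⟩ := P.isPGroup' ⟨u, hu⟩
      obtain ⟨f, rfl⟩ := h1 u
      have h3 : π (f ^ p ^ k) = 1 := by
        rw [map_pow]
        exact congrArg Subtype.val hk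
      obtain ⟨a, ha, h4⟩ := u_lift A F hS hM p q hpq f f.2
        (xsehb_desc hS hM p k f f.2 ((h2 _).1 h3))
      refine ⟨⟨f * a, F.mul_mem f.2 (hS.le ha), h4⟩, ?_⟩
      change π (f * ⟨a, hS.le ha⟩) = π f
      rw [map_mul, (h2 ⟨a, hS.le ha⟩).2 ha, mul_one]
    rw [Subgroup.relIndex, hk, Subgroup.index_ker, le_antisymm hle hge, P.card_eq_multiplicity, h7,
      he, Nat.factorization_pow, ← pow_mul, mul_comm]
    rfl

theorem eh_comm {V : Type} [AddCommGroup V] [Module K V] [Module.Finite K V]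
    {H : Type} [Group H] [Finite H] (ρ : Representation K H V) (E E' : Subgroup H) (hE : EH ρ 2 4 E) (hE' : EH ρ 3 3 E') :
    ∀ f ∈ E, ∀ g ∈ E', f * g = g * f := by
  intro f hf g hg
  refine Subgroup.commute_of_normal_of_disjoint E E' hE.nE hE'.nE
    (Subgroup.disjoint_def.2 fun {x} h h' => ?_) f g hf hg
  have h1 := hE.pw x h
  rwa [pow_succ, hE'.pw x h', one_mul] at h1

theorem eh_ffe {V : Type} [AddCommGroup V] [Module K V] [Module.Finite K V]
    {H : Type} [Group H] [Finite H] (ρ : Representation K H V) (N : ℕ) (A F : Subgroup H) (hG : GB ρ N A F) (k : ℕ) (he : A.relIndex F = (3 ^ k) ^ 2) (hA : A = scal ρ)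
    (E : Subgroup H) (hE : ∀ f, f ∈ E ↔ f ∈ F ∧ f ^ 3 = 1) : FFE ρ E := by
  have hS := hG.sd
  have hM : MxA A := hG.mx
  have hc : ∀ a ∈ A, ∀ h : H, a * h = h * a := fun a ha => scal_central ρ hG.inj a (hA ▸ ha)
  have h1 : ∀ y ∈ F, ∃ a ∈ A, y * a ∈ E := fun y hy => by
    have h2 := pow_e A F hS _ he y hy
    rw [← pow_mul] at h2
    obtain ⟨a, ha, h3⟩ := u_lift A F hS hM 3 3 (.inr ⟨rfl, rfl⟩) y hy
      (xsehb_desc hS hM 3 _ y hy h2)
    exact ⟨a, ha, (hE _).2 ⟨F.mul_mem hy (hS.le ha), h3⟩⟩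
  intro x hx
  have h4 : x ∈ F := hS.ff x (fun a ha => hc a ha x) fun y hy => by
    obtain ⟨a, ha, h5⟩ := h1 y hy
    have h6 : ⁅x, y * a⁆ = ⁅x, y⁆ := by
      rw [commutatorElement_def, commutatorElement_def, mul_inv_rev, ← mul_assoc x, mul_assoc _ a,
        hc a ha]
      group
    rw [← h6, hA]
    exact hx _ h5
  obtain ⟨a, ha, h5⟩ := h1 x h4
  obtain ⟨c, hc0, h6⟩ : a ∈ scal ρ := hA ▸ ha
  exact ⟨_, h5, c⁻¹, fun v => by rw [rho_mul, h6, map_smul, inv_smul_smul₀ hc0]⟩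

end Pool.Agent.N9181

end

section

namespace Pool.Agent.N9181

open scoped commutatorElement

theorem xshsc_ext {E : Type} [Group E] (L : Subgroup E) (y : E)
    (hy : ∀ l ∈ L, l * y = y * l) :
    ∃ L' : Subgroup E, ∀ g, g ∈ L' ↔ ∃ l ∈ L, ∃ k : ℤ, g = l * y ^ k := by
  have hc : ∀ l ∈ L, ∀ k : ℤ, y ^ k * l = l * y ^ k := fun l hl k =>
    (Commute.zpow_right (hy l hl) k).eq.symm
  refine ⟨{ carrier := {g | ∃ l ∈ L, ∃ k : ℤ, g = l * y ^ k}
            one_mem' := ⟨1, L.one_mem, 0, by simp⟩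
            mul_mem' := ?_
            inv_mem' := ?_ }, fun g => Iff.rfl⟩
  · rintro _ _ ⟨l, hl, k, rfl⟩ ⟨l', hl', k', rfl⟩
    refine ⟨l * l', L.mul_mem hl hl', k + k', ?_⟩
    rw [mul_assoc, ← mul_assoc (y ^ k), hc l' hl', zpow_add, mul_assoc, mul_assoc]
  · rintro _ ⟨l, hl, k, rfl⟩
    exact ⟨l⁻¹, L.inv_mem hl, -k, by rw [mul_inv_rev, ← zpow_neg, hc _ (L.inv_mem hl)]⟩

theorem xshsc_step {E U : Type} [Group E] [CommGroup U] (π : E →* U) (p : ℕ) (hp : p.Prime)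
    (L : Subgroup E)
    (hL : Maximal (fun L : Subgroup E => (∀ l ∈ L, ∀ l' ∈ L, l * l' = l' * l) ∧
      (∀ l ∈ L, π l = 1 → l = 1) ∧ ∃ w, (∀ l ∈ L, l * w = w * l) ∧ ∀ l ∈ L, π w ≠ π l) L)
    (y w : E) (hyp : y ^ p = 1) (hy : ∀ l ∈ L, l * y = y * l) (hw : ∀ l ∈ L, l * w = w * l)
    (hyw : y * w = w * y) (hyS : ∀ l ∈ L, π y ≠ π l)
    (hwS : ∀ l ∈ L, ∀ k : ℤ, π w ≠ π l * π y ^ k) : False := by
  obtain ⟨L', hL'⟩ := xshsc_ext L y hy
  have hle : L ≤ L' := fun l hl => (hL' l).2 ⟨l, hl, 0, by simp⟩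
  refine hyS y (hL.2 ⟨?_, ?_, w, ?_, ?_⟩ hle ((hL' y).2 ⟨1, L.one_mem, 1, by simp⟩)) rfl
  · intro g hg g' hg'
    obtain ⟨l, hl, k, rfl⟩ := (hL' g).1 hg
    obtain ⟨l', hl', k', rfl⟩ := (hL' g').1 hg'
    have c1 : Commute l l' := hL.1.1 l hl l' hl'
    have c2 : Commute l y := hy l hl
    have c3 : Commute l' y := hy l' hl'
    exact ((c1.mul_right (c2.zpow_right k')).mul_left
      ((c3.symm.zpow_left k).mul_right ((Commute.refl y).zpow_zpow k k'))).eq
  · intro g hg h1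
    obtain ⟨l, hl, k, rfl⟩ := (hL' g).1 hg
    by_cases hk : (p : ℤ) ∣ k
    · obtain ⟨m, rfl⟩ := hk
      rw [zpow_mul, zpow_natCast, hyp, one_zpow, mul_one] at h1 ⊢
      exact hL.1.2.1 l hl h1
    · obtain ⟨a, b, hab⟩ :=
        (Nat.prime_iff_prime_int.1 hp).irreducible.coprime_iff_not_dvd.2 hk
      refine (hyS (l⁻¹ ^ b) (L.zpow_mem (L.inv_mem hl) b) ?_).elim
      rw [map_mul, map_zpow] at h1
      have h2 : π y ^ (p : ℤ) = 1 := by rw [zpow_natCast, ← map_pow, hyp, map_one]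
      have h3 : π y ^ (a * p + b * k) = π y ^ (k * b) := by
        rw [zpow_add, mul_comm a, zpow_mul, h2, one_zpow, one_mul, mul_comm]
      rw [map_zpow, map_inv, inv_eq_of_mul_eq_one_right h1, ← zpow_mul, ← h3, hab, zpow_one]
  · intro g hg
    obtain ⟨l, hl, k, rfl⟩ := (hL' g).1 hg
    exact (Commute.mul_left (hw l hl) (Commute.zpow_left hyw k)).eq
  · intro g hg
    obtain ⟨l, hl, k, rfl⟩ := (hL' g).1 hg
    rw [map_mul, map_zpow]
    exact hwS l hl k

theorem xshsc_abs {E U C : Type} [Group E] [Finite E] [CommGroup U] [Finite U] [CommGroup C]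
    [Finite C] [IsCyclic C] (π : E →* U) (hπ : Function.Surjective π) (B : U →* U →* C)
    (hB : Symp B) (p : ℕ) (hp : p.Prime) (hc : ∀ x y, B (π x) (π y) = 1 ↔ x * y = y * x)
    (hU : ∀ u : U, u ^ p = 1)
    (h3 : ∀ x y : E, x * y = y * x → x ^ p = 1 ∨ y ^ p = 1 ∨ (x * y) ^ p = 1)
    (hne : Nat.card U ≠ 1) :
    ∃ L : Subgroup E, (∀ l ∈ L, ∀ l' ∈ L, l * l' = l' * l) ∧ (∀ l ∈ L, π l = 1 → l = 1) ∧
      (∃ X Z, (∀ l ∈ L, l * X = X * l) ∧ (∀ l ∈ L, l * Z = Z * l) ∧ Z * X ≠ X * Z) ∧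
      ∀ X Z, (∀ l ∈ L, l * X = X * l) → (∀ l ∈ L, l * Z = Z * l) → Z * X ≠ X * Z →
        (∀ f g, ∃ k < p, B (π f) (π g) = B (π Z) (π X) ^ k) →
        (∀ f, (∀ l ∈ L, l * f = f * l) → ∃ l ∈ L, ∃ a < p, ∃ b < p,
          π f = π (l * X ^ a * Z ^ b)) ∧ Nat.card U = p ^ 2 * Nat.card L ^ 2 := by
  have h0 : (∀ l ∈ (⊥ : Subgroup E), ∀ l' ∈ (⊥ : Subgroup E), l * l' = l' * l) ∧
      (∀ l ∈ (⊥ : Subgroup E), π l = 1 → l = 1) ∧
      ∃ w, (∀ l ∈ (⊥ : Subgroup E), l * w = w * l) ∧ ∀ l ∈ (⊥ : Subgroup E), π w ≠ π l := by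
    have : Nontrivial U := Finite.one_lt_card_iff_nontrivial.1
      (lt_of_le_of_ne Nat.card_pos hne.symm)
    obtain ⟨u, hu⟩ := exists_ne (1 : U)
    obtain ⟨w, rfl⟩ := hπ u
    simp only [Subgroup.mem_bot, forall_eq, mul_one, one_mul, implies_true, map_one, true_and]
    exact ⟨w, hu⟩
  obtain ⟨L, -, hL⟩ := Finite.exists_le_maximal (p := fun L : Subgroup E =>
    (∀ l ∈ L, ∀ l' ∈ L, l * l' = l' * l) ∧ (∀ l ∈ L, π l = 1 → l = 1) ∧
      ∃ w, (∀ l ∈ L, l * w = w * l) ∧ ∀ l ∈ L, π w ≠ π l) h0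
  have hT : ∀ f, π f ∈ perp B (L.map π) ↔ ∀ l ∈ L, l * f = f * l := fun f =>
    ⟨fun h l hl => (hc l f).1 (h _ ⟨l, hl, rfl⟩), by
      rintro h _ ⟨l, hl, rfl⟩
      exact (hc l f).2 (h l hl)⟩
  have c1 := card_perp B hB (L.map π)
  refine ⟨L, hL.1.1, hL.1.2.1, ?_, fun X Z hX hZ hZX hω => ?_⟩
  · obtain ⟨Z, hZ, hZ'⟩ := hL.1.2.2
    by_contra hn
    push Not at hn
    have c2 := card_perp B hB (perp B (L.map π))
    have h1 : L.map π ≤ perp B (perp B (L.map π)) := fun s hs t ht => by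
      rw [symp_skew B hB, ht s hs, inv_one]
    have h2 : L.map π = perp B (perp B (L.map π)) := by
      refine Subgroup.eq_of_le_of_card_ge h1 (le_of_eq ?_)
      rw [← c1, mul_comm] at c2
      exact Nat.eq_of_mul_eq_mul_right Nat.card_pos c2
    have h4 : π Z ∈ L.map π := by
      rw [h2]
      intro t ht
      obtain ⟨X, rfl⟩ := hπ t
      exact (hc X Z).2 (hn X Z ((hT X).1 ht) hZ).symm
    obtain ⟨l, hl, h5⟩ := h4
    exact hZ' l hl h5.symm
  have w1 : B (π Z) (π X) ≠ 1 := fun h => hZX ((hc Z X).1 h)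
  have : Fact p.Prime := ⟨hp⟩
  have w2 : orderOf (B (π Z) (π X)) = p :=
    orderOf_eq_prime (by rw [← map_pow, hU, map_one]) w1
  have bX : ∀ l ∈ L, B (π l) (π X) = 1 := fun l hl => (hc l X).2 (hX l hl)
  have bZ : ∀ l ∈ L, B (π Z) (π l) = 1 := fun l hl => (hc Z l).2 (hZ l hl).symm
  have eX : ∀ l ∈ L, ∀ a b : ℕ, B (π (l * X ^ a * Z ^ b)) (π X) = B (π Z) (π X) ^ b :=
    fun l hl a b => by
      simp only [map_mul, map_pow, MonoidHom.mul_apply, MonoidHom.pow_apply, bX l hl, hB.1,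
        one_pow, one_mul]
  have eZ : ∀ l ∈ L, ∀ a b : ℕ, B (π Z) (π (l * X ^ a * Z ^ b)) = B (π Z) (π X) ^ a :=
    fun l hl a b => by
      simp only [map_mul, map_pow, bZ l hl, hB.1, one_pow, one_mul, mul_one]
  have cg : ∀ l ∈ L, ∀ a b : ℕ, ∀ l' ∈ L, Commute l' (l * X ^ a * Z ^ b) := fun l hl a b l' hl' =>
    (Commute.mul_right (hL.1.1 l' hl' l hl) (Commute.pow_right (hX l' hl') a)).mul_right
      (Commute.pow_right (hZ l' hl') b)
  have main : ∀ f, (∀ l ∈ L, l * f = f * l) → ∃ l ∈ L, ∃ a < p, ∃ b < p,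
      π f = π (l * X ^ a * Z ^ b) := by
    intro f hf
    obtain ⟨a, ha, ha'⟩ := hω Z f
    obtain ⟨b, hb, hb'⟩ := hω f X
    obtain ⟨F, hF⟩ : ∃ F, F = f * (1 * X ^ a * Z ^ b)⁻¹ := ⟨_, rfl⟩
    have f1 : ∀ l ∈ L, l * F = F * l := fun l hl =>
      hF ▸ (Commute.mul_right (hf l hl) (cg 1 L.one_mem a b l hl).inv_right).eq
    have f2 : B (π Z) (π F) = 1 := by
      rw [hF, map_mul, map_inv, map_mul, map_inv, eZ 1 L.one_mem, ha', mul_inv_cancel]
    have f3 : B (π F) (π X) = 1 := by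
      rw [hF, map_mul, map_inv, map_mul, map_inv, MonoidHom.mul_apply, MonoidHom.inv_apply,
        eX 1 L.one_mem, hb', mul_inv_cancel]
    have f4 : Z * F = F * Z := (hc Z F).1 f2
    by_cases hS : ∃ l ∈ L, π F = π l
    · obtain ⟨l, hl, h1⟩ := hS
      refine ⟨l, hl, a, ha, b, hb, ?_⟩
      rw [hF, map_mul, map_inv, mul_inv_eq_iff_eq_mul, one_mul, ← map_mul, ← mul_assoc] at h1
      exact h1
    push Not at hS
    have aux : ∀ y, y ^ p = 1 → (∀ l ∈ L, l * y = y * l) → y * F = F * y →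
        B (π y) (π X) = B (π Z) (π X) → False := fun y y1 y2 y3 y4 => by
      refine xshsc_step π p hp L hL y F y1 y2 f1 y3 (fun l hl h => w1 ?_) fun l hl k h => ?_
      · rw [← y4, h, bX l hl]
      · have h1 : B (π Z) (π X) ^ k = 1 := by
          rw [← f3, h, map_mul, map_zpow, MonoidHom.mul_apply, MonoidHom.zpow_apply, bX l hl,
            one_mul, y4]
        rw [← orderOf_dvd_iff_zpow_eq_one, w2] at h1
        obtain ⟨m, rfl⟩ := h1
        rw [zpow_mul, zpow_natCast, hU, one_zpow, mul_one] at h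
        exact hS l hl h
    rcases h3 F Z f4.symm with h | h | h
    · refine (xshsc_step π p hp L hL F Z h f1 hZ f4.symm hS fun l hl k h' => w1 ?_).elim
      rw [h', map_mul, map_zpow, MonoidHom.mul_apply, MonoidHom.zpow_apply, bX l hl, f3,
        one_zpow, one_mul]
    · exact (aux Z h hZ f4 rfl).elim
    · refine (aux (F * Z) h (fun l hl => (Commute.mul_right (f1 l hl) (hZ l hl)).eq)
        (by rw [mul_assoc, f4]) ?_).elim
      rw [map_mul, map_mul, MonoidHom.mul_apply, f3, one_mul]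
  refine ⟨main, ?_⟩
  have inj : ∀ l ∈ L, ∀ l' ∈ L, π l = π l' → l = l' := fun l hl l' hl' h =>
    mul_inv_eq_one.1 (hL.1.2.1 _ (L.mul_mem hl (L.inv_mem hl'))
      (by rw [map_mul, map_inv, h, mul_inv_cancel]))
  have c3 : Nat.card L = Nat.card (L.map π) := by
    refine Nat.card_eq_of_bijective (fun l : L => (⟨π l, l, l.2, rfl⟩ : L.map π)) ⟨?_, ?_⟩
    · intro l l' h
      exact Subtype.ext (inj l l.2 l' l'.2 (congrArg Subtype.val h))
    · rintro ⟨_, l, hl, rfl⟩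
      exact ⟨⟨l, hl⟩, rfl⟩
  have c4 : Nat.card (L × Fin p × Fin p) = Nat.card (perp B (L.map π)) := by
    refine Nat.card_eq_of_bijective (fun t : L × Fin p × Fin p =>
      (⟨π (t.1 * X ^ (t.2.1 : ℕ) * Z ^ (t.2.2 : ℕ)),
        (hT _).2 fun l hl => (cg _ t.1.2 _ _ l hl).eq⟩ : perp B (L.map π))) ⟨?_, ?_⟩
    · rintro ⟨l, a, b⟩ ⟨l', a', b'⟩ h
      have h1 : π (l * X ^ (a : ℕ) * Z ^ (b : ℕ)) = π (l' * X ^ (a' : ℕ) * Z ^ (b' : ℕ)) :=
        congrArg Subtype.val h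
      have h2 : a = a' := Fin.ext (pow_injOn_Iio_orderOf (x := B (π Z) (π X))
        (by rw [w2]; exact a.2) (by rw [w2]; exact a'.2)
        (by simp only; rw [← eZ l l.2 a b, h1, eZ l' l'.2]))
      have h4 : b = b' := Fin.ext (pow_injOn_Iio_orderOf (x := B (π Z) (π X))
        (by rw [w2]; exact b.2) (by rw [w2]; exact b'.2)
        (by simp only; rw [← eX l l.2 a b, h1, eX l' l'.2]))
      subst h2 h4
      simp only [map_mul, mul_left_inj] at h1
      rw [Subtype.ext (inj l l.2 l' l'.2 h1)]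
    · rintro ⟨t, ht⟩
      obtain ⟨f, rfl⟩ := hπ t
      obtain ⟨l, hl, a, ha, b, hb, h⟩ := main f ((hT f).1 ht)
      exact ⟨⟨⟨l, hl⟩, ⟨a, ha⟩, ⟨b, hb⟩⟩, Subtype.ext h.symm⟩
  rw [← c1, ← c3, ← c4, Nat.card_prod, Nat.card_prod, Nat.card_fin]
  ring

theorem xshsc_comm {V : Type} [AddCommGroup V] [Module K V] {H : Type} [Group H]
    (ρ : Representation K H V) (f g : H) (c : K) (h : ∀ v, ρ f (ρ g v) = c • ρ g (ρ f v))
    (v : V) : ρ ⁅f, g⁆ v = c • v := by
  rw [commutatorElement_def, rho_mul, rho_mul, rho_mul, h, rho_inv', rho_inv']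

theorem xshsc_sq {V : Type} [AddCommGroup V] [Module K V] {H : Type} [Group H]
    (ρ : Representation K H V) (E : Subgroup H) (hE : EH ρ 2 4 E) (f : H) (hf : f ∈ E)
    (h : f ^ 2 ≠ 1) (v : V) : ρ (f ^ 2) v = -v := by
  obtain ⟨c, -, hc⟩ := hE.pp f hf
  obtain ⟨w, hw⟩ := hE.ne
  have h1 : (c * c - 1) • w = 0 := by
    have h2 : ρ (f ^ 2 * f ^ 2) w = w := by
      rw [← pow_add, hE.pw f hf, map_one]
      rfl
    rw [rho_mul, hc, hc, smul_smul] at h2
    rw [sub_smul, h2, one_smul, sub_self]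
  rcases mul_self_eq_one_iff.1 (sub_eq_zero.1 ((smul_eq_zero.1 h1).resolve_right hw)) with h2 | h2
  · refine (h (hE.inj ?_)).elim
    ext u
    rw [hc, h2, one_smul, map_one]
    rfl
  · rw [hc, h2, neg_smul, one_smul]

theorem hs_grp {V : Type} [AddCommGroup V] [Module K V] [Module.Finite K V]
    {H : Type} [Group H] [Finite H] (ρ : Representation K H V) (p q : ℕ) (ν : K) (hpq : PQ p q ν) (E : Subgroup H) (hE : EH ρ p q E) (hne : (scal ρ).relIndex E ≠ 1) :
    ∃ (L : Subgroup H) (X Z : H), L ≤ E ∧ X ∈ E ∧ Z ∈ E ∧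
      (∀ l ∈ L, ∀ l' ∈ L, l * l' = l' * l) ∧ (∀ l ∈ L, l * X = X * l) ∧
      (∀ l ∈ L, l * Z = Z * l) ∧ (∀ l ∈ L, l ∈ scal ρ → l = 1) ∧
      (∀ v, ρ Z (ρ X v) = ν • ρ X (ρ Z v)) ∧
      (∀ f ∈ E, (∀ l ∈ L, f * l = l * f) → ∃ (c : K) (l : H) (a b : ℕ),
        l ∈ L ∧ a < p ∧ b < p ∧ ∀ v, ρ f v = c • ρ (l * X ^ a * Z ^ b) v) ∧
      (scal ρ).relIndex E = p ^ 2 * Nat.card L ^ 2 := by
  obtain ⟨U, C, _, _, _, _, _, π, ζ, B, h1, h2, h3, -, h5, h6, h7, -⟩ :=
    pd_pair _ E (eh_pd ρ p q E hE)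
  rw [Subgroup.inf_relIndex_left] at h7
  have hk : ∀ x : E, π x = 1 ↔ (x : H) ∈ scal ρ := fun x =>
    (h2 x).trans ⟨fun h => h.2, fun h => ⟨x.2, h⟩⟩
  have hp : p.Prime := by
    rcases hpq with ⟨rfl, -⟩ | ⟨rfl, -⟩ <;> norm_num
  have hc : ∀ x y : E, B (π x) (π y) = 1 ↔ x * y = y * x := fun x y => by
    rw [← h3.eq_iff, h6, map_one, commutatorElement_eq_one_iff_mul_comm, Subtype.ext_iff]
    rfl
  obtain ⟨L, l1, l2, ⟨X₀, Z, l3, l4, l5⟩, l6⟩ := xshsc_abs π h1 B h5 p hp hc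
    (fun u => by
      obtain ⟨x, rfl⟩ := h1 u
      rw [← map_pow, hk]
      exact hE.pp x x.2)
    (fun x y hxy => by
      rcases hpq with ⟨rfl, rfl, -⟩ | ⟨rfl, rfl, -⟩
      · by_cases hx : x ^ 2 = 1
        · exact Or.inl hx
        by_cases hy : y ^ 2 = 1
        · exact Or.inr (Or.inl hy)
        refine Or.inr (Or.inr (Subtype.ext (hE.inj ?_)))
        ext v
        rw [Commute.mul_pow hxy, Subgroup.coe_mul, rho_mul, Subgroup.coe_pow, Subgroup.coe_pow,
          xshsc_sq ρ E hE x x.2 fun h => hx (Subtype.ext h),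
          xshsc_sq ρ E hE y y.2 fun h => hy (Subtype.ext h), neg_neg, Subgroup.coe_one, map_one]
        rfl
      · exact Or.inl (Subtype.ext (hE.pw x x.2)))
    (h7 ▸ hne)
  have hν : ν ≠ 1 := by
    rcases hpq with ⟨-, -, rfl⟩ | ⟨-, -, rfl⟩ <;> decide
  obtain ⟨X, x1, x2⟩ : ∃ X : E, (∀ l ∈ L, l * X = X * l) ∧
      ∀ v, ρ Z (ρ X v) = ν • ρ X (ρ Z v) := by
    obtain ⟨k, hk1, hk2⟩ := eh_rel ρ p q ν hpq E hE Z X₀ Z.2 X₀.2
    have hk0 : k ≠ 0 := by
      rintro rfl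
      refine l5 (Subtype.ext (hE.inj ?_))
      ext v
      rw [Subgroup.coe_mul, Subgroup.coe_mul, rho_mul, rho_mul, hk2, pow_zero, one_smul]
    by_cases hk3 : k = 1
    · subst hk3
      exact ⟨X₀, l3, fun v => by rw [hk2, pow_one]⟩
    rcases hpq with ⟨rfl, -⟩ | ⟨rfl, -, rfl⟩
    · omega
    obtain rfl : k = 2 := by omega
    refine ⟨X₀ * X₀, fun l hl => (Commute.mul_right (l3 l hl) (l3 l hl)).eq, fun v => ?_⟩
    rw [Subgroup.coe_mul, rho_mul, rho_mul, hk2, hk2, map_smul, smul_smul,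
      show (3 : K) ^ 2 * 3 ^ 2 = 3 by decide]
  have x3 := xshsc_comm ρ Z X ν x2
  obtain ⟨m1, m2⟩ := l6 X Z x1 l4 (fun h => by
      obtain ⟨w, hw⟩ := hE.ne
      have h8 := x3 w
      rw [commutatorElement_eq_one_iff_mul_comm.2 (congrArg Subtype.val h), map_one] at h8
      have h9 : (ν - 1) • w = 0 := by
        rw [sub_smul, ← h8, one_smul]
        exact sub_self w
      exact hν (sub_eq_zero.1 ((smul_eq_zero.1 h9).resolve_right hw)))
    (fun f g => by
      obtain ⟨k, hk1, hk2⟩ := eh_rel ρ p q ν hpq E hE f g f.2 g.2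
      refine ⟨k, hk1, h3 (hE.inj ?_)⟩
      ext v
      rw [map_pow, h6, h6, xshsc_comm ρ f g _ hk2, rho_pow_eig ρ _ v ν (x3 v)])
  refine ⟨L.map E.subtype, X, Z, Subgroup.map_subtype_le L, X.2, Z.2, ?_, ?_, ?_, ?_, x2, ?_, ?_⟩
  · rintro _ ⟨l, hl, rfl⟩ _ ⟨l', hl', rfl⟩
    exact congrArg Subtype.val (l1 l hl l' hl')
  · rintro _ ⟨l, hl, rfl⟩
    exact congrArg Subtype.val (x1 l hl)
  · rintro _ ⟨l, hl, rfl⟩
    exact congrArg Subtype.val (l4 l hl)
  · rintro _ ⟨l, hl, rfl⟩ h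
    exact congrArg Subtype.val (l2 l hl ((hk l).2 h))
  · intro f hf h
    obtain ⟨l, hl, a, ha, b, hb, h8⟩ := m1 ⟨f, hf⟩ fun l hl =>
      Subtype.ext (h l ⟨l, hl, rfl⟩).symm
    rw [← mul_inv_eq_one, ← map_inv, ← map_mul, hk] at h8
    obtain ⟨c, -, hc'⟩ := h8
    refine ⟨c, l, a, b, ⟨l, hl, rfl⟩, ha, hb, fun v => ?_⟩
    rw [← hc', ← rho_mul]
    congr 2
    push_cast
    group
  · rw [← h7, m2, Subgroup.card_map_of_injective E.subtype_injective]

end Pool.Agent.N9181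

end

section

namespace Pool.Agent.N9181

open scoped commutatorElement

theorem xsbts_key (M : ℕ) (x y : RM M) (h : red M x = red M y) :
    x ^ (13 ^ M) = y ^ (13 ^ M) := by
  obtain ⟨z, hz⟩ := xbtbasic_ker M (x - y) (by rw [map_sub, h, sub_self])
  have h1 := dvd_sub_pow_of_dvd_sub (R := RM M) (p := 13) (a := x) (b := y)
    ⟨z, by rw [hz]; norm_num⟩ M
  have hz0 : (((13 : ℕ) : RM M) ^ (M + 1)) = 0 := by
    have := ZMod.natCast_self (13 ^ (M + 1))
    exact_mod_cast this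
  rw [hz0, zero_dvd_iff] at h1
  exact sub_eq_zero.1 h1

theorem xsbts_eq {V : Type} [AddCommGroup V] [Module K V] [Module.Finite K V]
    (a : Module.End K V) (M : ℕ) (x : RM M) (hx : IsBt a M x) : bt a M = x :=
  isBt_unique _ M _ _ (Classical.epsilon_spec ⟨_, hx⟩) hx

theorem xsbts_gen {V : Type} [AddCommGroup V] [Module K V] [Module.Finite K V]
    (a : Module.End K V) (M : ℕ) {ι : Type} [Fintype ι] [DecidableEq ι] (b : Module.Basis ι K V)
    (A : Matrix ι ι (RM M)) (N : ℕ) (hN : ¬ 13 ∣ N) (hA : A ^ N = 1)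
    (hm : A.map (red M) = LinearMap.toMatrix b b a) : bt a M = A.trace := by
  let e := Fintype.equivFin ι
  refine xsbts_eq a M _ ⟨_, b.reindex e, Matrix.reindexAlgEquiv (RM M) (RM M) e A, N, hN, ?_, ?_,
    ?_⟩
  · rw [← map_pow, hA, map_one]
  · ext i j
    have := congrFun (congrFun hm (e.symm i)) (e.symm j)
    rw [LinearMap.toMatrix_apply, Matrix.map_apply] at this
    rw [LinearMap.toMatrix_apply, Module.Basis.reindex_apply, Module.Basis.repr_reindex_apply,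
      ← this]
    rfl
  · exact Equiv.sum_comp e.symm (fun i => A i i)

theorem xsbts_pow {V : Type} [AddCommGroup V] [Module K V] (a : Module.End K V) (n : ℕ)
    (ha : a ^ n = 1) (U : Submodule K V) (s : Module.End K U) (hs : Rs U a s) : s ^ n = 1 := by
  have h : ∀ (k : ℕ) (w : U), ((s ^ k) w : V) = (a ^ k) w := by
    intro k
    induction k with
    | zero => intro w; rfl
    | succ k ih => intro w; rw [pow_succ, pow_succ, Module.End.mul_apply, ih, hs w]; rfl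
  ext w
  rw [h, ha]
  rfl

theorem bt_smul (M : ℕ) : ∃ tc : K → RM M, (∀ c, red M (tc c) = c) ∧ tc 1 = 1 ∧
    (∀ c c', tc (c * c') = tc c * tc c') ∧
    ∀ (V : Type) [AddCommGroup V] [Module K V] [Module.Finite K V] (a : Module.End K V) (n : ℕ),
      ¬ 13 ∣ n → a ^ n = 1 → ∀ c : K, c ≠ 0 → bt (c • a) M = tc c * bt a M := by
  choose l hl using red_surj M
  have h1 : ∀ c, red M (l c ^ (13 ^ M)) = c := fun c => by
    rw [map_pow, hl, ZMod.pow_card_pow]
  refine ⟨fun c => l c ^ (13 ^ M), h1, ?_, fun c c' => ?_, ?_⟩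
  · beta_reduce
    rw [xsbts_key M (l 1) 1 (by rw [hl, map_one]), one_pow]
  · beta_reduce
    rw [xsbts_key M (l (c * c')) (l c * l c') (by rw [map_mul, hl, hl, hl]), mul_pow]
  · intro V _ _ _ a n hn ha c hc
    obtain ⟨d, b, A, N, hN, hA, hm, ht⟩ := isBt_bt a n hn ha M
    have h12 : (l c ^ (13 ^ M)) ^ 12 = 1 := by
      rw [← pow_mul, mul_comm, pow_mul, xsbts_key M (l c ^ 12) 1 (by
        rw [map_pow, hl, map_one]
        exact ZMod.pow_card_sub_one_eq_one hc), one_pow]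
    refine xsbts_eq _ M _ ⟨d, b, (l c ^ (13 ^ M)) • A, 12 * N, ?_, ?_, ?_, ?_⟩
    · intro h
      rcases (Nat.Prime.dvd_mul fact13.out).1 h with h | h
      · exact absurd h (by norm_num)
      · exact hN h
    · rw [smul_pow, pow_mul, h12, one_pow, one_smul, mul_comm, pow_mul, hA, one_pow]
    · rw [map_smul, ← hm]
      ext i j
      rw [Matrix.map_apply, Matrix.smul_apply, Matrix.smul_apply, Matrix.map_apply, smul_eq_mul,
        smul_eq_mul, map_mul, h1]
    · rw [Matrix.trace_smul, ht, smul_eq_mul]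

theorem bt_add {V : Type} [AddCommGroup V] [Module K V] [Module.Finite K V] (a : Module.End K V) (n : ℕ) (hn : ¬ 13 ∣ n) (ha : a ^ n = 1)
    (U U' : Submodule K V) (hc : IsCompl U U') (s : Module.End K U) (s' : Module.End K U')
    (hs : Rs U a s) (hs' : Rs U' a s') (M : ℕ) : bt a M = bt s M + bt s' M := by
  obtain ⟨d, b, A, N, hN, hA, hm, ht⟩ := isBt_bt s n hn (xsbts_pow a n ha U s hs) M
  obtain ⟨d', b', A', N', hN', hA', hm', ht'⟩ := isBt_bt s' n hn (xsbts_pow a n ha U' s' hs') M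
  have e1 : bt (s.prodMap s') M = bt a M := by
    refine bt_conj (Submodule.prodEquivOfIsCompl U U' hc) _ _ (fun v => ?_) M
    rw [Submodule.coe_prodEquivOfIsCompl', Submodule.coe_prodEquivOfIsCompl', map_add, ← hs v.1,
      ← hs' v.2]
    rfl
  rw [← e1, xsbts_gen (s.prodMap s') M (b.prod b') (Matrix.fromBlocks A 0 0 A') (N * N') ?_ ?_ ?_,
    ← ht, ← ht']
  · simp [Matrix.trace, Fintype.sum_sum_type]
  · intro h
    rcases (Nat.Prime.dvd_mul fact13.out).1 h with h | h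
    · exact hN h
    · exact hN' h
  · rw [Matrix.fromBlocks_diagonal_pow, pow_mul, hA, mul_comm, pow_mul, hA', one_pow, one_pow,
      Matrix.fromBlocks_one]
  · rw [LinearMap.toMatrix_prodMap, Matrix.fromBlocks_map, hm, hm', Matrix.map_zero _ (map_zero _),
      Matrix.map_zero _ (map_zero _)]

theorem bt_one {V : Type} [AddCommGroup V] [Module K V] [Module.Finite K V] (M : ℕ) : bt (1 : Module.End K V) M = (Module.finrank K V : RM M) := by
  rw [xsbts_gen 1 M (Module.finBasis K V) 1 1 (by norm_num) (one_pow _) ?_, Matrix.trace_one,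
    Fintype.card_fin]
  rw [LinearMap.toMatrix_one, Matrix.map_one _ (map_zero _) (map_one _)]

end Pool.Agent.N9181

end

section

namespace Pool.Agent.N9181

open scoped commutatorElement

section

variable {V : Type} [AddCommGroup V] [Module K V] [Module.Finite K V] {H : Type} [Group H]
  [Finite H]

theorem xshsb_ne (ρ : Representation K H V) (f : H) {v : V} (hv : v ≠ 0) : ρ f v ≠ 0 := by
  intro h
  have := rho_inv ρ f v
  rw [h, map_zero] at this
  exact hv this.symm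

theorem xshsb_root (ρ : Representation K H V) {h : H} {v : V} {c : K} {n : ℕ} (hn : h ^ n = 1)
    (hv : v ≠ 0) (hc : ρ h v = c • v) : c ^ n = 1 := by
  have := rho_pow_eig ρ h v c hc n
  rw [hn, map_one, Module.End.one_apply] at this
  exact smul_left_injective K hv (this.symm.trans (one_smul K v).symm)

theorem xshsb_fix (ρ : Representation K H V) (L : Subgroup H) {x : H}
    (hx : ∀ l ∈ L, l * x = x * l) {v : V} (hv : v ∈ fixS ρ L) : ρ x v ∈ fixS ρ L := by
  intro l hl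
  rw [← rho_mul, hx l hl, rho_mul, hv l hl]

theorem xshsb_tr (ρ : Representation K H V) {p q : ℕ} {ν : K} (hpq : PQ p q ν) {E : Subgroup H}
    (hE : EH ρ p q E) {L : Subgroup H} (hle : L ≤ E) (hd : ∀ l ∈ L, l ∈ scal ρ → l = 1)
    (hc : ∀ l ∈ L, ∀ l' ∈ L, l * l' = l' * l) (hp : ∀ l ∈ L, l ^ p = 1) (v : V)
    (hv : ∀ l ∈ L, ∃ c : K, ρ l v = c • v) : ∃ f ∈ E, ρ f v ∈ fixS ρ L := by
  by_cases h0 : v = 0
  · exact ⟨1, E.one_mem, by rw [h0, map_zero]; exact Submodule.zero_mem _⟩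
  choose! χ hχ using hv
  have hp0 : p ≠ 0 := by rcases hpq with h | h <;> omega
  have h1 : ∀ l ∈ L, χ l ^ p = 1 := fun l hl => xshsb_root ρ (hp l hl) h0 (hχ l hl)
  obtain ⟨f, hf, h⟩ := hs_char ρ p q ν hpq E hE L hle hd (fun l => (χ l)⁻¹)
    (fun l hl => by rw [inv_pow, h1 l hl, inv_one])
    (fun l hl l' hl' => by
      rw [← mul_inv]
      refine congrArg _ (smul_left_injective K h0 ?_)
      show χ (l * l') • v = (χ l * χ l') • v
      rw [← hχ _ (L.mul_mem hl hl'), rho_mul, hχ l' hl', map_smul, hχ l hl, smul_smul, mul_comm])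
    hc
  refine ⟨f, hf, fun l hl => ?_⟩
  have h2 : χ l ≠ 0 := fun e => by
    have := h1 l hl
    rw [e, zero_pow hp0] at this
    exact zero_ne_one this
  rw [h l hl, hχ l hl, map_smul, smul_smul, inv_mul_cancel₀ h2, one_smul]

theorem xshsb_bt (ρ : Representation K H V) {p q : ℕ} {ν : K} (hpq : PQ p q ν) {E : Subgroup H}
    (hE : EH ρ p q E) {l : H} (hl : l ∈ E) (hs : l ∉ scal ρ) (hp : l ^ p = 1) (M : ℕ) :
    bt (ρ l) M = 0 := by
  obtain ⟨y, hy, hne⟩ : ∃ y ∈ E, l * y ≠ y * l := by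
    by_contra h
    push Not at h
    exact hs ((eh_pd ρ p q E hE).nd l hl h).2
  obtain ⟨k, -, hk⟩ := eh_rel ρ p q ν hpq E hE l y hl hy
  obtain ⟨tc, h1, -, -, h2⟩ := bt_smul M
  have hν : ν ≠ 0 := by rcases hpq with ⟨-, -, rfl⟩ | ⟨-, -, rfl⟩ <;> decide
  have h13 : ¬ 13 ∣ p := by rcases hpq with h | h <;> omega
  have e1 : ρ (y⁻¹ * l * y⁻¹⁻¹) = ν ^ k • ρ l := by
    ext v
    rw [inv_inv, rho_mul, rho_mul, hk, map_smul, rho_inv, LinearMap.smul_apply]
  have e2 := bt_isConj ρ l _ (isConj_iff.2 ⟨y⁻¹, rfl⟩) M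
  rw [e1, h2 V (ρ l) p h13 (by rw [← map_pow, hp, map_one]) _ (pow_ne_zero k hν)] at e2
  have e3 : IsUnit (tc (ν ^ k) - 1) := red_unit M _ (by
    rw [map_sub, map_one, h1, sub_ne_zero]
    intro e
    refine hne (hE.inj (LinearMap.ext fun v => ?_))
    rw [rho_mul, rho_mul, hk, e, one_smul])
  exact e3.mul_right_eq_zero.1 (by rw [sub_mul, ← e2, one_mul, sub_self])

theorem xshsb_dim (ρ : Representation K H V) {p q : ℕ} {ν : K} (hpq : PQ p q ν) {E : Subgroup H}
    (hE : EH ρ p q E) {L : Subgroup H} (hle : L ≤ E) (hd : ∀ l ∈ L, l ∈ scal ρ → l = 1)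
    (hp : ∀ l ∈ L, l ^ p = 1) :
    Module.finrank K V = Nat.card L * Module.finrank K (fixS ρ L) := by
  have h13 : ¬ 13 ∣ Nat.card L := by
    intro h
    obtain ⟨x, hx⟩ := exists_prime_orderOf_dvd_card' 13 h
    have : 13 ∣ p := hx ▸ orderOf_dvd_of_pow_eq_one (Subtype.ext (hp x x.2))
    rcases hpq with h | h <;> omega
  refine eq_of_cast _ _ fun M => ?_
  have hi : ∀ v ∈ fixS ρ L, (ρ.comp L.subtype) 1 v ∈ fixS ρ L := fun v hv => by
    rw [map_one]
    exact hv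
  have h := bt_TL h13 (ρ.comp L.subtype) ⊤ 1 (Subgroup.one_mem _) (fixS ρ L)
    (fun v => ⟨fun hv y _ => hv y y.2, fun hv y hy => hv ⟨y, hy⟩ (Subgroup.mem_top _)⟩) hi M
  have e : ((ρ.comp L.subtype) 1).restrict hi = 1 := by
    ext v
    simp
  rw [e, bt_one, Subgroup.card_top, finsum_eq_single _ (1 : (⊤ : Subgroup L))] at h
  · rw [Nat.cast_mul, h, ← bt_one]
    simp
  · intro y hy
    rw [one_mul]
    exact xshsb_bt ρ hpq hE (hle y.1.2) (fun hs => hy (Subtype.ext (Subtype.ext (hd _ y.1.2 hs))))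
      (hp _ y.1.2) M

end

theorem hs_rep {V : Type} [AddCommGroup V] [Module K V] [Module.Finite K V]
    {H : Type} [Group H] [Finite H] (ρ : Representation K H V) (p q : ℕ) (ν : K) (hpq : PQ p q ν) (E : Subgroup H) (hE : EH ρ p q E) (hne : (scal ρ).relIndex E ≠ 1) :
    ∃ (ζ : K) (L : Subgroup H) (X Z : H), HS ρ p ν ζ E L X Z ∧ (p = 3 → ζ = 1) := by
  obtain ⟨L, X, Z, hle, mX, mZ, cL, cX, cZ, hd, zx, cen, sz⟩ := hs_grp ρ p q ν hpq E hE hne
  have pL : ∀ l ∈ L, l ^ p = 1 := fun l hl => hd _ (L.pow_mem hl p) (hE.pp l (hle hl))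
  have tr := xshsb_tr ρ hpq hE hle hd cL pL
  have h12 : ∀ f ∈ E, f ^ 12 = 1 := fun f hf => by
    obtain ⟨k, hk⟩ : q ∣ 12 := by rcases hpq with ⟨-, rfl, -⟩ | ⟨-, rfl, -⟩ <;> norm_num
    rw [hk, pow_mul, hE.pw f hf, one_pow]
  obtain ⟨v₀, hv₀⟩ := hE.ne
  obtain ⟨v, -, hv, hv'⟩ := eig_ex ρ L cL (fun l hl => h12 l (hle hl)) ⊤
    ((Submodule.ne_bot_iff _).2 ⟨v₀, Submodule.mem_top, hv₀⟩) fun _ _ _ _ => Submodule.mem_top
  obtain ⟨f, -, hf⟩ := tr v hv'
  obtain ⟨m, hm, hm0, hm'⟩ := eig_ex ρ (Subgroup.zpowers Z)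
    (by
      rintro _ ⟨a, rfl⟩ _ ⟨b, rfl⟩
      exact (Commute.refl Z).zpow_zpow a b)
    (fun b hb => h12 b (Subgroup.zpowers_le.2 mZ hb)) (fixS ρ L)
    ((Submodule.ne_bot_iff _).2 ⟨_, hf, xshsb_ne ρ f hv⟩)
    (by
      rintro _ ⟨a, rfl⟩ u hu
      exact xshsb_fix ρ L (fun l hl => Commute.zpow_right (cZ l hl) a) hu)
  obtain ⟨c, hc⟩ := hm' Z (Subgroup.mem_zpowers Z)
  have step : ∀ (m : V) (c : K), (m ≠ 0 ∧ m ∈ fixS ρ L ∧ ρ Z m = c • m) →
      (ρ X m ≠ 0 ∧ ρ X m ∈ fixS ρ L ∧ ρ Z (ρ X m) = (ν * c) • ρ X m) := fun m c h =>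
    ⟨xshsb_ne ρ X h.1, xshsb_fix ρ L cX h.2.1, by rw [zx, h.2.2, map_smul, smul_smul]⟩
  obtain ⟨ζ, ex, hζ⟩ : ∃ ζ : K, (∃ m, m ≠ 0 ∧ m ∈ fixS ρ L ∧ ρ Z m = ζ • m) ∧
      (p = 3 → ζ = 1) := by
    rcases hpq with ⟨rfl, -, -⟩ | ⟨-, rfl, rfl⟩
    · exact ⟨c, ⟨m, hm0, hm, hc⟩, fun h => absurd h (by norm_num)⟩
    · have h3 : c = 1 ∨ 3 * c = 1 ∨ 3 * (3 * c) = 1 := by
        have := xshsb_root ρ (hE.pw Z mZ) hm0 hc
        revert this
        generalize c = c
        revert c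
        decide
      rcases h3 with h | h | h
      · exact ⟨_, ⟨m, hm0, hm, hc⟩, fun _ => h⟩
      · exact ⟨_, ⟨_, step m c ⟨hm0, hm, hc⟩⟩, fun _ => h⟩
      · exact ⟨_, ⟨_, step _ _ (step m c ⟨hm0, hm, hc⟩)⟩, fun _ => h⟩
  exact ⟨ζ, L, X, Z, ⟨hle, mX, mZ, cL, cX, cZ, pL, zx, cen, tr, ex, sz,
    xshsb_dim ρ hpq hE hle hd pL⟩, hζ⟩

end Pool.Agent.N9181

end

section

namespace Pool.Agent.N9181

open scoped commutatorElement

theorem xshsqi_sq (d j : ℕ) (hd : d ∣ 12) (hj : j.Coprime d) : j * j ≡ 1 [MOD d] := by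
  have key : ∀ d ∈ Finset.range 13, ∀ r ∈ Finset.range 12, d ∣ 12 → r.Coprime d →
      r * r % d = 1 % d := by decide
  have h1 : j % 12 ≡ j [MOD d] := (Nat.mod_modEq j 12).of_dvd hd
  have h2 : (j % 12).Coprime d := by
    rw [Nat.Coprime, h1.gcd_eq]
    exact hj
  have h3 := key d (Finset.mem_range.2 (Nat.lt_succ_of_le (Nat.le_of_dvd (by norm_num) hd)))
    (j % 12) (Finset.mem_range.2 (Nat.mod_lt _ (by norm_num))) hd h2
  exact (h1.mul h1).symm.trans h3

theorem xshsqi_card : Nat.card Kˣ = 12 := by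
  rw [Nat.card_eq_fintype_card, ZMod.card_units 13]

/-- the representation twisted by scalars -/
def xshsqiTw {V : Type} [AddCommGroup V] [Module K V] {H : Type} [Group H]
    (ρ : Representation K H V) : Representation K (H × Kˣ) V where
  toFun x := (x.2 : K) • ρ x.1
  map_one' := by simp
  map_mul' x y := by
    simp only [Prod.snd_mul, Prod.fst_mul, Units.val_mul, map_mul, smul_mul_smul_comm]

theorem xshsqiTw_apply {V : Type} [AddCommGroup V] [Module K V] {H : Type} [Group H]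
    (ρ : Representation K H V) (x : H × Kˣ) : xshsqiTw ρ x = (x.2 : K) • ρ x.1 := rfl

theorem hsq_tw {V : Type} [AddCommGroup V] [Module K V] [Module.Finite K V]
    {H : Type} [Group H] [Finite H] (ρ : Representation K H V) (h13 : ¬ 13 ∣ Nat.card H) (N : ℕ) (hd : Nat.card H ∣ N)
    (hS : HSq ρ N) (P : Subgroup H) (χ : H → K) (U : Submodule K V)
    (hU : ∀ v, v ∈ U ↔ ∀ y ∈ P, ρ y v = χ y • v) (h : H) (hh : h ∈ Subgroup.normalizer (P : Set H)) (j : ℕ)
    (hj : j.Coprime N) (s s' : Module.End K U) (hs : Rs U (ρ h) s)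
    (hs' : Rs U (ρ (h ^ (j * j))) s') (M : ℕ) : bt s' M = bt s M := by
  by_cases hb : U = ⊥
  · subst hb
    have e : s' = s := LinearMap.ext fun w => Subsingleton.elim _ _
    rw [e]
  obtain ⟨u, hu, hu0⟩ := (Submodule.ne_bot_iff U).1 hb
  obtain ⟨tc, -, -, -, htc⟩ := bt_smul M
  have h13' : ¬ 13 ∣ Nat.card (H × Kˣ) := by
    rw [Nat.card_prod, xshsqi_card]
    intro e
    rcases (Nat.Prime.dvd_mul fact13.out).1 e with e | e
    · exact h13 e
    · omega
  let P' : Subgroup (H × Kˣ) := P.comap (MonoidHom.fst H Kˣ) ⊓ stabU (xshsqiTw ρ) U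
  have hP' : ∀ x : H × Kˣ, x ∈ P' ↔ x.1 ∈ P ∧ ∀ w ∈ U, (x.2 : K) • ρ x.1 w = w := fun x => Iff.rfl
  have hfix : IsFix (xshsqiTw ρ) P' U := fun v => by
    refine ⟨fun hv x hx => ((hP' x).1 hx).2 v hv, fun hv => (hU v).2 fun y hy => ?_⟩
    have hc : χ y ≠ 0 := fun e => hu0 (by
      have h1 := (hU u).1 hu y hy
      rw [e, zero_smul] at h1
      rw [← rho_inv ρ y u, h1, map_zero])
    have h2 : ((y, (Units.mk0 (χ y) hc)⁻¹) : H × Kˣ) ∈ P' := (hP' _).2 ⟨hy, fun w hw => by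
      show (((Units.mk0 (χ y) hc)⁻¹ : Kˣ) : K) • ρ y w = w
      rw [(hU w).1 hw y hy, smul_smul, Units.val_inv_eq_inv_val, Units.val_mk0,
        inv_mul_cancel₀ hc, one_smul]⟩
    have h3 : (((Units.mk0 (χ y) hc)⁻¹ : Kˣ) : K) • ρ y v = v := hv _ h2
    rw [Units.val_inv_eq_inv_val, Units.val_mk0, inv_smul_eq_iff₀ hc] at h3
    exact h3
  have hhU : ∀ w ∈ U, ρ h w ∈ U := fun w hw => hs ⟨w, hw⟩ ▸ (s ⟨w, hw⟩).2
  have hn : ((h, 1) : H × Kˣ) ∈ Subgroup.normalizer (P' : Set (H × Kˣ)) := by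
    rw [← inv_mem_iff]
    refine Subgroup.mem_normalizer_fintype fun x hx => ?_
    obtain ⟨hx1, hx2⟩ := (hP' x).1 hx
    refine (hP' _).2 ⟨?_, fun w hw => ?_⟩
    · simpa using (Subgroup.mem_normalizer_iff''.1 hh x.1).1 hx1
    · have h1 := hx2 _ (hhU w hw)
      simp only [Prod.inv_mk, Prod.snd_mul, Prod.fst_mul, inv_inv, inv_one, one_mul, mul_one]
      rw [rho_mul, rho_mul, ← map_smul, h1, rho_inv]
  have hq2 : ∀ x ∈ P', x.2 ^ Nat.card H = 1 := fun x hx => by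
    have h1 := ((hP' _).1 (pow_mem hx (Nat.card H))).2 u hu
    rw [Prod.pow_fst, Prod.pow_snd, pow_card_eq_one', map_one, Module.End.one_apply] at h1
    have h2 : (((x.2 ^ Nat.card H : Kˣ) : K) - 1) • u = 0 := by rw [sub_smul, h1, one_smul, sub_self]
    exact Units.ext (sub_eq_zero.1 ((smul_eq_zero.1 h2).resolve_right hu0))
  have hq : ∀ x ∈ P', (((h, 1) : H × Kˣ) * x) ^ Nat.card H = 1 := fun x hx => by
    refine Prod.ext ?_ ?_
    · rw [Prod.pow_fst]
      exact pow_card_eq_one'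
    · rw [Prod.pow_snd, Prod.snd_mul, one_mul]
      exact hq2 x hx
  have := Fintype.ofFinite P'
  have hjj : (j * j).Coprime (Nat.card H) := ((hj.mul_left hj).coprime_dvd_right hd)
  refine (xbtuse_unit M fun e => h13' (e.trans (Subgroup.card_subgroup_dvd_card P'))).mul_left_cancel ?_
  rw [xbtuse_TL h13' (xshsqiTw ρ) hn hfix s (fun w => by
      rw [hs w, xshsqiTw_apply]; simp) M,
    xbtuse_pow h13' (xshsqiTw ρ) hn hfix (j * j) s' (fun w => by
      rw [hs' w, xshsqiTw_apply]; simp) hq hjj Nat.card_pos.ne' M]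
  refine Finset.sum_congr rfl fun x _ => ?_
  have h1 : ∀ y : H, (ρ y) ^ Nat.card H = 1 := fun y => by
    rw [← map_pow, pow_card_eq_one', map_one]
  have h2 : x.1.2 ^ (j * j) = x.1.2 := by
    have d1 : orderOf x.1.2 ∣ 12 := xshsqi_card ▸ orderOf_dvd_natCard _
    have d2 : orderOf x.1.2 ∣ Nat.card H := orderOf_dvd_of_pow_eq_one (hq2 _ x.2)
    have d3 := xshsqi_sq _ j d1 (hj.coprime_dvd_right (d2.trans hd))
    conv_rhs => rw [← pow_one x.1.2]
    exact pow_eq_pow_iff_modEq.2 d3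
  rw [xshsqiTw_apply, xshsqiTw_apply, htc V _ _ h13 (h1 _) _ (Units.ne_zero _),
    htc V _ _ h13 (h1 _) _ (Units.ne_zero _), Prod.pow_fst, Prod.pow_snd, Prod.snd_mul, one_mul, h2,
    hS _ j hj M]

theorem hsq_top {V : Type} [AddCommGroup V] [Module K V] [Module.Finite K V]
    {H : Type} [Group H] [Finite H] (ρ : Representation K H V) (N : ℕ) (hS : HSq ρ N) : HSqOn ρ N ⊤ := by
  intro h j hj s s' hs hs' M
  rw [bt_conj Submodule.topEquiv s' (ρ (h ^ (j * j))) (fun v => hs' v) M,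
    bt_conj Submodule.topEquiv s (ρ h) (fun v => hs v) M, hS h j hj M]

theorem hsq_map {V : Type} [AddCommGroup V] [Module K V] [Module.Finite K V]
    {H : Type} [Group H] [Finite H] (ρ : Representation K H V) (N : ℕ) (U : Submodule K V) (hU : HSqOn ρ N U) (g : H) :
    HSqOn ρ N (U.map (ρ g)) := by
  intro h j hj s s' hs hs' M
  have hinj : Function.Injective (ρ g) := Function.LeftInverse.injective (rho_inv ρ g)
  let e : U ≃ₗ[K] U.map (ρ g) := Submodule.equivMapOfInjective (ρ g) hinj U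
  have he : ∀ w : U, (e w : V) = ρ g w := fun _ => rfl
  have key : ∀ (x : H) (t : Module.End K (U.map (ρ g))), Rs (U.map (ρ g)) (ρ x) t →
      Rs U (ρ (g⁻¹ * x * g)) (e.symm.conj t) ∧ bt (e.symm.conj t) M = bt t M := fun x t ht => by
    have h1 : ∀ w : U, e (e.symm.conj t w) = t (e w) := fun w => by
      simp [LinearEquiv.conj_apply]
    refine ⟨fun w => hinj ?_, bt_conj e _ _ h1 M⟩
    rw [← he, h1, ht, he, rho_mul, rho_mul, rho_inv']
  obtain ⟨a1, a2⟩ := key h s hs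
  obtain ⟨b1, b2⟩ := key _ s' hs'
  rw [← a2, ← b2]
  refine hU (g⁻¹ * h * g) j hj _ _ a1 ?_ M
  have e2 : (g⁻¹ * h * g) ^ (j * j) = g⁻¹ * h ^ (j * j) * g := by
    have := conj_pow (a := g⁻¹) (b := h) (i := j * j)
    rwa [inv_inv] at this
  rwa [e2]

theorem ker_of_sq {V : Type} [AddCommGroup V] [Module K V] [Module.Finite K V]
    {H : Type} [Group H] [Finite H] (ρ : Representation K H V) (h13 : ¬ 13 ∣ Nat.card H) (N : ℕ) (hS : HSq ρ N) (h : H) (j : ℕ)
    (hj : j.Coprime N) (g : Polynomial K) :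
    Module.finrank K (LinearMap.ker (Polynomial.aeval (ρ (h ^ (j * j))) g)) =
      Module.finrank K (LinearMap.ker (Polynomial.aeval (ρ h) g)) := by
  refine eq_of_cast _ _ fun M => ?_
  obtain ⟨c, hc⟩ := bt_ker g (Nat.card H) h13 M
  have h1 : ∀ x : H, (ρ x) ^ Nat.card H = 1 := fun x => by
    rw [← map_pow, pow_card_eq_one', map_one]
  rw [hc V _ (h1 _), hc V _ (h1 _)]
  refine Finset.sum_congr rfl fun k _ => ?_
  rw [← map_pow, ← map_pow, pow_right_comm h (j * j) k, hS (h ^ k) j hj M]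

end Pool.Agent.N9181

end

section

namespace Pool.Agent.N9181

open scoped commutatorElement

theorem xslam_grp {L : Type} [Field L] (r : ℕ) (hr : 0 < r) (P : L → Prop)
    (hP : ∀ x, P x → x ^ r = 1) :
    ∃ G : Subgroup (ZMod r)ˣ, ∀ u, u ∈ G ↔ ∀ x, P x → P (x ^ (u : ZMod r).val) := by
  have : NeZero r := ⟨hr.ne'⟩
  let S : Submonoid (ZMod r)ˣ :=
    { carrier := {u | ∀ x, P x → P (x ^ (u : ZMod r).val)}
      one_mem' := fun x hx => by
        rw [Units.val_one, ZMod.val_one_eq_one_mod, ← pow_eq_pow_mod 1 (hP x hx), pow_one]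
        exact hx
      mul_mem' := fun {u w} hu hw x hx => by
        rw [Units.val_mul, ZMod.val_mul, ← pow_eq_pow_mod _ (hP x hx), pow_mul]
        exact hw _ (hu x hx) }
  refine ⟨{ S with inv_mem' := fun {u} hu => ?_ }, fun u => Iff.rfl⟩
  have h1 : u⁻¹ = u ^ (orderOf u - 1) := by
    rw [inv_eq_iff_mul_eq_one, ← pow_succ', Nat.sub_add_cancel (orderOf_pos u),
      pow_orderOf_eq_one]
  show u⁻¹ ∈ S
  rw [h1]
  exact S.pow_mem hu _

theorem xslam_conj {H : Type} [Group H] [Finite H] (A : Subgroup H) (hA : A.Normal) (a : H)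
    (ha : a ∈ A) (hgen : ∀ x ∈ A, ∃ k : ℕ, a ^ k = x) (r : ℕ) (hr : orderOf a = r) :
    ∃ φ : H →* (ZMod r)ˣ, φ.ker = Subgroup.centralizer (A : Set H) ∧
      ∀ h, h * a * h⁻¹ = a ^ (φ h : ZMod r).val := by
  subst hr
  have : NeZero (orderOf a) := ⟨(orderOf_pos a).ne'⟩
  choose k hk using fun h => hgen (h * a * h⁻¹) (hA.conj_mem a ha h)
  have hf : ∀ h, h * a * h⁻¹ = a ^ ((k h : ℕ) : ZMod (orderOf a)).val := by
    intro h
    rw [ZMod.val_natCast, pow_mod_orderOf, hk]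
  have hinj : ∀ s t : ZMod (orderOf a), a ^ s.val = a ^ t.val → s = t := by
    intro s t hst
    rw [pow_eq_pow_iff_modEq, ← ZMod.natCast_eq_natCast_iff, ZMod.natCast_zmod_val,
      ZMod.natCast_zmod_val] at hst
    exact hst
  have h1 : a ^ (1 : ZMod (orderOf a)).val = a := by
    rw [ZMod.val_one_eq_one_mod, pow_mod_orderOf, pow_one]
  let f : H →* ZMod (orderOf a) :=
    { toFun := fun h => ((k h : ℕ) : ZMod (orderOf a))
      map_one' := by
        apply hinj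
        rw [← hf, h1, one_mul, inv_one, mul_one]
      map_mul' := fun h h' => by
        apply hinj
        rw [← hf, ZMod.val_mul, pow_mod_orderOf, pow_mul, ← hf, conj_pow, ← hf]
        group }
  refine ⟨f.toHomUnits, ?_, fun h => hf h⟩
  ext h
  rw [MonoidHom.mem_ker, Subgroup.mem_centralizer_iff, ← Units.val_inj, Units.val_one]
  show ((k h : ℕ) : ZMod (orderOf a)) = 1 ↔ _
  constructor
  · intro hh x hx
    obtain ⟨n, rfl⟩ := hgen x hx
    have h2 := hf h
    rw [hh, h1, mul_inv_eq_iff_eq_mul] at h2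
    exact ((show Commute h a from h2).pow_right n).symm
  · intro hh
    apply hinj
    rw [← hf, h1, ← hh a ha, mul_inv_cancel_right]

theorem xslam_card {L : Type} [Field L] (r : ℕ) (hr : 0 < r) (z : L) (hz : IsPrimitiveRoot z r)
    (E : Finset L) (G : Subgroup (ZMod r)ˣ) (hG : ∀ u ∈ G, z ^ (u : ZMod r).val ∈ E) :
    Nat.card G ≤ E.card := by
  have : NeZero r := ⟨hr.ne'⟩
  rw [← Nat.card_eq_finsetCard]
  refine Nat.card_le_card_of_injective (fun u : G => (⟨_, hG u u.2⟩ : E)) ?_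
  intro u w h
  have h1 := hz.pow_inj (ZMod.val_lt _) (ZMod.val_lt _) (congrArg Subtype.val h)
  exact Subtype.ext (Units.ext (ZMod.val_injective r h1))

theorem xslam_frob {L : Type} [Field L] [Algebra K L] (p : Polynomial K) (x : L)
    (hx : (p.map (algebraMap K L)).IsRoot x) : (p.map (algebraMap K L)).IsRoot (x ^ 13) := by
  rw [Polynomial.IsRoot.def, Polynomial.eval_map_algebraMap] at hx ⊢
  have h1 := Polynomial.aeval_algHom_apply (FiniteField.frobeniusAlgHom K L) x p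
  rw [hx, map_zero, FiniteField.coe_frobeniusAlgHom, ZMod.card] at h1
  exact h1

theorem lam {V : Type} [AddCommGroup V] [Module K V] [Module.Finite K V]
    {H : Type} [Group H] [Finite H] (ρ : Representation K H V) (N : ℕ) (A F : Subgroup H) (hG : GB ρ N A F) (e : ℕ) (he : A.relIndex F = e ^ 2) : ∃ g : ℕ, LamD A (Module.finrank K V) e g := by
  classical
  have h13 := hG.cop
  have hP := hG.sd.toPD
  obtain ⟨M, _, _, _, τ, hd, hk, h1, hc⟩ := exists_bc ρ (AlgebraicClosure K)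
  have hfree := xdim_free ρ A hG.free τ h1
  have hcy := hP.cyc
  obtain ⟨a0, ha0⟩ := IsCyclic.exists_monoid_generator (α := A)
  have hord : orderOf (a0 : H) = Nat.card A := by
    rw [Subgroup.orderOf_coe]
    exact orderOf_eq_card_of_forall_mem_powers ha0
  have hgen : ∀ x ∈ A, ∃ k : ℕ, (a0 : H) ^ k = x := by
    intro x hx
    obtain ⟨k, hk⟩ := ha0 ⟨x, hx⟩
    exact ⟨k, congrArg Subtype.val hk⟩
  obtain ⟨a, haA⟩ := a0
  replace hord : orderOf a = Nat.card A := hord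
  replace hgen : ∀ x ∈ A, ∃ k : ℕ, a ^ k = x := hgen
  clear ha0
  unfold LamD
  have hrH : Nat.card A ∣ Nat.card H := Subgroup.card_subgroup_dvd_card A
  have hr0 : 0 < Nat.card A := Nat.card_pos
  generalize Nat.card A = r at hord hrH hr0 ⊢
  have : NeZero r := ⟨hr0.ne'⟩
  have hrN : r ∣ N := hrH.trans hG.dvd
  have hpow : ∀ (y : AlgebraicClosure K) (v : M), τ a v = y • v → ∀ k : ℕ,
      τ (a ^ k) v = y ^ k • v := by
    intro y v hv k
    induction k with
    | zero => simp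
    | succ k ih =>
      rw [pow_succ, map_mul, Module.End.mul_apply, hv, map_smul, ih, smul_smul, pow_succ']
  have hcount := xdim_count (τ a) e (by
    intro y hy
    have hinv : ∀ f ∈ F, ∀ w ∈ Module.End.eigenspace (τ a) y,
        τ f w ∈ Module.End.eigenspace (τ a) y := by
      intro f hf w hw
      rw [Module.End.mem_eigenspace_iff] at hw ⊢
      rw [← Module.End.mul_apply, ← map_mul, hP.cen a haA f hf, map_mul, Module.End.mul_apply,
        hw, map_smul]
    refine Nat.le_of_dvd ?_ (dimK h13 τ A F hP hfree _ hinv e he)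
    rw [Nat.pos_iff_ne_zero]
    intro h0
    rw [Submodule.finrank_eq_zero] at h0
    exact hy h0)
  have hMpos : 0 < Module.finrank (AlgebraicClosure K) M := by
    rw [hd]
    obtain ⟨v, hv⟩ := hG.ne
    exact Module.finrank_pos_iff_exists_ne_zero.2 ⟨v, hv⟩
  have : Nontrivial M := Module.finrank_pos_iff.1 hMpos
  have hprim : ∀ z, Module.End.HasEigenvalue (τ a) z → IsPrimitiveRoot z r := by
    intro z hz
    obtain ⟨v, hv⟩ := hz.exists_hasEigenvector
    have hv0 : v ≠ 0 := hv.2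
    have hv1 : τ a v = z • v := hv.apply_eq_smul
    refine ⟨?_, fun l hl => ?_⟩
    · have h2 := hpow z v hv1 r
      rw [← hord, pow_orderOf_eq_one, map_one, Module.End.one_apply, hord] at h2
      have h3 : (z ^ r - 1) • v = 0 := by rw [sub_smul, one_smul, ← h2, sub_self]
      exact sub_eq_zero.1 ((smul_eq_zero.1 h3).resolve_right hv0)
    · have h2 := hpow z v hv1 l
      rw [hl, one_smul] at h2
      rw [← hord]
      exact orderOf_dvd_of_pow_eq_one (hfree _ (A.pow_mem haA l) v hv0 h2)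
  obtain ⟨G, hGm⟩ := xslam_grp r hr0 (fun x => Module.End.HasEigenvalue (τ a) x)
    fun x hx => (hprim x hx).pow_eq_one
  have hGj : ∀ (u : (ZMod r)ˣ) (j : ℕ), (j : ZMod r) = u →
      (∀ x, Module.End.HasEigenvalue (τ a) x → Module.End.HasEigenvalue (τ a) (x ^ j)) →
      u ∈ G := by
    intro u j hj hx
    rw [hGm]
    intro x hx'
    rw [← hj, ZMod.val_natCast, ← pow_eq_pow_mod j (hprim x hx').pow_eq_one]
    exact hx x hx'
  -- squares
  have hsq : ∀ u : (ZMod r)ˣ, u * u ∈ G := by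
    intro u
    obtain ⟨j, hj, hji⟩ := exists_j r N _ hrN hG.pos (ZMod.val_coe_unit_coprime u)
    have hju : (j : ZMod r) = u := by
      rw [(ZMod.natCast_eq_natCast_iff _ _ _).2 hji, ZMod.natCast_zmod_val]
    refine hGj _ (j * j) (by rw [Nat.cast_mul, hju, Units.val_mul]) ?_
    intro z hz
    obtain ⟨v, hv⟩ := hz.exists_hasEigenvector
    have hv0 : v ≠ 0 := hv.2
    have hv1 : τ a v = z • v := hv.apply_eq_smul
    generalize hx : z ^ (j * j) = x
    have hint : IsIntegral K x := Algebra.IsIntegral.isIntegral x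
    have hirr := minpoly.irreducible hint
    have hpos : 0 < Module.finrank K
        (LinearMap.ker (Polynomial.aeval (ρ (a ^ (j * j))) (minpoly K x))) := by
      rw [← hk]
      refine Module.finrank_pos_iff_exists_ne_zero.2
        ⟨⟨v, ?_⟩, fun h => hv0 (congrArg Subtype.val h)⟩
      have hev : Module.End.HasEigenvector (τ (a ^ (j * j))) x v := by
        refine ⟨?_, hv0⟩
        rw [Module.End.mem_eigenspace_iff, hpow z v hv1 (j * j), hx]
      rw [LinearMap.mem_ker, Module.End.aeval_apply_of_hasEigenvector hev,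
        Polynomial.eval_map_algebraMap, minpoly.aeval, zero_smul]
    rw [ker_of_sq ρ h13 N hG.sq a j hj] at hpos
    obtain ⟨w, hw⟩ := xdim_dvd (ρ a) _ hirr hpos
    rw [Module.End.hasEigenvalue_iff_isRoot_charpoly, hc, hw, Polynomial.IsRoot.def,
      Polynomial.eval_map_algebraMap, map_mul, minpoly.aeval, zero_mul]
  -- the Frobenius
  have hc13 : Nat.Coprime 13 r :=
    (Nat.Prime.coprime_iff_not_dvd (by norm_num)).2 fun h => h13 (h.trans hrH)
  have hfr : ZMod.unitOfCoprime 13 hc13 ∈ G := by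
    refine hGj _ 13 (ZMod.coe_unitOfCoprime 13 hc13).symm ?_
    intro z hz
    rw [Module.End.hasEigenvalue_iff_isRoot_charpoly, hc] at hz ⊢
    exact xslam_frob _ z hz
  -- conjugation
  obtain ⟨φ, hφ1, hφ2⟩ := xslam_conj A hG.sd.nA a haA hgen r hord
  have hran : φ.range ≤ G := by
    rintro _ ⟨h, rfl⟩
    rw [hGm]
    intro z hz
    obtain ⟨v, hv⟩ := hz.exists_hasEigenvector
    have hv0 : v ≠ 0 := hv.2
    have h2 := hpow z v hv.apply_eq_smul (φ h : ZMod r).val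
    rw [← hφ2] at h2
    refine Module.End.hasEigenvalue_of_hasEigenvector (x := τ h⁻¹ v) ⟨?_, fun h0 => hv0 ?_⟩
    · rw [Module.End.mem_eigenspace_iff, ← map_smul, ← h2, ← Module.End.mul_apply,
        ← Module.End.mul_apply, ← map_mul, ← map_mul]
      congr 2
      group
    · have h3 := congrArg (τ h) h0
      rwa [← Module.End.mul_apply, ← map_mul, mul_inv_cancel, map_one, map_zero] at h3
  -- counting
  obtain ⟨z, hz⟩ := Module.End.exists_eigenvalue (τ a)
  have hcard := xslam_card r hr0 z (hprim z hz) (LinearMap.charpoly (τ a)).roots.toFinset G (by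
    intro u hu
    rw [Multiset.mem_toFinset, Polynomial.mem_roots (LinearMap.charpoly_monic _).ne_zero,
      ← Module.End.hasEigenvalue_iff_isRoot_charpoly]
    exact (hGm u).1 hu z hz)
  rw [hd] at hcount
  refine ⟨Nat.card G, Nat.card_pos, (Nat.mul_le_mul_right _ hcard).trans hcount, ?_,
    rbound r hr0 hc13 G hsq hfr⟩
  rw [← hφ1, Subgroup.index_ker]
  exact Subgroup.card_dvd_of_le hran

end Pool.Agent.N9181

end

section

namespace Pool.Agent.N9181

open scoped commutatorElement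

theorem xseiga_inj {V : Type} [AddCommGroup V] [Module K V] {H : Type} [Group H]
    (ρ : Representation K H V) (x : H) : Function.Injective (ρ x) :=
  Function.LeftInverse.injective (rho_inv ρ x)

theorem xseiga_fix {V : Type} [AddCommGroup V] [Module K V] {H : Type} [Group H]
    (ρ : Representation K H V) (h x : H) (c : K) (v : V) (h1 : ρ h v = c • v)
    (h2 : ρ (x * h * x⁻¹) v = c • v) : ρ ⁅x, h⁆ v = v := by
  rcases eq_or_ne c 0 with rfl | hc
  · rw [zero_smul, ← map_zero (ρ h)] at h1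
    rw [xseiga_inj ρ h h1, map_zero]
  · have e : ρ ⁅x, h⁆ (ρ h v) = c • v := by
      rw [← rho_mul, commutatorElement_def, inv_mul_cancel_right, h2]
    rw [h1, map_smul] at e
    exact smul_right_injective V hc e

theorem xseiga_zero {V : Type} [AddCommGroup V] [Module K V] {H : Type} [Group H]
    (ρ : Representation K H V) (A : Subgroup H) (hA : FreeOn ρ A) (g g' : H)
    (ha : g⁻¹ * g' ∈ A) (hn : g ≠ g') (v : V) (hv : ρ g v = ρ g' v) : v = 0 := by
  by_contra h0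
  refine hn (inv_mul_eq_one.1 (hA _ ha v h0 ?_))
  rw [rho_mul, ← hv, rho_inv]

theorem eb_gen {V : Type} [AddCommGroup V] [Module K V] [Module.Finite K V]
    {H : Type} [Group H] [Finite H] (ρ : Representation K H V) (h x : H) (c : K) (U : Submodule K V)
    (hU : ∀ v, ρ h v = c • v → ρ (x * h * x⁻¹) v = c • v → v ∈ U) :
    2 * ed (ρ h) c ≤ Module.finrank K V + Module.finrank K U := by
  have h1 := Submodule.finrank_sup_add_finrank_inf_eq (Module.End.eigenspace (ρ h) c)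
    ((Module.End.eigenspace (ρ h) c).map (ρ x))
  have h2 := (Submodule.equivMapOfInjective (ρ x) (xseiga_inj ρ x)
    (Module.End.eigenspace (ρ h) c)).finrank_eq
  have h3 : Module.End.eigenspace (ρ h) c ⊓ (Module.End.eigenspace (ρ h) c).map (ρ x) ≤ U := by
    rintro v ⟨a1, w, a2, rfl⟩
    refine hU _ (Module.End.mem_eigenspace_iff.1 a1) ?_
    rw [rho_mul, rho_inv, rho_mul, Module.End.mem_eigenspace_iff.1 a2, map_smul]
  have h4 := Submodule.finrank_mono h3
  have h5 := Submodule.finrank_le (Module.End.eigenspace (ρ h) c ⊔ (Module.End.eigenspace (ρ h) c).map (ρ x))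
  unfold ed
  omega

theorem eb_half {V : Type} [AddCommGroup V] [Module K V] [Module.Finite K V]
    {H : Type} [Group H] [Finite H] (ρ : Representation K H V) (A F : Subgroup H) (hS : SD A F) (hA : FreeOn ρ A) (h : H) (hh : h ∉ A) (h2 : h ∉ Subgroup.centralizer (A : Set H) ∨ h ∈ F) (c : K) :
    2 * ed (ρ h) c ≤ Module.finrank K V := by
  have key : ∃ x : H, ⁅x, h⁆ ∈ A ∧ ⁅x, h⁆ ≠ 1 := by
    rcases h2 with h2 | h2
    · rw [Subgroup.mem_centralizer_iff] at h2
      push Not at h2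
      obtain ⟨x, hx, hne⟩ := h2
      refine ⟨x, ?_, fun e => hne (commutatorElement_eq_one_iff_mul_comm.1 e)⟩
      have := A.mul_mem hx (hS.nA.conj_mem _ (A.inv_mem hx) h)
      rwa [commutatorElement_def, mul_assoc, mul_assoc, ← mul_assoc h]
    · by_contra hc
      push Not at hc
      exact hh (hS.nd h h2 fun y hy =>
        (commutatorElement_eq_one_iff_mul_comm.1 (hc y (hS.comm y hy h h2))).symm)
  obtain ⟨x, hx, hne⟩ := key
  have := eb_gen ρ h x c ⊥ fun v a1 a2 => by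
    by_contra h0
    exact hne (hA _ hx v h0 (xseiga_fix ρ h x c v a1 a2))
  simpa using this

theorem tri {V : Type} [AddCommGroup V] [Module K V] [Module.Finite K V]
    {H : Type} [Group H] [Finite H] (ρ : Representation K H V) (A : Subgroup H) (hA : FreeOn ρ A) (s f f1 f2 : H) (e1 : f1 = s * f * s⁻¹)
    (e2 : f2 = s * f1 * s⁻¹) (c1 : Commute f f1) (c2 : Commute f f2) (c3 : Commute f1 f2)
    (a1 : f⁻¹ * f1 ∈ A) (a2 : f⁻¹ * f2 ∈ A) (n1 : f ≠ f1) (n2 : f ≠ f2) (n3 : f1 ≠ f2) (c : K) :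
    3 * ed (ρ s) c ≤ Module.finrank K V := by
  rcases eq_or_ne c 0 with rfl | hc
  · have : Module.End.eigenspace (ρ s) 0 = ⊥ := by
      rw [eq_bot_iff]
      intro v hv
      rw [Module.End.mem_eigenspace_iff, zero_smul, ← map_zero (ρ s)] at hv
      exact xseiga_inj ρ s hv
    rw [ed, this, finrank_bot]
    exact Nat.zero_le _
  set U := Module.End.eigenspace (ρ s) c with hU
  have step : ∀ (g : H) (u0 u1 u2 : U), (u0 : V) + ρ g u1 + ρ g (ρ g u2) = 0 →
      (u0 : V) + ρ (s * g * s⁻¹) u1 + ρ (s * g * s⁻¹) (ρ (s * g * s⁻¹) u2) = 0 := by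
    intro g u0 u1 u2 h0
    have e : ∀ v, ρ s (ρ g v) = ρ (s * g * s⁻¹) (ρ s v) := fun v => by
      rw [rho_mul, rho_inv, rho_mul]
    have h1 := congrArg (ρ s) h0
    rw [map_add, map_add, e, e, e, Module.End.mem_eigenspace_iff.1 u0.2,
      Module.End.mem_eigenspace_iff.1 u1.2, Module.End.mem_eigenspace_iff.1 u2.2, map_smul,
      map_smul, map_smul, ← smul_add, ← smul_add, map_zero] at h1
    exact (smul_eq_zero.1 h1).resolve_left hc
  have red2 : ∀ (g : H) (u0 u1 u2 : V), Commute f g → f⁻¹ * g ∈ A → f ≠ g →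
      u0 + ρ f u1 + ρ f (ρ f u2) = 0 → u0 + ρ g u1 + ρ g (ρ g u2) = 0 →
      u1 + ρ f u2 + ρ g u2 = 0 := by
    intro g u0 u1 u2 hc ha hn h0 h1
    refine xseiga_zero ρ A hA f g ha hn _ ?_
    have e : ρ f (ρ g u2) = ρ g (ρ f u2) := by rw [← rho_mul, hc.eq, rho_mul]
    simp only [map_add, e]
    rw [← sub_eq_zero, ← sub_self (0 : V)]
    nth_rw 1 [← h0]
    rw [← h1]
    abel
  let L : (U × U × U) →ₗ[K] V := U.subtype.coprod
    (((ρ f).comp U.subtype).coprod ((ρ f).comp ((ρ f).comp U.subtype)))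
  have hL : Function.Injective L := by
    rw [injective_iff_map_eq_zero]
    rintro ⟨u0, u1, u2⟩ h0
    have h0' : (u0 : V) + ρ f u1 + ρ f (ρ f u2) = 0 := by rw [add_assoc]; exact h0
    have h1 := step f _ _ _ h0'
    rw [← e1] at h1
    have h2 := step f1 _ _ _ h1
    rw [← e2] at h2
    have h3 := red2 f1 _ _ _ c1 a1 n1 h0' h1
    have h4 := red2 f2 _ _ _ c2 a2 n2 h0' h2
    have a3 : f1⁻¹ * f2 ∈ A := by
      have := A.mul_mem (A.inv_mem a1) a2
      rwa [mul_inv_rev, inv_inv, mul_assoc, mul_inv_cancel_left] at this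
    have z2 : (u2 : V) = 0 :=
      xseiga_zero ρ A hA f1 f2 a3 n3 _ (add_left_cancel (h3.trans h4.symm))
    have z1 : (u1 : V) = 0 := by simpa [z2] using h3
    have z0 : (u0 : V) = 0 := by simpa [z1, z2] using h0'
    exact Prod.ext (Subtype.ext z0) (Prod.ext (Subtype.ext z1) (Subtype.ext z2))
  have := LinearMap.finrank_le_finrank_of_injective hL
  rw [Module.finrank_prod, Module.finrank_prod] at this
  unfold ed
  rw [← hU]
  omega

theorem eb_F3 {V : Type} [AddCommGroup V] [Module K V] [Module.Finite K V]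
    {H : Type} [Group H] [Finite H] (ρ : Representation K H V) (A F : Subgroup H) (hS : SD A F) (hA : FreeOn ρ A) (y : H) (hy : y ∈ F) (hyA : y ∉ A) (n : ℕ) (hn : Odd n)
    (hyn : y ^ n ∈ A) (c : K) : 3 * ed (ρ y) c ≤ Module.finrank K V := by
  obtain ⟨f, hf, hne⟩ : ∃ f ∈ F, y * f ≠ f * y := by
    by_contra hc
    push Not at hc
    exact hyA (hS.nd y hy hc)
  have ha : ⁅y, f⁆ ∈ A := hS.comm y hy f hf
  have h1 : ⁅y, f⁆ ≠ 1 := fun e => hne (commutatorElement_eq_one_iff_mul_comm.1 e)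
  have e1 : y * f = ⁅y, f⁆ * f * y := by rw [commutatorElement_def]; group
  generalize ⁅y, f⁆ = a at ha h1 e1
  have cy : Commute a y := hS.cen a ha y hy
  have cf : Commute a f := hS.cen a ha f hf
  have e2 : ∀ k : ℕ, y ^ k * f = a ^ k * f * y ^ k := by
    intro k
    induction k with
    | zero => simp
    | succ k ih =>
      rw [pow_succ' y, mul_assoc, ih, ← mul_assoc, ← mul_assoc, ← (cy.pow_left k).eq, mul_assoc _ y,
        e1, pow_succ a]
      simp only [mul_assoc]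
  have h2 : a ^ n = 1 := by
    have := e2 n
    rw [hS.cen _ hyn f hf] at this
    exact mul_eq_right.1 (mul_right_cancel this).symm
  have h3 : a * a ≠ 1 := fun e => h1 (by
    obtain ⟨k, rfl⟩ := hn
    rwa [pow_succ, pow_mul, sq, e, one_pow, one_mul] at h2)
  have hm : ∀ b ∈ A, f⁻¹ * (b * f) ∈ A := fun b hb => by
    rwa [hS.cen b hb f hf, inv_mul_cancel_left]
  refine tri ρ A hA y f (a * f) (a * a * f) (by rw [e1, mul_inv_cancel_right]) ?_
    (cf.symm.mul_right (Commute.refl f)) ((cf.symm.mul_right cf.symm).mul_right (Commute.refl f))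
    ?_ (hm _ ha) (hm _ (A.mul_mem ha ha)) (fun e => h1 (mul_eq_right.1 e.symm))
    (fun e => h3 (mul_eq_right.1 e.symm))
    (fun e => h1 (mul_eq_right.1 (mul_right_cancel e).symm)) c
  · rw [← mul_assoc, ← cy.eq, mul_assoc a y, e1]
    group
  · have c1 : Commute (a * f) a := (Commute.refl a).mul_left cf.symm
    exact (c1.mul_right c1).mul_right (cf.mul_left (Commute.refl f))

theorem eb_out3 {V : Type} [AddCommGroup V] [Module K V] [Module.Finite K V]
    {H : Type} [Group H] [Finite H] (ρ : Representation K H V) (A F : Subgroup H) (hS : SD A F) (hA : FreeOn ρ A) (s : H) (hs : s ^ 3 = 1) (hC : s ∉ Subgroup.centralizer (A : Set H)) (c : K) :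
    3 * ed (ρ s) c ≤ Module.finrank K V := by
  rw [Subgroup.mem_centralizer_iff] at hC
  push Not at hC
  obtain ⟨f, hf, hne⟩ := hC
  have hf : f ∈ A := hf
  have h1 := hS.nA.conj_mem f hf s
  have h2 := hS.nA.conj_mem _ h1 s
  have cm : ∀ a ∈ A, ∀ b ∈ A, Commute a b := fun a ha b hb => hS.cen a ha b (hS.le hb)
  have n1 : f ≠ s * f * s⁻¹ := fun e => hne (eq_mul_inv_iff_mul_eq.1 e)
  refine tri ρ A hA s f _ _ rfl rfl (cm _ hf _ h1) (cm _ hf _ h2) (cm _ h1 _ h2)
    (A.mul_mem (A.inv_mem hf) h1) (A.mul_mem (A.inv_mem hf) h2) n1 (fun e => n1 ?_)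
    (fun e => n1 (mul_left_cancel (mul_right_cancel e))) c
  calc f = s ^ 3 * f * (s ^ 3)⁻¹ := by rw [hs]; group
    _ = s * (s * (s * f * s⁻¹) * s⁻¹) * s⁻¹ := by rw [pow_three]; group
    _ = s * f * s⁻¹ := by rw [← e]

theorem eb_23 {V : Type} [AddCommGroup V] [Module K V] [Module.Finite K V]
    {H : Type} [Group H] [Finite H] (ρ : Representation K H V) (A F : Subgroup H) (hS : SD A F) (hA : FreeOn ρ A) (h f : H) (hf : f ∈ F) (hx : ⁅f, h⁆ ∉ A) (n : ℕ) (hn : Odd n)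
    (hxn : ⁅f, h⁆ ^ n ∈ A) (c : K) : 3 * ed (ρ h) c ≤ 2 * Module.finrank K V := by
  have hF : ⁅f, h⁆ ∈ F := by
    have := F.mul_mem hf (hS.nF.conj_mem _ (F.inv_mem hf) h)
    rwa [commutatorElement_def, mul_assoc, mul_assoc, ← mul_assoc h]
  have h1 := eb_F3 ρ A F hS hA _ hF hx n hn hxn 1
  have h2 := eb_gen ρ h f c (Module.End.eigenspace (ρ ⁅f, h⁆) 1) fun v a1 a2 => by
    rw [Module.End.mem_eigenspace_iff, one_smul]
    exact xseiga_fix ρ h f c v a1 a2
  unfold ed at h1 h2 ⊢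
  omega

end Pool.Agent.N9181

end

section

namespace Pool.Agent.N9181

open scoped commutatorElement

theorem xseigb_anti {U Z : Type} [CommGroup U] [CommGroup Z] (B : U →* U →* Z) (hB : Symp B)
    (x y : U) : B y x = (B x y)⁻¹ := by
  have h := hB.1 (x * y)
  rw [map_mul, map_mul, MonoidHom.mul_apply, MonoidHom.mul_apply, hB.1 x, hB.1 y, one_mul,
    mul_one] at h
  exact eq_inv_of_mul_eq_one_left h

theorem xseigb_fix {V : Type} [AddCommGroup V] [Module K V] {H : Type} [Group H]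
    (ρ : Representation K H V) (s x : H) (v : V) (c : K) (h0 : v ≠ 0) (hs : ρ s v = c • v)
    (hx : ρ (x * s) v = c • v) : x ∈ stabV ρ v := by
  have hc : c ≠ 0 := by
    rintro rfl
    apply h0
    have := rho_inv ρ s v
    rw [hs, zero_smul, map_zero] at this
    exact this.symm
  rw [rho_mul, hs, map_smul] at hx
  exact smul_right_injective V hc hx

theorem symp_key {U Z : Type} [CommGroup U] [CommGroup Z] (B : U →* U →* Z) (hB : Symp B)
    (σ : MulAut U) (hσ : σ ∈ Iso B) (h3 : σ ^ 3 = 1) (u : U) (n : ℕ) (hn : ¬ 3 ∣ n)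
    (hu : u ^ n = 1) (hne : σ u ≠ u) : ∃ y : U, B (y * (σ y)⁻¹) (σ (y * (σ y)⁻¹)) ≠ 1 := by
  by_contra hcon
  simp only [not_exists, not_not] at hcon
  have hI : ∀ x y, B (σ x) (σ y) = B x y := hσ
  have h3' : ∀ x, σ (σ (σ x)) = x := fun x => by
    have := DFunLike.congr_fun h3 x
    rwa [pow_succ, pow_two] at this
  have s1 : ∀ y, B y (σ y) ^ 3 = 1 := fun y => by
    have h := hcon y
    have e1 : B y (σ (σ y)) = (B y (σ y))⁻¹ := by
      rw [← hI y (σ (σ y)), h3', xseigb_anti B hB y (σ y)]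
    simp only [map_mul, map_inv, MonoidHom.mul_apply, MonoidHom.inv_apply, hI, e1, hB.1 y,
      inv_inv, inv_one, mul_one, mul_inv] at h
    rw [← h, pow_succ, pow_two, mul_assoc]
  have s2 : ∀ x y, (B x (σ y) * B y (σ x)) ^ 3 = 1 := fun x y => by
    have h := s1 (x * y)
    simp only [map_mul, MonoidHom.mul_apply, mul_pow, s1 x, s1 y, one_mul, mul_one] at h
    rw [mul_pow, mul_comm]
    exact h
  have hw : σ (σ u) * (σ u)⁻¹ = 1 := by
    refine hB.2 _ fun y => ?_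
    have e1 : B (σ (σ u) * (σ u)⁻¹) y = B u (σ y) * B y (σ u) := by
      rw [map_mul, map_inv, MonoidHom.mul_apply, MonoidHom.inv_apply, ← xseigb_anti B hB,
        ← hI u (σ y), ← hI (σ u) (σ (σ y)), h3']
    have e2 : B (σ (σ u) * (σ u)⁻¹) y ^ n = 1 := by
      rw [← MonoidHom.pow_apply, ← map_pow, mul_pow, inv_pow, ← map_pow, ← map_pow, hu,
        map_one, map_one, inv_one, mul_one, map_one, MonoidHom.one_apply]
    have e3 : B (σ (σ u) * (σ u)⁻¹) y ^ 3 = 1 := by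
      rw [e1, s2]
    have hc : Nat.gcd 3 n = 1 := (Nat.Prime.coprime_iff_not_dvd Nat.prime_three).2 hn
    have := pow_gcd_eq_one.2 ⟨e3, e2⟩
    rwa [hc, pow_one] at this
  exact hne (σ.injective (mul_inv_eq_one.1 hw))

theorem eb_3 {V : Type} [AddCommGroup V] [Module K V] [Module.Finite K V]
    {H : Type} [Group H] [Finite H] (ρ : Representation K H V) (A F : Subgroup H) (hS : SD A F) (hA : FreeOn ρ A) (s : H) (hs : s ^ 3 = 1) (hC : s ∈ Subgroup.centralizer (A : Set H)) (f : H) (hf : f ∈ F)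
    (n : ℕ) (hn : ¬ 3 ∣ n) (hfn : f ^ n ∈ A) (hx : ⁅s, f⁆ ∉ A) (c : K) :
    2 * ed (ρ s) c ≤ Module.finrank K V := by
  obtain ⟨U, Z, _, _, _, _, _, π, ζ, B, κ, hπ, hk, hζ, -, hB, hc, -, -, hκ, -⟩ := sd_pair A F hS
  have hcj : ∀ x : F, (κ ⟨s, hC⟩ : MulAut U) (π x) = π ⟨s * x * s⁻¹, hS.nF.conj_mem _ x.2 s⟩ :=
    fun x => hκ ⟨s, hC⟩ x _ rfl
  have h3 : (κ ⟨s, hC⟩ : MulAut U) ^ 3 = 1 := by
    have e : (⟨s, hC⟩ : Subgroup.centralizer (A : Set H)) ^ 3 = 1 := Subtype.ext hs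
    rw [← Subgroup.coe_pow, ← map_pow, e, map_one, Subgroup.coe_one]
  have hu : π ⟨f, hf⟩ ^ n = 1 := by
    rw [← map_pow, hk]
    exact hfn
  have hne : (κ ⟨s, hC⟩ : MulAut U) (π ⟨f, hf⟩) ≠ π ⟨f, hf⟩ := by
    intro e
    rw [hcj, ← mul_inv_eq_one, ← map_inv, ← map_mul, hk] at e
    exact hx e
  obtain ⟨y0, hy⟩ := symp_key B hB _ (κ ⟨s, hC⟩).2 h3 _ n hn hu hne
  obtain ⟨y, rfl⟩ := hπ y0
  rw [hcj, ← map_inv, ← map_mul, hcj] at hy
  have h1 := eb_gen ρ s y c ⊥ fun v h1 h2 => by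
    by_contra h0
    rw [Submodule.mem_bot] at h0
    have m1 : (y : H) * (s * y * s⁻¹)⁻¹ ∈ stabV ρ v :=
      xseigb_fix ρ s _ v c h0 h1 (by rw [← h2]; congr 2; group)
    have m2 : s * ((y : H) * (s * y * s⁻¹)⁻¹) * s⁻¹ ∈ stabV ρ v :=
      xseigb_fix ρ s _ v c h0 h1 (by rw [inv_mul_cancel_right, rho_mul, m1, h1])
    have m3 : ⁅(y : H) * (s * y * s⁻¹)⁻¹, s * ((y : H) * (s * y * s⁻¹)⁻¹) * s⁻¹⁆ ∈ stabV ρ v :=
      mul_mem (mul_mem (mul_mem m1 m2) (inv_mem m1)) (inv_mem m2)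
    have hyF : (y : H) * (s * y * s⁻¹)⁻¹ ∈ F := mul_mem y.2 (inv_mem (hS.nF.conj_mem _ y.2 s))
    have m4 := hA _ (hS.comm _ hyF _ (hS.nF.conj_mem _ hyF s)) v h0 m3
    apply hy
    apply hζ
    rw [hc, map_one]
    exact m4
  rwa [finrank_bot, add_zero] at h1

end Pool.Agent.N9181

end

section

namespace Pool.Agent.N9181

open scoped commutatorElement

theorem xscntb_fib {X T : Type} [Finite X] [Finite T] (S : Set X) (Q : Set T) (f : X → T) (k : ℕ)
    (h1 : ∀ c ∈ S, f c ∈ Q) (h2 : ∀ c ∈ S, {d | d ∈ S ∧ f d = f c}.ncard ≤ k) :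
    S.ncard ≤ k * Q.ncard := by
  classical
  rw [Set.ncard_eq_toFinset_card S, Set.ncard_eq_toFinset_card Q]
  refine Finset.card_le_mul_card_image_of_maps_to (f := f) (fun c hc => ?_) _ fun s _ => ?_
  · simpa using h1 c (by simpa using hc)
  rcases ((Set.toFinite S).toFinset.filter fun a => f a = s).eq_empty_or_nonempty with h | ⟨c, hc⟩
  · simp [h]
  obtain ⟨h3, h4⟩ := Finset.mem_filter.1 hc
  refine le_trans (le_of_eq ?_) (h2 c (by simpa using h3))
  rw [← Set.ncard_coe_finset, h4]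
  congr 1
  ext d
  simp

theorem xscntb_m3 {U Z : Type} [CommGroup U] [Finite U] [CommGroup Z] [Finite Z] [IsCyclic Z]
    (B : U →* U →* Z) (hB : Symp B) (v n : ℕ) (hc : ((3 ^ v) ^ 2).Coprime n)
    (hU : Nat.card U = (3 ^ v) ^ 2 * n) :
    2 * {s : Iso B | s ≠ 1 ∧ s ^ 3 = 1 ∧ ∀ u, u ^ n = 1 → s.1 u = u}.ncard ≤ ch 3 ((3 ^ v) ^ 2) ∧
      (v = 0 → {s : Iso B | s ≠ 1 ∧ s ^ 3 = 1 ∧ ∀ u, u ^ n = 1 → s.1 u = u}.ncard = 0) := by
  have : Finite (MulAut U) := inferInstance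
  have h0 : v = 0 →
      {s : Iso B | s ≠ 1 ∧ s ^ 3 = 1 ∧ ∀ u, u ^ n = 1 → s.1 u = u}.ncard = 0 := fun hv => by
    rw [Set.ncard_eq_zero, Set.eq_empty_iff_forall_notMem]
    rintro s ⟨h1, -, h2⟩
    refine h1 (Subtype.ext (MulEquiv.ext fun u => h2 u ?_))
    rw [hv, pow_zero, one_pow, one_mul] at hU
    rw [← hU, pow_card_eq_one']
  refine ⟨?_, h0⟩
  rcases Nat.eq_zero_or_pos v with hv | hv
  · rw [h0 hv]
    exact Nat.zero_le _
  obtain ⟨h1, -, h3⟩ := xisob_split (U := U) hc hU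
  have h4 : Nat.card (Iso (xisobB B ((3 ^ v) ^ 2))) ≤ ch 3 ((3 ^ v) ^ 2) := by
    refine (iso_chain _ (xisob_symp B hB hc h3) 3 (by norm_num) fun q hq hd => ?_).trans_eq
      (by rw [h1])
    rw [h1] at hd
    exact ((Nat.prime_dvd_prime_iff_eq hq Nat.prime_three).mp
      (hq.dvd_of_dvd_pow (hq.dvd_of_dvd_pow hd))).ge
  have h5 := xisob_half (xisobB B ((3 ^ v) ^ 2))
    (by rw [h1]; exact (dvd_pow_self 3 hv.ne').trans (dvd_pow_self _ two_ne_zero))
  refine le_trans (Nat.mul_le_mul_left 2 ?_) (h5.trans h4)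
  have : Finite (MulAut (xisobK U ((3 ^ v) ^ 2))) := inferInstance
  refine (Set.ncard_le_ncard_of_injOn (t := {s | s ^ 3 = 1}) (xisobR B ((3 ^ v) ^ 2)) ?_ ?_
    (Set.toFinite _)).trans (le_of_eq (Nat.card_coe_set_eq _).symm)
  · rintro s ⟨-, h6, -⟩
    refine Subtype.ext (MulEquiv.ext fun x => Subtype.ext ?_)
    have h7 : (s ^ 3).1 x = x := by rw [h6]; rfl
    rw [pow_three'] at h7
    show ((xisobR B ((3 ^ v) ^ 2) s ^ 3).1 x : U) = x
    rw [pow_three']
    exact h7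
  · rintro s ⟨-, -, hs⟩ t ⟨-, -, ht⟩ e
    refine Subtype.ext (MulEquiv.ext fun x => ?_)
    obtain ⟨y, hy, z, hz, rfl⟩ := h3 x
    have e1 : s.1 y = t.1 y := congrArg (fun r => (r.1 ⟨y, hy⟩ : U)) e
    rw [map_mul, map_mul, e1, hs z hz, ht z hz]

theorem xscntb_u {U : Type} [CommGroup U] (s : MulAut U) (m n : ℕ) (hn : Nat.Coprime 3 n)
    (hs : ∀ u, u ^ n = 1 → s u = u) (u : U) (hu : u ^ (m * n) = 1)
    (h : s u * s (s u) * u = 1) : u ^ m = 1 := by
  have h1 : (u ^ m) ^ n = 1 := by rw [← pow_mul, hu]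
  have h2 := hs _ h1
  refine xisob_one hn ?_ h1
  have h3 := congrArg (· ^ m) h
  simp only [mul_pow, ← map_pow, h2, one_pow] at h3
  rw [pow_three', h3]

theorem cntB {H : Type} [Group H] [Finite H] (A F : Subgroup H) (hS : SD A F) (e : ℕ) (he : A.relIndex F = e ^ 2) :
    ∃ I M M3 : ℕ, IB e I ∧ M ≤ I ∧ (3 ∣ e → 2 * M ≤ I) ∧
      2 * M3 ≤ ch 3 ((3 ^ e.factorization 3) ^ 2) ∧ (¬ 3 ∣ e → M3 = 0) ∧
      Nat.card (Subgroup.centralizer (A : Set H)) ≤ Nat.card A * e ^ 2 * I ∧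
      {c : H | c ∈ Subgroup.centralizer (A : Set H) ∧ c ^ 3 = 1}.ncard ≤ Nat.gcd (Nat.card A) 3 * e ^ 2 * M ∧
      ∀ T : Set H, (∀ c ∈ T, c ∈ Subgroup.centralizer (A : Set H) ∧ c ∉ F ∧ c ^ 3 = 1 ∧
          ∀ f ∈ F, ∀ n : ℕ, ¬ 3 ∣ n → f ^ n ∈ A → ⁅c, f⁆ ∈ A) →
        (∀ c ∈ T, ∀ c' ∈ T, c⁻¹ * c' ∈ A → c = c') →
        T.ncard ≤ (3 ^ e.factorization 3) ^ 2 * M3 := by
  classical
  obtain ⟨U, Z, _, _, _, _, _, π, ζ, B, κ, hs, hπ, hζ, hA, hB, -, hU, hZ, hc, hκ⟩ :=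
    sd_pair A F hS
  have : Finite (MulAut U) := inferInstance
  rw [he] at hU
  obtain ⟨hI, hM⟩ := iso_bound B hB e hU
  have h0 : e ≠ 0 := by
    rintro rfl
    exact Nat.card_pos.ne' hU
  have hn : Nat.Coprime 3 ((e / 3 ^ e.factorization 3) ^ 2) :=
    (Nat.coprime_ordCompl Nat.prime_three h0).pow_right 2
  have hmn : ((3 ^ e.factorization 3) ^ 2).Coprime ((e / 3 ^ e.factorization 3) ^ 2) :=
    (hn.pow_left _).pow_left 2
  have hU' : Nat.card U = (3 ^ e.factorization 3) ^ 2 * (e / 3 ^ e.factorization 3) ^ 2 := by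
    rw [hU, ← mul_pow, Nat.ordProj_mul_ordCompl_eq_self]
  obtain ⟨h31, h32⟩ := xscntb_m3 B hB _ _ hmn hU'
  let κ' : H → Iso B := fun c =>
    if h : c ∈ Subgroup.centralizer (A : Set H) then κ ⟨c, h⟩ else 1
  let π' : H → U := fun c => if h : c ∈ F then π ⟨c, h⟩ else 1
  have hF : ∀ c ∈ Subgroup.centralizer (A : Set H), ∀ d ∈ Subgroup.centralizer (A : Set H),
      κ' d = κ' c → c⁻¹ * d ∈ F := fun c h1 d h2 h3 => by
    simp only [κ', dif_pos h1, dif_pos h2] at h3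
    exact (hκ ((⟨c, h1⟩ : Subgroup.centralizer (A : Set H))⁻¹ * ⟨d, h2⟩)).1
      (by rw [map_mul, map_inv, h3, inv_mul_cancel])
  have hA' : ∀ c d d' : H, c⁻¹ * d ∈ F → c⁻¹ * d' ∈ F → π' (c⁻¹ * d') = π' (c⁻¹ * d) →
      d⁻¹ * d' ∈ A := fun c d d' h1 h2 h3 => by
    simp only [π', dif_pos h1, dif_pos h2] at h3
    have := (hπ ((⟨c⁻¹ * d, h1⟩ : F)⁻¹ * ⟨c⁻¹ * d', h2⟩)).1
      (by rw [map_mul, map_inv, h3, inv_mul_cancel])
    simpa [mul_assoc] using this
  have h3 : ∀ c ∈ Subgroup.centralizer (A : Set H), c ^ 3 = 1 → κ' c ^ 3 = 1 := fun c h1 h2 => by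
    simp only [κ', dif_pos h1]
    rw [← map_pow, show (⟨c, h1⟩ : Subgroup.centralizer (A : Set H)) ^ 3 = 1 from Subtype.ext h2,
      map_one]
  refine ⟨Nat.card (Iso B), Nat.card {s : Iso B // s ^ 3 = 1}, _, hI, Finite.card_subtype_le _,
    hM, h31, fun h => h32 (Nat.factorization_eq_zero_of_not_dvd h), ?_, ?_, fun T hT hT' => ?_⟩
  · have h1 : Nat.card κ.ker ≤ Nat.card F :=
      Nat.card_le_card_of_injective (fun c => ⟨c.1.1, (hκ c.1).1 c.2⟩) fun c d h =>
        Subtype.ext (Subtype.ext (congrArg (fun x : F => (x : H)) h))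
    have h2 : Nat.card F = Nat.card A * e ^ 2 := by
      rw [← he, ← Subgroup.card_mul_index (A.subgroupOf F),
        Nat.card_congr (Subgroup.subgroupOfEquivOfLe hS.le).toEquiv]
      rfl
    have h3 : κ.ker.index ≤ Nat.card (Iso B) := by
      rw [Subgroup.index_ker]; exact Finite.card_subtype_le _
    rw [← Subgroup.card_mul_index κ.ker, ← h2]
    exact Nat.mul_le_mul h1 h3
  · refine (xscntb_fib _ {s | s ^ 3 = 1} κ' _ (fun c h => h3 c h.1 h.2) fun c h => ?_).trans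
      (le_of_eq (by rw [← Nat.card_coe_set_eq]; rfl))
    refine (xscntb_fib _ Set.univ (fun d => π' (c⁻¹ * d)) (Nat.gcd (Nat.card A) 3)
      (fun _ _ => Set.mem_univ _) fun d hd => ?_).trans (le_of_eq (by rw [Set.ncard_univ, hU]))
    rw [← hZ, ← IsCyclic.card_powMonoidHom_ker Z 3]
    refine le_trans (Set.ncard_le_ncard (t := (fun z => d * ζ z) ''
      ((powMonoidHom 3 : Z →* Z).ker : Set Z)) ?_ (Set.toFinite _))
      ((Set.ncard_image_le (Set.toFinite _)).trans (le_of_eq (Nat.card_coe_set_eq _).symm))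
    rintro d' ⟨hd', h4⟩
    have h5 := hA' c d d' (hF c h.1 d hd.1.1 hd.2) (hF c h.1 d' hd'.1.1 hd'.2) h4
    obtain ⟨z, hz⟩ := (hA _).1 h5
    refine ⟨z, hζ ?_, by simp [hz]⟩
    have h6 : Commute d (d⁻¹ * d') := (Subgroup.mem_centralizer_iff.1 hd.1.1 _ h5).symm
    have h7 := h6.mul_pow 3
    rw [mul_inv_cancel_left, hd'.1.2, hd.1.2, one_mul] at h7
    rw [powMonoidHom_apply, map_pow, hz, map_one, ← h7]
  · have hQ : ∀ c ∈ T, ∀ u, u ^ ((e / 3 ^ e.factorization 3) ^ 2) = 1 → (κ' c).1 u = u :=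
      fun c h u hu => by
        obtain ⟨h1, -, -, h2⟩ := hT c h
        obtain ⟨f, rfl⟩ := hs u
        have h4 := h2 f f.2 _ ((Nat.Prime.coprime_iff_not_dvd Nat.prime_three).1 hn)
          ((hπ (f ^ _)).1 (by rw [map_pow, hu]))
        simp only [κ', dif_pos h1]
        rw [hc ⟨c, h1⟩ f ⟨c * f * c⁻¹, hS.nF.conj_mem _ f.2 c⟩ rfl, ← mul_inv_eq_one, ← map_inv,
          ← map_mul, hπ]
        exact h4
    refine xscntb_fib _ _ κ' _ (fun c h => ⟨fun h1 => (hT c h).2.1 ?_,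
      h3 c (hT c h).1 (hT c h).2.2.1, hQ c h⟩) fun c h => ?_
    · simp only [κ', dif_pos (hT c h).1] at h1
      exact (hκ _).1 h1
    refine (Set.ncard_le_ncard_of_injOn
      (t := (xisobK U ((3 ^ e.factorization 3) ^ 2) : Set U)) (fun d => π' (c⁻¹ * d)) ?_ ?_
      (Set.toFinite _)).trans
      (le_of_eq ((Nat.card_coe_set_eq _).symm.trans (xisob_split hmn hU').1))
    · rintro d ⟨hd, h1⟩
      have h2 := hF c (hT c h).1 d (hT d hd).1 h1
      refine xscntb_u (κ' c).1 _ _ hn (hQ c h) _ (by rw [← hU', pow_card_eq_one']) ?_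
      have h4 := hS.nF.conj_mem _ h2 c
      simp only [κ', π', dif_pos (hT c h).1, dif_pos h2]
      rw [hc ⟨c, (hT c h).1⟩ ⟨_, h2⟩ ⟨_, h4⟩ rfl,
        hc ⟨c, (hT c h).1⟩ ⟨_, h4⟩ ⟨_, hS.nF.conj_mem _ h4 c⟩ rfl, ← map_mul, ← map_mul, hπ]
      have h5 : c * (c⁻¹ * d) * c⁻¹ * (c * (c * (c⁻¹ * d) * c⁻¹) * c⁻¹) * (c⁻¹ * d) =
          d * d * (c ^ 3)⁻¹ * d := by group
      show c * (c⁻¹ * d) * c⁻¹ * (c * (c * (c⁻¹ * d) * c⁻¹) * c⁻¹) * (c⁻¹ * d) ∈ A
      rw [h5, (hT c h).2.2.1, inv_one, mul_one, ← pow_three', (hT d hd).2.2.1]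
      exact A.one_mem
    · rintro d ⟨hd, h1⟩ d' ⟨hd', h2⟩ h4
      exact hT' d hd d' hd' (hA' c d d' (hF c (hT c h).1 d (hT d hd).1 h1)
        (hF c (hT c h).1 d' (hT d' hd').1 h2) h4.symm)

end Pool.Agent.N9181

end

section

namespace Pool.Agent.N9181

open scoped commutatorElement

theorem xsnumm_term (a b X m n d : ℕ) (h : a * X ≤ b * 13 ^ m) (hd : m + n ≤ d) :
    a * (X * (13 ^ n - 1)) ≤ b * 13 ^ d :=
  calc a * (X * (13 ^ n - 1)) ≤ a * (X * 13 ^ n) := by gcongr; exact Nat.sub_le _ _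
    _ = a * X * 13 ^ n := by ring
    _ ≤ b * 13 ^ m * 13 ^ n := by gcongr
    _ = b * 13 ^ (m + n) := by ring
    _ ≤ b * 13 ^ d := by gcongr; norm_num

theorem xsnumm_step (l : ℕ) : ch 3 (3 ^ (l + 1)) = 3 ^ (l + 1) * ch 3 (3 ^ l) := by
  have h : 1 < 3 ^ (l + 1) := Nat.one_lt_pow (by omega) (by norm_num)
  rw [ch_eq 3 (by norm_num), if_neg (by omega), pow_succ 3 l, Nat.mul_div_cancel _ (by norm_num)]

theorem xsnumm_ch3 (k : ℕ) : (3 ^ k) ^ 2 * ch 3 ((3 ^ k) ^ 2) = 3 ^ (k * (2 * k + 3)) := by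
  induction k with
  | zero => rfl
  | succ k ih =>
    rw [← pow_mul] at ih ⊢
    rw [show (k + 1) * 2 = k * 2 + 1 + 1 by ring, xsnumm_step, xsnumm_step,
      show (k + 1) * (2 * (k + 1) + 3) = k * (2 * k + 3) + (4 * k + 5) by ring,
      pow_add 3 (k * (2 * k + 3)), ← ih]
    ring

theorem xsnumm_e3 (j : ℕ) (hj : 2 ≤ j) : (j + 1) * (2 * (j + 1) + 3) ≤ 4 * 3 ^ j := by
  induction j, hj using Nat.le_induction with
  | base => norm_num
  | succ k hk ih =>
    rw [pow_succ]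
    nlinarith

theorem xsnumm_three (j : ℕ) :
    2 * ((3 ^ (j + 1)) ^ 2 * ch 3 ((3 ^ (j + 1)) ^ 2)) ≤ 3 * 13 ^ (2 * 3 ^ j) := by
  rw [xsnumm_ch3]
  rcases lt_or_ge j 2 with h | h
  · interval_cases j <;> norm_num
  · refine Nat.mul_le_mul (by norm_num) ?_
    calc _ ≤ 3 ^ (2 * (2 * 3 ^ j)) :=
          Nat.pow_le_pow_right (by norm_num) (by have := xsnumm_e3 j h; omega)
      _ ≤ _ := by
          rw [pow_mul]
          exact Nat.pow_le_pow_left (by norm_num) _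

theorem xsnumm_two (e : ℕ) (he : 0 < e) : 12 * (e ^ 2 * ch 2 (e ^ 2)) ≤ 7 * 13 ^ e := by
  rcases lt_or_ge e 64 with h | h
  · revert he
    revert e
    decide +kernel
  · have h1 := xnumb_big e h
    have h2 : 4 ^ e ≤ 13 ^ e := Nat.pow_le_pow_left (by norm_num) e
    omega

theorem xsnumm_one (e : ℕ) (he : 0 < e) : 2160 * (e ^ 2 * ch 2 (e ^ 2)) ≤ 13 * 13 ^ (2 * e) := by
  rcases Nat.lt_or_ge e 2 with h | h
  · obtain rfl : e = 1 := by omega
    decide +kernel
  · have h1 := xsnumm_two e he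
    have h2 : 13 ^ 2 ≤ 13 ^ e := Nat.pow_le_pow_right (by norm_num) h
    have h3 := Nat.mul_le_mul_right (13 ^ e) h2
    rw [two_mul, pow_add]
    omega

theorem xsnumm_g (g : ℕ) (hg : 3 ≤ g) : g ^ 2 * (g - 1) ≤ 18 * 13 ^ (g - g / 3 - 2) := by
  rcases hg.eq_or_lt with rfl | h
  · norm_num
  · obtain ⟨j, hj⟩ : ∃ j, g - g / 3 = j + 2 := ⟨g - g / 3 - 2, by omega⟩
    have h1 := xnuma_four (j + 2) (by omega)
    have h2 : (2 * g) ^ 3 ≤ (3 * (j + 2)) ^ 3 := Nat.pow_le_pow_left (by omega) 3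
    have h3 : g ^ 2 * (g - 1) ≤ g ^ 2 * g := Nat.mul_le_mul_left _ (by omega)
    have h4 : (j + 2) ^ 3 * 3 ≤ (j + 2) ^ 3 * (j + 2) := Nat.mul_le_mul_left _ (by omega)
    rw [← pow_succ] at h3 h4
    rw [mul_pow, mul_pow] at h2
    rw [pow_add] at h1
    rw [hj, Nat.add_sub_cancel]
    norm_num at h1 h2 h3 h4
    omega

theorem xsnumm_exp (k : ℕ) (hk : 6 ≤ k) : (k + 2) * (2 * k + 7) + 2 ≤ 3 * 2 ^ k := by
  induction k, hk using Nat.le_induction with
  | base => norm_num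
  | succ k hk ih =>
    rw [pow_succ]
    nlinarith

theorem xsnumm_big (a : ℕ) (ha : 64 ≤ a) : 3 * ((2 * a) ^ 2 * ch 2 ((2 * a) ^ 2)) ≤ 13 ^ a := by
  obtain ⟨k, h1, h2⟩ : ∃ k, 2 ^ k ≤ a ∧ a < 2 ^ (k + 1) :=
    ⟨Nat.log 2 a, Nat.pow_log_le_self 2 (by omega), Nat.lt_pow_succ_log_self (by norm_num) a⟩
  have hk : 6 ≤ k := by
    have h : 2 ^ 6 < 2 ^ (k + 1) := lt_of_le_of_lt ha h2
    have := (Nat.pow_lt_pow_iff_right (by norm_num)).1 h
    omega
  have h3 : (2 * a) ^ 2 ≤ 2 ^ (2 * (k + 2)) := by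
    rw [mul_comm 2 (k + 2), pow_mul]
    exact Nat.pow_le_pow_left (by rw [pow_succ]; omega) 2
  have h4 := ch_le _ _ h3
  rw [mul_assoc, Nat.mul_div_cancel_left _ two_pos] at h4
  have h5 := xsnumm_exp k hk
  calc 3 * ((2 * a) ^ 2 * ch 2 ((2 * a) ^ 2))
      ≤ 2 ^ 2 * (2 ^ (2 * (k + 2)) * 2 ^ ((k + 2) * (2 * (k + 2) + 1))) := by gcongr; norm_num
    _ = 2 ^ ((k + 2) * (2 * k + 7) + 2) := by
      rw [← pow_add, ← pow_add]
      congr 1
      ring
    _ ≤ 2 ^ (3 * a) := Nat.pow_le_pow_right two_pos (by omega)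
    _ ≤ 13 ^ a := by
      rw [pow_mul]
      exact Nat.pow_le_pow_left (by norm_num) a

theorem xsnumm_half (b I : ℕ) (hb : 0 < b) (hI : IB (18 * b) I) :
    3 * ((18 * b) ^ 2 * I) ≤ 13 ^ (9 * b) := by
  rcases lt_or_ge b 3 with h | h
  · have h1 := hI.2
    rw [← Nat.primeFactorsList_count_eq] at h1
    refine le_trans (Nat.mul_le_mul_left _ (Nat.mul_le_mul_left _ h1)) ?_
    clear h1 hI
    interval_cases b <;> simp only [Nat.reduceMul, Nat.primeFactorsList_ofNat] <;> decide +kernel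
  · refine le_trans (Nat.mul_le_mul_left _ (Nat.mul_le_mul_left _ hI.1)) ?_
    clear hI
    rcases lt_or_ge b 8 with h8 | h8
    · interval_cases b <;> decide +kernel
    · rw [show 18 * b = 2 * (9 * b) by ring]
      exact xsnumm_big _ (by omega)

theorem numM (d e g I M M3 NI : ℕ) (he : 0 < e) (hge : g * e ≤ d)
    (h2 : 2 * e ≤ d ∨ (d = e ∧ 18 ∣ e)) (hI : IB e I) (hM : M ≤ I) (hM' : 3 ∣ e → 2 * M ≤ I)
    (hM3 : 2 * M3 ≤ ch 3 ((3 ^ e.factorization 3) ^ 2)) (hM0 : ¬ 3 ∣ e → M3 = 0)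
    (hN0 : g < 3 → NI = 0) (hN : NI ≤ 12 * g ^ 2 * (g - 1) * e ^ 2 * I) :
    NI * (13 ^ (d / 3) - 1) + 3 * e ^ 2 * M * (13 ^ (d / 2) - 1) +
      (3 ^ e.factorization 3) ^ 2 * M3 * (13 ^ (2 * d / 3) - 1) < 2 * (13 ^ d - 1) := by
  have hP : 13 ^ 1 ≤ 13 ^ d := Nat.pow_le_pow_right (by norm_num) (by omega)
  have a2 := xsnumm_two e he
  have b2 := Nat.mul_le_mul_left (e ^ 2) hI.1
  have b3 := Nat.mul_le_mul_left (e ^ 2) hM
  have t3 : 3 ∣ e → ∃ s, 0 < s ∧ 3 * s ∣ e ∧ Odd s ∧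
      4 * ((3 ^ e.factorization 3) ^ 2 * M3) ≤ 3 * 13 ^ (2 * s) := fun h3 => by
    have h4 := Nat.ordProj_dvd e 3
    have h5 := Nat.prime_three.factorization_pos_of_dvd he.ne' h3
    obtain ⟨j, hj⟩ : ∃ j, e.factorization 3 = j + 1 := ⟨e.factorization 3 - 1, by omega⟩
    rw [hj] at h4 hM3 ⊢
    refine ⟨3 ^ j, by positivity, by rwa [← pow_succ'], Odd.pow (by decide), ?_⟩
    have h6 := xsnumm_three j
    have h7 := Nat.mul_le_mul_left ((3 ^ (j + 1)) ^ 2) hM3
    rw [mul_left_comm] at h7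
    omega
  by_cases hg : g < 3
  · rw [hN0 hg, zero_mul, zero_add]
    by_cases h3 : 3 ∣ e
    · obtain ⟨s, s0, s1, s2, s3⟩ := t3 h3
      have b4 := Nat.mul_le_mul_left (e ^ 2) (hM' h3)
      rw [mul_left_comm] at b4
      rcases h2 with h2 | ⟨rfl, b, rfl⟩
      · have s4 := Nat.le_of_dvd he s1
        have c2 := xsnumm_term 8 7 (3 * e ^ 2 * M) e (d / 2) d (by rw [mul_assoc]; omega) (by omega)
        have c3 := xsnumm_term 4 3 _ _ (2 * d / 3) d s3 (by omega)
        omega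
      · have s4 : 2 * (3 * s) ≤ 18 * b := Nat.le_of_dvd he (Nat.Coprime.mul_dvd_of_dvd_of_dvd
          (Nat.coprime_two_left.2 (Odd.mul (by decide) s2)) ⟨9 * b, by ring⟩ s1)
        have a3 := xsnumm_half b I (by omega) hI
        have c2 := xsnumm_term 2 1 (3 * (18 * b) ^ 2 * M) (9 * b) (18 * b / 2) (18 * b)
          (by rw [mul_assoc]; omega) (by omega)
        have c3 := xsnumm_term 4 3 _ _ (2 * (18 * b) / 3) (18 * b) s3 (by omega)
        omega
    · have c2 := xsnumm_term 4 7 (3 * e ^ 2 * M) e (d / 2) d (by rw [mul_assoc]; omega) (by omega)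
      rw [hM0 h3, mul_zero, zero_mul]
      omega
  · obtain ⟨f, rfl⟩ : ∃ f, g = f + 3 := ⟨g - 3, by omega⟩
    have hd : f + 3 * e ≤ d := by
      have := Nat.le_mul_of_pos_right f he
      rw [add_mul] at hge
      omega
    have c1 : 10 * (NI * (13 ^ (d / 3) - 1)) ≤ 13 * 13 ^ d := by
      refine xsnumm_term 10 13 NI (f + 3 - (f + 3) / 3 - 2 + 2 * e) _ d ?_ (by omega)
      calc 10 * NI ≤ 10 * (12 * (f + 3) ^ 2 * (f + 3 - 1) * e ^ 2 * ch 2 (e ^ 2)) :=
            Nat.mul_le_mul_left _ (hN.trans (Nat.mul_le_mul_left _ hI.1))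
        _ = 120 * ((f + 3) ^ 2 * (f + 3 - 1)) * (e ^ 2 * ch 2 (e ^ 2)) := by ring
        _ ≤ 120 * (18 * 13 ^ (f + 3 - (f + 3) / 3 - 2)) * (e ^ 2 * ch 2 (e ^ 2)) :=
            Nat.mul_le_mul_right _ (Nat.mul_le_mul_left _ (xsnumm_g (f + 3) (by omega)))
        _ = 13 ^ (f + 3 - (f + 3) / 3 - 2) * (2160 * (e ^ 2 * ch 2 (e ^ 2))) := by ring
        _ ≤ 13 ^ (f + 3 - (f + 3) / 3 - 2) * (13 * 13 ^ (2 * e)) :=
            Nat.mul_le_mul_left _ (xsnumm_one e he)
        _ = _ := by ring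
    have c2 := xsnumm_term 52 7 (3 * e ^ 2 * M) (e + 1) (d / 2) d
      (by rw [mul_assoc, pow_succ 13]; omega) (by omega)
    by_cases h3 : 3 ∣ e
    · obtain ⟨s, s0, s1, -, s3⟩ := t3 h3
      have s4 := Nat.le_of_dvd he s1
      have c3 := xsnumm_term 52 3 ((3 ^ e.factorization 3) ^ 2 * M3) (2 * s + 1) (2 * d / 3) d
        (by rw [pow_succ 13]; omega) (by omega)
      omega
    · rw [hM0 h3, mul_zero, zero_mul]
      omega

theorem xsnumm_e4 (k : ℕ) (hk : 4 ≤ k) : k * (2 * k + 3) + 3 ≤ 3 ^ k := by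
  induction k, hk using Nat.le_induction with
  | base => norm_num
  | succ k hk ih =>
    rw [pow_succ]
    nlinarith

theorem num27 (k : ℕ) (hk : 3 ≤ k) :
    12 * (3 ^ k) ^ 2 * ch 3 ((3 ^ k) ^ 2) * 13 ^ (3 ^ k / 2) < 13 ^ (3 ^ k) - 1 := by
  rw [mul_assoc 12, xsnumm_ch3]
  rcases hk.eq_or_lt with rfl | h
  · norm_num
  · have h1 := xsnumm_e4 k h
    have h2 : 3 ^ (k * (2 * k + 3) + 3) * 13 ^ (3 ^ k / 2) ≤ 13 ^ (3 ^ k) :=
      calc _ ≤ 3 ^ (2 * (3 ^ k - 3 ^ k / 2)) * 13 ^ (3 ^ k / 2) :=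
            Nat.mul_le_mul_right _ (Nat.pow_le_pow_right (by norm_num) (by omega))
        _ ≤ 13 ^ (3 ^ k - 3 ^ k / 2) * 13 ^ (3 ^ k / 2) := by
            rw [pow_mul]
            exact Nat.mul_le_mul_right _ (Nat.pow_le_pow_left (by norm_num) _)
        _ = _ := by
            rw [← pow_add]
            congr 1
            omega
    have h3 : 0 < 3 ^ (k * (2 * k + 3)) * 13 ^ (3 ^ k / 2) := by positivity
    rw [pow_add, mul_right_comm] at h2
    rw [mul_assoc]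
    omega

end Pool.Agent.N9181

end

section

namespace Pool.Agent.N9181

open scoped commutatorElement

section Aux

variable {V : Type} [AddCommGroup V] [Module K V] [Module.Finite K V] {H : Type} [Group H]
  [Finite H] {ρ : Representation K H V} {N : ℕ} {A F : Subgroup H}

omit [Group H] in
theorem xsregm_sum (T1 T2 T3 : Set H) (S : H → Set V) (k1 k2 k3 : ℕ)
    (h1 : ∀ s ∈ T1, (S s).ncard ≤ k1) (h2 : ∀ s ∈ T2, (S s).ncard ≤ k2)
    (h3 : ∀ s ∈ T3, (S s).ncard ≤ k3)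
    (h : ∀ v : V, v ≠ 0 → ∃ s s', s ≠ s' ∧ (s ∈ T1 ∪ T2 ∪ T3 ∧ v ∈ S s) ∧
      s' ∈ T1 ∪ T2 ∪ T3 ∧ v ∈ S s') :
    2 * (13 ^ Module.finrank K V - 1) ≤ T1.ncard * k1 + T2.ncard * k2 + T3.ncard * k3 := by
  classical
  have key : ∀ (T : Set H) (k : ℕ), (∀ s ∈ T, (S s).ncard ≤ k) →
      ∑ t ∈ (Set.toFinite T).toFinset, (S t).ncard ≤ T.ncard * k := fun T k hT => by
    rw [Set.ncard_eq_toFinset_card T (Set.toFinite T), ← smul_eq_mul]
    exact Finset.sum_le_card_nsmul _ _ _ fun s hs => hT s ((Set.Finite.mem_toFinset _).1 hs)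
  have hc := cover ((Set.toFinite T1).toFinset ∪ (Set.toFinite T2).toFinset ∪
    (Set.toFinite T3).toFinset) S 2 fun v hv => by
      obtain ⟨s, s', e, a, b⟩ := h v hv
      rw [← Set.ncard_pair e]
      refine Set.ncard_le_ncard ?_ (Set.toFinite _)
      rintro t (rfl | rfl)
      · exact ⟨by simpa only [Finset.mem_union, Set.Finite.mem_toFinset, Set.mem_union] using a.1, a.2⟩
      · exact ⟨by simpa only [Finset.mem_union, Set.Finite.mem_toFinset, Set.mem_union] using b.1, b.2⟩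
  have a1 := Finset.sum_union_inter (s₁ := (Set.toFinite T1).toFinset ∪
    (Set.toFinite T2).toFinset) (s₂ := (Set.toFinite T3).toFinset) (f := fun t => (S t).ncard)
  have a2 := Finset.sum_union_inter (s₁ := (Set.toFinite T1).toFinset)
    (s₂ := (Set.toFinite T2).toFinset) (f := fun t => (S t).ncard)
  have b1 := key T1 k1 h1
  have b2 := key T2 k2 h2
  have b3 := key T3 k3 h3
  omega

theorem xsregm_ev (a : Module.End K V) (Cs : Finset K) (k : ℕ) (h : ∀ c ∈ Cs, ed a c ≤ k) :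
    {v : V | ∃ c ∈ Cs, v ≠ 0 ∧ a v = c • v}.ncard ≤ Cs.card * (13 ^ k - 1) := by
  classical
  have : Finite V := Module.finite_of_finite K
  induction Cs using Finset.induction_on with
  | empty => simp
  | insert c Cs hc ih =>
    have e : {v : V | ∃ c' ∈ insert c Cs, v ≠ 0 ∧ a v = c' • v} =
        {v : V | v ≠ 0 ∧ a v = c • v} ∪ {v : V | ∃ c ∈ Cs, v ≠ 0 ∧ a v = c • v} := by
      ext v
      simp only [Finset.exists_mem_insert, Set.mem_union, Set.mem_ofPred_eq]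
    rw [e, Finset.card_insert_of_notMem hc, add_mul, one_mul, add_comm]
    exact (Set.ncard_union_le _ _).trans (add_le_add
      (ev_ncard a c k (h c (Finset.mem_insert_self _ _)))
      (ih fun c' hc' => h c' (Finset.mem_insert_of_mem hc')))

theorem xsregm_elt (hG : GB ρ N A F) {r : V} (hr : r ≠ 0) (n : ℕ) :
    ∀ (s : H) (c : K), s ^ 3 ^ n = 1 → s ∉ scal ρ → c ^ 3 = 1 → ρ s r = c • r →
      ∃ (s : H) (c : K), s ^ 3 = 1 ∧ s ∉ A ∧ c ^ 3 = 1 ∧ ρ s r = c • r := by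
  induction n with
  | zero =>
    intro s c h1 h2
    rw [pow_zero, pow_one] at h1
    exact absurd (h1 ▸ one_mem _) h2
  | succ n ih =>
    intro s c h1 h2 h3 h4
    have h5 := rho_pow_eig ρ s r c h4 3
    by_cases h : s ^ 3 ∈ scal ρ
    · obtain ⟨c', -, h6⟩ := h
      have h7 : c' = 1 := smul_left_injective K hr (by
        beta_reduce
        rw [← h6, h5, h3])
      refine ⟨s, c, hG.inj (LinearMap.ext fun v => ?_),
        fun hA => h2 (eb_A ρ N A F hG s hA r hr c h4), h3, h4⟩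
      rw [h6, h7, one_smul, map_one, Module.End.one_apply]
    · exact ih (s ^ 3) (c ^ 3) (by rw [← pow_mul, ← pow_succ', h1]) h (by rw [h3, one_pow]) h5

theorem xsregm_big (hS : SD A F) (hA : FreeOn ρ A) {s : H} (h3 : s ^ 3 = 1)
    (hC : s ∈ Subgroup.centralizer (A : Set H)) (hs : s ∉ A) {c : K}
    (hc : Module.finrank K V < 2 * ed (ρ s) c) :
    s ∉ F ∧ (∀ f ∈ F, ∀ n : ℕ, ¬ 3 ∣ n → f ^ n ∈ A → ⁅s, f⁆ ∈ A) ∧
      ∀ c', 3 * ed (ρ s) c' ≤ 2 * Module.finrank K V := by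
  have := hS.nA
  have h1 : s ∉ F := fun h => hc.not_ge (eb_half ρ A F hS hA s hs (.inr h) c)
  have h2 : ∀ f ∈ F, ∀ n : ℕ, ¬ 3 ∣ n → f ^ n ∈ A → ⁅s, f⁆ ∈ A := fun f hf n hn h => by
    by_contra h'
    exact hc.not_ge (eb_3 ρ A F hS hA s h3 hC f hf n hn h h' c)
  refine ⟨h1, h2, ?_⟩
  obtain ⟨f, hf, h4⟩ : ∃ f ∈ F, ⁅s, f⁆ ∉ A := by
    by_contra h
    push Not at h
    exact h1 (hS.ff s hC h)
  obtain ⟨e, h5, -, -, u, ⟨a, h6⟩, h7, k, h8⟩ := q_part 3 (by norm_num) f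
  have hu : u ∈ F := h8 ▸ pow_mem hf k
  have h9 := h2 (f ^ e) (pow_mem hf e) _ h5 (by rw [pow_orderOf_eq_one]; exact one_mem _)
  refine eb_23 ρ A F hS hA s u hu (fun h => h4 ?_) (3 ^ a) (Odd.pow (by decide)) ?_
  · have e1 : ⁅s, f ^ e * u⁆ = ⁅s, f ^ e⁆ * (f ^ e * ⁅u, s⁆⁻¹ * (f ^ e)⁻¹) := by
      simp only [commutatorElement_def]
      group
    rw [h7, e1]
    exact mul_mem h9 (hS.nA.conj_mem _ (inv_mem h) _)
  · have hy : s * u⁻¹ * s⁻¹ ∈ F := hS.nF.conj_mem _ (inv_mem hu) s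
    have hcm : Commute (QuotientGroup.mk' A u) (QuotientGroup.mk' A (s * u⁻¹ * s⁻¹)) := by
      rw [← commutatorElement_eq_one_iff_commute, ← map_commutatorElement,
        QuotientGroup.mk'_apply, QuotientGroup.eq_one_iff]
      exact hS.comm _ hu _ hy
    rw [← QuotientGroup.eq_one_iff, ← QuotientGroup.mk'_apply, map_pow,
      show ⁅u, s⁆ = u * (s * u⁻¹ * s⁻¹) by simp only [commutatorElement_def, mul_assoc],
      map_mul, hcm.mul_pow, ← map_pow, ← map_pow, conj_pow, inv_pow, h6]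
    simp

omit [Finite H] in
theorem xsregm_eq (hA : FreeOn ρ A) {s t : H} (hs : Module.finrank K V < 2 * ed (ρ s) 1)
    (ht : Module.finrank K V < 2 * ed (ρ t) 1) (h : s⁻¹ * t ∈ A) : s = t := by
  have h1 := Submodule.finrank_sup_add_finrank_inf_eq (Module.End.eigenspace (ρ s) 1)
    (Module.End.eigenspace (ρ t) 1)
  have h2 := Submodule.finrank_le (Module.End.eigenspace (ρ s) 1 ⊔ Module.End.eigenspace (ρ t) 1)
  obtain ⟨v, ⟨a, b⟩, hv⟩ := Submodule.exists_mem_ne_zero_of_ne_bot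
    (p := Module.End.eigenspace (ρ s) 1 ⊓ Module.End.eigenspace (ρ t) 1) fun e => by
      rw [e, finrank_bot] at h1
      unfold ed at hs ht
      omega
  have a' : ρ s v = v := (Module.End.mem_eigenspace_iff.1 a).trans (one_smul _ _)
  have b' : ρ t v = v := (Module.End.mem_eigenspace_iff.1 b).trans (one_smul _ _)
  refine inv_mul_eq_one.1 (hA _ h v hv ?_)
  rw [rho_mul, b']
  conv_lhs => rw [← a', rho_inv]

theorem xsregm_out (C : Subgroup H) [C.Normal] {g : ℕ} (hg : 0 < g) (h : C.index ∣ g) :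
    {s : H | s ^ 3 = 1 ∧ s ∉ C}.ncard ≤ (g - 1) * Nat.card C ∧
      (g < 3 → {s : H | s ^ 3 = 1 ∧ s ∉ C}.ncard = 0) := by
  constructor
  · have h1 : {s : H | s ^ 3 = 1 ∧ s ∉ C}.ncard ≤ (C : Set H)ᶜ.ncard :=
      Set.ncard_le_ncard (fun s hs => hs.2) (Set.toFinite _)
    have h2 := Set.ncard_add_ncard_compl (C : Set H)
    have h3 : (C : Set H).ncard = Nat.card C := (Nat.card_coe_set_eq _).symm
    have h4 := C.index_mul_card
    have h5 := Nat.mul_le_mul_right (Nat.card C) (Nat.le_of_dvd hg h)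
    rw [Nat.sub_mul, one_mul]
    omega
  · intro h3
    rw [Set.ncard_eq_zero, Set.eq_empty_iff_forall_notMem]
    rintro s ⟨h1, h2⟩
    obtain ⟨k, hk⟩ : C.index ∣ 4 := h.trans (by interval_cases g <;> decide)
    refine h2 ?_
    have h4 := pow_mem (C.pow_index_mem s) k
    rwa [← pow_mul, ← hk, pow_succ, h1, one_mul] at h4

end Aux

theorem regM {V : Type} [AddCommGroup V] [Module K V] [Module.Finite K V]
    {H : Type} [Group H] [Finite H] (ρ : Representation K H V) (N : ℕ) (A F : Subgroup H) (hG : GB ρ N A F) (e : ℕ) (he : A.relIndex F = e ^ 2)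
    (h2 : 2 * e ≤ Module.finrank K V ∨ (Module.finrank K V = e ∧ 18 ∣ e)) : ∃ r : V, r ≠ 0 ∧ Th ρ ⊤ r := by
  by_contra hn
  have := hG.sd.nA
  obtain ⟨g, hg, hge, hidx, hAg, -⟩ := lam ρ N A F hG e he
  obtain ⟨e', he0, he', -, hp⟩ := gb_e ρ N A F hG
  obtain rfl : e' = e := Nat.pow_left_injective two_ne_zero (he'.symm.trans he)
  obtain ⟨I, M, M3, hI, hM, hM', hM3, hM0, hC, hT, hB⟩ := cntB A F hG.sd e' he
  obtain ⟨o1, o2⟩ := xsregm_out (Subgroup.centralizer (A : Set H)) hg hidx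
  have helt : ∀ r : V, r ≠ 0 →
      ∃ (s : H) (c : K), s ^ 3 = 1 ∧ s ∉ A ∧ c ^ 3 = 1 ∧ ρ s r = c • r := fun r hr => by
    by_contra h
    refine hn ⟨r, hr, fun s n h1 h2 w _ => ?_⟩
    by_contra h3
    refine h (xsregm_elt hG hr n s 3 h1 (fun ⟨c, _, hc⟩ => h3 ?_) (by decide) h2)
    rw [hc, smul_left_injective K hr ((hc r).symm.trans h2)]
  have key : ∀ Cs : Finset K, (∀ c ∈ Cs, c ^ 2 ∈ Cs) →
      (∀ r : V, r ≠ 0 → ∃ s : H, ∃ c ∈ Cs, s ^ 3 = 1 ∧ s ∉ A ∧ ρ s r = c • r) →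
      Cs.card * Nat.card A ≤ 12 * g ^ 2 → Cs.card * Nat.gcd (Nat.card A) 3 ≤ 3 →
      Cs.card * {s : H | (s ∈ Subgroup.centralizer (A : Set H) ∧ s ^ 3 = 1 ∧ s ∉ A) ∧
        ∃ c ∈ Cs, Module.finrank K V < 2 * ed (ρ s) c}.ncard ≤
          (3 ^ e'.factorization 3) ^ 2 * M3 → False := by
    intro Cs c1 c2 c3 c4 c5
    have hmem : ∀ s : H, s ^ 3 = 1 → s ∉ A → s ∈
        {s : H | s ^ 3 = 1 ∧ s ∉ Subgroup.centralizer (A : Set H)} ∪
        {s : H | (s ∈ Subgroup.centralizer (A : Set H) ∧ s ^ 3 = 1) ∧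
          ∀ c ∈ Cs, 2 * ed (ρ s) c ≤ Module.finrank K V} ∪
        {s : H | (s ∈ Subgroup.centralizer (A : Set H) ∧ s ^ 3 = 1 ∧ s ∉ A) ∧
          ∃ c ∈ Cs, Module.finrank K V < 2 * ed (ρ s) c} := fun s h1 h3 => by
      by_cases h4 : s ∈ Subgroup.centralizer (A : Set H)
      · by_cases h5 : ∀ c ∈ Cs, 2 * ed (ρ s) c ≤ Module.finrank K V
        · exact .inl (.inr ⟨⟨h4, h1⟩, h5⟩)
        · push Not at h5
          exact .inr ⟨⟨h4, h1, h3⟩, h5⟩
      · exact .inl (.inl ⟨h1, h4⟩)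
    have hs := xsregm_sum {s : H | s ^ 3 = 1 ∧ s ∉ Subgroup.centralizer (A : Set H)}
      {s : H | (s ∈ Subgroup.centralizer (A : Set H) ∧ s ^ 3 = 1) ∧
        ∀ c ∈ Cs, 2 * ed (ρ s) c ≤ Module.finrank K V}
      {s : H | (s ∈ Subgroup.centralizer (A : Set H) ∧ s ^ 3 = 1 ∧ s ∉ A) ∧
        ∃ c ∈ Cs, Module.finrank K V < 2 * ed (ρ s) c}
      (fun s => {v : V | ∃ c ∈ Cs, v ≠ 0 ∧ ρ s v = c • v}) _ _ _
      (fun s hs => xsregm_ev (ρ s) Cs (Module.finrank K V / 3) fun c _ => by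
        have := eb_out3 ρ A F hG.sd hG.free s hs.1 hs.2 c
        omega)
      (fun s hs => xsregm_ev (ρ s) Cs (Module.finrank K V / 2) fun c hc => by
        have := hs.2 c hc
        omega)
      (fun s hs => xsregm_ev (ρ s) Cs (2 * Module.finrank K V / 3) fun c _ => by
        obtain ⟨⟨h1, h3, h4⟩, c', -, h5⟩ := hs
        have := (xsregm_big hG.sd hG.free h3 h1 h4 h5).2.2 c
        omega) fun v hv => by
      obtain ⟨s, c, h1, h3, h4, h5⟩ := c2 v hv
      refine ⟨s, s ^ 2, fun h => h4 ?_, ⟨hmem s h3 h4, c, h1, hv, h5⟩,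
        hmem _ (by rw [← pow_mul, mul_comm, pow_mul, h3, one_pow]) fun h => h4 ?_,
        c ^ 2, c1 c h1, hv, rho_pow_eig ρ s v c h5 2⟩
      · rw [sq, left_eq_mul] at h
        exact h ▸ one_mem _
      · have h6 := pow_mem h 2
        rwa [← pow_mul, pow_succ, h3, one_mul] at h6
    have h6 := (Set.ncard_le_ncard (fun s hs => hs.1 : {s : H |
      (s ∈ Subgroup.centralizer (A : Set H) ∧ s ^ 3 = 1) ∧
        ∀ c ∈ Cs, 2 * ed (ρ s) c ≤ Module.finrank K V} ⊆ _) (Set.toFinite _)).trans hT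
    refine (numM _ e' g I M M3
      (Cs.card * {s : H | s ^ 3 = 1 ∧ s ∉ Subgroup.centralizer (A : Set H)}.ncard) he0 hge h2 hI
      hM hM' hM3 hM0 (fun h => by rw [o2 h, mul_zero]) ?_).not_ge (hs.trans ?_)
    · calc _ ≤ Cs.card * ((g - 1) * (Nat.card A * e' ^ 2 * I)) :=
            Nat.mul_le_mul_left _ (o1.trans (Nat.mul_le_mul_left _ hC))
        _ = Cs.card * Nat.card A * ((g - 1) * e' ^ 2 * I) := by ring
        _ ≤ 12 * g ^ 2 * ((g - 1) * e' ^ 2 * I) := Nat.mul_le_mul_right _ c3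
        _ = _ := by ring
    · rw [← mul_assoc, ← mul_assoc, ← mul_assoc, mul_comm _ Cs.card, mul_comm _ Cs.card,
        mul_comm _ Cs.card]
      refine add_le_add (add_le_add le_rfl (Nat.mul_le_mul_right _ ?_)) (Nat.mul_le_mul_right _ c5)
      calc _ ≤ Cs.card * (Nat.gcd (Nat.card A) 3 * e' ^ 2 * M) := Nat.mul_le_mul_left _ h6
        _ = Cs.card * Nat.gcd (Nat.card A) 3 * (e' ^ 2 * M) := by ring
        _ ≤ 3 * (e' ^ 2 * M) := Nat.mul_le_mul_right _ c4
        _ = _ := by ring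
  by_cases h3 : 3 ∣ Nat.card A
  · obtain ⟨hsc, -, hz⟩ := gb_scal ρ N A F hG
    obtain ⟨z, z1, z2⟩ := hz h3
    have z3 : z ∈ scal ρ := ⟨3, by decide, z2⟩
    refine key {1} (by simp) (fun r hr => ?_) ?_ ?_ ?_
    · obtain ⟨s, c, a1, a2, a3, a4⟩ := helt r hr
      obtain ⟨j, hj⟩ : ∃ j : ℕ, (3 : K) ^ j * c = 1 := by
        have : ∀ c : K, c ^ 3 = 1 → ∃ j : Fin 3, (3 : K) ^ (j : ℕ) * c = 1 := by decide
        exact (this c a3).elim fun j hj => ⟨j, hj⟩
      refine ⟨s * z ^ j, 1, Finset.mem_singleton_self 1, ?_,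
        fun h => a2 ((Subgroup.mul_mem_cancel_right A (pow_mem (hsc z3) j)).1 h), ?_⟩
      · rw [(Commute.pow_right (scal_central ρ hG.inj z z3 s).symm j).mul_pow, a1, ← pow_mul,
          mul_comm j, pow_mul, z1, one_pow, one_mul]
      · rw [rho_mul, rho_pow_eig ρ z r 3 (z2 r), map_smul, a4, smul_smul, hj]
    · rw [Finset.card_singleton, one_mul]
      exact hAg.trans (Nat.mul_le_mul_right _ (Nat.gcd_le_right _ (by norm_num)))
    · rw [Finset.card_singleton, one_mul]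
      exact Nat.gcd_le_right _ (by norm_num)
    · rw [Finset.card_singleton, one_mul]
      refine hB _ ?_ ?_
      · rintro s ⟨⟨a1, a2, a3⟩, c, -, a4⟩
        obtain ⟨b1, b2, -⟩ := xsregm_big hG.sd hG.free a2 a1 a3 a4
        exact ⟨a1, b1, a2, b2⟩
      · rintro s ⟨-, c, a1, a2⟩ t ⟨-, c', b1, b2⟩
        rw [Finset.mem_singleton.1 a1] at a2
        rw [Finset.mem_singleton.1 b1] at b2
        exact xsregm_eq hG.free a2 b2
  · have hcop : Nat.Coprime (Nat.card A) 3 :=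
      ((Nat.Prime.coprime_iff_not_dvd Nat.prime_three).2 h3).symm
    have hc : ({1, 3, 9} : Finset K).card = 3 := by decide
    refine key {1, 3, 9} (by decide) (fun r hr => ?_) ?_ ?_ ?_
    · obtain ⟨s, c, a1, a2, a3, a4⟩ := helt r hr
      have : ∀ c : K, c ^ 3 = 1 → c ∈ ({1, 3, 9} : Finset K) := by decide
      exact ⟨s, c, this c a3, a1, a2, a4⟩
    · have h4 : Nat.gcd (Nat.card A) 12 ≤ 4 := by
        rw [show 12 = 3 * 4 from rfl, hcop.symm.gcd_mul_left_cancel_right]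
        exact Nat.gcd_le_right _ (by norm_num)
      have := hAg.trans (Nat.mul_le_mul_right _ h4)
      rw [hc]
      omega
    · rw [hc, hcop.gcd_eq_one]
    · refine (Nat.mul_eq_zero.2 (.inr ?_)).trans_le (Nat.zero_le _)
      rw [Set.ncard_eq_zero, Set.eq_empty_iff_forall_notMem]
      rintro s ⟨⟨a1, a2, a3⟩, c, -, a4⟩
      obtain ⟨b1, b2, -⟩ := xsregm_big hG.sd hG.free a2 a1 a3 a4
      exact b1 (hG.sd.ff s a1 fun f hf => b2 f hf (e' ^ 2) (fun h => h3
        (hp 3 Nat.prime_three (Nat.prime_three.dvd_of_dvd_pow h))) (pow_e A F hG.sd e' he f hf))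

end Pool.Agent.N9181

end

section

namespace Pool.Agent.N9181

open scoped commutatorElement

theorem xscnta_fib {α β : Type} [Finite α] [Finite β] (s : Set α) (t : Set β) (f : α → β)
    (hf : ∀ a ∈ s, f a ∈ t) (n : ℕ) (h : ∀ a ∈ s, {x ∈ s | f x = f a}.ncard ≤ n) :
    s.ncard ≤ n * t.ncard := by
  classical
  rw [Set.ncard_eq_toFinset_card s, Set.ncard_eq_toFinset_card t]
  refine Finset.card_le_mul_card_image_of_maps_to (f := f) (fun a ha => by
    simpa using hf a (by simpa using ha)) n fun b _ => ?_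
  rcases ((Set.toFinite s).toFinset.filter fun a => f a = b).eq_empty_or_nonempty with e | ⟨a, ha⟩
  · simp [e]
  obtain ⟨h1, rfl⟩ := Finset.mem_filter.1 ha
  refine le_trans (le_of_eq ?_) (h a (by simpa using h1))
  rw [← Set.ncard_coe_finset]
  congr 1
  ext x
  simp

theorem iso_nine {U Z : Type} [CommGroup U] [Finite U] [CommGroup Z] [Finite Z] [IsCyclic Z]
    (B : U →* U →* Z) (hB : Symp B) (h9 : Nat.card U = 9) (s : Iso B) (hs : s ≠ 1) (p : ℕ)
    (hp : p.Prime) (h3 : p ≠ 3) (h : s ^ p = 1) : ∀ u, (s : MulAut U) u = u⁻¹ := by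
  have := Fact.mk hp
  let X : Subgroup U := MonoidHom.eqLocus (s : MulAut U).toMonoidHom (MonoidHom.id U)
  have hX : ∀ u, u ∈ X ↔ (s : MulAut U) u = u := fun _ => Iff.rfl
  have hd : Nat.card X ∣ 3 ^ 2 := (Subgroup.card_subgroup_dvd_card X).trans h9.dvd
  have hne : Nat.card X ≠ 9 := fun e => hs (Subtype.ext (MulEquiv.ext fun u =>
    (hX u).1 ((Subgroup.card_eq_iff_eq_top X).1 (e.trans h9.symm) ▸ Subgroup.mem_top u)))
  have h13 : Nat.card X = 1 ∨ Nat.card X = 3 := by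
    obtain ⟨i, hi, e⟩ := (Nat.dvd_prime_pow Nat.prime_three).1 hd
    interval_cases i
    · exact .inl e
    · exact .inr e
    · exact absurd e hne
  have hP : IsPGroup p (Subgroup.zpowers (s : MulAut U)) := by
    rintro ⟨_, k, rfl⟩
    refine ⟨1, Subtype.ext ?_⟩
    have e : (s : MulAut U) ^ p = 1 := congrArg Subtype.val h
    change ((s : MulAut U) ^ k) ^ p ^ 1 = 1
    rw [pow_one, ← zpow_natCast, ← zpow_mul, mul_comm, zpow_mul, zpow_natCast, e, one_zpow]
  have hm := hP.card_modEq_card_fixedPoints U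
  have hfp : MulAction.fixedPoints (Subgroup.zpowers (s : MulAut U)) U = (X : Set U) := by
    ext u
    refine ⟨fun hu => hu ⟨s, Subgroup.mem_zpowers _⟩, fun hu g => ?_⟩
    exact (Subgroup.zpowers_le_of_mem (H := MulAction.stabilizer (MulAut U) u) hu) g.2
  rw [hfp, h9] at hm
  have hm' : 9 ≡ Nat.card X [MOD p] := hm
  have h2 : p = 2 := by
    rcases h13 with e | e <;> rw [e] at hm'
    · have : p ∣ 2 ^ 3 := (Nat.modEq_iff_dvd' (by norm_num)).1 hm'.symm
      exact (Nat.prime_dvd_prime_iff_eq hp Nat.prime_two).1 (hp.dvd_of_dvd_pow this)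
    · have : p ∣ 2 * 3 := (Nat.modEq_iff_dvd' (by norm_num)).1 hm'.symm
      rcases (Nat.Prime.dvd_mul hp).1 this with e | e
      · exact (Nat.prime_dvd_prime_iff_eq hp Nat.prime_two).1 e
      · exact absurd ((Nat.prime_dvd_prime_iff_eq hp Nat.prime_three).1 e) h3
  subst h2
  have hss : ∀ u, (s : MulAut U) ((s : MulAut U) u) = u := fun u => by
    have e : (s : MulAut U) * s = 1 := by rw [← sq]; exact congrArg Subtype.val h
    exact DFunLike.congr_fun e u
  have hmem : ∀ u, u * (s : MulAut U) u ∈ X := fun u => by rw [hX, map_mul, hss, mul_comm]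
  intro u
  rw [eq_inv_iff_mul_eq_one, mul_comm]
  by_contra hu
  have hu' : (⟨_, hmem u⟩ : X) ≠ 1 := fun e => hu (congrArg Subtype.val e)
  rcases h13 with e | e
  · have := (Nat.card_eq_one_iff_unique.1 e).1
    exact hu' (Subsingleton.elim _ _)
  have := Fact.mk Nat.prime_three
  refine hu (hB.2 _ fun y => xisob_one (m := 2) (n := 9) (by norm_num) ?_ ?_)
  · obtain ⟨k, hk⟩ := mem_powers_of_prime_card e hu' (g' := ⟨_, hmem y⟩)
    have hk' : (u * (s : MulAut U) u) ^ k = y * (s : MulAut U) y := congrArg Subtype.val hk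
    have e1 := s.2 (u * (s : MulAut U) u) y
    rw [(hX _).1 (hmem u)] at e1
    rw [sq]
    nth_rewrite 2 [← e1]
    rw [← map_mul, ← hk', map_pow, hB.1, one_pow]
  · rw [← map_pow, ← h9, pow_card_eq_one', map_one]

theorem cntA {H : Type} [Group H] [Finite H] (A F : Subgroup H) (hS : SD A F) (e : ℕ) (he : A.relIndex F = e ^ 2) (ho : Odd e) :
    ∃ I M : ℕ, I ≤ ch 3 (e ^ 2) ∧ M < I ∧ (e = 3 → M ≤ 1) ∧
      Nat.card (Subgroup.centralizer (A : Set H)) ≤ Nat.card A * e ^ 2 * I ∧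
      ∀ (T : Set H) (μ : ℕ), (∀ c ∈ T, c ∈ Subgroup.centralizer (A : Set H) ∧ c ∉ F ∧
          ∃ p : ℕ, p.Prime ∧ p ≠ 3 ∧ c ^ p ∈ A) →
        (∀ c ∈ T, {c' ∈ T | c⁻¹ * c' ∈ A}.ncard ≤ μ) → T.ncard ≤ μ * e ^ 2 * M := by
  classical
  obtain ⟨U, Z, _, _, _, _, _, π, ζ, B, κ, -, hπ, -, -, hB, -, hU, -, -, hκ⟩ := sd_pair A F hS
  have : Finite (MulAut U) := inferInstance
  rw [he] at hU
  let S : Set (Iso B) := {s | s ≠ 1 ∧ ∃ p : ℕ, p.Prime ∧ p ≠ 3 ∧ s ^ p = 1}
  refine ⟨Nat.card (Iso B), S.ncard, ?_, ?_, ?_, ?_, fun T μ hT hμ => ?_⟩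
  · rw [← hU]
    refine iso_chain B hB 3 (by norm_num) fun q hq hd => ?_
    rw [hU] at hd
    have h1 := hq.two_le
    have h2 : q ≠ 2 := by
      rintro rfl
      exact (Nat.not_even_iff_odd.2 ho) (even_iff_two_dvd.2 (hq.dvd_of_dvd_pow hd))
    omega
  · refine Set.ncard_lt_card fun h => ?_
    have h1 : (1 : Iso B) ∈ S := h ▸ Set.mem_univ _
    exact h1.1 rfl
  · rintro rfl
    refine (Set.ncard_le_one_iff (Set.toFinite _)).2 ?_
    rintro s t ⟨h1, p, h2, h3, h4⟩ ⟨h5, q, h6, h7, h8⟩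
    exact Subtype.ext (MulEquiv.ext fun u => (iso_nine B hB hU s h1 p h2 h3 h4 u).trans
      (iso_nine B hB hU t h5 q h6 h7 h8 u).symm)
  · have h1 : Nat.card κ.ker ≤ Nat.card F :=
      Nat.card_le_card_of_injective (fun c => ⟨c.1.1, (hκ c.1).1 c.2⟩) fun c d h =>
        Subtype.ext (Subtype.ext (congrArg (fun x : F => (x : H)) h))
    have h2 : Nat.card F = Nat.card A * e ^ 2 := by
      rw [← he, ← Subgroup.card_mul_index (A.subgroupOf F),
        Nat.card_congr (Subgroup.subgroupOfEquivOfLe hS.le).toEquiv]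
      rfl
    have h3 : κ.ker.index ≤ Nat.card (Iso B) := by
      rw [Subgroup.index_ker]; exact Finite.card_subtype_le _
    rw [← Subgroup.card_mul_index κ.ker, ← h2]
    gcongr
  · refine xscnta_fib T S (fun c => if h : c ∈ Subgroup.centralizer (A : Set H) then κ ⟨c, h⟩ else 1)
      (fun c hc => ?_) _ fun c hc => ?_
    · obtain ⟨h1, h2, p, h3, h4, h5⟩ := hT c hc
      rw [dif_pos h1]
      refine ⟨fun h => h2 ((hκ _).1 h), p, h3, h4, ?_⟩
      rw [← map_pow]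
      exact (hκ _).2 (hS.le h5)
    have hF : ∀ d ∈ T, (if h : d ∈ Subgroup.centralizer (A : Set H) then κ ⟨d, h⟩ else 1) =
        (if h : c ∈ Subgroup.centralizer (A : Set H) then κ ⟨c, h⟩ else 1) → c⁻¹ * d ∈ F := by
      intro d hd h
      rw [dif_pos (hT d hd).1, dif_pos (hT c hc).1] at h
      exact (hκ ((⟨c, (hT c hc).1⟩ : Subgroup.centralizer (A : Set H))⁻¹ * ⟨d, (hT d hd).1⟩)).1
        (by rw [map_mul, map_inv, h, inv_mul_cancel])
    rw [← hU, ← Set.ncard_univ]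
    refine xscnta_fib _ Set.univ (fun d => if h : c⁻¹ * d ∈ F then π ⟨c⁻¹ * d, h⟩ else 1)
      (fun _ _ => Set.mem_univ _) _ ?_
    rintro d ⟨h1, h2⟩
    refine le_trans (Set.ncard_le_ncard ?_ (Set.toFinite _)) (hμ d h1)
    rintro d' ⟨⟨h3, h4⟩, h5⟩
    refine ⟨h3, ?_⟩
    rw [dif_pos (hF d h1 h2), dif_pos (hF d' h3 h4)] at h5
    have := (hπ ((⟨c⁻¹ * d, hF d h1 h2⟩ : F)⁻¹ * ⟨c⁻¹ * d', hF d' h3 h4⟩)).1
      (by rw [map_mul, map_inv, h5, inv_mul_cancel])
    simpa [mul_assoc] using this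

end Pool.Agent.N9181

end

section

namespace Pool.Agent.N9181

open scoped commutatorElement

theorem xsnumd_ch (u : ℕ) : ch 3 u ≤ ch 2 u := by
  induction u using Nat.strong_induction_on with
  | _ u ih =>
    rw [ch_eq 3 (by norm_num), ch_eq 2 le_rfl]
    split_ifs with hu
    · exact le_rfl
    · exact Nat.mul_le_mul_left _
        ((ih _ (by omega)).trans (ch_mono 2 le_rfl _ _ (by omega)))

theorem xsnumd_cube (g : ℕ) (hg : 3 ≤ g) : 2 * g ^ 3 ≤ 13 ^ ((g + 1) / 2) := by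
  have key : ∀ k, 2 ≤ k → 16 * k ^ 3 ≤ 13 ^ k := by
    intro k hk
    induction k, hk using Nat.le_induction with
    | base => norm_num
    | succ k hk ih =>
      have h : (2 * (k + 1)) ^ 3 ≤ (3 * k) ^ 3 := Nat.pow_le_pow_left (by omega) 3
      rw [mul_pow, mul_pow] at h
      rw [pow_succ 13]
      omega
  have h1 := key ((g + 1) / 2) (by omega)
  have h2 : g ^ 3 ≤ (2 * ((g + 1) / 2)) ^ 3 := Nat.pow_le_pow_left (by omega) 3
  rw [mul_pow] at h2
  omega

theorem xsnumd_base (e : ℕ) (ho : e % 2 = 1) (he : 5 ≤ e) :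
    8 * (e ^ 2 * ch 3 (e ^ 2)) * 13 ^ ((2 * e + 2) / 3) + e ^ 2 * ch 3 (e ^ 2) * 13 ^ e ≤
      13 ^ e * 13 ^ ((2 * e + 2) / 3) := by
  rcases lt_or_ge e 64 with h | h
  · revert ho he
    revert e
    decide +kernel
  · have h1 := xnumb_big e h
    have h2 := Nat.mul_le_mul_left (e ^ 2) (xsnumd_ch (e ^ 2))
    have h3 : 4 ^ e ≤ 13 ^ ((2 * e + 2) / 3) := by
      refine (Nat.pow_le_pow_iff_left (n := 3) (by norm_num)).1 ?_
      calc (4 ^ e) ^ 3 = 64 ^ e := by rw [← pow_mul, mul_comm, pow_mul]; norm_num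
        _ ≤ 169 ^ e := Nat.pow_le_pow_left (by norm_num) e
        _ = 13 ^ (2 * e) := by rw [pow_mul]; norm_num
        _ ≤ 13 ^ ((2 * e + 2) / 3 * 3) := Nat.pow_le_pow_right (by norm_num) (by omega)
        _ = _ := pow_mul _ _ _
    have h4 : 13 ^ ((2 * e + 2) / 3) ≤ 13 ^ e := Nat.pow_le_pow_right (by norm_num) (by omega)
    generalize e ^ 2 * ch 3 (e ^ 2) = X at *
    generalize 13 ^ ((2 * e + 2) / 3) = β at *
    generalize 13 ^ e = α at *
    have h5 : 256 * X ≤ β := by omega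
    have h6 := Nat.mul_le_mul_right α h5
    have h7 := Nat.mul_le_mul_right β (h5.trans h4)
    nlinarith

theorem xsnumd_scale {A A' B α β α' β' : ℕ} (h0 : A' * β' + B * α' ≤ α' * β')
    (h1 : A * α' ≤ A' * α) (h2 : β' ≤ β) (ha : 0 < α') (hb : 0 < β') :
    A * β + B * α ≤ α * β := by
  refine Nat.le_of_mul_le_mul_right (c := α' * β') ?_ (by positivity)
  calc (A * β + B * α) * (α' * β') = A * α' * (β * β') + B * α * α' * β' := by ring
    _ ≤ A' * α * (β * β') + B * α * α' * β := by gcongr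
    _ = α * β * (A' * β' + B * α') := by ring
    _ ≤ α * β * (α' * β') := by gcongr

theorem xsnumd_fin {A B α β x y z : ℕ} (h : A * β + B * α ≤ α * β) (hx : z = α * x)
    (hy : z = β * y) (ha : 2 ≤ α) (hb : 2 ≤ β) (hx0 : 0 < x) (hy0 : 0 < y) (hA : 2 ≤ A) :
    A * (x - 1) + B * (y - 1) < z - 1 := by
  have h1 : A * x + B * y ≤ z := by
    refine Nat.le_of_mul_le_mul_right (c := α * β) ?_ (by positivity)
    calc (A * x + B * y) * (α * β) = A * β * (α * x) + B * α * (β * y) := by ring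
      _ = z * (A * β + B * α) := by
        rw [← hx, ← hy]
        ring
      _ ≤ z * (α * β) := by gcongr
  obtain ⟨x, rfl⟩ : ∃ x', x = x' + 1 := ⟨x - 1, by omega⟩
  obtain ⟨y, rfl⟩ : ∃ y', y = y' + 1 := ⟨y - 1, by omega⟩
  rw [Nat.add_sub_cancel, Nat.add_sub_cancel]
  rw [mul_add, mul_add] at h1
  omega

theorem xsnumd_key (d e g T M : ℕ) (ho : Odd e) (h2 : 2 * e ≤ d) (hge : g * e ≤ d)
    (hT : T = 4 ∨ 3 ≤ g ∧ T = g ^ 3) (hM : M < ch 3 (e ^ 2)) (h3 : e = 3 → M ≤ 1) :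
    2 * T * (e ^ 2 * ch 3 (e ^ 2)) * 13 ^ (d - 2 * d / 3) + e ^ 2 * M * 13 ^ (d - d / 2) ≤
      13 ^ (d - d / 2) * 13 ^ (d - 2 * d / 3) := by
  have ho' : e % 2 = 1 := Nat.odd_iff.1 ho
  by_cases h1 : e = 1
  · subst h1
    have hc : ch 3 (1 ^ 2) = 1 := by decide
    rw [hc] at hM ⊢
    obtain rfl : M = 0 := by omega
    have h4 : 2 * T ≤ 13 ^ (d - d / 2) := by
      rcases hT with rfl | ⟨hg, rfl⟩
      · exact le_trans (by norm_num) (Nat.pow_le_pow_right (by norm_num) (by omega : 1 ≤ _))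
      · exact (xsnumd_cube g hg).trans (Nat.pow_le_pow_right (by norm_num) (by omega))
    simpa using Nat.mul_le_mul_right (13 ^ (d - 2 * d / 3)) h4
  have h4 : 2 * T * 13 ^ e ≤ 8 * 13 ^ (d - d / 2) := by
    rcases hT with rfl | ⟨hg, rfl⟩
    · exact Nat.mul_le_mul_left _ (Nat.pow_le_pow_right (by norm_num) (by omega))
    · obtain ⟨k, rfl⟩ : ∃ k, g = k + 2 := ⟨g - 2, by omega⟩
      have h5 : k * 3 ≤ k * e := Nat.mul_le_mul_left k (by omega)
      rw [add_mul] at hge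
      calc 2 * (k + 2) ^ 3 * 13 ^ e ≤ 13 ^ ((k + 2 + 1) / 2) * 13 ^ e :=
            Nat.mul_le_mul_right _ (xsnumd_cube _ hg)
        _ = 13 ^ ((k + 2 + 1) / 2 + e) := (pow_add _ _ _).symm
        _ ≤ 13 ^ (d - d / 2) := Nat.pow_le_pow_right (by norm_num) (by omega)
        _ ≤ 8 * 13 ^ (d - d / 2) := Nat.le_mul_of_pos_left _ (by norm_num)
  refine xsnumd_scale (A' := 8 * (e ^ 2 * ch 3 (e ^ 2))) (α' := 13 ^ e)
    (β' := 13 ^ ((2 * e + 2) / 3)) ?_ ?_ (Nat.pow_le_pow_right (by norm_num) (by omega))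
    (by positivity) (by positivity)
  · by_cases h5 : e = 3
    · have h6 := h3 h5
      subst h5
      have hc : ch 3 (3 ^ 2) = 27 := by decide
      rw [hc]
      omega
    · refine le_trans ?_ (xsnumd_base e ho' (by omega))
      gcongr
  · calc 2 * T * (e ^ 2 * ch 3 (e ^ 2)) * 13 ^ e
        = 2 * T * 13 ^ e * (e ^ 2 * ch 3 (e ^ 2)) := by ring
      _ ≤ 8 * 13 ^ (d - d / 2) * (e ^ 2 * ch 3 (e ^ 2)) := by gcongr
      _ = _ := by ring

theorem numD (d e g I M r μ n : ℕ) (ho : Odd e) (hg : 0 < g) (h2 : 2 * e ≤ d) (hge : g * e ≤ d)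
    (hI : I ≤ ch 3 (e ^ 2)) (hM : M < I) (h3 : e = 3 → M ≤ 1) (hμ : 0 < μ) (h12 : μ ≤ 12)
    (hr : r ≤ μ * g ^ 2) (hr2 : g ≤ 2 → r ≤ 2 * μ) (hn : n ≤ g * (r * e ^ 2 * I)) :
    2 * (n - r) * (13 ^ (d / 2) - 1) + μ * e ^ 2 * M * (13 ^ (2 * d / 3) - 1) <
      μ * (13 ^ d - 1) ∧ n < 13 ^ d - 1 := by
  have he : 0 < e := ho.pos
  obtain ⟨T, hT, hgr⟩ : ∃ T, (T = 4 ∨ 3 ≤ g ∧ T = g ^ 3) ∧ g * r ≤ μ * T := by
    by_cases h : g ≤ 2
    · exact ⟨4, Or.inl rfl, (Nat.mul_le_mul h (hr2 h)).trans (by omega)⟩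
    · exact ⟨g ^ 3, Or.inr ⟨by omega, rfl⟩,
        (Nat.mul_le_mul_left g hr).trans (le_of_eq (by ring))⟩
  have hT0 : 0 < T := by
    rcases hT with rfl | ⟨_, rfl⟩ <;> positivity
  have key := xsnumd_key d e g T M ho h2 hge hT (hM.trans_le hI) h3
  have hX : 0 < e ^ 2 * ch 3 (e ^ 2) := Nat.mul_pos (by positivity) (by omega)
  have hn' : n ≤ μ * (T * (e ^ 2 * ch 3 (e ^ 2))) :=
    calc n ≤ g * (r * e ^ 2 * I) := hn
      _ = g * r * (e ^ 2 * I) := by ring
      _ ≤ μ * T * (e ^ 2 * ch 3 (e ^ 2)) := by gcongr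
      _ = _ := by ring
  have hz : 13 ^ d = 13 ^ (d - d / 2) * 13 ^ (d / 2) := by
    rw [← pow_add]
    congr 1
    omega
  have hz' : 13 ^ d = 13 ^ (d - 2 * d / 3) * 13 ^ (2 * d / 3) := by
    rw [← pow_add]
    congr 1
    omega
  have ha : 13 ^ 1 ≤ 13 ^ (d - d / 2) := Nat.pow_le_pow_right (by norm_num) (by omega)
  have hb : 13 ^ 1 ≤ 13 ^ (d - 2 * d / 3) := Nat.pow_le_pow_right (by norm_num) (by omega)
  have hx : 13 ^ 1 ≤ 13 ^ (d / 2) := Nat.pow_le_pow_right (by norm_num) (by omega)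
  have hTX : 0 < T * (e ^ 2 * ch 3 (e ^ 2)) := Nat.mul_pos hT0 hX
  rw [mul_assoc 2 T] at key
  generalize T * (e ^ 2 * ch 3 (e ^ 2)) = Y at *
  constructor
  · have h1 := xsnumd_fin key hz hz' (by omega) (by omega) (by positivity) (by positivity)
      (by omega)
    calc 2 * (n - r) * (13 ^ (d / 2) - 1) + μ * e ^ 2 * M * (13 ^ (2 * d / 3) - 1)
        ≤ 2 * (μ * Y) * (13 ^ (d / 2) - 1) + μ * e ^ 2 * M * (13 ^ (2 * d / 3) - 1) := by
          gcongr
          omega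
      _ = μ * (2 * Y * (13 ^ (d / 2) - 1) + e ^ 2 * M * (13 ^ (2 * d / 3) - 1)) := by ring
      _ < μ * (13 ^ d - 1) := Nat.mul_lt_mul_of_pos_left h1 hμ
  · have h1 : 2 * Y ≤ 13 ^ (d - d / 2) :=
      Nat.le_of_mul_le_mul_right ((Nat.le_add_right _ _).trans key) (by positivity)
    have h4 : μ * Y ≤ 12 * Y := Nat.mul_le_mul_right Y h12
    have h5 := Nat.mul_le_mul_left (13 ^ (d - d / 2)) hx
    omega

end Pool.Agent.N9181

end

section

namespace Pool.Agent.N9181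

open scoped commutatorElement

theorem xsregd_pm (p : ℕ) (hp : p.Prime) (h3 : p ≠ 3) (c c1 : K) (h0 : c1 ≠ 0)
    (h : c ^ p = c1 ^ p) : c = c1 ∨ c = -c1 := by
  by_cases h2 : p = 2
  · subst h2
    exact sq_eq_sq_iff_eq_or_eq_neg.1 h
  · left
    have hc : c ≠ 0 := by
      rintro rfl
      rw [zero_pow hp.ne_zero] at h
      exact pow_ne_zero p h0 h.symm
    have hco : Nat.gcd p 12 = 1 := by
      have a2 : Nat.Coprime p 2 := (Nat.coprime_primes hp Nat.prime_two).2 h2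
      have a3 : Nat.Coprime p 3 := (Nat.coprime_primes hp Nat.prime_three).2 h3
      exact (a2.mul_right (a2.mul_right a3) : Nat.Coprime p (2 * (2 * 3)))
    have e1 : (c / c1) ^ p = 1 := by
      rw [div_pow, h, div_self (pow_ne_zero p h0)]
    have e2 : (c / c1) ^ 12 = 1 := k_twelve _ (div_ne_zero hc h0)
    have e3 : (c / c1) ^ Nat.gcd p 12 = 1 := pow_gcd_eq_one.2 ⟨e1, e2⟩
    rw [hco, pow_one] at e3
    exact (div_eq_one_iff_eq h0).1 e3

theorem xsregd_24 (r : ℕ) (h : r ∣ 24) : r ≤ 2 * Nat.gcd r 12 := by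
  have hle : r ≤ 24 := Nat.le_of_dvd (by norm_num) h
  interval_cases r <;> first | decide | (exfalso; revert h; decide)

section

variable {V : Type} [AddCommGroup V] [Module K V] [Module.Finite K V]
  {H : Type} [Group H] [Finite H] (ρ : Representation K H V)

/-- the elements outside `A` of prime order different from `3` modulo the scalars -/
def xsregdT (A : Subgroup H) : Set H :=
  {h | h ∉ A ∧ ∃ p : ℕ, p.Prime ∧ p ≠ 3 ∧ h ^ p ∈ scal ρ}

/-- the eigenvectors -/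
def xsregdS (h : H) : Set V := {v | v ≠ 0 ∧ ∃ c : K, ρ h v = c • v}

omit [Module.Finite K V] [Finite H] in
theorem xsregd_ne (h : H) (v : V) (c : K) (h0 : v ≠ 0) (hv : ρ h v = c • v) : c ≠ 0 := by
  rintro rfl
  have := rho_inv ρ h v
  rw [hv, zero_smul, map_zero] at this
  exact h0 this.symm

theorem xsregd_pow (N : ℕ) (A F : Subgroup H) (hG : GB ρ N A F) (w : V) (h0 : w ≠ 0) (h : H)
    (c : K) (h3 : ¬ 3 ∣ orderOf h) (hw : ρ h w = c • w) (hn : h ∉ scal ρ) :
    ∃ t ∈ xsregdT ρ A, w ∈ xsregdS ρ t := by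
  have := scal_normal ρ
  set x : H ⧸ scal ρ := QuotientGroup.mk' (scal ρ) h with hx
  have hm : orderOf x ∣ orderOf h := orderOf_map_dvd _ _
  have hiff : ∀ k : ℕ, h ^ k ∈ scal ρ ↔ orderOf x ∣ k := by
    intro k
    rw [orderOf_dvd_iff_pow_eq_one, hx, ← map_pow, QuotientGroup.mk'_apply,
      QuotientGroup.eq_one_iff]
  have h1 : orderOf x ≠ 1 := by
    intro e
    apply hn
    have := (hiff 1).2 (by rw [e])
    rwa [pow_one] at this
  have hpos : 0 < orderOf x := orderOf_pos x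
  obtain ⟨p, hp, k, hk⟩ := Nat.exists_prime_and_dvd h1
  have hk0 : 0 < k := by
    rcases Nat.eq_zero_or_pos k with e | e
    · rw [e, mul_zero] at hk
      omega
    · exact e
  have hev : ρ (h ^ k) w = c ^ k • w := rho_pow_eig ρ h w c hw k
  refine ⟨h ^ k, ⟨fun hA => ?_, p, hp, ?_, ?_⟩, h0, _, hev⟩
  · have := (hiff k).1 (eb_A ρ N A F hG _ hA w h0 _ hev)
    have := Nat.le_of_dvd hk0 this
    have := hp.two_le
    nlinarith
  · rintro rfl
    exact h3 (dvd_trans ⟨k, hk⟩ hm)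
  · rw [← pow_mul, hiff, hk, mul_comm]

theorem xsregd_mu (N : ℕ) (A F : Subgroup H) (hG : GB ρ N A F) (w : V) (t : H)
    (ht : t ∈ xsregdT ρ A) (hw : w ∈ xsregdS ρ t) :
    Nat.card (scal ρ) ≤ {s | s ∈ xsregdT ρ A ∧ w ∈ xsregdS ρ s}.ncard := by
  obtain ⟨hA, p, hp, h3, hs⟩ := ht
  obtain ⟨h0, c, hc⟩ := hw
  have hle := (gb_scal ρ N A F hG).1
  have : Nat.card (scal ρ) = (scal ρ : Set H).ncard := rfl
  rw [this]
  refine Set.ncard_le_ncard_of_injOn (fun z => t * z) ?_ (fun a _ b _ e => mul_left_cancel e)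
    (Set.toFinite _)
  intro z hz
  have hz' : z ∈ scal ρ := hz
  refine ⟨⟨fun hm => hA ?_, p, hp, h3, ?_⟩, h0, ?_⟩
  · have := A.mul_mem hm (A.inv_mem (hle hz'))
    rwa [mul_inv_cancel_right] at this
  · have hcm : Commute t z := (scal_central ρ hG.inj z hz' t).symm
    rw [hcm.mul_pow]
    exact (scal ρ).mul_mem hs ((scal ρ).pow_mem hz' p)
  · obtain ⟨a, -, ha⟩ := hz'
    exact ⟨a * c, by rw [rho_mul, ha, map_smul, hc, smul_smul]⟩

theorem xsregd_cnt (A : Subgroup H) (t : H) (ht : t ∈ xsregdT ρ A) (k : ℕ)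
    (hk : ∀ c, ed (ρ t) c ≤ k) :
    (xsregdS ρ t).ncard ≤ (13 ^ (Module.finrank K V / 2) - 1) + (13 ^ k - 1) := by
  obtain ⟨-, p, hp, h3, s, -, hs⟩ := ht
  rcases (xsregdS ρ t).eq_empty_or_nonempty with e | ⟨v1, h1, c1, hc1⟩
  · rw [e, Set.ncard_empty]
    exact Nat.zero_le _
  have hev : ∀ (v : V) (c : K), v ≠ 0 → ρ t v = c • v → c ^ p = s := by
    intro v c h0 hv
    have := rho_pow_eig ρ t v c hv p
    rw [hs] at this
    exact (smul_left_injective K h0 this).symm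
  have hc0 : c1 ≠ 0 := xsregd_ne ρ t v1 c1 h1 hc1
  have hsub : xsregdS ρ t ⊆
      {v : V | v ≠ 0 ∧ ρ t v = c1 • v} ∪ {v : V | v ≠ 0 ∧ ρ t v = (-c1) • v} := by
    rintro v ⟨h0, c, hc⟩
    rcases xsregd_pm p hp h3 c c1 hc0 ((hev v c h0 hc).trans (hev v1 c1 h1 hc1).symm) with e | e
    · exact Or.inl ⟨h0, e ▸ hc⟩
    · exact Or.inr ⟨h0, e ▸ hc⟩
  have : Finite V := Module.finite_of_finite K
  have hne : c1 ≠ -c1 := by
    intro e
    have e2 : (2 : K) * c1 = 0 := by linear_combination e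
    rcases mul_eq_zero.1 e2 with e3 | e3
    · exact absurd e3 (by decide)
    · exact hc0 e3
  have hsum := ed_two (⊤ : Submodule K V) (ρ t) c1 (-c1) hne
  rw [edOn_top, edOn_top, finrank_top] at hsum
  have hb := (Set.ncard_le_ncard hsub (Set.toFinite _)).trans (Set.ncard_union_le _ _)
  by_cases hs1 : ed (ρ t) c1 ≤ Module.finrank K V / 2
  · exact hb.trans (add_le_add (ev_ncard (ρ t) c1 _ hs1) (ev_ncard (ρ t) (-c1) _ (hk _)))
  · have hs2 : ed (ρ t) (-c1) ≤ Module.finrank K V / 2 := by omega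
    rw [add_comm]
    exact hb.trans (add_le_add (ev_ncard (ρ t) c1 _ (hk _)) (ev_ncard (ρ t) (-c1) _ hs2))

theorem xsregd_23 (A F : Subgroup H) (hS : SD A F) (hA : FreeOn ρ A) (e : ℕ)
    (he : A.relIndex F = e ^ 2) (ho : Odd e) (t : H)
    (hC : t ∈ Subgroup.centralizer (A : Set H)) (hF : t ∉ F) (c : K) :
    ed (ρ t) c ≤ 2 * Module.finrank K V / 3 := by
  have : ∃ y ∈ F, ⁅t, y⁆ ∉ A := by
    by_contra hn
    exact hF (hS.ff t hC (fun y hy => by
      by_contra h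
      exact hn ⟨y, hy, h⟩))
  obtain ⟨y, hy, hyA⟩ := this
  have h1 : ⁅y, t⁆ ∉ A := by
    intro h
    apply hyA
    rw [← commutatorElement_inv]
    exact A.inv_mem h
  have h2 : ⁅y, t⁆ ∈ F := by
    have : ⁅y, t⁆ = y * (t * y⁻¹ * t⁻¹) := by
      rw [commutatorElement_def]
      group
    rw [this]
    exact F.mul_mem hy (hS.nF.conj_mem _ (F.inv_mem hy) t)
  have := eb_23 ρ A F hS hA t y hy h1 (e ^ 2) ho.pow (pow_e A F hS e he _ h2) c
  omega

theorem xsregd_coset (N : ℕ) (A F : Subgroup H) (hG : GB ρ N A F) (t s : H) (a b : K)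
    (ha : Module.finrank K V < 2 * ed (ρ t) a) (hb : Module.finrank K V < 2 * ed (ρ s) b)
    (hA : t⁻¹ * s ∈ A) : t⁻¹ * s ∈ scal ρ := by
  have h1 := Submodule.finrank_sup_add_finrank_inf_eq
    (Module.End.eigenspace (ρ t) a) (Module.End.eigenspace (ρ s) b)
  have h2 := Submodule.finrank_le
    (Module.End.eigenspace (ρ t) a ⊔ Module.End.eigenspace (ρ s) b)
  have h3 : Module.End.eigenspace (ρ t) a ⊓ Module.End.eigenspace (ρ s) b ≠ ⊥ := by
    intro e
    rw [e, finrank_bot] at h1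
    unfold ed at ha hb
    omega
  obtain ⟨v, ⟨hv1, hv2⟩, h0⟩ := Submodule.exists_mem_ne_zero_of_ne_bot h3
  have e1 : ρ t v = a • v := Module.End.mem_eigenspace_iff.1 hv1
  have e2 : ρ s v = b • v := Module.End.mem_eigenspace_iff.1 hv2
  have a0 : a ≠ 0 := xsregd_ne ρ t v a h0 e1
  have e3 : ρ t⁻¹ v = a⁻¹ • v := by
    rw [eq_inv_smul_iff₀ a0, ← map_smul, ← e1, rho_inv]
  refine eb_A ρ N A F hG _ hA v h0 (b * a⁻¹) ?_
  rw [rho_mul, e2, map_smul, e3, smul_smul]

end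

theorem regD {V : Type} [AddCommGroup V] [Module K V] [Module.Finite K V]
    {H : Type} [Group H] [Finite H] (ρ : Representation K H V) (N : ℕ) (A F : Subgroup H) (hG : GB ρ N A F) (e : ℕ) (he : A.relIndex F = e ^ 2) (ho : Odd e) (h2 : 2 * e ≤ Module.finrank K V) :
    (∃ w : V, w ≠ 0 ∧ ∀ (h : H) (c : K), ¬ 3 ∣ orderOf h → ρ h w = c • w → h ∈ scal ρ) ∧
      Nat.card H < 13 ^ Module.finrank K V - 1 := by
  classical
  obtain ⟨g, hg, hge, hidx, hr, -, hg2⟩ := lam ρ N A F hG e he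
  obtain ⟨I, M, hI, hM, h3, hC, hcnt⟩ := cntA A F hG.sd e he ho
  obtain ⟨hle, hmu, -⟩ := gb_scal ρ N A F hG
  have hn : Nat.card H ≤ g * (Nat.card A * e ^ 2 * I) := by
    rw [← (Subgroup.centralizer (A : Set H)).index_mul_card]
    exact Nat.mul_le_mul (Nat.le_of_dvd hg hidx) hC
  obtain ⟨hnum, hlt⟩ := numD (Module.finrank K V) e g I M (Nat.card A) (Nat.gcd (Nat.card A) 12)
    (Nat.card H) ho hg h2 hge hI hM h3 (Nat.gcd_pos_of_pos_right _ (by norm_num))
    (Nat.gcd_le_right _ (by norm_num)) hr (fun h => xsregd_24 _ (hg2 h)) hn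
  refine ⟨?_, hlt⟩
  by_contra hno
  rw [← hmu] at hnum
  set T : Finset H := (Set.toFinite (xsregdT ρ A)).toFinset with hT
  have hmT : ∀ t, t ∈ T ↔ t ∈ xsregdT ρ A := fun t => Set.Finite.mem_toFinset _
  have hcov := cover T (xsregdS ρ) (Nat.card (scal ρ)) (by
    intro v h0
    have : ∃ (h : H) (c : K), ¬ 3 ∣ orderOf h ∧ ρ h v = c • v ∧ h ∉ scal ρ := by
      by_contra hn
      refine hno ⟨v, h0, fun h c a b => ?_⟩
      by_contra hh
      exact hn ⟨h, c, a, b, hh⟩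
    obtain ⟨h, c, a, b, hh⟩ := this
    obtain ⟨t, ht, hv⟩ := xsregd_pow ρ N A F hG v h0 h c a b hh
    simp only [hmT]
    exact xsregd_mu ρ N A F hG v t ht hv)
  set P : H → Prop := fun t => ∃ c, Module.finrank K V < 2 * ed (ρ t) c with hP
  have hbig : ∀ t ∈ xsregdT ρ A, P t → t ∈ Subgroup.centralizer (A : Set H) ∧ t ∉ F := by
    rintro t ht ⟨c, hc⟩
    by_contra hn
    have := eb_half ρ A F hG.sd hG.free t ht.1 (by tauto) c
    omega
  have hB : (T.filter P).card ≤ Nat.card (scal ρ) * e ^ 2 * M := by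
    rw [← Set.ncard_coe_finset]
    refine hcnt _ _ ?_ ?_
    · intro t ht
      obtain ⟨h1, h2⟩ := Finset.mem_filter.1 ht
      rw [hmT] at h1
      obtain ⟨a, b⟩ := hbig t h1 h2
      obtain ⟨-, p, hp, hp3, hs⟩ := h1
      exact ⟨a, b, p, hp, hp3, hle hs⟩
    · intro t ht
      obtain ⟨-, a, ha⟩ := Finset.mem_filter.1 ht
      have : Nat.card (scal ρ) = (scal ρ : Set H).ncard := rfl
      rw [this]
      refine Set.ncard_le_ncard_of_injOn (fun s => t⁻¹ * s) ?_
        (fun a _ b _ e => mul_left_cancel e) (Set.toFinite _)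
      rintro s ⟨hs, hsA⟩
      obtain ⟨-, b, hb⟩ := Finset.mem_filter.1 hs
      exact xsregd_coset ρ N A F hG t s a b ha hb hsA
  have hTc : T.card ≤ Nat.card H - Nat.card A := by
    have h1 := Set.ncard_add_ncard_compl (A : Set H) (Set.toFinite _) (Set.toFinite _)
    have h2 : Nat.card A = (A : Set H).ncard := rfl
    have h4 : T.card ≤ (A : Set H)ᶜ.ncard := by
      rw [← Set.ncard_coe_finset]
      exact Set.ncard_le_ncard (fun t ht => ((hmT t).1 ht).1) (Set.toFinite _)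
    omega
  have hsum : ∑ t ∈ T, (xsregdS ρ t).ncard ≤ ∑ t ∈ T, (2 * (13 ^ (Module.finrank K V / 2) - 1) +
      if P t then 13 ^ (2 * Module.finrank K V / 3) - 1 else 0) := by
    refine Finset.sum_le_sum fun t ht => ?_
    rw [hmT] at ht
    by_cases hp : P t
    · obtain ⟨a, b⟩ := hbig t ht hp
      have := xsregd_cnt ρ A t ht _ (xsregd_23 ρ A F hG.sd hG.free e he ho t a b)
      rw [if_pos hp]
      omega
    · have := xsregd_cnt ρ A t ht (Module.finrank K V / 2) (fun c => by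
        have : ¬ Module.finrank K V < 2 * ed (ρ t) c := fun h => hp ⟨c, h⟩
        omega)
      rw [if_neg hp]
      omega
  rw [Finset.sum_add_distrib, ← Finset.sum_filter, Finset.sum_const, Finset.sum_const,
    smul_eq_mul, smul_eq_mul] at hsum
  have k1 := Nat.mul_le_mul_right (2 * (13 ^ (Module.finrank K V / 2) - 1)) hTc
  have k2 := Nat.mul_le_mul_right (13 ^ (2 * Module.finrank K V / 3) - 1) hB
  have k3 : (Nat.card H - Nat.card A) * (2 * (13 ^ (Module.finrank K V / 2) - 1)) =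
      2 * (Nat.card H - Nat.card A) * (13 ^ (Module.finrank K V / 2) - 1) := by ring
  have k4 := hcov.trans (hsum.trans (add_le_add k1 k2))
  rw [k3] at k4
  exact absurd hnum (not_lt.2 k4)

end Pool.Agent.N9181

end

section

namespace Pool.Agent.N9181

open scoped commutatorElement

theorem xsspb_parts {G : Type} [Group G] {u c g : G} (huc : Commute u c)
    (cop : Nat.Coprime (orderOf u) (orderOf c)) {b : ℕ} (h : g * (u * c) * g⁻¹ = (u * c) ^ b) :
    g * u * g⁻¹ = u ^ b ∧ g * c * g⁻¹ = c ^ b := by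
  obtain ⟨e1, h11, h12⟩ := Nat.chineseRemainder cop 1 0
  obtain ⟨e2, h21, h22⟩ := Nat.chineseRemainder cop 0 1
  have k1 : (u * c) ^ e1 = u := by
    rw [huc.mul_pow, pow_eq_pow_iff_modEq.2 h11, pow_eq_pow_iff_modEq.2 h12, pow_one, pow_zero,
      mul_one]
  have k2 : (u * c) ^ e2 = c := by
    rw [huc.mul_pow, pow_eq_pow_iff_modEq.2 h21, pow_eq_pow_iff_modEq.2 h22, pow_one, pow_zero,
      one_mul]
  have key : ∀ e : ℕ, g * (u * c) ^ e * g⁻¹ = ((u * c) ^ e) ^ b := by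
    intro e
    rw [← pow_mul, mul_comm e b, pow_mul, ← h, conj_pow]
  exact ⟨by simpa only [k1] using key e1, by simpa only [k2] using key e2⟩

theorem xsspb_crt {a b N j j' : ℕ} (hab : a.Coprime b) (ha : a ∣ N) (hb : b ∣ N) (hN : 0 < N)
    (hj : j.Coprime N) (hj' : j'.Coprime N) :
    ∃ k : ℕ, k.Coprime N ∧ k ≡ j [MOD a] ∧ k ≡ j' [MOD b] := by
  obtain ⟨k, h1, h2⟩ := Nat.chineseRemainder hab j j'
  have c1 : k.Coprime a := by
    rw [Nat.Coprime, h1.gcd_eq]
    exact hj.coprime_dvd_right ha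
  have c2 : k.Coprime b := by
    rw [Nat.Coprime, h2.gcd_eq]
    exact hj'.coprime_dvd_right hb
  obtain ⟨l, hl, h⟩ := exists_j (a * b) N k (hab.mul_dvd_of_dvd_of_dvd ha hb) hN (c1.mul_right c2)
  exact ⟨l, hl, (h.of_mul_right _).trans h1, (h.of_mul_left _).trans h2⟩

theorem sp_of_sr {G : Type} [Group G] [Finite G] (h : Pool.Agent.MP_9181f8_al.IsSR G) : SP G (Nat.card G) := by
  refine ⟨dvd_rfl, Nat.card_pos, fun x j j' hj hj' => ?_⟩
  obtain ⟨m, hm⟩ := h x
  have hm' : ∀ i : ℕ, i.Coprime (orderOf x) → IsConj (x ^ i) x ∨ IsConj (x ^ i) (x ^ m) :=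
    fun i hi => by simpa only [zpow_natCast] using hm i (by simpa using hi)
  rcases hm' j (hj.coprime_dvd_right (orderOf_dvd_natCard x)) with a | a
  · exact Or.inl a.symm
  obtain ⟨k, hk⟩ := exists_pow_eq_self_of_coprime (x := x)
    (hj'.coprime_dvd_right (orderOf_dvd_natCard x))
  rw [← pow_mul, mul_comm] at hk
  have hk' : k.Coprime (orderOf x) := Nat.coprime_of_mul_modEq_one j'
    (pow_eq_pow_iff_modEq.1 (hk.trans (pow_one x).symm))
  rcases hm' k hk' with b | b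
  · have c := b.pow j'
    rw [← pow_mul, hk] at c
    exact Or.inr (Or.inl c)
  · have c := (b.trans a.symm).pow j'
    rw [← pow_mul, ← pow_mul, hk] at c
    exact Or.inr (Or.inr c)

theorem sp_surj {G : Type} [Group G] [Finite G] {G' : Type} [Group G'] (f : G →* G') (hf : Function.Surjective f)
    (N : ℕ) (hP : SP G N) : SP G' N := by
  obtain ⟨hc, hN, h⟩ := hP
  refine ⟨(Subgroup.card_dvd_of_surjective f hf).trans hc, hN, fun y j j' hj hj' => ?_⟩
  obtain ⟨x, rfl⟩ := hf y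
  rw [← map_pow, ← map_pow, ← map_pow]
  exact (h x j j' hj hj').imp f.map_isConj (Or.imp f.map_isConj f.map_isConj)

theorem sp_sq {G : Type} [Group G] [Finite G] (N : ℕ) (hP : SP G N) (x : G) (j : ℕ) (hj : j.Coprime N) :
    IsConj x (x ^ (j * j)) := by
  have key : IsConj x (x ^ j) → IsConj x (x ^ (j * j)) := fun a => by
    have b := a.pow j
    rw [← pow_mul] at b
    exact a.trans b
  exact (hP.2.2 x j j hj hj).elim key fun a => a.elim key id

theorem sp_cop {G : Type} [Group G] [Finite G] (N : ℕ) (hP : SP G N) (x t : G) (hc : Commute x t)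
    (ho : Nat.Coprime (orderOf x) (orderOf t)) (hn : Nonrat N t) (j : ℕ) (hj : j.Coprime N) :
    ∃ g : G, g * t = t * g ∧ g * x * g⁻¹ = x ^ j := by
  obtain ⟨j0, hj0, hn⟩ := hn
  have hx := (orderOf_dvd_natCard x).trans hP.1
  have ht := (orderOf_dvd_natCard t).trans hP.1
  obtain ⟨j1, c1, h11, h12⟩ := xsspb_crt ho hx ht hP.2.1 hj (Nat.coprime_one_left N)
  obtain ⟨j2, c2, -, h22⟩ := xsspb_crt ho hx ht hP.2.1 hj hj0
  rcases hP.2.2 (x * t) j1 j2 c1 c2 with a | a | a <;> obtain ⟨g, hg⟩ := isConj_iff.1 a <;>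
    obtain ⟨k1, k2⟩ := xsspb_parts hc ho hg
  · rw [pow_eq_pow_iff_modEq.2 h11] at k1
    rw [pow_eq_pow_iff_modEq.2 h12, pow_one] at k2
    exact ⟨g, mul_inv_eq_iff_eq_mul.1 k2, k1⟩
  · rw [pow_eq_pow_iff_modEq.2 h22] at k2
    exact absurd (isConj_iff.2 ⟨g, k2⟩) hn
  · rw [pow_eq_pow_iff_modEq.2 (h12.mul h22), one_mul] at k2
    exact absurd (isConj_iff.2 ⟨g, k2⟩) hn

theorem sp_eig {V : Type} [AddCommGroup V] [Module K V] [Module.Finite K V]
    {G : Type} [Group G] [Finite G] (ρ : Representation K G V) (ι : V → G) (hι : Emb ρ ι) (N : ℕ) (hP : SP G N) (c : G)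
    (hc : ¬ 13 ∣ orderOf c) (hn : Nonrat N c) (v : V) (hv : ρ c v = v) (l : K) (hl : l ≠ 0) :
    ∃ g : G, g * c = c * g ∧ ρ g v = l • v := by
  by_cases hv0 : v = 0
  · exact ⟨1, by simp, by simp [hv0]⟩
  obtain ⟨h0, hsm, h13, -⟩ := emb_basic ρ ι hι
  have ho : orderOf (ι v) = 13 :=
    orderOf_eq_prime (h13 v) fun h => hv0 (hι.inj (h.trans h0.symm))
  obtain ⟨j, hjN, hj⟩ := exists_j 13 N l.val ((ho ▸ orderOf_dvd_natCard (ι v)).trans hP.1) hP.2.1
    (Nat.coprime_of_lt_prime (fun h => hl ((ZMod.val_eq_zero l).1 h)) (ZMod.val_lt l)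
      (by norm_num)).symm
  have hjl : (j : K) = l := by
    rw [(ZMod.natCast_eq_natCast_iff j l.val 13).2 hj, ZMod.natCast_zmod_val]
  have huc : Commute (ι v) c := by
    have h := hι.act c v
    rw [hv] at h
    exact (mul_inv_eq_iff_eq_mul.1 h.symm).symm
  obtain ⟨g, h1, h2⟩ := sp_cop N hP (ι v) c huc
    (by rw [ho]; exact (Nat.Prime.coprime_iff_not_dvd (by norm_num)).2 hc) hn j hjN
  exact ⟨g, h1, hι.inj (by rw [hι.act, h2, ← hjl, hsm])⟩

end Pool.Agent.N9181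

end

section

namespace Pool.Agent.N9181

open scoped commutatorElement

theorem xssphu_inv {G : Type} [Group G] {x y : G} (h : IsConj x y) : IsConj x⁻¹ y⁻¹ := by
  obtain ⟨c, rfl⟩ := isConj_iff.1 h
  exact isConj_iff.2 ⟨c, by group⟩

theorem xssphu_step {G R : Type} [Group G] [CommRing R] (β : G → R)
    (hβ : ∀ x y, IsConj x y → β x = β y) (t : G) (u : R) (j : ℕ) (hc : ∀ x, Commute x t)
    (h3 : t ^ 3 = 1) (hj : j % 3 = 1) (hu : u ^ 3 = 1) (ht : ∀ x, β (x * t) = u * β x) (h : G)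
    (hx : IsConj (h * t) ((h * t) ^ j) ∨ IsConj (h * t) (h * t)⁻¹ ∨
      IsConj (h * t) ((h * t) ^ j)⁻¹) :
    (β h = β (h ^ j) ∧ β h⁻¹ = β (h ^ j)⁻¹) ∨
      (β h = u * β h⁻¹ ∧ β (h ^ j) = u * β (h ^ j)⁻¹) ∨
      (β h = u * β (h ^ j)⁻¹ ∧ β (h ^ j) = u * β h⁻¹) := by
  have tj : t ^ j = t := by
    rw [← Nat.div_add_mod j 3, pow_add, pow_mul, h3, one_pow, one_mul, hj, pow_one]
  have ti : t⁻¹ = t * t := by
    rw [inv_eq_iff_mul_eq_one, ← h3, pow_succ, pow_two, mul_assoc]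
  have e1 : (h * t) ^ j = h ^ j * t := by rw [(hc h).mul_pow, tj]
  have e2 : ∀ y : G, β (y * t)⁻¹ = u * (u * β y⁻¹) := by
    intro y
    rw [(hc y).eq, mul_inv_rev, ti, ← mul_assoc, ht, ht]
  have can : ∀ a b : R, u * a = u * b → a = b := by
    intro a b e
    linear_combination u ^ 2 * e - (a - b) * hu
  rcases hx with hx | hx | hx
  · have a1 := hβ _ _ hx
    have a2 := hβ _ _ (xssphu_inv hx)
    rw [e1] at a1 a2
    rw [ht, ht] at a1
    rw [e2, e2] at a2
    exact Or.inl ⟨can _ _ a1, can _ _ (can _ _ a2)⟩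
  · have a1 := hβ _ _ hx
    have a2 := hβ _ _ (hx.pow j)
    rw [inv_pow, e1] at a2
    rw [ht, e2] at a1 a2
    exact Or.inr (Or.inl ⟨can _ _ a1, can _ _ a2⟩)
  · have a1 := hβ _ _ hx
    have a2 := hβ _ _ (xssphu_inv hx)
    rw [inv_inv] at a2
    rw [e1] at a1 a2
    rw [ht, e2] at a1 a2
    exact Or.inr (Or.inr ⟨can _ _ a1, can _ _ a2.symm⟩)

theorem xssphu_two {R : Type} [CommRing R] (a a' b b' u u' : R) (hu : IsUnit (u - u'))
    (h1 : a = u * a') (h2 : b = u * b') (h3 : a = u' * a') (h4 : b = u' * b') :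
    a = 0 ∧ a' = 0 ∧ b = 0 ∧ b' = 0 := by
  have e1 : a' = 0 := hu.mul_right_eq_zero.1 (by linear_combination h3 - h1)
  have e2 : b' = 0 := hu.mul_right_eq_zero.1 (by linear_combination h4 - h2)
  exact ⟨by rw [h1, e1, mul_zero], e1, by rw [h2, e2, mul_zero], e2⟩

theorem xssphu_main {G R : Type} [Group G] [CommRing R] (β : G → R)
    (hβ : ∀ x y, IsConj x y → β x = β y) (z : G) (w : R) (j : ℕ) (hc : ∀ x, Commute x z)
    (h3 : z ^ 3 = 1) (hj : j % 3 = 1) (hw : w ^ 3 = 1) (hz : ∀ x, β (x * z) = w * β x)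
    (u1 : IsUnit (w - w ^ 2))
    (hx : ∀ x : G, IsConj x (x ^ j) ∨ IsConj x x⁻¹ ∨ IsConj x (x ^ j)⁻¹) (h : G) :
    β (h ^ j) + β (h ^ j)⁻¹ = β h + β h⁻¹ := by
  have s0 := xssphu_step β hβ 1 1 j (fun x => Commute.one_right x) (one_pow 3) hj (one_pow 3)
    (fun x => by rw [mul_one, one_mul]) h (hx _)
  have s1 := xssphu_step β hβ z w j hc h3 hj hw hz h (hx _)
  have s2 := xssphu_step β hβ (z ^ 2) (w ^ 2) j (fun x => (hc x).pow_right 2)
    (by rw [← pow_mul, mul_comm, pow_mul, h3, one_pow]) hj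
    (by rw [← pow_mul, mul_comm, pow_mul, hw, one_pow])
    (fun x => by rw [pow_two, ← mul_assoc, hz, hz]; ring) h (hx _)
  have uw : IsUnit w := IsUnit.of_pow_eq_one hw (by norm_num)
  have u2 : IsUnit (1 - w) := by
    have : 1 - w = w ^ 2 * (w - w ^ 2) := by linear_combination (w - 1) * hw
    rw [this]
    exact (uw.pow 2).mul u1
  have u3 : IsUnit (1 - w ^ 2) := by
    have : 1 - w ^ 2 = -(w * (w - w ^ 2)) := by linear_combination (-1 : R) * hw
    rw [this]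
    exact (uw.mul u1).neg
  rcases s0 with ⟨a, b⟩ | ⟨a0, b0⟩ | ⟨a, b⟩
  · rw [a, b]
  · rcases s1 with ⟨a, b⟩ | ⟨a1, b1⟩ | ⟨a1, b1⟩
    · rw [a, b]
    · obtain ⟨c1, c2, c3, c4⟩ := xssphu_two _ _ _ _ _ _ u2 a0 b0 a1 b1
      rw [c1, c2, c3, c4]
    · rcases s2 with ⟨a, b⟩ | ⟨a2, b2⟩ | ⟨a2, b2⟩
      · rw [a, b]
      · obtain ⟨c1, c2, c3, c4⟩ := xssphu_two _ _ _ _ _ _ u3 a0 b0 a2 b2
        rw [c1, c2, c3, c4]
      · obtain ⟨c1, c2, c3, c4⟩ := xssphu_two _ _ _ _ _ _ u1 a1 b1 a2 b2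
        rw [c1, c2, c3, c4]
  · linear_combination b - a

theorem sp_HU {V : Type} [AddCommGroup V] [Module K V] [Module.Finite K V]
    {H : Type} [Group H] [Finite H] (ρ : Representation K H V) (h13 : ¬ 13 ∣ Nat.card H) (hinj : Function.Injective ρ) (N : ℕ)
    (hP : SP H N) (hz : Scal ρ) : HU ρ N (N - 1) := by
  intro h j hj M
  obtain ⟨z, hz⟩ := hz
  obtain ⟨hd, hN, hS⟩ := hP
  by_cases h1 : z = 1
  · have h0 : ∀ v : V, v = 0 := by
      intro v
      have e := hz v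
      rw [h1, map_one, Module.End.one_apply] at e
      have e2 : ((3 : K) - 1) • v = 0 := by rw [sub_smul, one_smul, ← e, sub_self]
      exact (smul_eq_zero.1 e2).resolve_left (by decide)
    have e : ∀ x y : H, ρ x = ρ y := fun x y => LinearMap.ext fun v => by
      rw [h0 (ρ x v), h0 (ρ y v)]
    rw [e (h ^ j) h, e (h ^ (j * (N - 1))) (h ^ (N - 1))]
  have h3 : z ^ 3 = 1 := by
    apply hinj
    refine LinearMap.ext fun v => ?_
    rw [rho_pow_eig ρ z v 3 (hz v) 3, map_one, Module.End.one_apply,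
      show (3 : K) ^ 3 = 1 by decide, one_smul]
  have hN3 : 3 ∣ N := by
    have : Fact (Nat.Prime 3) := ⟨Nat.prime_three⟩
    rw [← orderOf_eq_prime h3 h1]
    exact (orderOf_dvd_natCard z).trans hd
  have hinv : ∀ x : H, x ^ (N - 1) = x⁻¹ := by
    intro x
    rw [eq_inv_iff_mul_eq_one, ← pow_succ, Nat.sub_add_cancel hN,
      ← orderOf_dvd_iff_pow_eq_one]
    exact (orderOf_dvd_natCard x).trans hd
  have hco : (N - 1).Coprime N := by
    obtain ⟨n, rfl⟩ : ∃ n, N = n + 1 := ⟨N - 1, by omega⟩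
    simp
  obtain ⟨tc, t1, t2, t3, t4⟩ := bt_smul M
  have hw : tc 3 ^ 3 = 1 := by
    rw [pow_succ, pow_two, ← t3, ← t3, show (3 : K) * 3 * 3 = 1 by decide, t2]
  have hc : ∀ x, Commute x z := fun x =>
    (scal_central ρ hinj z ⟨3, by decide, hz⟩ x).symm
  have hb : ∀ x, bt (ρ (x * z)) M = tc 3 * bt (ρ x) M := by
    intro x
    have e : ρ (x * z) = (3 : K) • ρ x := LinearMap.ext fun v => by
      rw [rho_mul, hz, map_smul, LinearMap.smul_apply]
    rw [e]
    exact t4 V (ρ x) (Nat.card H) h13 (by rw [← map_pow, pow_card_eq_one', map_one]) 3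
      (by decide)
  have hu : IsUnit (tc 3 - tc 3 ^ 2) := by
    apply red_unit
    rw [map_sub, map_pow, t1]
    decide
  have key : ∀ i : ℕ, i.Coprime N → i % 3 = 1 →
      bt (ρ (h ^ i)) M + bt (ρ (h ^ i)⁻¹) M = bt (ρ h) M + bt (ρ h⁻¹) M := by
    intro i hi hi3
    refine xssphu_main (fun x => bt (ρ x) M) (fun x y e => bt_isConj ρ x y e M) z (tc 3) i hc h3
      hi3 hw hb hu (fun x => ?_) h
    have := hS x i (N - 1) hi hco
    rw [pow_mul, hinv, hinv] at this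
    exact this
  rw [pow_mul, hinv, hinv]
  have hj3 : ¬ 3 ∣ j := by
    intro e
    have := Nat.dvd_gcd e hN3
    rw [hj] at this
    omega
  by_cases e : j % 3 = 1
  · exact key j hj e
  · have e2 : j % 3 = 2 := by omega
    have e3 : (N - 1) % 3 = 2 := by omega
    have := key (j * (N - 1)) (Nat.Coprime.mul_left hj hco) (by rw [Nat.mul_mod, e2, e3])
    rw [pow_mul, hinv, inv_inv, add_comm] at this
    exact this

end Pool.Agent.N9181

end
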